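import Pool.Agent.Lib.MP_d8bd92_nt.Hp.MT2

set_option autoImplicit false

/-! Few pairs with `max |x| |y| ≥ Y ^ (1/2 + e1)`. -/

namespace Pool.Agent.Lib.MP_d8bd92_nt

namespace Hp

open Finset Pool.Agent.Lib.Szpiro

theorem main_true (K e1 : ℝ) (hK : 2 ≤ K) (he : 0 < e1) : Few K (-3 / 2 + e1) (fun _ _ => True) := by
  have h : (-3 / 2 + e1 : ℝ) = -(3 / 2) + e1 := by ring
  rw [h]
  exact main_true' K e1 hK he

end Hp

end Pool.Agent.Lib.MP_d8bd92_nt
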