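import Pool.Agent.Lib.MP_d8bd92_nt.Hp.Defs

set_option autoImplicit false

/-!
Pair layer: ideals (E, √D - r): membership.
-/

namespace Pool.Agent.Lib.MP_d8bd92_nt

namespace Hp

open Finset Pool.Agent.Lib.Szpiro

/-- `(E, √D - r)` consists of the `a + b √D` with `E ∣ a + b r`. -/
theorem mem_idl {D : ℤ} {E : ℕ} {r : ℤ} (h : (E : ℤ) ∣ r ^ 2 - D) (z : ℤ√D) :
    z ∈ idl D E r ↔ (E : ℤ) ∣ z.re + z.im * r := by
  unfold idl
  rw [Ideal.mem_span_pair]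
  constructor
  · rintro ⟨a, b, rfl⟩
    obtain ⟨k, hk⟩ := h
    refine ⟨a.re + a.im * r - k * b.im, ?_⟩
    simp only [Zsqrtd.re_add, Zsqrtd.im_add, Zsqrtd.re_mul, Zsqrtd.im_mul, Zsqrtd.re_natCast, Zsqrtd.im_natCast]
    linear_combination (-b.im) * hk
  · rintro ⟨k, hk⟩
    refine ⟨(⟨k, 0⟩ : ℤ√D), (⟨z.im, 0⟩ : ℤ√D), ?_⟩
    ext
    · simp only [Zsqrtd.re_add, Zsqrtd.re_mul, Zsqrtd.re_natCast, Zsqrtd.im_natCast]
      linear_combination -hk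
    · simp only [Zsqrtd.im_add, Zsqrtd.im_mul, Zsqrtd.re_natCast, Zsqrtd.im_natCast]
      ring

theorem ala_le {D : ℤ} {E : ℕ} {r r' : ℤ} (h : (E : ℤ) ∣ r - r') : idl D E r ≤ idl D E r' := by
  unfold idl
  rw [Ideal.span_le]
  intro z hz
  rcases hz with rfl | hz
  · exact Ideal.subset_span (by simp)
  · rw [Set.mem_singleton_iff] at hz
    subst hz
    obtain ⟨k, hk⟩ := h
    rw [SetLike.mem_coe, Ideal.mem_span_pair]
    refine ⟨(⟨-k, 0⟩ : ℤ√D), 1, ?_⟩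
    ext
    · simp only [Zsqrtd.re_add, Zsqrtd.re_mul, Zsqrtd.re_natCast, Zsqrtd.im_natCast, one_mul]
      linear_combination hk
    · simp only [Zsqrtd.im_add, Zsqrtd.im_mul, Zsqrtd.re_natCast, Zsqrtd.im_natCast, one_mul]
      ring

theorem idl_congr {D : ℤ} {E : ℕ} {r r' : ℤ} (h : (E : ℤ) ∣ r - r') : idl D E r = idl D E r' := by
  apply le_antisymm
  · exact ala_le h
  · apply ala_le
    have : r' - r = -(r - r') := by ring
    rw [this]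
    exact (dvd_neg.mpr h)

theorem idl_inj {D : ℤ} {E E' : ℕ} {r r' : ℤ} (hE : 1 ≤ E) (hE' : 1 ≤ E') (h : (E : ℤ) ∣ r ^ 2 - D)
    (h' : (E' : ℤ) ∣ r' ^ 2 - D) (he : idl D E r = idl D E' r') : E = E' ∧ (E : ℤ) ∣ r - r' := by
  have h1 : (E : ℤ√D) ∈ idl D E r := Ideal.subset_span (by simp)
  have h1' : (E' : ℤ√D) ∈ idl D E' r' := Ideal.subset_span (by simp)
  have h2 : (⟨-r, 1⟩ : ℤ√D) ∈ idl D E r := Ideal.subset_span (by simp)
  rw [he, mem_idl h'] at h1 h2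
  rw [← he, mem_idl h] at h1'
  simp only [Zsqrtd.re_natCast, Zsqrtd.im_natCast, zero_mul, add_zero] at h1 h1'
  have h3 : E = E' := Nat.dvd_antisymm (by exact_mod_cast h1') (by exact_mod_cast h1)
  refine ⟨h3, ?_⟩
  subst h3
  have h4 : r - r' = -(-r + 1 * r') := by ring
  rw [h4]
  exact (dvd_neg.mpr h2)

end Hp

end Pool.Agent.Lib.MP_d8bd92_nt
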