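import Pool.Agent.Lib.MP_d8bd92_nt.Hp.LC0

set_option autoImplicit false

/-!
Pair layer: conjugation of ideals, size.
-/

namespace Pool.Agent.Lib.MP_d8bd92_nt

namespace Hp

open Finset Pool.Agent.Lib.Szpiro

private theorem AlB_star_nat {D : ℤ} (n : ℕ) : star (n : ℤ√D) = (n : ℤ√D) := by
  ext
  · simp
  · simp

private theorem AlB_pair_neg {D : ℤ} (a b : ℤ√D) :
    Ideal.span ({a, -b} : Set (ℤ√D)) = Ideal.span {a, b} := by
  rw [Ideal.span_insert, Ideal.span_insert, Ideal.span_singleton_neg]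

theorem cj_idl (D : ℤ) (E : ℕ) (r : ℤ) : cj (idl D E r) = idl D E (-r) := by
  rw [cj, idl, idl, Ideal.map_span, Set.image_pair, starRingEnd_apply, starRingEnd_apply,
    AlB_star_nat]
  have h : star (⟨-r, 1⟩ : ℤ√D) = -(⟨- -r, 1⟩ : ℤ√D) := by
    ext
    · simp
    · simp
  rw [h, AlB_pair_neg]

theorem cj_span {D : ℤ} (z : ℤ√D) : cj (Ideal.span {z}) = Ideal.span {star z} := by
  rw [cj, Ideal.map_span, Set.image_singleton, starRingEnd_apply]

theorem norm_eq' {D : ℤ} (z : ℤ√D) : z.norm = z.re ^ 2 - z.im ^ 2 * D := by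
  rw [Zsqrtd.norm_def]
  ring

theorem lbl_one {D : ℤ} (z : ℤ√D) : lbl 1 z = ⊤ := by
  rw [lbl, Ideal.eq_top_iff_one]
  refine Ideal.subset_span ?_
  simp

theorem cj_lbl {D : ℤ} (z : ℤ√D) (A : ℕ) : cj (lbl A z) = lbl A (star z) := by
  rw [cj, lbl, lbl, Ideal.map_span, Set.image_pair, starRingEnd_apply, starRingEnd_apply,
    AlB_star_nat]

theorem norm_le_hh {D : ℤ} (z : ℤ√D) : |z.norm| ≤ hh z := by
  rw [norm_eq', hh]
  have h1 : |z.re ^ 2 - z.im ^ 2 * D| ≤ |z.re ^ 2| + |z.im ^ 2 * D| := abs_sub _ _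
  rw [abs_mul, abs_of_nonneg (sq_nonneg z.re), abs_of_nonneg (sq_nonneg z.im)] at h1
  linarith [mul_comm (z.im ^ 2) |D|]

theorem hh_mul {D : ℤ} (z w : ℤ√D) : hh (z * w) ≤ 2 * hh z * hh w := by
  simp only [hh, Zsqrtd.re_mul, Zsqrtd.im_mul]
  have h1 : D ^ 2 = |D| ^ 2 := (sq_abs D).symm
  have h2 := sq_nonneg (z.re * w.re - D * z.im * w.im)
  have h3 := mul_nonneg (abs_nonneg D) (sq_nonneg (z.re * w.im - z.im * w.re))
  have h4 : 2 * (z.re ^ 2 + |D| * z.im ^ 2) * (w.re ^ 2 + |D| * w.im ^ 2) -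
      ((z.re * w.re + D * z.im * w.im) ^ 2 + |D| * (z.re * w.im + z.im * w.re) ^ 2) =
      (z.re * w.re - D * z.im * w.im) ^ 2 + |D| * (z.re * w.im - z.im * w.re) ^ 2 +
        2 * (z.im * w.im) ^ 2 * (|D| ^ 2 - D ^ 2) := by
    ring
  rw [h1, sub_self, mul_zero, add_zero] at h4
  linarith

end Hp

end Pool.Agent.Lib.MP_d8bd92_nt
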