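import Pool.Agent.Lib.MP_d8bd92_nt.Hp.AlB

set_option autoImplicit false

/-!
Pair layer: coprime factorisation of labels.
-/

namespace Pool.Agent.Lib.MP_d8bd92_nt

namespace Hp

open Finset Pool.Agent.Lib.Szpiro

private theorem AlC_gen {R : Type} [CommRing R] (a b s : R) (h : IsCoprime a b) :
    Ideal.span {a * b, s} = Ideal.span {a, s} * Ideal.span {b, s} := by
  obtain ⟨u, v, huv⟩ := h
  rw [Ideal.span_pair_mul_span_pair]
  apply le_antisymm
  · rw [Ideal.span_le]
    rintro x (rfl | rfl)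
    · exact Ideal.subset_span (by simp)
    · have h1 : x = u * (a * x) + v * (x * b) := by linear_combination (-x) * huv
      have h2 : u * (a * x) + v * (x * b) ∈ Ideal.span {a * b, a * x, x * b, x * x} :=
        Ideal.add_mem _ (Ideal.mul_mem_left _ _ (Ideal.subset_span (by simp)))
          (Ideal.mul_mem_left _ _ (Ideal.subset_span (by simp)))
      rwa [← h1] at h2
  · rw [Ideal.span_le]
    have hs : s ∈ Ideal.span {a * b, s} := Ideal.subset_span (by simp)
    rintro x (rfl | rfl | rfl | rfl)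
    · exact Ideal.subset_span (by simp)
    · exact Ideal.mul_mem_left _ _ hs
    · exact Ideal.mul_mem_right _ _ hs
    · exact Ideal.mul_mem_left _ _ hs

theorem idl_mul_coprime {D : ℤ} {E E' : ℕ} (r : ℤ) (h : Nat.Coprime E E') :
    idl D (E * E') r = idl D E r * idl D E' r := by
  unfold idl
  rw [Nat.cast_mul]
  exact AlC_gen _ _ _ h.cast

theorem lbl_coprime_mul {D : ℤ} (z : ℤ√D) {A B : ℕ} (h : Nat.Coprime A B) :
    lbl (A * B) z = lbl A z * lbl B z := by
  unfold lbl
  rw [Nat.cast_mul]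
  exact AlC_gen _ _ _ h.cast

/-- `(|N z|, z) = (z)` -/
theorem lbl_natAbs_norm {D : ℤ} (z : ℤ√D) : lbl z.norm.natAbs z = Ideal.span {z} := by
  have h1 : z ∣ ((z.norm : ℤ) : ℤ√D) := ⟨star z, Zsqrtd.norm_eq_mul_conj z⟩
  have h2 : z ∣ ((z.norm.natAbs : ℕ) : ℤ√D) := by
    rw [← Int.cast_natCast (R := ℤ√D) z.norm.natAbs]
    rcases Int.natAbs_eq z.norm with h | h
    · rwa [← h]
    · have h3 : ((z.norm.natAbs : ℕ) : ℤ) = -z.norm := by omega
      rw [h3, Int.cast_neg]
      exact (dvd_neg).2 h1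
  unfold lbl
  apply le_antisymm
  · rw [Ideal.span_le]
    rintro x (rfl | rfl)
    · exact Ideal.mem_span_singleton.2 h2
    · exact Ideal.mem_span_singleton_self _
  · rw [Ideal.span_le]
    rintro x rfl
    exact Ideal.subset_span (by simp)

end Hp

end Pool.Agent.Lib.MP_d8bd92_nt
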