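import Pool.Agent.Lib.MP_d8bd92_nt.Hp.AlC

set_option autoImplicit false

/-!
Pair layer: powers of labels, label times conjugate.
-/

namespace Pool.Agent.Lib.MP_d8bd92_nt

namespace Hp

open Finset Pool.Agent.Lib.Szpiro

private theorem AlD_cop {D a x : ℤ} (ha : Odd a) (hc : IsCoprime a D) (h : a ∣ x ^ 2 - D) :
    IsCoprime a (2 * x) := by
  obtain ⟨k, hk⟩ := h
  have h1 : IsCoprime a (x ^ 2) := by
    have h2 := hc.add_mul_left_right k
    have h3 : D + a * k = x ^ 2 := by rw [← hk]; ring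
    rwa [h3] at h2
  have h4 : IsCoprime a x := (IsCoprime.pow_right_iff (by norm_num)).1 h1
  have h5 : IsCoprime a 2 := by
    obtain ⟨m, hm⟩ := ha
    exact ⟨1, -m, by rw [hm]; ring⟩
  exact IsCoprime.mul_right h5 h4

private theorem AlD_pair {R : Type} [CommRing R] {a z w n u v1 v2 : R} (h1 : z * w = a * n)
    (h2 : u * a + v1 * z + v2 * w = 1) :
    Ideal.span {a, z} * Ideal.span {a, w} = Ideal.span ({a} : Set R) := by
  rw [Ideal.span_pair_mul_span_pair]
  apply le_antisymm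
  · rw [Ideal.span_le]
    intro y hy
    rw [SetLike.mem_coe, Ideal.mem_span_singleton]
    simp only [Set.mem_insert_iff, Set.mem_singleton_iff] at hy
    rcases hy with rfl | rfl | rfl | rfl
    · exact dvd_mul_right a a
    · exact dvd_mul_right a w
    · exact dvd_mul_left a z
    · rw [h1]
      exact dvd_mul_right a n
  · rw [Ideal.span_le]
    intro y hy
    rw [Set.mem_singleton_iff] at hy
    rw [hy, SetLike.mem_coe]
    have h3 : a = u * (a * a) + v1 * (z * a) + v2 * (a * w) := by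
      linear_combination (-a) * h2
    have m1 : a * a ∈ Ideal.span ({a * a, a * w, z * a, z * w} : Set R) :=
      Ideal.subset_span (by simp)
    have m2 : z * a ∈ Ideal.span ({a * a, a * w, z * a, z * w} : Set R) :=
      Ideal.subset_span (by simp)
    have m3 : a * w ∈ Ideal.span ({a * a, a * w, z * a, z * w} : Set R) :=
      Ideal.subset_span (by simp)
    have h4 := Ideal.add_mem _ (Ideal.add_mem _ (Ideal.mul_mem_left _ u m1)
      (Ideal.mul_mem_left _ v1 m2)) (Ideal.mul_mem_left _ v2 m3)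
    rw [← h3] at h4
    exact h4

private theorem AlD_castE {D : ℤ} {E : ℕ} {x u v : ℤ} (h : u * (E : ℤ) + v * x = 1) :
    (u : ℤ√D) * (E : ℤ√D) + (v : ℤ√D) * (x : ℤ√D) = 1 := by
  have h1 := congrArg (Int.cast : ℤ → ℤ√D) h
  push_cast at h1
  exact h1

private theorem AlD_tr {D : ℤ} (z : ℤ√D) : z + star z = ((2 * z.re : ℤ) : ℤ√D) := by
  apply Zsqrtd.ext
  · simp
    ring
  · simp

theorem idl_mul_cj {D : ℤ} {E : ℕ} {r : ℤ} (ho : Odd E) (hc : IsCoprime (E : ℤ) D)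
    (h : (E : ℤ) ∣ r ^ 2 - D) : idl D E r * cj (idl D E r) = Ideal.span {(E : ℤ√D)} := by
  have hoZ : Odd (E : ℤ) := by exact_mod_cast ho
  obtain ⟨u, v, huv⟩ := AlD_cop hoZ hc h
  obtain ⟨k, hk⟩ := h
  have h1 := AlD_castE (D := D) huv
  rw [cj_idl]
  unfold idl
  refine AlD_pair (n := ((-k : ℤ) : ℤ√D)) (u := (u : ℤ√D)) (v1 := (-v : ℤ) ) (v2 := (v : ℤ√D)) ?_ ?_
  · have hk' : D - r ^ 2 = (E : ℤ) * (-k) := by linarith
    apply Zsqrtd.ext
    · simp
      linarith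
    · simp
  · rw [← h1]
    have h2 : (((2 * r : ℤ)) : ℤ√D) = (⟨- -r, 1⟩ : ℤ√D) - (⟨-r, 1⟩ : ℤ√D) := by
      apply Zsqrtd.ext
      · simp
        ring
      · simp
    rw [h2]
    push_cast
    ring

private theorem AlD_copN {D : ℤ} (z : ℤ√D) {A : ℕ} (ho : Odd A) (hd : (A : ℤ) ∣ z.norm)
    (hc : IsCoprime z.norm (z.im ^ 2 * D)) : IsCoprime (A : ℤ) (2 * z.re) := by
  have hoZ : Odd (A : ℤ) := by exact_mod_cast ho
  refine AlD_cop hoZ (IsCoprime.of_isCoprime_of_dvd_left hc hd) (x := z.re) ?_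
  rw [← norm_eq']
  exact hd

/-- `(A B, z) = (A, z) (B, z)` if `A B` is odd and divides `N z`, `N z` prime to `y` -/
theorem lbl_mul {D : ℤ} (z : ℤ√D) {A B : ℕ} (ho : Odd (A * B)) (hd : ((A * B : ℕ) : ℤ) ∣ z.norm)
    (hc : IsCoprime z.norm (z.im ^ 2 * D)) : lbl (A * B) z = lbl A z * lbl B z := by
  obtain ⟨u, v, huv⟩ := AlD_copN z ho hd hc
  have h1 := AlD_castE (D := D) huv
  obtain ⟨k, hk⟩ := hd
  have hn : z * star z = ((A * B : ℕ) : ℤ√D) * (k : ℤ√D) := by
    rw [← Zsqrtd.norm_eq_mul_conj, hk]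
    push_cast
    ring
  rw [← AlD_tr] at h1
  unfold lbl
  rw [Ideal.span_pair_mul_span_pair]
  apply le_antisymm
  · rw [Ideal.span_le]
    intro y hy
    rw [SetLike.mem_coe]
    simp only [Set.mem_insert_iff, Set.mem_singleton_iff] at hy
    have m1 : ((A * B : ℕ) : ℤ√D) ∈ Ideal.span
        ({(A : ℤ√D) * B, (A : ℤ√D) * z, z * B, z * z} : Set (ℤ√D)) :=
      Ideal.subset_span (by simp)
    have m2 : z * z ∈ Ideal.span
        ({(A : ℤ√D) * B, (A : ℤ√D) * z, z * B, z * z} : Set (ℤ√D)) :=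
      Ideal.subset_span (by simp)
    rcases hy with rfl | rfl
    · exact m1
    · have h3 : y = (u * y + v * k) * ((A * B : ℕ) : ℤ√D) + v * (y * y) := by
        linear_combination (-y) * h1 + (v : ℤ√D) * hn
      have h4 := Ideal.add_mem _ (Ideal.mul_mem_left _ ((u : ℤ√D) * y + v * k) m1)
        (Ideal.mul_mem_left _ (v : ℤ√D) m2)
      rw [← h3] at h4
      exact h4
  · rw [Ideal.span_le]
    intro y hy
    rw [SetLike.mem_coe]
    have m1 : ((A * B : ℕ) : ℤ√D) ∈ Ideal.span ({((A * B : ℕ) : ℤ√D), z} : Set (ℤ√D)) :=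
      Ideal.subset_span (by simp)
    have m2 : z ∈ Ideal.span ({((A * B : ℕ) : ℤ√D), z} : Set (ℤ√D)) :=
      Ideal.subset_span (by simp)
    simp only [Set.mem_insert_iff, Set.mem_singleton_iff] at hy
    rcases hy with rfl | rfl | rfl | rfl
    · rw [← Nat.cast_mul]
      exact m1
    · exact Ideal.mul_mem_left _ _ m2
    · exact Ideal.mul_mem_right _ _ m2
    · exact Ideal.mul_mem_left _ _ m2

theorem lbl_pow {D : ℤ} (z : ℤ√D) {t l : ℕ} (ho : Odd t) (hd : ((t ^ l : ℕ) : ℤ) ∣ z.norm)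
    (hc : IsCoprime z.norm (z.im ^ 2 * D)) : lbl (t ^ l) z = lbl t z ^ l := by
  induction l with
  | zero => rw [pow_zero, pow_zero, lbl_one, Ideal.one_eq_top]
  | succ l ih =>
    rw [pow_succ] at hd
    have h1 : ((t ^ l : ℕ) : ℤ) ∣ z.norm := by
      refine dvd_trans ?_ hd
      push_cast
      exact dvd_mul_right _ _
    rw [pow_succ, pow_succ, lbl_mul z ((ho.pow).mul ho) hd hc, ih h1]

theorem lbl_mul_cj {D : ℤ} (z : ℤ√D) {A : ℕ} (ho : Odd A) (hd : (A : ℤ) ∣ z.norm)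
    (hc : IsCoprime z.norm (z.im ^ 2 * D)) : lbl A z * cj (lbl A z) = Ideal.span {(A : ℤ√D)} := by
  obtain ⟨u, v, huv⟩ := AlD_copN z ho hd hc
  have h1 := AlD_castE (D := D) huv
  obtain ⟨k, hk⟩ := hd
  have hn : z * star z = (A : ℤ√D) * (k : ℤ√D) := by
    rw [← Zsqrtd.norm_eq_mul_conj, hk]
    push_cast
    ring
  rw [← AlD_tr] at h1
  rw [cj_lbl]
  unfold lbl
  refine AlD_pair (u := (u : ℤ√D)) (v1 := (v : ℤ√D)) (v2 := (v : ℤ√D)) hn ?_
  rw [← h1]
  ring

end Hp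

end Pool.Agent.Lib.MP_d8bd92_nt
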