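import Pool.Agent.Lib.MP_d8bd92_nt.Hp.AlA
import Pool.Agent.Lib.MP_d8bd92_nt.Hp.AlD

set_option autoImplicit false

/-!
Pair layer: labels are ideals (E, √D - r).
-/

namespace Pool.Agent.Lib.MP_d8bd92_nt

namespace Hp

open Finset Pool.Agent.Lib.Szpiro

/-- a label is an ideal `(A, √D - r)` -/
theorem lbl_eq_idl {D : ℤ} (z : ℤ√D) {A : ℕ} (hA : 1 ≤ A) (hd : (A : ℤ) ∣ z.norm)
    (hc : IsCoprime z.norm (z.im ^ 2 * D)) :
    ∃ r : ℤ, (A : ℤ) ∣ r ^ 2 - D ∧ (A : ℤ) ∣ z.re + z.im * r ∧ lbl A z = idl D A r := by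
  have hAc : IsCoprime (A : ℤ) (z.im ^ 2 * D) := IsCoprime.of_isCoprime_of_dvd_left hc hd
  have hAi2 : IsCoprime (A : ℤ) (z.im ^ 2) := IsCoprime.of_mul_right_left hAc
  have hAi : IsCoprime (A : ℤ) z.im := (IsCoprime.pow_right_iff (by norm_num)).1 hAi2
  obtain ⟨u, v, huv⟩ := hAi
  obtain ⟨k, hk⟩ : (A : ℤ) ∣ z.re + z.im * (-(z.re * v)) :=
    ⟨z.re * u, by linear_combination (- z.re) * huv⟩
  refine ⟨-(z.re * v), ?_, ⟨k, hk⟩, ?_⟩
  · refine hAi2.dvd_of_dvd_mul_left ?_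
    have h1 : z.im ^ 2 * ((-(z.re * v)) ^ 2 - D)
        = (z.im * (-(z.re * v)) - z.re) * (z.re + z.im * (-(z.re * v))) + z.norm := by
      rw [norm_eq']; ring
    rw [h1]
    exact dvd_add (Dvd.dvd.mul_left ⟨k, hk⟩ _) hd
  · have hz : z = (z.im : ℤ√D) * (⟨-(-(z.re * v)), 1⟩ : ℤ√D) + (k : ℤ√D) * (A : ℤ√D) := by
      ext
      · simp
        have := hk
        linarith
      · simp
    have hg : (⟨-(-(z.re * v)), 1⟩ : ℤ√D) = ((u : ℤ√D) * (⟨-(-(z.re * v)), 1⟩ : ℤ√D)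
        - (v : ℤ√D) * (k : ℤ√D)) * (A : ℤ√D) + (v : ℤ√D) * z := by
      have h1 : ((u : ℤ√D)) * (A : ℤ√D) + (v : ℤ√D) * (z.im : ℤ√D) = 1 := by
        have := congrArg (fun t : ℤ => (t : ℤ√D)) huv
        simpa using this
      linear_combination (-(⟨-(-(z.re * v)), 1⟩ : ℤ√D)) * h1 - (v : ℤ√D) * hz
    unfold lbl idl
    refine le_antisymm ?_ ?_
    · rw [Ideal.span_le]
      intro x hx
      rcases hx with hx | hx
      · rw [hx]
        exact Ideal.subset_span (by simp)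
      · rw [Set.mem_singleton_iff.1 hx]
        exact Ideal.mem_span_pair.2 ⟨(k : ℤ√D), (z.im : ℤ√D), by rw [add_comm]; exact hz.symm⟩
    · rw [Ideal.span_le]
      intro x hx
      rcases hx with hx | hx
      · rw [hx]
        exact Ideal.subset_span (by simp)
      · rw [Set.mem_singleton_iff.1 hx]
        exact Ideal.mem_span_pair.2 ⟨_, _, hg.symm⟩

/-- equal labels: same `A`, proportional `z` modulo `A` -/
theorem lbl_inj {D : ℤ} (z z' : ℤ√D) {A A' : ℕ} (hA : 1 ≤ A) (hA' : 1 ≤ A') (hd : (A : ℤ) ∣ z.norm)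
    (hd' : (A' : ℤ) ∣ z'.norm) (hc : IsCoprime z.norm (z.im ^ 2 * D))
    (hc' : IsCoprime z'.norm (z'.im ^ 2 * D)) (he : lbl A z = lbl A' z') :
    A = A' ∧ (A : ℤ) ∣ z.re * z'.im - z'.re * z.im := by
  obtain ⟨r, h1, ⟨p, h2⟩, h3⟩ := lbl_eq_idl z hA hd hc
  obtain ⟨r', h1', ⟨q, h2'⟩, h3'⟩ := lbl_eq_idl z' hA' hd' hc'
  have he' : idl D A r = idl D A' r' := by rw [← h3, ← h3', he]
  obtain ⟨hAA, s, hs⟩ := idl_inj hA hA' h1 h1' he'
  refine ⟨hAA, ?_⟩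
  subst hAA
  refine ⟨p * z'.im - q * z.im - z.im * z'.im * s, ?_⟩
  linear_combination z'.im * h2 - z.im * h2' - z.im * z'.im * hs

end Hp

end Pool.Agent.Lib.MP_d8bd92_nt
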