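import Pool.Agent.Lib.MP_d8bd92_nt.Hp.AlA

set_option autoImplicit false

/-!
Pair layer: number of roots.
-/

namespace Pool.Agent.Lib.MP_d8bd92_nt

namespace Hp

open Finset Pool.Agent.Lib.Szpiro

private theorem AlF_dvd {A r r0 : ℤ} {d c : ℤ} (hd0 : d ≠ 0) (hA : A = d * c)
    (hd : d = (Int.gcd A (r - r0) : ℤ)) (h : A ∣ (r - r0) * (r + r0)) : c ∣ r + r0 := by
  have h1 : A ∣ (Int.gcd A (r - r0) : ℤ) * (r + r0) := by
    have h2 : (Int.gcd A (r - r0) : ℤ) * (r + r0) = A * (Int.gcdA A (r - r0)) * (r + r0) +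
        (r - r0) * (r + r0) * (Int.gcdB A (r - r0)) := by
      rw [Int.gcd_eq_gcd_ab]
      ring
    rw [h2]
    refine dvd_add ?_ (Dvd.dvd.mul_right h _)
    rw [mul_assoc]
    exact Dvd.intro _ rfl
  rw [← hd, hA] at h1
  exact (mul_dvd_mul_iff_left hd0).1 h1

private theorem AlF_inj {D : ℤ} {A : ℕ} (ho : Odd A) (hc : IsCoprime (A : ℤ) D) {r r' r0 : ℤ}
    (h0 : (A : ℤ) ∣ r0 ^ 2 - D) (h : (A : ℤ) ∣ r ^ 2 - D) (h' : (A : ℤ) ∣ r' ^ 2 - D)
    (he : Int.gcd (A : ℤ) (r - r0) = Int.gcd (A : ℤ) (r' - r0)) : (A : ℤ) ∣ r - r' := by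
  have hA0 : (A : ℤ) ≠ 0 := by
    have := ho.pos
    exact_mod_cast this.ne'
  obtain ⟨d, hd⟩ : ∃ d : ℤ, d = (Int.gcd (A : ℤ) (r - r0) : ℤ) := ⟨_, rfl⟩
  have hd' : d = (Int.gcd (A : ℤ) (r' - r0) : ℤ) := by rw [hd, he]
  have hdA : d ∣ (A : ℤ) := by rw [hd]; exact Int.gcd_dvd_left _ _
  obtain ⟨c, hAc⟩ := hdA
  have hd0 : d ≠ 0 := by
    rintro rfl
    rw [zero_mul] at hAc
    exact hA0 hAc
  have hdr : d ∣ r - r0 := by rw [hd]; exact Int.gcd_dvd_right _ _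
  have hdr' : d ∣ r' - r0 := by rw [hd']; exact Int.gcd_dvd_right _ _
  have hcr : c ∣ r + r0 := by
    refine AlF_dvd hd0 hAc hd ?_
    have : (r - r0) * (r + r0) = (r ^ 2 - D) - (r0 ^ 2 - D) := by ring
    rw [this]
    exact dvd_sub h h0
  have hcr' : c ∣ r' + r0 := by
    refine AlF_dvd hd0 hAc hd' ?_
    have : (r' - r0) * (r' + r0) = (r' ^ 2 - D) - (r0 ^ 2 - D) := by ring
    rw [this]
    exact dvd_sub h' h0
  have h2 : IsCoprime (A : ℤ) 2 := by
    obtain ⟨k, hk⟩ := ho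
    refine ⟨1, -(k : ℤ), ?_⟩
    rw [hk]
    push_cast
    ring
  have h3 : IsCoprime (A : ℤ) r0 := by
    obtain ⟨k, hk⟩ := h0
    have h4 : IsCoprime (A : ℤ) (r0 ^ 2) := by
      have h5 : r0 ^ 2 = D + (A : ℤ) * k := by linarith
      rw [h5]
      exact hc.add_mul_left_right k
    exact (IsCoprime.pow_right_iff (by norm_num)).1 h4
  have h4 : IsCoprime (A : ℤ) (2 * r0) := IsCoprime.mul_right h2 h3
  have hdc : IsCoprime d c := by
    rw [Int.isCoprime_iff_gcd_eq_one]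
    have h5 : ((Int.gcd d c : ℕ) : ℤ) ∣ (A : ℤ) :=
      (Int.gcd_dvd_left d c).trans ⟨c, hAc⟩
    have h6 : ((Int.gcd d c : ℕ) : ℤ) ∣ 2 * r0 := by
      have h7 : 2 * r0 = (r + r0) - (r - r0) := by ring
      rw [h7]
      exact dvd_sub ((Int.gcd_dvd_right d c).trans hcr) ((Int.gcd_dvd_left d c).trans hdr)
    have h8 := h4.isUnit_of_dvd' h5 h6
    have h9 := Int.isUnit_iff_natAbs_eq.1 h8
    simpa using h9
  rw [hAc]
  refine hdc.mul_dvd ?_ ?_
  · have h7 : r - r' = (r - r0) - (r' - r0) := by ring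
    rw [h7]
    exact dvd_sub hdr hdr'
  · have h7 : r - r' = (r + r0) - (r' + r0) := by ring
    rw [h7]
    exact dvd_sub hcr hcr'

/-- number of square roots of `D` modulo `A` -/
theorem card_roots {D : ℤ} {A : ℕ} (ho : Odd A) (hc : IsCoprime (A : ℤ) D) :
    ((range A).filter (fun r : ℕ => (A : ℤ) ∣ (r : ℤ) ^ 2 - D)).card ≤ A.divisors.card := by
  rcases ((range A).filter (fun r : ℕ => (A : ℤ) ∣ (r : ℤ) ^ 2 - D)).eq_empty_or_nonempty with
    hE | ⟨r0, hr0⟩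
  · rw [hE]
    simp
  · have h0 := (Finset.mem_filter.1 hr0).2
    refine Finset.card_le_card_of_injOn (fun r : ℕ => Int.gcd (A : ℤ) ((r : ℤ) - (r0 : ℤ))) ?_ ?_
    · intro r _
      rw [Finset.mem_coe, Nat.mem_divisors]
      refine ⟨?_, ho.pos.ne'⟩
      have := Int.gcd_dvd_left (A : ℤ) ((r : ℤ) - (r0 : ℤ))
      exact_mod_cast this
    · intro r hr r' hr' he
      rw [Finset.mem_coe, Finset.mem_filter, Finset.mem_range] at hr hr'
      have h1 := AlF_inj ho hc h0 hr.2 hr'.2 he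
      have h3 : (r : ℤ) - (r' : ℤ) = 0 := by
        refine Int.eq_zero_of_abs_lt_dvd h1 ?_
        rw [abs_lt]
        have := hr.1
        have := hr'.1
        constructor <;> omega
      omega

private theorem AlF_four {D r r0 : ℤ} (hD : Odd D) (e : ℕ) (h : ((2 ^ e : ℕ) : ℤ) ∣ r ^ 2 - D)
    (h0 : ((2 ^ e : ℕ) : ℤ) ∣ r0 ^ 2 - D) :
    ((2 ^ e : ℕ) : ℤ) ∣ r - r0 ∨ ((2 ^ e : ℕ) : ℤ) ∣ r - (r0 + 2 ^ (e - 1)) ∨
    ((2 ^ e : ℕ) : ℤ) ∣ r - (-r0) ∨ ((2 ^ e : ℕ) : ℤ) ∣ r - (-r0 + 2 ^ (e - 1)) := by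
  rcases e with _ | e
  · left
    simp
  · have hodd : ∀ x : ℤ, ((2 ^ (e + 1) : ℕ) : ℤ) ∣ x ^ 2 - D → Odd x := by
      intro x hx
      have h1 : (2 : ℤ) ∣ x ^ 2 - D := by
        refine dvd_trans ?_ hx
        push_cast
        rw [pow_succ]
        exact Dvd.intro_left _ rfl
      have h2 : Odd (x ^ 2) := by
        have h3 : Even (x ^ 2 - D) := (even_iff_two_dvd).2 h1
        have h4 : x ^ 2 = (x ^ 2 - D) + D := by ring
        rw [h4]
        exact h3.add_odd hD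
      exact (Int.odd_pow' (by norm_num)).1 h2
    have hr := hodd r h
    have hr0 := hodd r0 h0
    obtain ⟨a, ha⟩ := hr
    obtain ⟨b, hb⟩ := hr0
    have hprod : ((2 : ℤ) ^ (e + 1)) ∣ 4 * ((a - b) * (a + b + 1)) := by
      have h1 : 4 * ((a - b) * (a + b + 1)) = (r ^ 2 - D) - (r0 ^ 2 - D) := by
        rw [ha, hb]
        ring
      rw [h1]
      have h2 := dvd_sub h h0
      push_cast at h2
      exact h2
    have key : ∀ x y : ℤ, Odd x → ((2 : ℤ) ^ (e + 1)) ∣ 4 * (x * y) →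
        ((2 ^ (e + 1) : ℕ) : ℤ) ∣ 2 * y ∨ ((2 ^ (e + 1) : ℕ) : ℤ) ∣ 2 * y - 2 ^ e := by
      intro x y hx hxy
      have h1 : IsCoprime ((2 : ℤ) ^ (e + 1)) x := by
        refine IsCoprime.pow_left ?_
        obtain ⟨k, hk⟩ := hx
        exact ⟨-k, 1, by rw [hk]; ring⟩
      have h2 : ((2 : ℤ) ^ (e + 1)) ∣ 2 * (2 * y) := by
        refine h1.dvd_of_dvd_mul_left ?_
        have h3 : x * (2 * (2 * y)) = 4 * (x * y) := by ring
        rw [h3]
        exact hxy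
      rw [pow_succ, mul_comm] at h2
      have h3 : ((2 : ℤ) ^ e) ∣ 2 * y := (mul_dvd_mul_iff_left (by norm_num)).1 h2
      obtain ⟨k, hk⟩ := h3
      rcases Int.even_or_odd' k with ⟨m, hm | hm⟩
      · left
        refine ⟨m, ?_⟩
        rw [hk, hm]
        push_cast
        ring
      · right
        refine ⟨m, ?_⟩
        rw [hk, hm]
        push_cast
        ring
    have he : e + 1 - 1 = e := rfl
    rw [he]
    rcases Int.even_or_odd (a - b) with h5 | h5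
    · -- `a + b + 1` is odd
      have h6 : Odd (a + b + 1) := by
        have h7 : a + b + 1 = (a - b) + (2 * b + 1) := by ring
        rw [h7]
        exact h5.add_odd ⟨b, rfl⟩
      have h8 := key (a + b + 1) (a - b) h6 (by rw [mul_comm (a + b + 1)]; exact hprod)
      have h9 : r - r0 = 2 * (a - b) := by rw [ha, hb]; ring
      have h10 : r - (r0 + 2 ^ e) = 2 * (a - b) - 2 ^ e := by rw [ha, hb]; ring
      rw [h9, h10]
      rcases h8 with h8 | h8
      · exact Or.inl h8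
      · exact Or.inr (Or.inl h8)
    · have h8 := key (a - b) (a + b + 1) h5 hprod
      have h9 : r - (-r0) = 2 * (a + b + 1) := by rw [ha, hb]; ring
      have h10 : r - (-r0 + 2 ^ e) = 2 * (a + b + 1) - 2 ^ e := by rw [ha, hb]; ring
      rw [h9, h10]
      rcases h8 with h8 | h8
      · exact Or.inr (Or.inr (Or.inl h8))
      · exact Or.inr (Or.inr (Or.inr h8))

/-- at most four ideals `(2^e, √D - r)` for given `e` -/
theorem card_two {D : ℤ} (hD : Odd D) (e : ℕ) (S : Finset (Ideal (ℤ√D)))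
    (h : ∀ I ∈ S, ∃ r : ℤ, ((2 ^ e : ℕ) : ℤ) ∣ r ^ 2 - D ∧ I = idl D (2 ^ e) r) : S.card ≤ 4 := by
  classical
  rcases S.eq_empty_or_nonempty with hE | ⟨I0, hI0⟩
  · rw [hE]
    simp
  · obtain ⟨r0, h0, _⟩ := h I0 hI0
    have hsub : S ⊆ {idl D (2 ^ e) r0, idl D (2 ^ e) (r0 + 2 ^ (e - 1)), idl D (2 ^ e) (-r0),
        idl D (2 ^ e) (-r0 + 2 ^ (e - 1))} := by
      intro I hI
      obtain ⟨r, hr, rfl⟩ := h I hI
      simp only [Finset.mem_insert, Finset.mem_singleton]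
      rcases AlF_four hD e hr h0 with h1 | h1 | h1 | h1
      · exact Or.inl (idl_congr h1)
      · exact Or.inr (Or.inl (idl_congr h1))
      · exact Or.inr (Or.inr (Or.inl (idl_congr h1)))
      · exact Or.inr (Or.inr (Or.inr (idl_congr h1)))
    exact (Finset.card_le_card hsub).trans Finset.card_le_four

end Hp

end Pool.Agent.Lib.MP_d8bd92_nt
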