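import Pool.Agent.Lib.MP_d8bd92_nt.Hp.Defs
import Pool.Agent.Lib.MP_d8bd92_nt.CdA
import Pool.Agent.Lib.MP_d8bd92_nt.TwRad

set_option autoImplicit false

/-!
Pair layer: number of integers with small radical.
-/

namespace Pool.Agent.Lib.MP_d8bd92_nt

namespace Hp

open Finset Pool.Agent.Lib.Szpiro

private theorem AlJ_rd_pos (n : ℕ) : 0 < rd n := by
  unfold rd
  exact Finset.prod_pos fun p hp => (Nat.prime_of_mem_primeFactors hp).pos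

/-- at most `C Z^ε X` integers `n ≤ Z` have `rad n ≤ X` -/
theorem card_rad_le (ε : ℝ) (hε : 0 < ε) : ∃ C : ℝ, 0 < C ∧ ∀ (Z X : ℝ) (S : Finset ℕ), 1 ≤ Z → 1 ≤ X →
    (∀ n ∈ S, 1 ≤ n ∧ (n : ℝ) ≤ Z ∧ (rd n : ℝ) ≤ X) → (S.card : ℝ) ≤ C * Z ^ ε * X := by
  obtain ⟨C, hC, h⟩ := sum_inv_rd ε hε
  refine ⟨C, by linarith, fun Z X S hZ hX hS => ?_⟩
  have hZ0 : 0 ≤ Z := by linarith
  have hX0 : 0 ≤ X := by linarith
  have hf1 : 1 ≤ ⌊Z⌋₊ := Nat.le_floor (by simpa using hZ)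
  have hsub : S ⊆ Icc 1 ⌊Z⌋₊ := by
    intro n hn
    obtain ⟨h1, h2, -⟩ := hS n hn
    exact Finset.mem_Icc.2 ⟨h1, Nat.le_floor h2⟩
  have hone : ∀ n ∈ S, (1 : ℝ) ≤ X * ((rd n : ℝ))⁻¹ := by
    intro n hn
    obtain ⟨-, -, h3⟩ := hS n hn
    have hr : (0 : ℝ) < (rd n : ℝ) := by exact_mod_cast AlJ_rd_pos n
    rw [← div_eq_mul_inv, le_div_iff₀ hr]
    linarith
  calc (S.card : ℝ) = ∑ _n ∈ S, (1 : ℝ) := by simp
    _ ≤ ∑ n ∈ S, X * ((rd n : ℝ))⁻¹ := Finset.sum_le_sum hone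
    _ ≤ ∑ n ∈ Icc 1 ⌊Z⌋₊, X * ((rd n : ℝ))⁻¹ :=
        Finset.sum_le_sum_of_subset_of_nonneg hsub fun n _ _ => by positivity
    _ = X * ∑ n ∈ Icc 1 ⌊Z⌋₊, ((rd n : ℝ))⁻¹ := by rw [Finset.mul_sum]
    _ ≤ X * (C * (⌊Z⌋₊ : ℝ) ^ ε) := mul_le_mul_of_nonneg_left (h _ hf1) hX0
    _ ≤ X * (C * Z ^ ε) := by
        apply mul_le_mul_of_nonneg_left _ hX0
        apply mul_le_mul_of_nonneg_left _ (by linarith)
        exact Real.rpow_le_rpow (Nat.cast_nonneg _) (Nat.floor_le hZ0) hε.le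
    _ = C * Z ^ ε * X := by ring

theorem card_divisors_le (ε : ℝ) (hε : 0 < ε) : ∃ C : ℝ, 0 < C ∧ ∀ (Z : ℝ) (n : ℕ), 1 ≤ n → (n : ℝ) ≤ Z →
    (n.divisors.card : ℝ) ≤ C * Z ^ ε := by
  obtain ⟨C, hC, h⟩ := card_divisors_le_rpow ε hε
  refine ⟨C, by linarith, fun Z n hn hnZ => (h n (by omega)).trans ?_⟩
  apply mul_le_mul_of_nonneg_left _ (by linarith)
  exact Real.rpow_le_rpow (Nat.cast_nonneg _) hnZ hε.le

end Hp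

end Pool.Agent.Lib.MP_d8bd92_nt
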