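import Pool.Agent.Lib.MP_d8bd92_nt.Hp.AlF
import Pool.Agent.Lib.MP_d8bd92_nt.Hp.AlJ

set_option autoImplicit false

/-!
Pair layer: number of labels.
-/

namespace Pool.Agent.Lib.MP_d8bd92_nt

namespace Hp

open Finset Pool.Agent.Lib.Szpiro

/-- number of ideals `(A, √D - r)`, `A ≤ Z` odd with `rad A ≤ X` -/
theorem card_idl_le (ε : ℝ) (hε : 0 < ε) : ∃ C : ℝ, 0 < C ∧ ∀ (D : ℤ) (Z X : ℝ) (S : Finset (Ideal (ℤ√D))),
    1 ≤ Z → 1 ≤ X → (∀ I ∈ S, ∃ (A : ℕ) (r : ℤ), 1 ≤ A ∧ (A : ℝ) ≤ Z ∧ Odd A ∧ IsCoprime (A : ℤ) D ∧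
      (rd A : ℝ) ≤ X ∧ (A : ℤ) ∣ r ^ 2 - D ∧ I = idl D A r) → (S.card : ℝ) ≤ C * Z ^ ε * X := by
  classical
  obtain ⟨C1, hC1, h1⟩ := card_rad_le (ε / 2) (by linarith)
  obtain ⟨C2, hC2, h2⟩ := card_divisors_le (ε / 2) (by linarith)
  refine ⟨C1 * C2, by positivity, ?_⟩
  intro D Z X S hZ hX hS
  set N : Finset ℕ := (Finset.range (⌊Z⌋₊ + 1)).filter
    (fun A : ℕ => 1 ≤ A ∧ Odd A ∧ IsCoprime (A : ℤ) D ∧ (rd A : ℝ) ≤ X) with hN
  set U : Finset (Ideal (ℤ√D)) := N.biUnion (fun A : ℕ =>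
    ((Finset.range A).filter (fun r : ℕ => (A : ℤ) ∣ (r : ℤ) ^ 2 - D)).image (fun r : ℕ => idl D A (r : ℤ))) with hU
  have hsub : S ⊆ U := by
    intro I hI
    obtain ⟨A, r, hA1, hAZ, hodd, hcop, hrd, hdvd, rfl⟩ := hS I hI
    rw [hU, Finset.mem_biUnion]
    refine ⟨A, ?_, ?_⟩
    · rw [hN, Finset.mem_filter, Finset.mem_range]
      exact ⟨Nat.lt_succ_of_le (Nat.le_floor hAZ), hA1, hodd, hcop, hrd⟩
    · have hA0 : (0 : ℤ) < (A : ℤ) := by exact_mod_cast hA1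
      have hr0 : 0 ≤ r % (A : ℤ) := Int.emod_nonneg _ (ne_of_gt hA0)
      have hr1 : r % (A : ℤ) < A := Int.emod_lt_of_pos _ hA0
      have hcast : (((r % (A : ℤ)).toNat : ℕ) : ℤ) = r % (A : ℤ) := Int.toNat_of_nonneg hr0
      have hd1 : (A : ℤ) ∣ r - (((r % (A : ℤ)).toNat : ℕ) : ℤ) := by
        rw [hcast]
        exact Int.dvd_self_sub_emod
      rw [Finset.mem_image]
      refine ⟨(r % (A : ℤ)).toNat, ?_, ?_⟩
      · rw [Finset.mem_filter, Finset.mem_range]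
        refine ⟨?_, ?_⟩
        · have : (((r % (A : ℤ)).toNat : ℕ) : ℤ) < (A : ℤ) := by rw [hcast]; exact hr1
          exact_mod_cast this
        · have e : ((((r % (A : ℤ)).toNat : ℕ) : ℤ)) ^ 2 - D =
              (r ^ 2 - D) - (r - (((r % (A : ℤ)).toNat : ℕ) : ℤ)) * (r + (((r % (A : ℤ)).toNat : ℕ) : ℤ)) := by ring
          rw [e]
          exact dvd_sub hdvd (hd1.mul_right _)
      · exact (idl_congr hd1).symm
  have hNcard : (N.card : ℝ) ≤ C1 * Z ^ (ε / 2) * X := by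
    apply h1 Z X N hZ hX
    intro n hn
    rw [hN, Finset.mem_filter, Finset.mem_range] at hn
    obtain ⟨hn1, hn2, _, _, hn5⟩ := hn
    refine ⟨hn2, ?_, hn5⟩
    exact (Nat.le_floor_iff (by linarith)).1 (Nat.lt_succ_iff.1 hn1)
  have hUcard : (U.card : ℝ) ≤ (N.card : ℝ) * (C2 * Z ^ (ε / 2)) := by
    have step : (U.card : ℝ) ≤ ∑ A ∈ N, ((((Finset.range A).filter
        (fun r : ℕ => (A : ℤ) ∣ (r : ℤ) ^ 2 - D)).image (fun r : ℕ => idl D A (r : ℤ))).card : ℝ) := by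
      rw [hU]
      exact_mod_cast Finset.card_biUnion_le
    refine step.trans ?_
    have : ∀ A ∈ N, ((((Finset.range A).filter
        (fun r : ℕ => (A : ℤ) ∣ (r : ℤ) ^ 2 - D)).image (fun r : ℕ => idl D A (r : ℤ))).card : ℝ) ≤ C2 * Z ^ (ε / 2) := by
      intro A hA
      rw [hN, Finset.mem_filter, Finset.mem_range] at hA
      obtain ⟨hn1, hn2, hn3, hn4, hn5⟩ := hA
      have hAZ : (A : ℝ) ≤ Z := (Nat.le_floor_iff (by linarith)).1 (Nat.lt_succ_iff.1 hn1)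
      have c1 : (((Finset.range A).filter
        (fun r : ℕ => (A : ℤ) ∣ (r : ℤ) ^ 2 - D)).image (fun r : ℕ => idl D A (r : ℤ))).card ≤ A.divisors.card :=
        Finset.card_image_le.trans (card_roots hn3 hn4)
      calc ((((Finset.range A).filter
        (fun r : ℕ => (A : ℤ) ∣ (r : ℤ) ^ 2 - D)).image (fun r : ℕ => idl D A (r : ℤ))).card : ℝ) ≤ (A.divisors.card : ℝ) := by
            exact_mod_cast c1
        _ ≤ C2 * Z ^ (ε / 2) := h2 Z A hn2 hAZ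
    calc _ ≤ ∑ A ∈ N, C2 * Z ^ (ε / 2) := Finset.sum_le_sum this
      _ = (N.card : ℝ) * (C2 * Z ^ (ε / 2)) := by rw [Finset.sum_const, nsmul_eq_mul]
  have hScard : (S.card : ℝ) ≤ (U.card : ℝ) := by exact_mod_cast Finset.card_le_card hsub
  have hZ0 : 0 < Z := by linarith
  have hpow : Z ^ (ε / 2) * Z ^ (ε / 2) = Z ^ ε := by
    rw [← Real.rpow_add hZ0]
    congr 1
    ring
  calc (S.card : ℝ) ≤ (N.card : ℝ) * (C2 * Z ^ (ε / 2)) := hScard.trans hUcard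
    _ ≤ (C1 * Z ^ (ε / 2) * X) * (C2 * Z ^ (ε / 2)) := by
        apply mul_le_mul_of_nonneg_right hNcard
        positivity
    _ = C1 * C2 * (Z ^ (ε / 2) * Z ^ (ε / 2)) * X := by ring
    _ = C1 * C2 * Z ^ ε * X := by rw [hpow]

end Hp

end Pool.Agent.Lib.MP_d8bd92_nt
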