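import Pool.Agent.Lib.MP_d8bd92_nt.Hp.AlD
import Pool.Agent.Lib.MP_d8bd92_nt.Hp.AlF
import Pool.Agent.Lib.MP_d8bd92_nt.Hp.AlJ

set_option autoImplicit false

/-!
Pair layer: number of pairs of labels with given product.
-/

namespace Pool.Agent.Lib.MP_d8bd92_nt

namespace Hp

open Finset Pool.Agent.Lib.Szpiro

private theorem hdvd {D : ℤ} {m n : ℕ}
    (h : Ideal.span {(m : ℤ√D)} = Ideal.span {(n : ℤ√D)}) : m ∣ n := by
  have h1 : (n : ℤ√D) ∈ Ideal.span {(m : ℤ√D)} := by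
    rw [h]; exact Ideal.subset_span rfl
  rw [Ideal.mem_span_singleton] at h1
  have h2 : (((m : ℤ) : ℤ√D)) ∣ (((n : ℤ) : ℤ√D)) := by
    rw [Int.cast_natCast, Int.cast_natCast]; exact h1
  rw [Zsqrtd.intCast_dvd_intCast] at h2
  exact_mod_cast h2

private theorem heq {D : ℤ} {m n : ℕ}
    (h : Ideal.span {(m : ℤ√D)} = Ideal.span {(n : ℤ√D)}) : m = n :=
  Nat.dvd_antisymm (hdvd h) (hdvd h.symm)

private theorem hlab {D : ℤ} {A : ℕ} {r : ℤ} (hA : 1 ≤ A) (hr : (A : ℤ) ∣ r ^ 2 - D) :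
    ∃ s : ℕ, s < A ∧ (A : ℤ) ∣ (s : ℤ) ^ 2 - D ∧ idl D A r = idl D A s := by
  have hA0 : (0 : ℤ) < A := by exact_mod_cast hA
  have h0 : 0 ≤ r % (A : ℤ) := Int.emod_nonneg _ hA0.ne'
  have h1 : r % (A : ℤ) < A := Int.emod_lt_of_pos _ hA0
  have hs : (((r % (A : ℤ)).toNat : ℕ) : ℤ) = r % (A : ℤ) := Int.toNat_of_nonneg h0
  have hd : (A : ℤ) ∣ r - r % (A : ℤ) := by
    have := Int.emod_add_mul_ediv r (A : ℤ)
    exact ⟨r / A, by linarith⟩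
  refine ⟨(r % (A : ℤ)).toNat, by zify; rw [hs]; exact h1, ?_, ?_⟩
  · rw [hs]
    obtain ⟨k, hk⟩ := hr
    obtain ⟨l, hl⟩ := hd
    refine ⟨k - l * (r + r % (A : ℤ)), ?_⟩
    linear_combination hk - (r + r % (A : ℤ)) * hl
  · rw [hs]; exact idl_congr hd

/-- number of pairs of labels with a given product `I * cj J` -/
theorem card_prod_le (ε : ℝ) (hε : 0 < ε) : ∃ C : ℝ, 0 < C ∧ ∀ (D : ℤ) (Z : ℝ) (Q : Ideal (ℤ√D))
    (S : Finset (Ideal (ℤ√D) × Ideal (ℤ√D))), 1 ≤ Z →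
    (∀ p ∈ S, (∃ (A : ℕ) (r : ℤ), 1 ≤ A ∧ (A : ℝ) ≤ Z ∧ Odd A ∧ IsCoprime (A : ℤ) D ∧ (A : ℤ) ∣ r ^ 2 - D ∧
        p.1 = idl D A r) ∧
      (∃ (A : ℕ) (r : ℤ), 1 ≤ A ∧ (A : ℝ) ≤ Z ∧ Odd A ∧ IsCoprime (A : ℤ) D ∧ (A : ℤ) ∣ r ^ 2 - D ∧
        p.2 = idl D A r) ∧ p.1 * cj p.2 = Q) → (S.card : ℝ) ≤ C * Z ^ ε := by
  classical
  obtain ⟨C1, hC1, hdiv⟩ := card_divisors_le (ε / 6) (by positivity)
  refine ⟨C1 ^ 4, by positivity, ?_⟩
  intro D Z Q S hZ hS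
  have hZ0 : 0 < Z := by linarith
  rcases S.eq_empty_or_nonempty with hemp | ⟨p0, hp0⟩
  · subst hemp
    simp only [Finset.card_empty, Nat.cast_zero]
    positivity
  -- the product of the two moduli
  have key : ∀ p ∈ S, ∀ (A A' : ℕ) (r r' : ℤ), Odd A → IsCoprime (A : ℤ) D → (A : ℤ) ∣ r ^ 2 - D →
      p.1 = idl D A r → Odd A' → IsCoprime (A' : ℤ) D → (A' : ℤ) ∣ r' ^ 2 - D →
      p.2 = idl D A' r' → Q * cj Q = Ideal.span {((A * A' : ℕ) : ℤ√D)} := by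
    intro p hp A A' r r' ho hc hd h1 ho' hc' hd' h2
    have hQ := (hS p hp).2.2
    have e1 : Q * cj Q = (p.1 * cj p.1) * (p.2 * cj p.2) := by
      rw [← hQ, cj_mul, cj_cj]; ring
    rw [e1, h1, h2, idl_mul_cj ho hc hd, idl_mul_cj ho' hc' hd', Ideal.span_singleton_mul_span_singleton]
    push_cast
    rfl
  obtain ⟨⟨A0, r0, hA0, hA0Z, hA0o, hA0c, hA0d, hA0e⟩, ⟨B0, s0, hB0, hB0Z, hB0o, hB0c, hB0d, hB0e⟩, -⟩ :=
    hS p0 hp0
  have hN0 := key p0 hp0 A0 B0 r0 s0 hA0o hA0c hA0d hA0e hB0o hB0c hB0d hB0e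
  set N := A0 * B0 with hN
  have hNpos : 1 ≤ N := Nat.mul_pos hA0 hB0
  have hNZ : (N : ℝ) ≤ Z ^ 2 := by
    rw [hN]; push_cast
    nlinarith [show (0 : ℝ) ≤ (A0 : ℝ) from by positivity, show (0 : ℝ) ≤ (B0 : ℝ) from by positivity]
  let T : Finset (Ideal (ℤ√D)) :=
    (N.divisors.filter (fun A : ℕ => Odd A ∧ IsCoprime (A : ℤ) D ∧ (A : ℝ) ≤ Z)).biUnion
      (fun A => ((range A).filter (fun r : ℕ => (A : ℤ) ∣ (r : ℤ) ^ 2 - D)).image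
        (fun r : ℕ => idl D A (r : ℤ)))
  have hmem : ∀ (A : ℕ) (r : ℤ), 1 ≤ A → A ∣ N → (A : ℝ) ≤ Z → Odd A → IsCoprime (A : ℤ) D →
      (A : ℤ) ∣ r ^ 2 - D → idl D A r ∈ T := by
    intro A r hA hAN hAZ ho hc hd
    obtain ⟨s, hs, hsd, hse⟩ := hlab hA hd
    refine Finset.mem_biUnion.2 ⟨A, ?_, ?_⟩
    · rw [Finset.mem_filter]
      exact ⟨Nat.mem_divisors.2 ⟨hAN, by omega⟩, ho, hc, hAZ⟩
    · rw [hse]
      exact Finset.mem_image.2 ⟨s, Finset.mem_filter.2 ⟨Finset.mem_range.2 hs, hsd⟩, rfl⟩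
  have hsub : S ⊆ T ×ˢ T := by
    intro p hp
    obtain ⟨⟨A, r, hA, hAZ, ho, hc, hd, he⟩, ⟨B, s, hB, hBZ, ho', hc', hd', he'⟩, -⟩ := hS p hp
    have hAB := key p hp A B r s ho hc hd he ho' hc' hd' he'
    have hEq : A * B = N := heq (hAB.symm.trans hN0)
    rw [Finset.mem_product]
    refine ⟨?_, ?_⟩
    · rw [he]; exact hmem A r hA ⟨B, hEq.symm⟩ hAZ ho hc hd
    · rw [he']; exact hmem B s hB ⟨A, by rw [← hEq]; ring⟩ hBZ ho' hc' hd'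
  have hT : (T.card : ℝ) ≤ C1 ^ 2 * Z ^ (ε / 2) := by
    have h1 : T.card ≤ ∑ A ∈ N.divisors.filter (fun A : ℕ => Odd A ∧ IsCoprime (A : ℤ) D ∧ (A : ℝ) ≤ Z),
        A.divisors.card := by
      refine Finset.card_biUnion_le.trans ?_
      refine Finset.sum_le_sum ?_
      intro A hA
      rw [Finset.mem_filter] at hA
      exact Finset.card_image_le.trans (card_roots hA.2.1 hA.2.2.1)
    have h2 : ((∑ A ∈ N.divisors.filter (fun A : ℕ => Odd A ∧ IsCoprime (A : ℤ) D ∧ (A : ℝ) ≤ Z),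
        A.divisors.card : ℕ) : ℝ) ≤
        ∑ A ∈ N.divisors.filter (fun A : ℕ => Odd A ∧ IsCoprime (A : ℤ) D ∧ (A : ℝ) ≤ Z),
          C1 * Z ^ (ε / 6) := by
      push_cast
      refine Finset.sum_le_sum ?_
      intro A hA
      rw [Finset.mem_filter] at hA
      have hA1 : 1 ≤ A := Nat.pos_of_mem_divisors hA.1
      exact hdiv Z A hA1 hA.2.2.2
    have h3 : (((N.divisors.filter (fun A : ℕ => Odd A ∧ IsCoprime (A : ℤ) D ∧ (A : ℝ) ≤ Z)).card : ℕ) : ℝ)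
        ≤ C1 * (Z ^ 2) ^ (ε / 6) := by
      refine le_trans ?_ (hdiv (Z ^ 2) N hNpos hNZ)
      exact_mod_cast Finset.card_filter_le _ _
    have h4 : (T.card : ℝ) ≤ (C1 * (Z ^ 2) ^ (ε / 6)) * (C1 * Z ^ (ε / 6)) := by
      have h5 : (T.card : ℝ) ≤ ∑ A ∈ N.divisors.filter (fun A : ℕ => Odd A ∧ IsCoprime (A : ℤ) D ∧ (A : ℝ) ≤ Z),
          C1 * Z ^ (ε / 6) := le_trans (by exact_mod_cast h1) h2
      rw [Finset.sum_const, nsmul_eq_mul] at h5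
      refine h5.trans ?_
      exact mul_le_mul_of_nonneg_right h3 (by positivity)
    refine h4.trans (le_of_eq ?_)
    have e1 : (Z ^ 2) ^ (ε / 6) = Z ^ (ε / 3) := by
      rw [← Real.rpow_natCast, ← Real.rpow_mul hZ0.le]
      congr 1
      push_cast; ring
    rw [e1]
    have e2 : Z ^ (ε / 2) = Z ^ (ε / 3) * Z ^ (ε / 6) := by
      rw [← Real.rpow_add hZ0]; congr 1; ring
    rw [e2]; ring
  have h6 : (S.card : ℝ) ≤ (T.card : ℝ) * T.card := by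
    have := Finset.card_le_card hsub
    rw [Finset.card_product] at this
    exact_mod_cast this
  refine h6.trans ?_
  have h7 : (T.card : ℝ) * T.card ≤ (C1 ^ 2 * Z ^ (ε / 2)) * (C1 ^ 2 * Z ^ (ε / 2)) :=
    mul_le_mul hT hT (by positivity) (by positivity)
  refine h7.trans (le_of_eq ?_)
  have e3 : Z ^ ε = Z ^ (ε / 2) * Z ^ (ε / 2) := by
    rw [← Real.rpow_add hZ0]; congr 1; ring
  rw [e3]; ring

end Hp

end Pool.Agent.Lib.MP_d8bd92_nt
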