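import Pool.Agent.Lib.MP_d8bd92_nt.Hp.AlB

set_option autoImplicit false

/-!
Pair layer: balanced and real elements.
-/

namespace Pool.Agent.Lib.MP_d8bd92_nt

namespace Hp

open Finset Pool.Agent.Lib.Szpiro

/-- `C`-balanced and `θ`-real -/
def BR {D : ℤ} (C θ : ℝ) (z : ℤ√D) : Prop :=
  ((hh z : ℤ) : ℝ) ≤ C * ((|z.norm| : ℤ) : ℝ) ∧
    ((|D| * z.im ^ 2 : ℤ) : ℝ) ≤ C * θ ^ 2 * ((|z.norm| : ℤ) : ℝ)

theorem BR_mul {D : ℤ} {C C' θ : ℝ} {z w : ℤ√D} (hC : 0 ≤ C) (hC' : 0 ≤ C') (hz : BR C θ z) (hw : BR C' θ w) :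
    BR (4 * C * C') θ (z * w) := by
  obtain ⟨hz1, hz2⟩ := hz
  obtain ⟨hw1, hw2⟩ := hw
  have hN : ((|(z * w).norm| : ℤ) : ℝ) = ((|z.norm| : ℤ) : ℝ) * ((|w.norm| : ℤ) : ℝ) := by
    rw [Zsqrtd.norm_mul, abs_mul, Int.cast_mul]
  have hNz : (0 : ℝ) ≤ ((|z.norm| : ℤ) : ℝ) := by exact_mod_cast abs_nonneg z.norm
  have hNw : (0 : ℝ) ≤ ((|w.norm| : ℤ) : ℝ) := by exact_mod_cast abs_nonneg w.norm
  have hhz : (0 : ℝ) ≤ ((hh z : ℤ) : ℝ) := by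
    have := norm_le_hh z
    have h2 : (0 : ℤ) ≤ hh z := le_trans (abs_nonneg _) this
    exact_mod_cast h2
  have hhw : (0 : ℝ) ≤ ((hh w : ℤ) : ℝ) := by
    have := norm_le_hh w
    have h2 : (0 : ℤ) ≤ hh w := le_trans (abs_nonneg _) this
    exact_mod_cast h2
  have hCN : 0 ≤ C * ((|z.norm| : ℤ) : ℝ) := mul_nonneg hC hNz
  have hCN' : 0 ≤ C' * ((|w.norm| : ℤ) : ℝ) := mul_nonneg hC' hNw
  have hprod : 0 ≤ C * ((|z.norm| : ℤ) : ℝ) * (C' * ((|w.norm| : ℤ) : ℝ)) := mul_nonneg hCN hCN'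
  refine ⟨?_, ?_⟩
  · have h1 : ((hh (z * w) : ℤ) : ℝ) ≤ 2 * ((hh z : ℤ) : ℝ) * ((hh w : ℤ) : ℝ) := by
      exact_mod_cast hh_mul z w
    have h2 : ((hh z : ℤ) : ℝ) * ((hh w : ℤ) : ℝ) ≤ C * ((|z.norm| : ℤ) : ℝ) * (C' * ((|w.norm| : ℤ) : ℝ)) :=
      mul_le_mul hz1 hw1 hhw hCN
    rw [hN]
    have e : 4 * C * C' * (((|z.norm| : ℤ) : ℝ) * ((|w.norm| : ℤ) : ℝ)) =
        4 * (C * ((|z.norm| : ℤ) : ℝ) * (C' * ((|w.norm| : ℤ) : ℝ))) := by ring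
    rw [e]
    rw [mul_assoc] at h1
    linarith only [h1, h2, hprod]
  · have him : (|D| * (z * w).im ^ 2 : ℤ) ≤ 2 * (hh z * (|D| * w.im ^ 2) + (|D| * z.im ^ 2) * hh w) := by
      have hD : (0 : ℤ) ≤ |D| := abs_nonneg D
      have e1 : (z * w).im = z.re * w.im + z.im * w.re := Zsqrtd.im_mul z w
      rw [e1]
      unfold hh
      have k1 : (0 : ℤ) ≤ |D| * (z.re * w.im - z.im * w.re) ^ 2 := mul_nonneg hD (sq_nonneg _)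
      have k2 : (0 : ℤ) ≤ |D| * z.im ^ 2 * (|D| * w.im ^ 2) :=
        mul_nonneg (mul_nonneg hD (sq_nonneg _)) (mul_nonneg hD (sq_nonneg _))
      have e : 2 * ((z.re ^ 2 + |D| * z.im ^ 2) * (|D| * w.im ^ 2) + |D| * z.im ^ 2 * (w.re ^ 2 + |D| * w.im ^ 2)) =
          |D| * (z.re * w.im + z.im * w.re) ^ 2 + (|D| * (z.re * w.im - z.im * w.re) ^ 2 +
            4 * (|D| * z.im ^ 2 * (|D| * w.im ^ 2))) := by ring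
      rw [e]
      linarith only [k1, k2]
    have him' : ((|D| * (z * w).im ^ 2 : ℤ) : ℝ) ≤ 2 * (((hh z : ℤ) : ℝ) * ((|D| * w.im ^ 2 : ℤ) : ℝ)
        + ((|D| * z.im ^ 2 : ℤ) : ℝ) * ((hh w : ℤ) : ℝ)) := by
      exact_mod_cast him
    have hiw : (0 : ℝ) ≤ ((|D| * w.im ^ 2 : ℤ) : ℝ) := by
      have : (0 : ℤ) ≤ |D| * w.im ^ 2 := mul_nonneg (abs_nonneg D) (sq_nonneg _)
      exact_mod_cast this
    have hiz : (0 : ℝ) ≤ ((|D| * z.im ^ 2 : ℤ) : ℝ) := by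
      have : (0 : ℤ) ≤ |D| * z.im ^ 2 := mul_nonneg (abs_nonneg D) (sq_nonneg _)
      exact_mod_cast this
    have h2 : ((hh z : ℤ) : ℝ) * ((|D| * w.im ^ 2 : ℤ) : ℝ)
        ≤ C * ((|z.norm| : ℤ) : ℝ) * (C' * θ ^ 2 * ((|w.norm| : ℤ) : ℝ)) :=
      mul_le_mul hz1 hw2 hiw hCN
    have h3 : ((|D| * z.im ^ 2 : ℤ) : ℝ) * ((hh w : ℤ) : ℝ)
        ≤ C * θ ^ 2 * ((|z.norm| : ℤ) : ℝ) * (C' * ((|w.norm| : ℤ) : ℝ)) := by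
      exact mul_le_mul hz2 hw1 hhw (mul_nonneg (mul_nonneg hC (sq_nonneg θ)) hNz)
    rw [hN]
    have e : 4 * C * C' * θ ^ 2 * (((|z.norm| : ℤ) : ℝ) * ((|w.norm| : ℤ) : ℝ))
        = 2 * (C * ((|z.norm| : ℤ) : ℝ) * (C' * θ ^ 2 * ((|w.norm| : ℤ) : ℝ))
          + C * θ ^ 2 * ((|z.norm| : ℤ) : ℝ) * (C' * ((|w.norm| : ℤ) : ℝ))) := by ring
    rw [e]
    linarith only [him', h2, h3]

end Hp

end Pool.Agent.Lib.MP_d8bd92_nt
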