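import Pool.Agent.Lib.MP_d8bd92_nt.Hp.AlI

set_option autoImplicit false

/-!
Pair layer: pairs are balanced.
-/

namespace Pool.Agent.Lib.MP_d8bd92_nt

namespace Hp

open Finset Pool.Agent.Lib.Szpiro

private theorem AlK_sq {q q' : ℝ} (hq : 0 ≤ q) (h : q ≤ 2 * q') : q ^ 2 ≤ 4 * q' ^ 2 :=
  (pow_le_pow_left₀ hq h 2).trans_eq (by ring)

private theorem AlK_ms {d a b : ℝ} (hd : 0 ≤ d) (h : a ≤ 4 * b) : d * a ≤ 4 * (d * b) :=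
  (mul_le_mul_of_nonneg_left h hd).trans_eq (by ring)

private theorem AlK_par (p q s : ℝ) :
    (p + q * s) ^ 2 ≤ 2 * (p ^ 2 - s ^ 2 * q ^ 2) + 4 * (s ^ 2 * q ^ 2) := by
  have h : (p + q * s) ^ 2 = 2 * (p ^ 2 - s ^ 2 * q ^ 2) + 4 * (s ^ 2 * q ^ 2) -
      (p - q * s) ^ 2 := by ring
  rw [h]
  exact sub_le_self _ (sq_nonneg _)

private theorem AlK_low {p q s : ℝ} (hp : 0 ≤ p) (hq : 0 ≤ q * s) :
    s ^ 2 * q ^ 2 ≤ (p + q * s) ^ 2 := by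
  have h : s ^ 2 * q ^ 2 = (q * s) ^ 2 := by ring
  rw [h]
  exact pow_le_pow_left₀ hq (le_add_of_nonneg_left hp) 2

private theorem AlK_t {t x y : ℝ} (hx : 0 ≤ x) (hy : 0 < y) (h : y ≤ 4 * t * x) : 0 < t := by
  by_contra ht
  have h1 := mul_nonpos_of_nonpos_of_nonneg (not_lt.1 ht) hx
  linarith only [h1, h, hy]

private theorem AlK_core_s {s p q p' q' : ℝ} (hs : 0 < s) (hp : 0 ≤ p) (hp' : 0 ≤ p') (hq : 0 < q)
    (hq' : 0 < q') (h1 : |p ^ 2 - s ^ 2 * q ^ 2| ≤ 2 * |p' ^ 2 - s ^ 2 * q' ^ 2|)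
    (h1' : |p' ^ 2 - s ^ 2 * q' ^ 2| ≤ 2 * |p ^ 2 - s ^ 2 * q ^ 2|)
    (h2 : q ≤ 2 * q') (h2' : q' ≤ 2 * q) (hx : |p ^ 2 - s ^ 2 * q ^ 2| ≤ 64 * (s ^ 2 * q ^ 2)) :
    (p * p' - s ^ 2 * q * q') ^ 2 + s ^ 2 * (q * p' - p * q') ^ 2 ≤
      1000 * (|p ^ 2 - s ^ 2 * q ^ 2| * |p' ^ 2 - s ^ 2 * q' ^ 2|) := by
  obtain ⟨X, hX⟩ : ∃ X, X = |p ^ 2 - s ^ 2 * q ^ 2| := ⟨_, rfl⟩
  obtain ⟨X', hX'⟩ : ∃ X', X' = |p' ^ 2 - s ^ 2 * q' ^ 2| := ⟨_, rfl⟩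
  have hX0 : 0 ≤ X := hX ▸ abs_nonneg _
  have hX0' : 0 ≤ X' := hX' ▸ abs_nonneg _
  have hXl : p ^ 2 - s ^ 2 * q ^ 2 ≤ X := hX ▸ le_abs_self _
  have hXl' : p' ^ 2 - s ^ 2 * q' ^ 2 ≤ X' := hX' ▸ le_abs_self _
  have hX2 : X ^ 2 = (p + q * s) ^ 2 * (p - q * s) ^ 2 := by
    rw [hX, sq_abs]
    ring
  have hX2' : X' ^ 2 = (p' + q' * s) ^ 2 * (p' - q' * s) ^ 2 := by
    rw [hX', sq_abs]
    ring
  rw [← hX, ← hX'] at h1 h1'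
  rw [← hX] at hx
  rw [← hX, ← hX']
  have hqq : q ^ 2 ≤ 4 * q' ^ 2 := AlK_sq hq.le h2
  have hqq' : q' ^ 2 ≤ 4 * q ^ 2 := AlK_sq hq'.le h2'
  have hs2 : 0 < s ^ 2 := pow_pos hs 2
  have hy : s ^ 2 * q ^ 2 ≤ 4 * (s ^ 2 * q' ^ 2) := AlK_ms hs2.le hqq
  have hy' : s ^ 2 * q' ^ 2 ≤ 4 * (s ^ 2 * q ^ 2) := AlK_ms hs2.le hqq'
  have ha : (p + q * s) ^ 2 ≤ 132 * (s ^ 2 * q ^ 2) := by
    have h5 := AlK_par p q s
    linarith only [h5, hXl, hx]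
  have ha' : (p' + q' * s) ^ 2 ≤ 272 * (s ^ 2 * q ^ 2) := by
    have h5 := AlK_par p' q' s
    linarith only [h5, hXl', hx, h1', hy']
  have hb : s ^ 2 * q ^ 2 ≤ (p + q * s) ^ 2 := AlK_low hp (mul_pos hq hs).le
  have hb' : s ^ 2 * q' ^ 2 ≤ (p' + q' * s) ^ 2 := AlK_low hp' (mul_pos hq' hs).le
  have hA : (p + q * s) ^ 2 ≤ 528 * (p' + q' * s) ^ 2 := by linarith only [ha, hy, hb']
  have hA' : (p' + q' * s) ^ 2 ≤ 272 * (p + q * s) ^ 2 := by linarith only [ha', hb]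
  have e1 : (p + q * s) ^ 2 * (p' - q' * s) ^ 2 ≤ 1056 * (X * X') := by
    calc (p + q * s) ^ 2 * (p' - q' * s) ^ 2 ≤ (528 * (p' + q' * s) ^ 2) * (p' - q' * s) ^ 2 :=
          mul_le_mul_of_nonneg_right hA (sq_nonneg _)
      _ = 528 * X' ^ 2 := by rw [hX2']; ring
      _ ≤ 1056 * (X * X') := by
        have h5 := mul_le_mul_of_nonneg_right h1' hX0'
        linarith only [h5]
  have e2 : (p' + q' * s) ^ 2 * (p - q * s) ^ 2 ≤ 544 * (X * X') := by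
    calc (p' + q' * s) ^ 2 * (p - q * s) ^ 2 ≤ (272 * (p + q * s) ^ 2) * (p - q * s) ^ 2 :=
          mul_le_mul_of_nonneg_right hA' (sq_nonneg _)
      _ = 272 * X ^ 2 := by rw [hX2]; ring
      _ ≤ 544 * (X * X') := by
        have h5 := mul_le_mul_of_nonneg_right h1 hX0
        linarith only [h5]
  have e3 : (p * p' - s ^ 2 * q * q') ^ 2 + s ^ 2 * (q * p' - p * q') ^ 2 =
      ((p + q * s) ^ 2 * (p' - q' * s) ^ 2 + (p' + q' * s) ^ 2 * (p - q * s) ^ 2) / 2 := by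
    ring
  rw [e3]
  have h5 : 0 ≤ X * X' := mul_nonneg hX0 hX0'
  linarith only [h5, e1, e2]

private theorem AlK_core {d p q p' q' : ℝ} (hd : 0 < d) (hp : 0 ≤ p) (hp' : 0 ≤ p') (hq : 0 < q)
    (hq' : 0 < q') (h1 : |p ^ 2 - d * q ^ 2| ≤ 2 * |p' ^ 2 - d * q' ^ 2|)
    (h1' : |p' ^ 2 - d * q' ^ 2| ≤ 2 * |p ^ 2 - d * q ^ 2|)
    (h2 : q ≤ 2 * q') (h2' : q' ≤ 2 * q) (hx : |p ^ 2 - d * q ^ 2| ≤ 64 * (d * q ^ 2)) :
    (p * p' - d * q * q') ^ 2 + d * (q * p' - p * q') ^ 2 ≤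
      1000 * (|p ^ 2 - d * q ^ 2| * |p' ^ 2 - d * q' ^ 2|) := by
  obtain ⟨s, hs, rfl⟩ : ∃ s : ℝ, 0 < s ∧ s ^ 2 = d := ⟨Real.sqrt d, Real.sqrt_pos.2 hd, Real.sq_sqrt hd.le⟩
  exact AlK_core_s hs hp hp' hq hq' h1 h1' h2 h2' hx

/-- the sum of the two parts, in the definite case -/
private theorem AlK_def {d p q p' q' : ℝ} :
    (p * p' + d * q * q') ^ 2 + d * (q * p' - p * q') ^ 2 =
      (p ^ 2 + d * q ^ 2) * (p' ^ 2 + d * q' ^ 2) := by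
  ring

/-- the second part in the second regime, definite case -/
private theorem AlK_second_def {d p q p' q' t : ℝ} (hd : 0 < d) (hq : 0 < q)
    (hq' : 0 < q') (h1 : p ^ 2 + d * q ^ 2 ≤ 2 * (p' ^ 2 + d * q' ^ 2))
    (h2' : q' ≤ 2 * q) (hx' : d * q ^ 2 ≤ 4 * t * (p ^ 2 + d * q ^ 2)) :
    d * (q * p' - p * q') ^ 2 ≤ 72 * t * ((p ^ 2 + d * q ^ 2) * (p' ^ 2 + d * q' ^ 2)) := by
  obtain ⟨x, hx0⟩ : ∃ x, x = p ^ 2 + d * q ^ 2 := ⟨_, rfl⟩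
  obtain ⟨x', hx0'⟩ : ∃ x', x' = p' ^ 2 + d * q' ^ 2 := ⟨_, rfl⟩
  have hqq' : q' ^ 2 ≤ 4 * q ^ 2 := AlK_sq hq'.le h2'
  have hy' : d * q' ^ 2 ≤ 4 * (d * q ^ 2) := AlK_ms hd.le hqq'
  have hy0 : 0 < d * q ^ 2 := mul_pos hd (pow_pos hq 2)
  have hy0' : 0 < d * q' ^ 2 := mul_pos hd (pow_pos hq' 2)
  rw [← hx0] at h1 hx' ⊢
  rw [← hx0'] at h1 ⊢
  have hxp : 0 < x := hx0 ▸ add_pos_of_nonneg_of_pos (sq_nonneg p) hy0
  have hxp' : 0 < x' := hx0' ▸ add_pos_of_nonneg_of_pos (sq_nonneg p') hy0'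
  have ht : 0 < t := AlK_t hxp.le hy0 hx'
  have hpx : p ^ 2 ≤ x := by linarith only [hx0, hy0]
  have hpx' : p' ^ 2 ≤ x' := by linarith only [hx0', hy0']
  have htx : 0 ≤ t * x := (mul_pos ht hxp).le
  have e1 : d * (q * p' - p * q') ^ 2 ≤ 2 * ((d * q ^ 2) * p' ^ 2 + (d * q' ^ 2) * p ^ 2) := by
    have h5 : d * (q * p' - p * q') ^ 2 = 2 * ((d * q ^ 2) * p' ^ 2 + (d * q' ^ 2) * p ^ 2) -
        d * (q * p' + p * q') ^ 2 := by ring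
    rw [h5]
    exact sub_le_self _ (mul_nonneg hd.le (sq_nonneg _))
  have e2 : (d * q ^ 2) * p' ^ 2 ≤ (4 * t * x) * x' :=
    mul_le_mul hx' hpx' (sq_nonneg _) (by linarith only [htx])
  have e3 : (d * q' ^ 2) * p ^ 2 ≤ (16 * t * x) * (2 * x') :=
    mul_le_mul (by linarith only [hy', hx']) (by linarith only [hpx, h1]) (sq_nonneg _)
      (by linarith only [htx])
  linarith only [e1, e2, e3]

/-- both parts in the second regime, indefinite case -/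
private theorem AlK_second_ind {d p q p' q' t : ℝ} (hd : 0 < d) (hp : 0 ≤ p) (hp' : 0 ≤ p') (hq : 0 < q)
    (hq' : 0 < q') (hxp : 0 < p ^ 2 - d * q ^ 2) (hxp' : 0 < p' ^ 2 - d * q' ^ 2)
    (h1 : p ^ 2 - d * q ^ 2 ≤ 2 * (p' ^ 2 - d * q' ^ 2))
    (h2' : q' ≤ 2 * q) (hx : 4 * (d * q ^ 2) ≤ p ^ 2 - d * q ^ 2)
    (hx' : d * q ^ 2 ≤ 4 * t * (p ^ 2 - d * q ^ 2)) :
    d * (q * p' - p * q') ^ 2 ≤ 52 * t * ((p ^ 2 - d * q ^ 2) * (p' ^ 2 - d * q' ^ 2)) ∧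
      (p * p' - d * q * q') ^ 2 + d * (q * p' - p * q') ^ 2 ≤
        10 * ((p ^ 2 - d * q ^ 2) * (p' ^ 2 - d * q' ^ 2)) := by
  have e0 : (p * p' - d * q * q') ^ 2 = (p ^ 2 - d * q ^ 2) * (p' ^ 2 - d * q' ^ 2) +
      d * (q * p' - p * q') ^ 2 := by ring
  rw [e0]
  obtain ⟨x, hx0⟩ : ∃ x, x = p ^ 2 - d * q ^ 2 := ⟨_, rfl⟩
  obtain ⟨x', hx0'⟩ : ∃ x', x' = p' ^ 2 - d * q' ^ 2 := ⟨_, rfl⟩
  have hqq' : q' ^ 2 ≤ 4 * q ^ 2 := AlK_sq hq'.le h2'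
  have hy' : d * q' ^ 2 ≤ 4 * (d * q ^ 2) := AlK_ms hd.le hqq'
  have hy0 : 0 < d * q ^ 2 := mul_pos hd (pow_pos hq 2)
  have hy0' : 0 < d * q' ^ 2 := mul_pos hd (pow_pos hq' 2)
  rw [← hx0] at h1 hx' hxp hx ⊢
  rw [← hx0'] at h1 hxp' ⊢
  have ht : 0 < t := AlK_t hxp.le hy0 hx'
  have hpx : p ^ 2 ≤ 5 / 4 * x := by linarith only [hx0, hx]
  have hpx' : p' ^ 2 ≤ 3 * x' := by linarith only [hx0', hy', hx, h1]
  have hpy : p ^ 2 ≤ 5 / 2 * x' := by linarith only [hpx, h1]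
  have htx : 0 ≤ t * x := (mul_pos ht hxp).le
  have e1 : d * (q * p' - p * q') ^ 2 ≤ (d * q ^ 2) * p' ^ 2 + (d * q' ^ 2) * p ^ 2 := by
    have h5 : d * (q * p' - p * q') ^ 2 = (d * q ^ 2) * p' ^ 2 + (d * q' ^ 2) * p ^ 2 -
        2 * (d * ((q * p') * (p * q'))) := by ring
    rw [h5]
    exact sub_le_self _ (mul_nonneg zero_le_two (mul_nonneg hd.le
      (mul_nonneg (mul_nonneg hq.le hp') (mul_nonneg hp hq'.le))))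
  have e2 : (d * q ^ 2) * p' ^ 2 ≤ (4 * t * x) * (3 * x') :=
    mul_le_mul hx' hpx' (sq_nonneg _) (by linarith only [htx])
  have e3 : (d * q' ^ 2) * p ^ 2 ≤ (16 * t * x) * (5 / 2 * x') :=
    mul_le_mul (by linarith only [hy', hx']) hpy (sq_nonneg _) (by linarith only [htx])
  have e2' : (d * q ^ 2) * p' ^ 2 ≤ (1 / 4 * x) * (3 * x') :=
    mul_le_mul (by linarith only [hx]) hpx' (sq_nonneg _) (by linarith only [hxp])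
  have e3' : (d * q' ^ 2) * p ^ 2 ≤ x * (5 / 2 * x') :=
    mul_le_mul (by linarith only [hy', hx]) hpy (sq_nonneg _) hxp.le
  have hxx : 0 < x * x' := mul_pos hxp hxp'
  constructor
  · linarith only [e1, e2, e3]
  · linarith only [e1, e2', e3', hxx]

/-- the product `z * star z'` of two elements with comparable norms and comparable `y` -/
theorem BR_pair {D : ℤ} {z z' : ℤ√D} {κ0 θ : ℝ} (hD : D ≠ 0) (hre : 0 ≤ z.re) (hre' : 0 ≤ z'.re)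
    (him : 0 < z.im) (him' : 0 < z'.im)
    (h1 : ((|z.norm| : ℤ) : ℝ) ≤ 2 * ((|z'.norm| : ℤ) : ℝ)) (h1' : ((|z'.norm| : ℤ) : ℝ) ≤ 2 * ((|z.norm| : ℤ) : ℝ))
    (hs : 0 < z.norm ↔ 0 < z'.norm) (hn : z.norm ≠ 0) (hn' : z'.norm ≠ 0)
    (h2 : (z.im : ℝ) ≤ 2 * z'.im) (h2' : (z'.im : ℝ) ≤ 2 * z.im) (hκ0 : κ0 = 1000)
    (hθ : (θ = 1 ∧ ((|z.norm| : ℤ) : ℝ) ≤ 64 * ((|D| * z.im ^ 2 : ℤ) : ℝ)) ∨
      (4 * ((|D| * z.im ^ 2 : ℤ) : ℝ) ≤ ((|z.norm| : ℤ) : ℝ) ∧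
        ((|D| * z.im ^ 2 : ℤ) : ℝ) ≤ 4 * θ ^ 2 * ((|z.norm| : ℤ) : ℝ))) :
    BR κ0 θ (z * star z') := by
  obtain ⟨p, q⟩ := z
  obtain ⟨p', q'⟩ := z'
  have hnz : (Zsqrtd.norm (⟨p, q⟩ : ℤ√D)) = p ^ 2 - D * q ^ 2 := by
    rw [Zsqrtd.norm_def]; ring
  have hnz' : (Zsqrtd.norm (⟨p', q'⟩ : ℤ√D)) = p' ^ 2 - D * q' ^ 2 := by
    rw [Zsqrtd.norm_def]; ring
  have hprod : (⟨p, q⟩ : ℤ√D) * star (⟨p', q'⟩ : ℤ√D) = ⟨p * p' - D * q * q', q * p' - p * q'⟩ := by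
    ext
    · simp; ring
    · simp; ring
  have hnp : (Zsqrtd.norm ((⟨p, q⟩ : ℤ√D) * star (⟨p', q'⟩ : ℤ√D))) =
      (p ^ 2 - D * q ^ 2) * (p' ^ 2 - D * q' ^ 2) := by
    rw [hprod, Zsqrtd.norm_def]; ring
  rw [hnz] at h1 h1' hs hn hθ
  rw [hnz'] at h1 h1' hs hn'
  simp only at hre hre' him him' h2 h2' hθ
  unfold BR hh
  rw [hnp, hprod]
  simp only
  rw [hκ0]
  have hpR : (0 : ℝ) ≤ p := by exact_mod_cast hre
  have hpR' : (0 : ℝ) ≤ p' := by exact_mod_cast hre'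
  have hqR : (0 : ℝ) < q := by exact_mod_cast him
  have hqR' : (0 : ℝ) < q' := by exact_mod_cast him'
  rcases lt_or_gt_of_ne hD with hneg | hpos
  · -- definite case
    obtain ⟨d, rfl⟩ : ∃ d : ℤ, D = -d := ⟨-D, by ring⟩
    have hd : 0 < d := by linarith
    have hdR : (0 : ℝ) < d := by exact_mod_cast hd
    have habs : |(-d)| = d := by rw [abs_neg, abs_of_pos hd]
    have hx0 : 0 < p ^ 2 + d * q ^ 2 := by positivity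
    have hx0' : 0 < p' ^ 2 + d * q' ^ 2 := by positivity
    have ex : p ^ 2 - -d * q ^ 2 = p ^ 2 + d * q ^ 2 := by ring
    have ex' : p' ^ 2 - -d * q' ^ 2 = p' ^ 2 + d * q' ^ 2 := by ring
    rw [ex, ex', abs_of_pos (mul_pos hx0 hx0'), habs]
    rw [ex, habs, abs_of_pos hx0] at hθ
    rw [ex, ex', abs_of_pos hx0, abs_of_pos hx0'] at h1
    have hh0 : (p * p' - -d * q * q') ^ 2 + d * (q * p' - p * q') ^ 2 =
      (p ^ 2 + d * q ^ 2) * (p' ^ 2 + d * q' ^ 2) := by ring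
    rw [hh0]
    have hxx : (0 : ℝ) < (((p ^ 2 + d * q ^ 2) * (p' ^ 2 + d * q' ^ 2) : ℤ) : ℝ) := by
      exact_mod_cast mul_pos hx0 hx0'
    refine ⟨by linarith, ?_⟩
    rcases hθ with ⟨rfl, _⟩ | ⟨h3, h4⟩
    · have : ((d * (q * p' - p * q') ^ 2 : ℤ) : ℝ) ≤
          (((p ^ 2 + d * q ^ 2) * (p' ^ 2 + d * q' ^ 2) : ℤ) : ℝ) := by
        exact_mod_cast (by rw [← hh0]; exact le_add_of_nonneg_left (sq_nonneg _) :
          d * (q * p' - p * q') ^ 2 ≤ (p ^ 2 + d * q ^ 2) * (p' ^ 2 + d * q' ^ 2))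
      linarith
    · push_cast at h1 h3 h4 hxx ⊢
      have := AlK_second_def (p' := (p' : ℝ)) (t := θ ^ 2) hdR hqR hqR' h1 h2' h4
      have ht : 0 ≤ θ ^ 2 * (((p : ℝ) ^ 2 + d * q ^ 2) * ((p' : ℝ) ^ 2 + d * q' ^ 2)) := by positivity
      linarith
  · -- indefinite case
    have hdR : (0 : ℝ) < D := by exact_mod_cast hpos
    rw [abs_of_pos hpos, abs_mul]
    rw [abs_of_pos hpos] at hθ
    push_cast at h1 h1' hθ ⊢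
    rcases hθ with ⟨rfl, h3⟩ | ⟨h3, h4⟩
    · have hc := AlK_core hdR hpR hpR' hqR hqR' h1 h1' h2 h2' h3
      refine ⟨hc, ?_⟩
      have := sq_nonneg ((p : ℝ) * p' - D * q * q')
      linarith
    · have hxpos : 0 < p ^ 2 - D * q ^ 2 := by
        rcases lt_or_gt_of_ne hn with h | h
        · exfalso
          have hR : ((p ^ 2 - D * q ^ 2 : ℤ) : ℝ) < 0 := by exact_mod_cast h
          push_cast at hR
          rw [abs_of_neg hR] at h3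
          have h5 : (0 : ℝ) < D * q ^ 2 := mul_pos hdR (pow_pos hqR 2)
          linarith only [h5, h3, sq_nonneg (p : ℝ)]
        · exact h
      have hxpos' := hs.1 hxpos
      have hR : (0 : ℝ) < (p : ℝ) ^ 2 - D * q ^ 2 := by exact_mod_cast hxpos
      have hR' : (0 : ℝ) < (p' : ℝ) ^ 2 - D * q' ^ 2 := by exact_mod_cast hxpos'
      rw [abs_of_pos hR] at h3 h4 h1 ⊢
      rw [abs_of_pos hR'] at h1 ⊢
      obtain ⟨k1, k2⟩ := AlK_second_ind hdR hpR hpR' hqR hqR' hR hR' h1 h2' h3 h4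
      have hRR := mul_pos hR hR'
      refine ⟨by linarith, ?_⟩
      have ht : 0 ≤ θ ^ 2 * (((p : ℝ) ^ 2 - D * q ^ 2) * ((p' : ℝ) ^ 2 - D * q' ^ 2)) := by positivity
      linarith

end Hp

end Pool.Agent.Lib.MP_d8bd92_nt
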