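import Pool.Agent.Lib.MP_d8bd92_nt.Hp.Defs

set_option autoImplicit false

/-!
Pair layer: choice of θ.
-/

namespace Pool.Agent.Lib.MP_d8bd92_nt

namespace Hp

open Finset Pool.Agent.Lib.Szpiro

/-- choice of `θ`: all pairs of `S` have comparable sides; regime I (`θ = 1`, `|x| ≤ 64 |y|`) or regime II -/
theorem theta_exists (S : Finset (ℤ × ℤ)) (hnz : ∀ w ∈ S, w.1 ≠ 0 ∧ w.2 ≠ 0)
    (h : ∀ w ∈ S, ∀ w' ∈ S, w.1.natAbs ≤ 2 * w'.1.natAbs ∧ w.2.natAbs ≤ 2 * w'.2.natAbs) :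
    ∃ θ : ℝ, 0 < θ ∧ θ ≤ 1 ∧ ∀ w ∈ S,
      ((θ = 1 ∧ (w.1.natAbs : ℝ) ≤ 64 * (w.2.natAbs : ℝ)) ∨
        (4 * (w.2.natAbs : ℝ) ≤ (w.1.natAbs : ℝ) ∧ (w.2.natAbs : ℝ) ≤ 4 * θ ^ 2 * (w.1.natAbs : ℝ))) ∧
      θ ^ 2 * max (w.1.natAbs : ℝ) (w.2.natAbs : ℝ) ≤ 64 * (w.2.natAbs : ℝ) := by
  rcases S.eq_empty_or_nonempty with hS | ⟨w0, hw0⟩
  · refine ⟨1, one_pos, le_refl _, fun w hw => ?_⟩
    rw [hS] at hw
    exact absurd hw (Finset.notMem_empty w)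
  have hcmp : ∀ w ∈ S, ∀ w' ∈ S, (w.1.natAbs : ℝ) ≤ 2 * (w'.1.natAbs : ℝ) ∧
      (w.2.natAbs : ℝ) ≤ 2 * (w'.2.natAbs : ℝ) := by
    intro w hw w' hw'
    obtain ⟨h1, h2⟩ := h w hw w' hw'
    exact ⟨by exact_mod_cast h1, by exact_mod_cast h2⟩
  have hx0 : (0 : ℝ) < (w0.1.natAbs : ℝ) := by
    have := Int.natAbs_pos.mpr (hnz w0 hw0).1
    exact_mod_cast this
  have hy0 : (0 : ℝ) < (w0.2.natAbs : ℝ) := by
    have := Int.natAbs_pos.mpr (hnz w0 hw0).2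
    exact_mod_cast this
  rcases le_or_gt (w0.1.natAbs : ℝ) (16 * (w0.2.natAbs : ℝ)) with hc | hc
  · refine ⟨1, one_pos, le_refl _, fun w hw => ?_⟩
    have h1 := (hcmp w hw w0 hw0).1
    have h2 := (hcmp w0 hw0 w hw).2
    have h3 : (w.1.natAbs : ℝ) ≤ 64 * (w.2.natAbs : ℝ) := by linarith
    have h4 : (0 : ℝ) ≤ (w.2.natAbs : ℝ) := Nat.cast_nonneg _
    refine ⟨Or.inl ⟨rfl, h3⟩, ?_⟩
    rw [one_pow, one_mul]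
    exact max_le h3 (by linarith)
  · have hq : (0 : ℝ) < (w0.2.natAbs : ℝ) / (w0.1.natAbs : ℝ) := div_pos hy0 hx0
    have hsq : Real.sqrt ((w0.2.natAbs : ℝ) / (w0.1.natAbs : ℝ)) ^ 2 =
        (w0.2.natAbs : ℝ) / (w0.1.natAbs : ℝ) := Real.sq_sqrt hq.le
    have hmul : Real.sqrt ((w0.2.natAbs : ℝ) / (w0.1.natAbs : ℝ)) ^ 2 * (w0.1.natAbs : ℝ) =
        (w0.2.natAbs : ℝ) := by
      rw [hsq]
      field_simp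
    refine ⟨Real.sqrt ((w0.2.natAbs : ℝ) / (w0.1.natAbs : ℝ)), Real.sqrt_pos.mpr hq, ?_, fun w hw => ?_⟩
    · rw [Real.sqrt_le_iff]
      refine ⟨zero_le_one, ?_⟩
      rw [div_le_iff₀ hx0]
      linarith
    have hθ : (0 : ℝ) ≤ Real.sqrt ((w0.2.natAbs : ℝ) / (w0.1.natAbs : ℝ)) ^ 2 := sq_nonneg _
    have h1 := (hcmp w hw w0 hw0).1
    have h1' := (hcmp w0 hw0 w hw).1
    have h2 := (hcmp w0 hw0 w hw).2
    have h2' := (hcmp w hw w0 hw0).2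
    have h4 : (0 : ℝ) ≤ (w.2.natAbs : ℝ) := Nat.cast_nonneg _
    generalize Real.sqrt ((w0.2.natAbs : ℝ) / (w0.1.natAbs : ℝ)) ^ 2 = t at hmul hθ ⊢
    have h5 : 4 * (w.2.natAbs : ℝ) ≤ (w.1.natAbs : ℝ) := by linarith
    have h6 : t * (w0.1.natAbs : ℝ) ≤ t * (2 * (w.1.natAbs : ℝ)) := mul_le_mul_of_nonneg_left h1' hθ
    have h7 : t * (w.1.natAbs : ℝ) ≤ t * (2 * (w0.1.natAbs : ℝ)) := mul_le_mul_of_nonneg_left h1 hθ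
    refine ⟨Or.inr ⟨h5, ?_⟩, ?_⟩
    · nlinarith [h6, hmul, h2']
    · rw [max_eq_left (by linarith)]
      nlinarith [h7, hmul, h2]

end Hp

end Pool.Agent.Lib.MP_d8bd92_nt
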