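import Pool.Agent.Lib.MP_d8bd92_nt.Hp.AlB

set_option autoImplicit false

/-!
Pair layer: the element of a pair.
-/

namespace Pool.Agent.Lib.MP_d8bd92_nt

namespace Hp

open Finset Pool.Agent.Lib.Szpiro

/-- the nonnegative root of `x + y` -/
def gg (w : ℤ × ℤ) : ℤ := (Nat.sqrt (w.1 + w.2).natAbs : ℤ)

theorem gg_sq {w : ℤ × ℤ} (h : ∃ g : ℤ, w.1 + w.2 = g ^ 2) : gg w ^ 2 = w.1 + w.2 := by
  obtain ⟨g, hg⟩ := h
  unfold gg
  rw [hg, Int.natAbs_pow, Nat.sqrt_eq', Int.natCast_natAbs, sq_abs]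

theorem gg_nonneg (w : ℤ × ℤ) : 0 ≤ gg w := by
  unfold gg
  exact Int.natCast_nonneg _

/-- the element `g + F √D` of the pair `w`, `w.2 = F ^ 2 D` -/
def el (D : ℤ) (w : ℤ × ℤ) (F : ℤ) : ℤ√D := ⟨gg w, F⟩

theorem el_norm {D F : ℤ} {w : ℤ × ℤ} (h : ∃ g : ℤ, w.1 + w.2 = g ^ 2) (hF : w.2 = F ^ 2 * D) :
    (el D w F).norm = w.1 := by
  have h1 := gg_sq h
  rw [Zsqrtd.norm_def]
  simp only [el]
  linear_combination h1 + hF

theorem el_cop {D F : ℤ} {w : ℤ × ℤ} (h : ∃ g : ℤ, w.1 + w.2 = g ^ 2) (hF : w.2 = F ^ 2 * D)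
    (hc : IsCoprime w.1 w.2) : IsCoprime (el D w F).norm ((el D w F).im ^ 2 * D) := by
  rw [el_norm h hF]
  simp only [el]
  rw [← hF]
  exact hc

/-- existence of `D`, `f` -/
theorem exists_sqfree (y : ℤ) (hy : y ≠ 0) : ∃ (D : ℤ) (f : ℕ), Squarefree D ∧ 1 ≤ f ∧ y = (f : ℤ) ^ 2 * D := by
  obtain ⟨a, b, hab, ha⟩ := Nat.sq_mul_squarefree y.natAbs
  refine ⟨y.sign * a, b, ?_, ?_, ?_⟩
  · rw [← Int.squarefree_natAbs, Int.natAbs_mul, Int.natAbs_sign_of_ne_zero hy, one_mul, Int.natAbs_natCast]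
    exact ha
  · rcases Nat.eq_zero_or_pos b with h | h
    · exfalso
      subst h
      apply hy
      rw [← Int.natAbs_eq_zero, ← hab]
      simp
    · exact h
  · have h1 : (y.natAbs : ℤ) = (b : ℤ) ^ 2 * a := by
      rw [← hab]
      push_cast
      ring
    have h2 : y.sign * (y.natAbs : ℤ) = y := Int.sign_mul_natAbs y
    rw [h1] at h2
    linear_combination -h2

/-- uniqueness of the squarefree part -/
theorem sqfree_unique {D D' f f' : ℤ} (hD : Squarefree D) (hD' : Squarefree D') (hf : f ≠ 0) (hf' : f' ≠ 0)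
    (h : f ^ 2 * D = f' ^ 2 * D') : D = D' ∧ f.natAbs = f'.natAbs := by
  have hpos : 0 < Int.gcd f f' := Int.gcd_pos_of_ne_zero_left _ hf
  obtain ⟨g, a, b, hg, hab, ha, hb⟩ := Int.exists_gcd_one' hpos
  have hg0 : (g : ℤ) ≠ 0 := by exact_mod_cast hg.ne'
  have hcop : IsCoprime a b := Int.isCoprime_iff_gcd_eq_one.mpr hab
  have key : a ^ 2 * D = b ^ 2 * D' := by
    have h3 : (g : ℤ) ^ 2 * (a ^ 2 * D) = (g : ℤ) ^ 2 * (b ^ 2 * D') := by
      rw [ha, hb] at h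
      linear_combination h
    exact mul_left_cancel₀ (pow_ne_zero 2 hg0) h3
  have hua : IsUnit a := by
    have h4 : a ^ 2 ∣ b ^ 2 * D' := ⟨D, key.symm⟩
    have h5 : a ^ 2 ∣ D' := (IsCoprime.pow hcop).dvd_of_dvd_mul_left h4
    exact hD' a (by rw [← sq]; exact h5)
  have hub : IsUnit b := by
    have h4 : b ^ 2 ∣ a ^ 2 * D := ⟨D', key⟩
    have h5 : b ^ 2 ∣ D := (IsCoprime.pow hcop.symm).dvd_of_dvd_mul_left h4
    exact hD b (by rw [← sq]; exact h5)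
  have hna : a.natAbs = 1 := Int.isUnit_iff_natAbs_eq.mp hua
  have hnb : b.natAbs = 1 := Int.isUnit_iff_natAbs_eq.mp hub
  have ha2 : a ^ 2 = 1 := by
    rw [← Int.natAbs_sq, hna]; norm_num
  have hb2 : b ^ 2 = 1 := by
    rw [← Int.natAbs_sq, hnb]; norm_num
  constructor
  · rw [ha2, hb2, one_mul, one_mul] at key
    exact key
  · rw [ha, hb, Int.natAbs_mul, Int.natAbs_mul, hna, hnb]

end Hp

end Pool.Agent.Lib.MP_d8bd92_nt
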