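import Pool.Agent.Lib.MP_d8bd92_nt.Hp.AlD

set_option autoImplicit false

/-!
Pair layer: factorisation of (z).
-/

namespace Pool.Agent.Lib.MP_d8bd92_nt

namespace Hp

open Finset Pool.Agent.Lib.Szpiro

private theorem AlN_two {e A : ℕ} (hA : Odd A) : Nat.Coprime (2 ^ e) A :=
  Nat.Coprime.pow_left e (Nat.coprime_two_left.mpr hA)

private theorem AlN_dvd {D : ℤ} (z : ℤ√D) {n m : ℕ} (hf : z.norm.natAbs = n) (h : m ∣ n) :
    ((m : ℕ) : ℤ) ∣ z.norm := by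
  rw [Int.natCast_dvd, hf]
  exact h

/-- factorisation of `(z)`, `|x| = 2^e A B t^l` -/
theorem span_el {D : ℤ} (z : ℤ√D) (hc : IsCoprime z.norm (z.im ^ 2 * D)) {e A B t l : ℕ}
    (hf : z.norm.natAbs = 2 ^ e * A * B * t ^ l) (hA : Odd A) (hB : Odd B) (ht : Odd t)
    (hAB : Nat.Coprime A B) (hAt : Nat.Coprime A t) (hBt : Nat.Coprime B t) :
    Ideal.span {z} = lbl (2 ^ e) z * lbl A z * lbl B z * lbl t z ^ l := by
  have h1 : Nat.Coprime (2 ^ e) A := AlN_two hA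
  have h2 : Nat.Coprime (2 ^ e * A) B := Nat.Coprime.mul_left (AlN_two hB) hAB
  have h3 : Nat.Coprime (2 ^ e * A * B) (t ^ l) :=
    Nat.Coprime.pow_right l (Nat.Coprime.mul_left (Nat.Coprime.mul_left (AlN_two ht) hAt) hBt)
  have h4 : lbl (t ^ l) z = lbl t z ^ l :=
    lbl_pow z ht (AlN_dvd z hf (Dvd.intro_left _ rfl)) hc
  rw [← lbl_natAbs_norm z, hf, lbl_coprime_mul z h3, lbl_coprime_mul z h2, lbl_coprime_mul z h1, h4]

/-- the same with one more factor `c` -/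
theorem span_el' {D : ℤ} (z : ℤ√D) (hc : IsCoprime z.norm (z.im ^ 2 * D)) {e A B c t l : ℕ}
    (hf : z.norm.natAbs = 2 ^ e * A * B * c * t ^ l) (hA : Odd A) (hB : Odd B) (hco : Odd c) (ht : Odd t)
    (hAB : Nat.Coprime A B) (hAt : Nat.Coprime A t) (hBt : Nat.Coprime B t) (hAc : Nat.Coprime A c)
    (hBc : Nat.Coprime B c) (hct : Nat.Coprime c t) :
    Ideal.span {z} = lbl (2 ^ e) z * lbl A z * lbl B z * lbl c z * lbl t z ^ l := by
  have h1 : Nat.Coprime (2 ^ e) A := AlN_two hA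
  have h2 : Nat.Coprime (2 ^ e * A) B := Nat.Coprime.mul_left (AlN_two hB) hAB
  have h3 : Nat.Coprime (2 ^ e * A * B) c :=
    Nat.Coprime.mul_left (Nat.Coprime.mul_left (AlN_two hco) hAc) hBc
  have h4 : Nat.Coprime (2 ^ e * A * B * c) (t ^ l) :=
    Nat.Coprime.pow_right l (Nat.Coprime.mul_left
      (Nat.Coprime.mul_left (Nat.Coprime.mul_left (AlN_two ht) hAt) hBt) hct)
  have h5 : lbl (t ^ l) z = lbl t z ^ l :=
    lbl_pow z ht (AlN_dvd z hf (Dvd.intro_left _ rfl)) hc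
  rw [← lbl_natAbs_norm z, hf, lbl_coprime_mul z h4, lbl_coprime_mul z h3, lbl_coprime_mul z h2,
    lbl_coprime_mul z h1, h5]

end Hp

end Pool.Agent.Lib.MP_d8bd92_nt
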