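import Pool.Agent.Lib.MP_d8bd92_nt.Hp.AlA
import Pool.Agent.Lib.MP_d8bd92_nt.Hp.AlB
import Pool.Agent.Lib.MP_d8bd92_nt.Hp.AlC
import Pool.Agent.Lib.MP_d8bd92_nt.Hp.AlD
import Pool.Agent.Lib.MP_d8bd92_nt.Hp.AlE
import Pool.Agent.Lib.MP_d8bd92_nt.Hp.AlF
import Pool.Agent.Lib.MP_d8bd92_nt.Hp.AlG
import Pool.Agent.Lib.MP_d8bd92_nt.Hp.AlH
import Pool.Agent.Lib.MP_d8bd92_nt.Hp.AlI
import Pool.Agent.Lib.MP_d8bd92_nt.Hp.AlJ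
import Pool.Agent.Lib.MP_d8bd92_nt.Hp.AlK
import Pool.Agent.Lib.MP_d8bd92_nt.Hp.AlL
import Pool.Agent.Lib.MP_d8bd92_nt.Hp.AlM
import Pool.Agent.Lib.MP_d8bd92_nt.Hp.AlN

/-! Pair layer: all files. -/
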