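import Pool.Agent.Lib.MP_d8bd92_nt.Hp.Blk

set_option autoImplicit false

/-! Assembly lemmas (the statements are copied from `Blocks`). -/

namespace Pool.Agent.Lib.MP_d8bd92_nt

namespace Hp

open Finset Pool.Agent.Lib.Szpiro

theorem few_mono' (K ε0 : ℝ) (Q Q' : ℝ → ℤ × ℤ → Prop) (h : ∀ Y w, Q' Y w → Q Y w) (hQ : Few K ε0 Q) : Few K ε0 Q' := by
  obtain ⟨C, δ, hC, hδ, hb⟩ := hQ
  exact ⟨C, δ, hC, hδ, fun Y hY P hP => hb Y hY P (fun w hw => ⟨(hP w hw).1, h Y w (hP w hw).2⟩)⟩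

theorem few_or' (K ε0 : ℝ) (Q Q' : ℝ → ℤ × ℤ → Prop) (hQ : Few K ε0 Q) (hQ' : Few K ε0 Q') :
    Few K ε0 (fun Y w => Q Y w ∨ Q' Y w) := by
  classical
  obtain ⟨C, δ, hC, hδ, hb⟩ := hQ
  obtain ⟨C', δ', hC', hδ', hb'⟩ := hQ'
  refine ⟨C + C', min δ δ', by positivity, lt_min hδ hδ', fun Y hY P hP => ?_⟩
  have h1 := hb Y hY (P.filter (fun w => Q Y w)) (fun w hw => by
    rw [Finset.mem_filter] at hw; exact ⟨(hP w hw.1).1, hw.2⟩)
  have h2 := hb' Y hY (P.filter (fun w => ¬ Q Y w)) (fun w hw => by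
    rw [Finset.mem_filter] at hw
    refine ⟨(hP w hw.1).1, ?_⟩
    rcases (hP w hw.1).2 with h | h
    · exact absurd h hw.2
    · exact h)
  have h3 : P.card = (P.filter (fun w => Q Y w)).card + (P.filter (fun w => ¬ Q Y w)).card :=
    (Finset.card_filter_add_card_filter_not _).symm
  have h4 : Y ^ (3 / 4 - δ) ≤ Y ^ (3 / 4 - min δ δ') :=
    Real.rpow_le_rpow_of_exponent_le hY (by linarith [min_le_left δ δ'])
  have h5 : Y ^ (3 / 4 - δ') ≤ Y ^ (3 / 4 - min δ δ') :=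
    Real.rpow_le_rpow_of_exponent_le hY (by linarith [min_le_right δ δ'])
  rw [h3]
  push_cast
  calc _ ≤ C * Y ^ (3 / 4 - δ) + C' * Y ^ (3 / 4 - δ') := add_le_add h1 h2
    _ ≤ C * Y ^ (3 / 4 - min δ δ') + C' * Y ^ (3 / 4 - min δ δ') := by gcongr
    _ = _ := by ring

theorem few_false' (K ε0 : ℝ) : Few K ε0 (fun _ _ => False) := by
  refine ⟨1, 1, one_pos, one_pos, fun Y hY P hP => ?_⟩
  have h1 : P = ∅ := by
    rw [Finset.eq_empty_iff_forall_notMem]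
    intro w hw
    exact (hP w hw).2
  rw [h1]
  simp
  have : 0 < Y := by linarith
  positivity

theorem few_finset' (K ε0 : ℝ) {ι : Type} (I : Finset ι) (Q : ι → ℝ → ℤ × ℤ → Prop) (hQ : ∀ i ∈ I, Few K ε0 (Q i)) :
    Few K ε0 (fun Y w => ∃ i ∈ I, Q i Y w) := by
  classical
  induction I using Finset.induction_on with
  | empty =>
    apply few_mono' K ε0 _ _ _ (few_false' K ε0)
    rintro Y w ⟨i, hi, _⟩
    simp at hi
  | insert i I hi ih =>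
    have h1 := ih (fun j hj => hQ j (Finset.mem_insert_of_mem hj))
    apply few_mono' K ε0 _ _ _ (few_or' K ε0 _ _ (hQ i (Finset.mem_insert_self _ _)) h1)
    rintro Y w ⟨j, hj, hq⟩
    rw [Finset.mem_insert] at hj
    rcases hj with rfl | hj
    · exact Or.inl hq
    · exact Or.inr ⟨j, hj, hq⟩

theorem few_large' (K ε0 : ℝ) (Q Q' : ℝ → ℤ × ℤ → Prop) (Y0 : ℝ) (hQ : Few K ε0 Q)
    (h : ∀ Y w, Y0 ≤ Y → w ∈ PairSet K ε0 Y → Q' Y w → Q Y w) : Few K ε0 Q' := by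
  classical
  obtain ⟨C, δ, hC, hδ, hb⟩ := hQ
  set B : ℕ := ⌊(max 1 Y0) ^ (max K 0)⌋₊ with hB
  set C1 : ℝ := ((Finset.Icc (-(B : ℤ)) B ×ˢ Finset.Icc (-(B : ℤ)) B).card : ℝ) with hC1
  have hC10 : 0 ≤ C1 := by positivity
  refine ⟨C + C1, min δ (1 / 2), by positivity, lt_min hδ (by norm_num), fun Y hY P hP => ?_⟩
  have hY0 : 0 < Y := by linarith
  have h4 : Y ^ (3 / 4 - δ) ≤ Y ^ (3 / 4 - min δ (1 / 2)) :=
    Real.rpow_le_rpow_of_exponent_le hY (by linarith [min_le_left δ (1 / 2 : ℝ)])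
  have h5 : 1 ≤ Y ^ (3 / 4 - min δ (1 / 2 : ℝ)) :=
    Real.one_le_rpow hY (by linarith [min_le_right δ (1 / 2 : ℝ)])
  by_cases hYY : Y0 ≤ Y
  · have h1 := hb Y hY P (fun w hw => ⟨(hP w hw).1, h Y w hYY (hP w hw).1 (hP w hw).2⟩)
    calc (P.card : ℝ) ≤ C * Y ^ (3 / 4 - δ) := h1
      _ ≤ C * Y ^ (3 / 4 - min δ (1 / 2)) := by gcongr
      _ ≤ (C + C1) * Y ^ (3 / 4 - min δ (1 / 2)) := by gcongr; linarith
  · push Not at hYY
    have hsub : P ⊆ Finset.Icc (-(B : ℤ)) B ×ˢ Finset.Icc (-(B : ℤ)) B := by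
      intro w hw
      obtain ⟨_, _, _, _, _, _, h1, h2⟩ := (hP w hw).1
      have h6 : Y ^ K ≤ (max 1 Y0) ^ (max K 0) := by
        calc Y ^ K ≤ Y ^ (max K 0) := Real.rpow_le_rpow_of_exponent_le hY (le_max_left _ _)
          _ ≤ (max 1 Y0) ^ (max K 0) := Real.rpow_le_rpow hY0.le
            (hYY.le.trans (le_max_right _ _)) (le_max_right _ _)
      have h7 : w.1.natAbs ≤ B := Nat.le_floor (h1.trans h6)
      have h8 : w.2.natAbs ≤ B := Nat.le_floor (h2.trans h6)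
      rw [Finset.mem_product, Finset.mem_Icc, Finset.mem_Icc]
      refine ⟨⟨?_, ?_⟩, ⟨?_, ?_⟩⟩ <;> omega
    have h9 : (P.card : ℝ) ≤ C1 := by
      rw [hC1]
      exact_mod_cast Finset.card_le_card hsub
    calc (P.card : ℝ) ≤ C1 := h9
      _ ≤ (C + C1) * 1 := by linarith
      _ ≤ (C + C1) * Y ^ (3 / 4 - min δ (1 / 2)) := by gcongr

theorem tie_mono' (σ σ' : ℝ) (h : σ ≤ σ') (j : ℕ) (l : Fin (2 * j) → ℕ) (Y : ℝ) (hY : 1 ≤ Y) (x : ℤ) (hx : IsTie σ j l Y x) :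
    IsTie σ' j l Y x := by
  obtain ⟨w, p, h1, h2, h3, h4, h5, h6⟩ := hx
  refine ⟨w, p, h1, h2, h3, h4, h5.trans (Real.rpow_le_rpow_of_exponent_le hY h), fun i => ?_⟩
  exact ⟨(Real.rpow_le_rpow_of_exponent_le hY (by linarith)).trans (h6 i).1,
    (h6 i).2.trans (Real.rpow_le_rpow_of_exponent_le hY (by linarith))⟩

end Hp

end Pool.Agent.Lib.MP_d8bd92_nt
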