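import Pool.Agent.Lib.MP_d8bd92_nt.Hp.BDefs
import Pool.Agent.Lib.MP_d8bd92_nt.TwRad

set_option autoImplicit false

namespace Pool.Agent.Lib.MP_d8bd92_nt

namespace Hp

open Finset Pool.Agent.Lib.Szpiro

/-- at most two integers have a given absolute value -/
private theorem BA_abs (b : ℕ) : ∀ x : ℤ, x.natAbs = b → x ∈ ({(b : ℤ), -(b : ℤ)} : Finset ℤ) := by
  intro x hx
  rw [Finset.mem_insert, Finset.mem_singleton]
  omega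

private theorem BA_abs_card (b : ℕ) : ({(b : ℤ), -(b : ℤ)} : Finset ℤ).card ≤ 2 := Finset.card_le_two

private theorem BA_one_le {X r : ℝ} (hr : 0 < r) (h : r ≤ X) : 1 ≤ X * r⁻¹ := by
  rw [← div_eq_mul_inv, one_le_div hr]
  exact h

private theorem BA_rd_pos (n : ℕ) : (0 : ℝ) < (rd n : ℝ) := by exact_mod_cast rd_pos n

/-- ROW BA.  Integers with small radical.  Proof: `sum_inv_rd σ` (file TwRad) gives `C` with
`∑ a ∈ Icc 1 Z, (rd a)⁻¹ ≤ C Z ^ σ`.  The map `a ↦ (a.natAbs, decide (0 ≤ a))` is injective, so `F.card` is at most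
`2 * (F.image natAbs).card`, and `(F.image natAbs).card ≤ ∑ a ∈ F.image natAbs, X / rd a ≤ X * C * Z ^ σ`. -/
theorem count_rad (σ : ℝ) (hσ : 0 < σ) : ∃ C : ℝ, 1 ≤ C ∧ ∀ (Z : ℕ) (X : ℝ) (F : Finset ℤ), 1 ≤ Z → 0 ≤ X →
    (∀ a ∈ F, a ≠ 0 ∧ a.natAbs ≤ Z ∧ (rd a.natAbs : ℝ) ≤ X) → (F.card : ℝ) ≤ C * (Z : ℝ) ^ σ * X := by
  classical
  obtain ⟨C, hC, h⟩ := sum_inv_rd σ hσ
  refine ⟨2 * C, by linarith, fun Z X F hZ hX hF => ?_⟩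
  have h1 : F.card ≤ 2 * (F.image Int.natAbs).card := by
    apply Finset.card_le_mul_card_image
    intro b _
    refine le_trans (Finset.card_le_card ?_) (BA_abs_card b)
    intro x hx
    exact BA_abs b x (Finset.mem_filter.1 hx).2
  have h2 : ((F.image Int.natAbs).card : ℝ) ≤ X * ∑ a ∈ Icc 1 Z, ((rd a : ℝ))⁻¹ := by
    rw [Finset.card_eq_sum_ones, Nat.cast_sum, Finset.mul_sum]
    refine le_trans (Finset.sum_le_sum (g := fun a => X * ((rd a : ℝ))⁻¹) ?_)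
      (Finset.sum_le_sum_of_subset_of_nonneg ?_ ?_)
    · intro b hb
      obtain ⟨a, ha, rfl⟩ := Finset.mem_image.1 hb
      rw [Nat.cast_one]
      exact BA_one_le (BA_rd_pos _) (hF a ha).2.2
    · intro b hb
      obtain ⟨a, ha, rfl⟩ := Finset.mem_image.1 hb
      rw [Finset.mem_Icc]
      exact ⟨Int.natAbs_pos.2 (hF a ha).1, (hF a ha).2.1⟩
    · intro b _ _
      exact mul_nonneg hX (inv_nonneg.2 (BA_rd_pos b).le)
  have h3 : (F.card : ℝ) ≤ 2 * ((F.image Int.natAbs).card : ℝ) := by exact_mod_cast h1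
  have h4 := mul_le_mul_of_nonneg_left (h Z hZ) hX
  calc (F.card : ℝ) ≤ 2 * ((F.image Int.natAbs).card : ℝ) := h3
    _ ≤ 2 * (X * (C * (Z : ℝ) ^ σ)) := by linarith
    _ = 2 * C * (Z : ℝ) ^ σ * X := by ring

/-- ROW BA.  Pairs of integers with small product of radicals.  Proof: the same with the injective map
`w ↦ (w.1.natAbs, w.2.natAbs, two signs)` (factor `4`): the number of pairs of naturals is at most
`∑ ∑ X / (rd a * rd b) = X * (∑ (rd a)⁻¹) ^ 2 ≤ X * (C * Z ^ (σ / 2)) ^ 2` (take `sum_inv_rd (σ / 2)`). -/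
theorem count_rad_pairs (σ : ℝ) (hσ : 0 < σ) : ∃ C : ℝ, 1 ≤ C ∧ ∀ (Z : ℕ) (X : ℝ) (F : Finset (ℤ × ℤ)), 1 ≤ Z → 0 ≤ X →
    (∀ w ∈ F, w.1 ≠ 0 ∧ w.2 ≠ 0 ∧ w.1.natAbs ≤ Z ∧ w.2.natAbs ≤ Z ∧
      (rd w.1.natAbs : ℝ) * (rd w.2.natAbs : ℝ) ≤ X) → (F.card : ℝ) ≤ C * (Z : ℝ) ^ σ * X := by
  classical
  obtain ⟨C, hC, h⟩ := sum_inv_rd (σ / 2) (by positivity)
  refine ⟨4 * C ^ 2, by nlinarith, fun Z X F hZ hX hF => ?_⟩
  have hZ0 : (0 : ℝ) < (Z : ℝ) := by exact_mod_cast hZ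
  have h1 : F.card ≤ 4 * (F.image fun w : ℤ × ℤ => (w.1.natAbs, w.2.natAbs)).card := by
    apply Finset.card_le_mul_card_image
    rintro ⟨b, c⟩ _
    refine le_trans (Finset.card_le_card (t := ({(b : ℤ), -(b : ℤ)} : Finset ℤ) ×ˢ
      ({(c : ℤ), -(c : ℤ)} : Finset ℤ)) ?_) ?_
    · intro x hx
      have h5 := (Finset.mem_filter.1 hx).2
      rw [Prod.mk.injEq] at h5
      exact Finset.mem_product.2 ⟨BA_abs b _ h5.1, BA_abs c _ h5.2⟩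
    · rw [Finset.card_product]
      exact Nat.mul_le_mul (BA_abs_card b) (BA_abs_card c)
  have h2 : ((F.image fun w : ℤ × ℤ => (w.1.natAbs, w.2.natAbs)).card : ℝ) ≤
      X * (∑ a ∈ Icc 1 Z, ((rd a : ℝ))⁻¹) ^ 2 := by
    have h6 : X * (∑ a ∈ Icc 1 Z, ((rd a : ℝ))⁻¹) ^ 2 =
        ∑ w ∈ Icc 1 Z ×ˢ Icc 1 Z, X * ((rd w.1 : ℝ) * (rd w.2 : ℝ))⁻¹ := by
      rw [sq, Finset.sum_mul_sum, ← Finset.sum_product', Finset.mul_sum]
      refine Finset.sum_congr rfl fun w _ => ?_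
      rw [mul_inv]
    rw [h6, Finset.card_eq_sum_ones, Nat.cast_sum]
    refine le_trans (Finset.sum_le_sum (g := fun w : ℕ × ℕ => X * ((rd w.1 : ℝ) * (rd w.2 : ℝ))⁻¹) ?_)
      (Finset.sum_le_sum_of_subset_of_nonneg ?_ ?_)
    · intro b hb
      obtain ⟨a, ha, rfl⟩ := Finset.mem_image.1 hb
      rw [Nat.cast_one]
      exact BA_one_le (mul_pos (BA_rd_pos _) (BA_rd_pos _)) (hF a ha).2.2.2.2
    · intro b hb
      obtain ⟨a, ha, rfl⟩ := Finset.mem_image.1 hb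
      obtain ⟨ha1, ha2, ha3, ha4, _⟩ := hF a ha
      rw [Finset.mem_product, Finset.mem_Icc, Finset.mem_Icc]
      exact ⟨⟨Int.natAbs_pos.2 ha1, ha3⟩, ⟨Int.natAbs_pos.2 ha2, ha4⟩⟩
    · intro b _ _
      exact mul_nonneg hX (inv_nonneg.2 (mul_pos (BA_rd_pos _) (BA_rd_pos _)).le)
  have h3 : (F.card : ℝ) ≤ 4 * ((F.image fun w : ℤ × ℤ => (w.1.natAbs, w.2.natAbs)).card : ℝ) := by
    exact_mod_cast h1
  have h0 : 0 ≤ ∑ a ∈ Icc 1 Z, ((rd a : ℝ))⁻¹ := Finset.sum_nonneg fun a _ => inv_nonneg.2 (BA_rd_pos a).le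
  have h4 : (∑ a ∈ Icc 1 Z, ((rd a : ℝ))⁻¹) ^ 2 ≤ (C * (Z : ℝ) ^ (σ / 2)) ^ 2 :=
    pow_le_pow_left₀ h0 (h Z hZ) 2
  have h5 : (C * (Z : ℝ) ^ (σ / 2)) ^ 2 = C ^ 2 * (Z : ℝ) ^ σ := by
    rw [mul_pow, ← Real.rpow_natCast ((Z : ℝ) ^ (σ / 2)) 2, ← Real.rpow_mul hZ0.le]
    congr 2
    push_cast
    ring
  rw [h5] at h4
  have h7 := mul_le_mul_of_nonneg_left h4 hX
  calc (F.card : ℝ) ≤ 4 * ((F.image fun w : ℤ × ℤ => (w.1.natAbs, w.2.natAbs)).card : ℝ) := h3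
    _ ≤ 4 * (X * (C ^ 2 * (Z : ℝ) ^ σ)) := by linarith
    _ = 4 * C ^ 2 * (Z : ℝ) ^ σ * X := by ring

end Hp

end Pool.Agent.Lib.MP_d8bd92_nt
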