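import Pool.Agent.Lib.MP_d8bd92_nt.Hp.BDefs
import Pool.Agent.Lib.MP_d8bd92_nt.CdA

set_option autoImplicit false

namespace Pool.Agent.Lib.MP_d8bd92_nt

namespace Hp

open Finset Pool.Agent.Lib.Szpiro

/-- ROW BB.  Few common neighbours.  Proof: for `y ∈ T` choose `g, g' ≥ 0` (natural numbers) with `x + y = g ^ 2`,
`x' + y = g' ^ 2`; then `(g - g') * (g + g') = x - x' ≠ 0`, so `g + g' ≥ 1` divides `x - x'`.  The map
`y ↦ (g + g')` from `T` to the divisors of `(x - x').natAbs` is injective: `g + g'` determines `g - g'`, hence `g`, hence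
`y = g ^ 2 - x`. -/
theorem common_le (x x' : ℤ) (hx : x ≠ x') (T : Finset ℤ)
    (hT : ∀ y ∈ T, (∃ g : ℤ, x + y = g ^ 2) ∧ ∃ g : ℤ, x' + y = g ^ 2) :
    T.card ≤ (x - x').natAbs.divisors.card := by
  have hx0 : x - x' ≠ 0 := sub_ne_zero.2 hx
  have key : ∀ y : ℤ, ∃ s : ℕ × ℕ, y ∈ T → x + y = (s.1 : ℤ) ^ 2 ∧ x' + y = (s.2 : ℤ) ^ 2 := by
    intro y
    by_cases hy : y ∈ T
    · obtain ⟨⟨g, hg⟩, ⟨g', hg'⟩⟩ := hT y hy
      refine ⟨(g.natAbs, g'.natAbs), fun _ => ⟨?_, ?_⟩⟩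
      · rw [hg]; exact (Int.natAbs_sq g).symm
      · rw [hg']; exact (Int.natAbs_sq g').symm
    · exact ⟨(0, 0), fun h => absurd h hy⟩
  choose s hs using key
  refine Finset.card_le_card_of_injOn (fun y => (s y).1 + (s y).2) ?_ ?_
  · intro y hy
    obtain ⟨h1, h2⟩ := hs y hy
    simp only [Finset.mem_coe, Nat.mem_divisors]
    refine ⟨?_, Int.natAbs_ne_zero.2 hx0⟩
    rw [← Int.natCast_dvd]
    refine ⟨((s y).1 : ℤ) - (s y).2, ?_⟩
    push_cast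
    linear_combination h1 - h2
  · intro y hy z hz hyz
    obtain ⟨h1, h2⟩ := hs y hy
    obtain ⟨h3, h4⟩ := hs z hz
    have hsum : ((s y).1 : ℤ) + (s y).2 = (s z).1 + (s z).2 := by exact_mod_cast hyz
    have e1 : (((s y).1 : ℤ) + (s y).2) * ((s y).1 - (s y).2) = x - x' := by linear_combination h2 - h1
    have e2 : (((s z).1 : ℤ) + (s z).2) * ((s z).1 - (s z).2) = x - x' := by linear_combination h4 - h3
    have hne : ((s y).1 : ℤ) + (s y).2 ≠ 0 := by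
      intro h0
      rw [h0, zero_mul] at e1
      exact hx0 e1.symm
    have e3 : ((s y).1 : ℤ) - (s y).2 = (s z).1 - (s z).2 := by
      apply mul_left_cancel₀ hne
      rw [e1, hsum, e2]
    have e4 : ((s y).1 : ℤ) = (s z).1 := by linarith
    have e5 : x + y = x + z := by rw [h1, h3, e4]
    exact add_left_cancel e5

/-- ROW BB.  With the divisor bound `card_divisors_le_rpow σ` (file CdA) and `|x - x'| ≤ 2 Z`. -/
theorem common_bound (σ : ℝ) (hσ : 0 < σ) : ∃ C : ℝ, 1 ≤ C ∧ ∀ (Z : ℕ) (x x' : ℤ) (T : Finset ℤ), 1 ≤ Z → x ≠ x' →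
    x.natAbs ≤ Z → x'.natAbs ≤ Z →
    (∀ y ∈ T, (∃ g : ℤ, x + y = g ^ 2) ∧ ∃ g : ℤ, x' + y = g ^ 2) → (T.card : ℝ) ≤ C * (Z : ℝ) ^ σ := by
  obtain ⟨C, hC1, hC⟩ := card_divisors_le_rpow σ hσ
  refine ⟨C * 2 ^ σ, ?_, ?_⟩
  · have h2 : (1 : ℝ) ≤ 2 ^ σ := Real.one_le_rpow (by norm_num) hσ.le
    calc (1 : ℝ) = 1 * 1 := (mul_one 1).symm
      _ ≤ C * 2 ^ σ := mul_le_mul hC1 h2 zero_le_one (by linarith)
  · intro Z x x' T hZ hx hxZ hx'Z hT
    have hne : (x - x').natAbs ≠ 0 := Int.natAbs_ne_zero.2 (sub_ne_zero.2 hx)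
    have hle : (x - x').natAbs ≤ 2 * Z := by omega
    have h1 : (T.card : ℝ) ≤ (((x - x').natAbs.divisors.card : ℕ) : ℝ) := by
      exact_mod_cast common_le x x' hx T hT
    have h3 : ((x - x').natAbs : ℝ) ≤ 2 * Z := by exact_mod_cast hle
    calc (T.card : ℝ) ≤ _ := h1
      _ ≤ C * (((x - x').natAbs : ℕ) : ℝ) ^ σ := hC _ hne
      _ ≤ C * (2 * (Z : ℝ)) ^ σ :=
          mul_le_mul_of_nonneg_left (Real.rpow_le_rpow (Nat.cast_nonneg _) h3 hσ.le) (by linarith)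
      _ = C * 2 ^ σ * (Z : ℝ) ^ σ := by
          rw [Real.mul_rpow (by norm_num) (Nat.cast_nonneg Z)]; ring

end Hp

end Pool.Agent.Lib.MP_d8bd92_nt
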