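import Pool.Agent.Lib.MP_d8bd92_nt.Hp.BDefs

set_option autoImplicit false

namespace Pool.Agent.Lib.MP_d8bd92_nt

namespace Hp

open Finset Pool.Agent.Lib.Szpiro

private theorem BC_card {α β : Type} [DecidableEq α] [DecidableEq β] (S : Finset (α × β)) :
    S.card = ∑ b ∈ S.image Prod.snd, ((S.image Prod.fst).filter (fun a => (a, b) ∈ S)).card := by
  rw [Finset.card_eq_sum_card_fiberwise (f := Prod.snd) (t := S.image Prod.snd)
    (fun x hx => Finset.mem_coe.2 (Finset.mem_image_of_mem _ hx))]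
  apply Finset.sum_congr rfl
  intro b _
  refine Finset.card_bij (fun p _ => p.1) ?_ ?_ ?_
  · intro p hp
    rw [Finset.mem_filter] at hp ⊢
    obtain ⟨hp1, hp2⟩ := hp
    refine ⟨Finset.mem_image_of_mem _ hp1, ?_⟩
    rw [← hp2]
    exact hp1
  · intro p hp q hq h
    rw [Finset.mem_filter] at hp hq
    exact Prod.ext h (hp.2.trans hq.2.symm)
  · intro a ha
    rw [Finset.mem_filter] at ha
    exact ⟨(a, b), by rw [Finset.mem_filter]; exact ⟨ha.2, rfl⟩, rfl⟩

private theorem BC_card' {α β : Type} [DecidableEq α] [DecidableEq β] (S : Finset (α × β)) :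
    S.card = ∑ a ∈ S.image Prod.fst, ((S.image Prod.snd).filter (fun b => (a, b) ∈ S)).card := by
  rw [BC_card]
  simp_rw [Finset.card_filter]
  rw [Finset.sum_comm]

private theorem BC_sq {α β : Type} [DecidableEq α] [DecidableEq β] (S : Finset (α × β)) (b : β) :
    (((S.image Prod.fst).filter (fun a => (a, b) ∈ S)).card : ℝ) ^ 2 =
      ∑ a ∈ S.image Prod.fst, ∑ a' ∈ S.image Prod.fst,
        (if (a, b) ∈ S ∧ (a', b) ∈ S then (1 : ℝ) else 0) := by
  rw [Finset.card_filter]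
  push_cast
  rw [sq, Finset.sum_mul_sum]
  refine Finset.sum_congr rfl fun a _ => Finset.sum_congr rfl fun a' _ => ?_
  by_cases h1 : (a, b) ∈ S <;> by_cases h2 : (a', b) ∈ S <;> simp [h1, h2]

/-- ROW BC.  Kovari, Sos, Turan.  Proof: let `V = S.image snd`, `U = S.image fst`, `d b` = number of `a` with
`(a, b) ∈ S`.  `S.card = ∑ b ∈ V, d b`, so `S.card ^ 2 ≤ V.card * ∑ b ∈ V, (d b) ^ 2` (Cauchy-Schwarz, `sq_sum_le_card_mul_sum_sq`).
`∑ b, (d b) ^ 2` is the number of `(a, a', b)` with `(a, b), (a', b) ∈ S`, which is at most `S.card` (for `a = a'`) plus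
`U.card ^ 2 * D`.  So `s ^ 2 ≤ v * (s + u ^ 2 * D)`.  If `s > v + u * √(D * v)` then `s * (s - v) > u ^ 2 * D * v`: contradiction. -/
theorem kst {α β : Type} [DecidableEq α] [DecidableEq β] (S : Finset (α × β)) (D : ℝ) (hD : 0 ≤ D)
    (h : ∀ a a' : α, a ≠ a' →
      (((S.image Prod.snd).filter (fun b => (a, b) ∈ S ∧ (a', b) ∈ S)).card : ℝ) ≤ D) :
    (S.card : ℝ) ≤ ((S.image Prod.snd).card : ℝ) +
      ((S.image Prod.fst).card : ℝ) * √(D * ((S.image Prod.snd).card : ℝ)) := by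
  classical
  set V := S.image Prod.snd with hV
  set U := S.image Prod.fst with hU
  have h1 : (S.card : ℝ) = ∑ b ∈ V, ((U.filter (fun a => (a, b) ∈ S)).card : ℝ) := by
    exact_mod_cast BC_card S
  have h2 : (S.card : ℝ) ^ 2 ≤ (V.card : ℝ) *
      ∑ b ∈ V, ((U.filter (fun a => (a, b) ∈ S)).card : ℝ) ^ 2 := by
    rw [h1]
    exact sq_sum_le_card_mul_sum_sq
  have h3 : ∑ b ∈ V, ((U.filter (fun a => (a, b) ∈ S)).card : ℝ) ^ 2 =
      ∑ a ∈ U, ∑ a' ∈ U, ((V.filter (fun b => (a, b) ∈ S ∧ (a', b) ∈ S)).card : ℝ) := by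
    have : ∀ b ∈ V, ((U.filter (fun a => (a, b) ∈ S)).card : ℝ) ^ 2 =
        ∑ a ∈ U, ∑ a' ∈ U, (if (a, b) ∈ S ∧ (a', b) ∈ S then (1 : ℝ) else 0) :=
      fun b _ => BC_sq S b
    rw [Finset.sum_congr rfl this, Finset.sum_comm]
    refine Finset.sum_congr rfl fun a _ => ?_
    rw [Finset.sum_comm]
    refine Finset.sum_congr rfl fun a' _ => ?_
    rw [Finset.card_filter]
    push_cast
    rfl
  have h4 : ∑ a ∈ U, ∑ a' ∈ U, ((V.filter (fun b => (a, b) ∈ S ∧ (a', b) ∈ S)).card : ℝ) ≤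
      (S.card : ℝ) + (U.card : ℝ) ^ 2 * D := by
    have h5 : (S.card : ℝ) = ∑ a ∈ U, ((V.filter (fun b => (a, b) ∈ S)).card : ℝ) := by
      exact_mod_cast BC_card' S
    have h6 : ∀ a ∈ U, ∑ a' ∈ U, ((V.filter (fun b => (a, b) ∈ S ∧ (a', b) ∈ S)).card : ℝ) ≤
        ((V.filter (fun b => (a, b) ∈ S)).card : ℝ) + (U.card : ℝ) * D := by
      intro a ha
      rw [← Finset.add_sum_erase U _ ha]
      have h7 : V.filter (fun b => (a, b) ∈ S ∧ (a, b) ∈ S) = V.filter (fun b => (a, b) ∈ S) := by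
        simp
      rw [h7]
      have h8 : ∑ a' ∈ U.erase a, ((V.filter (fun b => (a, b) ∈ S ∧ (a', b) ∈ S)).card : ℝ) ≤
          ∑ _a' ∈ U.erase a, D :=
        Finset.sum_le_sum fun a' ha' => h a a' (Finset.ne_of_mem_erase ha').symm
      rw [Finset.sum_const, nsmul_eq_mul] at h8
      have h9 : ((U.erase a).card : ℝ) ≤ (U.card : ℝ) := by
        exact_mod_cast Finset.card_le_card (Finset.erase_subset _ _)
      have := mul_le_mul_of_nonneg_right h9 hD
      linarith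
    have h10 := Finset.sum_le_sum h6
    rw [Finset.sum_add_distrib, ← h5, Finset.sum_const, nsmul_eq_mul] at h10
    calc _ ≤ _ := h10
      _ = _ := by ring
  have h11 : (S.card : ℝ) ^ 2 ≤ (V.card : ℝ) * ((S.card : ℝ) + (U.card : ℝ) ^ 2 * D) := by
    rw [h3] at h2
    exact h2.trans (mul_le_mul_of_nonneg_left h4 (Nat.cast_nonneg _))
  have hv : (0 : ℝ) ≤ (V.card : ℝ) := Nat.cast_nonneg _
  have hu : (0 : ℝ) ≤ (U.card : ℝ) := Nat.cast_nonneg _
  have hs : (0 : ℝ) ≤ (S.card : ℝ) := Nat.cast_nonneg _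
  have hq := Real.sqrt_nonneg (D * (V.card : ℝ))
  have hq2 : √(D * (V.card : ℝ)) ^ 2 = D * (V.card : ℝ) := Real.sq_sqrt (mul_nonneg hD hv)
  by_contra hc
  push Not at hc
  set s : ℝ := (S.card : ℝ)
  set v : ℝ := (V.card : ℝ)
  set u : ℝ := (U.card : ℝ)
  set q : ℝ := √(D * v)
  have ht : 0 ≤ u * q := mul_nonneg hu hq
  have h12 : (u * q) ^ 2 = u ^ 2 * (D * v) := by rw [mul_pow, hq2]
  have h13 : u * q < s - v := by linarith
  have h14 : u * q < s := by linarith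
  have h15 : (u * q) * (u * q) < s * (s - v) := mul_lt_mul'' h14 h13 ht ht
  nlinarith [h11, h12, h15]

end Hp

end Pool.Agent.Lib.MP_d8bd92_nt
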