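import Pool.Agent.Lib.MP_d8bd92_nt.Hp.BDefs
import Pool.Agent.Lib.MP_d8bd92_nt.Hp.BA
import Pool.Agent.Lib.MP_d8bd92_nt.Hp.BB
import Pool.Agent.Lib.MP_d8bd92_nt.Hp.BC

set_option autoImplicit false

namespace Pool.Agent.Lib.MP_d8bd92_nt

namespace Hp

open Finset Pool.Agent.Lib.Szpiro

/-- ROW BD.  Proof: `kst` with `D = C2 * Z ^ (σ / 2)` from `common_bound (σ / 2)`; `count_rad (σ / 2)` for the number of
first members (`≤ C1 Z ^ (σ / 2) A`) and of second members (`≤ C1 Z ^ (σ / 2) B`).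
`(Z ^ (σ / 2)) ^ 2 = Z ^ σ`; `√(D * |V|) ≤ √(C1 C2) * Z ^ (σ / 2) * √B`. -/
theorem kst_pairs (σ : ℝ) (hσ : 0 < σ) : ∃ C : ℝ, 1 ≤ C ∧ ∀ (Z : ℕ) (A B : ℝ) (S : Finset (ℤ × ℤ)), 1 ≤ Z → 1 ≤ A →
    1 ≤ B → (∀ w ∈ S, PS Z w ∧ ra w ≤ A ∧ rb w ≤ B) → (S.card : ℝ) ≤ C * (Z : ℝ) ^ σ * (B + A * √B) := by
  obtain ⟨C2, hC2, hcb⟩ := common_bound (σ / 2) (half_pos hσ)
  obtain ⟨C1, hC1, hcr⟩ := count_rad (σ / 2) (half_pos hσ)
  have hC1' : (0 : ℝ) ≤ C1 := le_trans zero_le_one hC1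
  have hC2' : (0 : ℝ) ≤ C2 := le_trans zero_le_one hC2
  refine ⟨C1 + C1 * √(C1 * C2), le_trans hC1 (le_add_of_nonneg_right (by positivity)), ?_⟩
  intro Z A B S hZ hA hB hS
  have hZr : (1 : ℝ) ≤ (Z : ℝ) := by exact_mod_cast hZ
  have hz : (1 : ℝ) ≤ (Z : ℝ) ^ (σ / 2) := Real.one_le_rpow hZr (half_pos hσ).le
  have hzz : (Z : ℝ) ^ σ = (Z : ℝ) ^ (σ / 2) * (Z : ℝ) ^ (σ / 2) := by
    rw [← Real.rpow_add (by linarith)]
    congr 1
    ring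
  have hA0 : (0 : ℝ) ≤ A := le_trans zero_le_one hA
  have hB0 : (0 : ℝ) ≤ B := le_trans zero_le_one hB
  have hk := kst S (C2 * (Z : ℝ) ^ (σ / 2)) (by positivity) (by
    intro a a' haa
    rcases Finset.eq_empty_or_nonempty
      ((S.image Prod.snd).filter (fun b => (a, b) ∈ S ∧ (a', b) ∈ S)) with he | ⟨b, hb⟩
    · rw [he, Finset.card_empty, Nat.cast_zero]
      positivity
    · have hb' := (Finset.mem_filter.1 hb).2
      refine hcb Z a a' _ hZ haa (hS _ hb'.1).1.b1 (hS _ hb'.2).1.b1 ?_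
      intro y hy
      have hy' := (Finset.mem_filter.1 hy).2
      exact ⟨(hS _ hy'.1).1.sq, (hS _ hy'.2).1.sq⟩)
  have hu := hcr Z A (S.image Prod.fst) hZ hA0 (by
    intro a ha
    obtain ⟨w, hw, rfl⟩ := Finset.mem_image.1 ha
    exact ⟨(hS w hw).1.n1, (hS w hw).1.b1, (hS w hw).2.1⟩)
  have hv := hcr Z B (S.image Prod.snd) hZ hB0 (by
    intro a ha
    obtain ⟨w, hw, rfl⟩ := Finset.mem_image.1 ha
    exact ⟨(hS w hw).1.n2, (hS w hw).1.b2, (hS w hw).2.2⟩)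
  rw [hzz]
  set z : ℝ := (Z : ℝ) ^ (σ / 2) with hzdef
  have hz0 : (0 : ℝ) ≤ z := le_trans zero_le_one hz
  have hsq : √(C2 * z * ((S.image Prod.snd).card : ℝ)) ≤ √(C1 * C2) * z * √B := by
    have e : √(C1 * C2) * z * √B = √(C2 * z * (C1 * z * B)) := by
      have e1 : C2 * z * (C1 * z * B) = (C1 * C2) * (z ^ 2) * B := by ring
      rw [e1, Real.sqrt_mul (show (0 : ℝ) ≤ C1 * C2 * z ^ 2 by positivity),
        Real.sqrt_mul (show (0 : ℝ) ≤ C1 * C2 by positivity) (z ^ 2), Real.sqrt_sq hz0]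
    rw [e]
    apply Real.sqrt_le_sqrt
    exact mul_le_mul_of_nonneg_left hv (by positivity)
  have h1 : ((S.image Prod.fst).card : ℝ) * √(C2 * z * ((S.image Prod.snd).card : ℝ)) ≤
      (C1 * z * A) * (√(C1 * C2) * z * √B) :=
    mul_le_mul hu hsq (Real.sqrt_nonneg _) (by positivity)
  have h2 : C1 * z * B ≤ C1 * (z * z) * B := by
    have : z ≤ z * z := by nlinarith
    exact mul_le_mul_of_nonneg_right (mul_le_mul_of_nonneg_left this hC1') hB0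
  have h3 : (0 : ℝ) ≤ C1 * √(C1 * C2) * (z * z) * B := by positivity
  have h4 : (0 : ℝ) ≤ C1 * (z * z) * (A * √B) := by positivity
  calc (S.card : ℝ) ≤ _ := hk
    _ ≤ C1 * z * B + (C1 * z * A) * (√(C1 * C2) * z * √B) := add_le_add hv h1
    _ ≤ C1 * (z * z) * B + (C1 * z * A) * (√(C1 * C2) * z * √B) := by linarith
    _ ≤ (C1 + C1 * √(C1 * C2)) * (z * z) * (B + A * √B) := by nlinarith

end Hp

end Pool.Agent.Lib.MP_d8bd92_nt
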