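import Pool.Agent.Lib.MP_d8bd92_nt.Hp.Defs

set_option autoImplicit false

/-!
Counting block: definitions.
-/

namespace Pool.Agent.Lib.MP_d8bd92_nt

namespace Hp

open Finset Pool.Agent.Lib.Szpiro

/-- pairs of coprime nonzero integers of size at most `Z` whose sum is a square -/
structure PS (Z : ℕ) (w : ℤ × ℤ) : Prop where
  n1 : w.1 ≠ 0
  n2 : w.2 ≠ 0
  cop : IsCoprime w.1 w.2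
  sq : ∃ g : ℤ, w.1 + w.2 = g ^ 2
  b1 : w.1.natAbs ≤ Z
  b2 : w.2.natAbs ≤ Z

/-- radical of the first member -/
noncomputable def ra (w : ℤ × ℤ) : ℝ := (rd w.1.natAbs : ℝ)

/-- radical of the second member -/
noncomputable def rb (w : ℤ × ℤ) : ℝ := (rd w.2.natAbs : ℝ)

/-- first unbalanced critical type -/
def U1 (Y κ : ℝ) (w : ℤ × ℤ) : Prop :=
  Y ^ (1 / 4 - κ) ≤ ra w ∧ ra w ≤ Y ^ (1 / 4 + κ) ∧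
  ∃ p i u : ℕ, p.Prime ∧ 1 ≤ i ∧ 1 ≤ u ∧ Nat.Coprime p u ∧ w.2.natAbs = p ^ i * u ∧ u ≤ p ^ i ∧
    Y ^ (1 / 2 - κ) ≤ (p : ℝ) ∧ (p : ℝ) ≤ Y ^ (1 / 2 + κ) ∧
    Y ^ (1 / 4 - κ) ≤ (rd u : ℝ) ∧ (rd u : ℝ) ≤ Y ^ (1 / 4 + κ)

/-- second unbalanced critical type -/
def U3 (Y κ : ℝ) (w : ℤ × ℤ) : Prop :=
  Y ^ (1 / 4 - κ) ≤ ra w ∧ ra w ≤ Y ^ (1 / 4 + κ) ∧
  ∃ p q r i j k u : ℕ, p.Prime ∧ q.Prime ∧ r.Prime ∧ p ≠ q ∧ p ≠ r ∧ q ≠ r ∧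
    1 ≤ i ∧ 1 ≤ j ∧ 1 ≤ k ∧ 1 ≤ u ∧ Nat.Coprime (p * q * r) u ∧
    w.2.natAbs = p ^ i * q ^ j * r ^ k * u ∧
    Y ^ (1 / 4 - κ) ≤ (p : ℝ) ∧ (p : ℝ) ≤ Y ^ (1 / 4 + κ) ∧
    Y ^ (1 / 4 - κ) ≤ (q : ℝ) ∧ (q : ℝ) ≤ Y ^ (1 / 4 + κ) ∧
    Y ^ (1 / 4 - κ) ≤ (r : ℝ) ∧ (r : ℝ) ≤ Y ^ (1 / 4 + κ) ∧
    (rd u : ℝ) ≤ Y ^ κ ∧
    w.2.natAbs ≤ (p ^ i * q ^ j) ^ 2 ∧ w.2.natAbs ≤ (p ^ i * r ^ k) ^ 2 ∧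
    w.2.natAbs ≤ (q ^ j * r ^ k) ^ 2

end Hp

end Pool.Agent.Lib.MP_d8bd92_nt
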