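import Pool.Agent.Lib.MP_d8bd92_nt.Hp.BDefs
import Pool.Agent.Lib.MP_d8bd92_nt.Hp.BA

set_option autoImplicit false

namespace Pool.Agent.Lib.MP_d8bd92_nt

namespace Hp

open Finset Pool.Agent.Lib.Szpiro

private lemma BE_rad (a b : ℕ) (ha : a ≠ 0) (hb : b ≠ 0)
    (h : ∀ p : ℕ, p.Prime → p ∣ a → p ∣ b → p = 2) : rd a * rd b ≤ 2 * rd (a * b) := by
  unfold rd
  rw [Nat.primeFactors_mul ha hb, ← Finset.prod_union_inter (s₁ := a.primeFactors), mul_comm 2]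
  refine Nat.mul_le_mul_left _ ?_
  have hsub : a.primeFactors ∩ b.primeFactors ⊆ {2} := by
    intro p hp
    rw [Finset.mem_inter, Nat.mem_primeFactors, Nat.mem_primeFactors] at hp
    rw [Finset.mem_singleton]
    exact h p hp.1.1 hp.1.2.1 hp.2.2.1
  calc ∏ p ∈ a.primeFactors ∩ b.primeFactors, p ≤ ∏ p ∈ ({2} : Finset ℕ), p := by
        apply Finset.prod_le_prod_of_subset_of_one_le' hsub
        intro i hi _
        rw [Finset.mem_singleton] at hi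
        omega
    _ = 2 := by simp

private lemma BE_data (Z : ℕ) (Y : ℝ) (w : ℤ × ℤ) (h : PS Z w ∧ ra w * rb w ≤ Y ∧ IsSquare w.2) :
    ∃ a b k : ℤ, a ≠ 0 ∧ b ≠ 0 ∧ k ≠ 0 ∧ b = a + 2 * k ∧ w.1 = a * b ∧ w.2 = k ^ 2 ∧
      a.natAbs ≤ 4 * Z ∧ b.natAbs ≤ 4 * Z ∧ k.natAbs ≤ 4 * Z ∧
      (rd a.natAbs : ℝ) * rd b.natAbs * rd k.natAbs ≤ 2 * Y := by
  obtain ⟨hps, hY, r, hr⟩ := h
  obtain ⟨g, hg⟩ := hps.sq
  have hr2 : w.2 = |r| ^ 2 := by rw [hr, sq_abs]; ring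
  have hg2 : w.1 + w.2 = |g| ^ 2 := by rw [hg, sq_abs]
  have hab : w.1 = (|g| - |r|) * (|g| + |r|) := by
    have : w.1 = |g| ^ 2 - |r| ^ 2 := by rw [← hg2, ← hr2]; ring
    rw [this]; ring
  have hr0 : |r| ≠ 0 := by
    intro h0
    apply hps.n2
    rw [hr2, h0]; ring
  have ha0 : |g| - |r| ≠ 0 := by
    intro h0
    apply hps.n1
    rw [hab, h0]; ring
  have hb0 : |g| + |r| ≠ 0 := by
    intro h0
    apply hps.n1
    rw [hab, h0]; ring
  have hgn : (0 : ℤ) ≤ |g| := abs_nonneg g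
  have hrn : (0 : ℤ) ≤ |r| := abs_nonneg r
  have hb1 := hps.b1
  have hb2 := hps.b2
  have e1 : |w.1| ≤ (Z : ℤ) := by
    rw [Int.abs_eq_natAbs]; exact_mod_cast hb1
  have e2 : |w.2| ≤ (Z : ℤ) := by
    rw [Int.abs_eq_natAbs]; exact_mod_cast hb2
  have f1 : |g| ^ 2 ≤ 2 * (Z : ℤ) := by
    rw [← hg2]
    have h1 := le_abs_self w.1
    have h2 := le_abs_self w.2
    linarith
  have f2 : |r| ^ 2 ≤ (Z : ℤ) := by
    rw [← hr2]
    have h2 := le_abs_self w.2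
    linarith
  have g1 : |g| ≤ 2 * (Z : ℤ) := by
    by_contra hcon
    push Not at hcon
    nlinarith
  have g2 : |r| ≤ (Z : ℤ) := by
    by_contra hcon
    push Not at hcon
    nlinarith
  refine ⟨|g| - |r|, |g| + |r|, |r|, ha0, hb0, hr0, by ring, hab, hr2, by omega, by omega, by omega, ?_⟩
  have hcop : ∀ p : ℕ, p.Prime → p ∣ (|g| - |r|).natAbs → p ∣ (|g| + |r|).natAbs → p = 2 := by
    intro p hp h1 h2
    have h1' : (p : ℤ) ∣ |g| - |r| := Int.natCast_dvd.mpr h1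
    have h2' : (p : ℤ) ∣ |g| + |r| := Int.natCast_dvd.mpr h2
    have h3 : (p : ℤ) ∣ 2 * |r| := by
      have := dvd_sub h2' h1'
      have e : |g| + |r| - (|g| - |r|) = 2 * |r| := by ring
      rwa [e] at this
    have hpp : Prime (p : ℤ) := Nat.prime_iff_prime_int.mp hp
    rcases hpp.dvd_or_dvd h3 with h4 | h4
    · have h5 : p ∣ 2 := by exact_mod_cast h4
      exact (Nat.prime_dvd_prime_iff_eq hp Nat.prime_two).mp h5
    · exfalso
      have h5 : (p : ℤ) ∣ w.2 := by rw [hr2]; exact dvd_pow h4 (by norm_num)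
      have h6 : (p : ℤ) ∣ w.1 := by rw [hab]; exact Dvd.dvd.mul_right h1' _
      exact hpp.not_isUnit (hps.cop.isUnit_of_dvd' h6 h5)
  have hA : (|g| - |r|).natAbs ≠ 0 := Int.natAbs_ne_zero.mpr ha0
  have hB : (|g| + |r|).natAbs ≠ 0 := Int.natAbs_ne_zero.mpr hb0
  have hrad := BE_rad _ _ hA hB hcop
  have hmul : (|g| - |r|).natAbs * (|g| + |r|).natAbs = w.1.natAbs := by
    rw [← Int.natAbs_mul, ← hab]
  have hk : rd (|r|).natAbs = rd w.2.natAbs := by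
    unfold rd
    rw [hr2, Int.natAbs_pow, Nat.primeFactors_pow _ (by norm_num)]
  rw [hmul] at hrad
  have hrad' : (rd (|g| - |r|).natAbs : ℝ) * rd (|g| + |r|).natAbs ≤ 2 * rd w.1.natAbs := by
    exact_mod_cast hrad
  rw [hk]
  have h0 : (0 : ℝ) ≤ (rd w.2.natAbs : ℝ) := by positivity
  calc (rd (|g| - |r|).natAbs : ℝ) * rd (|g| + |r|).natAbs * rd w.2.natAbs
      ≤ 2 * rd w.1.natAbs * rd w.2.natAbs := mul_le_mul_of_nonneg_right hrad' h0
    _ = 2 * (ra w * rb w) := by unfold ra rb; ring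
    _ ≤ 2 * Y := by linarith

private lemma BE_three {x y z T : ℝ} (hx : 1 ≤ x) (hy : 1 ≤ y) (hz : 1 ≤ z) {V : ℝ} (hV : 0 ≤ V)
    (hT : T = V ^ (2 / 3 : ℝ)) (h : x * y * z ≤ V) : x * y ≤ T ∨ x * z ≤ T ∨ y * z ≤ T := by
  by_contra hcon
  push Not at hcon
  obtain ⟨h1, h2, h3⟩ := hcon
  have hT0 : 0 ≤ T := by rw [hT]; exact Real.rpow_nonneg hV _
  have hT3 : T ^ 3 = V ^ 2 := by
    rw [hT, ← Real.rpow_natCast, ← Real.rpow_mul hV]
    norm_num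
  have h4 : T ^ 3 < (x * y) * (x * z) * (y * z) := by
    have a1 : T * T < (x * y) * (x * z) := mul_lt_mul'' h1 h2 hT0 hT0
    have a2 : T * T * T < (x * y) * (x * z) * (y * z) := mul_lt_mul'' a1 h3 (mul_nonneg hT0 hT0) hT0
    calc T ^ 3 = T * T * T := by ring
      _ < _ := a2
  have h5 : (x * y) * (x * z) * (y * z) = (x * y * z) ^ 2 := by ring
  have h6 : 0 ≤ x * y * z := by positivity
  have h7 : (x * y * z) ^ 2 ≤ V ^ 2 := pow_le_pow_left₀ h6 h 2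
  rw [hT3, h5] at h4
  linarith

/-- ROW BE.  Pairs with a square member.  Proof: `w.2 = k ^ 2` with `k ≥ 1`, `w.1 + w.2 = g ^ 2` with `g ≥ 0`; put `a = g - k`,
`b = g + k`, so `a * b = w.1 ≠ 0`, `b = a + 2 k`.  An odd prime dividing `a` and `b` divides `2 k` and `w.1`, against coprimality, so
`rd |a| * rd |b| ≤ 2 * rd |w.1|` (compare the sets of prime factors), hence `rd |a| * rd |b| * rd k ≤ 2 Y` (`rd (k ^ 2) = rd k`).
So the product of two of the three radicals is at most `(2 Y) ^ (2 / 3)` (if all three pairwise products were larger then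
their product `(rd a rd b rd k) ^ 2 > (2 Y) ^ 2`).  Each two of `a, b, k` determine `w`.  So `S` is the union of three sets which
inject into pairs of nonzero integers of absolute value at most `2 Z` (`|a|, |b| ≤ 2 Z`, `k ≤ Z`: `g ^ 2 ≤ 2 Z`, `k ^ 2 ≤ Z`, so
`g, k ≤ 2 Z` easily) with product of radicals `≤ 2 ^ (2/3) Y ^ (2 / 3)`; use `count_rad_pairs` with `2 Z`, or `4 Z`. -/
theorem squares_le (σ : ℝ) (hσ : 0 < σ) : ∃ C : ℝ, 1 ≤ C ∧ ∀ (Z : ℕ) (Y : ℝ) (S : Finset (ℤ × ℤ)), 1 ≤ Z → 1 ≤ Y →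
    (∀ w ∈ S, PS Z w ∧ ra w * rb w ≤ Y ∧ IsSquare w.2) →
    (S.card : ℝ) ≤ C * (Z : ℝ) ^ σ * Y ^ (2 / 3 : ℝ) := by
  classical
  obtain ⟨C, hC1, hC⟩ := count_rad_pairs σ hσ
  refine ⟨3 * (C * 4 ^ σ * 2 ^ (2 / 3 : ℝ)), ?_, ?_⟩
  · have h1 : (1 : ℝ) ≤ 4 ^ σ := Real.one_le_rpow (by norm_num) hσ.le
    have h2 : (1 : ℝ) ≤ 2 ^ (2 / 3 : ℝ) := Real.one_le_rpow (by norm_num) (by norm_num)
    have h3 : (1 : ℝ) ≤ C * 4 ^ σ := one_le_mul_of_one_le_of_one_le hC1 h1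
    have h4 : (1 : ℝ) ≤ C * 4 ^ σ * 2 ^ (2 / 3 : ℝ) := one_le_mul_of_one_le_of_one_le h3 h2
    linarith
  intro Z Y S hZ hY hS
  have hY0 : 0 ≤ Y := by linarith
  have hch : ∀ w : ℤ × ℤ, ∃ t : ℤ × ℤ × ℤ, w ∈ S → t.1 ≠ 0 ∧ t.2.1 ≠ 0 ∧ t.2.2 ≠ 0 ∧
      t.2.1 = t.1 + 2 * t.2.2 ∧ w.1 = t.1 * t.2.1 ∧ w.2 = t.2.2 ^ 2 ∧
      t.1.natAbs ≤ 4 * Z ∧ t.2.1.natAbs ≤ 4 * Z ∧ t.2.2.natAbs ≤ 4 * Z ∧
      (rd t.1.natAbs : ℝ) * rd t.2.1.natAbs * rd t.2.2.natAbs ≤ 2 * Y := by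
    intro w
    by_cases hw : w ∈ S
    · obtain ⟨a, b, k, h⟩ := BE_data Z Y w (hS w hw)
      exact ⟨(a, b, k), fun _ => h⟩
    · exact ⟨(0, 0, 0), fun h => absurd h hw⟩
  choose t ht using hch
  set T : ℝ := (2 * Y) ^ (2 / 3 : ℝ) with hT
  have hT0 : 0 ≤ T := Real.rpow_nonneg (by linarith) _
  have hZ4 : 1 ≤ 4 * Z := by omega
  have key : ∀ (f : ℤ × ℤ → ℤ × ℤ) (S' : Finset (ℤ × ℤ)), (∀ w ∈ S', ∀ w' ∈ S', f w = f w' → w = w') →
      (∀ w ∈ S', (f w).1 ≠ 0 ∧ (f w).2 ≠ 0 ∧ (f w).1.natAbs ≤ 4 * Z ∧ (f w).2.natAbs ≤ 4 * Z ∧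
        (rd (f w).1.natAbs : ℝ) * (rd (f w).2.natAbs : ℝ) ≤ T) →
      (S'.card : ℝ) ≤ C * ((4 * Z : ℕ) : ℝ) ^ σ * T := by
    intro f S' hinj hf
    have h1 : S'.card = (S'.image f).card := by
      rw [Finset.card_image_of_injOn]
      intro x hx y hy hxy
      exact hinj x hx y hy hxy
    rw [h1]
    refine hC (4 * Z) T (S'.image f) hZ4 hT0 ?_
    intro v hv
    rw [Finset.mem_image] at hv
    obtain ⟨w, hw, rfl⟩ := hv
    exact hf w hw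
  have k1 := key (fun w => ((t w).1, (t w).2.1))
    (S.filter (fun w => (rd (t w).1.natAbs : ℝ) * rd (t w).2.1.natAbs ≤ T)) (by
      intro w hw w' hw' he
      rw [Finset.mem_filter] at hw hw'
      obtain ⟨-, -, -, h1, h2, h3, -⟩ := ht w hw.1
      obtain ⟨-, -, -, h1', h2', h3', -⟩ := ht w' hw'.1
      obtain ⟨e1, e2⟩ := Prod.mk.inj he
      have e3 : (t w).2.2 = (t w').2.2 := by omega
      exact Prod.ext (by rw [h2, h2', e1, e2]) (by rw [h3, h3', e3])) (by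
      intro w hw
      rw [Finset.mem_filter] at hw
      obtain ⟨a1, a2, a3, -, -, -, b1, b2, b3, -⟩ := ht w hw.1
      exact ⟨a1, a2, b1, b2, hw.2⟩)
  have k2 := key (fun w => ((t w).1, (t w).2.2))
    (S.filter (fun w => (rd (t w).1.natAbs : ℝ) * rd (t w).2.2.natAbs ≤ T)) (by
      intro w hw w' hw' he
      rw [Finset.mem_filter] at hw hw'
      obtain ⟨-, -, -, h1, h2, h3, -⟩ := ht w hw.1
      obtain ⟨-, -, -, h1', h2', h3', -⟩ := ht w' hw'.1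
      obtain ⟨e1, e2⟩ := Prod.mk.inj he
      have e3 : (t w).2.1 = (t w').2.1 := by omega
      exact Prod.ext (by rw [h2, h2', e1, e3]) (by rw [h3, h3', e2])) (by
      intro w hw
      rw [Finset.mem_filter] at hw
      obtain ⟨a1, a2, a3, -, -, -, b1, b2, b3, -⟩ := ht w hw.1
      exact ⟨a1, a3, b1, b3, hw.2⟩)
  have k3 := key (fun w => ((t w).2.1, (t w).2.2))
    (S.filter (fun w => (rd (t w).2.1.natAbs : ℝ) * rd (t w).2.2.natAbs ≤ T)) (by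
      intro w hw w' hw' he
      rw [Finset.mem_filter] at hw hw'
      obtain ⟨-, -, -, h1, h2, h3, -⟩ := ht w hw.1
      obtain ⟨-, -, -, h1', h2', h3', -⟩ := ht w' hw'.1
      obtain ⟨e1, e2⟩ := Prod.mk.inj he
      have e3 : (t w).1 = (t w').1 := by omega
      exact Prod.ext (by rw [h2, h2', e1, e3]) (by rw [h3, h3', e2])) (by
      intro w hw
      rw [Finset.mem_filter] at hw
      obtain ⟨a1, a2, a3, -, -, -, b1, b2, b3, -⟩ := ht w hw.1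
      exact ⟨a2, a3, b2, b3, hw.2⟩)
  have hcov : S ⊆ S.filter (fun w => (rd (t w).1.natAbs : ℝ) * rd (t w).2.1.natAbs ≤ T) ∪
      (S.filter (fun w => (rd (t w).1.natAbs : ℝ) * rd (t w).2.2.natAbs ≤ T) ∪
       S.filter (fun w => (rd (t w).2.1.natAbs : ℝ) * rd (t w).2.2.natAbs ≤ T)) := by
    intro w hw
    obtain ⟨-, -, -, -, -, -, -, -, -, h⟩ := ht w hw
    rw [Finset.mem_union, Finset.mem_union, Finset.mem_filter, Finset.mem_filter, Finset.mem_filter]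
    rcases BE_three (one_le_rd _) (one_le_rd _) (one_le_rd _) (by linarith : (0 : ℝ) ≤ 2 * Y) hT h
      with h1 | h1 | h1
    · exact Or.inl ⟨hw, h1⟩
    · exact Or.inr (Or.inl ⟨hw, h1⟩)
    · exact Or.inr (Or.inr ⟨hw, h1⟩)
  have hcard : (S.card : ℝ) ≤ 3 * (C * ((4 * Z : ℕ) : ℝ) ^ σ * T) := by
    have h1 := (Finset.card_le_card hcov).trans ((Finset.card_union_le _ _).trans
      (Nat.add_le_add_left (Finset.card_union_le _ _) _))
    have h2 : (S.card : ℝ) ≤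
        ((S.filter (fun w => (rd (t w).1.natAbs : ℝ) * rd (t w).2.1.natAbs ≤ T)).card : ℝ) +
        (((S.filter (fun w => (rd (t w).1.natAbs : ℝ) * rd (t w).2.2.natAbs ≤ T)).card : ℝ) +
         ((S.filter (fun w => (rd (t w).2.1.natAbs : ℝ) * rd (t w).2.2.natAbs ≤ T)).card : ℝ)) := by
      exact_mod_cast h1
    linarith
  refine hcard.trans (le_of_eq ?_)
  have hTe : T = 2 ^ (2 / 3 : ℝ) * Y ^ (2 / 3 : ℝ) := by
    rw [hT, Real.mul_rpow (by norm_num) hY0]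
  have hZe : (((4 * Z : ℕ) : ℝ)) ^ σ = 4 ^ σ * (Z : ℝ) ^ σ := by
    push_cast
    rw [Real.mul_rpow (by norm_num) (by positivity)]
  rw [hTe, hZe]
  ring

end Hp

end Pool.Agent.Lib.MP_d8bd92_nt
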