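import Pool.Agent.Lib.MP_d8bd92_nt.Hp.BDefs
import Pool.Agent.Lib.MP_d8bd92_nt.Hp.BA
import Pool.Agent.Lib.MP_d8bd92_nt.Hp.BB

set_option autoImplicit false

namespace Pool.Agent.Lib.MP_d8bd92_nt

namespace Hp

open Finset Pool.Agent.Lib.Szpiro

/-- the number of the members with a given unitary divisor -/
theorem BF_A (σ' C1 : ℝ) (Z : ℕ) (X : ℝ) (hX : 0 ≤ X)
    (hC1 : ∀ (X : ℝ) (F : Finset ℤ), 0 ≤ X →
      (∀ a ∈ F, a ≠ 0 ∧ a.natAbs ≤ Z ∧ (rd a.natAbs : ℝ) ≤ X) → (F.card : ℝ) ≤ C1 * (Z : ℝ) ^ σ' * X)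
    (u : ℕ) (hu : 1 ≤ u) (A : Finset ℤ)
    (hA : ∀ x ∈ A, x ≠ 0 ∧ x.natAbs ≤ Z ∧ (rd x.natAbs : ℝ) ≤ X ∧ UDvd u x.natAbs) :
    (A.card : ℝ) ≤ C1 * (Z : ℝ) ^ σ' * (X / (rd u : ℝ)) := by
  have hru : (0 : ℝ) < (rd u : ℝ) := by exact_mod_cast rd_pos u
  have hu0 : (u : ℤ) ≠ 0 := by
    have : u ≠ 0 := by omega
    exact_mod_cast this
  have hdiv : ∀ x ∈ A, x = (u : ℤ) * (x / (u : ℤ)) := by
    intro x hx
    obtain ⟨-, -, -, k, hk, -⟩ := hA x hx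
    have h1 : (u : ℤ) ∣ x := by
      rw [Int.natCast_dvd]
      exact ⟨k, hk⟩
    exact (Int.mul_ediv_cancel' h1).symm
  have hinj : Set.InjOn (fun x : ℤ => x / (u : ℤ)) (A : Set ℤ) := by
    intro x hx x' hx' h
    have h2 : x / (u : ℤ) = x' / (u : ℤ) := h
    rw [hdiv x hx, hdiv x' hx', h2]
  rw [← Finset.card_image_of_injOn hinj]
  refine hC1 (X / (rd u : ℝ)) _ (by positivity) (fun a ha => ?_)
  obtain ⟨x, hx, hxa⟩ := Finset.mem_image.mp ha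
  obtain ⟨h1, h2, h3, k, hk, hcop⟩ := hA x hx
  have h4 : x = (u : ℤ) * a := by
    rw [← hxa]
    exact hdiv x hx
  have h5 : x.natAbs = u * a.natAbs := by
    rw [h4, Int.natAbs_mul, Int.natAbs_natCast]
  have h6 : a.natAbs = k := by
    have h7 : u * a.natAbs = u * k := by rw [← h5, hk]
    exact Nat.eq_of_mul_eq_mul_left hu h7
  have ha0 : a ≠ 0 := by
    rintro rfl
    exact h1 (by rw [h4, mul_zero])
  have hk0 : k ≠ 0 := by
    rw [← h6]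
    exact Int.natAbs_ne_zero.mpr ha0
  refine ⟨ha0, ?_, ?_⟩
  · refine le_trans ?_ h2
    rw [h5]
    exact Nat.le_mul_of_pos_left _ hu
  · rw [le_div_iff₀ hru, h6]
    rw [hk, rd_mul_coprime u k (by omega) hk0 hcop] at h3
    push_cast at h3
    linarith

open scoped Classical in
/-- the second moment -/
theorem BF_D (P : Finset (ℤ × ℤ)) (M : ℝ) (hM : 0 ≤ M)
    (h : ∀ x x' : ℤ, x ≠ x' → (∃ y, (x, y) ∈ P) → (∃ y, (x', y) ∈ P) →
      (((P.image Prod.snd).filter (fun y => (x, y) ∈ P ∧ (x', y) ∈ P)).card : ℝ) ≤ M) :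
    ∑ y ∈ P.image Prod.snd, ((P.filter (fun w : ℤ × ℤ => w.2 = y)).card : ℝ) *
      (((P.filter (fun w : ℤ × ℤ => w.2 = y)).card : ℝ) - 1) ≤ M * ((P.image Prod.fst).card : ℝ) ^ 2 := by
  set A := P.image Prod.fst with hA
  have h1 : ∀ y, ((P.filter (fun w : ℤ × ℤ => w.2 = y)).card : ℝ) *
      (((P.filter (fun w : ℤ × ℤ => w.2 = y)).card : ℝ) - 1) ≤
      ((A.offDiag.filter (fun p : ℤ × ℤ => (p.1, y) ∈ P ∧ (p.2, y) ∈ P)).card : ℝ) := by
    intro y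
    have e1 : (((P.filter (fun w : ℤ × ℤ => w.2 = y)).offDiag.card : ℕ) : ℝ) =
        ((P.filter (fun w : ℤ × ℤ => w.2 = y)).card : ℝ) *
        (((P.filter (fun w : ℤ × ℤ => w.2 = y)).card : ℝ) - 1) := by
      rw [Finset.offDiag_card, Nat.cast_sub (Nat.le_mul_self _)]
      push_cast
      ring
    rw [← e1]
    refine Nat.cast_le.mpr ?_
    refine Finset.card_le_card_of_injOn (fun q => (q.1.1, q.2.1)) ?_ ?_
    · rintro ⟨⟨a, b⟩, ⟨a', b'⟩⟩ hq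
      have hq2 := Finset.mem_offDiag.mp (Finset.mem_coe.mp hq)
      obtain ⟨g1, g2, g3⟩ := hq2
      obtain ⟨g4, g5⟩ := Finset.mem_filter.mp g1
      obtain ⟨g6, g7⟩ := Finset.mem_filter.mp g2
      simp only at g5 g7
      subst g5
      subst g7
      refine Finset.mem_coe.mpr (Finset.mem_filter.mpr ⟨Finset.mem_offDiag.mpr ⟨?_, ?_, ?_⟩, g4, g6⟩)
      · exact Finset.mem_image.mpr ⟨_, g4, rfl⟩
      · exact Finset.mem_image.mpr ⟨_, g6, rfl⟩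
      · intro e
        apply g3
        have e' : a = a' := e
        rw [e']
    · rintro ⟨⟨a, b⟩, ⟨a', b'⟩⟩ hq ⟨⟨c, d⟩, ⟨c', d'⟩⟩ hr e
      obtain ⟨g1, g2, -⟩ := Finset.mem_offDiag.mp (Finset.mem_coe.mp hq)
      obtain ⟨k1, k2, -⟩ := Finset.mem_offDiag.mp (Finset.mem_coe.mp hr)
      have g5 := (Finset.mem_filter.mp g1).2
      have g7 := (Finset.mem_filter.mp g2).2
      have k5 := (Finset.mem_filter.mp k1).2
      have k7 := (Finset.mem_filter.mp k2).2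
      simp only [Prod.mk.injEq] at e g5 g7 k5 k7 ⊢
      exact ⟨⟨e.1, g5.trans k5.symm⟩, ⟨e.2, g7.trans k7.symm⟩⟩
  have h2 : ∑ y ∈ P.image Prod.snd, ((A.offDiag.filter (fun p : ℤ × ℤ => (p.1, y) ∈ P ∧ (p.2, y) ∈ P)).card : ℝ) =
      ∑ p ∈ A.offDiag, (((P.image Prod.snd).filter (fun y => (p.1, y) ∈ P ∧ (p.2, y) ∈ P)).card : ℝ) := by
    simp only [Finset.card_filter, Nat.cast_sum, Nat.cast_ite, Nat.cast_one, Nat.cast_zero]
    exact Finset.sum_comm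
  calc _ ≤ ∑ y ∈ P.image Prod.snd, ((A.offDiag.filter (fun p : ℤ × ℤ => (p.1, y) ∈ P ∧ (p.2, y) ∈ P)).card : ℝ) :=
        Finset.sum_le_sum (fun y _ => h1 y)
    _ = ∑ p ∈ A.offDiag, (((P.image Prod.snd).filter (fun y => (p.1, y) ∈ P ∧ (p.2, y) ∈ P)).card : ℝ) := h2
    _ ≤ ∑ _p ∈ A.offDiag, M := by
        refine Finset.sum_le_sum (fun p hp => ?_)
        obtain ⟨g1, g2, g3⟩ := Finset.mem_offDiag.mp hp
        obtain ⟨w, hw, hw1⟩ := Finset.mem_image.mp g1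
        obtain ⟨w', hw', hw1'⟩ := Finset.mem_image.mp g2
        refine h p.1 p.2 g3 ⟨w.2, ?_⟩ ⟨w'.2, ?_⟩
        · rw [← hw1]
          exact hw
        · rw [← hw1']
          exact hw'
    _ = (A.offDiag.card : ℝ) * M := by rw [Finset.sum_const, nsmul_eq_mul]
    _ ≤ ((A.card : ℝ) ^ 2) * M := by
        refine mul_le_mul_of_nonneg_right ?_ hM
        rw [Finset.offDiag_card]
        have : A.card * A.card - A.card ≤ A.card * A.card := Nat.sub_le _ _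
        calc ((A.card * A.card - A.card : ℕ) : ℝ) ≤ ((A.card * A.card : ℕ) : ℝ) := Nat.cast_le.mpr this
          _ = (A.card : ℝ) ^ 2 := by push_cast; ring
    _ = _ := mul_comm _ _

/-- from the second moment to the first -/
theorem BF_n (n : ℕ) (T : ℝ) (hT : 1 ≤ T) (h : T < (n : ℝ)) : (n : ℝ) ≤ 2 / T * ((n : ℝ) * ((n : ℝ) - 1)) := by
  have hT0 : 0 < T := by linarith
  have h2 : (2 : ℝ) ≤ (n : ℝ) := by
    have h3 : (1 : ℝ) < (n : ℝ) := by linarith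
    have h4 : 1 < n := by exact_mod_cast h3
    exact_mod_cast h4
  rw [div_mul_eq_mul_div, le_div_iff₀ hT0]
  nlinarith

open scoped Classical in
/-- ROW BF.  Quasi-regularity.  Write `T u = max 1 (Y ^ (1/4) / rd u) * Y ^ κ ≥ 1` and `S u y = {w' ∈ P : w'.2 = y, UDvd u |w'.1|}`.
Proof: the filtered set is contained in the union over `u ∈ Icc 1 Z` and over the `y` (second members of `P`) with
`T u < |S u y|` of `S u y`.  For such `(u, y)`: `|S u y| ≥ 2`, so `|S u y| ≤ (2 / T u) * |S u y| * (|S u y| - 1)`.  For fixed `u`: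
`∑_y |S u y| (|S u y| - 1)` is the number of triples `(x, x', y)`, `x ≠ x'`, `(x, y), (x', y) ∈ P`, `u` a unitary divisor of both,
hence `≤ C2 Z ^ σ' * (number of x)^2` by `common_bound σ'`, and the number of these `x` is `≤ C1 Z ^ σ' * (X / rd u)`, `X = Y ^ ((1 + κ') / 2)`,
by `count_rad σ'` applied to the quotients `x / u` (`rd |x| = rd u * rd |x / u|`, `rd_mul_coprime` in TwRad; `x ↦ x / u` is injective).
`X ^ 2 = Y ^ (1 + κ')`, `1 / T u ≤ Y ^ (-κ) * rd u / Y ^ (1/4)`, so the contribution of `u` is `≤ 2 C1 ^ 2 C2 Z ^ (3 σ') Y ^ (3/4 + κ' - κ) / rd u`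
and `∑_(u ≤ Z) 1 / rd u ≤ C3 Z ^ σ'` (`sum_inv_rd σ'`).  Take `σ' = σ / 4`. -/
theorem qr_le (σ κ κ' : ℝ) (hσ : 0 < σ) (hκ : 0 ≤ κ) (hκ' : 0 ≤ κ') : ∃ C : ℝ, 1 ≤ C ∧
    ∀ (Z : ℕ) (Y : ℝ) (P : Finset (ℤ × ℤ)), 1 ≤ Z → 1 ≤ Y →
    (∀ w ∈ P, PS Z w ∧ ra w ≤ Y ^ ((1 + κ') / 2)) →
    ((P.filter (fun w => ∃ u : ℕ, UDvd u w.1.natAbs ∧ max 1 (Y ^ (1 / 4 : ℝ) / (rd u : ℝ)) * Y ^ κ <
      ((P.filter (fun w' : ℤ × ℤ => w'.2 = w.2 ∧ UDvd u w'.1.natAbs)).card : ℝ))).card : ℝ) ≤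
      C * (Z : ℝ) ^ σ * Y ^ (3 / 4 + κ' - κ) := by
  obtain ⟨C1, hC1, H1⟩ := count_rad (σ / 4) (by linarith)
  obtain ⟨C2, hC2, H2⟩ := common_bound (σ / 4) (by linarith)
  obtain ⟨C3, hC3, H3⟩ := sum_inv_rd (σ / 4) (by linarith)
  refine ⟨2 * C1 ^ 2 * C2 * C3, ?_, ?_⟩
  · have h1 : 1 ≤ C1 ^ 2 := one_le_pow₀ hC1
    have h2 : 1 ≤ C1 ^ 2 * C2 := one_le_mul_of_one_le_of_one_le h1 hC2
    have h3 : 1 ≤ C1 ^ 2 * C2 * C3 := one_le_mul_of_one_le_of_one_le h2 hC3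
    nlinarith
  intro Z Y P hZ hY hP
  have hY0 : 0 < Y := by linarith
  have hZ0 : (0 : ℝ) < (Z : ℝ) := by exact_mod_cast hZ
  set X : ℝ := Y ^ ((1 + κ') / 2) with hX
  have hX0 : 0 ≤ X := Real.rpow_nonneg hY0.le _
  set T : ℕ → ℝ := fun u => max 1 (Y ^ (1 / 4 : ℝ) / (rd u : ℝ)) * Y ^ κ with hTd
  set S : ℕ → ℤ → Finset (ℤ × ℤ) := fun u y => P.filter (fun w' : ℤ × ℤ => w'.2 = y ∧ UDvd u w'.1.natAbs) with hSd
  have hT1 : ∀ u, 1 ≤ T u := by
    intro u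
    refine one_le_mul_of_one_le_of_one_le (le_max_left _ _) (Real.one_le_rpow hY hκ)
  set W : ℝ := (Z : ℝ) ^ (σ / 4) with hW
  have hW0 : 0 < W := Real.rpow_pos_of_pos hZ0 _
  -- the contribution of u
  have key : ∀ u ∈ Icc 1 Z, ∑ y ∈ (P.image Prod.snd).filter (fun y => T u < ((S u y).card : ℝ)), ((S u y).card : ℝ) ≤
      2 * C1 ^ 2 * C2 * W ^ 3 * Y ^ (3 / 4 + κ' - κ) * ((rd u : ℝ))⁻¹ := by
    intro u hu
    have hu1 : 1 ≤ u := (Finset.mem_Icc.mp hu).1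
    have hru : (0 : ℝ) < (rd u : ℝ) := by exact_mod_cast rd_pos u
    set Q := P.filter (fun w : ℤ × ℤ => UDvd u w.1.natAbs) with hQ
    have hSQ : ∀ y, S u y = Q.filter (fun w : ℤ × ℤ => w.2 = y) := by
      intro y
      rw [hQ, Finset.filter_filter]
      refine Finset.filter_congr (fun w _ => ?_)
      exact and_comm
    have hTu : 0 < T u := by linarith [hT1 u]
    have hsum : ∑ y ∈ (P.image Prod.snd).filter (fun y => T u < ((S u y).card : ℝ)), ((S u y).card : ℝ) ≤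
        2 / T u * ∑ y ∈ Q.image Prod.snd, ((Q.filter (fun w : ℤ × ℤ => w.2 = y)).card : ℝ) *
          (((Q.filter (fun w : ℤ × ℤ => w.2 = y)).card : ℝ) - 1) := by
      rw [Finset.mul_sum]
      have hsub : (P.image Prod.snd).filter (fun y => T u < ((S u y).card : ℝ)) ⊆ Q.image Prod.snd := by
        intro y hy
        have h1 := (Finset.mem_filter.mp hy).2
        have h2 : (0 : ℝ) < ((S u y).card : ℝ) := by linarith
        have h3 : 0 < (S u y).card := by exact_mod_cast h2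
        obtain ⟨w, hw⟩ := Finset.card_pos.mp h3
        rw [hSQ] at hw
        obtain ⟨g1, g2⟩ := Finset.mem_filter.mp hw
        exact Finset.mem_image.mpr ⟨w, g1, g2⟩
      refine le_trans (Finset.sum_le_sum (fun y hy => ?_)) (Finset.sum_le_sum_of_subset_of_nonneg hsub (fun y _ _ => ?_))
      · rw [← hSQ]
        exact BF_n _ _ (hT1 u) (Finset.mem_filter.mp hy).2
      · refine mul_nonneg (by positivity) ?_
        rcases Nat.eq_zero_or_pos (Q.filter (fun w : ℤ × ℤ => w.2 = y)).card with h0 | h0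
        · rw [h0]
          simp
        · have h1 : (1 : ℝ) ≤ ((Q.filter (fun w : ℤ × ℤ => w.2 = y)).card : ℝ) := by exact_mod_cast h0
          exact mul_nonneg (by linarith) (by linarith)
    have hD := BF_D Q (C2 * W) (by positivity) (by
      rintro x x' hne ⟨y, hy⟩ ⟨y', hy'⟩
      have a1 := (hP _ (Finset.mem_filter.mp hy).1).1
      have a2 := (hP _ (Finset.mem_filter.mp hy').1).1
      refine H2 Z x x' _ hZ hne a1.b1 a2.b1 (fun z hz => ?_)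
      obtain ⟨-, b1, b2⟩ := Finset.mem_filter.mp hz
      exact ⟨(hP _ (Finset.mem_filter.mp b1).1).1.sq, (hP _ (Finset.mem_filter.mp b2).1).1.sq⟩)
    have hA := BF_A (σ / 4) C1 Z X hX0 (fun X F hX hF => H1 Z X F hZ hX hF) u hu1 (Q.image Prod.fst) (by
      intro x hx
      obtain ⟨w, hw, rfl⟩ := Finset.mem_image.mp hx
      obtain ⟨g1, g2⟩ := Finset.mem_filter.mp hw
      obtain ⟨g3, g4⟩ := hP w g1
      exact ⟨g3.n1, g3.b1, g4, g2⟩)
    have hTinv : 2 / T u ≤ 2 * (Y ^ (-κ) * (Y ^ (-(1 / 4) : ℝ) * (rd u : ℝ))) := by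
      have h1 : Y ^ (1 / 4 : ℝ) / (rd u : ℝ) * Y ^ κ ≤ T u :=
        mul_le_mul_of_nonneg_right (le_max_right _ _) (Real.rpow_nonneg hY0.le _)
      have h2 : 0 < Y ^ (1 / 4 : ℝ) / (rd u : ℝ) * Y ^ κ := by positivity
      calc 2 / T u ≤ 2 / (Y ^ (1 / 4 : ℝ) / (rd u : ℝ) * Y ^ κ) := by
            exact div_le_div_of_nonneg_left (by norm_num) h2 h1
        _ = _ := by
          rw [Real.rpow_neg hY0.le, Real.rpow_neg hY0.le]
          field_simp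
    have hexp : Y ^ (-κ) * (Y ^ (-(1 / 4) : ℝ) * X ^ 2) = Y ^ (3 / 4 + κ' - κ) := by
      have e1 : X ^ 2 = Y ^ (1 + κ') := by
        rw [hX, ← Real.rpow_natCast, ← Real.rpow_mul hY0.le]
        congr 1
        push_cast
        ring
      rw [e1, ← Real.rpow_add hY0, ← Real.rpow_add hY0]
      congr 1
      ring
    calc _ ≤ 2 / T u * (C2 * W * ((Q.image Prod.fst).card : ℝ) ^ 2) :=
          hsum.trans (mul_le_mul_of_nonneg_left hD (by positivity))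
      _ ≤ 2 * (Y ^ (-κ) * (Y ^ (-(1 / 4) : ℝ) * (rd u : ℝ))) * (C2 * W * (C1 * W * (X / (rd u : ℝ))) ^ 2) := by
          refine mul_le_mul hTinv ?_ (by positivity) (by positivity)
          refine mul_le_mul_of_nonneg_left ?_ (by positivity)
          exact pow_le_pow_left₀ (Nat.cast_nonneg _) hA 2
      _ = 2 * C1 ^ 2 * C2 * W ^ 3 * (Y ^ (-κ) * (Y ^ (-(1 / 4) : ℝ) * X ^ 2)) * ((rd u : ℝ))⁻¹ := by
          field_simp
      _ = _ := by rw [hexp]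
  have hcover : (P.filter (fun w => ∃ u : ℕ, UDvd u w.1.natAbs ∧ T u < ((S u w.2).card : ℝ))) ⊆
      (Icc 1 Z).biUnion (fun u => ((P.image Prod.snd).filter (fun y => T u < ((S u y).card : ℝ))).biUnion (S u)) := by
    intro w hw
    obtain ⟨hw1, u, hu, hlt⟩ := Finset.mem_filter.mp hw
    obtain ⟨hps, -⟩ := hP w hw1
    have hn0 : w.1.natAbs ≠ 0 := Int.natAbs_ne_zero.mpr hps.n1
    obtain ⟨k, hk, hcop⟩ := hu
    have hu0 : u ≠ 0 := by
      rintro rfl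
      rw [zero_mul] at hk
      exact hn0 hk
    have hk0 : k ≠ 0 := by
      rintro rfl
      rw [mul_zero] at hk
      exact hn0 hk
    have hule : u ≤ Z := by
      refine le_trans ?_ hps.b1
      rw [hk]
      exact Nat.le_mul_of_pos_right _ (Nat.pos_of_ne_zero hk0)
    refine Finset.mem_biUnion.mpr ⟨u, Finset.mem_Icc.mpr ⟨Nat.pos_of_ne_zero hu0, hule⟩, ?_⟩
    refine Finset.mem_biUnion.mpr ⟨w.2, Finset.mem_filter.mpr ⟨Finset.mem_image.mpr ⟨w, hw1, rfl⟩, hlt⟩, ?_⟩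
    exact Finset.mem_filter.mpr ⟨hw1, rfl, k, hk, hcop⟩
  have hZs : W ^ 4 = (Z : ℝ) ^ σ := by
    rw [hW, ← Real.rpow_natCast, ← Real.rpow_mul hZ0.le]
    congr 1
    push_cast
    ring
  calc ((P.filter (fun w => ∃ u : ℕ, UDvd u w.1.natAbs ∧ T u < ((S u w.2).card : ℝ))).card : ℝ)
      ≤ (((Icc 1 Z).biUnion (fun u =>
          ((P.image Prod.snd).filter (fun y => T u < ((S u y).card : ℝ))).biUnion (S u))).card : ℝ) :=
        Nat.cast_le.mpr (Finset.card_le_card hcover)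
    _ ≤ ∑ u ∈ Icc 1 Z, ∑ y ∈ (P.image Prod.snd).filter (fun y => T u < ((S u y).card : ℝ)), ((S u y).card : ℝ) := by
        have h1 := Finset.card_biUnion_le (s := Icc 1 Z) (t := fun u =>
          ((P.image Prod.snd).filter (fun y => T u < ((S u y).card : ℝ))).biUnion (S u))
        have h2 : ∑ u ∈ Icc 1 Z, (((P.image Prod.snd).filter (fun y => T u < ((S u y).card : ℝ))).biUnion (S u)).card ≤
            ∑ u ∈ Icc 1 Z, ∑ y ∈ (P.image Prod.snd).filter (fun y => T u < ((S u y).card : ℝ)), (S u y).card :=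
          Finset.sum_le_sum (fun u _ => Finset.card_biUnion_le)
        exact_mod_cast h1.trans h2
    _ ≤ ∑ u ∈ Icc 1 Z, 2 * C1 ^ 2 * C2 * W ^ 3 * Y ^ (3 / 4 + κ' - κ) * ((rd u : ℝ))⁻¹ := Finset.sum_le_sum key
    _ = 2 * C1 ^ 2 * C2 * W ^ 3 * Y ^ (3 / 4 + κ' - κ) * ∑ u ∈ Icc 1 Z, ((rd u : ℝ))⁻¹ := by rw [Finset.mul_sum]
    _ ≤ 2 * C1 ^ 2 * C2 * W ^ 3 * Y ^ (3 / 4 + κ' - κ) * (C3 * W) :=
        mul_le_mul_of_nonneg_left (H3 Z hZ) (by positivity)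
    _ = 2 * C1 ^ 2 * C2 * C3 * W ^ 4 * Y ^ (3 / 4 + κ' - κ) := by ring
    _ = _ := by rw [hZs]

end Hp

end Pool.Agent.Lib.MP_d8bd92_nt
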