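import Pool.Agent.Lib.MP_d8bd92_nt.Hp.BDefs

set_option autoImplicit false

namespace Pool.Agent.Lib.MP_d8bd92_nt

namespace Hp

open Finset Pool.Agent.Lib.Szpiro

private theorem BG_log_le (K Y : ℝ) (hY : 1 ≤ Y) (z : ℤ) (hz : z ≠ 0) (h : (z.natAbs : ℝ) ≤ Y ^ K) :
    Nat.log 2 z.natAbs ≤ ⌊K * Real.logb 2 Y⌋₊ := by
  apply Nat.le_floor
  have h1 : (2 : ℝ) ^ (Nat.log 2 z.natAbs) ≤ Y ^ K := by
    refine le_trans ?_ h
    exact_mod_cast Nat.pow_log_le_self 2 (Int.natAbs_ne_zero.2 hz)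
  have hY0 : 0 < Y := lt_of_lt_of_le one_pos hY
  have h2 := Real.logb_le_logb_of_le (b := 2) (by norm_num) (by positivity) h1
  rw [Real.logb_pow, Real.logb_self_eq_one (by norm_num), mul_one, Real.logb_rpow_eq_mul_logb_of_pos hY0] at h2
  exact h2

private theorem BG_count (K η Y : ℝ) (hK : 0 < K) (hη : 0 < η) (hY : 1 ≤ Y) :
    4 * ((⌊K * Real.logb 2 Y⌋₊ : ℝ) + 1) ^ 4 ≤ 4 * (4 * K / (η * Real.log 2) + 1) ^ 4 * Y ^ η := by
  have hY0 : 0 < Y := lt_of_lt_of_le one_pos hY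
  have hl2 : 0 < Real.log 2 := Real.log_pos (by norm_num)
  have h1 : (⌊K * Real.logb 2 Y⌋₊ : ℝ) ≤ K * Real.logb 2 Y :=
    Nat.floor_le (mul_nonneg hK.le (Real.logb_nonneg (by norm_num) hY))
  have h2 : Real.log Y ≤ Y ^ (η / 4) / (η / 4) := Real.log_le_rpow_div hY0.le (by positivity)
  have h3 : (1 : ℝ) ≤ Y ^ (η / 4) := Real.one_le_rpow hY (by positivity)
  have h4 : K * Real.logb 2 Y ≤ 4 * K / (η * Real.log 2) * Y ^ (η / 4) := by
    rw [Real.logb]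
    calc K * (Real.log Y / Real.log 2) ≤ K * ((Y ^ (η / 4) / (η / 4)) / Real.log 2) := by gcongr
      _ = 4 * K / (η * Real.log 2) * Y ^ (η / 4) := by
        field_simp
  have h5 : (⌊K * Real.logb 2 Y⌋₊ : ℝ) + 1 ≤ (4 * K / (η * Real.log 2) + 1) * Y ^ (η / 4) := by
    rw [add_mul, one_mul]
    linarith
  have h6 : (Y ^ (η / 4)) ^ 4 = Y ^ η := by
    rw [← Real.rpow_natCast, ← Real.rpow_mul hY0.le]
    congr 1
    push_cast
    ring
  calc 4 * ((⌊K * Real.logb 2 Y⌋₊ : ℝ) + 1) ^ 4 ≤ 4 * ((4 * K / (η * Real.log 2) + 1) * Y ^ (η / 4)) ^ 4 := by gcongr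
    _ = 4 * (4 * K / (η * Real.log 2) + 1) ^ 4 * Y ^ η := by
      rw [mul_pow, h6]
      ring

/-- ROW BG.  Dyadic pigeonhole.  Proof: colour `w` by `(Nat.log 2 |w.1|, Nat.log 2 |w.2|, decide (0 < w.1), decide (0 < w.2),
padicValInt 2 w.1, padicValInt 2 w.2)`.  The four numbers are `≤ log (Y ^ K) / log 2 =: l`, so there are at most `4 (l + 2) ^ 4 ≤ C Y ^ η`
colours (`Real.add_one_le_exp` or `Real.log_le_rpow_div`).  If `P` is empty take `P' = ∅`; otherwise some colour class `P'` has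
`P.card ≤ (number of colours) * P'.card`.  Same `Nat.log 2` implies `a < 2 ^ (log + 1) ≤ 2 b`. -/
theorem exists_dy (K η : ℝ) (hK : 0 < K) (hη : 0 < η) : ∃ C : ℝ, 1 ≤ C ∧ ∀ (Y : ℝ) (P : Finset (ℤ × ℤ)), 1 ≤ Y →
    (∀ w ∈ P, w.1 ≠ 0 ∧ w.2 ≠ 0 ∧ (w.1.natAbs : ℝ) ≤ Y ^ K ∧ (w.2.natAbs : ℝ) ≤ Y ^ K) →
    ∃ P' ⊆ P, (P.card : ℝ) ≤ C * Y ^ η * (P'.card : ℝ) ∧
      ∀ w ∈ P', ∀ w' ∈ P', (w.1.natAbs ≤ 2 * w'.1.natAbs) ∧ (w.2.natAbs ≤ 2 * w'.2.natAbs) ∧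
        (0 < w.1 ↔ 0 < w'.1) ∧ (0 < w.2 ↔ 0 < w'.2) ∧
        padicValInt 2 w.1 = padicValInt 2 w'.1 ∧ padicValInt 2 w.2 = padicValInt 2 w'.2 := by
  classical
  have hl2 : 0 < Real.log 2 := Real.log_pos (by norm_num)
  refine ⟨4 * (4 * K / (η * Real.log 2) + 1) ^ 4, ?_, ?_⟩
  · have h1 : (1 : ℝ) ≤ 4 * K / (η * Real.log 2) + 1 := by
      have : 0 ≤ 4 * K / (η * Real.log 2) := by positivity
      linarith
    have h2 : (1 : ℝ) ≤ (4 * K / (η * Real.log 2) + 1) ^ 4 := one_le_pow₀ h1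
    linarith
  intro Y P hY hP
  set L : ℕ := ⌊K * Real.logb 2 Y⌋₊ with hL
  let T : Finset (ℕ × ℕ × Bool × Bool × ℕ × ℕ) :=
    Finset.range (L + 1) ×ˢ Finset.range (L + 1) ×ˢ Finset.univ ×ˢ Finset.univ ×ˢ Finset.range (L + 1) ×ˢ Finset.range (L + 1)
  let f : ℤ × ℤ → ℕ × ℕ × Bool × Bool × ℕ × ℕ := fun w =>
    (Nat.log 2 w.1.natAbs, Nat.log 2 w.2.natAbs, decide (0 < w.1), decide (0 < w.2), padicValInt 2 w.1, padicValInt 2 w.2)
  have hT : T.Nonempty := ⟨(0, 0, true, true, 0, 0), by simp [T]⟩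
  have hTc : T.card = 4 * (L + 1) ^ 4 := by
    simp only [T, Finset.card_product, Finset.card_range, Finset.card_univ, Fintype.card_bool]
    ring
  have hf : ∀ w ∈ P, f w ∈ T := by
    intro w hw
    obtain ⟨h1, h2, h3, h4⟩ := hP w hw
    have h5 := BG_log_le K Y hY w.1 h1 h3
    have h6 := BG_log_le K Y hY w.2 h2 h4
    have h7 : padicValInt 2 w.1 ≤ Nat.log 2 w.1.natAbs := padicValNat_le_nat_log _
    have h8 : padicValInt 2 w.2 ≤ Nat.log 2 w.2.natAbs := padicValNat_le_nat_log _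
    simp only [T, f, Finset.mem_product, Finset.mem_range, Finset.mem_univ, true_and]
    exact ⟨Nat.lt_succ_of_le h5, Nat.lt_succ_of_le h6, Nat.lt_succ_of_le (h7.trans h5), Nat.lt_succ_of_le (h8.trans h6)⟩
  obtain ⟨b, _, hb⟩ := Finset.exists_max_image T (fun b => (P.filter fun w => f w = b).card) hT
  refine ⟨P.filter fun w => f w = b, Finset.filter_subset _ _, ?_, ?_⟩
  · have h1 : P.card ≤ (P.filter fun w => f w = b).card * T.card :=
      Finset.card_le_mul_card_image_of_maps_to hf _ hb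
    have h2 : (P.card : ℝ) ≤ ((P.filter fun w => f w = b).card : ℝ) * (4 * ((L : ℝ) + 1) ^ 4) := by
      rw [hTc] at h1
      exact_mod_cast h1
    have h3 := BG_count K η Y hK hη hY
    calc (P.card : ℝ) ≤ ((P.filter fun w => f w = b).card : ℝ) * (4 * ((L : ℝ) + 1) ^ 4) := h2
      _ ≤ ((P.filter fun w => f w = b).card : ℝ) * (4 * (4 * K / (η * Real.log 2) + 1) ^ 4 * Y ^ η) := by
        gcongr
      _ = 4 * (4 * K / (η * Real.log 2) + 1) ^ 4 * Y ^ η * ((P.filter fun w => f w = b).card : ℝ) := by ring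
  · intro w hw w' hw'
    rw [Finset.mem_filter] at hw hw'
    obtain ⟨h1, h2, _, _⟩ := hP w' hw'.1
    have h3 : f w = f w' := hw.2.trans hw'.2.symm
    simp only [f, Prod.mk.injEq, decide_eq_decide] at h3
    obtain ⟨e1, e2, e3, e4, e5, e6⟩ := h3
    have h5 : ∀ a b : ℕ, b ≠ 0 → Nat.log 2 a = Nat.log 2 b → a ≤ 2 * b := by
      intro a b hb' he
      have h6 := Nat.lt_pow_succ_log_self (b := 2) (by norm_num) a
      have h7 := Nat.pow_log_le_self 2 hb'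
      rw [he, Nat.succ_eq_add_one, pow_succ] at h6
      omega
    exact ⟨h5 _ _ (Int.natAbs_ne_zero.2 h1) e1, h5 _ _ (Int.natAbs_ne_zero.2 h2) e2, e3, e4, e5, e6⟩

end Hp

end Pool.Agent.Lib.MP_d8bd92_nt
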