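import Pool.Agent.Lib.MP_d8bd92_nt.Hp.BDefs
import Pool.Agent.Lib.MP_d8bd92_nt.Hp.BD

set_option autoImplicit false

namespace Pool.Agent.Lib.MP_d8bd92_nt

namespace Hp

open Finset Pool.Agent.Lib.Szpiro

/-- ROW BH.  The middle range.  Proof: `Z = ⌊Y ^ K⌋₊`, `Z ^ σ ≤ Y ^ (K σ)`; choose `σ` with `K σ ≤ κ' / 100` and `≤ c / 100`.  Split `P` according to
`i = Nat.log 2 (rd |w.1|)`: `2 ^ i ≤ ra w < 2 ^ (i+1)`, `2 ^ i ≤ Y ^ ((1 - κ') / 2)`, `rb w ≤ B_i := min (Y / 2 ^ i) (Y ^ (3/4 - c))` (`≥ 1`), at most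
`log Y / log 2 + 1 ≤ C Y ^ (small)` values of `i`.  `kst_pairs σ` with `A = 2 ^ (i+1)`, `B = B_i`:
`B_i + 2 ^ (i+1) √B_i ≤ Y ^ (3/4 - c) + 2 * √(2 ^ i * Y) ≤ Y ^ (3/4 - c) + 2 * Y ^ (3/4 - κ' / 4)`.  Take `δ = min c (κ' / 4) / 2`. -/
theorem middle_le (K κ' c : ℝ) (hK : 0 < K) (hκ' : 0 < κ') (hκ'1 : κ' ≤ 1) (hc : 0 < c) (hc1 : c ≤ 1 / 4) :
    ∃ C δ : ℝ, 1 ≤ C ∧ 0 < δ ∧ ∀ (Y : ℝ) (P : Finset (ℤ × ℤ)), 1 ≤ Y →
    (∀ w ∈ P, PS ⌊Y ^ K⌋₊ w ∧ ra w * rb w ≤ Y ∧ ra w ≤ Y ^ ((1 - κ') / 2) ∧ rb w ≤ Y ^ (3 / 4 - c)) →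
    (P.card : ℝ) ≤ C * Y ^ (3 / 4 - δ) := by
  classical
  obtain ⟨s, hs⟩ : ∃ s : ℝ, s = min c κ' / 100 := ⟨_, rfl⟩
  have hmin : 0 < min c κ' := lt_min hc hκ'
  have hs0 : 0 < s := by rw [hs]; positivity
  obtain ⟨σ, hσ⟩ : ∃ σ : ℝ, σ = s / K := ⟨_, rfl⟩
  have hσ0 : 0 < σ := by rw [hσ]; positivity
  obtain ⟨C0, hC0, hkst⟩ := kst_pairs σ hσ0
  obtain ⟨δ0, hδ0⟩ : ∃ δ0 : ℝ, δ0 = min c (κ' / 4) := ⟨_, rfl⟩
  have hδ00 : 0 < δ0 := by rw [hδ0]; exact lt_min hc (by positivity)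
  have hsδ : 4 * s ≤ δ0 := by
    have h1 : min c κ' ≤ c := min_le_left _ _
    have h2 : min c κ' ≤ κ' := min_le_right _ _
    rw [hδ0]
    apply le_min
    · rw [hs]; linarith
    · rw [hs]; linarith
  have hlog2 : 0 < Real.log 2 := Real.log_pos (by norm_num)
  refine ⟨(1 / (s * Real.log 2) + 1) * (C0 * 3), δ0 / 2, ?_, by positivity, ?_⟩
  · have h1 : 0 ≤ 1 / (s * Real.log 2) := by positivity
    nlinarith
  intro Y P hY hP
  have hY0 : 0 < Y := by linarith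
  have hYK : 1 ≤ Y ^ K := Real.one_le_rpow hY hK.le
  have hZ1 : 1 ≤ ⌊Y ^ K⌋₊ := by
    rw [Nat.one_le_floor_iff]; exact hYK
  have hZσ : ((⌊Y ^ K⌋₊ : ℕ) : ℝ) ^ σ ≤ Y ^ s := by
    calc ((⌊Y ^ K⌋₊ : ℕ) : ℝ) ^ σ ≤ (Y ^ K) ^ σ :=
          Real.rpow_le_rpow (Nat.cast_nonneg _) (Nat.floor_le (by positivity)) hσ0.le
      _ = Y ^ (K * σ) := (Real.rpow_mul hY0.le _ _).symm
      _ = Y ^ s := by rw [hσ, mul_div_cancel₀ _ hK.ne']
  obtain ⟨N, hN⟩ : ∃ N : ℕ, N = ⌊Real.log Y / Real.log 2⌋₊ + 1 := ⟨_, rfl⟩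
  have hlogY : 0 ≤ Real.log Y := Real.log_nonneg hY
  have hYs : 1 ≤ Y ^ s := Real.one_le_rpow hY hs0.le
  have hNle : (N : ℝ) ≤ (1 / (s * Real.log 2) + 1) * Y ^ s := by
    have h1 : (⌊Real.log Y / Real.log 2⌋₊ : ℝ) ≤ Real.log Y / Real.log 2 := Nat.floor_le (by positivity)
    have h2 : Real.log Y ≤ Y ^ s / s := Real.log_le_rpow_div hY0.le hs0
    have h3 : Real.log Y / Real.log 2 ≤ (Y ^ s / s) / Real.log 2 := div_le_div_of_nonneg_right h2 hlog2.le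
    have h4 : (Y ^ s / s) / Real.log 2 = 1 / (s * Real.log 2) * Y ^ s := by
      field_simp
    have h5 : (N : ℝ) = (⌊Real.log Y / Real.log 2⌋₊ : ℝ) + 1 := by rw [hN]; push_cast; ring
    rw [h5]
    nlinarith
  -- the classes
  have hrd1 : ∀ w ∈ P, 1 ≤ rd w.1.natAbs := fun w hw => rd_pos _
  have hcls : ∀ i : ℕ, ((P.filter (fun w => Nat.log 2 (rd w.1.natAbs) = i)).card : ℝ) ≤
      C0 * 3 * Y ^ (3 / 4 - δ0 + s) := by
    intro i
    rcases (P.filter (fun w => Nat.log 2 (rd w.1.natAbs) = i)).eq_empty_or_nonempty with he | ⟨w0, hw0⟩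
    · rw [he]
      simp only [Finset.card_empty, Nat.cast_zero]
      positivity
    have hfac : ∀ w ∈ P, Nat.log 2 (rd w.1.natAbs) = i →
        (2 : ℝ) ^ i ≤ ra w ∧ ra w ≤ (2 : ℝ) ^ (i + 1) ∧ rb w ≤ Y / 2 ^ i ∧ rb w ≤ Y ^ (3 / 4 - c) ∧
          (2 : ℝ) ^ i ≤ Y ^ ((1 - κ') / 2) ∧ 1 ≤ rb w := by
      intro w hw hi
      obtain ⟨hps, hprod, hraY, hrbY⟩ := hP w hw
      have h1 : 2 ^ i ≤ rd w.1.natAbs := by
        rw [← hi]; exact Nat.pow_log_le_self 2 (by have := hrd1 w hw; omega)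
      have h2 : rd w.1.natAbs < 2 ^ (i + 1) := by
        rw [← hi]; exact Nat.lt_pow_succ_log_self (by norm_num) _
      have h1' : (2 : ℝ) ^ i ≤ ra w := by
        unfold ra; exact_mod_cast h1
      have h2' : ra w ≤ (2 : ℝ) ^ (i + 1) := by
        unfold ra; exact_mod_cast h2.le
      have hrb0 : 1 ≤ rb w := by
        unfold rb; exact_mod_cast one_le_rd _
      refine ⟨h1', h2', ?_, hrbY, h1'.trans hraY, hrb0⟩
      rw [le_div_iff₀ (by positivity)]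
      calc rb w * 2 ^ i ≤ rb w * ra w := by
            apply mul_le_mul_of_nonneg_left h1' (by linarith)
        _ = ra w * rb w := mul_comm _ _
        _ ≤ Y := hprod
    obtain ⟨B, hB⟩ : ∃ B : ℝ, B = min (Y / 2 ^ i) (Y ^ (3 / 4 - c)) := ⟨_, rfl⟩
    rw [Finset.mem_filter] at hw0
    obtain ⟨g1, g2, g3, g4, g5, g6⟩ := hfac w0 hw0.1 hw0.2
    have hB1 : 1 ≤ B := by
      rw [hB]; exact le_min (g6.trans g3) (g6.trans g4)
    have hA1 : (1 : ℝ) ≤ 2 ^ (i + 1) := one_le_pow₀ (by norm_num)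
    have hcard := hkst ⌊Y ^ K⌋₊ (2 ^ (i + 1)) B (P.filter (fun w => Nat.log 2 (rd w.1.natAbs) = i)) hZ1 hA1 hB1
      (by
        intro w hw
        rw [Finset.mem_filter] at hw
        obtain ⟨e1, e2, e3, e4, e5, e6⟩ := hfac w hw.1 hw.2
        refine ⟨(hP w hw.1).1, e2, ?_⟩
        rw [hB]; exact le_min e3 e4)
    have hBle : B ≤ Y ^ (3 / 4 - δ0) := by
      calc B ≤ Y ^ (3 / 4 - c) := by rw [hB]; exact min_le_right _ _
        _ ≤ Y ^ (3 / 4 - δ0) := by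
          apply Real.rpow_le_rpow_of_exponent_le hY
          have : δ0 ≤ c := by rw [hδ0]; exact min_le_left _ _
          linarith
    have hAB : (2 : ℝ) ^ (i + 1) * √B ≤ 2 * Y ^ (3 / 4 - δ0) := by
      have h1 : √B ≤ √(Y / 2 ^ i) := Real.sqrt_le_sqrt (by rw [hB]; exact min_le_left _ _)
      have h2 : (2 : ℝ) ^ i * √(Y / 2 ^ i) = √(2 ^ i * Y) := by
        have h3 : (2 : ℝ) ^ i * Y = (2 ^ i) ^ 2 * (Y / 2 ^ i) := by
          field_simp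
        rw [h3, Real.sqrt_mul (by positivity), Real.sqrt_sq (by positivity)]
      have h3 : √((2 : ℝ) ^ i * Y) ≤ Y ^ (3 / 4 - δ0) := by
        rw [Real.sqrt_le_left (by positivity)]
        calc (2 : ℝ) ^ i * Y ≤ Y ^ ((1 - κ') / 2) * Y := mul_le_mul_of_nonneg_right g5 hY0.le
          _ = Y ^ ((1 - κ') / 2 + 1) := by
            rw [Real.rpow_add hY0, Real.rpow_one]
          _ ≤ Y ^ ((3 / 4 - δ0) * 2) := by
            apply Real.rpow_le_rpow_of_exponent_le hY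
            have : δ0 ≤ κ' / 4 := by rw [hδ0]; exact min_le_right _ _
            linarith
          _ = (Y ^ (3 / 4 - δ0)) ^ 2 := by
            rw [Real.rpow_mul hY0.le]; norm_num
      calc (2 : ℝ) ^ (i + 1) * √B ≤ 2 ^ (i + 1) * √(Y / 2 ^ i) :=
            mul_le_mul_of_nonneg_left h1 (by positivity)
        _ = 2 * (2 ^ i * √(Y / 2 ^ i)) := by rw [pow_succ]; ring
        _ = 2 * √(2 ^ i * Y) := by rw [h2]
        _ ≤ 2 * Y ^ (3 / 4 - δ0) := by linarith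
    have hpos : 0 < Y ^ (3 / 4 - δ0) := Real.rpow_pos_of_pos hY0 _
    calc ((P.filter (fun w => Nat.log 2 (rd w.1.natAbs) = i)).card : ℝ)
        ≤ C0 * ((⌊Y ^ K⌋₊ : ℕ) : ℝ) ^ σ * (B + 2 ^ (i + 1) * √B) := hcard
      _ ≤ C0 * Y ^ s * (3 * Y ^ (3 / 4 - δ0)) := by
        apply mul_le_mul
        · exact mul_le_mul_of_nonneg_left hZσ (by linarith)
        · linarith
        · have : 0 ≤ √B := Real.sqrt_nonneg _
          positivity
        · positivity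
      _ = C0 * 3 * Y ^ (3 / 4 - δ0 + s) := by
        rw [Real.rpow_add hY0]; ring
  have hcover : P ⊆ (Finset.range N).biUnion (fun i => P.filter (fun w => Nat.log 2 (rd w.1.natAbs) = i)) := by
    intro w hw
    rw [Finset.mem_biUnion]
    refine ⟨Nat.log 2 (rd w.1.natAbs), ?_, Finset.mem_filter.2 ⟨hw, rfl⟩⟩
    rw [Finset.mem_range, hN, Nat.lt_succ_iff]
    apply Nat.le_floor
    rw [le_div_iff₀ hlog2]
    obtain ⟨hps, hprod, hraY, hrbY⟩ := hP w hw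
    have h1 : (2 : ℝ) ^ (Nat.log 2 (rd w.1.natAbs)) ≤ Y := by
      have h1 : 2 ^ (Nat.log 2 (rd w.1.natAbs)) ≤ rd w.1.natAbs :=
        Nat.pow_log_le_self 2 (by have := hrd1 w hw; omega)
      calc (2 : ℝ) ^ (Nat.log 2 (rd w.1.natAbs)) ≤ ra w := by unfold ra; exact_mod_cast h1
        _ ≤ Y ^ ((1 - κ') / 2) := hraY
        _ ≤ Y ^ (1 : ℝ) := Real.rpow_le_rpow_of_exponent_le hY (by linarith)
        _ = Y := Real.rpow_one _
    have h2 := Real.log_le_log (by positivity) h1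
    rwa [Real.log_pow] at h2
  have hpos : 0 < Y ^ (3 / 4 - δ0 + s) := Real.rpow_pos_of_pos hY0 _
  calc (P.card : ℝ) ≤ (((Finset.range N).biUnion
        (fun i => P.filter (fun w => Nat.log 2 (rd w.1.natAbs) = i))).card : ℝ) := by
        exact_mod_cast Finset.card_le_card hcover
    _ ≤ ((∑ i ∈ Finset.range N, (P.filter (fun w => Nat.log 2 (rd w.1.natAbs) = i)).card : ℕ) : ℝ) := by
        exact_mod_cast Finset.card_biUnion_le
    _ = ∑ i ∈ Finset.range N, ((P.filter (fun w => Nat.log 2 (rd w.1.natAbs) = i)).card : ℝ) := by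
        push_cast; rfl
    _ ≤ ∑ i ∈ Finset.range N, C0 * 3 * Y ^ (3 / 4 - δ0 + s) := Finset.sum_le_sum (fun i _ => hcls i)
    _ = N * (C0 * 3 * Y ^ (3 / 4 - δ0 + s)) := by
        rw [Finset.sum_const, Finset.card_range, nsmul_eq_mul]
    _ ≤ ((1 / (s * Real.log 2) + 1) * Y ^ s) * (C0 * 3 * Y ^ (3 / 4 - δ0 + s)) := by
        apply mul_le_mul_of_nonneg_right hNle
        positivity
    _ = (1 / (s * Real.log 2) + 1) * (C0 * 3) * (Y ^ s * Y ^ (3 / 4 - δ0 + s)) := by ring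
    _ = (1 / (s * Real.log 2) + 1) * (C0 * 3) * Y ^ (s + (3 / 4 - δ0 + s)) := by
        rw [← Real.rpow_add hY0]
    _ ≤ (1 / (s * Real.log 2) + 1) * (C0 * 3) * Y ^ (3 / 4 - δ0 / 2) := by
        apply mul_le_mul_of_nonneg_left
        · apply Real.rpow_le_rpow_of_exponent_le hY
          linarith
        · have h1 : 0 ≤ 1 / (s * Real.log 2) := by positivity
          have h2 : 0 ≤ C0 := by linarith
          positivity

end Hp

end Pool.Agent.Lib.MP_d8bd92_nt
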