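import Pool.Agent.Lib.MP_d8bd92_nt.Hp.BDefs
import Pool.Agent.Lib.MP_d8bd92_nt.Hp.BA
import Pool.Agent.Lib.MP_d8bd92_nt.ToC
import Pool.Agent.Lib.MP_d8bd92_nt.ToD
import Pool.Agent.Lib.MP_d8bd92_nt.CdA

set_option autoImplicit false

namespace Pool.Agent.Lib.MP_d8bd92_nt

namespace Hp

open Finset Pool.Agent.Lib.Szpiro

/-- one sign -/
private theorem BI_fiber (x s : ℤ) (κ Z : ℕ) (hs : s = 1 ∨ s = -1) (T : Finset (ℤ × ℤ))
    (hT : ∀ w ∈ T, w.1 = x ∧ PS Z w ∧ κ ∣ w.2.natAbs ∧ w.2.natAbs ≤ κ ^ 2 ∧ w.2 = s * (w.2.natAbs : ℤ)) :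
    (T.card : ℝ) ≤ (κ.divisors.card : ℝ) * 5 := by
  classical
  rcases T.eq_empty_or_nonempty with hE | ⟨w0, hw0⟩
  · rw [hE, Finset.card_empty]
    push_cast
    positivity
  obtain ⟨h1, h2, h3, h4, h5⟩ := hT w0 hw0
  have hx : x ≠ 0 := by rw [← h1]; exact h2.n1
  have hκ : κ ≠ 0 := by
    rintro rfl
    exact h2.n2 (Int.natAbs_eq_zero.mp (Nat.eq_zero_of_zero_dvd h3))
  have hs0 : s ≠ 0 := by rcases hs with h | h <;> rw [h] <;> norm_num
  have hs1 : s.natAbs = 1 := by rcases hs with h | h <;> rw [h] <;> rfl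
  have hsx : x.sign ≠ 0 := by
    intro h
    exact hx (Int.sign_eq_zero_iff_zero.mp h)
  have hinj : T.card = (T.image (fun w : ℤ × ℤ => w.2.natAbs)).card := by
    rw [Finset.card_image_of_injOn]
    intro a ha b hb hab
    obtain ⟨a1, -, -, -, a5⟩ := hT a ha
    obtain ⟨b1, -, -, -, b5⟩ := hT b hb
    simp only at hab
    refine Prod.ext (a1.trans b1.symm) ?_
    rw [a5, b5, hab]
  have hmain := split_fiber x.sign s hs0 1 x.natAbs κ hκ (T.image (fun w : ℤ × ℤ => w.2.natAbs))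
    (by
      intro n hn
      rw [Finset.mem_image] at hn
      obtain ⟨w, hw, rfl⟩ := hn
      obtain ⟨w1, w2, w3, w4, w5⟩ := hT w hw
      refine ⟨w3, Int.natAbs_pos.mpr w2.n2, w4, ?_, ?_⟩
      · have h := Int.isCoprime_iff_gcd_eq_one.mp w2.cop
        rw [w1] at h
        exact le_of_eq h
      · obtain ⟨g, hg⟩ := w2.sq
        refine ⟨g, ?_⟩
        rw [Int.sign_mul_natAbs, ← w5, ← hg, w1])
    hsx
  rw [← hinj] at hmain
  refine hmain.trans (le_of_eq ?_)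
  rw [Int.natAbs_sign_of_ne_zero hx, hs1]
  push_cast
  ring

/-- ROW BI.  A heavy divisor of the second member.  Proof: map `w ↦ (w.1, (k w : ℤ))`; the image is a set of pairs of nonzero integers of size
`≤ Z` with product of radicals `≤ X`, so it has `≤ C1 Z ^ (σ/2) X` elements (`count_rad_pairs (σ/2)`), and each fibre has at most
`C2 Z ^ (σ/2)` elements: for fixed `x = w.1`, fixed `k` and fixed signs of `w.1`, `w.2` use `split_fiber α β hβ G m k` (file ToD) with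
`m = |x|`, `α, β = ± 1` the signs, `G = 1` (`Nat.gcd m n = 1`), `F` = set of the `|w.2|`: at most `5 * d(k)` elements, and
`card_divisors_le_rpow` (file CdA), `k ≤ Z` as `k ∣ |w.2| ≤ Z`.  `Finset.card_le_mul_card_image`. -/
theorem heavy_count (σ : ℝ) (hσ : 0 < σ) : ∃ C : ℝ, 1 ≤ C ∧ ∀ (Z : ℕ) (X : ℝ) (S : Finset (ℤ × ℤ)) (k : ℤ × ℤ → ℕ), 1 ≤ Z → 0 ≤ X →
    (∀ w ∈ S, PS Z w ∧ k w ∣ w.2.natAbs ∧ w.2.natAbs ≤ (k w) ^ 2 ∧ ra w * (rd (k w) : ℝ) ≤ X) →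
    (S.card : ℝ) ≤ C * (Z : ℝ) ^ σ * X := by
  classical
  obtain ⟨C1, hC1, H1⟩ := count_rad_pairs (σ / 2) (by positivity)
  obtain ⟨C2, hC2, H2⟩ := card_divisors_le_rpow (σ / 2) (by positivity)
  refine ⟨C1 * (10 * C2), by nlinarith, ?_⟩
  intro Z X S k hZ hX hS
  have hZ0 : (0 : ℝ) < (Z : ℝ) := by exact_mod_cast hZ
  have hk0 : ∀ w ∈ S, k w ≠ 0 := by
    intro w hw h
    obtain ⟨h1, h2, -, -⟩ := hS w hw
    rw [h] at h2
    exact h1.n2 (Int.natAbs_eq_zero.mp (Nat.eq_zero_of_zero_dvd h2))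
  have hkZ : ∀ w ∈ S, k w ≤ Z := by
    intro w hw
    obtain ⟨h1, h2, -, -⟩ := hS w hw
    exact (Nat.le_of_dvd (Int.natAbs_pos.mpr h1.n2) h2).trans h1.b2
  -- the image
  have himg : ((S.image (fun w : ℤ × ℤ => (w.1, (k w : ℤ)))).card : ℝ) ≤ C1 * (Z : ℝ) ^ (σ / 2) * X := by
    apply H1 Z X _ hZ hX
    intro v hv
    rw [Finset.mem_image] at hv
    obtain ⟨w, hw, rfl⟩ := hv
    obtain ⟨h1, h2, h3, h4⟩ := hS w hw
    refine ⟨h1.n1, ?_, h1.b1, ?_, ?_⟩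
    · simp only [ne_eq, Int.natCast_eq_zero]
      exact hk0 w hw
    · simp only [Int.natAbs_natCast]
      exact hkZ w hw
    · simp only [Int.natAbs_natCast]
      exact h4
  -- the fibres
  have hfib : ∀ v ∈ S.image (fun w : ℤ × ℤ => (w.1, (k w : ℤ))),
      ((S.filter (fun w : ℤ × ℤ => (w.1, (k w : ℤ)) = v)).card : ℝ) ≤ 10 * C2 * (Z : ℝ) ^ (σ / 2) := by
    intro v hv
    rw [Finset.mem_image] at hv
    obtain ⟨w0, hw0, rfl⟩ := hv
    have hfil : S.filter (fun w : ℤ × ℤ => (w.1, (k w : ℤ)) = (w0.1, (k w0 : ℤ))) ⊆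
        (S.filter (fun w : ℤ × ℤ => (w.1, (k w : ℤ)) = (w0.1, (k w0 : ℤ)) ∧ 0 < w.2)) ∪
        (S.filter (fun w : ℤ × ℤ => (w.1, (k w : ℤ)) = (w0.1, (k w0 : ℤ)) ∧ w.2 < 0)) := by
      intro w hw
      rw [Finset.mem_filter] at hw
      rw [Finset.mem_union, Finset.mem_filter, Finset.mem_filter]
      rcases lt_trichotomy w.2 0 with h | h | h
      · exact Or.inr ⟨hw.1, hw.2, h⟩
      · exact absurd h (hS w hw.1).1.n2
      · exact Or.inl ⟨hw.1, hw.2, h⟩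
    have hp : ((S.filter (fun w : ℤ × ℤ => (w.1, (k w : ℤ)) = (w0.1, (k w0 : ℤ)) ∧ 0 < w.2)).card : ℝ) ≤
        ((k w0).divisors.card : ℝ) * 5 := by
      apply BI_fiber w0.1 1 (k w0) Z (Or.inl rfl)
      intro w hw
      rw [Finset.mem_filter] at hw
      obtain ⟨h1, h2, h3⟩ := hw
      obtain ⟨g1, g2, g3, -⟩ := hS w h1
      obtain ⟨e1, e2⟩ := Prod.mk.inj h2
      have hk : k w = k w0 := by exact_mod_cast e2
      refine ⟨e1, g1, hk ▸ g2, hk ▸ g3, ?_⟩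
      rw [one_mul, Int.natAbs_of_nonneg h3.le]
    have hn : ((S.filter (fun w : ℤ × ℤ => (w.1, (k w : ℤ)) = (w0.1, (k w0 : ℤ)) ∧ w.2 < 0)).card : ℝ) ≤
        ((k w0).divisors.card : ℝ) * 5 := by
      apply BI_fiber w0.1 (-1) (k w0) Z (Or.inr rfl)
      intro w hw
      rw [Finset.mem_filter] at hw
      obtain ⟨h1, h2, h3⟩ := hw
      obtain ⟨g1, g2, g3, -⟩ := hS w h1
      obtain ⟨e1, e2⟩ := Prod.mk.inj h2
      have hk : k w = k w0 := by exact_mod_cast e2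
      refine ⟨e1, g1, hk ▸ g2, hk ▸ g3, ?_⟩
      rw [neg_one_mul, Int.ofNat_natAbs_of_nonpos h3.le, neg_neg]
    have hd : (((k w0).divisors.card : ℕ) : ℝ) ≤ C2 * (Z : ℝ) ^ (σ / 2) := by
      refine (H2 (k w0) (hk0 w0 hw0)).trans ?_
      have : ((k w0 : ℕ) : ℝ) ^ (σ / 2) ≤ (Z : ℝ) ^ (σ / 2) := by
        apply Real.rpow_le_rpow (by positivity)
        · exact_mod_cast hkZ w0 hw0
        · positivity
      exact mul_le_mul_of_nonneg_left this (by linarith)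
    have hc : ((S.filter (fun w : ℤ × ℤ => (w.1, (k w : ℤ)) = (w0.1, (k w0 : ℤ)))).card : ℝ) ≤
        ((S.filter (fun w : ℤ × ℤ => (w.1, (k w : ℤ)) = (w0.1, (k w0 : ℤ)) ∧ 0 < w.2)).card : ℝ) +
        ((S.filter (fun w : ℤ × ℤ => (w.1, (k w : ℤ)) = (w0.1, (k w0 : ℤ)) ∧ w.2 < 0)).card : ℝ) := by
      exact_mod_cast (Finset.card_le_card hfil).trans (Finset.card_union_le _ _)
    linarith
  have hsum : (S.card : ℝ) = ∑ v ∈ S.image (fun w : ℤ × ℤ => (w.1, (k w : ℤ))),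
      ((S.filter (fun w : ℤ × ℤ => (w.1, (k w : ℤ)) = v)).card : ℝ) := by
    exact_mod_cast Finset.card_eq_sum_card_image (fun w : ℤ × ℤ => (w.1, (k w : ℤ))) S
  rw [hsum]
  refine (Finset.sum_le_sum hfib).trans ?_
  rw [Finset.sum_const, nsmul_eq_mul]
  have hpow : (Z : ℝ) ^ σ = (Z : ℝ) ^ (σ / 2) * (Z : ℝ) ^ (σ / 2) := by
    rw [← Real.rpow_add hZ0]
    congr 1
    ring
  have h10 : (0 : ℝ) ≤ 10 * C2 * (Z : ℝ) ^ (σ / 2) := by positivity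
  calc _ ≤ (C1 * (Z : ℝ) ^ (σ / 2) * X) * (10 * C2 * (Z : ℝ) ^ (σ / 2)) :=
        mul_le_mul_of_nonneg_right himg h10
    _ = C1 * (10 * C2) * (Z : ℝ) ^ σ * X := by
        rw [hpow]
        ring

end Hp

end Pool.Agent.Lib.MP_d8bd92_nt
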