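import Pool.Agent.Lib.MP_d8bd92_nt.Hp.BDefs
import Pool.Agent.Lib.MP_d8bd92_nt.Hp.BA
import Pool.Agent.Lib.MP_d8bd92_nt.ToC
import Pool.Agent.Lib.MP_d8bd92_nt.ToD

set_option autoImplicit false

namespace Pool.Agent.Lib.MP_d8bd92_nt

namespace Hp

open Finset Pool.Agent.Lib.Szpiro

/-- the sign class -/
theorem BJ_class (τ σ : ℝ) (_hτ : 0 < τ) (hσ : 0 < σ) : ∃ C : ℝ, 1 ≤ C ∧ ∀ (a b : ℤ), (a = 1 ∨ a = -1) → (b = 1 ∨ b = -1) →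
    ∀ (Z : ℕ) (Y X : ℝ) (S : Finset (ℤ × ℤ)), 1 ≤ Z →
    1 ≤ Y → (Z : ℝ) ≤ Y ^ τ → 1 ≤ X →
    (∀ w ∈ S, w.1 = a * (w.1.natAbs : ℤ) ∧ w.2 = b * (w.2.natAbs : ℤ)) →
    (∀ w ∈ S, PS Z w ∧ ra w * rb w ≤ Y ∧ ∃ p i u : ℕ, p.Prime ∧ 1 ≤ i ∧ 1 ≤ u ∧ Nat.Coprime p u ∧ w.2.natAbs = p ^ i * u ∧
      Y ^ (1 / 4 : ℝ) ≤ (p : ℝ) ∧ ra w * (rd u : ℝ) ≤ X) →
    (S.card : ℝ) ≤ C * (Z : ℝ) ^ σ * (Y ^ (1 / 2 : ℝ) * X ^ (1 / 2 : ℝ)) := by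
  classical
  have hσ2 : 0 < σ / 2 := by positivity
  obtain ⟨C2, hC21, hC2⟩ := weighted_count (α := ℤ × ℤ) (σ / 2) hσ2
  obtain ⟨K, hK⟩ : ∃ K : ℕ, K = ⌊4 * τ⌋₊ + 1 := ⟨_, rfl⟩
  have hK1 : (1 : ℝ) ≤ (K : ℝ) := by rw [hK]; push_cast; linarith [Nat.cast_nonneg (α := ℝ) ⌊4 * τ⌋₊]
  have hfs : ∀ j : ℕ, ∃ C : ℝ, 1 ≤ C ∧ (1 ≤ j →
      ∀ (N : ℕ) (W : ℝ) (A B : ℤ), 1 ≤ N → 1 ≤ W → A ≠ 0 → B ≠ 0 → |(A : ℝ)| ≤ W → |(B : ℝ)| ≤ W →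
      ∀ S : Finset ℕ, (∀ x ∈ S, x ≤ N ∧ ∃ y : ℤ, A * (x : ℤ) ^ j + B = y ^ 2) →
      (S.card : ℝ) ≤ C * (N : ℝ) ^ (1 / 2 : ℝ) * W ^ (σ / 2)) := by
    intro j
    by_cases hj : 1 ≤ j
    · obtain ⟨C, h1, h2⟩ := few_squares_sharp j hj (σ / 2) hσ2
      exact ⟨C, h1, fun _ => h2⟩
    · exact ⟨1, le_refl _, fun h => absurd h hj⟩
  choose Cf hCf1 hCf using hfs
  obtain ⟨C3, hC3⟩ : ∃ C3 : ℝ, C3 = ∑ j ∈ range K, Cf j := ⟨_, rfl⟩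
  have hC3le : ∀ j ∈ range K, Cf j ≤ C3 := by
    intro j hj
    rw [hC3]
    exact Finset.single_le_sum (f := Cf) (fun i _ => by linarith [hCf1 i]) hj
  have hC31 : 1 ≤ C3 := by
    have h0 : 0 ∈ range K := by rw [Finset.mem_range, hK]; exact Nat.succ_pos _
    exact (hCf1 0).trans (hC3le 0 h0)
  refine ⟨C2 * K * C3, ?_, ?_⟩
  · exact one_le_mul_of_one_le_of_one_le (one_le_mul_of_one_le_of_one_le hC21 hK1) hC31
  intro a b ha hb Z Y X S hZ hY hZY hX hsg hS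
  have hY0 : 0 < Y := by linarith
  have hX0 : 0 < X := by linarith
  have hZ1 : (1 : ℝ) ≤ (Z : ℝ) := by exact_mod_cast hZ
  have hZ0 : (0 : ℝ) < (Z : ℝ) := by linarith
  have ha0 : a ≠ 0 := by rcases ha with rfl | rfl <;> norm_num
  have hb0 : b ≠ 0 := by rcases hb with rfl | rfl <;> norm_num
  have haa : |(a : ℝ)| = 1 := by rcases ha with rfl | rfl <;> norm_num
  have hbb : |(b : ℝ)| = 1 := by rcases hb with rfl | rfl <;> norm_num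
  -- choice of the data
  have hch : ∀ w : ℤ × ℤ, ∃ t : ℕ × ℕ × ℕ, w ∈ S → (t.1.Prime ∧ 1 ≤ t.2.1 ∧ 1 ≤ t.2.2 ∧ Nat.Coprime t.1 t.2.2 ∧
      w.2.natAbs = t.1 ^ t.2.1 * t.2.2 ∧ Y ^ (1 / 4 : ℝ) ≤ (t.1 : ℝ) ∧ ra w * (rd t.2.2 : ℝ) ≤ X) := by
    intro w
    by_cases hw : w ∈ S
    · obtain ⟨_, _, p, i, u, h⟩ := hS w hw
      exact ⟨(p, i, u), fun _ => h⟩
    · exact ⟨(0, 0, 0), fun h => absurd h hw⟩
  choose t ht using hch
  -- radical of the second member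
  have hrb : ∀ w ∈ S, rb w = ((t w).1 : ℝ) * (rd (t w).2.2 : ℝ) := by
    intro w hw
    obtain ⟨e1, e2, e3, e4, e5, e6, e7⟩ := ht w hw
    unfold rb
    rw [e5, rd_mul_coprime _ _ (pow_ne_zero _ e1.ne_zero) (by omega) (Nat.Coprime.pow_left _ e4),
      rd_prime_pow _ _ e1 (by omega)]
    push_cast
    ring
  have hra1 : ∀ w : ℤ × ℤ, 1 ≤ ra w := fun w => one_le_rd _
  have hYgt : ∀ w ∈ S, 1 < Y := by
    intro w hw
    obtain ⟨_, h2, _⟩ := hS w hw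
    obtain ⟨e1, e2, e3, e4, e5, e6, e7⟩ := ht w hw
    rw [hrb w hw] at h2
    have h3 : (2 : ℝ) ≤ ((t w).1 : ℝ) := by exact_mod_cast e1.two_le
    have h4 := one_le_rd (t w).2.2
    have h5 := hra1 w
    have h6 : (2 : ℝ) ≤ ((t w).1 : ℝ) * (rd (t w).2.2 : ℝ) :=
      h3.trans (le_mul_of_one_le_right (Nat.cast_nonneg _) h4)
    exact lt_of_lt_of_le one_lt_two
      (h6.trans ((le_mul_of_one_le_left (zero_le_two.trans h6) h5).trans h2))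
  have hexp : ∀ w ∈ S, (t w).2.1 < K := by
    intro w hw
    obtain ⟨h1, _⟩ := hS w hw
    obtain ⟨e1, e2, e3, e4, e5, e6, e7⟩ := ht w hw
    have h2 : (t w).1 ^ (t w).2.1 ≤ Z := by
      refine le_trans ?_ h1.b2
      rw [e5]
      exact Nat.le_mul_of_pos_right _ e3
    have h3 : (((t w).1 : ℝ)) ^ (t w).2.1 ≤ Y ^ τ := by
      have h4 : (((t w).1 : ℝ)) ^ (t w).2.1 ≤ (Z : ℝ) := by exact_mod_cast h2
      exact h4.trans hZY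
    have h4 : Y ^ ((1 / 4 : ℝ) * (t w).2.1) ≤ Y ^ τ := by
      rw [Real.rpow_mul hY0.le, Real.rpow_natCast]
      exact (pow_le_pow_left₀ (by positivity) e6 _).trans h3
    have h5 : (1 / 4 : ℝ) * (t w).2.1 ≤ τ := (Real.rpow_le_rpow_left_iff (hYgt w hw)).mp h4
    have h6 : (((t w).2.1 : ℕ) : ℝ) ≤ 4 * τ := by linarith
    have h7 : (t w).2.1 ≤ ⌊4 * τ⌋₊ := Nat.le_floor h6
    omega
  have huZ : ∀ w ∈ S, (t w).2.2 ≤ Z := by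
    intro w hw
    obtain ⟨h1, _⟩ := hS w hw
    obtain ⟨e1, e2, e3, e4, e5, e6, e7⟩ := ht w hw
    refine le_trans ?_ h1.b2
    rw [e5]
    exact Nat.le_mul_of_pos_left _ (pow_pos e1.pos _)
  have hmain := hC2 Z K (C3 * (Z : ℝ) ^ (σ / 2) * (Y ^ (1 / 2 : ℝ) * X ^ (1 / 2 : ℝ))) S
    (fun w => ((t w).2.1, w.1.natAbs, (t w).2.2)) hZ (by positivity) (by
      intro w hw
      obtain ⟨h1, _⟩ := hS w hw
      obtain ⟨e1, e2, e3, e4, e5, e6, e7⟩ := ht w hw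
      exact ⟨hexp w hw, Int.natAbs_pos.mpr h1.n1, h1.b1, e3, huZ w hw⟩)
    (by
      intro j m u
      set F := S.filter (fun w => (((t w).2.1, w.1.natAbs, (t w).2.2) : ℕ × ℕ × ℕ) = (j, m, u)) with hF
      rcases F.eq_empty_or_nonempty with hE | ⟨w1, hw1⟩
      · rw [hE, Finset.card_empty]
        push_cast
        positivity
      have hFm : ∀ w ∈ F, w ∈ S ∧ (t w).2.1 = j ∧ w.1.natAbs = m ∧ (t w).2.2 = u := by
        intro w hw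
        rw [hF, Finset.mem_filter] at hw
        have h2 := hw.2
        simp only [Prod.mk.injEq] at h2
        exact ⟨hw.1, h2.1, h2.2.1, h2.2.2⟩
      obtain ⟨q1, q2, q3, q4⟩ := hFm w1 hw1
      obtain ⟨e1, e2, e3, e4, e5, e6, e7⟩ := ht w1 q1
      obtain ⟨g1, g2, _⟩ := hS w1 q1
      have hu3 : 1 ≤ u := by rw [← q4]; exact e3
      have hj1 : 1 ≤ j := by rw [← q2]; exact e2
      have hjK : j ∈ range K := by
        rw [Finset.mem_range, ← q2]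
        exact hexp w1 q1
      have hm0 : m ≠ 0 := by
        rw [← q3]
        exact Int.natAbs_ne_zero.mpr g1.n1
      have hmZ : m ≤ Z := by rw [← q3]; exact g1.b1
      have huZ' : u ≤ Z := by rw [← q4]; exact huZ w1 q1
      have hm1 := one_le_rd m
      have hu1 := one_le_rd u
      have hmu : (0 : ℝ) < (rd m : ℝ) * (rd u : ℝ) := by positivity
      have hMX : (rd m : ℝ) * (rd u : ℝ) ≤ X := by
        have h2 := e7
        unfold ra at h2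
        rw [q3, q4] at h2
        exact h2
      set M : ℝ := (rd m : ℝ) * (rd u : ℝ) with hM
      set Q : ℝ := Y / M with hQ
      have hQ0 : 0 < Q := by rw [hQ]; positivity
      have hxQ : ∀ w ∈ F, ((t w).1 : ℝ) ≤ Q := by
        intro w hw
        obtain ⟨r1, r2, r3, r4⟩ := hFm w hw
        obtain ⟨_, k5, _⟩ := hS w r1
        rw [hrb w r1, r4] at k5
        unfold ra at k5
        rw [r3] at k5
        rw [hQ, le_div_iff₀ hmu]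
        calc ((t w).1 : ℝ) * M = (rd m : ℝ) * (((t w).1 : ℝ) * (rd u : ℝ)) := by rw [hM]; ring
          _ ≤ Y := k5
      set N : ℕ := ⌊Q⌋₊ with hN
      have hxN : ∀ w ∈ F, (t w).1 ≤ N := fun w hw => Nat.le_floor (hxQ w hw)
      have hN1 : 1 ≤ N := (e1.one_lt.le).trans (hxN w1 hw1)
      have hcF : F.card = (F.image (fun w => (t w).1)).card := by
        rw [Finset.card_image_of_injOn]
        intro v hv v' hv' hab
        obtain ⟨r1, r2, r3, r4⟩ := hFm v hv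
        obtain ⟨s1, s2, s3, s4⟩ := hFm v' hv'
        simp only at hab
        obtain ⟨_, _, _, _, f5, _⟩ := ht v r1
        obtain ⟨_, _, _, _, g5, _⟩ := ht v' s1
        obtain ⟨x1, x2⟩ := hsg v r1
        obtain ⟨y1, y2⟩ := hsg v' s1
        refine Prod.ext ?_ ?_
        · rw [x1, y1, r3, s3]
        · rw [x2, y2, f5, g5, r2, s2, r4, s4, hab]
      have hcast : ∀ (γ : ℤ) (v : ℕ), |(γ : ℝ)| = 1 → v ≤ Z →
          |((γ * (v : ℤ) : ℤ) : ℝ)| ≤ (Z : ℝ) := by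
        intro γ v h2 h3
        push_cast
        rw [abs_mul, Nat.abs_cast, h2, one_mul]
        exact_mod_cast h3
      have h2 := hCf j hj1 N (Z : ℝ) (b * (u : ℤ)) (a * (m : ℤ)) hN1 hZ1
        (mul_ne_zero hb0 (by exact_mod_cast (by omega : u ≠ 0))) (mul_ne_zero ha0 (by exact_mod_cast hm0))
        (hcast b u hbb huZ') (hcast a m haa hmZ) (F.image (fun w => (t w).1)) (by
          intro x hx
          rw [Finset.mem_image] at hx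
          obtain ⟨w, hw, rfl⟩ := hx
          refine ⟨hxN w hw, ?_⟩
          obtain ⟨r1, r2, r3, r4⟩ := hFm w hw
          obtain ⟨_, _, _, _, f5, _⟩ := ht w r1
          obtain ⟨x1, x2⟩ := hsg w r1
          obtain ⟨k1, _⟩ := hS w r1
          obtain ⟨y, hy⟩ := k1.sq
          refine ⟨y, ?_⟩
          rw [← hy, x1, x2, f5, r2, r3, r4]
          push_cast
          ring)
      rw [← hcF] at h2
      have h3 : (N : ℝ) ^ (1 / 2 : ℝ) ≤ (Y ^ (1 / 2 : ℝ) * X ^ (1 / 2 : ℝ)) * (((rd m : ℝ))⁻¹ * ((rd u : ℝ))⁻¹) := by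
        have h4 : (N : ℝ) ^ (1 / 2 : ℝ) ≤ Q ^ (1 / 2 : ℝ) :=
          Real.rpow_le_rpow (Nat.cast_nonneg _) (Nat.floor_le hQ0.le) (by norm_num)
        have h5 : Q ^ (1 / 2 : ℝ) = Y ^ (1 / 2 : ℝ) * (M ^ (1 / 2 : ℝ) * M⁻¹) := by
          rw [hQ, Real.div_rpow hY0.le hmu.le]
          have h6 : M = M ^ (1 / 2 : ℝ) * M ^ (1 / 2 : ℝ) := by
            rw [← Real.rpow_add hmu]; norm_num
          have h7 : 0 < M ^ (1 / 2 : ℝ) := Real.rpow_pos_of_pos hmu _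
          have h8 : M ^ (1 / 2 : ℝ) * M⁻¹ = (M ^ (1 / 2 : ℝ))⁻¹ := by
            have h9 : M⁻¹ = (M ^ (1 / 2 : ℝ))⁻¹ * (M ^ (1 / 2 : ℝ))⁻¹ := by
              rw [← mul_inv, ← h6]
            rw [h9, ← mul_assoc, mul_inv_cancel₀ h7.ne', one_mul]
          rw [h8]
          rfl
        have h6 : M ^ (1 / 2 : ℝ) ≤ X ^ (1 / 2 : ℝ) := Real.rpow_le_rpow hmu.le hMX (by norm_num)
        have h7 : M⁻¹ = ((rd m : ℝ))⁻¹ * ((rd u : ℝ))⁻¹ := by rw [hM, mul_inv]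
        rw [← h7]
        refine h4.trans ?_
        rw [h5, mul_assoc]
        apply mul_le_mul_of_nonneg_left _ (by positivity)
        exact mul_le_mul_of_nonneg_right h6 (by positivity)
      have h5 := hC3le j hjK
      calc (F.card : ℝ) ≤ Cf j * (N : ℝ) ^ (1 / 2 : ℝ) * (Z : ℝ) ^ (σ / 2) := h2
        _ ≤ C3 * ((Y ^ (1 / 2 : ℝ) * X ^ (1 / 2 : ℝ)) * (((rd m : ℝ))⁻¹ * ((rd u : ℝ))⁻¹)) * (Z : ℝ) ^ (σ / 2) := by
            apply mul_le_mul_of_nonneg_right _ (by positivity)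
            exact mul_le_mul h5 h3 (by positivity) (by linarith)
        _ = C3 * (Z : ℝ) ^ (σ / 2) * (Y ^ (1 / 2 : ℝ) * X ^ (1 / 2 : ℝ)) *
            (((rd m : ℝ))⁻¹ * ((rd u : ℝ))⁻¹) := by ring)
  refine hmain.trans (le_of_eq ?_)
  have h1 : (Z : ℝ) ^ σ = (Z : ℝ) ^ (σ / 2) * (Z : ℝ) ^ (σ / 2) := by
    rw [← Real.rpow_add hZ0]; ring_nf
  rw [h1]
  ring

/-- ROW BJ.  A long prime.  Proof (as part C of `half_sharp` in ToD): `p ≥ Y ^ (1/4)`, `p ^ i ≤ Z ≤ Y ^ τ` give `i ≤ 4 τ` (if `Y = 1` then all radicals are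
`1`, so no prime divides `w.2`: `P` is empty; so `Y > 1`).  Fix the signs of `w.1, w.2`, the exponent `i`, `x = |w.1|` and `u`.  Then `p ≤ N := ⌊Y / (rd x * rd u)⌋₊`
(`rd |w.2| = p * rd u`) and `± x ± u p ^ i` is a square: `few_squares_sharp i _ σ'` (file ToA; `A = ± u`, `B = ± x`, `W = Z`) gives at most
`C_i N ^ (1/2) Z ^ σ'` primes.  Sum: `∑_(x, u ≤ Z, rd x rd u ≤ X) (Y / (rd x rd u)) ^ (1/2) ≤ ∑ Y ^ (1/2) X ^ (1/2) / (rd x rd u) ≤ Y ^ (1/2) X ^ (1/2) (C Z ^ σ') ^ 2`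
(`sum_inv_rd σ'`); or use `weighted_count` of ToB.  `N ≥ 1` as it contains a prime. -/
theorem long_count (τ σ : ℝ) (hτ : 0 < τ) (hσ : 0 < σ) : ∃ C : ℝ, 1 ≤ C ∧ ∀ (Z : ℕ) (Y X : ℝ) (S : Finset (ℤ × ℤ)), 1 ≤ Z →
    1 ≤ Y → (Z : ℝ) ≤ Y ^ τ → 1 ≤ X →
    (∀ w ∈ S, PS Z w ∧ ra w * rb w ≤ Y ∧ ∃ p i u : ℕ, p.Prime ∧ 1 ≤ i ∧ 1 ≤ u ∧ Nat.Coprime p u ∧ w.2.natAbs = p ^ i * u ∧
      Y ^ (1 / 4 : ℝ) ≤ (p : ℝ) ∧ ra w * (rd u : ℝ) ≤ X) →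
    (S.card : ℝ) ≤ C * (Z : ℝ) ^ σ * (Y ^ (1 / 2 : ℝ) * X ^ (1 / 2 : ℝ)) := by
  classical
  obtain ⟨C, hC1, hC⟩ := BJ_class τ σ hτ hσ
  refine ⟨4 * C, by linarith, ?_⟩
  intro Z Y X S hZ hY hZY hX hS
  have key : ∀ a b : ℤ, (a = 1 ∨ a = -1) → (b = 1 ∨ b = -1) →
      (((S.filter (fun w => w.1 = a * (w.1.natAbs : ℤ) ∧ w.2 = b * (w.2.natAbs : ℤ))).card : ℕ) : ℝ) ≤
      C * (Z : ℝ) ^ σ * (Y ^ (1 / 2 : ℝ) * X ^ (1 / 2 : ℝ)) := by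
    intro a b ha hb
    apply hC a b ha hb Z Y X _ hZ hY hZY hX
    · intro w hw
      exact (Finset.mem_filter.mp hw).2
    · intro w hw
      exact hS w (Finset.mem_filter.mp hw).1
  have hcover : S ⊆ (S.filter (fun w => w.1 = 1 * (w.1.natAbs : ℤ) ∧ w.2 = 1 * (w.2.natAbs : ℤ)) ∪
      S.filter (fun w => w.1 = 1 * (w.1.natAbs : ℤ) ∧ w.2 = (-1) * (w.2.natAbs : ℤ))) ∪
      (S.filter (fun w => w.1 = (-1) * (w.1.natAbs : ℤ) ∧ w.2 = 1 * (w.2.natAbs : ℤ)) ∪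
      S.filter (fun w => w.1 = (-1) * (w.1.natAbs : ℤ) ∧ w.2 = (-1) * (w.2.natAbs : ℤ))) := by
    intro w hw
    simp only [Finset.mem_union, Finset.mem_filter]
    have h1 : w.1 = 1 * (w.1.natAbs : ℤ) ∨ w.1 = (-1) * (w.1.natAbs : ℤ) := by omega
    have h2 : w.2 = 1 * (w.2.natAbs : ℤ) ∨ w.2 = (-1) * (w.2.natAbs : ℤ) := by omega
    rcases h1 with h1 | h1 <;> rcases h2 with h2 | h2
    · exact Or.inl (Or.inl ⟨hw, h1, h2⟩)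
    · exact Or.inl (Or.inr ⟨hw, h1, h2⟩)
    · exact Or.inr (Or.inl ⟨hw, h1, h2⟩)
    · exact Or.inr (Or.inr ⟨hw, h1, h2⟩)
  have hcard := (Finset.card_le_card hcover).trans ((Finset.card_union_le _ _).trans
    (Nat.add_le_add (Finset.card_union_le _ _) (Finset.card_union_le _ _)))
  have hcard' : (S.card : ℝ) ≤ ((((S.filter (fun w => w.1 = 1 * (w.1.natAbs : ℤ) ∧ w.2 = 1 * (w.2.natAbs : ℤ))).card : ℕ) : ℝ) +
      (((S.filter (fun w => w.1 = 1 * (w.1.natAbs : ℤ) ∧ w.2 = (-1) * (w.2.natAbs : ℤ))).card : ℕ) : ℝ)) +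
      ((((S.filter (fun w => w.1 = (-1) * (w.1.natAbs : ℤ) ∧ w.2 = 1 * (w.2.natAbs : ℤ))).card : ℕ) : ℝ) +
      (((S.filter (fun w => w.1 = (-1) * (w.1.natAbs : ℤ) ∧ w.2 = (-1) * (w.2.natAbs : ℤ))).card : ℕ) : ℝ)) := by
    exact_mod_cast hcard
  have k1 := key 1 1 (Or.inl rfl) (Or.inl rfl)
  have k2 := key 1 (-1) (Or.inl rfl) (Or.inr rfl)
  have k3 := key (-1) 1 (Or.inr rfl) (Or.inl rfl)
  have k4 := key (-1) (-1) (Or.inr rfl) (Or.inr rfl)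
  have h5 : 4 * C * (Z : ℝ) ^ σ * (Y ^ (1 / 2 : ℝ) * X ^ (1 / 2 : ℝ)) =
      4 * (C * (Z : ℝ) ^ σ * (Y ^ (1 / 2 : ℝ) * X ^ (1 / 2 : ℝ))) := by ring
  rw [h5]
  linarith

end Hp

end Pool.Agent.Lib.MP_d8bd92_nt
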