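import Pool.Agent.Lib.MP_d8bd92_nt.Hp.BDefs

set_option autoImplicit false

namespace Pool.Agent.Lib.MP_d8bd92_nt

namespace Hp

open Finset Pool.Agent.Lib.Szpiro

/-- ROW BK.  Subset sums in a window: take a maximal (by inclusion, or by induction on `s`) subset with sum `< t + β`... .  Proof: induction on `s`
(`Finset.induction_on`): if `∑ s' ≥ t` use the induction hypothesis; otherwise `∑ s' < t ≤ ∑ s = y a + ∑ s' < t + β`, take `T = s`. -/
theorem exists_window {ι : Type} [DecidableEq ι] (s : Finset ι) (y : ι → ℝ) (t β : ℝ) (ht : 0 < t) (hβ : ∀ i ∈ s, y i < β)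
    (hs : t ≤ ∑ i ∈ s, y i) : ∃ T ⊆ s, t ≤ ∑ i ∈ T, y i ∧ ∑ i ∈ T, y i < t + β := by
  induction s using Finset.induction_on with
  | empty =>
    rw [Finset.sum_empty] at hs
    linarith
  | insert a s ha ih =>
    by_cases h : t ≤ ∑ i ∈ s, y i
    · obtain ⟨T, hT, h1, h2⟩ := ih (fun i hi => hβ i (Finset.mem_insert_of_mem hi)) h
      exact ⟨T, hT.trans (Finset.subset_insert _ _), h1, h2⟩
    · refine ⟨insert a s, Finset.Subset.refl _, hs, ?_⟩
      rw [Finset.sum_insert ha]
      have h3 := hβ a (Finset.mem_insert_self _ _)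
      push Not at h
      linarith

/-- ROW BK.  Weights without a balanced subset sum.  Proof.  Suppose no `i` has `b - y i < 1/4 + c`.  By `hno {i}` all `y i < 1/4 + c`.
Put `β = b - 1/2 - 2c ≥ 1/4 - 3c`, `S0 = {i : y i < β}`, `s0 = ∑ S0`.  No subset `T` of `s` has sum in `[1/4 + c, b - 1/4 - c]` (`hno`).
`s0 < 1/4 + c`: otherwise `exists_window S0 y (1/4+c) β` gives a `T` with sum in `[1/4+c, b - 1/4 - c)`.  There is `i` with `y i ≥ β` (else
`b = s0 < 1/4 + c < 3/4 - c`).  For every such big `i`: `y i + s0 < 1/4 + c` (otherwise `exists_window S0 y (1/4 + c - y i) β`, note `1/4 + c - y i > 0`,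
gives `T` with `y i + ∑ T` in the forbidden window), so `s0 < 4 c`.  Two big `i ≠ j` have `y i + y j ≥ 2 β ≥ 1/2 - 6c ≥ 1/4 + c`, so
`b - y i - y j < 1/4 + c` by `hno {i, j}`; so there are at most three big ones (four would give `b - y i - y j ≥ 2 β > 1/4 + c`), and at least three, as
`b < 2 (1/4 + c) + 4 c < 3/4 - c` otherwise.  `s \ {i, j, k} = S0`. -/
theorem weights3 {ι : Type} [DecidableEq ι] (s : Finset ι) (y : ι → ℝ) (b c : ℝ) (hc : 0 < c) (hc1 : c ≤ 1 / 100)
    (hy : ∀ i ∈ s, 0 ≤ y i) (hb : ∑ i ∈ s, y i = b) (hb1 : 3 / 4 - c ≤ b)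
    (hno : ∀ T ⊆ s, ∑ i ∈ T, y i < 1 / 4 + c ∨ b - ∑ i ∈ T, y i < 1 / 4 + c) :
    (∃ i ∈ s, b - y i < 1 / 4 + c) ∨
    ∃ i ∈ s, ∃ j ∈ s, ∃ k ∈ s, i ≠ j ∧ i ≠ k ∧ j ≠ k ∧ 1 / 4 - 3 * c ≤ y i ∧ y i ≤ 1 / 4 + c ∧
      1 / 4 - 3 * c ≤ y j ∧ y j ≤ 1 / 4 + c ∧ 1 / 4 - 3 * c ≤ y k ∧ y k ≤ 1 / 4 + c ∧
      b - y i - y j - y k ≤ 4 * c := by
  by_contra hcon
  push Not at hcon
  obtain ⟨hcon1, hcon2⟩ := hcon
  have hyq : ∀ i ∈ s, y i < 1 / 4 + c := by
    intro i hi
    have h := hno {i} (Finset.singleton_subset_iff.mpr hi)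
    rw [Finset.sum_singleton] at h
    rcases h with h | h
    · exact h
    · exact absurd h (not_lt.mpr (hcon1 i hi))
  obtain ⟨β, hβ⟩ : ∃ β : ℝ, β = b - 1 / 2 - 2 * c := ⟨_, rfl⟩
  have hβ1 : 1 / 4 - 3 * c ≤ β := by rw [hβ]; linarith
  have hsplit : ∑ i ∈ s.filter (fun i => y i < β), y i + ∑ i ∈ s.filter (fun i => ¬ y i < β), y i = b := by
    rw [Finset.sum_filter_add_sum_filter_not, hb]
  obtain ⟨s0, hs0⟩ : ∃ s0 : ℝ, s0 = ∑ i ∈ s.filter (fun i => y i < β), y i := ⟨_, rfl⟩
  rw [← hs0] at hsplit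
  have hS0 : ∀ i ∈ s.filter (fun i => y i < β), y i < β := fun i hi => (Finset.mem_filter.mp hi).2
  have hS0s : s.filter (fun i => y i < β) ⊆ s := Finset.filter_subset _ _
  have h1 : s0 < 1 / 4 + c := by
    by_contra h
    push Not at h
    rw [hs0] at h
    obtain ⟨T, hT, h2, h3⟩ := exists_window _ y (1 / 4 + c) β (by linarith) hS0 h
    rcases hno T (hT.trans hS0s) with h4 | h4
    · linarith
    · linarith
  have hbig : ∀ i ∈ s, β ≤ y i → y i + s0 < 1 / 4 + c := by
    intro i hi hiβ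
    by_contra h
    push Not at h
    have hi1 := hyq i hi
    have h5 : 1 / 4 + c - y i ≤ ∑ j ∈ s.filter (fun j => y j < β), y j := by
      rw [← hs0]; linarith
    obtain ⟨T, hT, h2, h3⟩ := exists_window _ y (1 / 4 + c - y i) β (by linarith) hS0 h5
    have hiT : i ∉ T := by
      intro hiT
      have := hS0 i (hT hiT)
      linarith
    have h6 := hno (insert i T) (Finset.insert_subset hi (hT.trans hS0s))
    rw [Finset.sum_insert hiT] at h6
    rcases h6 with h4 | h4
    · linarith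
    · linarith
  have hs04 : ∀ i ∈ s, β ≤ y i → s0 < 4 * c := by
    intro i hi hiβ
    have := hbig i hi hiβ
    linarith
  have hcard : 2 < (s.filter (fun i => ¬ y i < β)).card := by
    by_contra h
    replace h := not_lt.mp h
    have h7 : ∑ i ∈ s.filter (fun i => ¬ y i < β), y i ≤
        (s.filter (fun i => ¬ y i < β)).card • (1 / 4 + c) :=
      Finset.sum_le_card_nsmul _ _ _ fun i hi => (hyq i (Finset.mem_filter.mp hi).1).le
    rw [nsmul_eq_mul] at h7
    have h8 : ((s.filter (fun i => ¬ y i < β)).card : ℝ) ≤ 2 := by exact_mod_cast h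
    have h9 : ((s.filter (fun i => ¬ y i < β)).card : ℝ) * (1 / 4 + c) ≤ 2 * (1 / 4 + c) :=
      mul_le_mul_of_nonneg_right h8 (by linarith)
    rcases Finset.eq_empty_or_nonempty (s.filter (fun i => ¬ y i < β)) with he | ⟨i, hi⟩
    · rw [he, Finset.sum_empty] at hsplit
      linarith
    · obtain ⟨hi1, hi2⟩ := Finset.mem_filter.mp hi
      have := hs04 i hi1 (not_lt.mp hi2)
      linarith
  obtain ⟨i, hi, j, hj, k, hk, hij, hik, hjk⟩ := Finset.two_lt_card.mp hcard
  have hi1 := (Finset.mem_filter.mp hi).1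
  have hj1 := (Finset.mem_filter.mp hj).1
  have hk1 := (Finset.mem_filter.mp hk).1
  have hi2 := not_lt.mp (Finset.mem_filter.mp hi).2
  have hj2 := not_lt.mp (Finset.mem_filter.mp hj).2
  have hk2 := not_lt.mp (Finset.mem_filter.mp hk).2
  have hij2 : b - y i - y j < 1 / 4 + c := by
    have h := hno {i, j} (by
      intro x hx
      rw [Finset.mem_insert, Finset.mem_singleton] at hx
      rcases hx with rfl | rfl
      · exact hi1
      · exact hj1)
    rw [Finset.sum_pair hij] at h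
    rcases h with h | h
    · linarith
    · linarith
  have hB : s.filter (fun i => ¬ y i < β) = {i, j, k} := by
    apply Finset.Subset.antisymm
    · intro l hl
      by_contra hn
      rw [Finset.mem_insert, Finset.mem_insert, Finset.mem_singleton] at hn
      push Not at hn
      obtain ⟨n1, n2, n3⟩ := hn
      obtain ⟨hl1, hl2⟩ := Finset.mem_filter.mp hl
      have hl3 := not_lt.mp hl2
      have hsub : ({l, i, j, k} : Finset ι) ⊆ s := by
        intro x hx
        rw [Finset.mem_insert, Finset.mem_insert, Finset.mem_insert, Finset.mem_singleton] at hx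
        rcases hx with rfl | rfl | rfl | rfl
        · exact hl1
        · exact hi1
        · exact hj1
        · exact hk1
      have hle : ∑ x ∈ ({l, i, j, k} : Finset ι), y x ≤ ∑ x ∈ s, y x :=
        Finset.sum_le_sum_of_subset_of_nonneg hsub fun x hx _ => hy x hx
      rw [Finset.sum_insert (by simp [n1, n2, n3]), Finset.sum_insert (by simp [hij, hik]),
        Finset.sum_pair hjk, hb] at hle
      linarith
    · intro x hx
      rw [Finset.mem_insert, Finset.mem_insert, Finset.mem_singleton] at hx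
      rcases hx with rfl | rfl | rfl
      · exact hi
      · exact hj
      · exact hk
  rw [hB, Finset.sum_insert (by simp [hij, hik]), Finset.sum_pair hjk] at hsplit
  have hlast := hcon2 i hi1 j hj1 k hk1 hij hik hjk (by linarith) (hyq i hi1).le (by linarith)
    (hyq j hj1).le (by linarith) (hyq k hk1).le
  have := hs04 i hi1 hi2
  linarith

end Hp

end Pool.Agent.Lib.MP_d8bd92_nt
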