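import Pool.Agent.Lib.MP_d8bd92_nt.Hp.BDefs
import Pool.Agent.Lib.MP_d8bd92_nt.Hp.BK
import Pool.Agent.Lib.MP_d8bd92_nt.ToB

set_option autoImplicit false

namespace Pool.Agent.Lib.MP_d8bd92_nt

namespace Hp

open Finset Pool.Agent.Lib.Szpiro

/-- ROW BL.  The part of `n` composed of the primes in `T`.  (`part_primeFactors`, `part_split` in ToB: read them first and use them.) -/
theorem exists_part (n : ℕ) (hn : n ≠ 0) (T : Finset ℕ) (hT : T ⊆ n.primeFactors) :
    ∃ k k' : ℕ, n = k * k' ∧ Nat.Coprime k k' ∧ k.primeFactors = T ∧ k'.primeFactors = n.primeFactors \ T := by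
  obtain ⟨h1, h2, _, _⟩ := part_split n hn T hT
  exact ⟨_, _, h1.symm, h2, (part_primeFactors n T hT).2,
    (part_primeFactors n (n.primeFactors \ T) Finset.sdiff_subset).2⟩

private theorem BL_pow {Y : ℝ} (hY : 1 < Y) {p : ℕ} (hp : 0 < p) :
    Y ^ (Real.log p / Real.log Y) = (p : ℝ) := by
  have hY0 : 0 < Y := by linarith
  have hl : 0 < Real.log Y := Real.log_pos hY
  have hp0 : (0 : ℝ) < p := by exact_mod_cast hp
  rw [Real.rpow_def_of_pos hY0, mul_div_cancel₀ _ hl.ne', Real.exp_log hp0]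

private theorem BL_prod {Y : ℝ} (hY : 1 < Y) (T : Finset ℕ) (hT : ∀ p ∈ T, 0 < p) :
    Y ^ (∑ p ∈ T, Real.log p / Real.log Y) = ((∏ p ∈ T, p : ℕ) : ℝ) := by
  rw [Real.rpow_sum_of_pos (by linarith), Nat.cast_prod]
  exact Finset.prod_congr rfl (fun p hp => BL_pow hY (hT p hp))

/-- ROW BL.  Classification of an integer with large radical.  Proof: weights `y p = Real.log p / Real.log Y` on `s = n.primeFactors`, `b = log (rd n) / log Y ∈ [3/4 - c, 1]`.
Suppose (first alternative) fails: then for every `T ⊆ s`, with `n = k k'` from `exists_part`, not both `∑ T` and `b - ∑ T` are `≥ 1/4 + c`: otherwise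
`rd k, rd k' ≥ Y ^ (1/4+c)` and `n ≤ k ^ 2` or `n ≤ k' ^ 2` (whichever of `k, k'` is larger).  So `weights3` applies: (i) `p` with `b - y p < 1/4 + c`:
`T = {p}`, `k = p ^ i` (`k.primeFactors = {p}`: `k = p ^ (k.factorization p)`), `u = k'`; `p = rd n / rd u ≥ Y ^ (1/2 - 2c)`.  (ii) three primes: write
`n = p ^ i q ^ j r ^ l u`, `rd u ≤ Y ^ (4c)`.  (`Y ^ x = exp (x log Y)`; `rd` of a product of coprime numbers: `rd_mul_coprime` in TwRad.) -/
theorem unb_class (Y c : ℝ) (n : ℕ) (hY : 1 < Y) (hc : 0 < c) (hc1 : c ≤ 1 / 100) (hn : n ≠ 0)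
    (h1 : Y ^ (3 / 4 - c) ≤ (rd n : ℝ)) (h2 : (rd n : ℝ) ≤ Y) :
    (∃ k k' : ℕ, n = k * k' ∧ Nat.Coprime k k' ∧ n ≤ k ^ 2 ∧ Y ^ (1 / 4 + c) ≤ (rd k' : ℝ)) ∨
    (∃ p i u : ℕ, p.Prime ∧ 1 ≤ i ∧ 1 ≤ u ∧ Nat.Coprime p u ∧ n = p ^ i * u ∧ (rd u : ℝ) ≤ Y ^ (1 / 4 + c) ∧
      Y ^ (1 / 2 - 2 * c) ≤ (p : ℝ)) ∨
    (∃ p q r i j l u : ℕ, p.Prime ∧ q.Prime ∧ r.Prime ∧ p ≠ q ∧ p ≠ r ∧ q ≠ r ∧
      1 ≤ i ∧ 1 ≤ j ∧ 1 ≤ l ∧ 1 ≤ u ∧ Nat.Coprime (p * q * r) u ∧ n = p ^ i * q ^ j * r ^ l * u ∧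
      Y ^ (1 / 4 - 3 * c) ≤ (p : ℝ) ∧ (p : ℝ) ≤ Y ^ (1 / 4 + c) ∧ Y ^ (1 / 4 - 3 * c) ≤ (q : ℝ) ∧
      (q : ℝ) ≤ Y ^ (1 / 4 + c) ∧ Y ^ (1 / 4 - 3 * c) ≤ (r : ℝ) ∧ (r : ℝ) ≤ Y ^ (1 / 4 + c) ∧
      (rd u : ℝ) ≤ Y ^ (4 * c)) := by
  classical
  have hpos : ∀ T ⊆ n.primeFactors, ∀ p ∈ T, 0 < p := fun T hT p hp =>
    (Nat.prime_of_mem_primeFactors (hT hp)).pos
  have hmono : ∀ {u v : ℝ}, u ≤ v → Y ^ u ≤ Y ^ v := fun huv =>
    Real.rpow_le_rpow_of_exponent_le hY.le huv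
  obtain ⟨b, hb⟩ : ∃ b : ℝ, ∑ p ∈ n.primeFactors, Real.log p / Real.log Y = b := ⟨_, rfl⟩
  have hrd : Y ^ b = (rd n : ℝ) := by
    rw [← hb, BL_prod hY _ (hpos _ (Finset.Subset.refl _))]
    rfl
  have hb1 : 3 / 4 - c ≤ b := by
    rw [← hrd] at h1
    exact (Real.rpow_le_rpow_left_iff hY).1 h1
  have hcompl : ∀ T ⊆ n.primeFactors,
      ((∏ p ∈ n.primeFactors \ T, p : ℕ) : ℝ) = Y ^ (b - ∑ p ∈ T, Real.log p / Real.log Y) := by
    intro T hT
    rw [← BL_prod hY _ (hpos _ Finset.sdiff_subset)]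
    congr 1
    have := Finset.sum_sdiff (f := fun p : ℕ => Real.log p / Real.log Y) hT
    linarith
  by_cases hfirst : ∃ k k' : ℕ, n = k * k' ∧ Nat.Coprime k k' ∧ n ≤ k ^ 2 ∧
      Y ^ (1 / 4 + c) ≤ (rd k' : ℝ)
  · exact Or.inl hfirst
  right
  have hno : ∀ T ⊆ n.primeFactors, ∑ p ∈ T, Real.log p / Real.log Y < 1 / 4 + c ∨
      b - ∑ p ∈ T, Real.log p / Real.log Y < 1 / 4 + c := by
    intro T hT
    by_contra hcon
    push Not at hcon
    obtain ⟨k, k', hk1, hk2, hk3, hk4⟩ := exists_part n hn T hT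
    have hr1 : Y ^ (1 / 4 + c) ≤ (rd k : ℝ) := by
      have : (rd k : ℝ) = Y ^ (∑ p ∈ T, Real.log p / Real.log Y) := by
        rw [BL_prod hY _ (hpos T hT)]
        unfold rd
        rw [hk3]
      rw [this]
      exact hmono hcon.1
    have hr2 : Y ^ (1 / 4 + c) ≤ (rd k' : ℝ) := by
      have : (rd k' : ℝ) = Y ^ (b - ∑ p ∈ T, Real.log p / Real.log Y) := by
        rw [← hcompl T hT]
        unfold rd
        rw [hk4]
      rw [this]
      exact hmono hcon.2
    rcases le_total k' k with h | h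
    · refine hfirst ⟨k, k', hk1, hk2, ?_, hr2⟩
      rw [hk1, sq]
      exact Nat.mul_le_mul_left k h
    · refine hfirst ⟨k', k, by rw [hk1, mul_comm], hk2.symm, ?_, hr1⟩
      rw [hk1, sq]
      exact Nat.mul_le_mul_right k' h
  have hcop : ∀ T ⊆ n.primeFactors, ∀ p ∈ T,
      Nat.Coprime p (∏ q ∈ n.primeFactors \ T, q ^ n.factorization q) := by
    intro T hT p hp
    have hpp := Nat.prime_of_mem_primeFactors (hT hp)
    rw [Nat.Prime.coprime_iff_not_dvd hpp]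
    intro hd
    obtain ⟨h3, h4⟩ := part_primeFactors n (n.primeFactors \ T) Finset.sdiff_subset
    have h5 : p ∈ (∏ q ∈ n.primeFactors \ T, q ^ n.factorization q).primeFactors :=
      Nat.mem_primeFactors.2 ⟨hpp, hd, h3⟩
    rw [h4] at h5
    exact (Finset.mem_sdiff.1 h5).2 hp
  have hfac : ∀ p ∈ n.primeFactors, 1 ≤ n.factorization p := by
    intro p hp
    have h3 := Nat.mem_primeFactors.mp hp
    exact h3.1.factorization_pos_of_dvd hn h3.2.1
  have hval : ∀ p ∈ n.primeFactors, Y ^ (Real.log p / Real.log Y) = (p : ℝ) := fun p hp =>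
    BL_pow hY (Nat.prime_of_mem_primeFactors hp).pos
  rcases weights3 n.primeFactors (fun p => Real.log p / Real.log Y) b c hc hc1
    (fun p hp => div_nonneg (Real.log_natCast_nonneg p) (Real.log_pos hY).le) hb hb1 hno with
    ⟨p, hp, hp1⟩ | ⟨p, hp, q, hq, r, hr, hpq, hpr, hqr, hp1, hp2, hq1, hq2, hr1, hr2, hu⟩
  · left
    have hT : ({p} : Finset ℕ) ⊆ n.primeFactors := Finset.singleton_subset_iff.2 hp
    obtain ⟨h3, _, _, h6⟩ := part_split n hn {p} hT
    have hu := hcompl {p} hT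
    rw [Finset.sum_singleton] at hu
    rw [Finset.prod_singleton] at h3
    refine ⟨p, n.factorization p, ∏ q ∈ n.primeFactors \ {p}, q ^ n.factorization q,
      Nat.prime_of_mem_primeFactors hp, hfac p hp,
      Nat.one_le_iff_ne_zero.2 (part_primeFactors n _ Finset.sdiff_subset).1,
      hcop {p} hT p (Finset.mem_singleton_self p), h3.symm, ?_, ?_⟩
    · rw [h6, hu]
      exact hmono hp1.le
    · rw [← hval p hp]
      refine hmono ?_
      linarith
  · right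
    have hT : ({p, q, r} : Finset ℕ) ⊆ n.primeFactors := by
      intro x hx
      simp only [Finset.mem_insert, Finset.mem_singleton] at hx
      rcases hx with rfl | rfl | rfl
      · exact hp
      · exact hq
      · exact hr
    have hpT : p ∉ ({q, r} : Finset ℕ) := by
      simp only [Finset.mem_insert, Finset.mem_singleton, not_or]
      exact ⟨hpq, hpr⟩
    have hqT : q ∉ ({r} : Finset ℕ) := by
      simp only [Finset.mem_singleton]
      exact hqr
    obtain ⟨h3, _, _, h6⟩ := part_split n hn {p, q, r} hT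
    have hu' := hcompl {p, q, r} hT
    rw [Finset.sum_insert hpT, Finset.sum_insert hqT, Finset.sum_singleton] at hu'
    rw [Finset.prod_insert hpT, Finset.prod_insert hqT, Finset.prod_singleton] at h3
    have hc1 := hcop {p, q, r} hT p (by simp)
    have hc2 := hcop {p, q, r} hT q (by simp)
    have hc3 := hcop {p, q, r} hT r (by simp)
    refine ⟨p, q, r, n.factorization p, n.factorization q, n.factorization r,
      ∏ x ∈ n.primeFactors \ {p, q, r}, x ^ n.factorization x,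
      Nat.prime_of_mem_primeFactors hp, Nat.prime_of_mem_primeFactors hq,
      Nat.prime_of_mem_primeFactors hr, hpq, hpr, hqr, hfac p hp, hfac q hq, hfac r hr,
      Nat.one_le_iff_ne_zero.2 (part_primeFactors n _ Finset.sdiff_subset).1,
      Nat.Coprime.mul_left (Nat.Coprime.mul_left hc1 hc2) hc3, ?_, ?_, ?_, ?_, ?_, ?_, ?_, ?_⟩
    · refine h3.symm.trans ?_
      ring
    · rw [← hval p hp]
      exact hmono hp1
    · rw [← hval p hp]
      exact hmono hp2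
    · rw [← hval q hq]
      exact hmono hq1
    · rw [← hval q hq]
      exact hmono hq2
    · rw [← hval r hr]
      exact hmono hr1
    · rw [← hval r hr]
      exact hmono hr2
    · rw [h6, hu']
      refine hmono ?_
      linarith

end Hp

end Pool.Agent.Lib.MP_d8bd92_nt
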