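import Pool.Agent.Lib.MP_d8bd92_nt.Hp.BDefs
import Pool.Agent.Lib.MP_d8bd92_nt.Hp.BI
import Pool.Agent.Lib.MP_d8bd92_nt.Hp.BJ
import Pool.Agent.Lib.MP_d8bd92_nt.Hp.BL

set_option autoImplicit false

namespace Pool.Agent.Lib.MP_d8bd92_nt

namespace Hp

open Finset Pool.Agent.Lib.Szpiro

private theorem BM_le {Y a b : ℝ} (hY : 1 < Y) (h : a ≤ b) : Y ^ a ≤ Y ^ b :=
  Real.rpow_le_rpow_of_exponent_le hY.le h

private theorem BM_up {Y x y a b s : ℝ} (hY : 1 < Y) (hx : x ≤ Y ^ a) (hy0 : 0 ≤ y) (hy : y ≤ Y ^ b)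
    (h : a + b ≤ s) : x * y ≤ Y ^ s := by
  have h0 : 0 < Y := zero_lt_one.trans hY
  calc x * y ≤ Y ^ a * Y ^ b := mul_le_mul hx hy hy0 (Real.rpow_nonneg h0.le _)
    _ = Y ^ (a + b) := (Real.rpow_add h0 _ _).symm
    _ ≤ Y ^ s := BM_le hY h

private theorem BM_low {Y x y a b s : ℝ} (hY : 1 < Y) (hx : 0 ≤ x) (h : Y ^ a ≤ x * y) (hy : y ≤ Y ^ b)
    (hs : s + b ≤ a) : Y ^ s ≤ x := by
  have h0 : 0 < Y := zero_lt_one.trans hY
  have hb : 0 < Y ^ b := Real.rpow_pos_of_pos h0 _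
  have h1 : Y ^ s * Y ^ b ≤ x * Y ^ b := by
    calc Y ^ s * Y ^ b = Y ^ (s + b) := (Real.rpow_add h0 _ _).symm
      _ ≤ Y ^ a := BM_le hY hs
      _ ≤ x * y := h
      _ ≤ x * Y ^ b := mul_le_mul_of_nonneg_left hy hx
  exact le_of_mul_le_mul_right h1 hb

private theorem BM_quot {Y x y a b s : ℝ} (hY : 1 < Y) (hx : 0 ≤ x) (h : x * y ≤ Y ^ a) (hy : Y ^ b ≤ y)
    (hs : a ≤ s + b) : x ≤ Y ^ s := by
  have h0 : 0 < Y := zero_lt_one.trans hY
  have hb : 0 < Y ^ b := Real.rpow_pos_of_pos h0 _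
  have h1 : x * Y ^ b ≤ Y ^ s * Y ^ b := by
    calc x * Y ^ b ≤ x * y := mul_le_mul_of_nonneg_left hy hx
      _ ≤ Y ^ a := h
      _ ≤ Y ^ (s + b) := BM_le hY hs
      _ = Y ^ s * Y ^ b := Real.rpow_add h0 _ _
  exact le_of_mul_le_mul_right h1 hb

/-- heavy divisor -/
private def BM_H (Y c : ℝ) (w : ℤ × ℤ) : Prop :=
  ∃ k : ℕ, k ∣ w.2.natAbs ∧ w.2.natAbs ≤ k ^ 2 ∧ ra w * (rd k : ℝ) ≤ Y ^ (3 / 4 - c)

/-- long prime -/
private def BM_L (Y c : ℝ) (w : ℤ × ℤ) : Prop :=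
  ∃ p i u : ℕ, p.Prime ∧ 1 ≤ i ∧ 1 ≤ u ∧ Nat.Coprime p u ∧ w.2.natAbs = p ^ i * u ∧
      Y ^ (1 / 4 : ℝ) ≤ (p : ℝ) ∧ ra w * (rd u : ℝ) ≤ Y ^ (1 / 2 - 6 * c)

private theorem BM_rd {a b : ℕ} (ha : a ≠ 0) (hb : b ≠ 0) (h : Nat.Coprime a b) :
    (rd (a * b) : ℝ) = rd a * rd b := by
  rw [rd_mul_coprime a b ha hb h, Nat.cast_mul]

/-- heavy complement -/
private theorem BM_comp {Y c : ℝ} {w : ℤ × ℤ} (hY : 1 < Y) (hc : 0 < c) (hc1 : c ≤ 1 / 400)
    {m k : ℕ} (hn : w.2.natAbs = m * k) (hlt : m ^ 2 < w.2.natAbs)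
    (hra : ra w ≤ Y ^ (1 / 4 + c)) (hrk : (rd k : ℝ) ≤ Y ^ (1 / 4 + 5 * c)) : BM_H Y c w := by
  refine ⟨k, ⟨m, by rw [hn, mul_comm]⟩, ?_, ?_⟩
  · have h1 : m * m < m * k := by rw [← hn, ← pow_two]; exact hlt
    have h2 : m < k := lt_of_mul_lt_mul_left h1 (Nat.zero_le _)
    rw [hn, pow_two]
    exact Nat.mul_le_mul_right _ h2.le
  · exact BM_up hY hra (Nat.cast_nonneg _) hrk (by linarith only [hc, hc1])

private theorem BM_class {Y c κ : ℝ} {w : ℤ × ℤ} (hY : 1 < Y) (hc : 0 < c) (hc1 : c ≤ 1 / 400) (hκ : κ = 20 * c)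
    (hn : w.2.natAbs ≠ 0) (h1 : ra w * rb w ≤ Y) (h2 : Y ^ (3 / 4 - c) ≤ rb w) :
    BM_H Y c w ∨ BM_L Y c w ∨ U1 Y κ w ∨ U3 Y κ w := by
  have h0 : 0 < Y := zero_lt_one.trans hY
  have ha1 : 1 ≤ ra w := one_le_rd _
  have hb1 : 1 ≤ rb w := one_le_rd _
  have h1' : ra w * rb w ≤ Y ^ (1 : ℝ) := by rw [Real.rpow_one]; exact h1
  have hra0 : 0 ≤ ra w := zero_le_one.trans ha1
  have hra : ra w ≤ Y ^ (1 / 4 + c) := BM_quot hY hra0 h1' h2 (by linarith only [hc])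
  have hrbY : rb w ≤ Y := (le_mul_of_one_le_left (zero_le_one.trans hb1) ha1).trans h1
  have hraκ : ra w ≤ Y ^ (1 / 4 + κ) := hra.trans (BM_le hY (by linarith only [hc, hκ]))
  rcases unb_class Y c w.2.natAbs hY hc (by linarith only [hc1]) hn h2 hrbY with
    ⟨k, k', hkk, hcop, hk2, hk'⟩ | ⟨p, i, u, hp, hi, hu, hcop, hnu, hru, hpY⟩ |
    ⟨p, q, r, i, j, l, u, hp, hq, hr, hpq, hpr, hqr, hi, hj, hl, hu, hcop, hnu, p1, p2, q1, q2, r1, r2, hru⟩
  · left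
    have hk0 : k ≠ 0 := by rintro rfl; exact hn (by rw [hkk, zero_mul])
    have hk0' : k' ≠ 0 := by rintro rfl; exact hn (by rw [hkk, mul_zero])
    refine ⟨k, ⟨k', hkk⟩, hk2, ?_⟩
    have e : rb w = rd k * rd k' := by
      unfold rb
      rw [hkk]
      exact BM_rd hk0 hk0' hcop
    have h3 : ra w * (rd k : ℝ) * (rd k' : ℝ) ≤ Y ^ (1 : ℝ) := by
      rw [mul_assoc, ← e]
      exact h1'
    exact BM_quot hY (mul_nonneg hra0 (Nat.cast_nonneg _)) h3 hk' (by linarith only [hc])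
  · have hu0 : u ≠ 0 := Nat.one_le_iff_ne_zero.1 hu
    have hpi0 : p ^ i ≠ 0 := pow_ne_zero _ hp.ne_zero
    by_cases hlt : p ^ i < u
    · left
      refine ⟨u, ⟨p ^ i, by rw [hnu, mul_comm]⟩, ?_, ?_⟩
      · rw [hnu, pow_two]
        exact Nat.mul_le_mul_right _ hlt.le
      · exact BM_up hY hra (Nat.cast_nonneg _) hru (by linarith only [hc, hc1])
    · rw [not_lt] at hlt
      by_cases hX : ra w * (rd u : ℝ) ≤ Y ^ (1 / 2 - 6 * c)
      · right; left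
        exact ⟨p, i, u, hp, hi, hu, hcop, hnu, (BM_le hY (by linarith only [hc1])).trans hpY, hX⟩
      · rw [not_le] at hX
        right; right; left
        have hru0 : (0 : ℝ) ≤ rd u := Nat.cast_nonneg _
        have hra7 : Y ^ (1 / 4 - κ) ≤ ra w := BM_low hY hra0 hX.le hru (by linarith only [hc, hκ])
        have hru7 : Y ^ (1 / 4 - κ) ≤ (rd u : ℝ) :=
          BM_low hY hru0 (by rw [mul_comm]; exact hX.le) hra (by linarith only [hc, hκ])
        have e : rb w = p * rd u := by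
          unfold rb
          rw [hnu, BM_rd hpi0 hu0 (Nat.Coprime.pow_left _ hcop), rd_prime_pow p i hp (Nat.one_le_iff_ne_zero.1 hi)]
        have h3 : (p : ℝ) * (ra w * (rd u : ℝ)) ≤ Y ^ (1 : ℝ) := by
          have : (p : ℝ) * (ra w * (rd u : ℝ)) = ra w * rb w := by rw [e, mul_left_comm]
          rw [this]
          exact h1'
        refine ⟨hra7, hraκ, p, i, u, hp, hi, hu, hcop, hnu, hlt,
          (BM_le hY (by linarith only [hc, hκ])).trans hpY,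
          BM_quot hY (Nat.cast_nonneg _) h3 hX.le (by linarith only [hc, hκ]), hru7,
          hru.trans (BM_le hY (by linarith only [hc, hκ]))⟩
  · have hu0 : u ≠ 0 := Nat.one_le_iff_ne_zero.1 hu
    have hpi0 : p ^ i ≠ 0 := pow_ne_zero _ hp.ne_zero
    have hqj0 : q ^ j ≠ 0 := pow_ne_zero _ hq.ne_zero
    have hrl0 : r ^ l ≠ 0 := pow_ne_zero _ hr.ne_zero
    have cpq : Nat.Coprime (p ^ i) (q ^ j) := Nat.Coprime.pow _ _ ((Nat.coprime_primes hp hq).2 hpq)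
    have hcu := Nat.Coprime.coprime_mul_right hcop
    have cpu : Nat.Coprime p u := Nat.Coprime.coprime_mul_right hcu
    have cqu : Nat.Coprime q u := Nat.Coprime.coprime_mul_left hcu
    have cru : Nat.Coprime r u := Nat.Coprime.coprime_mul_left hcop
    have key : ∀ {x e : ℕ}, x.Prime → 1 ≤ e → Nat.Coprime x u → (x : ℝ) ≤ Y ^ (1 / 4 + c) →
        (rd (x ^ e * u) : ℝ) ≤ Y ^ (1 / 4 + 5 * c) := by
      intro x e hx he hxu hxY
      rw [BM_rd (pow_ne_zero _ hx.ne_zero) hu0 (Nat.Coprime.pow_left _ hxu), rd_prime_pow x e hx (Nat.one_le_iff_ne_zero.1 he)]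
      exact BM_up hY hxY (Nat.cast_nonneg _) hru (by linarith only)
    by_cases t1 : (p ^ i * q ^ j) ^ 2 < w.2.natAbs
    · left
      exact BM_comp hY hc hc1 (by rw [hnu, mul_assoc]) t1 hra (key hr hl cru r2)
    by_cases t2 : (p ^ i * r ^ l) ^ 2 < w.2.natAbs
    · left
      exact BM_comp hY hc hc1 (by rw [hnu, mul_right_comm (p ^ i), mul_assoc]) t2 hra (key hq hj cqu q2)
    by_cases t3 : (q ^ j * r ^ l) ^ 2 < w.2.natAbs
    · left
      exact BM_comp hY hc hc1 (by rw [hnu, mul_assoc (p ^ i), mul_comm (p ^ i), mul_assoc]) t3 hra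
        (key hp hi cpu p2)
    rw [not_lt] at t1 t2 t3
    by_cases t4 : ra w < Y ^ (1 / 4 - 6 * c)
    · left
      refine ⟨p ^ i * q ^ j, ⟨r ^ l * u, by rw [hnu, mul_assoc]⟩, t1, ?_⟩
      rw [BM_rd hpi0 hqj0 cpq, rd_prime_pow p i hp (Nat.one_le_iff_ne_zero.1 hi),
        rd_prime_pow q j hq (Nat.one_le_iff_ne_zero.1 hj)]
      have h5 : (p : ℝ) * (q : ℝ) ≤ Y ^ (1 / 2 + 2 * c) := BM_up hY p2 (Nat.cast_nonneg _) q2 (by linarith only)
      exact BM_up hY t4.le (mul_nonneg (Nat.cast_nonneg _) (Nat.cast_nonneg _)) h5 (by linarith only [hc])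
    · rw [not_lt] at t4
      right; right; right
      have e1 : Y ^ (1 / 4 - κ) ≤ Y ^ (1 / 4 - 3 * c) := BM_le hY (by linarith only [hc, hκ])
      have e2 : Y ^ (1 / 4 + c) ≤ Y ^ (1 / 4 + κ) := BM_le hY (by linarith only [hc, hκ])
      exact ⟨(BM_le hY (by linarith only [hc, hκ])).trans t4, hraκ, p, q, r, i, j, l, u, hp, hq, hr, hpq, hpr, hqr,
        hi, hj, hl, hu, hcop, hnu, e1.trans p1, p2.trans e2, e1.trans q1, q2.trans e2, e1.trans r1, r2.trans e2,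
        hru.trans (BM_le hY (by linarith only [hc, hκ])), t1, t2, t3⟩

open scoped Classical in
/-- ROW BM.  Unbalanced pairs.  Proof: `c = κ / 20`, `Z = ⌊Y ^ K⌋₊` (`Z ^ σ ≤ Y ^ (K σ) ≤ Y ^ (c / 10)` for `σ = c / (10 K)`); the case `Y = 1` is trivial (there are
boundedly many pairs: all radicals are `1`, or absorb in `C`; `Z = 1`).  Note `ra w ≤ Y / rb w ≤ Y ^ (1/4 + c)`.  Apply `unb_class Y c |w.2|` to each `w ∈ P`:
(1) `P1`: first alternative: `ra w * rd k ≤ Y / rd k' ≤ Y ^ (3/4 - c)`: `heavy_count`.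
(2) second alternative `|w.2| = p ^ i u`: (2a) `p ^ i < u`: `|w.2| ≤ u ^ 2`, `heavy_count` with `k = u`: `ra w * rd u ≤ Y ^ (1/2 + 2c)`.  (2b) `u ≤ p ^ i` and
`ra w * rd u ≤ Y ^ (1/2 - 6c)`: `long_count` with `X = Y ^ (1/2 - 6 c)`: `Y ^ (3/4 - 3c)`.  (2c) otherwise `ra w ≥ Y ^ (1/2 - 6c) / Y ^ (1/4 + c) = Y ^ (1/4 - 7c)`, same
for `rd u`, `p = rb w / rd u ≤ Y / (ra w rd u) ≤ Y ^ (1/2 + 6c)`, so `U1 Y κ w`.
(3) third alternative.  (3a) if one of the three heavy conditions of `U3` fails, say `|w.2| > (p ^ i q ^ j) ^ 2`, then `|w.2| ≤ (r ^ l u) ^ 2`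
(as `|w.2| = (p^i q^j) (r^l u)`): `heavy_count` with `k = r ^ l u`: `ra w * rd k ≤ Y ^ (1/4 + c + 1/4 + c + 4c)`.
(3b) all three hold and `ra w < Y ^ (1/4 - 6c)`: `heavy_count` with `k = p ^ i q ^ j`: `≤ Y ^ (1/4 - 6c + 1/2 + 2c) = Y ^ (3/4 - 4c)`.  (3c) otherwise `U3 Y κ w`. -/
theorem unbalanced_le (K κ : ℝ) (hK : 0 < K) (hκ : 0 < κ) (hκ1 : κ ≤ 1 / 20) :
    ∃ C δ : ℝ, 1 ≤ C ∧ 0 < δ ∧ ∀ (Y : ℝ) (P : Finset (ℤ × ℤ)), 1 ≤ Y →
    (∀ w ∈ P, PS ⌊Y ^ K⌋₊ w ∧ ra w * rb w ≤ Y ∧ Y ^ (3 / 4 - κ / 20) ≤ rb w) →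
    (P.card : ℝ) ≤ C * Y ^ (3 / 4 - δ) + ((P.filter (fun w => U1 Y κ w)).card : ℝ) +
      ((P.filter (fun w => U3 Y κ w)).card : ℝ) := by
  set c : ℝ := κ / 20 with hcdef
  have hc : 0 < c := by rw [hcdef]; positivity
  have hc1 : c ≤ 1 / 400 := by rw [hcdef]; linarith only [hκ1]
  have hκc : κ = 20 * c := by rw [hcdef]; ring
  have hσ : 0 < c / (10 * K) := by positivity
  obtain ⟨C1, hC1, H1⟩ := heavy_count (c / (10 * K)) hσ
  obtain ⟨C2, hC2, H2⟩ := long_count K (c / (10 * K)) hK hσ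
  refine ⟨C1 + C2 + 4, 9 * c / 10, by linarith only [hC1, hC2], by positivity, ?_⟩
  intro Y P hY1 hP
  have n1 : (0 : ℝ) ≤ ((P.filter (fun w => U1 Y κ w)).card : ℝ) := Nat.cast_nonneg _
  have n3 : (0 : ℝ) ≤ ((P.filter (fun w => U3 Y κ w)).card : ℝ) := Nat.cast_nonneg _
  rcases eq_or_lt_of_le hY1 with hY | hY
  · -- all pairs have entries of absolute value one
    have hsub : P ⊆ ({(1, 1), (1, -1), (-1, 1), (-1, -1)} : Finset (ℤ × ℤ)) := by
      intro w hw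
      obtain ⟨hps, -, -⟩ := hP w hw
      have hb1 := hps.b1
      have hb2 := hps.b2
      rw [← hY, Real.one_rpow, Nat.floor_one] at hb1 hb2
      have m1 := hps.n1
      have m2 := hps.n2
      obtain ⟨x, y⟩ := w
      dsimp only at hb1 hb2 m1 m2
      have hx : x = 1 ∨ x = -1 := by omega
      have hy : y = 1 ∨ y = -1 := by omega
      rcases hx with rfl | rfl <;> rcases hy with rfl | rfl <;> decide
    have hcard : P.card ≤ 4 := (Finset.card_le_card hsub).trans (by decide)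
    have hcard' : (P.card : ℝ) ≤ 4 := by exact_mod_cast hcard
    rw [← hY, Real.one_rpow, mul_one]
    rw [← hY] at n1 n3
    linarith only [hcard', n1, n3, hC1, hC2]
  · have h0 : 0 < Y := zero_lt_one.trans hY
    set Z : ℕ := ⌊Y ^ K⌋₊ with hZ
    have hYK : 1 ≤ Y ^ K := Real.one_le_rpow hY1 hK.le
    have hZ1 : 1 ≤ Z := Nat.le_floor (by exact_mod_cast hYK)
    have hZK : (Z : ℝ) ≤ Y ^ K := Nat.floor_le (zero_le_one.trans hYK)
    have hZσ : (Z : ℝ) ^ (c / (10 * K)) ≤ Y ^ (c / 10) := by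
      calc (Z : ℝ) ^ (c / (10 * K)) ≤ (Y ^ K) ^ (c / (10 * K)) :=
            Real.rpow_le_rpow (Nat.cast_nonneg _) hZK hσ.le
        _ = Y ^ (K * (c / (10 * K))) := (Real.rpow_mul h0.le _ _).symm
        _ = Y ^ (c / 10) := by
            congr 1
            field_simp
    set S1 := P.filter (fun w => BM_H Y c w) with hS1
    set S2 := P.filter (fun w => BM_L Y c w) with hS2
    have hcov : P ⊆ S1 ∪ (S2 ∪ (P.filter (fun w => U1 Y κ w) ∪ P.filter (fun w => U3 Y κ w))) := by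
      intro w hw
      obtain ⟨hps, h1, h2⟩ := hP w hw
      have hn : w.2.natAbs ≠ 0 := by
        rw [Int.natAbs_ne_zero]
        exact hps.n2
      rw [hS1, hS2]
      simp only [Finset.mem_union, Finset.mem_filter]
      rcases BM_class hY hc hc1 hκc hn h1 h2 with h | h | h | h
      · exact Or.inl ⟨hw, h⟩
      · exact Or.inr (Or.inl ⟨hw, h⟩)
      · exact Or.inr (Or.inr (Or.inl ⟨hw, h⟩))
      · exact Or.inr (Or.inr (Or.inr ⟨hw, h⟩))
    have hcard : P.card ≤ S1.card + (S2.card + ((P.filter (fun w => U1 Y κ w)).card +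
        (P.filter (fun w => U3 Y κ w)).card)) :=
      (Finset.card_le_card hcov).trans ((Finset.card_union_le _ _).trans (Nat.add_le_add_left
        ((Finset.card_union_le _ _).trans (Nat.add_le_add_left (Finset.card_union_le _ _) _)) _))
    have hcard' : (P.card : ℝ) ≤ S1.card + (S2.card + (((P.filter (fun w => U1 Y κ w)).card : ℝ) +
        ((P.filter (fun w => U3 Y κ w)).card : ℝ))) := by exact_mod_cast hcard
    have b1 : (S1.card : ℝ) ≤ C1 * Y ^ (3 / 4 - 9 * c / 10) := by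
      have h := H1 Z (Y ^ (3 / 4 - c)) S1 (fun w => if h : BM_H Y c w then h.choose else 0) hZ1
        (Real.rpow_nonneg h0.le _) (fun w hw => by
          rw [hS1, Finset.mem_filter] at hw
          have hs := hw.2.choose_spec
          simp only [dif_pos hw.2]
          exact ⟨(hP w hw.1).1, hs.1, hs.2.1, hs.2.2⟩)
      refine h.trans ?_
      rw [mul_assoc]
      refine mul_le_mul_of_nonneg_left ?_ (by linarith only [hC1])
      exact BM_up hY hZσ (Real.rpow_nonneg h0.le _) le_rfl (by linarith only)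
    have b2 : (S2.card : ℝ) ≤ C2 * Y ^ (3 / 4 - 9 * c / 10) := by
      have h := H2 Z Y (Y ^ (1 / 2 - 6 * c)) S2 hZ1 hY1 hZK (Real.one_le_rpow hY1 (by linarith only [hc1]))
        (fun w hw => by
          rw [hS2, Finset.mem_filter] at hw
          exact ⟨(hP w hw.1).1, (hP w hw.1).2.1, hw.2⟩)
      refine h.trans ?_
      rw [mul_assoc]
      refine mul_le_mul_of_nonneg_left ?_ (by linarith only [hC2])
      refine BM_up hY hZσ (by positivity) (b := 3 / 4 - 3 * c) ?_ (by linarith only [hc])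
      refine BM_up hY le_rfl (by positivity) (b := 1 / 4 - 3 * c) ?_ (by linarith only)
      rw [← Real.rpow_mul h0.le]
      exact BM_le hY (by linarith only)
    have b4 : 0 ≤ Y ^ (3 / 4 - 9 * c / 10) := Real.rpow_nonneg h0.le _
    have b5 : (C1 + C2 + 4) * Y ^ (3 / 4 - 9 * c / 10) = C1 * Y ^ (3 / 4 - 9 * c / 10) +
        C2 * Y ^ (3 / 4 - 9 * c / 10) + 4 * Y ^ (3 / 4 - 9 * c / 10) := by rw [add_mul, add_mul]
    rw [b5]
    linarith only [hcard', b1, b2, b4]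

end Hp

end Pool.Agent.Lib.MP_d8bd92_nt
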