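import Pool.Agent.Lib.MP_d8bd92_nt.Hp.Preds
import Pool.Agent.Lib.MP_d8bd92_nt.Hp.AlM

set_option autoImplicit false

/-! Two ties with one prime pair: the data of one fixed side `y`. -/

namespace Pool.Agent.Lib.MP_d8bd92_nt

namespace Hp

open Finset Pool.Agent.Lib.Szpiro

open scoped Classical in
/-- One fixed side `y = f^2 D` (a tie with odd exponents `m`), many `x` with `(x, y)` a pair, `x = sg w p^(l 0) q^(l 1)` (a tie), with a common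
dust label. All exponents are off by at most `τ`. -/
structure TieSide (K τ κ3 Y : ℝ) (l m : Fin (2 * 1) → ℕ) (D : ℤ) (f w ℓ : ℕ) (sg y : ℤ) (S : Finset ℤ)
    (p q : ℤ → ℕ) : Prop where
  hY : 1 ≤ Y
  hD : Squarefree D
  hD1 : D ≠ 1
  Dlo : Y ^ (1 / 2 - τ) ≤ ((|D| : ℤ) : ℝ)
  Dhi : ((|D| : ℤ) : ℝ) ≤ Y ^ (1 / 2 + τ)
  hf : 1 ≤ f
  hy : y = (f : ℤ) ^ 2 * D
  hyK : (y.natAbs : ℝ) ≤ Y ^ K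
  hℓ : ℓ.Prime
  ℓD : (ℓ : ℤ) ∣ D
  ℓf : ℓ ^ ((m 1 - 1) / 2) ∣ f
  ℓlo : Y ^ (1 / 4 - τ) ≤ (ℓ : ℝ)
  hsg : sg = 1 ∨ sg = -1
  hw : 1 ≤ w
  hwr : (rd w : ℝ) ≤ Y ^ τ
  card : Y ^ (1 / 4 - τ) ≤ (S.card : ℝ)
  cop : ∀ x ∈ S, IsCoprime x y
  sq : ∀ x ∈ S, ∃ g : ℤ, x + y = g ^ 2
  xK : ∀ x ∈ S, (x.natAbs : ℝ) ≤ Y ^ K
  nrm : ∀ x ∈ S, x = sg * ((w * p x ^ l 0 * q x ^ l 1 : ℕ) : ℤ)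
  pp : ∀ x ∈ S, (p x).Prime ∧ Odd (p x) ∧ Nat.Coprime w (p x) ∧ Y ^ (1 / 4 - τ) ≤ (p x : ℝ) ∧ (p x : ℝ) ≤ Y ^ (1 / 4 + τ)
  qq : ∀ x ∈ S, (q x).Prime ∧ Odd (q x) ∧ Nat.Coprime w (q x) ∧ Y ^ (1 / 4 - τ) ≤ (q x : ℝ) ∧ (q x : ℝ) ≤ Y ^ (1 / 4 + τ)
  pq : ∀ x ∈ S, p x ≠ q x
  multp : ∀ x ∈ S, ((S.filter (fun x' => p x' = p x)).card : ℝ) ≤ Y ^ τ
  multq : ∀ x ∈ S, ((S.filter (fun x' => q x' = q x)).card : ℝ) ≤ Y ^ τ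
  dy : ∀ x ∈ S, ∀ x' ∈ S, x.natAbs ≤ 2 * x'.natAbs
  lab : ∀ x ∈ S, ∀ x' ∈ S, lbl w (el D (x, y) f) = lbl w (el D (x', y) f)
  split : Y ^ (κ3 / 4) ≤
    (((Finset.Icc 3 ⌊Y ^ κ3⌋₊).filter (fun r => r.Prime ∧ jacobiSym D r = 1)).card : ℝ)

end Hp

end Pool.Agent.Lib.MP_d8bd92_nt
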