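import Pool.Agent.Lib.MP_d8bd92_nt.Hp.BS0

set_option autoImplicit false

/-! The squarefree part of a tie with odd exponents. -/

namespace Pool.Agent.Lib.MP_d8bd92_nt

namespace Hp

open Finset Pool.Agent.Lib.Szpiro

theorem BS1_sf_le_rd {D a : ℕ} (ha : a ≠ 0) (hD : Squarefree D) (h : D ∣ a) : D ≤ rd a := by
  have h1 : ∏ p ∈ D.primeFactors, p = D := Nat.prod_primeFactors_of_squarefree hD
  calc D = rd D := h1.symm
    _ ≤ rd a := rd_mono (Nat.primeFactors_mono h ha)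

/-- the prime `p` divides the squarefree part if its exponent is odd -/
theorem BS1_val {n f d p k w : ℕ} (hp : p.Prime) (hn0 : n ≠ 0) (hn : n = w * p ^ k) (hw : Nat.Coprime w p) (hk : Odd k)
    (hd : Squarefree d) (hfd : n = f ^ 2 * d) : p ∣ d ∧ p ^ ((k - 1) / 2) ∣ f := by
  have hf0 : f ≠ 0 := by rintro rfl; simp at hfd; exact hn0 hfd
  have hd0 : d ≠ 0 := hd.ne_zero
  have hw0 : w ≠ 0 := by rintro rfl; simp at hn; exact hn0 hn
  have e1 : n.factorization p = k := by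
    rw [hn, Nat.factorization_mul hw0 (pow_ne_zero _ hp.ne_zero), Finsupp.add_apply, Nat.factorization_pow,
      Finsupp.smul_apply, hp.factorization_self, Nat.factorization_eq_zero_of_not_dvd, smul_eq_mul]
    · ring
    · intro h
      have := Nat.Coprime.eq_one_of_dvd hw.symm h
      exact hp.one_lt.ne' this
  have e2 : n.factorization p = 2 * f.factorization p + d.factorization p := by
    rw [hfd, Nat.factorization_mul (pow_ne_zero _ hf0) hd0, Finsupp.add_apply, Nat.factorization_pow,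
      Finsupp.smul_apply, smul_eq_mul]
  have e3 : d.factorization p ≤ 1 := (Nat.squarefree_iff_factorization_le_one hd0).mp hd p
  obtain ⟨j, hj⟩ := hk
  have e4 : d.factorization p = 1 := by omega
  refine ⟨?_, ?_⟩
  · by_contra h
    rw [Nat.factorization_eq_zero_of_not_dvd h] at e4
    omega
  · rw [hp.pow_dvd_iff_le_factorization hf0]
    omega

/-- PROOF. `y = f^2 D`, `|y| = w' p^(m 0) q^(m 1)`, `w'` prime to `p q`. The exponent of `p` in `y` is the odd number `m 0`, and it is `2 v_p(f) + v_p(D)`, `v_p(D) ≤ 1` (squarefree):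
so `p ∣ D`; the same for `q`, and `v_q(f) = (m 1 - 1)/2`. `|D| = p q d` with `d ∣ w'`?: `d` is prime to `p q` (`D` squarefree) and divides `y`, so it divides `w'`, squarefree: `d ≤ rd w' ≤ Y^σ`. -/
theorem tie_odd_y (m : Fin (2 * 1) → ℕ) (hm0 : Odd (m 0)) (hm1 : Odd (m 1)) (σ Y : ℝ) (hσ : 0 ≤ σ) (hY : 1 ≤ Y) (y : ℤ)
    (hy0 : y ≠ 0) (hy : IsTie σ 1 m Y y) (D : ℤ) (f : ℕ) (hD : Squarefree D) (hf : 1 ≤ f) (hyf : y = (f : ℤ) ^ 2 * D) :
    ∃ (w' p' q' : ℕ), y.natAbs = w' * p' ^ m 0 * q' ^ m 1 ∧ 1 ≤ w' ∧ (rd w' : ℝ) ≤ Y ^ σ ∧ p'.Prime ∧ q'.Prime ∧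
      p' ∣ D.natAbs ∧ q' ∣ D.natAbs ∧ q' ^ ((m 1 - 1) / 2) ∣ f ∧
      Y ^ (1 / 4 - σ) ≤ (p' : ℝ) ∧ (p' : ℝ) ≤ Y ^ (1 / 4 + σ) ∧ Y ^ (1 / 4 - σ) ≤ (q' : ℝ) ∧ (q' : ℝ) ≤ Y ^ (1 / 4 + σ) ∧
      Y ^ (1 / 2 - 2 * σ) ≤ ((|D| : ℤ) : ℝ) ∧ ((|D| : ℤ) : ℝ) ≤ Y ^ (1 / 2 + 3 * σ) := by
  obtain ⟨w, pr, hx, hpr, hinj, hcop, hrw, hsz⟩ := hy
  have hY0 : 0 < Y := by linarith
  obtain ⟨p, hp⟩ : ∃ p, p = pr 0 := ⟨_, rfl⟩
  obtain ⟨q, hq⟩ : ∃ q, q = pr 1 := ⟨_, rfl⟩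
  have hpp : p.Prime := by rw [hp]; exact hpr 0
  have hqp : q.Prime := by rw [hq]; exact hpr 1
  have hpq : p ≠ q := by
    rw [hp, hq]
    intro h
    have := hinj h
    exact absurd this (by decide)
  have hx2 : y.natAbs = w * p ^ m 0 * q ^ m 1 := by
    rw [hx, hp, hq, mul_assoc]
    congr 1
    exact Fin.prod_univ_two _
  have hn0 : y.natAbs ≠ 0 := by simpa using hy0
  have hw0 : w ≠ 0 := by rintro rfl; simp at hx2; exact hy0 hx2
  have hwp : Nat.Coprime w p := by rw [hp]; exact hcop 0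
  have hwq : Nat.Coprime w q := by rw [hq]; exact hcop 1
  have hcpq : Nat.Coprime p q := (Nat.coprime_primes hpp hqp).mpr hpq
  have hD' : Squarefree D.natAbs := Int.squarefree_natAbs.mpr hD
  have hfd : y.natAbs = f ^ 2 * D.natAbs := by
    rw [hyf, Int.natAbs_mul, Int.natAbs_pow, Int.natAbs_natCast]
  obtain ⟨v1, _⟩ := BS1_val (w := w * q ^ m 1) hpp hn0 (by rw [hx2]; ring)
    (Nat.Coprime.mul_left hwp (Nat.Coprime.pow_left _ hcpq.symm)) hm0 hD' hfd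
  obtain ⟨v2, v3⟩ := BS1_val (w := w * p ^ m 0) hqp hn0 hx2
    (Nat.Coprime.mul_left hwq (Nat.Coprime.pow_left _ hcpq)) hm1 hD' hfd
  obtain ⟨d, hd⟩ : p * q ∣ D.natAbs := Nat.Coprime.mul_dvd_of_dvd_of_dvd hcpq v1 v2
  have hd0 : d ≠ 0 := by
    rintro rfl
    rw [mul_zero] at hd
    exact hD'.ne_zero hd
  have hsz0 := hsz 0
  have hsz1 := hsz 1
  rw [← hp] at hsz0
  rw [← hq] at hsz1
  have hone : (1 : ℝ) / (4 * ((1 : ℕ) : ℝ)) = 1 / 4 := by norm_num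
  rw [hone] at hsz0 hsz1
  have hDabs : ((|D| : ℤ) : ℝ) = (p : ℝ) * q * d := by
    rw [Int.abs_eq_natAbs, hd]
    push_cast
    ring
  have hdw : d ∣ w := by
    have h1 : d ∣ y.natAbs := by
      rw [hfd, hd]
      exact ⟨f ^ 2 * (p * q), by ring⟩
    have h2 : Nat.Coprime (p * q) d := Nat.coprime_of_squarefree_mul (by rw [← hd]; exact hD')
    have h3 : Nat.Coprime d p := (Nat.Coprime.coprime_mul_right h2).symm
    have h4 : Nat.Coprime d q := (Nat.Coprime.coprime_mul_left h2).symm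
    rw [hx2] at h1
    exact Nat.Coprime.dvd_of_dvd_mul_right (Nat.Coprime.pow_right _ h3)
      (Nat.Coprime.dvd_of_dvd_mul_right (Nat.Coprime.pow_right _ h4) h1)
  have hdsq : Squarefree d := by
    have : d ∣ D.natAbs := ⟨p * q, by rw [hd]; ring⟩
    exact hD'.squarefree_of_dvd this
  have hdr : (d : ℝ) ≤ Y ^ σ := le_trans (by exact_mod_cast BS1_sf_le_rd hw0 hdsq hdw) hrw
  have hd1 : (1 : ℝ) ≤ d := by exact_mod_cast Nat.one_le_iff_ne_zero.mpr hd0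
  refine ⟨w, p, q, hx2, Nat.one_le_iff_ne_zero.mpr hw0, hrw, hpp, hqp, v1, v2, v3, hsz0.1, hsz0.2, hsz1.1, hsz1.2, ?_, ?_⟩
  · rw [hDabs]
    have e : Y ^ (1 / 2 - 2 * σ) = Y ^ (1 / 4 - σ) * Y ^ (1 / 4 - σ) := by
      rw [← Real.rpow_add hY0]; congr 1; ring
    rw [e]
    have hA : 0 < Y ^ (1 / 4 - σ) := by positivity
    calc Y ^ (1 / 4 - σ) * Y ^ (1 / 4 - σ) ≤ (p : ℝ) * q := mul_le_mul hsz0.1 hsz1.1 hA.le (by positivity)
      _ ≤ (p : ℝ) * q * d := by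
        have : 0 ≤ (p : ℝ) * q := by positivity
        nlinarith
  · rw [hDabs]
    have e : Y ^ (1 / 2 + 3 * σ) = Y ^ (1 / 4 + σ) * Y ^ (1 / 4 + σ) * Y ^ σ := by
      rw [← Real.rpow_add hY0, ← Real.rpow_add hY0]; congr 1; ring
    rw [e]
    have hA : 0 < Y ^ (1 / 4 + σ) := by positivity
    exact mul_le_mul (mul_le_mul hsz0.2 hsz1.2 (by positivity) hA.le) hdr (by positivity) (by positivity)

end Hp

end Pool.Agent.Lib.MP_d8bd92_nt
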