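import Pool.Agent.Lib.MP_d8bd92_nt.Hp.SSPb

/-! Small split primes, part c: the second moment. -/

set_option autoImplicit false

namespace Pool.Agent.Lib.MP_d8bd92_nt

namespace Hp

theorem SSPc_abs (D : ℤ) (r : ℕ) : jacobiSym D r * jacobiSym D r ≤ 1 := by
  rcases jacobiSym.trichotomy D r with h | h | h <;> rw [h] <;> norm_num

theorem SSPc_inner (N : ℕ) (r : ℕ) :
    ∑ D ∈ Finset.Icc (-(N : ℤ)) N, jacobiSym D r * jacobiSym D r ≤ 2 * N + 1 := by
  calc ∑ D ∈ Finset.Icc (-(N : ℤ)) N, jacobiSym D r * jacobiSym D r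
      ≤ ∑ D ∈ Finset.Icc (-(N : ℤ)) N, (1 : ℤ) := Finset.sum_le_sum fun D _ => SSPc_abs D r
    _ = 2 * N + 1 := by
        simp only [Finset.sum_const, Int.card_Icc, nsmul_eq_mul, mul_one]
        omega

/-- PROOF. Expand the square: the terms with `r = r'` are at most `2 N + 1` each, the others at most `r r' ≤ Z ^ 2` by `ssp_char`. -/
theorem ssp_moment (Z N : ℕ) (P : Finset ℕ) (hP : ∀ r ∈ P, r.Prime ∧ 3 ≤ r ∧ r ≤ Z) :
    ∑ D ∈ Finset.Icc (-(N : ℤ)) N, (∑ r ∈ P, jacobiSym D r) ^ 2 ≤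
      (2 * N + 1) * P.card + (P.card : ℤ) ^ 2 * (Z : ℤ) ^ 2 := by
  have h1 : ∑ D ∈ Finset.Icc (-(N : ℤ)) N, (∑ r ∈ P, jacobiSym D r) ^ 2 =
      ∑ r ∈ P, ∑ r' ∈ P, ∑ D ∈ Finset.Icc (-(N : ℤ)) N, jacobiSym D r * jacobiSym D r' := by
    simp_rw [sq, Finset.sum_mul_sum]
    rw [Finset.sum_comm]
    refine Finset.sum_congr rfl fun r _ => ?_
    rw [Finset.sum_comm]
  rw [h1]
  have h2 : ∀ r ∈ P, ∑ r' ∈ P, ∑ D ∈ Finset.Icc (-(N : ℤ)) N, jacobiSym D r * jacobiSym D r' ≤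
      (2 * N + 1) + (P.card : ℤ) * (Z : ℤ) ^ 2 := by
    intro r hr
    have h3 : ∀ r' ∈ P, ∑ D ∈ Finset.Icc (-(N : ℤ)) N, jacobiSym D r * jacobiSym D r' ≤
        (if r = r' then (2 * N + 1 : ℤ) else 0) + (Z : ℤ) ^ 2 := by
      intro r' hr'
      by_cases h : r = r'
      · subst h
        rw [if_pos rfl]
        have := SSPc_inner N r
        have hz : (0 : ℤ) ≤ (Z : ℤ) ^ 2 := by positivity
        linarith
      · rw [if_neg h]
        have h4 := ssp_char (hP r hr).1 (hP r' hr').1 (hP r hr).2.1 (hP r' hr').2.1 h N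
        have h5 : (r : ℤ) * r' ≤ (Z : ℤ) ^ 2 := by
          rw [sq]
          have ha : (r : ℤ) ≤ Z := by exact_mod_cast (hP r hr).2.2
          have hb : (r' : ℤ) ≤ Z := by exact_mod_cast (hP r' hr').2.2
          exact mul_le_mul ha hb (by positivity) (by positivity)
        have h6 := le_abs_self (∑ D ∈ Finset.Icc (-(N : ℤ)) N, jacobiSym D r * jacobiSym D r')
        linarith
    refine (Finset.sum_le_sum h3).trans ?_
    rw [Finset.sum_add_distrib, Finset.sum_ite_eq, if_pos hr, Finset.sum_const, nsmul_eq_mul]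
  refine (Finset.sum_le_sum h2).trans ?_
  rw [Finset.sum_const, nsmul_eq_mul]
  apply le_of_eq
  ring

theorem SSPc_k (N : ℕ) (P : Finset ℕ) (hP : ∀ r ∈ P, r.Prime ∧ 3 ≤ r) (D : ℤ) (hD : D ≠ 0)
    (hDN : |D| ≤ N) : (P.filter (fun r => jacobiSym D r = 0)).card ≤ Nat.log 2 N := by
  have hdiv : ∀ r ∈ P.filter (fun r => jacobiSym D r = 0), r ∣ D.natAbs := by
    intro r hr
    rw [Finset.mem_filter] at hr
    have hrp := (hP r hr.1).1
    have h0 := (jacobiSym.eq_zero_iff.1 hr.2).2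
    rw [Int.gcd_def, Int.natAbs_natCast] at h0
    by_contra hnd
    exact h0 ((Nat.coprime_comm.1 ((Nat.Prime.coprime_iff_not_dvd hrp).2 hnd)))
  have hprod : ∏ r ∈ P.filter (fun r => jacobiSym D r = 0), r ∣ D.natAbs :=
    Finset.prod_primes_dvd _ (fun r hr => (hP r (Finset.mem_filter.1 hr).1).1.prime) hdiv
  have hDpos : 0 < D.natAbs := Int.natAbs_pos.2 hD
  have hle := Nat.le_of_dvd hDpos hprod
  have h2 : 2 ^ (P.filter (fun r => jacobiSym D r = 0)).card ≤ ∏ r ∈ P.filter (fun r => jacobiSym D r = 0), r := by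
    rw [← Finset.prod_const]
    exact Finset.prod_le_prod' fun r hr => by
      have := (hP r (Finset.mem_filter.1 hr).1).2
      omega
  have hN : D.natAbs ≤ N := by
    have : ((D.natAbs : ℕ) : ℤ) ≤ N := by rw [Int.natCast_natAbs]; exact hDN
    exact_mod_cast this
  exact Nat.le_log_of_pow_le (by norm_num) (h2.trans (hle.trans hN))

/-- PROOF. `jacobiSym D r` is `1`, `-1` or `0`; it is `0` iff `r ∣ D`, and the number `k` of such `r ∈ P` satisfies `2 ^ k ≤ |D| ≤ N`. With `a` the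
number of values `1`, `b` of values `-1`: `|P| = a + b + k`, `∑ = a - b`. -/
theorem ssp_point (N : ℕ) (P : Finset ℕ) (hP : ∀ r ∈ P, r.Prime ∧ 3 ≤ r) (D : ℤ) (hD : D ≠ 0)
    (hDN : |D| ≤ N) :
    (P.card : ℤ) ≤ 2 * ((P.filter (fun r => jacobiSym D r = 1)).card : ℤ) + (Nat.log 2 N : ℤ) +
      |∑ r ∈ P, jacobiSym D r| := by
  have hk := SSPc_k N P hP D hD hDN
  have h1 : ∀ r ∈ P, (1 : ℤ) ≤ 2 * (if jacobiSym D r = 1 then 1 else 0) + (if jacobiSym D r = 0 then 1 else 0) - jacobiSym D r := by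
    intro r _
    rcases jacobiSym.trichotomy D r with h | h | h <;> simp [h]
  have h2 := Finset.sum_le_sum h1
  rw [Finset.sum_sub_distrib, Finset.sum_add_distrib, ← Finset.mul_sum, Finset.sum_const, nsmul_eq_mul, mul_one] at h2
  simp only [Finset.sum_boole] at h2
  have h3 := neg_abs_le (∑ r ∈ P, jacobiSym D r)
  have hk' : ((P.filter (fun r => jacobiSym D r = 0)).card : ℤ) ≤ (Nat.log 2 N : ℤ) := by exact_mod_cast hk
  linarith

end Hp

end Pool.Agent.Lib.MP_d8bd92_nt
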