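import Pool.Agent.Lib.MP_d8bd92_nt.Hp.SSPa
import Pool.Agent.Lib.MP_d8bd92_nt.Hp.SSPc

/-! Small split primes. -/

set_option autoImplicit false

namespace Pool.Agent.Lib.MP_d8bd92_nt

namespace Hp

/-- most squarefree `D` have many small split primes. PROOF. Let `X` be large (for `X ≤ X0` use `𝒟 ⊆ Icc (-X) X`, so `|𝒟| ≤ 2 X0 + 1 ≤ C X ^ (1 - c)`),
`Z = ⌊X ^ κ⌋`, `P` the primes in `Icc 3 Z`, `N = ⌊X⌋`, `π = |P| ≥ Z ^ (3/4)` (`ssp_count`), `Z ≥ X ^ κ / 2`. By `ssp_point` every `D ∈ 𝒟` has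
`|∑ jacobiSym D r| ≥ π - 2 X ^ (κ/2) - Nat.log 2 N ≥ π / 2` for large `X`, because `Z ^ (3/4)` is much larger than `X ^ (κ/2)` and the logarithm.
`ssp_moment`: `|𝒟| (π / 2) ^ 2 ≤ (2 N + 1) π + π ^ 2 Z ^ 2`, so `|𝒟| ≤ 12 X / π + 4 Z ^ 2 ≤ C X ^ (1 - κ/2)` as `π ≥ X ^ (κ/2)` and
`Z ^ 2 ≤ X ^ (1/3)`. Take `c = κ / 2`. -/
theorem small_split_primes (κ : ℝ) (hκ : 0 < κ) (hκ1 : κ ≤ 1 / 6) : ∃ C c : ℝ, 0 < C ∧ 0 < c ∧ ∀ X : ℝ, 1 ≤ X → ∀ 𝒟 : Finset ℤ,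
    (∀ D ∈ 𝒟, ((|D| : ℤ) : ℝ) ≤ X ∧ Squarefree D ∧ D ≠ 1 ∧
      (((Finset.Icc 3 ⌊X ^ κ⌋₊).filter (fun r => r.Prime ∧ jacobiSym D r = 1)).card : ℝ) < X ^ (κ / 2)) →
    (𝒟.card : ℝ) ≤ C * X ^ (1 - c) := by
  classical
  obtain ⟨Z0, hZ0⟩ := ssp_count
  have hl2 : 0 < Real.log 2 := Real.log_pos (by norm_num)
  obtain ⟨A, hA⟩ : ∃ A : ℝ, A = 2 + 2 / (κ * Real.log 2) := ⟨_, rfl⟩
  have hA0 : 0 < A := by rw [hA]; positivity
  obtain ⟨M, hM⟩ : ∃ M : ℝ, M = 4 * A + 2 + Z0 := ⟨_, rfl⟩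
  have hM0 : 0 < M := by rw [hM]; positivity
  refine ⟨28 + 3 * M ^ 2, κ / 2, by positivity, by positivity, fun X hX 𝒟 h𝒟 => ?_⟩
  have hX0 : 0 < X := lt_of_lt_of_le one_pos hX
  obtain ⟨y, hy⟩ : ∃ y : ℝ, y = X ^ (κ / 4) := ⟨_, rfl⟩
  have hy1 : 1 ≤ y := by
    rw [hy]
    exact Real.one_le_rpow hX (by positivity)
  have hy0 : 0 < y := lt_of_lt_of_le one_pos hy1
  have e2 : X ^ (κ / 2) = y ^ 2 := by
    rw [hy, ← Real.rpow_natCast, ← Real.rpow_mul hX0.le]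
    congr 1
    push_cast
    ring
  have e4 : X ^ κ = y ^ 4 := by
    rw [hy, ← Real.rpow_natCast, ← Real.rpow_mul hX0.le]
    congr 1
    push_cast
    ring
  obtain ⟨W, hW⟩ : ∃ W : ℝ, W = X ^ (1 - κ / 2) := ⟨_, rfl⟩
  have hW0 : 0 < W := by
    rw [hW]
    positivity
  have eW : W * y ^ 2 = X := by
    rw [hW, ← e2, ← Real.rpow_add hX0]
    have : (1 - κ / 2 + κ / 2) = (1 : ℝ) := by ring
    rw [this, Real.rpow_one]
  rw [← hW]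
  obtain ⟨N, hN⟩ : ∃ N : ℕ, N = ⌊X⌋₊ := ⟨_, rfl⟩
  have hNX : (N : ℝ) ≤ X := by
    rw [hN]
    exact Nat.floor_le hX0.le
  have hN1 : 1 ≤ N := by
    rw [hN]
    exact Nat.le_floor (by exact_mod_cast hX)
  have habs : ∀ D ∈ 𝒟, |D| ≤ (N : ℤ) := by
    intro D hD
    have h1 : ((D.natAbs : ℕ) : ℝ) ≤ X := by
      rw [Nat.cast_natAbs]
      exact (h𝒟 D hD).1
    have h2 : D.natAbs ≤ N := by
      rw [hN]
      exact Nat.le_floor h1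
    rw [Int.abs_eq_natAbs]
    exact_mod_cast h2
  have hsub : 𝒟 ⊆ Finset.Icc (-(N : ℤ)) N := by
    intro D hD
    rw [Finset.mem_Icc]
    exact abs_le.1 (habs D hD)
  have htriv : (𝒟.card : ℝ) ≤ 3 * X := by
    have h1 := Finset.card_le_card hsub
    rw [Int.card_Icc] at h1
    have h2 : ((N : ℤ) + 1 - -(N : ℤ)).toNat = 2 * N + 1 := by omega
    rw [h2] at h1
    have h3 : (𝒟.card : ℝ) ≤ 2 * N + 1 := by exact_mod_cast h1
    linarith only [h3, hNX, hX]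
  rcases lt_or_ge y M with hyM | hyM
  · have h1 : X ≤ M ^ 2 * W := by
      rw [← eW, mul_comm]
      exact mul_le_mul_of_nonneg_right (pow_le_pow_left₀ hy0.le hyM.le 2) hW0.le
    have h2 : (28 + 3 * M ^ 2) * W = 28 * W + 3 * (M ^ 2 * W) := by ring
    rw [h2]
    linarith only [h1, htriv, hW0]
  -- the main case
  obtain ⟨Z, hZ⟩ : ∃ Z : ℕ, Z = ⌊X ^ κ⌋₊ := ⟨_, rfl⟩
  have hy4 : y ≤ y ^ 4 := by
    have h1 : y ^ 1 ≤ y ^ 4 := pow_le_pow_right₀ hy1 (by norm_num)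
    simpa using h1
  have hZ1 : (Z : ℝ) ≤ y ^ 4 := by
    rw [hZ, ← e4]
    exact Nat.floor_le (by positivity)
  have hZ2 : y ^ 4 / 2 ≤ (Z : ℝ) := by
    have h1 : y ^ 4 < (Z : ℝ) + 1 := by
      rw [hZ, ← e4]
      exact Nat.lt_floor_add_one _
    have h2 : 2 ≤ y ^ 4 := by
      have h3 : (0 : ℝ) ≤ Z0 := Nat.cast_nonneg _
      linarith only [h3, hy4, hyM, hM, hA0]
    linarith only [h1, h2]
  have hZ3 : Z0 ≤ Z := by
    rw [hZ]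
    refine Nat.le_floor ?_
    rw [e4]
    linarith only [hy4, hyM, hM, hA0]
  obtain ⟨P, hP⟩ : ∃ P : Finset ℕ, P = (Finset.Icc 3 Z).filter Nat.Prime := ⟨_, rfl⟩
  have hPmem : ∀ r ∈ P, r.Prime ∧ 3 ≤ r ∧ r ≤ Z := by
    intro r hr
    rw [hP, Finset.mem_filter, Finset.mem_Icc] at hr
    exact ⟨hr.2, hr.1.1, hr.1.2⟩
  have hπ : y ^ 3 / 2 ≤ (P.card : ℝ) := by
    rw [hP]
    refine le_trans ?_ (hZ0 Z hZ3)
    have h1 : (y ^ 4 / 2 : ℝ) ^ (3 / 4 : ℝ) ≤ (Z : ℝ) ^ (3 / 4 : ℝ) :=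
      Real.rpow_le_rpow (by positivity) hZ2 (by norm_num)
    refine le_trans ?_ h1
    have h2 : (y ^ 4 : ℝ) ^ (3 / 4 : ℝ) = y ^ 3 := by
      rw [← Real.rpow_natCast, ← Real.rpow_natCast, ← Real.rpow_mul hy0.le]
      congr 1
      norm_num
    have h3 : (1 / 2 : ℝ) ≤ (1 / 2 : ℝ) ^ (3 / 4 : ℝ) := by
      have h4 := Real.rpow_le_rpow_of_exponent_ge (x := (1 / 2 : ℝ)) (by norm_num) (by norm_num)
        (show (3 / 4 : ℝ) ≤ 1 by norm_num)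
      rwa [Real.rpow_one] at h4
    have h5 : (y ^ 4 / 2 : ℝ) = y ^ 4 * (1 / 2) := by ring
    rw [h5, Real.mul_rpow (by positivity) (by norm_num), h2]
    have h6 : 0 < y ^ 3 := by positivity
    have h7 := mul_le_mul_of_nonneg_left h3 h6.le
    linarith only [h7]
  obtain ⟨π, hπd⟩ : ∃ π : ℝ, π = (P.card : ℝ) := ⟨_, rfl⟩
  rw [← hπd] at hπ
  have hπy : A * y ^ 2 ≤ π / 2 := by
    have h1 : y ^ 3 = y * y ^ 2 := by ring
    have h2 : 0 < y ^ 2 := by positivity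
    have h3 : 4 * A ≤ y := by
      have h4 : (0 : ℝ) ≤ Z0 := Nat.cast_nonneg _
      linarith only [h4, hyM, hM]
    have h5 : 4 * A * y ^ 2 ≤ y * y ^ 2 := mul_le_mul_of_nonneg_right h3 h2.le
    linarith only [h1, h5, hπ]
  have hπ0 : 0 < π := by
    have h1 : 0 < y ^ 3 := by positivity
    linarith only [h1, hπ]
  have hlog : (Nat.log 2 N : ℝ) ≤ 2 / (κ * Real.log 2) * y ^ 2 := by
    have h1 : (Nat.log 2 N : ℝ) ≤ Real.logb (2 : ℕ) N := Real.natLog_le_logb N 2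
    have h2 : Real.log N ≤ Real.log X := Real.log_le_log (by exact_mod_cast hN1) hNX
    have h3 : Real.log X ≤ X ^ (κ / 2) / (κ / 2) := Real.log_le_rpow_div hX0.le (by positivity)
    rw [e2] at h3
    refine h1.trans ?_
    rw [Real.logb, Nat.cast_ofNat, div_le_iff₀ hl2]
    refine (h2.trans h3).trans (le_of_eq ?_)
    field_simp
  have hpt : ∀ D ∈ 𝒟, (π / 2) ^ 2 ≤ ((∑ r ∈ P, jacobiSym D r : ℤ) : ℝ) ^ 2 := by
    intro D hD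
    obtain ⟨-, hsf, -, hcard⟩ := h𝒟 D hD
    have h1 := ssp_point N P (fun r hr => ⟨(hPmem r hr).1, (hPmem r hr).2.1⟩) D hsf.ne_zero
      (habs D hD)
    have h2 : P.filter (fun r => jacobiSym D r = 1) =
        (Finset.Icc 3 ⌊X ^ κ⌋₊).filter (fun r => r.Prime ∧ jacobiSym D r = 1) := by
      rw [hP, hZ, Finset.filter_filter]
    rw [h2] at h1
    have h3 : (P.card : ℝ) ≤ 2 * (((Finset.Icc 3 ⌊X ^ κ⌋₊).filter
        (fun r => r.Prime ∧ jacobiSym D r = 1)).card : ℝ) + (Nat.log 2 N : ℝ) +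
        |((∑ r ∈ P, jacobiSym D r : ℤ) : ℝ)| := by
      have h4 := (Int.cast_le (R := ℝ)).2 h1
      push_cast at h4 ⊢
      exact h4
    rw [← hπd] at h3
    rw [e2] at hcard
    have h5 : π / 2 ≤ |((∑ r ∈ P, jacobiSym D r : ℤ) : ℝ)| := by
      have h6 : A * y ^ 2 = 2 * y ^ 2 + 2 / (κ * Real.log 2) * y ^ 2 := by
        rw [hA]
        ring
      linarith only [h6, h3, hcard, hπy, hlog]
    rw [← sq_abs ((∑ r ∈ P, jacobiSym D r : ℤ) : ℝ)]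
    exact pow_le_pow_left₀ (by positivity) h5 2
  have hmom : (𝒟.card : ℝ) * (π / 2) ^ 2 ≤ (2 * N + 1) * π + π ^ 2 * (Z : ℝ) ^ 2 := by
    have h1 := ssp_moment Z N P hPmem
    have h2 : ((∑ D ∈ Finset.Icc (-(N : ℤ)) N, (∑ r ∈ P, jacobiSym D r) ^ 2 : ℤ) : ℝ) ≤
        (2 * N + 1) * π + π ^ 2 * (Z : ℝ) ^ 2 := by
      have h3 := (Int.cast_le (R := ℝ)).2 h1
      rw [hπd]
      push_cast at h3 ⊢
      exact h3
    refine le_trans ?_ h2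
    rw [Int.cast_sum]
    have h4 : ∑ D ∈ 𝒟, (((∑ r ∈ P, jacobiSym D r) ^ 2 : ℤ) : ℝ) ≤
        ∑ D ∈ Finset.Icc (-(N : ℤ)) N, (((∑ r ∈ P, jacobiSym D r) ^ 2 : ℤ) : ℝ) :=
      Finset.sum_le_sum_of_subset_of_nonneg hsub fun D _ _ => by positivity
    refine le_trans ?_ h4
    rw [← nsmul_eq_mul]
    refine Finset.card_nsmul_le_sum _ _ _ fun D hD => ?_
    have h5 := hpt D hD
    push_cast at h5 ⊢
    exact h5
  have hNle : (2 * (N : ℝ) + 1) ≤ 3 * X := by linarith only [hNX, hX]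
  have hZsq : (Z : ℝ) ^ 2 ≤ W := by
    have h1 : (Z : ℝ) ^ 2 ≤ (X ^ κ) ^ 2 := by
      rw [e4]
      exact pow_le_pow_left₀ (Nat.cast_nonneg _) hZ1 2
    refine h1.trans ?_
    rw [hW, ← Real.rpow_natCast, ← Real.rpow_mul hX0.le]
    refine Real.rpow_le_rpow_of_exponent_le hX ?_
    push_cast
    linarith only [hκ1]
  have hfin : (𝒟.card : ℝ) * π ≤ 12 * X + 4 * (Z : ℝ) ^ 2 * π := by
    have h1 : (𝒟.card : ℝ) * (π / 2) ^ 2 ≤ 3 * X * π + π ^ 2 * (Z : ℝ) ^ 2 :=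
      hmom.trans (add_le_add (mul_le_mul_of_nonneg_right hNle hπ0.le) le_rfl)
    have h2 : π * ((𝒟.card : ℝ) * π) ≤ π * (12 * X + 4 * (Z : ℝ) ^ 2 * π) := by
      have h3 : π * ((𝒟.card : ℝ) * π) = 4 * ((𝒟.card : ℝ) * (π / 2) ^ 2) := by ring
      have h4 : π * (12 * X + 4 * (Z : ℝ) ^ 2 * π) = 4 * (3 * X * π + π ^ 2 * (Z : ℝ) ^ 2) := by ring
      rw [h3, h4]
      exact mul_le_mul_of_nonneg_left h1 (by norm_num)
    exact le_of_mul_le_mul_left h2 hπ0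
  have hXπ : X ≤ 2 * W * π := by
    have h1 : y ^ 2 ≤ y ^ 3 := pow_le_pow_right₀ hy1 (by norm_num)
    have h2 : y ^ 2 ≤ 2 * π := by linarith only [h1, hπ]
    calc X = W * y ^ 2 := eW.symm
      _ ≤ W * (2 * π) := mul_le_mul_of_nonneg_left h2 hW0.le
      _ = 2 * W * π := by ring
  have hcard : (𝒟.card : ℝ) * π ≤ 28 * W * π := by
    have h1 : 4 * (Z : ℝ) ^ 2 * π ≤ 4 * W * π := by
      have := mul_le_mul_of_nonneg_right hZsq hπ0.le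
      linarith only [this]
    linarith only [h1, hfin, hXπ]
  have hlast : (𝒟.card : ℝ) ≤ 28 * W := le_of_mul_le_mul_right hcard hπ0
  have h9 : 0 ≤ 3 * M ^ 2 * W := by positivity
  linarith only [h9, hlast]

end Hp

end Pool.Agent.Lib.MP_d8bd92_nt
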