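import Pool.Agent.Lib.MP_d8bd92_nt.Hp.BS1
import Pool.Agent.Lib.MP_d8bd92_nt.Hp.AlJ
import Pool.Agent.Lib.MP_d8bd92_nt.Hp.SSP

set_option autoImplicit false

/-! Fixed sides with few small split primes. -/

namespace Pool.Agent.Lib.MP_d8bd92_nt

namespace Hp

open Finset Pool.Agent.Lib.Szpiro

/-- the number of fixed sides with a given squarefree part. PROOF. `tie_odd_y`: `p'`, `q'` are divisors of `|D|` (`|D| ≤ |y| ≤ Y^K`: at most `C Y^ε` choices each,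
`card_divisors_le`), `w' ≤ Y^K` with `rd w' ≤ Y^σ`: at most `C Y^(ε+σ)` choices (`card_rad_le` with `Z = Y^K`), two signs: `y` is determined by `(sign, w', p', q')`. -/
theorem count_y_of_D (K : ℝ) (hK : 2 ≤ K) (m : Fin (2 * 1) → ℕ) (hm0 : Odd (m 0)) (hm1 : Odd (m 1)) (ε : ℝ) (hε : 0 < ε) :
    ∃ C : ℝ, 0 < C ∧ ∀ (σ Y : ℝ), 0 < σ → 1 ≤ Y → ∀ (D : ℤ), Squarefree D → ∀ T : Finset ℤ,
      (∀ y ∈ T, y ≠ 0 ∧ (y.natAbs : ℝ) ≤ Y ^ K ∧ IsTie σ 1 m Y y ∧ ∃ f : ℕ, 1 ≤ f ∧ y = (f : ℤ) ^ 2 * D) →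
      (T.card : ℝ) ≤ C * Y ^ (σ + ε) := by
  have hK0 : 0 < K := by linarith
  have he' : 0 < ε / (3 * K) := by positivity
  obtain ⟨C1, hC1, hdiv⟩ := card_divisors_le (ε / (3 * K)) he'
  obtain ⟨C2, hC2, hrad⟩ := card_rad_le (ε / (3 * K)) he'
  refine ⟨2 * C2 * C1 ^ 2, by positivity, ?_⟩
  intro σ Y hσ hY D hD T hT
  have hY0 : 0 < Y := by linarith
  rcases T.eq_empty_or_nonempty with hE | hne
  · rw [hE]
    simp only [Finset.card_empty, Nat.cast_zero]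
    positivity
  -- the choice of the data
  have hch : ∀ y : ℤ, ∃ z : ℕ × ℕ × ℕ, y ∈ T → y.natAbs = z.1 * z.2.1 ^ m 0 * z.2.2 ^ m 1 ∧ 1 ≤ z.1 ∧
      (rd z.1 : ℝ) ≤ Y ^ σ ∧ z.2.1 ∣ D.natAbs ∧ z.2.2 ∣ D.natAbs := by
    intro y
    by_cases hy : y ∈ T
    · obtain ⟨h0, -, htie, f, hf, hyf⟩ := hT y hy
      obtain ⟨w', p', q', h1, h2, h3, -, -, h4, h5, -⟩ :=
        tie_odd_y m hm0 hm1 σ Y hσ.le hY y h0 htie D f hD hf hyf
      exact ⟨(w', p', q'), fun _ => ⟨h1, h2, h3, h4, h5⟩⟩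
    · exact ⟨(0, 0, 0), fun h => absurd h hy⟩
  choose z hz using hch
  -- the size of `D`
  have hD0 : D ≠ 0 := hD.ne_zero
  have hDn : 1 ≤ D.natAbs := Nat.one_le_iff_ne_zero.mpr (Int.natAbs_ne_zero.mpr hD0)
  have hDK : (D.natAbs : ℝ) ≤ Y ^ K := by
    obtain ⟨y, hy⟩ := hne
    obtain ⟨h0, hyK, -, f, hf, hyf⟩ := hT y hy
    refine le_trans ?_ hyK
    have h1 : D.natAbs ∣ y.natAbs := by
      rw [Int.natAbs_dvd_natAbs, hyf]
      exact Dvd.intro_left _ rfl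
    exact_mod_cast Nat.le_of_dvd (Nat.pos_of_ne_zero (Int.natAbs_ne_zero.mpr h0)) h1
  have hdv := hdiv (Y ^ K) D.natAbs hDn hDK
  have hZ1 : 1 ≤ Y ^ K := Real.one_le_rpow hY hK0.le
  have hX1 : 1 ≤ Y ^ σ := Real.one_le_rpow hY hσ.le
  have hW := hrad (Y ^ K) (Y ^ σ) (T.image fun y => (z y).1) hZ1 hX1 (by
    intro n hn
    obtain ⟨y, hy, rfl⟩ := Finset.mem_image.mp hn
    obtain ⟨h1, h2, h3, -, -⟩ := hz y hy
    obtain ⟨h0, hyK, -⟩ := hT y hy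
    refine ⟨h2, le_trans ?_ hyK, h3⟩
    have h4 : (z y).1 ∣ y.natAbs := by
      rw [h1, mul_assoc]
      exact Dvd.intro _ rfl
    exact_mod_cast Nat.le_of_dvd (Nat.pos_of_ne_zero (Int.natAbs_ne_zero.mpr h0)) h4)
  have hpow : (Y ^ K) ^ (ε / (3 * K)) = Y ^ (ε / 3) := by
    rw [← Real.rpow_mul hY0.le]
    congr 1
    field_simp
  rw [hpow] at hdv hW
  -- the injection
  have hcard : T.card ≤ (({1, -1} : Finset ℤ) ×ˢ ((T.image fun y => (z y).1) ×ˢ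
      (D.natAbs.divisors ×ˢ D.natAbs.divisors))).card := by
    apply Finset.card_le_card_of_injOn (fun y => (y.sign, (z y).1, (z y).2.1, (z y).2.2))
    · intro y hy
      have hy' : y ∈ T := hy
      obtain ⟨h1, h2, h3, h4, h5⟩ := hz y hy'
      obtain ⟨h0, -⟩ := hT y hy'
      simp only [Finset.coe_product, Set.mem_prod, Finset.mem_coe]
      refine ⟨?_, Finset.mem_image_of_mem _ hy', Nat.mem_divisors.mpr ⟨h4, by omega⟩,
        Nat.mem_divisors.mpr ⟨h5, by omega⟩⟩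
      rcases lt_or_gt_of_ne h0 with h | h
      · rw [Int.sign_eq_neg_one_of_neg h]; simp
      · rw [Int.sign_eq_one_of_pos h]; simp
    · intro y hy y' hy' h
      simp only [Prod.mk.injEq] at h
      obtain ⟨hs, ha, hb, hc⟩ := h
      obtain ⟨h1, -⟩ := hz y hy
      obtain ⟨h1', -⟩ := hz y' hy'
      rw [← Int.sign_mul_natAbs y, ← Int.sign_mul_natAbs y', h1, h1', hs, ha, hb, hc]
  rw [Finset.card_product, Finset.card_product, Finset.card_product] at hcard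
  have h2 : (({1, -1} : Finset ℤ)).card = 2 := by decide
  rw [h2] at hcard
  have hcardR : (T.card : ℝ) ≤ 2 * (((T.image fun y => (z y).1).card : ℝ) *
      ((D.natAbs.divisors.card : ℝ) * (D.natAbs.divisors.card : ℝ))) := by exact_mod_cast hcard
  refine hcardR.trans ?_
  have hYe : 0 < Y ^ (ε / 3) := Real.rpow_pos_of_pos hY0 _
  have hYs : 0 < Y ^ σ := Real.rpow_pos_of_pos hY0 _
  have hfin : Y ^ (σ + ε) = Y ^ σ * (Y ^ (ε / 3) * (Y ^ (ε / 3) * Y ^ (ε / 3))) := by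
    rw [← Real.rpow_add hY0, ← Real.rpow_add hY0, ← Real.rpow_add hY0]
    congr 1
    ring
  calc 2 * (((T.image fun y => (z y).1).card : ℝ) *
        ((D.natAbs.divisors.card : ℝ) * (D.natAbs.divisors.card : ℝ)))
      ≤ 2 * ((C2 * Y ^ (ε / 3) * Y ^ σ) * ((C1 * Y ^ (ε / 3)) * (C1 * Y ^ (ε / 3)))) := by
        gcongr
    _ = 2 * C2 * C1 ^ 2 * Y ^ (σ + ε) := by
        rw [hfin]
        ring

/-- PROOF. `small_split_primes κ3` gives `C`, `cs`; we can assume `cs ≤ 1` (replace it by the minimum). Take `c = min (cs / 40) (1 / 100)`; `X = Y ^ (1/2 + 4σ)`. For every `y ∈ T` choose `D` (`exists_sqfree`), `D ≠ 1` as `y` is not a square;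
`|D| ≤ Y^(1/2 + 3σ) ≤ X` by `tie_odd_y`. The image of `T` under `y ↦ D` has at most `C X^(1 - cs)` elements, and the fibres have at most `C' Y^(σ + ε)` elements (`count_y_of_D` with `ε = c`):
`(1/2 + 4σ)(1 - cs) + σ + c ≤ 1/2 - cs/2 + 5σ + c ≤ 1/2 - c` as `σ ≤ c`. -/
theorem bad_sides (K : ℝ) (hK : 2 ≤ K) (m : Fin (2 * 1) → ℕ) (hm0 : Odd (m 0)) (hm1 : Odd (m 1)) (κ3 : ℝ) (h3 : 0 < κ3)
    (h3' : κ3 ≤ 1 / 6) : ∃ c : ℝ, 0 < c ∧ c ≤ 1 / 100 ∧ ∀ σ : ℝ, 0 < σ → σ ≤ c → ∃ C : ℝ, 0 < C ∧ ∀ Y : ℝ, 1 ≤ Y →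
      ∀ T : Finset ℤ, (∀ y ∈ T, y ≠ 0 ∧ (y.natAbs : ℝ) ≤ Y ^ K ∧ IsTie σ 1 m Y y ∧ ¬ IsSquare y ∧
        ∀ (D : ℤ) (f : ℕ), Squarefree D → 1 ≤ f → y = (f : ℤ) ^ 2 * D →
          (((Finset.Icc 3 ⌊(Y ^ (1 / 2 + 4 * σ)) ^ κ3⌋₊).filter (fun r => r.Prime ∧ jacobiSym D r = 1)).card : ℝ) <
            (Y ^ (1 / 2 + 4 * σ)) ^ (κ3 / 2)) → (T.card : ℝ) ≤ C * Y ^ (1 / 2 - c) := by
  classical
  obtain ⟨C1, cs, hC1, hcs, hS⟩ := small_split_primes κ3 h3 h3'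
  obtain ⟨c1, hc1⟩ : ∃ c1 : ℝ, c1 = min cs 1 := ⟨_, rfl⟩
  have hc1p : 0 < c1 := by rw [hc1]; exact lt_min hcs one_pos
  have hc1cs : c1 ≤ cs := by rw [hc1]; exact min_le_left _ _
  have hc1one : c1 ≤ 1 := by rw [hc1]; exact min_le_right _ _
  obtain ⟨c, hc⟩ : ∃ c : ℝ, c = min (c1 / 40) (1 / 100) := ⟨_, rfl⟩
  have hcp : 0 < c := by rw [hc]; exact lt_min (by positivity) (by norm_num)
  have hcc1 : c ≤ c1 / 40 := by rw [hc]; exact min_le_left _ _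
  have hc100 : c ≤ 1 / 100 := by rw [hc]; exact min_le_right _ _
  obtain ⟨C2, hC2, hcnt⟩ := count_y_of_D K hK m hm0 hm1 c hcp
  refine ⟨c, hcp, hc100, fun σ hσ hσc => ⟨C1 * C2, by positivity, fun Y hY T hT => ?_⟩⟩
  have hY0 : 0 < Y := by linarith
  obtain ⟨X, hX⟩ : ∃ X : ℝ, X = Y ^ (1 / 2 + 4 * σ) := ⟨_, rfl⟩
  have hX1 : 1 ≤ X := by rw [hX]; exact Real.one_le_rpow hY (by linarith)
  have hch : ∀ y : ℤ, ∃ D : ℤ, y ≠ 0 → Squarefree D ∧ ∃ f : ℕ, 1 ≤ f ∧ y = (f : ℤ) ^ 2 * D := by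
    intro y
    by_cases hy : y = 0
    · exact ⟨0, fun h => absurd hy h⟩
    · obtain ⟨D, f, h1, h2, h4⟩ := exists_sqfree y hy
      exact ⟨D, fun _ => ⟨h1, f, h2, h4⟩⟩
  choose Dm hDm using hch
  have himg : ((T.image Dm).card : ℝ) ≤ C1 * X ^ (1 - cs) := by
    apply hS X hX1
    intro D hD
    obtain ⟨y, hyT, rfl⟩ := Finset.mem_image.1 hD
    obtain ⟨hy0, hyK, htie, hsq, hfew⟩ := hT y hyT
    obtain ⟨hsf, f, hf, hyf⟩ := hDm y hy0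
    obtain ⟨w', p', q', -, -, -, -, -, -, -, -, -, -, -, -, -, hup⟩ :=
      tie_odd_y m hm0 hm1 σ Y hσ.le hY y hy0 htie (Dm y) f hsf hf hyf
    refine ⟨?_, hsf, ?_, ?_⟩
    · rw [hX]
      exact hup.trans (Real.rpow_le_rpow_of_exponent_le hY (by linarith))
    · intro h1
      apply hsq
      refine ⟨(f : ℤ), ?_⟩
      rw [hyf, h1]
      ring
    · rw [hX]
      exact hfew (Dm y) f hsf hf hyf
  have hfib : ∀ D ∈ T.image Dm, ((T.filter (fun y => Dm y = D)).card : ℝ) ≤ C2 * Y ^ (σ + c) := by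
    intro D hD
    obtain ⟨y, hyT, hyD⟩ := Finset.mem_image.1 hD
    have hsf : Squarefree D := by
      rw [← hyD]
      exact (hDm y (hT y hyT).1).1
    apply hcnt σ Y hσ hY D hsf
    intro z hz
    obtain ⟨hzT, hzD⟩ := Finset.mem_filter.1 hz
    obtain ⟨hz0, hzK, hztie, -, -⟩ := hT z hzT
    obtain ⟨-, f, hf, hzf⟩ := hDm z hz0
    exact ⟨hz0, hzK, hztie, f, hf, by rw [← hzD]; exact hzf⟩
  have hsum : (T.card : ℝ) ≤ ((T.image Dm).card : ℝ) * (C2 * Y ^ (σ + c)) := by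
    rw [Finset.card_eq_sum_card_image Dm T]
    push_cast
    calc ∑ b ∈ T.image Dm, ((T.filter (fun y => Dm y = b)).card : ℝ)
        ≤ ∑ _b ∈ T.image Dm, C2 * Y ^ (σ + c) := Finset.sum_le_sum hfib
      _ = ((T.image Dm).card : ℝ) * (C2 * Y ^ (σ + c)) := by
          rw [Finset.sum_const, nsmul_eq_mul]
  have hXle : X ^ (1 - cs) ≤ Y ^ ((1 / 2 + 4 * σ) * (1 - c1)) := by
    rw [Real.rpow_mul hY0.le, ← hX]
    exact Real.rpow_le_rpow_of_exponent_le hX1 (by linarith)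
  have hC2Y : 0 ≤ C2 * Y ^ (σ + c) := by positivity
  calc (T.card : ℝ) ≤ ((T.image Dm).card : ℝ) * (C2 * Y ^ (σ + c)) := hsum
    _ ≤ (C1 * X ^ (1 - cs)) * (C2 * Y ^ (σ + c)) := mul_le_mul_of_nonneg_right himg hC2Y
    _ ≤ (C1 * Y ^ ((1 / 2 + 4 * σ) * (1 - c1))) * (C2 * Y ^ (σ + c)) :=
        mul_le_mul_of_nonneg_right (mul_le_mul_of_nonneg_left hXle hC1.le) hC2Y
    _ = C1 * C2 * Y ^ ((1 / 2 + 4 * σ) * (1 - c1) + (σ + c)) := by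
        rw [Real.rpow_add hY0 ((1 / 2 + 4 * σ) * (1 - c1)) (σ + c)]; ring
    _ ≤ C1 * C2 * Y ^ (1 / 2 - c) := by
        apply mul_le_mul_of_nonneg_left _ (by positivity)
        apply Real.rpow_le_rpow_of_exponent_le hY
        nlinarith [mul_pos hσ hc1p]

end Hp

end Pool.Agent.Lib.MP_d8bd92_nt
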