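import Pool.Agent.Lib.MP_d8bd92_nt.Hp.BS0
import Pool.Agent.Lib.MP_d8bd92_nt.Hp.AlJ
import Pool.Agent.Lib.MP_d8bd92_nt.Hp.AlE
import Pool.Agent.Lib.MP_d8bd92_nt.Hp.AlG

set_option autoImplicit false

/-! Pigeonhole on the dust label. -/

namespace Pool.Agent.Lib.MP_d8bd92_nt

namespace Hp

open Finset Pool.Agent.Lib.Szpiro

theorem BS3_rd_le {a b : ℕ} (h : a ∣ b) (hb : b ≠ 0) : rd a ≤ rd b := by
  unfold rd
  apply Finset.prod_le_prod_of_subset_of_one_le' (Nat.primeFactors_mono h hb)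
  intro p hp _
  exact (Nat.prime_of_mem_primeFactors hp).one_lt.le

/-- the exponent of two is small -/
theorem BS3_log {K ε Y : ℝ} (hK : 0 < K) (hε : 0 < ε) (hY : 1 ≤ Y) {e : ℕ} (he : ((2 ^ e : ℕ) : ℝ) ≤ Y ^ K) :
    (e : ℝ) + 1 ≤ (K / (ε * Real.log 2) + 1) * Y ^ ε := by
  have hY0 : 0 < Y := by linarith
  have hl2 : 0 < Real.log 2 := Real.log_pos (by norm_num)
  have h1 : (e : ℝ) * Real.log 2 ≤ K * Real.log Y := by
    have h2 := Real.log_le_log (by positivity) he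
    rw [Real.log_rpow hY0] at h2
    push_cast at h2
    rwa [Real.log_pow] at h2
  have h2 : Real.log Y ≤ Y ^ ε / ε := Real.log_le_rpow_div hY0.le hε
  have h3 : 1 ≤ Y ^ ε := Real.one_le_rpow hY hε.le
  have h4 : (e : ℝ) ≤ K / (ε * Real.log 2) * Y ^ ε := by
    rw [← le_div_iff₀ hl2] at h1
    calc (e : ℝ) ≤ K * Real.log Y / Real.log 2 := h1
      _ ≤ K * (Y ^ ε / ε) / Real.log 2 := by gcongr
      _ = _ := by field_simp
  linarith

open scoped Classical in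
/-- the pairs with a given exponent of two -/
theorem BS3_level {K ε C1 : ℝ} (hK : 0 < K)
    (hcard : ∀ (D : ℤ) (Z X : ℝ) (S : Finset (Ideal (ℤ√D))),
      1 ≤ Z → 1 ≤ X → (∀ I ∈ S, ∃ (A : ℕ) (r : ℤ), 1 ≤ A ∧ (A : ℝ) ≤ Z ∧ Odd A ∧ IsCoprime (A : ℤ) D ∧
      (rd A : ℝ) ≤ X ∧ (A : ℤ) ∣ r ^ 2 - D ∧ I = idl D A r) → (S.card : ℝ) ≤ C1 * Z ^ (ε / K) * X)
    {σ Y : ℝ} (hσ : 0 < σ) (hY : 1 ≤ Y) {D : ℤ} (e : ℕ) (A : ℕ × Ideal (ℤ√D) → ℕ) (z : ℕ × Ideal (ℤ√D) → ℤ√D)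
    (T : Finset (ℕ × Ideal (ℤ√D))) (hT : ∀ t ∈ T, 1 ≤ t.1 ∧ (t.1 : ℝ) ≤ Y ^ K ∧ (rd t.1 : ℝ) ≤ Y ^ σ ∧
      (t.1 : ℤ) ∣ (z t).norm ∧ IsCoprime (z t).norm ((z t).im ^ 2 * D) ∧ t.2 = lbl t.1 (z t) ∧
      Odd (A t) ∧ t.1 = 2 ^ e * A t) :
    (T.card : ℝ) ≤ 4 * (C1 * Y ^ ε * Y ^ σ) := by
  have hY0 : 0 < Y := by linarith
  have hA1 : ∀ t ∈ T, 1 ≤ A t := fun t ht => (hT t ht).2.2.2.2.2.2.1.pos
  have hAd : ∀ t ∈ T, (A t : ℤ) ∣ (z t).norm := by
    intro t ht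
    obtain ⟨h1, h2, h3, h4, h5, h6, h7, h8⟩ := hT t ht
    refine dvd_trans ?_ h4
    rw [h8]
    push_cast
    exact dvd_mul_left _ _
  have h2d : ∀ t ∈ T, ((2 ^ e : ℕ) : ℤ) ∣ (z t).norm := by
    intro t ht
    obtain ⟨h1, h2, h3, h4, h5, h6, h7, h8⟩ := hT t ht
    refine dvd_trans ?_ h4
    rw [h8]
    push_cast
    exact dvd_mul_right _ _
  have hprod : ∀ t ∈ T, t.2 = lbl (2 ^ e) (z t) * lbl (A t) (z t) := by
    intro t ht
    obtain ⟨h1, h2, h3, h4, h5, h6, h7, h8⟩ := hT t ht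
    rw [h6, ← lbl_coprime_mul _ (Nat.Coprime.pow_left e ((Nat.coprime_two_left).2 h7)), ← h8]
  -- injectivity
  have hinj : Set.InjOn (fun t : ℕ × Ideal (ℤ√D) => (lbl (2 ^ e) (z t), lbl (A t) (z t))) (T : Set (ℕ × Ideal (ℤ√D))) := by
    intro t ht t' ht' htt
    have ht := Finset.mem_coe.1 ht
    have ht' := Finset.mem_coe.1 ht'
    simp only [Prod.mk.injEq] at htt
    obtain ⟨e1, e2⟩ := htt
    have h9 := (lbl_inj (z t) (z t') (hA1 t ht) (hA1 t' ht') (hAd t ht) (hAd t' ht') (hT t ht).2.2.2.2.1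
      (hT t' ht').2.2.2.2.1 e2).1
    apply Prod.ext
    · rw [(hT t ht).2.2.2.2.2.2.2, (hT t' ht').2.2.2.2.2.2.2, h9]
    · rw [hprod t ht, hprod t' ht', e1, e2]
  have hsub : T.image (fun t : ℕ × Ideal (ℤ√D) => (lbl (2 ^ e) (z t), lbl (A t) (z t))) ⊆
      (T.image (fun t => lbl (2 ^ e) (z t))) ×ˢ (T.image (fun t => lbl (A t) (z t))) := by
    intro x hx
    obtain ⟨t, ht, rfl⟩ := Finset.mem_image.1 hx
    exact Finset.mem_product.2 ⟨Finset.mem_image_of_mem _ ht, Finset.mem_image_of_mem _ ht⟩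
  have hc1 : T.card ≤ (T.image (fun t => lbl (2 ^ e) (z t))).card * (T.image (fun t => lbl (A t) (z t))).card := by
    rw [← Finset.card_image_of_injOn hinj, ← Finset.card_product]
    exact Finset.card_le_card hsub
  -- the two-part
  have hc2 : (T.image (fun t => lbl (2 ^ e) (z t))).card ≤ 4 := by
    rcases Nat.eq_zero_or_pos e with he | he
    · have : T.image (fun t => lbl (2 ^ e) (z t)) ⊆ {⊤} := by
        intro x hx
        obtain ⟨t, ht, rfl⟩ := Finset.mem_image.1 hx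
        rw [Finset.mem_singleton, he, pow_zero, lbl_one]
      exact (Finset.card_le_card this).trans (by simp)
    · by_cases hne : T.Nonempty
      · obtain ⟨t0, ht0⟩ := hne
        have hDodd : Odd D := by
          have h1 : (2 : ℤ) ∣ (z t0).norm := by
            refine dvd_trans ?_ (h2d t0 ht0)
            push_cast
            exact dvd_pow_self _ (by omega)
          have h2 : IsCoprime (2 : ℤ) D :=
            (IsCoprime.of_isCoprime_of_dvd_left (hT t0 ht0).2.2.2.2.1 h1).of_mul_right_right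
          rw [← Int.not_even_iff_odd]
          rintro ⟨m, hm⟩
          obtain ⟨u, v, huv⟩ := h2
          have h6 : 2 * (u + v * m) = 1 := by
            rw [hm] at huv
            linarith
          omega
        apply card_two hDodd e
        intro I hI
        obtain ⟨t, ht, rfl⟩ := Finset.mem_image.1 hI
        obtain ⟨r, h1, h2, h3⟩ := lbl_eq_idl (z t) (A := 2 ^ e) (Nat.one_le_two_pow) (h2d t ht) (hT t ht).2.2.2.2.1
        exact ⟨r, h1, h3⟩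
      · rw [Finset.not_nonempty_iff_eq_empty] at hne
        rw [hne]
        simp
  -- the odd part
  have hc3 : ((T.image (fun t => lbl (A t) (z t))).card : ℝ) ≤ C1 * Y ^ ε * Y ^ σ := by
    have h1 := hcard D (Y ^ K) (Y ^ σ) (T.image (fun t => lbl (A t) (z t))) (Real.one_le_rpow hY hK.le)
      (Real.one_le_rpow hY hσ.le) (by
        intro I hI
        obtain ⟨t, ht, rfl⟩ := Finset.mem_image.1 hI
        obtain ⟨h1, h2, h3, h4, h5, h6, h7, h8⟩ := hT t ht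
        obtain ⟨r, g1, g2, g3⟩ := lbl_eq_idl (z t) (hA1 t ht) (hAd t ht) h5
        have hdvd : A t ∣ t.1 := by
          rw [h8]
          exact dvd_mul_left _ _
        refine ⟨A t, r, hA1 t ht, ?_, h7, ?_, ?_, g1, g3⟩
        · refine le_trans ?_ h2
          exact_mod_cast Nat.le_of_dvd (by omega) hdvd
        · exact (IsCoprime.of_isCoprime_of_dvd_left h5 (hAd t ht)).of_mul_right_right
        · refine le_trans ?_ h3
          exact_mod_cast BS3_rd_le hdvd (by omega))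
    have h2 : (Y ^ K) ^ (ε / K) = Y ^ ε := by
      rw [← Real.rpow_mul hY0.le]
      congr 1
      field_simp
    rw [h2] at h1
    exact h1
  calc (T.card : ℝ) ≤ ((T.image (fun t => lbl (2 ^ e) (z t))).card : ℝ) *
        ((T.image (fun t => lbl (A t) (z t))).card : ℝ) := by exact_mod_cast hc1
    _ ≤ 4 * (C1 * Y ^ ε * Y ^ σ) := by
        apply mul_le_mul _ hc3 (Nat.cast_nonneg _) (by norm_num)
        exact_mod_cast hc2

open scoped Classical in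
/-- number of dust labels. PROOF. `w = 2^e A`, `A` odd; `lbl w z = lbl (2^e) z * lbl A z` (`lbl_coprime_mul`). If `e ≥ 1` then the norm is even, so `im^2 D` is odd (`cop`) and `D` is odd:
`lbl_eq_idl` and `card_two` give at most four `lbl (2^e) z` for every `e`; for `e = 0` it is `⊤` (`lbl_one`); `e ≤ log_2 Y^K`. The ideals `lbl A z` are among at most `C Z^ε X` by `card_idl_le`
(`Z = Y^K`, `X = Y^σ`, `IsCoprime A D` from `cop`), and the numbers `w` by `card_rad_le`. Together: the number of pairs `(w, lbl w z)` is at most (number of `w`) times (number of ideals) - better: the map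
`(w, lbl w z) ↦ (e, lbl (2^e) z, lbl A z)` is injective (`idl_inj`: the ideal `lbl A z = idl D A r` determines `A`), so at most `(K log_2 Y + 1) * 4 * C Y^(Kε' + σ)`. -/
theorem count_dust (K : ℝ) (hK : 2 ≤ K) (ε : ℝ) (hε : 0 < ε) : ∃ C : ℝ, 0 < C ∧ ∀ (σ Y : ℝ), 0 < σ → 1 ≤ Y →
    ∀ (D : ℤ), D ≠ 0 → ∀ T : Finset (ℕ × Ideal (ℤ√D)), (∀ t ∈ T, 1 ≤ t.1 ∧ (t.1 : ℝ) ≤ Y ^ K ∧ (rd t.1 : ℝ) ≤ Y ^ σ ∧
      ∃ z : ℤ√D, (t.1 : ℤ) ∣ z.norm ∧ IsCoprime z.norm (z.im ^ 2 * D) ∧ t.2 = lbl t.1 z) →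
      (T.card : ℝ) ≤ C * Y ^ (σ + ε) := by
  have hK0 : 0 < K := by linarith
  obtain ⟨C1, hC1, hcard⟩ := card_idl_le (ε / 2 / K) (by positivity)
  have hl2 : 0 < Real.log 2 := Real.log_pos (by norm_num)
  refine ⟨(K / (ε / 2 * Real.log 2) + 1) * (4 * C1), by positivity, ?_⟩
  intro σ Y hσ hY D _ T hT
  have hY0 : 0 < Y := by linarith
  have h1 : ∀ t ∈ T, ∃ z : ℤ√D, (t.1 : ℤ) ∣ z.norm ∧ IsCoprime z.norm (z.im ^ 2 * D) ∧ t.2 = lbl t.1 z :=
    fun t ht => (hT t ht).2.2.2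
  choose! z hz1 hz2 hz3 using h1
  have h2 : ∀ t ∈ T, ∃ e A : ℕ, Odd A ∧ t.1 = 2 ^ e * A := by
    intro t ht
    have h0 : t.1 ≠ 0 := by
      have := (hT t ht).1
      omega
    obtain ⟨e, A, hA, h⟩ := Nat.exists_eq_two_pow_mul_odd h0
    exact ⟨e, A, hA, h⟩
  choose! e A hA heA using h2
  by_cases hne : T.Nonempty
  swap
  · rw [Finset.not_nonempty_iff_eq_empty] at hne
    subst hne
    simp only [Finset.card_empty, Nat.cast_zero]
    positivity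
  -- the exponents
  obtain ⟨t1, ht1, hmax⟩ := Finset.exists_max_image T e hne
  have hsub : T.image e ⊆ range (e t1 + 1) := by
    intro k hk
    obtain ⟨t, ht, rfl⟩ := Finset.mem_image.1 hk
    exact Finset.mem_range.2 (Nat.lt_succ_of_le (hmax t ht))
  have hce : ((T.image e).card : ℝ) ≤ (K / (ε / 2 * Real.log 2) + 1) * Y ^ (ε / 2) := by
    have h3 : (T.image e).card ≤ e t1 + 1 := by
      have := Finset.card_le_card hsub
      rwa [Finset.card_range] at this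
    have h4 : ((2 ^ e t1 : ℕ) : ℝ) ≤ Y ^ K := by
      refine le_trans ?_ (hT t1 ht1).2.1
      have h5 : 2 ^ e t1 ∣ t1.1 := by
        conv_rhs => rw [heA t1 ht1]
        exact dvd_mul_right _ _
      exact_mod_cast Nat.le_of_dvd (by have := (hT t1 ht1).1; omega) h5
    have h6 := BS3_log hK0 (ε := ε / 2) (by positivity) hY h4
    refine le_trans ?_ h6
    exact_mod_cast h3
  have hlev : ∀ k ∈ T.image e, ((T.filter (fun t => e t = k)).card : ℝ) ≤ 4 * (C1 * Y ^ (ε / 2) * Y ^ σ) := by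
    intro k hk
    apply BS3_level hK0 hcard hσ hY k A z
    intro t ht
    obtain ⟨g1, g2⟩ := Finset.mem_filter.1 ht
    obtain ⟨g3, g4, g5, _⟩ := hT t g1
    refine ⟨g3, g4, g5, hz1 t g1, hz2 t g1, hz3 t g1, hA t g1, ?_⟩
    rw [← g2]
    exact heA t g1
  have hsum := Finset.card_eq_sum_card_image e T
  have h7 : (T.card : ℝ) ≤ ((T.image e).card : ℝ) * (4 * (C1 * Y ^ (ε / 2) * Y ^ σ)) := by
    rw [hsum]
    push_cast
    calc _ ≤ ∑ _k ∈ T.image e, 4 * (C1 * Y ^ (ε / 2) * Y ^ σ) := Finset.sum_le_sum hlev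
      _ = _ := by rw [Finset.sum_const, nsmul_eq_mul]
  have h8 : Y ^ (σ + ε) = Y ^ (ε / 2) * (Y ^ (ε / 2) * Y ^ σ) := by
    rw [← Real.rpow_add hY0, ← Real.rpow_add hY0]
    congr 1
    ring
  calc (T.card : ℝ) ≤ ((T.image e).card : ℝ) * (4 * (C1 * Y ^ (ε / 2) * Y ^ σ)) := h7
    _ ≤ ((K / (ε / 2 * Real.log 2) + 1) * Y ^ (ε / 2)) * (4 * (C1 * Y ^ (ε / 2) * Y ^ σ)) :=
        mul_le_mul_of_nonneg_right hce (by positivity)
    _ = _ := by
        rw [h8]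
        ring

open scoped Classical in
/-- PROOF. For `x ∈ S0` choose `(w x, p x, q x)` from `IsTie` (`univ` of `Fin (2 * 1)` has the two elements `0`, `1`: `Fin.prod_univ_two`), the sign `sg = ±1` of `x`; `count_dust` for the labels
`(w x, lbl (w x) (el D (x, y) f))` (`el_norm`, `el_cop`). Pigeonhole on (sign, label): one class has at least `|S0| / (2 C Y^(σ + ε))` elements. -/
theorem dust_pigeonhole (K : ℝ) (hK : 2 ≤ K) (l : Fin (2 * 1) → ℕ) (hl : ∀ i, 1 ≤ l i) (ε : ℝ) (hε : 0 < ε) :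
    ∃ C : ℝ, 0 < C ∧ ∀ (σ Y : ℝ), 0 < σ → 1 ≤ Y → ∀ (D : ℤ) (f : ℕ) (y : ℤ), D ≠ 0 → 1 ≤ f → y = (f : ℤ) ^ 2 * D →
      ∀ S0 : Finset ℤ, (∀ x ∈ S0, x ≠ 0 ∧ IsCoprime x y ∧ (∃ g : ℤ, x + y = g ^ 2) ∧ (x.natAbs : ℝ) ≤ Y ^ K ∧
        IsTie σ 1 l Y x) → S0.Nonempty →
      ∃ (w : ℕ) (sg : ℤ) (S : Finset ℤ) (p q : ℤ → ℕ), S ⊆ S0 ∧ (S0.card : ℝ) ≤ C * Y ^ (σ + ε) * (S.card : ℝ) ∧
        (sg = 1 ∨ sg = -1) ∧ 1 ≤ w ∧ (rd w : ℝ) ≤ Y ^ σ ∧
        (∀ x ∈ S, x = sg * ((w * p x ^ l 0 * q x ^ l 1 : ℕ) : ℤ) ∧ (p x).Prime ∧ (q x).Prime ∧ p x ≠ q x ∧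
          Nat.Coprime w (p x) ∧ Nat.Coprime w (q x) ∧
          Y ^ (1 / 4 - σ) ≤ (p x : ℝ) ∧ (p x : ℝ) ≤ Y ^ (1 / 4 + σ) ∧
          Y ^ (1 / 4 - σ) ≤ (q x : ℝ) ∧ (q x : ℝ) ≤ Y ^ (1 / 4 + σ)) ∧
        ∀ x ∈ S, ∀ x' ∈ S, lbl w (el D (x, y) f) = lbl w (el D (x', y) f) := by
  classical
  obtain ⟨C0, hC0, hcd⟩ := count_dust K hK ε hε
  refine ⟨2 * C0, by positivity, fun σ Y hσ hY D f y hD hf hyf S0 hS0 hne => ?_⟩
  have hY0 : 0 < Y := by linarith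
  have hone : (1 : ℝ) / (4 * ((1 : ℕ) : ℝ)) = 1 / 4 := by norm_num
  have hch : ∀ x : ℤ, ∃ (w p q : ℕ), x ∈ S0 → (x.natAbs = w * p ^ l 0 * q ^ l 1 ∧ 1 ≤ w ∧ (rd w : ℝ) ≤ Y ^ σ ∧
      p.Prime ∧ q.Prime ∧ p ≠ q ∧ Nat.Coprime w p ∧ Nat.Coprime w q ∧
      Y ^ (1 / 4 - σ) ≤ (p : ℝ) ∧ (p : ℝ) ≤ Y ^ (1 / 4 + σ) ∧
      Y ^ (1 / 4 - σ) ≤ (q : ℝ) ∧ (q : ℝ) ≤ Y ^ (1 / 4 + σ)) := by
    intro x
    by_cases hx : x ∈ S0
    · obtain ⟨hx0, _, _, _, w, pr, h1, h2, h3, h4, h5, h6⟩ := hS0 x hx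
      refine ⟨w, pr 0, pr 1, fun _ => ⟨?_, ?_, h5, h2 0, h2 1, ?_, h4 0, h4 1, ?_, ?_, ?_, ?_⟩⟩
      · rw [h1, mul_assoc]
        congr 1
        exact Fin.prod_univ_two _
      · refine Nat.one_le_iff_ne_zero.mpr ?_
        rintro rfl
        simp at h1
        exact hx0 h1
      · intro h
        have := h3 h
        exact absurd this (by decide)
      · have := (h6 0).1; rwa [hone] at this
      · have := (h6 0).2; rwa [hone] at this
      · have := (h6 1).1; rwa [hone] at this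
      · have := (h6 1).2; rwa [hone] at this
    · exact ⟨0, 0, 0, fun h => absurd h hx⟩
  choose w p q hw using hch
  obtain ⟨T, hT⟩ : ∃ T : Finset (ℕ × Ideal (ℤ√D)), T = S0.image (fun x => (w x, lbl (w x) (el D (x, y) f))) := ⟨_, rfl⟩
  have hTc : (T.card : ℝ) ≤ C0 * Y ^ (σ + ε) := by
    refine hcd σ Y hσ hY D hD T (fun t ht => ?_)
    rw [hT, Finset.mem_image] at ht
    obtain ⟨x, hx, rfl⟩ := ht
    obtain ⟨h1, h2, h3, h4, h5, _⟩ := hw x hx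
    obtain ⟨hx0, hxy, hg, hxK, _⟩ := hS0 x hx
    have hwd : w x ∣ x.natAbs := ⟨p x ^ l 0 * q x ^ l 1, by rw [h1]; ring⟩
    have hnorm : (el D (x, y) f).norm = x := el_norm hg hyf
    refine ⟨h2, ?_, h3, el D (x, y) f, ?_, el_cop hg hyf hxy, rfl⟩
    · refine le_trans ?_ hxK
      exact_mod_cast Nat.le_of_dvd (Int.natAbs_pos.mpr hx0) hwd
    · show ((w x : ℕ) : ℤ) ∣ (el D (x, y) f).norm
      rw [hnorm]
      exact Int.natCast_dvd.mpr hwd
  obtain ⟨G, hG⟩ : ∃ G : ℤ → (ℕ × Ideal (ℤ√D)) × Bool,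
      G = fun x => ((w x, lbl (w x) (el D (x, y) f)), decide (0 < x)) := ⟨_, rfl⟩
  obtain ⟨U, hU⟩ : ∃ U, U = S0.image G := ⟨_, rfl⟩
  have hUne : U.Nonempty := by rw [hU]; exact hne.image G
  have hUc : U.card ≤ T.card * 2 := by
    have : U ⊆ T ×ˢ (Finset.univ : Finset Bool) := by
      intro u hu
      rw [hU, Finset.mem_image] at hu
      obtain ⟨x, hx, rfl⟩ := hu
      rw [Finset.mem_product, hG, hT]
      exact ⟨Finset.mem_image_of_mem _ hx, Finset.mem_univ _⟩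
    refine (Finset.card_le_card this).trans ?_
    rw [Finset.card_product]
    simp
  obtain ⟨u, huU, humax⟩ := Finset.exists_max_image U (fun u => (S0.filter (fun x => G x = u)).card) hUne
  obtain ⟨S, hS⟩ : ∃ S, S = S0.filter (fun x => G x = u) := ⟨_, rfl⟩
  have hcard : S0.card ≤ U.card * S.card := by
    rw [Finset.card_eq_sum_card_image G S0, ← hU, hS]
    refine (Finset.sum_le_card_nsmul U _ _ humax).trans ?_
    rw [smul_eq_mul]
  have hSm : ∀ x ∈ S, x ∈ S0 ∧ w x = u.1.1 ∧ lbl (w x) (el D (x, y) f) = u.1.2 ∧ (decide (0 < x) = u.2) := by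
    intro x hx
    rw [hS, Finset.mem_filter, hG] at hx
    obtain ⟨h1, h2⟩ := hx
    refine ⟨h1, ?_, ?_, ?_⟩
    · rw [← h2]
    · rw [← h2]
    · rw [← h2]
  obtain ⟨x0, hx0⟩ : ∃ x0, x0 ∈ S := by
    rw [hU, Finset.mem_image] at huU
    obtain ⟨x, hx, hxu⟩ := huU
    exact ⟨x, by rw [hS, Finset.mem_filter]; exact ⟨hx, hxu⟩⟩
  refine ⟨u.1.1, if u.2 then 1 else -1, S, p, q, ?_, ?_, ?_, ?_, ?_, ?_, ?_⟩
  · rw [hS]; exact Finset.filter_subset _ _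
  · have h1 : (S0.card : ℝ) ≤ (U.card : ℝ) * S.card := by exact_mod_cast hcard
    have h2 : (U.card : ℝ) ≤ (T.card : ℝ) * 2 := by exact_mod_cast hUc
    calc (S0.card : ℝ) ≤ (U.card : ℝ) * S.card := h1
      _ ≤ (2 * C0 * Y ^ (σ + ε)) * S.card := by
        refine mul_le_mul_of_nonneg_right ?_ (Nat.cast_nonneg _)
        linarith
  · split_ifs
    · left; rfl
    · right; rfl
  · obtain ⟨h1, h2, _⟩ := hSm x0 hx0
    rw [← h2]
    exact (hw x0 h1).2.1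
  · obtain ⟨h1, h2, _⟩ := hSm x0 hx0
    rw [← h2]
    exact (hw x0 h1).2.2.1
  · intro x hx
    obtain ⟨h1, h2, _, h4⟩ := hSm x hx
    obtain ⟨a1, a2, a3, a4, a5, a6, a7, a8, a9⟩ := hw x h1
    rw [← h2, ← a1]
    refine ⟨?_, a4, a5, a6, a7, a8, a9⟩
    have hx0 : x ≠ 0 := (hS0 x h1).1
    by_cases hpos : 0 < x
    · rw [← h4]
      simp only [hpos, decide_true, if_true, one_mul]
      omega
    · rw [← h4]
      simp only [hpos, decide_false, Bool.false_eq_true, if_false]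
      omega
  · intro x hx x' hx'
    obtain ⟨_, h2, h3, _⟩ := hSm x hx
    obtain ⟨_, h2', h3', _⟩ := hSm x' hx'
    rw [← h2] 
    rw [h3, ← h3', h2, h2']

end Hp

end Pool.Agent.Lib.MP_d8bd92_nt
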