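import Pool.Agent.Lib.MP_d8bd92_nt.Hp.BS0
import Pool.Agent.Lib.MP_d8bd92_nt.Hp.AlK
import Pool.Agent.Lib.MP_d8bd92_nt.Hp.AlL

set_option autoImplicit false

/-! Multiplicity of one prime; comparability. -/

namespace Pool.Agent.Lib.MP_d8bd92_nt

namespace Hp

open Finset Pool.Agent.Lib.Szpiro

theorem BS4_rd_pow (t k : ℕ) (ht : t.Prime) (hk : 1 ≤ k) : rd (t ^ k) = t := by
  unfold rd
  rw [Nat.primeFactors_prime_pow (by omega) ht]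
  simp

open scoped Classical in
/-- PROOF. `Good.qr1` for the pair `(x, y) ∈ P` and `u = t^k`: `u` is a unitary divisor of `|x|`, `rd u = t`, `Y^(1/4)/t ≤ Y^σ`; the map `x' ↦ (x', y)` is injective from `S.filter (t^k unitary divisor)` to the
set in `qr1`. -/
theorem mult_le (K ε0 κ σ Y : ℝ) (hY : 1 ≤ Y) (hσ : 0 < σ) (P : Finset (ℤ × ℤ)) (hP : Good K ε0 κ Y P) (y : ℤ) (S : Finset ℤ)
    (hS : ∀ x ∈ S, (x, y) ∈ P) (t k : ℕ) (ht : t.Prime) (hk : 1 ≤ k) (htY : Y ^ (1 / 4 - σ) ≤ (t : ℝ)) (S' : Finset ℤ)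
    (hS' : S' ⊆ S) (hu : ∀ x ∈ S', UDvd (t ^ k) x.natAbs) : (S'.card : ℝ) ≤ Y ^ (κ + σ) := by
  have hY0 : 0 < Y := by linarith
  rcases S'.eq_empty_or_nonempty with h0 | ⟨x0, hx0⟩
  · rw [h0]
    simp only [Finset.card_empty, Nat.cast_zero]
    exact (Real.rpow_pos_of_pos hY0 _).le
  · have h1 := hP.qr1 (x0, y) (hS x0 (hS' hx0)) (t ^ k) (hu x0 hx0)
    have h2 : S'.card ≤ (P.filter (fun w' : ℤ × ℤ => w'.2 = (x0, y).2 ∧ UDvd (t ^ k) w'.1.natAbs)).card := by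
      apply Finset.card_le_card_of_injOn (fun x => (x, y))
      · intro x hx
        have hx' : x ∈ S' := hx
        simp only [Finset.coe_filter, Set.mem_ofPred_eq]
        exact ⟨hS x (hS' hx'), trivial, hu x hx'⟩
      · intro a _ b _ hab
        exact (Prod.mk.inj hab).1
    have h3 : (S'.card : ℝ) ≤ max 1 (Y ^ (1 / 4 : ℝ) / (rd (t ^ k) : ℝ)) * Y ^ κ :=
      le_trans (by exact_mod_cast h2) h1
    rw [BS4_rd_pow t k ht hk] at h3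
    have ht0 : (0 : ℝ) < (t : ℝ) := by exact_mod_cast ht.pos
    have h4 : max 1 (Y ^ (1 / 4 : ℝ) / (t : ℝ)) ≤ Y ^ σ := by
      apply max_le
      · exact Real.one_le_rpow hY hσ.le
      · rw [div_le_iff₀ ht0]
        calc Y ^ (1 / 4 : ℝ) = Y ^ σ * Y ^ (1 / 4 - σ) := by
              rw [← Real.rpow_add hY0]; congr 1; ring
          _ ≤ Y ^ σ * t := by gcongr
    calc (S'.card : ℝ) ≤ max 1 (Y ^ (1 / 4 : ℝ) / (t : ℝ)) * Y ^ κ := h3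
      _ ≤ Y ^ σ * Y ^ κ := by gcongr
      _ = Y ^ (κ + σ) := by rw [← Real.rpow_add hY0]; congr 1; ring

/-- All pairs of a dyadic family are comparable. PROOF. `theta_exists` for the set `S ×ˢ {y}` and `BR_pair` (with `z = el D (x, y) f`, `norm = x` by `el_norm`, `|D| * im^2 = |y|`, `re = gg ≥ 0`, `im = f ≥ 1`); `BR` is the
first inequality. -/
theorem side_bal {D : ℤ} (hD : D ≠ 0) (f : ℕ) (hf : 1 ≤ f) (y : ℤ) (hy : y = (f : ℤ) ^ 2 * D) (S : Finset ℤ)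
    (h0 : ∀ x ∈ S, x ≠ 0) (hsq : ∀ x ∈ S, ∃ g : ℤ, x + y = g ^ 2)
    (hdy : ∀ x ∈ S, ∀ x' ∈ S, x.natAbs ≤ 2 * x'.natAbs ∧ (0 < x ↔ 0 < x')) :
    ∀ x ∈ S, ∀ x' ∈ S, ((hh (el D (x, y) f * star (el D (x', y) f)) : ℤ) : ℝ) ≤
      1000 * ((|(el D (x, y) f * star (el D (x', y) f)).norm| : ℤ) : ℝ) := by
  intro x hx x' hx'
  have hn : (el D (x, y) f).norm = x := el_norm (w := (x, y)) (hsq x hx) hy
  have hn' : (el D (x', y) f).norm = x' := el_norm (w := (x', y)) (hsq x' hx') hy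
  have hf1 : (0 : ℤ) < (f : ℤ) := by exact_mod_cast hf
  have hf0 : (0 : ℝ) < ((f : ℤ) : ℝ) := by exact_mod_cast hf1
  have habs : ∀ a b : ℤ, a.natAbs ≤ 2 * b.natAbs → ((|a| : ℤ) : ℝ) ≤ 2 * ((|b| : ℤ) : ℝ) := by
    intro a b h
    have h2 : (|a| : ℤ) ≤ 2 * |b| := by
      rw [Int.abs_eq_natAbs, Int.abs_eq_natAbs]
      exact_mod_cast h
    exact_mod_cast h2
  refine (BR_pair (z := el D (x, y) f) (z' := el D (x', y) f) (κ0 := 1000) (θ := 1) hD (gg_nonneg _) (gg_nonneg _)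
    hf1 hf1 ?_ ?_ ?_ ?_ ?_ ?_ ?_ rfl ?_).1
  · rw [hn, hn']; exact habs _ _ (hdy x hx x' hx').1
  · rw [hn, hn']; exact habs _ _ (hdy x' hx' x hx).1
  · rw [hn, hn']; exact (hdy x hx x' hx').2
  · rw [hn]; exact h0 x hx
  · rw [hn']; exact h0 x' hx'
  · change ((f : ℤ) : ℝ) ≤ 2 * ((f : ℤ) : ℝ); linarith
  · change ((f : ℤ) : ℝ) ≤ 2 * ((f : ℤ) : ℝ); linarith
  · by_cases hc : ((|(el D (x, y) f).norm| : ℤ) : ℝ) ≤ 64 * ((|D| * (el D (x, y) f).im ^ 2 : ℤ) : ℝ)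
    · exact Or.inl ⟨rfl, hc⟩
    · have hA : (0 : ℝ) ≤ ((|D| * (el D (x, y) f).im ^ 2 : ℤ) : ℝ) := by
        exact_mod_cast mul_nonneg (abs_nonneg D) (sq_nonneg _)
      push Not at hc
      exact Or.inr ⟨by linarith, by linarith⟩

end Hp

end Pool.Agent.Lib.MP_d8bd92_nt
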