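import Pool.Agent.Lib.MP_d8bd92_nt.Hp.BS2
import Pool.Agent.Lib.MP_d8bd92_nt.Hp.BS3
import Pool.Agent.Lib.MP_d8bd92_nt.Hp.BS4

set_option autoImplicit false

/-! The side-extraction theorem. -/

namespace Pool.Agent.Lib.MP_d8bd92_nt

namespace Hp

open Finset Pool.Agent.Lib.Szpiro

/-- a threshold for a power -/
theorem BS5_thr (A a : ℝ) (ha : 0 < a) : ∃ Y1 : ℝ, 1 ≤ Y1 ∧ ∀ Y : ℝ, Y1 ≤ Y → A < Y ^ a := by
  refine ⟨max 1 ((|A| + 1) ^ (1 / a)), le_max_left _ _, fun Y hY => ?_⟩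
  have h0 : 0 ≤ |A| + 1 := by positivity
  have h1 : (|A| + 1) ^ (1 / a) ≤ Y := (le_max_right _ _).trans hY
  have h2 : ((|A| + 1) ^ (1 / a)) ^ a ≤ Y ^ a := Real.rpow_le_rpow (Real.rpow_nonneg h0 _) h1 ha.le
  have h3 : ((|A| + 1) ^ (1 / a)) ^ a = |A| + 1 := by
    rw [← Real.rpow_mul h0, one_div_mul_cancel ha.ne', Real.rpow_one]
  rw [h3] at h2
  linarith [le_abs_self A]

/-- the trivial bound for small `Y` -/
theorem BS5_small (K ε0 : ℝ) (B : ℝ) : ∃ C1 : ℝ, 0 ≤ C1 ∧ ∀ Y : ℝ, 1 ≤ Y → Y ≤ B → ∀ P : Finset (ℤ × ℤ),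
    (∀ v ∈ P, v ∈ PairSet K ε0 Y) → (P.card : ℝ) ≤ C1 := by
  classical
  obtain ⟨N, hN⟩ : ∃ N : ℕ, N = ⌊(max 1 B) ^ (max K 0)⌋₊ := ⟨_, rfl⟩
  refine ⟨((Finset.Icc (-(N : ℤ)) N ×ˢ Finset.Icc (-(N : ℤ)) N).card : ℝ), by positivity, fun Y hY hYB P hP => ?_⟩
  have hY0 : 0 < Y := by linarith
  have hsub : P ⊆ Finset.Icc (-(N : ℤ)) N ×ˢ Finset.Icc (-(N : ℤ)) N := by
    intro w hw
    obtain ⟨_, _, _, _, _, _, h1, h2⟩ := hP w hw
    have h6 : Y ^ K ≤ (max 1 B) ^ (max K 0) := by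
      calc Y ^ K ≤ Y ^ (max K 0) := Real.rpow_le_rpow_of_exponent_le hY (le_max_left _ _)
        _ ≤ (max 1 B) ^ (max K 0) := Real.rpow_le_rpow hY0.le
          (hYB.trans (le_max_right _ _)) (le_max_right _ _)
    have h7 : w.1.natAbs ≤ N := by
      rw [hN]
      exact Nat.le_floor (h1.trans h6)
    have h8 : w.2.natAbs ≤ N := by
      rw [hN]
      exact Nat.le_floor (h2.trans h6)
    rw [Finset.mem_product, Finset.mem_Icc, Finset.mem_Icc]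
    refine ⟨⟨?_, ?_⟩, ⟨?_, ?_⟩⟩ <;> omega
  exact_mod_cast Finset.card_le_card hsub

/-- unitary divisors -/
theorem BS5_udvd (w p q i j : ℕ) (hp : p.Prime) (hq : q.Prime) (hpq : p ≠ q) (hwp : Nat.Coprime w p) :
    UDvd (p ^ i) (w * p ^ i * q ^ j) := by
  refine ⟨w * q ^ j, by ring, ?_⟩
  apply Nat.Coprime.mul_right
  · exact (Nat.Coprime.pow_left i hwp.symm)
  · exact Nat.Coprime.pow i j ((Nat.coprime_primes hp hq).mpr hpq)

/-- the extraction theorem for `K`, `ε0` -/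
def ExtStmt (K ε0 : ℝ) : Prop := ∀ κ : ℝ, 0 < κ → ∃ C δ : ℝ, 0 < C ∧ 0 < δ ∧
    ∀ Y : ℝ, 1 ≤ Y → ∀ P : Finset (ℤ × ℤ), (∀ w ∈ P, w ∈ PairSet K ε0 Y) → C * Y ^ (3 / 4 - δ) < (P.card : ℝ) →
      ∃ P' ⊆ P, Good K ε0 κ Y P' ∧ Y ^ (3 / 4 - κ) ≤ (P'.card : ℝ)

open scoped Classical in
/-- the theorem on critical fixed sides for `K`, `ε0` -/
def CritStmt (K ε0 : ℝ) : Prop := ∀ κ : ℝ, 0 < κ → κ ≤ 1 / 100 → ∃ Y0 : ℝ, 1 ≤ Y0 ∧
    ∀ Y : ℝ, Y0 ≤ Y → ∀ P : Finset (ℤ × ℤ), Good K ε0 κ Y P → Y ^ (3 / 4 - κ) ≤ (P.card : ℝ) →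
      Y ^ (1 / 2 - 3 * κ) ≤ (((P.image Prod.snd).filter (fun y => Y ^ (1 / 4 - 2 * κ) ≤
        ((P.filter (fun w => w.2 = y)).card : ℝ))).card : ℝ)

/-- PROOF. `bad_sides` gives `c ≤ 1/100`; put `σ = min (c / 100) (τ / 100)`, `κ = σ`. `extraction K ε0 κ` gives `C`, `δ`, `P'`; `critical` for `P'` gives (for large `Y`) at least `Y^(1/2 - 3κ)` values `y` with at least `Y^(1/4 - 2κ)` `x`.
By `bad_sides` at most `C Y^(1/2 - c)` of them have few split primes, so for large `Y` there is a `y` in `critical` with `D`, `f` and at least `X^(κ3/2) ≥ Y^(κ3/4)` split primes up to `X^κ3 ≤ Y^κ3`, `X = Y^(1/2 + 4σ)`.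
`S0 = {x : (x, y) ∈ P'}`, `dust_pigeonhole` (`ε = σ`), `tie_odd_y` (`ℓ = q'`), `mult_le`, `Good.dy`; `p`, `q` are odd for large `Y`. Small `Y`: `|P| ≤ (2 Y^K + 1)^2`, so `Y0 ≤ Y` if `C` is large. -/
theorem tie_side_of (K ε0 : ℝ) (hK : 2 ≤ K) (hex : ExtStmt K ε0) (hcr : CritStmt K ε0) (l m : Fin (2 * 1) → ℕ) (hl : ∀ i, 1 ≤ l i)
    (hm0 : Odd (m 0)) (hm1 : Odd (m 1)) (κ3 : ℝ) (h3 : 0 < κ3) (h3' : κ3 ≤ 1 / 6) (τ : ℝ) (hτ : 0 < τ) (hτ1 : τ ≤ 1 / 100) :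
    ∃ σ : ℝ, 0 < σ ∧ ∀ Y0 : ℝ, ∃ C δ : ℝ, 0 < C ∧ 0 < δ ∧ ∀ Y : ℝ, 1 ≤ Y → ∀ P : Finset (ℤ × ℤ),
      (∀ v ∈ P, v ∈ PairSet K ε0 Y ∧ IsTie σ 1 l Y v.1 ∧ IsTie σ 1 m Y v.2) → C * Y ^ (3 / 4 - δ) < (P.card : ℝ) →
      Y0 ≤ Y ∧ ∃ (D : ℤ) (f w ℓ : ℕ) (sg y : ℤ) (S : Finset ℤ) (p q : ℤ → ℕ),
        TieSide K τ κ3 Y l m D f w ℓ sg y S p q := by
  classical
  obtain ⟨c, hc0, hc1, hbad⟩ := bad_sides K hK m hm0 hm1 κ3 h3 h3'
  obtain ⟨σ, hσ⟩ : ∃ σ : ℝ, σ = min (c / 100) (τ / 100) := ⟨_, rfl⟩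
  have hσ0 : 0 < σ := by
    rw [hσ]
    exact lt_min (by positivity) (by positivity)
  have hσc : σ ≤ c / 100 := by
    rw [hσ]
    exact min_le_left _ _
  have hστ : σ ≤ τ / 100 := by
    rw [hσ]
    exact min_le_right _ _
  refine ⟨σ, hσ0, fun Y0 => ?_⟩
  obtain ⟨C1, hC1, hT⟩ := hbad σ hσ0 (by linarith only [hσc, hc0])
  obtain ⟨C2, δ2, hC2, hδ2, hext⟩ := hex σ hσ0
  obtain ⟨Y1, hY11, hcrit⟩ := hcr σ hσ0 (by linarith only [hσc, hc0, hc1])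
  obtain ⟨C3, hC3, hdust⟩ := dust_pigeonhole K hK l hl σ hσ0
  obtain ⟨Ya, hYa1, hYa⟩ := BS5_thr C1 (c - 3 * σ) (by linarith only [hσc, hc0])
  obtain ⟨Yb, hYb1, hYb⟩ := BS5_thr C3 (τ - 4 * σ) (by linarith only [hστ, hτ])
  obtain ⟨Yc, hYc1, hYc⟩ := BS5_thr 2 (1 / 4 - σ) (by linarith only [hσc, hc1, hc0])
  obtain ⟨B, hB⟩ : ∃ B : ℝ, B = max (max Y0 Y1) (max Ya (max Yb Yc)) := ⟨_, rfl⟩
  obtain ⟨C4, hC4, hsm⟩ := BS5_small K ε0 B
  refine ⟨C2 + C4, min δ2 (1 / 2), by positivity, lt_min hδ2 (by norm_num), fun Y hY P hP hPC => ?_⟩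
  have hY0 : 0 < Y := lt_of_lt_of_le one_pos hY
  have hmono : ∀ a b : ℝ, a ≤ b → Y ^ a ≤ Y ^ b := fun a b hab => Real.rpow_le_rpow_of_exponent_le hY hab
  have hone : 1 ≤ Y ^ (3 / 4 - min δ2 (1 / 2 : ℝ)) :=
    Real.one_le_rpow hY (by linarith only [min_le_right δ2 (1 / 2 : ℝ)])
  -- `Y` is large
  have hYB : B < Y := by
    by_contra hcon
    push Not at hcon
    have h1 := hsm Y hY hcon P (fun v hv => (hP v hv).1)
    have h2 : C4 * 1 ≤ (C2 + C4) * Y ^ (3 / 4 - min δ2 (1 / 2 : ℝ)) := by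
      apply mul_le_mul _ hone zero_le_one (by linarith only [hC2, hC4])
      linarith only [hC2]
    linarith only [h1, h2, hPC]
  have hYY0 : Y0 ≤ Y := by
    rw [hB] at hYB
    exact ((le_max_left _ _).trans (le_max_left _ _)).trans hYB.le
  have hYY1 : Y1 ≤ Y := by
    rw [hB] at hYB
    exact ((le_max_right _ _).trans (le_max_left _ _)).trans hYB.le
  have hYYa : Ya ≤ Y := by
    rw [hB] at hYB
    exact ((le_max_left _ _).trans (le_max_right _ _)).trans hYB.le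
  have hYYb : Yb ≤ Y := by
    rw [hB] at hYB
    exact (((le_max_left _ _).trans (le_max_right _ _)).trans (le_max_right _ _)).trans hYB.le
  have hYYc : Yc ≤ Y := by
    rw [hB] at hYB
    exact (((le_max_right _ _).trans (le_max_right _ _)).trans (le_max_right _ _)).trans hYB.le
  refine ⟨hYY0, ?_⟩
  -- extraction
  have hP2 : C2 * Y ^ (3 / 4 - δ2) < (P.card : ℝ) := by
    refine lt_of_le_of_lt ?_ hPC
    have h1 : Y ^ (3 / 4 - δ2) ≤ Y ^ (3 / 4 - min δ2 (1 / 2 : ℝ)) :=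
      hmono _ _ (by linarith only [min_le_left δ2 (1 / 2 : ℝ)])
    calc C2 * Y ^ (3 / 4 - δ2) ≤ C2 * Y ^ (3 / 4 - min δ2 (1 / 2 : ℝ)) := mul_le_mul_of_nonneg_left h1 hC2.le
      _ ≤ (C2 + C4) * Y ^ (3 / 4 - min δ2 (1 / 2 : ℝ)) :=
        mul_le_mul_of_nonneg_right (by linarith only [hC4]) (Real.rpow_nonneg hY0.le _)
  obtain ⟨P', hP'P, hgood, hP'c⟩ := hext Y hY P (fun v hv => (hP v hv).1) hP2
  have hcr := hcrit Y hYY1 P' hgood hP'c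
  -- a critical side with many split primes
  obtain ⟨X, hX⟩ : ∃ X : ℝ, X = Y ^ (1 / 2 + 4 * σ) := ⟨_, rfl⟩
  obtain ⟨y, hycr, hygood⟩ : ∃ y ∈ ((P'.image Prod.snd).filter (fun y => Y ^ (1 / 4 - 2 * σ) ≤
      ((P'.filter (fun w => w.2 = y)).card : ℝ))), ¬ (∀ (D : ℤ) (f : ℕ), Squarefree D → 1 ≤ f → y = (f : ℤ) ^ 2 * D →
          (((Finset.Icc 3 ⌊X ^ κ3⌋₊).filter (fun r => r.Prime ∧ jacobiSym D r = 1)).card : ℝ) <
            X ^ (κ3 / 2)) := by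
    by_contra hcon
    push Not at hcon
    have h1 := hT Y hY ((P'.image Prod.snd).filter (fun y => Y ^ (1 / 4 - 2 * σ) ≤
      ((P'.filter (fun w => w.2 = y)).card : ℝ))) (by
        intro y hy
        have hy2 := (Finset.mem_filter.mp hy).1
        obtain ⟨v, hv, rfl⟩ := Finset.mem_image.mp hy2
        have hvP := hP v (hP'P hv)
        refine ⟨hvP.1.2.1, hvP.1.2.2.2.2.2.2.2, hvP.2.2, (hgood.nsq v hv).2, ?_⟩
        intro D f hD hf hyf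
        rw [← hX]
        exact hcon v.2 hy D f hD hf hyf)
    have h2 : C1 * Y ^ (1 / 2 - c) < Y ^ (1 / 2 - 3 * σ) := by
      have h4 : Y ^ (1 / 2 - 3 * σ) = Y ^ (c - 3 * σ) * Y ^ (1 / 2 - c) := by
        rw [← Real.rpow_add hY0]
        congr 1
        ring
      rw [h4]
      exact mul_lt_mul_of_pos_right (hYa Y hYYa) (Real.rpow_pos_of_pos hY0 _)
    linarith only [h1, h2, hcr]
  push Not at hygood
  obtain ⟨D, f, hD, hf, hyf, hsplit⟩ := hygood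
  have hy2 := Finset.mem_filter.mp hycr
  obtain ⟨v0, hv0, hv0y⟩ := Finset.mem_image.mp hy2.1
  have hv0P := hP v0 (hP'P hv0)
  rw [hv0y] at hv0P
  have hyne : y ≠ 0 := by
    rw [← hv0y]
    exact hv0P.1.2.1
  have hynsq : ¬ IsSquare y := by
    rw [← hv0y]
    exact (hgood.nsq v0 hv0).2
  have hyK : (y.natAbs : ℝ) ≤ Y ^ K := by
    rw [← hv0y]
    exact hv0P.1.2.2.2.2.2.2.2
  have hDne : D ≠ 0 := hD.ne_zero
  have hD1 : D ≠ 1 := by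
    intro h
    apply hynsq
    rw [hyf, h, mul_one, sq]
    exact ⟨_, rfl⟩
  -- the elements
  obtain ⟨S0, hS0⟩ : ∃ S0 : Finset ℤ, S0 = (P'.filter (fun w => w.2 = y)).image Prod.fst := ⟨_, rfl⟩
  have hS0mem : ∀ x ∈ S0, (x, y) ∈ P' := by
    intro x hx
    rw [hS0] at hx
    obtain ⟨v, hv, hvx⟩ := Finset.mem_image.mp hx
    obtain ⟨hv1, hv2⟩ := Finset.mem_filter.mp hv
    have h4 : v = (x, y) := Prod.ext hvx hv2
    rw [← h4]
    exact hv1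
  have hS0card : (S0.card : ℝ) = ((P'.filter (fun w => w.2 = y)).card : ℝ) := by
    rw [hS0, Finset.card_image_of_injOn]
    intro a ha b hb hab
    have ha2 := (Finset.mem_filter.mp (Finset.mem_coe.mp ha)).2
    have hb2 := (Finset.mem_filter.mp (Finset.mem_coe.mp hb)).2
    exact Prod.ext hab (ha2.trans hb2.symm)
  have hS0lo : Y ^ (1 / 4 - 2 * σ) ≤ (S0.card : ℝ) := by
    rw [hS0card]
    exact hy2.2
  have hS0ne : S0.Nonempty := by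
    rw [← Finset.card_pos]
    have h1 : (0 : ℝ) < (S0.card : ℝ) := lt_of_lt_of_le (Real.rpow_pos_of_pos hY0 _) hS0lo
    exact_mod_cast h1
  have hxprop : ∀ x ∈ S0, x ≠ 0 ∧ IsCoprime x y ∧ (∃ g : ℤ, x + y = g ^ 2) ∧ (x.natAbs : ℝ) ≤ Y ^ K ∧
      IsTie σ 1 l Y x := by
    intro x hx
    have h1 := hP _ (hP'P (hS0mem x hx))
    exact ⟨h1.1.1, h1.1.2.2.1, h1.1.2.2.2.1, h1.1.2.2.2.2.2.2.1, h1.2.1⟩
  obtain ⟨w, sg, S, p, q, hSS0, hScard, hsg, hw1, hwr, hpq, hlab⟩ :=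
    hdust σ Y hσ0 hY D f y hDne hf hyf S0 hxprop hS0ne
  obtain ⟨w', p', q', -, -, -, hp', hq', -, hq'D, hq'f, -, -, hq'lo, -, hDlo, hDhi⟩ :=
    tie_odd_y m hm0 hm1 σ Y hσ0.le hY y hyne hv0P.2.2 D f hD hf hyf
  have hodd : ∀ t : ℕ, t.Prime → Y ^ (1 / 4 - σ) ≤ (t : ℝ) → Odd t := by
    intro t ht htY
    apply ht.odd_of_ne_two
    intro h2
    have h4 := hYc Y hYYc
    rw [h2] at htY
    push_cast at htY
    linarith only [h4, htY]
  have hnat : ∀ x ∈ S, x.natAbs = w * p x ^ l 0 * q x ^ l 1 := by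
    intro x hx
    have h1 := (hpq x hx).1
    have h2 := congrArg Int.natAbs h1
    rcases hsg with h | h
    · rw [h, one_mul, Int.natAbs_natCast] at h2
      exact h2
    · rw [h, neg_one_mul, Int.natAbs_neg, Int.natAbs_natCast] at h2
      exact h2
  refine ⟨D, f, w, q', sg, y, S, p, q, ?_⟩
  refine
    { hY := hY
      hD := hD
      hD1 := hD1
      Dlo := (hmono _ _ (by linarith only [hσ0, hσc, hστ, hτ, hc0, hc1])).trans hDlo
      Dhi := hDhi.trans (hmono _ _ (by linarith only [hσ0, hσc, hστ, hτ, hc0, hc1]))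
      hf := hf
      hy := hyf
      hyK := hyK
      hℓ := hq'
      ℓD := Int.natCast_dvd.mpr hq'D
      ℓf := hq'f
      ℓlo := (hmono _ _ (by linarith only [hσ0, hσc, hστ, hτ, hc0, hc1])).trans hq'lo
      hsg := hsg
      hw := hw1
      hwr := hwr.trans (hmono _ _ (by linarith only [hσ0, hσc, hστ, hτ, hc0, hc1]))
      card := ?_
      cop := fun x hx => (hxprop x (hSS0 hx)).2.1
      sq := fun x hx => (hxprop x (hSS0 hx)).2.2.1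
      xK := fun x hx => (hxprop x (hSS0 hx)).2.2.2.1
      nrm := fun x hx => (hpq x hx).1
      pp := ?_
      qq := ?_
      pq := fun x hx => (hpq x hx).2.2.2.1
      multp := ?_
      multq := ?_
      dy := ?_
      lab := hlab
      split := ?_ }
  · -- card
    have h1 : Y ^ (1 / 4 - τ) * (C3 * Y ^ (σ + σ)) ≤ Y ^ (1 / 4 - 2 * σ) := by
      have h2 : Y ^ (1 / 4 - 2 * σ) = Y ^ (1 / 4 - τ) * (Y ^ (τ - 4 * σ) * Y ^ (σ + σ)) := by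
        rw [← Real.rpow_add hY0, ← Real.rpow_add hY0]
        congr 1
        ring
      rw [h2]
      have h4 := (hYb Y hYYb).le
      gcongr
    have h5 : Y ^ (1 / 4 - τ) * (C3 * Y ^ (σ + σ)) ≤ (S.card : ℝ) * (C3 * Y ^ (σ + σ)) := by
      calc _ ≤ Y ^ (1 / 4 - 2 * σ) := h1
        _ ≤ (S0.card : ℝ) := hS0lo
        _ ≤ C3 * Y ^ (σ + σ) * (S.card : ℝ) := hScard
        _ = _ := by ring
    exact le_of_mul_le_mul_right h5 (by positivity)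
  · intro x hx
    obtain ⟨-, h1, h2, h4, h5, h6, h7, h8, h9, h10⟩ := hpq x hx
    exact ⟨h1, hodd _ h1 h7, h5, (hmono _ _ (by linarith only [hσ0, hσc, hστ, hτ, hc0, hc1])).trans h7, h8.trans (hmono _ _ (by linarith only [hσ0, hσc, hστ, hτ, hc0, hc1]))⟩
  · intro x hx
    obtain ⟨-, h1, h2, h4, h5, h6, h7, h8, h9, h10⟩ := hpq x hx
    exact ⟨h2, hodd _ h2 h9, h6, (hmono _ _ (by linarith only [hσ0, hσc, hστ, hτ, hc0, hc1])).trans h9, h10.trans (hmono _ _ (by linarith only [hσ0, hσc, hστ, hτ, hc0, hc1]))⟩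
  · intro x hx
    obtain ⟨-, h1, h2, h4, h5, h6, h7, h8, h9, h10⟩ := hpq x hx
    have h11 := mult_le K ε0 σ σ Y hY hσ0 P' hgood y S (fun x' hx' => hS0mem x' (hSS0 hx')) (p x) (l 0) h1 (hl 0) h7
      (S.filter (fun x' => p x' = p x)) (Finset.filter_subset _ _) (by
        intro x' hx'
        obtain ⟨hx'S, hx'p⟩ := Finset.mem_filter.mp hx'
        obtain ⟨-, k1, k2, k4, k5, k6, k7, k8, k9, k10⟩ := hpq x' hx'S
        rw [hnat x' hx'S, ← hx'p]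
        exact BS5_udvd w (p x') (q x') (l 0) (l 1) k1 k2 k4 k5)
    exact h11.trans (hmono _ _ (by linarith only [hσ0, hσc, hστ, hτ, hc0, hc1]))
  · intro x hx
    obtain ⟨-, h1, h2, h4, h5, h6, h7, h8, h9, h10⟩ := hpq x hx
    have h11 := mult_le K ε0 σ σ Y hY hσ0 P' hgood y S (fun x' hx' => hS0mem x' (hSS0 hx')) (q x) (l 1) h2 (hl 1) h9
      (S.filter (fun x' => q x' = q x)) (Finset.filter_subset _ _) (by
        intro x' hx'
        obtain ⟨hx'S, hx'p⟩ := Finset.mem_filter.mp hx'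
        obtain ⟨-, k1, k2, k4, k5, k6, k7, k8, k9, k10⟩ := hpq x' hx'S
        rw [hnat x' hx'S, ← hx'p]
        have h12 : w * p x' ^ l 0 * q x' ^ l 1 = w * q x' ^ l 1 * p x' ^ l 0 := by ring
        rw [h12]
        exact BS5_udvd w (q x') (p x') (l 1) (l 0) k2 k1 k4.symm k6)
    exact h11.trans (hmono _ _ (by linarith only [hσ0, hσc, hστ, hτ, hc0, hc1]))
  · intro x hx x' hx'
    exact (hgood.dy _ (hS0mem x (hSS0 hx)) _ (hS0mem x' (hSS0 hx'))).1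
  · -- split
    have hXY : X ≤ Y := by
      rw [hX]
      calc Y ^ (1 / 2 + 4 * σ) ≤ Y ^ (1 : ℝ) := hmono _ _ (by linarith only [hσc, hc1, hc0])
        _ = Y := Real.rpow_one Y
    have hX0 : 0 ≤ X := by
      rw [hX]
      positivity
    have h1 : Y ^ (κ3 / 4) ≤ X ^ (κ3 / 2) := by
      rw [hX, ← Real.rpow_mul hY0.le]
      apply hmono
      have h5 : (1 / 2 + 4 * σ) * (κ3 / 2) = κ3 / 4 + 2 * (σ * κ3) := by ring
      rw [h5]
      linarith only [mul_pos hσ0 h3]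
    have h2 : X ^ κ3 ≤ Y ^ κ3 := Real.rpow_le_rpow hX0 hXY h3.le
    refine h1.trans (hsplit.trans ?_)
    have h4 : (Finset.Icc 3 ⌊X ^ κ3⌋₊).filter (fun r => r.Prime ∧ jacobiSym D r = 1) ⊆
        (Finset.Icc 3 ⌊Y ^ κ3⌋₊).filter (fun r => r.Prime ∧ jacobiSym D r = 1) := by
      apply Finset.filter_subset_filter
      exact Finset.Icc_subset_Icc_right (Nat.floor_le_floor h2)
    exact_mod_cast Finset.card_le_card h4

end Hp

end Pool.Agent.Lib.MP_d8bd92_nt
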