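import Pool.Agent.Lib.MP_d8bd92_nt.Hp.BS0
import Pool.Agent.Lib.MP_d8bd92_nt.Hp.AlD

set_option autoImplicit false

/-! The factorisation of the elements of a side. -/

namespace Pool.Agent.Lib.MP_d8bd92_nt

namespace Hp

open Finset Pool.Agent.Lib.Szpiro

/-- PROOF. `z = el D (x, y) f`, `norm z = x` (`el_norm`), `IsCoprime norm (im^2 D)` (`el_cop`). `|x| = w p^(l 0) q^(l 1)` with pairwise coprime factors; `lbl_natAbs_norm`, `lbl_coprime_mul` (twice),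
`lbl_pow` for the odd primes `p`, `q`. `lbl_mul_cj` for `p`, `q` (they divide `x` as `1 ≤ l i`). -/
theorem side_fac {K τ κ3 Y : ℝ} {l m : Fin (2 * 1) → ℕ} {D : ℤ} {f w ℓ : ℕ} {sg y : ℤ} {S : Finset ℤ}
    {p q : ℤ → ℕ} (hl : ∀ i, 1 ≤ l i) (h : TieSide K τ κ3 Y l m D f w ℓ sg y S p q) {x : ℤ} (hx : x ∈ S) :
    (el D (x, y) f).norm = x ∧
    Ideal.span {el D (x, y) f} = lbl w (el D (x, y) f) * lbl (p x) (el D (x, y) f) ^ l 0 *
      lbl (q x) (el D (x, y) f) ^ l 1 ∧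
    HN (lbl (p x) (el D (x, y) f)) (p x) ∧ HN (lbl (q x) (el D (x, y) f)) (q x) := by
  have hF : ((x, y) : ℤ × ℤ).2 = (f : ℤ) ^ 2 * D := h.hy
  have hn : (el D (x, y) f).norm = x := el_norm (w := (x, y)) (h.sq x hx) hF
  have hc := el_cop (w := (x, y)) (h.sq x hx) hF (h.cop x hx)
  obtain ⟨hp1, hp2, hp3, -⟩ := h.pp x hx
  obtain ⟨hq1, hq2, hq3, -⟩ := h.qq x hx
  have hpq : Nat.Coprime (p x) (q x) := (Nat.coprime_primes hp1 hq1).2 (h.pq x hx)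
  have hnat : x.natAbs = w * p x ^ l 0 * q x ^ l 1 := by
    have h1 := h.nrm x hx
    have h2 : x.natAbs = (sg * ((w * p x ^ l 0 * q x ^ l 1 : ℕ) : ℤ)).natAbs := congrArg Int.natAbs h1
    rw [h2, Int.natAbs_mul, Int.natAbs_natCast]
    rcases h.hsg with h3 | h3 <;> rw [h3] <;> simp
  have hdp : ((p x ^ l 0 : ℕ) : ℤ) ∣ (el D (x, y) f).norm := by
    rw [hn, Int.natCast_dvd, hnat]
    exact (dvd_mul_left _ _).mul_right _
  have hdq : ((q x ^ l 1 : ℕ) : ℤ) ∣ (el D (x, y) f).norm := by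
    rw [hn, Int.natCast_dvd, hnat]
    exact dvd_mul_left _ _
  have hdp1 : ((p x : ℕ) : ℤ) ∣ (el D (x, y) f).norm :=
    (Int.natCast_dvd_natCast.2 (dvd_pow_self _ (by have := hl 0; omega))).trans hdp
  have hdq1 : ((q x : ℕ) : ℤ) ∣ (el D (x, y) f).norm :=
    (Int.natCast_dvd_natCast.2 (dvd_pow_self _ (by have := hl 1; omega))).trans hdq
  refine ⟨hn, ?_, ⟨hp1.one_le, lbl_mul_cj _ hp2 hdp1 hc⟩, ⟨hq1.one_le, lbl_mul_cj _ hq2 hdq1 hc⟩⟩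
  rw [← lbl_natAbs_norm, hn, hnat,
    lbl_coprime_mul _ (Nat.Coprime.mul_left (Nat.Coprime.pow_right _ hq3) (Nat.Coprime.pow _ _ hpq)),
    lbl_coprime_mul _ (Nat.Coprime.pow_right _ hp3), lbl_pow _ hp2 hdp hc, lbl_pow _ hq2 hdq hc]

end Hp

end Pool.Agent.Lib.MP_d8bd92_nt
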