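import Pool.Agent.Lib.MP_d8bd92_nt.Hp.Defs

set_option autoImplicit false

/-! Block 6.6, part 0: the relation `Cmp` (comparable elements: the quotient `x / y` is balanced). -/

namespace Pool.Agent.Lib.MP_d8bd92_nt

namespace Hp

/-- `x / y` is `C`-balanced -/
def Cmp {D : ℤ} (C : ℝ) (x y : ℤ√D) : Prop :=
  ((hh (x * star y) : ℤ) : ℝ) ≤ C * ((|(x * star y).norm| : ℤ) : ℝ)

/-- PROOF. `hh (x y) = (x1 x2 + D y1 y2)^2 + |D| (x1 y2 + x2 y1)^2 ≤ 2 (x1^2 + |D| y1^2) (x2^2 + |D| y2^2)`. -/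
theorem Beta0_hh_mul {D : ℤ} (x y : ℤ√D) : hh (x * y) ≤ 2 * hh x * hh y := by
  have e1 : (x * y).re = x.re * y.re + D * x.im * y.im := by simp [Zsqrtd.re_mul]
  have e2 : (x * y).im = x.re * y.im + x.im * y.re := by simp [Zsqrtd.im_mul]
  unfold hh
  rw [e1, e2]
  rcases abs_cases D with ⟨hD, h0⟩ | ⟨hD, h0⟩
  · rw [hD]
    have k1 : 0 ≤ (x.re * y.re - D * x.im * y.im) ^ 2 := sq_nonneg _
    have k2 : 0 ≤ D * (x.re * y.im - x.im * y.re) ^ 2 := by positivity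
    nlinarith [k1, k2]
  · rw [hD]
    have k1 : 0 ≤ (x.re * y.re - D * x.im * y.im) ^ 2 := sq_nonneg _
    have k2 : 0 ≤ (-D) * (x.re * y.im - x.im * y.re) ^ 2 :=
      mul_nonneg (by linarith) (sq_nonneg _)
    nlinarith [k1, k2]

theorem Beta0_norm_le {D : ℤ} (x : ℤ√D) : |x.norm| ≤ hh x := by
  have e : x.norm = x.re ^ 2 - D * x.im ^ 2 := by
    rw [Zsqrtd.norm_def]
    ring
  rw [e]
  unfold hh
  have h1 : D * x.im ^ 2 ≤ |D| * x.im ^ 2 := mul_le_mul_of_nonneg_right (le_abs_self D) (sq_nonneg _)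
  have h2 : -(D * x.im ^ 2) ≤ |D| * x.im ^ 2 := by
    have := mul_le_mul_of_nonneg_right (neg_le_abs D) (sq_nonneg x.im)
    linarith
  have h3 : 0 ≤ x.re ^ 2 := sq_nonneg _
  rw [abs_le]
  constructor
  · linarith
  · linarith

theorem Beta0_hh_star {D : ℤ} (x : ℤ√D) : hh (star x) = hh x := by
  unfold hh
  simp

theorem Beta0_hh_int {D : ℤ} (n : ℤ) (x : ℤ√D) : hh ((n : ℤ√D) * x) = n ^ 2 * hh x := by
  have e1 : (((n : ℤ√D)) * x).re = n * x.re := by simp [Zsqrtd.re_mul]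
  have e2 : (((n : ℤ√D)) * x).im = n * x.im := by simp [Zsqrtd.im_mul]
  unfold hh
  rw [e1, e2]
  ring

theorem Beta0_hh_pos {D : ℤ} (hD : D ≠ 0) {x : ℤ√D} (hx : x ≠ 0) : 1 ≤ hh x := by
  unfold hh
  have hDp : 1 ≤ |D| := Int.one_le_abs hD
  by_cases hre : x.re = 0
  · have him : x.im ≠ 0 := by
      intro h
      apply hx
      ext
      · simpa using hre
      · simpa using h
    have h1 : 1 ≤ x.im ^ 2 := by
      have : 0 < x.im ^ 2 := by positivity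
      linarith
    have h2 : 0 ≤ x.re ^ 2 := sq_nonneg _
    nlinarith [h1, h2, hDp]
  · have h1 : 1 ≤ x.re ^ 2 := by
      have : 0 < x.re ^ 2 := by positivity
      linarith
    have h2 : 0 ≤ |D| * x.im ^ 2 := by positivity
    linarith

theorem Beta0_symm {D : ℤ} {C : ℝ} {x y : ℤ√D} (h : Cmp C x y) : Cmp C y x := by
  unfold Cmp at h ⊢
  have e : y * star x = star (x * star y) := by
    rw [star_mul, star_star]
  rw [e, Beta0_hh_star, Zsqrtd.norm_conj]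
  exact h

theorem Beta0_mono {D : ℤ} {C C' : ℝ} {x y : ℤ√D} (h : Cmp C x y) (hC : C ≤ C') : Cmp C' x y := by
  unfold Cmp at h ⊢
  have h0 : (0 : ℝ) ≤ ((|(x * star y).norm| : ℤ) : ℝ) := by exact_mod_cast abs_nonneg _
  exact le_trans h (mul_le_mul_of_nonneg_right hC h0)

/-- PROOF. `x x' star (y y') = (x star y) (x' star y')`, `Beta0_hh_mul`, `norm` is multiplicative. -/
theorem Beta0_mul {D : ℤ} {C C' : ℝ} {x y x' y' : ℤ√D} (hC : 0 ≤ C) (hC' : 0 ≤ C') (h : Cmp C x y)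
    (h' : Cmp C' x' y') : Cmp (2 * C * C') (x * x') (y * y') := by
  unfold Cmp at h h' ⊢
  have e : x * x' * star (y * y') = (x * star y) * (x' * star y') := by
    rw [star_mul]
    ring
  rw [e]
  have h1 : ((hh ((x * star y) * (x' * star y')) : ℤ) : ℝ)
      ≤ 2 * ((hh (x * star y) : ℤ) : ℝ) * ((hh (x' * star y') : ℤ) : ℝ) := by
    exact_mod_cast Beta0_hh_mul (x * star y) (x' * star y')
  have hN : ((|((x * star y) * (x' * star y')).norm| : ℤ) : ℝ)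
      = ((|(x * star y).norm| : ℤ) : ℝ) * ((|(x' * star y').norm| : ℤ) : ℝ) := by
    rw [Zsqrtd.norm_mul, abs_mul]
    push_cast
    ring
  have h0 : (0 : ℝ) ≤ ((|(x * star y).norm| : ℤ) : ℝ) := by exact_mod_cast abs_nonneg _
  have hh0 : (0 : ℝ) ≤ ((hh (x' * star y') : ℤ) : ℝ) := by
    have h2 : (0 : ℤ) ≤ hh (x' * star y') := le_trans (abs_nonneg _) (Beta0_norm_le _)
    exact_mod_cast h2
  have h2 := mul_le_mul h h' hh0 (mul_nonneg hC h0)
  rw [hN]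
  calc ((hh ((x * star y) * (x' * star y')) : ℤ) : ℝ)
      ≤ 2 * ((hh (x * star y) : ℤ) : ℝ) * ((hh (x' * star y') : ℤ) : ℝ) := h1
    _ = 2 * (((hh (x * star y) : ℤ) : ℝ) * ((hh (x' * star y') : ℤ) : ℝ)) := by ring
    _ ≤ 2 * (C * ((|(x * star y).norm| : ℤ) : ℝ) * (C' * ((|(x' * star y').norm| : ℤ) : ℝ))) := by
        linarith
    _ = 2 * C * C' * (((|(x * star y).norm| : ℤ) : ℝ) * ((|(x' * star y').norm| : ℤ) : ℝ)) := by ring

/-- (induction; `Cmp 1 1 1`) -/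
theorem Beta0_pow {D : ℤ} {C : ℝ} (hC : 1 ≤ C) {x y : ℤ√D} (h : Cmp C x y) (n : ℕ) :
    Cmp ((2 * C) ^ n) (x ^ n) (y ^ n) := by
  induction n with
  | zero =>
    unfold Cmp
    simp [hh]
  | succ n ih =>
    have h0 : (0 : ℝ) ≤ (2 * C) ^ n := by positivity
    have h1 := Beta0_mul h0 (by linarith : (0 : ℝ) ≤ C) ih h
    have e : 2 * (2 * C) ^ n * C = (2 * C) ^ (n + 1) := by ring
    rw [e] at h1
    rw [pow_succ, pow_succ y]
    exact h1

/-- multiplication of one side by a natural number (`hh` and `|norm|` are both multiplied by its square) -/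
theorem Beta0_nat {D : ℤ} {C : ℝ} {x y : ℤ√D} (h : Cmp C x y) (n : ℕ) : Cmp C (x * (n : ℤ√D)) y := by
  unfold Cmp at h ⊢
  have e : x * (n : ℤ√D) * star y = ((n : ℤ) : ℤ√D) * (x * star y) := by
    push_cast
    ring
  rw [e, Beta0_hh_int, Zsqrtd.norm_mul, Zsqrtd.norm_intCast, abs_mul]
  have e2 : |(n : ℤ) * (n : ℤ)| = (n : ℤ) ^ 2 := by
    rw [abs_of_nonneg (by positivity)]
    ring
  rw [e2]
  push_cast at h ⊢
  have hn : (0 : ℝ) ≤ (n : ℝ) ^ 2 := by positivity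
  have h2 := mul_le_mul_of_nonneg_left h hn
  linarith [h2]

/-- the quotient: if `x = ω z`, `z ≠ 0`, `Cmp C x z` then `hh ω ≤ C |norm ω|`. PROOF. `x * star z = ω * norm z`, so `hh (x star z) = (norm z)^2 hh ω`,
`|norm (x star z)| = |norm ω| (norm z)^2`, `norm z ≠ 0` (`Zsqrtd.norm_eq_zero`). -/
theorem Beta0_quot {D : ℤ} (hD : ¬ IsSquare D) {C : ℝ} {x z ω : ℤ√D} (hz : z ≠ 0) (h : x = ω * z)
    (hc : Cmp C x z) : ((hh ω : ℤ) : ℝ) ≤ C * ((|ω.norm| : ℤ) : ℝ) := by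
  have hN : z.norm ≠ 0 := by
    intro h0
    apply hz
    have hD' : ∀ n : ℤ, D ≠ n * n := by
      intro n hn
      exact hD ⟨n, hn⟩
    exact (Zsqrtd.norm_eq_zero hD' z).1 h0
  unfold Cmp at hc
  have e : x * star z = ((z.norm : ℤ) : ℤ√D) * ω := by
    rw [h, mul_assoc, ← Zsqrtd.norm_eq_mul_conj]
    ring
  rw [e, Beta0_hh_int, Zsqrtd.norm_mul, Zsqrtd.norm_intCast, abs_mul] at hc
  have e2 : |z.norm * z.norm| = z.norm ^ 2 := by
    rw [abs_of_nonneg (mul_self_nonneg _)]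
    ring
  rw [e2] at hc
  push_cast at hc ⊢
  have hp : (0 : ℝ) < ((z.norm : ℤ) : ℝ) ^ 2 := by
    have : ((z.norm : ℤ) : ℝ) ≠ 0 := by exact_mod_cast hN
    positivity
  have h3 : ((z.norm : ℤ) : ℝ) ^ 2 * ((hh ω : ℤ) : ℝ) ≤ ((z.norm : ℤ) : ℝ) ^ 2 * (C * |((ω.norm : ℤ) : ℝ)|) := by
    linarith [hc]
  exact le_of_mul_le_mul_left h3 hp

end Hp

end Pool.Agent.Lib.MP_d8bd92_nt
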