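import Pool.Agent.Lib.MP_d8bd92_nt.Hp.Defs

set_option autoImplicit false

/-! Block 6.6, part 1: two configurations with the same label give the elements `ω₁`, `ω₂`. -/

namespace Pool.Agent.Lib.MP_d8bd92_nt

namespace Hp

/-- PROOF. If `x y = 0` then `norm x * norm y = 0`, and `norm x = 0` only for `x = 0` (`Zsqrtd.norm_eq_zero`). -/
theorem Beta1_domain {D : ℤ} (hD : ¬ IsSquare D) : IsDomain (ℤ√D) := by
  have hD' : ∀ n : ℤ, D ≠ n * n := fun n hn => hD ⟨n, hn⟩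
  have : NoZeroDivisors (ℤ√D) := by
    refine ⟨?_⟩
    intro x y hxy
    have h1 : x.norm * y.norm = 0 := by
      rw [← Zsqrtd.norm_mul, hxy, Zsqrtd.norm_zero]
    rcases mul_eq_zero.1 h1 with h2 | h2
    · exact Or.inl ((Zsqrtd.norm_eq_zero hD' x).1 h2)
    · exact Or.inr ((Zsqrtd.norm_eq_zero hD' y).1 h2)
  exact NoZeroDivisors.to_isDomain _

/-- PROOF. `cj` is `Ideal.map` of the ring automorphism `star`: `Ideal.map_mul`, `Ideal.map_map`, `Ideal.map_span`. -/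
theorem Beta1_cj_mul {D : ℤ} (I J : Ideal (ℤ√D)) : cj (I * J) = cj I * cj J := by
  unfold cj
  exact Ideal.map_mul _ I J

theorem Beta1_cj_cj {D : ℤ} (I : Ideal (ℤ√D)) : cj (cj I) = I := by
  unfold cj
  rw [Ideal.map_map]
  have h : (starRingEnd (ℤ√D)).comp (starRingEnd (ℤ√D)) = RingHom.id (ℤ√D) := by
    refine RingHom.ext fun x => ?_
    show starRingEnd (ℤ√D) (starRingEnd (ℤ√D) x) = x
    exact star_star x
  rw [h, Ideal.map_id]

theorem Beta1_cj_pow {D : ℤ} (I : Ideal (ℤ√D)) (n : ℕ) : cj (I ^ n) = cj I ^ n := by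
  unfold cj
  exact Ideal.map_pow _ I n

theorem Beta1_cj_span {D : ℤ} (x : ℤ√D) : cj (Ideal.span {x}) = Ideal.span {star x} := by
  unfold cj
  rw [Ideal.map_span, Set.image_singleton]
  rfl

/-- PROOF. `x ∈ J * span {z}` gives `ω ∈ J` with `ω z = x` (`Ideal.mem_mul_span_singleton`), and `span {ω} * span {z} = J * span {z}` can be cancelled in the
domain. -/
theorem Beta1_quot {D : ℤ} (hD : ¬ IsSquare D) {x z : ℤ√D} (hz : z ≠ 0) {J : Ideal (ℤ√D)}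
    (h : Ideal.span {x} = J * Ideal.span {z}) : ∃ ω : ℤ√D, x = ω * z ∧ Ideal.span {ω} = J := by
  have := Beta1_domain hD
  have hx : x ∈ J * Ideal.span {z} := by
    rw [← h]
    exact Ideal.mem_span_singleton_self x
  obtain ⟨ω, _, hω2⟩ := Ideal.mem_mul_span_singleton.1 hx
  refine ⟨ω, hω2.symm, ?_⟩
  have h1 : Ideal.span {ω} * Ideal.span {z} = J * Ideal.span {z} := by
    rw [Ideal.span_singleton_mul_span_singleton, hω2, h]
  exact Ideal.span_singleton_mul_left_injective hz h1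

/-- PROOF. `span {ω} * cj (span {ω}) = span {norm ω}`; two integers `m`, `n` with `span {m} = span {n}` in `ℤ√D` satisfy `m = ± n` (`m = n * z` implies `z.im = 0`
or `n = 0`). -/
theorem Beta1_norm {D : ℤ} {ω : ℤ√D} {J : Ideal (ℤ√D)} {n : ℕ} (h : Ideal.span {ω} = J)
    (hJ : J * cj J = Ideal.span {(n : ℤ√D)}) : |ω.norm| = n := by
  subst h
  rw [Beta1_cj_span, Ideal.span_singleton_mul_span_singleton, ← Zsqrtd.norm_eq_mul_conj] at hJ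
  have h1 : ((n : ℤ) : ℤ√D) ∣ ((ω.norm : ℤ) : ℤ√D) := by
    have h2 : ((ω.norm : ℤ) : ℤ√D) ∈ Ideal.span {(n : ℤ√D)} := by
      rw [← hJ]
      exact Ideal.mem_span_singleton_self _
    have h3 := Ideal.mem_span_singleton.1 h2
    exact_mod_cast h3
  have h1' : ((ω.norm : ℤ) : ℤ√D) ∣ ((n : ℤ) : ℤ√D) := by
    have h2 : (n : ℤ√D) ∈ Ideal.span {((ω.norm : ℤ) : ℤ√D)} := by
      rw [hJ]
      exact Ideal.mem_span_singleton_self _
    have h3 := Ideal.mem_span_singleton.1 h2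
    exact_mod_cast h3
  have h4 : (n : ℤ) ∣ ω.norm := (Zsqrtd.intCast_dvd_intCast _ _).1 h1
  have h5 : ω.norm ∣ (n : ℤ) := (Zsqrtd.intCast_dvd_intCast _ _).1 h1'
  have h6 : ω.norm.natAbs = (n : ℤ).natAbs :=
    Nat.dvd_antisymm (Int.natAbs_dvd_natAbs.2 h5) (Int.natAbs_dvd_natAbs.2 h4)
  rw [Int.abs_eq_natAbs, h6]
  rfl

theorem Beta1_id1 {R : Type*} [CommSemiring R] {a b u v : ℕ} (hab : a * u = b * v + 1)
    {w P P' Q Q' T T' cP' cT L M A A' N S : R} (hα : A = w * P ^ u * Q ^ v)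
    (hα' : A' = w * P' ^ u * Q' ^ v) (hp' : P' * cP' = N) (hr : T * cT = S)
    (h : L * (P ^ b * Q ^ a * T) = M * (P' ^ b * Q' ^ a * T')) :
    A ^ a * L ^ v * (N * S ^ v) = (P * cP' * (T' * cT) ^ v) * (A' ^ a * M ^ v) := by
  have hP : P ^ (a * u) = P ^ (b * v) * P := by rw [hab, pow_succ]
  have hP' : P' ^ (a * u) = P' ^ (b * v) * P' := by rw [hab, pow_succ]
  rw [hα, hα', ← hp', ← hr]
  calc (w * P ^ u * Q ^ v) ^ a * L ^ v * ((P' * cP') * (T * cT) ^ v)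
      = w ^ a * P ^ (a * u) * Q ^ (a * v) * L ^ v * ((P' * cP') * (T * cT) ^ v) := by ring
    _ = (w ^ a * P * P' * cP' * cT ^ v) * (L * (P ^ b * Q ^ a * T)) ^ v := by
        rw [hP]; ring
    _ = (w ^ a * P * P' * cP' * cT ^ v) * (M * (P' ^ b * Q' ^ a * T')) ^ v := by rw [h]
    _ = (P * cP' * (T' * cT) ^ v) * ((w ^ a * (P' ^ (b * v) * P') * Q' ^ (a * v)) * M ^ v) := by
        ring
    _ = (P * cP' * (T' * cT) ^ v) * ((w * P' ^ u * Q' ^ v) ^ a * M ^ v) := by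
        rw [← hP']; ring

theorem Beta1_id2 {R : Type*} [CommSemiring R] {a b u v : ℕ} (hab : a * u = b * v + 1)
    {w P P' Q Q' T T' cQ' cT' L M A A' N S : R} (hα : A = w * P ^ u * Q ^ v)
    (hα' : A' = w * P' ^ u * Q' ^ v) (hq' : Q' * cQ' = N) (hr' : T' * cT' = S)
    (h : L * (P ^ b * Q ^ a * T) = M * (P' ^ b * Q' ^ a * T')) :
    A' ^ b * M ^ u * (N * S ^ u) = (Q * cQ' * (T * cT') ^ u) * (A ^ b * L ^ u) := by
  have hQ : Q ^ (a * u) = Q ^ (b * v) * Q := by rw [hab, pow_succ]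
  have hQ' : Q' ^ (a * u) = Q' ^ (b * v) * Q' := by rw [hab, pow_succ]
  rw [hα, hα', ← hq', ← hr']
  calc (w * P' ^ u * Q' ^ v) ^ b * M ^ u * ((Q' * cQ') * (T' * cT') ^ u)
      = (w ^ b * cQ' * cT' ^ u) * (P' ^ (b * u) * (Q' ^ (b * v) * Q') * T' ^ u * M ^ u) := by ring
    _ = (w ^ b * cQ' * cT' ^ u) * (M * (P' ^ b * Q' ^ a * T')) ^ u := by
        rw [← hQ']; ring
    _ = (w ^ b * cQ' * cT' ^ u) * (L * (P ^ b * Q ^ a * T)) ^ u := by rw [h]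
    _ = (w ^ b * cQ' * cT' ^ u) * (P ^ (b * u) * Q ^ (a * u) * T ^ u * L ^ u) := by ring
    _ = (Q * cQ' * (T * cT') ^ u) * ((w * P ^ u * Q ^ v) ^ b * L ^ u) := by
        rw [hQ]; ring

/-- PROOF. By `h ^ v` and `a u = b v + 1`: `span {α^a e'^v p' r^v} = 𝔴^a P^(ua) Q^(va) (e')^v (P' cj P') (T cj T)^v
= 𝔴^a P ((e')^v P^(bv) Q^(av) T^v) (P' cj P') (cj T)^v = 𝔴^a P ((e)^v P'^(bv) Q'^(av) T'^v) (P' cj P') (cj T)^v
= P cj P' (T' cj T)^v * span {α'^a e^v}`; and by `h ^ u`: `Q cj Q' (T cj T')^u span {α^b e'^u}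
= 𝔴^b cj Q' (cj T')^u ((e')^u P^(bu) Q^(au) T^u) = 𝔴^b cj Q' (cj T')^u (e)^u P'^(bu) Q'^(au) T'^u = span {α'^b e^u q' r'^u}`. `Beta1_quot` gives
`ω₁`, `ω₂`. The last identity: raise the two defining identities to the powers `u`, `v`, multiply, cancel
`e^(uv) e'^(uv) α^(bv) α'^(bv)`. -/
theorem Beta1_collision {D : ℤ} (hD : ¬ IsSquare D) {a b u v : ℕ} (hab : a * u = b * v + 1)
    {𝔴 P P' Q Q' T T' : Ideal (ℤ√D)} {α α' e e' : ℤ√D} {p' q' r r' : ℕ}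
    (hα : Ideal.span {α} = 𝔴 * P ^ u * Q ^ v) (hα' : Ideal.span {α'} = 𝔴 * P' ^ u * Q' ^ v)
    (hα0 : α ≠ 0) (hα0' : α' ≠ 0) (he0 : e ≠ 0) (he0' : e' ≠ 0)
    (hp' : P' * cj P' = Ideal.span {(p' : ℤ√D)}) (hq' : Q' * cj Q' = Ideal.span {(q' : ℤ√D)})
    (hr : T * cj T = Ideal.span {(r : ℤ√D)}) (hr' : T' * cj T' = Ideal.span {(r' : ℤ√D)})
    (h : Ideal.span {e'} * (P ^ b * Q ^ a * T) = Ideal.span {e} * (P' ^ b * Q' ^ a * T')) :
    ∃ ω₁ ω₂ : ℤ√D,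
      α ^ a * e' ^ v * ((p' * r ^ v : ℕ) : ℤ√D) = ω₁ * (α' ^ a * e ^ v) ∧
      Ideal.span {ω₁} = P * cj P' * (T' * cj T) ^ v ∧
      α' ^ b * e ^ u * ((q' * r' ^ u : ℕ) : ℤ√D) = ω₂ * (α ^ b * e' ^ u) ∧
      Ideal.span {ω₂} = Q * cj Q' * (T * cj T') ^ u ∧
      ω₁ ^ u * ω₂ ^ v * α' = α * ((p' ^ u * q' ^ v * (r * r') ^ (u * v) : ℕ) : ℤ√D) := by
  have := Beta1_domain hD
  have k1 : Ideal.span {α ^ a * e' ^ v * ((p' * r ^ v : ℕ) : ℤ√D)} =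
      (P * cj P' * (T' * cj T) ^ v) * Ideal.span {α' ^ a * e ^ v} := by
    have h1 := Beta1_id1 hab hα hα' hp' hr h
    simp only [Ideal.span_singleton_pow, Ideal.span_singleton_mul_span_singleton] at h1
    rw [← h1]
    push_cast
    rfl
  have k2 : Ideal.span {α' ^ b * e ^ u * ((q' * r' ^ u : ℕ) : ℤ√D)} =
      (Q * cj Q' * (T * cj T') ^ u) * Ideal.span {α ^ b * e' ^ u} := by
    have h1 := Beta1_id2 hab hα hα' hq' hr' h
    simp only [Ideal.span_singleton_pow, Ideal.span_singleton_mul_span_singleton] at h1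
    rw [← h1]
    push_cast
    rfl
  obtain ⟨ω₁, e1, s1⟩ := Beta1_quot hD
    (mul_ne_zero (pow_ne_zero a hα0') (pow_ne_zero v he0)) k1
  obtain ⟨ω₂, e2, s2⟩ := Beta1_quot hD
    (mul_ne_zero (pow_ne_zero b hα0) (pow_ne_zero u he0')) k2
  refine ⟨ω₁, ω₂, e1, s1, e2, s2, ?_⟩
  have hA : α ^ (a * u) = α ^ (b * v) * α := by rw [hab, pow_succ]
  have hA' : α' ^ (a * u) = α' ^ (b * v) * α' := by rw [hab, pow_succ]
  have hK : e ^ (u * v) * e' ^ (u * v) * (α ^ (b * v) * α' ^ (b * v)) ≠ 0 :=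
    mul_ne_zero (mul_ne_zero (pow_ne_zero _ he0) (pow_ne_zero _ he0'))
      (mul_ne_zero (pow_ne_zero _ hα0) (pow_ne_zero _ hα0'))
  apply mul_left_cancel₀ hK
  push_cast at e1 e2 ⊢
  calc e ^ (u * v) * e' ^ (u * v) * (α ^ (b * v) * α' ^ (b * v)) * (ω₁ ^ u * ω₂ ^ v * α')
      = ω₁ ^ u * ω₂ ^ v * (α' ^ (b * v) * α') * e ^ (u * v) * (α ^ (b * v) * e' ^ (u * v)) := by ring
    _ = (ω₁ * (α' ^ a * e ^ v)) ^ u * (ω₂ * (α ^ b * e' ^ u)) ^ v := by rw [← hA']; ring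
    _ = (α ^ a * e' ^ v * ((p' : ℤ√D) * (r : ℤ√D) ^ v)) ^ u *
        (α' ^ b * e ^ u * ((q' : ℤ√D) * (r' : ℤ√D) ^ u)) ^ v := by rw [e1, e2]
    _ = α ^ (a * u) * e' ^ (u * v) * ((p' : ℤ√D) ^ u * (r : ℤ√D) ^ (u * v)) *
        (α' ^ (b * v) * e ^ (u * v) * ((q' : ℤ√D) ^ v * (r' : ℤ√D) ^ (u * v))) := by ring
    _ = _ := by rw [hA]; ring

/-- PROOF. `J = P cj P' (T' cj T)^v`, `J cj J = span {p p' (r r')^v}`, `Beta1_norm`. -/
theorem Beta1_norm_omega {D : ℤ} {P P' T T' : Ideal (ℤ√D)} {p p' r r' v : ℕ} {ω : ℤ√D}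
    (hp : P * cj P = Ideal.span {(p : ℤ√D)}) (hp' : P' * cj P' = Ideal.span {(p' : ℤ√D)})
    (hr : T * cj T = Ideal.span {(r : ℤ√D)}) (hr' : T' * cj T' = Ideal.span {(r' : ℤ√D)})
    (h : Ideal.span {ω} = P * cj P' * (T' * cj T) ^ v) :
    |ω.norm| = ((p * p' * (r * r') ^ v : ℕ) : ℤ) := by
  refine Beta1_norm h ?_
  rw [Beta1_cj_mul, Beta1_cj_mul, Beta1_cj_pow, Beta1_cj_mul, Beta1_cj_cj, Beta1_cj_cj]
  calc P * cj P' * (T' * cj T) ^ v * (cj P * P' * (cj T' * T) ^ v)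
      = (P * cj P) * (P' * cj P') * ((T * cj T) * (T' * cj T')) ^ v := by ring
    _ = Ideal.span {((p * p' * (r * r') ^ v : ℕ) : ℤ√D)} := by
        rw [hp, hp', hr, hr']
        simp only [Ideal.span_singleton_pow, Ideal.span_singleton_mul_span_singleton]
        push_cast
        rfl

end Hp

end Pool.Agent.Lib.MP_d8bd92_nt
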