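import Mathlib

set_option autoImplicit false

/-!
The algebraic congruence of the beta trick: if `q² ∣ Im (ω₁ ^ u * ω₂ ^ v)`, `q ∥ D`, and the rational parts are prime to `q`, then
`q ∣ z = u y₁ x₂ + v y₂ x₁` and `3 u (z/q) x₂ ≡ (D/q) (u² - v²) y₁ y₂²` modulo `q`.
-/

namespace Pool.Agent.Lib.MP_d8bd92_nt

namespace Hp

/-- Expansion of `(x + y √D) ^ u` modulo `D²`. -/
theorem ba_expand {D : ℤ} (w : ℤ√D) (u : ℕ) : ∃ a b : ℤ,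
    6 * w.re ^ 3 * (w ^ u).re = w.re ^ u * (6 * w.re ^ 3 + 3 * u * (u - 1) * w.re * w.im ^ 2 * D) + D ^ 2 * a ∧
    6 * w.re ^ 3 * (w ^ u).im = w.re ^ u * (6 * u * w.re ^ 2 * w.im + u * (u - 1) * (u - 2) * w.im ^ 3 * D) + D ^ 2 * b := by
  induction u with
  | zero =>
    refine ⟨0, 0, ?_, ?_⟩
    · simp
    · simp
  | succ n ih =>
    obtain ⟨a, b, h1, h2⟩ := ih
    refine ⟨w.re * a + D * w.im * b + w.re ^ n * (n * (n - 1) * (n - 2) * w.im ^ 4),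
      w.re * b + w.im * a, ?_, ?_⟩
    · rw [pow_succ w n, Zsqrtd.re_mul]
      push_cast
      linear_combination w.re * h1 + D * w.im * h2
    · rw [pow_succ w n, Zsqrtd.im_mul]
      push_cast
      linear_combination w.re * h2 + w.im * h1

/-- The congruence. -/
theorem beta_congr {D : ℤ} {q : ℤ} (hq : Prime q) (hq6 : ¬ q ∣ 6) (D' : ℤ) (hD : D = q * D') (u v : ℕ)
    (hu : ¬ q ∣ (u : ℤ)) (w₁ w₂ : ℤ√D) (h₁ : ¬ q ∣ w₁.re) (h₂ : ¬ q ∣ w₂.re)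
    (him : q ^ 2 ∣ (w₁ ^ u * w₂ ^ v).im) :
    ∃ j : ℤ, u * w₁.im * w₂.re + v * w₂.im * w₁.re = q * j ∧
      q ∣ 3 * u * j * w₂.re - D' * ((u : ℤ) ^ 2 - (v : ℤ) ^ 2) * w₁.im * w₂.im ^ 2 := by
  obtain ⟨a₁, b₁, e1, e2⟩ := ba_expand w₁ u
  obtain ⟨a₂, b₂, e3, e4⟩ := ba_expand w₂ v
  obtain ⟨k, hk⟩ := him
  rw [Zsqrtd.im_mul] at hk
  set x₁ := w₁.re with hx₁
  set y₁ := w₁.im with hy₁
  set x₂ := w₂.re with hx₂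
  set y₂ := w₂.im with hy₂
  set P₁ := (w₁ ^ u).re
  set Q₁ := (w₁ ^ u).im
  set P₂ := (w₂ ^ v).re
  set Q₂ := (w₂ ^ v).im
  -- the product of the expansions
  have hmain : ∃ T : ℤ, x₁ ^ u * x₂ ^ v * (36 * x₁ ^ 2 * x₂ ^ 2 * (u * y₁ * x₂ + v * y₂ * x₁) +
      D * (6 * ((v * (v - 1) * (v - 2)) * (x₁ * y₂) ^ 3 + (u * (u - 1) * (u - 2)) * (x₂ * y₁) ^ 3 +
        3 * u * v * (v - 1) * (x₂ * y₁) * (x₁ * y₂) ^ 2 + 3 * v * u * (u - 1) * (x₂ * y₁) ^ 2 * (x₁ * y₂)))) =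
      q ^ 2 * T := by
    refine ⟨36 * x₁ ^ 3 * x₂ ^ 3 * k - D' ^ 2 *
      (x₁ ^ u * x₂ ^ v * (3 * u * (u - 1) * x₁ * y₁ ^ 2 * (v * (v - 1) * (v - 2) * y₂ ^ 3) +
        u * (u - 1) * (u - 2) * y₁ ^ 3 * (3 * v * (v - 1) * x₂ * y₂ ^ 2)) +
       a₁ * (6 * x₂ ^ 3 * Q₂) + x₁ ^ u * (6 * x₁ ^ 3 + 3 * u * (u - 1) * x₁ * y₁ ^ 2 * D) * b₂ +
       b₁ * (6 * x₂ ^ 3 * P₂) + x₁ ^ u * (6 * u * x₁ ^ 2 * y₁ + u * (u - 1) * (u - 2) * y₁ ^ 3 * D) * a₂), ?_⟩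
    subst hD
    linear_combination 36 * x₁ ^ 3 * x₂ ^ 3 * hk - (6 * x₂ ^ 3 * Q₂) * e1 -
      x₁ ^ u * (6 * x₁ ^ 3 + 3 * u * (u - 1) * x₁ * y₁ ^ 2 * (q * D')) * e4 -
      (6 * x₂ ^ 3 * P₂) * e2 - x₁ ^ u * (6 * u * x₁ ^ 2 * y₁ + u * (u - 1) * (u - 2) * y₁ ^ 3 * (q * D')) * e3
  obtain ⟨T, hT⟩ := hmain
  have hnd : ∀ {x : ℤ}, ¬ q ∣ x → ∀ n : ℕ, ¬ q ∣ x ^ n := fun hx n h => hx (hq.dvd_of_dvd_pow h)
  have hcop : IsCoprime (q ^ 2) (x₁ ^ u * x₂ ^ v) := by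
    apply IsCoprime.pow_left
    rw [hq.irreducible.coprime_iff_not_dvd]
    intro h
    rcases hq.dvd_or_dvd h with h | h
    · exact hnd h₁ u h
    · exact hnd h₂ v h
  obtain ⟨M, hM⟩ := hcop.dvd_of_dvd_mul_left (Dvd.intro T hT.symm)
  have h36 : ¬ q ∣ 36 * x₁ ^ 2 * x₂ ^ 2 := by
    intro h
    rcases hq.dvd_or_dvd h with h | h
    · rcases hq.dvd_or_dvd h with h | h
      · exact hq6 (hq.dvd_of_dvd_pow (n := 2) (by norm_num; exact h))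
      · exact hnd h₁ 2 h
    · exact hnd h₂ 2 h
  obtain ⟨j, hj⟩ : q ∣ u * y₁ * x₂ + v * y₂ * x₁ := by
    have h : q ∣ (36 * x₁ ^ 2 * x₂ ^ 2) * (u * y₁ * x₂ + v * y₂ * x₁) := by
      rw [hD] at hM
      exact ⟨q * M - D' * (6 * ((v * (v - 1) * (v - 2)) * (x₁ * y₂) ^ 3 +
        (u * (u - 1) * (u - 2)) * (x₂ * y₁) ^ 3 + 3 * u * v * (v - 1) * (x₂ * y₁) * (x₁ * y₂) ^ 2 +
        3 * v * u * (u - 1) * (x₂ * y₁) ^ 2 * (x₁ * y₂))), by linear_combination hM⟩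
    exact (hq.dvd_or_dvd h).resolve_left h36
  refine ⟨j, hj, ?_⟩
  have hN : q ∣ 12 * (3 * x₁ ^ 2 * x₂ ^ 2 * j + D' * (v * (x₁ * y₂) ^ 3 + u * (x₂ * y₁) ^ 3)) := by
    refine ⟨M - 6 * D' * (q ^ 2 * j ^ 3 - 3 * (v * (x₁ * y₂) ^ 2 + u * (x₂ * y₁) ^ 2) * j), ?_⟩
    rw [hD] at hM
    have hq0 : q ≠ 0 := hq.ne_zero
    apply mul_left_cancel₀ hq0
    linear_combination hM - (36 * x₁ ^ 2 * x₂ ^ 2) * hj - 6 * q * D' *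
      ((u * y₁ * x₂ + v * y₂ * x₁) ^ 2 + (u * y₁ * x₂ + v * y₂ * x₁) * (q * j) + (q * j) ^ 2 -
        3 * (v * (x₁ * y₂) ^ 2 + u * (x₂ * y₁) ^ 2)) * hj
  have hN' : q ∣ 3 * x₁ ^ 2 * x₂ ^ 2 * j + D' * (v * (x₁ * y₂) ^ 3 + u * (x₂ * y₁) ^ 3) := by
    rcases hq.dvd_or_dvd hN with h | h
    · exfalso
      apply hq6
      apply hq.dvd_of_dvd_pow (n := 2)
      exact h.trans ⟨3, by norm_num⟩
    · exact h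
  have hG : q ∣ (u * x₁ ^ 2 * x₂) * (3 * u * j * x₂ - D' * ((u : ℤ) ^ 2 - (v : ℤ) ^ 2) * y₁ * y₂ ^ 2) := by
    obtain ⟨N, hN⟩ := hN'
    refine ⟨(u : ℤ) ^ 2 * N - D' * j * ((u : ℤ) ^ 2 * (x₁ * y₂) ^ 2 +
      u * (x₂ * y₁) * (u * (x₂ * y₁) - v * (x₁ * y₂))), ?_⟩
    linear_combination (u : ℤ) ^ 2 * hN - D' * ((u : ℤ) ^ 2 * (x₁ * y₂) ^ 2 +
      u * (x₂ * y₁) * (u * (x₂ * y₁) - v * (x₁ * y₂))) * hj
  rcases hq.dvd_or_dvd hG with h | h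
  · exfalso
    rcases hq.dvd_or_dvd h with h | h
    · rcases hq.dvd_or_dvd h with h | h
      · exact hu h
      · exact hnd h₁ 2 h
    · exact h₂ h
  · exact h

end Hp

end Pool.Agent.Lib.MP_d8bd92_nt
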