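import Pool.Agent.Lib.MP_d8bd92_nt.Hp.Defs
import Pool.Agent.Lib.MP_d8bd92_nt.Hp.BetaAlg

set_option autoImplicit false

/-! Block 6.6, part 2: the derivative trick modulo `ℓ ^ 2`. -/

namespace Pool.Agent.Lib.MP_d8bd92_nt

namespace Hp

/-- the algebra lemma in the form used below -/
theorem Beta2_algebra {D D' : ℤ} {ℓ : ℕ} (hℓ : ℓ.Prime) (hDℓ : D = ℓ * D') {u v : ℕ} (hu : 1 ≤ u)
    (huv : u < v) (hℓv : 2 * v < ℓ) (hℓ3 : 3 < ℓ) {ω₁ ω₂ : ℤ√D} (hx1 : ¬ (ℓ : ℤ) ∣ ω₁.re)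
    (hx2 : ¬ (ℓ : ℤ) ∣ ω₂.re) (h : (ℓ : ℤ) ^ 2 ∣ (ω₁ ^ u * ω₂ ^ v).im) :
    ∃ j : ℤ, (u : ℤ) * ω₁.im * ω₂.re + v * ω₂.im * ω₁.re = ℓ * j ∧
      (ℓ : ℤ) ∣ 3 * u * j * ω₂.re - D' * ((u : ℤ) ^ 2 - v ^ 2) * ω₁.im * ω₂.im ^ 2 := by
  refine beta_congr (q := (ℓ : ℤ)) (Nat.prime_iff_prime_int.mp hℓ) ?_ D' hDℓ u v ?_ ω₁ ω₂ hx1 hx2 h
  · intro h6
    have h6' : ℓ ∣ 6 := by exact_mod_cast h6
    have h7 : ℓ ∣ 2 * 3 := h6'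
    rcases (Nat.Prime.dvd_mul hℓ).mp h7 with h8 | h8
    · have := Nat.le_of_dvd (by norm_num) h8
      omega
    · have := Nat.le_of_dvd (by norm_num) h8
      omega
  · intro hu'
    have : ℓ ∣ u := by exact_mod_cast hu'
    have := Nat.le_of_dvd (by omega) this
    omega

theorem Beta2_small {ℓ : ℕ} {z : ℤ} {Y : ℕ} (hz : |z| ≤ Y) (hY : Y < ℓ) (h : (ℓ : ℤ) ∣ z) : z = 0 := by
  apply Int.eq_zero_of_abs_lt_dvd h
  exact lt_of_le_of_lt hz (by exact_mod_cast hY)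

theorem Beta2_nat {ℓ w : ℕ} (hw : 1 ≤ w) (hwl : w < ℓ) : ¬ (ℓ : ℤ) ∣ (w : ℤ) := by
  intro h
  have h' : ℓ ∣ w := by exact_mod_cast h
  have := Nat.le_of_dvd (by omega) h'
  omega

/-- the facts on one point -/
theorem Beta2_point {D' : ℤ} {ℓ : ℕ} (hℓ : ℓ.Prime) (hℓD' : ¬ (ℓ : ℤ) ∣ D') {u v : ℕ} (hu : 1 ≤ u)
    (huv : u < v) (hℓv : 2 * v < ℓ) (Y1 : ℕ) (hY : Y1 < ℓ)
    {x1 y1 x2 y2 j : ℤ} (h1 : |y1| ≤ Y1) (h2 : |y2| ≤ Y1) (hy1 : y1 ≠ 0) (hx2 : ¬ (ℓ : ℤ) ∣ x2)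
    (hj : (u : ℤ) * y1 * x2 + v * y2 * x1 = ℓ * j)
    (hd : (ℓ : ℤ) ∣ 3 * u * j * x2 - D' * ((u : ℤ) ^ 2 - v ^ 2) * y1 * y2 ^ 2) :
    y2 ≠ 0 ∧ ¬ (ℓ : ℤ) ∣ j := by
  have hp : Prime (ℓ : ℤ) := Nat.prime_iff_prime_int.mp hℓ
  have hnu : ¬ (ℓ : ℤ) ∣ (u : ℤ) := Beta2_nat hu (by omega)
  have hny1 : ¬ (ℓ : ℤ) ∣ y1 := fun h => hy1 (Beta2_small h1 hY h)
  have hy2 : y2 ≠ 0 := by
    intro h0
    have : (ℓ : ℤ) ∣ (u : ℤ) * y1 * x2 := ⟨j, by rw [← hj, h0]; ring⟩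
    rcases hp.dvd_or_dvd this with h | h
    · rcases hp.dvd_or_dvd h with h | h
      · exact hnu h
      · exact hny1 h
    · exact hx2 h
  refine ⟨hy2, ?_⟩
  intro hlj
  have h3 : (ℓ : ℤ) ∣ D' * ((u : ℤ) ^ 2 - v ^ 2) * y1 * y2 ^ 2 := by
    have h4 : (ℓ : ℤ) ∣ 3 * u * j * x2 := Dvd.dvd.mul_right (Dvd.dvd.mul_left hlj _) _
    have h5 := dvd_sub h4 hd
    have h6 : 3 * (u : ℤ) * j * x2 - (3 * u * j * x2 - D' * ((u : ℤ) ^ 2 - v ^ 2) * y1 * y2 ^ 2) =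
        D' * ((u : ℤ) ^ 2 - v ^ 2) * y1 * y2 ^ 2 := by ring
    rw [h6] at h5
    exact h5
  rcases hp.dvd_or_dvd h3 with h | h
  · rcases hp.dvd_or_dvd h with h | h
    · rcases hp.dvd_or_dvd h with h | h
      · exact hℓD' h
      · have h7 : ((u : ℤ) ^ 2 - v ^ 2) = -(((v - u : ℕ) : ℤ) * ((u + v : ℕ) : ℤ)) := by
          rw [Nat.cast_sub huv.le]
          push_cast
          ring
        rw [h7, dvd_neg] at h
        rcases hp.dvd_or_dvd h with h | h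
        · exact Beta2_nat (by omega) (by omega) h
        · exact Beta2_nat (by omega) (by omega) h
    · exact hny1 h
  · have := hp.dvd_of_dvd_pow h
    exact hy2 (Beta2_small h2 hY this)

/-- COUNTING. PROOF. The map `(x₁, y₁, x₂, y₂) ↦ (y₁, y₂, j, x₂ / ℓ)` (`ℓ j = u y₁ x₂ + v y₂ x₁`, floor division) is injective on `Z`: `ℓ` does not divide `j` (otherwise
`ℓ ∣ D' (u^2 - v^2) y₁ y₂^2`, `0 < v - u, u + v < ℓ`, so `ℓ ∣ y₁` or `ℓ ∣ y₂`, i.e. `y₁ = 0` or `y₂ = 0` because `|y| ≤ Y1 < ℓ`; `y₁ ≠ 0`; if `y₂ = 0`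
then `ℓ ∣ u y₁ x₂`, impossible); `y₂ ≠ 0` for the same reason. Given `(y₁, y₂, j)`, two values `x₂`, `x₂'` satisfy `ℓ ∣ 3 u j (x₂ - x₂')`, so
`ℓ ∣ x₂ - x₂'` and they are equal if `x₂ / ℓ = x₂' / ℓ`; then `x₁` is determined because `v y₂ ≠ 0`. The image lies in
`[-Y1, Y1]^2 × [-J, J] × [- X1/ℓ - 1, X1/ℓ]`. -/
theorem Beta2_count {D' : ℤ} {ℓ : ℕ} (hℓ : ℓ.Prime) (hℓD' : ¬ (ℓ : ℤ) ∣ D') {u v : ℕ} (hu : 1 ≤ u)
    (huv : u < v) (hℓv : 2 * v < ℓ) (hℓ3 : 3 < ℓ) (X1 Y1 J : ℕ) (hY : Y1 < ℓ) (hJ : (u + v) * X1 * Y1 ≤ J * ℓ)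
    (Z : Finset (ℤ × ℤ × ℤ × ℤ))
    (hZ : ∀ t ∈ Z, |t.1| ≤ X1 ∧ |t.2.1| ≤ Y1 ∧ |t.2.2.1| ≤ X1 ∧ |t.2.2.2| ≤ Y1 ∧ t.2.1 ≠ 0 ∧
      ¬ (ℓ : ℤ) ∣ t.2.2.1 ∧ ∃ j : ℤ, (u : ℤ) * t.2.1 * t.2.2.1 + v * t.2.2.2 * t.1 = ℓ * j ∧
        (ℓ : ℤ) ∣ 3 * u * j * t.2.2.1 - D' * ((u : ℤ) ^ 2 - v ^ 2) * t.2.1 * t.2.2.2 ^ 2) :
    Z.card ≤ (2 * Y1 + 1) ^ 2 * (2 * J + 1) * (2 * (X1 / ℓ) + 2) := by
  classical
  have hp : Prime (ℓ : ℤ) := Nat.prime_iff_prime_int.mp hℓ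
  have hl0 : 0 < ℓ := hℓ.pos
  have hlz : (0 : ℤ) < (ℓ : ℤ) := by exact_mod_cast hl0
  have hnu : ¬ (ℓ : ℤ) ∣ (u : ℤ) := Beta2_nat hu (by omega)
  have hn3 : ¬ (ℓ : ℤ) ∣ 3 := by
    have := Beta2_nat (ℓ := ℓ) (w := 3) (by norm_num) hℓ3
    exact_mod_cast this
  let f : ℤ × ℤ × ℤ × ℤ → ℤ × ℤ × ℤ × ℤ := fun t =>
    (t.2.1, t.2.2.2, ((u : ℤ) * t.2.1 * t.2.2.1 + v * t.2.2.2 * t.1) / ℓ, t.2.2.1 / ℓ)
  let T : Finset (ℤ × ℤ × ℤ × ℤ) :=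
    Finset.Icc (-(Y1 : ℤ)) Y1 ×ˢ Finset.Icc (-(Y1 : ℤ)) Y1 ×ˢ Finset.Icc (-(J : ℤ)) J ×ˢ
      Finset.Icc (-((X1 / ℓ : ℕ) : ℤ) - 1) ((X1 / ℓ : ℕ) : ℤ)
  have hcard : T.card = (2 * Y1 + 1) ^ 2 * (2 * J + 1) * (2 * (X1 / ℓ) + 2) := by
    have e1 : (Finset.Icc (-(Y1 : ℤ)) Y1).card = 2 * Y1 + 1 := by
      rw [Int.card_Icc]; omega
    have e2 : (Finset.Icc (-(J : ℤ)) J).card = 2 * J + 1 := by
      rw [Int.card_Icc]; omega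
    have e3 : (Finset.Icc (-((X1 / ℓ : ℕ) : ℤ) - 1) ((X1 / ℓ : ℕ) : ℤ)).card = 2 * (X1 / ℓ) + 2 := by
      rw [Int.card_Icc]
      generalize X1 / ℓ = w
      omega
    simp only [T, Finset.card_product]
    rw [e1, e2, e3]
    ring
  rw [← hcard]
  apply Finset.card_le_card_of_injOn f
  · intro t ht
    obtain ⟨h1, h2, h3, h4, h5, h6, j, hj, hd⟩ := hZ t ht
    have hjj : ((u : ℤ) * t.2.1 * t.2.2.1 + v * t.2.2.2 * t.1) / ℓ = j := by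
      rw [hj]
      exact Int.mul_ediv_cancel_left _ hlz.ne'
    have hjb : |j| ≤ J := by
      have h7 : (ℓ : ℤ) * |j| ≤ ℓ * J := by
        calc (ℓ : ℤ) * |j| = |(ℓ : ℤ) * j| := by rw [abs_mul, abs_of_pos hlz]
          _ = |(u : ℤ) * t.2.1 * t.2.2.1 + v * t.2.2.2 * t.1| := by rw [hj]
          _ ≤ |(u : ℤ) * t.2.1 * t.2.2.1| + |v * t.2.2.2 * t.1| := abs_add_le _ _
          _ = u * (|t.2.1| * |t.2.2.1|) + v * (|t.2.2.2| * |t.1|) := by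
              rw [abs_mul, abs_mul, abs_mul, abs_mul, Nat.abs_cast, Nat.abs_cast]
              ring
          _ ≤ u * ((Y1 : ℤ) * X1) + v * ((Y1 : ℤ) * X1) := by
              have a1 : |t.2.1| * |t.2.2.1| ≤ (Y1 : ℤ) * X1 :=
                mul_le_mul h2 h3 (abs_nonneg _) (by positivity)
              have a2 : |t.2.2.2| * |t.1| ≤ (Y1 : ℤ) * X1 :=
                mul_le_mul h4 h1 (abs_nonneg _) (by positivity)
              have b1 := mul_le_mul_of_nonneg_left a1 (show (0 : ℤ) ≤ (u : ℤ) by positivity)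
              have b2 := mul_le_mul_of_nonneg_left a2 (show (0 : ℤ) ≤ (v : ℤ) by positivity)
              linarith
          _ = (((u + v) * X1 * Y1 : ℕ) : ℤ) := by push_cast; ring
          _ ≤ ((J * ℓ : ℕ) : ℤ) := by exact_mod_cast hJ
          _ = ℓ * J := by push_cast; ring
      exact le_of_mul_le_mul_left h7 hlz
    have hx := abs_le.mp h3
    have hy := abs_le.mp h2
    have hy' := abs_le.mp h4
    have hjb' := abs_le.mp hjb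
    have hq1 : t.2.2.1 / (ℓ : ℤ) ≤ ((X1 / ℓ : ℕ) : ℤ) := by
      have := Int.ediv_le_ediv hlz hx.2
      push_cast
      exact this
    have hq2 : -((X1 / ℓ : ℕ) : ℤ) - 1 ≤ t.2.2.1 / (ℓ : ℤ) := by
      rw [Int.le_ediv_iff_mul_le hlz]
      have h8 : X1 < (X1 / ℓ + 1) * ℓ := by
        have := Nat.lt_mul_of_div_lt (Nat.lt_succ_self (X1 / ℓ)) hl0
        exact this
      have h9 : (X1 : ℤ) < (((X1 / ℓ : ℕ) : ℤ) + 1) * ℓ := by exact_mod_cast h8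
      have h10 : (-((X1 / ℓ : ℕ) : ℤ) - 1) * ℓ = -((((X1 / ℓ : ℕ) : ℤ) + 1) * ℓ) := by ring
      rw [h10]
      linarith [hx.1]
    simp only [f, T, Finset.coe_product, Set.mem_prod, Finset.coe_Icc, Set.mem_Icc, hjj]
    exact ⟨hy, hy', hjb', hq2, hq1⟩
  · intro t ht t' ht' hff
    obtain ⟨h1, h2, h3, h4, h5, h6, j, hj, hd⟩ := hZ t ht
    obtain ⟨h1', h2', h3', h4', h5', h6', j', hj', hd'⟩ := hZ t' ht'
    have hjj : ((u : ℤ) * t.2.1 * t.2.2.1 + v * t.2.2.2 * t.1) / ℓ = j := by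
      rw [hj]
      exact Int.mul_ediv_cancel_left _ hlz.ne'
    have hjj' : ((u : ℤ) * t'.2.1 * t'.2.2.1 + v * t'.2.2.2 * t'.1) / ℓ = j' := by
      rw [hj']
      exact Int.mul_ediv_cancel_left _ hlz.ne'
    simp only [f, Prod.mk.injEq, hjj, hjj'] at hff
    obtain ⟨e1, e2, e3, e4⟩ := hff
    obtain ⟨hy2, hlj⟩ := Beta2_point hℓ hℓD' hu huv hℓv Y1 hY h2 h4 h5 h6 hj hd
    subst e3
    have hx : t.2.2.1 = t'.2.2.1 := by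
      have h7 : (ℓ : ℤ) ∣ 3 * u * j * (t.2.2.1 - t'.2.2.1) := by
        have h8 := dvd_sub hd hd'
        rw [← e1, ← e2] at h8
        have h9 : 3 * (u : ℤ) * j * t.2.2.1 - D' * ((u : ℤ) ^ 2 - v ^ 2) * t.2.1 * t.2.2.2 ^ 2 -
            (3 * u * j * t'.2.2.1 - D' * ((u : ℤ) ^ 2 - v ^ 2) * t.2.1 * t.2.2.2 ^ 2) =
            3 * u * j * (t.2.2.1 - t'.2.2.1) := by ring
        rw [h9] at h8
        exact h8
      have h10 : (ℓ : ℤ) ∣ t.2.2.1 - t'.2.2.1 := by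
        rcases hp.dvd_or_dvd h7 with h | h
        · rcases hp.dvd_or_dvd h with h | h
          · rcases hp.dvd_or_dvd h with h | h
            · exact absurd h hn3
            · exact absurd h hnu
          · exact absurd h hlj
        · exact h
      have h11 : t.2.2.1 % (ℓ : ℤ) = t'.2.2.1 % (ℓ : ℤ) :=
        Int.emod_eq_emod_iff_emod_sub_eq_zero.mpr (Int.emod_eq_zero_of_dvd h10)
      have h12 := Int.emod_add_mul_ediv t.2.2.1 (ℓ : ℤ)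
      have h13 := Int.emod_add_mul_ediv t'.2.2.1 (ℓ : ℤ)
      rw [← h12, ← h13, h11, e4]
    have hx1 : t.1 = t'.1 := by
      have h14 : (v : ℤ) * t.2.2.2 * t.1 = v * t.2.2.2 * t'.1 := by
        have h15 := hj
        have h16 := hj'
        rw [← e1, ← e2, ← hx] at h16
        linarith
      have h17 : (v : ℤ) * t.2.2.2 ≠ 0 := by
        apply mul_ne_zero _ hy2
        have : 0 < v := by omega
        exact_mod_cast this.ne'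
      exact mul_left_cancel₀ h17 h14
    exact Prod.ext hx1 (Prod.ext e1 (Prod.ext hx e2))

end Hp

end Pool.Agent.Lib.MP_d8bd92_nt
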