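import Pool.Agent.Lib.MP_d8bd92_nt.Hp.BetaDefs
import Pool.Agent.Lib.MP_d8bd92_nt.Hp.Beta1

set_option autoImplicit false

/-! Block 6.6, part 3: the same label for one `s` and two small primes. -/

namespace Pool.Agent.Lib.MP_d8bd92_nt

namespace Hp

variable {D D' : ℤ} {f ℓ u v a b w : ℕ} {sg : ℤ} {𝔴 : Ideal (ℤ√D)} {ι : Type} {S : Finset ι}
  {α : ι → ℤ√D} {p q : ι → ℕ} {P Q : ι → Ideal (ℤ√D)} {Rc : Finset ℕ} {T : ℕ → Ideal (ℤ√D)} {C : ℝ}
  {N : ℕ} {lab : ι → ℕ → Fin N} {e : ι → ℕ → ℤ√D}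

theorem Beta3_prime_sq {r r' : ℕ} (hr : r.Prime) (hr' : r'.Prime) {k : ℤ} (h : ((r * r' : ℕ) : ℤ) = k ^ 2) :
    r = r' := by
  have h1 : r * r' = k.natAbs ^ 2 := by
    have h2 : (r * r' : ℕ) = (k ^ 2).natAbs := by rw [← h, Int.natAbs_natCast]
    rw [h2, Int.natAbs_pow]
  have h3 : r ∣ k.natAbs := hr.dvd_of_dvd_pow (h1 ▸ Dvd.intro r' rfl : r ∣ k.natAbs ^ 2)
  obtain ⟨m, hm⟩ := h3
  rw [hm] at h1
  have h4 : r' = r * m ^ 2 := by
    apply Nat.eq_of_mul_eq_mul_left hr.pos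
    rw [h1]
    ring
  have h5 : r ∣ r' := ⟨m ^ 2, h4⟩
  exact (Nat.prime_dvd_prime_iff_eq hr hr').mp h5

theorem Beta3_span_nat_mul {D : ℤ} (m n : ℕ) :
    (Ideal.span {(m : ℤ√D)} : Ideal (ℤ√D)) * Ideal.span {(n : ℤ√D)} = Ideal.span {((m * n : ℕ) : ℤ√D)} := by
  rw [Ideal.span_singleton_mul_span_singleton]
  push_cast
  rfl

theorem Beta3_core {D : ℤ} (hD : ¬ IsSquare D) {P Q T T' : Ideal (ℤ√D)} {x x' : ℤ√D} {p q r' a b : ℕ}
    (hp0 : p ≠ 0) (hq0 : q ≠ 0)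
    (hp : P * cj P = Ideal.span {(p : ℤ√D)}) (hq : Q * cj Q = Ideal.span {(q : ℤ√D)})
    (hr' : T' * cj T' = Ideal.span {(r' : ℤ√D)})
    (h : Ideal.span {x'} * (P ^ b * Q ^ a * T) = Ideal.span {x} * (P ^ b * Q ^ a * T')) :
    Ideal.span {x * (r' : ℤ√D)} = (T * cj T') * Ideal.span {x'} := by
  haveI := Beta1_domain hD
  have hn : (P ^ b * cj P ^ b) * (Q ^ a * cj Q ^ a) = Ideal.span {((p ^ b * q ^ a : ℕ) : ℤ√D)} := by
    rw [← mul_pow, ← mul_pow, hp, hq, Ideal.span_singleton_pow, Ideal.span_singleton_pow,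
      Ideal.span_singleton_mul_span_singleton]
    push_cast
    rfl
  have hne : ((p ^ b * q ^ a : ℕ) : ℤ√D) ≠ 0 := by
    have : p ^ b * q ^ a ≠ 0 := mul_ne_zero (pow_ne_zero _ hp0) (pow_ne_zero _ hq0)
    intro h0
    apply this
    have h1 := congrArg Zsqrtd.re h0
    rw [Zsqrtd.re_natCast, Zsqrtd.re_zero] at h1
    exact_mod_cast h1
  have h2 : Ideal.span {((p ^ b * q ^ a : ℕ) : ℤ√D)} * (Ideal.span {x'} * T) =
      Ideal.span {((p ^ b * q ^ a : ℕ) : ℤ√D)} * (Ideal.span {x} * T') := by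
    rw [← hn]
    calc (P ^ b * cj P ^ b) * (Q ^ a * cj Q ^ a) * (Ideal.span {x'} * T)
        = (cj P ^ b * cj Q ^ a) * (Ideal.span {x'} * (P ^ b * Q ^ a * T)) := by ring
      _ = (cj P ^ b * cj Q ^ a) * (Ideal.span {x} * (P ^ b * Q ^ a * T')) := by rw [h]
      _ = _ := by ring
  have h3 : Ideal.span {x'} * T = Ideal.span {x} * T' := (Ideal.span_singleton_mul_right_inj hne).mp h2
  calc Ideal.span {x * (r' : ℤ√D)} = Ideal.span {x} * Ideal.span {(r' : ℤ√D)} :=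
        (Ideal.span_singleton_mul_span_singleton _ _).symm
    _ = (Ideal.span {x} * T') * cj T' := by rw [← hr', mul_assoc]
    _ = (Ideal.span {x'} * T) * cj T' := by rw [h3]
    _ = (T * cj T') * Ideal.span {x'} := by ring

/-- PROOF. Let `e = e s r`, `e' = e s r'`. `same` with `s' = s`; multiply by `cj (P s)^b cj (Q s)^a`, cancel the integers: `span {e'} * T r = span {e} * T r'`; multiply by
`cj (T r')`: `span {e * r'} = (T r * cj (T r')) * span {e'}`. `Beta1_quot`: `e * r' = ξ * e'`, `span {ξ} = T r * cj (T r')`, so `|norm ξ| = r r'`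
(`Beta1_norm`). `Beta0_quot` with `Cmp C e e'` (`Beta0_nat`): `hh ξ ≤ C r r' < |D|`, so `ξ.im = 0` and `r r' = ξ.re ^ 2`: `r = r'` (both are primes). -/
theorem Beta3_r (h : BetaData D D' f ℓ u v a b w sg 𝔴 S α p q P Q Rc T C N lab e)
    (hRD : ∀ r ∈ Rc, ∀ r' ∈ Rc, C * (r * r') < ((|D| : ℤ) : ℝ)) {s : ι} (hs : s ∈ S) {r r' : ℕ} (hr : r ∈ Rc)
    (hr' : r' ∈ Rc) (hl : lab s r = lab s r') : r = r' := by
  classical
  obtain ⟨hsame, hcmp⟩ := h.same s hs s hs r hr r' hr' hl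
  obtain ⟨hpp, -, hpP⟩ := h.pp s hs
  obtain ⟨hqq, -, hqQ⟩ := h.qq s hs
  obtain ⟨hrp, -, hrT⟩ := h.rr r hr
  obtain ⟨hrp', -, hrT'⟩ := h.rr r' hr'
  have h1 := Beta3_core h.hD hpp.ne_zero hqq.ne_zero hpP hqQ hrT' hsame
  obtain ⟨ω, hω1, hω2⟩ := Beta1_quot h.hD (h.e0 s hs r' hr') h1
  have hJ : (T r * cj (T r')) * cj (T r * cj (T r')) = Ideal.span {((r * r' : ℕ) : ℤ√D)} := by
    rw [Beta1_cj_mul, Beta1_cj_cj, ← Beta3_span_nat_mul, ← hrT, ← hrT']
    ring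
  have hnorm : |ω.norm| = ((r * r' : ℕ) : ℤ) := Beta1_norm hω2 hJ
  have hq := Beta0_quot h.hD (h.e0 s hs r' hr') hω1 (Beta0_nat hcmp r')
  rw [hnorm] at hq
  have hlt := hRD r hr r' hr'
  have hlt2 : ((hh ω : ℤ) : ℝ) < ((|D| : ℤ) : ℝ) := by
    refine lt_of_le_of_lt hq ?_
    refine lt_of_eq_of_lt ?_ hlt
    push_cast
    ring
  have hlt3 : hh ω < |D| := by exact_mod_cast hlt2
  have him : ω.im = 0 := by
    by_contra him
    have h1 : 1 ≤ ω.im ^ 2 := by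
      have := sq_nonneg ω.im
      have h2 : ω.im ^ 2 ≠ 0 := pow_ne_zero 2 him
      omega
    unfold hh at hlt3
    have h3 : 0 ≤ ω.re ^ 2 := sq_nonneg _
    have h4 : 0 ≤ |D| := abs_nonneg _
    nlinarith
  have hre : ω.norm = ω.re ^ 2 := by
    rw [Zsqrtd.norm_def, him]
    ring
  rw [hre, abs_of_nonneg (sq_nonneg _)] at hnorm
  exact Beta3_prime_sq hrp hrp' hnorm.symm

open scoped Classical in
/-- The trivial collisions. PROOF. For `(s, r)` there are at most `μ` elements `s'` with `p s' = p s`, and for each of them at most one `r'` by `Beta3_r`. -/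
theorem Beta3_trivial (h : BetaData D D' f ℓ u v a b w sg 𝔴 S α p q P Q Rc T C N lab e)
    (hRD : ∀ r ∈ Rc, ∀ r' ∈ Rc, C * (r * r') < ((|D| : ℤ) : ℝ)) (μ : ℕ)
    (hμ : ∀ s ∈ S, (S.filter (fun s' => p s' = p s)).card ≤ μ) :
    (((S ×ˢ Rc) ×ˢ (S ×ˢ Rc)).filter (fun c => lab c.1.1 c.1.2 = lab c.2.1 c.2.2 ∧
      p c.1.1 = p c.2.1)).card ≤ S.card * Rc.card * μ := by
  classical
  have hmain := Finset.card_le_mul_card_image_of_maps_to (f := fun c : (ι × ℕ) × (ι × ℕ) => c.1)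
    (s := ((S ×ˢ Rc) ×ˢ (S ×ˢ Rc)).filter (fun c => lab c.1.1 c.1.2 = lab c.2.1 c.2.2 ∧ p c.1.1 = p c.2.1))
    (t := S ×ˢ Rc) (by
      intro c hc
      exact (Finset.mem_product.mp (Finset.mem_filter.mp hc).1).1) μ (by
      intro x hx
      have hxS : x.1 ∈ S := (Finset.mem_product.mp hx).1
      refine le_trans ?_ (hμ x.1 hxS)
      refine Finset.card_le_card_of_injOn (fun c => c.2.1) ?_ ?_
      · intro c hc
        have hc' := Finset.mem_filter.mp (Finset.mem_coe.mp hc)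
        obtain ⟨hcm, hcx⟩ := hc'
        obtain ⟨hcp, -, hcpp⟩ := Finset.mem_filter.mp hcm
        have h2 := (Finset.mem_product.mp (Finset.mem_product.mp hcp).2).1
        refine Finset.mem_coe.mpr (Finset.mem_filter.mpr ⟨h2, ?_⟩)
        rw [← hcx]
        exact hcpp.symm
      · intro c hc c' hc' hcc
        obtain ⟨hcm, hcx⟩ := Finset.mem_filter.mp (Finset.mem_coe.mp hc)
        obtain ⟨hcp, hcl, -⟩ := Finset.mem_filter.mp hcm
        obtain ⟨hcm', hcx'⟩ := Finset.mem_filter.mp (Finset.mem_coe.mp hc')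
        obtain ⟨hcp', hcl', -⟩ := Finset.mem_filter.mp hcm'
        have h2 := Finset.mem_product.mp (Finset.mem_product.mp hcp).2
        have h2' := Finset.mem_product.mp (Finset.mem_product.mp hcp').2
        have hcc' : c.2.1 = c'.2.1 := hcc
        have hx1 : c.1 = c'.1 := hcx.trans hcx'.symm
        have hlab : lab c.2.1 c.2.2 = lab c.2.1 c'.2.2 := by
          rw [← hcl, hx1, hcl', hcc']
        have hr : c.2.2 = c'.2.2 := Beta3_r h hRD h2.1 h2.2 h2'.2 hlab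
        exact Prod.ext hx1 (Prod.ext hcc' hr))
  rw [Finset.card_product] at hmain
  calc _ ≤ μ * (S.card * Rc.card) := by convert hmain
    _ = S.card * Rc.card * μ := by ring

end Hp

end Pool.Agent.Lib.MP_d8bd92_nt
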