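import Pool.Agent.Lib.MP_d8bd92_nt.Hp.BetaDefs
import Pool.Agent.Lib.MP_d8bd92_nt.Hp.Beta1

set_option autoImplicit false

/-! Block 6.6, part 4: the elements of a nontrivial collision. -/

namespace Pool.Agent.Lib.MP_d8bd92_nt

namespace Hp

variable {D D' : ℤ} {f ℓ u v a b w : ℕ} {sg : ℤ} {𝔴 : Ideal (ℤ√D)} {ι : Type} {S : Finset ι}
  {α : ι → ℤ√D} {p q : ι → ℕ} {P Q : ι → Ideal (ℤ√D)} {Rc : Finset ℕ} {T : ℕ → Ideal (ℤ√D)} {C : ℝ}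
  {N : ℕ} {lab : ι → ℕ → Fin N} {e : ι → ℕ → ℤ√D}

theorem Beta4_ne (h : BetaData D D' f ℓ u v a b w sg 𝔴 S α p q P Q Rc T C N lab e) {s : ι} (hs : s ∈ S) :
    α s ≠ 0 := by
  intro h0
  have h1 := h.nrm s hs
  rw [h0, Zsqrtd.norm_zero] at h1
  have h2 : ((w * p s ^ u * q s ^ v : ℕ) : ℤ) ≠ 0 := by
    have h3 := (h.pp s hs).1.pos
    have h4 := (h.qq s hs).1.pos
    have h5 := h.hw1
    have : 0 < w * p s ^ u * q s ^ v := by positivity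
    exact_mod_cast this.ne'
  apply h2
  rcases h.hsg with e1 | e1
  · rw [e1, one_mul] at h1
    exact h1.symm
  · rw [e1] at h1
    linarith

theorem Beta4_dvd_norm (h : BetaData D D' f ℓ u v a b w sg 𝔴 S α p q P Q Rc T C N lab e) {z : ℤ√D}
    (hz : (ℓ : ℤ) ∣ z.re) : (ℓ : ℤ) ∣ z.norm := by
  rw [Zsqrtd.norm_def]
  apply dvd_sub
  · exact hz.mul_right _
  · have hd : (ℓ : ℤ) ∣ D := ⟨D', h.hDℓ⟩
    exact (hd.mul_right _).mul_right _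

theorem Beta4_not_dvd {l x y r r' n : ℕ} (hl : l.Prime) (hx : x.Prime) (hy : y.Prime) (hr : r.Prime)
    (hr' : r'.Prime) (h1 : x ≠ l) (h2 : y ≠ l) (h3 : r ≠ l) (h4 : r' ≠ l) : ¬ l ∣ x * y * (r * r') ^ n := by
  intro h
  rcases (Nat.Prime.dvd_mul hl).mp h with h5 | h5
  · rcases (Nat.Prime.dvd_mul hl).mp h5 with h6 | h6
    · exact h1 ((Nat.prime_dvd_prime_iff_eq hl hx).mp h6).symm
    · exact h2 ((Nat.prime_dvd_prime_iff_eq hl hy).mp h6).symm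
  · rcases (Nat.Prime.dvd_mul hl).mp (hl.dvd_of_dvd_pow h5) with h6 | h6
    · exact h3 ((Nat.prime_dvd_prime_iff_eq hl hr).mp h6).symm
    · exact h4 ((Nat.prime_dvd_prime_iff_eq hl hr').mp h6).symm

/-- PROOF. `Beta1_collision` for `α = α s`, `α' = α s'`, `e = e s r`, `e' = e s' r'` (nonzero by `nrm`, `e0`), norms by `Beta1_norm_omega`. Balanced: `Beta0_quot`, with
`Cmp` of `α^a e'^v n` and `α'^a e^v` from `Beta0_pow`, `Beta0_mul`, `Beta0_nat`, `Beta0_symm`: constant `2 (2C)^a (2C)^v ≤ (2C)^(a+b+u+v)`, as `u ≥ 1`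
(and the same for `ω₂`: `2 (2C)^b (2C)^u ≤ (2C)^(a+b+u+v)`, `v ≥ 2`). -/
theorem Beta4_omega (h : BetaData D D' f ℓ u v a b w sg 𝔴 S α p q P Q Rc T C N lab e) {s s' : ι} (hs : s ∈ S)
    (hs' : s' ∈ S) {r r' : ℕ} (hr : r ∈ Rc) (hr' : r' ∈ Rc) (hl : lab s r = lab s' r') :
    ∃ ω₁ ω₂ : ℤ√D, |ω₁.norm| = ((p s * p s' * (r * r') ^ v : ℕ) : ℤ) ∧
      |ω₂.norm| = ((q s * q s' * (r * r') ^ u : ℕ) : ℤ) ∧
      ((hh ω₁ : ℤ) : ℝ) ≤ (2 * C) ^ (a + b + u + v) * ((|ω₁.norm| : ℤ) : ℝ) ∧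
      ((hh ω₂ : ℤ) : ℝ) ≤ (2 * C) ^ (a + b + u + v) * ((|ω₂.norm| : ℤ) : ℝ) ∧
      ω₁ ^ u * ω₂ ^ v * α s' = α s * ((p s' ^ u * q s' ^ v * (r * r') ^ (u * v) : ℕ) : ℤ√D) := by
  have : IsDomain (ℤ√D) := Beta1_domain h.hD
  obtain ⟨hspan, hcmp⟩ := h.same s hs s' hs' r hr r' hr' hl
  have hα0 := Beta4_ne h hs
  have hα0' := Beta4_ne h hs'
  have he0 := h.e0 s hs r hr
  have he0' := h.e0 s' hs' r' hr'
  obtain ⟨ω₁, ω₂, g1, g2, g3, g4, g5⟩ := Beta1_collision h.hD h.hab (h.fac s hs) (h.fac s' hs') hα0 hα0' he0 he0'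
    (h.pp s' hs').2.2 (h.qq s' hs').2.2 (h.rr r hr).2.2 (h.rr r' hr').2.2 hspan
  have k1 := Beta1_norm_omega (h.pp s hs).2.2 (h.pp s' hs').2.2 (h.rr r hr).2.2 (h.rr r' hr').2.2 g2
  have k2 := Beta1_norm_omega (h.qq s hs).2.2 (h.qq s' hs').2.2 (h.rr r' hr').2.2 (h.rr r hr).2.2 g4
  rw [mul_comm r' r] at k2
  have hC := h.hC
  have hC2 : (1 : ℝ) ≤ 2 * C := by linarith
  have hC0 : (0 : ℝ) ≤ 2 * C := by linarith
  have hu := h.hu
  have huv := h.huv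
  refine ⟨ω₁, ω₂, k1, k2, ?_, ?_, g5⟩
  · have c1 := Beta0_pow hC (h.bal s hs s' hs') a
    have c2 := Beta0_pow hC (Beta0_symm hcmp) v
    have c3 := Beta0_nat (Beta0_mul (pow_nonneg hC0 a) (pow_nonneg hC0 v) c1 c2) (p s' * r ^ v)
    have hz : α s' ^ a * e s r ^ v ≠ 0 := mul_ne_zero (pow_ne_zero _ hα0') (pow_ne_zero _ he0)
    have c4 := Beta0_quot h.hD hz g1 c3
    refine c4.trans (mul_le_mul_of_nonneg_right ?_ (by positivity))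
    calc 2 * (2 * C) ^ a * (2 * C) ^ v ≤ (2 * C) * (2 * C) ^ a * (2 * C) ^ v := by
          gcongr
          linarith
      _ = (2 * C) ^ (1 + a + v) := by ring
      _ ≤ (2 * C) ^ (a + b + u + v) := pow_le_pow_right₀ hC2 (by omega)
  · have c1 := Beta0_pow hC (h.bal s' hs' s hs) b
    have c2 := Beta0_pow hC hcmp u
    have c3 := Beta0_nat (Beta0_mul (pow_nonneg hC0 b) (pow_nonneg hC0 u) c1 c2) (q s' * r' ^ u)
    have hz : α s ^ b * e s' r' ^ u ≠ 0 := mul_ne_zero (pow_ne_zero _ hα0) (pow_ne_zero _ he0')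
    have c4 := Beta0_quot h.hD hz g3 c3
    refine c4.trans (mul_le_mul_of_nonneg_right ?_ (by positivity))
    calc 2 * (2 * C) ^ b * (2 * C) ^ u ≤ (2 * C) * (2 * C) ^ b * (2 * C) ^ u := by
          gcongr
          linarith
      _ = (2 * C) ^ (1 + b + u) := by ring
      _ ≤ (2 * C) ^ (a + b + u + v) := pow_le_pow_right₀ hC2 (by omega)

/-- Nontrivial collisions. PROOF. `Beta4_omega`. If `ω₁.im = 0` then `ω₁.re ^ 2 = p s * p s' * (r r')^v`, but the prime `p s` divides the right side exactly once (`p s ≠ p s'`,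
`rp`). If `ℓ ∣ re` then `ℓ ∣ norm` as `ℓ ∣ D`, contradiction to `pp`, `qq`, `rr`. Multiply the identity by `star (α s')` and cancel the integer
`p s' ^ u q s' ^ v` (`nrm`): `sg w ω₁^u ω₂^v = α s star (α s') (r r')^(uv)`; `f` divides `im (α s star (α s'))`, so `ℓ^2` divides
`w im (ω₁^u ω₂^v)`, and `ℓ` does not divide `w`. -/
theorem Beta4_nontrivial (h : BetaData D D' f ℓ u v a b w sg 𝔴 S α p q P Q Rc T C N lab e) {s s' : ι} (hs : s ∈ S)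
    (hs' : s' ∈ S) {r r' : ℕ} (hr : r ∈ Rc) (hr' : r' ∈ Rc) (hl : lab s r = lab s' r') (hp : p s ≠ p s') :
    ∃ ω₁ ω₂ : ℤ√D, |ω₁.norm| = ((p s * p s' * (r * r') ^ v : ℕ) : ℤ) ∧
      |ω₂.norm| = ((q s * q s' * (r * r') ^ u : ℕ) : ℤ) ∧
      ((hh ω₁ : ℤ) : ℝ) ≤ (2 * C) ^ (a + b + u + v) * ((|ω₁.norm| : ℤ) : ℝ) ∧
      ((hh ω₂ : ℤ) : ℝ) ≤ (2 * C) ^ (a + b + u + v) * ((|ω₂.norm| : ℤ) : ℝ) ∧
      ω₁.im ≠ 0 ∧ ¬ (ℓ : ℤ) ∣ ω₁.re ∧ ¬ (ℓ : ℤ) ∣ ω₂.re ∧ (ℓ : ℤ) ^ 2 ∣ (ω₁ ^ u * ω₂ ^ v).im := by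
  obtain ⟨ω₁, ω₂, k1, k2, k3, k4, k5⟩ := Beta4_omega h hs hs' hr hr' hl
  obtain ⟨pp1, pl1, -⟩ := h.pp s hs
  obtain ⟨pp2, pl2, -⟩ := h.pp s' hs'
  obtain ⟨qq1, ql1, -⟩ := h.qq s hs
  obtain ⟨qq2, ql2, -⟩ := h.qq s' hs'
  obtain ⟨rr1, rl1, -⟩ := h.rr r hr
  obtain ⟨rr2, rl2, -⟩ := h.rr r' hr'
  refine ⟨ω₁, ω₂, k1, k2, k3, k4, ?_, ?_, ?_, ?_⟩
  · intro him
    have hn : ω₁.norm = ω₁.re * ω₁.re := by rw [Zsqrtd.norm_def, him]; ring
    rw [hn, abs_mul, Int.abs_eq_natAbs, ← Nat.cast_mul] at k1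
    have k1' : ω₁.re.natAbs * ω₁.re.natAbs = p s * (p s' * (r * r') ^ v) := by
      rw [← mul_assoc]
      exact_mod_cast k1
    have hd : p s ∣ ω₁.re.natAbs := by
      have : p s ∣ ω₁.re.natAbs * ω₁.re.natAbs := by rw [k1']; exact dvd_mul_right _ _
      rcases (Nat.Prime.dvd_mul pp1).mp this with h1 | h1 <;> exact h1
    obtain ⟨c, hc⟩ := hd
    rw [hc] at k1'
    have hm : p s' * (r * r') ^ v = p s * (c * c) := by
      have : p s * (p s' * (r * r') ^ v) = p s * (p s * (c * c)) := by rw [← k1']; ring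
      exact Nat.eq_of_mul_eq_mul_left pp1.pos this
    have hdv : p s ∣ p s' * (r * r') ^ v := by rw [hm]; exact dvd_mul_right _ _
    rcases (Nat.Prime.dvd_mul pp1).mp hdv with h1 | h1
    · exact hp ((Nat.prime_dvd_prime_iff_eq pp1 pp2).mp h1)
    · have h2 := pp1.dvd_of_dvd_pow h1
      rcases (Nat.Prime.dvd_mul pp1).mp h2 with h3 | h3
      · exact h.rp r hr s hs ((Nat.prime_dvd_prime_iff_eq pp1 rr1).mp h3).symm
      · exact h.rp r' hr' s hs ((Nat.prime_dvd_prime_iff_eq pp1 rr2).mp h3).symm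
  · intro hd
    have h1 := Beta4_dvd_norm h hd
    have h2 : ((ℓ : ℕ) : ℤ) ∣ ((p s * p s' * (r * r') ^ v : ℕ) : ℤ) := by
      rw [← k1]; exact (dvd_abs _ _).mpr h1
    exact Beta4_not_dvd h.hℓ pp1 pp2 rr1 rr2 pl1 pl2 rl1 rl2 (Int.natCast_dvd_natCast.mp h2)
  · intro hd
    have h1 := Beta4_dvd_norm h hd
    have h2 : ((ℓ : ℕ) : ℤ) ∣ ((q s * q s' * (r * r') ^ u : ℕ) : ℤ) := by
      rw [← k2]; exact (dvd_abs _ _).mpr h1
    exact Beta4_not_dvd h.hℓ qq1 qq2 rr1 rr2 ql1 ql2 rl1 rl2 (Int.natCast_dvd_natCast.mp h2)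
  · set Om := ω₁ ^ u * ω₂ ^ v with hOm
    have hid : Om * ((((α s').norm : ℤ)) : ℤ√D) =
        (α s * star (α s')) * (((p s' ^ u * q s' ^ v * (r * r') ^ (u * v) : ℕ) : ℤ) : ℤ√D) := by
      rw [Zsqrtd.norm_eq_mul_conj, ← mul_assoc, k5]
      push_cast
      ring
    have him := congrArg Zsqrtd.im hid
    rw [mul_comm Om, mul_comm (α s * star (α s')), Zsqrtd.im_smul, Zsqrtd.im_smul, h.nrm s' hs'] at him
    have hK : (0 : ℤ) < ((p s' ^ u * q s' ^ v : ℕ) : ℤ) := by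
      have := pp2.pos
      have := qq2.pos
      positivity
    have him2 : sg * (w : ℤ) * Om.im = ((r * r') ^ (u * v) : ℕ) * (α s * star (α s')).im := by
      apply mul_left_cancel₀ hK.ne'
      push_cast at him ⊢
      linear_combination him
    have hfim : (ℓ : ℤ) ^ 2 ∣ (α s * star (α s')).im := by
      have h1 : (ℓ : ℤ) ^ 2 ∣ (f : ℤ) := by exact_mod_cast h.hf
      have h2 := h1.trans (h.im_dvd s hs)
      have h3 := h1.trans (h.im_dvd s' hs')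
      rw [Zsqrtd.im_mul]
      simp only [Zsqrtd.re_star, Zsqrtd.im_star]
      apply dvd_add
      · exact (h3.neg_right).mul_left _
      · exact h2.mul_right _
    have hd1 : (ℓ : ℤ) ^ 2 ∣ sg * (w : ℤ) * Om.im := by
      rw [him2]; exact hfim.mul_left _
    have hcop : IsCoprime ((ℓ : ℤ) ^ 2) (w : ℤ) := by
      apply IsCoprime.pow_left
      rw [Nat.isCoprime_iff_coprime]
      exact (Nat.Prime.coprime_iff_not_dvd h.hℓ).mpr h.hw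
    have hd2 : (ℓ : ℤ) ^ 2 ∣ (w : ℤ) * Om.im := by
      rcases h.hsg with e | e
      · rw [e, one_mul] at hd1; exact hd1
      · rw [e] at hd1
        have : (-1 : ℤ) * w * Om.im = -((w : ℤ) * Om.im) := by ring
        rw [this, dvd_neg] at hd1
        exact hd1
    exact hcop.dvd_of_dvd_mul_left hd2

end Hp

end Pool.Agent.Lib.MP_d8bd92_nt
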