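import Pool.Agent.Lib.MP_d8bd92_nt.Hp.Beta2
import Pool.Agent.Lib.MP_d8bd92_nt.Hp.Beta3
import Pool.Agent.Lib.MP_d8bd92_nt.Hp.Beta4

set_option autoImplicit false

/-! Block 6.6, part 5: counting collisions. -/

namespace Pool.Agent.Lib.MP_d8bd92_nt

namespace Hp

open scoped Classical in
/-- Cauchy: pairs with the same value. -/
theorem Beta5_cauchy {κ : Type} (A : Finset κ) (N : ℕ) (φ : κ → Fin N) :
    A.card ^ 2 ≤ N * ((A ×ˢ A).filter (fun c => φ c.1 = φ c.2)).card := by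
  have h1 : A.card = ∑ i : Fin N, (A.filter (fun c => φ c = i)).card :=
    Finset.card_eq_sum_card_fiberwise (fun x _ => Finset.mem_coe.2 (Finset.mem_univ _))
  have h2 : ((A ×ˢ A).filter (fun c => φ c.1 = φ c.2)).card =
      ∑ i : Fin N, (A.filter (fun c => φ c = i)).card ^ 2 := by
    rw [Finset.card_eq_sum_card_fiberwise (f := fun c : κ × κ => φ c.1) (t := Finset.univ)
      (fun x _ => Finset.mem_coe.2 (Finset.mem_univ _))]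
    refine Finset.sum_congr rfl ?_
    intro i _
    rw [sq, ← Finset.card_product]
    congr 1
    ext c
    simp only [Finset.mem_filter, Finset.mem_product]
    constructor
    · rintro ⟨⟨⟨h3, h4⟩, h5⟩, h6⟩
      exact ⟨⟨h3, h6⟩, h4, by rw [← h5]; exact h6⟩
    · rintro ⟨⟨h3, h4⟩, h5, h6⟩
      exact ⟨⟨⟨h3, h5⟩, by rw [h4, h6]⟩, h4⟩
  rw [h2, h1]
  have h3 := sq_sum_le_card_mul_sum_sq (s := (Finset.univ : Finset (Fin N)))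
    (f := fun i => (A.filter (fun c => φ c = i)).card)
  simpa using h3

theorem Beta5_abs_le {x : ℤ} {X : ℕ} (h : ((x ^ 2 : ℤ) : ℝ) < ((X : ℝ) + 1) ^ 2) : |x| ≤ X := by
  have h1 : (x ^ 2 : ℤ) < ((X : ℤ) + 1) ^ 2 := by exact_mod_cast h
  have h2 : |x| < (X : ℤ) + 1 := by
    apply abs_lt_of_sq_lt_sq h1
    positivity
  omega

theorem Beta5_bounds {D : ℤ} {z : ℤ√D} {K : ℝ} {X1 Y1 : ℕ} (hh1 : ((hh z : ℤ) : ℝ) ≤ K)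
    (hX : K < ((X1 : ℝ) + 1) ^ 2) (hY : K < ((|D| : ℤ) : ℝ) * ((Y1 : ℝ) + 1) ^ 2) :
    |z.re| ≤ X1 ∧ |z.im| ≤ Y1 := by
  have hD0 : (0 : ℝ) ≤ ((|D| : ℤ) : ℝ) := by exact_mod_cast abs_nonneg D
  have e1 : ((hh z : ℤ) : ℝ) = ((z.re ^ 2 : ℤ) : ℝ) + ((|D| : ℤ) : ℝ) * ((z.im ^ 2 : ℤ) : ℝ) := by
    simp only [hh]
    push_cast
    ring
  have hr0 : (0 : ℝ) ≤ ((z.re ^ 2 : ℤ) : ℝ) := by exact_mod_cast sq_nonneg z.re
  have hi0 : (0 : ℝ) ≤ ((z.im ^ 2 : ℤ) : ℝ) := by exact_mod_cast sq_nonneg z.im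
  have hDi : (0 : ℝ) ≤ ((|D| : ℤ) : ℝ) * ((z.im ^ 2 : ℤ) : ℝ) := mul_nonneg hD0 hi0
  constructor
  · apply Beta5_abs_le
    linarith
  · apply Beta5_abs_le
    have h1 : ((|D| : ℤ) : ℝ) * ((z.im ^ 2 : ℤ) : ℝ) < ((|D| : ℤ) : ℝ) * ((Y1 : ℝ) + 1) ^ 2 := by
      linarith
    exact lt_of_mul_lt_mul_left h1 hD0

variable {D D' : ℤ} {f ℓ u v a b w : ℕ} {sg : ℤ} {𝔴 : Ideal (ℤ√D)} {ι : Type} {S : Finset ι}
  {α : ι → ℤ√D} {p q : ι → ℕ} {P Q : ι → Ideal (ℤ√D)} {Rc : Finset ℕ} {T : ℕ → Ideal (ℤ√D)} {C : ℝ}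
  {N : ℕ} {lab : ι → ℕ → Fin N} {e : ι → ℕ → ℤ√D}

open scoped Classical in
/-- The nontrivial collisions. PROOF. Choose `ω₁`, `ω₂` for every nontrivial collision `c` (`Beta4_nontrivial`) and put `g c = (re ω₁, im ω₁, re ω₂, im ω₂)`. `hh ω ≤ H` with
`H = (2C)^(a+b+u+v) B^2 Rm^(2v) < (X1+1)^2` and `< |D| (Y1+1)^2`, so `|re| ≤ X1`, `|im| ≤ Y1`: the image of `g` is a set `Z` as in `Beta2_count` (by
`Beta2_algebra`). Fibres: `p s`, `p s'`, `r`, `r'` are divisors of `|norm ω₁|`, `q s`, `q s'` of `|norm ω₂|` (both numbers are determined by `g c`, positive and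
at most `B^2 Rm^(2v)`), and `(p s, q s, p s', q s', r, r')` determines the collision (`inj`): at most `τ ^ 6` elements. -/
theorem Beta5_nontrivial (h : BetaData D D' f ℓ u v a b w sg 𝔴 S α p q P Q Rc T C N lab e) (B Rm τ X1 Y1 J : ℕ)
    (hB : ∀ s ∈ S, p s ≤ B ∧ q s ≤ B) (hRm : ∀ r ∈ Rc, r ≤ Rm) (hRm1 : 1 ≤ Rm)
    (hX : (2 * C) ^ (a + b + u + v) * (B ^ 2 * Rm ^ (2 * v)) < ((X1 : ℝ) + 1) ^ 2)
    (hY : (2 * C) ^ (a + b + u + v) * (B ^ 2 * Rm ^ (2 * v)) < ((|D| : ℤ) : ℝ) * ((Y1 : ℝ) + 1) ^ 2)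
    (hYℓ : Y1 < ℓ) (hJ : (u + v) * X1 * Y1 ≤ J * ℓ)
    (hτ : ∀ n : ℕ, 1 ≤ n → n ≤ B ^ 2 * Rm ^ (2 * v) → n.divisors.card ≤ τ) :
    (((S ×ˢ Rc) ×ˢ (S ×ˢ Rc)).filter (fun c => lab c.1.1 c.1.2 = lab c.2.1 c.2.2 ∧
      p c.1.1 ≠ p c.2.1)).card ≤ τ ^ 6 * ((2 * Y1 + 1) ^ 2 * (2 * J + 1) * (2 * (X1 / ℓ) + 2)) := by
  set Col := ((S ×ˢ Rc) ×ˢ (S ×ˢ Rc)).filter (fun c : (ι × ℕ) × (ι × ℕ) =>
    lab c.1.1 c.1.2 = lab c.2.1 c.2.2 ∧ p c.1.1 ≠ p c.2.1) with hCol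
  have hmem : ∀ c ∈ Col, c.1.1 ∈ S ∧ c.1.2 ∈ Rc ∧ c.2.1 ∈ S ∧ c.2.2 ∈ Rc ∧
      lab c.1.1 c.1.2 = lab c.2.1 c.2.2 ∧ p c.1.1 ≠ p c.2.1 := by
    intro c hc
    rw [hCol, Finset.mem_filter, Finset.mem_product, Finset.mem_product, Finset.mem_product] at hc
    exact ⟨hc.1.1.1, hc.1.1.2, hc.1.2.1, hc.1.2.2, hc.2.1, hc.2.2⟩
  have hu1 := h.hu
  have huv := h.huv
  -- sizes of the norms
  have hsize1 : ∀ c ∈ Col, 1 ≤ p c.1.1 * p c.2.1 * (c.1.2 * c.2.2) ^ v ∧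
      p c.1.1 * p c.2.1 * (c.1.2 * c.2.2) ^ v ≤ B ^ 2 * Rm ^ (2 * v) := by
    intro c hc
    obtain ⟨h1, h2, h3, h4, -, -⟩ := hmem c hc
    have p1 := (h.pp _ h1).1.pos
    have p2 := (h.pp _ h3).1.pos
    have r1 := (h.rr _ h2).1.pos
    have r2 := (h.rr _ h4).1.pos
    refine ⟨Nat.mul_pos (Nat.mul_pos p1 p2) (pow_pos (Nat.mul_pos r1 r2) _), ?_⟩
    refine Nat.mul_le_mul ?_ ?_
    · rw [sq]; exact Nat.mul_le_mul (hB _ h1).1 (hB _ h3).1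
    · rw [pow_mul, sq]
      exact Nat.pow_le_pow_left (Nat.mul_le_mul (hRm _ h2) (hRm _ h4)) v
  have hsize2 : ∀ c ∈ Col, 1 ≤ q c.1.1 * q c.2.1 * (c.1.2 * c.2.2) ^ u ∧
      q c.1.1 * q c.2.1 * (c.1.2 * c.2.2) ^ u ≤ B ^ 2 * Rm ^ (2 * v) := by
    intro c hc
    obtain ⟨h1, h2, h3, h4, -, -⟩ := hmem c hc
    have p1 := (h.qq _ h1).1.pos
    have p2 := (h.qq _ h3).1.pos
    have r1 := (h.rr _ h2).1.pos
    have r2 := (h.rr _ h4).1.pos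
    refine ⟨Nat.mul_pos (Nat.mul_pos p1 p2) (pow_pos (Nat.mul_pos r1 r2) _), ?_⟩
    refine Nat.mul_le_mul ?_ ?_
    · rw [sq]; exact Nat.mul_le_mul (hB _ h1).2 (hB _ h3).2
    · rw [pow_mul, sq]
      refine (Nat.pow_le_pow_left (Nat.mul_le_mul (hRm _ h2) (hRm _ h4)) u).trans ?_
      exact Nat.pow_le_pow_right (Nat.mul_pos hRm1 hRm1) huv.le
  -- the elements of a collision
  have hex : ∀ c ∈ Col, ∃ z : (ℤ√D) × (ℤ√D), |z.1.norm| = ((p c.1.1 * p c.2.1 * (c.1.2 * c.2.2) ^ v : ℕ) : ℤ) ∧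
      |z.2.norm| = ((q c.1.1 * q c.2.1 * (c.1.2 * c.2.2) ^ u : ℕ) : ℤ) ∧
      ((hh z.1 : ℤ) : ℝ) ≤ (2 * C) ^ (a + b + u + v) * ((|z.1.norm| : ℤ) : ℝ) ∧
      ((hh z.2 : ℤ) : ℝ) ≤ (2 * C) ^ (a + b + u + v) * ((|z.2.norm| : ℤ) : ℝ) ∧
      z.1.im ≠ 0 ∧ ¬ (ℓ : ℤ) ∣ z.1.re ∧ ¬ (ℓ : ℤ) ∣ z.2.re ∧ (ℓ : ℤ) ^ 2 ∣ (z.1 ^ u * z.2 ^ v).im := by
    intro c hc
    obtain ⟨h1, h2, h3, h4, h5, h6⟩ := hmem c hc
    obtain ⟨w1, w2, hw⟩ := Beta4_nontrivial h h1 h3 h2 h4 h5 h6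
    exact ⟨(w1, w2), hw⟩
  choose! g hg using hex
  have hC0 : (0 : ℝ) ≤ (2 * C) ^ (a + b + u + v) := by
    have := h.hC
    positivity
  let G : (ι × ℕ) × (ι × ℕ) → ℤ × ℤ × ℤ × ℤ := fun c => ((g c).1.re, (g c).1.im, (g c).2.re, (g c).2.im)
  -- the image
  have hZ : ∀ t ∈ Col.image G, |t.1| ≤ X1 ∧ |t.2.1| ≤ Y1 ∧ |t.2.2.1| ≤ X1 ∧ |t.2.2.2| ≤ Y1 ∧ t.2.1 ≠ 0 ∧
      ¬ (ℓ : ℤ) ∣ t.2.2.1 ∧ ∃ j : ℤ, (u : ℤ) * t.2.1 * t.2.2.1 + v * t.2.2.2 * t.1 = ℓ * j ∧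
        (ℓ : ℤ) ∣ 3 * u * j * t.2.2.1 - D' * ((u : ℤ) ^ 2 - v ^ 2) * t.2.1 * t.2.2.2 ^ 2 := by
    intro t ht
    obtain ⟨c, hc, rfl⟩ := Finset.mem_image.1 ht
    obtain ⟨n1, n2, b1, b2, i1, d1, d2, dd⟩ := hg c hc
    have k1 : ((hh (g c).1 : ℤ) : ℝ) ≤ (2 * C) ^ (a + b + u + v) * (B ^ 2 * Rm ^ (2 * v)) := by
      refine b1.trans (mul_le_mul_of_nonneg_left ?_ hC0)
      rw [n1]
      exact_mod_cast (hsize1 c hc).2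
    have k2 : ((hh (g c).2 : ℤ) : ℝ) ≤ (2 * C) ^ (a + b + u + v) * (B ^ 2 * Rm ^ (2 * v)) := by
      refine b2.trans (mul_le_mul_of_nonneg_left ?_ hC0)
      rw [n2]
      exact_mod_cast (hsize2 c hc).2
    obtain ⟨x1, y1⟩ := Beta5_bounds k1 hX hY
    obtain ⟨x2, y2⟩ := Beta5_bounds k2 hX hY
    exact ⟨x1, y1, x2, y2, i1, d2,
      Beta2_algebra h.hℓ h.hDℓ h.hu h.huv h.hℓv h.hℓ3 d1 d2 dd⟩
  have hcount := Beta2_count h.hℓ h.hℓD' h.hu h.huv h.hℓv h.hℓ3 X1 Y1 J hYℓ hJ (Col.image G) hZ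
  -- the fibres
  have hfib : ∀ t ∈ Col.image G, (Col.filter (fun c => G c = t)).card ≤ τ ^ 6 := by
    intro t ht
    obtain ⟨c0, hc0, rfl⟩ := Finset.mem_image.1 ht
    set n1 := p c0.1.1 * p c0.2.1 * (c0.1.2 * c0.2.2) ^ v with hn1
    set n2 := q c0.1.1 * q c0.2.1 * (c0.1.2 * c0.2.2) ^ u with hn2
    have key : ∀ c ∈ Col.filter (fun c => G c = G c0),
        p c.1.1 * p c.2.1 * (c.1.2 * c.2.2) ^ v = n1 ∧ q c.1.1 * q c.2.1 * (c.1.2 * c.2.2) ^ u = n2 := by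
      intro c hc
      rw [Finset.mem_filter] at hc
      obtain ⟨hc1, hc2⟩ := hc
      simp only [G, Prod.mk.injEq] at hc2
      have e1 : (g c).1 = (g c0).1 := Zsqrtd.ext hc2.1 hc2.2.1
      have e2 : (g c).2 = (g c0).2 := Zsqrtd.ext hc2.2.2.1 hc2.2.2.2
      obtain ⟨m1, m2, -⟩ := hg c hc1
      obtain ⟨m1', m2', -⟩ := hg c0 hc0
      rw [e1, m1'] at m1
      rw [e2, m2'] at m2
      exact ⟨by exact_mod_cast m1.symm, by exact_mod_cast m2.symm⟩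
    have hd1 : n1.divisors.card ≤ τ := hτ n1 (hsize1 c0 hc0).1 (hsize1 c0 hc0).2
    have hd2 : n2.divisors.card ≤ τ := hτ n2 (hsize2 c0 hc0).1 (hsize2 c0 hc0).2
    have hn10 : n1 ≠ 0 := by have := (hsize1 c0 hc0).1; omega
    have hn20 : n2 ≠ 0 := by have := (hsize2 c0 hc0).1; omega
    let F : (ι × ℕ) × (ι × ℕ) → (ℕ × ℕ) × (ℕ × ℕ) × (ℕ × ℕ) :=
      fun c => ((p c.1.1, p c.2.1), (c.1.2, c.2.2), (q c.1.1, q c.2.1))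
    have hinj : (Col.filter (fun c => G c = G c0)).card ≤
        ((n1.divisors ×ˢ n1.divisors) ×ˢ ((n1.divisors ×ˢ n1.divisors) ×ˢ (n2.divisors ×ˢ n2.divisors))).card := by
      refine Finset.card_le_card_of_injOn F ?_ ?_
      · intro c hc
        have hc' : c ∈ Col.filter (fun c => G c = G c0) := Finset.mem_coe.1 hc
        obtain ⟨k1, k2⟩ := key c hc'
        have hv0 : v ≠ 0 := by omega
        have hr : c.1.2 * c.2.2 ∣ n1 := by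
          rw [← k1]
          exact Dvd.dvd.mul_left (dvd_pow_self _ hv0) _
        simp only [F, Finset.mem_coe, Finset.mem_product, Nat.mem_divisors]
        refine ⟨⟨⟨?_, hn10⟩, ?_, hn10⟩, ⟨⟨?_, hn10⟩, ?_, hn10⟩, ⟨?_, hn20⟩, ?_, hn20⟩
        · rw [← k1]; exact Dvd.intro (p c.2.1 * (c.1.2 * c.2.2) ^ v) (by ring)
        · rw [← k1]; exact Dvd.intro (p c.1.1 * (c.1.2 * c.2.2) ^ v) (by ring)
        · exact (Dvd.intro _ rfl).trans hr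
        · exact (Dvd.intro_left _ rfl).trans hr
        · rw [← k2]; exact Dvd.intro (q c.2.1 * (c.1.2 * c.2.2) ^ u) (by ring)
        · rw [← k2]; exact Dvd.intro (q c.1.1 * (c.1.2 * c.2.2) ^ u) (by ring)
      · intro c hc c' hc' hF
        have hc1 := hmem c (Finset.mem_filter.1 (Finset.mem_coe.1 hc)).1
        have hc2 := hmem c' (Finset.mem_filter.1 (Finset.mem_coe.1 hc')).1
        simp only [F, Prod.mk.injEq] at hF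
        obtain ⟨⟨f1, f2⟩, ⟨f3, f4⟩, f5, f6⟩ := hF
        have s1 := h.inj _ hc1.1 _ hc2.1 f1 f5
        have s2 := h.inj _ hc1.2.2.1 _ hc2.2.2.1 f2 f6
        exact Prod.ext (Prod.ext s1 f3) (Prod.ext s2 f4)
    refine hinj.trans ?_
    simp only [Finset.card_product]
    calc n1.divisors.card * n1.divisors.card * (n1.divisors.card * n1.divisors.card *
          (n2.divisors.card * n2.divisors.card)) ≤ τ * τ * (τ * τ * (τ * τ)) := by gcongr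
      _ = τ ^ 6 := by ring
  calc Col.card ≤ τ ^ 6 * (Col.image G).card :=
        Finset.card_le_mul_card_image Col (τ ^ 6) hfib
    _ ≤ τ ^ 6 * ((2 * Y1 + 1) ^ 2 * (2 * J + 1) * (2 * (X1 / ℓ) + 2)) :=
        Nat.mul_le_mul_left _ hcount

open scoped Classical in
/-- PROOF. `Beta5_cauchy` for `A = S ×ˢ Rc`, `Beta3_trivial`, `Beta5_nontrivial`. -/
theorem beta_bound (h : BetaData D D' f ℓ u v a b w sg 𝔴 S α p q P Q Rc T C N lab e) (B Rm μ τ X1 Y1 J : ℕ)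
    (hB : ∀ s ∈ S, p s ≤ B ∧ q s ≤ B) (hRm : ∀ r ∈ Rc, r ≤ Rm) (hRm1 : 1 ≤ Rm)
    (hX : (2 * C) ^ (a + b + u + v) * (B ^ 2 * Rm ^ (2 * v)) < ((X1 : ℝ) + 1) ^ 2)
    (hY : (2 * C) ^ (a + b + u + v) * (B ^ 2 * Rm ^ (2 * v)) < ((|D| : ℤ) : ℝ) * ((Y1 : ℝ) + 1) ^ 2)
    (hYℓ : Y1 < ℓ) (hJ : (u + v) * X1 * Y1 ≤ J * ℓ)
    (hτ : ∀ n : ℕ, 1 ≤ n → n ≤ B ^ 2 * Rm ^ (2 * v) → n.divisors.card ≤ τ)
    (hRD : C * Rm ^ 2 < ((|D| : ℤ) : ℝ))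
    (hμ : ∀ s ∈ S, (S.filter (fun s' => p s' = p s)).card ≤ μ) :
    (S.card * Rc.card) ^ 2 ≤ N * (S.card * Rc.card * μ +
      τ ^ 6 * ((2 * Y1 + 1) ^ 2 * (2 * J + 1) * (2 * (X1 / ℓ) + 2))) := by
  have hC := h.hC
  have hRD' : ∀ r ∈ Rc, ∀ r' ∈ Rc, C * (r * r') < ((|D| : ℤ) : ℝ) := by
    intro r hr r' hr'
    refine lt_of_le_of_lt ?_ hRD
    refine mul_le_mul_of_nonneg_left ?_ (by linarith)
    have h1 : (r : ℝ) ≤ Rm := by exact_mod_cast hRm r hr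
    have h2 : (r' : ℝ) ≤ Rm := by exact_mod_cast hRm r' hr'
    rw [sq]
    exact mul_le_mul h1 h2 (by positivity) (by positivity)
  have h1 := Beta5_cauchy (S ×ˢ Rc) N (fun c => lab c.1 c.2)
  rw [Finset.card_product] at h1
  refine h1.trans (Nat.mul_le_mul_left _ ?_)
  have h2 := Beta3_trivial h hRD' μ hμ
  have h3 := Beta5_nontrivial h B Rm τ X1 Y1 J hB hRm hRm1 hX hY hYℓ hJ hτ
  have h4 := Finset.card_filter_add_card_filter_not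
    (s := ((S ×ˢ Rc) ×ˢ (S ×ˢ Rc)).filter (fun c : (ι × ℕ) × (ι × ℕ) => lab c.1.1 c.1.2 = lab c.2.1 c.2.2))
    (p := fun c : (ι × ℕ) × (ι × ℕ) => p c.1.1 = p c.2.1)
  rw [Finset.filter_filter, Finset.filter_filter] at h4
  rw [← h4]
  exact Nat.add_le_add h2 h3

end Hp

end Pool.Agent.Lib.MP_d8bd92_nt
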