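import Pool.Agent.Lib.MP_d8bd92_nt.Hp.Beta0

set_option autoImplicit false

/-! Block 6.6: the data for one fixed side. -/

namespace Pool.Agent.Lib.MP_d8bd92_nt

namespace Hp

/-- The data for one fixed side: `α s`, `s ∈ S`, with `(α s) = 𝔴 (P s)^u (Q s)^v`, small primes `r ∈ Rc` with ideals `T r`, labels
`lab s r` of the ideals `(P s)^b (Q s)^a (T r)` with reduced elements `e s r`. -/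
structure BetaData (D D' : ℤ) (f ℓ u v a b w : ℕ) (sg : ℤ) (𝔴 : Ideal (ℤ√D)) {ι : Type} (S : Finset ι)
    (α : ι → ℤ√D) (p q : ι → ℕ) (P Q : ι → Ideal (ℤ√D)) (Rc : Finset ℕ) (T : ℕ → Ideal (ℤ√D)) (C : ℝ)
    (N : ℕ) (lab : ι → ℕ → Fin N) (e : ι → ℕ → ℤ√D) : Prop where
  hD : ¬ IsSquare D
  hℓ : ℓ.Prime
  hDℓ : D = ℓ * D'
  hℓD' : ¬ (ℓ : ℤ) ∣ D'
  hu : 1 ≤ u
  huv : u < v
  hℓv : 2 * v < ℓ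
  hℓ3 : 3 < ℓ
  hab : a * u = b * v + 1
  hsg : sg = 1 ∨ sg = -1
  hw : ¬ ℓ ∣ w
  hw1 : 1 ≤ w
  hf : ℓ ^ 2 ∣ f
  im_dvd : ∀ s ∈ S, (f : ℤ) ∣ (α s).im
  nrm : ∀ s ∈ S, (α s).norm = sg * ((w * p s ^ u * q s ^ v : ℕ) : ℤ)
  fac : ∀ s ∈ S, Ideal.span {α s} = 𝔴 * P s ^ u * Q s ^ v
  pp : ∀ s ∈ S, (p s).Prime ∧ p s ≠ ℓ ∧ P s * cj (P s) = Ideal.span {(p s : ℤ√D)}
  qq : ∀ s ∈ S, (q s).Prime ∧ q s ≠ ℓ ∧ Q s * cj (Q s) = Ideal.span {(q s : ℤ√D)}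
  inj : ∀ s ∈ S, ∀ s' ∈ S, p s = p s' → q s = q s' → s = s'
  rr : ∀ r ∈ Rc, r.Prime ∧ r ≠ ℓ ∧ T r * cj (T r) = Ideal.span {(r : ℤ√D)}
  rp : ∀ r ∈ Rc, ∀ s ∈ S, r ≠ p s
  hC : 1 ≤ C
  bal : ∀ s ∈ S, ∀ s' ∈ S, Cmp C (α s) (α s')
  e0 : ∀ s ∈ S, ∀ r ∈ Rc, e s r ≠ 0
  same : ∀ s ∈ S, ∀ s' ∈ S, ∀ r ∈ Rc, ∀ r' ∈ Rc, lab s r = lab s' r' →
    Ideal.span {e s' r'} * (P s ^ b * Q s ^ a * T r) =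
      Ideal.span {e s r} * (P s' ^ b * Q s' ^ a * T r') ∧ Cmp C (e s r) (e s' r')

end Hp

end Pool.Agent.Lib.MP_d8bd92_nt
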