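import Pool.Agent.Lib.MP_d8bd92_nt.Hp.LL0

set_option autoImplicit false

/-!
MP_d8bd92_nt, block LL, file LB2.
-/

namespace Pool.Agent.Lib.MP_d8bd92_nt

namespace Hp

open Finset

theorem lb2_root (M : ℕ) : ∃ t : ℕ, t ^ 4 ≤ M ∧ M < (t + 1) ^ 4 := by
  refine ⟨Nat.sqrt (Nat.sqrt M), ?_, ?_⟩
  · have h1 := Nat.sqrt_le' (Nat.sqrt M)
    have h2 := Nat.sqrt_le' M
    calc (Nat.sqrt (Nat.sqrt M)) ^ 4 = ((Nat.sqrt (Nat.sqrt M)) ^ 2) ^ 2 := by ring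
      _ ≤ (Nat.sqrt M) ^ 2 := Nat.pow_le_pow_left h1 2
      _ ≤ M := h2
  · have h1 := Nat.lt_succ_sqrt' (Nat.sqrt M)
    have h2 := Nat.lt_succ_sqrt' M
    calc M < (Nat.sqrt M + 1) ^ 2 := h2
      _ ≤ ((Nat.sqrt (Nat.sqrt M) + 1) ^ 2) ^ 2 := Nat.pow_le_pow_left h1 2
      _ = (Nat.sqrt (Nat.sqrt M) + 1) ^ 4 := by ring

theorem lb2_diff {a b X : ℕ} (ha : a < X + 1) (hb : b < X + 1) :
    ((a : ℤ) - b) ^ 4 ≤ (X : ℤ) ^ 4 := by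
  have h : |(a : ℤ) - b| ≤ |(X : ℤ)| := by
    rw [abs_le, Nat.abs_cast]
    constructor <;> omega
  have h4 := pow_le_pow_left₀ (abs_nonneg _) h 4
  rwa [Even.pow_abs (by decide), Even.pow_abs (by decide)] at h4

/-- Row hpLB2.  Thue.  Pigeonhole on `0 ≤ x ≤ X1 := ⌊√(E' √Da)⌋`, `0 ≤ y ≤ Y1 := ⌊√(E' / √Da)⌋` :
`(X1 + 1) (Y1 + 1) > E'` pairs, `x - b y` modulo `E'`. -/
theorem thue (E' Da : ℕ) (b : ℤ) (hE : 1 ≤ E') (hDa : 1 ≤ Da) :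
    ∃ x y : ℤ, (x ≠ 0 ∨ y ≠ 0) ∧ (E' : ℤ) ∣ x - b * y ∧
      (x ^ 2 + (Da : ℤ) * y ^ 2) ^ 2 ≤ 4 * (E' : ℤ) ^ 2 * Da := by
  obtain ⟨X, hX1, hX2⟩ := lb2_root (E' ^ 2 * Da)
  obtain ⟨Y, hY1, hY2⟩ := lb2_root (E' ^ 2 / Da)
  have hY1' : Y ^ 4 * Da ≤ E' ^ 2 := (Nat.le_div_iff_mul_le (by omega)).1 hY1
  have hY2' : E' ^ 2 < (Y + 1) ^ 4 * Da := (Nat.div_lt_iff_lt_mul (by omega)).1 hY2
  have hcard : E' < (X + 1) * (Y + 1) := by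
    have h1 : E' ^ 4 * Da < ((X + 1) * (Y + 1)) ^ 4 * Da := by
      calc E' ^ 4 * Da = (E' ^ 2 * Da) * E' ^ 2 := by ring
        _ < (X + 1) ^ 4 * ((Y + 1) ^ 4 * Da) := by
            apply Nat.mul_lt_mul'' hX2 hY2'
        _ = ((X + 1) * (Y + 1)) ^ 4 * Da := by ring
    have h2 : E' ^ 4 < ((X + 1) * (Y + 1)) ^ 4 := Nat.lt_of_mul_lt_mul_right h1
    exact lt_of_pow_lt_pow_left₀ 4 (Nat.zero_le _) h2
  have hmaps : ∀ p ∈ (range (X + 1) ×ˢ range (Y + 1) : Finset (ℕ × ℕ)),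
      (((p.1 : ℤ) - b * p.2) % E') ∈ Finset.Ico (0 : ℤ) E' := by
    intro p _
    rw [Finset.mem_Ico]
    exact ⟨Int.emod_nonneg _ (by omega), Int.emod_lt_of_pos _ (by omega)⟩
  have hc : (Finset.Ico (0 : ℤ) E').card < (range (X + 1) ×ˢ range (Y + 1) : Finset (ℕ × ℕ)).card := by
    rw [Finset.card_product, Finset.card_range, Finset.card_range, Int.card_Ico]
    simpa using hcard
  obtain ⟨p, hp, p', hp', hne, heq⟩ := Finset.exists_ne_map_eq_of_card_lt_of_maps_to hc hmaps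
  rw [Finset.mem_product, Finset.mem_range, Finset.mem_range] at hp hp'
  refine ⟨(p.1 : ℤ) - p'.1, (p.2 : ℤ) - p'.2, ?_, ?_, ?_⟩
  · by_contra hcon
    push Not at hcon
    apply hne
    have h1 : p.1 = p'.1 := by omega
    have h2 : p.2 = p'.2 := by omega
    exact Prod.ext h1 h2
  · have h2 := Int.ModEq.dvd (show ((p'.1 : ℤ) - b * p'.2) ≡ ((p.1 : ℤ) - b * p.2) [ZMOD E'] from heq.symm)
    have h3 : (p.1 : ℤ) - p'.1 - b * ((p.2 : ℤ) - p'.2) = (p.1 : ℤ) - b * p.2 - ((p'.1 : ℤ) - b * p'.2) := by ring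
    rw [h3]
    exact h2
  · have hx := lb2_diff hp.1 hp'.1
    have hy := lb2_diff hp.2 hp'.2
    have hX : (X : ℤ) ^ 4 ≤ (E' : ℤ) ^ 2 * Da := by exact_mod_cast hX1
    have hY : (Y : ℤ) ^ 4 * Da ≤ (E' : ℤ) ^ 2 := by exact_mod_cast hY1'
    have hD : (1 : ℤ) ≤ Da := by exact_mod_cast hDa
    set x : ℤ := (p.1 : ℤ) - p'.1
    set y : ℤ := (p.2 : ℤ) - p'.2
    have h1 : (Da : ℤ) ^ 2 * y ^ 4 ≤ (E' : ℤ) ^ 2 * Da := by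
      calc (Da : ℤ) ^ 2 * y ^ 4 ≤ (Da : ℤ) ^ 2 * (Y : ℤ) ^ 4 := by gcongr
        _ = ((Y : ℤ) ^ 4 * Da) * Da := by ring
        _ ≤ (E' : ℤ) ^ 2 * Da := by gcongr
    nlinarith [sq_nonneg (x ^ 2 - (Da : ℤ) * y ^ 2)]

end Hp

end Pool.Agent.Lib.MP_d8bd92_nt
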