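import Pool.Agent.Lib.MP_d8bd92_nt.Hp.LB1
import Pool.Agent.Lib.MP_d8bd92_nt.Hp.LB2

set_option autoImplicit false

/-!
MP_d8bd92_nt, block LL, file LB3.
-/

namespace Pool.Agent.Lib.MP_d8bd92_nt

namespace Hp

open Finset

theorem lb3_hh_nonneg {D : ℤ} (z : ℤ√D) : 0 ≤ hh z := by
  unfold hh
  have := mul_nonneg (abs_nonneg D) (sq_nonneg z.im)
  linarith [sq_nonneg z.re]

theorem lb3_hh_pos {D : ℤ} (hD : ∀ n : ℤ, D ≠ n * n) {z : ℤ√D} (hz : z ≠ 0) : 0 < hh z := by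
  have hD0 : D ≠ 0 := by simpa using hD 0
  have h1 : 0 < |D| := abs_pos.mpr hD0
  unfold hh
  by_cases h : z.re = 0
  · have h2 : z.im ≠ 0 := by
      intro h3
      exact hz (Zsqrtd.ext h h3)
    have : 0 < z.im ^ 2 := by positivity
    nlinarith [sq_nonneg z.re, mul_pos h1 this]
  · have : 0 < z.re ^ 2 := by positivity
    nlinarith [sq_nonneg z.im, mul_nonneg h1.le (sq_nonneg z.im)]

theorem lb3_norm_sq_le {D : ℤ} (z : ℤ√D) : z.norm ^ 2 ≤ (hh z) ^ 2 := by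
  have h0 := lb3_hh_nonneg z
  rw [sq_le_sq, abs_of_nonneg h0, abs_le]
  have h1 : z.norm = z.re ^ 2 - D * z.im ^ 2 := by rw [Zsqrtd.norm_def]; ring
  have h2 : D * z.im ^ 2 ≤ |D| * z.im ^ 2 := mul_le_mul_of_nonneg_right (le_abs_self D) (sq_nonneg _)
  have h3 : -(|D| * z.im ^ 2) ≤ D * z.im ^ 2 := by
    have := mul_le_mul_of_nonneg_right (neg_abs_le D) (sq_nonneg z.im)
    linarith
  rw [h1]; unfold hh
  constructor
  · nlinarith [sq_nonneg z.re]
  · nlinarith [sq_nonneg z.re]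

theorem lb3_hh_mul_nat {D : ℤ} (c : ℕ) (z : ℤ√D) : hh ((c : ℤ√D) * z) = (c : ℤ) ^ 2 * hh z := by
  unfold hh
  have h1 : ((c : ℤ√D) * z).re = c * z.re := by simp [Zsqrtd.re_mul]
  have h2 : ((c : ℤ√D) * z).im = c * z.im := by simp [Zsqrtd.im_mul]
  rw [h1, h2]; ring

/-- a nonzero element of `I` with minimal `hh` -/
theorem lb3_min {D : ℤ} {I : Ideal (ℤ√D)} (h : ∃ z ∈ I, z ≠ 0) :
    ∃ e ∈ I, e ≠ 0 ∧ ∀ z ∈ I, z ≠ 0 → hh e ≤ hh z := by
  classical
  have hex : ∃ n : ℕ, ∃ z ∈ I, z ≠ 0 ∧ (hh z).toNat = n := by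
    obtain ⟨z, hz, hz0⟩ := h
    exact ⟨_, z, hz, hz0, rfl⟩
  obtain ⟨e, he, he0, hen⟩ := Nat.find_spec hex
  refine ⟨e, he, he0, fun z hz hz0 => ?_⟩
  have h1 : Nat.find hex ≤ (hh z).toNat := Nat.find_min' hex ⟨z, hz, hz0, rfl⟩
  rw [← hen] at h1
  have h2 := lb3_hh_nonneg z
  have h3 := lb3_hh_nonneg e
  omega

/-- Row hpLB3 (uses `struct`, `thue`).  Let `e` be a nonzero element of `I` with minimal `hh`
(exists; by `struct` and `thue` `(hh e)^2 ≤ 4 E^2 |D|`).  `e * star e ∈ I * cj I`: `e.norm = a E`, `a ≠ 0`.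
Put `J := {z | z * E ∈ span {star e} * I}`, better: `J := {w | ∃ z ∈ I, star e * z = E * w}`
(`star e * z ∈ cj I * I = span {E}`), so `span {E} * J = span {star e} * I`; multiply by `e`:
`span {e} * J * span{E} = span {a E} * I`, so `span {a} * I = span {e} * J`.
`J * cj J = span {a}` (multiply out), `J` is primitive: if `J ≤ span {g}`, `g : ℕ`, then
`span{star e} * I ≤ span{g E}`, times `cj I`: `E star e ∈ span {g E} * cj I`, so `e ∈ span {g} * I`, and
minimality of `e` gives `g = 1` (write `e = g e1`).  So `struct` applied to `J` (norm `|a|`) gives `c = 1` and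
`J = {x + y √D | a ∣ x - b y} = span {a, b + √D}`; change `b` modulo `a` to get `|b| ≤ |a|`. -/
theorem label {D : ℤ} (hD : ∀ n : ℤ, D ≠ n * n) {I : Ideal (ℤ√D)} {E : ℕ} (hI : HN I E) :
    ∃ (e : ℤ√D) (a b : ℤ), e ≠ 0 ∧ e ∈ I ∧ a ≠ 0 ∧ |b| ≤ |a| ∧ a ∣ b ^ 2 - D ∧ e.norm = a * E ∧
      Ideal.span {(a : ℤ√D)} * I = Ideal.span {e} * Ideal.span {(a : ℤ√D), (⟨b, 1⟩ : ℤ√D)} ∧
      (hh e) ^ 2 ≤ 4 * (E : ℤ) ^ 2 * |D| ∧ a ^ 2 ≤ 4 * |D| := by
  classical
  have := isDomain_of hD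
  have hD0 : D ≠ 0 := by simpa using hD 0
  have hE0 : (E : ℤ√D) ≠ 0 := hI.ne_zero
  have hEI : (E : ℤ√D) ∈ I := by
    have h1 : (E : ℤ√D) ∈ I * cj I := by rw [hI.2]; exact Ideal.mem_span_singleton_self _
    have h2 : I * cj I ≤ I := Ideal.mul_le_left
    exact h2 h1
  have hex : ∃ z ∈ I, z ≠ 0 := ⟨_, hEI, hE0⟩
  obtain ⟨e, heI, he0, hmin⟩ := lb3_min hex
  -- the bound
  have hbound : (hh e) ^ 2 ≤ 4 * (E : ℤ) ^ 2 * |D| := by
    obtain ⟨c, E', b, hc, hE', hEc, hdv, hmem⟩ := struct hD hI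
    obtain ⟨x, y, hxy, hdvd, hle⟩ := thue E' D.natAbs b hE' (Int.natAbs_pos.mpr hD0)
    have hz : (⟨c * x, c * y⟩ : ℤ√D) ∈ I := (hmem _).mpr ⟨x, y, rfl, hdvd⟩
    have hc0 : (c : ℤ) ≠ 0 := by exact_mod_cast (by omega : c ≠ 0)
    have hz0 : (⟨c * x, c * y⟩ : ℤ√D) ≠ 0 := by
      intro h
      have h1 := congrArg Zsqrtd.re h
      have h2 := congrArg Zsqrtd.im h
      simp only [Zsqrtd.re_zero, Zsqrtd.im_zero, mul_eq_zero, hc0, false_or] at h1 h2
      rcases hxy with h3 | h3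
      · exact h3 h1
      · exact h3 h2
    have h1 := hmin _ hz hz0
    have h2 : hh (⟨c * x, c * y⟩ : ℤ√D) = (c : ℤ) ^ 2 * (x ^ 2 + |D| * y ^ 2) := by
      unfold hh; ring
    rw [h2] at h1
    have h3 : ((D.natAbs : ℕ) : ℤ) = |D| := Int.natCast_natAbs D
    rw [h3] at hle
    have h4 := lb3_hh_nonneg e
    have h5 : (hh e) ^ 2 ≤ ((c : ℤ) ^ 2 * (x ^ 2 + |D| * y ^ 2)) ^ 2 := pow_le_pow_left₀ h4 h1 2
    have h6 : ((c : ℤ) ^ 2 * (x ^ 2 + |D| * y ^ 2)) ^ 2 ≤ (c : ℤ) ^ 4 * (4 * (E' : ℤ) ^ 2 * |D|) := by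
      have : ((c : ℤ) ^ 2 * (x ^ 2 + |D| * y ^ 2)) ^ 2 = (c : ℤ) ^ 4 * (x ^ 2 + |D| * y ^ 2) ^ 2 := by ring
      rw [this]
      exact mul_le_mul_of_nonneg_left hle (by positivity)
    have h7 : (c : ℤ) ^ 4 * (4 * (E' : ℤ) ^ 2 * |D|) = 4 * (E : ℤ) ^ 2 * |D| := by
      rw [hEc]; push_cast; ring
    linarith
  -- the norm
  obtain ⟨a, ha⟩ : ∃ a : ℤ, e.norm = a * E := by
    have h1 : (E : ℤ√D) ∣ e * star e := hI.dvd_norm heI heI
    rw [← norm_int] at h1
    have h2 : (((E : ℤ)) : ℤ√D) ∣ ((e.norm : ℤ) : ℤ√D) := by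
      rw [Int.cast_natCast]; exact h1
    obtain ⟨a, ha⟩ := (Zsqrtd.intCast_dvd_intCast _ _).mp h2
    exact ⟨a, by rw [ha]; ring⟩
  have hnorm0 : e.norm ≠ 0 := fun h => he0 ((Zsqrtd.norm_eq_zero hD e).mp h)
  have ha0 : a ≠ 0 := by rintro rfl; exact hnorm0 (by rw [ha]; ring)
  have hE1 : (1 : ℤ) ≤ E := by exact_mod_cast hI.1
  have hasq : a ^ 2 ≤ 4 * |D| := by
    have h1 := lb3_norm_sq_le e
    rw [ha] at h1
    have h2 : a ^ 2 * (E : ℤ) ^ 2 ≤ (4 * |D|) * (E : ℤ) ^ 2 := by nlinarith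
    exact le_of_mul_le_mul_right h2 (by positivity)
  -- the ideal J
  let M : Ideal (ℤ√D) := Ideal.span {star e} * I
  have hMmem : ∀ m ∈ M, ∃ z ∈ I, m = star e * z := by
    intro m hm
    obtain ⟨z, hz, hz2⟩ := Ideal.mem_span_singleton_mul.mp hm
    exact ⟨z, hz, hz2.symm⟩
  have hMdvd : ∀ m ∈ M, (E : ℤ√D) ∣ m := by
    intro m hm
    obtain ⟨z, hz, rfl⟩ := hMmem m hm
    rw [mul_comm]
    exact hI.dvd_norm hz heI
  let J : Ideal (ℤ√D) :=
    { carrier := {w | (E : ℤ√D) * w ∈ M}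
      add_mem' := by
        intro u v hu hv
        simp only [Set.mem_ofPred_eq] at hu hv ⊢
        rw [mul_add]; exact M.add_mem hu hv
      zero_mem' := by simp
      smul_mem' := by
        intro r w hw
        simp only [Set.mem_ofPred_eq, smul_eq_mul] at hw ⊢
        rw [mul_left_comm]; exact M.mul_mem_left r hw }
  have hJmem : ∀ w : ℤ√D, w ∈ J ↔ (E : ℤ√D) * w ∈ M := fun w => Iff.rfl
  have hEJ : Ideal.span {(E : ℤ√D)} * J = M := by
    apply le_antisymm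
    · intro m hm
      obtain ⟨w, hw, hw2⟩ := Ideal.mem_span_singleton_mul.mp hm
      rw [← hw2]; exact (hJmem w).mp hw
    · intro m hm
      obtain ⟨w, hw⟩ := hMdvd m hm
      apply Ideal.mem_span_singleton_mul.mpr
      exact ⟨w, (hJmem w).mpr (by rw [← hw]; exact hm), hw.symm⟩
  have hne : Ideal.span {e} * Ideal.span {star e} = Ideal.span {(a : ℤ√D)} * Ideal.span {(E : ℤ√D)} := by
    rw [Ideal.span_singleton_mul_span_singleton, Ideal.span_singleton_mul_span_singleton, ← norm_int, ha]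
    push_cast; rfl
  have hmain : Ideal.span {(a : ℤ√D)} * I = Ideal.span {e} * J := by
    apply cancel_span hE0
    calc Ideal.span {(E : ℤ√D)} * (Ideal.span {(a : ℤ√D)} * I)
        = (Ideal.span {(a : ℤ√D)} * Ideal.span {(E : ℤ√D)}) * I := by
          rw [← mul_assoc, mul_comm (Ideal.span {(E : ℤ√D)})]
      _ = (Ideal.span {e} * Ideal.span {star e}) * I := by rw [hne]
      _ = Ideal.span {e} * (Ideal.span {(E : ℤ√D)} * J) := by rw [hEJ, mul_assoc]
      _ = Ideal.span {(E : ℤ√D)} * (Ideal.span {e} * J) := by rw [mul_left_comm]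
  have hJJ : J * cj J = Ideal.span {(a : ℤ√D)} := by
    apply cancel_span hE0
    apply cancel_span hE0
    have h1 : cj M = Ideal.span {e} * cj I := by
      show cj (Ideal.span {star e} * I) = _
      rw [cj_mul, cj_span_singleton, star_star]
    have h2 : cj M = Ideal.span {(E : ℤ√D)} * cj J := by
      rw [← hEJ, cj_mul, cj_span_natCast]
    calc Ideal.span {(E : ℤ√D)} * (Ideal.span {(E : ℤ√D)} * (J * cj J))
        = (Ideal.span {(E : ℤ√D)} * J) * (Ideal.span {(E : ℤ√D)} * cj J) := by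
          rw [mul_mul_mul_comm, mul_assoc]
      _ = M * cj M := by rw [hEJ, ← h2]
      _ = (Ideal.span {star e} * I) * (Ideal.span {e} * cj I) := by rw [h1]
      _ = (Ideal.span {star e} * Ideal.span {e}) * (I * cj I) := by rw [mul_mul_mul_comm]
      _ = (Ideal.span {e} * Ideal.span {star e}) * Ideal.span {(E : ℤ√D)} := by
          rw [hI.2, mul_comm (Ideal.span {star e})]
      _ = Ideal.span {(E : ℤ√D)} * (Ideal.span {(E : ℤ√D)} * Ideal.span {(a : ℤ√D)}) := by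
          rw [hne, mul_comm, mul_comm (Ideal.span {(a : ℤ√D)})]
  have hJN : HN J a.natAbs := by
    refine ⟨Int.natAbs_pos.mpr ha0, ?_⟩
    rw [hJJ]
    rcases Int.natAbs_eq a with h | h
    · have : ((a : ℤ) : ℤ√D) = ((a.natAbs : ℕ) : ℤ√D) := by
        rw [← Int.cast_natCast (R := ℤ√D) a.natAbs]
        exact congrArg _ h
      rw [this]
    · have : ((a : ℤ) : ℤ√D) = -((a.natAbs : ℕ) : ℤ√D) := by
        rw [← Int.cast_natCast (R := ℤ√D) a.natAbs, ← Int.cast_neg]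
        exact congrArg _ h
      rw [this, Ideal.span_singleton_neg]
  obtain ⟨c, E', b, hc, hE', hEc, hdv, hmem⟩ := struct hD hJN
  -- J is primitive
  have hJc : J ≤ Ideal.span {(c : ℤ√D)} := by
    intro w hw
    obtain ⟨x, y, rfl, _⟩ := (hmem w).mp hw
    rw [Ideal.mem_span_singleton]
    refine ⟨⟨x, y⟩, ?_⟩
    ext <;> simp
  have hc1 : c = 1 := by
    have hc0 : (c : ℤ√D) ≠ 0 := by exact_mod_cast (by omega : (c : ℤ) ≠ 0)
    have h1 : Ideal.span {star e} * Ideal.span {(E : ℤ√D)} ≤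
        Ideal.span {(E : ℤ√D)} * (Ideal.span {(c : ℤ√D)} * cj I) := by
      calc Ideal.span {star e} * Ideal.span {(E : ℤ√D)} = Ideal.span {star e} * (I * cj I) := by rw [hI.2]
        _ = M * cj I := by rw [← mul_assoc]
        _ = (Ideal.span {(E : ℤ√D)} * J) * cj I := by rw [hEJ]
        _ ≤ (Ideal.span {(E : ℤ√D)} * Ideal.span {(c : ℤ√D)}) * cj I :=
          Ideal.mul_mono_left (Ideal.mul_mono_right hJc)
        _ = _ := by rw [mul_assoc]
    have h2 : star e * (E : ℤ√D) ∈ Ideal.span {(E : ℤ√D)} * (Ideal.span {(c : ℤ√D)} * cj I) :=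
      h1 (Ideal.mul_mem_mul (Ideal.mem_span_singleton_self _) (Ideal.mem_span_singleton_self _))
    obtain ⟨u, hu, hu2⟩ := Ideal.mem_span_singleton_mul.mp h2
    rw [mul_comm (star e)] at hu2
    have hu3 : u = star e := mul_left_cancel₀ hE0 hu2
    rw [hu3] at hu
    obtain ⟨v, hv, hv2⟩ := Ideal.mem_span_singleton_mul.mp hu
    have hv3 : star v ∈ I := mem_cj.mp hv
    have hev : e = (c : ℤ√D) * star v := by
      have := congrArg star hv2
      rw [star_mul', star_star] at this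
      rw [← this]; simp
    have hv0 : star v ≠ 0 := by
      intro h; rw [h, mul_zero] at hev; exact he0 hev
    have h3 := hmin _ hv3 hv0
    rw [hev, lb3_hh_mul_nat] at h3
    have h4 := lb3_hh_pos hD hv0
    have h5 : (c : ℤ) ^ 2 ≤ 1 := by
      by_contra hcon
      push Not at hcon
      nlinarith
    have h6 : (1 : ℤ) ≤ c := by exact_mod_cast hc
    have h7 : (c : ℤ) ≤ 1 := by nlinarith
    omega
  subst hc1
  have hE'a : (E' : ℤ) = |a| := by
    have : E' = a.natAbs := by rw [hEc]; ring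
    rw [this]; exact Int.natCast_natAbs a
  have hdv' : ∀ t : ℤ, (E' : ℤ) ∣ t ↔ a ∣ t := by intro t; rw [hE'a, abs_dvd]
  have hmem' : ∀ z : ℤ√D, z ∈ J ↔ a ∣ z.re - b * z.im := by
    intro z
    rw [hmem z]
    constructor
    · rintro ⟨x, y, rfl, h⟩
      rw [← hdv']; simpa using h
    · intro h
      refine ⟨z.re, z.im, ?_, (hdv' _).mpr h⟩
      ext <;> simp
  have hba : a ∣ b - b % a := Int.dvd_self_sub_emod
  have hJspan : J = Ideal.span {(a : ℤ√D), (⟨b % a, 1⟩ : ℤ√D)} := by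
    apply le_antisymm
    · intro z hz
      obtain ⟨k, hk⟩ := (hmem' z).mp hz
      obtain ⟨l, hl⟩ := hba
      rw [Ideal.mem_span_pair]
      refine ⟨((k + l * z.im : ℤ) : ℤ√D), ((z.im : ℤ) : ℤ√D), ?_⟩
      have h1 : z.re = a * k + b * z.im := by linarith
      have h2 : b = a * l + b % a := by linarith
      ext
      · simp only [Zsqrtd.re_add, Zsqrtd.re_mul, Zsqrtd.re_intCast, Zsqrtd.im_intCast]
        rw [h1]
        generalize b % a = b' at *
        rw [h2]; ring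
      · simp only [Zsqrtd.im_add, Zsqrtd.im_mul, Zsqrtd.re_intCast, Zsqrtd.im_intCast]
        ring
    · rw [Ideal.span_le]
      rintro z hz
      rcases hz with rfl | hz
      · exact (hmem' _).mpr (by simp)
      · rw [Set.mem_singleton_iff] at hz
        subst hz
        refine (hmem' _).mpr ?_
        show a ∣ b % a - b * 1
        rw [mul_one]
        exact (dvd_sub_comm).mp hba
  refine ⟨e, a, b % a, he0, heI, ha0, ?_, ?_, ha, ?_, hbound, hasq⟩
  · rw [abs_of_nonneg (Int.emod_nonneg b ha0)]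
    exact (Int.emod_lt_abs b ha0).le
  · have h1 : a ∣ b ^ 2 - D := (hdv' _).mp hdv
    have h2 : a ∣ b ^ 2 - (b % a) ^ 2 := by
      have : b ^ 2 - (b % a) ^ 2 = (b - b % a) * (b + b % a) := by ring
      rw [this]; exact Dvd.dvd.mul_right hba _
    have h3 := dvd_sub h1 h2
    have h4 : b ^ 2 - D - (b ^ 2 - (b % a) ^ 2) = (b % a) ^ 2 - D := by ring
    rwa [h4] at h3
  · rw [hmain, ← hJspan]

end Hp

end Pool.Agent.Lib.MP_d8bd92_nt
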