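import Pool.Agent.Lib.MP_d8bd92_nt.Hp.LL0
import Pool.Agent.Lib.MP_d8bd92_nt.CdA

set_option autoImplicit false

/-!
MP_d8bd92_nt, block LL, file LB4.
-/

namespace Pool.Agent.Lib.MP_d8bd92_nt

namespace Hp

open Finset

/-- Row hpLB4.  For each `b` with `|b| ≤ 2 √|D|` (at most `5 √|D|` values) `a` divides `b^2 - D ≠ 0`,
`|b^2 - D| ≤ 5 |D|`; use `card_divisors_le_rpow` of `CdA.lean`. -/
theorem label_count (ε : ℝ) (hε : 0 < ε) : ∃ C : ℝ, 0 < C ∧ ∀ D : ℤ, (∀ n : ℤ, D ≠ n * n) →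
    ∀ T : Finset (ℤ × ℤ), (∀ p ∈ T, p.1 ≠ 0 ∧ |p.2| ≤ |p.1| ∧ p.1 ∣ p.2 ^ 2 - D ∧ p.1 ^ 2 ≤ 4 * |D|) →
      (T.card : ℝ) ≤ C * ((|D| : ℤ) : ℝ) ^ ε * √((|D| : ℤ) : ℝ) := by
  obtain ⟨C0, hC0, hdiv⟩ := card_divisors_le_rpow ε hε
  refine ⟨10 * C0 * (5 : ℝ) ^ ε, by positivity, ?_⟩
  intro D hD T hT
  have hD0 : D ≠ 0 := by
    intro h
    exact hD 0 (by rw [h]; ring)
  have hDpos : 0 < |D| := abs_pos.2 hD0
  have hD1 : (1 : ℝ) ≤ ((|D| : ℤ) : ℝ) := by exact_mod_cast hDpos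
  set X : ℝ := ((|D| : ℤ) : ℝ) with hX
  have hX0 : 0 < X := by linarith
  have hsq : 1 ≤ √X := by
    rw [Real.one_le_sqrt]
    exact hD1
  -- the range of b
  set B : ℕ := Nat.sqrt (4 * D.natAbs) with hB
  have hBX : (B : ℝ) ≤ 2 * √X := by
    have h1 : ((B * B : ℕ) : ℝ) ≤ ((4 * D.natAbs : ℕ) : ℝ) := by
      exact_mod_cast Nat.sqrt_le (4 * D.natAbs)
    have h2 : ((D.natAbs : ℕ) : ℝ) = X := by
      rw [hX, Int.abs_eq_natAbs]
      simp
    push_cast at h1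
    rw [h2] at h1
    have h3 : (B : ℝ) = √((B : ℝ) * B) := by
      rw [Real.sqrt_mul_self (by positivity)]
    rw [h3]
    calc √((B : ℝ) * B) ≤ √(4 * X) := Real.sqrt_le_sqrt h1
      _ = 2 * √X := by
        rw [Real.sqrt_mul (by norm_num)]
        congr 1
        rw [show (4 : ℝ) = 2 ^ 2 by norm_num, Real.sqrt_sq (by norm_num)]
  have hmaps : ∀ p ∈ T, p.2 ∈ Finset.Icc (-(B : ℤ)) B := by
    intro p hp
    obtain ⟨h1, h2, h3, h4⟩ := hT p hp
    have h5 : p.2.natAbs ≤ B := by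
      rw [hB, Nat.le_sqrt]
      have h6 : (p.2.natAbs : ℤ) * p.2.natAbs ≤ 4 * |D| := by
        have h7 : ((p.2.natAbs : ℤ)) = |p.2| := (Int.abs_eq_natAbs p.2).symm
        rw [h7]
        have h8 : |p.2| * |p.2| ≤ |p.1| * |p.1| :=
          mul_self_le_mul_self (abs_nonneg _) h2
        have h9 : |p.1| * |p.1| = p.1 ^ 2 := by rw [abs_mul_abs_self, sq]
        linarith
      have h10 : |D| = (D.natAbs : ℤ) := Int.abs_eq_natAbs D
      rw [h10] at h6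
      exact_mod_cast h6
    rw [Finset.mem_Icc]
    omega
  have hfib : ∀ b ∈ Finset.Icc (-(B : ℤ)) B,
      (((T.filter (fun p => p.2 = b)).card : ℕ) : ℝ) ≤ 2 * (C0 * ((5 : ℝ) ^ ε * X ^ ε)) := by
    intro b hb
    rcases (T.filter (fun p => p.2 = b)).eq_empty_or_nonempty with he | ⟨q, hq⟩
    · rw [he]
      simp only [Finset.card_empty, Nat.cast_zero]
      positivity
    rw [Finset.mem_filter] at hq
    obtain ⟨hqT, hqb⟩ := hq
    have hn0 : (b ^ 2 - D).natAbs ≠ 0 := by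
      rw [Int.natAbs_ne_zero]
      intro h
      exact hD b (by linarith [sq b])
    have hbd : (((b ^ 2 - D).natAbs : ℕ) : ℝ) ≤ 5 * X := by
      obtain ⟨h1, h2, h3, h4⟩ := hT q hqT
      rw [hqb] at h2
      have h8 : |b| * |b| ≤ |q.1| * |q.1| := mul_self_le_mul_self (abs_nonneg _) h2
      have h9 : |q.1| * |q.1| = q.1 ^ 2 := by rw [abs_mul_abs_self, sq]
      have h10 : |b| * |b| = b ^ 2 := by rw [abs_mul_abs_self, sq]
      have h11 : |b ^ 2 - D| ≤ 5 * |D| := by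
        calc |b ^ 2 - D| ≤ |b ^ 2| + |D| := abs_sub _ _
          _ = b ^ 2 + |D| := by rw [abs_of_nonneg (sq_nonneg b)]
          _ ≤ 5 * |D| := by linarith
      have h12 : (((b ^ 2 - D).natAbs : ℕ) : ℝ) = ((|b ^ 2 - D| : ℤ) : ℝ) := by
        rw [Int.abs_eq_natAbs]
        simp
      rw [h12, hX]
      exact_mod_cast h11
    have hsub : T.filter (fun p => p.2 = b) ⊆
        (((b ^ 2 - D).natAbs.divisors.image (fun d : ℕ => (d : ℤ))) ∪
          ((b ^ 2 - D).natAbs.divisors.image (fun d : ℕ => -(d : ℤ)))).image (fun a => (a, b)) := by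
      intro p hp
      rw [Finset.mem_filter] at hp
      obtain ⟨hpT, hpb⟩ := hp
      obtain ⟨h1, h2, h3, h4⟩ := hT p hpT
      rw [hpb] at h3
      have hd : p.1.natAbs ∈ (b ^ 2 - D).natAbs.divisors := by
        rw [Nat.mem_divisors]
        exact ⟨Int.natAbs_dvd_natAbs.2 h3, hn0⟩
      rw [Finset.mem_image]
      refine ⟨p.1, ?_, by rw [← hpb]⟩
      rw [Finset.mem_union, Finset.mem_image, Finset.mem_image]
      rcases Int.natAbs_eq p.1 with h | h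
      · exact Or.inl ⟨p.1.natAbs, hd, h.symm⟩
      · exact Or.inr ⟨p.1.natAbs, hd, h.symm⟩
    have hcard : (T.filter (fun p => p.2 = b)).card ≤ 2 * (b ^ 2 - D).natAbs.divisors.card := by
      calc (T.filter (fun p => p.2 = b)).card ≤ _ := Finset.card_le_card hsub
        _ ≤ (((b ^ 2 - D).natAbs.divisors.image (fun d : ℕ => (d : ℤ))) ∪
          ((b ^ 2 - D).natAbs.divisors.image (fun d : ℕ => -(d : ℤ)))).card := Finset.card_image_le
        _ ≤ ((b ^ 2 - D).natAbs.divisors.image (fun d : ℕ => (d : ℤ))).card +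
          ((b ^ 2 - D).natAbs.divisors.image (fun d : ℕ => -(d : ℤ))).card := Finset.card_union_le _ _
        _ ≤ (b ^ 2 - D).natAbs.divisors.card + (b ^ 2 - D).natAbs.divisors.card :=
          Nat.add_le_add Finset.card_image_le Finset.card_image_le
        _ = 2 * (b ^ 2 - D).natAbs.divisors.card := by ring
    calc (((T.filter (fun p => p.2 = b)).card : ℕ) : ℝ)
        ≤ ((2 * (b ^ 2 - D).natAbs.divisors.card : ℕ) : ℝ) := by exact_mod_cast hcard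
      _ = 2 * (((b ^ 2 - D).natAbs.divisors.card : ℕ) : ℝ) := by push_cast; ring
      _ ≤ 2 * (C0 * (((b ^ 2 - D).natAbs : ℕ) : ℝ) ^ ε) := by
          have := hdiv _ hn0
          linarith
      _ ≤ 2 * (C0 * (5 * X) ^ ε) := by
          have h1 : (((b ^ 2 - D).natAbs : ℕ) : ℝ) ^ ε ≤ (5 * X) ^ ε :=
            Real.rpow_le_rpow (by positivity) hbd hε.le
          have h2 : C0 * (((b ^ 2 - D).natAbs : ℕ) : ℝ) ^ ε ≤ C0 * (5 * X) ^ ε :=
            mul_le_mul_of_nonneg_left h1 (by linarith)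
          linarith
      _ = 2 * (C0 * ((5 : ℝ) ^ ε * X ^ ε)) := by
          rw [Real.mul_rpow (by norm_num) hX0.le]
  have htot : (T.card : ℝ) ≤ ((2 * B + 1 : ℕ) : ℝ) * (2 * (C0 * ((5 : ℝ) ^ ε * X ^ ε))) := by
    rw [Finset.card_eq_sum_card_fiberwise hmaps]
    push_cast
    calc ∑ b ∈ Finset.Icc (-(B : ℤ)) B, (((T.filter (fun p => p.2 = b)).card : ℕ) : ℝ)
        ≤ ∑ b ∈ Finset.Icc (-(B : ℤ)) B, 2 * (C0 * ((5 : ℝ) ^ ε * X ^ ε)) :=
          Finset.sum_le_sum hfib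
      _ = (2 * (B : ℝ) + 1) * (2 * (C0 * ((5 : ℝ) ^ ε * X ^ ε))) := by
          rw [Finset.sum_const, nsmul_eq_mul, Int.card_Icc]
          congr 1
          have : ((B : ℤ) + 1 - -(B : ℤ)).toNat = 2 * B + 1 := by omega
          rw [this]
          push_cast
          ring
  have hBn : ((2 * B + 1 : ℕ) : ℝ) ≤ 5 * √X := by
    push_cast
    linarith
  calc (T.card : ℝ) ≤ ((2 * B + 1 : ℕ) : ℝ) * (2 * (C0 * ((5 : ℝ) ^ ε * X ^ ε))) := htot
    _ ≤ (5 * √X) * (2 * (C0 * ((5 : ℝ) ^ ε * X ^ ε))) :=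
        mul_le_mul_of_nonneg_right hBn (by positivity)
    _ = 10 * C0 * (5 : ℝ) ^ ε * X ^ ε * √X := by ring

end Hp

end Pool.Agent.Lib.MP_d8bd92_nt
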