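import Pool.Agent.Lib.MP_d8bd92_nt.Hp.LL0

set_option autoImplicit false

/-!
MP_d8bd92_nt, block LL, file LC1.
-/

namespace Pool.Agent.Lib.MP_d8bd92_nt

namespace Hp

open Finset

variable {D : ℤ}

/-- Row hpLC1.  Same label. -/
theorem beta_of_label (hD : ∀ n : ℤ, D ≠ n * n) {I I' J : Ideal (ℤ√D)} {E E' : ℕ} (hI : HN I E)
    (hI' : HN I' E') {e e' : ℤ√D} {a : ℤ} (ha : a ≠ 0) (hn : e.norm = a * E) (hn' : e'.norm = a * E')
    (h : Ideal.span {(a : ℤ√D)} * I = Ideal.span {e} * J)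
    (h' : Ideal.span {(a : ℤ√D)} * I' = Ideal.span {e'} * J) :
    Ideal.span {e'} * I = Ideal.span {e} * I' ∧
    ∃ β : ℤ√D, (a : ℤ√D) * β = e' * star e ∧ Ideal.span {β} = I' * cj I ∧ β.norm = (E : ℤ) * E' := by
  have := isDomain_of hD
  have ha0 : (a : ℤ√D) ≠ 0 := by exact_mod_cast ha
  have hE0 : (E : ℤ√D) ≠ 0 := hI.ne_zero
  have h1 : Ideal.span {e'} * I = Ideal.span {e} * I' := by
    apply cancel_span ha0
    calc Ideal.span {(a : ℤ√D)} * (Ideal.span {e'} * I) = Ideal.span {e'} * (Ideal.span {(a : ℤ√D)} * I) := by ring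
      _ = Ideal.span {e} * (Ideal.span {e'} * J) := by rw [h]; ring
      _ = Ideal.span {(a : ℤ√D)} * (Ideal.span {e} * I') := by rw [← h']; ring
  refine ⟨h1, ?_⟩
  have hne : ((e.norm : ℤ) : ℤ√D) = e * star e := norm_int e
  have h2 : Ideal.span {e' * star e} = Ideal.span {(a : ℤ√D)} * (I' * cj I) := by
    apply cancel_span hE0
    calc Ideal.span {(E : ℤ√D)} * Ideal.span {e' * star e}
        = Ideal.span {star e} * (Ideal.span {e'} * (I * cj I)) := by
          rw [hI.2, Ideal.span_singleton_mul_span_singleton, Ideal.span_singleton_mul_span_singleton,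
            Ideal.span_singleton_mul_span_singleton]
          congr 2; ring
      _ = Ideal.span {star e} * ((Ideal.span {e'} * I) * cj I) := by ring
      _ = Ideal.span {e * star e} * (I' * cj I) := by
          rw [h1, ← Ideal.span_singleton_mul_span_singleton]; ring
      _ = Ideal.span {(E : ℤ√D)} * (Ideal.span {(a : ℤ√D)} * (I' * cj I)) := by
          have h5 : Ideal.span {(((a * (E : ℤ) : ℤ)) : ℤ√D)} =
              Ideal.span {(E : ℤ√D)} * Ideal.span {(a : ℤ√D)} := by
            rw [Ideal.span_singleton_mul_span_singleton]; congr 2; push_cast; ring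
          rw [← hne, hn, h5, mul_assoc]
  have h3 : (a : ℤ√D) ∣ e' * star e := by
    rw [← Ideal.mem_span_singleton]
    have : e' * star e ∈ Ideal.span {(a : ℤ√D)} * (I' * cj I) := by
      rw [← h2]; exact Ideal.mem_span_singleton_self _
    have hle : Ideal.span {(a : ℤ√D)} * (I' * cj I) ≤ Ideal.span {(a : ℤ√D)} := Ideal.mul_le_left
    exact hle this
  obtain ⟨β, hβ⟩ := h3
  refine ⟨β, hβ.symm, ?_, ?_⟩
  · apply cancel_span ha0
    rw [← h2, Ideal.span_singleton_mul_span_singleton, hβ]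
  · have h4 := congrArg Zsqrtd.norm hβ
    rw [Zsqrtd.norm_mul, Zsqrtd.norm_mul, Zsqrtd.norm_intCast, Zsqrtd.norm_conj, hn, hn'] at h4
    have : a * a ≠ 0 := mul_ne_zero ha ha
    apply mul_left_cancel₀ this
    rw [← h4]; ring

end Hp

end Pool.Agent.Lib.MP_d8bd92_nt
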