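import Pool.Agent.Lib.MP_d8bd92_nt.Hp.BetaSC
import Pool.Agent.Lib.MP_d8bd92_nt.Hp.LB3
import Pool.Agent.Lib.MP_d8bd92_nt.Hp.LB4
import Pool.Agent.Lib.MP_d8bd92_nt.Hp.LC1

set_option autoImplicit false

/-! Block 6.6: labels of a family of invertible ideals. -/

namespace Pool.Agent.Lib.MP_d8bd92_nt

namespace Hp

/-- the number of size classes is at most a small power -/
theorem BetaLab_log (ε : ℝ) (hε : 0 < ε) : ∃ C : ℝ, 0 < C ∧ ∀ (X : ℝ) (M : ℕ), 1 ≤ X →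
    M ≤ 2 * Nat.log 2 ⌊2 * X ^ 2⌋₊ + 10 → (M : ℝ) ≤ C * X ^ ε := by
  have hl2 : 0 < Real.log 2 := Real.log_pos (by norm_num)
  refine ⟨12 + 4 / (Real.log 2 * ε), by positivity, ?_⟩
  intro X M hX hM
  have hX0 : 0 < X := by linarith
  have hlogX : 0 ≤ Real.log X := Real.log_nonneg hX
  have hH1 : 1 ≤ ⌊2 * X ^ 2⌋₊ := by
    apply Nat.le_floor
    push_cast
    nlinarith
  have hHle : ((⌊2 * X ^ 2⌋₊ : ℕ) : ℝ) ≤ 2 * X ^ 2 := Nat.floor_le (by positivity)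
  have hnl : ((Nat.log 2 ⌊2 * X ^ 2⌋₊ : ℕ) : ℝ) ≤ Real.log (2 * X ^ 2) / Real.log 2 := by
    rw [le_div_iff₀ hl2]
    have h1 : 2 ^ (Nat.log 2 ⌊2 * X ^ 2⌋₊) ≤ ⌊2 * X ^ 2⌋₊ := Nat.pow_log_le_self 2 (by omega)
    have h2 : ((2 : ℝ) ^ (Nat.log 2 ⌊2 * X ^ 2⌋₊)) ≤ 2 * X ^ 2 := by
      refine le_trans ?_ hHle
      exact_mod_cast h1
    have h3 := Real.log_le_log (by positivity) h2
    rwa [Real.log_pow] at h3
  have hlog : Real.log (2 * X ^ 2) = Real.log 2 + 2 * Real.log X := by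
    rw [Real.log_mul (by norm_num) (by positivity), Real.log_pow]; norm_num
  have hM' : (M : ℝ) ≤ 2 * ((Nat.log 2 ⌊2 * X ^ 2⌋₊ : ℕ) : ℝ) + 10 := by exact_mod_cast hM
  have hlX : Real.log X ≤ X ^ ε / ε := Real.log_le_rpow_div hX0.le hε
  have hXe : 1 ≤ X ^ ε := Real.one_le_rpow hX hε.le
  have h5 : Real.log (2 * X ^ 2) / Real.log 2 = 1 + 2 / Real.log 2 * Real.log X := by
    rw [hlog]; field_simp
  rw [h5] at hnl
  have h6 : 2 / Real.log 2 * Real.log X ≤ 2 / Real.log 2 * (X ^ ε / ε) :=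
    mul_le_mul_of_nonneg_left hlX (by positivity)
  have h7 : 2 / Real.log 2 * (X ^ ε / ε) = 2 / (Real.log 2 * ε) * X ^ ε := by
    field_simp
  have h8 : (12 + 4 / (Real.log 2 * ε)) * X ^ ε = 12 * X ^ ε + 2 * (2 / (Real.log 2 * ε) * X ^ ε) := by
    ring
  rw [h8]
  linarith

/-- LABELS. PROOF. `label` (LB3) gives `e i`, `a i`, `b i` for every `i`. The pairs `(a i, b i)` lie in a finite set with at most `C |D|^(ε/4) √|D|` elements (`label_count`;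
the set of all pairs with `a ≠ 0`, `|b| ≤ |a|`, `a ∣ b^2 - D`, `a^2 ≤ 4 |D|` is finite); `hh (e i) ≤ 2 (E i) |D| ≤ 2 X^2 =: H` and `size_class` gives
`O(log X)` classes. The label of `i` is the pair of (index of `(a i, b i)`, class of `e i`). Same label: `beta_of_label` (first conclusion) with
`J = span {a, b + √D}`. -/
theorem beta_labels (ε : ℝ) (hε : 0 < ε) : ∃ C : ℝ, 0 < C ∧ ∀ (X : ℝ) (D : ℤ) (ι : Type) (I : ι → Ideal (ℤ√D))
    (E : ι → ℕ), 1 ≤ X → (∀ n : ℤ, D ≠ n * n) → ((|D| : ℤ) : ℝ) ≤ X → (∀ i, HN (I i) (E i)) →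
    (∀ i, (E i : ℝ) ≤ X) → ∃ (N : ℕ) (lab : ι → Fin N) (e : ι → ℤ√D),
      (N : ℝ) ≤ C * X ^ ε * √((|D| : ℤ) : ℝ) ∧ (∀ i, e i ≠ 0) ∧
      ∀ i j, lab i = lab j → Ideal.span {e j} * I i = Ideal.span {e i} * I j ∧ Cmp 2 (e i) (e j) := by
  classical
  obtain ⟨C0, hC0, hcount⟩ := label_count (ε / 2) (by positivity)
  obtain ⟨C1, hC1, hlogb⟩ := BetaLab_log (ε / 2) (by positivity)
  refine ⟨C0 * C1, by positivity, ?_⟩
  intro X D ι I E hX hD hDX hI hE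
  have hX0 : 0 < X := by linarith
  have hD0 : D ≠ 0 := by
    have := hD 0
    simpa using this
  have hDsq : ¬ IsSquare D := by
    rintro ⟨r, hr⟩
    exact hD r hr
  have hD1 : (1 : ℤ) ≤ |D| := Int.one_le_abs hD0
  have hD1r : (1 : ℝ) ≤ ((|D| : ℤ) : ℝ) := by exact_mod_cast hD1
  choose e a b he0 heI ha0 hba hdvd hnorm hspan hhe ha2 using fun i => label hD (hI i)
  -- the finite set of pairs
  set P : ℤ × ℤ → Prop := fun p => p.1 ≠ 0 ∧ |p.2| ≤ |p.1| ∧ p.1 ∣ p.2 ^ 2 - D ∧ p.1 ^ 2 ≤ 4 * |D|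
    with hP
  set T : Finset (ℤ × ℤ) :=
    ((Finset.Icc (-(4 * |D|)) (4 * |D|)) ×ˢ (Finset.Icc (-(4 * |D|)) (4 * |D|))).filter P with hT
  have hTmem : ∀ p : ℤ × ℤ, P p → p ∈ T := by
    intro p hp
    rw [hT, Finset.mem_filter]
    refine ⟨?_, hp⟩
    obtain ⟨h1, h2, -, h4⟩ := hp
    have h5 : |p.1| ≤ 4 * |D| := by
      have h6 : 1 ≤ |p.1| := Int.one_le_abs h1
      have h7 : |p.1| ^ 2 = p.1 ^ 2 := sq_abs _
      nlinarith
    have h8 : |p.2| ≤ 4 * |D| := le_trans h2 h5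
    rw [Finset.mem_product, Finset.mem_Icc, Finset.mem_Icc]
    exact ⟨abs_le.mp h5, abs_le.mp h8⟩
  have hTP : ∀ p ∈ T, P p := by
    intro p hp
    rw [hT, Finset.mem_filter] at hp
    exact hp.2
  have hTcard := hcount D hD T hTP
  -- size classes
  set H : ℕ := ⌊2 * X ^ 2⌋₊ with hH
  have hH1 : 1 ≤ H := by
    rw [hH]
    apply Nat.le_floor
    push_cast
    nlinarith
  obtain ⟨M, cl, hM, hcl⟩ := size_class hDsq H hH1
  have hMb : (M : ℝ) ≤ C1 * X ^ (ε / 2) := hlogb X M hX hM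
  have hheH : ∀ i, hh (e i) ≤ (H : ℤ) := by
    intro i
    have h1 : (((hh (e i)) ^ 2 : ℤ) : ℝ) ≤ ((4 * (E i : ℤ) ^ 2 * |D| : ℤ) : ℝ) := by exact_mod_cast hhe i
    have h2 : ((hh (e i) : ℤ) : ℝ) ^ 2 ≤ 4 * (E i : ℝ) ^ 2 * ((|D| : ℤ) : ℝ) := by
      have h3 := h1
      push_cast at h3 ⊢
      exact h3
    have hE0 : (0 : ℝ) ≤ (E i : ℝ) := Nat.cast_nonneg _
    have hE2 : (E i : ℝ) ^ 2 ≤ X ^ 2 := pow_le_pow_left₀ hE0 (hE i) 2
    have h4 : ((hh (e i) : ℤ) : ℝ) ^ 2 ≤ (2 * X ^ 2) ^ 2 := by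
      calc ((hh (e i) : ℤ) : ℝ) ^ 2 ≤ 4 * (E i : ℝ) ^ 2 * ((|D| : ℤ) : ℝ) := h2
        _ ≤ 4 * X ^ 2 * X := by
            apply mul_le_mul _ hDX (by positivity) (by positivity)
            linarith
        _ ≤ 4 * X ^ 2 * X ^ 2 := by
            apply mul_le_mul_of_nonneg_left _ (by positivity)
            nlinarith
        _ = (2 * X ^ 2) ^ 2 := by ring
    have h5 : ((hh (e i) : ℤ) : ℝ) ≤ 2 * X ^ 2 := (abs_le_of_sq_le_sq' h4 (by positivity)).2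
    have h6 : hh (e i) ≤ ⌊2 * X ^ 2⌋ := Int.le_floor.mpr h5
    have h7 : ((⌊2 * X ^ 2⌋₊ : ℕ) : ℤ) = ⌊2 * X ^ 2⌋ := by
      rw [Int.natCast_floor_eq_floor]
      positivity
    rw [hH, h7]
    exact h6
  -- the label
  have hmemT : ∀ i, (a i, b i) ∈ T := fun i => hTmem _ ⟨ha0 i, hba i, hdvd i, ha2 i⟩
  refine ⟨T.card * M, fun i => finProdFinEquiv (T.equivFin ⟨(a i, b i), hmemT i⟩, cl (e i)), e, ?_, he0, ?_⟩
  · rw [Nat.cast_mul]
    have hs0 : 0 ≤ √((|D| : ℤ) : ℝ) := Real.sqrt_nonneg _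
    have hDe : ((|D| : ℤ) : ℝ) ^ (ε / 2) ≤ X ^ (ε / 2) :=
      Real.rpow_le_rpow (by linarith) hDX (by positivity)
    have hXX : X ^ ε = X ^ (ε / 2) * X ^ (ε / 2) := by
      rw [← Real.rpow_add hX0]; congr 1; ring
    calc (T.card : ℝ) * (M : ℝ)
        ≤ (C0 * ((|D| : ℤ) : ℝ) ^ (ε / 2) * √((|D| : ℤ) : ℝ)) * (C1 * X ^ (ε / 2)) := by
          apply mul_le_mul hTcard hMb (Nat.cast_nonneg _)
          positivity
      _ ≤ (C0 * X ^ (ε / 2) * √((|D| : ℤ) : ℝ)) * (C1 * X ^ (ε / 2)) := by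
          gcongr
      _ = C0 * C1 * X ^ ε * √((|D| : ℤ) : ℝ) := by rw [hXX]; ring
  · intro i j hij
    have h1 := finProdFinEquiv.injective hij
    rw [Prod.mk.injEq] at h1
    obtain ⟨h2, h3⟩ := h1
    have h4 := T.equivFin.injective h2
    rw [Subtype.mk.injEq, Prod.mk.injEq] at h4
    obtain ⟨h5, h6⟩ := h4
    refine ⟨?_, hcl _ _ (he0 i) (he0 j) (hheH i) (hheH j) h3⟩
    have h7 := hspan j
    have h8 := hnorm j
    rw [← h5] at h8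
    rw [← h5, ← h6] at h7
    exact (beta_of_label hD (hI i) (hI j) (ha0 i) (hnorm i) h8 (hspan i) h7).1

end Hp

end Pool.Agent.Lib.MP_d8bd92_nt
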