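import Pool.Agent.Lib.MP_d8bd92_nt.Hp.BS4
import Pool.Agent.Lib.MP_d8bd92_nt.Hp.BS6
import Pool.Agent.Lib.MP_d8bd92_nt.Hp.BetaDefs
import Pool.Agent.Lib.MP_d8bd92_nt.Hp.BetaLab

set_option autoImplicit false

/-! Block 6.6: the data of a fixed side. -/

namespace Pool.Agent.Lib.MP_d8bd92_nt

namespace Hp

open Finset Pool.Agent.Lib.Szpiro

/-- roots modulo split primes -/
theorem BetaF_root {D : ℤ} {r : ℕ} (hr : r.Prime) (h3 : 3 ≤ r) (hj : jacobiSym D r = 1) :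
    ∃ I : Ideal (ℤ√D), HN I r := by
  have : Fact r.Prime := ⟨hr⟩
  have h1 : legendreSym r D = 1 := by
    rw [jacobiSym.legendreSym.to_jacobiSym]
    exact hj
  have h0 : (D : ZMod r) ≠ 0 := by
    intro h
    rw [← legendreSym.eq_zero_iff] at h
    rw [h] at h1
    exact zero_ne_one h1
  rw [legendreSym.eq_one_iff r h0] at h1
  obtain ⟨c, hc⟩ := h1
  obtain ⟨ρ, hρ⟩ := ZMod.intCast_surjective c
  have hd : (r : ℤ) ∣ ρ ^ 2 - D := by
    rw [← ZMod.intCast_zmod_eq_zero_iff_dvd]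
    push_cast
    rw [hρ, hc]
    ring
  have hcop : IsCoprime (r : ℤ) D := by
    rw [(Nat.prime_iff_prime_int.1 hr).irreducible.coprime_iff_not_dvd]
    intro h
    exact h0 ((ZMod.intCast_zmod_eq_zero_iff_dvd D r).2 h)
  have hodd : Odd r := hr.odd_of_ne_two (by omega)
  exact ⟨idl D r ρ, hr.one_le, idl_mul_cj hodd hcop hd⟩

/-- a positive real power bound -/
theorem BetaF_big {c Y τ : ℝ} (hc : 1 ≤ c) (hY : c ^ (5 : ℕ) ≤ Y) (hτ : τ ≤ 1 / 100) :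
    c ≤ Y ^ (1 / 4 - τ) := by
  have hc0 : 0 ≤ c := by linarith
  have h1 : 1 ≤ c ^ (5 : ℕ) := one_le_pow₀ hc
  have h2 : (c ^ (5 : ℕ)) ^ (1 / 5 : ℝ) ≤ Y ^ (1 / 5 : ℝ) :=
    Real.rpow_le_rpow (by linarith) hY (by norm_num)
  have h3 : (c ^ (5 : ℕ)) ^ (1 / 5 : ℝ) = c := by
    rw [← Real.rpow_natCast c 5, ← Real.rpow_mul hc0]
    norm_num
  rw [h3] at h2
  refine h2.trans (Real.rpow_le_rpow_of_exponent_le (by linarith) (by linarith))

/-- the constant -/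
theorem BetaF_N {Y τ C n d : ℝ} {k : ℝ} (hk : 0 < k) (hY : 1 ≤ Y) (hC : 0 < C)
    (hd : d ≤ Y ^ (1 / 2 + τ)) (hn : n ≤ C * (Y ^ k) ^ (τ / (2 * k)) * √d) : n ≤ C * Y ^ (1 / 4 + τ) := by
  have hY0 : 0 < Y := by linarith
  have h1 : (Y ^ k) ^ (τ / (2 * k)) = Y ^ (τ / 2) := by
    rw [← Real.rpow_mul hY0.le]
    congr 1
    field_simp
  have h2 : √d ≤ Y ^ (1 / 4 + τ / 2) := by
    refine (Real.sqrt_le_sqrt hd).trans (le_of_eq ?_)
    rw [Real.sqrt_eq_rpow, ← Real.rpow_mul hY0.le]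
    congr 1
    ring
  have h3 : Y ^ (1 / 4 + τ) = Y ^ (τ / 2) * Y ^ (1 / 4 + τ / 2) := by
    rw [← Real.rpow_add hY0]
    congr 1
    ring
  rw [h1] at hn
  rw [h3]
  refine hn.trans ?_
  rw [mul_assoc]
  refine mul_le_mul_of_nonneg_left ?_ hC.le
  exact mul_le_mul_of_nonneg_left h2 (Real.rpow_nonneg hY0.le _)

/-- the size of the norms -/
theorem BetaF_E {Y τ κ3 : ℝ} {a b : ℕ} {p q r : ℕ} (hY : 1 ≤ Y) (hτ1 : τ ≤ 1 / 100)
    (h3' : κ3 ≤ 1 / 8) (hp : (p : ℝ) ≤ Y ^ (1 / 4 + τ)) (hq : (q : ℝ) ≤ Y ^ (1 / 4 + τ))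
    (hr : (r : ℝ) ≤ Y ^ κ3) : ((p ^ b * q ^ a * r : ℕ) : ℝ) ≤ Y ^ ((a : ℝ) + b + 2) := by
  have hY0 : 0 < Y := by linarith
  have hp1 : (p : ℝ) ≤ Y := by
    refine hp.trans ?_
    conv_rhs => rw [← Real.rpow_one Y]
    exact Real.rpow_le_rpow_of_exponent_le hY (by linarith)
  have hq1 : (q : ℝ) ≤ Y := by
    refine hq.trans ?_
    conv_rhs => rw [← Real.rpow_one Y]
    exact Real.rpow_le_rpow_of_exponent_le hY (by linarith)
  have hr1 : (r : ℝ) ≤ Y := by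
    refine hr.trans ?_
    conv_rhs => rw [← Real.rpow_one Y]
    exact Real.rpow_le_rpow_of_exponent_le hY (by linarith)
  push_cast
  have h1 : (p : ℝ) ^ b ≤ Y ^ b := pow_le_pow_left₀ (Nat.cast_nonneg _) hp1 b
  have h2 : (q : ℝ) ^ a ≤ Y ^ a := pow_le_pow_left₀ (Nat.cast_nonneg _) hq1 a
  have h3 : (p : ℝ) ^ b * (q : ℝ) ^ a ≤ Y ^ b * Y ^ a :=
    mul_le_mul h1 h2 (by positivity) (by positivity)
  have h4 : (p : ℝ) ^ b * (q : ℝ) ^ a * r ≤ Y ^ b * Y ^ a * Y :=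
    mul_le_mul h3 hr1 (Nat.cast_nonneg _) (by positivity)
  refine h4.trans ?_
  have h5 : Y ^ b * Y ^ a * Y = Y ^ ((a : ℝ) + b + 1) := by
    rw [Real.rpow_add hY0, Real.rpow_add hY0, Real.rpow_natCast, Real.rpow_natCast, Real.rpow_one]
    ring
  rw [h5]
  exact Real.rpow_le_rpow_of_exponent_le hY (by linarith)

/-- PROOF. `α x = el D (x, y) f`, `P x = lbl (p x) (α x)`, `Q x = lbl (q x) (α x)`, `𝔴 = lbl w (α x0)` for one `x0 ∈ S` (`lab`; `S` is nonempty by `card`), `Rc` the filter in `split`, `T r = idl D r ρ`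
with a root `ρ` of `D` modulo `r` (`jacobiSym D r = 1` is the Legendre symbol for the prime `r`; `r` is odd and prime to `D`): `idl_mul_cj`. `D = ℓ D'`, `ℓ ∤ D'` as `D` is squarefree. `side_fac` gives `nrm`, `fac`,
`pp`, `qq`. `p x ≠ ℓ`, `q x ≠ ℓ`, `ℓ ∤ w`: `x` and `y` are coprime, `ℓ ∣ y`. `r ≤ Y^κ3 < Y^(1/4 - τ) ≤ ℓ, p x` for `Y > 1`. `2 v < ℓ` for large `Y`. `hf`: `2 ≤ (m 1 - 1) / 2`. `bal`: `side_bal`
(`0 < x ↔ 0 < x'` as `x = sg * positive`; use `TieSide.dy`). `inj`: `nrm`.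
Labels: `beta_labels ε` with `ε = τ / (2 (a + b + 2))`, `X = Y^(a+b+2)`, `ι = ℤ × ℕ`, `I (x, r) = P x ^ b * Q x ^ a * T r`, `E = p^b q^a r` if `x ∈ S` and `r ∈ Rc`, and `⊤`, `1` otherwise (`HN.mul`, `HN.pow`, `HN_top`);
`E ≤ Y^((a+b)(1/4+τ) + κ3) ≤ X`; `N ≤ C X^ε √|D| ≤ C Y^(τ/2) Y^(1/4+τ/2)`. `Cmp 2` implies `Cmp 1000` (`Beta0_mono`). -/
theorem side_beta (K : ℝ) (l m : Fin (2 * 1) → ℕ) (hl : ∀ i, 1 ≤ l i) (hl01 : l 0 < l 1) (hm5 : 5 ≤ m 1) (a b : ℕ)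
    (hab : a * l 0 = b * l 1 + 1) (κ3 τ : ℝ) (h3 : 0 < κ3) (h3' : κ3 ≤ 1 / 8) (hτ : 0 < τ) (hτ1 : τ ≤ 1 / 100) :
    ∃ C Y0 : ℝ, 0 < C ∧ ∀ (Y : ℝ) (D : ℤ) (f w ℓ : ℕ) (sg y : ℤ) (S : Finset ℤ) (p q : ℤ → ℕ), Y0 ≤ Y →
      TieSide K τ κ3 Y l m D f w ℓ sg y S p q →
      ∃ (D' : ℤ) (𝔴 : Ideal (ℤ√D)) (α : ℤ → ℤ√D) (P Q : ℤ → Ideal (ℤ√D)) (Rc : Finset ℕ) (T : ℕ → Ideal (ℤ√D)) (N : ℕ)
        (lab : ℤ → ℕ → Fin N) (e : ℤ → ℕ → ℤ√D),
        BetaData D D' f ℓ (l 0) (l 1) a b w sg 𝔴 S α p q P Q Rc T 1000 N lab e ∧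
        (N : ℝ) ≤ C * Y ^ (1 / 4 + τ) ∧ Y ^ (κ3 / 4) ≤ (Rc.card : ℝ) ∧ ∀ r ∈ Rc, (r : ℝ) ≤ Y ^ κ3 := by
  classical
  set k : ℝ := (a : ℝ) + b + 2 with hk
  have hk0 : 0 < k := by positivity
  have hk2 : 2 ≤ k := by
    rw [hk]
    have h1 : (0 : ℝ) ≤ a := Nat.cast_nonneg _
    have h2 : (0 : ℝ) ≤ b := Nat.cast_nonneg _
    linarith
  obtain ⟨C, hC, hlab⟩ := beta_labels (τ / (2 * k)) (by positivity)
  have hc1 : (1 : ℝ) ≤ 2 * (l 1 : ℝ) + 4 := by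
    have h1 : (0 : ℝ) ≤ (l 1 : ℝ) := Nat.cast_nonneg _
    linarith
  refine ⟨C, (2 * (l 1 : ℝ) + 4) ^ (5 : ℕ), hC, ?_⟩
  intro Y D f w ℓ sg y S p q hYY h
  have hY := h.hY
  have hY0 : 0 < Y := by linarith
  have hY1 : 1 < Y := by
    have h1 : (2 : ℝ) ≤ 2 * (l 1 : ℝ) + 4 := by
      have h1 : (0 : ℝ) ≤ (l 1 : ℝ) := Nat.cast_nonneg _
      linarith
    have h2 : (2 : ℝ) ^ (5 : ℕ) ≤ (2 * (l 1 : ℝ) + 4) ^ (5 : ℕ) := pow_le_pow_left₀ (by norm_num) h1 5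
    norm_num at h2
    linarith
  have hbig : 2 * (l 1 : ℝ) + 4 ≤ Y ^ (1 / 4 - τ) := BetaF_big hc1 hYY hτ1
  have hℓbig : 2 * (l 1 : ℝ) + 4 ≤ (ℓ : ℝ) := hbig.trans h.ℓlo
  have hℓbig' : 2 * l 1 + 4 ≤ ℓ := by exact_mod_cast hℓbig
  have hκlt : Y ^ κ3 < Y ^ (1 / 4 - τ) := Real.rpow_lt_rpow_of_exponent_lt hY1 (by linarith)
  have hns : ∀ n : ℤ, D ≠ n * n := nsq_of_sqf h.hD h.hD1
  have hDsq : ¬ IsSquare D := by
    rintro ⟨n, hn⟩
    exact hns n hn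
  have hD0 : D ≠ 0 := h.hD.ne_zero
  obtain ⟨D', hD'⟩ := h.ℓD
  have hℓp := h.hℓ
  have hℓD' : ¬ (ℓ : ℤ) ∣ D' := by
    rintro ⟨t, ht⟩
    have h1 : (ℓ : ℤ) * ℓ ∣ D := ⟨t, by rw [hD', ht]; ring⟩
    have h2 := h.hD _ h1
    rw [Int.isUnit_iff] at h2
    have h3 := hℓp.two_le
    omega
  have hℓy : (ℓ : ℤ) ∣ y := by
    rw [h.hy]
    exact dvd_mul_of_dvd_right h.ℓD _
  have hℓx : ∀ x ∈ S, ¬ (ℓ : ℤ) ∣ x := by
    intro x hx hd
    have h1 := (h.cop x hx).isUnit_of_dvd' hd hℓy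
    rw [Int.isUnit_iff] at h1
    have h3 := hℓp.two_le
    omega
  have hne : S.Nonempty := by
    rw [Finset.nonempty_iff_ne_empty]
    intro he
    have h1 := h.card
    rw [he, Finset.card_empty, Nat.cast_zero] at h1
    have h2 : 0 < Y ^ (1 / 4 - τ) := Real.rpow_pos_of_pos hY0 _
    linarith
  obtain ⟨x0, hx0⟩ := hne
  have hwℓ : ¬ ℓ ∣ w := by
    intro hd
    apply hℓx x0 hx0
    rw [h.nrm x0 hx0]
    apply dvd_mul_of_dvd_right
    apply Int.natCast_dvd_natCast.2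
    exact dvd_mul_of_dvd_left (dvd_mul_of_dvd_left hd _) _
  have hpℓ : ∀ x ∈ S, p x ≠ ℓ := by
    intro x hx he
    apply hℓx x hx
    rw [h.nrm x hx]
    apply dvd_mul_of_dvd_right
    apply Int.natCast_dvd_natCast.2
    rw [← he]
    refine dvd_mul_of_dvd_left (dvd_mul_of_dvd_right ?_ _) _
    exact dvd_pow_self _ (by have := hl 0; omega)
  have hqℓ : ∀ x ∈ S, q x ≠ ℓ := by
    intro x hx he
    apply hℓx x hx
    rw [h.nrm x hx]
    apply dvd_mul_of_dvd_right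
    apply Int.natCast_dvd_natCast.2
    rw [← he]
    refine dvd_mul_of_dvd_right ?_ _
    exact dvd_pow_self _ (by have := hl 1; omega)
  have hf2 : ℓ ^ 2 ∣ f := (pow_dvd_pow ℓ (by omega)).trans h.ℓf
  have hx0' : ∀ x ∈ S, x ≠ 0 := by
    intro x hx he
    apply hℓx x hx
    rw [he]
    exact dvd_zero _
  have hpos : ∀ x ∈ S, (0 < x ↔ sg = 1) := by
    intro x hx
    have h1 := h.nrm x hx
    have h2 : (0 : ℤ) ≤ ((w * p x ^ l 0 * q x ^ l 1 : ℕ) : ℤ) := Int.natCast_nonneg _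
    have h3 := hx0' x hx
    rcases h.hsg with h4 | h4
    · rw [h4, one_mul] at h1
      constructor
      · intro _
        exact h4
      · intro _
        rw [h1] at h3 ⊢
        omega
    · rw [h4] at h1
      constructor
      · intro h5
        rw [h1] at h5
        omega
      · intro h5
        omega
  -- the small primes
  have hrR : ∀ r ∈ (Finset.Icc 3 ⌊Y ^ κ3⌋₊).filter (fun r => r.Prime ∧ jacobiSym D r = 1),
      (r : ℝ) ≤ Y ^ κ3 := by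
    intro r hr
    have h1 := (Finset.mem_Icc.1 (Finset.mem_filter.1 hr).1).2
    exact (Nat.cast_le.2 h1).trans (Nat.floor_le (Real.rpow_nonneg hY0.le _))
  have hT : ∀ r : ℕ, ∃ I : Ideal (ℤ√D),
      r ∈ (Finset.Icc 3 ⌊Y ^ κ3⌋₊).filter (fun r => r.Prime ∧ jacobiSym D r = 1) → HN I r := by
    intro r
    by_cases hr : r ∈ (Finset.Icc 3 ⌊Y ^ κ3⌋₊).filter (fun r => r.Prime ∧ jacobiSym D r = 1)
    · obtain ⟨h1, h2, h4⟩ := Finset.mem_filter.1 hr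
      obtain ⟨I, hI⟩ := BetaF_root h2 (Finset.mem_Icc.1 h1).1 h4
      exact ⟨I, fun _ => hI⟩
    · exact ⟨⊤, fun h => absurd h hr⟩
  choose T hTn using hT
  set Rc : Finset ℕ := (Finset.Icc 3 ⌊Y ^ κ3⌋₊).filter (fun r => r.Prime ∧ jacobiSym D r = 1) with hRc
  -- the ideals
  set α : ℤ → ℤ√D := fun x => el D (x, y) f with hα
  set P : ℤ → Ideal (ℤ√D) := fun x => lbl (p x) (α x) with hP
  set Q : ℤ → Ideal (ℤ√D) := fun x => lbl (q x) (α x) with hQ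
  have hfac := fun x (hx : x ∈ S) => side_fac hl h hx
  set I : ℤ × ℕ → Ideal (ℤ√D) := fun i => if i.1 ∈ S ∧ i.2 ∈ Rc then P i.1 ^ b * Q i.1 ^ a * T i.2 else ⊤
    with hI
  set E : ℤ × ℕ → ℕ := fun i => if i.1 ∈ S ∧ i.2 ∈ Rc then p i.1 ^ b * q i.1 ^ a * i.2 else 1 with hE
  have hX1 : 1 ≤ Y ^ k := Real.one_le_rpow hY hk0.le
  have hHN : ∀ i, HN (I i) (E i) := by
    intro i
    by_cases hi : i.1 ∈ S ∧ i.2 ∈ Rc
    · rw [hI, hE]
      simp only [if_pos hi]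
      obtain ⟨_, _, h3, h4⟩ := hfac i.1 hi.1
      exact ((h3.pow b).mul (h4.pow a)).mul (hTn i.2 hi.2)
    · rw [hI, hE]
      simp only [if_neg hi]
      exact HN_top
  have hEX : ∀ i, (E i : ℝ) ≤ Y ^ k := by
    intro i
    by_cases hi : i.1 ∈ S ∧ i.2 ∈ Rc
    · rw [hE]
      simp only [if_pos hi]
      exact BetaF_E hY hτ1 h3' (h.pp i.1 hi.1).2.2.2.2 (h.qq i.1 hi.1).2.2.2.2 (hrR i.2 hi.2)
    · rw [hE]
      simp only [if_neg hi]
      rw [Nat.cast_one]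
      exact hX1
  have hDX : ((|D| : ℤ) : ℝ) ≤ Y ^ k :=
    h.Dhi.trans (Real.rpow_le_rpow_of_exponent_le hY (by linarith))
  obtain ⟨N, lab, e, hN, he0, hsame⟩ := hlab (Y ^ k) D (ℤ × ℕ) I E hX1 hns hDX hHN hEX
  refine ⟨D', lbl w (α x0), α, P, Q, Rc, T, N, fun x r => lab (x, r), fun x r => e (x, r), ?_, ?_, ?_, hrR⟩
  · refine
      { hD := hDsq
        hℓ := hℓp
        hDℓ := hD'
        hℓD' := hℓD'
        hu := hl 0
        huv := hl01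
        hℓv := by omega
        hℓ3 := by omega
        hab := hab
        hsg := h.hsg
        hw := hwℓ
        hw1 := h.hw
        hf := hf2
        im_dvd := ?_
        nrm := ?_
        fac := ?_
        pp := ?_
        qq := ?_
        inj := ?_
        rr := ?_
        rp := ?_
        hC := by norm_num
        bal := ?_
        e0 := ?_
        same := ?_ }
    · intro s _
      exact dvd_refl _
    · intro s hs
      rw [(hfac s hs).1]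
      exact h.nrm s hs
    · intro s hs
      have h1 := (hfac s hs).2.1
      rw [h.lab s hs x0 hx0] at h1
      exact h1
    · intro s hs
      exact ⟨(h.pp s hs).1, hpℓ s hs, (hfac s hs).2.2.1.2⟩
    · intro s hs
      exact ⟨(h.qq s hs).1, hqℓ s hs, (hfac s hs).2.2.2.2⟩
    · intro s hs s' hs' h1 h2
      rw [h.nrm s hs, h.nrm s' hs', h1, h2]
    · intro r hr
      obtain ⟨_, h2, _⟩ := Finset.mem_filter.1 hr
      refine ⟨h2, ?_, (hTn r hr).2⟩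
      intro he
      have h1 := hrR r hr
      rw [he] at h1
      have h3 := h.ℓlo
      linarith
    · intro r hr s hs he
      have h1 := hrR r hr
      rw [he] at h1
      have h3 := (h.pp s hs).2.2.2.1
      linarith
    · intro s hs s' hs'
      refine side_bal hD0 f h.hf y h.hy S hx0' h.sq ?_ s hs s' hs'
      intro x hx x' hx'
      exact ⟨h.dy x hx x' hx', (hpos x hx).trans (hpos x' hx').symm⟩
    · intro s _ r _
      exact he0 _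
    · intro s hs s' hs' r hr r' hr' hl'
      obtain ⟨h1, h2⟩ := hsame (s, r) (s', r') hl'
      have e1 : I (s, r) = P s ^ b * Q s ^ a * T r := by
        rw [hI]
        exact if_pos ⟨hs, hr⟩
      have e2 : I (s', r') = P s' ^ b * Q s' ^ a * T r' := by
        rw [hI]
        exact if_pos ⟨hs', hr'⟩
      rw [e1, e2] at h1
      exact ⟨h1, Beta0_mono h2 (by norm_num)⟩
  · exact BetaF_N hk0 hY hC h.Dhi hN
  · exact h.split

end Hp

end Pool.Agent.Lib.MP_d8bd92_nt
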