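import Pool.Agent.Lib.MP_d8bd92_nt.Hp.AlJ

set_option autoImplicit false

/-! Block 6.6: the sizes. -/

namespace Pool.Agent.Lib.MP_d8bd92_nt

namespace Hp

theorem BetaNum_ev (C x y : ℝ) (h : x < y) : ∃ Y0 : ℝ, 1 ≤ Y0 ∧ ∀ Y : ℝ, Y0 ≤ Y → C * Y ^ x < Y ^ y := by
  have h1 := tendsto_rpow_atTop (sub_pos.2 h)
  obtain ⟨Y1, hY1⟩ := Filter.eventually_atTop.1 (h1.eventually_gt_atTop C)
  refine ⟨max 1 Y1, le_max_left _ _, fun Y hY => ?_⟩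
  have hY0 : 0 < Y := lt_of_lt_of_le one_pos ((le_max_left _ _).trans hY)
  have h2 := hY1 Y ((le_max_right _ _).trans hY)
  have h3 : 0 < Y ^ x := Real.rpow_pos_of_pos hY0 _
  calc C * Y ^ x < Y ^ (y - x) * Y ^ x := mul_lt_mul_of_pos_right h2 h3
    _ = Y ^ y := by
        rw [← Real.rpow_add hY0]
        congr 1
        ring

/-- PROOF. `B = ⌊Y^(1/4+τ)⌋₊`, `Rm = ⌊Y^κ3⌋₊`, `μ = ⌊Y^τ⌋₊`, `M = 2000^(a+b+u+v)`, `H = M Y^(1/2 + 2τ + 2vκ3)` (`2 v κ3 = 1/20`), `X1 = ⌊√H⌋₊`, `Y1 = ⌊√(H/d)⌋₊`, `J = (u+v) X1 Y1 / ℓ + 1`,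
`t = ⌊C_ε Y^(2 ε)⌋₊` (`card_divisors_le ε` with `Z = Y^2`, `ε = τ / 2`; `B^2 Rm^(2v) ≤ Y`). With `c = √M`: `X1 ≤ c Y^(1/4+τ+1/40)`, `Y1 ≤ c Y^(3τ/2+1/40)`,
`J ≤ c^2 (u+v) Y^(7τ/2 + 1/20) + 1`, `X1 / ℓ ≤ c Y^(2τ + 1/40)`. So `t^6 (2 Y1+1)^2 (2 J+1)(2 (X1/ℓ)+2) ≤ C Y^(6τ + 9τ + 1/8)`, `N` times it is at most `C Y^(3/8 + 16 τ)`, but `(s r)^2 ≥ Y^(1/2 - 2τ)`
and `18 τ < 1/8` (`τ = 1/(4000 v) ≤ 1/8000`): for large `Y` it is at most `(s r)^2 / 4`. And `N s r μ ≤ (s r)^2 / 4` as `4 N μ ≤ 4 C1 Y^(1/4+2τ) ≤ Y^(1/4 - τ + κ3/4) ≤ s r` for large `Y` (`κ3/4 = 25 τ > 3 τ`). -/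
theorem beta_num (u v a b : ℕ) (hu : 1 ≤ u) (huv : u < v) (C1 : ℝ) (hC1 : 0 < C1) (κ3 τ : ℝ)
    (hκ : κ3 = 1 / (40 * (v : ℝ))) (hτ : τ = κ3 / 100) : ∃ Y0 : ℝ, 1 ≤ Y0 ∧ ∀ (Y d : ℝ) (s r N ℓ : ℕ), Y0 ≤ Y →
      Y ^ (1 / 4 - τ) ≤ (s : ℝ) → Y ^ (κ3 / 4) ≤ (r : ℝ) → (N : ℝ) ≤ C1 * Y ^ (1 / 4 + τ) →
      Y ^ (1 / 4 - τ) ≤ (ℓ : ℝ) → Y ^ (1 / 2 - τ) ≤ d → d ≤ Y ^ (1 / 2 + τ) →
      ∃ (B Rm μ t X1 Y1 J : ℕ), (∀ n : ℕ, (n : ℝ) ≤ Y ^ (1 / 4 + τ) → n ≤ B) ∧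
        (∀ n : ℕ, (n : ℝ) ≤ Y ^ κ3 → n ≤ Rm) ∧ (∀ n : ℕ, (n : ℝ) ≤ Y ^ τ → n ≤ μ) ∧ 1 ≤ Rm ∧
        ((2 : ℝ) * 1000) ^ (a + b + u + v) * ((B : ℝ) ^ 2 * (Rm : ℝ) ^ (2 * v)) < ((X1 : ℝ) + 1) ^ 2 ∧
        ((2 : ℝ) * 1000) ^ (a + b + u + v) * ((B : ℝ) ^ 2 * (Rm : ℝ) ^ (2 * v)) < d * ((Y1 : ℝ) + 1) ^ 2 ∧
        Y1 < ℓ ∧ (u + v) * X1 * Y1 ≤ J * ℓ ∧
        (∀ n : ℕ, 1 ≤ n → n ≤ B ^ 2 * Rm ^ (2 * v) → n.divisors.card ≤ t) ∧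
        (1000 : ℝ) * (Rm : ℝ) ^ 2 < d ∧
        N * (s * r * μ + t ^ 6 * ((2 * Y1 + 1) ^ 2 * (2 * J + 1) * (2 * (X1 / ℓ) + 2))) < (s * r) ^ 2 := by
  have hv2 : (2 : ℝ) ≤ (v : ℝ) := by exact_mod_cast (by omega : 2 ≤ v)
  have hv0 : (0 : ℝ) < (v : ℝ) := two_pos.trans_le hv2
  have hκ0 : 0 < κ3 := by rw [hκ]; positivity
  have hκv : κ3 * (40 * (v : ℝ)) = 1 := by rw [hκ]; field_simp
  have hκ80 : κ3 ≤ 1 / 80 := by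
    rw [hκ]
    exact one_div_le_one_div_of_le (by norm_num) (by linarith only [hv2])
  have hτ0 : 0 < τ := by rw [hτ]; positivity
  have hκτ : κ3 = 100 * τ := by rw [hτ]; ring
  have hτ8 : τ ≤ 1 / 8000 := by rw [hτ]; linarith only [hκ80]
  obtain ⟨Cd, hCd, hdiv⟩ := card_divisors_le τ hτ0
  set M : ℝ := ((2 : ℝ) * 1000) ^ (a + b + u + v) with hM
  have hM1 : 1 ≤ M := one_le_pow₀ (by norm_num)
  have hM0 : 0 < M := one_pos.trans_le hM1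
  set c : ℝ := √M with hc
  have hc1 : 1 ≤ c := Real.one_le_sqrt.2 hM1
  have hc0 : 0 < c := one_pos.trans_le hc1
  have hcc : c * c = M := Real.mul_self_sqrt hM0.le
  have huv0 : (1 : ℝ) ≤ (u : ℝ) + (v : ℝ) := by
    have h9 : (0 : ℝ) ≤ (u : ℝ) := Nat.cast_nonneg _
    linarith only [h9, hv2]
  obtain ⟨Ya, hYa1, hYa⟩ := BetaNum_ev c (1 / 40 + 3 * τ / 2) (1 / 4 - τ) (by linarith only [hτ8])
  obtain ⟨Yb, hYb1, hYb⟩ := BetaNum_ev 1000 (2 * κ3) (1 / 2 - τ) (by rw [hκτ]; linarith only [hτ8])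
  obtain ⟨Yc, hYc1, hYc⟩ := BetaNum_ev (4 * C1) (1 / 4 + 2 * τ) (1 / 4 + 24 * τ) (by linarith only [hτ0])
  obtain ⟨Ye, hYe1, hYe⟩ := BetaNum_ev (4 * (180 * C1 * Cd ^ 6 * ((u : ℝ) + v) * c ^ 5)) (3 / 8 + 31 * τ / 2)
    (1 / 2 + 48 * τ) (by linarith only [hτ0, hτ8])
  refine ⟨max (max Ya Yb) (max Yc Ye), hYa1.trans ((le_max_left _ _).trans (le_max_left _ _)), ?_⟩
  intro Y d s r N ℓ hY hs hr hN hℓ hd1 hd2
  have hYa' : Ya ≤ Y := ((le_max_left _ _).trans (le_max_left _ _)).trans hY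
  have hYb' : Yb ≤ Y := ((le_max_right _ _).trans (le_max_left _ _)).trans hY
  have hYc' : Yc ≤ Y := ((le_max_left _ _).trans (le_max_right _ _)).trans hY
  have hYe' : Ye ≤ Y := ((le_max_right _ _).trans (le_max_right _ _)).trans hY
  have ga := hYa Y hYa'
  have gb := hYb Y hYb'
  have gc := hYc Y hYc'
  have ge := hYe Y hYe'
  have hY1 : 1 ≤ Y := hYa1.trans hYa'
  have hY0 : 0 < Y := one_pos.trans_le hY1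
  have hp : ∀ x : ℝ, 0 < Y ^ x := fun x => Real.rpow_pos_of_pos hY0 x
  have hp1 : ∀ x : ℝ, 0 ≤ x → 1 ≤ Y ^ x := fun x hx => Real.one_le_rpow hY1 hx
  have hd0 : 0 < d := lt_of_lt_of_le (hp _) hd1
  have hℓ0 : (0 : ℝ) < (ℓ : ℝ) := lt_of_lt_of_le (hp _) hℓ
  have hℓn : 0 < ℓ := by exact_mod_cast hℓ0
  -- the numbers
  set B : ℕ := ⌊Y ^ (1 / 4 + τ)⌋₊ with hB
  set Rm : ℕ := ⌊Y ^ κ3⌋₊ with hRm
  have hBle : (B : ℝ) ≤ Y ^ (1 / 4 + τ) := Nat.floor_le (hp _).le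
  have hRle : (Rm : ℝ) ≤ Y ^ κ3 := Nat.floor_le (hp _).le
  have hBR : (B : ℝ) ^ 2 * (Rm : ℝ) ^ (2 * v) ≤ (Y ^ (11 / 40 + τ)) ^ 2 := by
    calc (B : ℝ) ^ 2 * (Rm : ℝ) ^ (2 * v) ≤ (Y ^ (1 / 4 + τ)) ^ 2 * (Y ^ κ3) ^ (2 * v) := by gcongr
      _ = (Y ^ (11 / 40 + τ)) ^ 2 := by
          rw [← Real.rpow_natCast (Y ^ κ3) (2 * v), ← Real.rpow_natCast (Y ^ (1 / 4 + τ)) 2,
            ← Real.rpow_natCast (Y ^ (11 / 40 + τ)) 2, ← Real.rpow_mul hY0.le, ← Real.rpow_mul hY0.le,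
            ← Real.rpow_mul hY0.le, ← Real.rpow_add hY0]
          congr 1
          push_cast
          have : κ3 * (2 * (v : ℝ)) = 1 / 20 := by linarith only [hκv]
          rw [this]
          ring
  have hBRY : (B : ℝ) ^ 2 * (Rm : ℝ) ^ (2 * v) ≤ Y := by
    refine hBR.trans ?_
    rw [← Real.rpow_natCast (Y ^ (11 / 40 + τ)) 2, ← Real.rpow_mul hY0.le]
    calc Y ^ ((11 / 40 + τ) * ((2 : ℕ) : ℝ)) ≤ Y ^ (1 : ℝ) := by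
          refine Real.rpow_le_rpow_of_exponent_le hY1 ?_
          push_cast
          linarith only [hτ8]
      _ = Y := Real.rpow_one Y
  set H : ℝ := M * ((B : ℝ) ^ 2 * (Rm : ℝ) ^ (2 * v)) with hH
  have hH0 : 0 ≤ H := by positivity
  have hHle : √H ≤ c * Y ^ (11 / 40 + τ) := by
    rw [Real.sqrt_le_left (by have := hp (11 / 40 + τ); positivity)]
    calc H ≤ M * (Y ^ (11 / 40 + τ)) ^ 2 := by rw [hH]; gcongr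
      _ = (c * Y ^ (11 / 40 + τ)) ^ 2 := by rw [← hcc]; ring
  have hHd : √(H / d) ≤ c * Y ^ (1 / 40 + 3 * τ / 2) := by
    rw [Real.sqrt_le_left (by have := hp (1 / 40 + 3 * τ / 2); positivity)]
    rw [div_le_iff₀ hd0]
    calc H ≤ M * (Y ^ (11 / 40 + τ)) ^ 2 := by rw [hH]; gcongr
      _ = (c * Y ^ (1 / 40 + 3 * τ / 2)) ^ 2 * Y ^ (1 / 2 - τ) := by
          have e1 : (Y ^ (11 / 40 + τ)) ^ 2 = (Y ^ (1 / 40 + 3 * τ / 2)) ^ 2 * Y ^ (1 / 2 - τ) := by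
            rw [← Real.rpow_natCast (Y ^ (11 / 40 + τ)) 2, ← Real.rpow_natCast (Y ^ (1 / 40 + 3 * τ / 2)) 2,
              ← Real.rpow_mul hY0.le, ← Real.rpow_mul hY0.le, ← Real.rpow_add hY0]
            congr 1
            push_cast
            ring
          rw [e1, ← hcc]
          ring
      _ ≤ (c * Y ^ (1 / 40 + 3 * τ / 2)) ^ 2 * d := by gcongr
  set X1 : ℕ := ⌊√H⌋₊ with hX1
  set Y1 : ℕ := ⌊√(H / d)⌋₊ with hY1d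
  have hX1le : (X1 : ℝ) ≤ c * Y ^ (11 / 40 + τ) := (Nat.floor_le (Real.sqrt_nonneg _)).trans hHle
  have hY1le : (Y1 : ℝ) ≤ c * Y ^ (1 / 40 + 3 * τ / 2) := (Nat.floor_le (Real.sqrt_nonneg _)).trans hHd
  set J : ℕ := (u + v) * X1 * Y1 / ℓ + 1 with hJ
  set μ : ℕ := ⌊Y ^ τ⌋₊ with hμ
  have hμle : (μ : ℝ) ≤ Y ^ τ := Nat.floor_le (hp _).le
  set t : ℕ := ⌊Cd * Y ^ τ⌋₊ with ht
  have htle : (t : ℝ) ≤ Cd * Y ^ τ := Nat.floor_le (by have := hp τ; positivity)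
  have hJle : (J : ℝ) ≤ ((u : ℝ) + v) * (c * c) * Y ^ (1 / 20 + 7 * τ / 2) + 1 := by
    rw [hJ]
    push_cast
    have e1 : ((((u + v) * X1 * Y1 / ℓ : ℕ)) : ℝ) ≤ (((u + v) * X1 * Y1 : ℕ) : ℝ) / (ℓ : ℝ) := Nat.cast_div_le
    have e2 : (((u + v) * X1 * Y1 : ℕ) : ℝ) / (ℓ : ℝ) ≤
        (((u : ℝ) + v) * (c * Y ^ (11 / 40 + τ)) * (c * Y ^ (1 / 40 + 3 * τ / 2))) / Y ^ (1 / 4 - τ) := by
      push_cast
      have := hp (1 / 4 - τ)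
      gcongr
    have e3 : (((u : ℝ) + v) * (c * Y ^ (11 / 40 + τ)) * (c * Y ^ (1 / 40 + 3 * τ / 2))) / Y ^ (1 / 4 - τ) =
        ((u : ℝ) + v) * (c * c) * Y ^ (1 / 20 + 7 * τ / 2) := by
      rw [div_eq_iff (hp _).ne']
      have e4 : Y ^ (11 / 40 + τ) * Y ^ (1 / 40 + 3 * τ / 2) = Y ^ (1 / 20 + 7 * τ / 2) * Y ^ (1 / 4 - τ) := by
        rw [← Real.rpow_add hY0, ← Real.rpow_add hY0]
        congr 1
        ring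
      calc ((u : ℝ) + v) * (c * Y ^ (11 / 40 + τ)) * (c * Y ^ (1 / 40 + 3 * τ / 2))
          = ((u : ℝ) + v) * (c * c) * (Y ^ (11 / 40 + τ) * Y ^ (1 / 40 + 3 * τ / 2)) := by ring
        _ = _ := by rw [e4, ← mul_assoc]
    exact add_le_add_left ((e1.trans e2).trans e3.le) 1
  have hXl : (((X1 / ℓ : ℕ)) : ℝ) ≤ c * Y ^ (1 / 40 + 2 * τ) := by
    have e1 : (((X1 / ℓ : ℕ)) : ℝ) ≤ (X1 : ℝ) / (ℓ : ℝ) := Nat.cast_div_le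
    have e2 : (X1 : ℝ) / (ℓ : ℝ) ≤ (c * Y ^ (11 / 40 + τ)) / Y ^ (1 / 4 - τ) := by
      have := hp (1 / 4 - τ)
      gcongr
    have e3 : (c * Y ^ (11 / 40 + τ)) / Y ^ (1 / 4 - τ) = c * Y ^ (1 / 40 + 2 * τ) := by
      rw [div_eq_iff (hp _).ne', mul_assoc, ← Real.rpow_add hY0]
      congr 2
      ring
    exact (e1.trans e2).trans e3.le
  have q1 := hp1 (1 / 20 + 7 * τ / 2) (by positivity)
  have q2 := hp1 (1 / 40 + 2 * τ) (by positivity)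
  have q3 := hp1 (1 / 40 + 3 * τ / 2) (by positivity)
  have hcc1 : 1 ≤ c * c := by rw [hcc]; exact hM1
  refine ⟨B, Rm, μ, t, X1, Y1, J, fun n hn => Nat.le_floor hn, fun n hn => Nat.le_floor hn,
    fun n hn => Nat.le_floor hn, Nat.le_floor (by simpa using hp1 κ3 hκ0.le), ?_, ?_, ?_, ?_, ?_, ?_, ?_⟩
  · have h1 : √H < (X1 : ℝ) + 1 := Nat.lt_floor_add_one _
    calc H = √H ^ 2 := (Real.sq_sqrt hH0).symm
      _ < ((X1 : ℝ) + 1) ^ 2 := by gcongr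
  · have h1 : √(H / d) < (Y1 : ℝ) + 1 := Nat.lt_floor_add_one _
    have h2 : H / d < ((Y1 : ℝ) + 1) ^ 2 := by
      calc H / d = √(H / d) ^ 2 := (Real.sq_sqrt (by positivity)).symm
        _ < ((Y1 : ℝ) + 1) ^ 2 := by gcongr
    rw [div_lt_iff₀ hd0, mul_comm] at h2
    exact h2
  · have h1 : (Y1 : ℝ) < (ℓ : ℝ) := lt_of_le_of_lt hY1le (lt_of_lt_of_le ga hℓ)
    exact_mod_cast h1
  · have h1 := Nat.div_add_mod ((u + v) * X1 * Y1) ℓ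
    have h2 := Nat.mod_lt ((u + v) * X1 * Y1) hℓn
    calc (u + v) * X1 * Y1 = ℓ * ((u + v) * X1 * Y1 / ℓ) + (u + v) * X1 * Y1 % ℓ := h1.symm
      _ ≤ ℓ * ((u + v) * X1 * Y1 / ℓ) + ℓ := by omega
      _ = J * ℓ := by rw [hJ]; ring
  · intro n hn1 hn2
    refine Nat.le_floor (hdiv Y n hn1 ?_)
    refine le_trans ?_ hBRY
    exact_mod_cast hn2
  · calc (1000 : ℝ) * (Rm : ℝ) ^ 2 ≤ 1000 * (Y ^ κ3) ^ 2 := by gcongr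
      _ = 1000 * Y ^ (2 * κ3) := by
          rw [← Real.rpow_natCast (Y ^ κ3) 2, ← Real.rpow_mul hY0.le]
          congr 2
          push_cast
          ring
      _ < Y ^ (1 / 2 - τ) := gb
      _ ≤ d := hd1
  · have hS : Y ^ (1 / 4 + 24 * τ) ≤ (s : ℝ) * r := by
      calc Y ^ (1 / 4 + 24 * τ) = Y ^ (1 / 4 - τ) * Y ^ (κ3 / 4) := by
            rw [← Real.rpow_add hY0]
            congr 1
            rw [hκτ]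
            ring
        _ ≤ (s : ℝ) * r := by
            have := hp (κ3 / 4)
            gcongr
    have hS0 : 0 < (s : ℝ) * r := lt_of_lt_of_le (hp _) hS
    have b1 : (N : ℝ) * ((s : ℝ) * r * μ) ≤ ((s : ℝ) * r) ^ 2 / 4 := by
      calc (N : ℝ) * ((s : ℝ) * r * μ) ≤ (C1 * Y ^ (1 / 4 + τ)) * ((s : ℝ) * r * Y ^ τ) := by
            have := hp (1 / 4 + τ)
            gcongr
        _ = (4 * C1 * Y ^ (1 / 4 + 2 * τ)) * ((s : ℝ) * r) / 4 := by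
            have e1 : Y ^ (1 / 4 + 2 * τ) = Y ^ (1 / 4 + τ) * Y ^ τ := by
              rw [← Real.rpow_add hY0]
              congr 1
              ring
            rw [e1]
            ring
        _ ≤ ((s : ℝ) * r) * ((s : ℝ) * r) / 4 := by
            have : 4 * C1 * Y ^ (1 / 4 + 2 * τ) ≤ (s : ℝ) * r := gc.le.trans hS
            gcongr
        _ = ((s : ℝ) * r) ^ 2 / 4 := by ring
    have a1 : (2 * (Y1 : ℝ) + 1) ^ 2 ≤ (3 * c * Y ^ (1 / 40 + 3 * τ / 2)) ^ 2 := by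
      have h7 : 1 ≤ c * Y ^ (1 / 40 + 3 * τ / 2) := one_le_mul_of_one_le_of_one_le hc1 q3
      have h8 : 2 * (Y1 : ℝ) + 1 ≤ 3 * c * Y ^ (1 / 40 + 3 * τ / 2) := by
        calc 2 * (Y1 : ℝ) + 1 ≤ 2 * (c * Y ^ (1 / 40 + 3 * τ / 2)) + c * Y ^ (1 / 40 + 3 * τ / 2) :=
              add_le_add (mul_le_mul_of_nonneg_left hY1le zero_le_two) h7
          _ = 3 * c * Y ^ (1 / 40 + 3 * τ / 2) := by ring
      exact pow_le_pow_left₀ (add_nonneg (mul_nonneg zero_le_two (Nat.cast_nonneg _)) zero_le_one) h8 2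
    have a2 : 2 * (J : ℝ) + 1 ≤ 5 * (((u : ℝ) + v) * (c * c) * Y ^ (1 / 20 + 7 * τ / 2)) := by
      have : 1 ≤ ((u : ℝ) + v) * (c * c) * Y ^ (1 / 20 + 7 * τ / 2) := by
        have h1 : 1 ≤ ((u : ℝ) + v) * (c * c) := one_le_mul_of_one_le_of_one_le huv0 hcc1
        exact one_le_mul_of_one_le_of_one_le h1 q1
      linarith only [this, hJle]
    have a3 : 2 * (((X1 / ℓ : ℕ)) : ℝ) + 2 ≤ 4 * (c * Y ^ (1 / 40 + 2 * τ)) := by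
      have : 1 ≤ c * Y ^ (1 / 40 + 2 * τ) := one_le_mul_of_one_le_of_one_le hc1 q2
      linarith only [this, hXl]
    have a4 : (t : ℝ) ^ 6 ≤ (Cd * Y ^ τ) ^ 6 := pow_le_pow_left₀ (Nat.cast_nonneg _) htle 6
    have e1 : Y ^ (1 / 4 + τ) * (Y ^ τ) ^ 6 * (Y ^ (1 / 40 + 3 * τ / 2)) ^ 2 * Y ^ (1 / 20 + 7 * τ / 2) *
        Y ^ (1 / 40 + 2 * τ) = Y ^ (3 / 8 + 31 * τ / 2) := by
      rw [← Real.rpow_natCast (Y ^ τ) 6, ← Real.rpow_natCast (Y ^ (1 / 40 + 3 * τ / 2)) 2,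
        ← Real.rpow_mul hY0.le, ← Real.rpow_mul hY0.le, ← Real.rpow_add hY0, ← Real.rpow_add hY0,
        ← Real.rpow_add hY0, ← Real.rpow_add hY0]
      congr 1
      push_cast
      ring
    have e2 : Y ^ (1 / 2 + 48 * τ) = (Y ^ (1 / 4 + 24 * τ)) ^ 2 := by
      rw [← Real.rpow_natCast (Y ^ (1 / 4 + 24 * τ)) 2, ← Real.rpow_mul hY0.le]
      congr 1
      push_cast
      ring
    have b2 : (N : ℝ) * ((t : ℝ) ^ 6 * ((2 * (Y1 : ℝ) + 1) ^ 2 * (2 * (J : ℝ) + 1) * (2 * (((X1 / ℓ : ℕ)) : ℝ) + 2))) ≤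
        ((s : ℝ) * r) ^ 2 / 4 := by
      calc (N : ℝ) * ((t : ℝ) ^ 6 * ((2 * (Y1 : ℝ) + 1) ^ 2 * (2 * (J : ℝ) + 1) * (2 * (((X1 / ℓ : ℕ)) : ℝ) + 2)))
          ≤ (C1 * Y ^ (1 / 4 + τ)) * ((Cd * Y ^ τ) ^ 6 * ((3 * c * Y ^ (1 / 40 + 3 * τ / 2)) ^ 2 *
            (5 * (((u : ℝ) + v) * (c * c) * Y ^ (1 / 20 + 7 * τ / 2))) * (4 * (c * Y ^ (1 / 40 + 2 * τ))))) := by
            have := hp (1 / 4 + τ)
            gcongr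
        _ = 180 * C1 * Cd ^ 6 * ((u : ℝ) + v) * c ^ 5 * (Y ^ (1 / 4 + τ) * (Y ^ τ) ^ 6 *
            (Y ^ (1 / 40 + 3 * τ / 2)) ^ 2 * Y ^ (1 / 20 + 7 * τ / 2) * Y ^ (1 / 40 + 2 * τ)) := by ring
        _ = (4 * (180 * C1 * Cd ^ 6 * ((u : ℝ) + v) * c ^ 5)) * Y ^ (3 / 8 + 31 * τ / 2) / 4 := by
            rw [e1]
            ring
        _ ≤ Y ^ (1 / 2 + 48 * τ) / 4 := by gcongr
        _ ≤ ((s : ℝ) * r) ^ 2 / 4 := by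
            rw [e2]
            have := hp (1 / 4 + 24 * τ)
            gcongr
    have b3 : (0 : ℝ) < ((s : ℝ) * r) ^ 2 := by positivity
    have b4 : (N : ℝ) * ((s : ℝ) * r * μ + (t : ℝ) ^ 6 * ((2 * (Y1 : ℝ) + 1) ^ 2 * (2 * (J : ℝ) + 1) *
        (2 * (((X1 / ℓ : ℕ)) : ℝ) + 2))) < ((s : ℝ) * r) ^ 2 := by
      rw [mul_add]
      linarith only [b1, b2, b3]
    exact_mod_cast b4

end Hp

end Pool.Agent.Lib.MP_d8bd92_nt
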