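import Pool.Agent.Lib.MP_d8bd92_nt.Hp.Beta5
import Pool.Agent.Lib.MP_d8bd92_nt.Hp.BetaNum
import Pool.Agent.Lib.MP_d8bd92_nt.Hp.BetaF
import Pool.Agent.Lib.MP_d8bd92_nt.Hp.BS5

set_option autoImplicit false

/-! Block 6.6: the beta trick. -/

namespace Pool.Agent.Lib.MP_d8bd92_nt

namespace Hp

open Finset Pool.Agent.Lib.Szpiro

/-- Bezout for coprime numbers. -/
theorem BetaFin_bezout (u v : ℕ) (hv : 1 < v) (h : Nat.Coprime u v) : ∃ a b : ℕ, a * u = b * v + 1 := by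
  obtain ⟨a, ha⟩ := Nat.exists_mul_mod_eq_one_of_coprime h hv
  refine ⟨a, u * a / v, ?_⟩
  have h1 := Nat.div_add_mod (u * a) v
  rw [ha.2] at h1
  rw [mul_comm a u, ← h1]
  congr 1
  rw [h1, mul_comm]

/-- beta trick: fixed side `y = p'^(m 0) q'^(m 1) w'`, both exponents odd, not (1,3). -/
theorem few_beta_of (K ε0 : ℝ) (hK : 2 ≤ K) (hex : ExtStmt K ε0) (hcr : CritStmt K ε0) (l m : Fin (2 * 1) → ℕ) (hl : ∀ i, 1 ≤ l i) (hl01 : l 0 < l 1)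
    (hcop : Nat.Coprime (l 0) (l 1)) (hm0 : Odd (m 0)) (hm1 : Odd (m 1)) (hm : m 0 < m 1) (hm5 : 5 ≤ m 1) :
    ∃ σ : ℝ, 0 < σ ∧ Few K ε0 (fun Y w => IsTie σ 1 l Y w.1 ∧ IsTie σ 1 m Y w.2) := by
  have hu : 1 ≤ l 0 := hl 0
  have hv : 1 < l 1 := lt_of_le_of_lt hu hl01
  obtain ⟨a, b, hab⟩ := BetaFin_bezout (l 0) (l 1) hv hcop
  have hvR : (2 : ℝ) ≤ (l 1 : ℝ) := by exact_mod_cast hv
  obtain ⟨κ3, hκ3⟩ : ∃ κ3 : ℝ, κ3 = 1 / (40 * (l 1 : ℝ)) := ⟨_, rfl⟩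
  obtain ⟨τ, hτ⟩ : ∃ τ : ℝ, τ = κ3 / 100 := ⟨_, rfl⟩
  have h3 : 0 < κ3 := by rw [hκ3]; positivity
  have h3le : κ3 ≤ 1 / 80 := by
    rw [hκ3]
    apply one_div_le_one_div_of_le (by norm_num)
    linarith
  have hτ0 : 0 < τ := by rw [hτ]; positivity
  have hτ1 : τ ≤ 1 / 100 := by rw [hτ]; linarith
  obtain ⟨σ, hσ, H⟩ := tie_side_of K ε0 hK hex hcr l m hl hm0 hm1 κ3 h3 (by linarith) τ hτ0 hτ1
  obtain ⟨C1, Ya, hC1, H1⟩ := side_beta K l m hl hl01 hm5 a b hab κ3 τ h3 (by linarith) hτ0 hτ1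
  obtain ⟨Yb, hYb, H2⟩ := beta_num (l 0) (l 1) a b hu hl01 C1 hC1 κ3 τ hκ3 hτ
  obtain ⟨C, δ, hC, hδ, H3⟩ := H (max Ya Yb)
  refine ⟨σ, hσ, C, δ, hC, hδ, ?_⟩
  intro Y hY P hP
  by_contra hcon
  rw [not_le] at hcon
  obtain ⟨hY0, D, f, w, ℓ, sg, y, S, p, q, hT⟩ := H3 Y hY P hP hcon
  obtain ⟨D', 𝔴, α, PP, QQ, Rc, T, N, lab, e, hB, hN, hR, hRc⟩ :=
    H1 Y D f w ℓ sg y S p q ((le_max_left _ _).trans hY0) hT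
  obtain ⟨B, Rm, μ, t, X1, Y1, J, hB1, hRm, hμ, hRm1, hX, hYY, hYl, hJ, ht, hRD, hfin⟩ :=
    H2 Y ((|D| : ℤ) : ℝ) S.card Rc.card N ℓ ((le_max_right _ _).trans hY0) hT.card hR hN hT.ℓlo hT.Dlo hT.Dhi
  have hbb := beta_bound hB B Rm μ t X1 Y1 J
    (fun s hs => ⟨hB1 _ (hT.pp s hs).2.2.2.2, hB1 _ (hT.qq s hs).2.2.2.2⟩)
    (fun r hr => hRm _ (hRc r hr)) hRm1 hX hYY hYl hJ ht hRD
    (fun s hs => hμ _ (by
      have h := hT.multp s hs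
      convert h using 4))
  exact absurd hfin (not_lt.mpr hbb)

end Hp

end Pool.Agent.Lib.MP_d8bd92_nt
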