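import Pool.Agent.Lib.MP_d8bd92_nt.Hp.Beta0

set_option autoImplicit false

/-! Block 6.6: size classes. -/

namespace Pool.Agent.Lib.MP_d8bd92_nt

namespace Hp

/-- real embedding -/
noncomputable def BetaSC_phi {D : ℤ} (z : ℤ√D) : ℝ := (z.re : ℝ) + z.im * Real.sqrt D

/-- conjugate real embedding -/
noncomputable def BetaSC_psi {D : ℤ} (z : ℤ√D) : ℝ := (z.re : ℝ) - z.im * Real.sqrt D

theorem BetaSC_mul {D : ℤ} (hD : 0 < D) (z : ℤ√D) :
    BetaSC_phi z * BetaSC_psi z = (z.norm : ℝ) := by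
  have hs : Real.sqrt (D : ℝ) ^ 2 = D := Real.sq_sqrt (by exact_mod_cast hD.le)
  unfold BetaSC_phi BetaSC_psi
  rw [Zsqrtd.norm_def]
  push_cast
  linear_combination (-(z.im : ℝ) ^ 2) * hs

theorem BetaSC_sq {D : ℤ} (hD : 0 < D) (z : ℤ√D) :
    BetaSC_phi z ^ 2 + BetaSC_psi z ^ 2 = 2 * ((hh z : ℤ) : ℝ) := by
  have hs : Real.sqrt (D : ℝ) ^ 2 = D := Real.sq_sqrt (by exact_mod_cast hD.le)
  unfold BetaSC_phi BetaSC_psi hh
  rw [abs_of_pos hD]
  push_cast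
  linear_combination (2 * (z.im : ℝ) ^ 2) * hs

theorem BetaSC_phi_mul {D : ℤ} (hD : 0 < D) (x y : ℤ√D) :
    BetaSC_phi (x * star y) = BetaSC_phi x * BetaSC_psi y := by
  have hs : Real.sqrt (D : ℝ) ^ 2 = D := Real.sq_sqrt (by exact_mod_cast hD.le)
  unfold BetaSC_phi BetaSC_psi
  simp only [Zsqrtd.re_mul, Zsqrtd.im_mul, Zsqrtd.re_star, Zsqrtd.im_star]
  push_cast
  linear_combination ((x.im : ℝ) * y.im) * hs

theorem BetaSC_psi_mul {D : ℤ} (hD : 0 < D) (x y : ℤ√D) :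
    BetaSC_psi (x * star y) = BetaSC_psi x * BetaSC_phi y := by
  have hs : Real.sqrt (D : ℝ) ^ 2 = D := Real.sq_sqrt (by exact_mod_cast hD.le)
  unfold BetaSC_phi BetaSC_psi
  simp only [Zsqrtd.re_mul, Zsqrtd.im_mul, Zsqrtd.re_star, Zsqrtd.im_star]
  push_cast
  linear_combination ((x.im : ℝ) * y.im) * hs

theorem BetaSC_bal {A B n h : ℝ} (h1 : A * B = n) (h2 : A ^ 2 + B ^ 2 = 2 * h)
    (h3 : |A| ≤ 2 * |B|) (h4 : |B| ≤ 2 * |A|) : h ≤ 2 * |n| := by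
  have h5 : |n| = |A| * |B| := by rw [← h1, abs_mul]
  have h6 : 0 ≤ (2 * |B| - |A|) * (2 * |A| - |B|) :=
    mul_nonneg (by linarith) (by linarith)
  have h7 : |A| ^ 2 = A ^ 2 := sq_abs A
  have h8 : |B| ^ 2 = B ^ 2 := sq_abs B
  have h9 : 0 ≤ |A| * |B| := by positivity
  rw [h5]
  nlinarith

theorem BetaSC_ne {D : ℤ} (hD : 0 < D) (hsq : ¬ IsSquare D) {z : ℤ√D} (hz : z ≠ 0) :
    1 ≤ |BetaSC_phi z| * |BetaSC_psi z| := by
  rw [← abs_mul, BetaSC_mul hD]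
  have h1 : z.norm ≠ 0 := by
    rw [Ne, Zsqrtd.norm_eq_zero (fun n hn => hsq ⟨n, hn⟩)]
    exact hz
  have h2 : 1 ≤ |z.norm| := Int.one_le_abs h1
  have h3 : ((1 : ℤ) : ℝ) ≤ ((|z.norm| : ℤ) : ℝ) := by exact_mod_cast h2
  rw [Int.cast_abs] at h3
  simpa using h3

theorem BetaSC_ratio {a b H : ℝ} (ha : 0 < a) (hb : 0 < b) (h1 : 1 ≤ a * b)
    (h2 : a ^ 2 + b ^ 2 ≤ 2 * H) : a / b ≤ 2 * H := by
  rw [div_le_iff₀ hb]
  have hH : 0 ≤ H := by nlinarith [sq_nonneg a, sq_nonneg b]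
  have h3 : a * a ≤ (2 * H * b) * a := by
    have h4 : 2 * H * 1 ≤ 2 * H * (a * b) := mul_le_mul_of_nonneg_left h1 (by linarith)
    nlinarith [sq_nonneg b]
  exact le_of_mul_le_mul_right h3 ha

theorem BetaSC_log {ρ : ℝ} {H : ℕ} (hH : 1 ≤ H) (hρ : 0 < ρ) (h1 : ρ ≤ 2 * H)
    (h2 : ρ⁻¹ ≤ 2 * H) : Int.log 2 ρ ≤ Nat.log 2 H + 1 ∧ -((Nat.log 2 H : ℤ) + 2) ≤ Int.log 2 ρ := by
  constructor
  · have h3 : Int.log 2 ρ ≤ Int.log 2 (((2 * H : ℕ)) : ℝ) :=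
      Int.log_mono_right hρ (by push_cast; exact h1)
    rw [Int.log_natCast, mul_comm, Nat.log_mul_base (by norm_num) (by omega)] at h3
    push_cast at h3
    exact h3
  · rw [← Int.zpow_le_iff_le_log (by norm_num) hρ]
    have h3 : H < 2 ^ (Nat.log 2 H + 1) := Nat.lt_pow_succ_log_self (by norm_num) H
    have h4 : (H : ℝ) < 2 ^ (Nat.log 2 H + 1) := by exact_mod_cast h3
    have h5 : ρ⁻¹ ≤ 2 ^ (Nat.log 2 H + 2) := by
      refine h2.trans ?_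
      rw [pow_succ]
      linarith
    have h6 : ((2 : ℝ) ^ (Nat.log 2 H + 2))⁻¹ ≤ ρ := by
      rw [inv_le_comm₀ (by positivity) hρ]
      exact h5
    refine le_trans (le_of_eq ?_) h6
    rw [zpow_neg]
    congr 1

theorem BetaSC_same {ρ ρ' : ℝ} (hρ' : 0 < ρ') (h : Int.log 2 ρ = Int.log 2 ρ') :
    ρ ≤ 2 * ρ' := by
  have h1 : ρ < ((2 : ℕ) : ℝ) ^ (Int.log 2 ρ + 1) := Int.lt_zpow_succ_log_self (by norm_num) ρ
  have h2 : ((2 : ℕ) : ℝ) ^ (Int.log 2 ρ') ≤ ρ' := Int.zpow_log_le_self (by norm_num) hρ'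
  rw [h, zpow_add_one₀ (by norm_num)] at h1
  push_cast at h1 h2
  linarith

/-- SIZE CLASSES: logarithmically many classes of elements such that two members of one class are comparable. PROOF. `D < 0`: one class (`hh z = norm z`). `D > 0`, `s = √D`: for
`x ≠ 0` put `φ x = x.re + x.im s`, `ψ x = x.re - x.im s`; `φ x * ψ x = norm x ≠ 0`, `φ^2 + ψ^2 = 2 hh x`, so `1/(2 H) ≤ |φ x / ψ x| ≤ 2 H` if `hh x ≤ H`.
Class: the integer part of `log_2 |φ x / ψ x|` (values in `[-L, L]`, `L = Nat.log 2 H + 2`). Same class: `t := |φ x ψ y| / |ψ x φ y|` is in `[1/2, 2]`, and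
`φ (x star y) = φ x ψ y`, `ψ (x star y) = ψ x φ y`, so `hh (x star y) = |norm (x star y)| (t + 1/t) / 2 ≤ 2 |norm (x star y)|`. -/
theorem size_class {D : ℤ} (hD : ¬ IsSquare D) (H : ℕ) (hH : 1 ≤ H) :
    ∃ (M : ℕ) (cl : (ℤ√D) → Fin M), M ≤ 2 * Nat.log 2 H + 10 ∧ ∀ x y : ℤ√D, x ≠ 0 → y ≠ 0 →
      hh x ≤ H → hh y ≤ H → cl x = cl y → Cmp 2 x y := by
  rcases lt_trichotomy D 0 with hneg | h0 | hpos
  · refine ⟨1, fun _ => 0, by omega, ?_⟩
    intro x y _ _ _ _ _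
    unfold Cmp
    have h1 : hh (x * star y) = (x * star y).norm := by
      unfold hh
      rw [abs_of_neg hneg, Zsqrtd.norm_def]
      ring
    have h2 : (x * star y).norm ≤ |(x * star y).norm| := le_abs_self _
    have h3 : 0 ≤ |(x * star y).norm| := abs_nonneg _
    rw [h1]
    have h2' : (((x * star y).norm : ℤ) : ℝ) ≤ ((|(x * star y).norm| : ℤ) : ℝ) := by
      exact_mod_cast h2
    have h3' : (0 : ℝ) ≤ ((|(x * star y).norm| : ℤ) : ℝ) := by exact_mod_cast h3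
    linarith
  · exact absurd ⟨0, by simpa using h0⟩ hD
  · refine ⟨2 * Nat.log 2 H + 10, fun x =>
      ⟨(Int.log 2 (|BetaSC_phi x| / |BetaSC_psi x|) + ((Nat.log 2 H : ℤ) + 3)).toNat %
        (2 * Nat.log 2 H + 10), Nat.mod_lt _ (by omega)⟩, le_refl _, ?_⟩
    have key : ∀ x : ℤ√D, x ≠ 0 → hh x ≤ H → 0 < |BetaSC_phi x| ∧ 0 < |BetaSC_psi x| ∧
        Int.log 2 (|BetaSC_phi x| / |BetaSC_psi x|) ≤ Nat.log 2 H + 1 ∧
        -((Nat.log 2 H : ℤ) + 2) ≤ Int.log 2 (|BetaSC_phi x| / |BetaSC_psi x|) := by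
      intro x hx hxH
      have h1 := BetaSC_ne hpos hD hx
      have ha : 0 < |BetaSC_phi x| := by
        rcases (abs_nonneg (BetaSC_phi x)).lt_or_eq with h | h
        · exact h
        · rw [← h, zero_mul] at h1
          linarith
      have hb : 0 < |BetaSC_psi x| := by
        rcases (abs_nonneg (BetaSC_psi x)).lt_or_eq with h | h
        · exact h
        · rw [← h, mul_zero] at h1
          linarith
      have h2 := BetaSC_sq hpos x
      have h3 : ((hh x : ℤ) : ℝ) ≤ (H : ℝ) := by exact_mod_cast hxH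
      have h4 : |BetaSC_phi x| ^ 2 + |BetaSC_psi x| ^ 2 ≤ 2 * (H : ℝ) := by
        rw [sq_abs, sq_abs]
        linarith
      have h5 := BetaSC_ratio ha hb h1 h4
      have h6 := BetaSC_ratio hb ha (by rw [mul_comm]; exact h1) (by rw [add_comm]; exact h4)
      obtain ⟨h7, h8⟩ := BetaSC_log hH (div_pos ha hb) h5 (by rw [inv_div]; exact h6)
      exact ⟨ha, hb, h7, h8⟩
    intro x y hx hy hxH hyH hcl
    obtain ⟨ax, bx, lx1, lx2⟩ := key x hx hxH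
    obtain ⟨ay, bY, ly1, ly2⟩ := key y hy hyH
    have hcl' := congrArg Fin.val hcl
    dsimp only at hcl'
    rw [Nat.mod_eq_of_lt (by omega), Nat.mod_eq_of_lt (by omega)] at hcl'
    have hlog : Int.log 2 (|BetaSC_phi x| / |BetaSC_psi x|) =
        Int.log 2 (|BetaSC_phi y| / |BetaSC_psi y|) := by omega
    have h1 := BetaSC_same (div_pos ay bY) hlog
    have h2 := BetaSC_same (div_pos ax bx) hlog.symm
    rw [div_le_iff₀ bx, ← mul_div_assoc, div_mul_eq_mul_div, le_div_iff₀ bY] at h1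
    rw [div_le_iff₀ bY, ← mul_div_assoc, div_mul_eq_mul_div, le_div_iff₀ bx] at h2
    unfold Cmp
    rw [Int.cast_abs]
    refine BetaSC_bal (BetaSC_mul hpos (x * star y)) (BetaSC_sq hpos (x * star y)) ?_ ?_
    · rw [BetaSC_phi_mul hpos, BetaSC_psi_mul hpos, abs_mul, abs_mul]
      linarith
    · rw [BetaSC_phi_mul hpos, BetaSC_psi_mul hpos, abs_mul, abs_mul]
      linarith

end Hp

end Pool.Agent.Lib.MP_d8bd92_nt
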