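import Mathlib

set_option autoImplicit false

/-!
# Block 4: classification of the sides (pure combinatorics of the masses)

`S` is the finite set of the odd primes of `v`, `y p` the mass of `p` (that is `log p / log R`), `e p`
its exponent. The prime `2` is left out: its mass is absorbed by `c1`, and it is put into `A`.
-/

namespace Pool.Agent.Lib.MP_d8bd92_nt

namespace Hp

variable {ι : Type*} [DecidableEq ι]

/-- Type (P): the classes `T` (all exponents `l`), `A`, `B` form a partition of `S`, the masses of `A` and `B` are at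
most `1 / 2 - η`. -/
def TypeP (S : Finset ι) (y : ι → ℝ) (e : ι → ℕ) (η : ℝ) (L : ℕ) : Prop :=
  ∃ l : ℕ, 1 ≤ l ∧ l ≤ L ∧ ∃ T A B : Finset ι, T ∪ (A ∪ B) = S ∧ Disjoint T (A ∪ B) ∧ Disjoint A B ∧
    (∀ p ∈ T, e p = l) ∧ ∑ p ∈ A, y p ≤ 1 / 2 - η ∧ ∑ p ∈ B, y p ≤ 1 / 2 - η

/-- Type (TIE `j`): exactly `2 j` large primes, of masses about `1 / (2 j)`, with different exponents; the other
primes have together a mass at most `σ`. -/
def TypeTie (S : Finset ι) (y : ι → ℝ) (e : ι → ℕ) (σ K : ℝ) : Prop :=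
  ∃ j : ℕ, 1 ≤ j ∧ (j : ℝ) ≤ 2 * K ∧ ∃ J : Finset ι, J ⊆ S ∧ J.card = 2 * j ∧
    (∀ p ∈ J, |y p - 1 / (2 * j)| ≤ 3 * σ) ∧ (∀ p ∈ J, ∀ q ∈ J, e p = e q → p = q) ∧
    ∑ p ∈ S \ J, y p ≤ σ

lemma cls_greedy (U : Finset ι) (y : ι → ℝ) {a δ : ℝ} (hy : ∀ p ∈ U, y p ≤ δ) (ha0 : 0 ≤ a)
    (hδ : 0 ≤ δ) (ha : a ≤ ∑ p ∈ U, y p) :
    ∃ T ⊆ U, a ≤ ∑ p ∈ T, y p ∧ ∑ p ∈ T, y p ≤ a + δ := by
  induction U using Finset.induction_on with
  | empty =>
    refine ⟨∅, Finset.empty_subset _, ha, ?_⟩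
    rw [Finset.sum_empty]
    linarith
  | insert p U hp ih =>
    by_cases h : a ≤ ∑ q ∈ U, y q
    · obtain ⟨T, hT, h1, h2⟩ := ih (fun q hq => hy q (Finset.mem_insert_of_mem hq)) h
      exact ⟨T, hT.trans (Finset.subset_insert _ _), h1, h2⟩
    · refine ⟨insert p U, Finset.Subset.refl _, ha, ?_⟩
      rw [Finset.sum_insert hp]
      have := hy p (Finset.mem_insert_self _ _)
      linarith [not_le.mp h]

lemma cls_jump (U : Finset ι) (Q : Finset ι → Prop) (h0 : Q ∅) (h1 : ¬ Q U) :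
    ∃ I ⊆ U, ∃ p ∈ U, p ∉ I ∧ Q I ∧ ¬ Q (insert p I) := by
  induction U using Finset.induction_on with
  | empty => exact absurd h0 h1
  | insert p U hp ih =>
    by_cases h : Q U
    · exact ⟨U, Finset.subset_insert _ _, p, Finset.mem_insert_self _ _, hp, h, h1⟩
    · obtain ⟨I, hI, q, hq, h2, h3, h4⟩ := ih h
      exact ⟨I, hI.trans (Finset.subset_insert _ _), q, Finset.mem_insert_of_mem hq, h2, h3, h4⟩

lemma cls_typeP_of {S : Finset ι} {y : ι → ℝ} {e : ι → ℕ} {η c : ℝ} {L : ℕ} {l : ℕ} (hl1 : 1 ≤ l)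
    (hl : l ≤ L) {T B : Finset ι} (hT : T ⊆ S) (hB : B ⊆ S) (hd : Disjoint T B)
    (he : ∀ p ∈ T, e p = l) (hsum : ∑ p ∈ S, y p ≤ 1 + c)
    (h1 : ∑ p ∈ B, y p ≤ 1 / 2 - η) (h2 : 1 / 2 + η + c ≤ ∑ p ∈ T, y p + ∑ p ∈ B, y p) :
    TypeP S y e η L := by
  have hTB : T ∪ B ⊆ S := Finset.union_subset hT hB
  refine ⟨l, hl1, hl, T, S \ (T ∪ B), B, ?_, ?_, ?_, he, ?_, h1⟩
  · ext p
    simp only [Finset.mem_union, Finset.mem_sdiff]
    constructor
    · rintro (h | ⟨h, _⟩ | h)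
      · exact hT h
      · exact h
      · exact hB h
    · intro h
      by_cases h3 : p ∈ T
      · exact Or.inl h3
      · by_cases h4 : p ∈ B
        · exact Or.inr (Or.inr h4)
        · exact Or.inr (Or.inl ⟨h, fun h5 => h5.elim h3 h4⟩)
  · rw [Finset.disjoint_union_right]
    refine ⟨?_, hd⟩
    exact Finset.disjoint_sdiff.mono_left Finset.subset_union_left
  · exact Finset.sdiff_disjoint.mono_right Finset.subset_union_right
  · have h3 : ∑ p ∈ S \ (T ∪ B), y p + ∑ p ∈ T ∪ B, y p = ∑ p ∈ S, y p :=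
      Finset.sum_sdiff hTB
    rw [Finset.sum_union hd] at h3
    linarith

omit [DecidableEq ι] in
/-- exponents of primes which are not small -/
lemma cls_exp_le {S : Finset ι} {y : ι → ℝ} {e : ι → ℕ} {K a : ℝ} (hy : ∀ p ∈ S, 0 ≤ y p)
    (hE : ∑ p ∈ S, (e p : ℝ) * y p ≤ K) (ha : 0 < a) {p : ι} (hp : p ∈ S) (hpa : a ≤ y p) :
    (e p : ℝ) ≤ K / a := by
  rw [le_div_iff₀ ha]
  have h1 : (e p : ℝ) * y p ≤ ∑ q ∈ S, (e q : ℝ) * y q :=
    Finset.single_le_sum (f := fun q => (e q : ℝ) * y q)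
      (fun q hq => mul_nonneg (Nat.cast_nonneg _) (hy q hq)) hp
  have h2 : (e p : ℝ) * a ≤ (e p : ℝ) * y p := mul_le_mul_of_nonneg_left hpa (Nat.cast_nonneg _)
  linarith

/-- Pigeonhole: if the small primes have a mass `≥ σ`, then one exponent `l` has small primes of mass `≥ 3 σ² / (16 K)`. -/
lemma cls_pigeon {S U : Finset ι} {y : ι → ℝ} {e : ι → ℕ} {K σ : ℝ} (hK : 0 < K) (hσ : 0 < σ)
    (hU : U ⊆ S) (hy : ∀ p ∈ S, 0 ≤ y p) (he : ∀ p ∈ S, 1 ≤ e p)
    (hE : ∑ p ∈ S, (e p : ℝ) * y p ≤ K) (hs : σ ≤ ∑ p ∈ U, y p) :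
    ∃ l : ℕ, 1 ≤ l ∧ (l : ℝ) ≤ 4 * K / σ ∧
      3 * σ ^ 2 / (16 * K) ≤ ∑ p ∈ U.filter (fun p => e p = l), y p := by
  by_contra hcon
  push Not at hcon
  obtain ⟨N, hN⟩ : ∃ N : ℕ, N = ⌊4 * K / σ⌋₊ := ⟨_, rfl⟩
  have hN0 : (N : ℝ) ≤ 4 * K / σ := by
    rw [hN]
    exact Nat.floor_le (by positivity)
  -- the primes with large exponents
  have h1 : ∑ p ∈ U.filter (fun p => N < e p), y p ≤ σ / 4 := by
    have h2 : ∀ p ∈ U.filter (fun p => N < e p), 4 * K / σ * y p ≤ (e p : ℝ) * y p := by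
      intro p hp
      have hp' := Finset.mem_filter.mp hp
      apply mul_le_mul_of_nonneg_right _ (hy p (hU hp'.1))
      have h3 : ⌊4 * K / σ⌋₊ < e p := hN ▸ hp'.2
      exact ((Nat.floor_lt (by positivity)).mp h3).le
    have h3 : 4 * K / σ * ∑ p ∈ U.filter (fun p => N < e p), y p ≤ K := by
      rw [Finset.mul_sum]
      refine (Finset.sum_le_sum h2).trans (le_trans ?_ hE)
      apply Finset.sum_le_sum_of_subset_of_nonneg ((Finset.filter_subset _ _).trans hU)
      intro p hp _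
      exact mul_nonneg (Nat.cast_nonneg _) (hy p hp)
    have h4 : (4 * K / σ) * (σ / 4) = K := by field_simp
    have h5 : 0 < 4 * K / σ := by positivity
    by_contra h6
    push Not at h6
    have := mul_lt_mul_of_pos_left h6 h5
    linarith
  have h2 : ∑ p ∈ U.filter (fun p => ¬ N < e p), y p ≤
      N * (3 * σ ^ 2 / (16 * K)) := by
    have h3 : U.filter (fun p => ¬ N < e p) ⊆
        (Finset.Icc 1 N).biUnion (fun l => U.filter (fun p => e p = l)) := by
      intro p hp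
      have hp' := Finset.mem_filter.mp hp
      rw [Finset.mem_biUnion]
      exact ⟨e p, Finset.mem_Icc.mpr ⟨he p (hU hp'.1), not_lt.mp hp'.2⟩,
        Finset.mem_filter.mpr ⟨hp'.1, rfl⟩⟩
    calc ∑ p ∈ U.filter (fun p => ¬ N < e p), y p
        ≤ ∑ p ∈ (Finset.Icc 1 N).biUnion (fun l => U.filter (fun p => e p = l)), y p := by
          apply Finset.sum_le_sum_of_subset_of_nonneg h3
          intro p hp _
          obtain ⟨l, _, hl⟩ := Finset.mem_biUnion.mp hp
          exact hy p (hU (Finset.mem_filter.mp hl).1)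
      _ ≤ ∑ l ∈ Finset.Icc 1 N, ∑ p ∈ U.filter (fun p => e p = l), y p := by
          rw [Finset.sum_biUnion]
          intro l _ l' _ hne
          rw [Function.onFun, Finset.disjoint_left]
          intro p hp hp'
          exact hne ((Finset.mem_filter.mp hp).2.symm.trans (Finset.mem_filter.mp hp').2)
      _ ≤ ∑ _l ∈ Finset.Icc 1 N, 3 * σ ^ 2 / (16 * K) := by
          apply Finset.sum_le_sum
          intro l hl
          have hl' := Finset.mem_Icc.mp hl
          refine (hcon l hl'.1 ?_).le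
          exact le_trans (by exact_mod_cast hl'.2) hN0
      _ = N * (3 * σ ^ 2 / (16 * K)) := by simp
  have h3 : (N : ℝ) * (3 * σ ^ 2 / (16 * K)) ≤ 3 * σ / 4 := by
    calc (N : ℝ) * (3 * σ ^ 2 / (16 * K)) ≤ (4 * K / σ) * (3 * σ ^ 2 / (16 * K)) :=
          mul_le_mul_of_nonneg_right hN0 (by positivity)
      _ = 3 * σ / 4 := by field_simp; ring
  have h4 := Finset.sum_filter_add_sum_filter_not U (fun p => N < e p) y
  -- equality is impossible: the strict inequality in one class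
  have h5 : σ ≤ σ / 4 + 3 * σ / 4 := by linarith
  -- use strictness
  have h6 : ∑ p ∈ U.filter (fun p => ¬ N < e p), y p < 3 * σ / 4 ∨
      N = 0 := by
    by_cases hN1 : N = 0
    · exact Or.inr hN1
    · left
      refine lt_of_lt_of_le ?_ h3
      have h7 : U.filter (fun p => ¬ N < e p) ⊆
          (Finset.Icc 1 N).biUnion (fun l => U.filter (fun p => e p = l)) := by
        intro p hp
        have hp' := Finset.mem_filter.mp hp
        rw [Finset.mem_biUnion]
        exact ⟨e p, Finset.mem_Icc.mpr ⟨he p (hU hp'.1), not_lt.mp hp'.2⟩,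
          Finset.mem_filter.mpr ⟨hp'.1, rfl⟩⟩
      calc ∑ p ∈ U.filter (fun p => ¬ N < e p), y p
          ≤ ∑ p ∈ (Finset.Icc 1 N).biUnion (fun l => U.filter (fun p => e p = l)), y p := by
            apply Finset.sum_le_sum_of_subset_of_nonneg h7
            intro p hp _
            obtain ⟨l, _, hl⟩ := Finset.mem_biUnion.mp hp
            exact hy p (hU (Finset.mem_filter.mp hl).1)
        _ = ∑ l ∈ Finset.Icc 1 N, ∑ p ∈ U.filter (fun p => e p = l), y p := by
            rw [Finset.sum_biUnion]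
            intro l _ l' _ hne
            rw [Function.onFun, Finset.disjoint_left]
            intro p hp hp'
            exact hne ((Finset.mem_filter.mp hp).2.symm.trans (Finset.mem_filter.mp hp').2)
        _ < ∑ _l ∈ Finset.Icc 1 N, 3 * σ ^ 2 / (16 * K) := by
            apply Finset.sum_lt_sum_of_nonempty
            · exact ⟨1, Finset.mem_Icc.mpr ⟨le_refl _, by omega⟩⟩
            · intro l hl
              have hl' := Finset.mem_Icc.mp hl
              refine hcon l hl'.1 ?_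
              exact le_trans (by exact_mod_cast hl'.2) hN0
        _ = N * (3 * σ ^ 2 / (16 * K)) := by simp
  rcases h6 with h6 | h6
  · linarith
  · rw [h6] at h1 h2 h4
    simp only [Nat.cast_zero, zero_mul] at h2
    linarith


/-- Case A: the small primes have a mass `s ≥ σ`. `Lg`, `Sm`: the large and the small primes. -/
lemma cls_caseA {S Lg Sm : Finset ι} {y : ι → ℝ} {e : ι → ℕ} {K σ η1 η c : ℝ} {L : ℕ} (hK : 1 ≤ K)
    (hσ : 0 < σ) (hσ1 : σ ≤ 1 / 4) (hη1 : η1 = σ ^ 2 / (80 * K)) (hη : 0 < η) (hc : 0 ≤ c)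
    (hsmall : 2 * η + c ≤ η1) (hL : K / η1 ≤ L) (hL' : 4 * K / σ ≤ L)
    (hS : Lg ∪ Sm = S) (hdis : Disjoint Lg Sm)
    (hy : ∀ p ∈ S, 0 ≤ y p) (he : ∀ p ∈ S, 1 ≤ e p)
    (hE : ∑ p ∈ S, (e p : ℝ) * y p ≤ K)
    (hSm : ∀ p ∈ Sm, y p ≤ η1) (hLg : ∀ p ∈ Lg, η1 ≤ y p)
    (hsum : ∑ p ∈ S, y p ≤ 1 + c) (hsum' : 1 - c ≤ ∑ p ∈ S, y p)
    (hs : σ ≤ ∑ p ∈ Sm, y p) : TypeP S y e η L := by
  have hK0 : 0 < K := by linarith
  have hη10 : 0 < η1 := by rw [hη1]; positivity
  have hη1σ : η1 ≤ σ / 80 := by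
    rw [hη1, div_le_div_iff₀ (by positivity) (by positivity)]
    nlinarith
  have hSmS : Sm ⊆ S := hS ▸ Finset.subset_union_right
  have hLgS : Lg ⊆ S := hS ▸ Finset.subset_union_left
  have hsumLS : ∑ p ∈ Lg, y p + ∑ p ∈ Sm, y p = ∑ p ∈ S, y p := by
    rw [← hS, Finset.sum_union hdis]
  obtain ⟨s, hsdef⟩ : ∃ s, s = ∑ p ∈ Sm, y p := ⟨_, rfl⟩
  rw [← hsdef] at hs hsumLS
  -- the class `T` of small primes
  obtain ⟨l, hl1, hl2, hl3⟩ := cls_pigeon hK0 hσ hSmS hy he hE (hsdef ▸ hs)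
  have hl : l ≤ L := by exact_mod_cast hl2.trans hL'
  have hθ : 15 * η1 = 3 * σ ^ 2 / (16 * K) := by
    rw [hη1]; field_simp; ring
  rw [← hθ] at hl3
  obtain ⟨T, hT, hT1, hT2⟩ := cls_greedy (Sm.filter (fun p => e p = l)) y (a := 7 * η1) (δ := η1)
    (fun p hp => hSm p (Finset.mem_filter.mp hp).1) (by positivity) hη10.le (by linarith)
  have hTSm : T ⊆ Sm := hT.trans (Finset.filter_subset _ _)
  obtain ⟨x, hx⟩ : ∃ x, x = ∑ p ∈ T, y p := ⟨_, rfl⟩
  rw [← hx] at hT1 hT2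
  have hsx : ∑ p ∈ Sm \ T, y p = s - x := by
    have := Finset.sum_sdiff (f := y) hTSm
    rw [hsdef, hx]
    linarith
  -- claim A1
  have A1 : ∀ I ⊆ Lg, ∑ p ∈ I, y p ≤ 1 / 2 - η → 1 / 2 + η + c ≤ ∑ p ∈ I, y p + s →
      TypeP S y e η L := by
    intro I hI h1 h2
    have hIT : Disjoint T I := (hdis.mono hI hTSm).symm
    by_cases h3 : 1 / 2 + η + c ≤ x + ∑ p ∈ I, y p
    · exact cls_typeP_of hl1 hl (hTSm.trans hSmS) (hI.trans hLgS) hIT
        (fun p hp => (Finset.mem_filter.mp (hT hp)).2) hsum h1 (by rw [← hx]; exact h3)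
    · obtain ⟨U, hU, hU1, hU2⟩ := cls_greedy (Sm \ T) y
        (a := 1 / 2 + η + c - x - ∑ p ∈ I, y p) (δ := η1)
        (fun p hp => hSm p (Finset.mem_sdiff.mp hp).1) (by linarith [not_le.mp h3]) hη10.le
        (by rw [hsx]; linarith)
      have hUSm : U ⊆ Sm := hU.trans Finset.sdiff_subset
      have hIU : Disjoint I U := hdis.mono hI hUSm
      have hTU : Disjoint T U := Finset.disjoint_sdiff.mono_right hU
      refine cls_typeP_of (B := I ∪ U) hl1 hl (hTSm.trans hSmS)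
        (Finset.union_subset (hI.trans hLgS) (hUSm.trans hSmS))
        (Finset.disjoint_union_right.mpr ⟨hIT, hTU⟩)
        (fun p hp => (Finset.mem_filter.mp (hT hp)).2) hsum ?_ ?_
      · rw [Finset.sum_union hIU]
        linarith
      · rw [Finset.sum_union hIU, ← hx]
        linarith
  by_cases hI0 : 1 / 2 + η + c ≤ s
  · exact A1 ∅ (Finset.empty_subset _) (by rw [Finset.sum_empty]; linarith)
      (by rw [Finset.sum_empty]; linarith)
  by_cases hLg1 : ∑ p ∈ Lg, y p ≤ 1 / 2 - η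
  · exact A1 Lg (Finset.Subset.refl _) hLg1 (by linarith)
  obtain ⟨I, hI, p, hp, hpI, hq1, hq2⟩ := cls_jump Lg (fun I => ∑ p ∈ I, y p ≤ 1 / 2 - η)
    (by rw [Finset.sum_empty]; linarith) hLg1
  by_cases hA : 1 / 2 + η + c ≤ ∑ p ∈ I, y p + s
  · exact A1 I hI hq1 hA
  rw [Finset.sum_insert hpI] at hq2
  push Not at hq2 hA
  -- `T = {p}`, `B = I` and some small primes
  have hpS : p ∈ S := hLgS hp
  obtain ⟨U, hU, hU1, hU2⟩ := cls_greedy Sm y (a := σ / 4) (δ := η1) hSm (by positivity) hη10.le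
    (by rw [← hsdef]; linarith)
  have hIU : Disjoint I U := hdis.mono hI hU
  have hpU : p ∉ U := fun h => Finset.disjoint_left.mp hdis hp (hU h)
  have hle : e p ≤ L := by
    have := cls_exp_le hy hE hη10 hpS (hLg p hp)
    exact_mod_cast this.trans hL
  refine cls_typeP_of (T := {p}) (B := I ∪ U) (he p hpS) hle (Finset.singleton_subset_iff.mpr hpS)
    (Finset.union_subset (hI.trans hLgS) (hU.trans hSmS)) ?_ ?_ hsum ?_ ?_
  · rw [Finset.disjoint_singleton_left, Finset.mem_union]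
    exact fun h => h.elim hpI hpU
  · intro q hq
    rw [Finset.mem_singleton.mp hq]
  · rw [Finset.sum_union hIU]
    linarith
  · rw [Finset.sum_union hIU, Finset.sum_singleton]
    linarith

/-- different positive integers have a large sum -/
lemma cls_card_sum (E : Finset ℕ) (h : ∀ n ∈ E, 1 ≤ n) :
    E.card * (E.card + 1) ≤ 2 * ∑ n ∈ E, n := by
  induction E using Finset.induction_on_max with
  | empty => simp
  | insert m E hm ih =>
    have hmE : m ∉ E := fun h' => lt_irrefl _ (hm m h')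
    have h1 := ih (fun n hn => h n (Finset.mem_insert_of_mem hn))
    have h2 : E.card + 1 ≤ m := by
      have h3 : E ⊆ Finset.Ico 1 m := by
        intro n hn
        exact Finset.mem_Ico.mpr ⟨h n (Finset.mem_insert_of_mem hn), hm n hn⟩
      have h4 := Finset.card_le_card h3
      rw [Nat.card_Ico] at h4
      have h5 := h m (Finset.mem_insert_self _ _)
      omega
    rw [Finset.card_insert_of_notMem hmE, Finset.sum_insert hmE]
    nlinarith

/-- Case B: the small primes have a mass `s < σ`. -/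
lemma cls_caseB {S Lg Sm : Finset ι} {y : ι → ℝ} {e : ι → ℕ} {K σ η1 η c : ℝ} {L : ℕ} (hK : 1 ≤ K)
    (hσ : 0 < σ) (hσ1 : σ ≤ 1 / (40 * K)) (hη10 : 0 < η1) (hη1σ : η1 ≤ σ)
    (hη : η = η1 * σ / 16) (hc : c = η) (hL : K / η1 ≤ L)
    (hS : Lg ∪ Sm = S) (hdis : Disjoint Lg Sm)
    (hy : ∀ p ∈ S, 0 ≤ y p) (he : ∀ p ∈ S, 1 ≤ e p)
    (hE : ∑ p ∈ S, (e p : ℝ) * y p ≤ K)
    (hLg : ∀ p ∈ Lg, η1 ≤ y p)
    (hsum : ∑ p ∈ S, y p ≤ 1 + c) (hsum' : 1 - c ≤ ∑ p ∈ S, y p)
    (hs : ∑ p ∈ Sm, y p < σ) : TypeP S y e η L ∨ TypeTie S y e σ K := by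
  subst hc
  have hK0 : 0 < K := by linarith
  have hσ2 : σ ≤ 1 / 40 := by
    refine hσ1.trans ?_
    rw [div_le_div_iff₀ (by positivity) (by norm_num)]
    linarith
  have hσK : σ * K ≤ 1 / 40 := by
    rw [le_div_iff₀ (by positivity)] at hσ1
    linarith
  have hη0 : 0 < c := by rw [hη]; positivity
  have hηη : 3 * c ≤ η1 := by
    rw [hη]
    nlinarith
  have hησ : c ≤ σ / 640 := by
    rw [hη]
    have : η1 * σ ≤ 1 / 40 * σ := mul_le_mul_of_nonneg_right (hη1σ.trans hσ2) hσ.le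
    linarith
  have hSmS : Sm ⊆ S := hS ▸ Finset.subset_union_right
  have hLgS : Lg ⊆ S := hS ▸ Finset.subset_union_left
  have hsumLS : ∑ p ∈ Lg, y p + ∑ p ∈ Sm, y p = ∑ p ∈ S, y p := by
    rw [← hS, Finset.sum_union hdis]
  have hSm0 : 0 ≤ ∑ p ∈ Sm, y p := Finset.sum_nonneg fun p hp => hy p (hSmS hp)
  by_cases hP : TypeP S y e c L
  · exact Or.inl hP
  right
  have hexp : ∀ p ∈ Lg, e p ≤ L := by
    intro p hp
    have := cls_exp_le hy hE hη10 (hLgS hp) (hLg p hp)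
    exact_mod_cast this.trans hL
  -- claim B1
  have B1 : ∀ p ∈ Lg, ∀ I ⊆ Lg, p ∉ I → ∑ q ∈ I, y q ≤ 1 / 2 - c →
      ∑ q ∈ I, y q + y p < 1 / 2 + 2 * c := by
    intro p hp I hI hpI h1
    by_contra h2
    push Not at h2
    apply hP
    refine cls_typeP_of (T := {p}) (B := I) (he p (hLgS hp)) (hexp p hp)
      (Finset.singleton_subset_iff.mpr (hLgS hp)) (hI.trans hLgS)
      (Finset.disjoint_singleton_left.mpr hpI) ?_ hsum h1 ?_
    · intro q hq
      rw [Finset.mem_singleton.mp hq]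
    · rw [Finset.sum_singleton]
      linarith
  -- the middle sets
  obtain ⟨Mid, hMid⟩ : ∃ Mid : Finset ι → Prop, ∀ M, Mid M ↔
      (M ⊆ Lg ∧ 1 / 2 - c < ∑ p ∈ M, y p ∧ ∑ p ∈ M, y p < 1 / 2 + 2 * c) :=
    ⟨fun M => M ⊆ Lg ∧ 1 / 2 - c < ∑ p ∈ M, y p ∧ ∑ p ∈ M, y p < 1 / 2 + 2 * c,
      fun M => Iff.rfl⟩
  have hex : ∃ M, Mid M := by
    obtain ⟨I, hI, p, hp, hpI, h1, h2⟩ := cls_jump Lg (fun I => ∑ p ∈ I, y p ≤ 1 / 2 - c)
      (by rw [Finset.sum_empty]; linarith) (by push Not; linarith)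
    refine ⟨insert p I, (hMid _).mpr ⟨Finset.insert_subset hp hI, not_le.mp h2, ?_⟩⟩
    rw [Finset.sum_insert hpI]
    have := B1 p hp I hI hpI h1
    linarith
  have swap : ∀ M, Mid M → ∀ p ∈ M, ∀ q ∈ Lg, q ∉ M →
      |y p - y q| ≤ 3 * c ∧ Mid (insert q (M.erase p)) := by
    intro M hM p hp q hq hqM
    obtain ⟨hM1, hM2, hM3⟩ := (hMid M).mp hM
    have h1 : ∑ r ∈ M.erase p, y r = ∑ r ∈ M, y r - y p := by
      rw [← Finset.sum_erase_add M y hp]
      ring
    have hpy := hLg p (hM1 hp)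
    have hqy := hLg q hq
    have hqe : q ∉ M.erase p := fun h => hqM (Finset.mem_of_mem_erase h)
    have hpq : p ≠ q := fun h => hqM (h ▸ hp)
    have hsub : M.erase p ⊆ Lg := (Finset.erase_subset _ _).trans hM1
    have h2 := B1 q hq (M.erase p) hsub hqe (by rw [h1]; linarith)
    rw [h1] at h2
    have h3 : ∑ r ∈ insert q (M.erase p), y r = y q + (∑ r ∈ M, y r - y p) := by
      rw [Finset.sum_insert hqe, h1]
    have h4 : 1 / 2 - c < ∑ r ∈ insert q (M.erase p), y r := by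
      by_contra h5
      push Not at h5
      have h6 : p ∉ insert q (M.erase p) := by
        rw [Finset.mem_insert]
        rintro (h | h)
        · exact hpq h
        · exact (Finset.notMem_erase p M) h
      have h7 := B1 p (hM1 hp) (insert q (M.erase p)) (Finset.insert_subset hq hsub) h6 h5
      rw [h3] at h7
      linarith
    rw [h3] at h4
    refine ⟨?_, (hMid _).mpr ⟨Finset.insert_subset hq hsub, ?_, ?_⟩⟩
    · rw [abs_le]
      constructor <;> linarith
    · rw [h3]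
      exact h4
    · rw [h3]
      linarith
  obtain ⟨M, hM⟩ := hex
  obtain ⟨hM1, hM2, hM3⟩ := (hMid M).mp hM
  have hMne : M.Nonempty := by
    by_contra h
    rw [Finset.not_nonempty_iff_eq_empty] at h
    rw [h, Finset.sum_empty] at hM2
    linarith
  obtain ⟨a, ha⟩ := hMne
  have hb : ∃ b ∈ Lg, b ∉ M := by
    by_contra h
    push Not at h
    have h1 : ∑ p ∈ Lg, y p ≤ ∑ p ∈ M, y p :=
      Finset.sum_le_sum_of_subset_of_nonneg h (fun p hp _ => hy p (hLgS (hM1 hp)))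
    linarith
  obtain ⟨b, hb, hbM⟩ := hb
  -- all large masses are about the same
  obtain ⟨y0, hy0⟩ : ∃ y0, y0 = y a := ⟨_, rfl⟩
  have hnear : ∀ r ∈ Lg, |y r - y0| ≤ 6 * c := by
    intro r hr
    have h1 := (swap M hM a ha b hb hbM).1
    rw [hy0]
    by_cases hrM : r ∈ M
    · have h2 := (swap M hM r hrM b hb hbM).1
      rw [abs_le] at h1 h2 ⊢
      constructor <;> linarith
    · have h2 := (swap M hM a ha r hr hrM).1
      rw [abs_le] at h2 ⊢
      constructor <;> linarith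
  -- the exponents are different
  have hdist0 : ∀ p ∈ Lg, ∀ q ∈ Lg, e p = e q → ∀ M', Mid M' → p ∈ M' → q ∉ M' → False := by
    intro p hp q hq heq M' hM' hpM hqM
    obtain ⟨h1, h2, h3⟩ := (hMid M').mp hM'
    have hpq : p ≠ q := fun h => hqM (h ▸ hpM)
    have h4 : ∑ r ∈ M'.erase p, y r = ∑ r ∈ M', y r - y p := by
      rw [← Finset.sum_erase_add M' y hpM]
      ring
    apply hP
    refine cls_typeP_of (T := {p, q}) (B := M'.erase p) (he p (hLgS hp)) (hexp p hp) ?_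
      ((Finset.erase_subset _ _).trans (h1.trans hLgS)) ?_ ?_ hsum ?_ ?_
    · intro r hr
      rw [Finset.mem_insert, Finset.mem_singleton] at hr
      rcases hr with rfl | rfl
      · exact hLgS hp
      · exact hLgS hq
    · rw [Finset.disjoint_left]
      intro r hr hr'
      rw [Finset.mem_insert, Finset.mem_singleton] at hr
      rcases hr with rfl | rfl
      · exact (Finset.notMem_erase _ _) hr'
      · exact hqM (Finset.mem_of_mem_erase hr')
    · intro r hr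
      rw [Finset.mem_insert, Finset.mem_singleton] at hr
      rcases hr with rfl | rfl
      · rfl
      · exact heq.symm
    · rw [h4]
      have := hLg p hp
      linarith
    · rw [h4, Finset.sum_pair hpq]
      have := hLg q hq
      linarith
  have hdist : ∀ p ∈ Lg, ∀ q ∈ Lg, e p = e q → p = q := by
    intro p hp q hq heq
    by_contra hpq
    by_cases hpM : p ∈ M
    · by_cases hqM : q ∈ M
      · have hqb : q ≠ b := fun h => hbM (h ▸ hqM)
        refine hdist0 p hp q hq heq _ (swap M hM q hqM b hb hbM).2 ?_ ?_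
        · exact Finset.mem_insert_of_mem (Finset.mem_erase.mpr ⟨hpq, hpM⟩)
        · rw [Finset.mem_insert]
          rintro (h | h)
          · exact hqb h
          · exact (Finset.notMem_erase _ _) h
      · exact hdist0 p hp q hq heq M hM hpM hqM
    · by_cases hqM : q ∈ M
      · exact hdist0 q hq p hp heq.symm M hM hqM hpM
      · refine hdist0 p hp q hq heq _ (swap M hM a ha p hp hpM).2 (Finset.mem_insert_self _ _) ?_
        rw [Finset.mem_insert]
        rintro (h | h)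
        · exact hpq h.symm
        · exact hqM (Finset.mem_of_mem_erase h)
  -- numbers
  obtain ⟨r, hr⟩ : ∃ r : ℕ, r = Lg.card := ⟨_, rfl⟩
  obtain ⟨i, hi⟩ : ∃ i : ℕ, i = M.card := ⟨_, rfl⟩
  have hir : i ≤ r := by rw [hi, hr]; exact Finset.card_le_card hM1
  have hi1 : 1 ≤ i := by
    rw [hi]
    exact Finset.card_pos.mpr ⟨a, ha⟩
  have hirR : (i : ℝ) ≤ r := by exact_mod_cast hir
  have hi0 : (0 : ℝ) ≤ i := Nat.cast_nonneg _
  have hr0 : (0 : ℝ) ≤ r := Nat.cast_nonneg _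
  have hLgsum1 : ∑ p ∈ Lg, y p ≤ r * (y0 + 6 * c) := by
    have := Finset.sum_le_card_nsmul Lg y (y0 + 6 * c) (fun p hp => by
      have := hnear p hp
      rw [abs_le] at this
      linarith)
    rwa [nsmul_eq_mul, ← hr] at this
  have hLgsum2 : r * (y0 - 6 * c) ≤ ∑ p ∈ Lg, y p := by
    have := Finset.card_nsmul_le_sum Lg y (y0 - 6 * c) (fun p hp => by
      have := hnear p hp
      rw [abs_le] at this
      linarith)
    rwa [nsmul_eq_mul, ← hr] at this
  have hMsum1 : ∑ p ∈ M, y p ≤ i * (y0 + 6 * c) := by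
    have := Finset.sum_le_card_nsmul M y (y0 + 6 * c) (fun p hp => by
      have := hnear p (hM1 hp)
      rw [abs_le] at this
      linarith)
    rwa [nsmul_eq_mul, ← hi] at this
  have hMsum2 : i * (y0 - 6 * c) ≤ ∑ p ∈ M, y p := by
    have := Finset.card_nsmul_le_sum M y (y0 - 6 * c) (fun p hp => by
      have := hnear p (hM1 hp)
      rw [abs_le] at this
      linarith)
    rwa [nsmul_eq_mul, ← hi] at this
  have hrη : r * η1 ≤ ∑ p ∈ Lg, y p := by
    have := Finset.card_nsmul_le_sum Lg y η1 (fun p hp => hLg p hp)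
    rwa [nsmul_eq_mul, ← hr] at this
  have hεr : (r : ℝ) * (6 * c) ≤ 2 / 5 * σ := by
    have h1 : (r : ℝ) * (6 * c) = (r * η1) * (3 / 8 * σ) := by rw [hη]; ring
    rw [h1]
    have h2 : r * η1 ≤ 1 + c := by linarith
    have h3 := mul_le_mul_of_nonneg_right h2 (by positivity : (0 : ℝ) ≤ 3 / 8 * σ)
    nlinarith
  have hεi : (i : ℝ) * (6 * c) ≤ 2 / 5 * σ :=
    (mul_le_mul_of_nonneg_right hirR (by positivity)).trans hεr
  have hry1 : (r : ℝ) * y0 ≤ 1 + c + 2 / 5 * σ := by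
    have : (r : ℝ) * (y0 - 6 * c) = r * y0 - r * (6 * c) := by ring
    linarith
  have hry2 : 1 - c - 7 / 5 * σ ≤ (r : ℝ) * y0 := by
    have : (r : ℝ) * (y0 + 6 * c) = r * y0 + r * (6 * c) := by ring
    linarith
  have hiy1 : (i : ℝ) * y0 ≤ 1 / 2 + 2 * c + 2 / 5 * σ := by
    have : (i : ℝ) * (y0 - 6 * c) = i * y0 - i * (6 * c) := by ring
    linarith
  have hiy2 : 1 / 2 - c - 2 / 5 * σ ≤ (i : ℝ) * y0 := by
    have : (i : ℝ) * (y0 + 6 * c) = i * y0 + i * (6 * c) := by ring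
    linarith
  -- the number of large primes
  have hcard := cls_card_sum (Lg.image e) (by
    intro n hn
    obtain ⟨p, hp, rfl⟩ := Finset.mem_image.mp hn
    exact he p (hLgS hp))
  rw [Finset.card_image_of_injOn (fun p hp q hq h => hdist p hp q hq h), ← hr,
    Finset.sum_image (fun p hp q hq h => hdist p hp q hq h)] at hcard
  have hcardR : (r : ℝ) * (r + 1) ≤ 2 * ∑ p ∈ Lg, (e p : ℝ) := by exact_mod_cast hcard
  have hELg : ∑ p ∈ Lg, (e p : ℝ) * y p ≤ K := by
    refine le_trans ?_ hE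
    apply Finset.sum_le_sum_of_subset_of_nonneg hLgS
    intro p hp _
    exact mul_nonneg (Nat.cast_nonneg _) (hy p hp)
  have hELg2 : (∑ p ∈ Lg, (e p : ℝ)) * (y0 - 6 * c) ≤ K := by
    refine le_trans ?_ hELg
    rw [Finset.sum_mul]
    apply Finset.sum_le_sum
    intro p hp
    apply mul_le_mul_of_nonneg_left _ (Nat.cast_nonneg _)
    have := hnear p hp
    rw [abs_le] at this
    linarith
  have hpos : 1 / 2 ≤ (r : ℝ) * (y0 - 6 * c) := by
    have : (r : ℝ) * (y0 - 6 * c) = r * y0 - r * (6 * c) := by ring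
    linarith
  have hy0c : 0 < y0 - 6 * c := by
    by_contra h
    push Not at h
    have := mul_nonpos_of_nonneg_of_nonpos hr0 h
    linarith
  have hrK : (r : ℝ) ≤ 4 * K := by
    have h1 : (r : ℝ) * (r + 1) * (y0 - 6 * c) ≤ 2 * K := by
      have := mul_le_mul_of_nonneg_right hcardR hy0c.le
      linarith
    have h2 : (r + 1 : ℝ) * (1 / 2) ≤ (r + 1) * (r * (y0 - 6 * c)) :=
      mul_le_mul_of_nonneg_left hpos (by linarith)
    nlinarith
  have hy0pos : 0 < y0 := by linarith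
  have hy0K : 1 ≤ 8 * K * y0 := by
    have h1 : (r : ℝ) * y0 ≤ 4 * K * y0 := mul_le_mul_of_nonneg_right hrK hy0pos.le
    linarith
  have hri : r = 2 * i := by
    have h1 : (2 * (i : ℝ) - r) * y0 < 23 / 10 * σ := by linarith
    have h2 : -(23 / 10 * σ) < (2 * (i : ℝ) - r) * y0 := by linarith
    have h3 : 23 / 10 * σ * (8 * K) < 1 := by linarith
    have h4 : (2 * (i : ℝ) - r) < 1 := by
      by_contra h
      push Not at h
      have h5 : y0 ≤ (2 * (i : ℝ) - r) * y0 := by nlinarith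
      nlinarith
    have h5 : -1 < (2 * (i : ℝ) - r) := by
      by_contra h
      push Not at h
      have h6 : (2 * (i : ℝ) - r) * y0 ≤ -y0 := by nlinarith
      nlinarith
    have h6 : (2 * (i : ℤ) - r) < 1 := by exact_mod_cast h4
    have h7 : -1 < (2 * (i : ℤ) - r) := by exact_mod_cast h5
    omega
  have hriR : (r : ℝ) = 2 * i := by exact_mod_cast hri
  have hi1R : (1 : ℝ) ≤ i := by exact_mod_cast hi1
  refine ⟨i, hi1, by linarith, Lg, hLgS, hr ▸ hri, ?_, hdist, ?_⟩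
  · intro p hp
    have h1 := hnear p hp
    have h2 : |y0 - 1 / (2 * i)| ≤ 3 / 2 * σ := by
      have h3 : y0 - 1 / (2 * (i : ℝ)) = (r * y0 - 1) / (2 * i) := by
        rw [hriR]
        field_simp
      rw [h3, abs_div, abs_of_pos (by positivity : (0 : ℝ) < 2 * i), div_le_iff₀ (by positivity)]
      have h4 : |(r : ℝ) * y0 - 1| ≤ 3 / 2 * σ := by
        rw [abs_le]
        constructor <;> linarith
      nlinarith
    rw [abs_le] at h1 h2 ⊢
    constructor <;> linarith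
  · have h1 : S \ Lg = Sm := by
      rw [← hS, Finset.union_sdiff_left]
      exact Finset.sdiff_eq_self_of_disjoint hdis.symm
    rw [h1]
    exact hs.le

/-- The classification. `1 / 2 + η ≤ 1`. -/
theorem cls_classify_aux {S : Finset ι} {y : ι → ℝ} {e : ι → ℕ} {K σ η1 η : ℝ} {L : ℕ} (hK : 1 ≤ K)
    (hσ : 0 < σ) (hσ1 : σ ≤ 1 / (40 * K)) (hη1 : η1 = σ ^ 2 / (80 * K))
    (hη : η = η1 * σ / 16) (hL : K / η1 ≤ L)
    (hy : ∀ p ∈ S, 0 ≤ y p) (he : ∀ p ∈ S, 1 ≤ e p)
    (hE : ∑ p ∈ S, (e p : ℝ) * y p ≤ K)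
    (hsum : |∑ p ∈ S, y p - 1| ≤ η) : TypeP S y e η L ∨ TypeTie S y e σ K := by
  classical
  have hK0 : 0 < K := by linarith
  have hσ2 : σ ≤ 1 / 40 := by
    refine hσ1.trans ?_
    rw [div_le_div_iff₀ (by positivity) (by norm_num)]
    linarith
  have hη10 : 0 < η1 := by rw [hη1]; positivity
  have hη1σ : η1 ≤ σ / 80 := by
    rw [hη1, div_le_div_iff₀ (by positivity) (by positivity)]
    nlinarith
  have hη0 : 0 < η := by rw [hη]; positivity
  have hηη : 3 * η ≤ η1 := by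
    rw [hη]
    nlinarith
  rw [abs_le] at hsum
  have hS : S.filter (fun p => η1 ≤ y p) ∪ S.filter (fun p => ¬ η1 ≤ y p) = S :=
    Finset.filter_union_filter_not_eq _ _
  have hdis : Disjoint (S.filter (fun p => η1 ≤ y p)) (S.filter (fun p => ¬ η1 ≤ y p)) :=
    Finset.disjoint_filter_filter_not _ _ _
  by_cases hs : σ ≤ ∑ p ∈ S.filter (fun p => ¬ η1 ≤ y p), y p
  · left
    refine cls_caseA hK hσ (by linarith) hη1 hη0 hη0.le (by linarith) hL ?_ hS hdis hy he hE
      (fun p hp => (not_le.mp (Finset.mem_filter.mp hp).2).le)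
      (fun p hp => (Finset.mem_filter.mp hp).2) (by linarith) (by linarith) hs
    refine le_trans ?_ hL
    rw [div_le_div_iff₀ hσ hη10]
    nlinarith
  · exact cls_caseB hK hσ hσ1 hη10 (by linarith) hη rfl hL hS hdis hy he hE
      (fun p hp => (Finset.mem_filter.mp hp).2) (by linarith) (by linarith) (not_le.mp hs)

/-- THE CLASSIFICATION (block 4), for the finite sets of odd primes. -/
theorem cls_classify {K σ : ℝ} (hK : 1 ≤ K) (hσ : 0 < σ) (hσ1 : σ ≤ 1 / (40 * K)) :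
    ∃ η : ℝ, 0 < η ∧ η ≤ σ ∧ ∃ L : ℕ, ∀ (S : Finset ℕ) (y : ℕ → ℝ) (e : ℕ → ℕ),
      (∀ p ∈ S, 0 ≤ y p) → (∀ p ∈ S, 1 ≤ e p) → ∑ p ∈ S, (e p : ℝ) * y p ≤ K →
      |∑ p ∈ S, y p - 1| ≤ η → TypeP S y e η L ∨ TypeTie S y e σ K := by
  have hK0 : 0 < K := by linarith
  refine ⟨σ ^ 2 / (80 * K) * σ / 16, by positivity, ?_, ⌈K / (σ ^ 2 / (80 * K))⌉₊, ?_⟩
  · have hσ2 : σ ≤ 1 / 40 := by
      refine hσ1.trans ?_
      rw [div_le_div_iff₀ (by positivity) (by norm_num)]
      linarith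
    have h1 : σ ^ 2 / (80 * K) ≤ 1 := by
      rw [div_le_one (by positivity)]
      nlinarith
    nlinarith [mul_le_mul_of_nonneg_right h1 hσ.le]
  · intro S y e hy he hE hsum
    exact cls_classify_aux hK hσ hσ1 rfl rfl (Nat.le_ceil _) hy he hE hsum

end Hp

end Pool.Agent.Lib.MP_d8bd92_nt
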