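import Pool.Agent.Lib.MP_d8bd92_nt.Hp.Preds
import Pool.Agent.Lib.MP_d8bd92_nt.Hp.ClsA

set_option autoImplicit false

/-! Block 4: the classification of the sides, from the abstract classification `cls_classify`. -/

namespace Pool.Agent.Lib.MP_d8bd92_nt

namespace Hp

open Finset Pool.Agent.Lib.Szpiro

/-- the part of `n` composed of the primes in `U` -/
private noncomputable def prt (n : ℕ) (U : Finset ℕ) : ℕ := ∏ p ∈ U, p ^ n.factorization p

private lemma prt_union {n : ℕ} {U V : Finset ℕ} (h : Disjoint U V) :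
    prt n (U ∪ V) = prt n U * prt n V := by
  unfold prt
  exact Finset.prod_union h

private lemma prime_dvd_prt {n : ℕ} {U : Finset ℕ} (hU : U ⊆ n.primeFactors) {q : ℕ} (hq : q.Prime)
    (h : q ∣ prt n U) : q ∈ U := by
  unfold prt at h
  obtain ⟨p, hp, h1⟩ := (hq.prime.dvd_finsetProd_iff _).mp h
  have h2 := hq.dvd_of_dvd_pow h1
  rw [(Nat.prime_dvd_prime_iff_eq hq (Nat.prime_of_mem_primeFactors (hU hp))).mp h2]
  exact hp

private lemma coprime_prt {n : ℕ} {U V : Finset ℕ} (hU : U ⊆ n.primeFactors)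
    (hV : V ⊆ n.primeFactors) (h : Disjoint U V) : Nat.Coprime (prt n U) (prt n V) := by
  apply Nat.coprime_of_dvd
  intro q hq h1 h2
  exact Finset.disjoint_left.mp h (prime_dvd_prt hU hq h1) (prime_dvd_prt hV hq h2)

/-- the product of the primes in `U` -/
private lemma prime_dvd_prod {n : ℕ} {U : Finset ℕ} (hU : U ⊆ n.primeFactors) {q : ℕ} (hq : q.Prime)
    (h : q ∣ ∏ p ∈ U, p) : q ∈ U := by
  obtain ⟨p, hp, h1⟩ := (hq.prime.dvd_finsetProd_iff _).mp h
  rw [(Nat.prime_dvd_prime_iff_eq hq (Nat.prime_of_mem_primeFactors (hU hp))).mp h1]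
  exact hp

private lemma sqfree_prod {n : ℕ} (U : Finset ℕ) (hU : U ⊆ n.primeFactors) :
    Squarefree (∏ p ∈ U, p) := by
  induction U using Finset.induction_on with
  | empty => simp
  | insert q U hq ih =>
    rw [Finset.prod_insert hq]
    have hqp := Nat.prime_of_mem_primeFactors (hU (Finset.mem_insert_self _ _))
    have hU' : U ⊆ n.primeFactors := (Finset.subset_insert _ _).trans hU
    rw [Nat.squarefree_mul_iff]
    refine ⟨?_, hqp.squarefree, ih hU'⟩
    rw [hqp.coprime_iff_not_dvd]
    exact fun h => hq (prime_dvd_prod hU' hqp h)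

private lemma rd_prt_le {n : ℕ} {U : Finset ℕ} (hU : U ⊆ n.primeFactors) :
    rd (prt n U) ≤ ∏ p ∈ U, p := by
  unfold rd
  apply Finset.prod_le_prod_of_subset_of_one_le'
  · intro q hq
    have h1 := Nat.mem_primeFactors.mp hq
    exact prime_dvd_prt hU h1.1 h1.2.1
  · intro p hp _
    exact (Nat.prime_of_mem_primeFactors (hU hp)).one_lt.le

private lemma log_prod_primes {n : ℕ} {U : Finset ℕ} (hU : U ⊆ n.primeFactors) :
    Real.log ((∏ p ∈ U, p : ℕ) : ℝ) = ∑ p ∈ U, Real.log p := by
  push_cast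
  apply Real.log_prod
  intro p hp
  exact_mod_cast (Nat.prime_of_mem_primeFactors (hU hp)).ne_zero

/-- `N ≤ Y ^ c` from logarithms -/
private lemma le_rpow_of_log {N : ℕ} {Y c : ℝ} (hN : 0 < N) (hY : 0 < Y)
    (h : Real.log N ≤ c * Real.log Y) : (N : ℝ) ≤ Y ^ c := by
  have hN' : (0 : ℝ) < N := by exact_mod_cast hN
  rw [Real.rpow_def_of_pos hY, ← Real.log_le_iff_le_exp hN', mul_comm]
  exact h

private lemma rpow_le_of_log {N : ℕ} {Y c : ℝ} (hN : 0 < N) (hY : 0 < Y)
    (h : c * Real.log Y ≤ Real.log N) : Y ^ c ≤ (N : ℝ) := by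
  have hN' : (0 : ℝ) < N := by exact_mod_cast hN
  rw [Real.rpow_def_of_pos hY, ← Real.le_log_iff_exp_le hN', mul_comm]
  exact h

/-- `n` is its `2`-part times the odd part -/
private lemma two_part {n : ℕ} (hn : n ≠ 0) :
    n = 2 ^ n.factorization 2 * prt n (n.primeFactors.erase 2) := by
  have h1 : ∏ p ∈ n.primeFactors, p ^ n.factorization p = n := by
    have := Nat.prod_factorization_pow_eq_self hn
    rwa [Finsupp.prod, Nat.support_factorization] at this
  unfold prt
  by_cases h2 : 2 ∈ n.primeFactors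
  · rw [Finset.mul_prod_erase n.primeFactors (fun p => p ^ n.factorization p) h2, h1]
  · rw [Finset.erase_eq_of_notMem h2, h1]
    have h3 : n.factorization 2 = 0 := by
      rw [← Finsupp.notMem_support_iff, Nat.support_factorization]
      exact h2
    rw [h3, pow_zero, one_mul]

private lemma odd_of_no_two {n : ℕ} {U : Finset ℕ} (hU : U ⊆ n.primeFactors) (h2 : 2 ∉ U) :
    Odd (prt n U) := by
  rw [← Nat.not_even_iff_odd, even_iff_two_dvd]
  exact fun h => h2 (prime_dvd_prt hU Nat.prime_two h)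

theorem classification (K : ℝ) (hK : 2 ≤ K) : ∃ J L1 : ℕ, ∀ σ : ℝ, 0 < σ → ∃ (η κ Y0 : ℝ) (L : ℕ), 0 < η ∧ 0 < κ ∧ 1 ≤ Y0 ∧
    ∀ Y : ℝ, Y0 ≤ Y → ∀ x : ℤ, x ≠ 0 → (x.natAbs : ℝ) ≤ Y ^ K → Y ^ (1 / 2 - κ) ≤ (rd x.natAbs : ℝ) →
      (rd x.natAbs : ℝ) ≤ Y ^ (1 / 2 + κ) →
      IsP η L Y x ∨ ∃ j : ℕ, 1 ≤ j ∧ j ≤ J ∧ ∃ l : Fin (2 * j) → ℕ, StrictMono l ∧ (∀ i, 1 ≤ l i) ∧ (∀ i, l i ≤ L1) ∧
        IsTie σ j l Y x := by
  refine ⟨⌈4 * K⌉₊, ⌈32 * K ^ 2⌉₊, fun σ hσ => ?_⟩
  have hK0 : 0 < K := by linarith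
  obtain ⟨τ, hτ⟩ : ∃ τ, τ = min (σ / 2) (1 / (80 * K)) := ⟨_, rfl⟩
  have hτ0 : 0 < τ := by
    rw [hτ]
    exact lt_min (by positivity) (by positivity)
  have hτσ : τ ≤ σ / 2 := by rw [hτ]; exact min_le_left _ _
  have hτK : τ ≤ 1 / (80 * K) := by rw [hτ]; exact min_le_right _ _
  obtain ⟨η, hη0, hητ, L, hmain⟩ := cls_classify (K := 2 * K) (σ := τ) (by linarith) hτ0
    (by rw [show 40 * (2 * K) = 80 * K by ring]; exact hτK)
  refine ⟨η / 2, η / 4, Real.exp (4 * Real.log 2 / η + 2 * Real.log 2 / σ + 1), L, by positivity,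
    by positivity, ?_, ?_⟩
  · rw [← Real.exp_zero]
    apply Real.exp_le_exp.mpr
    have := Real.log_pos (by norm_num : (1 : ℝ) < 2)
    positivity
  intro Y hY x hx0 hxK hr1 hr2
  have hl2 := Real.log_pos (by norm_num : (1 : ℝ) < 2)
  have hY0 : 0 < Y := lt_of_lt_of_le (Real.exp_pos _) hY
  have hlogY : 4 * Real.log 2 / η + 2 * Real.log 2 / σ + 1 ≤ Real.log Y := by
    rw [← Real.exp_le_exp, Real.exp_log hY0]
    exact hY
  obtain ⟨T, hT⟩ : ∃ T, T = Real.log Y := ⟨_, rfl⟩
  rw [← hT] at hlogY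
  have hT0 : 0 < T := by
    have : 0 < 4 * Real.log 2 / η + 2 * Real.log 2 / σ + 1 := by positivity
    linarith only [this, hlogY]
  have hT1 : Real.log 2 ≤ η / 4 * T := by
    have h1 : 4 * Real.log 2 / η ≤ T := by
      have : 0 < 2 * Real.log 2 / σ := by positivity
      linarith only [this, hlogY]
    rw [div_le_iff₀ hη0] at h1
    linarith only [h1]
  have hT2 : Real.log 2 ≤ σ / 2 * T := by
    have h1 : 2 * Real.log 2 / σ ≤ T := by
      have : 0 < 4 * Real.log 2 / η := by positivity
      linarith only [this, hlogY]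
    rw [div_le_iff₀ hσ] at h1
    linarith only [h1]
  obtain ⟨n, hn⟩ : ∃ n, n = x.natAbs := ⟨_, rfl⟩
  rw [← hn] at hxK hr1 hr2
  have hn0 : n ≠ 0 := by rw [hn]; exact Int.natAbs_ne_zero.mpr hx0
  have hnpos : (0 : ℝ) < n := by exact_mod_cast Nat.pos_of_ne_zero hn0
  have hrpos : (0 : ℝ) < (rd n : ℝ) := by exact_mod_cast rd_pos n
  -- logarithms of the hypotheses
  have hlogn : Real.log n ≤ K * T := by
    have := Real.log_le_log hnpos hxK
    rwa [Real.log_rpow hY0, ← hT] at this
  have hlogr1 : (1 / 2 - η / 4) * T ≤ Real.log (rd n) := by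
    have := Real.log_le_log (Real.rpow_pos_of_pos hY0 _) hr1
    rwa [Real.log_rpow hY0, ← hT] at this
  have hlogr2 : Real.log (rd n) ≤ (1 / 2 + η / 4) * T := by
    have := Real.log_le_log hrpos hr2
    rwa [Real.log_rpow hY0, ← hT] at this
  -- the primes
  obtain ⟨S, hS⟩ : ∃ S, S = n.primeFactors.erase 2 := ⟨_, rfl⟩
  have hSn : S ⊆ n.primeFactors := hS ▸ Finset.erase_subset _ _
  have hS2 : 2 ∉ S := hS ▸ Finset.notMem_erase _ _
  have hlp : ∀ p ∈ n.primeFactors, 0 ≤ Real.log p := fun p hp =>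
    Real.log_natCast_nonneg p
  have hrdS : Real.log (rd n) = ∑ p ∈ n.primeFactors, Real.log p := by
    unfold rd
    exact log_prod_primes (Finset.Subset.refl _)
  have hsumS1 : ∑ p ∈ S, Real.log p ≤ Real.log (rd n) := by
    rw [hrdS]
    exact Finset.sum_le_sum_of_subset_of_nonneg hSn (fun p hp _ => hlp p hp)
  have hsumS2 : Real.log (rd n) ≤ ∑ p ∈ S, Real.log p + Real.log 2 := by
    rw [hrdS, hS]
    by_cases h2 : 2 ∈ n.primeFactors
    · rw [← Finset.sum_erase_add _ _ h2]
      push_cast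
      exact le_refl _
    · rw [Finset.erase_eq_of_notMem h2]
      exact le_add_of_nonneg_right hl2.le
  have hE : ∑ p ∈ S, (n.factorization p : ℝ) * Real.log p ≤ Real.log n := by
    rw [Real.log_nat_eq_sum_factorization, Finsupp.sum, Nat.support_factorization]
    exact Finset.sum_le_sum_of_subset_of_nonneg hSn
      (fun p hp _ => mul_nonneg (Nat.cast_nonneg _) (hlp p hp))
  obtain ⟨y, hy⟩ : ∃ y : ℕ → ℝ, ∀ p, y p = 2 * Real.log p / T := ⟨_, fun p => rfl⟩
  have hylog : ∀ p : ℕ, Real.log (p : ℝ) = y p * T / 2 := by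
    intro p
    rw [hy]
    field_simp
  have hysum : ∀ U : Finset ℕ, ∑ p ∈ U, Real.log (p : ℝ) = (∑ p ∈ U, y p) * T / 2 := by
    intro U
    rw [Finset.sum_mul, Finset.sum_div]
    exact Finset.sum_congr rfl fun p _ => hylog p
  have hy0 : ∀ p ∈ S, 0 ≤ y p := by
    intro p hp
    rw [hy]
    have := hlp p (hSn hp)
    positivity
  have he1 : ∀ p ∈ S, 1 ≤ n.factorization p := by
    intro p hp
    have h1 := Nat.mem_primeFactors.mp (hSn hp)
    exact (h1.1.dvd_iff_one_le_factorization hn0).mp h1.2.1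
  have hEy : ∑ p ∈ S, (n.factorization p : ℝ) * y p ≤ 2 * K := by
    have h1 : ∑ p ∈ S, (n.factorization p : ℝ) * Real.log p =
        (∑ p ∈ S, (n.factorization p : ℝ) * y p) * T / 2 := by
      rw [Finset.sum_mul, Finset.sum_div]
      refine Finset.sum_congr rfl fun p _ => ?_
      rw [hylog p]
      ring
    rw [h1] at hE
    by_contra h2
    push Not at h2
    have := mul_lt_mul_of_pos_right h2 hT0
    linarith only [this, hE, hlogn]
  have hSy : |∑ p ∈ S, y p - 1| ≤ η := by
    have h1 := hysum S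
    rw [abs_le]
    constructor
    · by_contra h2
      push Not at h2
      have := mul_lt_mul_of_pos_right h2 hT0
      linarith only [this, h1, hsumS2, hlogr1, hT1]
    · by_contra h2
      push Not at h2
      have := mul_lt_mul_of_pos_right h2 hT0
      have h3 := mul_pos hη0 hT0
      linarith only [this, h1, hsumS1, hlogr2, h3]
  have h2part := two_part hn0
  rw [← hS] at h2part
  rcases hmain S y n.factorization hy0 he1 hEy hSy with hP | hTie
  · left
    obtain ⟨l, hl1, hl2, U, A, B, hU, hd1, hd2, hUl, hA, hB⟩ := hP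
    have hUS : U ⊆ S := hU ▸ Finset.subset_union_left
    have hABS : A ∪ B ⊆ S := hU ▸ Finset.subset_union_right
    have hAS : A ⊆ S := Finset.subset_union_left.trans hABS
    have hBS : B ⊆ S := Finset.subset_union_right.trans hABS
    have hAn := hAS.trans hSn
    have hBn := hBS.trans hSn
    have hUn := hUS.trans hSn
    have hUA : Disjoint U A := hd1.mono_right Finset.subset_union_left
    have hUB : Disjoint U B := hd1.mono_right Finset.subset_union_right
    have hprtU : prt n U = (∏ p ∈ U, p) ^ l := by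
      unfold prt
      rw [← Finset.prod_pow]
      exact Finset.prod_congr rfl fun p hp => by rw [hUl p hp]
    have hcop : ∀ V : Finset ℕ, V ⊆ n.primeFactors → Disjoint U V →
        Nat.Coprime (prt n V) (∏ p ∈ U, p) := by
      intro V hV hd
      apply Nat.coprime_of_dvd
      intro q hq h1 h2
      exact Finset.disjoint_left.mp hd (prime_dvd_prod hUn hq h2) (prime_dvd_prt hV hq h1)
    have hodd : Odd (∏ p ∈ U, p) := by
      rw [← Nat.not_even_iff_odd, even_iff_two_dvd]
      exact fun h => hS2 (hUS (prime_dvd_prod hUn Nat.prime_two h))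
    have hbound : ∀ V : Finset ℕ, V ⊆ n.primeFactors → ∑ p ∈ V, y p ≤ 1 / 2 - η →
        (rd (prt n V) : ℝ) ≤ Y ^ (1 / 4 - η / 2) := by
      intro V hV h1
      have h2 : ((rd (prt n V) : ℕ) : ℝ) ≤ ((∏ p ∈ V, p : ℕ) : ℝ) := by
        exact_mod_cast rd_prt_le hV
      refine h2.trans (le_rpow_of_log ?_ hY0 ?_)
      · exact Finset.prod_pos fun p hp => (Nat.prime_of_mem_primeFactors (hV hp)).pos
      · rw [log_prod_primes hV, hysum V, ← hT]
        have := mul_le_mul_of_nonneg_right h1 hT0.le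
        linarith only [this]
    refine ⟨n.factorization 2, prt n A, prt n B, ∏ p ∈ U, p, l, ?_, hl1, hl2,
      odd_of_no_two hAn (fun h => hS2 (hAS h)), odd_of_no_two hBn (fun h => hS2 (hBS h)), hodd,
      coprime_prt hAn hBn hd2, hcop A hAn hUA, hcop B hBn hUB, sqfree_prod U hUn,
      hbound A hAn hA, hbound B hBn hB⟩
    rw [← hn]
    conv_lhs => rw [h2part, ← hU, prt_union hd1, prt_union hd2, hprtU]
    ring
  · right
    obtain ⟨j, hj1, hj2, Q, hQS, hQc, hQy, hQe, hdust⟩ := hTie
    have hQn := hQS.trans hSn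
    have hj1R : (1 : ℝ) ≤ j := by exact_mod_cast hj1
    have hj0 : (0 : ℝ) < j := lt_of_lt_of_le one_pos hj1R
    have hjK : (j : ℝ) ≤ 4 * K := by linarith only [hj2]
    have h4j : 3 * τ ≤ 1 / (4 * j) := by
      have h1 : 1 / (16 * K) ≤ 1 / (4 * (j : ℝ)) := by
        apply one_div_le_one_div_of_le (by positivity)
        linarith only [hjK]
      have h2 : 3 * (1 / (80 * K)) ≤ 1 / (16 * K) := by
        rw [mul_one_div, div_le_div_iff₀ (by positivity) (by positivity)]
        linarith only [hK0]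
      linarith only [h1, h2, hτK]
    have hhalf : 1 / (2 * (j : ℝ)) = 2 * (1 / (4 * j)) := by
      field_simp
      norm_num
    -- the exponents in increasing order
    have hcard : (Q.image n.factorization).card = 2 * j := by
      rw [Finset.card_image_of_injOn (fun p hp q hq h => hQe p hp q hq h), hQc]
    obtain ⟨l, hl⟩ : ∃ l : Fin (2 * j) → ℕ,
        l = (Q.image n.factorization).orderEmbOfFin hcard := ⟨_, rfl⟩
    have hlmono : StrictMono l := by
      rw [hl]
      exact OrderEmbedding.strictMono _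
    have hlmem : ∀ i, l i ∈ Q.image n.factorization := by
      intro i
      rw [hl]
      exact Finset.orderEmbOfFin_mem _ hcard i
    have hlp' : ∀ i, ∃ p ∈ Q, n.factorization p = l i := by
      intro i
      exact Finset.mem_image.mp (hlmem i)
    choose p hpQ hpl using hlp'
    have hpinj : Function.Injective p := by
      intro a b hab
      apply hlmono.injective
      rw [← hpl a, ← hpl b, hab]
    have himage : Finset.univ.image p = Q := by
      apply Finset.eq_of_subset_of_card_le
      · intro q hq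
        obtain ⟨i, _, rfl⟩ := Finset.mem_image.mp hq
        exact hpQ i
      · rw [Finset.card_image_of_injective _ hpinj, Finset.card_univ, Fintype.card_fin, hQc]
    have hprod : ∏ i, p i ^ l i = prt n Q := by
      unfold prt
      rw [← himage, Finset.prod_image (fun a _ b _ h => hpinj h)]
      exact Finset.prod_congr rfl fun i _ => by rw [hpl i]
    refine ⟨j, hj1, ?_, l, hlmono, ?_, ?_, ?_⟩
    · have : (j : ℝ) ≤ (⌈4 * K⌉₊ : ℝ) := hjK.trans (Nat.le_ceil _)
      exact_mod_cast this
    · intro i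
      rw [← hpl i]
      exact he1 _ (hQS (hpQ i))
    · intro i
      have h1 : (1 / (4 * (j : ℝ))) ≤ y (p i) := by
        have := hQy (p i) (hpQ i)
        rw [abs_le, hhalf] at this
        linarith only [this.1, h4j]
      have h2 := cls_exp_le (e := n.factorization) hy0 hEy (a := 1 / (4 * (j : ℝ))) (by positivity)
        (hQS (hpQ i)) h1
      rw [hpl i] at h2
      have h3 : 2 * K / (1 / (4 * (j : ℝ))) = 8 * K * j := by
        field_simp
        ring
      rw [h3] at h2
      have h4 : 8 * K * j ≤ 32 * K ^ 2 := by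
        have h5 := mul_le_mul_of_nonneg_left hjK (by positivity : (0 : ℝ) ≤ 8 * K)
        linarith only [h5]
      have : (l i : ℝ) ≤ (⌈32 * K ^ 2⌉₊ : ℝ) := (h2.trans h4).trans (Nat.le_ceil _)
      exact_mod_cast this
    · refine ⟨2 ^ n.factorization 2 * prt n (S \ Q), p, ?_, fun i =>
        Nat.prime_of_mem_primeFactors (hQn (hpQ i)), hpinj, ?_, ?_, ?_⟩
      · rw [← hn, hprod, mul_assoc, ← prt_union Finset.sdiff_disjoint, Finset.sdiff_union_of_subset hQS]
        exact h2part
      · intro i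
        have hpp := Nat.prime_of_mem_primeFactors (hQn (hpQ i))
        apply Nat.Coprime.symm
        rw [hpp.coprime_iff_not_dvd]
        intro h
        rcases hpp.dvd_mul.mp h with h1 | h1
        · have h2 := (Nat.prime_dvd_prime_iff_eq hpp Nat.prime_two).mp (hpp.dvd_of_dvd_pow h1)
          exact hS2 (h2 ▸ hQS (hpQ i))
        · have h2 := prime_dvd_prt (Finset.sdiff_subset.trans hSn) hpp h1
          exact (Finset.mem_sdiff.mp h2).2 (hpQ i)
      · have hw : rd (2 ^ n.factorization 2 * prt n (S \ Q)) ≤ 2 * ∏ p ∈ S \ Q, p := by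
          unfold rd
          have h1 : (2 ^ n.factorization 2 * prt n (S \ Q)).primeFactors ⊆ insert 2 (S \ Q) := by
            intro q hq
            have h2 := Nat.mem_primeFactors.mp hq
            rw [Finset.mem_insert]
            rcases h2.1.dvd_mul.mp h2.2.1 with h3 | h3
            · left
              exact (Nat.prime_dvd_prime_iff_eq h2.1 Nat.prime_two).mp (h2.1.dvd_of_dvd_pow h3)
            · right
              exact prime_dvd_prt (Finset.sdiff_subset.trans hSn) h2.1 h3
          refine (Finset.prod_le_prod_of_subset_of_one_le' h1 ?_).trans ?_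
          · intro q hq _
            rcases Finset.mem_insert.mp hq with rfl | h3
            · norm_num
            · exact (Nat.prime_of_mem_primeFactors (hSn (Finset.mem_sdiff.mp h3).1)).one_lt.le
          · rw [Finset.prod_insert (fun h => hS2 (Finset.mem_sdiff.mp h).1)]
        have hw' : ((rd (2 ^ n.factorization 2 * prt n (S \ Q)) : ℕ) : ℝ) ≤
            ((2 * ∏ p ∈ S \ Q, p : ℕ) : ℝ) := by exact_mod_cast hw
        have hpos : 0 < ∏ p ∈ S \ Q, p := Finset.prod_pos fun p hp =>
          (Nat.prime_of_mem_primeFactors (hSn (Finset.mem_sdiff.mp hp).1)).pos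
        refine hw'.trans (le_rpow_of_log (by positivity) hY0 ?_)
        have hposR : (0 : ℝ) < ((∏ p ∈ S \ Q, p : ℕ) : ℝ) := by exact_mod_cast hpos
        rw [Nat.cast_mul, Real.log_mul (by norm_num) hposR.ne',
          log_prod_primes (Finset.sdiff_subset.trans hSn), hysum, ← hT]
        push_cast
        have h1 := mul_le_mul_of_nonneg_right hdust hT0.le
        have h2 := mul_le_mul_of_nonneg_right hτσ hT0.le
        have h3 := mul_pos hσ hT0
        linarith only [h1, h2, h3, hT2]
      · intro i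
        have hpp := Nat.prime_of_mem_primeFactors (hQn (hpQ i))
        have h1 := hQy (p i) (hpQ i)
        rw [abs_le, hhalf] at h1
        have h2 := mul_le_mul_of_nonneg_right h1.1 hT0.le
        have h3 := mul_le_mul_of_nonneg_right h1.2 hT0.le
        have h4 := mul_le_mul_of_nonneg_right hτσ hT0.le
        have h5 := hylog (p i)
        have h6 : 0 < σ * T := by positivity
        constructor
        · apply rpow_le_of_log hpp.pos hY0
          rw [← hT]
          linarith only [h2, h3, h4, h5, h6]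
        · apply le_rpow_of_log hpp.pos hY0
          rw [← hT]
          linarith only [h2, h3, h4, h5, h6]

end Hp

end Pool.Agent.Lib.MP_d8bd92_nt
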