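import Pool.Agent.Lib.MP_d8bd92_nt.Hp.AlM

set_option autoImplicit false

/-!
MP_d8bd92_nt, block few_ev: definition of the families of pairs.
-/

namespace Pool.Agent.Lib.MP_d8bd92_nt

namespace Hp

open Finset Pool.Agent.Lib.Szpiro

/-- Pairs `(x, y)` with the same fixed side `y = f ^ 2 D`; `x = ± v * W ^ g`, with the same dust `v` and the same dust label `Q`. -/
structure EvPairs (D y : ℤ) (f g v : ℕ) (S : Finset ℤ) (Wn : ℤ → ℕ) (Q : Ideal (ℤ√D)) : Prop where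
  hD : Squarefree D
  hD1 : D ≠ 1
  hf : 1 ≤ f
  hy : y = (f : ℤ) ^ 2 * D
  nz : ∀ x ∈ S, x ≠ 0
  cop : ∀ x ∈ S, IsCoprime x y
  sq : ∀ x ∈ S, ∃ k : ℤ, x + y = k ^ 2
  dy : ∀ x ∈ S, ∀ x' ∈ S, x.natAbs ≤ 2 * x'.natAbs ∧ (0 < x ↔ 0 < x')
  fac : ∀ x ∈ S, x.natAbs = v * Wn x ^ g ∧ Odd (Wn x) ∧ Nat.Coprime v (Wn x)
  lab : ∀ x ∈ S, lbl v (el D (x, y) f) = Q

end Hp

end Pool.Agent.Lib.MP_d8bd92_nt
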