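import Pool.Agent.Lib.MP_d8bd92_nt.Hp.BS0
import Pool.Agent.Lib.MP_d8bd92_nt.Hp.EvPairs

set_option autoImplicit false

/-!
MP_d8bd92_nt, block few_ev, file EvM: the family of pairs of a side.
-/

namespace Pool.Agent.Lib.MP_d8bd92_nt

namespace Hp

open Finset Pool.Agent.Lib.Szpiro

theorem TieSide.evPairs {K τ κ3 Y : ℝ} {l m : Fin (2 * 1) → ℕ} {D : ℤ} {f w ℓ : ℕ} {sg y : ℤ} {S : Finset ℤ}
    {p q : ℤ → ℕ} (h : TieSide K τ κ3 Y l m D f w ℓ sg y S p q) (g : ℕ) (hg : 1 ≤ g) (h0 : g ∣ l 0) (h1 : g ∣ l 1)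
    {x0 : ℤ} (hx0 : x0 ∈ S) :
    EvPairs D y f g w S (fun x => p x ^ (l 0 / g) * q x ^ (l 1 / g)) (lbl w (el D (x0, y) f)) := by
  have habs : ∀ x ∈ S, x.natAbs = w * p x ^ l 0 * q x ^ l 1 := by
    intro x hx
    have h2 := h.nrm x hx
    have h3 : sg.natAbs = 1 := by
      rcases h.hsg with hs | hs <;> rw [hs] <;> rfl
    have h4 := congrArg Int.natAbs h2
    rw [Int.natAbs_mul, h3, one_mul, Int.natAbs_natCast] at h4
    exact h4
  have hpos : ∀ x ∈ S, 0 < w * p x ^ l 0 * q x ^ l 1 := by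
    intro x hx
    have h2 := (h.pp x hx).1.pos
    have h3 := (h.qq x hx).1.pos
    have h4 := h.hw
    positivity
  refine ⟨h.hD, h.hD1, h.hf, h.hy, ?_, h.cop, h.sq, ?_, ?_, fun x hx => h.lab x hx x0 hx0⟩
  · intro x hx hx00
    have h2 := habs x hx
    have h3 := hpos x hx
    rw [hx00] at h2
    simp only [Int.natAbs_zero] at h2
    rw [hx00] at h3
    omega
  · intro x hx x' hx'
    refine ⟨h.dy x hx x' hx', ?_⟩
    have h2 : (0 : ℤ) < ((w * p x ^ l 0 * q x ^ l 1 : ℕ) : ℤ) := by exact_mod_cast hpos x hx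
    have h3 : (0 : ℤ) < ((w * p x' ^ l 0 * q x' ^ l 1 : ℕ) : ℤ) := by exact_mod_cast hpos x' hx'
    have h4 := h.nrm x hx
    have h5 := h.nrm x' hx'
    rcases h.hsg with hs | hs
    · rw [hs, one_mul] at h4 h5
      constructor
      · intro _
        rw [h5]
        exact h3
      · intro _
        rw [h4]
        exact h2
    · rw [hs, neg_one_mul] at h4 h5
      constructor
      · intro h6
        exfalso
        rw [h4] at h6
        linarith
      · intro h6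
        exfalso
        rw [h5] at h6
        linarith
  · intro x hx
    obtain ⟨hp, hpo, hpw, -, -⟩ := h.pp x hx
    obtain ⟨hq, hqo, hqw, -, -⟩ := h.qq x hx
    refine ⟨?_, ?_, ?_⟩
    · rw [habs x hx, mul_pow, ← pow_mul, ← pow_mul, Nat.div_mul_cancel h0, Nat.div_mul_cancel h1, mul_assoc]
    · exact (hpo.pow).mul hqo.pow
    · exact Nat.Coprime.mul_right (Nat.Coprime.pow_right _ hpw) (Nat.Coprime.pow_right _ hqw)

end Hp

end Pool.Agent.Lib.MP_d8bd92_nt
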