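import Pool.Agent.Lib.MP_d8bd92_nt.Hp.Extract2
import Pool.Agent.Lib.MP_d8bd92_nt.Hp.BetaFin

set_option autoImplicit false

/-! Block 6.6: the beta trick. -/

namespace Pool.Agent.Lib.MP_d8bd92_nt

namespace Hp

open Finset Pool.Agent.Lib.Szpiro

/-- two ties: many fixed sides with many small split primes -/
theorem tie_side (K ε0 : ℝ) (hK : 2 ≤ K) (he0 : -1 / 100 ≤ ε0) (l m : Fin (2 * 1) → ℕ) (hl : ∀ i, 1 ≤ l i)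
    (hm0 : Odd (m 0)) (hm1 : Odd (m 1)) (κ3 : ℝ) (h3 : 0 < κ3) (h3' : κ3 ≤ 1 / 6) (τ : ℝ) (hτ : 0 < τ) (hτ1 : τ ≤ 1 / 100) :
    ∃ σ : ℝ, 0 < σ ∧ ∀ Y0 : ℝ, ∃ C δ : ℝ, 0 < C ∧ 0 < δ ∧ ∀ Y : ℝ, 1 ≤ Y → ∀ P : Finset (ℤ × ℤ),
      (∀ v ∈ P, v ∈ PairSet K ε0 Y ∧ IsTie σ 1 l Y v.1 ∧ IsTie σ 1 m Y v.2) → C * Y ^ (3 / 4 - δ) < (P.card : ℝ) →
      Y0 ≤ Y ∧ ∃ (D : ℤ) (f w ℓ : ℕ) (sg y : ℤ) (S : Finset ℤ) (p q : ℤ → ℕ),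
        TieSide K τ κ3 Y l m D f w ℓ sg y S p q :=
  tie_side_of K ε0 hK (fun κ hκ => extraction K ε0 κ hK he0 hκ) (fun κ hκ hκ1 => critical K ε0 κ hK he0 hκ hκ1)
    l m hl hm0 hm1 κ3 h3 h3' τ hτ hτ1

/-- beta trick: fixed side `y = p'^(m 0) q'^(m 1) w'`, both exponents odd, not (1,3) -/
theorem few_beta (K ε0 : ℝ) (hK : 2 ≤ K) (he0 : -1 / 100 ≤ ε0) (l m : Fin (2 * 1) → ℕ) (hl : ∀ i, 1 ≤ l i) (hl01 : l 0 < l 1)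
    (hcop : Nat.Coprime (l 0) (l 1)) (hm0 : Odd (m 0)) (hm1 : Odd (m 1)) (hm : m 0 < m 1) (hm5 : 5 ≤ m 1) :
    ∃ σ : ℝ, 0 < σ ∧ Few K ε0 (fun Y w => IsTie σ 1 l Y w.1 ∧ IsTie σ 1 m Y w.2) :=
  few_beta_of K ε0 hK (fun κ hκ => extraction K ε0 κ hK he0 hκ) (fun κ hκ hκ1 => critical K ε0 κ hK he0 hκ hκ1)
    l m hl hl01 hcop hm0 hm1 hm hm5

end Hp

end Pool.Agent.Lib.MP_d8bd92_nt
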