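import Pool.Agent.Lib.MP_d8bd92_nt.Hp.EvS
import Pool.Agent.Lib.MP_d8bd92_nt.Hp.EvM
import Pool.Agent.Lib.MP_d8bd92_nt.Hp.FewBeta

set_option autoImplicit false

/-!
MP_d8bd92_nt, block few_ev: the theorem.
-/

namespace Pool.Agent.Lib.MP_d8bd92_nt

namespace Hp

open Finset Pool.Agent.Lib.Szpiro

/-- The contradiction for one side. -/
theorem ev_contra (K : ℝ) (hK : 2 ≤ K) (l m : Fin (2 * 1) → ℕ) (hg3 : 3 ≤ Nat.gcd (l 0) (l 1))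
    (hodd : Odd (Nat.gcd (l 0) (l 1))) : ∃ κ3 τ Y0 : ℝ, 0 < κ3 ∧ κ3 ≤ 1 / 6 ∧ 0 < τ ∧ τ ≤ 1 / 100 ∧
    ∀ (Y : ℝ) (D : ℤ) (f w ℓ : ℕ) (sg y : ℤ) (S : Finset ℤ) (p q : ℤ → ℕ), Y0 ≤ Y →
      TieSide K τ κ3 Y l m D f w ℓ sg y S p q → False := by
  classical
  set g := Nat.gcd (l 0) (l 1) with hgd
  have hg0 : (3 : ℝ) ≤ (g : ℝ) := by exact_mod_cast hg3
  set κ3 : ℝ := 1 / (16 * g) with hκ3
  have hκ3p : 0 < κ3 := by positivity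
  have hκ3g : 2 * g * κ3 = 1 / 8 := by
    rw [hκ3]
    field_simp
    norm_num
  have hκ3s : κ3 ≤ 1 / 48 := by
    rw [hκ3]
    apply one_div_le_one_div_of_le (by norm_num)
    linarith
  set ε : ℝ := κ3 / (32 * K) with hε
  have hKp : 0 < K := by linarith
  have hεp : 0 < ε := by positivity
  have hKε : K * ε = κ3 / 32 := by
    rw [hε]
    field_simp
  obtain ⟨C, B, hC, hB, hmain⟩ := ev_pairs_bound ε hεp g hg3 hodd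
  refine ⟨κ3, κ3 / 32, max 1 (max ((C + 1) ^ (8 / κ3)) ((B + 1) ^ (4 : ℝ))), hκ3p, by linarith, by positivity,
    by linarith, fun Y D f w ℓ sg y S p q hY h => ?_⟩
  have hY1 : 1 ≤ Y := (le_max_left _ _).trans hY
  have hYp : 0 < Y := by linarith
  have hYC : C + 1 ≤ Y ^ (κ3 / 8) := by
    have h1 : (C + 1) ^ (8 / κ3) ≤ Y := ((le_max_left _ _).trans (le_max_right _ _)).trans hY
    have h2 : ((C + 1) ^ (8 / κ3)) ^ (κ3 / 8) ≤ Y ^ (κ3 / 8) :=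
      Real.rpow_le_rpow (by positivity) h1 (by positivity)
    rw [← Real.rpow_mul (by positivity)] at h2
    have h3 : 8 / κ3 * (κ3 / 8) = 1 := by
      field_simp
    rw [h3, Real.rpow_one] at h2
    exact h2
  have hYB : B + 1 ≤ Y ^ (1 / 4 : ℝ) := by
    have h1 : (B + 1) ^ (4 : ℝ) ≤ Y := ((le_max_right _ _).trans (le_max_right _ _)).trans hY
    have h2 : ((B + 1) ^ (4 : ℝ)) ^ (1 / 4 : ℝ) ≤ Y ^ (1 / 4 : ℝ) :=
      Real.rpow_le_rpow (by positivity) h1 (by positivity)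
    rw [← Real.rpow_mul (by positivity)] at h2
    norm_num at h2
    exact h2
  have hSpos : (0 : ℝ) < (S.card : ℝ) := lt_of_lt_of_le (by positivity) h.card
  obtain ⟨x0, hx0⟩ : S.Nonempty := by
    rw [← Finset.card_pos]
    exact_mod_cast hSpos
  have hEv := h.evPairs g (by omega) (Nat.gcd_dvd_left _ _) (Nat.gcd_dvd_right _ _) hx0
  have hsplit := h.split
  set P := (Finset.Icc 3 ⌊Y ^ κ3⌋₊).filter (fun r => r.Prime ∧ jacobiSym D r = 1) with hP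
  have hPr : ∀ r ∈ P, r.Prime ∧ r ≠ 2 ∧ jacobiSym D r = 1 ∧ (r : ℝ) ≤ Y ^ κ3 := by
    intro r hr
    rw [hP, Finset.mem_filter, Finset.mem_Icc] at hr
    obtain ⟨⟨h3, h4⟩, h5, h6⟩ := hr
    exact ⟨h5, by omega, h6, (Nat.le_floor_iff (by positivity)).1 h4⟩
  have hBD : B * (Y ^ κ3) ^ (2 * g) < ((|D| : ℤ) : ℝ) := by
    have h1 : (Y ^ κ3) ^ (2 * g) = Y ^ (1 / 8 : ℝ) := by
      rw [← Real.rpow_natCast, ← Real.rpow_mul hYp.le]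
      congr 1
      push_cast
      linarith
    rw [h1]
    have h2 : Y ^ (1 / 8 : ℝ) ≤ Y ^ (1 / 4 - κ3 / 32) := Real.rpow_le_rpow_of_exponent_le hY1 (by linarith)
    have h3 : Y ^ (1 / 2 - κ3 / 32) = Y ^ (1 / 4 : ℝ) * Y ^ (1 / 4 - κ3 / 32) := by
      rw [← Real.rpow_add hYp]
      congr 1
      ring
    have h4 : 0 < Y ^ (1 / 4 - κ3 / 32) := by positivity
    calc B * Y ^ (1 / 8 : ℝ) ≤ B * Y ^ (1 / 4 - κ3 / 32) := mul_le_mul_of_nonneg_left h2 hB.le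
      _ < (B + 1) * Y ^ (1 / 4 - κ3 / 32) := mul_lt_mul_of_pos_right (lt_add_one B) h4
      _ ≤ Y ^ (1 / 4 : ℝ) * Y ^ (1 / 4 - κ3 / 32) := mul_le_mul_of_nonneg_right hYB h4.le
      _ = Y ^ (1 / 2 - κ3 / 32) := h3.symm
      _ ≤ _ := h.Dlo
  have hbound := hmain (Y ^ K) D y f w S _ _ P (Y ^ κ3) (Real.one_le_rpow hY1 hKp.le) hEv h.hyK hPr hBD
  have h1 : (Y ^ K) ^ ε = Y ^ (κ3 / 32) := by
    rw [← Real.rpow_mul hYp.le, hKε]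
  have h2 : √((|D| : ℤ) : ℝ) ≤ Y ^ (1 / 4 + κ3 / 64) := by
    rw [Real.sqrt_le_left (by positivity), ← Real.rpow_natCast, ← Real.rpow_mul hYp.le]
    refine h.Dhi.trans (le_of_eq ?_)
    congr 1
    push_cast
    ring
  rw [h1] at hbound
  have h3 : Y ^ (1 / 4 - κ3 / 32) * Y ^ (κ3 / 4) ≤ C * Y ^ (κ3 / 32) * Y ^ (1 / 4 + κ3 / 64) := by
    calc Y ^ (1 / 4 - κ3 / 32) * Y ^ (κ3 / 4) ≤ (S.card : ℝ) * P.card :=
          mul_le_mul h.card hsplit (by positivity) (by positivity)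
      _ ≤ C * Y ^ (κ3 / 32) * √((|D| : ℤ) : ℝ) := hbound
      _ ≤ _ := mul_le_mul_of_nonneg_left h2 (by positivity)
  rw [← Real.rpow_add hYp, mul_assoc, ← Real.rpow_add hYp] at h3
  have h4 : Y ^ (1 / 4 - κ3 / 32 + κ3 / 4) = Y ^ (1 / 4 - κ3 / 32 + κ3 / 4 - (κ3 / 32 + (1 / 4 + κ3 / 64))) *
      Y ^ (κ3 / 32 + (1 / 4 + κ3 / 64)) := by
    rw [← Real.rpow_add hYp]
    congr 1
    ring
  rw [h4] at h3
  have h5 := le_of_mul_le_mul_right h3 (by positivity)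
  have h6 : Y ^ (κ3 / 8) ≤ Y ^ (1 / 4 - κ3 / 32 + κ3 / 4 - (κ3 / 32 + (1 / 4 + κ3 / 64))) :=
    Real.rpow_le_rpow_of_exponent_le hY1 (by linarith)
  linarith

/-- Ellenberg-Venkatesh: `g = gcd (l 0) (l 1) ≥ 3` odd. -/
theorem few_ev' (K ε0 : ℝ) (hK : 2 ≤ K) (hε : -1 / 100 ≤ ε0) (l m : Fin (2 * 1) → ℕ) (hl : ∀ i, 1 ≤ l i) (_hl01 : l 0 < l 1)
    (hg : 3 ≤ Nat.gcd (l 0) (l 1)) (hodd : Odd (Nat.gcd (l 0) (l 1))) (hm0 : Odd (m 0)) (hm1 : Odd (m 1)) :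
    ∃ σ : ℝ, 0 < σ ∧ Few K ε0 (fun Y w => IsTie σ 1 l Y w.1 ∧ IsTie σ 1 m Y w.2) := by
  obtain ⟨κ3, τ, Y0, h3, h3', hτ, hτ', hcon⟩ := ev_contra K hK l m hg hodd
  obtain ⟨σ, hσ, hside⟩ := tie_side K ε0 hK hε l m hl hm0 hm1 κ3 h3 h3' τ hτ hτ'
  obtain ⟨C, δ, hC, hδ, h⟩ := hside Y0
  refine ⟨σ, hσ, C, δ, hC, hδ, fun Y hY P hP => ?_⟩
  by_contra hlt
  rw [not_le] at hlt
  obtain ⟨hYY, D, f, w, ℓ, sg, y, S, p, q, hT⟩ := h Y hY P hP hlt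
  exact hcon Y D f w ℓ sg y S p q hYY hT

end Hp

end Pool.Agent.Lib.MP_d8bd92_nt
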