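import Pool.Agent.Lib.MP_d8bd92_nt.Hp.TieCount

set_option autoImplicit false

/-! Both exponents even: counting representations by `g ^ 2 - D W ^ 2`. -/

namespace Pool.Agent.Lib.MP_d8bd92_nt

namespace Hp

open Finset Pool.Agent.Lib.Szpiro

/-- two solutions of the Pell equation are separated -/
theorem pell_sep (D : ℤ) (hD : D ≠ 0) (a b a' b' : ℤ) (ha : 0 ≤ a) (hb : 0 ≤ b) (hb' : 0 ≤ b')
    (h : a ^ 2 - D * b ^ 2 = 1) (h' : a' ^ 2 - D * b' ^ 2 = 1) (hlt : a < a') : 2 * a ≤ a' := by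
  rcases lt_or_gt_of_ne hD with hneg | hpos
  · -- D < 0
    have h1 : a' ^ 2 ≤ 1 := by nlinarith [sq_nonneg b']
    have h2 : a' ≤ 1 := by nlinarith
    omega
  · have ha' : 0 < a' := by omega
    have h0 : a ≠ 0 := by
      rintro rfl
      nlinarith [sq_nonneg b]
    have ha1 : 1 ≤ a := by omega
    -- b < b'
    have hbb : b < b' := by
      by_contra hc
      push Not at hc
      have h3 : b' ^ 2 ≤ b ^ 2 := by nlinarith
      have h4 : D * b' ^ 2 ≤ D * b ^ 2 := by nlinarith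
      nlinarith
    have hb1 : 1 ≤ b' := by omega
    -- P, Q
    set P : ℤ := a * a' - D * b * b' with hP
    set Q : ℤ := a * b' - a' * b with hQ
    have hPQ : P ^ 2 - D * Q ^ 2 = 1 := by
      have : P ^ 2 - D * Q ^ 2 = (a ^ 2 - D * b ^ 2) * (a' ^ 2 - D * b' ^ 2) := by rw [hP, hQ]; ring
      rw [this, h, h']
      ring
    have hP0 : 0 < P := by
      have h5 : (D * b * b') ^ 2 < (a * a') ^ 2 := by
        have e1 : (a * a') ^ 2 = (1 + D * b ^ 2) * (1 + D * b' ^ 2) := by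
          rw [mul_pow]
          have := h
          have := h'
          have e2 : a ^ 2 = 1 + D * b ^ 2 := by linarith
          have e3 : a' ^ 2 = 1 + D * b' ^ 2 := by linarith
          rw [e2, e3]
        rw [e1]
        have e2 : (D * b * b') ^ 2 = (D * b ^ 2) * (D * b' ^ 2) := by ring
        rw [e2]
        have h6 : 0 ≤ D * b ^ 2 := by positivity
        have h7 : 0 ≤ D * b' ^ 2 := by positivity
        nlinarith
      have h8 : D * b * b' < a * a' := lt_of_pow_lt_pow_left₀ 2 (by positivity) h5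
      omega
    have hQ0 : 0 < Q := by
      have h5 : (a' * b) ^ 2 < (a * b') ^ 2 := by
        have e2 : a ^ 2 = 1 + D * b ^ 2 := by linarith
        have e3 : a' ^ 2 = 1 + D * b' ^ 2 := by linarith
        rw [mul_pow, mul_pow, e2, e3]
        have h6 : b ^ 2 < b' ^ 2 := by nlinarith
        nlinarith
      have h8 : a' * b < a * b' := lt_of_pow_lt_pow_left₀ 2 (by positivity) h5
      omega
    have hP2 : 2 ≤ P := by
      by_contra hc
      have h9 : P = 1 := by omega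
      rw [h9] at hPQ
      have h10 : 0 < D * Q ^ 2 := by positivity
      linarith
    have e : a' = a * P + D * b * Q := by
      rw [hP, hQ]
      have : a * (a * a' - D * b * b') + D * b * (a * b' - a' * b) = a' * (a ^ 2 - D * b ^ 2) := by ring
      rw [this, h]
      ring
    have h11 : 0 ≤ D * b * Q := by positivity
    nlinarith

/-- number of solutions of the Pell equation -/
theorem pell_count (D : ℤ) (hD : D ≠ 0) (X : ℕ) (V : Finset (ℤ × ℤ))
    (hV : ∀ v ∈ V, v.1 ^ 2 - D * v.2 ^ 2 = 1 ∧ v.1.natAbs ≤ X) : V.card ≤ 4 * (Nat.log 2 (2 * X + 1) + 1) := by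
  classical
  set f : ℤ × ℤ → (Bool × Bool) × ℕ := fun v => ((decide (0 ≤ v.1), decide (0 ≤ v.2)), Nat.log 2 (2 * v.1.natAbs + 1)) with hf
  have hmap : ∀ v ∈ V, f v ∈ (univ : Finset (Bool × Bool)) ×ˢ Finset.range (Nat.log 2 (2 * X + 1) + 1) := by
    intro v hv
    rw [Finset.mem_product]
    refine ⟨Finset.mem_univ _, ?_⟩
    rw [Finset.mem_range, Nat.lt_succ_iff]
    show Nat.log 2 (2 * v.1.natAbs + 1) ≤ _
    apply Nat.log_mono_right
    have := (hV v hv).2
    omega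
  have key : ∀ a a' : ℕ, 2 * a ≤ a' → a < a' → Nat.log 2 (2 * a + 1) < Nat.log 2 (2 * a' + 1) := by
    intro a a' h1 h2
    have hk : 2 ^ Nat.log 2 (2 * a + 1) ≤ 2 * a + 1 := Nat.pow_log_le_self 2 (by omega)
    rw [← Nat.succ_le_iff]
    apply Nat.le_log_of_pow_le (by norm_num)
    rw [Nat.succ_eq_add_one, pow_succ]
    rcases Nat.eq_zero_or_pos (Nat.log 2 (2 * a + 1)) with h0 | h0
    · rw [h0]
      omega
    · obtain ⟨m, hm⟩ : ∃ m, Nat.log 2 (2 * a + 1) = m + 1 := ⟨_, (Nat.succ_pred_eq_of_pos h0).symm⟩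
      rw [hm, pow_succ] at hk ⊢
      omega
  have hinj : Set.InjOn f V := by
    intro v hv v' hv' hfe
    obtain ⟨h1, _⟩ := hV v hv
    obtain ⟨h1', _⟩ := hV v' hv'
    simp only [hf, Prod.mk.injEq, decide_eq_decide] at hfe
    obtain ⟨⟨s1, s2⟩, s3⟩ := hfe
    have q1 : |v.1| ^ 2 - D * |v.2| ^ 2 = 1 := by rw [sq_abs, sq_abs]; exact h1
    have q1' : |v'.1| ^ 2 - D * |v'.2| ^ 2 = 1 := by rw [sq_abs, sq_abs]; exact h1'
    have hab : |v.1| = |v'.1| := by
      rcases lt_trichotomy |v.1| |v'.1| with h | h | h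
      · exfalso
        have h2 := pell_sep D hD _ _ _ _ (abs_nonneg _) (abs_nonneg _) (abs_nonneg _) q1 q1' h
        rw [Int.abs_eq_natAbs, Int.abs_eq_natAbs] at h2 h
        have := key v.1.natAbs v'.1.natAbs (by omega) (by omega)
        omega
      · exact h
      · exfalso
        have h2 := pell_sep D hD _ _ _ _ (abs_nonneg _) (abs_nonneg _) (abs_nonneg _) q1' q1 h
        rw [Int.abs_eq_natAbs, Int.abs_eq_natAbs] at h2 h
        have := key v'.1.natAbs v.1.natAbs (by omega) (by omega)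
        omega
    have hab2 : |v.2| = |v'.2| := by
      rw [hab] at q1
      have h3 : D * |v.2| ^ 2 = D * |v'.2| ^ 2 := by linarith
      have h4 := mul_left_cancel₀ hD h3
      exact (pow_left_inj₀ (abs_nonneg _) (abs_nonneg _) (by norm_num)).mp h4
    have e1 : v.1 = v'.1 := by
      rcases abs_eq_abs.mp hab with h | h
      · exact h
      · by_cases h0 : 0 ≤ v.1
        · have := s1.mp h0
          omega
        · have : ¬ 0 ≤ v'.1 := fun h => h0 (s1.mpr h)
          omega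
    have e2 : v.2 = v'.2 := by
      rcases abs_eq_abs.mp hab2 with h | h
      · exact h
      · by_cases h0 : 0 ≤ v.2
        · have := s2.mp h0
          omega
        · have : ¬ 0 ≤ v'.2 := fun h => h0 (s2.mpr h)
          omega
    exact Prod.ext e1 e2
  have h := Finset.card_le_card_of_injOn f hmap hinj
  rw [Finset.card_product, Finset.card_range] at h
  simpa using h

theorem log_small (σ : ℝ) (hσ : 0 < σ) : ∃ C : ℝ, 1 ≤ C ∧ ∀ Z : ℕ, 1 ≤ Z →
    ((4 * (Nat.log 2 (2 * (2 * Z ^ 3) + 1) + 1) : ℕ) : ℝ) ≤ C * (Z : ℝ) ^ σ := by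
  have hl2 : 0 < Real.log 2 := Real.log_pos (by norm_num)
  refine ⟨4 * ((Real.log 5 + 3 / σ) / Real.log 2 + 1), ?_, fun Z hZ => ?_⟩
  · have : 0 < Real.log 5 := Real.log_pos (by norm_num)
    have : 0 < (Real.log 5 + 3 / σ) / Real.log 2 := by positivity
    linarith
  · have hZ1 : (1 : ℝ) ≤ Z := by exact_mod_cast hZ
    have hZ0 : (0 : ℝ) < Z := by linarith
    have hσ1 : (1 : ℝ) ≤ (Z : ℝ) ^ σ := Real.one_le_rpow hZ1 hσ.le
    have h1 : ((Nat.log 2 (2 * (2 * Z ^ 3) + 1) : ℕ) : ℝ) ≤ Real.logb 2 ((2 * (2 * Z ^ 3) + 1 : ℕ) : ℝ) :=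
      Real.natLog_le_logb _ _
    have h2 : Real.logb 2 ((2 * (2 * Z ^ 3) + 1 : ℕ) : ℝ) ≤ (Real.log 5 + 3 * Real.log Z) / Real.log 2 := by
      rw [Real.logb]
      gcongr
      calc Real.log ((2 * (2 * Z ^ 3) + 1 : ℕ) : ℝ) ≤ Real.log (5 * (Z : ℝ) ^ 3) := by
            apply Real.log_le_log (by positivity)
            push_cast
            have : (1 : ℝ) ≤ (Z : ℝ) ^ 3 := one_le_pow₀ hZ1
            linarith
        _ = Real.log 5 + 3 * Real.log Z := by
            rw [Real.log_mul (by norm_num) (by positivity), Real.log_pow]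
            push_cast
            ring
    have h3 : Real.log Z ≤ (Z : ℝ) ^ σ / σ := Real.log_le_rpow_div hZ0.le hσ
    have h5 : 0 < Real.log 5 := Real.log_pos (by norm_num)
    push_cast
    have h4 : (Real.log 5 + 3 * Real.log Z) / Real.log 2 ≤ (Real.log 5 + 3 / σ) / Real.log 2 * (Z : ℝ) ^ σ := by
      rw [div_mul_eq_mul_div]
      gcongr
      calc Real.log 5 + 3 * Real.log Z ≤ Real.log 5 * (Z : ℝ) ^ σ + 3 * ((Z : ℝ) ^ σ / σ) := by
            have : Real.log 5 * 1 ≤ Real.log 5 * (Z : ℝ) ^ σ := by gcongr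
            linarith
        _ = (Real.log 5 + 3 / σ) * (Z : ℝ) ^ σ := by ring
    calc (4 : ℝ) * ((Nat.log 2 (2 * (2 * Z ^ 3) + 1) : ℕ) + 1) ≤
        4 * ((Real.log 5 + 3 / σ) / Real.log 2 * (Z : ℝ) ^ σ + (Z : ℝ) ^ σ) := by
          gcongr
          exact h1.trans (h2.trans h4)
      _ = _ := by ring

/-- representations `g ^ 2 - D W ^ 2 = y` with `D`, `W` prime to `y` -/
theorem rep_count (σ : ℝ) (hσ : 0 < σ) : ∃ C : ℝ, 1 ≤ C ∧ ∀ (Z : ℕ) (D y : ℤ) (U : Finset (ℤ × ℤ)), 1 ≤ Z →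
    D ≠ 0 → y ≠ 0 → D.natAbs ≤ Z → y.natAbs ≤ Z → IsCoprime D y →
    (∀ u ∈ U, u.1 ^ 2 - D * u.2 ^ 2 = y ∧ u.1.natAbs ≤ Z ∧ u.2.natAbs ≤ Z ∧ IsCoprime u.2 y) →
    (U.card : ℝ) ≤ C * (Z : ℝ) ^ σ := by
  classical
  obtain ⟨C1, hC1, h1⟩ := Th.card_kth 2 (by norm_num) (σ / 2) (by positivity)
  obtain ⟨C2, hC2, h2⟩ := log_small (σ / 2) (by positivity)
  refine ⟨C1 * C2, by nlinarith, fun Z D y U hZ hD hy hDZ hyZ hDy hU => ?_⟩
  have hZ1 : (1 : ℝ) ≤ Z := by exact_mod_cast hZ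
  have hZ0 : (0 : ℝ) < Z := by linarith
  have hyp : 0 < |y| := abs_pos.mpr hy
  -- the root
  have hroot : ∀ u ∈ U, ∃ ρ : ℤ, 0 ≤ ρ ∧ ρ < |y| ∧ y ∣ u.2 * ρ - u.1 := by
    intro u hu
    obtain ⟨_, _, _, a, b, hab⟩ := hU u hu
    refine ⟨(u.1 * a) % |y|, Int.emod_nonneg _ hyp.ne', Int.emod_lt_of_pos _ hyp, ?_⟩
    have h3 : |y| ∣ (u.1 * a) % |y| - u.1 * a := by
      rw [Int.emod_def]
      exact ⟨-(u.1 * a / |y|), by ring⟩
    have h4 : y ∣ (u.1 * a) % |y| - u.1 * a := (abs_dvd y _).mp h3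
    have e : u.2 * ((u.1 * a) % |y|) - u.1 = u.2 * ((u.1 * a) % |y| - u.1 * a) + y * (-(b * u.1)) := by
      have : u.1 * (a * u.2 + b * y) = u.1 := by rw [hab, mul_one]
      linear_combination this
    rw [e]
    exact dvd_add (Dvd.dvd.mul_left h4 _) (dvd_mul_right _ _)
  choose! ρ hρ using hroot
  -- the roots
  have hR : ((U.image ρ).card : ℝ) ≤ C1 * (Z : ℝ) ^ (σ / 2) := by
    have hy1 : 1 ≤ y.natAbs := Nat.one_le_iff_ne_zero.mpr (Int.natAbs_ne_zero.mpr hy)
    have h3 := h1 y.natAbs D (U.image ρ) 1 hy1 (by norm_num) (by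
      intro s hs
      rw [Finset.mem_image] at hs
      obtain ⟨u, hu, rfl⟩ := hs
      obtain ⟨a1, a2, a3, a4⟩ := hU u hu
      obtain ⟨_, _, b3⟩ := hρ u hu
      have hdv : y ∣ ρ u ^ 2 - D := by
        have h5 : y ∣ u.2 ^ 2 * (ρ u ^ 2 - D) := by
          have e : u.2 ^ 2 * (ρ u ^ 2 - D) = (u.2 * ρ u - u.1) * (u.2 * ρ u + u.1) + y := by
            rw [← a1]; ring
          rw [e]
          exact dvd_add (Dvd.dvd.mul_right b3 _) dvd_rfl
        exact (IsCoprime.pow_right (IsCoprime.symm a4) (n := 2)).dvd_of_dvd_mul_left h5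
      have hcop : IsCoprime (ρ u ^ 2) y := by
        obtain ⟨c, hc⟩ := hdv
        have e : ρ u ^ 2 = D + y * c := by linarith
        rw [e]
        exact IsCoprime.add_mul_left_left hDy c
      refine ⟨?_, ?_⟩
      · have h6 : IsCoprime (ρ u) y := IsCoprime.of_isCoprime_of_dvd_left hcop (dvd_pow_self _ (by norm_num))
        rw [Int.isCoprime_iff_nat_coprime] at h6 ⊢
        rwa [Int.natAbs_natCast]
      · exact Int.natAbs_dvd.mpr hdv) (by
      intro x T' hT' hT2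
      have h5 : T'.card ≤ 1 := by
        rw [Finset.card_le_one]
        intro s hs t ht
        have hs1 := hT' hs
        have ht1 := hT' ht
        rw [Finset.mem_image] at hs1 ht1
        obtain ⟨u, hu, rfl⟩ := hs1
        obtain ⟨v, hv, rfl⟩ := ht1
        obtain ⟨b1, b2, _⟩ := hρ u hu
        obtain ⟨c1, c2, _⟩ := hρ v hv
        have h6 : (y.natAbs : ℤ) ∣ ρ u - ρ v := by
          have := dvd_sub (hT2 _ hs) (hT2 _ ht)
          have e : ρ u - x - (ρ v - x) = ρ u - ρ v := by ring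
          rwa [e] at this
        rw [← Int.abs_eq_natAbs] at h6
        obtain ⟨c, hc⟩ := h6
        have hc0 : c = 0 := by
          by_contra hne
          rcases lt_or_gt_of_ne hne with h | h
          · nlinarith
          · nlinarith
        rw [hc0, mul_zero] at hc
        linarith
      exact_mod_cast h5)
    rw [mul_one] at h3
    refine h3.trans ?_
    gcongr
  -- the fibres
  have hF : ∀ a ∈ U.image ρ, (U.filter (fun u => ρ u = a)).card ≤ 4 * (Nat.log 2 (2 * (2 * Z ^ 3) + 1) + 1) := by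
    intro a ha
    rcases (U.filter (fun u => ρ u = a)).eq_empty_or_nonempty with h0 | ⟨u0, hu0⟩
    · rw [h0]
      simp
    · rw [Finset.mem_filter] at hu0
      obtain ⟨hu0, hρ0⟩ := hu0
      obtain ⟨a1, a2, a3, a4⟩ := hU u0 hu0
      obtain ⟨_, _, b3⟩ := hρ u0 hu0
      rw [hρ0] at b3
      -- the unit
      have hunit : ∀ u ∈ U.filter (fun u => ρ u = a), ∃ A B : ℤ, y * A = u.1 * u0.1 - D * u.2 * u0.2 ∧
          y * B = u0.1 * u.2 - u.1 * u0.2 := by
        intro u hu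
        rw [Finset.mem_filter] at hu
        obtain ⟨hu, hρu⟩ := hu
        obtain ⟨c1, c2, c3, c4⟩ := hU u hu
        obtain ⟨_, _, d3⟩ := hρ u hu
        rw [hρu] at d3
        have hdv : y ∣ a ^ 2 - D := by
          have h5 : y ∣ u.2 ^ 2 * (a ^ 2 - D) := by
            have e : u.2 ^ 2 * (a ^ 2 - D) = (u.2 * a - u.1) * (u.2 * a + u.1) + y := by
              rw [← c1]; ring
            rw [e]
            exact dvd_add (Dvd.dvd.mul_right d3 _) dvd_rfl
          exact (IsCoprime.pow_right (IsCoprime.symm c4) (n := 2)).dvd_of_dvd_mul_left h5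
        have hA : y ∣ u.1 * u0.1 - D * u.2 * u0.2 := by
          have e : u.1 * u0.1 - D * u.2 * u0.2 = (a ^ 2 - D) * (u.2 * u0.2) - (u.2 * a - u.1) * (u0.2 * a)
            - (u0.2 * a - u0.1) * u.1 := by ring
          rw [e]
          exact dvd_sub (dvd_sub (Dvd.dvd.mul_right hdv _) (Dvd.dvd.mul_right d3 _)) (Dvd.dvd.mul_right b3 _)
        have hB : y ∣ u0.1 * u.2 - u.1 * u0.2 := by
          have e : u0.1 * u.2 - u.1 * u0.2 = (u.2 * a - u.1) * u0.2 - (u0.2 * a - u0.1) * u.2 := by ring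
          rw [e]
          exact dvd_sub (Dvd.dvd.mul_right d3 _) (Dvd.dvd.mul_right b3 _)
        obtain ⟨A, hA⟩ := hA
        obtain ⟨B, hB⟩ := hB
        exact ⟨A, B, hA.symm, hB.symm⟩
      choose! A B hAB using hunit
      have hinj : Set.InjOn (fun u => (A u, B u)) (U.filter (fun u => ρ u = a)) := by
        intro u hu v hv huv
        simp only [Prod.mk.injEq] at huv
        obtain ⟨e1, e2⟩ := hAB u hu
        obtain ⟨f1, f2⟩ := hAB v hv
        rw [huv.1] at e1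
        rw [huv.2] at e2
        have g1 : y * u.1 = y * v.1 := by
          have k1 : y * u.1 = (u.1 * u0.1 - D * u.2 * u0.2) * u0.1 + D * (u0.1 * u.2 - u.1 * u0.2) * u0.2 := by
            rw [← a1]; ring
          have k2 : y * v.1 = (v.1 * u0.1 - D * v.2 * u0.2) * u0.1 + D * (u0.1 * v.2 - v.1 * u0.2) * u0.2 := by
            rw [← a1]; ring
          rw [k1, k2, ← e1, ← e2, ← f1, ← f2]
        have g2 : y * u.2 = y * v.2 := by
          have k1 : y * u.2 = (u.1 * u0.1 - D * u.2 * u0.2) * u0.2 + (u0.1 * u.2 - u.1 * u0.2) * u0.1 := by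
            rw [← a1]; ring
          have k2 : y * v.2 = (v.1 * u0.1 - D * v.2 * u0.2) * u0.2 + (u0.1 * v.2 - v.1 * u0.2) * u0.1 := by
            rw [← a1]; ring
          rw [k1, k2, ← e1, ← e2, ← f1, ← f2]
        exact Prod.ext (mul_left_cancel₀ hy g1) (mul_left_cancel₀ hy g2)
      rw [← Finset.card_image_of_injOn hinj]
      apply pell_count D hD
      intro v hv
      rw [Finset.mem_image] at hv
      obtain ⟨u, hu, rfl⟩ := hv
      obtain ⟨e1, e2⟩ := hAB u hu
      rw [Finset.mem_filter] at hu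
      obtain ⟨c1, c2, c3, c4⟩ := hU u hu.1
      refine ⟨?_, ?_⟩
      · have h6 : y ^ 2 * (A u ^ 2 - D * B u ^ 2) = y ^ 2 * 1 := by
          calc y ^ 2 * (A u ^ 2 - D * B u ^ 2) = (y * A u) ^ 2 - D * (y * B u) ^ 2 := by ring
            _ = (u.1 ^ 2 - D * u.2 ^ 2) * (u0.1 ^ 2 - D * u0.2 ^ 2) := by rw [e1, e2]; ring
            _ = y ^ 2 * 1 := by rw [c1, a1]; ring
        exact mul_left_cancel₀ (pow_ne_zero 2 hy) h6
      · show (A u).natAbs ≤ 2 * Z ^ 3
        have h7 : (A u).natAbs ≤ (y * A u).natAbs := by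
          rw [Int.natAbs_mul]
          exact Nat.le_mul_of_pos_left _ (Nat.pos_of_ne_zero (Int.natAbs_ne_zero.mpr hy))
        rw [e1] at h7
        have h8 : (u.1 * u0.1 - D * u.2 * u0.2).natAbs ≤ (u.1 * u0.1).natAbs + (D * u.2 * u0.2).natAbs := by
          omega
        have h9 : (u.1 * u0.1).natAbs ≤ Z * Z := by
          rw [Int.natAbs_mul]
          exact Nat.mul_le_mul c2 a2
        have h10 : (D * u.2 * u0.2).natAbs ≤ Z * Z * Z := by
          rw [Int.natAbs_mul, Int.natAbs_mul]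
          exact Nat.mul_le_mul (Nat.mul_le_mul hDZ c3) a3
        have h11 : Z * Z ≤ Z ^ 3 := by
          rw [pow_succ, pow_two]
          exact Nat.le_mul_of_pos_right _ (by omega)
        have h12 : Z * Z * Z = Z ^ 3 := by ring
        omega
  have h3 := Finset.card_le_mul_card_image U _ hF
  calc (U.card : ℝ) ≤ ((4 * (Nat.log 2 (2 * (2 * Z ^ 3) + 1) + 1) : ℕ) : ℝ) * ((U.image ρ).card : ℝ) := by exact_mod_cast h3
    _ ≤ (C2 * (Z : ℝ) ^ (σ / 2)) * (C1 * (Z : ℝ) ^ (σ / 2)) := by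
        gcongr
        exact h2 Z hZ
    _ = C1 * C2 * ((Z : ℝ) ^ (σ / 2) * (Z : ℝ) ^ (σ / 2)) := by ring
    _ = C1 * C2 * (Z : ℝ) ^ σ := by
        rw [← Real.rpow_add hZ0]
        congr 2
        ring

/-- both exponents even, no condition on `ε0` -/
theorem few_even_all (K ε0 : ℝ) (hK : 2 ≤ K) (l : Fin (2 * 1) → ℕ) (hl : ∀ i, 1 ≤ l i) (he : ∀ i, Even (l i)) :
    ∃ σ : ℝ, 0 < σ ∧ Few K ε0 (fun Y w => IsTie σ 1 l Y w.1) := by
  classical
  have hK0 : 0 < K := by linarith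
  refine ⟨1 / 100, by norm_num, tie_count K ε0 (1 / 100) hK (by norm_num) le_rfl l hl ?_⟩
  obtain ⟨C, hC1, hC⟩ := rep_count (1 / (100 * K)) (by positivity)
  refine ⟨C * 2, by positivity, fun Y hY y d b T hT => ?_⟩
  have hY0 : 0 < Y := by linarith
  have hYK : 1 ≤ Y ^ K := Real.one_le_rpow hY hK0.le
  set B : ℕ := ⌊Y ^ K⌋₊ with hB
  have hB1 : 1 ≤ B := Nat.le_floor (by simpa using hYK)
  rcases T.eq_empty_or_nonempty with h0 | ⟨w0, hw0⟩
  · rw [h0]
    simp
    positivity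
  obtain ⟨⟨x0, y0, xy0, _, _, _, _, yK⟩, hw02, hw0b, p0, hp0, _⟩ := hT w0 hw0
  rw [hw02] at y0 yK
  have hd0 : d ≠ 0 := by
    rintro rfl
    rw [zero_mul] at hp0
    exact x0 (Int.natAbs_eq_zero.mp hp0)
  set D : ℤ := if b then (d : ℤ) else -(d : ℤ) with hD
  have hDabs : D.natAbs = d := by
    rw [hD]
    split_ifs
    · exact Int.natAbs_natCast d
    · rw [Int.natAbs_neg, Int.natAbs_natCast]
  have hD0 : D ≠ 0 := by
    intro h
    rw [h] at hDabs
    exact hd0 hDabs.symm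
  have hch : ∀ w ∈ T, ∃ g W : ℤ, g ^ 2 = w.1 + y ∧ w.1 = D * W ^ 2 := by
    intro w hw
    obtain ⟨⟨x1, _, _, ⟨g, hg⟩, _, _, _, _⟩, hw2, hwb, p, hp, _⟩ := hT w hw
    refine ⟨g, ((∏ i, p i ^ (l i / 2) : ℕ) : ℤ), by rw [← hw2]; exact hg.symm, ?_⟩
    have e1 : ∏ i, p i ^ l i = (∏ i, p i ^ (l i / 2)) ^ 2 := by
      rw [← Finset.prod_pow]
      apply Finset.prod_congr rfl
      intro i _
      rw [← pow_mul]
      congr 1
      obtain ⟨k, hk⟩ := he i
      omega
    have e2 : (w.1.natAbs : ℤ) = (d : ℤ) * ((∏ i, p i ^ (l i / 2) : ℕ) : ℤ) ^ 2 := by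
      rw [hp, e1]
      push_cast
      ring
    rw [hD]
    by_cases hb : b = true
    · rw [if_pos hb, ← e2]
      rw [hb, decide_eq_true_eq] at hwb
      omega
    · rw [if_neg hb, neg_mul, ← e2]
      rw [Bool.not_eq_true] at hb
      rw [hb, decide_eq_false_iff_not] at hwb
      omega
  choose! g W hgW using hch
  have hinj : Set.InjOn (fun w => (g w, W w)) T := by
    intro w hw v hv hwv
    simp only [Prod.mk.injEq] at hwv
    obtain ⟨e1, _⟩ := hgW w hw
    obtain ⟨f1, _⟩ := hgW v hv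
    have hw2 := (hT w hw).2.1
    have hv2 := (hT v hv).2.1
    apply Prod.ext
    · rw [hwv.1] at e1
      linarith
    · rw [hw2, hv2]
  rw [← Finset.card_image_of_injOn hinj]
  have hdB : d ≤ B := by
    have h1 : d ≤ w0.1.natAbs := Nat.le_of_dvd (Nat.pos_of_ne_zero (Int.natAbs_ne_zero.mpr x0)) ⟨_, hp0⟩
    have h2 : w0.1.natAbs ≤ B := Nat.le_floor (by assumption)
    omega
  have hyB : y.natAbs ≤ B := Nat.le_floor yK
  have hDy : IsCoprime D y := by
    obtain ⟨_, e2⟩ := hgW w0 hw0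
    rw [hw02] at xy0
    rw [e2] at xy0
    exact IsCoprime.of_mul_left_left xy0
  have h1 := hC (2 * B) D y (T.image (fun w => (g w, W w))) (by omega) hD0 y0 (by omega) (by omega) hDy (by
    intro u hu
    rw [Finset.mem_image] at hu
    obtain ⟨w, hw, rfl⟩ := hu
    obtain ⟨e1, e2⟩ := hgW w hw
    obtain ⟨⟨x1, y1, xy1, _, _, _, xK1, _⟩, hw2, hwb, p, hp, _⟩ := hT w hw
    have hxB : w.1.natAbs ≤ B := Nat.le_floor xK1
    have sq_le : ∀ t : ℤ, t.natAbs ≤ (t ^ 2).natAbs := by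
      intro t
      rw [Int.natAbs_pow, pow_two]
      exact Nat.le_mul_self _
    refine ⟨?_, ?_, ?_, ?_⟩
    · show g w ^ 2 - D * W w ^ 2 = y
      rw [e1, ← e2]
      ring
    · show (g w).natAbs ≤ 2 * B
      have h3 := sq_le (g w)
      rw [e1] at h3
      omega
    · show (W w).natAbs ≤ 2 * B
      have h3 := sq_le (W w)
      have h4 : (W w ^ 2).natAbs ≤ w.1.natAbs := by
        rw [e2, Int.natAbs_mul]
        exact Nat.le_mul_of_pos_left _ (Nat.pos_of_ne_zero (Int.natAbs_ne_zero.mpr hD0))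
      omega
    · show IsCoprime (W w) y
      rw [hw2, e2] at xy1
      have h5 : IsCoprime (W w ^ 2) y := IsCoprime.of_mul_left_right xy1
      exact IsCoprime.of_isCoprime_of_dvd_left h5 (dvd_pow_self _ (by norm_num)))
  have hBr : (B : ℝ) ≤ Y ^ K := Nat.floor_le (by positivity)
  calc (((T.image (fun w => (g w, W w))).card : ℕ) : ℝ) ≤ C * ((2 * B : ℕ) : ℝ) ^ (1 / (100 * K)) := h1
    _ ≤ C * (2 * Y ^ K) ^ (1 / (100 * K)) := by
        gcongr
        push_cast
        linarith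
    _ = C * (2 ^ (1 / (100 * K)) * Y ^ (1 / 100 : ℝ)) := by
        rw [Real.mul_rpow (by norm_num) (by positivity), ← Real.rpow_mul hY0.le]
        congr 3
        field_simp
    _ ≤ C * (2 * Y ^ (1 / 20 : ℝ)) := by
        gcongr
        · calc (2 : ℝ) ^ (1 / (100 * K)) ≤ 2 ^ (1 : ℝ) := by
                apply Real.rpow_le_rpow_of_exponent_le (by norm_num)
                rw [div_le_one (by positivity)]
                linarith
            _ = 2 := Real.rpow_one 2
        · norm_num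
    _ = C * 2 * Y ^ (1 / 20 : ℝ) := by ring

/-- both exponents even -/
theorem few_even (K ε0 : ℝ) (hK : 2 ≤ K) (_he0 : -1 / 100 ≤ ε0) (l : Fin (2 * 1) → ℕ) (hl : ∀ i, 1 ≤ l i) (he : ∀ i, Even (l i)) :
    ∃ σ : ℝ, 0 < σ ∧ Few K ε0 (fun Y w => IsTie σ 1 l Y w.1) :=
  few_even_all K ε0 hK l hl he

end Hp

end Pool.Agent.Lib.MP_d8bd92_nt
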