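import Pool.Agent.Lib.MP_d8bd92_nt.Hp.FPh

set_option autoImplicit false

/-! Block 3.A: from a large set of pairs of type P to a fibre. -/

namespace Pool.Agent.Lib.MP_d8bd92_nt

namespace Hp

open Finset Pool.Agent.Lib.Szpiro

/-- the fibre -/
theorem fib_of {K ε0 η κ Y : ℝ} {L : ℕ} (hK : 2 ≤ K) (hη : 0 < η) (hκ : 0 < κ) (hκη : 4 * κ ≤ η)
    (hY : 1 < Y) (hY2 : 2 ≤ Y ^ (η / 2)) {P : Finset (ℤ × ℤ)} (hP : Good K ε0 κ Y P)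
    {e A B t l : ℤ × ℤ → ℕ} (hdat : ∀ w ∈ P, PDat η L Y w.1 (e w) (A w) (B w) (t w) (l w))
    {l0 a0 b0 t0 : ℕ} (hl : ∀ w ∈ P, l w = l0) (ha : ∀ w ∈ P, Nat.log 2 (rd (A w)) = a0)
    (hb : ∀ w ∈ P, Nat.log 2 (rd (B w)) = b0) (ht : ∀ w ∈ P, Nat.log 2 (t w) = t0) {y : ℤ} {S : Finset (ℤ × ℤ)}
    (hS : S ⊆ P) (hSne : S.Nonempty) (hy : ∀ w ∈ S, w.2 = y) :
    ∃ (D : ℤ) (f : ℕ), Fib K ε0 κ Y l0 (2 ^ a0 : ℝ) (2 ^ b0 : ℝ) (2 ^ t0 : ℝ) P y D f e A B t S ∧ l0 ≤ L ∧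
      (2 ^ a0 : ℝ) ≤ Y ^ (1 / 4 - η) ∧ (2 ^ b0 : ℝ) ≤ Y ^ (1 / 4 - η) ∧
      (2 ^ a0 : ℝ) * 2 ^ b0 * 2 ^ t0 ≤ Y ^ ((1 + κ) / 2) ∧
      Y ^ ((1 - κ) / 2) ≤ 16 * ((2 ^ a0 : ℝ) * 2 ^ b0 * 2 ^ t0) ∧ ((|D| : ℤ) : ℝ) ≤ Y ^ ((1 + κ) / 2) := by
  have hY0 : 0 < Y := by linarith
  have hx0 : ∀ w ∈ P, w.1 ≠ 0 := fun w hw => (hP.base w hw).1
  obtain ⟨w0, hw0⟩ := hSne
  have hw0P := hS hw0
  have hy0 : y ≠ 0 := by
    rw [← hy w0 hw0]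
    exact (hP.base w0 hw0P).2.1
  obtain ⟨D, f, hD, hf, hyf⟩ := exists_sqfree y hy0
  have lo : ∀ {n m : ℕ}, n ≠ 0 → Nat.log 2 n = m → (2 ^ m : ℝ) ≤ (n : ℝ) := by
    intro n m hn h
    rw [← h]
    exact_mod_cast Nat.pow_log_le_self 2 hn
  have hi : ∀ {n m : ℕ}, Nat.log 2 n = m → (n : ℝ) ≤ 2 * (2 ^ m : ℝ) := by
    intro n m h
    have h1 : n < 2 ^ (Nat.log 2 n).succ := Nat.lt_pow_succ_log_self (by norm_num) n
    rw [h] at h1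
    have h2 : (n : ℝ) < ((2 ^ m.succ : ℕ) : ℝ) := by exact_mod_cast h1
    push_cast at h2
    rw [pow_succ] at h2
    linarith
  have hrA : ∀ w, rd (A w) ≠ 0 := fun w => (rd_pos _).ne'
  have hrB : ∀ w, rd (B w) ≠ 0 := fun w => (rd_pos _).ne'
  have htn : ∀ w ∈ P, t w ≠ 0 := fun w hw => odd_ne_zero (hdat w hw).ot
  have hbig : ∀ w ∈ P, ∀ {u v : ℕ}, u * v * t w = rd (A w) * rd (B w) * t w → (v : ℝ) ≤ Y ^ (1 / 4 - η) →
      Y ^ (1 / 4 : ℝ) ≤ (u : ℝ) * t w := by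
    intro w hw u v huv hv
    have h1 : Y ^ ((1 - κ) / 2) ≤ (rd w.1.natAbs : ℝ) := (hP.rad1 w hw).1
    have h2 : (rd w.1.natAbs : ℝ) ≤ 2 * ((u : ℝ) * v * t w) := by
      have h3 := (hdat w hw).upper
      rw [← huv] at h3
      exact_mod_cast h3
    have h4 : Y ^ ((1 - κ) / 2) ≤ 2 * ((u : ℝ) * t w) * Y ^ (1 / 4 - η) := by
      calc Y ^ ((1 - κ) / 2) ≤ 2 * ((u : ℝ) * v * t w) := h1.trans h2
        _ = 2 * ((u : ℝ) * t w) * v := by ring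
        _ ≤ 2 * ((u : ℝ) * t w) * Y ^ (1 / 4 - η) := by gcongr
    have h5 : 2 * Y ^ (1 / 4 : ℝ) * Y ^ (1 / 4 - η) ≤ Y ^ ((1 - κ) / 2) := by
      calc 2 * Y ^ (1 / 4 : ℝ) * Y ^ (1 / 4 - η) ≤ Y ^ (η / 2) * Y ^ (1 / 4 : ℝ) * Y ^ (1 / 4 - η) := by gcongr
        _ = Y ^ (1 / 2 - η / 2) := by
            rw [← Real.rpow_add hY0, ← Real.rpow_add hY0]
            congr 1
            ring
        _ ≤ Y ^ ((1 - κ) / 2) := Real.rpow_le_rpow_of_exponent_le hY.le (by linarith)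
    have h6 : 0 < Y ^ (1 / 4 - η) := by positivity
    have h7 : 2 * Y ^ (1 / 4 : ℝ) ≤ 2 * ((u : ℝ) * t w) := by
      by_contra h8
      rw [not_le] at h8
      have := mul_lt_mul_of_pos_right h8 h6
      linarith
    linarith
  have hd0 := hdat w0 hw0P
  have hlo0 : (rd (A w0) : ℝ) * rd (B w0) * t w0 ≤ (rd w0.1.natAbs : ℝ) := by
    exact_mod_cast hd0.lower (hx0 w0 hw0P)
  have hhi0 : (rd w0.1.natAbs : ℝ) ≤ 2 * ((rd (A w0) : ℝ) * rd (B w0) * t w0) := by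
    exact_mod_cast hd0.upper
  have eA := lo (hrA w0) (ha w0 hw0P)
  have eB := lo (hrB w0) (hb w0 hw0P)
  have eT := lo (htn w0 hw0P) (ht w0 hw0P)
  have fA := hi (ha w0 hw0P)
  have fB := hi (hb w0 hw0P)
  have fT := hi (ht w0 hw0P)
  refine ⟨D, f, ?_, by rw [← hl w0 hw0P]; exact hd0.hlL, eA.trans hd0.rA, eB.trans hd0.rB, ?_, ?_, ?_⟩
  · exact {
      hY := hY.le
      hK := hK
      hκ := hκ
      good := hP
      sub := hS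
      hy := hy
      hD := hD
      hf := hf
      hyf := hyf
      hl1 := by rw [← hl w0 hw0P]; exact hd0.hl1
      eq := fun w hw => by rw [← hl w (hS hw)]; exact (hdat w (hS hw)).eq
      oA := fun w hw => (hdat w (hS hw)).oA
      oB := fun w hw => (hdat w (hS hw)).oB
      ot := fun w hw => (hdat w (hS hw)).ot
      AB := fun w hw => (hdat w (hS hw)).AB
      At := fun w hw => (hdat w (hS hw)).At
      Bt := fun w hw => (hdat w (hS hw)).Bt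
      sq := fun w hw => (hdat w (hS hw)).sq
      hRA := one_le_pow₀ (by norm_num)
      hRB := one_le_pow₀ (by norm_num)
      hRT := one_le_pow₀ (by norm_num)
      RAl := fun w hw => lo (hrA w) (ha w (hS hw))
      RAh := fun w hw => hi (ha w (hS hw))
      RBl := fun w hw => lo (hrB w) (hb w (hS hw))
      RBh := fun w hw => hi (hb w (hS hw))
      RTl := fun w hw => lo (htn w (hS hw)) (ht w (hS hw))
      RTh := fun w hw => hi (ht w (hS hw))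
      bigA := fun w hw => hbig w (hS hw) rfl (hdat w (hS hw)).rB
      bigB := fun w hw => hbig w (hS hw) (by ring) (hdat w (hS hw)).rA }
  · calc (2 ^ a0 : ℝ) * 2 ^ b0 * 2 ^ t0 ≤ (rd (A w0) : ℝ) * rd (B w0) * t w0 := by gcongr
      _ ≤ (rd w0.1.natAbs : ℝ) := hlo0
      _ ≤ Y ^ ((1 + κ) / 2) := (hP.rad1 w0 hw0P).2
  · calc Y ^ ((1 - κ) / 2) ≤ (rd w0.1.natAbs : ℝ) := (hP.rad1 w0 hw0P).1
      _ ≤ 2 * ((rd (A w0) : ℝ) * rd (B w0) * t w0) := hhi0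
      _ ≤ 2 * ((2 * (2 ^ a0 : ℝ)) * (2 * 2 ^ b0) * (2 * 2 ^ t0)) := by gcongr
      _ = 16 * ((2 ^ a0 : ℝ) * 2 ^ b0 * 2 ^ t0) := by ring
  · have h1 : (rd w0.2.natAbs : ℝ) ≤ Y ^ ((1 + κ) / 2) := (hP.rad2 w0 hw0P).2
    refine le_trans ?_ h1
    have h2 : D.natAbs ≤ rd w0.2.natAbs := by
      have h3 : rd D.natAbs = D.natAbs := rd_sq (Int.squarefree_natAbs.mpr hD)
      rw [← h3]
      apply rd_mono' (Int.natAbs_ne_zero.mpr (hP.base w0 hw0P).2.1)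
      intro p _ hp
      rw [hy w0 hw0, hyf, Int.natAbs_mul]
      exact hp.trans (Dvd.intro_left _ rfl)
    calc ((|D| : ℤ) : ℝ) = (D.natAbs : ℝ) := by rw [Nat.cast_natAbs]
      _ ≤ _ := by exact_mod_cast h2

open scoped Classical in
/-- conclusion of `extraction_col` -/
def ExtCol (K ε0 κ : ℝ) : Prop := ∃ C δ : ℝ, 0 < C ∧ 0 < δ ∧
    ∀ Y : ℝ, 1 ≤ Y → ∀ (P : Finset (ℤ × ℤ)) (N : ℕ) (col : ℤ × ℤ → Fin N), (N : ℝ) ≤ Y ^ δ →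
      (∀ w ∈ P, w ∈ PairSet K ε0 Y) → C * Y ^ (3 / 4 - δ) < (P.card : ℝ) →
      ∃ P' ⊆ P, Good K ε0 κ Y P' ∧ Y ^ (3 / 4 - κ) ≤ (P'.card : ℝ) ∧ ∃ k, ∀ w ∈ P', col w = k

open scoped Classical in
/-- conclusion of `critical` -/
def Crit (K ε0 κ : ℝ) : Prop := ∃ Y0 : ℝ, 1 ≤ Y0 ∧
    ∀ Y : ℝ, Y0 ≤ Y → ∀ P : Finset (ℤ × ℤ), Good K ε0 κ Y P → Y ^ (3 / 4 - κ) ≤ (P.card : ℝ) →
      Y ^ (1 / 2 - 3 * κ) ≤ (((P.image Prod.snd).filter (fun y => Y ^ (1 / 4 - 2 * κ) ≤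
        ((P.filter (fun w => w.2 = y)).card : ℝ))).card : ℝ)

theorem fp_extract_of (K ε0 η κ : ℝ) (L : ℕ) (hK : 2 ≤ K) (hη : 0 < η) (hκ : 0 < κ) (hκη : 4 * κ ≤ η)
    (hext0 : ExtCol K ε0 κ) (hcr0 : Crit K ε0 κ) :
    ∃ Y0 C δ : ℝ, 1 ≤ Y0 ∧ 0 < C ∧ 0 < δ ∧ ∀ Y : ℝ, Y0 ≤ Y → ∀ P : Finset (ℤ × ℤ),
      (∀ w ∈ P, w ∈ PairSet K ε0 Y ∧ IsP η L Y w.1) → C * Y ^ (3 / 4 - δ) < (P.card : ℝ) →
      ∃ (l : ℕ) (RA RB RT : ℝ) (P' : Finset (ℤ × ℤ)) (y D : ℤ) (f : ℕ) (e A B t : ℤ × ℤ → ℕ) (S : Finset (ℤ × ℤ)),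
        Fib K ε0 κ Y l RA RB RT P' y D f e A B t S ∧ l ≤ L ∧ Y ^ (1 / 4 - 2 * κ) ≤ (S.card : ℝ) ∧
        RA ≤ Y ^ (1 / 4 - η) ∧ RB ≤ Y ^ (1 / 4 - η) ∧ RA * RB * RT ≤ Y ^ ((1 + κ) / 2) ∧
        Y ^ ((1 - κ) / 2) ≤ 16 * (RA * RB * RT) ∧ ((|D| : ℤ) : ℝ) ≤ Y ^ ((1 + κ) / 2) := by
  classical
  obtain ⟨C, δ, hC, hδ, hext⟩ := hext0
  obtain ⟨Y1, hY1, hcr⟩ := hcr0
  obtain ⟨Y2, hY2, hcol⟩ := colours_few K (by linarith) L δ hδ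
  refine ⟨max (max 2 (2 ^ (2 / η))) (max Y1 Y2), C, δ, ?_, hC, hδ, ?_⟩
  · exact le_trans (by norm_num) ((le_max_left (2 : ℝ) _).trans (le_max_left _ _))
  intro Y hY P hP hcard
  simp only [max_le_iff] at hY
  obtain ⟨⟨hYa, hYb⟩, hYc, hYd⟩ := hY
  have hYg : 1 < Y := by linarith
  have hY0 : 0 < Y := by linarith
  have h2 : (2 : ℝ) ≤ Y ^ (η / 2) := by
    calc (2 : ℝ) = (2 ^ (2 / η)) ^ (η / 2) := by
          rw [← Real.rpow_mul (by norm_num), div_mul_div_comm, mul_comm 2 η, div_self (by positivity), Real.rpow_one]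
      _ ≤ Y ^ (η / 2) := Real.rpow_le_rpow (by positivity) hYb (by positivity)
  obtain ⟨e, A, B, t, l, hdat⟩ := exists_pdat η L Y
  set n : ℕ := Nat.log 2 ⌊Y ^ K⌋₊ with hn
  let T : Type := Fin (L + 1) × (Fin (n + 1) × (Fin (n + 1) × Fin (n + 1)))
  have hT : Fintype.card T = (L + 1) * ((n + 1) * ((n + 1) * (n + 1))) := by
    simp [T, Fintype.card_prod, Fintype.card_fin]
  let tup : ℤ × ℤ → T := fun w => (Fin.ofNat (L + 1) (l w), (Fin.ofNat (n + 1) (Nat.log 2 (rd (A w))),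
    (Fin.ofNat (n + 1) (Nat.log 2 (rd (B w))), Fin.ofNat (n + 1) (Nat.log 2 (t w)))))
  let col : ℤ × ℤ → Fin (Fintype.card T) := fun w => Fintype.equivFin T (tup w)
  obtain ⟨P', hP', hgood, hcard', k, hk⟩ := hext Y hYg.le P (Fintype.card T) col (by rw [hT]; exact hcol Y hYd)
    (fun w hw => (hP w hw).1) hcard
  have hdat' : ∀ w ∈ P', PDat η L Y w.1 (e w) (A w) (B w) (t w) (l w) := fun w hw => hdat w (hP w (hP' hw)).2
  have hlogle : ∀ w ∈ P', ∀ m : ℕ, m ≤ w.1.natAbs → Nat.log 2 m ≤ n := by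
    intro w hw m hm
    apply Nat.log_mono_right
    apply Nat.le_floor
    calc (m : ℝ) ≤ (w.1.natAbs : ℝ) := by exact_mod_cast hm
      _ ≤ Y ^ K := (hgood.base w hw).2.2.2.2.2.2.1
  have hcr' := hcr Y hYc P' hgood hcard'
  have hpos : (0 : ℝ) < Y ^ (1 / 2 - 3 * κ) := by positivity
  have hne : ((P'.image Prod.snd).filter (fun y => Y ^ (1 / 4 - 2 * κ) ≤
      ((P'.filter (fun w => w.2 = y)).card : ℝ))).Nonempty := by
    rw [← card_pos]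
    have : (0 : ℝ) < (((P'.image Prod.snd).filter (fun y => Y ^ (1 / 4 - 2 * κ) ≤
      ((P'.filter (fun w => w.2 = y)).card : ℝ))).card : ℝ) := lt_of_lt_of_le hpos hcr'
    exact_mod_cast this
  obtain ⟨y, hy⟩ := hne
  rw [mem_filter] at hy
  set S : Finset (ℤ × ℤ) := P'.filter (fun w => w.2 = y) with hS
  have hSne : S.Nonempty := by
    rw [← card_pos]
    have : (0 : ℝ) < Y ^ (1 / 4 - 2 * κ) := by positivity
    have : (0 : ℝ) < (S.card : ℝ) := lt_of_lt_of_le this hy.2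
    exact_mod_cast this
  obtain ⟨w0, hw0⟩ := hSne
  have hw0' : w0 ∈ P' := (mem_filter.mp hw0).1
  have htup : ∀ w ∈ P', tup w = tup w0 := by
    intro w hw
    have h3 : col w = col w0 := by rw [hk w hw, hk w0 hw0']
    exact (Fintype.equivFin T).injective h3
  have hval : ∀ {N a b : ℕ}, a ≤ N → b ≤ N → Fin.ofNat (N + 1) a = Fin.ofNat (N + 1) b → a = b := by
    intro N a b ha hb hab
    have h3 := congrArg Fin.val hab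
    simp only [Fin.val_ofNat] at h3
    rwa [Nat.mod_eq_of_lt (by omega), Nat.mod_eq_of_lt (by omega)] at h3
  have hl : ∀ w ∈ P', l w = l w0 := fun w hw =>
    hval (hdat' w hw).hlL (hdat' w0 hw0').hlL (congrArg (fun v : T => v.1) (htup w hw))
  have hx0 : ∀ w ∈ P', w.1 ≠ 0 := fun w hw => (hgood.base w hw).1
  have ha : ∀ w ∈ P', Nat.log 2 (rd (A w)) = Nat.log 2 (rd (A w0)) := fun w hw =>
    hval (hlogle w hw _ ((hdat' w hw).le (hx0 w hw)).1) (hlogle w0 hw0' _ ((hdat' w0 hw0').le (hx0 w0 hw0')).1)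
      (congrArg (fun v : T => v.2.1) (htup w hw))
  have hb : ∀ w ∈ P', Nat.log 2 (rd (B w)) = Nat.log 2 (rd (B w0)) := fun w hw =>
    hval (hlogle w hw _ ((hdat' w hw).le (hx0 w hw)).2.1) (hlogle w0 hw0' _ ((hdat' w0 hw0').le (hx0 w0 hw0')).2.1)
      (congrArg (fun v : T => v.2.2.1) (htup w hw))
  have ht : ∀ w ∈ P', Nat.log 2 (t w) = Nat.log 2 (t w0) := fun w hw =>
    hval (hlogle w hw _ ((hdat' w hw).le (hx0 w hw)).2.2) (hlogle w0 hw0' _ ((hdat' w0 hw0').le (hx0 w0 hw0')).2.2)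
      (congrArg (fun v : T => v.2.2.2) (htup w hw))
  obtain ⟨D, f, h3, h4, h5, h6, h7, h8, h9⟩ := fib_of hK hη hκ hκη hYg h2 hgood hdat' hl ha hb ht
    (S := S) (y := y) (filter_subset _ _) ⟨w0, hw0⟩ (fun w hw => (mem_filter.mp hw).2)
  exact ⟨l w0, _, _, _, P', y, D, f, e, A, B, t, S, h3, h4, hy.2, h5, h6, h7, h8, h9⟩

end Hp

end Pool.Agent.Lib.MP_d8bd92_nt
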