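import Pool.Agent.Lib.MP_d8bd92_nt.Hp.FPg
import Pool.Agent.Lib.MP_d8bd92_nt.Hp.FNb
import Pool.Agent.Lib.MP_d8bd92_nt.Hp.FPx

set_option autoImplicit false

/-! Block 3.A: few pairs of type P. -/

namespace Pool.Agent.Lib.MP_d8bd92_nt

namespace Hp

open Finset Pool.Agent.Lib.Szpiro

private theorem fewP_few_large (K ε0 : ℝ) (Q Q' : ℝ → ℤ × ℤ → Prop) (Y0 : ℝ) (hQ : Few K ε0 Q)
    (h : ∀ Y w, Y0 ≤ Y → w ∈ PairSet K ε0 Y → Q' Y w → Q Y w) : Few K ε0 Q' := by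
  classical
  obtain ⟨C, δ, hC, hδ, hb⟩ := hQ
  set B : ℕ := ⌊(max 1 Y0) ^ (max K 0)⌋₊ with hB
  set C1 : ℝ := ((Finset.Icc (-(B : ℤ)) B ×ˢ Finset.Icc (-(B : ℤ)) B).card : ℝ) with hC1
  have hC10 : 0 ≤ C1 := by positivity
  refine ⟨C + C1, min δ (1 / 2), by positivity, lt_min hδ (by norm_num), fun Y hY P hP => ?_⟩
  have hY0 : 0 < Y := by linarith
  have h4 : Y ^ (3 / 4 - δ) ≤ Y ^ (3 / 4 - min δ (1 / 2)) :=
    Real.rpow_le_rpow_of_exponent_le hY (by linarith [min_le_left δ (1 / 2 : ℝ)])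
  have h5 : 1 ≤ Y ^ (3 / 4 - min δ (1 / 2 : ℝ)) :=
    Real.one_le_rpow hY (by linarith [min_le_right δ (1 / 2 : ℝ)])
  by_cases hYY : Y0 ≤ Y
  · have h1 := hb Y hY P (fun w hw => ⟨(hP w hw).1, h Y w hYY (hP w hw).1 (hP w hw).2⟩)
    calc (P.card : ℝ) ≤ C * Y ^ (3 / 4 - δ) := h1
      _ ≤ C * Y ^ (3 / 4 - min δ (1 / 2)) := by gcongr
      _ ≤ (C + C1) * Y ^ (3 / 4 - min δ (1 / 2)) := by gcongr; linarith
  · push Not at hYY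
    have hsub : P ⊆ Finset.Icc (-(B : ℤ)) B ×ˢ Finset.Icc (-(B : ℤ)) B := by
      intro w hw
      obtain ⟨_, _, _, _, _, _, h1, h2⟩ := (hP w hw).1
      have h6 : Y ^ K ≤ (max 1 Y0) ^ (max K 0) := by
        calc Y ^ K ≤ Y ^ (max K 0) := Real.rpow_le_rpow_of_exponent_le hY (le_max_left _ _)
          _ ≤ (max 1 Y0) ^ (max K 0) := Real.rpow_le_rpow hY0.le
            (hYY.le.trans (le_max_right _ _)) (le_max_right _ _)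
      have h7 : w.1.natAbs ≤ B := Nat.le_floor (h1.trans h6)
      have h8 : w.2.natAbs ≤ B := Nat.le_floor (h2.trans h6)
      rw [Finset.mem_product, Finset.mem_Icc, Finset.mem_Icc]
      refine ⟨⟨?_, ?_⟩, ⟨?_, ?_⟩⟩ <;> omega
    have h9 : (P.card : ℝ) ≤ C1 := by
      rw [hC1]
      exact_mod_cast Finset.card_le_card hsub
    calc (P.card : ℝ) ≤ C1 := h9
      _ ≤ (C + C1) * 1 := by linarith
      _ ≤ (C + C1) * Y ^ (3 / 4 - min δ (1 / 2)) := by gcongr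

/-- from a contradiction for fibres to `Few` -/
theorem few_P_of_contra (K ε0 η κ : ℝ) (L : ℕ) (hK : 2 ≤ K) (hη : 0 < η) (hκ : 0 < κ) (hκη : κ ≤ η / 8)
    (hext : ExtCol K ε0 κ) (hcr : Crit K ε0 κ)
    (hb : ∃ Y0 : ℝ, 1 ≤ Y0 ∧ ∀ Y : ℝ, Y0 ≤ Y →
      ∀ {l : ℕ} {RA RB RT : ℝ} {P : Finset (ℤ × ℤ)} {y D : ℤ} {f : ℕ} {e A B t : ℤ × ℤ → ℕ} {S : Finset (ℤ × ℤ)},
        Fib K ε0 κ Y l RA RB RT P y D f e A B t S → l ≤ L → Y ^ (1 / 4 - 2 * κ) ≤ (S.card : ℝ) → RA ≤ RB →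
        RA ≤ Y ^ (1 / 4 - η) → RB ≤ Y ^ (1 / 4 - η) → RA * RB * RT ≤ Y ^ ((1 + κ) / 2) →
        Y ^ ((1 - κ) / 2) ≤ 16 * (RA * RB * RT) → ((|D| : ℤ) : ℝ) ≤ Y ^ ((1 + κ) / 2) → False) :
    Few K ε0 (fun Y w => IsP η L Y w.1) := by
  obtain ⟨Y0, hY0, hb⟩ := hb
  obtain ⟨Y1, C, δ, hY1, hC, hδ, hb1⟩ := fp_extract_of K ε0 η κ L hK hη hκ (by linarith) hext hcr
  apply fewP_few_large K ε0 (fun Y w => max Y0 Y1 ≤ Y ∧ IsP η L Y w.1) _ (max Y0 Y1) _ (fun Y w hY _ hq => ⟨hY, hq⟩)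
  refine ⟨C, δ, hC, hδ, fun Y hY P hP => ?_⟩
  by_contra hlt
  rw [not_le] at hlt
  have hPne : P.Nonempty := by
    rw [nonempty_iff_ne_empty]
    rintro rfl
    have : 0 < Y := by linarith
    have h1 : 0 < C * Y ^ (3 / 4 - δ) := by positivity
    simp at hlt
    linarith
  obtain ⟨w0, hw0⟩ := hPne
  have hYm := (hP w0 hw0).2.1
  rw [max_le_iff] at hYm
  obtain ⟨l, RA, RB, RT, P', y, D, f, e, A, B, t, S, hF, hlL, hS, hRA, hRB, hs1, hs2, hD⟩ :=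
    hb1 Y hYm.2 P (fun w hw => ⟨(hP w hw).1, (hP w hw).2.2⟩) hlt
  rcases le_total RA RB with h | h
  · exact hb Y hYm.1 hF hlL hS h hRA hRB hs1 hs2 hD
  · exact hb Y hYm.1 hF.swap hlL hS h hRB hRA (by rw [mul_comm RB RA]; exact hs1) (by rw [mul_comm RB RA]; exact hs2) hD

/-- `few_P`, from `extraction_col` and `critical` -/
theorem few_P_of (K ε0 η : ℝ) (L : ℕ) (hK : 2 ≤ K) (hε : 0 < ε0) (hη : 0 < η)
    (hext : ∀ κ : ℝ, 0 < κ → ExtCol K ε0 κ) (hcr : ∀ κ : ℝ, 0 < κ → κ ≤ 1 / 100 → Crit K ε0 κ) :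
    Few K ε0 (fun Y w => IsP η L Y w.1) := by
  obtain ⟨κ, hκ, hκ1, hκη, hb⟩ := fp_contra_le K ε0 η L hK hε hη
  exact few_P_of_contra K ε0 η κ L hK hη hκ hκη (hext κ hκ) (hcr κ hκ hκ1) hb

/-- the stronger version: the exponent `2 - e1` for the larger side is enough -/
theorem few_P_neg_of (K η : ℝ) (L : ℕ) (hK : 2 ≤ K) (hη : 0 < η)
    (hext : ∀ ε0 κ : ℝ, -(1 / 100) ≤ ε0 → 0 < κ → ExtCol K ε0 κ)
    (hcr : ∀ ε0 κ : ℝ, -(1 / 100) ≤ ε0 → 0 < κ → κ ≤ 1 / 100 → Crit K ε0 κ) :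
    ∃ e1 : ℝ, 0 < e1 ∧ e1 ≤ 1 / 100 ∧ ∀ ε0 : ℝ, -e1 ≤ ε0 → Few K ε0 (fun Y w => IsP η L Y w.1) := by
  refine ⟨min (1 / 100) (η / 100), lt_min (by norm_num) (by positivity), min_le_left _ _, fun ε0 hε => ?_⟩
  have h1 : -(1 / 100) ≤ ε0 := by linarith [min_le_left (1 / 100 : ℝ) (η / 100)]
  have h2 : -(η / 100) ≤ ε0 := by linarith [min_le_right (1 / 100 : ℝ) (η / 100)]
  obtain ⟨κ, hκ, hκ1, hκη, hb⟩ := fn_contra_le K ε0 η L hK h2 hη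
  exact few_P_of_contra K ε0 η κ L hK hη hκ hκη (hext ε0 κ h1 hκ) (hcr ε0 κ h1 hκ hκ1) hb

end Hp

end Pool.Agent.Lib.MP_d8bd92_nt
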