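import Pool.Agent.Lib.MP_d8bd92_nt.Hp.Preds

set_option autoImplicit false

/-!
MP_d8bd92_nt, file Pf9: from good sets to `Few`.
-/

namespace Pool.Agent.Lib.MP_d8bd92_nt

namespace Hp

open Finset Pool.Agent.Lib.Szpiro

/-- conclusion of `extraction` -/
def ExtP (K ε0 κ : ℝ) : Prop := ∃ C δ : ℝ, 0 < C ∧ 0 < δ ∧
    ∀ Y : ℝ, 1 ≤ Y → ∀ P : Finset (ℤ × ℤ), (∀ w ∈ P, w ∈ PairSet K ε0 Y) → C * Y ^ (3 / 4 - δ) < (P.card : ℝ) →
      ∃ P' ⊆ P, Good K ε0 κ Y P' ∧ Y ^ (3 / 4 - κ) ≤ (P'.card : ℝ)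

/-- Row Pf9.  From `extraction`: `C`, `δ`.  For `Y ≥ max Y0 1` the bound `C Y^(3/4-δ)` must hold (else a good subset `P'` contradicts `h`).  For `Y < Y0` all pairs lie in a fixed
finite box (proof of `few_large'` in Asm.lean): a constant bound; take `δ' = min δ (1/2)`. -/
theorem few_of_good (K ε0 κ : ℝ) (hext : ExtP K ε0 κ) (Y0 : ℝ) (Q : ℝ → ℤ × ℤ → Prop)
    (h : ∀ Y : ℝ, Y0 ≤ Y → 1 ≤ Y → ∀ P : Finset (ℤ × ℤ), Good K ε0 κ Y P → (∀ w ∈ P, Q Y w) →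
      (P.card : ℝ) < Y ^ (3 / 4 - κ)) : Few K ε0 Q := by
  classical
  obtain ⟨C, δ, hC, hδ, hb⟩ := hext
  set B : ℕ := ⌊(max 1 Y0) ^ (max K 0)⌋₊ with hB
  set C1 : ℝ := ((Finset.Icc (-(B : ℤ)) B ×ˢ Finset.Icc (-(B : ℤ)) B).card : ℝ) with hC1
  have hC10 : 0 ≤ C1 := by positivity
  refine ⟨C + C1, min δ (1 / 2), by positivity, lt_min hδ (by norm_num), fun Y hY P hP => ?_⟩
  have hY0 : 0 < Y := by linarith
  have h4 : Y ^ (3 / 4 - δ) ≤ Y ^ (3 / 4 - min δ (1 / 2)) :=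
    Real.rpow_le_rpow_of_exponent_le hY (by linarith [min_le_left δ (1 / 2 : ℝ)])
  have h5 : 1 ≤ Y ^ (3 / 4 - min δ (1 / 2 : ℝ)) :=
    Real.one_le_rpow hY (by linarith [min_le_right δ (1 / 2 : ℝ)])
  by_cases hYY : Y0 ≤ Y
  · have h1 : (P.card : ℝ) ≤ C * Y ^ (3 / 4 - δ) := by
      by_contra hcon
      push Not at hcon
      obtain ⟨P', hsub, hgood, hcard⟩ := hb Y hY P (fun w hw => (hP w hw).1) hcon
      have h2 := h Y hYY hY P' hgood (fun w hw => (hP w (hsub hw)).2)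
      linarith
    calc (P.card : ℝ) ≤ C * Y ^ (3 / 4 - δ) := h1
      _ ≤ C * Y ^ (3 / 4 - min δ (1 / 2)) := by gcongr
      _ ≤ (C + C1) * Y ^ (3 / 4 - min δ (1 / 2)) := by gcongr; linarith
  · push Not at hYY
    have hsub : P ⊆ Finset.Icc (-(B : ℤ)) B ×ˢ Finset.Icc (-(B : ℤ)) B := by
      intro w hw
      obtain ⟨_, _, _, _, _, _, h1, h2⟩ := (hP w hw).1
      have h6 : Y ^ K ≤ (max 1 Y0) ^ (max K 0) := by
        calc Y ^ K ≤ Y ^ (max K 0) := Real.rpow_le_rpow_of_exponent_le hY (le_max_left _ _)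
          _ ≤ (max 1 Y0) ^ (max K 0) := Real.rpow_le_rpow hY0.le
            (hYY.le.trans (le_max_right _ _)) (le_max_right _ _)
      have h7 : w.1.natAbs ≤ B := Nat.le_floor (h1.trans h6)
      have h8 : w.2.natAbs ≤ B := Nat.le_floor (h2.trans h6)
      rw [Finset.mem_product, Finset.mem_Icc, Finset.mem_Icc]
      refine ⟨⟨?_, ?_⟩, ⟨?_, ?_⟩⟩ <;> omega
    have h9 : (P.card : ℝ) ≤ C1 := by
      rw [hC1]
      exact_mod_cast Finset.card_le_card hsub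
    calc (P.card : ℝ) ≤ C1 := h9
      _ ≤ (C + C1) * 1 := by linarith
      _ ≤ (C + C1) * Y ^ (3 / 4 - min δ (1 / 2)) := by gcongr

end Hp

end Pool.Agent.Lib.MP_d8bd92_nt
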