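import Pool.Agent.Lib.MP_d8bd92_nt.Hp.Extract
import Pool.Agent.Lib.MP_d8bd92_nt.Hp.Pf9

set_option autoImplicit false

/-!
Ladder block: reduction to fibres.
-/

namespace Pool.Agent.Lib.MP_d8bd92_nt

namespace Hp

open Finset Pool.Agent.Lib.Szpiro

/-- `Good` is inherited by subsets -/
theorem lad_good_subset {K ε0 κ Y : ℝ} {P P' : Finset (ℤ × ℤ)} (h : Good K ε0 κ Y P) (hs : P' ⊆ P) : Good K ε0 κ Y P' := by
  classical
  refine ⟨fun w hw => h.base w (hs hw), fun w hw => h.rad1 w (hs hw), fun w hw => h.rad2 w (hs hw),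
    fun w hw => h.nsq w (hs hw), fun w hw w' hw' => h.dy w (hs hw) w' (hs hw'), ?_, ?_⟩
  · intro w hw u hu
    refine le_trans ?_ (h.qr1 w (hs hw) u hu)
    exact_mod_cast Finset.card_le_card (Finset.filter_subset_filter _ hs)
  · intro w hw u hu
    refine le_trans ?_ (h.qr2 w (hs hw) u hu)
    exact_mod_cast Finset.card_le_card (Finset.filter_subset_filter _ hs)

/-- a set of pairs with both members at most `N` in absolute value -/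
private theorem LadI_box (N : ℕ) (P : Finset (ℤ × ℤ)) (h : ∀ w ∈ P, w.1.natAbs ≤ N ∧ w.2.natAbs ≤ N) :
    (P.card : ℝ) ≤ (2 * (N : ℝ) + 1) ^ 2 := by
  have h1 : P ⊆ (Finset.Icc (-(N : ℤ)) N) ×ˢ (Finset.Icc (-(N : ℤ)) N) := by
    intro w hw
    obtain ⟨h2, h3⟩ := h w hw
    rw [Finset.mem_product, Finset.mem_Icc, Finset.mem_Icc]
    omega
  have h2 := Finset.card_le_card h1
  rw [Finset.card_product, Int.card_Icc] at h2
  have h3 : ((N : ℤ) + 1 - -(N : ℤ)).toNat = 2 * N + 1 := by omega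
  rw [h3] at h2
  calc (P.card : ℝ) ≤ (((2 * N + 1) * (2 * N + 1) : ℕ) : ℝ) := by exact_mod_cast h2
    _ = (2 * (N : ℝ) + 1) ^ 2 := by push_cast; ring

/-- small `Y` do not matter -/
theorem few_of_large_Y (K ε0 : ℝ) (hK : 2 ≤ K) (Q : ℝ → ℤ × ℤ → Prop) (C δ Y0 : ℝ) (hC : 0 < C) (hδ : 0 < δ) (hY0 : 1 ≤ Y0)
    (h : ∀ (Y : ℝ), Y0 ≤ Y → ∀ P : Finset (ℤ × ℤ), (∀ w ∈ P, w ∈ PairSet K ε0 Y ∧ Q Y w) → (P.card : ℝ) ≤ C * Y ^ (3 / 4 - δ)) :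
    Few K ε0 Q := by
  refine ⟨C + (2 * (⌊Y0 ^ K⌋₊ : ℝ) + 1) ^ 2, min δ (3 / 4), by positivity, lt_min hδ (by norm_num), ?_⟩
  intro Y hY P hP
  have hexp : (0 : ℝ) ≤ 3 / 4 - min δ (3 / 4) := by
    have := min_le_right δ (3 / 4 : ℝ)
    linarith
  have hpow1 : (1 : ℝ) ≤ Y ^ (3 / 4 - min δ (3 / 4)) := Real.one_le_rpow hY hexp
  have hsq : (0 : ℝ) ≤ (2 * (⌊Y0 ^ K⌋₊ : ℝ) + 1) ^ 2 := sq_nonneg _
  by_cases hY2 : Y0 ≤ Y
  · have h1 := h Y hY2 P hP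
    have h2 : Y ^ (3 / 4 - δ) ≤ Y ^ (3 / 4 - min δ (3 / 4)) := by
      apply Real.rpow_le_rpow_of_exponent_le hY
      have := min_le_left δ (3 / 4 : ℝ)
      linarith
    calc (P.card : ℝ) ≤ C * Y ^ (3 / 4 - δ) := h1
      _ ≤ C * Y ^ (3 / 4 - min δ (3 / 4)) := mul_le_mul_of_nonneg_left h2 hC.le
      _ ≤ (C + (2 * (⌊Y0 ^ K⌋₊ : ℝ) + 1) ^ 2) * Y ^ (3 / 4 - min δ (3 / 4)) := by
          apply mul_le_mul_of_nonneg_right _ (by linarith)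
          linarith
  · push Not at hY2
    have hYK : Y ^ K ≤ Y0 ^ K := Real.rpow_le_rpow (by linarith) hY2.le (by linarith)
    have h1 : ∀ w ∈ P, w.1.natAbs ≤ ⌊Y0 ^ K⌋₊ ∧ w.2.natAbs ≤ ⌊Y0 ^ K⌋₊ := by
      intro w hw
      obtain ⟨⟨-, -, -, -, -, -, h6, h7⟩, -⟩ := hP w hw
      exact ⟨Nat.le_floor (h6.trans hYK), Nat.le_floor (h7.trans hYK)⟩
    have h2 := LadI_box _ P h1
    calc (P.card : ℝ) ≤ (2 * (⌊Y0 ^ K⌋₊ : ℝ) + 1) ^ 2 * 1 := by rw [mul_one]; exact h2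
      _ ≤ (2 * (⌊Y0 ^ K⌋₊ : ℝ) + 1) ^ 2 * Y ^ (3 / 4 - min δ (3 / 4)) :=
          mul_le_mul_of_nonneg_left hpow1 hsq
      _ ≤ (C + (2 * (⌊Y0 ^ K⌋₊ : ℝ) + 1) ^ 2) * Y ^ (3 / 4 - min δ (3 / 4)) := by
          apply mul_le_mul_of_nonneg_right _ (by linarith)
          linarith

/-- reduction to one fibre: it is enough to bound good fibres -/
theorem few_of_fibre (K ε0 κ : ℝ) (hK : 2 ≤ K) (hκ : 0 < κ) (hκ1 : κ ≤ 1 / 100) (hext0 : ExtP K ε0 κ) (Q : ℝ → ℤ × ℤ → Prop) (Y0 : ℝ)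
    (h : ∀ (Y : ℝ) (P : Finset (ℤ × ℤ)) (y : ℤ), Y0 ≤ Y → 1 ≤ Y → Good K ε0 κ Y P → P.Nonempty → (∀ w ∈ P, Q Y w) →
      (∀ w ∈ P, w.2 = y) → (P.card : ℝ) < Y ^ (1 / 4 - 2 * κ)) : Few K ε0 Q := by
  classical
  obtain ⟨C, δ, hC, hδ, hext⟩ := hext0
  obtain ⟨Y1, hY1, hcrit⟩ := critical_g K ε0 κ hK hκ hκ1
  refine few_of_large_Y K ε0 hK Q C δ (max Y0 Y1) hC hδ (hY1.trans (le_max_right _ _)) ?_
  intro Y hY P hP
  have hY0' : Y0 ≤ Y := (le_max_left _ _).trans hY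
  have hY1' : Y1 ≤ Y := (le_max_right _ _).trans hY
  have hY1'' : 1 ≤ Y := hY1.trans hY1'
  by_contra hcon
  push Not at hcon
  obtain ⟨P', hP', hgood, hbig⟩ := hext Y hY1'' P (fun w hw => (hP w hw).1) hcon
  have h1 := hcrit Y hY1' P' hgood hbig
  have hpos : (0 : ℝ) < Y ^ (1 / 2 - 3 * κ) := Real.rpow_pos_of_pos (by linarith) _
  have h2 : ((P'.image Prod.snd).filter (fun y => Y ^ (1 / 4 - 2 * κ) ≤
        ((P'.filter (fun w => w.2 = y)).card : ℝ))).Nonempty := by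
    rw [← Finset.card_pos]
    have h3 : (0 : ℝ) < ((((P'.image Prod.snd).filter (fun y => Y ^ (1 / 4 - 2 * κ) ≤
        ((P'.filter (fun w => w.2 = y)).card : ℝ))).card : ℕ) : ℝ) := lt_of_lt_of_le hpos h1
    exact_mod_cast h3
  obtain ⟨y, hy⟩ := h2
  rw [Finset.mem_filter] at hy
  obtain ⟨-, hy2⟩ := hy
  have hpos2 : (0 : ℝ) < Y ^ (1 / 4 - 2 * κ) := Real.rpow_pos_of_pos (by linarith) _
  have hne : (P'.filter (fun w => w.2 = y)).Nonempty := by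
    rw [← Finset.card_pos]
    have h3 : (0 : ℝ) < ((P'.filter (fun w => w.2 = y)).card : ℝ) := lt_of_lt_of_le hpos2 hy2
    exact_mod_cast h3
  have h4 := h Y (P'.filter (fun w => w.2 = y)) y hY0' hY1''
    (lad_good_subset hgood (Finset.filter_subset _ _)) hne
    (fun w hw => (hP w (hP' (Finset.mem_filter.1 hw).1)).2)
    (fun w hw => (Finset.mem_filter.1 hw).2)
  exact absurd hy2 (not_le.2 h4)

end Hp

end Pool.Agent.Lib.MP_d8bd92_nt
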