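import Pool.Agent.Lib.MP_d8bd92_nt.Hp.LadJ1

set_option autoImplicit false

/-!
Ladder block: a good fibre of ties gives `LadData`.
-/

namespace Pool.Agent.Lib.MP_d8bd92_nt

namespace Hp

open Finset Pool.Agent.Lib.Szpiro

private theorem LadJ2_udvd {e X W V1 V2 n : ℕ} (hn : n = 2 ^ e * X * W * V1 * V2) (oX : Odd X) (oW : Odd W)
    (h1 : Nat.Coprime X V1) (h2 : Nat.Coprime X V2) (h3 : Nat.Coprime W V1) (h4 : Nat.Coprime W V2) :
    UDvd (X * W) n := by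
  refine ⟨2 ^ e * V1 * V2, by rw [hn]; ring, ?_⟩
  have h2X : Nat.Coprime X (2 ^ e) := (Nat.coprime_two_right.2 oX).pow_right e
  have h2W : Nat.Coprime W (2 ^ e) := (Nat.coprime_two_right.2 oW).pow_right e
  refine Nat.Coprime.mul_left ?_ ?_
  · exact Nat.Coprime.mul_right (Nat.Coprime.mul_right h2X h1) h2
  · exact Nat.Coprime.mul_right (Nat.Coprime.mul_right h2W h3) h4

private theorem LadJ2_max {Y a b σ r : ℝ} (hY : 1 ≤ Y) (ha : 0 ≤ a) (hab : 1 / 4 - a = b)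
    (hr : Y ^ b ≤ r) : max 1 (Y ^ (1 / 4 : ℝ) / r) * Y ^ σ ≤ Y ^ (a + σ) := by
  have hY0 : 0 < Y := by linarith
  have hpos : 0 < Y ^ b := Real.rpow_pos_of_pos hY0 _
  rw [Real.rpow_add hY0]
  refine mul_le_mul_of_nonneg_right (max_le (Real.one_le_rpow hY ha) ?_) (Real.rpow_nonneg hY0.le _)
  rw [div_le_iff₀ (lt_of_lt_of_le hpos hr)]
  calc Y ^ (1 / 4 : ℝ) = Y ^ a * Y ^ b := by
        rw [← Real.rpow_add hY0]; congr 1; linarith
    _ ≤ Y ^ a * r := mul_le_mul_of_nonneg_left hr (Real.rpow_nonneg hY0.le _)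

private theorem LadJ2_Y0 (σ : ℝ) (j : ℕ) (hj : 2 ≤ j) (hσ1 : σ ≤ 1 / (16 * (j : ℝ))) :
    ∃ Y0 : ℝ, 1 ≤ Y0 ∧ ∀ Y : ℝ, Y0 ≤ Y → 2 < Y ^ (1 / (4 * (j : ℝ)) - σ) := by
  have hj0 : (0 : ℝ) < j := by
    have : 0 < j := by omega
    exact_mod_cast this
  refine ⟨(3 : ℝ) ^ (8 * (j : ℝ)), Real.one_le_rpow (by norm_num) (by positivity), fun Y hY => ?_⟩
  have h31 : (1 : ℝ) ≤ (3 : ℝ) ^ (8 * (j : ℝ)) := Real.one_le_rpow (by norm_num) (by positivity)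
  have hY1 : 1 ≤ Y := h31.trans hY
  have h1 : 1 / (8 * (j : ℝ)) ≤ 1 / (4 * (j : ℝ)) - σ := by
    have e1 : 1 / (4 * (j : ℝ)) = 4 * (1 / (16 * (j : ℝ))) := by field_simp; norm_num
    have e2 : 1 / (8 * (j : ℝ)) = 2 * (1 / (16 * (j : ℝ))) := by field_simp; norm_num
    have e3 : 0 < 1 / (16 * (j : ℝ)) := by positivity
    rw [e1, e2]; linarith
  calc (2 : ℝ) < 3 := by norm_num
    _ = ((3 : ℝ) ^ (8 * (j : ℝ))) ^ (1 / (8 * (j : ℝ))) := by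
        rw [← Real.rpow_mul (by norm_num)]
        have : 8 * (j : ℝ) * (1 / (8 * (j : ℝ))) = 1 := by field_simp
        rw [this, Real.rpow_one]
    _ ≤ Y ^ (1 / (8 * (j : ℝ))) := Real.rpow_le_rpow (by positivity) hY (by positivity)
    _ ≤ Y ^ (1 / (4 * (j : ℝ)) - σ) := Real.rpow_le_rpow_of_exponent_le hY1 h1

/-- Proof: `Y0` with `2 < Y0 ^ (1/(8j))` (`σ ≤ 1/(16 j)`).  `lad_tie_num` for every `w ∈ P` (choose functions `A B c t`), `e = padicValInt 2 w.1` is constant on `P` (`Good.dy`).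
`D ≠ 1` as `w.2` is not a square (`Good.nsq`).  `mAt`: the filter is contained in the filter of `Good.qr1` with `u = A w * t w ^ l` (`w'.1.natAbs = u * (2^e B c)`, coprime), and
`max 1 (Y^(1/4) / rd u) * Y^σ ≤ Y^(jσ) * Y^σ`; the same for the other three; `mct`: `u = c w * t w ^ l`, `Y^(1/4) / rd u ≤ Y^(1/4 - 1/(2j) + 2σ)`, and
the exponent is `≥ 0` as `j ≥ 2`.  Base facts from `Good.base` (`PairSet`). -/
theorem lad_tie (K ε0 σ : ℝ) (hK : 2 ≤ K) (hσ : 0 < σ) (j : ℕ) (hj : 2 ≤ j) (hσ1 : σ ≤ 1 / (16 * (j : ℝ)))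
    (l : Fin (2 * j) → ℕ) (hl : ∀ i, 1 ≤ l i) (i : Fin (2 * j)) : ∃ Y0 : ℝ, 1 ≤ Y0 ∧ ∀ (Y : ℝ) (P : Finset (ℤ × ℤ)) (D : ℤ) (f : ℕ),
    Y0 ≤ Y → Good K ε0 σ Y P → P.Nonempty → Squarefree D → 1 ≤ f → (∀ w ∈ P, w.2 = (f : ℤ) ^ 2 * D) →
    (∀ w ∈ P, IsTie σ j l Y w.1) → ∃ (e : ℕ) (A B c t : ℤ × ℤ → ℕ),
      LadData (Y ^ K) (Y ^ (((j : ℝ) - 1) / (4 * j) + j * σ)) (Y ^ (1 / (4 * (j : ℝ)) + σ)) (Y ^ (1 / (4 * (j : ℝ)) + σ))
        (Y ^ (((j : ℝ) + 1) * σ)) (Y ^ (1 / 4 - 1 / (2 * (j : ℝ)) + 3 * σ)) ((f : ℤ) ^ 2 * D) D f e (l i) P A B c t := by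
  classical
  have hj0 : (0 : ℝ) < j := by
    have : 0 < j := by omega
    exact_mod_cast this
  have hj2 : (2 : ℝ) ≤ j := by exact_mod_cast hj
  obtain ⟨Y0, hY01, hY0⟩ := LadJ2_Y0 σ j hj hσ1
  refine ⟨Y0, hY01, fun Y P D f hYY hG hne hD hf hP2 hT => ?_⟩
  have hY1 : 1 ≤ Y := hY01.trans hYY
  have hYp : 0 < Y := by linarith
  have key : ∀ w : ℤ × ℤ, ∃ q : ℕ × ℕ × ℕ × ℕ, w ∈ P →
      (w.1.natAbs = 2 ^ (padicValInt 2 w.1) * q.1 * q.2.1 * q.2.2.1 * q.2.2.2 ^ (l i) ∧ Odd q.1 ∧ Odd q.2.1 ∧ Odd q.2.2.1 ∧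
      Odd q.2.2.2 ∧ q.2.2.2.Prime ∧
      Nat.Coprime q.1 q.2.1 ∧ Nat.Coprime q.1 q.2.2.2 ∧ Nat.Coprime q.2.1 q.2.2.2 ∧ Nat.Coprime q.1 q.2.2.1 ∧
      Nat.Coprime q.2.1 q.2.2.1 ∧ Nat.Coprime q.2.2.1 q.2.2.2 ∧
      (rd q.1 : ℝ) ≤ Y ^ (((j : ℝ) - 1) / (4 * j) + j * σ) ∧ (rd q.2.1 : ℝ) ≤ Y ^ (((j : ℝ) - 1) / (4 * j) + j * σ) ∧
      (rd q.2.2.1 : ℝ) ≤ Y ^ (1 / (4 * (j : ℝ)) + σ) ∧ (q.2.2.2 : ℝ) ≤ Y ^ (1 / (4 * (j : ℝ)) + σ) ∧
      Y ^ (1 / 4 - j * σ) ≤ (rd (q.1 * q.2.2.2 ^ (l i)) : ℝ) ∧ Y ^ (1 / 4 - j * σ) ≤ (rd (q.2.1 * q.2.2.2 ^ (l i)) : ℝ) ∧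
      Y ^ (1 / 4 - j * σ) ≤ (rd (q.1 * q.2.2.1) : ℝ) ∧ Y ^ (1 / 4 - j * σ) ≤ (rd (q.2.1 * q.2.2.1) : ℝ) ∧
      Y ^ (1 / (2 * (j : ℝ)) - 2 * σ) ≤ (rd (q.2.2.1 * q.2.2.2 ^ (l i)) : ℝ)) := by
    intro w
    by_cases hw : w ∈ P
    · obtain ⟨A, B, c, t, h⟩ := lad_tie_num j hj l hl i σ Y hσ hY1 (hY0 Y hYY) w.1 (hG.base w hw).1 (hT w hw)
      exact ⟨(A, B, c, t), fun _ => h⟩
    · exact ⟨(0, 0, 0, 0), fun h => absurd h hw⟩
  choose q hq using key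
  obtain ⟨w0, hw0⟩ := hne
  have hee : ∀ w ∈ P, padicValInt 2 w.1 = padicValInt 2 w0.1 := fun w hw => (hG.dy w hw w0 hw0).2.2.2.2.1
  have hfac : ∀ w ∈ P, w.1.natAbs = 2 ^ (padicValInt 2 w0.1) * (q w).1 * (q w).2.1 * (q w).2.2.1 * (q w).2.2.2 ^ (l i) := by
    intro w hw
    rw [← hee w hw]
    exact (hq w hw).1
  have hqr : ∀ (X : ℤ × ℤ → ℕ) (S : Finset (ℤ × ℤ)), ∀ w ∈ P, S ⊆ P → (∀ w' ∈ P, UDvd (X w') w'.1.natAbs) →
      (∀ w' ∈ S, X w' = X w) → (S.card : ℝ) ≤ max 1 (Y ^ (1 / 4 : ℝ) / (rd (X w) : ℝ)) * Y ^ σ := by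
    intro X S w hw hSP hU hS
    refine le_trans ?_ (hG.qr1 w hw (X w) (hU w hw))
    have : S.card ≤ (P.filter (fun w' : ℤ × ℤ => w'.2 = w.2 ∧ UDvd (X w) w'.1.natAbs)).card := by
      refine Finset.card_le_card (fun w' hw' => ?_)
      rw [Finset.mem_filter]
      refine ⟨hSP hw', ?_, ?_⟩
      · rw [hP2 w' (hSP hw'), hP2 w hw]
      · rw [← hS w' hw']; exact hU w' (hSP hw')
    exact_mod_cast this
  have hjs : 0 ≤ (j : ℝ) * σ := by positivity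
  have e1 : ((j : ℝ) + 1) * σ = j * σ + σ := by ring
  have hj4 : 1 / (2 * (j : ℝ)) ≤ 1 / 4 := by
    rw [div_le_div_iff₀ (by positivity) (by norm_num)]; linarith
  refine ⟨padicValInt 2 w0.1, fun w => (q w).1, fun w => (q w).2.1, fun w => (q w).2.2.1, fun w => (q w).2.2.2, ?_⟩
  refine
    { hZ := Real.one_le_rpow hY1 (by linarith)
      hRA := Real.one_le_rpow hY1 ?_
      hRc := Real.one_le_rpow hY1 (by positivity)
      hT := Real.one_le_rpow hY1 (by positivity)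
      hm := Real.one_le_rpow hY1 (by positivity)
      hm' := Real.one_le_rpow hY1 (by linarith)
      hD := hD
      hD1 := ?_
      hf := hf
      hy := rfl
      hyZ := ?_
      hl := hl i
      snd := hP2
      nz := fun w hw => (hG.base w hw).1
      cop := fun w hw => (hG.base w hw).2.2.1
      sq := fun w hw => (hG.base w hw).2.2.2.1
      bd := fun w hw => (hG.base w hw).2.2.2.2.2.2.1
      dy := fun w hw w' hw' => (hG.dy w hw w' hw').1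
      sgn := fun w hw w' hw' => (hG.dy w hw w' hw').2.2.1
      fac := hfac
      oA := fun w hw => (hq w hw).2.1
      oB := fun w hw => (hq w hw).2.2.1
      oc := fun w hw => (hq w hw).2.2.2.1
      ot := fun w hw => (hq w hw).2.2.2.2.1
      pt := fun w hw => (hq w hw).2.2.2.2.2.1
      cAB := fun w hw => (hq w hw).2.2.2.2.2.2.1
      cAt := fun w hw => (hq w hw).2.2.2.2.2.2.2.1
      cBt := fun w hw => (hq w hw).2.2.2.2.2.2.2.2.1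
      cAc := fun w hw => (hq w hw).2.2.2.2.2.2.2.2.2.1
      cBc := fun w hw => (hq w hw).2.2.2.2.2.2.2.2.2.2.1
      cct := fun w hw => (hq w hw).2.2.2.2.2.2.2.2.2.2.2.1
      rA := fun w hw => (hq w hw).2.2.2.2.2.2.2.2.2.2.2.2.1
      rB := fun w hw => (hq w hw).2.2.2.2.2.2.2.2.2.2.2.2.2.1
      rc := fun w hw => (hq w hw).2.2.2.2.2.2.2.2.2.2.2.2.2.2.1
      tT := fun w hw => (hq w hw).2.2.2.2.2.2.2.2.2.2.2.2.2.2.2.1
      mAt := ?_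
      mBt := ?_
      mAc := ?_
      mBc := ?_
      mct := ?_ }
  · have : 0 ≤ ((j : ℝ) - 1) / (4 * j) := div_nonneg (by linarith) (by positivity)
    linarith
  · intro hD1
    have := (hG.nsq w0 hw0).2
    rw [hP2 w0 hw0, hD1] at this
    exact this ⟨(f : ℤ), by ring⟩
  · have := (hG.base w0 hw0).2.2.2.2.2.2.2
    rw [hP2 w0 hw0] at this
    exact this
  · intro w hw
    obtain ⟨-, oA, oB, oc, ot, pt, cAB, cAt, cBt, cAc, cBc, cct, -, -, -, -, r1, -, -, -, -⟩ := hq w hw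
    refine (hqr (fun w => (q w).1 * (q w).2.2.2 ^ (l i)) _ w hw (Finset.filter_subset _ _) ?_ ?_).trans ?_
    · intro w' hw'
      obtain ⟨-, oA, oB, oc, ot, pt, cAB, cAt, cBt, cAc, cBc, cct, -⟩ := hq w' hw'
      refine LadJ2_udvd (e := padicValInt 2 w0.1) (V1 := (q w').2.1) (V2 := (q w').2.2.1) ?_ oA (ot.pow) cAB cAc
        (cBt.symm.pow_left _) (cct.symm.pow_left _)
      rw [hfac w' hw']; ring
    · intro w' hw'
      rw [Finset.mem_filter] at hw'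
      show _ * _ = _ * _
      rw [hw'.2.1, hw'.2.2]
    · rw [e1]
      exact LadJ2_max hY1 hjs rfl r1
  · intro w hw
    obtain ⟨-, oA, oB, oc, ot, pt, cAB, cAt, cBt, cAc, cBc, cct, -, -, -, -, -, r1, -, -, -⟩ := hq w hw
    refine (hqr (fun w => (q w).2.1 * (q w).2.2.2 ^ (l i)) _ w hw (Finset.filter_subset _ _) ?_ ?_).trans ?_
    · intro w' hw'
      obtain ⟨-, oA, oB, oc, ot, pt, cAB, cAt, cBt, cAc, cBc, cct, -⟩ := hq w' hw'
      refine LadJ2_udvd (e := padicValInt 2 w0.1) (V1 := (q w').1) (V2 := (q w').2.2.1) ?_ oB (ot.pow) cAB.symm cBc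
        (cAt.symm.pow_left _) (cct.symm.pow_left _)
      rw [hfac w' hw']; ring
    · intro w' hw'
      rw [Finset.mem_filter] at hw'
      show _ * _ = _ * _
      rw [hw'.2.1, hw'.2.2]
    · rw [e1]
      exact LadJ2_max hY1 hjs rfl r1
  · intro w hw
    obtain ⟨-, oA, oB, oc, ot, pt, cAB, cAt, cBt, cAc, cBc, cct, -, -, -, -, -, -, r1, -, -⟩ := hq w hw
    refine (hqr (fun w => (q w).1 * (q w).2.2.1) _ w hw (Finset.filter_subset _ _) ?_ ?_).trans ?_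
    · intro w' hw'
      obtain ⟨-, oA, oB, oc, ot, pt, cAB, cAt, cBt, cAc, cBc, cct, -⟩ := hq w' hw'
      refine LadJ2_udvd (e := padicValInt 2 w0.1) (V1 := (q w').2.1) (V2 := (q w').2.2.2 ^ (l i)) ?_ oA oc cAB
        (cAt.pow_right _) cBc.symm (cct.pow_right _)
      rw [hfac w' hw']; ring
    · intro w' hw'
      rw [Finset.mem_filter] at hw'
      show _ * _ = _ * _
      rw [hw'.2.1, hw'.2.2]
    · rw [e1]
      exact LadJ2_max hY1 hjs rfl r1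
  · intro w hw
    obtain ⟨-, oA, oB, oc, ot, pt, cAB, cAt, cBt, cAc, cBc, cct, -, -, -, -, -, -, -, r1, -⟩ := hq w hw
    refine (hqr (fun w => (q w).2.1 * (q w).2.2.1) _ w hw (Finset.filter_subset _ _) ?_ ?_).trans ?_
    · intro w' hw'
      obtain ⟨-, oA, oB, oc, ot, pt, cAB, cAt, cBt, cAc, cBc, cct, -⟩ := hq w' hw'
      refine LadJ2_udvd (e := padicValInt 2 w0.1) (V1 := (q w').1) (V2 := (q w').2.2.2 ^ (l i)) ?_ oB oc cAB.symm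
        (cBt.pow_right _) cAc.symm (cct.pow_right _)
      rw [hfac w' hw']; ring
    · intro w' hw'
      rw [Finset.mem_filter] at hw'
      show _ * _ = _ * _
      rw [hw'.2.1, hw'.2.2]
    · rw [e1]
      exact LadJ2_max hY1 hjs rfl r1
  · intro w hw
    obtain ⟨-, oA, oB, oc, ot, pt, cAB, cAt, cBt, cAc, cBc, cct, -, -, -, -, -, -, -, -, r1⟩ := hq w hw
    refine (hqr (fun w => (q w).2.2.1 * (q w).2.2.2 ^ (l i)) _ w hw (Finset.filter_subset _ _) ?_ ?_).trans ?_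
    · intro w' hw'
      obtain ⟨-, oA, oB, oc, ot, pt, cAB, cAt, cBt, cAc, cBc, cct, -⟩ := hq w' hw'
      refine LadJ2_udvd (e := padicValInt 2 w0.1) (V1 := (q w').1) (V2 := (q w').2.1) ?_ oc (ot.pow) cAc.symm
        cBc.symm (cAt.symm.pow_left _) (cBt.symm.pow_left _)
      rw [hfac w' hw']; ring
    · intro w' hw'
      rw [Finset.mem_filter] at hw'
      show _ * _ = _ * _
      rw [hw'.2.1, hw'.2.2]
    · have e2 : 1 / 4 - 1 / (2 * (j : ℝ)) + 3 * σ = (1 / 4 - 1 / (2 * (j : ℝ)) + 2 * σ) + σ := by ring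
      rw [e2]
      exact LadJ2_max hY1 (by linarith) (by ring) r1

end Hp

end Pool.Agent.Lib.MP_d8bd92_nt
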