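import Pool.Agent.Lib.MP_d8bd92_nt.Hp.LadH2
import Pool.Agent.Lib.MP_d8bd92_nt.Hp.LadI
import Pool.Agent.Lib.MP_d8bd92_nt.Hp.LadJ2

set_option autoImplicit false

/-!
Ladder block: final comparison of exponents.
-/

namespace Pool.Agent.Lib.MP_d8bd92_nt

namespace Hp

open Finset Pool.Agent.Lib.Szpiro

/-- `C ≤ Y ^ σ` for large `Y` -/
private theorem LadK_large (C σ : ℝ) (hσ : 0 < σ) : ∃ Y0 : ℝ, 1 ≤ Y0 ∧ ∀ Y : ℝ, Y0 ≤ Y → C ≤ Y ^ σ := by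
  refine ⟨(max C 1) ^ (1 / σ), Real.one_le_rpow (le_max_right _ _) (by positivity), fun Y hY => ?_⟩
  have h1 : (0 : ℝ) ≤ max C 1 := le_trans zero_le_one (le_max_right _ _)
  have h2 : ((max C 1) ^ (1 / σ)) ^ σ = max C 1 := by
    rw [← Real.rpow_mul h1, one_div_mul_cancel hσ.ne', Real.rpow_one]
  calc C ≤ max C 1 := le_max_left _ _
    _ = ((max C 1) ^ (1 / σ)) ^ σ := h2.symm
    _ ≤ Y ^ σ := Real.rpow_le_rpow (Real.rpow_nonneg h1 _) hY hσ.le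

/-- the exponents -/
private theorem LadK_exp (Y C σ j h μ τ : ℝ) (hn : ℕ) (hh : h = hn) (hY : 1 ≤ Y) (hσ : 0 < σ) (hj : 0 < j) (hh0 : 0 ≤ h)
    (hC : C ≤ Y ^ σ) (h2 : 2 ≤ Y ^ σ) (T0 : ℝ) (hT0 : 0 ≤ T0) (hT : T0 ≤ Y ^ (τ / 2 + σ / 2))
    (hexp : σ * (4 * h * j + 11 * h + 2 * j + 5) < ((h + 2) / (4 * j) - 1 / 2 - τ / 2 - max 0 (h / (2 * j) - μ / 4)))
    (hmain : (Y ^ (1 / (4 * j) - (2 * j + 7) * σ)) ^ hn ≤ C * Y ^ σ * (Y ^ ((j + 1) * σ)) ^ (2 * hn) *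
      (Y ^ ((j - 1) / (4 * j) + j * σ)) ^ 2 * T0 * (1 + (Y ^ (1 / (4 * j) + σ)) ^ (2 * hn) / √(Y ^ (μ / 2 - σ)))) : False := by
  have hY0 : (0 : ℝ) < Y := by linarith
  have e1 : (Y ^ (1 / (4 * j) - (2 * j + 7) * σ)) ^ hn = Y ^ ((1 / (4 * j) - (2 * j + 7) * σ) * h) := by
    rw [← Real.rpow_natCast, ← Real.rpow_mul hY0.le, hh]
  have e2 : (Y ^ ((j + 1) * σ)) ^ (2 * hn) = Y ^ ((j + 1) * σ * (2 * h)) := by
    rw [← Real.rpow_natCast, ← Real.rpow_mul hY0.le, hh]; push_cast; rfl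
  have e3 : (Y ^ ((j - 1) / (4 * j) + j * σ)) ^ 2 = Y ^ (((j - 1) / (4 * j) + j * σ) * 2) := by
    rw [← Real.rpow_natCast, ← Real.rpow_mul hY0.le]; norm_num
  have e4 : (Y ^ (1 / (4 * j) + σ)) ^ (2 * hn) / √(Y ^ (μ / 2 - σ)) = Y ^ ((1 / (4 * j) + σ) * (2 * h) - (μ / 2 - σ) / 2) := by
    rw [← Real.rpow_natCast, ← Real.rpow_mul hY0.le, Real.sqrt_eq_rpow, ← Real.rpow_mul hY0.le, Real.rpow_sub hY0, hh]
    push_cast
    congr 2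
    ring
  have h5 : 1 + (Y ^ (1 / (4 * j) + σ)) ^ (2 * hn) / √(Y ^ (μ / 2 - σ)) ≤
      Y ^ (σ + max 0 (h / (2 * j) - μ / 4) + (2 * h + 1) * σ) := by
    rw [e4]
    have h6 : Y ^ ((1 / (4 * j) + σ) * (2 * h) - (μ / 2 - σ) / 2) ≤ Y ^ (max 0 (h / (2 * j) - μ / 4) + (2 * h + 1) * σ) := by
      apply Real.rpow_le_rpow_of_exponent_le hY
      have h7 : (1 / (4 * j) + σ) * (2 * h) - (μ / 2 - σ) / 2 = h / (2 * j) - μ / 4 + (2 * h + 1 / 2) * σ := by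
        field_simp
        ring
      rw [h7]
      have h8 := le_max_right (0 : ℝ) (h / (2 * j) - μ / 4)
      linarith
    have h9 : 1 ≤ Y ^ (max 0 (h / (2 * j) - μ / 4) + (2 * h + 1) * σ) := by
      apply Real.one_le_rpow hY
      have h8 := le_max_left (0 : ℝ) (h / (2 * j) - μ / 4)
      have : 0 ≤ (2 * h + 1) * σ := by positivity
      linarith
    calc 1 + Y ^ ((1 / (4 * j) + σ) * (2 * h) - (μ / 2 - σ) / 2)
        ≤ 2 * Y ^ (max 0 (h / (2 * j) - μ / 4) + (2 * h + 1) * σ) := by linarith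
      _ ≤ Y ^ σ * Y ^ (max 0 (h / (2 * j) - μ / 4) + (2 * h + 1) * σ) := by gcongr
      _ = _ := by rw [← Real.rpow_add hY0]; ring_nf
  have h10 : C * Y ^ σ * (Y ^ ((j + 1) * σ)) ^ (2 * hn) *
      (Y ^ ((j - 1) / (4 * j) + j * σ)) ^ 2 * T0 * (1 + (Y ^ (1 / (4 * j) + σ)) ^ (2 * hn) / √(Y ^ (μ / 2 - σ))) ≤
      Y ^ σ * Y ^ σ * Y ^ ((j + 1) * σ * (2 * h)) * Y ^ (((j - 1) / (4 * j) + j * σ) * 2) * Y ^ (τ / 2 + σ / 2) *
      Y ^ (σ + max 0 (h / (2 * j) - μ / 4) + (2 * h + 1) * σ) := by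
    rw [e2, e3]
    gcongr
  rw [← Real.rpow_add hY0, ← Real.rpow_add hY0, ← Real.rpow_add hY0, ← Real.rpow_add hY0, ← Real.rpow_add hY0] at h10
  have h11 := hmain.trans h10
  rw [e1] at h11
  have h12 : σ + σ + (j + 1) * σ * (2 * h) + ((j - 1) / (4 * j) + j * σ) * 2 + (τ / 2 + σ / 2) +
      (σ + max 0 (h / (2 * j) - μ / 4) + (2 * h + 1) * σ) < (1 / (4 * j) - (2 * j + 7) * σ) * h := by
    have h13 : (h + 2) / (4 * j) = h / (4 * j) + 1 / (2 * j) := by field_simp; ring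
    have h14 : (1 / (4 * j) - (2 * j + 7) * σ) * h = h / (4 * j) - (2 * j + 7) * σ * h := by ring
    have h15 : ((j - 1) / (4 * j) + j * σ) * 2 = 1 / 2 - 1 / (2 * j) + 2 * j * σ := by field_simp; ring
    rw [h14, h15]
    rw [h13] at hexp
    linarith
  by_cases hY1 : Y = 1
  · rw [hY1, Real.one_rpow] at h2
    linarith
  · have h16 : Y ^ (σ + σ + (j + 1) * σ * (2 * h) + ((j - 1) / (4 * j) + j * σ) * 2 + (τ / 2 + σ / 2) +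
      (σ + max 0 (h / (2 * j) - μ / 4) + (2 * h + 1) * σ)) < Y ^ ((1 / (4 * j) - (2 * j + 7) * σ) * h) :=
      Real.rpow_lt_rpow_of_exponent_lt (lt_of_le_of_ne hY (Ne.symm hY1)) h12
    linarith

/-- Ladder block, for every `ε0`, from the conclusion of `extraction`. -/
theorem few_ladder_of (K ε0 : ℝ) (hK : 2 ≤ K) (hext : ∀ κ : ℝ, 0 < κ → ExtP K ε0 κ) (j : ℕ) (hj : 2 ≤ j) (l : Fin (2 * j) → ℕ) (hl : ∀ i, 1 ≤ l i)
    (i : Fin (2 * j)) (d μ : ℝ) (_hd : 0 ≤ d) (h : ℕ) (hh1 : 1 ≤ h)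
    (hcond : 0 < ((h : ℝ) + 2) / (2 * j) - 1 - (if l i = 1 then 0 else d / 2) - max 0 (2 * (h : ℝ) / (2 * j) - μ / 2)) :
    ∃ σ : ℝ, 0 < σ ∧ Few K ε0 (fun Y w => IsTie σ j l Y w.1 ∧ SfLe (Y ^ (d / 2 + σ)) w.2 ∧
      Y ^ (μ / 2 - σ) ≤ max (w.1.natAbs : ℝ) (w.2.natAbs : ℝ)) := by
  classical
  have hj0 : (0 : ℝ) < j := by exact_mod_cast (by omega : 0 < j)
  have hj2 : (2 : ℝ) ≤ j := by exact_mod_cast hj
  have hh0 : (0 : ℝ) ≤ h := Nat.cast_nonneg h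
  obtain ⟨s, hs⟩ : ∃ s : ℝ, s = ((h : ℝ) + 2) / (2 * j) - 1 - (if l i = 1 then 0 else d / 2) -
    max 0 (2 * (h : ℝ) / (2 * j) - μ / 2) := ⟨_, rfl⟩
  rw [← hs] at hcond
  obtain ⟨G, hG⟩ : ∃ G : ℝ, G = 4 * h * j + 11 * h + 2 * j + 5 := ⟨_, rfl⟩
  have hG0 : 0 < G := by rw [hG]; positivity
  obtain ⟨σ, hσ⟩ : ∃ σ : ℝ, σ = min (1 / 100) (min (1 / (4 * (j : ℝ) * (4 * j + 11))) (s / (4 * G))) := ⟨_, rfl⟩
  have hσ0 : 0 < σ := by rw [hσ]; positivity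
  have hσ1 : σ ≤ 1 / 100 := by rw [hσ]; exact min_le_left _ _
  have hσ2 : σ ≤ 1 / (4 * (j : ℝ) * (4 * j + 11)) := by rw [hσ]; exact (min_le_right _ _).trans (min_le_left _ _)
  have hσ3 : σ ≤ s / (4 * G) := by rw [hσ]; exact (min_le_right _ _).trans (min_le_right _ _)
  have hσ4 : σ * G < s / 2 := by
    have : σ * G ≤ s / (4 * G) * G := by gcongr
    have h2 : s / (4 * G) * G = s / 4 := by field_simp
    linarith
  have hσ5 : (4 * (j : ℝ) + 11) * σ ≤ 1 / (4 * j) := by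
    calc (4 * (j : ℝ) + 11) * σ ≤ (4 * j + 11) * (1 / (4 * j * (4 * j + 11))) := by gcongr
      _ = 1 / (4 * j) := by field_simp
  have hjσ : 0 ≤ (j : ℝ) * σ := (mul_pos hj0 hσ0).le
  have hσ6 : σ ≤ 1 / (16 * (j : ℝ)) := by
    have e : 1 / (16 * (j : ℝ)) = 1 / (4 * j) / 4 := by field_simp; norm_num
    rw [e]
    linarith
  obtain ⟨Y1, hY1, htie⟩ := lad_tie K ε0 σ hK hσ0 j hj hσ6 l hl i
  obtain ⟨C, hC, hnum⟩ := ladder_num (σ / K) (by positivity) (l i) h hh1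
  obtain ⟨Y2, hY2, hlarge⟩ := LadK_large (max C 2) σ hσ0
  refine ⟨σ, hσ0, few_of_fibre K ε0 σ hK hσ0 hσ1 (hext σ hσ0) _ (max Y1 Y2) ?_⟩
  intro Y P y hY hY' hgood hne hQ hy
  have hYp : (0 : ℝ) < Y := by linarith
  by_contra hcard
  push Not at hcard
  obtain ⟨w0, hw0⟩ := hne
  obtain ⟨D, f, hD, hyD, hDle⟩ := (hQ w0 hw0).2.1
  have hy0 : w0.2 ≠ 0 := (hgood.base w0 hw0).2.1
  have hf0 : f ≠ 0 := by
    rintro rfl
    rw [hyD] at hy0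
    simp at hy0
  have hfe : w0.2 = ((f.natAbs : ℕ) : ℤ) ^ 2 * D := by
    rw [hyD, Int.natCast_natAbs, sq_abs]
  obtain ⟨e, A, B, c, t, hL⟩ := htie Y P D f.natAbs ((le_max_left _ _).trans hY) hgood ⟨w0, hw0⟩ hD
    (Int.natAbs_pos.2 hf0) (fun w hw => by rw [hy w hw, ← hy w0 hw0, hfe]) (fun w hw => (hQ w hw).1)
  have hCY : C ≤ Y ^ σ := (le_max_left _ _).trans (hlarge Y ((le_max_right _ _).trans hY))
  have h2Y : 2 ≤ Y ^ σ := (le_max_right _ _).trans (hlarge Y ((le_max_right _ _).trans hY))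
  have hZ : (Y ^ K) ^ (σ / K) = Y ^ σ := by
    rw [← Real.rpow_mul hYp.le, mul_div_cancel₀ _ (by linarith : K ≠ 0)]
  have hmain := hnum (Y ^ K) (Y ^ (((j : ℝ) - 1) / (4 * j) + j * σ)) (Y ^ (1 / (4 * (j : ℝ)) + σ)) (Y ^ (1 / (4 * (j : ℝ)) + σ))
        (Y ^ (((j : ℝ) + 1) * σ)) (Y ^ (1 / 4 - 1 / (2 * (j : ℝ)) + 3 * σ)) ((f.natAbs : ℤ) ^ 2 * D) D f.natAbs e (l i) P A B c t
        hL le_rfl (Y ^ (μ / 2 - σ)) (Y ^ (1 / (4 * (j : ℝ)) - (2 * j + 7) * σ)) (Real.rpow_pos_of_pos hYp _)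
        (fun w hw => (hQ w hw).2.2) (Real.one_le_rpow hY' (by linarith)) ?_ ?_ ?_
  · rw [hZ] at hmain
    refine LadK_exp Y C σ j h μ (if l i = 1 then 0 else d / 2) h rfl hY' hσ0 hj0 hh0 hCY h2Y
      (if l i = 1 then 1 else √((|D| : ℤ) : ℝ)) (by split_ifs <;> positivity) ?_ ?_ hmain
    · split_ifs with h1
      · apply Real.one_le_rpow hY'
        linarith
      · have h2 : √((|D| : ℤ) : ℝ) ≤ √(Y ^ (d / 2 + σ)) := Real.sqrt_le_sqrt hDle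
        refine h2.trans (le_of_eq ?_)
        rw [Real.sqrt_eq_rpow, ← Real.rpow_mul hYp.le]
        ring_nf
    · have h3 : ((h : ℝ) + 2) / (4 * j) - 1 / 2 - (if l i = 1 then 0 else d / 2) / 2 - max 0 ((h : ℝ) / (2 * j) - μ / 4) = s / 2 := by
        have h4 : max 0 ((h : ℝ) / (2 * j) - μ / 4) = max 0 (2 * (h : ℝ) / (2 * j) - μ / 2) / 2 := by
          rw [← max_div_div_right (by norm_num : (0 : ℝ) ≤ 2) 0 (2 * (h : ℝ) / (2 * j) - μ / 2), zero_div]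
          congr 1
          field_simp
          ring
        rw [h4, hs]
        field_simp
        ring
      rw [h3, ← hG]
      exact hσ4
  · rw [hZ]
    calc C * Y ^ σ * Y ^ (1 / (4 * (j : ℝ)) + σ) * Y ^ (1 / 4 - 1 / (2 * (j : ℝ)) + 3 * σ)
        ≤ Y ^ σ * Y ^ σ * Y ^ (1 / (4 * (j : ℝ)) + σ) * Y ^ (1 / 4 - 1 / (2 * (j : ℝ)) + 3 * σ) := by gcongr
      _ = Y ^ (σ + σ + (1 / (4 * (j : ℝ)) + σ) + (1 / 4 - 1 / (2 * (j : ℝ)) + 3 * σ)) := by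
        rw [← Real.rpow_add hYp, ← Real.rpow_add hYp, ← Real.rpow_add hYp]
      _ ≤ Y ^ (1 / 4 - 2 * σ) := by
        apply Real.rpow_le_rpow_of_exponent_le hY'
        have e : 1 / (2 * (j : ℝ)) = 1 / (4 * j) + 1 / (4 * j) := by field_simp; norm_num
        rw [e]
        linarith
      _ ≤ _ := hcard
  · rw [hZ]
    have hsq : (Y ^ (1 / 4 - 2 * σ)) ^ 2 ≤ (P.card : ℝ) ^ 2 := by gcongr
    refine le_trans ?_ hsq
    have e3 : (Y ^ (((j : ℝ) - 1) / (4 * j) + j * σ)) ^ 2 = Y ^ ((((j : ℝ) - 1) / (4 * j) + j * σ) * 2) := by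
      rw [← Real.rpow_natCast, ← Real.rpow_mul hYp.le]; norm_num
    have e4 : (Y ^ (1 / 4 - 2 * σ)) ^ 2 = Y ^ ((1 / 4 - 2 * σ) * 2) := by
      rw [← Real.rpow_natCast, ← Real.rpow_mul hYp.le]; norm_num
    rw [e3, e4]
    calc Y ^ (1 / (4 * (j : ℝ)) - (2 * j + 7) * σ) * (C * Y ^ σ * Y ^ (1 / (4 * (j : ℝ)) + σ) * Y ^ ((((j : ℝ) - 1) / (4 * j) + j * σ) * 2))
        ≤ Y ^ (1 / (4 * (j : ℝ)) - (2 * j + 7) * σ) * (Y ^ σ * Y ^ σ * Y ^ (1 / (4 * (j : ℝ)) + σ) * Y ^ ((((j : ℝ) - 1) / (4 * j) + j * σ) * 2)) := by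
          gcongr
      _ = Y ^ ((1 / (4 * (j : ℝ)) - (2 * j + 7) * σ) + (σ + σ + (1 / (4 * (j : ℝ)) + σ) + (((j : ℝ) - 1) / (4 * j) + j * σ) * 2)) := by
        rw [← Real.rpow_add hYp, ← Real.rpow_add hYp, ← Real.rpow_add hYp, ← Real.rpow_add hYp]
      _ ≤ Y ^ ((1 / 4 - 2 * σ) * 2) := by
        apply Real.rpow_le_rpow_of_exponent_le hY'
        have e : (((j : ℝ) - 1) / (4 * j) + j * σ) * 2 = 1 / 2 - 1 / (4 * j) - 1 / (4 * j) + 2 * j * σ := by field_simp; ring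
        rw [e]
        linarith
  · rw [hZ]
    have e3 : (Y ^ (((j : ℝ) + 1) * σ)) ^ 2 = Y ^ (((j : ℝ) + 1) * σ * 2) := by
      rw [← Real.rpow_natCast, ← Real.rpow_mul hYp.le]; norm_num
    rw [e3]
    calc C * Y ^ σ * Y ^ (((j : ℝ) + 1) * σ * 2) ≤ Y ^ σ * Y ^ σ * Y ^ (((j : ℝ) + 1) * σ * 2) := by gcongr
      _ = Y ^ (σ + σ + ((j : ℝ) + 1) * σ * 2) := by rw [← Real.rpow_add hYp, ← Real.rpow_add hYp]
      _ ≤ Y ^ (1 / (4 * (j : ℝ)) - (2 * j + 7) * σ) := by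
        apply Real.rpow_le_rpow_of_exponent_le hY'
        linarith

end Hp

end Pool.Agent.Lib.MP_d8bd92_nt
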