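import Pool.Agent.Lib.MP_d8bd92_nt.Hp.TieCount

set_option autoImplicit false

/-! Exponents (1,2), (1,3): the dust is large. -/

namespace Pool.Agent.Lib.MP_d8bd92_nt

namespace Hp

open Finset Pool.Agent.Lib.Szpiro

theorem abs_cast_eq (x : ℤ) : |(x : ℝ)| = (x.natAbs : ℝ) := by
  rw [Nat.cast_natAbs, Int.cast_abs]

/-- the square roots `g`, `g'` of `x + y`, `x' + y` are close to each other -/
theorem root_gap (x x' y g g' : ℤ) (X m : ℝ) (hg : 0 ≤ g) (hg' : 0 ≤ g') (h : g ^ 2 = x + y) (h' : g' ^ 2 = x' + y)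
    (hX1 : X ≤ |(x : ℝ)|) (hX2 : |(x : ℝ)| ≤ 2 * X) (hX1' : X ≤ |(x' : ℝ)|) (hX2' : |(x' : ℝ)| ≤ 2 * X)
    (hs : 0 ≤ x ↔ 0 ≤ x') (hm : 0 < m) (hm2 : m ^ 2 ≤ max |(x : ℝ)| |(y : ℝ)|) (hle : g' ≤ g) :
    ((g - g' : ℤ) : ℝ) * m ≤ 2 * X := by
  have hX0 : 0 ≤ X := by
    have := abs_nonneg (x : ℝ)
    linarith
  have hgr : (0 : ℝ) ≤ g := by exact_mod_cast hg
  have hgr' : (0 : ℝ) ≤ g' := by exact_mod_cast hg'
  have hler : (g' : ℝ) ≤ g := by exact_mod_cast hle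
  have e : (g : ℝ) ^ 2 = x + y := by exact_mod_cast h
  have e' : (g' : ℝ) ^ 2 = x' + y := by exact_mod_cast h'
  have hxx : (x : ℝ) - x' ≤ X := by
    by_cases h0 : 0 ≤ x
    · have h1 := hs.mp h0
      have h0r : (0 : ℝ) ≤ x := by exact_mod_cast h0
      have h1r : (0 : ℝ) ≤ x' := by exact_mod_cast h1
      rw [abs_of_nonneg h0r] at hX2
      rw [abs_of_nonneg h1r] at hX1'
      linarith
    · have h1 : ¬ 0 ≤ x' := fun h2 => h0 (hs.mpr h2)
      have h0r : (x : ℝ) < 0 := by exact_mod_cast (not_le.mp h0)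
      have h1r : (x' : ℝ) < 0 := by exact_mod_cast (not_le.mp h1)
      rw [abs_of_neg h0r] at hX1
      rw [abs_of_neg h1r] at hX2'
      linarith
  have hprod : ((g : ℝ) - g') * (g + g') ≤ X := by nlinarith
  push_cast
  by_cases hc : |(y : ℝ)| ≤ 4 * X
  · -- m ≤ 2 √X
    have h1 : m ^ 2 ≤ 4 * X := hm2.trans (max_le (by linarith) hc)
    have h2 : ((g : ℝ) - g') ^ 2 ≤ X := by nlinarith
    have h3 : (((g : ℝ) - g') * m) ^ 2 ≤ (2 * X) ^ 2 := by
      rw [mul_pow]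
      calc ((g : ℝ) - g') ^ 2 * m ^ 2 ≤ X * (4 * X) := by gcongr
        _ = (2 * X) ^ 2 := by ring
    exact le_of_sq_le_sq h3 (by positivity) 
  · push Not at hc
    have hy0 : (0 : ℝ) < y := by
      by_contra hy
      push Not at hy
      rw [abs_of_nonpos hy] at hc
      have h1 : (x : ℝ) ≤ |(x : ℝ)| := le_abs_self _
      have h2 : 0 ≤ (g : ℝ) ^ 2 := by positivity
      linarith
    rw [abs_of_pos hy0] at hc hm2
    have h1 : m ^ 2 ≤ y := hm2.trans (max_le (by linarith) le_rfl)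
    have h2 : -|(x : ℝ)| ≤ x := neg_abs_le _
    have h3 : m ^ 2 ≤ (2 * (g : ℝ)) ^ 2 := by nlinarith
    have h4 : m ≤ 2 * g := le_of_sq_le_sq h3 (by positivity)
    have h5 : 0 ≤ (g : ℝ) - g' := by linarith
    calc ((g : ℝ) - g') * m ≤ ((g : ℝ) - g') * (2 * g) := by gcongr
      _ ≤ 2 * (((g : ℝ) - g') * (g + g')) := by nlinarith
      _ ≤ 2 * X := by linarith

theorem log_small2 (K : ℝ) (hK : 2 ≤ K) : ∃ C : ℝ, 1 ≤ C ∧ ∀ Y : ℝ, 1 ≤ Y →
    ((Nat.log 2 ⌊Y ^ K⌋₊ + 1 : ℕ) : ℝ) ≤ C * Y ^ (1 / 100 : ℝ) := by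
  have hl2 : 0 < Real.log 2 := Real.log_pos (by norm_num)
  have hK0 : 0 < K := by linarith
  refine ⟨100 * K / Real.log 2 + 1, ?_, fun Y hY => ?_⟩
  · have : 0 < 100 * K / Real.log 2 := by positivity
    linarith
  · have hY0 : 0 < Y := by linarith
    have h1 : ((Nat.log 2 ⌊Y ^ K⌋₊ : ℕ) : ℝ) ≤ Real.logb 2 ((⌊Y ^ K⌋₊ : ℕ) : ℝ) := Real.natLog_le_logb _ _
    have hYK : 1 ≤ Y ^ K := Real.one_le_rpow hY hK0.le
    have hB1 : 1 ≤ ⌊Y ^ K⌋₊ := Nat.le_floor (by simpa using hYK)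
    have h2 : Real.logb 2 ((⌊Y ^ K⌋₊ : ℕ) : ℝ) ≤ K * Real.log Y / Real.log 2 := by
      rw [Real.logb]
      gcongr
      calc Real.log ((⌊Y ^ K⌋₊ : ℕ) : ℝ) ≤ Real.log (Y ^ K) := by
            apply Real.log_le_log (by exact_mod_cast hB1)
            exact Nat.floor_le (by positivity)
        _ = K * Real.log Y := Real.log_rpow hY0 K
    have h3 : Real.log Y ≤ Y ^ (1 / 100 : ℝ) / (1 / 100) := Real.log_le_rpow_div hY0.le (by norm_num)
    have h4 : 1 ≤ Y ^ (1 / 100 : ℝ) := Real.one_le_rpow hY (by norm_num)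
    push_cast
    calc ((Nat.log 2 ⌊Y ^ K⌋₊ : ℕ) : ℝ) + 1 ≤ K * (Y ^ (1 / 100 : ℝ) / (1 / 100)) / Real.log 2 + Y ^ (1 / 100 : ℝ) := by
          have h5 : K * Real.log Y / Real.log 2 ≤ K * (Y ^ (1 / 100 : ℝ) / (1 / 100)) / Real.log 2 := by gcongr
          linarith
      _ = _ := by ring

/-- exponents (1,2), (1,3), also for slightly negative `ε0` -/
theorem few_13 (K ε0 : ℝ) (hK : 2 ≤ K) (hε : -1 / 100 ≤ ε0) (l : Fin (2 * 1) → ℕ) (hl : ∀ i, 1 ≤ l i) (hs : l 0 + l 1 ≤ 4) :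
    ∃ σ : ℝ, 0 < σ ∧ Few K ε0 (fun Y w => IsTie σ 1 l Y w.1) := by
  classical
  have hK0 : 0 < K := by linarith
  obtain ⟨σ, hσ⟩ : ∃ σ : ℝ, σ = 1 / 800 := ⟨_, rfl⟩
  have hσ0 : 0 < σ := by rw [hσ]; norm_num
  have hσ1 : σ ≤ 1 / 100 := by rw [hσ]; norm_num
  refine ⟨σ, hσ0, tie_count K ε0 σ hK hσ0 hσ1 l hl ?_⟩
  obtain ⟨C1, hC1, h1⟩ := Th.card_kth 2 (by norm_num) (1 / (100 * K)) (by positivity)
  obtain ⟨C2, hC2, h2⟩ := log_small2 K hK
  refine ⟨C1 * C2 * 6, by positivity, fun Y hY y d b T hT => ?_⟩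
  have hY1c : (1 : ℝ) ≤ Y ^ (1 / 100 : ℝ) := Real.one_le_rpow hY (by norm_num)
  have hY0 : 0 < Y := by linarith
  have hYK : 1 ≤ Y ^ K := Real.one_le_rpow hY hK0.le
  set B : ℕ := ⌊Y ^ K⌋₊ with hB
  have hB1 : 1 ≤ B := Nat.le_floor (by simpa using hYK)
  rcases T.eq_empty_or_nonempty with h0 | ⟨w0, hw0⟩
  · rw [h0]
    simp
    positivity
  have hd0 : d ≠ 0 := by
    obtain ⟨⟨x0, _⟩, _, _, p0, hp0, _⟩ := hT w0 hw0
    rintro rfl
    rw [zero_mul] at hp0
    exact x0 (Int.natAbs_eq_zero.mp hp0)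
  have hd1 : 1 ≤ d := Nat.one_le_iff_ne_zero.mpr hd0
  have hdB : d ≤ B := by
    obtain ⟨⟨x0, _, _, _, _, _, xK, _⟩, _, _, p0, hp0, _⟩ := hT w0 hw0
    have h1 : d ≤ w0.1.natAbs := Nat.le_of_dvd (Nat.pos_of_ne_zero (Int.natAbs_ne_zero.mpr x0)) ⟨_, hp0⟩
    exact h1.trans (Nat.le_floor xK)
  have hch : ∀ w ∈ T, ∃ g : ℤ, 0 ≤ g ∧ g ^ 2 = w.1 + y := by
    intro w hw
    obtain ⟨⟨x1, _, _, ⟨g, hg⟩, _, _, _, _⟩, hw2, _⟩ := hT w hw
    exact ⟨|g|, abs_nonneg g, by rw [sq_abs, ← hw2]; exact hg.symm⟩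
  choose! g hg using hch
  -- the classes
  have hcls : ∀ n ∈ T.image (fun w => Nat.log 2 w.1.natAbs),
      (T.filter (fun w => Nat.log 2 w.1.natAbs = n)).card ≤ ⌊C1 * Y ^ (1 / 100 : ℝ) * (6 * Y ^ (1 / 100 : ℝ))⌋₊ := by
    intro n _
    apply Nat.le_floor
    have hinj : Set.InjOn g (T.filter (fun w => Nat.log 2 w.1.natAbs = n)) := by
      intro w hw v hv hwv
      rw [Finset.coe_filter] at hw hv
      obtain ⟨_, e1⟩ := hg w hw.1
      obtain ⟨_, f1⟩ := hg v hv.1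
      have hw2 := (hT w hw.1).2.1
      have hv2 := (hT v hv.1).2.1
      apply Prod.ext
      · rw [hwv] at e1
        linarith
      · rw [hw2, hv2]
    rw [← Finset.card_image_of_injOn hinj]
    have hdx : ∀ w ∈ T, (d : ℤ) ∣ w.1 := by
      intro w hw
      obtain ⟨_, _, _, p, hp, _⟩ := hT w hw
      rw [Int.natCast_dvd]
      exact ⟨_, hp⟩
    have h3 := h1 d y ((T.filter (fun w => Nat.log 2 w.1.natAbs = n)).image g) (6 * Y ^ (1 / 100 : ℝ)) hd1 (by positivity) (by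
      intro s hs
      rw [Finset.mem_image] at hs
      obtain ⟨w, hw, rfl⟩ := hs
      rw [Finset.mem_filter] at hw
      obtain ⟨_, e1⟩ := hg w hw.1
      have hdv := hdx w hw.1
      refine ⟨?_, ?_⟩
      · obtain ⟨⟨_, _, xy, _⟩, hw2, _⟩ := hT w hw.1
        rw [hw2] at xy
        have h5 : IsCoprime y (d : ℤ) := (IsCoprime.of_isCoprime_of_dvd_left xy hdv).symm
        obtain ⟨c, hc⟩ := hdv
        have h6 : IsCoprime (g w ^ 2) (d : ℤ) := by
          rw [e1, hc, add_comm]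
          exact IsCoprime.add_mul_left_left h5 c
        exact IsCoprime.of_isCoprime_of_dvd_left h6 (dvd_pow_self _ (by norm_num))
      · rw [e1]
        simpa using hdv) (by
      intro x T' hT' hT2
      set m : ℝ := Y ^ (1 + ε0 / 2) with hm
      have hm0 : 0 < m := by positivity
      set X : ℝ := (2 : ℝ) ^ n with hX
      have hX0 : 0 < X := by positivity
      have hdy : ∀ w ∈ T.filter (fun w => Nat.log 2 w.1.natAbs = n), X ≤ |(w.1 : ℝ)| ∧ |(w.1 : ℝ)| ≤ 2 * X := by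
        intro w hw
        rw [Finset.mem_filter] at hw
        obtain ⟨⟨x0, _⟩, _⟩ := hT w hw.1
        have e : |(w.1 : ℝ)| = (w.1.natAbs : ℝ) := abs_cast_eq _
        rw [e, hX, ← hw.2]
        have hx1 : w.1.natAbs ≠ 0 := Int.natAbs_ne_zero.mpr x0
        constructor
        · exact_mod_cast Nat.pow_log_le_self 2 hx1
        · have := Nat.lt_pow_succ_log_self (b := 2) (by norm_num) w.1.natAbs
          have h6 : w.1.natAbs ≤ 2 * 2 ^ Nat.log 2 w.1.natAbs := by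
            rw [pow_succ] at this
            omega
          exact_mod_cast h6
      have hdiam : ∀ s ∈ T', ∀ t ∈ T', s - t ≤ ((⌊2 * X / m⌋₊ : ℕ) : ℤ) := by
        intro s hs t ht
        have hs1 := hT' hs
        have ht1 := hT' ht
        rw [Finset.mem_image] at hs1 ht1
        obtain ⟨u, hu, rfl⟩ := hs1
        obtain ⟨v, hv, rfl⟩ := ht1
        rcases le_or_gt (g v) (g u) with hle | hlt
        · obtain ⟨a1, a2⟩ := hdy u hu
          obtain ⟨b1, b2⟩ := hdy v hv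
          rw [Finset.mem_filter] at hu hv
          obtain ⟨c1, c2⟩ := hg u hu.1
          obtain ⟨d1, d2⟩ := hg v hv.1
          obtain ⟨⟨_, _, _, _, _, hM, _, _⟩, hu2, hub, _⟩ := hT u hu.1
          obtain ⟨_, _, hvb, _⟩ := hT v hv.1
          have hsgn : 0 ≤ u.1 ↔ 0 ≤ v.1 := by
            rw [← hvb] at hub
            exact decide_eq_decide.mp hub
          have hm2 : m ^ 2 ≤ max |(u.1 : ℝ)| |(y : ℝ)| := by
            have e1 : |(u.1 : ℝ)| = (u.1.natAbs : ℝ) := abs_cast_eq _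
            have e2 : |(y : ℝ)| = (u.2.natAbs : ℝ) := by
              rw [← hu2]; exact abs_cast_eq _
            rw [e1, e2, hm, ← Real.rpow_natCast, ← Real.rpow_mul hY0.le]
            refine le_trans (le_of_eq ?_) hM
            congr 1
            push_cast
            ring
          have h6 := root_gap u.1 v.1 y (g u) (g v) X m c1 d1 c2 d2 a1 a2 b1 b2 hsgn hm0 hm2 hle
          have h7 : ((g u - g v : ℤ) : ℝ) ≤ 2 * X / m := by
            rw [le_div_iff₀ hm0]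
            exact h6
          have h8 : 0 ≤ g u - g v := by omega
          have h9 : ((g u - g v).toNat : ℝ) ≤ 2 * X / m := by
            have : (((g u - g v).toNat : ℤ) : ℝ) = ((g u - g v : ℤ) : ℝ) := by
              rw [Int.toNat_of_nonneg h8]
            have e3 : ((g u - g v).toNat : ℝ) = (((g u - g v).toNat : ℤ) : ℝ) := by norm_cast
            rw [e3, this]
            exact h7
          have h10 := Nat.le_floor h9
          omega
        · have : (0 : ℤ) ≤ ((⌊2 * X / m⌋₊ : ℕ) : ℤ) := Int.natCast_nonneg _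
          omega
      have h6 := cdD_card_class T' ⌊2 * X / m⌋₊ d hd1 hdiam x hT2
      rcases T'.eq_empty_or_nonempty with h7 | ⟨s, hs0⟩
      · rw [h7, Finset.card_empty, Nat.cast_zero]
        positivity
      have hs1 := hT' hs0
      rw [Finset.mem_image] at hs1
      obtain ⟨u, hu, rfl⟩ := hs1
      obtain ⟨a1, a2⟩ := hdy u hu
      rw [Finset.mem_filter] at hu
      obtain ⟨_, _, _, p, hp, hpY⟩ := hT u hu.1
      have hprod : ((∏ i, p i ^ l i : ℕ) : ℝ) ≤ Y ^ (1 + 4 * σ) := by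
        have hq : 1 ≤ Y ^ (1 / 4 + σ) := Real.one_le_rpow hY (by linarith)
        have e : ∏ i, p i ^ l i = p 0 ^ l 0 * p 1 ^ l 1 := Fin.prod_univ_two _
        rw [e]
        push_cast
        calc (p 0 : ℝ) ^ l 0 * (p 1 : ℝ) ^ l 1 ≤ (Y ^ (1 / 4 + σ)) ^ l 0 * (Y ^ (1 / 4 + σ)) ^ l 1 := by
              gcongr
              · exact hpY 0
              · exact hpY 1
          _ = (Y ^ (1 / 4 + σ)) ^ (l 0 + l 1) := (pow_add _ _ _).symm
          _ ≤ (Y ^ (1 / 4 + σ)) ^ 4 := pow_le_pow_right₀ hq hs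
          _ = Y ^ (1 + 4 * σ) := by
              rw [← Real.rpow_natCast, ← Real.rpow_mul hY0.le]
              congr 1
              push_cast
              ring
      have hXd : X ≤ (d : ℝ) * Y ^ (1 + 4 * σ) := by
        have e : |(u.1 : ℝ)| = (u.1.natAbs : ℝ) := abs_cast_eq _
        rw [e, hp] at a1
        push_cast at a1 hprod
        exact a1.trans (by gcongr)
      have hdr : (0 : ℝ) < d := by exact_mod_cast hd1
      have h8 : ((⌊2 * X / m⌋₊ : ℕ) : ℝ) / d ≤ 2 * Y ^ (1 / 100 : ℝ) := by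
        rw [div_le_iff₀ hdr]
        calc ((⌊2 * X / m⌋₊ : ℕ) : ℝ) ≤ 2 * X / m := Nat.floor_le (by positivity)
          _ ≤ 2 * Y ^ (1 / 100 : ℝ) * (d : ℝ) := by
            rw [div_le_iff₀ hm0]
            calc 2 * X ≤ 2 * ((d : ℝ) * Y ^ (1 + 4 * σ)) := by gcongr
              _ ≤ 2 * ((d : ℝ) * (Y ^ (1 / 100 : ℝ) * m)) := by
                gcongr
                rw [hm, ← Real.rpow_add hY0]
                apply Real.rpow_le_rpow_of_exponent_le hY
                linarith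
              _ = 2 * Y ^ (1 / 100 : ℝ) * (d : ℝ) * m := by ring
      linarith)
    refine h3.trans ?_
    gcongr
    calc (d : ℝ) ^ (1 / (100 * K)) ≤ (Y ^ K) ^ (1 / (100 * K)) := by
          gcongr
          calc (d : ℝ) ≤ (B : ℝ) := by exact_mod_cast hdB
            _ ≤ Y ^ K := Nat.floor_le (by positivity)
      _ = Y ^ (1 / 100 : ℝ) := by
          rw [← Real.rpow_mul hY0.le]
          congr 1
          field_simp
  have h3 := Finset.card_le_mul_card_image T _ hcls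
  have h4 : (T.image (fun w => Nat.log 2 w.1.natAbs)).card ≤ Nat.log 2 B + 1 := by
    have h5 : T.image (fun w => Nat.log 2 w.1.natAbs) ⊆ Finset.range (Nat.log 2 B + 1) := by
      intro n hn
      rw [Finset.mem_image] at hn
      obtain ⟨w, hw, rfl⟩ := hn
      obtain ⟨⟨_, _, _, _, _, _, xK, _⟩, _⟩ := hT w hw
      rw [Finset.mem_range, Nat.lt_succ_iff]
      exact Nat.log_mono_right (Nat.le_floor xK)
    have := Finset.card_le_card h5
    rwa [Finset.card_range] at this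
  calc (T.card : ℝ) ≤ ((⌊C1 * Y ^ (1 / 100 : ℝ) * (6 * Y ^ (1 / 100 : ℝ))⌋₊ : ℕ) : ℝ) * ((T.image (fun w => Nat.log 2 w.1.natAbs)).card : ℝ) := by
        exact_mod_cast h3
    _ ≤ (C1 * Y ^ (1 / 100 : ℝ) * (6 * Y ^ (1 / 100 : ℝ))) * (C2 * Y ^ (1 / 100 : ℝ)) := by
        gcongr
        · exact Nat.floor_le (by positivity)
        · exact le_trans (by exact_mod_cast h4) (h2 Y hY)
    _ = C1 * C2 * 6 * (Y ^ (1 / 100 : ℝ) * Y ^ (1 / 100 : ℝ) * Y ^ (1 / 100 : ℝ)) := by ring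
    _ = C1 * C2 * 6 * Y ^ (1 / 100 + 1 / 100 + 1 / 100 : ℝ) := by
        rw [← Real.rpow_add hY0, ← Real.rpow_add hY0]
    _ ≤ C1 * C2 * 6 * Y ^ (1 / 20 : ℝ) := by
        gcongr
        norm_num

end Hp

end Pool.Agent.Lib.MP_d8bd92_nt
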