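import Pool.Agent.Lib.MP_d8bd92_nt.Hp.Pf1

set_option autoImplicit false

namespace Pool.Agent.Lib.MP_d8bd92_nt

namespace Hp

open Finset Pool.Agent.Lib.Szpiro

open scoped Classical in
theorem pf_labels (ε : ℝ) (hε : 0 < ε) : ∃ C : ℝ, 0 < C ∧
    ∀ (Z X : ℝ) (D : ℤ) (f k e l : ℕ) (S : Finset (ℤ × ℤ)) (c A t : ℤ × ℤ → ℕ),
      PfData Z D f k e l S c A t → 1 ≤ X → (∀ w ∈ S, (rd (A w) : ℝ) ≤ X) →
      ((S.image (fun w => lbl (A w) (pz D f k c w))).card : ℝ) ≤ C * Z ^ ε * X := by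
  obtain ⟨C, hC, hb⟩ := card_idl_le ε hε
  refine ⟨C, hC, ?_⟩
  intro Z X D f k e l S c A t h hX hr
  refine hb D Z X _ h.hZ hX ?_
  intro I hI
  obtain ⟨w, hw, rfl⟩ := Finset.mem_image.mp hI
  obtain ⟨r, hr1, hr2⟩ := pz_root_A h hw
  obtain ⟨_, h1, _, h2⟩ := pz_le h hw
  exact ⟨A w, r, h1, h2, h.A_odd w hw, (pz_cop_A h hw).of_mul_right_left, hr w hw, hr1, hr2⟩

open scoped Classical in
theorem pf_two {Z : ℝ} {D : ℤ} {f k e l : ℕ} {S : Finset (ℤ × ℤ)} {c A t : ℤ × ℤ → ℕ}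
    (h : PfData Z D f k e l S c A t) :
    ∃ S' ⊆ S, ∃ q : Ideal (ℤ√D), (∀ w ∈ S', lbl (2 ^ e) (pz D f k c w) = q) ∧ S.card ≤ 4 * S'.card := by
  rcases S.eq_empty_or_nonempty with hS | hS
  · exact ⟨S, Finset.Subset.refl _, ⊤, by rw [hS]; simp, by rw [hS]; simp⟩
  by_cases he : e = 0
  · refine ⟨S, Finset.Subset.refl _, ⊤, fun w _ => ?_, by omega⟩
    rw [he, pow_zero]
    exact lbl_one _
  obtain ⟨w0, hw0⟩ := hS
  have hdiv : ∀ w ∈ S, ((2 ^ e : ℕ) : ℤ) ∣ (pz D f k c w).norm := by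
    intro w hw
    rw [pz_norm h hw]
    rw [← Int.natAbs_dvd_natAbs, Int.natAbs_natCast, h.x w hw]
    exact ⟨A w * t w ^ l, by ring⟩
  have hDodd : Odd D := by
    have h1 := pz_cop h hw0
    have h2 : (2 : ℤ) ∣ (pz D f k c w0).norm := by
      refine dvd_trans ?_ (hdiv w0 hw0)
      have : (2 : ℕ) ∣ 2 ^ e := dvd_pow_self 2 he
      exact_mod_cast this
    by_contra hcon
    rw [Int.not_odd_iff_even] at hcon
    have h3 : (2 : ℤ) ∣ (pz D f k c w0).im ^ 2 * D := dvd_mul_of_dvd_right hcon.two_dvd _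
    have h4 := h1.isUnit_of_dvd' h2 h3
    exact absurd h4 (by decide)
  have hcard := card_two hDodd e (S.image (fun w => lbl (2 ^ e) (pz D f k c w))) (by
    intro I hI
    obtain ⟨w, hw, rfl⟩ := Finset.mem_image.mp hI
    obtain ⟨r, hr1, _, hr2⟩ := lbl_eq_idl (pz D f k c w) (A := 2 ^ e) Nat.one_le_two_pow (hdiv w hw) (pz_cop h hw)
    exact ⟨r, hr1, hr2⟩)
  by_contra hcon
  push Not at hcon
  have h5 : S.card = ∑ q ∈ S.image (fun w => lbl (2 ^ e) (pz D f k c w)),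
      (S.filter (fun w => lbl (2 ^ e) (pz D f k c w) = q)).card :=
    Finset.card_eq_sum_card_image _ _
  have h6 : ∀ q ∈ S.image (fun w => lbl (2 ^ e) (pz D f k c w)),
      4 * (S.filter (fun w => lbl (2 ^ e) (pz D f k c w) = q)).card < S.card := fun q _ =>
    hcon _ (Finset.filter_subset _ _) q (fun w hw => (Finset.mem_filter.mp hw).2)
  have hpos : 0 < S.card := Finset.card_pos.mpr ⟨w0, hw0⟩
  have h7 : 4 * S.card < 4 * S.card := by
    calc 4 * S.card = ∑ q ∈ S.image (fun w => lbl (2 ^ e) (pz D f k c w)),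
          4 * (S.filter (fun w => lbl (2 ^ e) (pz D f k c w) = q)).card := by
            rw [← Finset.mul_sum, ← h5]
      _ < ∑ q ∈ S.image (fun w => lbl (2 ^ e) (pz D f k c w)), S.card :=
          Finset.sum_lt_sum_of_nonempty ⟨_, Finset.mem_image_of_mem _ hw0⟩ h6
      _ = (S.image (fun w => lbl (2 ^ e) (pz D f k c w))).card * S.card := by rw [Finset.sum_const, smul_eq_mul]
      _ ≤ 4 * S.card := Nat.mul_le_mul_right _ hcard
  exact lt_irrefl _ h7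

end Hp

end Pool.Agent.Lib.MP_d8bd92_nt
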