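import Pool.Agent.Lib.MP_d8bd92_nt.Hp.Preds
import Pool.Agent.Lib.MP_d8bd92_nt.TwRad

set_option autoImplicit false

/-!
MP_d8bd92_nt, block 3.C, file Pf6: the shape of a tie with `j = 1`.
-/

namespace Pool.Agent.Lib.MP_d8bd92_nt

namespace Hp

open Finset Pool.Agent.Lib.Szpiro

/-- Row Pf6.  `|x| = w p_0^(l 0) p_1^(l 1)`, `t := p_i`, `p_j ≥ Y^(1/4 - σ) ≥ Y^(1/8) > 2` so both primes are odd.  With `w = 2^a w'`, `w'` odd
(`Nat.exists_eq_two_pow_mul_odd`), `A := w' * p_j^(l j)`, `j` the other index: `|x| = 2^a A t^(l i)` with `A t^(l i)` odd, so `a = padicValInt 2 x`.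
`rd A ≤ rd w * p_j ≤ Y^σ Y^(1/4 + σ)`. -/
theorem tie1_form (σ : ℝ) (hσ : 0 < σ) (hσ1 : σ ≤ 1 / 8) (l : Fin (2 * 1) → ℕ) (hl : ∀ i, 1 ≤ l i) (i : Fin (2 * 1))
    (Y : ℝ) (hY : 1000 ≤ Y) (x : ℤ) (hx : x ≠ 0) (h : IsTie σ 1 l Y x) :
    ∃ A t : ℕ, x.natAbs = 2 ^ (padicValInt 2 x) * A * t ^ (l i) ∧ Odd A ∧ Odd t ∧ t.Prime ∧ Nat.Coprime A t ∧
      (rd A : ℝ) ≤ Y ^ (1 / 4 + 2 * σ) ∧ Y ^ (1 / 4 - σ) ≤ (t : ℝ) ∧ (t : ℝ) ≤ Y ^ (1 / 4 + σ) := by
  obtain ⟨w, p, hxw, hpp, hinj, hcop, hrw, hsz⟩ := h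
  have hY0 : 0 < Y := by linarith
  have hY1 : 1 ≤ Y := by linarith
  have e4 : (1 : ℝ) / (4 * ((1 : ℕ) : ℝ)) = 1 / 4 := by norm_num
  rw [e4] at hsz
  obtain ⟨j, hij, hprod⟩ : ∃ j : Fin (2 * 1), j ≠ i ∧
      ∏ k, p k ^ l k = p j ^ l j * p i ^ l i := by
    have h2 : ∏ k : Fin (2 * 1), p k ^ l k = p 0 ^ l 0 * p 1 ^ l 1 :=
      Fin.prod_univ_two (fun k : Fin 2 => p k ^ l k)
    have hi : i = 0 ∨ i = 1 := by
      have hlt := i.isLt
      rcases Nat.eq_zero_or_pos i.val with h0 | h0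
      · exact Or.inl (Fin.ext h0)
      · right
        apply Fin.ext
        have h1 : ((1 : Fin (2 * 1)) : ℕ) = 1 := rfl
        rw [h1]
        omega
    rcases hi with rfl | rfl
    · exact ⟨1, by decide, by rw [h2, mul_comm]⟩
    · exact ⟨0, by decide, h2⟩
  -- the primes are odd
  have hbig : ∀ k, 2 < p k := by
    intro k
    have h1 := (hsz k).1
    have h2 : Y ^ ((1 : ℝ) / 8) ≤ Y ^ (1 / 4 - σ) :=
      Real.rpow_le_rpow_of_exponent_le hY1 (by linarith)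
    have h3 : (2 : ℝ) < Y ^ ((1 : ℝ) / 8) := by
      have h4 : ((2 : ℝ) ^ (8 : ℝ)) ^ ((1 : ℝ) / 8) = 2 := by
        rw [← Real.rpow_mul (by norm_num)]
        norm_num
      rw [← h4]
      apply Real.rpow_lt_rpow (by positivity) _ (by norm_num)
      calc (2 : ℝ) ^ (8 : ℝ) = 256 := by norm_num
        _ < Y := by linarith
    have h5 : (2 : ℝ) < (p k : ℝ) := by linarith
    exact_mod_cast h5
  have hodd : ∀ k, Odd (p k) := by
    intro k
    exact (hpp k).odd_of_ne_two (by have := hbig k; omega)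
  have hw0 : w ≠ 0 := by
    rintro rfl
    rw [zero_mul] at hxw
    exact hx (Int.natAbs_eq_zero.1 hxw)
  obtain ⟨a, w', hw'odd, hww'⟩ := Nat.exists_eq_two_pow_mul_odd hw0
  have hw'0 : w' ≠ 0 := by
    rintro rfl
    exact hw0 (by rw [hww', mul_zero])
  have hAodd : Odd (w' * p j ^ l j) := hw'odd.mul ((hodd j).pow)
  have hxe : x.natAbs = 2 ^ a * ((w' * p j ^ l j) * p i ^ l i) := by
    rw [hxw, hprod, hww']
    ring
  have hMod : Odd ((w' * p j ^ l j) * p i ^ l i) := hAodd.mul ((hodd i).pow)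
  have hval : padicValInt 2 x = a := by
    unfold padicValInt
    rw [hxe, padicValNat.mul (by positivity) hMod.pos.ne', padicValNat.prime_pow,
      padicValNat.eq_zero_of_not_dvd, add_zero]
    intro hd
    exact (Nat.not_even_iff_odd.2 hMod) (even_iff_two_dvd.2 hd)
  refine ⟨w' * p j ^ l j, p i, ?_, hAodd, hodd i, hpp i, ?_, ?_, (hsz i).1, (hsz i).2⟩
  · rw [hval, hxe]
    ring
  · apply Nat.Coprime.mul_left
    · exact Nat.Coprime.coprime_dvd_left ⟨2 ^ a, by rw [hww', mul_comm]⟩ (hcop i)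
    · apply Nat.Coprime.pow_left
      exact (Nat.coprime_primes (hpp j) (hpp i)).2 (fun he => hij (hinj he))
  · have hpj0 : p j ^ l j ≠ 0 := pow_ne_zero _ (hpp j).ne_zero
    have h1 : rd (w' * p j ^ l j) ≤ rd w' * rd (p j ^ l j) := rd_mul_le _ _ hw'0 hpj0
    have hl0 : l j ≠ 0 := by have := hl j; omega
    rw [rd_prime_pow _ _ (hpp j) hl0] at h1
    have h2 : rd w' ≤ rd w :=
      rd_mono' hw0 (fun q _ hq => hq.trans ⟨2 ^ a, by rw [hww', mul_comm]⟩)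
    have h3 : (rd (w' * p j ^ l j) : ℝ) ≤ (rd w' : ℝ) * (p j : ℝ) := by exact_mod_cast h1
    have h4 : (rd w' : ℝ) ≤ Y ^ σ := le_trans (by exact_mod_cast h2) hrw
    calc (rd (w' * p j ^ l j) : ℝ) ≤ (rd w' : ℝ) * (p j : ℝ) := h3
      _ ≤ Y ^ σ * Y ^ (1 / 4 + σ) :=
        mul_le_mul h4 (hsz j).2 (by positivity) (by positivity)
      _ = Y ^ (1 / 4 + 2 * σ) := by
        rw [← Real.rpow_add hY0]
        congr 1
        ring

end Hp

end Pool.Agent.Lib.MP_d8bd92_nt
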