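import Pool.Agent.Lib.MP_d8bd92_nt.Hp.Preds
import Pool.Agent.Lib.MP_d8bd92_nt.TwRad

set_option autoImplicit false

/-!
MP_d8bd92_nt, block 3.C, file Pf7: multiplicities.
-/

namespace Pool.Agent.Lib.MP_d8bd92_nt

namespace Hp

open Finset Pool.Agent.Lib.Szpiro

open scoped Classical in
/-- Row Pf7a.  For each value `c0` of `c` (at most `Y^(xc/2+σ) + 1 ≤ 2 Y^(xc/2+σ)` values): if some `w ∈ S` has `t w = b`, `c w = c0` then all such `w'` have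
`w'.2 = w.2` and `UDvd (b^l) w'.1.natAbs`, so by `Good.qr1` there are at most `max 1 (Y^(1/4) / b) * Y^κ ≤ Y^(σ + κ)` of them (rd (b^l) = b). -/
theorem pf_mult1 {K ε0 κ Y : ℝ} {P S : Finset (ℤ × ℤ)} (hG : Good K ε0 κ Y P) (hY : 1 ≤ Y) (hκ : 0 ≤ κ) {σ xc : ℝ} (hσ : 0 < σ)
    (hxc : 0 < xc) (hS : S ⊆ P) (k l : ℕ) (hl : 1 ≤ l) (y0 : ℤ) (c t : ℤ × ℤ → ℕ)
    (h2 : ∀ w ∈ S, w.2 = (c w : ℤ) ^ (2 * k) * y0) (hc : ∀ w ∈ S, (c w : ℝ) ≤ Y ^ (xc / 2 + σ))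
    (ht : ∀ w ∈ S, (t w).Prime ∧ UDvd (t w ^ l) w.1.natAbs ∧ Y ^ (1 / 4 - σ) ≤ (t w : ℝ)) (b : ℕ) :
    ((S.filter (fun w => t w = b)).card : ℝ) ≤ 2 * Y ^ (xc / 2 + 2 * σ + κ) := by
  have hY0 : 0 < Y := by linarith
  set F : Finset (ℤ × ℤ) := S.filter (fun w => t w = b) with hF
  set X : ℝ := Y ^ (xc / 2 + σ) with hX
  have hX1 : 1 ≤ X := Real.one_le_rpow hY (by positivity)
  have hW0 : 0 ≤ Y ^ (σ + κ) := Real.rpow_nonneg hY0.le _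
  have himg : ((F.image c).card : ℝ) ≤ 2 * X := by
    have h1 : F.image c ⊆ Finset.range (⌊X⌋₊ + 1) := by
      intro m hm
      obtain ⟨w, hw, rfl⟩ := Finset.mem_image.1 hm
      rw [Finset.mem_range]
      exact Nat.lt_succ_of_le (Nat.le_floor (hc w (Finset.mem_filter.1 hw).1))
    have h2 := Finset.card_le_card h1
    rw [Finset.card_range] at h2
    have h3 : ((F.image c).card : ℝ) ≤ (⌊X⌋₊ : ℝ) + 1 := by exact_mod_cast h2
    have h4 := Nat.floor_le (by linarith : (0 : ℝ) ≤ X)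
    linarith
  have hfib : ∀ m ∈ F.image c, (F.filter (fun w => c w = m)).card ≤ ⌊Y ^ (σ + κ)⌋₊ := by
    intro m hm
    obtain ⟨w0, hw0, rfl⟩ := Finset.mem_image.1 hm
    rw [hF, Finset.mem_filter] at hw0
    obtain ⟨hw0S, hw0b⟩ := hw0
    obtain ⟨hp, hu, hlow⟩ := ht w0 hw0S
    rw [hw0b] at hp hu hlow
    apply Nat.le_floor
    have hq := hG.qr1 w0 (hS hw0S) (b ^ l) hu
    rw [rd_prime_pow b l hp (by omega)] at hq
    have hsub : F.filter (fun w => c w = c w0) ⊆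
        P.filter (fun w' : ℤ × ℤ => w'.2 = w0.2 ∧ UDvd (b ^ l) w'.1.natAbs) := by
      intro w hw
      rw [Finset.mem_filter, hF, Finset.mem_filter] at hw
      obtain ⟨⟨hwS, hwb⟩, hwc⟩ := hw
      rw [Finset.mem_filter]
      refine ⟨hS hwS, ?_, ?_⟩
      · rw [h2 w hwS, h2 w0 hw0S, hwc]
      · have := (ht w hwS).2.1
        rwa [hwb] at this
    have hb0 : (0 : ℝ) < (b : ℝ) := by exact_mod_cast hp.pos
    have hmax : max 1 (Y ^ (1 / 4 : ℝ) / (b : ℝ)) ≤ Y ^ σ := by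
      apply max_le (Real.one_le_rpow hY hσ.le)
      rw [div_le_iff₀ hb0]
      calc Y ^ (1 / 4 : ℝ) = Y ^ σ * Y ^ (1 / 4 - σ) := by
            rw [← Real.rpow_add hY0]
            congr 1
            ring
        _ ≤ Y ^ σ * (b : ℝ) := mul_le_mul_of_nonneg_left hlow (Real.rpow_nonneg hY0.le _)
    calc ((F.filter (fun w => c w = c w0)).card : ℝ) ≤
          ((P.filter (fun w' : ℤ × ℤ => w'.2 = w0.2 ∧ UDvd (b ^ l) w'.1.natAbs)).card : ℝ) :=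
          Nat.cast_le.2 (Finset.card_le_card hsub)
      _ ≤ max 1 (Y ^ (1 / 4 : ℝ) / (b : ℝ)) * Y ^ κ := hq
      _ ≤ Y ^ σ * Y ^ κ := mul_le_mul_of_nonneg_right hmax (Real.rpow_nonneg hY0.le _)
      _ = Y ^ (σ + κ) := by rw [Real.rpow_add hY0]
  have hcard := Finset.card_le_mul_card_image F ⌊Y ^ (σ + κ)⌋₊ hfib
  calc (F.card : ℝ) ≤ (⌊Y ^ (σ + κ)⌋₊ : ℝ) * ((F.image c).card : ℝ) := by exact_mod_cast hcard
    _ ≤ Y ^ (σ + κ) * (2 * X) :=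
        mul_le_mul (Nat.floor_le hW0) himg (Nat.cast_nonneg _) hW0
    _ = 2 * (Y ^ (xc / 2 + σ) * Y ^ (σ + κ)) := by rw [hX]; ring
    _ = 2 * Y ^ (xc / 2 + 2 * σ + κ) := by
        rw [← Real.rpow_add hY0]
        congr 2
        ring

open scoped Classical in
/-- Row Pf7b.  All `w` in the set have the same `|w.1|`, the same sign of `w.1` (`Good.dy`), so the same `w.1`; and `u := |y0|` is a unitary divisor of
`|w.2| = c^(2k) |y0|`.  `Good.qr2`: at most `max 1 (Y^(1/4) / rd u) * Y^κ`, and `rd |w.2| = c * rd u` (`k ≥ 1`, TwRad.rd_mul_coprime, rd_prime_pow), so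
`rd u ≥ Y^((1-κ)/2) / Y^(xc/2+σ) ≥ Y^(1/4 - κ/2 - σ)` (`Good.rad2`). -/
theorem pf_mult0 {K ε0 κ Y : ℝ} {P S : Finset (ℤ × ℤ)} (hG : Good K ε0 κ Y P) (hY : 1 ≤ Y) (hκ : 0 ≤ κ) {σ xc : ℝ} (hσ : 0 < σ)
    (hxc : 0 < xc) (hxc1 : xc ≤ 1 / 2) (hS : S ⊆ P) (k l e : ℕ) (hk : 1 ≤ k) (y0 : ℤ) (c A t : ℤ × ℤ → ℕ)
    (h2 : ∀ w ∈ S, w.2 = (c w : ℤ) ^ (2 * k) * y0) (hc : ∀ w ∈ S, (c w : ℝ) ≤ Y ^ (xc / 2 + σ))
    (hcp : ∀ w ∈ S, (c w).Prime ∧ IsCoprime ((c w : ℕ) : ℤ) y0)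
    (hx : ∀ w ∈ S, w.1.natAbs = 2 ^ e * A w * t w ^ l) (a b : ℕ) :
    ((S.filter (fun w => A w = a ∧ t w = b)).card : ℝ) ≤ Y ^ (2 * κ + σ) := by
  have hY0 : 0 < Y := by linarith
  rcases (S.filter (fun w => A w = a ∧ t w = b)).eq_empty_or_nonempty with h0 | ⟨w0, hw0⟩
  · rw [h0, Finset.card_empty, Nat.cast_zero]
    exact Real.rpow_nonneg hY0.le _
  rw [Finset.mem_filter] at hw0
  obtain ⟨hw0S, hw0a, hw0b⟩ := hw0
  have hw0P := hS hw0S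
  have hbase := hG.base w0 hw0P
  have hne2 : w0.2 ≠ 0 := hbase.2.1
  have hcpr := hcp w0 hw0S
  have hy0 : y0 ≠ 0 := by
    intro h
    apply hne2
    rw [h2 w0 hw0S, h, mul_zero]
  have hu0 : y0.natAbs ≠ 0 := Int.natAbs_ne_zero.2 hy0
  have hcn : ∀ w ∈ S, Nat.Coprime y0.natAbs (c w ^ (2 * k)) := by
    intro w hw
    have h1 := Int.isCoprime_iff_gcd_eq_one.1 (hcp w hw).2
    have h3 : Nat.Coprime (c w) y0.natAbs := by
      rw [Int.gcd_eq_natAbs] at h1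
      rw [Int.natAbs_natCast] at h1
      exact h1
    exact (h3.symm).pow_right _
  have habs : ∀ w ∈ S, w.2.natAbs = y0.natAbs * c w ^ (2 * k) := by
    intro w hw
    rw [h2 w hw, Int.natAbs_mul, Int.natAbs_pow, Int.natAbs_natCast, mul_comm]
  have hUD : ∀ w ∈ S, UDvd y0.natAbs w.2.natAbs := fun w hw =>
    ⟨c w ^ (2 * k), habs w hw, hcn w hw⟩
  have hq := hG.qr2 w0 hw0P y0.natAbs (hUD w0 hw0S)
  have hsub : S.filter (fun w => A w = a ∧ t w = b) ⊆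
      P.filter (fun w' : ℤ × ℤ => w'.1 = w0.1 ∧ UDvd y0.natAbs w'.2.natAbs) := by
    intro w hw
    rw [Finset.mem_filter] at hw
    obtain ⟨hwS, hwa, hwb⟩ := hw
    rw [Finset.mem_filter]
    refine ⟨hS hwS, ?_, hUD w hwS⟩
    have h3 : w.1.natAbs = w0.1.natAbs := by
      rw [hx w hwS, hx w0 hw0S, hwa, hwb, hw0a, hw0b]
    have h4 := (hG.dy w (hS hwS) w0 hw0P).2.2.1
    have h5 : w.1 ≠ 0 := (hG.base w (hS hwS)).1
    have h6 : w0.1 ≠ 0 := hbase.1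
    rcases Int.natAbs_eq_natAbs_iff.1 h3 with h7 | h7
    · exact h7
    · exfalso
      rcases lt_or_gt_of_ne h6 with h8 | h8
      · have : 0 < w.1 := by omega
        have := h4.1 this
        omega
      · have := h4.2 h8
        omega
  -- the radical of `y0`
  have hcpos : (0 : ℝ) < (c w0 : ℝ) := by exact_mod_cast hcpr.1.pos
  have hrd : (rd w0.2.natAbs : ℝ) = (rd y0.natAbs : ℝ) * (c w0 : ℝ) := by
    rw [habs w0 hw0S, rd_mul_coprime _ _ hu0 (pow_ne_zero _ hcpr.1.ne_zero) (hcn w0 hw0S),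
      rd_prime_pow _ _ hcpr.1 (by omega), Nat.cast_mul]
  have hr1 := (hG.rad2 w0 hw0P).1
  rw [hrd] at hr1
  have hrpos : (0 : ℝ) < (rd y0.natAbs : ℝ) := by
    have := one_le_rd y0.natAbs
    linarith
  have hlow : Y ^ (1 / 4 - κ / 2 - σ) ≤ (rd y0.natAbs : ℝ) := by
    have h3 : Y ^ (1 / 4 - κ / 2 - σ) * Y ^ (xc / 2 + σ) ≤ (rd y0.natAbs : ℝ) * Y ^ (xc / 2 + σ) := by
      rw [← Real.rpow_add hY0]
      calc Y ^ (1 / 4 - κ / 2 - σ + (xc / 2 + σ)) ≤ Y ^ ((1 - κ) / 2) :=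
            Real.rpow_le_rpow_of_exponent_le hY (by linarith)
        _ ≤ (rd y0.natAbs : ℝ) * (c w0 : ℝ) := hr1
        _ ≤ (rd y0.natAbs : ℝ) * Y ^ (xc / 2 + σ) :=
            mul_le_mul_of_nonneg_left (hc w0 hw0S) hrpos.le
    exact le_of_mul_le_mul_right h3 (Real.rpow_pos_of_pos hY0 _)
  have hmax : max 1 (Y ^ (1 / 4 : ℝ) / (rd y0.natAbs : ℝ)) ≤ Y ^ (κ / 2 + σ) := by
    apply max_le (Real.one_le_rpow hY (by positivity))
    rw [div_le_iff₀ hrpos]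
    calc Y ^ (1 / 4 : ℝ) = Y ^ (κ / 2 + σ) * Y ^ (1 / 4 - κ / 2 - σ) := by
          rw [← Real.rpow_add hY0]
          congr 1
          ring
      _ ≤ Y ^ (κ / 2 + σ) * (rd y0.natAbs : ℝ) :=
          mul_le_mul_of_nonneg_left hlow (Real.rpow_nonneg hY0.le _)
  calc ((S.filter (fun w => A w = a ∧ t w = b)).card : ℝ) ≤
        ((P.filter (fun w' : ℤ × ℤ => w'.1 = w0.1 ∧ UDvd y0.natAbs w'.2.natAbs)).card : ℝ) :=
        Nat.cast_le.2 (Finset.card_le_card hsub)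
    _ ≤ max 1 (Y ^ (1 / 4 : ℝ) / (rd y0.natAbs : ℝ)) * Y ^ κ := hq
    _ ≤ Y ^ (κ / 2 + σ) * Y ^ κ := mul_le_mul_of_nonneg_right hmax (Real.rpow_nonneg hY0.le _)
    _ = Y ^ (κ / 2 + σ + κ) := by rw [← Real.rpow_add hY0]
    _ ≤ Y ^ (2 * κ + σ) := Real.rpow_le_rpow_of_exponent_le hY (by linarith)

end Hp

end Pool.Agent.Lib.MP_d8bd92_nt
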