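import Pool.Agent.Lib.MP_d8bd92_nt.Hp.Preds
import Pool.Agent.Lib.MP_d8bd92_nt.Hp.AlJ

set_option autoImplicit false

/-!
MP_d8bd92_nt, block 3.C, file Pf8: fixing `y0`.
-/

namespace Pool.Agent.Lib.MP_d8bd92_nt

namespace Hp

open Finset Pool.Agent.Lib.Szpiro

/-- integers with prescribed absolute values are at most twice as many -/
private theorem pf8_card {ι : Type} [DecidableEq ι] (P : Finset ι) (y0 : ι → ℤ) :
    (P.image y0).card ≤ 2 * (P.image (fun w => (y0 w).natAbs)).card := by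
  have h : P.image y0 ⊆ (P.image (fun w => (y0 w).natAbs)).image (fun n : ℕ => (n : ℤ)) ∪
      (P.image (fun w => (y0 w).natAbs)).image (fun n : ℕ => -(n : ℤ)) := by
    intro y hy
    obtain ⟨w, hw, rfl⟩ := mem_image.mp hy
    rcases Int.natAbs_eq (y0 w) with h | h
    · exact mem_union_left _ (mem_image.mpr ⟨_, mem_image_of_mem _ hw, h.symm⟩)
    · exact mem_union_right _ (mem_image.mpr ⟨_, mem_image_of_mem _ hw, h.symm⟩)
  calc (P.image y0).card ≤ _ := card_le_card h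
    _ ≤ _ := card_union_le _ _
    _ ≤ (P.image (fun w => (y0 w).natAbs)).card + (P.image (fun w => (y0 w).natAbs)).card :=
      add_le_add card_image_le card_image_le
    _ = _ := by ring

/-- pigeonhole -/
private theorem pf8_pigeon {ι : Type} [DecidableEq ι] (P : Finset ι) (y0 : ι → ℤ) (hP : P.Nonempty) :
    ∃ y : ℤ, P.card ≤ (P.image y0).card * (P.filter (fun w => y0 w = y)).card := by
  obtain ⟨y, -, hy⟩ := exists_max_image (P.image y0)
    (fun y => (P.filter (fun w => y0 w = y)).card) (hP.image _)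
  refine ⟨y, ?_⟩
  calc P.card = ∑ b ∈ P.image y0, (P.filter (fun w => y0 w = b)).card :=
        card_eq_sum_card_image y0 P
    _ ≤ ∑ b ∈ P.image y0, (P.filter (fun w => y0 w = y)).card := sum_le_sum hy
    _ = _ := by rw [sum_const, smul_eq_mul]

/-- the radical of `c ^ (2 k) y` -/
private theorem pf8_rd {c k : ℕ} {x y : ℤ} (hc : c.Prime) (hk : 1 ≤ k) (hy : y ≠ 0)
    (hx : x = (c : ℤ) ^ (2 * k) * y) (hcop : IsCoprime ((c : ℕ) : ℤ) y) :
    rd x.natAbs = c * rd y.natAbs := by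
  have h1 : x.natAbs = c ^ (2 * k) * y.natAbs := by
    rw [hx, Int.natAbs_mul, Int.natAbs_pow, Int.natAbs_natCast]
  have h2 : Nat.Coprime (c ^ (2 * k)) y.natAbs := by
    apply Nat.Coprime.pow_left
    have := Int.isCoprime_iff_gcd_eq_one.mp hcop
    rwa [Int.gcd_def, Int.natAbs_natCast] at this
  rw [h1, rd_mul_coprime _ _ (pow_ne_zero _ hc.ne_zero) (Int.natAbs_ne_zero.mpr hy) h2,
    rd_prime_pow c (2 * k) hc (by omega)]

open scoped Classical in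
/-- Row Pf8.  `rd |w.2| = c * rd |y0|` (`k ≥ 1`), so `rd |y0| ≤ Y^((1+κ)/2) / Y^(xc/2-σ) = X` and `|y0| ≤ |w.2| ≤ Y^K`; `X ≥ 1` as `P` is nonempty.  By card_rad_le
(AlJ, `Z = Y^K`) the numbers `|y0 w|` take at most `C (Y^K)^ε X` values, so `y0` at most twice as many; pigeonhole. -/
theorem pf_fix (ε : ℝ) (hε : 0 < ε) : ∃ C : ℝ, 0 < C ∧
    ∀ (K ε0 κ Y σ xc : ℝ) (k : ℕ) (P : Finset (ℤ × ℤ)) (c : ℤ × ℤ → ℕ) (y0 : ℤ × ℤ → ℤ),
      0 < K → 1 ≤ Y → 1 ≤ k → Good K ε0 κ Y P → P.Nonempty →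
      (∀ w ∈ P, (c w).Prime ∧ w.2 = (c w : ℤ) ^ (2 * k) * y0 w ∧ IsCoprime ((c w : ℕ) : ℤ) (y0 w) ∧
        Y ^ (xc / 2 - σ) ≤ (c w : ℝ)) →
      ∃ y : ℤ, (P.card : ℝ) ≤ C * (Y ^ K) ^ ε * Y ^ (1 / 2 - xc / 2 + κ / 2 + σ) *
        ((P.filter (fun w => y0 w = y)).card : ℝ) := by
  obtain ⟨C, hC, hC2⟩ := card_rad_le ε hε
  refine ⟨2 * C, by positivity, ?_⟩
  intro K ε0 κ Y σ xc k P c y0 hK hY hk hG hP hc
  have hY0 : 0 < Y := by linarith
  set X : ℝ := Y ^ (1 / 2 - xc / 2 + κ / 2 + σ) with hXdef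
  have hbase : ∀ w ∈ P, 1 ≤ (y0 w).natAbs ∧ ((y0 w).natAbs : ℝ) ≤ Y ^ K ∧
      (rd (y0 w).natAbs : ℝ) ≤ X := by
    intro w hw
    obtain ⟨hp, hw2, hcop, hcY⟩ := hc w hw
    have hb := hG.base w hw
    simp only [PairSet, Set.mem_setOf_eq] at hb
    have hne : w.2 ≠ 0 := hb.2.1
    have hle : (w.2.natAbs : ℝ) ≤ Y ^ K := hb.2.2.2.2.2.2.2
    have hy : y0 w ≠ 0 := by
      intro h0
      apply hne
      rw [hw2, h0, mul_zero]
    refine ⟨Nat.one_le_iff_ne_zero.mpr (Int.natAbs_ne_zero.mpr hy), ?_, ?_⟩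
    · refine le_trans ?_ hle
      have h1 : w.2.natAbs = c w ^ (2 * k) * (y0 w).natAbs := by
        conv_lhs => rw [hw2, Int.natAbs_mul, Int.natAbs_pow, Int.natAbs_natCast]
      rw [h1]
      have h2 : 1 ≤ c w ^ (2 * k) := Nat.one_le_pow _ _ hp.pos
      exact_mod_cast Nat.le_mul_of_pos_left _ h2
    · have h1 := (hG.rad2 w hw).2
      rw [pf8_rd hp hk hy hw2 hcop] at h1
      push_cast at h1
      have h2 : 0 ≤ (rd (y0 w).natAbs : ℝ) := Nat.cast_nonneg _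
      have h3 : Y ^ (xc / 2 - σ) * (rd (y0 w).natAbs : ℝ) ≤ Y ^ ((1 + κ) / 2) :=
        (mul_le_mul_of_nonneg_right hcY h2).trans h1
      have h4 : 0 < Y ^ (xc / 2 - σ) := Real.rpow_pos_of_pos hY0 _
      have h5 : Y ^ ((1 + κ) / 2) = Y ^ (xc / 2 - σ) * X := by
        rw [hXdef, ← Real.rpow_add hY0]
        congr 1
        ring
      rw [h5] at h3
      exact le_of_mul_le_mul_left h3 h4
  have hX1 : 1 ≤ X := by
    obtain ⟨w, hw⟩ := hP
    exact (one_le_rd _).trans (hbase w hw).2.2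
  have hZ1 : 1 ≤ Y ^ K := Real.one_le_rpow hY hK.le
  have hS := hC2 (Y ^ K) X (P.image (fun w => (y0 w).natAbs)) hZ1 hX1 (by
    intro n hn
    obtain ⟨w, hw, rfl⟩ := mem_image.mp hn
    exact hbase w hw)
  obtain ⟨y, hy⟩ := pf8_pigeon P y0 hP
  refine ⟨y, ?_⟩
  have h1 : ((P.image y0).card : ℝ) ≤ 2 * C * (Y ^ K) ^ ε * X := by
    have h2 : ((P.image y0).card : ℝ) ≤ 2 * ((P.image (fun w => (y0 w).natAbs)).card : ℝ) := by
      exact_mod_cast pf8_card P y0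
    linarith
  calc (P.card : ℝ) ≤ ((P.image y0).card : ℝ) * ((P.filter (fun w => y0 w = y)).card : ℝ) := by
        exact_mod_cast hy
    _ ≤ _ := mul_le_mul_of_nonneg_right h1 (Nat.cast_nonneg _)

end Hp

end Pool.Agent.Lib.MP_d8bd92_nt
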