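import Pool.Agent.Lib.MP_d8bd92_nt.Hp.Pf4
import Pool.Agent.Lib.MP_d8bd92_nt.Hp.Pf5
import Pool.Agent.Lib.MP_d8bd92_nt.Hp.Pf6
import Pool.Agent.Lib.MP_d8bd92_nt.Hp.Pf7
import Pool.Agent.Lib.MP_d8bd92_nt.Hp.Pf8
import Pool.Agent.Lib.MP_d8bd92_nt.Hp.Pf9

set_option autoImplicit false

/-!
MP_d8bd92_nt, block 3.C: fixing a part, the theorem `few_pf`.
-/

namespace Pool.Agent.Lib.MP_d8bd92_nt

namespace Hp

open Finset Pool.Agent.Lib.Szpiro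

private theorem pf10_large (B c : ℝ) (hc : 0 < c) : ∃ Y0 : ℝ, 1 ≤ Y0 ∧ ∀ Y : ℝ, Y0 ≤ Y → B < Y ^ c := by
  have h1 := (tendsto_rpow_atTop hc).eventually_gt_atTop B
  obtain ⟨Y0, hY0⟩ := Filter.eventually_atTop.mp h1
  exact ⟨max 1 Y0, le_max_left _ _, fun Y hY => hY0 Y ((le_max_right _ _).trans hY)⟩

/-- final contradiction in exponents -/
private theorem pf10_arith (C1 C2 C3 : ℝ) (hC1 : 0 < C1) (hC2 : 0 < C2) (hC3 : 0 < C3) (s xc τ g k : ℝ) (hs : 0 < s)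
    (h1 : 11 * s < xc / 2) (h2 : (24 + k) * s < 1 / 4 + xc / 2 - τ / 2 - g) :
    ∃ Y0 : ℝ, 1 ≤ Y0 ∧ ∀ Y : ℝ, Y0 ≤ Y → ∀ S : ℝ, 0 ≤ S →
      Y ^ (1 / 4 + xc / 2 - 4 * s) ≤ 4 * C1 * S →
      S ^ 2 ≤ C2 * Y ^ (1 / 4 + 6 * s) * (S + C3 * Y ^ (xc / 2 + τ / 2 + g + (8 + k) * s)) → False := by
  obtain ⟨Y1, hY1, hL1⟩ := pf10_large (8 * C1 * C2) (xc / 2 - 10 * s) (by linarith only [h1, hs])
  obtain ⟨Y2, hY2, hL2⟩ := pf10_large (32 * C1 ^ 2 * C2 * C3) (1 / 4 + xc / 2 - τ / 2 - g - (22 + k) * s) (by linarith only [h2, hs])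
  refine ⟨max Y1 Y2, le_trans hY1 (le_max_left _ _), fun Y hY S hS ha hb => ?_⟩
  have hYY1 : Y1 ≤ Y := (le_max_left _ _).trans hY
  have hYY2 : Y2 ≤ Y := (le_max_right _ _).trans hY
  have hY0 : 0 < Y := by linarith only [hY1, hYY1]
  have hl1 := hL1 Y hYY1
  have hl2 := hL2 Y hYY2
  set a := 1 / 4 + xc / 2 - 4 * s with ha'
  set b := xc / 2 + τ / 2 + g + (8 + k) * s with hb'
  have hpa : 0 < Y ^ a := Real.rpow_pos_of_pos hY0 _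
  have hpb : 0 < Y ^ b := Real.rpow_pos_of_pos hY0 _
  have hp6 : 0 < Y ^ (1 / 4 + 6 * s) := Real.rpow_pos_of_pos hY0 _
  have hSpos : 0 < S := by
    by_contra hcon
    push Not at hcon
    have : 4 * C1 * S ≤ 0 := mul_nonpos_of_nonneg_of_nonpos (by positivity) hcon
    exact absurd (hpa.trans_le (ha.trans this)) (lt_irrefl _)
  rcases le_total S (C3 * Y ^ b) with hc | hc
  · have e1 : S ^ 2 ≤ 2 * C2 * C3 * Y ^ (1 / 4 + 6 * s + b) := by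
      calc S ^ 2 ≤ C2 * Y ^ (1 / 4 + 6 * s) * (S + C3 * Y ^ b) := hb
        _ ≤ C2 * Y ^ (1 / 4 + 6 * s) * (C3 * Y ^ b + C3 * Y ^ b) := by gcongr
        _ = 2 * C2 * C3 * (Y ^ (1 / 4 + 6 * s) * Y ^ b) := by ring
        _ = 2 * C2 * C3 * Y ^ (1 / 4 + 6 * s + b) := by rw [← Real.rpow_add hY0]
    have e2 : Y ^ (2 * a) ≤ 32 * C1 ^ 2 * C2 * C3 * Y ^ (1 / 4 + 6 * s + b) := by
      calc Y ^ (2 * a) = (Y ^ a) ^ 2 := by rw [two_mul, Real.rpow_add hY0]; ring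
        _ ≤ (4 * C1 * S) ^ 2 := by gcongr
        _ = 16 * C1 ^ 2 * S ^ 2 := by ring
        _ ≤ 16 * C1 ^ 2 * (2 * C2 * C3 * Y ^ (1 / 4 + 6 * s + b)) := by gcongr
        _ = _ := by ring
    have e3 : Y ^ (2 * a) = Y ^ (1 / 4 + xc / 2 - τ / 2 - g - (22 + k) * s) * Y ^ (1 / 4 + 6 * s + b) := by
      rw [← Real.rpow_add hY0]
      congr 1
      rw [ha', hb']
      ring
    have e4 : 0 < Y ^ (1 / 4 + 6 * s + b) := Real.rpow_pos_of_pos hY0 _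
    rw [e3] at e2
    exact absurd (hl2.trans_le (le_of_mul_le_mul_right e2 e4)) (lt_irrefl _)
  · have e1 : S ^ 2 ≤ (2 * C2 * Y ^ (1 / 4 + 6 * s)) * S := by
      calc S ^ 2 ≤ C2 * Y ^ (1 / 4 + 6 * s) * (S + C3 * Y ^ b) := hb
        _ ≤ C2 * Y ^ (1 / 4 + 6 * s) * (S + S) := by gcongr
        _ = _ := by ring
    have e2 : S ≤ 2 * C2 * Y ^ (1 / 4 + 6 * s) := by
      rw [pow_two] at e1
      exact le_of_mul_le_mul_right e1 hSpos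
    have e3 : Y ^ a ≤ 8 * C1 * C2 * Y ^ (1 / 4 + 6 * s) := by
      calc Y ^ a ≤ 4 * C1 * S := ha
        _ ≤ 4 * C1 * (2 * C2 * Y ^ (1 / 4 + 6 * s)) := by gcongr
        _ = _ := by ring
    have e4 : Y ^ a = Y ^ (xc / 2 - 10 * s) * Y ^ (1 / 4 + 6 * s) := by
      rw [← Real.rpow_add hY0]
      congr 1
      rw [ha']
      ring
    rw [e4] at e3
    exact absurd (hl1.trans_le (le_of_mul_le_mul_right e3 hp6)) (lt_irrefl _)

/-- the factor `θ E / (f √|D|)` -/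
private theorem pf10_theta {Y θ M ck f s μ xc : ℝ} {k : ℕ} {D : ℤ} (hY : 1 ≤ Y) (hθ : 0 < θ) (hf : 0 < f) (hD : D ≠ 0)
    (hck0 : 0 < ck) (hck : ck ≤ Y ^ (k * (xc / 2 + s))) (hM : Y ^ (μ / 2 - s) ≤ M)
    (h : θ ^ 2 * M ≤ 64 * ((ck * f) ^ 2 * ((|D| : ℤ) : ℝ))) :
    θ * (Y ^ (1 / 4 + s)) ^ 2 / (f * √((|D| : ℤ) : ℝ)) ≤
      8 * Y ^ (1 / 2 - (μ - 2 * k * xc) / 4 + (k + 5 / 2) * s) := by
  have hY0 : 0 < Y := by linarith
  have hD0 : (0 : ℝ) < ((|D| : ℤ) : ℝ) := by exact_mod_cast abs_pos.mpr hD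
  have hsD : 0 < √((|D| : ℤ) : ℝ) := Real.sqrt_pos.mpr hD0
  have hm0 : 0 < Y ^ (μ / 4 - s / 2) := Real.rpow_pos_of_pos hY0 _
  have hm : (Y ^ (μ / 4 - s / 2)) ^ 2 = Y ^ (μ / 2 - s) := by
    rw [pow_two, ← Real.rpow_add hY0]
    congr 1
    ring
  have h1 : (θ * Y ^ (μ / 4 - s / 2)) ^ 2 ≤ (8 * ck * (f * √((|D| : ℤ) : ℝ))) ^ 2 := by
    calc (θ * Y ^ (μ / 4 - s / 2)) ^ 2 = θ ^ 2 * Y ^ (μ / 2 - s) := by rw [mul_pow, hm]
      _ ≤ θ ^ 2 * M := by gcongr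
      _ ≤ 64 * ((ck * f) ^ 2 * ((|D| : ℤ) : ℝ)) := h
      _ = (8 * ck * f) ^ 2 * (√((|D| : ℤ) : ℝ)) ^ 2 := by rw [Real.sq_sqrt hD0.le]; ring
      _ = _ := by ring
  have h2 : θ * Y ^ (μ / 4 - s / 2) ≤ 8 * ck * (f * √((|D| : ℤ) : ℝ)) :=
    le_of_sq_le_sq h1 (by positivity)
  have h3 : θ ≤ 8 * ck * (f * √((|D| : ℤ) : ℝ)) * Y ^ (-(μ / 4 - s / 2)) := by
    rw [Real.rpow_neg hY0.le, ← div_eq_mul_inv, le_div_iff₀ hm0]
    exact h2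
  rw [div_le_iff₀ (by positivity)]
  calc θ * (Y ^ (1 / 4 + s)) ^ 2 ≤ (8 * ck * (f * √((|D| : ℤ) : ℝ)) * Y ^ (-(μ / 4 - s / 2))) * (Y ^ (1 / 4 + s)) ^ 2 := by
        gcongr
    _ ≤ (8 * Y ^ (k * (xc / 2 + s)) * (f * √((|D| : ℤ) : ℝ)) * Y ^ (-(μ / 4 - s / 2))) * (Y ^ (1 / 4 + s)) ^ 2 := by
        gcongr
    _ = 8 * (Y ^ (k * (xc / 2 + s)) * Y ^ (-(μ / 4 - s / 2)) * (Y ^ (1 / 4 + s) * Y ^ (1 / 4 + s))) *
          (f * √((|D| : ℤ) : ℝ)) := by ring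
    _ = 8 * Y ^ (1 / 2 - (μ - 2 * k * xc) / 4 + (k + 5 / 2) * s) * (f * √((|D| : ℤ) : ℝ)) := by
        congr 2
        rw [← Real.rpow_add hY0, ← Real.rpow_add hY0, ← Real.rpow_add hY0]
        congr 1
        ring

private theorem pf10_ite_nonneg (l : ℕ) (x : ℝ) : (0 : ℝ) ≤ (if l = 1 then 1 else √x) := by
  split_ifs
  · exact zero_le_one
  · exact Real.sqrt_nonneg _

private theorem pf10_final {Y s C2 C3 xc τ g S T0 H : ℝ} {k : ℕ} (hY : 1 ≤ Y) (hs : 0 < s) (hC2 : 0 < C2) (hC3 : 0 < C3)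
    (hg : 0 ≤ g) (hS : 0 ≤ S) (hT0 : T0 ≤ Y ^ (τ / 2 + s / 2)) (hT0n : 0 ≤ T0) (hH : 1 + H ≤ 9 * Y ^ (g + (k + 3) * s)) :
    C2 * Y ^ s * Y ^ (1 / 4 + 2 * s) * Y ^ (2 * s + s) * (S + 2 * Y ^ (xc / 2 + 2 * s + s) * (C3 * Y ^ s * T0 * (1 + H))) ≤
      C2 * Y ^ (1 / 4 + 6 * s) * (S + 18 * C3 * Y ^ (xc / 2 + τ / 2 + g + (8 + k) * s)) := by
  have hYp : 0 < Y := by linarith
  have hN2 : C2 * Y ^ s * Y ^ (1 / 4 + 2 * s) * Y ^ (2 * s + s) = C2 * Y ^ (1 / 4 + 6 * s) := by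
    rw [mul_assoc, mul_assoc, ← Real.rpow_add hYp, ← Real.rpow_add hYp]
    congr 2
    ring
  rw [hN2]
  have hbig : 2 * Y ^ (xc / 2 + 2 * s + s) * (C3 * Y ^ s * T0 * (1 + H)) ≤
      18 * C3 * Y ^ (xc / 2 + τ / 2 + g + (8 + k) * s) := by
    calc 2 * Y ^ (xc / 2 + 2 * s + s) * (C3 * Y ^ s * T0 * (1 + H))
        ≤ 2 * Y ^ (xc / 2 + 2 * s + s) * (C3 * Y ^ s * T0 * (9 * Y ^ (g + (k + 3) * s))) := by gcongr
      _ ≤ 2 * Y ^ (xc / 2 + 2 * s + s) * (C3 * Y ^ s * Y ^ (τ / 2 + s / 2) * (9 * Y ^ (g + (k + 3) * s))) := by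
          gcongr
      _ = 18 * C3 * (Y ^ (xc / 2 + 2 * s + s) * Y ^ s * Y ^ (τ / 2 + s / 2) * Y ^ (g + (k + 3) * s)) := by ring
      _ = 18 * C3 * Y ^ (xc / 2 + τ / 2 + g + (15 / 2 + k) * s) := by
          rw [← Real.rpow_add hYp, ← Real.rpow_add hYp, ← Real.rpow_add hYp]
          congr 2
          ring
      _ ≤ 18 * C3 * Y ^ (xc / 2 + τ / 2 + g + (8 + k) * s) := by
          have : Y ^ (xc / 2 + τ / 2 + g + (15 / 2 + k) * s) ≤ Y ^ (xc / 2 + τ / 2 + g + (8 + k) * s) :=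
            Real.rpow_le_rpow_of_exponent_le hY (by linarith only [hs])
          gcongr
  gcongr

open scoped Classical in
/-- fixing a part (`few_pf` of Blocks, for every `ε0`, from the conclusion of `extraction`) -/
theorem few_pf_of (K ε0 : ℝ) (hK : 2 ≤ K) (hext : ∀ κ : ℝ, 0 < κ → ExtP K ε0 κ) (l : Fin (2 * 1) → ℕ) (hl : ∀ i, 1 ≤ l i) (i : Fin (2 * 1))
    (k : ℕ) (hk : 1 ≤ k) (xc d μ : ℝ) (hxc : 0 < xc) (hxc1 : xc ≤ 1 / 2) (hd : 0 ≤ d)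
    (hcond : 0 < 1 / 2 + xc - (if l i = 1 then 0 else d / 2) - max 0 (1 - (μ - 2 * k * xc) / 2)) :
    ∃ σ : ℝ, 0 < σ ∧ Few K ε0 (fun Y w => IsTie σ 1 l Y w.1 ∧
      (∃ (c : ℕ) (y0 : ℤ), c.Prime ∧ w.2 = (c : ℤ) ^ (2 * k) * y0 ∧ IsCoprime (c : ℤ) y0 ∧
        Y ^ (xc / 2 - σ) ≤ (c : ℝ) ∧ (c : ℝ) ≤ Y ^ (xc / 2 + σ) ∧ SfLe (Y ^ (d / 2 + σ)) y0) ∧
      Y ^ (μ / 2 - σ) ≤ max (w.1.natAbs : ℝ) (w.2.natAbs : ℝ)) := by
  set τ : ℝ := if l i = 1 then 0 else d / 2 with hτ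
  set h0 : ℝ := 1 / 2 - (μ - 2 * k * xc) / 4 with hh0
  have hmax : max 0 (1 - (μ - 2 * k * xc) / 2) = 2 * max 0 h0 := by
    rw [mul_max_of_nonneg _ _ (by norm_num : (0 : ℝ) ≤ 2), mul_zero]
    congr 1
    rw [hh0]; ring
  rw [hmax] at hcond
  set g : ℝ := max 0 h0 with hg
  have hg0 : 0 ≤ g := le_max_left _ _
  set m : ℝ := 1 / 4 + xc / 2 - τ / 2 - g with hm
  have hm0 : 0 < m := by rw [hm]; linarith only [hcond]
  have hkr : (1 : ℝ) ≤ (k : ℝ) := by exact_mod_cast hk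
  set B : ℝ := 100 * (K + k + 10) with hB
  have hB0 : 0 < B := by rw [hB]; linarith only [hK, hkr]
  set s : ℝ := min m (min xc 1) / B with hs
  have hs0 : 0 < s := div_pos (lt_min hm0 (lt_min hxc one_pos)) hB0
  have hsm : s * B ≤ m := by
    rw [hs, div_mul_cancel₀ _ hB0.ne']
    exact min_le_left _ _
  have hsx : s * B ≤ xc := by
    rw [hs, div_mul_cancel₀ _ hB0.ne']
    exact (min_le_right _ _).trans (min_le_left _ _)
  have hs1 : s * B ≤ 1 := by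
    rw [hs, div_mul_cancel₀ _ hB0.ne']
    exact (min_le_right _ _).trans (min_le_right _ _)
  have hs8 : s ≤ 1 / 8 := by
    have : s * 8 ≤ s * B := by
      apply mul_le_mul_of_nonneg_left _ hs0.le
      rw [hB]; linarith only [hK, hkr]
    linarith only [this, hs1]
  have hs11 : 11 * s < xc / 2 := by
    have : s * 100 ≤ s * B := by
      apply mul_le_mul_of_nonneg_left _ hs0.le
      rw [hB]; linarith only [hK, hkr]
    linarith only [this, hsx, hxc]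
  have hs24 : (24 + k) * s < m := by
    have : s * (25 + k) ≤ s * B := by
      apply mul_le_mul_of_nonneg_left _ hs0.le
      rw [hB]; linarith only [hK, hkr]
    linarith only [this, hsm, hs0]
  have hK0 : 0 < K := lt_of_lt_of_le zero_lt_two hK
  set ε : ℝ := s / K with hεd
  have hε1 : 0 < ε := div_pos hs0 hK0
  obtain ⟨C1, hC1, hfix⟩ := pf_fix ε hε1
  obtain ⟨C2, hC2, hlab⟩ := pf_labels ε hε1
  obtain ⟨C3, hC3, hcnt⟩ := pf_count ε hε1 (l i)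
  obtain ⟨Y0, hY0, har⟩ := pf10_arith C1 C2 (18 * C3) hC1 hC2 (by positivity) s xc τ g k hs0 hs11 hs24
  refine ⟨s, hs0, few_of_good K ε0 s (hext s hs0) (max 1000 Y0) _ ?_⟩
  intro Y hY hY1 P hG hQ
  by_contra hcon
  push Not at hcon
  have hYp : 0 < Y := lt_of_lt_of_le one_pos hY1
  have hY1000 : 1000 ≤ Y := (le_max_left _ _).trans hY
  have hYY0 : Y0 ≤ Y := (le_max_right _ _).trans hY
  have hKe : (Y ^ K) ^ ε = Y ^ s := by
    rw [← Real.rpow_mul hYp.le]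
    congr 1
    rw [hεd]
    field_simp
  -- choices
  have hch1 : ∀ w : ℤ × ℤ, ∃ (c : ℕ) (y0 : ℤ), w ∈ P → (c.Prime ∧ w.2 = (c : ℤ) ^ (2 * k) * y0 ∧ IsCoprime (c : ℤ) y0 ∧
      Y ^ (xc / 2 - s) ≤ (c : ℝ) ∧ (c : ℝ) ≤ Y ^ (xc / 2 + s) ∧ SfLe (Y ^ (d / 2 + s)) y0) := by
    intro w
    by_cases hw : w ∈ P
    · obtain ⟨c, y0, hh⟩ := (hQ w hw).2.1
      exact ⟨c, y0, fun _ => hh⟩
    · exact ⟨0, 0, fun h => absurd h hw⟩
  choose c y0 hc using hch1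
  have hch2 : ∀ w : ℤ × ℤ, ∃ A t : ℕ, w ∈ P → (w.1.natAbs = 2 ^ (padicValInt 2 w.1) * A * t ^ (l i) ∧ Odd A ∧ Odd t ∧
      t.Prime ∧ Nat.Coprime A t ∧ (rd A : ℝ) ≤ Y ^ (1 / 4 + 2 * s) ∧ Y ^ (1 / 4 - s) ≤ (t : ℝ) ∧ (t : ℝ) ≤ Y ^ (1 / 4 + s)) := by
    intro w
    by_cases hw : w ∈ P
    · obtain ⟨A, t, hh⟩ := tie1_form s hs0 hs8 l hl i Y hY1000 w.1 (hG.base w hw).1 (hQ w hw).1
      exact ⟨A, t, fun _ => hh⟩
    · exact ⟨0, 0, fun h => absurd h hw⟩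
  choose A t hAt using hch2
  have hPne : P.Nonempty := by
    rw [Finset.nonempty_iff_ne_empty]
    rintro rfl
    have : 0 < Y ^ (3 / 4 - s) := Real.rpow_pos_of_pos hYp _
    simp at hcon
    exact absurd (this.trans_le hcon) (lt_irrefl _)
  obtain ⟨w0, hw0⟩ := hPne
  set e : ℕ := padicValInt 2 w0.1 with he
  obtain ⟨y, hy⟩ := hfix K ε0 s Y s xc k P c y0 hK0 hY1 hk hG ⟨w0, hw0⟩
    (fun w hw => ⟨(hc w hw).1, (hc w hw).2.1, (hc w hw).2.2.1, (hc w hw).2.2.2.1⟩)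
  set S0 : Finset (ℤ × ℤ) := P.filter (fun w => y0 w = y) with hS0
  have hS0P : S0 ⊆ P := Finset.filter_subset _ _
  have hS0y : ∀ w ∈ S0, y0 w = y := fun w hw => (Finset.mem_filter.mp hw).2
  have hS0ne : S0.Nonempty := by
    rw [Finset.nonempty_iff_ne_empty]
    intro h
    rw [h] at hy
    have h1 : 0 < (P.card : ℝ) := by exact_mod_cast Finset.card_pos.mpr ⟨w0, hw0⟩
    simp at hy
    have h2 : P.card = 0 := by rw [hy]; rfl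
    rw [h2] at h1
    simp at h1
  obtain ⟨w1, hw1⟩ := hS0ne
  obtain ⟨D, f', hD, hyD, hDle⟩ := (hc w1 (hS0P hw1)).2.2.2.2.2
  rw [hS0y w1 hw1] at hyD
  set f : ℕ := f'.natAbs with hf
  have hff : ((f : ℕ) : ℤ) ^ 2 = f' ^ 2 := by rw [hf, Int.natCast_natAbs, sq_abs]
  have hyy : y = (f : ℤ) ^ 2 * D := by rw [hff]; exact hyD
  have hw2 : ∀ w ∈ S0, w.2 = (c w : ℤ) ^ (2 * k) * y := fun w hw => by
    rw [← hS0y w hw]; exact (hc w (hS0P hw)).2.1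
  have hwy : ∀ w ∈ S0, w.2 = ((c w : ℤ) ^ k * f) ^ 2 * D := fun w hw => by
    rw [hw2 w hw, hyy]; ring
  have hf1 : 1 ≤ f := by
    by_contra hcon'
    have hf0 : f = 0 := by omega
    have h1 := hwy w1 hw1
    rw [hf0] at h1
    simp at h1
    exact (hG.base w1 (hS0P hw1)).2.1 h1
  have hD1 : D ≠ 1 := by
    intro hD1
    apply (hG.nsq w1 (hS0P hw1)).2
    rw [hwy w1 hw1, hD1, mul_one]
    exact ⟨(c w1 : ℤ) ^ k * f, by ring⟩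
  have hpd : PfData (Y ^ K) D f k e (l i) S0 c A t :=
    { hZ := Real.one_le_rpow hY1 hK0.le
      hD := hD
      hD1 := hD1
      hf := hf1
      hl := hl i
      sq := fun w hw => (hG.base w (hS0P hw)).2.2.2.1
      cop := fun w hw => (hG.base w (hS0P hw)).2.2.1
      nx := fun w hw => (hG.base w (hS0P hw)).1
      c1 := fun w hw => (hc w (hS0P hw)).1.one_lt.le
      y := hwy
      x := fun w hw => by
        have h1 := (hAt w (hS0P hw)).1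
        have h2 := (hG.dy w (hS0P hw) w0 hw0).2.2.2.2.1
        rw [h2] at h1
        exact h1
      A_odd := fun w hw => (hAt w (hS0P hw)).2.1
      t_odd := fun w hw => (hAt w (hS0P hw)).2.2.1
      t_pr := fun w hw => (hAt w (hS0P hw)).2.2.2.1
      At := fun w hw => (hAt w (hS0P hw)).2.2.2.2.1
      cmp := fun w hw w' hw' => by
        have h1 := hG.dy w (hS0P hw) w' (hS0P hw')
        exact ⟨h1.1, h1.2.1, h1.2.2.1⟩
      xZ := fun w hw => (hG.base w (hS0P hw)).2.2.2.2.2.2.1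
      yZ := fun w hw => (hG.base w (hS0P hw)).2.2.2.2.2.2.2 }
  obtain ⟨S, hSS0, q, hq, hScard⟩ := pf_two hpd
  have hpdS := hpd.mono hSS0
  have hSP : S ⊆ P := hSS0.trans hS0P
  -- lower bound for S
  have hlow : Y ^ (1 / 4 + xc / 2 - 4 * s) ≤ 4 * C1 * (S.card : ℝ) := by
    have h1 : Y ^ (3 / 4 - s) ≤ C1 * Y ^ s * Y ^ (1 / 2 - xc / 2 + s / 2 + s) * (4 * (S.card : ℝ)) := by
      refine hcon.trans (hy.trans ?_)
      rw [hKe]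
      have h2 : (S0.card : ℝ) ≤ 4 * (S.card : ℝ) := by exact_mod_cast hScard
      gcongr
    have h3 : 0 < Y ^ (s + (1 / 2 - xc / 2 + s / 2 + s)) := Real.rpow_pos_of_pos hYp _
    have h4 : Y ^ (3 / 4 - s) = Y ^ (1 / 4 + xc / 2 - 7 / 2 * s) * Y ^ (s + (1 / 2 - xc / 2 + s / 2 + s)) := by
      rw [← Real.rpow_add hYp]
      congr 1
      ring
    have h5 : C1 * Y ^ s * Y ^ (1 / 2 - xc / 2 + s / 2 + s) * (4 * (S.card : ℝ)) =
        4 * C1 * (S.card : ℝ) * Y ^ (s + (1 / 2 - xc / 2 + s / 2 + s)) := by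
      rw [Real.rpow_add hYp s (1 / 2 - xc / 2 + s / 2 + s)]
      ring
    rw [h4, h5] at h1
    have h6 := le_of_mul_le_mul_right h1 h3
    exact le_trans (Real.rpow_le_rpow_of_exponent_le hY1 (by linarith only [hs0])) h6
  -- theta
  obtain ⟨θ, hθ0, hθ1, hθ⟩ := theta_exists S
    (fun w hw => ⟨(hG.base w (hSP hw)).1, (hG.base w (hSP hw)).2.1⟩)
    (fun w hw w' hw' => ⟨(hG.dy w (hSP hw) w' (hSP hw')).1, (hG.dy w (hSP hw) w' (hSP hw')).2.1⟩)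
  have hθS : ThetaOK θ S := ⟨hθ0, hθ1, hθ⟩
  -- labels
  have hN := hlab (Y ^ K) (Y ^ (1 / 4 + 2 * s)) D f k e (l i) S c A t hpdS (Real.one_le_rpow hY1 (by linarith only [hs0]))
    (fun w hw => (hAt w (hSP hw)).2.2.2.2.2.1)
  rw [hKe] at hN
  -- multiplicities
  have hm1 := pf_mult1 hG hY1 hs0.le hs0 hxc hSP k (l i) (hl i) y c t (fun w hw => hw2 w (hSS0 hw))
    (fun w hw => (hc w (hSP hw)).2.2.2.2.1)
    (fun w hw => by
      have h1 := hpdS.x w hw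
      refine ⟨hpdS.t_pr w hw, ⟨2 ^ e * A w, by rw [h1]; ring, ?_⟩, (hAt w (hSP hw)).2.2.2.2.2.2.1⟩
      have h2 : Nat.Coprime (t w) 2 := (Nat.coprime_two_right).mpr (hpdS.t_odd w hw)
      exact Nat.Coprime.pow_left _ (Nat.Coprime.mul_right (Nat.Coprime.pow_right _ h2) (hpdS.At w hw).symm))
  have hm2 := pf_mult0 hG hY1 hs0.le hs0 hxc hxc1 hSP k (l i) e hk y c A t (fun w hw => hw2 w (hSS0 hw))
    (fun w hw => (hc w (hSP hw)).2.2.2.2.1)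
    (fun w hw => by
      have h1 := hc w (hSP hw)
      rw [hS0y w (hSS0 hw)] at h1
      exact ⟨h1.1, h1.2.2.1⟩)
    (fun w hw => hpdS.x w hw)
  have hcount := hcnt (Y ^ K) D f k e (l i) S c A t θ (Y ^ (1 / 4 + s)) (C2 * Y ^ s * Y ^ (1 / 4 + 2 * s)) (Y ^ (2 * s + s))
    (2 * Y ^ (xc / 2 + 2 * s + s)) q le_rfl hpdS hθS (Real.one_le_rpow hY1 (by linarith only [hs0])) (by positivity) (by positivity)
    hq hN (fun w hw => (hAt w (hSP hw)).2.2.2.2.2.2.2) hm2 hm1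
  rw [hKe] at hcount
  -- S is nonempty
  have hSne : S.Nonempty := by
    rw [Finset.nonempty_iff_ne_empty]
    intro h
    rw [h, Finset.card_empty, Nat.cast_zero, mul_zero] at hlow
    have : 0 < Y ^ (1 / 4 + xc / 2 - 4 * s) := Real.rpow_pos_of_pos hYp _
    exact absurd (this.trans_le hlow) (lt_irrefl _)
  obtain ⟨w2, hw2S⟩ := hSne
  have hD0 : D ≠ 0 := hD.ne_zero
  have hfr : (0 : ℝ) < (f : ℝ) := by exact_mod_cast hf1
  have hT0 : (if l i = 1 then 1 else √((|D| : ℤ) : ℝ)) ≤ Y ^ (τ / 2 + s / 2) := by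
    by_cases h1 : l i = 1
    · rw [if_pos h1, hτ, if_pos h1]
      exact Real.one_le_rpow hY1 (by linarith only [hs0])
    · rw [if_neg h1, hτ, if_neg h1]
      rw [show Y ^ (d / 2 / 2 + s / 2) = √(Y ^ (d / 2 + s)) by
        rw [Real.sqrt_eq_rpow, ← Real.rpow_mul hYp.le]; congr 1; ring]
      exact Real.sqrt_le_sqrt hDle
  have hH : θ * (Y ^ (1 / 4 + s)) ^ 2 / ((f : ℝ) * √((|D| : ℤ) : ℝ)) ≤ 8 * Y ^ (h0 + (k + 5 / 2) * s) := by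
    have hck : ((c w2 : ℝ)) ^ k ≤ Y ^ ((k : ℝ) * (xc / 2 + s)) := by
      rw [mul_comm, Real.rpow_mul hYp.le, Real.rpow_natCast]
      exact pow_le_pow_left₀ (by positivity) (hc w2 (hSP hw2S)).2.2.2.2.1 _
    refine pf10_theta (M := max (w2.1.natAbs : ℝ) (w2.2.natAbs : ℝ)) (ck := (c w2 : ℝ) ^ k) hY1 hθ0 hfr hD0 ?_ hck ?_ ?_
    · have : 0 < c w2 := (hc w2 (hSP hw2S)).1.pos
      positivity
    · exact (hQ w2 (hSP hw2S)).2.2
    · refine (hθ w2 hw2S).2.trans (le_of_eq ?_)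
      congr 1
      have h1 := hwy w2 (hSS0 hw2S)
      have h2 : (w2.2.natAbs : ℝ) = ((|w2.2| : ℤ) : ℝ) := by
        rw [← Int.natCast_natAbs]
        simp
      rw [h2, h1, abs_mul, abs_pow]
      push_cast
      rw [sq_abs]
  have hH1 : 1 + θ * (Y ^ (1 / 4 + s)) ^ 2 / ((f : ℝ) * √((|D| : ℤ) : ℝ)) ≤ 9 * Y ^ (g + (k + 3) * s) := by
    have h1 : Y ^ (h0 + (k + 5 / 2) * s) ≤ Y ^ (g + (k + 3) * s) := by
      apply Real.rpow_le_rpow_of_exponent_le hY1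
      have : h0 ≤ g := le_max_right _ _
      linarith only [this, hs0]
    have h2 : 1 ≤ Y ^ (g + (k + 3) * s) := Real.one_le_rpow hY1 (by positivity)
    linarith only [h1, h2, hH]
  exact har Y hYY0 (S.card : ℝ) (Nat.cast_nonneg _) hlow
    (hcount.trans (pf10_final hY1 hs0 hC2 hC3 hg0 (Nat.cast_nonneg _) hT0 (pf10_ite_nonneg _ _) hH1))

end Hp

end Pool.Agent.Lib.MP_d8bd92_nt
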