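import Pool.Agent.Lib.MP_d8bd92_nt.Hp.Extract2
import Pool.Agent.Lib.MP_d8bd92_nt.Hp.FewP
import Pool.Agent.Lib.MP_d8bd92_nt.Hp.Classif
import Pool.Agent.Lib.MP_d8bd92_nt.Hp.LadK
import Pool.Agent.Lib.MP_d8bd92_nt.Hp.Pf10
import Pool.Agent.Lib.MP_d8bd92_nt.Hp.Even
import Pool.Agent.Lib.MP_d8bd92_nt.Hp.One3
import Pool.Agent.Lib.MP_d8bd92_nt.Hp.FewBeta
import Pool.Agent.Lib.MP_d8bd92_nt.Hp.EvMain

set_option autoImplicit false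

/-! The blocks of the 100 percent theorem: `few_small`, `few_square`, `few_swap`, `extraction`, `extraction_col`, `critical`,
`classification`, `few_even`, `few_13`, `few_beta` are in the imported files. -/

namespace Pool.Agent.Lib.MP_d8bd92_nt

namespace Hp

open Finset Pool.Agent.Lib.Szpiro

theorem few_P_neg (K η : ℝ) (L : ℕ) (hK : 2 ≤ K) (hη : 0 < η) : ∃ e1 : ℝ, 0 < e1 ∧ e1 ≤ 1 / 100 ∧
    Few K (-e1) (fun Y w => IsP η L Y w.1) := by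
  obtain ⟨e1, h1, h2, h3⟩ := few_P_neg_of K η L hK hη
    (fun ε0 κ he hκ => extraction_col K ε0 κ hK (by linarith) hκ)
    (fun ε0 κ he hκ hκ1 => critical K ε0 κ hK (by linarith) hκ hκ1)
  exact ⟨e1, h1, h2, h3 (-e1) le_rfl⟩

/-- ladder on the varying side `x`; `i` is the index of the prime `t`; the fixed side `y` has squarefree part at most
`Y ^ (d/2 + σ)`; the larger side is at least `Y ^ (μ / 2)`. -/
theorem few_ladder (K ε0 : ℝ) (hK : 2 ≤ K) (he0 : -1 / 100 ≤ ε0) (j : ℕ) (hj : 2 ≤ j) (l : Fin (2 * j) → ℕ) (hl : ∀ i, 1 ≤ l i)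
    (i : Fin (2 * j)) (d μ : ℝ) (hd : 0 ≤ d) (h : ℕ) (hh1 : 1 ≤ h)
    (hcond : 0 < ((h : ℝ) + 2) / (2 * j) - 1 - (if l i = 1 then 0 else d / 2) - max 0 (2 * (h : ℝ) / (2 * j) - μ / 2)) :
    ∃ σ : ℝ, 0 < σ ∧ Few K ε0 (fun Y w => IsTie σ j l Y w.1 ∧ SfLe (Y ^ (d / 2 + σ)) w.2 ∧
      Y ^ (μ / 2 - σ) ≤ max (w.1.natAbs : ℝ) (w.2.natAbs : ℝ)) :=
  few_ladder_of K ε0 hK (fun κ hκ => extraction K ε0 κ hK he0 hκ) j hj l hl i d μ hd h hh1 hcond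

/-- fixing a part: `y = ± c^(2k) y0`, `c` a prime of size `Y ^ (xc / 2 ± σ)`, the squarefree part of `y0` is at most
`Y ^ (d / 2 + σ)`; `x = ± p^(l 0) q^(l 1) w` -/
theorem few_pf (K ε0 : ℝ) (hK : 2 ≤ K) (he0 : -1 / 100 ≤ ε0) (l : Fin (2 * 1) → ℕ) (hl : ∀ i, 1 ≤ l i) (i : Fin (2 * 1))
    (k : ℕ) (hk : 1 ≤ k) (xc d μ : ℝ) (hxc : 0 < xc) (hxc1 : xc ≤ 1 / 2) (hd : 0 ≤ d)
    (hcond : 0 < 1 / 2 + xc - (if l i = 1 then 0 else d / 2) - max 0 (1 - (μ - 2 * k * xc) / 2)) :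
    ∃ σ : ℝ, 0 < σ ∧ Few K ε0 (fun Y w => IsTie σ 1 l Y w.1 ∧
      (∃ (c : ℕ) (y0 : ℤ), c.Prime ∧ w.2 = (c : ℤ) ^ (2 * k) * y0 ∧ IsCoprime (c : ℤ) y0 ∧
        Y ^ (xc / 2 - σ) ≤ (c : ℝ) ∧ (c : ℝ) ≤ Y ^ (xc / 2 + σ) ∧ SfLe (Y ^ (d / 2 + σ)) y0) ∧
      Y ^ (μ / 2 - σ) ≤ max (w.1.natAbs : ℝ) (w.2.natAbs : ℝ)) :=
  few_pf_of K ε0 hK (fun κ hκ => extraction K ε0 κ hK he0 hκ) l hl i k hk xc d μ hxc hxc1 hd hcond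

/-- `g = gcd (l 0) (l 1) ≥ 3` -/
theorem few_ev (K ε0 : ℝ) (hK : 2 ≤ K) (he0 : -1 / 100 ≤ ε0) (l m : Fin (2 * 1) → ℕ) (hl : ∀ i, 1 ≤ l i) (hl01 : l 0 < l 1)
    (hg : 3 ≤ Nat.gcd (l 0) (l 1)) (hm0 : Odd (m 0)) (hm1 : Odd (m 1)) :
    ∃ σ : ℝ, 0 < σ ∧ Few K ε0 (fun Y w => IsTie σ 1 l Y w.1 ∧ IsTie σ 1 m Y w.2) := by
  by_cases hodd : Odd (Nat.gcd (l 0) (l 1))
  · exact few_ev' K ε0 hK he0 l m hl hl01 hg hodd hm0 hm1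
  · have he : 2 ∣ Nat.gcd (l 0) (l 1) := (Nat.not_odd_iff_even.1 hodd).two_dvd
    have h0 : Even (l 0) := even_iff_two_dvd.2 (he.trans (Nat.gcd_dvd_left _ _))
    have h1 : Even (l 1) := even_iff_two_dvd.2 (he.trans (Nat.gcd_dvd_right _ _))
    have hall : ∀ i, Even (l i) := by
      intro i
      fin_cases i
      · exact h0
      · exact h1
    obtain ⟨σ, hσ, hF⟩ := few_even K ε0 hK he0 l hl hall
    refine ⟨σ, hσ, ?_⟩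
    obtain ⟨C, δ, hC, hδ, hb⟩ := hF
    exact ⟨C, δ, hC, hδ, fun Y hY P hP => hb Y hY P (fun w hw => ⟨(hP w hw).1, (hP w hw).2.1⟩)⟩

end Hp

end Pool.Agent.Lib.MP_d8bd92_nt
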