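import Pool.Agent.Lib.MP_d8bd92_nt.Hp.LL0

set_option autoImplicit false

/-!
MP_d8bd92_nt, block LL, file LC2.
-/

namespace Pool.Agent.Lib.MP_d8bd92_nt

namespace Hp

open Finset

variable {D : ℤ}

/-- Row hpLC2.  `span {s' e'^l Ω} = span {s s'} * W * (span {e'} * I)^l = span {s s'} * W * (span{e} * I')^l
= span {s e^l Ω'}`; equal principal ideals in a domain: associated. -/
theorem unit_rel (hD : ∀ n : ℤ, D ≠ n * n) {I I' W : Ideal (ℤ√D)} {l s s' : ℕ} {Ω Ω' e e' : ℤ√D}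
    (hf : Ideal.span {Ω} = Ideal.span {(s : ℤ√D)} * W * I ^ l)
    (hf' : Ideal.span {Ω'} = Ideal.span {(s' : ℤ√D)} * W * I' ^ l)
    (hee : Ideal.span {e'} * I = Ideal.span {e} * I') :
    ∃ η : ℤ√D, IsUnit η ∧ (s : ℤ√D) * e ^ l * Ω' = η * ((s' : ℤ√D) * e' ^ l * Ω) := by
  have := isDomain_of hD
  have h1 : Ideal.span {(s' : ℤ√D) * e' ^ l * Ω} = Ideal.span {(s : ℤ√D) * e ^ l * Ω'} := by
    rw [← Ideal.span_singleton_mul_span_singleton, ← Ideal.span_singleton_mul_span_singleton,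
      ← Ideal.span_singleton_mul_span_singleton, ← Ideal.span_singleton_mul_span_singleton,
      ← Ideal.span_singleton_pow, ← Ideal.span_singleton_pow, hf, hf']
    calc Ideal.span {(s' : ℤ√D)} * Ideal.span {e'} ^ l * (Ideal.span {(s : ℤ√D)} * W * I ^ l)
        = Ideal.span {(s' : ℤ√D)} * Ideal.span {(s : ℤ√D)} * W * (Ideal.span {e'} * I) ^ l := by
          rw [mul_pow]; ring
      _ = Ideal.span {(s' : ℤ√D)} * Ideal.span {(s : ℤ√D)} * W * (Ideal.span {e} * I') ^ l := by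
          rw [hee]
      _ = Ideal.span {(s : ℤ√D)} * Ideal.span {e} ^ l * (Ideal.span {(s' : ℤ√D)} * W * I' ^ l) := by
          rw [mul_pow]; ring
  obtain ⟨u, hu⟩ := Ideal.span_singleton_eq_span_singleton.mp h1
  exact ⟨u, u.isUnit, by rw [← hu, mul_comm]⟩

end Hp

end Pool.Agent.Lib.MP_d8bd92_nt
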