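import Pool.Agent.Lib.MP_d8bd92_nt.Hp.LC0

set_option autoImplicit false

/-!
MP_d8bd92_nt, block LL, file LC3.
-/

namespace Pool.Agent.Lib.MP_d8bd92_nt

namespace Hp

open Finset

variable {D : ℤ}

theorem lc3_norm_pow (z : ℤ√D) (n : ℕ) : (z ^ n).norm = z.norm ^ n :=
  map_pow Zsqrtd.normMonoidHom z n

theorem lc3_hh_pow (z w : ℤ√D) (n : ℕ) : hh (z ^ n * w) ≤ 2 ^ n * hh z ^ n * hh w := by
  induction n with
  | zero => simp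
  | succ n ih =>
    have h1 : z ^ (n + 1) * w = z * (z ^ n * w) := by ring
    rw [h1]
    calc hh (z * (z ^ n * w)) ≤ 2 * hh z * hh (z ^ n * w) := hh_mul_le _ _
      _ ≤ 2 * hh z * (2 ^ n * hh z ^ n * hh w) :=
          mul_le_mul_of_nonneg_left ih (mul_nonneg (by norm_num) (hh_nonneg z))
      _ = _ := by ring

/-- Row hpLC3.  `η s' norm(e')^l norm(Ω) = s e^l Ω' star(e')^l star(Ω)`; take `hh` and use
`s^2 |norm e|^l |norm Ω'| = s'^2 |norm e'|^l |norm Ω|`. -/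
theorem unit_size (hD : ∀ n : ℤ, D ≠ n * n) {l s s' : ℕ} {Ω Ω' e e' η : ℤ√D} {a : ℤ} {E E' : ℕ} {C0 : ℝ}
    (hC0 : 1 ≤ C0) (hs : 1 ≤ s) (hs' : 1 ≤ s') (hE : 1 ≤ E) (hE' : 1 ≤ E') (hΩ : Ω ≠ 0) (hΩ' : Ω' ≠ 0) (ha : a ≠ 0)
    (hn : e.norm = a * E) (hn' : e'.norm = a * E')
    (hh1 : (hh e) ^ 2 ≤ 4 * (E : ℤ) ^ 2 * |D|) (hh2 : (hh e') ^ 2 ≤ 4 * (E' : ℤ) ^ 2 * |D|)
    (hb : ((hh Ω : ℤ) : ℝ) ≤ C0 * ((|Ω.norm| : ℤ) : ℝ)) (hb' : ((hh Ω' : ℤ) : ℝ) ≤ C0 * ((|Ω'.norm| : ℤ) : ℝ))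
    (hη : IsUnit η) (hrel : (s : ℤ√D) * e ^ l * Ω' = η * ((s' : ℤ√D) * e' ^ l * Ω)) :
    ((hh η : ℤ) : ℝ) ≤ 2 ^ (2 * l + 1) * 4 ^ l * ((|D| : ℤ) : ℝ) ^ l * C0 ^ 2 := by
  have hnΩ : Ω.norm ≠ 0 := fun h => hΩ ((Zsqrtd.norm_eq_zero hD Ω).mp h)
  -- the relation of the norms
  have hrn : (s : ℤ) ^ 2 * (E : ℤ) ^ l * |Ω'.norm| = (s' : ℤ) ^ 2 * (E' : ℤ) ^ l * |Ω.norm| := by
    have h1 := congrArg (fun z : ℤ√D => |z.norm|) hrel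
    simp only [Zsqrtd.norm_mul, Zsqrtd.norm_natCast, lc3_norm_pow, abs_mul, hn, hn'] at h1
    have h2 : |η.norm| = 1 := Int.isUnit_iff_abs_eq.mp ((Zsqrtd.isUnit_iff_norm_isUnit η).mp hη)
    rw [h2, one_mul, abs_pow, abs_pow, abs_mul, abs_mul, Nat.abs_cast, Nat.abs_cast, Nat.abs_cast,
      Nat.abs_cast, mul_pow, mul_pow] at h1
    have h3 : |a| ^ l ≠ 0 := pow_ne_zero _ (abs_ne_zero.mpr ha)
    refine mul_left_cancel₀ h3 ?_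
    linear_combination h1
  -- the relation of the sizes
  have hrh : ((s' : ℤ) * e'.norm ^ l * Ω.norm) ^ 2 * hh η ≤
      (s : ℤ) ^ 2 * (2 ^ (2 * l + 1) * (hh e * hh e') ^ l * (hh Ω * hh Ω')) := by
    have h1 : (((s' : ℤ) * e'.norm ^ l * Ω.norm : ℤ) : ℤ√D) * η =
        ((s : ℤ) : ℤ√D) * (e ^ l * ((star e') ^ l * (Ω' * star Ω))) := by
      rw [Int.cast_mul, Int.cast_mul, Int.cast_pow, norm_int, norm_int, Int.cast_natCast,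
        Int.cast_natCast]
      linear_combination (-(star e') ^ l * star Ω) * hrel
    have h2 := congrArg hh h1
    rw [hh_int_mul, hh_int_mul] at h2
    rw [h2]
    refine mul_le_mul_of_nonneg_left ?_ (sq_nonneg _)
    have he := hh_nonneg e
    have he' := hh_nonneg e'
    calc hh (e ^ l * ((star e') ^ l * (Ω' * star Ω)))
        ≤ 2 ^ l * hh e ^ l * hh ((star e') ^ l * (Ω' * star Ω)) := lc3_hh_pow _ _ _
      _ ≤ 2 ^ l * hh e ^ l * (2 ^ l * hh (star e') ^ l * hh (Ω' * star Ω)) :=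
          mul_le_mul_of_nonneg_left (lc3_hh_pow _ _ _) (by positivity)
      _ ≤ 2 ^ l * hh e ^ l * (2 ^ l * hh (star e') ^ l * (2 * hh Ω' * hh (star Ω))) := by
          refine mul_le_mul_of_nonneg_left (mul_le_mul_of_nonneg_left (hh_mul_le _ _) ?_)
            (by positivity)
          rw [hh_star]
          positivity
      _ = _ := by
          rw [hh_star, hh_star]
          ring
  have hee : (hh e * hh e') ^ l ≤ (4 * (E : ℤ) * E' * |D|) ^ l := by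
    refine pow_le_pow_left₀ (mul_nonneg (hh_nonneg e) (hh_nonneg e')) ?_ l
    refine le_of_abs_le (abs_le_of_sq_le_sq ?_ (by positivity))
    calc (hh e * hh e') ^ 2 = (hh e) ^ 2 * (hh e') ^ 2 := by ring
      _ ≤ (4 * (E : ℤ) ^ 2 * |D|) * (4 * (E' : ℤ) ^ 2 * |D|) :=
          mul_le_mul hh1 hh2 (sq_nonneg _) (by positivity)
      _ = _ := by ring
  -- real numbers
  set n : ℝ := ((|Ω.norm| : ℤ) : ℝ) with hndef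
  set n' : ℝ := ((|Ω'.norm| : ℤ) : ℝ) with hndef'
  have hnpos : 0 < n := by
    rw [hndef]
    exact_mod_cast abs_pos.mpr hnΩ
  have hn'0 : 0 ≤ n' := by
    rw [hndef']
    exact_mod_cast abs_nonneg _
  have hH : (0 : ℝ) ≤ ((hh η : ℤ) : ℝ) := by exact_mod_cast hh_nonneg η
  have hD0 : (0 : ℝ) ≤ ((|D| : ℤ) : ℝ) := by exact_mod_cast abs_nonneg D
  have hrnR : (s : ℝ) ^ 2 * (E : ℝ) ^ l * n' = (s' : ℝ) ^ 2 * (E' : ℝ) ^ l * n := by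
    rw [hndef, hndef']
    exact_mod_cast hrn
  have hsR : (0 : ℝ) < s' := by exact_mod_cast hs'
  have hER : (0 : ℝ) < E' := by exact_mod_cast hE'
  have hER0 : (0 : ℝ) ≤ E := by positivity
  have hΩR : (0 : ℝ) ≤ ((hh Ω : ℤ) : ℝ) := by exact_mod_cast hh_nonneg Ω
  have hΩR' : (0 : ℝ) ≤ ((hh Ω' : ℤ) : ℝ) := by exact_mod_cast hh_nonneg Ω'
  have hee0 : (0 : ℝ) ≤ (((hh e * hh e' : ℤ) : ℝ)) ^ l := by
    have : (0 : ℤ) ≤ hh e * hh e' := mul_nonneg (hh_nonneg e) (hh_nonneg e')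
    have h2 : (0 : ℝ) ≤ ((hh e * hh e' : ℤ) : ℝ) := by exact_mod_cast this
    positivity
  have heeR : (((hh e * hh e' : ℤ) : ℝ)) ^ l ≤ (4 * (E : ℝ) * E' * ((|D| : ℤ) : ℝ)) ^ l := by
    exact_mod_cast hee
  have hsq : (((s' : ℤ) * e'.norm ^ l * Ω.norm : ℤ) : ℝ) ^ 2 =
      (s' : ℝ) ^ 2 * ((a : ℝ) ^ 2) ^ l * ((E' : ℝ) ^ l) ^ 2 * n ^ 2 := by
    rw [hndef, hn']
    push_cast
    rw [sq_abs]
    ring
  have hrhR : (s' : ℝ) ^ 2 * ((a : ℝ) ^ 2) ^ l * ((E' : ℝ) ^ l) ^ 2 * n ^ 2 * ((hh η : ℤ) : ℝ) ≤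
      (s : ℝ) ^ 2 * (2 ^ (2 * l + 1) * (((hh e * hh e' : ℤ) : ℝ)) ^ l *
        (((hh Ω : ℤ) : ℝ) * ((hh Ω' : ℤ) : ℝ))) := by
    rw [← hsq]
    exact_mod_cast hrh
  have ha1 : (1 : ℝ) ≤ ((a : ℝ) ^ 2) ^ l := by
    refine one_le_pow₀ ?_
    have h1 : (1 : ℤ) ≤ a ^ 2 := by
      have := sq_pos_of_ne_zero ha
      omega
    exact_mod_cast h1
  have hK : (0 : ℝ) < (s' : ℝ) ^ 2 * ((E' : ℝ) ^ l) ^ 2 * n ^ 2 := by positivity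
  refine le_of_mul_le_mul_left ?_ hK
  calc (s' : ℝ) ^ 2 * ((E' : ℝ) ^ l) ^ 2 * n ^ 2 * ((hh η : ℤ) : ℝ)
      = ((s' : ℝ) ^ 2 * ((E' : ℝ) ^ l) ^ 2 * n ^ 2 * ((hh η : ℤ) : ℝ)) * 1 := by ring
    _ ≤ ((s' : ℝ) ^ 2 * ((E' : ℝ) ^ l) ^ 2 * n ^ 2 * ((hh η : ℤ) : ℝ)) * ((a : ℝ) ^ 2) ^ l :=
        mul_le_mul_of_nonneg_left ha1 (by positivity)
    _ = (s' : ℝ) ^ 2 * ((a : ℝ) ^ 2) ^ l * ((E' : ℝ) ^ l) ^ 2 * n ^ 2 * ((hh η : ℤ) : ℝ) := by ring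
    _ ≤ (s : ℝ) ^ 2 * (2 ^ (2 * l + 1) * (((hh e * hh e' : ℤ) : ℝ)) ^ l *
        (((hh Ω : ℤ) : ℝ) * ((hh Ω' : ℤ) : ℝ))) := hrhR
    _ ≤ (s : ℝ) ^ 2 * (2 ^ (2 * l + 1) * (4 * (E : ℝ) * E' * ((|D| : ℤ) : ℝ)) ^ l *
        ((C0 * n) * (C0 * n'))) := by
        refine mul_le_mul_of_nonneg_left ?_ (by positivity)
        refine mul_le_mul ?_ ?_ (by positivity) (by positivity)
        · exact mul_le_mul_of_nonneg_left heeR (by positivity)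
        · exact mul_le_mul hb hb' hΩR' (by positivity)
    _ = 2 ^ (2 * l + 1) * 4 ^ l * ((|D| : ℤ) : ℝ) ^ l * C0 ^ 2 * n * (E' : ℝ) ^ l *
        ((s : ℝ) ^ 2 * (E : ℝ) ^ l * n') := by
        rw [mul_pow, mul_pow, mul_pow]
        ring
    _ = 2 ^ (2 * l + 1) * 4 ^ l * ((|D| : ℤ) : ℝ) ^ l * C0 ^ 2 * n * (E' : ℝ) ^ l *
        ((s' : ℝ) ^ 2 * (E' : ℝ) ^ l * n) := by rw [hrnR]
    _ = (s' : ℝ) ^ 2 * ((E' : ℝ) ^ l) ^ 2 * n ^ 2 *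
        (2 ^ (2 * l + 1) * 4 ^ l * ((|D| : ℤ) : ℝ) ^ l * C0 ^ 2) := by ring

end Hp

end Pool.Agent.Lib.MP_d8bd92_nt
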