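import Pool.Agent.Lib.MP_d8bd92_nt.Hp.LC0

set_option autoImplicit false

/-!
MP_d8bd92_nt, block LL, file LD.
-/

namespace Pool.Agent.Lib.MP_d8bd92_nt

namespace Hp

open Finset

theorem ld_unit_norm {D : ℤ} {η : ℤ√D} (h : IsUnit η) : η.norm = 1 ∨ η.norm = -1 :=
  Int.isUnit_iff.mp ((Zsqrtd.isUnit_iff_norm_isUnit η).mp h)

theorem ld_neg {D : ℤ} (hD : D < 0) {η : ℤ√D} (h : IsUnit η) :
    (-1 ≤ η.re ∧ η.re ≤ 1) ∧ (-1 ≤ η.im ∧ η.im ≤ 1) := by
  have h1 : η.norm = 1 := by
    rcases ld_unit_norm h with h | h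
    · exact h
    · have := Zsqrtd.norm_nonneg hD.le η
      omega
  rw [Zsqrtd.norm_def] at h1
  have h2 : 0 ≤ η.re * η.re := mul_self_nonneg _
  have h3 : 0 ≤ η.im * η.im := mul_self_nonneg _
  have h4 : η.im * η.im ≤ -D * η.im * η.im := by nlinarith
  have h5 : η.re * η.re ≤ 1 := by nlinarith
  have h6 : η.im * η.im ≤ 1 := by nlinarith
  refine ⟨⟨?_, ?_⟩, ?_, ?_⟩ <;> nlinarith

theorem ld_real {D : ℤ} (hD : 0 ≤ D) (z : ℤ√D) :
    Zsqrtd.toReal hD z = (z.re : ℝ) + (z.im : ℝ) * Real.sqrt (D : ℝ) := rfl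

theorem ld_star {D : ℤ} (hD : 0 ≤ D) (z : ℤ√D) :
    Zsqrtd.toReal hD (star z) = (z.re : ℝ) - (z.im : ℝ) * Real.sqrt (D : ℝ) := by
  rw [ld_real]
  simp [sub_eq_add_neg]

theorem ld_norm {D : ℤ} (hD : 0 ≤ D) (z : ℤ√D) :
    Zsqrtd.toReal hD z * Zsqrtd.toReal hD (star z) = (z.norm : ℝ) := by
  rw [← map_mul, ← norm_int, map_intCast]

theorem ld_hh {D : ℤ} (hD : 0 ≤ D) (z : ℤ√D) :
    Zsqrtd.toReal hD z ^ 2 + Zsqrtd.toReal hD (star z) ^ 2 = 2 * ((hh z : ℤ) : ℝ) := by
  rw [ld_real, ld_star, hh, abs_of_nonneg hD]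
  have h : Real.sqrt (D : ℝ) ^ 2 = (D : ℝ) := Real.sq_sqrt (by exact_mod_cast hD)
  push_cast
  linear_combination (2 * (z.im : ℝ) ^ 2) * h

theorem ld_inj {D : ℤ} (hD : 0 < D) (hns : ∀ n : ℤ, D ≠ n * n) {η η1 : ℤ√D} (h : IsUnit η) (h1 : IsUnit η1)
    (hr1 : 2 / 3 < Zsqrtd.toReal hD.le η / Zsqrtd.toReal hD.le η1)
    (hr2 : Zsqrtd.toReal hD.le η / Zsqrtd.toReal hD.le η1 < 3 / 2) : η = η1 := by
  set φ := Zsqrtd.toReal hD.le with hφ
  have hN1 : η1.norm * η1.norm = 1 := by
    rcases ld_unit_norm h1 with h | h <;> rw [h] <;> norm_num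
  have hφ1 : φ η1 ≠ 0 := by
    intro h0
    rw [h0, div_zero] at hr1
    norm_num at hr1
  set ζ : ℤ√D := η * star η1 * ((η1.norm : ℤ) : ℤ√D) with hζ
  have hz1 : ζ * η1 = η := by
    have e1 : star η1 * η1 = ((η1.norm : ℤ) : ℤ√D) := by rw [norm_int, mul_comm]
    calc ζ * η1 = η * (star η1 * η1) * ((η1.norm : ℤ) : ℤ√D) := by rw [hζ]; ring
      _ = η * (((η1.norm * η1.norm : ℤ)) : ℤ√D) := by rw [e1]; push_cast; ring
      _ = η := by rw [hN1]; simp
  have hρ : φ ζ = φ η / φ η1 := by
    rw [eq_div_iff hφ1, ← map_mul, hz1]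
  rw [← hρ] at hr1 hr2
  have hnz : ζ.norm = 1 ∨ ζ.norm = -1 := by
    have e2 : ζ.norm * η1.norm = η.norm := by rw [← Zsqrtd.norm_mul, hz1]
    rcases ld_unit_norm h1 with h3 | h3 <;> rcases ld_unit_norm h with h4 | h4 <;> rw [h3, h4] at e2
    · left; linarith
    · right; linarith
    · right; linarith
    · left; linarith
  have hpr := ld_norm hD.le ζ
  rw [← hφ] at hpr
  have hsum : φ ζ + φ (star ζ) = 2 * (ζ.re : ℝ) := by
    rw [hφ, ld_real, ld_star]; ring
  set ρ := φ ζ
  set τ := φ (star ζ)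
  have hρ0 : 0 < ρ := by linarith
  have hone : ζ = 1 := by
    rcases hnz with hn | hn
    · rw [hn] at hpr
      push_cast at hpr
      have hτ1 : 0 < τ := by
        by_contra hc
        push Not at hc
        nlinarith
      have hτ2 : τ < 3 / 2 := by
        by_contra hc
        push Not at hc
        nlinarith
      have hu1 : (ζ.re : ℝ) < 2 := by linarith
      have hu2 : (0 : ℝ) < (ζ.re : ℝ) := by linarith
      have hu1' : ζ.re < 2 := by exact_mod_cast hu1
      have hu2' : 0 < ζ.re := by exact_mod_cast hu2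
      have hu : ζ.re = 1 := by omega
      have hv : ζ.im = 0 := by
        rw [Zsqrtd.norm_def, hu] at hn
        have h5 : D * (ζ.im * ζ.im) = 0 := by linarith
        rcases mul_eq_zero.mp h5 with h6 | h6
        · omega
        · exact mul_self_eq_zero.mp h6
      ext
      · simpa using hu
      · simpa using hv
    · exfalso
      rw [hn] at hpr
      push_cast at hpr
      have hτ1 : τ < -(2 / 3) := by
        by_contra hc
        push Not at hc
        nlinarith
      have hτ2 : -(3 / 2) < τ := by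
        by_contra hc
        push Not at hc
        nlinarith
      have hu1 : (ζ.re : ℝ) < 1 := by linarith
      have hu2 : (-1 : ℝ) < (ζ.re : ℝ) := by linarith
      have hu1' : ζ.re < 1 := by exact_mod_cast hu1
      have hu2' : -1 < ζ.re := by exact_mod_cast hu2
      have hu : ζ.re = 0 := by omega
      rw [Zsqrtd.norm_def, hu] at hn
      have h5 : D * (ζ.im * ζ.im) = 1 := by linarith
      have h6 : D ∣ 1 := ⟨_, h5.symm⟩
      have h7 : D = 1 := Int.eq_one_of_dvd_one hD.le h6
      exact hns 1 (by rw [h7]; norm_num)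
  rw [← hz1, hone, one_mul]

/-- Row hpLD.  `D < 0`: a unit has `x^2 + |D| y^2 = 1`, at most 4 units.  `D > 0`: `η = x + y √D`,
`η' = x - y √D`, `η η' = ± 1`, `hh η = (η^2 + η'^2)/2 ≤ H`, so `|log |η|| ≤ (1/2) log (2 H)`.  Two units
`η, η1` of the same sign with `2/3 < η/η1 < 3/2`: the unit `u + v √D = η/η1` has `u = (x + 1/x)/2 ∈ [1, 13/12)`
(norm 1, so `u = 1`, `v = 0`) or `u = (x - 1/x)/2 ∈ (-5/12, 5/12)` (norm -1, `u = 0`, `D v^2 = 1`, impossible).
So `η ↦ (sign, ⌊log |η| / log (3/2)⌋)` is injective. -/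
theorem unit_count : ∃ C : ℝ, 0 < C ∧ ∀ D : ℤ, (∀ n : ℤ, D ≠ n * n) → ∀ (H : ℝ), 1 ≤ H → ∀ T : Finset (ℤ√D),
    (∀ η ∈ T, IsUnit η ∧ ((hh η : ℤ) : ℝ) ≤ H) → (T.card : ℝ) ≤ C * (1 + Real.log H) := by
  have hL : 0 < Real.log (3 / 2) := Real.log_pos (by norm_num)
  set L := Real.log (3 / 2) with hLdef
  have hl2 : 0 < Real.log 2 := Real.log_pos (by norm_num)
  refine ⟨9 + 2 * (1 / L) + 2 * (Real.log 2 / L), by positivity, ?_⟩
  intro D hns H hH T hT
  have hlH : 0 ≤ Real.log H := Real.log_nonneg hH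
  have hCpos : 0 ≤ 2 * (1 / L) + 2 * (Real.log 2 / L) := by positivity
  rcases lt_trichotomy D 0 with hD | hD | hD
  · have hsub : T.card ≤ 9 := by
      have hc : T.card ≤ ((Finset.Icc (-1 : ℤ) 1) ×ˢ (Finset.Icc (-1 : ℤ) 1)).card := by
        refine Finset.card_le_card_of_injOn (fun η => (η.re, η.im)) ?_ ?_
        · intro η hη
          have := ld_neg hD (hT η hη).1
          simp only [Finset.coe_product, Set.mem_prod, Finset.mem_coe, Finset.mem_Icc]
          exact this
        · intro a _ b _ hab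
          simp only [Prod.mk.injEq] at hab
          exact Zsqrtd.ext hab.1 hab.2
      refine hc.trans ?_
      rw [Finset.card_product]
      simp
    have : (T.card : ℝ) ≤ 9 := by exact_mod_cast hsub
    nlinarith
  · exact absurd hD (by simpa using hns 0)
  · set φ := Zsqrtd.toReal hD.le with hφ
    set M : ℤ := ⌈Real.log (2 * H) / 2 / L⌉ with hM
    have hlog2H : Real.log (2 * H) = Real.log 2 + Real.log H := by
      rw [Real.log_mul (by norm_num) (by linarith)]
    have hpos : 0 < Real.log (2 * H) / 2 / L := by rw [hlog2H]; positivity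
    have hM0 : 0 ≤ M := by
      have : (0 : ℝ) < M := lt_of_lt_of_le hpos (Int.le_ceil _)
      exact_mod_cast this.le
    have hne : ∀ η ∈ T, φ η ≠ 0 := by
      intro η hη h0
      have h1 := ld_norm hD.le η
      rw [← hφ, h0, zero_mul] at h1
      rcases ld_unit_norm (hT η hη).1 with h2 | h2 <;> rw [h2] at h1 <;> norm_num at h1
    have hbd : ∀ η ∈ T, |Real.log (abs (φ η))| ≤ Real.log (2 * H) / 2 := by
      intro η hη
      have h1 := ld_norm hD.le η
      have h2 := ld_hh hD.le η
      rw [← hφ] at h1 h2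
      have h3 := (hT η hη).2
      have h4 := hne η hη
      have h5 : φ η ^ 2 ≤ 2 * H := by nlinarith [sq_nonneg (φ (star η))]
      have h6 : φ (star η) ^ 2 ≤ 2 * H := by nlinarith [sq_nonneg (φ η)]
      have h7 : φ η ^ 2 * φ (star η) ^ 2 = 1 := by
        rw [← mul_pow, h1]
        rcases ld_unit_norm (hT η hη).1 with h2 | h2 <;> rw [h2] <;> norm_num
      have h8 : 0 < φ η ^ 2 := by positivity
      have h9 : 1 / (2 * H) ≤ φ η ^ 2 := by
        rw [div_le_iff₀ (by linarith)]
        nlinarith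
      have h10 : Real.log (φ η ^ 2) = 2 * Real.log |φ η| := by
        rw [Real.log_pow, Real.log_abs]; norm_num
      have h11 : Real.log (φ η ^ 2) ≤ Real.log (2 * H) := Real.log_le_log h8 h5
      have h12 : - Real.log (2 * H) ≤ Real.log (φ η ^ 2) := by
        have := Real.log_le_log (by positivity) h9
        rwa [one_div, Real.log_inv] at this
      rw [abs_le]
      constructor <;> linarith
    have hc : T.card ≤ ((Finset.univ : Finset Bool) ×ˢ (Finset.Icc (-M) M)).card := by
      refine Finset.card_le_card_of_injOn (fun η => (decide (0 < φ η), ⌊Real.log |φ η| / L⌋)) ?_ ?_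
      · intro η hη
        have h1 := hbd η hη
        rw [abs_le] at h1
        simp only [Finset.coe_product, Set.mem_prod, Finset.mem_coe, Finset.mem_Icc, Finset.mem_univ, true_and]
        constructor
        · rw [Int.le_floor]
          have h2 : Real.log (2 * H) / 2 / L ≤ M := Int.le_ceil _
          have h3 : -(Real.log (2 * H) / 2 / L) ≤ Real.log |φ η| / L := by
            rw [← neg_div]
            exact div_le_div_of_nonneg_right (by linarith) hL.le
          push_cast
          linarith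
        · have h2 : Real.log |φ η| / L ≤ Real.log (2 * H) / 2 / L :=
            div_le_div_of_nonneg_right (by linarith) hL.le
          have h3 : Real.log (2 * H) / 2 / L ≤ M := Int.le_ceil _
          have h4 : ((⌊Real.log |φ η| / L⌋ : ℤ) : ℝ) ≤ M := (Int.floor_le _).trans (h2.trans h3)
          exact_mod_cast h4
      · intro a ha b hb hab
        simp only [Prod.mk.injEq, decide_eq_decide] at hab
        obtain ⟨hs, hf⟩ := hab
        have ha' : a ∈ T := ha
        have hb' : b ∈ T := hb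
        have hna := hne a ha'
        have hnb := hne b hb'
        have habs : |Real.log |φ a| / L - Real.log |φ b| / L| < 1 := Int.abs_sub_lt_one_of_floor_eq_floor hf
        have hpa : 0 < |φ a| := abs_pos.mpr hna
        have hpb : 0 < |φ b| := abs_pos.mpr hnb
        have hquot : φ a / φ b = |φ a| / |φ b| := by
          rcases lt_or_gt_of_ne hna with h1 | h1
          · have h2 : φ b < 0 := by
              rcases lt_or_gt_of_ne hnb with h2 | h2
              · exact h2
              · exact absurd (hs.mpr h2) (not_lt.mpr h1.le)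
            rw [abs_of_neg h1, abs_of_neg h2, neg_div_neg_eq]
          · have h2 : 0 < φ b := hs.mp h1
            rw [abs_of_pos h1, abs_of_pos h2]
        have hlq : Real.log (|φ a| / |φ b|) = Real.log |φ a| - Real.log |φ b| :=
          Real.log_div hpa.ne' hpb.ne'
        rw [← sub_div, abs_div, abs_of_pos hL, div_lt_one hL, ← hlq, abs_lt] at habs
        have hq : 0 < |φ a| / |φ b| := by positivity
        have hu : |φ a| / |φ b| < 3 / 2 := by
          have := habs.2
          rw [hLdef] at this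
          exact (Real.log_lt_log_iff hq (by norm_num)).mp this
        have hl : 2 / 3 < |φ a| / |φ b| := by
          have h1 := habs.1
          rw [hLdef, ← Real.log_inv] at h1
          have h2 := (Real.log_lt_log_iff (by norm_num) hq).mp h1
          norm_num at h2
          linarith
        rw [← hquot] at hu hl
        exact ld_inj hD hns (hT a ha').1 (hT b hb').1 hl hu
    rw [Finset.card_product, Finset.card_univ, Fintype.card_bool, Int.card_Icc] at hc
    have hc2 : (T.card : ℝ) ≤ 2 * (2 * (M : ℝ) + 1) := by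
      have h1 : (T.card : ℤ) ≤ 2 * (2 * M + 1) := by
        have h2 : ((M + 1 - -M).toNat : ℤ) = 2 * M + 1 := by omega
        have h3 : (T.card : ℤ) ≤ ((2 * (M + 1 - -M).toNat : ℕ) : ℤ) := by exact_mod_cast hc
        rw [Nat.cast_mul, h2] at h3
        exact_mod_cast h3
      exact_mod_cast h1
    have hMle : (M : ℝ) ≤ Real.log (2 * H) / 2 / L + 1 := (Int.ceil_lt_add_one _).le
    have h20 : Real.log (2 * H) / 2 / L = (Real.log 2 / L) / 2 + (Real.log H / L) / 2 := by
      rw [hlog2H]; ring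
    have h21 : Real.log H / L = (1 / L) * Real.log H := by ring
    have h22 : 0 ≤ 1 / L := by positivity
    have h23 : 0 ≤ Real.log 2 / L := by positivity
    have h24 : 0 ≤ (Real.log 2 / L) * Real.log H := by positivity
    have h25 : 0 ≤ (1 / L) * Real.log H := by positivity
    rw [h20, h21] at hMle
    nlinarith
end Hp

end Pool.Agent.Lib.MP_d8bd92_nt
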