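import Pool.Agent.Lib.MP_d8bd92_nt.Hp.LL0
import Pool.Agent.Lib.MP_d8bd92_nt.CdA

set_option autoImplicit false

/-!
MP_d8bd92_nt, block LL, file LJ.
-/

namespace Pool.Agent.Lib.MP_d8bd92_nt

namespace Hp

open Finset

private theorem lj_two_pow (n : ℕ) (hn : n ≠ 0) : 2 ^ n.primeFactors.card ≤ n.divisors.card := by
  rw [Nat.card_divisors hn, ← Finset.prod_const]
  refine Finset.prod_le_prod' fun p hp => ?_
  have h : 0 < n.factorization p :=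
    (Nat.prime_of_mem_primeFactors hp).factorization_pos_of_dvd hn (Nat.dvd_of_mem_primeFactors hp)
  omega

/-- Row hpLJ.  `2^ω(n) ≤ d(n) ≤ C n^ε'` (`card_divisors_le_rpow` of `CdA.lean`), and `l + 1 ≤ 2^(l+1)`. -/
theorem omega_pow (ε : ℝ) (hε : 0 < ε) (L : ℕ) : ∃ C : ℝ, 1 ≤ C ∧ ∀ n l : ℕ, 1 ≤ n → l ≤ L →
    (((l + 1) ^ n.primeFactors.card : ℕ) : ℝ) ≤ C * (n : ℝ) ^ ε := by
  have hL : (0 : ℝ) < ((L + 1 : ℕ) : ℝ) := by positivity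
  obtain ⟨C, hC, h⟩ := card_divisors_le_rpow (ε / ((L + 1 : ℕ) : ℝ)) (div_pos hε hL)
  refine ⟨C ^ (L + 1), one_le_pow₀ hC, ?_⟩
  intro n l hn hl
  have h1 : (l + 1) ^ n.primeFactors.card ≤ n.divisors.card ^ (L + 1) := by
    have h2 : l + 1 ≤ 2 ^ (L + 1) := by
      have h3 : L + 1 < 2 ^ (L + 1) := Nat.lt_two_pow_self
      omega
    calc (l + 1) ^ n.primeFactors.card ≤ (2 ^ (L + 1)) ^ n.primeFactors.card := Nat.pow_le_pow_left h2 _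
      _ = (2 ^ n.primeFactors.card) ^ (L + 1) := by rw [← pow_mul, ← pow_mul, mul_comm]
      _ ≤ n.divisors.card ^ (L + 1) := Nat.pow_le_pow_left (lj_two_pow n (by omega)) _
  have h4 : (((l + 1) ^ n.primeFactors.card : ℕ) : ℝ) ≤ ((n.divisors.card : ℕ) : ℝ) ^ (L + 1) := by
    exact_mod_cast h1
  refine h4.trans ?_
  have h5 := h n (by omega)
  have h6 : ((n.divisors.card : ℕ) : ℝ) ^ (L + 1) ≤ (C * (n : ℝ) ^ (ε / ((L + 1 : ℕ) : ℝ))) ^ (L + 1) :=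
    pow_le_pow_left₀ (Nat.cast_nonneg _) h5 _
  refine h6.trans (le_of_eq ?_)
  rw [mul_pow, ← Real.rpow_natCast ((n : ℝ) ^ (ε / ((L + 1 : ℕ) : ℝ))), ← Real.rpow_mul (Nat.cast_nonneg _),
    div_mul_cancel₀ _ (ne_of_gt hL)]

end Hp

end Pool.Agent.Lib.MP_d8bd92_nt
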