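import Pool.Agent.Lib.MP_d8bd92_nt.Hp.LL0

set_option autoImplicit false

/-!
MP_d8bd92_nt, block LL, file LC0.
-/

namespace Pool.Agent.Lib.MP_d8bd92_nt

namespace Hp

open Finset

variable {D : ℤ}

/-- Row hpLC0.  Elementary facts on `hh`. -/
theorem hh_nonneg (z : ℤ√D) : 0 ≤ hh z := by
  unfold hh; positivity

theorem hh_pos (hD : D ≠ 0) {z : ℤ√D} (hz : z ≠ 0) : 0 < hh z := by
  have hD' : 0 < |D| := abs_pos.mpr hD
  unfold hh
  by_cases hre : z.re = 0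
  · have him : z.im ≠ 0 := by
      intro him
      apply hz
      ext <;> simp [hre, him]
    have : 0 < z.im ^ 2 := by positivity
    positivity
  · have : 0 < z.re ^ 2 := by positivity
    positivity

theorem abs_norm_le_hh (z : ℤ√D) : |z.norm| ≤ hh z := by
  unfold hh
  rw [Zsqrtd.norm_def, abs_le]
  have h1 := neg_abs_le D
  have h2 := le_abs_self D
  have h3 : 0 ≤ z.im ^ 2 := sq_nonneg _
  have h4 : 0 ≤ z.re ^ 2 := sq_nonneg _
  constructor
  · nlinarith [mul_le_mul_of_nonneg_right h2 h3]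
  · nlinarith [mul_le_mul_of_nonneg_right h1 h3]

/-- the two parts of a product, up to a factor 2 -/
private theorem lc0_aux (d D a b u v : ℤ) (h1 : D ≤ d) (h2 : -D ≤ d) (hd : D ^ 2 = d ^ 2) :
    (a * u + D * b * v) ^ 2 + d * (a * v + b * u) ^ 2 ≤
      2 * (a ^ 2 + d * b ^ 2) * (u ^ 2 + d * v ^ 2) := by
  have h0 : 0 ≤ d := by linarith
  have e : 2 * (a ^ 2 + d * b ^ 2) * (u ^ 2 + d * v ^ 2) -
      ((a * u + D * b * v) ^ 2 + d * (a * v + b * u) ^ 2) =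
      (a * u - D * (b * v)) ^ 2 + d * (a * v - b * u) ^ 2 +
        2 * (d ^ 2 - D ^ 2) * (b * v) ^ 2 := by ring
  have : 0 ≤ (a * u - D * (b * v)) ^ 2 + d * (a * v - b * u) ^ 2 +
        2 * (d ^ 2 - D ^ 2) * (b * v) ^ 2 := by
    rw [hd, sub_self, mul_zero, zero_mul, add_zero]
    positivity
  linarith

theorem hh_mul_le (z w : ℤ√D) : hh (z * w) ≤ 2 * hh z * hh w := by
  unfold hh
  rw [Zsqrtd.re_mul, Zsqrtd.im_mul]
  exact lc0_aux |D| D z.re z.im w.re w.im (le_abs_self D) (neg_le_abs D) (sq_abs D).symm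

theorem hh_star (z : ℤ√D) : hh (star z) = hh z := by
  unfold hh; simp

theorem hh_int_mul (a : ℤ) (z : ℤ√D) : hh ((a : ℤ√D) * z) = a ^ 2 * hh z := by
  unfold hh; simp; ring

theorem norm_int_mul (a : ℤ) (z : ℤ√D) : ((a : ℤ√D) * z).norm = a ^ 2 * z.norm := by
  rw [Zsqrtd.norm_mul, Zsqrtd.norm_intCast]; ring

theorem norm_star (z : ℤ√D) : (star z).norm = z.norm := Zsqrtd.norm_conj z

theorem hh_pow_le (z : ℤ√D) (n : ℕ) (hn : 1 ≤ n) : hh (z ^ n) ≤ 2 ^ (n - 1) * hh z ^ n := by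
  induction n, hn using Nat.le_induction with
  | base => simp
  | succ n hn ih =>
    have hz := hh_nonneg z
    calc hh (z ^ (n + 1)) = hh (z ^ n * z) := by rw [pow_succ]
      _ ≤ 2 * hh (z ^ n) * hh z := hh_mul_le _ _
      _ ≤ 2 * (2 ^ (n - 1) * hh z ^ n) * hh z := by gcongr
      _ = 2 ^ ((n - 1) + 1) * hh z ^ (n + 1) := by ring
      _ = 2 ^ (n + 1 - 1) * hh z ^ (n + 1) := by
        rw [Nat.sub_add_cancel hn, Nat.add_sub_cancel]

/-- `(x + y √D)(x' + y' √D)` has imaginary part `x y' + y x'` -/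
theorem im_mul_sq_le (z w : ℤ√D) :
    |D| * (z * w).im ^ 2 ≤ 2 * (|D| * z.im ^ 2 * hh w + hh z * (|D| * w.im ^ 2)) := by
  have hd : 0 ≤ |D| := abs_nonneg D
  unfold hh
  rw [Zsqrtd.im_mul]
  generalize |D| = d at hd ⊢
  generalize z.re = a
  generalize z.im = b
  generalize w.re = u
  generalize w.im = v
  have e : 2 * (d * b ^ 2 * (u ^ 2 + d * v ^ 2) + (a ^ 2 + d * b ^ 2) * (d * v ^ 2)) -
      d * (a * v + b * u) ^ 2 =
      d * (a * v - b * u) ^ 2 + 4 * (d ^ 2 * (b * v) ^ 2) := by ring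
  have : 0 ≤ d * (a * v - b * u) ^ 2 + 4 * (d ^ 2 * (b * v) ^ 2) := by positivity
  linarith

end Hp

end Pool.Agent.Lib.MP_d8bd92_nt
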