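import Pool.Agent.Lib.MP_d8bd92_nt.Hp.LL0

set_option autoImplicit false

/-!
MP_d8bd92_nt, block LL, file LF2.
-/

namespace Pool.Agent.Lib.MP_d8bd92_nt

namespace Hp

open Finset

variable {D : ℤ}

/-- Row hpLF2.  `D > 0`, `norm z > 0`: `u = x + y √D`, `v = x - y √D` have the same sign,
`D y^2 = (u - v)^2 / 4`, so `D y^2 / norm z = (√t - 1/√t)^2 / 4`, `t = u/v > 0`, which grows when `t` is replaced by `t^l`
(`(√t - 1/√t)^2 = t + 1/t - 2`). -/
theorem im_root_pos (hD0 : 0 < D) (z : ℤ√D) (hz : 0 < z.norm) (l : ℕ) (hl : 1 ≤ l) :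
    D * z.im ^ 2 * z.norm ^ (l - 1) ≤ D * (z ^ l).im ^ 2 := by
  have hn : z.norm = z.re * z.re - D * z.im * z.im := Zsqrtd.norm_def z
  have key : ∀ k : ℕ, 0 ≤ z.re * z.im * ((z ^ k).re * (z ^ k).im) := by
    intro k
    induction k with
    | zero => simp
    | succ k ih =>
      rw [pow_succ]
      simp only [Zsqrtd.re_mul, Zsqrtd.im_mul]
      have e : z.re * z.im * (((z ^ k).re * z.re + D * (z ^ k).im * z.im) * ((z ^ k).re * z.im + (z ^ k).im * z.re))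
          = (z.re ^ 2 + D * z.im ^ 2) * (z.re * z.im * ((z ^ k).re * (z ^ k).im))
            + (z.re * z.im) ^ 2 * ((z ^ k).re ^ 2 + D * (z ^ k).im ^ 2) := by ring
      rw [e]
      positivity
  have main : ∀ k : ℕ, z.im ^ 2 * z.norm ^ k ≤ (z ^ (k + 1)).im ^ 2 := by
    intro k
    induction k with
    | zero => simp
    | succ k ih =>
      rw [pow_succ z (k + 1)]
      simp only [Zsqrtd.im_mul]
      have h1 := key (k + 1)
      have h2 : z.norm ≤ z.re ^ 2 := by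
        rw [hn]; nlinarith [mul_nonneg hD0.le (sq_nonneg z.im)]
      calc z.im ^ 2 * z.norm ^ (k + 1) = z.im ^ 2 * z.norm ^ k * z.norm := by ring
        _ ≤ (z ^ (k + 1)).im ^ 2 * z.norm := mul_le_mul_of_nonneg_right ih hz.le
        _ ≤ (z ^ (k + 1)).im ^ 2 * z.re ^ 2 := mul_le_mul_of_nonneg_left h2 (sq_nonneg _)
        _ ≤ ((z ^ (k + 1)).re * z.im + (z ^ (k + 1)).im * z.re) ^ 2 := by
          nlinarith [sq_nonneg ((z ^ (k + 1)).re * z.im)]
  obtain ⟨k, rfl⟩ : ∃ k, l = k + 1 := ⟨l - 1, by omega⟩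
  have h := main k
  rw [Nat.add_sub_cancel]
  calc D * z.im ^ 2 * z.norm ^ k = D * (z.im ^ 2 * z.norm ^ k) := by ring
    _ ≤ D * (z ^ (k + 1)).im ^ 2 := mul_le_mul_of_nonneg_left h hD0.le

end Hp

end Pool.Agent.Lib.MP_d8bd92_nt
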