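import Pool.Agent.Lib.MP_d8bd92_nt.Hp.LL0

set_option autoImplicit false

/-!
MP_d8bd92_nt, block LL, file LF3.
-/

namespace Pool.Agent.Lib.MP_d8bd92_nt

namespace Hp

open Finset

theorem lf3_im_pow' (z : ℂ) (l : ℕ) : (z ^ l).im = ‖z‖ ^ l * Real.sin (l * z.arg) := by
  conv_lhs => rw [← Complex.norm_mul_exp_arg_mul_I z]
  rw [mul_pow, ← Complex.exp_nat_mul, ← Complex.ofReal_pow, Complex.im_ofReal_mul]
  congr 1
  rw [show (l : ℂ) * ((z.arg : ℂ) * Complex.I) = (((l : ℝ) * z.arg : ℝ) : ℂ) * Complex.I by push_cast; ring]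
  exact Complex.exp_ofReal_mul_I_im _

/-- Row hpLF3.  Directions of complex numbers.  `z ≠ 0` with `|Im z^l| ≤ θ |z|^l` : group by the class
`⌊(arg z + π) / (π/(4 l))⌋ ∈ {0, …, 8 l}`.  For `z, z'` in one class, `w = z conj z'`, `|arg w| ≤ π/(4 l)` and
`|Im w^l| ≤ 2 θ |w|^l`, so `|sin (l arg w)| ≤ 2 θ`, `|l arg w| ≤ π/4`, `|sin φ| ≥ (2/π)|φ|`:
`|arg w| ≤ π θ / l`, `|Im w| ≤ |arg w| |w| ≤ 4 θ |w|`. -/
theorem directions_complex (l : ℕ) (hl : 1 ≤ l) : ∃ κ : ℂ → ℕ, (∀ z, κ z ≤ 8 * l) ∧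
    ∀ (θ : ℝ) (z z' : ℂ), 0 < θ → z ≠ 0 → z' ≠ 0 → |(z ^ l).im| ≤ θ * ‖z‖ ^ l → |(z' ^ l).im| ≤ θ * ‖z'‖ ^ l →
      κ z = κ z' → |(z * (starRingEnd ℂ) z').im| ≤ 4 * θ * ‖z‖ * ‖z'‖ := by
  have hl0 : (0 : ℝ) < l := by exact_mod_cast hl
  have hl1 : (1 : ℝ) ≤ l := by exact_mod_cast hl
  have hpi := Real.pi_pos
  have hden : 0 < Real.pi / (4 * l) := by positivity
  refine ⟨fun z => ⌊(z.arg + Real.pi) / (Real.pi / (4 * l))⌋₊, ?_, ?_⟩
  · intro z
    have h1 : (z.arg + Real.pi) / (Real.pi / (4 * l)) ≤ ((8 * l : ℕ) : ℝ) := by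
      rw [div_le_iff₀ hden]
      have h2 := Complex.arg_le_pi z
      have h3 : ((8 * l : ℕ) : ℝ) * (Real.pi / (4 * l)) = 2 * Real.pi := by
        push_cast
        field_simp
        ring
      rw [h3]
      linarith
    exact Nat.floor_le_of_le h1
  · intro θ z z' hθ hz hz' h1 h2 hk
    simp only at hk
    set a := z.arg with ha
    set b := z'.arg with hb
    have hzn : 0 < ‖z‖ := norm_pos_iff.mpr hz
    have hzn' : 0 < ‖z'‖ := norm_pos_iff.mpr hz'
    have ha0 : 0 ≤ (a + Real.pi) / (Real.pi / (4 * l)) := by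
      have := Complex.neg_pi_lt_arg z
      apply div_nonneg _ hden.le
      linarith
    have hb0 : 0 ≤ (b + Real.pi) / (Real.pi / (4 * l)) := by
      have := Complex.neg_pi_lt_arg z'
      apply div_nonneg _ hden.le
      linarith
    -- the angles are close
    have hclose : |a - b| ≤ Real.pi / (4 * l) := by
      have f1 := Nat.floor_le ha0
      have f2 := Nat.lt_floor_add_one ((a + Real.pi) / (Real.pi / (4 * l)))
      have f3 := Nat.floor_le hb0
      have f4 := Nat.lt_floor_add_one ((b + Real.pi) / (Real.pi / (4 * l)))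
      rw [hk] at f1 f2
      have f5 : (a + Real.pi) / (Real.pi / (4 * l)) - (b + Real.pi) / (Real.pi / (4 * l)) ≤ 1 := by linarith
      have f6 : -1 ≤ (a + Real.pi) / (Real.pi / (4 * l)) - (b + Real.pi) / (Real.pi / (4 * l)) := by linarith
      have f7 : (a + Real.pi) / (Real.pi / (4 * l)) - (b + Real.pi) / (Real.pi / (4 * l)) =
          (a - b) / (Real.pi / (4 * l)) := by ring
      rw [f7] at f5 f6
      rw [div_le_iff₀ hden] at f5
      rw [le_div_iff₀ hden] at f6
      rw [abs_le]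
      constructor <;> linarith
    have hp1 : 0 < ‖z‖ ^ l := by positivity
    have hp2 : 0 < ‖z'‖ ^ l := by positivity
    have s1 : |Real.sin (l * a)| ≤ θ := by
      rw [lf3_im_pow', abs_mul, abs_of_pos hp1, mul_comm] at h1
      exact le_of_mul_le_mul_right h1 hp1
    have s2 : |Real.sin (l * b)| ≤ θ := by
      rw [lf3_im_pow', abs_mul, abs_of_pos hp2, mul_comm] at h2
      exact le_of_mul_le_mul_right h2 hp2
    have s3 : |Real.sin (l * (a - b))| ≤ 2 * θ := by
      rw [mul_sub, Real.sin_sub]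
      calc |Real.sin (l * a) * Real.cos (l * b) - Real.cos (l * a) * Real.sin (l * b)|
          ≤ |Real.sin (l * a) * Real.cos (l * b)| + |Real.cos (l * a) * Real.sin (l * b)| := abs_sub _ _
        _ = |Real.sin (l * a)| * |Real.cos (l * b)| + |Real.cos (l * a)| * |Real.sin (l * b)| := by
          rw [abs_mul, abs_mul]
        _ ≤ |Real.sin (l * a)| * 1 + 1 * |Real.sin (l * b)| := by
          gcongr
          · exact Real.abs_cos_le_one _
          · exact Real.abs_cos_le_one _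
        _ ≤ 2 * θ := by linarith
    -- lower bound for the sine
    have s4 : 2 / Real.pi * |l * (a - b)| ≤ |Real.sin (l * (a - b))| := by
      have hb1 : |(l : ℝ) * (a - b)| ≤ Real.pi / 2 := by
        rw [abs_mul, abs_of_pos hl0]
        calc (l : ℝ) * |a - b| ≤ l * (Real.pi / (4 * l)) := by gcongr
          _ = Real.pi / 4 := by field_simp
          _ ≤ Real.pi / 2 := by linarith
      have h5 := Real.mul_le_sin (abs_nonneg ((l : ℝ) * (a - b))) hb1
      refine h5.trans ?_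
      rcases abs_cases ((l : ℝ) * (a - b)) with ⟨e, _⟩ | ⟨e, _⟩
      · rw [e]; exact le_abs_self _
      · rw [e, Real.sin_neg]; exact neg_le_abs _
    have s5 : |a - b| ≤ 4 * θ := by
      have e1 : 2 / Real.pi * |(l : ℝ) * (a - b)| ≤ 2 * θ := s4.trans s3
      rw [abs_mul, abs_of_pos hl0] at e1
      have e2 : |a - b| ≤ l * |a - b| := by
        nlinarith [abs_nonneg (a - b)]
      have e3 : 2 / Real.pi * |a - b| ≤ 2 * θ := le_trans (by gcongr) e1
      rw [div_mul_eq_mul_div, div_le_iff₀ hpi] at e3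
      have := Real.pi_lt_four
      nlinarith
    -- the product
    have hw : (z * (starRingEnd ℂ) z').im = ‖z‖ * ‖z'‖ * Real.sin (a - b) := by
      have g1 : z.re = ‖z‖ * Real.cos a := (Complex.norm_mul_cos_arg z).symm
      have g2 : z.im = ‖z‖ * Real.sin a := (Complex.norm_mul_sin_arg z).symm
      have g3 : z'.re = ‖z'‖ * Real.cos b := (Complex.norm_mul_cos_arg z').symm
      have g4 : z'.im = ‖z'‖ * Real.sin b := (Complex.norm_mul_sin_arg z').symm
      rw [Complex.mul_im, Complex.conj_re, Complex.conj_im, g1, g2, g3, g4, Real.sin_sub]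
      ring
    rw [hw, abs_mul, abs_of_pos (mul_pos hzn hzn')]
    have s6 : |Real.sin (a - b)| ≤ |a - b| := Real.abs_sin_le_abs
    calc ‖z‖ * ‖z'‖ * |Real.sin (a - b)| ≤ ‖z‖ * ‖z'‖ * (4 * θ) := by
          gcongr
          exact s6.trans s5
      _ = 4 * θ * ‖z‖ * ‖z'‖ := by ring

end Hp

end Pool.Agent.Lib.MP_d8bd92_nt
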