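import Pool.Agent.Lib.MP_d8bd92_nt.Hp.LF1
import Pool.Agent.Lib.MP_d8bd92_nt.Hp.LF2
import Pool.Agent.Lib.MP_d8bd92_nt.Hp.LF3
import Pool.Agent.Lib.MP_d8bd92_nt.Hp.LC0

set_option autoImplicit false

/-!
MP_d8bd92_nt, block LL, file LF4.
-/

namespace Pool.Agent.Lib.MP_d8bd92_nt

namespace Hp

open Finset

theorem lf4_norm_pow {D : ℤ} (z : ℤ√D) (n : ℕ) : (z ^ n).norm = z.norm ^ n := by
  induction n with
  | zero => rw [pow_zero, pow_zero, Zsqrtd.norm_one]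
  | succ n ih => rw [pow_succ, pow_succ, Zsqrtd.norm_mul, ih]

/-- the positive case -/
theorem lf4_pos {D : ℤ} (hD0 : 0 < D) (hD : ∀ n : ℤ, D ≠ n * n) (l : ℕ) (hl : 1 ≤ l) (C1 θ : ℝ) (β : ℤ√D)
    (hβ : 0 < β.norm) (h1 : ((hh (β ^ l) : ℤ) : ℝ) ≤ C1 * (((β ^ l).norm : ℤ) : ℝ))
    (h2 : (((|D| * (β ^ l).im ^ 2 : ℤ)) : ℝ) ≤ C1 * θ ^ 2 * (((β ^ l).norm : ℤ) : ℝ)) :
    ((hh β : ℤ) : ℝ) ≤ C1 * ((β.norm : ℤ) : ℝ) ∧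
    (((|D| * β.im ^ 2 : ℤ)) : ℝ) ≤ C1 * θ ^ 2 * ((β.norm : ℤ) : ℝ) := by
  have e0 : (β ^ l).norm = β.norm ^ (l - 1) * β.norm := by
    rw [lf4_norm_pow, ← pow_succ]
    congr 1
    omega
  have hp : (0 : ℝ) < ((β.norm : ℤ) : ℝ) ^ (l - 1) := by
    have : (0 : ℝ) < ((β.norm : ℤ) : ℝ) := by exact_mod_cast hβ
    positivity
  rw [e0] at h1 h2
  push_cast at h1 h2
  constructor
  · have a1 := bal_root hD β l hl
    rw [abs_of_pos hβ] at a1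
    have a2 : ((hh β : ℤ) : ℝ) * ((β.norm : ℤ) : ℝ) ^ (l - 1) ≤ ((hh (β ^ l) : ℤ) : ℝ) := by exact_mod_cast a1
    have a3 : ((hh β : ℤ) : ℝ) * ((β.norm : ℤ) : ℝ) ^ (l - 1) ≤
        (C1 * ((β.norm : ℤ) : ℝ)) * ((β.norm : ℤ) : ℝ) ^ (l - 1) := by
      refine a2.trans (h1.trans (le_of_eq ?_))
      ring
    exact le_of_mul_le_mul_right a3 hp
  · have a1 := im_root_pos hD0 β hβ l hl
    have a2 : (D : ℝ) * ((β.im : ℤ) : ℝ) ^ 2 * ((β.norm : ℤ) : ℝ) ^ (l - 1) ≤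
        (D : ℝ) * (((β ^ l).im : ℤ) : ℝ) ^ 2 := by exact_mod_cast a1
    have hDa : |(D : ℝ)| = (D : ℝ) := abs_of_pos (by exact_mod_cast hD0)
    push_cast
    rw [hDa] at h2 ⊢
    have a3 : ((D : ℝ) * ((β.im : ℤ) : ℝ) ^ 2) * ((β.norm : ℤ) : ℝ) ^ (l - 1) ≤
        (C1 * θ ^ 2 * ((β.norm : ℤ) : ℝ)) * ((β.norm : ℤ) : ℝ) ^ (l - 1) := by
      refine a2.trans (h2.trans (le_of_eq ?_))
      ring
    exact le_of_mul_le_mul_right a3 hp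

/-- the embedding for negative `D` -/
theorem lf4_emb {D : ℤ} (hD : D < 0) : ∃ ψ : ℤ√D →+* ℂ, (∀ z, (ψ z).re = z.re) ∧
    (∀ z, (ψ z).im = z.im * Real.sqrt ((-D : ℤ) : ℝ)) := by
  have hs : Real.sqrt ((-D : ℤ) : ℝ) * Real.sqrt ((-D : ℤ) : ℝ) = ((-D : ℤ) : ℝ) := by
    apply Real.mul_self_sqrt
    have : (0 : ℤ) ≤ -D := by omega
    exact_mod_cast this
  have hr : ((Real.sqrt ((-D : ℤ) : ℝ) : ℝ) * Complex.I : ℂ) * ((Real.sqrt ((-D : ℤ) : ℝ) : ℝ) * Complex.I) = (D : ℂ) := by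
    have e : ((Real.sqrt ((-D : ℤ) : ℝ) : ℝ) * Complex.I : ℂ) * ((Real.sqrt ((-D : ℤ) : ℝ) : ℝ) * Complex.I) =
        ((Real.sqrt ((-D : ℤ) : ℝ) * Real.sqrt ((-D : ℤ) : ℝ) : ℝ) : ℂ) * (Complex.I * Complex.I) := by
      push_cast
      ring
    rw [e, hs, Complex.I_mul_I]
    push_cast
    ring
  refine ⟨Zsqrtd.lift ⟨_, hr⟩, fun z => ?_, fun z => ?_⟩
  · rw [Zsqrtd.lift_apply_apply]
    simp
  · rw [Zsqrtd.lift_apply_apply]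
    simp

/-- the negative case -/
theorem lf4_neg {D : ℤ} (hD : D < 0) (l : ℕ) (hl : 1 ≤ l) (C1 : ℝ) (hC1 : 1 ≤ C1) :
    ∃ κ : ℤ√D → ℕ, (∀ z, κ z ≤ 8 * l) ∧ ∀ (θ : ℝ) (β β' : ℤ√D), 0 < θ → 0 < β.norm → 0 < β'.norm →
      (((|D| * (β ^ l).im ^ 2 : ℤ)) : ℝ) ≤ C1 * θ ^ 2 * (((β ^ l).norm : ℤ) : ℝ) →
      (((|D| * (β' ^ l).im ^ 2 : ℤ)) : ℝ) ≤ C1 * θ ^ 2 * (((β' ^ l).norm : ℤ) : ℝ) →
      κ β = κ β' →
      (((|D| * (β * star β').im ^ 2 : ℤ)) : ℝ) ≤ 16 * C1 * θ ^ 2 * (((β * star β').norm : ℤ) : ℝ) := by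
  obtain ⟨ψ, hre, him⟩ := lf4_emb hD
  obtain ⟨κ, hκ, hκ2⟩ := directions_complex l hl
  have hs : Real.sqrt ((-D : ℤ) : ℝ) ^ 2 = ((-D : ℤ) : ℝ) := by
    apply Real.sq_sqrt
    have : (0 : ℤ) ≤ -D := by omega
    exact_mod_cast this
  have hDa : |(D : ℝ)| = ((-D : ℤ) : ℝ) := by
    rw [abs_of_neg (by exact_mod_cast hD)]
    push_cast
    ring
  have hn : ∀ z : ℤ√D, ‖ψ z‖ ^ 2 = ((z.norm : ℤ) : ℝ) := by
    intro z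
    rw [Complex.sq_norm, Complex.normSq_apply, hre, him, Zsqrtd.norm_def]
    have : ((z.im : ℤ) : ℝ) * Real.sqrt ((-D : ℤ) : ℝ) * (((z.im : ℤ) : ℝ) * Real.sqrt ((-D : ℤ) : ℝ)) =
        ((z.im : ℤ) : ℝ) ^ 2 * Real.sqrt ((-D : ℤ) : ℝ) ^ 2 := by ring
    rw [this, hs]
    push_cast
    ring
  have hi : ∀ z : ℤ√D, (ψ z).im ^ 2 = (((|D| * z.im ^ 2 : ℤ)) : ℝ) := by
    intro z
    rw [him, mul_pow, hs]
    push_cast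
    rw [hDa]
    push_cast
    ring
  have hst : ∀ z : ℤ√D, (starRingEnd ℂ) (ψ z) = ψ (star z) := by
    intro z
    apply Complex.ext
    · rw [Complex.conj_re, hre, hre, Zsqrtd.re_star]
    · rw [Complex.conj_im, him, him, Zsqrtd.im_star]
      push_cast
      ring
  have hpow : ∀ z : ℤ√D, ((z ^ l).norm : ℤ) = z.norm ^ l := fun z => lf4_norm_pow z l
  have hC0 : (0 : ℝ) ≤ C1 := by linarith
  have hsC : Real.sqrt C1 ^ 2 = C1 := Real.sq_sqrt hC0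
  have hsC0 : 0 < Real.sqrt C1 := Real.sqrt_pos.mpr (by linarith)
  have key : ∀ (θ : ℝ) (z : ℤ√D), 0 < θ →
      (((|D| * (z ^ l).im ^ 2 : ℤ)) : ℝ) ≤ C1 * θ ^ 2 * (((z ^ l).norm : ℤ) : ℝ) →
      |((ψ z) ^ l).im| ≤ (Real.sqrt C1 * θ) * ‖ψ z‖ ^ l := by
    intro θ z hθ h
    apply abs_le_of_sq_le_sq _ (by positivity)
    rw [← map_pow, hi]
    refine h.trans (le_of_eq ?_)
    rw [hpow, mul_pow, mul_pow, hsC]
    push_cast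
    rw [← hn z]
    ring
  refine ⟨fun z => κ (ψ z), fun z => hκ _, ?_⟩
  intro θ β β' hθ hβ hβ' h1 h2 hκe
  have nz : ∀ z : ℤ√D, 0 < z.norm → ψ z ≠ 0 := by
    intro z hz h0
    have := hn z
    rw [h0, norm_zero] at this
    have h3 : (0 : ℝ) < ((z.norm : ℤ) : ℝ) := by exact_mod_cast hz
    rw [← this] at h3
    norm_num at h3
  have h3 := hκ2 (Real.sqrt C1 * θ) (ψ β) (ψ β') (by positivity) (nz β hβ) (nz β' hβ') (key θ β hθ h1)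
    (key θ β' hθ h2) hκe
  rw [hst, ← map_mul] at h3
  have h4 : (ψ (β * star β')).im ^ 2 ≤ (4 * (Real.sqrt C1 * θ) * ‖ψ β‖ * ‖ψ β'‖) ^ 2 := by
    rw [← sq_abs]
    exact pow_le_pow_left₀ (abs_nonneg _) h3 2
  rw [hi] at h4
  refine h4.trans (le_of_eq ?_)
  rw [Zsqrtd.norm_mul, Hp.norm_star]
  push_cast
  rw [← hn β, ← hn β', mul_pow, mul_pow, mul_pow, mul_pow, hsC]
  ring

/-- Row hpLF4 (uses F2, F3, `im_mul_sq_le`-type estimates).  Directions in `ℤ√D`.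
`D > 0`: one class; `im_root_pos` and `bal_root` give that each `β` itself is `C1`-balanced and `θ`-real; then
`Im (β star β') = Im β Re β' - Re β Im β'`.  `D < 0`: map `x + y √D ↦ x + i y √|D|` into `ℂ` (a ring hom, `|.|^2 = norm = hh`),
`|D| Im(β^l)^2 ≤ C1 θ^2 norm^l`, i.e. `|Im| ≤ √C1 θ |β|^l`; use `directions_complex`. -/
theorem directions (l : ℕ) (hl : 1 ≤ l) (C1 : ℝ) (hC1 : 1 ≤ C1) : ∃ C2 : ℝ, 1 ≤ C2 ∧ ∀ D : ℤ, (∀ n : ℤ, D ≠ n * n) →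
    ∃ κ : ℤ√D → ℕ, (∀ z, κ z ≤ 8 * l) ∧ ∀ (θ : ℝ) (β β' : ℤ√D), 0 < θ → 0 < β.norm → 0 < β'.norm →
      ((hh (β ^ l) : ℤ) : ℝ) ≤ C1 * (((β ^ l).norm : ℤ) : ℝ) → ((hh (β' ^ l) : ℤ) : ℝ) ≤ C1 * (((β' ^ l).norm : ℤ) : ℝ) →
      (((|D| * (β ^ l).im ^ 2 : ℤ)) : ℝ) ≤ C1 * θ ^ 2 * (((β ^ l).norm : ℤ) : ℝ) →
      (((|D| * (β' ^ l).im ^ 2 : ℤ)) : ℝ) ≤ C1 * θ ^ 2 * (((β' ^ l).norm : ℤ) : ℝ) →
      κ β = κ β' →
      (((|D| * (β * star β').im ^ 2 : ℤ)) : ℝ) ≤ C2 * θ ^ 2 * (((β * star β').norm : ℤ) : ℝ) := by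
  refine ⟨16 * C1 ^ 2, by nlinarith, ?_⟩
  intro D hD
  have hC0 : 0 ≤ C1 := by linarith
  have hD0 : D ≠ 0 := fun h => hD 0 (by rw [h]; rfl)
  rcases lt_or_gt_of_ne hD0 with hneg | hpos
  · obtain ⟨κ, h1, h2⟩ := lf4_neg hneg l hl C1 hC1
    refine ⟨κ, h1, ?_⟩
    intro θ β β' hθ hβ hβ' _ _ a3 a4 a5
    refine (h2 θ β β' hθ hβ hβ' a3 a4 a5).trans ?_
    have hN : (0 : ℝ) ≤ (((β * star β').norm : ℤ) : ℝ) := by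
      rw [Zsqrtd.norm_mul, Hp.norm_star]
      have := (mul_pos hβ hβ').le
      exact_mod_cast this
    apply mul_le_mul_of_nonneg_right _ hN
    apply mul_le_mul_of_nonneg_right _ (sq_nonneg θ)
    nlinarith
  · refine ⟨fun _ => 0, fun _ => Nat.zero_le _, ?_⟩
    intro θ β β' hθ hβ hβ' a1 a2 a3 a4 _
    obtain ⟨b1, b2⟩ := lf4_pos hpos hD l hl C1 θ β hβ a1 a3
    obtain ⟨c1, c2⟩ := lf4_pos hpos hD l hl C1 θ β' hβ' a2 a4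
    have d1 := im_mul_sq_le β (star β')
    rw [hh_star] at d1
    have d2 : (star β').im ^ 2 = β'.im ^ 2 := by
      rw [Zsqrtd.im_star]
      ring
    rw [d2] at d1
    have d3 : (((|D| * (β * star β').im ^ 2 : ℤ)) : ℝ) ≤ 2 * ((((|D| * β.im ^ 2 : ℤ)) : ℝ) * ((hh β' : ℤ) : ℝ) +
        ((hh β : ℤ) : ℝ) * (((|D| * β'.im ^ 2 : ℤ)) : ℝ)) := by exact_mod_cast d1
    have hN : (0 : ℝ) < ((β.norm : ℤ) : ℝ) := by exact_mod_cast hβ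
    have hN' : (0 : ℝ) < ((β'.norm : ℤ) : ℝ) := by exact_mod_cast hβ'
    have n1 : (0 : ℝ) ≤ ((hh β' : ℤ) : ℝ) := by exact_mod_cast hh_nonneg β'
    have n2 : (0 : ℝ) ≤ ((hh β : ℤ) : ℝ) := by exact_mod_cast hh_nonneg β
    have n3 : (0 : ℝ) ≤ (((|D| * β'.im ^ 2 : ℤ)) : ℝ) := by
      have : (0 : ℤ) ≤ |D| * β'.im ^ 2 := by positivity
      exact_mod_cast this
    have n4 : (0 : ℝ) ≤ C1 * θ ^ 2 * ((β.norm : ℤ) : ℝ) := by positivity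
    have n5 : (0 : ℝ) ≤ C1 * ((β.norm : ℤ) : ℝ) := by positivity
    have p1 := mul_le_mul b2 c1 n1 n4
    have p2 := mul_le_mul b1 c2 n3 n5
    rw [Zsqrtd.norm_mul, Hp.norm_star]
    push_cast at d3 p1 p2 ⊢
    nlinarith [mul_nonneg (mul_nonneg (sq_nonneg C1) (sq_nonneg θ)) (mul_pos hN hN').le]

end Hp

end Pool.Agent.Lib.MP_d8bd92_nt
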