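import Pool.Agent.Lib.MP_d8bd92_nt.Hp.LG2

set_option autoImplicit false

/-!
MP_d8bd92_nt, block LL, file LG3.
-/

namespace Pool.Agent.Lib.MP_d8bd92_nt

namespace Hp

open Finset

variable {D : ℤ}

/-- Row hpLG3 (uses G2). All primes together: if every prime `q ∣ f` divides `β.im`, `norm β` is prime to `f` and `f ∣ Im β^l`,
then `f ∣ l * β.im` (prime powers `q^k` exactly dividing `f`). -/
theorem tl_all (f l : ℕ) (hf : 1 ≤ f) (hl : 1 ≤ l) (β : ℤ√D) (h1 : ∀ q ∈ f.primeFactors, (q : ℤ) ∣ β.im)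
    (h2 : IsCoprime β.norm (f : ℤ)) (h3 : (f : ℤ) ∣ (β ^ l).im) : (f : ℤ) ∣ (l : ℤ) * β.im := by
  rw [Int.natCast_dvd, Nat.dvd_iff_prime_pow_dvd_dvd]
  intro p k hp hpk
  rw [← Int.natCast_dvd]
  rcases Nat.eq_zero_or_pos k with rfl | hk
  · simp
  have hpf : p ∣ f := (dvd_pow_self p hk.ne').trans hpk
  have hmem : p ∈ f.primeFactors := Nat.mem_primeFactors.mpr ⟨hp, hpf, by omega⟩
  refine tl_lemma p k l hp hl β (h1 p hmem) ?_ ((Int.natCast_dvd_natCast.mpr hpk).trans h3)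
  intro hn
  have h5 : (p : ℤ) ∣ (f : ℤ) := Int.natCast_dvd_natCast.mpr hpf
  have h6 : IsUnit (p : ℤ) := h2.isUnit_of_dvd' hn h5
  have h7 := Int.isUnit_iff.mp h6
  have h8 := hp.two_le
  omega

end Hp

end Pool.Agent.Lib.MP_d8bd92_nt
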