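import Pool.Agent.Lib.MP_d8bd92_nt.Hp.LG1

set_option autoImplicit false

/-!
MP_d8bd92_nt, block LL, file LH.
-/

namespace Pool.Agent.Lib.MP_d8bd92_nt

namespace Hp

open Finset

/-- the class of `z` at `q` -/
private noncomputable def lh_cls {D : ℤ} (q : ℕ) (z : ℤ√D) : Option (ZMod q) :=
  open scoped Classical in
  if (z.re : ZMod q) = 0 then none else some ((z.im : ZMod q) * ((z.re : ZMod q))⁻¹)

/-- the polynomial of the classes -/
private noncomputable def lh_P (D : ℤ) (l q : ℕ) : Polynomial (ZMod q) :=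
  ∑ i ∈ range (l / 2 + 1), Polynomial.monomial (2 * i + 1) ((l.choose (2 * i + 1) : ZMod q) * (D : ZMod q) ^ i)

private theorem lh_P_coeff_one (D : ℤ) (l q : ℕ) : (lh_P D l q).coeff 1 = (l : ZMod q) := by
  unfold lh_P
  rw [Polynomial.finset_sum_coeff]
  rw [Finset.sum_eq_single 0]
  · simp
  · intro b _ hb
    rw [Polynomial.coeff_monomial]
    rw [if_neg]
    omega
  · intro h
    exact absurd (Finset.mem_range.mpr (Nat.succ_pos _)) h

private theorem lh_P_natDegree (D : ℤ) (l q : ℕ) : (lh_P D l q).natDegree ≤ l := by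
  unfold lh_P
  refine Polynomial.natDegree_sum_le_of_forall_le _ _ ?_
  intro i _
  by_cases h : 2 * i + 1 ≤ l
  · exact le_trans (Polynomial.natDegree_monomial_le _) h
  · rw [Nat.choose_eq_zero_of_lt (by omega)]
    simp

private theorem lh_root {D : ℤ} (l q : ℕ) [Fact q.Prime] (z : ℤ√D) (hz : (z.re : ZMod q) ≠ 0)
    (hd : (q : ℤ) ∣ (z ^ l).im) : (lh_P D l q).eval ((z.im : ZMod q) * ((z.re : ZMod q))⁻¹) = 0 := by
  have h1 : (((z ^ l).im : ℤ) : ZMod q) = 0 := (ZMod.intCast_zmod_eq_zero_iff_dvd _ _).mpr hd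
  rw [im_pow_expand] at h1
  push_cast at h1
  have h2 : (z.re : ZMod q) ^ l * (lh_P D l q).eval ((z.im : ZMod q) * ((z.re : ZMod q))⁻¹) = 0 := by
    rw [← h1]
    unfold lh_P
    rw [Polynomial.eval_finset_sum, Finset.mul_sum]
    refine Finset.sum_congr rfl ?_
    intro i _
    rw [Polynomial.eval_monomial]
    by_cases h : 2 * i + 1 ≤ l
    · have h3 : (z.re : ZMod q) ^ l = (z.re : ZMod q) ^ (l - (2 * i + 1)) * (z.re : ZMod q) ^ (2 * i + 1) := by
        rw [← pow_add]
        congr 1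
        omega
      rw [h3, mul_pow, inv_pow]
      have h4 : (z.re : ZMod q) ^ (2 * i + 1) ≠ 0 := pow_ne_zero _ hz
      field_simp
    · rw [Nat.choose_eq_zero_of_lt (by omega)]
      simp
  exact (mul_eq_zero.mp h2).resolve_left (pow_ne_zero _ hz)

private theorem lh_cls_eq {D : ℤ} (q : ℕ) [Fact q.Prime] (z z' : ℤ√D) (h : lh_cls q z = lh_cls q z') :
    (q : ℤ) ∣ (z * star z').im := by
  rw [← ZMod.intCast_zmod_eq_zero_iff_dvd]
  rw [Zsqrtd.im_mul, Zsqrtd.im_star, Zsqrtd.re_star]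
  push_cast
  unfold lh_cls at h
  by_cases h1 : (z.re : ZMod q) = 0
  · by_cases h2 : (z'.re : ZMod q) = 0
    · rw [h1, h2]; ring
    · rw [if_pos h1, if_neg h2] at h
      exact absurd h (by simp)
  · by_cases h2 : (z'.re : ZMod q) = 0
    · rw [if_neg h1, if_pos h2] at h
      exact absurd h (by simp)
    · rw [if_neg h1, if_neg h2] at h
      have h3 := Option.some.inj h
      have h4 : (z.im : ZMod q) * (z'.re : ZMod q) = (z'.im : ZMod q) * (z.re : ZMod q) := by
        have h5 : (z.im : ZMod q) * ((z.re : ZMod q))⁻¹ * (z.re * z'.re) =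
            (z'.im : ZMod q) * ((z'.re : ZMod q))⁻¹ * (z.re * z'.re) := by rw [h3]
        have h6 : ((z.re : ZMod q))⁻¹ * z.re = 1 := inv_mul_cancel₀ h1
        have h7 : ((z'.re : ZMod q))⁻¹ * z'.re = 1 := inv_mul_cancel₀ h2
        calc (z.im : ZMod q) * (z'.re : ZMod q) = (z.im : ZMod q) * (((z.re : ZMod q))⁻¹ * z.re) * z'.re := by
              rw [h6]; ring
          _ = (z.im : ZMod q) * ((z.re : ZMod q))⁻¹ * (z.re * z'.re) := by ring
          _ = (z'.im : ZMod q) * ((z'.re : ZMod q))⁻¹ * (z.re * z'.re) := h5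
          _ = (z'.im : ZMod q) * z.re * (((z'.re : ZMod q))⁻¹ * z'.re) := by ring
          _ = (z'.im : ZMod q) * (z.re : ZMod q) := by rw [h7]; ring
      linear_combination h4

private theorem lh_one {D : ℤ} {ι : Type} (l : ℕ) (hl : 1 ≤ l) (T : Finset ι) (β : ι → ℤ√D) (q : ℕ)
    (hq : q.Prime) (h : ∀ c ∈ T, (q : ℤ) ∣ (β c ^ l).im) :
    ∃ τ : ι → ℕ, (∀ c ∈ T, τ c < l + 1) ∧
      ∀ c ∈ T, ∀ c' ∈ T, τ c = τ c' → (q : ℤ) ∣ (β c * star (β c')).im := by
  classical
  haveI : Fact q.Prime := ⟨hq⟩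
  haveI : NeZero q := ⟨hq.ne_zero⟩
  have key : ∃ V : Finset (Option (ZMod q)), V.card ≤ l + 1 ∧ ∀ c ∈ T, lh_cls q (β c) ∈ V := by
    by_cases hql : q ∣ l
    · refine ⟨Finset.univ, ?_, fun c _ => Finset.mem_univ _⟩
      rw [Finset.card_univ, Fintype.card_option, ZMod.card]
      have := Nat.le_of_dvd hl hql
      omega
    · refine ⟨insert none ((lh_P D l q).roots.toFinset.image some), ?_, ?_⟩
      · refine le_trans (Finset.card_insert_le _ _) ?_
        refine Nat.succ_le_succ ?_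
        refine le_trans Finset.card_image_le ?_
        refine le_trans (Multiset.toFinset_card_le _) ?_
        exact le_trans (Polynomial.card_roots' _) (lh_P_natDegree D l q)
      · intro c hc
        by_cases h1 : ((β c).re : ZMod q) = 0
        · refine Finset.mem_insert.mpr (Or.inl ?_)
          unfold lh_cls
          rw [if_pos h1]
        · refine Finset.mem_insert.mpr (Or.inr ?_)
          refine Finset.mem_image.mpr ⟨((β c).im : ZMod q) * (((β c).re : ZMod q))⁻¹, ?_, ?_⟩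
          · rw [Multiset.mem_toFinset, Polynomial.mem_roots]
            · exact lh_root l q (β c) h1 (h c hc)
            · intro h0
              have h2 := lh_P_coeff_one D l q
              rw [h0, Polynomial.coeff_zero] at h2
              exact hql ((ZMod.natCast_eq_zero_iff _ _).mp h2.symm)
          · unfold lh_cls
            rw [if_neg h1]
  obtain ⟨V, hV, hmem⟩ := key
  refine ⟨fun c => if hc : lh_cls q (β c) ∈ V then (V.equivFin ⟨_, hc⟩ : ℕ) else 0, ?_, ?_⟩
  · intro c hc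
    have h1 := hmem c hc
    simp only [h1, dif_pos]
    exact lt_of_lt_of_le (V.equivFin ⟨_, h1⟩).isLt hV
  · intro c hc c' hc' he
    have h1 := hmem c hc
    have h2 := hmem c' hc'
    simp only [h1, h2, dif_pos] at he
    have h3 := V.equivFin.injective (Fin.ext he)
    exact lh_cls_eq q _ _ (congrArg Subtype.val h3)

private theorem lh_combine {ι : Type} (M : ℕ) (T : Finset ι) (R : ℕ → ι → ι → Prop) (S : Finset ℕ)
    (h : ∀ q ∈ S, ∃ τ : ι → ℕ, (∀ c ∈ T, τ c < M) ∧ ∀ c ∈ T, ∀ c' ∈ T, τ c = τ c' → R q c c') :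
    ∃ τ : ι → ℕ, (∀ c ∈ T, τ c < M ^ S.card) ∧
      ∀ c ∈ T, ∀ c' ∈ T, τ c = τ c' → ∀ q ∈ S, R q c c' := by
  classical
  induction S using Finset.induction_on with
  | empty =>
    refine ⟨fun _ => 0, fun c _ => by simp, ?_⟩
    intro c _ c' _ _ q hq
    exact absurd hq (Finset.notMem_empty q)
  | insert a S ha ih =>
    obtain ⟨τ, h1, h2⟩ := ih (fun q hq => h q (Finset.mem_insert_of_mem hq))
    obtain ⟨σ, h3, h4⟩ := h a (Finset.mem_insert_self a S)
    refine ⟨fun c => σ c + M * τ c, ?_, ?_⟩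
    · intro c hc
      rw [Finset.card_insert_of_notMem ha, pow_succ]
      have h5 := h1 c hc
      have h6 := h3 c hc
      calc σ c + M * τ c < M + M * τ c := by omega
        _ = M * (τ c + 1) := by ring
        _ ≤ M * M ^ S.card := Nat.mul_le_mul_left _ h5
        _ = M ^ S.card * M := by ring
    · intro c hc c' hc' he q hq
      have h6 := h3 c hc
      have h7 := h3 c' hc'
      have hM : 0 < M := by omega
      have he' : σ c + M * τ c = σ c' + M * τ c' := he
      have e1 : σ c = σ c' := by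
        have := congrArg (fun n => n % M) he'
        simpa [Nat.add_mul_mod_self_left, Nat.mod_eq_of_lt h6, Nat.mod_eq_of_lt h7] using this
      have e2 : τ c = τ c' := by
        have h8 : M * τ c = M * τ c' := by omega
        exact Nat.eq_of_mul_eq_mul_left hM h8
      rcases Finset.mem_insert.mp hq with h9 | h9
      · subst h9
        exact h4 c hc c' hc' e1
      · exact h2 c hc c' hc' e2 q h9

/-- Row hpLH (uses G1).  Torsion classes.  For a prime `q ∣ f` let `τ_q(β) := none` if `q ∣ x`, and the residue of `y/x` modulo `q`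
otherwise (coded as a natural number; never both `q ∣ x`, `q ∣ y` as the norm is prime to `q`).  If `τ_q` agree then
`q ∣ x y' - x' y`, i.e. `q ∣ Im (β star β')`.  `q ∣ Im β^l`: if `τ_q = w ≠ none` then `w` is a root of
`P(w) = Σ_i C(l,2i+1) D^i w^(2i+1)` over `F_q`; `P ≠ 0` of degree `≤ l` if `q ∤ l` : at most `l` roots; if `q ∣ l` then
`q ≤ l` values.  So each `τ_q` takes at most `l + 1` values. -/
theorem torsion_classes {D : ℤ} {ι : Type} (f l : ℕ) (hf : 1 ≤ f) (hl : 1 ≤ l) (T : Finset ι) (β : ι → ℤ√D)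
    (h : ∀ c ∈ T, (f : ℤ) ∣ (β c ^ l).im ∧ IsCoprime (β c).norm (f : ℤ)) :
    ∃ (N : ℕ) (τ : ι → ℕ), N ≤ (l + 1) ^ f.primeFactors.card ∧ (∀ c ∈ T, τ c < N) ∧
      ∀ c ∈ T, ∀ c' ∈ T, τ c = τ c' → ∀ q ∈ f.primeFactors, (q : ℤ) ∣ (β c * star (β c')).im := by
  obtain ⟨τ, h1, h2⟩ := lh_combine (l + 1) T (fun q c c' => (q : ℤ) ∣ (β c * star (β c')).im) f.primeFactors
    (fun q hq => lh_one l hl T β q (Nat.prime_of_mem_primeFactors hq)
      (fun c hc => dvd_trans (by exact_mod_cast Nat.dvd_of_mem_primeFactors hq) (h c hc).1))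
  exact ⟨(l + 1) ^ f.primeFactors.card, τ, le_refl _, h1, h2⟩

end Hp

end Pool.Agent.Lib.MP_d8bd92_nt
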