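import Pool.Agent.Lib.MP_d8bd92_nt.Hp.LI1
import Pool.Agent.Lib.MP_d8bd92_nt.Hp.LC0

set_option autoImplicit false

/-!
MP_d8bd92_nt, block LL, file LI2.
-/

namespace Pool.Agent.Lib.MP_d8bd92_nt

namespace Hp

open Finset

/-- Integers of absolute value at most `X` with gaps at least `g`. -/
theorem li2_gap (S : Finset ℤ) (X g : ℝ) (hg : 0 < g) (hX : 0 ≤ X) (h1 : ∀ x ∈ S, |(x : ℝ)| ≤ X)
    (h2 : ∀ x ∈ S, ∀ y ∈ S, x ≠ y → g ≤ |((x - y : ℤ) : ℝ)|) : (S.card : ℝ) ≤ 1 + 2 * X / g := by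
  have key : S.card ≤ (Finset.range (⌊2 * X / g⌋₊ + 1)).card := by
    apply Finset.card_le_card_of_injOn (fun x : ℤ => ⌊((x : ℝ) + X) / g⌋₊)
    · intro x hx
      have hx1 := abs_le.mp (h1 x hx)
      simp only [Finset.coe_range, Set.mem_Iio]
      apply Nat.lt_succ_of_le
      apply Nat.floor_le_floor
      apply div_le_div_of_nonneg_right _ hg.le
      linarith [hx1.2]
    · intro x hx y hy hxy
      by_contra hne
      have hgap := h2 x hx y hy hne
      have hx1 := abs_le.mp (h1 x hx)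
      have hy1 := abs_le.mp (h1 y hy)
      simp only at hxy
      have a1 : (⌊((x : ℝ) + X) / g⌋₊ : ℝ) ≤ ((x : ℝ) + X) / g :=
        Nat.floor_le (div_nonneg (by linarith [hx1.1]) hg.le)
      have a2 : ((x : ℝ) + X) / g < (⌊((x : ℝ) + X) / g⌋₊ : ℝ) + 1 := Nat.lt_floor_add_one _
      have b1 : (⌊((y : ℝ) + X) / g⌋₊ : ℝ) ≤ ((y : ℝ) + X) / g :=
        Nat.floor_le (div_nonneg (by linarith [hy1.1]) hg.le)
      have b2 : ((y : ℝ) + X) / g < (⌊((y : ℝ) + X) / g⌋₊ : ℝ) + 1 := Nat.lt_floor_add_one _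
      rw [hxy] at a1 a2
      have c1 : |((x : ℝ) + X) / g - ((y : ℝ) + X) / g| < 1 := by
        rw [abs_lt]; constructor <;> linarith
      have c2 : ((x : ℝ) + X) / g - ((y : ℝ) + X) / g = ((x - y : ℤ) : ℝ) / g := by
        push_cast; field_simp; ring
      rw [c2, abs_div, abs_of_pos hg, div_lt_one hg] at c1
      linarith
  rw [Finset.card_range] at key
  have h3 : (⌊2 * X / g⌋₊ : ℝ) ≤ 2 * X / g := Nat.floor_le (by positivity)
  have h4 : (S.card : ℝ) ≤ (⌊2 * X / g⌋₊ : ℝ) + 1 := by exact_mod_cast key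
  linarith

/-- Row hpLI2.  Final count.  `y := Im β_c` is a multiple of `f / gcd(f,l)` with `|y| ≤ √(C1 θ^2 |norm|/|D|) ≤ √C1 C0 θ E / √|D|`:
at most `1 + 2 l √C1 C0 θ E/(f √|D|)` values.  For fixed `y` the `x := Re β_c` differ by integers in `cj I0` and
`|x| ≤ √(C1 |norm|) ≤ √C1 C0 E`: at most `1 + 2 √C1 C0 E K/E0 ≤ 1 + 2 √C1 C0 K` values.  `β_c` determines `I c`:
`span {β_c} = I c * cj I0` and `cj I0` is invertible. -/
theorem final_count (l : ℕ) (hl : 1 ≤ l) (C0 C1 : ℝ) (hC0 : 1 ≤ C0) (hC1 : 1 ≤ C1) : ∃ C : ℝ, 0 < C ∧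
    ∀ (D : ℤ) (f : ℕ) (E θ K : ℝ) (ι : Type) (T : Finset ι) (I : ι → Ideal (ℤ√D)) (β : ι → ℤ√D) (En : ι → ℕ)
      (I0 : Ideal (ℤ√D)) (E0 : ℕ), (∀ n : ℤ, D ≠ n * n) → 1 ≤ f → 1 ≤ E → 0 < θ → θ ≤ 1 → 1 ≤ K →
      HN I0 E0 → Cont I0 K → E ≤ E0 → (E0 : ℝ) ≤ C0 * E →
      (∀ c ∈ T, HN (I c) (En c) ∧ (En c : ℝ) ≤ C0 * E ∧ Ideal.span {β c} = I c * cj I0 ∧
        |(β c).norm| = (En c : ℤ) * E0 ∧ (f : ℤ) ∣ (l : ℤ) * (β c).im ∧
        ((hh (β c) : ℤ) : ℝ) ≤ C1 * ((|(β c).norm| : ℤ) : ℝ) ∧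
        (((|D| * (β c).im ^ 2 : ℤ)) : ℝ) ≤ C1 * θ ^ 2 * ((|(β c).norm| : ℤ) : ℝ)) →
      (∀ c ∈ T, ∀ c' ∈ T, I c = I c' → c = c') →
      (T.card : ℝ) ≤ C * K * (1 + θ * E / ((f : ℝ) * √((|D| : ℤ) : ℝ))) := by
  set A : ℝ := √C1 * C0 with hA
  have hC1' : (1 : ℝ) ≤ √C1 := by
    rw [show (1 : ℝ) = √1 by simp]; exact Real.sqrt_le_sqrt hC1
  have hA1 : 1 ≤ A := by
    rw [hA]; nlinarith
  have hlR : (1 : ℝ) ≤ (l : ℝ) := by exact_mod_cast hl
  have hsq : √C1 ^ 2 = C1 := Real.sq_sqrt (by linarith)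
  refine ⟨6 * l * A ^ 2, by positivity, ?_⟩
  intro D f E θ K ι T I β En I0 E0 hD hf hE hθ hθ1 hK hI0 hcont hEE0 hE0 hT hinj
  classical
  have := isDomain_of hD
  have hD0 : D ≠ 0 := by
    intro h; exact hD 0 (by rw [h]; norm_num)
  have hDpos : (0 : ℝ) < ((|D| : ℤ) : ℝ) := by exact_mod_cast abs_pos.mpr hD0
  have hsD : 0 < √((|D| : ℤ) : ℝ) := Real.sqrt_pos.mpr hDpos
  have hsD2 : √((|D| : ℤ) : ℝ) ^ 2 = ((|D| : ℤ) : ℝ) := Real.sq_sqrt hDpos.le
  have hfR : (1 : ℝ) ≤ (f : ℝ) := by exact_mod_cast hf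
  have hE0R : (1 : ℝ) ≤ (E0 : ℝ) := le_trans hE hEE0
  have hApos : 0 < A := by linarith
  have hEpos : 0 < E := by linarith
  have hKpos : 0 < K := by linarith
  -- the size of the norm
  have hnorm : ∀ c ∈ T, ((|(β c).norm| : ℤ) : ℝ) ≤ (C0 * E) ^ 2 := by
    intro c hc
    obtain ⟨-, h2, -, h4, -⟩ := hT c hc
    rw [h4]; push_cast
    have : (0 : ℝ) ≤ (En c : ℝ) := Nat.cast_nonneg _
    nlinarith [mul_le_mul h2 hE0 (by linarith) (by positivity)]
  -- bounds for the coordinates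
  have hy : ∀ c ∈ T, |((β c).im : ℝ)| ≤ A * θ * E / √((|D| : ℤ) : ℝ) := by
    intro c hc
    obtain ⟨-, -, -, -, -, -, h7⟩ := hT c hc
    rw [le_div_iff₀ hsD]
    apply abs_le_of_sq_le_sq' _ (by positivity) |>.2
    have h8 := hnorm c hc
    push_cast at h7
    have h9 : C1 * θ ^ 2 * ((|(β c).norm| : ℤ) : ℝ) ≤ C1 * θ ^ 2 * (C0 * E) ^ 2 :=
      mul_le_mul_of_nonneg_left h8 (by positivity)
    push_cast at h9
    rw [mul_pow, sq_abs, hsD2, hA]
    push_cast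
    calc ((β c).im : ℝ) ^ 2 * |(D : ℝ)| = |(D : ℝ)| * ((β c).im : ℝ) ^ 2 := by ring
      _ ≤ C1 * θ ^ 2 * (C0 * E) ^ 2 := le_trans h7 h9
      _ = √C1 ^ 2 * θ ^ 2 * (C0 * E) ^ 2 := by rw [hsq]
      _ = (√C1 * C0 * θ * E) ^ 2 := by ring
  have hx : ∀ c ∈ T, |((β c).re : ℝ)| ≤ A * E := by
    intro c hc
    obtain ⟨-, -, -, -, -, h6, -⟩ := hT c hc
    apply abs_le_of_sq_le_sq _ (by positivity)
    have h8 := hnorm c hc
    have h9 : C1 * ((|(β c).norm| : ℤ) : ℝ) ≤ C1 * (C0 * E) ^ 2 :=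
      mul_le_mul_of_nonneg_left h8 (by positivity)
    have h10 : ((β c).re : ℝ) ^ 2 ≤ ((hh (β c) : ℤ) : ℝ) := by
      unfold hh; push_cast
      have : (0 : ℝ) ≤ |(D : ℝ)| * ((β c).im : ℝ) ^ 2 := by positivity
      linarith
    calc ((β c).re : ℝ) ^ 2 ≤ C1 * (C0 * E) ^ 2 := by linarith
      _ = √C1 ^ 2 * (C0 * E) ^ 2 := by rw [hsq]
      _ = (A * E) ^ 2 := by rw [hA]; ring
  -- the generators lie in `cj I0`
  have hmem : ∀ c ∈ T, β c ∈ cj I0 := by
    intro c hc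
    obtain ⟨-, -, h3, -⟩ := hT c hc
    have : β c ∈ I c * cj I0 := by rw [← h3]; exact Ideal.mem_span_singleton_self _
    exact Ideal.mul_le_right this
  -- `β` is injective on `T`
  have hβ : ∀ c ∈ T, ∀ c' ∈ T, β c = β c' → c = c' := by
    intro c hc c' hc' h
    apply hinj c hc c' hc'
    obtain ⟨-, -, h3, -⟩ := hT c hc
    obtain ⟨-, -, h3', -⟩ := hT c' hc'
    apply (hI0.cj).cancel
    rw [mul_comm, mul_comm (cj I0), ← h3, ← h3', h]
  -- the fibres of the imaginary part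
  have hfib : ∀ a ∈ T.image (fun c => (β c).im), (((T.filter (fun c => (β c).im = a)).card : ℕ) : ℝ) ≤ 3 * A * K := by
    intro a _
    have e1 : (T.filter (fun c => (β c).im = a)).card =
        ((T.filter (fun c => (β c).im = a)).image (fun c => (β c).re)).card := by
      rw [Finset.card_image_of_injOn]
      intro c hc c' hc' h
      rw [Finset.mem_coe, Finset.mem_filter] at hc hc'
      apply hβ c hc.1 c' hc'.1
      apply Zsqrtd.ext
      · exact h
      · rw [hc.2, hc'.2]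
    rw [e1]
    have e2 := li2_gap ((T.filter (fun c => (β c).im = a)).image (fun c => (β c).re)) (A * E) ((E0 : ℝ) / K)
      (by positivity) (by positivity)
      (by
        intro x hx'
        obtain ⟨c, hc, rfl⟩ := Finset.mem_image.mp hx'
        exact hx c (Finset.mem_filter.mp hc).1)
      (by
        intro x hx' y hy' hxy
        obtain ⟨c, hc, rfl⟩ := Finset.mem_image.mp hx'
        obtain ⟨c', hc', rfl⟩ := Finset.mem_image.mp hy'
        obtain ⟨hc1, hc2⟩ := Finset.mem_filter.mp hc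
        obtain ⟨hc1', hc2'⟩ := Finset.mem_filter.mp hc'
        have hd : (((β c).re - (β c').re : ℤ) : ℤ√D) ∈ cj I0 := by
          have : (((β c).re - (β c').re : ℤ) : ℤ√D) = β c - β c' := by
            apply Zsqrtd.ext
            · simp
            · simp [hc2, hc2']
          rw [this]
          exact Ideal.sub_mem _ (hmem c hc1) (hmem c' hc1')
        have := int_in_cj hI0 hcont (sub_ne_zero.mpr hxy) hd
        rw [div_le_iff₀ hKpos, mul_comm]
        exact this)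
    refine le_trans e2 ?_
    have e3 : 2 * (A * E) / ((E0 : ℝ) / K) ≤ 2 * A * K := by
      rw [div_div_eq_mul_div, div_le_iff₀ (by linarith)]
      have : A * K * E ≤ A * K * E0 := mul_le_mul_of_nonneg_left hEE0 (by positivity)
      nlinarith
    have e4 : 1 ≤ A * K := by nlinarith
    linarith
  -- the imaginary parts
  have himg : ((T.image (fun c => (β c).im)).card : ℝ) ≤ 2 * l * A * (1 + θ * E / ((f : ℝ) * √((|D| : ℤ) : ℝ))) := by
    have e2 := li2_gap (T.image (fun c => (β c).im)) (A * θ * E / √((|D| : ℤ) : ℝ)) ((f : ℝ) / l)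
      (by positivity) (by positivity)
      (by
        intro y hy'
        obtain ⟨c, hc, rfl⟩ := Finset.mem_image.mp hy'
        exact hy c hc)
      (by
        intro y hy1 y' hy2 hne
        obtain ⟨c, hc, rfl⟩ := Finset.mem_image.mp hy1
        obtain ⟨c', hc', rfl⟩ := Finset.mem_image.mp hy2
        obtain ⟨-, -, -, -, h5, -⟩ := hT c hc
        obtain ⟨-, -, -, -, h5', -⟩ := hT c' hc'
        have hd : (f : ℤ) ∣ (l : ℤ) * ((β c).im - (β c').im) := by
          rw [mul_sub]; exact dvd_sub h5 h5'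
        have hn : (l : ℤ) * ((β c).im - (β c').im) ≠ 0 := by
          apply mul_ne_zero
          · exact_mod_cast (by omega : l ≠ 0)
          · exact sub_ne_zero.mpr hne
        have hle := Int.le_of_dvd (abs_pos.mpr hn) ((dvd_abs _ _).mpr hd)
        rw [abs_mul] at hle
        have hle' : (f : ℝ) ≤ (l : ℝ) * |(((β c).im - (β c').im : ℤ) : ℝ)| := by
          have := (Int.cast_le (R := ℝ)).mpr hle
          push_cast at this
          rw [abs_of_nonneg (by positivity : (0 : ℝ) ≤ (l : ℝ))] at this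
          push_cast
          exact this
        rw [div_le_iff₀ (by linarith), mul_comm]
        exact hle')
    refine le_trans e2 ?_
    have e3 : 2 * (A * θ * E / √((|D| : ℤ) : ℝ)) / ((f : ℝ) / l) = 2 * l * A * (θ * E / ((f : ℝ) * √((|D| : ℤ) : ℝ))) := by
      field_simp
    rw [e3]
    have e4 : 1 ≤ 2 * l * A := by nlinarith
    linarith [mul_add (2 * l * A) 1 (θ * E / ((f : ℝ) * √((|D| : ℤ) : ℝ)))]
  -- conclusion
  have hcard : (T.card : ℝ) = ∑ a ∈ T.image (fun c => (β c).im), (((T.filter (fun c => (β c).im = a)).card : ℕ) : ℝ) := by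
    have := Finset.card_eq_sum_card_image (fun c => (β c).im) T
    rw [this]; push_cast; rfl
  rw [hcard]
  refine le_trans (Finset.sum_le_card_nsmul _ _ _ hfib) ?_
  rw [nsmul_eq_mul]
  have hpos : 0 ≤ 3 * A * K := by positivity
  calc ((T.image (fun c => (β c).im)).card : ℝ) * (3 * A * K)
      ≤ (2 * l * A * (1 + θ * E / ((f : ℝ) * √((|D| : ℤ) : ℝ)))) * (3 * A * K) :=
        mul_le_mul_of_nonneg_right himg hpos
    _ = 6 * l * A ^ 2 * K * (1 + θ * E / ((f : ℝ) * √((|D| : ℤ) : ℝ))) := by ring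

end Hp

end Pool.Agent.Lib.MP_d8bd92_nt
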