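import Pool.Agent.Lib.MP_d8bd92_nt.Hp.LK1
import Pool.Agent.Lib.MP_d8bd92_nt.Hp.LF4
import Pool.Agent.Lib.MP_d8bd92_nt.Hp.LH
import Pool.Agent.Lib.MP_d8bd92_nt.Hp.LG3
import Pool.Agent.Lib.MP_d8bd92_nt.Hp.LI2

set_option autoImplicit false

/-!
MP_d8bd92_nt, block LL, file LK2.
-/

namespace Pool.Agent.Lib.MP_d8bd92_nt

namespace Hp

open Finset

private theorem lk2_mul_star {D : ℤ} (hD : ∀ n : ℤ, D ≠ n * n) {e e2 e3 β β3 γ : ℤ√D} {a : ℤ} {E2 : ℕ}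
    (ha : a ≠ 0) (hn2 : e2.norm = a * E2) (hβ : (a : ℤ√D) * β = e * star e2)
    (hβ3 : (a : ℤ√D) * β3 = e3 * star e2) (hγ : (a : ℤ√D) * γ = e * star e3) :
    β * star β3 = ((E2 : ℤ) : ℤ√D) * γ := by
  have hdom : IsDomain (ℤ√D) := isDomain_of hD
  have ha' : (a : ℤ√D) ≠ 0 := by exact_mod_cast ha
  have h1 : star ((a : ℤ√D) * β3) = (a : ℤ√D) * star β3 := by
    rw [star_mul]
    rw [show star (a : ℤ√D) = (a : ℤ√D) by simp]
    ring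
  have h2 : star (e3 * star e2) = star e3 * e2 := by
    rw [star_mul, star_star]
    ring
  have h3 : e2 * star e2 = (a : ℤ√D) * ((E2 : ℤ) : ℤ√D) := by
    rw [← norm_int, hn2]
    push_cast
    ring
  have h4 : ((a : ℤ√D) * β) * ((a : ℤ√D) * star β3) = (e * star e2) * (star e3 * e2) := by
    rw [← h1, hβ3, h2, hβ]
  have h5 : (a : ℤ√D) * ((a : ℤ√D) * (β * star β3)) = (a : ℤ√D) * ((a : ℤ√D) * (((E2 : ℤ) : ℤ√D) * γ)) := by
    calc (a : ℤ√D) * ((a : ℤ√D) * (β * star β3)) = ((a : ℤ√D) * β) * ((a : ℤ√D) * star β3) := by ring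
      _ = (e * star e2) * (star e3 * e2) := h4
      _ = (e2 * star e2) * (e * star e3) := by ring
      _ = ((a : ℤ√D) * ((E2 : ℤ) : ℤ√D)) * ((a : ℤ√D) * γ) := by rw [h3, hγ]
      _ = _ := by ring
  exact mul_left_cancel₀ ha' (mul_left_cancel₀ ha' h5)

/-- one value of `l` -/
private theorem lk2_fixed (l : ℕ) (hl : 1 ≤ l) (C0 : ℝ) (hC0 : 1 ≤ C0) : ∃ C : ℝ, 0 < C ∧ ∀ (X K : ℝ) (D : ℤ) (f : ℕ)
    (E θ : ℝ) (ι : Type)
    (S : Finset ι) (Ω : ι → ℤ√D) (I : ι → Ideal (ℤ√D)) (En s : ι → ℕ) (W : Ideal (ℤ√D)) (e : ι → ℤ√D) (a : ℤ)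
    (J : Ideal (ℤ√D)), LLG C0 X K D f l E θ S Ω I En s W → a ≠ 0 →
    (∀ c ∈ S, e c ≠ 0 ∧ (e c).norm = a * En c ∧ Ideal.span {(a : ℤ√D)} * I c = Ideal.span {e c} * J) →
    (∀ c ∈ S, ∀ c' ∈ S, (s c : ℤ√D) * e c ^ l * Ω c' = (s c' : ℤ√D) * e c' ^ l * Ω c) →
    (S.card : ℝ) ≤ C * K * (((l + 1) ^ f.primeFactors.card : ℕ) : ℝ) * (1 + θ * E / ((f : ℝ) * √((|D| : ℤ) : ℝ))) := by
  classical
  have hC1 : (1 : ℝ) ≤ 4 * C0 ^ 2 := by nlinarith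
  obtain ⟨C2, hC2, hdir⟩ := directions l hl (4 * C0 ^ 2) hC1
  obtain ⟨Cf, hCf, hfin⟩ := final_count l hl C0 (max C2 (4 * C0 ^ 2)) hC0 (le_max_of_le_left hC2)
  refine ⟨(8 * l + 1) * Cf, by positivity, ?_⟩
  intro X K D f E θ ι S Ω I En s W e a J h ha hlab hrel
  have hD := h.hD
  have hK0 : 0 < K := lt_of_lt_of_le one_pos h.hK
  have hE0 : 0 < E := lt_of_lt_of_le one_pos h.hE
  have hf0 : (0 : ℝ) < f := by exact_mod_cast h.hf
  have hθ := h.hθ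
  set B : ℝ := Cf * K * (1 + θ * E / ((f : ℝ) * √((|D| : ℤ) : ℝ))) with hB
  have hR0 : 0 ≤ 1 + θ * E / ((f : ℝ) * √((|D| : ℤ) : ℝ)) := by positivity
  have hB0 : 0 ≤ B := by positivity
  rcases S.eq_empty_or_nonempty with hS | ⟨c2, hc2⟩
  · rw [hS]
    simp only [Finset.card_empty, Nat.cast_zero]
    positivity
  -- the elements `β`
  have hex : ∀ c : ι, ∃ β : ℤ√D, c ∈ S → (a : ℤ√D) * β = e c * star (e c2) ∧
      Ideal.span {β} = I c * cj (I c2) ∧ β.norm = (En c2 : ℤ) * En c := by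
    intro c
    by_cases hc : c ∈ S
    · obtain ⟨-, β, h1, h2, h3⟩ := beta_of_label hD (h.hn c2 hc2) (h.hn c hc) ha (hlab c2 hc2).2.1 (hlab c hc).2.1
        (hlab c2 hc2).2.2 (hlab c hc).2.2
      exact ⟨β, fun _ => ⟨h1, h2, h3⟩⟩
    · exact ⟨0, fun hc' => absurd hc' hc⟩
  choose β hβ using hex
  have hpf : ∀ c ∈ S, (β c).norm = (En c2 : ℤ) * En c ∧ 0 < (β c).norm ∧ IsCoprime (β c).norm (f : ℤ) ∧
      (f : ℤ) ∣ (β c ^ l).im ∧
      ((hh (β c ^ l) : ℤ) : ℝ) ≤ 4 * C0 ^ 2 * (((β c ^ l).norm : ℤ) : ℝ) ∧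
      (((|D| * (β c ^ l).im ^ 2 : ℤ)) : ℝ) ≤ 4 * C0 ^ 2 * θ ^ 2 * (((β c ^ l).norm : ℤ) : ℝ) ∧
      ((hh (β c) : ℤ) : ℝ) ≤ 4 * C0 ^ 2 * (((β c).norm : ℤ) : ℝ) := by
    intro c hc
    exact pair_facts hC0 h hc2 hc ha (hlab c2 hc2).1 (hlab c hc).1 (hlab c2 hc2).2.1 (hlab c hc).2.1 (hβ c hc).1
      (hrel c2 hc2 c hc)
  obtain ⟨κ, hκ, hκ2⟩ := hdir D hD
  obtain ⟨N, τ, hN, hτ, hτ2⟩ := torsion_classes f l h.hf hl S β
    (fun c hc => ⟨(hpf c hc).2.2.2.1, (hpf c hc).2.2.1⟩)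
  -- one class
  have hclass : ∀ b ∈ Finset.range (8 * l + 1) ×ˢ Finset.range N,
      ((S.filter fun c => (κ (β c), τ c) = b).card : ℝ) ≤ B := by
    intro b _
    set T := S.filter fun c => (κ (β c), τ c) = b with hT
    rcases T.eq_empty_or_nonempty with hTe | ⟨c3, hc3⟩
    · rw [hTe]
      simpa using hB0
    have hTS : ∀ c ∈ T, c ∈ S := fun c hc => (Finset.mem_filter.1 hc).1
    have hc3S := hTS c3 hc3
    have hTb : ∀ c ∈ T, κ (β c) = κ (β c3) ∧ τ c = τ c3 := by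
      intro c hc
      have h1 := (Finset.mem_filter.1 hc).2
      have h2 := (Finset.mem_filter.1 hc3).2
      have h3 := h1.trans h2.symm
      exact ⟨congrArg Prod.fst h3, congrArg Prod.snd h3⟩
    have hex3 : ∀ c : ι, ∃ γ : ℤ√D, c ∈ S → (a : ℤ√D) * γ = e c * star (e c3) ∧
        Ideal.span {γ} = I c * cj (I c3) ∧ γ.norm = (En c3 : ℤ) * En c := by
      intro c
      by_cases hc : c ∈ S
      · obtain ⟨-, γ, h1, h2, h3⟩ := beta_of_label hD (h.hn c3 hc3S) (h.hn c hc) ha (hlab c3 hc3S).2.1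
          (hlab c hc).2.1 (hlab c3 hc3S).2.2 (hlab c hc).2.2
        exact ⟨γ, fun _ => ⟨h1, h2, h3⟩⟩
      · exact ⟨0, fun hc' => absurd hc' hc⟩
    choose γ hγ using hex3
    have hpg : ∀ c ∈ S, (γ c).norm = (En c3 : ℤ) * En c ∧ 0 < (γ c).norm ∧ IsCoprime (γ c).norm (f : ℤ) ∧
        (f : ℤ) ∣ (γ c ^ l).im ∧
        ((hh (γ c ^ l) : ℤ) : ℝ) ≤ 4 * C0 ^ 2 * (((γ c ^ l).norm : ℤ) : ℝ) ∧
        (((|D| * (γ c ^ l).im ^ 2 : ℤ)) : ℝ) ≤ 4 * C0 ^ 2 * θ ^ 2 * (((γ c ^ l).norm : ℤ) : ℝ) ∧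
        ((hh (γ c) : ℤ) : ℝ) ≤ 4 * C0 ^ 2 * (((γ c).norm : ℤ) : ℝ) := by
      intro c hc
      exact pair_facts hC0 h hc3S hc ha (hlab c3 hc3S).1 (hlab c hc).1 (hlab c3 hc3S).2.1 (hlab c hc).2.1
        (hγ c hc).1 (hrel c3 hc3S c hc)
    refine hfin D f E θ K ι T I γ En (I c3) (En c3) hD h.hf h.hE h.hθ h.hθ1 h.hK (h.hn c3 hc3S) (h.cont c3 hc3S)
      (h.E_lo c3 hc3S) (h.E_hi c3 hc3S) ?_ (fun c hc c' hc' hI => h.inj c (hTS c hc) c' (hTS c' hc') hI)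
    intro c hc
    have hcS := hTS c hc
    obtain ⟨g1, g2, g3, g4, -, -, g7⟩ := hpg c hcS
    have hEpos : (1 : ℤ) ≤ En c2 := by exact_mod_cast (h.hn c2 hc2).1
    have hms : β c * star (β c3) = ((En c2 : ℤ) : ℤ√D) * γ c :=
      lk2_mul_star hD ha (hlab c2 hc2).2.1 (hβ c hcS).1 (hβ c3 hc3S).1 (hγ c hcS).1
    have him : (β c * star (β c3)).im = (En c2 : ℤ) * (γ c).im := by
      rw [hms]
      simp
    have hnm : (β c * star (β c3)).norm = (En c2 : ℤ) ^ 2 * (γ c).norm := by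
      rw [hms, Zsqrtd.norm_mul, Zsqrtd.norm_intCast]
      ring
    have habs : |(γ c).norm| = (γ c).norm := abs_of_pos g2
    have hdvd : (f : ℤ) ∣ (l : ℤ) * (γ c).im := by
      refine tl_all f l h.hf hl (γ c) ?_ g3 g4
      intro q hq
      have h1 := hτ2 c hcS c3 hc3S (hTb c hc).2 q hq
      rw [him] at h1
      have hqp : q.Prime := Nat.prime_of_mem_primeFactors hq
      have hqf : (q : ℤ) ∣ (f : ℤ) := by exact_mod_cast Nat.dvd_of_mem_primeFactors hq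
      have hcop : IsCoprime (q : ℤ) (En c2 : ℤ) :=
        (IsCoprime.of_isCoprime_of_dvd_right (h.E_cop c2 hc2) hqf).symm
      exact hcop.dvd_of_dvd_mul_left h1
    have hnR : (0 : ℝ) ≤ (((γ c).norm : ℤ) : ℝ) := by exact_mod_cast g2.le
    refine ⟨h.hn c hcS, h.E_hi c hcS, (hγ c hcS).2.1, ?_, hdvd, ?_, ?_⟩
    · rw [habs, g1]
      ring
    · rw [habs]
      exact g7.trans (mul_le_mul_of_nonneg_right (le_max_right _ _) hnR)
    · rw [habs]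
      have b1 := hpf c hcS
      have b3 := hpf c3 hc3S
      have h1 := hκ2 θ (β c) (β c3) hθ b1.2.1 b3.2.1 b1.2.2.2.2.1 b3.2.2.2.2.1 b1.2.2.2.2.2.1 b3.2.2.2.2.2.1
        (hTb c hc).1
      rw [him, hnm] at h1
      have hER : (0 : ℝ) < ((En c2 : ℤ) : ℝ) ^ 2 := by
        have : (0 : ℝ) < ((En c2 : ℤ) : ℝ) := by exact_mod_cast (by omega : (0 : ℤ) < En c2)
        positivity
      have h2 : ((En c2 : ℤ) : ℝ) ^ 2 * (((|D| * (γ c).im ^ 2 : ℤ)) : ℝ) ≤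
          ((En c2 : ℤ) : ℝ) ^ 2 * (C2 * θ ^ 2 * (((γ c).norm : ℤ) : ℝ)) := by
        push_cast at h1 ⊢
        linarith
      have h3 := le_of_mul_le_mul_left h2 hER
      refine h3.trans ?_
      refine mul_le_mul_of_nonneg_right ?_ hnR
      exact mul_le_mul_of_nonneg_right (le_max_left _ _) (sq_nonneg θ)
  have hmaps : ∀ c ∈ S, (κ (β c), τ c) ∈ Finset.range (8 * l + 1) ×ˢ Finset.range N := by
    intro c hc
    rw [Finset.mem_product, Finset.mem_range, Finset.mem_range]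
    exact ⟨Nat.lt_succ_of_le (hκ (β c)), hτ c hc⟩
  have hcount := Finset.card_eq_sum_card_fiberwise hmaps
  have hcountR : (S.card : ℝ) ≤ ((8 * l + 1) * N : ℝ) * B := by
    calc (S.card : ℝ) = ∑ b ∈ Finset.range (8 * l + 1) ×ˢ Finset.range N,
          ((S.filter fun c => (κ (β c), τ c) = b).card : ℝ) := by
          rw [hcount]
          push_cast
          rfl
      _ ≤ ∑ b ∈ Finset.range (8 * l + 1) ×ˢ Finset.range N, B := Finset.sum_le_sum hclass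
      _ = ((8 * l + 1) * N : ℝ) * B := by
          rw [Finset.sum_const, Finset.card_product, Finset.card_range, Finset.card_range, nsmul_eq_mul]
          push_cast
          ring
  have hNR : (N : ℝ) ≤ (((l + 1) ^ f.primeFactors.card : ℕ) : ℝ) := by exact_mod_cast hN
  calc (S.card : ℝ) ≤ ((8 * l + 1) * N : ℝ) * B := hcountR
    _ ≤ ((8 * l + 1) * (((l + 1) ^ f.primeFactors.card : ℕ) : ℝ)) * B := by
        refine mul_le_mul_of_nonneg_right ?_ hB0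
        exact mul_le_mul_of_nonneg_left hNR (by positivity)
    _ = _ := by
        rw [hB]
        ring

/-- Row hpLK2 (uses K1, `directions`, `torsion_classes`, `tl_all`, `final_count`).  All configurations have the same label
`(a, J)` and all pairs satisfy the exact relation.  Fix `c2 ∈ S` (S nonempty).  `β_c := β_{c,c2}` (`a β_c = e_c star e_{c2}`).
Group `S` by `(κ β_c, τ c)`: at most `(8 l + 1) (l+1)^ω(f)` classes.  In one class `T` fix `c3`; for `c ∈ T` let `β` be given by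
`a β = e_c star e_{c3}`.  Then `β_c * star β_{c3} = En c2 * β` (as `e_{c2} star e_{c2} = a En c2`), so every prime `q ∣ f` divides
`Im β` (`En c2` is prime to `f`), and `|D| Im(β)^2 ≤ C2 θ^2 norm β`; `tl_all` gives `f ∣ l Im β`; `final_count`. -/
theorem class_bound (L : ℕ) (C0 : ℝ) (hC0 : 1 ≤ C0) : ∃ C : ℝ, 0 < C ∧ ∀ (X K : ℝ) (D : ℤ) (f l : ℕ) (E θ : ℝ) (ι : Type)
    (S : Finset ι) (Ω : ι → ℤ√D) (I : ι → Ideal (ℤ√D)) (En s : ι → ℕ) (W : Ideal (ℤ√D)) (e : ι → ℤ√D) (a : ℤ)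
    (J : Ideal (ℤ√D)), l ≤ L → LLG C0 X K D f l E θ S Ω I En s W → a ≠ 0 →
    (∀ c ∈ S, e c ≠ 0 ∧ (e c).norm = a * En c ∧ Ideal.span {(a : ℤ√D)} * I c = Ideal.span {e c} * J) →
    (∀ c ∈ S, ∀ c' ∈ S, (s c : ℤ√D) * e c ^ l * Ω c' = (s c' : ℤ√D) * e c' ^ l * Ω c) →
    (S.card : ℝ) ≤ C * K * (((l + 1) ^ f.primeFactors.card : ℕ) : ℝ) * (1 + θ * E / ((f : ℝ) * √((|D| : ℤ) : ℝ))) := by
  have hex : ∀ l : ℕ, ∃ C : ℝ, 0 < C ∧ (1 ≤ l → ∀ (X K : ℝ) (D : ℤ) (f : ℕ)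
      (E θ : ℝ) (ι : Type)
      (S : Finset ι) (Ω : ι → ℤ√D) (I : ι → Ideal (ℤ√D)) (En s : ι → ℕ) (W : Ideal (ℤ√D)) (e : ι → ℤ√D) (a : ℤ)
      (J : Ideal (ℤ√D)), LLG C0 X K D f l E θ S Ω I En s W → a ≠ 0 →
      (∀ c ∈ S, e c ≠ 0 ∧ (e c).norm = a * En c ∧ Ideal.span {(a : ℤ√D)} * I c = Ideal.span {e c} * J) →
      (∀ c ∈ S, ∀ c' ∈ S, (s c : ℤ√D) * e c ^ l * Ω c' = (s c' : ℤ√D) * e c' ^ l * Ω c) →
      (S.card : ℝ) ≤ C * K * (((l + 1) ^ f.primeFactors.card : ℕ) : ℝ) *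
        (1 + θ * E / ((f : ℝ) * √((|D| : ℤ) : ℝ)))) := by
    intro l
    by_cases hl : 1 ≤ l
    · obtain ⟨C, h1, h2⟩ := lk2_fixed l hl C0 hC0
      exact ⟨C, h1, fun _ => h2⟩
    · exact ⟨1, one_pos, fun h => absurd h hl⟩
  choose Cl hCl hCl2 using hex
  refine ⟨∑ l ∈ Finset.range (L + 1), Cl l, ?_, ?_⟩
  · exact Finset.sum_pos (fun l _ => hCl l) ⟨0, Finset.mem_range.2 (Nat.succ_pos L)⟩
  intro X K D f l E θ ι S Ω I En s W e a J hlL h ha hlab hrel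
  have h1 := hCl2 l h.hl X K D f E θ ι S Ω I En s W e a J h ha hlab hrel
  have h2 : Cl l ≤ ∑ l ∈ Finset.range (L + 1), Cl l :=
    Finset.single_le_sum (f := Cl) (fun i _ => (hCl i).le) (Finset.mem_range.2 (Nat.lt_succ_of_le hlL))
  have hK0 : 0 < K := lt_of_lt_of_le one_pos h.hK
  have hE0 : 0 < E := lt_of_lt_of_le one_pos h.hE
  have hf0 : (0 : ℝ) < f := by exact_mod_cast h.hf
  have hθ := h.hθ
  refine h1.trans ?_
  refine mul_le_mul_of_nonneg_right ?_ (by positivity)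
  refine mul_le_mul_of_nonneg_right ?_ (by positivity)
  exact mul_le_mul_of_nonneg_right h2 hK0.le

end Hp

end Pool.Agent.Lib.MP_d8bd92_nt
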