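import Pool.Agent.Lib.MP_d8bd92_nt.Hp.LB3
import Pool.Agent.Lib.MP_d8bd92_nt.Hp.LB4
import Pool.Agent.Lib.MP_d8bd92_nt.Hp.LC1
import Pool.Agent.Lib.MP_d8bd92_nt.Hp.LC2
import Pool.Agent.Lib.MP_d8bd92_nt.Hp.LC3
import Pool.Agent.Lib.MP_d8bd92_nt.Hp.LD
import Pool.Agent.Lib.MP_d8bd92_nt.Hp.LK2
import Pool.Agent.Lib.MP_d8bd92_nt.Hp.LJ

set_option autoImplicit false

/-!
MP_d8bd92_nt, block LL, file LK3.
-/

namespace Pool.Agent.Lib.MP_d8bd92_nt

namespace Hp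

open Finset

theorem lk3_group {α β : Type*} [DecidableEq β] (S : Finset α) (g : α → β) (B : ℝ)
    (h : ∀ b ∈ S.image g, ((S.filter (fun c => g c = b)).card : ℝ) ≤ B) :
    (S.card : ℝ) ≤ ((S.image g).card : ℝ) * B := by
  have h1 : S.card = ∑ b ∈ S.image g, (S.filter (fun c => g c = b)).card :=
    Finset.card_eq_sum_card_image g S
  rw [h1]
  push_cast
  calc ∑ b ∈ S.image g, ((S.filter (fun c => g c = b)).card : ℝ) ≤ ∑ _b ∈ S.image g, B :=
        Finset.sum_le_sum h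
    _ = ((S.image g).card : ℝ) * B := by rw [Finset.sum_const, nsmul_eq_mul]

/-- cancellation in the unit relations -/
theorem lk3_cancel {R : Type*} [CommRing R] [IsDomain R] {p q w Ωc Ωc' Ω1 η : R} (hw : w ≠ 0)
    (h : w * Ωc = η * (p * Ω1)) (h' : w * Ωc' = η * (q * Ω1)) : p * Ωc' = q * Ωc := by
  apply mul_left_cancel₀ hw
  calc w * (p * Ωc') = p * (w * Ωc') := by ring
    _ = q * (w * Ωc) := by rw [h, h']; ring
    _ = w * (q * Ωc) := by ring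

/-- Row hpLK3 (uses `label`, `label_count`, `unit_rel`, `unit_size`, `unit_count`, `class_bound`, `omega_pow`).
Choose `e c, a c, b c` by `label`; group `S` by `(a c, b c)`: at most `C |D|^ε √|D|` classes.  In one class fix `c1`; `unit_rel`
gives a unit `η_c` with `s_{c1} e_{c1}^l Ω_c = η_c s_c e_c^l Ω_{c1}`, of size at most `C X^l` (`unit_size`), so at most
`C (1 + log X)` values (`unit_count`); group by `η_c`.  Two configurations with the same `η` satisfy the exact relation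
(cancel `η`, `Ω_{c1}`, `s_{c1} e_{c1}^l`).  `class_bound`, `omega_pow`, `log X ≤ C X^ε`. -/
theorem ll_general (ε : ℝ) (hε : 0 < ε) (L : ℕ) (C0 : ℝ) (hC0 : 1 ≤ C0) : ∃ C : ℝ, 0 < C ∧
    ∀ (X K : ℝ) (D : ℤ) (f l : ℕ) (E θ : ℝ) (ι : Type) (S : Finset ι) (Ω : ι → ℤ√D) (I : ι → Ideal (ℤ√D))
      (En s : ι → ℕ) (W : Ideal (ℤ√D)), l ≤ L → LLG C0 X K D f l E θ S Ω I En s W →
      (S.card : ℝ) ≤ C * X ^ ε * K * √((|D| : ℤ) : ℝ) * (1 + θ * E / ((f : ℝ) * √((|D| : ℤ) : ℝ))) := by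
  classical
  set ε1 : ℝ := ε / 3 with hε1def
  have hε1 : 0 < ε1 := by positivity
  obtain ⟨C1, hC1, hlab⟩ := label_count ε1 hε1
  obtain ⟨C2, hC2, hunit⟩ := unit_count
  obtain ⟨C4, hC4, hclass⟩ := class_bound L C0 hC0
  obtain ⟨C5, hC5, hom⟩ := omega_pow ε1 hε1 L
  set A0 : ℝ := 2 ^ (2 * L + 1) * 4 ^ L * C0 ^ 2 with hA0def
  have hA0 : 1 ≤ A0 := by
    have h1 : (1 : ℝ) ≤ 2 ^ (2 * L + 1) := one_le_pow₀ (by norm_num)
    have h2 : (1 : ℝ) ≤ 4 ^ L := one_le_pow₀ (by norm_num)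
    have h3 : (1 : ℝ) ≤ C0 ^ 2 := one_le_pow₀ hC0
    calc (1 : ℝ) = 1 * 1 * 1 := by norm_num
      _ ≤ 2 ^ (2 * L + 1) * 4 ^ L * C0 ^ 2 := by gcongr
  set C3 : ℝ := 1 + Real.log A0 + L / ε1 with hC3def
  have hC3 : 0 < C3 := by
    have := Real.log_nonneg hA0
    positivity
  refine ⟨C1 * C2 * C3 * C4 * C5, by positivity, ?_⟩
  intro X K D f l E θ ι S Ω I En s W hlL h
  have hX := h.hX
  have hX0 : 0 < X := by linarith
  have hK := h.hK
  have hE := h.hE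
  have hθ := h.hθ
  have hD := h.hD
  have hf := h.hf
  have : IsDomain (ℤ√D) := isDomain_of hD
  have hD0 : D ≠ 0 := fun h0 => hD 0 (by simp [h0])
  have hDabs : (1 : ℝ) ≤ ((|D| : ℤ) : ℝ) := by
    exact_mod_cast Int.one_le_abs hD0
  have hsD : 0 < √((|D| : ℤ) : ℝ) := Real.sqrt_pos.mpr (by linarith)
  have hf0 : (0 : ℝ) < (f : ℝ) := by exact_mod_cast hf
  have hch : ∀ c, ∃ (e : ℤ√D) (a b : ℤ), c ∈ S → (e ≠ 0 ∧ e ∈ I c ∧ a ≠ 0 ∧ |b| ≤ |a| ∧ a ∣ b ^ 2 - D ∧ e.norm = a * En c ∧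
      Ideal.span {(a : ℤ√D)} * I c = Ideal.span {e} * Ideal.span {(a : ℤ√D), (⟨b, 1⟩ : ℤ√D)} ∧
      (hh e) ^ 2 ≤ 4 * (En c : ℤ) ^ 2 * |D| ∧ a ^ 2 ≤ 4 * |D|) := by
    intro c
    by_cases hc : c ∈ S
    · obtain ⟨e, a, b, he⟩ := label hD (h.hn c hc)
      exact ⟨e, a, b, fun _ => he⟩
    · exact ⟨0, 0, 0, fun h' => absurd h' hc⟩
  choose e a b hlb using hch
  -- the bound of one class
  set B : ℝ := 1 + θ * E / ((f : ℝ) * √((|D| : ℤ) : ℝ)) with hBdef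
  have hB : 0 < B := by positivity
  set M : ℝ := C4 * K * (C5 * X ^ ε1) * B with hMdef
  have hXe : 0 < X ^ ε1 := Real.rpow_pos_of_pos hX0 _
  have hM : 0 < M := by positivity
  set H : ℝ := A0 * X ^ L with hHdef
  have hXL : (1 : ℝ) ≤ X ^ L := one_le_pow₀ hX
  have hH : 1 ≤ H := by
    calc (1 : ℝ) = 1 * 1 := by norm_num
      _ ≤ A0 * X ^ L := by gcongr
  have hlogH : 1 + Real.log H ≤ C3 * X ^ ε1 := by
    have h1 : Real.log H = Real.log A0 + L * Real.log X := by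
      rw [hHdef, Real.log_mul (by positivity) (by positivity), Real.log_pow]
    have h2 : Real.log X ≤ X ^ ε1 / ε1 := Real.log_le_rpow_div hX0.le hε1
    have h3 : 1 ≤ X ^ ε1 := Real.one_le_rpow hX hε1.le
    have h4 : 0 ≤ Real.log A0 := Real.log_nonneg hA0
    have h5 : (L : ℝ) * Real.log X ≤ L * (X ^ ε1 / ε1) := by gcongr
    have h6 : Real.log A0 ≤ Real.log A0 * X ^ ε1 := le_mul_of_one_le_right h4 h3
    calc 1 + Real.log H = 1 + (Real.log A0 + L * Real.log X) := by rw [h1]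
      _ ≤ X ^ ε1 + (Real.log A0 * X ^ ε1 + L * (X ^ ε1 / ε1)) := by linarith
      _ = C3 * X ^ ε1 := by rw [hC3def]; ring
  -- the bound of one label
  have hlabel1 : ∀ p ∈ S.image (fun c => (a c, b c)),
      ((S.filter (fun c => (a c, b c) = p)).card : ℝ) ≤ C2 * (C3 * X ^ ε1) * M := by
    intro p hp
    obtain ⟨c1, hc1, hc1p⟩ := Finset.mem_image.mp hp
    set S1 : Finset ι := S.filter (fun c => (a c, b c) = p) with hS1def
    have hS1 : S1 ⊆ S := Finset.filter_subset _ _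
    have hmem1 : ∀ c ∈ S1, a c = a c1 ∧ b c = b c1 := by
      intro c hc
      have h1 := (Finset.mem_filter.mp hc).2
      rw [← hc1p] at h1
      exact ⟨congrArg Prod.fst h1, congrArg Prod.snd h1⟩
    obtain ⟨he1, -, ha1, -, -, hn1, hJ1, hh1, -⟩ := hlb c1 hc1
    have hη : ∀ c, ∃ η : ℤ√D, c ∈ S1 → (IsUnit η ∧
        (s c1 : ℤ√D) * e c1 ^ l * Ω c = η * ((s c : ℤ√D) * e c ^ l * Ω c1) ∧ ((hh η : ℤ) : ℝ) ≤ H) := by
      intro c
      by_cases hc : c ∈ S1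
      · have hcS := hS1 hc
        obtain ⟨hac, hbc⟩ := hmem1 c hc
        obtain ⟨he, -, ha, -, -, hn, hJ, hhc, -⟩ := hlb c hcS
        rw [hac] at hn hJ
        rw [hbc] at hJ
        obtain ⟨hee, -⟩ := beta_of_label hD (h.hn c1 hc1) (h.hn c hcS) ha1 hn1 hn hJ1 hJ
        obtain ⟨η, hηu, hηr⟩ := unit_rel hD (h.fac c1 hc1) (h.fac c hcS) hee
        have hsz := unit_size hD hC0 (h.s_pos c1 hc1) (h.s_pos c hcS) (h.hn c1 hc1).1 (h.hn c hcS).1
          (h.nz c1 hc1) (h.nz c hcS) ha1 hn1 hn hh1 hhc (h.bal c1 hc1) (h.bal c hcS) hηu hηr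
        refine ⟨η, fun _ => ⟨hηu, hηr, hsz.trans ?_⟩⟩
        have h1 : ((|D| : ℤ) : ℝ) ^ l ≤ X ^ L := by
          calc ((|D| : ℤ) : ℝ) ^ l ≤ X ^ l := by
                have := h.hDX
                gcongr
            _ ≤ X ^ L := pow_le_pow_right₀ hX hlL
        have h2 : (2 : ℝ) ^ (2 * l + 1) ≤ 2 ^ (2 * L + 1) := pow_le_pow_right₀ (by norm_num) (by omega)
        have h3 : (4 : ℝ) ^ l ≤ 4 ^ L := pow_le_pow_right₀ (by norm_num) hlL
        calc (2 : ℝ) ^ (2 * l + 1) * 4 ^ l * ((|D| : ℤ) : ℝ) ^ l * C0 ^ 2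
            ≤ 2 ^ (2 * L + 1) * 4 ^ L * X ^ L * C0 ^ 2 := by gcongr
          _ = H := by rw [hHdef, hA0def]; ring
      · exact ⟨0, fun h' => absurd h' hc⟩
    choose η hηp using hη
    have hw : (s c1 : ℤ√D) * e c1 ^ l ≠ 0 := by
      apply mul_ne_zero
      · have := h.s_pos c1 hc1
        exact_mod_cast (by omega : (s c1 : ℤ) ≠ 0)
      · exact pow_ne_zero _ he1
    have hclass1 : ∀ η0 ∈ S1.image η, ((S1.filter (fun c => η c = η0)).card : ℝ) ≤ M := by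
      intro η0 hη0
      set S2 : Finset ι := S1.filter (fun c => η c = η0) with hS2def
      have hS2 : S2 ⊆ S1 := Finset.filter_subset _ _
      have hcb := hclass X K D f l E θ ι S2 Ω I En s W e (a c1) (Ideal.span {((a c1 : ℤ) : ℤ√D), (⟨b c1, 1⟩ : ℤ√D)})
        hlL (h.subset (hS2.trans hS1)) ha1 (by
          intro c hc
          have hcS := hS1 (hS2 hc)
          obtain ⟨hac, hbc⟩ := hmem1 c (hS2 hc)
          obtain ⟨he, -, ha, -, -, hn, hJ, hhc, -⟩ := hlb c hcS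
          rw [hac] at hn hJ
          rw [hbc] at hJ
          exact ⟨he, hn, hJ⟩) (by
          intro c hc c' hc'
          have hr := (hηp c (hS2 hc)).2.1
          have hr' := (hηp c' (hS2 hc')).2.1
          rw [(Finset.mem_filter.mp hc).2] at hr
          rw [(Finset.mem_filter.mp hc').2] at hr'
          exact lk3_cancel hw hr hr')
      have hom1 := hom f l hf hlL
      have hfX : (f : ℝ) ^ ε1 ≤ X ^ ε1 := Real.rpow_le_rpow hf0.le h.hfX hε1.le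
      calc (S2.card : ℝ) ≤ C4 * K * (((l + 1) ^ f.primeFactors.card : ℕ) : ℝ) * B := hcb
        _ ≤ C4 * K * (C5 * X ^ ε1) * B := by
            have : (((l + 1) ^ f.primeFactors.card : ℕ) : ℝ) ≤ C5 * X ^ ε1 :=
              hom1.trans (by gcongr)
            gcongr
    have hcard : ((S1.image η).card : ℝ) ≤ C2 * (1 + Real.log H) := by
      apply hunit D hD H hH
      intro η0 hη0
      obtain ⟨c, hc, rfl⟩ := Finset.mem_image.mp hη0
      exact ⟨(hηp c hc).1, (hηp c hc).2.2⟩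
    calc (S1.card : ℝ) ≤ ((S1.image η).card : ℝ) * M := lk3_group S1 η M hclass1
      _ ≤ (C2 * (1 + Real.log H)) * M := by gcongr
      _ ≤ C2 * (C3 * X ^ ε1) * M := by gcongr
  have hT : (((S.image (fun c => (a c, b c))).card : ℕ) : ℝ) ≤ C1 * X ^ ε1 * √((|D| : ℤ) : ℝ) := by
    have h1 := hlab D hD (S.image (fun c => (a c, b c))) (by
      intro p hp
      obtain ⟨c, hc, rfl⟩ := Finset.mem_image.mp hp
      obtain ⟨-, -, ha, hba, hdv, -, -, -, ha2⟩ := hlb c hc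
      exact ⟨ha, hba, hdv, ha2⟩)
    refine h1.trans ?_
    have h2 : ((|D| : ℤ) : ℝ) ^ ε1 ≤ X ^ ε1 := Real.rpow_le_rpow (by linarith) h.hDX hε1.le
    gcongr
  have hmain := lk3_group S (fun c => (a c, b c)) _ hlabel1
  have hXX : X ^ ε1 * X ^ ε1 * X ^ ε1 = X ^ ε := by
    rw [← Real.rpow_add hX0, ← Real.rpow_add hX0]
    congr 1
    rw [hε1def]; ring
  calc (S.card : ℝ) ≤ (((S.image (fun c => (a c, b c))).card : ℕ) : ℝ) * (C2 * (C3 * X ^ ε1) * M) := hmain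
    _ ≤ (C1 * X ^ ε1 * √((|D| : ℤ) : ℝ)) * (C2 * (C3 * X ^ ε1) * M) := by gcongr
    _ = C1 * C2 * C3 * C4 * C5 * (X ^ ε1 * X ^ ε1 * X ^ ε1) * K * √((|D| : ℤ) : ℝ) * B := by
        rw [hMdef]; ring
    _ = C1 * C2 * C3 * C4 * C5 * X ^ ε * K * √((|D| : ℤ) : ℝ) * B := by rw [hXX]

end Hp

end Pool.Agent.Lib.MP_d8bd92_nt
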