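import Pool.Agent.Lib.MP_d8bd92_nt.Hp.LC0

set_option autoImplicit false

/-!
MP_d8bd92_nt, block LL, file LE.
-/

namespace Pool.Agent.Lib.MP_d8bd92_nt

namespace Hp

open Finset

variable {D : ℤ}

/-- Row hpLE1.  Multiply by `star(e)^l * star(Ω')`: `s norm(e)^l norm(Ω') = s' (e' star e)^l (Ω star Ω') = s' a^l β^l P`
with `P = Ω * star Ω'` (so `β^l * P` times the integer `j = s' a^l ≠ 0` is the integer `k = s norm(e)^l norm(Ω')`). -/
theorem pow_rel {l s s' : ℕ} {Ω Ω' e e' β : ℤ√D} {a : ℤ}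
    (hβ : (a : ℤ√D) * β = e' * star e) (hrel : (s : ℤ√D) * e ^ l * Ω' = (s' : ℤ√D) * e' ^ l * Ω) :
    (((s' : ℤ) * a ^ l : ℤ) : ℤ√D) * (β ^ l * (Ω * star Ω')) = (((s : ℤ) * e.norm ^ l * Ω'.norm : ℤ) : ℤ√D) := by
  have h1 : (a : ℤ√D) ^ l * β ^ l = e' ^ l * (star e) ^ l := by
    rw [← mul_pow, hβ, mul_pow]
  have h2 : ((s : ℤ) : ℤ√D) = (s : ℤ√D) := Int.cast_natCast s
  have h3 : ((s' : ℤ) : ℤ√D) = (s' : ℤ√D) := Int.cast_natCast s'
  rw [Int.cast_mul, Int.cast_pow, Int.cast_mul, Int.cast_mul, Int.cast_pow, norm_int, norm_int, h2, h3]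
  calc (s' : ℤ√D) * (a : ℤ√D) ^ l * (β ^ l * (Ω * star Ω'))
      = (s' : ℤ√D) * ((a : ℤ√D) ^ l * β ^ l) * Ω * star Ω' := by ring
    _ = ((s' : ℤ√D) * e' ^ l * Ω) * (star e) ^ l * star Ω' := by rw [h1]; ring
    _ = ((s : ℤ√D) * e ^ l * Ω') * (star e) ^ l * star Ω' := by rw [hrel]
    _ = (s : ℤ√D) * (e * star e) ^ l * (Ω' * star Ω') := by rw [mul_pow]; ring

theorem le_aux_im {w P : ℤ√D} {j k : ℤ} (hj : j ≠ 0) (h : (j : ℤ√D) * (w * P) = (k : ℤ√D)) :
    w.re * P.im + w.im * P.re = 0 := by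
  have h1 := congrArg Zsqrtd.im h
  simp only [Zsqrtd.im_mul, Zsqrtd.re_intCast, Zsqrtd.im_intCast, zero_mul, add_zero] at h1
  exact (mul_eq_zero.mp h1).resolve_left hj

/-- Row hpLE2.  `j * (w * P) = k` with integers `j ≠ 0`, `k`: the `√D`-coordinate of `w * P` vanishes; `f ∣ P.im`,
`P.norm` prime to `f`, so `P.re` is prime to `f` and `f ∣ w.im`. -/
theorem im_dvd_of_rel {w P : ℤ√D} {j k f : ℤ} (hj : j ≠ 0) (h : (j : ℤ√D) * (w * P) = (k : ℤ√D))
    (hf : f ∣ P.im) (hc : IsCoprime P.norm f) : f ∣ w.im := by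
  have h0 := le_aux_im hj h
  have h1 : IsCoprime P.re f := by
    obtain ⟨g, hg⟩ := hf
    have h2 : P.norm = P.re * P.re - D * P.im * P.im := Zsqrtd.norm_def P
    obtain ⟨u, v, huv⟩ := hc
    refine ⟨u * P.re, v - u * D * P.im * g, ?_⟩
    rw [h2] at huv
    rw [← huv]
    nth_rewrite 3 [hg]
    ring
  have h3 : f ∣ P.re * w.im := by
    have h4 : P.re * w.im = -(w.re * P.im) := by linarith
    rw [h4]
    exact (Dvd.dvd.mul_left hf _).neg_right
  exact h1.symm.dvd_of_dvd_mul_left h3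

/-- Row hpLE3.  In the situation of `hpLE2` (`j, k ≠ 0`) `w` is a rational multiple of `star P`: the quotients
`hh w / |norm w|` and `|D| w.im^2 / |norm w|` are those of `P`. -/
theorem ratio_of_rel {w P : ℤ√D} {j k : ℤ} (hj : j ≠ 0) (hk : k ≠ 0) (h : (j : ℤ√D) * (w * P) = (k : ℤ√D)) :
    hh w * |P.norm| = hh P * |w.norm| ∧ w.im ^ 2 * |P.norm| = P.im ^ 2 * |w.norm| := by
  have _hk := hk
  have h0 := le_aux_im hj h
  have h1 : (w.re * P.im) ^ 2 = (w.im * P.re) ^ 2 := by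
    have : w.re * P.im = -(w.im * P.re) := by linarith
    rw [this]; ring
  have hP : P.norm = P.re * P.re - D * P.im * P.im := Zsqrtd.norm_def P
  have hw : w.norm = w.re * w.re - D * w.im * w.im := Zsqrtd.norm_def w
  have a1 : hh w * P.norm = hh P * w.norm := by
    rw [hP, hw]; unfold hh
    have : (w.re ^ 2 + |D| * w.im ^ 2) * (P.re * P.re - D * P.im * P.im)
        - (P.re ^ 2 + |D| * P.im ^ 2) * (w.re * w.re - D * w.im * w.im)
        = - (D + |D|) * ((w.re * P.im) ^ 2 - (w.im * P.re) ^ 2) := by ring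
    rw [h1, sub_self, mul_zero] at this
    linarith
  have a2 : w.im ^ 2 * P.norm = P.im ^ 2 * w.norm := by
    rw [hP, hw]
    have : w.im ^ 2 * (P.re * P.re - D * P.im * P.im) - P.im ^ 2 * (w.re * w.re - D * w.im * w.im)
        = - ((w.re * P.im) ^ 2 - (w.im * P.re) ^ 2) := by ring
    rw [h1, sub_self, neg_zero] at this
    linarith
  have n1 : ∀ z : ℤ√D, 0 ≤ hh z := fun z => by unfold hh; positivity
  constructor
  · have := congrArg abs a1
    rwa [abs_mul, abs_mul, abs_of_nonneg (n1 w), abs_of_nonneg (n1 P)] at this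
  · have := congrArg abs a2
    rwa [abs_mul, abs_mul, abs_of_nonneg (sq_nonneg w.im), abs_of_nonneg (sq_nonneg P.im)] at this

end Hp

end Pool.Agent.Lib.MP_d8bd92_nt
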