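import Pool.Agent.Lib.MP_d8bd92_nt.Hp.LLG
import Pool.Agent.Lib.MP_d8bd92_nt.Hp.LC0
import Pool.Agent.Lib.MP_d8bd92_nt.Hp.LE
import Pool.Agent.Lib.MP_d8bd92_nt.Hp.LI2

set_option autoImplicit false

/-!
MP_d8bd92_nt, block LL, file LK4.
-/

namespace Pool.Agent.Lib.MP_d8bd92_nt

namespace Hp

open Finset

/-- the ideal relation and the quotient `β` -/
theorem lk4_quot {D : ℤ} [IsDomain (ℤ√D)] {W I I0 : Ideal (ℤ√D)} {Ω Ω0 : ℤ√D} {s s0 E0 : ℕ}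
    (hs : 1 ≤ s) (hN : Ω0.norm ≠ 0) (h0 : HN I0 E0)
    (h : Ideal.span {Ω} = Ideal.span {(s : ℤ√D)} * W * I) (h' : Ideal.span {Ω0} = Ideal.span {(s0 : ℤ√D)} * W * I0) :
    ∃ β : ℤ√D, (((s : ℤ) * Ω0.norm : ℤ) : ℤ√D) * β = (((s0 : ℤ) * E0 : ℤ) : ℤ√D) * (Ω * star Ω0) ∧
      Ideal.span {β} = I * cj I0 := by
  have key : Ideal.span {(((s0 : ℤ) * E0 : ℤ) : ℤ√D) * (Ω * star Ω0)} =
      Ideal.span {(((s : ℤ) * Ω0.norm : ℤ) : ℤ√D)} * (I * cj I0) := by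
    have e1 : (Ideal.span {(((s0 : ℤ) * E0 : ℤ) : ℤ√D) * (Ω * star Ω0)} : Ideal (ℤ√D)) =
        Ideal.span {(s0 : ℤ√D)} * Ideal.span {(E0 : ℤ√D)} * (Ideal.span {Ω} * Ideal.span {star Ω0}) := by
      rw [Ideal.span_singleton_mul_span_singleton, Ideal.span_singleton_mul_span_singleton,
        Ideal.span_singleton_mul_span_singleton]
      push_cast; rfl
    have e2 : (Ideal.span {(((s : ℤ) * Ω0.norm : ℤ) : ℤ√D)} : Ideal (ℤ√D)) =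
        Ideal.span {(s : ℤ√D)} * (Ideal.span {Ω0} * Ideal.span {star Ω0}) := by
      rw [Ideal.span_singleton_mul_span_singleton, Ideal.span_singleton_mul_span_singleton, ← norm_int]
      push_cast; rfl
    rw [e1, e2, ← h0.2, h, h']
    ring
  have hmem : (((s : ℤ) * Ω0.norm : ℤ) : ℤ√D) ∣ (((s0 : ℤ) * E0 : ℤ) : ℤ√D) * (Ω * star Ω0) := by
    rw [← Ideal.mem_span_singleton]
    have h1 : (((s0 : ℤ) * E0 : ℤ) : ℤ√D) * (Ω * star Ω0) ∈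
        Ideal.span {(((s : ℤ) * Ω0.norm : ℤ) : ℤ√D)} * (I * cj I0) := by
      rw [← key]; exact Ideal.mem_span_singleton_self _
    exact Ideal.mul_le_left (I := Ideal.span {(((s : ℤ) * Ω0.norm : ℤ) : ℤ√D)}) (J := I * cj I0) h1
  obtain ⟨β, hβ⟩ := hmem
  refine ⟨β, hβ.symm, ?_⟩
  have hne : (((s : ℤ) * Ω0.norm : ℤ) : ℤ√D) ≠ 0 := by
    have : ((s : ℤ) * Ω0.norm : ℤ) ≠ 0 := mul_ne_zero (by omega) hN
    exact_mod_cast this
  apply cancel_span hne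
  rw [← key, hβ, Ideal.span_singleton_mul_span_singleton]

theorem lk4_norm {D : ℤ} {I I0 : Ideal (ℤ√D)} {β : ℤ√D} {E E0 : ℕ} (h : HN I E) (h0 : HN I0 E0)
    (hβ : Ideal.span {β} = I * cj I0) : |β.norm| = (E : ℤ) * E0 := by
  have h1 : HN (I * cj I0) (E * E0) := h.mul h0.cj
  have h2 : Ideal.span {((β.norm : ℤ) : ℤ√D)} = Ideal.span {((E * E0 : ℕ) : ℤ√D)} := by
    rw [← h1.2, ← hβ, cj_span_singleton, Ideal.span_singleton_mul_span_singleton, norm_int]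
  have h3 : ((β.norm : ℤ) : ℤ√D) ∣ (((E * E0 : ℕ) : ℤ) : ℤ√D) := by
    rw [← Ideal.mem_span_singleton, h2, Int.cast_natCast]; exact Ideal.mem_span_singleton_self _
  have h4 : (((E * E0 : ℕ) : ℤ) : ℤ√D) ∣ ((β.norm : ℤ) : ℤ√D) := by
    rw [Int.cast_natCast, ← Ideal.mem_span_singleton, ← h2]; exact Ideal.mem_span_singleton_self _
  have h5 := (Zsqrtd.intCast_dvd_intCast _ _).mp h3
  have h6 := (Zsqrtd.intCast_dvd_intCast _ _).mp h4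
  have h7 : |β.norm| = |((E * E0 : ℕ) : ℤ)| := by
    rw [Int.abs_eq_natAbs, Int.abs_eq_natAbs, Int.natAbs_eq_of_dvd_dvd h5 h6]
  rw [h7, abs_of_nonneg (by positivity)]
  push_cast; rfl

/-- Row hpLK4.  `l = 1`: `span {s_0 Ω_c} * I_0 = span {s_c Ω_0} * I_c` (all with `W`), times `cj I_0` and `star Ω_0`:
`span {s_0 E_0 Ω_c star Ω_0} = span {s_c norm Ω_0} * (I_c * cj I_0)`, so `s_c norm(Ω_0) ∣ s_0 E_0 Ω_c star Ω_0`, quotient `β_c`,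
`span {β_c} = I_c * cj I_0`, `|norm β_c| = E_c E_0` (compare norms: `HN.unique`-type argument, or the norm of a generator),
`β_c` is a rational multiple of `P = Ω_c star Ω_0`: `f ∣ Im β_c` (norm β_c prime to f), balanced, `θ`-real.  `final_count` with `l = 1`. -/
theorem ll_general_one (C0 : ℝ) (hC0 : 1 ≤ C0) : ∃ C : ℝ, 0 < C ∧
    ∀ (X K : ℝ) (D : ℤ) (f : ℕ) (E θ : ℝ) (ι : Type) (S : Finset ι) (Ω : ι → ℤ√D) (I : ι → Ideal (ℤ√D))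
      (En s : ι → ℕ) (W : Ideal (ℤ√D)), LLG C0 X K D f 1 E θ S Ω I En s W →
      (S.card : ℝ) ≤ C * K * (1 + θ * E / ((f : ℝ) * √((|D| : ℤ) : ℝ))) := by
  have hC1 : (1 : ℝ) ≤ 4 * C0 ^ 2 := by nlinarith
  obtain ⟨C, hC, hmain⟩ := final_count 1 le_rfl C0 (4 * C0 ^ 2) hC0 hC1
  refine ⟨C, hC, ?_⟩
  intro X K D f E θ ι S Ω I En s W h
  rcases S.eq_empty_or_nonempty with rfl | ⟨c0, hc0⟩
  · have h1 := h.hE
    have h2 := h.hθ
    have h3 := h.hK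
    simp only [Finset.card_empty, Nat.cast_zero]
    positivity
  have : IsDomain (ℤ√D) := isDomain_of h.hD
  have hnn : ∀ c ∈ S, (Ω c).norm ≠ 0 := by
    intro c hc h0
    exact h.nz c hc ((Zsqrtd.norm_eq_zero h.hD _).mp h0)
  have key : ∀ c, ∃ β : ℤ√D, c ∈ S →
      (Ideal.span {β} = I c * cj (I c0) ∧ |β.norm| = (En c : ℤ) * En c0 ∧ (f : ℤ) ∣ ((1 : ℕ) : ℤ) * β.im ∧
        ((hh β : ℤ) : ℝ) ≤ 4 * C0 ^ 2 * ((|β.norm| : ℤ) : ℝ) ∧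
        (((|D| * β.im ^ 2 : ℤ)) : ℝ) ≤ 4 * C0 ^ 2 * θ ^ 2 * ((|β.norm| : ℤ) : ℝ)) := by
    intro c
    by_cases hc : c ∈ S
    swap
    · exact ⟨0, fun h => absurd h hc⟩
    have hf1 := h.fac c hc
    have hf0 := h.fac c0 hc0
    rw [pow_one] at hf1 hf0
    obtain ⟨β, hβ, hsp⟩ := lk4_quot (h.s_pos c hc) (hnn c0 hc0) (h.hn c0 hc0) hf1 hf0
    refine ⟨β, fun _ => ⟨hsp, lk4_norm (h.hn c hc) (h.hn c0 hc0) hsp, ?_, ?_, ?_⟩⟩
    · -- divisibility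
      have hsdvd : ((s c : ℤ) : ℤ√D) ∣ Ω c := by
        rw [Int.cast_natCast, ← Ideal.mem_span_singleton]
        have h1 : Ω c ∈ Ideal.span {(s c : ℤ√D)} * W * I c := by
          rw [← hf1]; exact Ideal.mem_span_singleton_self _
        exact Ideal.mul_le_left (I := Ideal.span {(s c : ℤ√D)}) (J := W)
          (Ideal.mul_le_left (I := Ideal.span {(s c : ℤ√D)} * W) (J := I c) h1)
      obtain ⟨γ, hγ⟩ := hsdvd
      have hcs : IsCoprime (s c : ℤ) (f : ℤ) := by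
        have h1 := h.cop c hc
        rw [hγ, norm_int_mul] at h1
        have h2 : IsCoprime ((s c : ℤ) * ((s c : ℤ) * γ.norm)) (f : ℤ) := by
          have : (s c : ℤ) * ((s c : ℤ) * γ.norm) = (s c : ℤ) ^ 2 * γ.norm := by ring
          rw [this]; exact h1
        exact h2.of_mul_left_left
      have hc1 : IsCoprime (f : ℤ) ((s c : ℤ) * (Ω c0).norm) :=
        (IsCoprime.mul_left hcs (h.cop c0 hc0)).symm
      have him : ((s c : ℤ) * (Ω c0).norm) * β.im = ((s c0 : ℤ) * En c0) * (Ω c * star (Ω c0)).im := by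
        have := congrArg Zsqrtd.im hβ
        rw [Zsqrtd.im_smul, Zsqrtd.im_smul] at this
        exact this
      have hd : (f : ℤ) ∣ (Ω c * star (Ω c0)).im := by
        rw [Zsqrtd.im_mul]
        have h1 := h.im_dvd c hc
        have h2 := h.im_dvd c0 hc0
        simp only [Zsqrtd.re_star, Zsqrtd.im_star]
        exact dvd_add (Dvd.dvd.mul_left ((dvd_neg).mpr h2) _) (Dvd.dvd.mul_right h1 _)
      have h3 : (f : ℤ) ∣ ((s c : ℤ) * (Ω c0).norm) * β.im := by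
        rw [him]; exact Dvd.dvd.mul_left hd _
      rw [Nat.cast_one, one_mul]
      exact hc1.dvd_of_dvd_mul_left h3
    all_goals
      have hjpos : (0 : ℝ) < (((s c : ℤ) * (Ω c0).norm : ℤ) : ℝ) ^ 2 := by
        have : ((s c : ℤ) * (Ω c0).norm : ℤ) ≠ 0 := mul_ne_zero (by have := h.s_pos c hc; omega) (hnn c0 hc0)
        have h2 : (((s c : ℤ) * (Ω c0).norm : ℤ) : ℝ) ≠ 0 := by exact_mod_cast this
        positivity
      have hnrm : ((s c : ℤ) * (Ω c0).norm) ^ 2 * |β.norm| =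
          ((s c0 : ℤ) * En c0) ^ 2 * (|(Ω c).norm| * |(Ω c0).norm|) := by
        have h0 := congrArg Zsqrtd.norm hβ
        rw [norm_int_mul, norm_int_mul, Zsqrtd.norm_mul (Ω c), norm_star] at h0
        have h1 := congrArg abs h0
        rw [abs_mul, abs_mul, abs_mul, abs_pow, abs_pow, sq_abs, sq_abs] at h1
        exact h1
      have hnrmR : (((s c : ℤ) * (Ω c0).norm : ℤ) : ℝ) ^ 2 * ((|β.norm| : ℤ) : ℝ) =
          (((s c0 : ℤ) * En c0 : ℤ) : ℝ) ^ 2 * (((|(Ω c).norm| : ℤ) : ℝ) * ((|(Ω c0).norm| : ℤ) : ℝ)) := by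
        exact_mod_cast hnrm
      have hb1 := h.bal c hc
      have hb0 := h.bal c0 hc0
      have hr1 := h.real c hc
      have hr0 := h.real c0 hc0
      have n1 : (0 : ℝ) ≤ ((|(Ω c).norm| : ℤ) : ℝ) := by exact_mod_cast abs_nonneg _
      have n0 : (0 : ℝ) ≤ ((|(Ω c0).norm| : ℤ) : ℝ) := by exact_mod_cast abs_nonneg _
      have p1 : (0 : ℝ) ≤ ((hh (Ω c) : ℤ) : ℝ) := by exact_mod_cast hh_nonneg _
      have p0 : (0 : ℝ) ≤ ((hh (Ω c0) : ℤ) : ℝ) := by exact_mod_cast hh_nonneg _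
    · have h1 : (hh ((((s c : ℤ) * (Ω c0).norm : ℤ) : ℤ√D) * β) : ℤ) =
          hh ((((s c0 : ℤ) * En c0 : ℤ) : ℤ√D) * (Ω c * star (Ω c0))) := by rw [hβ]
      rw [hh_int_mul, hh_int_mul] at h1
      have h2 : hh (Ω c * star (Ω c0)) ≤ 2 * hh (Ω c) * hh (Ω c0) := by
        have := hh_mul_le (Ω c) (star (Ω c0))
        rwa [hh_star] at this
      have h1R : (((s c : ℤ) * (Ω c0).norm : ℤ) : ℝ) ^ 2 * ((hh β : ℤ) : ℝ) =
          (((s c0 : ℤ) * En c0 : ℤ) : ℝ) ^ 2 * ((hh (Ω c * star (Ω c0)) : ℤ) : ℝ) := by exact_mod_cast h1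
      have h2R : ((hh (Ω c * star (Ω c0)) : ℤ) : ℝ) ≤ 2 * ((hh (Ω c) : ℤ) : ℝ) * ((hh (Ω c0) : ℤ) : ℝ) := by
        exact_mod_cast h2
      have h3 : ((hh (Ω c) : ℤ) : ℝ) * ((hh (Ω c0) : ℤ) : ℝ) ≤
          (C0 * ((|(Ω c).norm| : ℤ) : ℝ)) * (C0 * ((|(Ω c0).norm| : ℤ) : ℝ)) :=
        mul_le_mul hb1 hb0 p0 (by positivity)
      refine le_of_mul_le_mul_left ?_ hjpos
      have h4 : (0 : ℝ) ≤ (((s c0 : ℤ) * En c0 : ℤ) : ℝ) ^ 2 := sq_nonneg _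
      calc (((s c : ℤ) * (Ω c0).norm : ℤ) : ℝ) ^ 2 * ((hh β : ℤ) : ℝ)
          = (((s c0 : ℤ) * En c0 : ℤ) : ℝ) ^ 2 * ((hh (Ω c * star (Ω c0)) : ℤ) : ℝ) := h1R
        _ ≤ (((s c0 : ℤ) * En c0 : ℤ) : ℝ) ^ 2 * (4 * C0 ^ 2 * (((|(Ω c).norm| : ℤ) : ℝ) * ((|(Ω c0).norm| : ℤ) : ℝ))) := by
            apply mul_le_mul_of_nonneg_left _ h4
            have h5 : (0 : ℝ) ≤ C0 ^ 2 * (((|(Ω c).norm| : ℤ) : ℝ) * ((|(Ω c0).norm| : ℤ) : ℝ)) := by positivity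
            nlinarith
        _ = (((s c : ℤ) * (Ω c0).norm : ℤ) : ℝ) ^ 2 * (4 * C0 ^ 2 * ((|β.norm| : ℤ) : ℝ)) := by
            linear_combination (-(4 * C0 ^ 2)) * hnrmR
    · have h1 : ((s c : ℤ) * (Ω c0).norm) * β.im = ((s c0 : ℤ) * En c0) * (Ω c * star (Ω c0)).im := by
        have := congrArg Zsqrtd.im hβ
        rw [Zsqrtd.im_smul, Zsqrtd.im_smul] at this
        exact this
      have h2 := im_mul_sq_le (Ω c) (star (Ω c0))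
      rw [hh_star, Zsqrtd.im_star, neg_sq] at h2
      have h1R : (((s c : ℤ) * (Ω c0).norm : ℤ) : ℝ) * ((β.im : ℤ) : ℝ) =
          (((s c0 : ℤ) * En c0 : ℤ) : ℝ) * (((Ω c * star (Ω c0)).im : ℤ) : ℝ) := by exact_mod_cast h1
      have h2R : ((|D| * (Ω c * star (Ω c0)).im ^ 2 : ℤ) : ℝ) ≤
          2 * (((|D| * (Ω c).im ^ 2 : ℤ) : ℝ) * ((hh (Ω c0) : ℤ) : ℝ) +
            ((hh (Ω c) : ℤ) : ℝ) * ((|D| * (Ω c0).im ^ 2 : ℤ) : ℝ)) := by exact_mod_cast h2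
      have q1 : (0 : ℝ) ≤ ((|D| * (Ω c).im ^ 2 : ℤ) : ℝ) := by
        have : (0 : ℤ) ≤ |D| * (Ω c).im ^ 2 := by positivity
        exact_mod_cast this
      have q0 : (0 : ℝ) ≤ ((|D| * (Ω c0).im ^ 2 : ℤ) : ℝ) := by
        have : (0 : ℤ) ≤ |D| * (Ω c0).im ^ 2 := by positivity
        exact_mod_cast this
      have h3 : ((|D| * (Ω c).im ^ 2 : ℤ) : ℝ) * ((hh (Ω c0) : ℤ) : ℝ) ≤
          (C0 * θ ^ 2 * ((|(Ω c).norm| : ℤ) : ℝ)) * (C0 * ((|(Ω c0).norm| : ℤ) : ℝ)) :=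
        mul_le_mul hr1 hb0 p0 (by positivity)
      have h3' : ((hh (Ω c) : ℤ) : ℝ) * ((|D| * (Ω c0).im ^ 2 : ℤ) : ℝ) ≤
          (C0 * ((|(Ω c).norm| : ℤ) : ℝ)) * (C0 * θ ^ 2 * ((|(Ω c0).norm| : ℤ) : ℝ)) :=
        mul_le_mul hb1 hr0 q0 (by positivity)
      refine le_of_mul_le_mul_left ?_ hjpos
      have h4 : (0 : ℝ) ≤ (((s c0 : ℤ) * En c0 : ℤ) : ℝ) ^ 2 := sq_nonneg _
      calc (((s c : ℤ) * (Ω c0).norm : ℤ) : ℝ) ^ 2 * ((|D| * β.im ^ 2 : ℤ) : ℝ)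
          = ((|D| : ℤ) : ℝ) * ((((s c : ℤ) * (Ω c0).norm : ℤ) : ℝ) * ((β.im : ℤ) : ℝ)) ^ 2 := by
            push_cast; ring
        _ = ((|D| : ℤ) : ℝ) * ((((s c0 : ℤ) * En c0 : ℤ) : ℝ) * (((Ω c * star (Ω c0)).im : ℤ) : ℝ)) ^ 2 := by
            rw [h1R]
        _ = (((s c0 : ℤ) * En c0 : ℤ) : ℝ) ^ 2 * ((|D| * (Ω c * star (Ω c0)).im ^ 2 : ℤ) : ℝ) := by
            push_cast; ring
        _ ≤ (((s c0 : ℤ) * En c0 : ℤ) : ℝ) ^ 2 *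
            (4 * C0 ^ 2 * θ ^ 2 * (((|(Ω c).norm| : ℤ) : ℝ) * ((|(Ω c0).norm| : ℤ) : ℝ))) := by
            apply mul_le_mul_of_nonneg_left _ h4
            nlinarith
        _ = (((s c : ℤ) * (Ω c0).norm : ℤ) : ℝ) ^ 2 * (4 * C0 ^ 2 * θ ^ 2 * ((|β.norm| : ℤ) : ℝ)) := by
            linear_combination (-(4 * C0 ^ 2 * θ ^ 2)) * hnrmR
  choose β hβ using key
  refine hmain D f E θ K ι S I β En (I c0) (En c0) h.hD h.hf h.hE h.hθ h.hθ1 h.hK (h.hn c0 hc0) (h.cont c0 hc0)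
    (h.E_lo c0 hc0) (h.E_hi c0 hc0) ?_ h.inj
  intro c hc
  obtain ⟨a1, a2, a3, a4, a5⟩ := hβ c hc
  exact ⟨h.hn c hc, h.E_hi c hc, a1, a2, a3, a4, a5⟩

end Hp

end Pool.Agent.Lib.MP_d8bd92_nt
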