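import Pool.Agent.Lib.MP_d8bd92_nt.Hp.WDefs

set_option autoImplicit false

/-!
MP_d8bd92_nt, block WALK, file WD.
-/

namespace Pool.Agent.Lib.MP_d8bd92_nt

namespace Hp

open Finset

/-- Row hpWD1.  `idl D E r` is invertible of norm `E` for odd `E` prime to `D`:
`(E, √D - r)(E, √D + r) = (E^2, E(√D - r), E(√D + r), D - r^2) = E * (E, √D - r, √D + r, (D - r^2)/E)` and the last ideal
contains `E` and `2 r`, coprime integers (`gcd(E, r) = 1` because `r^2 = D` modulo `E`). -/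
theorem idl_HN {D : ℤ} {E : ℕ} {r : ℤ} (h1 : 1 ≤ E) (hodd : Odd E) (hcop : IsCoprime (E : ℤ) D) (hr : (E : ℤ) ∣ r ^ 2 - D) :
    HN (idl D E r) E := by
  have hc : IsCoprime (E : ℤ) (2 * r) := by
    refine IsCoprime.mul_right ?_ ?_
    · rw [Int.isCoprime_iff_gcd_eq_one]
      have h2 : Nat.Coprime E 2 := Nat.coprime_two_right.mpr hodd
      exact h2
    · obtain ⟨k, hk⟩ := hr
      have h3 : IsCoprime (E : ℤ) (D + (E : ℤ) * k) := hcop.add_mul_left_right k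
      have h4 : D + (E : ℤ) * k = r * r := by rw [← hk]; ring
      rw [h4] at h3
      exact h3.of_mul_right_left
  obtain ⟨u, v, huv⟩ := hc
  refine ⟨h1, ?_⟩
  unfold idl
  rw [cj_span_pair, Ideal.span_pair_mul_span_pair]
  apply le_antisymm
  · rw [Ideal.span_le]
    intro z hz
    have hdv : (E : ℤ√D) ∣ z := by
      rcases hz with rfl | rfl | rfl | rfl
      · exact Dvd.intro _ rfl
      · exact Dvd.intro _ rfl
      · exact Dvd.intro_left _ rfl
      · rw [← norm_int]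
        have h5 : ((E : ℤ) : ℤ√D) ∣ (((⟨-r, 1⟩ : ℤ√D).norm : ℤ) : ℤ√D) := by
          rw [Zsqrtd.intCast_dvd_intCast]
          have h6 : (⟨-r, 1⟩ : ℤ√D).norm = r ^ 2 - D := by
            rw [Zsqrtd.norm_def]
            ring
          rw [h6]
          exact hr
        rwa [Int.cast_natCast] at h5
    exact Ideal.mem_span_singleton.mpr hdv
  · rw [Ideal.span_singleton_le_iff_mem]
    have e1 : (E : ℤ√D) = (u : ℤ√D) * ((E : ℤ√D) * star (E : ℤ√D)) +
        (-(v : ℤ√D)) * ((E : ℤ√D) * star (⟨-r, 1⟩ : ℤ√D)) + (-(v : ℤ√D)) * ((⟨-r, 1⟩ : ℤ√D) * star (E : ℤ√D)) := by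
      have h7 : (u : ℤ√D) * (E : ℤ√D) + (v : ℤ√D) * (2 * (r : ℤ√D)) = 1 := by exact_mod_cast huv
      have h8 : star (⟨-r, 1⟩ : ℤ√D) + (⟨-r, 1⟩ : ℤ√D) = - (2 * (r : ℤ√D)) := by
        ext <;> simp
        ring
      have h9 : star (E : ℤ√D) = (E : ℤ√D) := by simp
      rw [h9]
      linear_combination (-(E : ℤ√D)) * h7 + (v : ℤ√D) * (E : ℤ√D) * h8
    have key : ∀ J : Ideal (ℤ√D), (E : ℤ√D) * star (E : ℤ√D) ∈ J → (E : ℤ√D) * star (⟨-r, 1⟩ : ℤ√D) ∈ J →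
        (⟨-r, 1⟩ : ℤ√D) * star (E : ℤ√D) ∈ J → (E : ℤ√D) ∈ J := by
      intro J ha hb hc
      rw [e1]
      exact J.add_mem (J.add_mem (J.mul_mem_left _ ha) (J.mul_mem_left _ hb)) (J.mul_mem_left _ hc)
    exact key _ (Ideal.subset_span (Or.inl rfl)) (Ideal.subset_span (Or.inr (Or.inl rfl)))
      (Ideal.subset_span (Or.inr (Or.inr (Or.inl rfl))))

/-- `idl D E r` contains `√D - r`, whose `√D`-coordinate is 1 -/
theorem idl_cont {D : ℤ} (E : ℕ) (r : ℤ) : Cont (idl D E r) 1 := by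
  intro g hg
  have h1 : (⟨-r, 1⟩ : ℤ√D) ∈ Ideal.span {(g : ℤ√D)} := hg (Ideal.subset_span (by simp))
  rw [Ideal.mem_span_singleton, ← Int.cast_natCast, Zsqrtd.intCast_dvd] at h1
  have h2 : (g : ℤ) ∣ 1 := h1.2
  have h3 : g = 1 := by
    have := Int.eq_one_of_dvd_one (Int.natCast_nonneg g) h2
    exact_mod_cast this
  rw [h3]
  simp

theorem wd_cj_idl {D : ℤ} (E : ℕ) (r : ℤ) : cj (idl D E r) = idl D E (-r) := by
  unfold idl
  rw [cj_span_pair, Ideal.span_insert, Ideal.span_insert]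
  have h1 : star (⟨-r, 1⟩ : ℤ√D) = - (⟨-(-r), 1⟩ : ℤ√D) := by
    ext <;> simp
  rw [h1, Ideal.span_singleton_neg]
  simp

theorem cji_HN {D : ℤ} {I : Ideal (ℤ√D)} {E : ℕ} (h : HN I E) (i : ℕ) : HN (cji i I) E := by
  unfold cji
  split_ifs
  · exact h
  · exact h.cj

theorem cji_cont {D : ℤ} {I : Ideal (ℤ√D)} {K : ℝ} (h : Cont I K) (i : ℕ) : Cont (cji i I) K := by
  unfold cji
  split_ifs
  · exact h
  · intro g hg
    refine h g ?_
    have h1 := cj_mono hg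
    rwa [cj_cj, cj_span_natCast] at h1

theorem cje_norm {D : ℤ} (i : ℕ) (z : ℤ√D) : (cje i z).norm = z.norm := by
  unfold cje
  split_ifs
  · rfl
  · exact Zsqrtd.norm_conj z

theorem cje_im_dvd {D f : ℤ} (i : ℕ) {z : ℤ√D} (h : f ∣ z.im) : f ∣ (cje i z).im := by
  unfold cje
  split_ifs
  · exact h
  · rw [Zsqrtd.im_star]
    exact (dvd_neg).mpr h

/-- the elements with `f ∣ im` are closed under products -/
theorem im_dvd_mul {D f : ℤ} {z w : ℤ√D} (h : f ∣ z.im) (h' : f ∣ w.im) : f ∣ (z * w).im := by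
  rw [Zsqrtd.im_mul]
  exact dvd_add (Dvd.dvd.mul_left h' _) (Dvd.dvd.mul_right h _)

end Hp

end Pool.Agent.Lib.MP_d8bd92_nt
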