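import Pool.Agent.Lib.MP_d8bd92_nt.Hp.LLDefs
import Pool.Agent.Lib.MP_d8bd92_nt.Hp.LK3
import Pool.Agent.Lib.MP_d8bd92_nt.Hp.LK4
import Pool.Agent.Lib.MP_d8bd92_nt.Hp.WD

set_option autoImplicit false

/-!
MP_d8bd92_nt, block WALK, file LM.
-/

namespace Pool.Agent.Lib.MP_d8bd92_nt

namespace Hp

open Finset

/-- the data of helper91's lattice lemma are data of the general one, with `K = 1` -/
private theorem lm_llg {C0 X : ℝ} {D : ℤ} {f l : ℕ} {E θ : ℝ} {ι : Type} {S : Finset ι} {Ω : ι → ℤ√D}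
    {En s : ι → ℕ} {r : ι → ℤ} {W : Ideal (ℤ√D)} (h : LLData C0 X D f l E θ S Ω En s r W) :
    LLG (max C0 2) X 1 D f l E θ S Ω (fun c => idl D (En c) (r c)) En s W where
  hX := h.hX
  hD := nsq_of_sqf h.hD h.hD1
  hDX := h.hDX
  hf := h.hf
  hfX := h.hfX
  hl := h.hl
  hE := h.hE
  hθ := h.hθ
  hθ1 := h.hθ1
  hK := le_refl _
  im_dvd := h.im_dvd
  nz := h.nz
  cop := h.cop
  s_pos := h.s_pos
  hn := fun c hc => idl_HN (h.E_odd c hc).pos (h.E_odd c hc)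
    (IsCoprime.of_mul_right_left (h.E_cop c hc)) (h.root c hc)
  E_cop := fun c hc => IsCoprime.of_mul_right_right (h.E_cop c hc)
  E_lo := h.E_lo
  E_hi := fun c hc => (h.E_hi c hc).trans (by
    have hE := h.hE
    gcongr
    exact le_max_right _ _)
  cont := fun c _ => idl_cont (En c) (r c)
  fac := h.fac
  bal := fun c hc => (h.bal c hc).trans (by
    gcongr
    exact le_max_left _ _)
  real := fun c hc => (h.real c hc).trans (by
    gcongr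
    exact le_max_left _ _)
  inj := h.inj

/-- Row hpLM.  `ll_lemma` and `ll_one` (helper91's statements) from `ll_general`, `ll_general_one`: `I c := idl D (En c) (r c)`,
`idl_HN`, `idl_cont` (`K = 1`), `C0' = max C0 2`. -/
theorem ll_lemma (ε : ℝ) (hε : 0 < ε) (L : ℕ) (C0 : ℝ) (hC0 : 1 ≤ C0) : ∃ C : ℝ, 0 < C ∧
    ∀ (X : ℝ) (D : ℤ) (f l : ℕ) (E θ : ℝ) (ι : Type) (S : Finset ι) (Ω : ι → ℤ√D) (En s : ι → ℕ)
      (r : ι → ℤ) (W : Ideal (ℤ√D)), l ≤ L → LLData C0 X D f l E θ S Ω En s r W →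
      (S.card : ℝ) ≤ C * X ^ ε * √((|D| : ℤ) : ℝ) * (1 + θ * E / ((f : ℝ) * √((|D| : ℤ) : ℝ))) := by
  obtain ⟨C, hC, h⟩ := ll_general ε hε L (max C0 2) (hC0.trans (le_max_left _ _))
  refine ⟨C, hC, ?_⟩
  intro X D f l E θ ι S Ω En s r W hl hd
  have h1 := h X 1 D f l E θ ι S Ω (fun c => idl D (En c) (r c)) En s W hl (lm_llg hd)
  rwa [mul_one] at h1

theorem ll_one (ε : ℝ) (hε : 0 < ε) (C0 : ℝ) (hC0 : 1 ≤ C0) : ∃ C : ℝ, 0 < C ∧
    ∀ (X : ℝ) (D : ℤ) (f : ℕ) (E θ : ℝ) (ι : Type) (S : Finset ι) (Ω : ι → ℤ√D) (En s : ι → ℕ)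
      (r : ι → ℤ) (W : Ideal (ℤ√D)), LLData C0 X D f 1 E θ S Ω En s r W →
      (S.card : ℝ) ≤ C * X ^ ε * (1 + θ * E / ((f : ℝ) * √((|D| : ℤ) : ℝ))) := by
  obtain ⟨C, hC, h⟩ := ll_general_one (max C0 2) (hC0.trans (le_max_left _ _))
  refine ⟨C, hC, ?_⟩
  intro X D f E θ ι S Ω En s r W hd
  have h1 := h X 1 D f E θ ι S Ω (fun c => idl D (En c) (r c)) En s W (lm_llg hd)
  rw [mul_one] at h1
  refine h1.trans ?_
  have hX : (1 : ℝ) ≤ X ^ ε := Real.one_le_rpow hd.hX hε.le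
  have h2 : 0 ≤ θ * E / ((f : ℝ) * √((|D| : ℤ) : ℝ)) := by
    have := hd.hθ
    have := hd.hE
    positivity
  have h3 : C ≤ C * X ^ ε := le_mul_of_one_le_right hC.le hX
  gcongr

end Hp

end Pool.Agent.Lib.MP_d8bd92_nt
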