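import Pool.Agent.Lib.MP_d8bd92_nt.Hp.WDefs

set_option autoImplicit false

/-!
MP_d8bd92_nt, block WALK, file WA.
-/

namespace Pool.Agent.Lib.MP_d8bd92_nt

namespace Hp

open Finset

open scoped Classical in
/-- one deletion step -/
theorem wa_step {ι α β : Type} (T : Finset ι) (A : ι → α) (B : ι → β) (x y : ℝ) (hx : 0 ≤ x)
    (hy : 0 ≤ y) (e : ι) (he : e ∈ T)
    (hmax : ((T.filter (fun e' => ¬ A e' = A e)).card : ℝ) -
        x * ((T.filter (fun e' => ¬ A e' = A e)).image A).card -
        y * ((T.filter (fun e' => ¬ A e' = A e)).image B).card ≤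
      (T.card : ℝ) - x * (T.image A).card - y * (T.image B).card) :
    x ≤ ((T.filter (fun e' => A e' = A e)).card : ℝ) := by
  have h1 := Finset.card_filter_add_card_filter_not (s := T) (fun e' => A e' = A e)
  have h1' : ((T.filter (fun e' => A e' = A e)).card : ℝ) +
      ((T.filter (fun e' => ¬ A e' = A e)).card : ℝ) = (T.card : ℝ) := by exact_mod_cast h1
  have h2 : ((T.filter (fun e' => ¬ A e' = A e)).image A) ⊆ (T.image A).erase (A e) := by
    intro a ha
    obtain ⟨e', he', rfl⟩ := Finset.mem_image.1 ha
    rw [Finset.mem_filter] at he'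
    exact Finset.mem_erase.2 ⟨he'.2, Finset.mem_image_of_mem A he'.1⟩
  have h3 := Finset.card_le_card h2
  have hmem : A e ∈ T.image A := Finset.mem_image_of_mem A he
  have h4 : ((T.filter (fun e' => ¬ A e' = A e)).image A).card + 1 ≤ (T.image A).card := by
    rw [← Finset.card_erase_add_one hmem]
    exact Nat.add_le_add_right h3 1
  have h4' : (((T.filter (fun e' => ¬ A e' = A e)).image A).card : ℝ) + 1 ≤
      ((T.image A).card : ℝ) := by exact_mod_cast h4
  have h5 : ((T.filter (fun e' => ¬ A e' = A e)).image B).card ≤ (T.image B).card :=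
    Finset.card_le_card (Finset.image_subset_image (Finset.filter_subset _ _))
  have h5' : (((T.filter (fun e' => ¬ A e' = A e)).image B).card : ℝ) ≤
      ((T.image B).card : ℝ) := by exact_mod_cast h5
  have h6 := mul_le_mul_of_nonneg_left h4' hx
  have h7 := mul_le_mul_of_nonneg_left h5' hy
  rw [mul_add, mul_one] at h6
  linarith

open scoped Classical in
/-- Row hpWA.  Subgraph of large minimal degree (helper91's statement).
Choose `S' ⊆ S` maximising `|S'| - x |A(S')| - y |B(S')|` with `x = |S| / (4 |A(S)|)`, `y = |S| / (4 |B(S)|)` (the value at `S` is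
`|S|/2 > 0`, so `S' ≠ ∅`).  If some `A`-class of `S'` has fewer than `x` elements, deleting it increases the value. -/
theorem min_degree {ι α β : Type} (S : Finset ι) (A : ι → α) (B : ι → β) (hS : S.Nonempty) :
    ∃ S' ⊆ S, S'.Nonempty ∧
      (∀ e ∈ S', (S.card : ℝ) / (4 * (S.image A).card) ≤ ((S'.filter (fun e' => A e' = A e)).card : ℝ)) ∧
      (∀ e ∈ S', (S.card : ℝ) / (4 * (S.image B).card) ≤ ((S'.filter (fun e' => B e' = B e)).card : ℝ)) := by
  set x : ℝ := (S.card : ℝ) / (4 * (S.image A).card) with hxdef
  set y : ℝ := (S.card : ℝ) / (4 * (S.image B).card) with hydef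
  have hx : 0 ≤ x := by positivity
  have hy : 0 ≤ y := by positivity
  have hSc : (0 : ℝ) < S.card := by exact_mod_cast hS.card_pos
  have hAc : (0 : ℝ) < (S.image A).card := by exact_mod_cast (hS.image A).card_pos
  have hBc : (0 : ℝ) < (S.image B).card := by exact_mod_cast (hS.image B).card_pos
  have hxA : x * (S.image A).card = S.card / 4 := by
    rw [hxdef]
    field_simp
  have hyB : y * (S.image B).card = S.card / 4 := by
    rw [hydef]
    field_simp
  obtain ⟨T, hT, hmax⟩ := Finset.exists_max_image S.powerset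
    (fun U : Finset ι => (U.card : ℝ) - x * (U.image A).card - y * (U.image B).card)
    ⟨S, Finset.mem_powerset_self S⟩
  rw [Finset.mem_powerset] at hT
  refine ⟨T, hT, ?_, ?_, ?_⟩
  · rw [Finset.nonempty_iff_ne_empty]
    rintro rfl
    have h1 := hmax S (Finset.mem_powerset_self S)
    simp only [Finset.card_empty, Finset.image_empty, Nat.cast_zero, mul_zero, sub_zero] at h1
    rw [hxA, hyB] at h1
    linarith
  · intro e he
    exact wa_step T A B x y hx hy e he
      (hmax _ (Finset.mem_powerset.2 ((Finset.filter_subset _ _).trans hT)))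
  · intro e he
    refine wa_step T B A y x hy hx e he ?_
    have h1 := hmax (T.filter (fun e' => ¬ B e' = B e))
      (Finset.mem_powerset.2 ((Finset.filter_subset _ _).trans hT))
    linarith

end Hp

end Pool.Agent.Lib.MP_d8bd92_nt
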