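import Pool.Agent.Lib.MP_d8bd92_nt.Hp.WI

set_option autoImplicit false

/-!
MP_d8bd92_nt, block WALK, file WJ.
-/

namespace Pool.Agent.Lib.MP_d8bd92_nt

namespace Hp

open Finset

open scoped Classical in
/-- Row hpWJ (uses `greedy`, `walk_end`).  Walk theorem, any length `h ≥ 1`, starting at an `A`-label (helper91's statement).
`h = n + 1`.  `greedy` with `bad e' e := Z < gcd (t e') (t e)`; split the walks by their end label, at most `|image A S|` (`h` even)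
or `|image B S|` (`h` odd) values; `walk_end`; `(1/2)^h` goes into `C`, `Z^(h^2) ≤ Z^(h^3)`. -/
theorem walk_theorem (ε : ℝ) (hε : 0 < ε) (L h : ℕ) (hh1 : 1 ≤ h) (C0 : ℝ) (hC0 : 1 ≤ C0) : ∃ C : ℝ, 0 < C ∧
    ∀ (X : ℝ) (D : ℤ) (f l : ℕ) (E θ : ℝ) (dA dB Z μA μB : ℝ) (ι : Type) (S : Finset ι) (Ω : ι → ℤ√D)
      (t s : ι → ℕ) (r : ι → ℤ) (q : Ideal (ℤ√D)) (A B : ι → Ideal (ℤ√D)) (nA nB : ι → ℕ), l ≤ L →
      WalkData C0 X D f l E θ h dA dB Z μA μB S Ω t s r q A B nA nB →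
      dA ^ ((h + 1) / 2) * dB ^ (h / 2) ≤ C * X ^ ε * Z ^ (h ^ 3) * μA ^ ((h + 1) / 2) * μB ^ (h / 2) *
        ((if Even h then (S.image A).card else (S.image B).card : ℕ) : ℝ) *
        (if l = 1 then 1 else √((|D| : ℤ) : ℝ)) * (1 + θ * E ^ h / ((f : ℝ) * √((|D| : ℤ) : ℝ))) := by
  obtain ⟨n, rfl⟩ : ∃ n, h = n + 1 := ⟨h - 1, by omega⟩
  obtain ⟨C, hC, hmain⟩ := walk_end ε hε L n C0 hC0
  refine ⟨2 ^ (n + 1) * C, by positivity, ?_⟩
  intro X D f l E θ dA dB Z μA μB ι S Ω t s r q A B nA nB hl hW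
  obtain ⟨e0, he0⟩ := hW.ne
  have hdA0 : 0 ≤ dA := zero_le_one.trans hW.hdA
  have hdB0 : 0 ≤ dB := zero_le_one.trans hW.hdB
  have hX0 : 0 ≤ X := zero_le_one.trans hW.hX
  have hZ0 : 0 ≤ Z := zero_le_one.trans hW.hZ
  have hμA0 : 0 ≤ μA := zero_le_one.trans hW.hμA
  have hμB0 : 0 ≤ μB := zero_le_one.trans hW.hμB
  have hE0 : 0 ≤ E := zero_le_one.trans hW.hE
  have hθ0 : 0 ≤ θ := hW.hθ.le
  obtain ⟨T, hT, hTcard⟩ := greedy S A B (fun e' e => Z < (Nat.gcd (t e') (t e) : ℝ)) (n + 1) dA dB hdA0 hdB0 e0 he0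
    hW.degA hW.degB hW.badA hW.badB n le_rfl
  set endl : (Fin (n + 1) → ι) → Ideal (ℤ√D) := fun w =>
    if Even n then B (w (Fin.last n)) else A (w (Fin.last n)) with hendl
  set τ : ℝ := if l = 1 then 1 else √((|D| : ℤ) : ℝ) with hτ
  have hτ0 : 0 ≤ τ := by
    rw [hτ]; split_ifs
    · exact zero_le_one
    · exact Real.sqrt_nonneg _
  set Q : ℝ := 1 + θ * E ^ (n + 1) / ((f : ℝ) * √((|D| : ℤ) : ℝ)) with hQ
  have hQ0 : 0 ≤ Q := by rw [hQ]; positivity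
  set P : ℕ := if Even (n + 1) then (S.image A).card else (S.image B).card with hP
  set M : ℝ := C * X ^ ε * Z ^ ((n + 1) ^ 2) * μA ^ ((n + 2) / 2) * μB ^ ((n + 1) / 2) * τ * Q with hM
  have hM0 : 0 ≤ M := by rw [hM]; positivity
  have himg : (T.image endl).card ≤ P := by
    rw [hP]
    rcases Nat.even_or_odd n with hn | hn
    · have hn1 : ¬ Even (n + 1) := by rw [Nat.not_even_iff_odd]; exact hn.add_one
      rw [if_neg hn1]
      refine card_le_card ?_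
      intro v hv
      obtain ⟨w, hw, rfl⟩ := mem_image.1 hv
      rw [hendl]
      simp only [if_pos hn]
      exact mem_image_of_mem B ((hT w hw).1.mem _)
    · have hn1 : Even (n + 1) := hn.add_one
      have hn2 : ¬ Even n := Nat.not_even_iff_odd.2 hn
      rw [if_pos hn1]
      refine card_le_card ?_
      intro v hv
      obtain ⟨w, hw, rfl⟩ := mem_image.1 hv
      rw [hendl]
      simp only [if_neg hn2]
      exact mem_image_of_mem A ((hT w hw).1.mem _)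
  have hfib : ∀ v ∈ T.image endl, (((T.filter (fun w => endl w = v)).card : ℕ) : ℝ) ≤ M := by
    intro v _
    have h1 := hmain X D f l E θ dA dB Z μA μB ι S Ω t s r q A B nA nB (A e0) v
      (T.filter (fun w => endl w = v)) hl hW ?_
    · rw [hM, hτ, hQ]; exact h1
    · intro w hw
      rw [mem_filter] at hw
      refine ⟨(hT w hw.1).1, hw.2, ?_⟩
      intro i j hij
      exact not_lt.1 ((hT w hw.1).2 i j hij)
  have hTM : (T.card : ℝ) ≤ (P : ℝ) * M := by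
    rw [card_eq_sum_card_image endl T]
    push_cast
    calc ∑ v ∈ T.image endl, (((T.filter (fun w => endl w = v)).card : ℕ) : ℝ) ≤ ∑ _v ∈ T.image endl, M :=
          sum_le_sum hfib
      _ = ((T.image endl).card : ℝ) * M := by rw [sum_const, nsmul_eq_mul]
      _ ≤ (P : ℝ) * M := mul_le_mul_of_nonneg_right (by exact_mod_cast himg) hM0
  clear_value M Q τ P endl
  have hexp : (n + 2) / 2 + (n + 1) / 2 = n + 1 := by omega
  have hZZ : Z ^ ((n + 1) ^ 2) ≤ Z ^ ((n + 1) ^ 3) :=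
    pow_le_pow_right₀ hW.hZ (Nat.pow_le_pow_right (by omega) (by norm_num))
  have e1 : dA ^ ((n + 1 + 1) / 2) * dB ^ ((n + 1) / 2) =
      2 ^ (n + 1) * ((dA / 2) ^ ((n + 2) / 2) * (dB / 2) ^ ((n + 1) / 2)) := by
    have e2 : (2 : ℝ) ^ (n + 1) = 2 ^ ((n + 2) / 2) * 2 ^ ((n + 1) / 2) := by
      rw [← pow_add, hexp]
    rw [e2, div_pow, div_pow]
    have h3 : (2 : ℝ) ^ ((n + 2) / 2) ≠ 0 := by positivity
    have h4 : (2 : ℝ) ^ ((n + 1) / 2) ≠ 0 := by positivity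
    field_simp
  rw [e1]
  calc 2 ^ (n + 1) * ((dA / 2) ^ ((n + 2) / 2) * (dB / 2) ^ ((n + 1) / 2))
      ≤ 2 ^ (n + 1) * ((P : ℝ) * M) := mul_le_mul_of_nonneg_left (hTcard.trans hTM) (by positivity)
    _ = (2 ^ (n + 1) * C * X ^ ε * μA ^ ((n + 2) / 2) * μB ^ ((n + 1) / 2) * P * τ * Q) * Z ^ ((n + 1) ^ 2) := by
        rw [hM]; ring
    _ ≤ (2 ^ (n + 1) * C * X ^ ε * μA ^ ((n + 2) / 2) * μB ^ ((n + 1) / 2) * P * τ * Q) * Z ^ ((n + 1) ^ 3) := by
        refine mul_le_mul_of_nonneg_left hZZ ?_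
        have q1 : 0 ≤ X ^ ε := Real.rpow_nonneg hX0 ε
        have q2 : 0 ≤ μA ^ ((n + 2) / 2) := pow_nonneg hμA0 _
        have q3 : 0 ≤ μB ^ ((n + 1) / 2) := pow_nonneg hμB0 _
        have q4 : (0 : ℝ) ≤ (P : ℝ) := Nat.cast_nonneg _
        exact mul_nonneg (mul_nonneg (mul_nonneg (mul_nonneg (mul_nonneg (mul_nonneg
          (mul_nonneg (by positivity) hC.le) q1) q2) q3) q4) hτ0) hQ0
    _ = 2 ^ (n + 1) * C * X ^ ε * Z ^ ((n + 1) ^ 3) * μA ^ ((n + 1 + 1) / 2) * μB ^ ((n + 1) / 2) * P * τ * Q := by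
        ring

end Hp

end Pool.Agent.Lib.MP_d8bd92_nt
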