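import Pool.Agent.Lib.MP_d8bd92_nt.Hp.Alpha
import Pool.Agent.Lib.MP_d8bd92_nt.Hp.LM
import Pool.Agent.Lib.MP_d8bd92_nt.Hp.WJ
import Pool.Agent.Lib.MP_d8bd92_nt.Hp.WA

set_option autoImplicit false

/-!
Bridge between the pair layer and the lattice lemma / the walk theorem: comparable elements with factored norms.
-/

namespace Pool.Agent.Lib.MP_d8bd92_nt

namespace Hp

open Finset Pool.Agent.Lib.Szpiro

/-- comparable elements `z = g + F √D`, `f ∣ F` -/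
structure ElCls (X θ : ℝ) (D : ℤ) (f : ℕ) {ι : Type} (S : Finset ι) (z : ι → ℤ√D) : Prop where
  hX : 1 ≤ X
  hD : Squarefree D
  hD1 : D ≠ 1
  hDX : ((|D| : ℤ) : ℝ) ≤ X
  hf : 1 ≤ f
  hfX : (f : ℝ) ≤ X
  hθ : 0 < θ
  hθ1 : θ ≤ 1
  re0 : ∀ e ∈ S, 0 ≤ (z e).re
  im0 : ∀ e ∈ S, 0 < (z e).im
  im_dvd : ∀ e ∈ S, (f : ℤ) ∣ (z e).im
  n0 : ∀ e ∈ S, (z e).norm ≠ 0
  cop : ∀ e ∈ S, IsCoprime (z e).norm ((z e).im ^ 2 * D)
  dn : ∀ e ∈ S, ∀ e' ∈ S, ((|(z e).norm| : ℤ) : ℝ) ≤ 2 * ((|(z e').norm| : ℤ) : ℝ)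
  di : ∀ e ∈ S, ∀ e' ∈ S, ((z e).im : ℝ) ≤ 2 * (z e').im
  sg : ∀ e ∈ S, ∀ e' ∈ S, (0 < (z e).norm ↔ 0 < (z e').norm)
  th : ∀ e ∈ S, (θ = 1 ∧ ((|(z e).norm| : ℤ) : ℝ) ≤ 64 * ((|D| * (z e).im ^ 2 : ℤ) : ℝ)) ∨
      (4 * ((|D| * (z e).im ^ 2 : ℤ) : ℝ) ≤ ((|(z e).norm| : ℤ) : ℝ) ∧
        ((|D| * (z e).im ^ 2 : ℤ) : ℝ) ≤ 4 * θ ^ 2 * ((|(z e).norm| : ℤ) : ℝ))
  size : ∀ e ∈ S, ((hh (z e) : ℤ) : ℝ) ≤ X

/-- factored norms `2 ^ ee * A * B * t ^ l` -/
structure ElFac (X E : ℝ) (D : ℤ) (l : ℕ) {ι : Type} (S : Finset ι) (z : ι → ℤ√D) (ee A B t : ι → ℕ)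
    (Q : Ideal (ℤ√D)) : Prop where
  hl : 1 ≤ l
  hE : 1 ≤ E
  hEX : E ≤ X
  fac : ∀ e ∈ S, (z e).norm.natAbs = 2 ^ ee e * A e * B e * t e ^ l
  oA : ∀ e ∈ S, Odd (A e)
  oB : ∀ e ∈ S, Odd (B e)
  ot : ∀ e ∈ S, Odd (t e)
  AB : ∀ e ∈ S, Nat.Coprime (A e) (B e)
  At : ∀ e ∈ S, Nat.Coprime (A e) (t e)
  Bt : ∀ e ∈ S, Nat.Coprime (B e) (t e)
  tsq : ∀ e ∈ S, Squarefree (t e)
  tlo : ∀ e ∈ S, E ≤ (t e : ℝ)
  thi : ∀ e ∈ S, (t e : ℝ) ≤ 2 * E
  two : ∀ e ∈ S, lbl (2 ^ ee e) (z e) = Q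

/-- balancedness of the products `z * star z'` -/
theorem ElCls.br {X θ : ℝ} {D : ℤ} {f : ℕ} {ι : Type} {S : Finset ι} {z : ι → ℤ√D} (h : ElCls X θ D f S z)
    {e e' : ι} (he : e ∈ S) (he' : e' ∈ S) : BR 1000 θ (z e * star (z e')) := by
  have hD0 : D ≠ 0 := h.hD.ne_zero
  exact BR_pair hD0 (h.re0 e he) (h.re0 e' he') (h.im0 e he) (h.im0 e' he') (h.dn e he e' he') (h.dn e' he' e he)
    (h.sg e he e' he') (h.n0 e he) (h.n0 e' he') (h.di e he e' he') (h.di e' he' e he) rfl (h.th e he)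

theorem ElCls.sub {X θ : ℝ} {D : ℤ} {f : ℕ} {ι : Type} {S S' : Finset ι} {z : ι → ℤ√D} (h : ElCls X θ D f S z)
    (hS : S' ⊆ S) : ElCls X θ D f S' z where
  hX := h.hX
  hD := h.hD
  hD1 := h.hD1
  hDX := h.hDX
  hf := h.hf
  hfX := h.hfX
  hθ := h.hθ
  hθ1 := h.hθ1
  re0 := fun e he => h.re0 e (hS he)
  im0 := fun e he => h.im0 e (hS he)
  im_dvd := fun e he => h.im_dvd e (hS he)
  n0 := fun e he => h.n0 e (hS he)
  cop := fun e he => h.cop e (hS he)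
  dn := fun e he e' he' => h.dn e (hS he) e' (hS he')
  di := fun e he e' he' => h.di e (hS he) e' (hS he')
  sg := fun e he e' he' => h.sg e (hS he) e' (hS he')
  th := fun e he => h.th e (hS he)
  size := fun e he => h.size e (hS he)

theorem ElFac.sub {X E : ℝ} {D : ℤ} {l : ℕ} {ι : Type} {S S' : Finset ι} {z : ι → ℤ√D} {ee A B t : ι → ℕ}
    {Q : Ideal (ℤ√D)} (h : ElFac X E D l S z ee A B t Q) (hS : S' ⊆ S) : ElFac X E D l S' z ee A B t Q where
  hl := h.hl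
  hE := h.hE
  hEX := h.hEX
  fac := fun e he => h.fac e (hS he)
  oA := fun e he => h.oA e (hS he)
  oB := fun e he => h.oB e (hS he)
  ot := fun e he => h.ot e (hS he)
  AB := fun e he => h.AB e (hS he)
  At := fun e he => h.At e (hS he)
  Bt := fun e he => h.Bt e (hS he)
  tsq := fun e he => h.tsq e (hS he)
  tlo := fun e he => h.tlo e (hS he)
  thi := fun e he => h.thi e (hS he)
  two := fun e he => h.two e (hS he)

/-- norm coprime to `D f` -/
theorem ElCls.copDf {X θ : ℝ} {D : ℤ} {f : ℕ} {ι : Type} {S : Finset ι} {z : ι → ℤ√D} (h : ElCls X θ D f S z)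
    {e : ι} (he : e ∈ S) : IsCoprime (z e).norm (D * f) := by
  have h1 := h.cop e he
  have h2 : IsCoprime (z e).norm D := h1.of_mul_right_right
  have h3 : IsCoprime (z e).norm ((z e).im ^ 2) := h1.of_mul_right_left
  have h4 : IsCoprime (z e).norm (z e).im := (IsCoprime.pow_right_iff (by norm_num)).1 h3
  have h5 : IsCoprime (z e).norm (f : ℤ) := h4.of_isCoprime_of_dvd_right (h.im_dvd e he)
  exact IsCoprime.mul_right h2 h5

theorem ElFac.span {X E θ : ℝ} {D : ℤ} {f l : ℕ} {ι : Type} {S : Finset ι} {z : ι → ℤ√D} {ee A B t : ι → ℕ}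
    {Q : Ideal (ℤ√D)} (hc : ElCls X θ D f S z) (h : ElFac X E D l S z ee A B t Q) {e : ι} (he : e ∈ S) :
    Ideal.span {z e} = Q * lbl (A e) (z e) * lbl (B e) (z e) * lbl (t e) (z e) ^ l := by
  rw [← h.two e he]
  exact span_el (z e) (hc.cop e he) (h.fac e he) (h.oA e he) (h.oB e he) (h.ot e he) (h.AB e he) (h.At e he)
    (h.Bt e he)

theorem ElFac.t_dvd {X E : ℝ} {D : ℤ} {l : ℕ} {ι : Type} {S : Finset ι} {z : ι → ℤ√D} {ee A B t : ι → ℕ}
    {Q : Ideal (ℤ√D)} (h : ElFac X E D l S z ee A B t Q) {e : ι} (he : e ∈ S) : (t e : ℤ) ∣ (z e).norm := by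
  refine Int.natCast_dvd.mpr ?_
  rw [h.fac e he]
  have := h.hl
  exact Dvd.dvd.mul_left (dvd_pow_self _ (by omega)) _

theorem ElFac.A_dvd {X E : ℝ} {D : ℤ} {l : ℕ} {ι : Type} {S : Finset ι} {z : ι → ℤ√D} {ee A B t : ι → ℕ}
    {Q : Ideal (ℤ√D)} (h : ElFac X E D l S z ee A B t Q) {e : ι} (he : e ∈ S) : (A e : ℤ) ∣ (z e).norm := by
  refine Int.natCast_dvd.mpr ?_
  rw [h.fac e he]
  exact Dvd.dvd.mul_right (Dvd.dvd.mul_right (Dvd.dvd.mul_left (dvd_refl _) _) _) _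

theorem ElFac.B_dvd {X E : ℝ} {D : ℤ} {l : ℕ} {ι : Type} {S : Finset ι} {z : ι → ℤ√D} {ee A B t : ι → ℕ}
    {Q : Ideal (ℤ√D)} (h : ElFac X E D l S z ee A B t Q) {e : ι} (he : e ∈ S) : (B e : ℤ) ∣ (z e).norm := by
  refine Int.natCast_dvd.mpr ?_
  rw [h.fac e he]
  exact Dvd.dvd.mul_right (Dvd.dvd.mul_left (dvd_refl _) _) _

theorem ElFac.root {X E θ : ℝ} {D : ℤ} {f l : ℕ} {ι : Type} {S : Finset ι} {z : ι → ℤ√D} {ee A B t : ι → ℕ}
    {Q : Ideal (ℤ√D)} (hc : ElCls X θ D f S z) (h : ElFac X E D l S z ee A B t Q) :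
    ∃ r : ι → ℤ, ∀ e ∈ S, (t e : ℤ) ∣ r e ^ 2 - D ∧ lbl (t e) (z e) = idl D (t e) (r e) := by
  classical
  have hroot : ∀ e, ∃ r : ℤ, e ∈ S → ((t e : ℕ) : ℤ) ∣ r ^ 2 - D ∧ lbl (t e) (z e) = idl D (t e) r := by
    intro e
    by_cases he : e ∈ S
    · obtain ⟨r, h1, -, h3⟩ := lbl_eq_idl (z e) (Odd.pos (h.ot e he)) (h.t_dvd he) (hc.cop e he)
      exact ⟨r, fun _ => ⟨h1, h3⟩⟩
    · exact ⟨0, fun h' => absurd h' he⟩
  choose r hr using hroot
  exact ⟨r, hr⟩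

/-- used in `ll_el` -/
theorem bridge_sq {X : ℝ} (h : 1 ≤ X) : X ≤ 2 * X ^ 2 := by
  have h1 : X ≤ X ^ 2 := le_self_pow₀ h (by norm_num)
  have h2 : 0 ≤ X ^ 2 := sq_nonneg X
  linarith

/-- used in `ll_el` -/
theorem bridge_add (C1 C2 a b : ℝ) (h : 0 < C1 * (a * b)) : C2 * (a * b) ≤ (C1 + C2) * a * b := by
  have h1 : (C1 + C2) * a * b = C1 * (a * b) + C2 * (a * b) := by ring
  linarith

/-- lattice lemma for comparable elements with the same labels `Q`, `IA`, `IB` -/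
theorem ll_el (ε : ℝ) (hε : 0 < ε) (L : ℕ) : ∃ C : ℝ, 0 < C ∧
    ∀ (X E θ : ℝ) (D : ℤ) (f l : ℕ) (ι : Type) (S : Finset ι) (z : ι → ℤ√D) (ee A B t : ι → ℕ)
      (Q IA IB : Ideal (ℤ√D)), l ≤ L → ElCls X θ D f S z → ElFac X E D l S z ee A B t Q →
      (∀ e ∈ S, lbl (A e) (z e) = IA) → (∀ e ∈ S, lbl (B e) (z e) = IB) →
      (∀ e ∈ S, ∀ e' ∈ S, lbl (t e) (z e) = lbl (t e') (z e') → e = e') →
      (S.card : ℝ) ≤ C * X ^ ε * (if l = 1 then 1 else √((|D| : ℤ) : ℝ)) *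
        (1 + θ * E / ((f : ℝ) * √((|D| : ℤ) : ℝ))) := by
  classical
  obtain ⟨C1, hC1, H1⟩ := ll_lemma (ε / 2) (by positivity) L 1000 (by norm_num)
  obtain ⟨C2, hC2, H2⟩ := ll_one (ε / 2) (by positivity) 1000 (by norm_num)
  refine ⟨(C1 + C2) * 2 ^ (ε / 2), by positivity, ?_⟩
  intro X E θ D f l ι S z ee A B t Q IA IB hlL hc hf hA hB hinj
  have hX0 : (0 : ℝ) < X := lt_of_lt_of_le one_pos hc.hX
  have hE0 : (0 : ℝ) < E := lt_of_lt_of_le one_pos hf.hE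
  have hlast : (0 : ℝ) ≤ 1 + θ * E / ((f : ℝ) * √((|D| : ℤ) : ℝ)) := by
    have := hc.hθ
    positivity
  rcases S.eq_empty_or_nonempty with hS | ⟨c0, hc0⟩
  · rw [hS, Finset.card_empty, Nat.cast_zero]
    have : (0 : ℝ) ≤ (if l = 1 then (1 : ℝ) else √((|D| : ℤ) : ℝ)) := by
      split_ifs <;> positivity
    positivity
  obtain ⟨r, hr⟩ := ElFac.root hc hf
  have hdata : LLData 1000 (2 * X ^ 2) D f l E θ S (fun e => z e * star (z c0)) t (fun _ => 1) r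
      (Q * IA * IB * Ideal.span {star (z c0)}) := by
    have hXX : X ≤ 2 * X ^ 2 := bridge_sq hc.hX
    refine ⟨hc.hX.trans hXX, hc.hD, hc.hD1, hc.hDX.trans hXX, hc.hf, hc.hfX.trans hXX, hf.hl, hf.hE,
      hf.hEX.trans hXX, hc.hθ, hc.hθ1, ?_, ?_, ?_, fun _ _ => le_refl 1, hf.ot, ?_, fun e he => (hr e he).1, hf.tlo,
      hf.thi, ?_, fun e he => (hc.br he hc0).1, ?_, fun e he => (hc.br he hc0).2, ?_⟩
    · intro e he
      simp only [Zsqrtd.im_mul, Zsqrtd.im_star, Zsqrtd.re_star]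
      exact dvd_add (Dvd.dvd.mul_left (dvd_neg.2 (hc.im_dvd c0 hc0)) _) (Dvd.dvd.mul_right (hc.im_dvd e he) _)
    · intro e he h0
      have : (z e * star (z c0)).norm = 0 := by rw [h0]; exact Zsqrtd.norm_zero
      rw [Zsqrtd.norm_mul, Zsqrtd.norm_conj] at this
      exact (mul_ne_zero (hc.n0 e he) (hc.n0 c0 hc0)) this
    · intro e he
      simp only [Zsqrtd.norm_mul, Zsqrtd.norm_conj]
      exact IsCoprime.mul_left (hc.copDf he).of_mul_right_right (hc.copDf hc0).of_mul_right_right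
    · intro e he
      exact (hc.copDf he).of_isCoprime_of_dvd_left (hf.t_dvd he)
    · intro e he
      have h1 := hf.span hc he
      rw [hA e he, hB e he, (hr e he).2] at h1
      have h2 : Ideal.span {z e * star (z c0)} = Ideal.span {z e} * Ideal.span {star (z c0)} :=
        (Ideal.span_singleton_mul_span_singleton _ _).symm
      rw [h2, h1, Nat.cast_one, Ideal.span_singleton_one, ← Ideal.one_eq_top]
      ring
    · intro e he
      have h1 : (hh (z e * star (z c0)) : ℤ) ≤ 2 * hh (z e) * hh (z c0) := by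
        have := hh_mul (z e) (star (z c0))
        rwa [hh_star] at this
      have h2 : ((hh (z e * star (z c0)) : ℤ) : ℝ) ≤ 2 * ((hh (z e) : ℤ) : ℝ) * ((hh (z c0) : ℤ) : ℝ) := by
        exact_mod_cast h1
      have h3 := hc.size e he
      have h4 := hc.size c0 hc0
      have h5 : (0 : ℝ) ≤ ((hh (z c0) : ℤ) : ℝ) := by
        exact_mod_cast le_trans (abs_nonneg _) (norm_le_hh (z c0))
      calc ((hh (z e * star (z c0)) : ℤ) : ℝ) ≤ 2 * ((hh (z e) : ℤ) : ℝ) * ((hh (z c0) : ℤ) : ℝ) := h2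
        _ ≤ 2 * X * X := by
            refine mul_le_mul (by linarith) h4 h5 (by positivity)
        _ = 2 * X ^ 2 := by ring
    · intro e he e' he' h
      refine hinj e he e' he' ?_
      rw [(hr e he).2, (hr e' he').2, h]
  have hpow : (2 * X ^ 2 : ℝ) ^ (ε / 2) = 2 ^ (ε / 2) * X ^ ε := by
    rw [Real.mul_rpow (by norm_num) (by positivity), ← Real.rpow_natCast X 2, ← Real.rpow_mul hX0.le]
    congr 2
    push_cast
    ring
  have h2p : (0 : ℝ) < 2 ^ (ε / 2) := by positivity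
  have hXp : (0 : ℝ) < X ^ ε := by positivity
  by_cases hl : l = 1
  · subst hl
    have h := H2 _ _ _ _ _ _ _ _ _ _ _ _ hdata
    rw [hpow] at h
    rw [if_pos rfl]
    refine h.trans ?_
    have : C2 * (2 ^ (ε / 2) * X ^ ε) ≤ (C1 + C2) * 2 ^ (ε / 2) * X ^ ε * 1 := by
      rw [mul_one]
      exact bridge_add C1 C2 _ _ (mul_pos hC1 (mul_pos h2p hXp))
    exact mul_le_mul_of_nonneg_right this hlast
  · have h := H1 _ _ _ _ _ _ _ _ _ _ _ _ _ hlL hdata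
    rw [hpow] at h
    rw [if_neg hl]
    refine h.trans ?_
    have : C1 * (2 ^ (ε / 2) * X ^ ε) ≤ (C1 + C2) * 2 ^ (ε / 2) * X ^ ε := by
      rw [add_comm]
      exact bridge_add C2 C1 _ _ (mul_pos hC2 (mul_pos h2p hXp))
    exact mul_le_mul_of_nonneg_right (mul_le_mul_of_nonneg_right this (Real.sqrt_nonneg _)) hlast

open scoped Classical in
/-- walk theorem for comparable elements, with the passage to large minimal degree: `NA`, `NB` bound the numbers of labels,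
`bA`, `bB` the numbers of bad neighbours, `μA`, `μB` the multiplicities -/
theorem walk_el (ε : ℝ) (hε : 0 < ε) (L h : ℕ) (hh1 : 1 ≤ h) : ∃ C : ℝ, 0 < C ∧
    ∀ (X E θ NA NB Z bA bB μA μB : ℝ) (D : ℤ) (f l : ℕ) (ι : Type) (S : Finset ι) (z : ι → ℤ√D) (ee A B t : ι → ℕ)
      (Q : Ideal (ℤ√D)), l ≤ L → ElCls X θ D f S z → ElFac X E D l S z ee A B t Q → 1 ≤ Z → 0 ≤ bA → 0 ≤ bB →
      1 ≤ μA → 1 ≤ μB → 1 ≤ NA → 1 ≤ NB →
      (((S.image (fun e => lbl (A e) (z e))).card : ℝ) ≤ NA) → (((S.image (fun e => lbl (B e) (z e))).card : ℝ) ≤ NB) →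
      (∀ e ∈ S, ∀ e0 ∈ S, ((S.filter (fun e' => lbl (A e') (z e') = lbl (A e) (z e) ∧
        Z < (Nat.gcd (t e') (t e0) : ℝ))).card : ℝ) ≤ bA) →
      (∀ e ∈ S, ∀ e0 ∈ S, ((S.filter (fun e' => lbl (B e') (z e') = lbl (B e) (z e) ∧
        Z < (Nat.gcd (t e') (t e0) : ℝ))).card : ℝ) ≤ bB) →
      (∀ e ∈ S, ((S.filter (fun e' => lbl (A e') (z e') = lbl (A e) (z e) ∧
        lbl (t e') (z e') = lbl (t e) (z e))).card : ℝ) ≤ μA) →
      (∀ e ∈ S, ((S.filter (fun e' => lbl (B e') (z e') = lbl (B e) (z e) ∧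
        lbl (t e') (z e') = lbl (t e) (z e))).card : ℝ) ≤ μB) →
      (S.card : ℝ) ≤ 4 * NA * (1 + 2 * h * bA) ∨ (S.card : ℝ) ≤ 4 * NB * (1 + 2 * h * bB) ∨
      ((S.card : ℝ) / (4 * NA)) ^ ((h + 1) / 2) * ((S.card : ℝ) / (4 * NB)) ^ (h / 2) ≤
        C * X ^ ε * Z ^ (h ^ 3) * μA ^ ((h + 1) / 2) * μB ^ (h / 2) * (if Even h then NA else NB) *
        (if l = 1 then 1 else √((|D| : ℤ) : ℝ)) * (1 + θ * E ^ h / ((f : ℝ) * √((|D| : ℤ) : ℝ))) := by
  obtain ⟨C, hC, H⟩ := walk_theorem ε hε L h hh1 1000 (by norm_num)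
  refine ⟨C, hC, ?_⟩
  intro X E θ NA NB Z bA bB μA μB D f l ι S z ee A B t Q hlL hc hf hZ hbA hbB hμA hμB hNA hNB hiA hiB hbadA hbadB
    hmulA hmulB
  have hX0 : (0 : ℝ) < X := lt_of_lt_of_le one_pos hc.hX
  have hE0 : (0 : ℝ) < E := lt_of_lt_of_le one_pos hf.hE
  have hh0 : (0 : ℝ) < (h : ℝ) := by exact_mod_cast hh1
  by_cases h1 : (S.card : ℝ) ≤ 4 * NA * (1 + 2 * h * bA)
  · exact Or.inl h1
  by_cases h2 : (S.card : ℝ) ≤ 4 * NB * (1 + 2 * h * bB)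
  · exact Or.inr (Or.inl h2)
  refine Or.inr (Or.inr ?_)
  push Not at h1 h2
  have hNA0 : (0 : ℝ) < 4 * NA := by linarith
  have hNB0 : (0 : ℝ) < 4 * NB := by linarith
  have hdA : 1 + 2 * h * bA < (S.card : ℝ) / (4 * NA) := by
    rw [lt_div_iff₀ hNA0]
    linarith
  have hdB : 1 + 2 * h * bB < (S.card : ℝ) / (4 * NB) := by
    rw [lt_div_iff₀ hNB0]
    linarith
  have hSne : S.Nonempty := by
    rw [← Finset.card_pos]
    have h3 : (0 : ℝ) < (S.card : ℝ) := lt_of_le_of_lt (by positivity) h1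
    exact_mod_cast h3
  obtain ⟨S', hS', hne, hA', hB'⟩ := min_degree S (fun e => lbl (A e) (z e)) (fun e => lbl (B e) (z e)) hSne
  obtain ⟨r, hr⟩ := ElFac.root hc hf
  have hc' := hc.sub hS'
  have hf' := hf.sub hS'
  have hpA : (0 : ℝ) < ((S.image (fun e => lbl (A e) (z e))).card : ℝ) := by
    exact_mod_cast Finset.card_pos.2 (hSne.image _)
  have hpB : (0 : ℝ) < ((S.image (fun e => lbl (B e) (z e))).card : ℝ) := by
    exact_mod_cast Finset.card_pos.2 (hSne.image _)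
  have hdata : WalkData 1000 X D f l E θ h ((S.card : ℝ) / (4 * NA)) ((S.card : ℝ) / (4 * NB)) Z μA μB S' z t
      (fun _ => 1) r Q (fun e => lbl (A e) (z e)) (fun e => lbl (B e) (z e)) A B := by
    refine ⟨hc.hX, hc.hD, hc.hD1, hc.hDX, hc.hf, hc.hfX, hf.hl, hf.hE, hf.hEX, hc.hθ, hc.hθ1, hZ, hμA, hμB, ?_, ?_,
      hne, hc'.im_dvd, ?_, ?_, fun _ _ => le_refl 1, hf'.tsq, hf'.ot, ?_, fun e he => (hr e (hS' he)).1, hf'.tlo,
      hf'.thi, ?_, ?_, ?_, fun e he e' he' => (hc'.br he he').1, hc'.size, fun e he e' he' => (hc'.br he he').2,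
      ?_, ?_, ?_, ?_, ?_, ?_⟩
    · have : 0 ≤ 2 * (h : ℝ) * bA := by positivity
      linarith
    · have : 0 ≤ 2 * (h : ℝ) * bB := by positivity
      linarith
    · intro e he h0
      apply hc'.n0 e he
      rw [h0]
      exact Zsqrtd.norm_zero
    · intro e he
      exact (hc'.copDf he).of_mul_right_right
    · intro e he
      exact (hc'.copDf he).of_isCoprime_of_dvd_left (hf'.t_dvd he)
    · intro e he
      exact ⟨Odd.pos (hf'.oA e he), lbl_mul_cj (z e) (hf'.oA e he) (hf'.A_dvd he) (hc'.cop e he)⟩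
    · intro e he
      exact ⟨Odd.pos (hf'.oB e he), lbl_mul_cj (z e) (hf'.oB e he) (hf'.B_dvd he) (hc'.cop e he)⟩
    · intro e he
      have h3 := hf'.span hc' he
      rw [(hr e (hS' he)).2] at h3
      rw [h3, Nat.cast_one, Ideal.span_singleton_one, ← Ideal.one_eq_top, one_mul]
    · intro e he
      refine le_trans ?_ (hA' e he)
      refine div_le_div_of_nonneg_left (Nat.cast_nonneg _) (mul_pos (by norm_num) hpA) ?_
      exact mul_le_mul_of_nonneg_left hiA (by norm_num)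
    · intro e he
      refine le_trans ?_ (hB' e he)
      refine div_le_div_of_nonneg_left (Nat.cast_nonneg _) (mul_pos (by norm_num) hpB) ?_
      exact mul_le_mul_of_nonneg_left hiB (by norm_num)
    · intro e he e0 he0
      have h3 := hbadA e (hS' he) e0 (hS' he0)
      have h4 : ((S'.filter (fun e' => lbl (A e') (z e') = lbl (A e) (z e) ∧
        Z < (Nat.gcd (t e') (t e0) : ℝ))).card : ℝ) ≤ ((S.filter (fun e' => lbl (A e') (z e') = lbl (A e) (z e) ∧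
        Z < (Nat.gcd (t e') (t e0) : ℝ))).card : ℝ) := by
        exact_mod_cast Finset.card_le_card (Finset.filter_subset_filter _ hS')
      refine (h4.trans h3).trans ?_
      rw [le_div_iff₀ (by positivity)]
      linarith
    · intro e he e0 he0
      have h3 := hbadB e (hS' he) e0 (hS' he0)
      have h4 : ((S'.filter (fun e' => lbl (B e') (z e') = lbl (B e) (z e) ∧
        Z < (Nat.gcd (t e') (t e0) : ℝ))).card : ℝ) ≤ ((S.filter (fun e' => lbl (B e') (z e') = lbl (B e) (z e) ∧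
        Z < (Nat.gcd (t e') (t e0) : ℝ))).card : ℝ) := by
        exact_mod_cast Finset.card_le_card (Finset.filter_subset_filter _ hS')
      refine (h4.trans h3).trans ?_
      rw [le_div_iff₀ (by positivity)]
      linarith
    · intro e he
      refine le_trans ?_ (hmulA e (hS' he))
      have : (S'.filter (fun e' => lbl (A e') (z e') = lbl (A e) (z e) ∧ idl D (t e') (r e') = idl D (t e) (r e))) ⊆
          (S.filter (fun e' => lbl (A e') (z e') = lbl (A e) (z e) ∧ lbl (t e') (z e') = lbl (t e) (z e))) := by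
        intro e' he'
        rw [Finset.mem_filter] at he' ⊢
        refine ⟨hS' he'.1, he'.2.1, ?_⟩
        rw [(hr e' (hS' he'.1)).2, (hr e (hS' he)).2]
        exact he'.2.2
      exact_mod_cast Finset.card_le_card this
    · intro e he
      refine le_trans ?_ (hmulB e (hS' he))
      have : (S'.filter (fun e' => lbl (B e') (z e') = lbl (B e) (z e) ∧ idl D (t e') (r e') = idl D (t e) (r e))) ⊆
          (S.filter (fun e' => lbl (B e') (z e') = lbl (B e) (z e) ∧ lbl (t e') (z e') = lbl (t e) (z e))) := by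
        intro e' he'
        rw [Finset.mem_filter] at he' ⊢
        refine ⟨hS' he'.1, he'.2.1, ?_⟩
        rw [(hr e' (hS' he'.1)).2, (hr e (hS' he)).2]
        exact he'.2.2
      exact_mod_cast Finset.card_le_card this
  have hmain := H _ _ _ _ _ _ _ _ _ _ _ _ _ _ _ _ _ _ _ _ _ _ hlL hdata
  refine hmain.trans ?_
  have hlast : (0 : ℝ) ≤ 1 + θ * E ^ h / ((f : ℝ) * √((|D| : ℤ) : ℝ)) := by
    have := hc.hθ
    positivity
  have hif : (0 : ℝ) ≤ (if l = 1 then (1 : ℝ) else √((|D| : ℤ) : ℝ)) := by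
    split_ifs <;> positivity
  have hcard : (((if Even h then (S'.image (fun e => lbl (A e) (z e))).card
      else (S'.image (fun e => lbl (B e) (z e))).card : ℕ) : ℕ) : ℝ) ≤ (if Even h then NA else NB) := by
    split_ifs
    · refine le_trans ?_ hiA
      exact_mod_cast Finset.card_le_card (Finset.image_subset_image hS')
    · refine le_trans ?_ hiB
      exact_mod_cast Finset.card_le_card (Finset.image_subset_image hS')
  refine mul_le_mul_of_nonneg_right (mul_le_mul_of_nonneg_right (mul_le_mul_of_nonneg_left hcard ?_) hif) hlast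
  positivity

end Hp

end Pool.Agent.Lib.MP_d8bd92_nt
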