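import Pool.Agent.Lib.MP_d8bd92_nt.Hp.Bridge

set_option autoImplicit false

/-!
Bridge, second part: comparable elements from sets of pairs with the same second member.
-/

namespace Pool.Agent.Lib.MP_d8bd92_nt

namespace Hp

open Finset Pool.Agent.Lib.Szpiro

/-- pairs with the same second member `f ^ 2 D` and comparable first members -/
structure PCls (Z : ℝ) (D : ℤ) (f : ℕ) (S : Finset (ℤ × ℤ)) : Prop where
  hZ : 1 ≤ Z
  hD : Squarefree D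
  hD1 : D ≠ 1
  hf : 1 ≤ f
  eq : ∀ w ∈ S, w.2 = (f : ℤ) ^ 2 * D
  n1 : ∀ w ∈ S, w.1 ≠ 0
  cop : ∀ w ∈ S, IsCoprime w.1 w.2
  sq : ∀ w ∈ S, ∃ g : ℤ, w.1 + w.2 = g ^ 2
  b1 : ∀ w ∈ S, (w.1.natAbs : ℝ) ≤ Z
  b2 : ∀ w ∈ S, (w.2.natAbs : ℝ) ≤ Z
  dy : ∀ w ∈ S, ∀ w' ∈ S, w.1.natAbs ≤ 2 * w'.1.natAbs
  sg : ∀ w ∈ S, ∀ w' ∈ S, (0 < w.1 ↔ 0 < w'.1)

theorem PCls.sub {Z : ℝ} {D : ℤ} {f : ℕ} {S S' : Finset (ℤ × ℤ)} (h : PCls Z D f S) (hS : S' ⊆ S) :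
    PCls Z D f S' where
  hZ := h.hZ
  hD := h.hD
  hD1 := h.hD1
  hf := h.hf
  eq := fun w hw => h.eq w (hS hw)
  n1 := fun w hw => h.n1 w (hS hw)
  cop := fun w hw => h.cop w (hS hw)
  sq := fun w hw => h.sq w (hS hw)
  b1 := fun w hw => h.b1 w (hS hw)
  b2 := fun w hw => h.b2 w (hS hw)
  dy := fun w hw w' hw' => h.dy w (hS hw) w' (hS hw')
  sg := fun w hw w' hw' => h.sg w (hS hw) w' (hS hw')

theorem PCls.norm {Z : ℝ} {D : ℤ} {f : ℕ} {S : Finset (ℤ × ℤ)} (h : PCls Z D f S) {w : ℤ × ℤ} (hw : w ∈ S) :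
    (el D w f).norm = w.1 := el_norm (h.sq w hw) (h.eq w hw)

/-- the elements of a class of pairs are comparable -/
theorem PCls.cls {Z : ℝ} {D : ℤ} {f : ℕ} {S : Finset (ℤ × ℤ)} (h : PCls Z D f S) (hne : S.Nonempty) :
    ∃ θ : ℝ, ElCls (3 * Z) θ D f S (fun w => el D w f) ∧ ∀ M : ℝ, 0 < M →
      (∀ w ∈ S, M ≤ max (w.1.natAbs : ℝ) (w.2.natAbs : ℝ)) → θ / ((f : ℝ) * √((|D| : ℤ) : ℝ)) ≤ 8 / √M := by
  have hf1 : (1 : ℝ) ≤ (f : ℝ) := by exact_mod_cast h.hf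
  have hf1' : (1 : ℤ) ≤ (f : ℤ) := by exact_mod_cast h.hf
  have hD0 : D ≠ 0 := h.hD.ne_zero
  have hDa : (1 : ℤ) ≤ |D| := Int.one_le_abs hD0
  have hDr : (1 : ℝ) ≤ ((|D| : ℤ) : ℝ) := by exact_mod_cast hDa
  have habs : ∀ w ∈ S, (w.2.natAbs : ℝ) = (f : ℝ) ^ 2 * ((|D| : ℤ) : ℝ) := by
    intro w hw
    rw [Nat.cast_natAbs, h.eq w hw, abs_mul, abs_pow, abs_of_nonneg (by positivity : (0 : ℤ) ≤ (f : ℤ))]
    push_cast
    ring
  have hn2 : ∀ w ∈ S, w.2 ≠ 0 := by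
    intro w hw
    rw [h.eq w hw]
    exact mul_ne_zero (by positivity) hD0
  obtain ⟨w0, hw0⟩ := hne
  obtain ⟨θ, hθ0, hθ1, hθ⟩ := theta_exists S (fun w hw => ⟨h.n1 w hw, hn2 w hw⟩) (by
    intro w hw w' hw'
    refine ⟨h.dy w hw w' hw', ?_⟩
    rw [h.eq w hw, h.eq w' hw']
    omega)
  have hb := h.b2 w0 hw0
  rw [habs w0 hw0] at hb
  refine ⟨θ, ⟨by linarith [h.hZ], h.hD, h.hD1, ?_, h.hf, ?_, hθ0, hθ1, fun w _ => gg_nonneg w, ?_, fun _ _ => dvd_refl _,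
    ?_, fun w hw => el_cop (h.sq w hw) (h.eq w hw) (h.cop w hw), ?_, ?_, ?_, ?_, ?_⟩, ?_⟩
  · have h1 : (1 : ℝ) ≤ (f : ℝ) ^ 2 := one_le_pow₀ hf1
    have h2 : ((|D| : ℤ) : ℝ) ≤ (f : ℝ) ^ 2 * ((|D| : ℤ) : ℝ) := le_mul_of_one_le_left (by linarith) h1
    linarith [h.hZ]
  · have h1 : (f : ℝ) ≤ (f : ℝ) ^ 2 := le_self_pow₀ hf1 (by norm_num)
    have h2 : (f : ℝ) ^ 2 ≤ (f : ℝ) ^ 2 * ((|D| : ℤ) : ℝ) := le_mul_of_one_le_right (by positivity) hDr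
    linarith [h.hZ]
  · intro w _
    show (0 : ℤ) < (f : ℤ)
    omega
  · intro w hw
    simp only [h.norm hw]
    exact h.n1 w hw
  · intro w hw w' hw'
    simp only [h.norm hw, h.norm hw']
    rw [← Nat.cast_natAbs, ← Nat.cast_natAbs]
    exact_mod_cast h.dy w hw w' hw'
  · intro w _ w' _
    show (((f : ℤ) : ℤ) : ℝ) ≤ 2 * (((f : ℤ) : ℤ) : ℝ)
    push_cast
    linarith
  · intro w hw w' hw'
    simp only [h.norm hw, h.norm hw']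
    exact h.sg w hw w' hw'
  · intro w hw
    simp only [h.norm hw]
    have h1 := (hθ w hw).1
    have h2 : ((|D| * (el D w f).im ^ 2 : ℤ) : ℝ) = (w.2.natAbs : ℝ) := by
      rw [habs w hw]
      show ((|D| * (f : ℤ) ^ 2 : ℤ) : ℝ) = _
      push_cast
      ring
    rw [h2, ← Nat.cast_natAbs]
    exact h1
  · intro w hw
    have h1 : hh (el D w f) = (w.1 + w.2) + |D| * (f : ℤ) ^ 2 := by
      show gg w ^ 2 + |D| * (f : ℤ) ^ 2 = _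
      rw [gg_sq (h.sq w hw)]
    rw [h1]
    have h2 := h.b1 w hw
    have h3 := h.b2 w hw
    have h4 := habs w hw
    have h5 : (w.1 : ℝ) ≤ (w.1.natAbs : ℝ) := by
      rw [Nat.cast_natAbs]
      exact_mod_cast le_abs_self w.1
    have h6 : (w.2 : ℝ) ≤ (w.2.natAbs : ℝ) := by
      rw [Nat.cast_natAbs]
      exact_mod_cast le_abs_self w.2
    push_cast
    push_cast at h4
    nlinarith
  · intro M hM hMw
    have h1 := (hθ w0 hw0).2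
    have h2 := hMw w0 hw0
    rw [habs w0 hw0] at h1 h2
    have h3 : θ ^ 2 * M ≤ 64 * ((f : ℝ) ^ 2 * ((|D| : ℤ) : ℝ)) := by
      refine le_trans ?_ h1
      exact mul_le_mul_of_nonneg_left h2 (by positivity)
    have hs : 0 < √((|D| : ℤ) : ℝ) := Real.sqrt_pos.2 (by linarith)
    have hsM : 0 < √M := Real.sqrt_pos.2 hM
    rw [div_le_div_iff₀ (by positivity) hsM]
    have h4 : (θ * √M) ^ 2 ≤ (8 * ((f : ℝ) * √((|D| : ℤ) : ℝ))) ^ 2 := by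
      have e1 : (θ * √M) ^ 2 = θ ^ 2 * M := by rw [mul_pow, Real.sq_sqrt hM.le]
      have e2 : (8 * ((f : ℝ) * √((|D| : ℤ) : ℝ))) ^ 2 = 64 * ((f : ℝ) ^ 2 * ((|D| : ℤ) : ℝ)) := by
        rw [mul_pow, mul_pow, Real.sq_sqrt (by linarith)]
        norm_num
      rw [e1, e2]
      exact h3
    exact (sq_le_sq₀ (by positivity) (by positivity)).1 h4

end Hp

end Pool.Agent.Lib.MP_d8bd92_nt
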