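import Pool.Agent.Lib.MP_d8bd92_nt.Hp.Asm
import Pool.Agent.Lib.MP_d8bd92_nt.TwRad

set_option autoImplicit false

/-! Case lists: two ties. -/

namespace Pool.Agent.Lib.MP_d8bd92_nt

namespace Hp

open Finset Pool.Agent.Lib.Szpiro

/-! ### squarefree part and size -/

theorem sf_le_rd {D a : ℕ} (ha : a ≠ 0) (hD : Squarefree D) (h : D ∣ a) : D ≤ rd a := by
  have h1 : ∏ p ∈ D.primeFactors, p = D := Nat.prod_primeFactors_of_squarefree hD
  calc D = rd D := h1.symm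
    _ ≤ rd a := rd_mono (Nat.primeFactors_mono h ha)

/-- the squarefree part of `± a b ^ 2` is at most `rad a` -/
theorem sfLe_of_eq (y : ℤ) (hy : y ≠ 0) (a b : ℕ) (h : y.natAbs = a * b ^ 2) (Z : ℝ) (hZ : (rd a : ℝ) ≤ Z) : SfLe Z y := by
  have ha : a ≠ 0 := by
    rintro rfl
    simp at h
    exact hy h
  obtain ⟨D, f, hD0, hf0, hfD, hD⟩ := Nat.sq_mul_squarefree_of_pos (Nat.pos_of_ne_zero ha)
  have hDa : D ∣ a := ⟨f ^ 2, by rw [← hfD]; ring⟩
  have hDr : D ≤ rd a := sf_le_rd ha hD hDa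
  have hs : (y.sign * (D : ℤ)).natAbs = D := by
    rw [Int.natAbs_mul, Int.natAbs_natCast, Int.natAbs_sign_of_ne_zero hy, one_mul]
  refine ⟨y.sign * D, f * b, ?_, ?_, ?_⟩
  · rw [← Int.squarefree_natAbs, hs]
    exact hD
  · have h1 : y = y.sign * (y.natAbs : ℤ) := (Int.sign_mul_natAbs y).symm
    calc y = y.sign * (y.natAbs : ℤ) := h1
      _ = y.sign * ((f ^ 2 * D * b ^ 2 : ℕ) : ℤ) := by rw [h, ← hfD]
      _ = _ := by push_cast; ring
  · have h2 : |y.sign * (D : ℤ)| = (D : ℤ) := by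
      rw [Int.abs_eq_natAbs, hs]
    rw [h2]
    calc (((D : ℕ) : ℤ) : ℝ) = (D : ℝ) := by norm_cast
      _ ≤ (rd a : ℝ) := by exact_mod_cast hDr
      _ ≤ Z := hZ

theorem rd_prod_primes {ι : Type} (I : Finset ι) (p : ι → ℕ) (hp : ∀ i ∈ I, (p i).Prime) : rd (∏ i ∈ I, p i) ≤ ∏ i ∈ I, p i := by
  apply rd_le
  rw [Finset.prod_ne_zero_iff]
  exact fun i hi => (hp i hi).ne_zero

/-- squarefree part of `± w ∏ p_i ^ (l_i)` -/
theorem sfLe_prod {ι : Type} (I : Finset ι) (p l : ι → ℕ) (hp : ∀ i ∈ I, (p i).Prime) (w : ℕ) (y : ℤ) (hy : y ≠ 0)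
    (h : y.natAbs = w * ∏ i ∈ I, p i ^ l i) (Y a b : ℝ) (hY : 0 < Y) (hw : (rd w : ℝ) ≤ Y ^ a)
    (hpb : ∀ i ∈ I, (p i : ℝ) ≤ Y ^ b) (Z : ℝ)
    (hZ : Y ^ (a + ((I.filter (fun i => Odd (l i))).card : ℝ) * b) ≤ Z) : SfLe Z y := by
  classical
  have hw0 : w ≠ 0 := by
    rintro rfl
    simp at h
    exact hy h
  have hP0 : ∏ i ∈ I.filter (fun i => Odd (l i)), p i ≠ 0 := by
    rw [Finset.prod_ne_zero_iff]
    intro i hi
    exact (hp i (Finset.mem_filter.mp hi).1).ne_zero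
  apply sfLe_of_eq y hy (w * ∏ i ∈ I.filter (fun i => Odd (l i)), p i) (∏ i ∈ I, p i ^ (l i / 2))
  · rw [h, mul_assoc]
    congr 1
    rw [Finset.prod_filter, ← Finset.prod_pow, ← Finset.prod_mul_distrib]
    apply Finset.prod_congr rfl
    intro i _
    split_ifs with h1
    · obtain ⟨k, hk⟩ := h1
      have h2 : l i / 2 = k := by omega
      rw [h2, hk, ← pow_mul]
      ring
    · rw [Nat.not_odd_iff_even] at h1
      obtain ⟨k, hk⟩ := h1
      have h2 : l i / 2 = k := by omega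
      rw [h2, hk, ← pow_mul, one_mul]
      ring
  · refine le_trans ?_ hZ
    calc (rd (w * ∏ i ∈ I.filter (fun i => Odd (l i)), p i) : ℝ)
        ≤ (rd w : ℝ) * (rd (∏ i ∈ I.filter (fun i => Odd (l i)), p i) : ℝ) := by
          exact_mod_cast rd_mul_le _ _ hw0 hP0
      _ ≤ (rd w : ℝ) * ((∏ i ∈ I.filter (fun i => Odd (l i)), p i : ℕ) : ℝ) := by
          gcongr
          exact rd_prod_primes _ _ (fun i hi => hp i (Finset.mem_filter.mp hi).1)
      _ ≤ Y ^ a * (Y ^ b) ^ (I.filter (fun i => Odd (l i))).card := by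
          gcongr
          push_cast
          calc ∏ i ∈ I.filter (fun i => Odd (l i)), (p i : ℝ) ≤ ∏ i ∈ I.filter (fun i => Odd (l i)), Y ^ b := by
                apply Finset.prod_le_prod
                · intro i _; positivity
                · intro i hi
                  exact hpb i (Finset.mem_filter.mp hi).1
            _ = _ := by rw [Finset.prod_const]
      _ = Y ^ (a + ((I.filter (fun i => Odd (l i))).card : ℝ) * b) := by
          rw [← Real.rpow_natCast (Y ^ b), ← Real.rpow_mul hY.le, ← Real.rpow_add hY, mul_comm b]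

/-- squarefree part of a tie number -/
theorem tie_sf' (σ : ℝ) (hσ : 0 ≤ σ) (j : ℕ) (hj : 1 ≤ j) (l : Fin (2 * j) → ℕ) (Y : ℝ) (hY : 1 ≤ Y) (x : ℤ) (hx0 : x ≠ 0)
    (hx : IsTie σ j l Y x) :
    SfLe (Y ^ (((univ.filter (fun i => Odd (l i))).card : ℝ) / (4 * (j : ℝ)) + (2 * (j : ℝ) + 1) * σ)) x := by
  obtain ⟨w, p, h1, h2, h3, h4, h5, h6⟩ := hx
  apply sfLe_prod univ p l (fun i _ => h2 i) w x hx0 h1 Y σ (1 / (4 * (j : ℝ)) + σ) (zero_lt_one.trans_le hY) h5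
    (fun i _ => (h6 i).2)
  apply Real.rpow_le_rpow_of_exponent_le hY
  have h7 : ((univ.filter (fun i => Odd (l i))).card : ℝ) ≤ 2 * j := by
    have := Finset.card_filter_le (univ : Finset (Fin (2 * j))) (fun i => Odd (l i))
    rw [Finset.card_univ, Fintype.card_fin] at this
    exact_mod_cast this
  have h8 : ((univ.filter (fun i => Odd (l i))).card : ℝ) * σ ≤ 2 * j * σ := mul_le_mul_of_nonneg_right h7 hσ
  have h9 : ((univ.filter (fun i => Odd (l i))).card : ℝ) * (1 / (4 * (j : ℝ)) + σ) =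
    ((univ.filter (fun i => Odd (l i))).card : ℝ) / (4 * (j : ℝ)) + ((univ.filter (fun i => Odd (l i))).card : ℝ) * σ := by
    rw [mul_add, mul_one_div]
  rw [h9]
  linarith only [h8]

/-- size of a tie number -/
theorem tie_size' (σ : ℝ) (hσ : 0 ≤ σ) (j : ℕ) (hj : 1 ≤ j) (l : Fin (2 * j) → ℕ) (Y : ℝ) (hY : 1 ≤ Y) (x : ℤ) (hx0 : x ≠ 0)
    (hx : IsTie σ j l Y x) :
    Y ^ ((∑ i, (l i : ℝ)) / (4 * (j : ℝ)) - (∑ i, (l i : ℝ)) * σ) ≤ (x.natAbs : ℝ) := by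
  obtain ⟨w, p, h1, h2, h3, h4, h5, h6⟩ := hx
  have hY0 : 0 < Y := zero_lt_one.trans_le hY
  have hw0 : w ≠ 0 := by
    rintro rfl
    simp at h1
    exact hx0 h1
  have hw1 : (1 : ℝ) ≤ (w : ℝ) := by exact_mod_cast Nat.one_le_iff_ne_zero.mpr hw0
  have h7 : (∑ i, (l i : ℝ)) / (4 * (j : ℝ)) - (∑ i, (l i : ℝ)) * σ = ∑ i, (1 / (4 * (j : ℝ)) - σ) * (l i : ℝ) := by
    rw [← Finset.mul_sum, sub_mul, one_div_mul_eq_div, mul_comm σ]
  rw [h7, Real.rpow_sum_of_pos hY0]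
  calc ∏ i, Y ^ ((1 / (4 * (j : ℝ)) - σ) * (l i : ℝ)) ≤ ∏ i, ((p i : ℝ) ^ l i) := by
        apply Finset.prod_le_prod
        · exact fun i _ => Real.rpow_nonneg hY0.le _
        · intro i _
          rw [Real.rpow_mul hY0.le, Real.rpow_natCast]
          exact pow_le_pow_left₀ (Real.rpow_nonneg hY0.le _) (h6 i).1 _
    _ ≤ (w : ℝ) * ∏ i, ((p i : ℝ) ^ l i) :=
        le_mul_of_one_le_left (Finset.prod_nonneg (fun i _ => pow_nonneg (Nat.cast_nonneg _) _)) hw1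
    _ = (x.natAbs : ℝ) := by rw [h1]; push_cast; rfl

/-! ### few for a slightly negative `ε0` -/

/-- `Q σ` has few pairs in `PairSet K (-e)` for some positive `e`, `σ` -/
def FewN (K : ℝ) (Q : ℝ → ℝ → ℤ × ℤ → Prop) : Prop :=
  ∃ e σ : ℝ, 0 < e ∧ e ≤ 1 / 100 ∧ 0 < σ ∧ Few K (-e) (Q σ)

theorem few_anti (K ε0 ε0' : ℝ) (Q : ℝ → ℤ × ℤ → Prop) (h : ε0 ≤ ε0') (hF : Few K ε0 Q) : Few K ε0' Q := by
  obtain ⟨C, δ, hC, hδ, hb⟩ := hF
  refine ⟨C, δ, hC, hδ, fun Y hY P hP => hb Y hY P (fun w hw => ⟨?_, (hP w hw).2⟩)⟩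
  obtain ⟨a1, a2, a3, a4, a5, a6, a7, a8⟩ := (hP w hw).1
  exact ⟨a1, a2, a3, a4, a5, (Real.rpow_le_rpow_of_exponent_le hY (by linarith)).trans a6, a7, a8⟩

theorem fewN_of (K : ℝ) (Q : ℝ → ℝ → ℤ × ℤ → Prop) (h : ∃ σ : ℝ, 0 < σ ∧ Few K (-(1 / 100)) (Q σ)) : FewN K Q := by
  obtain ⟨σ, hσ, hF⟩ := h
  exact ⟨1 / 100, σ, by norm_num, le_rfl, hσ, hF⟩

theorem fewN_mono (K : ℝ) (Q Q' : ℝ → ℝ → ℤ × ℤ → Prop) (h : ∀ σ Y w, Q' σ Y w → Q σ Y w) (hF : FewN K Q) : FewN K Q' := by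
  obtain ⟨e, σ, he, he1, hσ, hF⟩ := hF
  exact ⟨e, σ, he, he1, hσ, few_mono' K _ _ _ (fun Y w hw => h σ Y w hw) hF⟩

/-! ### the two block theorems for pairs of ties -/

theorem div4_eq (a x : ℝ) : a / (4 * x) = a / (2 * x) / 2 := by
  rw [div_div]
  congr 1
  ring

/-- one positive factor for four bounds -/
theorem scale_ex (s1 s2 t σ0 : ℝ) (h1 : 0 ≤ s1) (h2 : 0 ≤ s2) (ht : 0 ≤ t) (h0 : 0 < σ0) :
    ∃ σ : ℝ, 0 < σ ∧ σ ≤ σ0 ∧ s1 * σ ≤ σ0 ∧ s2 * σ ≤ σ0 ∧ t * σ ≤ σ0 := by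
  have hS : 0 < 1 + s1 + s2 + t := by linarith
  have key : ∀ u : ℝ, u ≤ 1 + s1 + s2 + t → u * (σ0 / (1 + s1 + s2 + t)) ≤ σ0 := by
    intro u hu
    rw [mul_div_assoc', div_le_iff₀ hS, mul_comm σ0]
    exact mul_le_mul_of_nonneg_right hu h0.le
  exact ⟨σ0 / (1 + s1 + s2 + t), div_pos h0 hS, div_le_self h0.le (by linarith), key _ (by linarith), key _ (by linarith),
    key _ (by linarith)⟩

theorem size_case (K e : ℝ) (σ σ0 : ℝ) (he : e ≤ σ0) (hσ : 0 ≤ σ) (j j' : ℕ) (hj : 1 ≤ j) (hj' : 1 ≤ j')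
    (l : Fin (2 * j) → ℕ) (l' : Fin (2 * j') → ℕ) (μ : ℝ) (Y : ℝ) (hY : 1 ≤ Y)
    (hμ : μ ≤ 4 ∨ μ ≤ (∑ i, (l i : ℝ)) / (2 * j) ∨ μ ≤ (∑ i, (l' i : ℝ)) / (2 * j'))
    (h1 : (∑ i, (l i : ℝ)) * σ ≤ σ0) (h2 : (∑ i, (l' i : ℝ)) * σ ≤ σ0) (w : ℤ × ℤ) (hw : w ∈ PairSet K (-e) Y)
    (hx : IsTie σ j l Y w.1) (hy : IsTie σ j' l' Y w.2) :
    Y ^ (μ / 2 - σ0) ≤ max (w.1.natAbs : ℝ) (w.2.natAbs : ℝ) := by
  obtain ⟨a1, a2, _, _, _, a3, _, _⟩ := hw
  rcases hμ with h | h | h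
  · refine le_trans (Real.rpow_le_rpow_of_exponent_le hY ?_) a3
    linarith only [h, he]
  · refine le_trans (le_trans (Real.rpow_le_rpow_of_exponent_le hY ?_) (tie_size' σ hσ j hj l Y hY w.1 a1 hx)) (le_max_left _ _)
    rw [div4_eq]
    linarith only [h, h1]
  · refine le_trans (le_trans (Real.rpow_le_rpow_of_exponent_le hY ?_) (tie_size' σ hσ j' hj' l' Y hY w.2 a2 hy)) (le_max_right _ _)
    rw [div4_eq]
    linarith only [h, h2]

theorem sfLe_mono {Z Z' : ℝ} (h : Z ≤ Z') {y : ℤ} (hy : SfLe Z y) : SfLe Z' y := by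
  obtain ⟨D, f, h1, h2, h3⟩ := hy
  exact ⟨D, f, h1, h2, h3.trans h⟩

theorem ladder_case (K : ℝ) (hK : 2 ≤ K) (j j' : ℕ) (hj : 2 ≤ j) (hj' : 1 ≤ j')
    (l : Fin (2 * j) → ℕ) (l' : Fin (2 * j') → ℕ) (hl1 : ∀ i, 1 ≤ l i) (i : Fin (2 * j)) (d μ : ℝ)
    (hd : ((univ.filter (fun i => Odd (l' i))).card : ℝ) / (2 * j') ≤ d)
    (hμ : μ ≤ 4 ∨ μ ≤ (∑ i, (l i : ℝ)) / (2 * j) ∨ μ ≤ (∑ i, (l' i : ℝ)) / (2 * j')) (h : ℕ) (hh1 : 1 ≤ h)
    (hcond : 0 < ((h : ℝ) + 2) / (2 * j) - 1 - (if l i = 1 then 0 else d / 2) - max 0 (2 * (h : ℝ) / (2 * j) - μ / 2)) :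
    FewN K (fun σ Y w => IsTie σ j l Y w.1 ∧ IsTie σ j' l' Y w.2) := by
  have hj0' : (0 : ℝ) ≤ 2 * j' := mul_nonneg zero_le_two (Nat.cast_nonneg _)
  have hd0 : 0 ≤ d := (div_nonneg (Nat.cast_nonneg _) hj0').trans hd
  obtain ⟨σ0, hσ0, hF⟩ := few_ladder K (-(1 / 100)) hK (by norm_num) j hj l hl1 i d μ hd0 h hh1 hcond
  obtain ⟨σ, hσ, k1, k2, k3, k4⟩ := scale_ex (∑ i, (l i : ℝ)) (∑ i, (l' i : ℝ)) (2 * j' + 1) σ0
    (Finset.sum_nonneg (fun i _ => Nat.cast_nonneg _)) (Finset.sum_nonneg (fun i _ => Nat.cast_nonneg _))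
    (add_nonneg hj0' zero_le_one) hσ0
  refine ⟨min (1 / 100) σ0, σ, lt_min (by norm_num) hσ0, min_le_left _ _, hσ,
    few_large' K _ _ _ 1 (few_anti K (-(1 / 100)) _ _ (neg_le_neg (min_le_left _ _)) hF) ?_⟩
  intro Y w hY hw hq
  obtain ⟨hx, hy⟩ := hq
  refine ⟨tie_mono' _ _ k1 j l Y hY _ hx, ?_,
    size_case K _ _ σ0 (min_le_right _ _) hσ.le j j' (le_trans one_le_two hj) hj' l l' μ Y hY hμ k2 k3 w hw hx hy⟩
  refine sfLe_mono (Real.rpow_le_rpow_of_exponent_le hY ?_) (tie_sf' _ hσ.le j' hj' l' Y hY w.2 hw.2.1 hy)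
  rw [div4_eq]
  linarith only [hd, k4]

theorem pf_case (K : ℝ) (hK : 2 ≤ K) (j' : ℕ) (hj' : 1 ≤ j')
    (l : Fin (2 * 1) → ℕ) (l' : Fin (2 * j') → ℕ) (hl1 : ∀ i, 1 ≤ l i) (i : Fin (2 * 1)) (i' : Fin (2 * j')) (k : ℕ)
    (hk : 1 ≤ k) (hlk : l' i' = 2 * k) (d μ : ℝ)
    (hd : ((univ.filter (fun i => Odd (l' i))).card : ℝ) / (2 * j') ≤ d)
    (hμ : μ ≤ 4 ∨ μ ≤ (∑ i, (l i : ℝ)) / (2 * (1 : ℕ)) ∨ μ ≤ (∑ i, (l' i : ℝ)) / (2 * j'))
    (hcond : 0 < 1 / 2 + 1 / (2 * j' : ℝ) - (if l i = 1 then 0 else d / 2) - max 0 (1 - (μ - 2 * k * (1 / (2 * j' : ℝ))) / 2)) :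
    FewN K (fun σ Y w => IsTie σ 1 l Y w.1 ∧ IsTie σ j' l' Y w.2) := by
  classical
  have hj1' : (1 : ℝ) ≤ j' := by exact_mod_cast hj'
  have hj2' : (0 : ℝ) < 2 * j' := mul_pos zero_lt_two (lt_of_lt_of_le zero_lt_one hj1')
  have hd0 : 0 ≤ d := (div_nonneg (Nat.cast_nonneg _) hj2'.le).trans hd
  obtain ⟨σ0, hσ0, hF⟩ := few_pf K (-(1 / 100)) hK (by norm_num) l hl1 i k hk (1 / (2 * j' : ℝ)) d μ (one_div_pos.mpr hj2')
    (one_div_le_one_div_of_le zero_lt_two (le_mul_of_one_le_right zero_le_two hj1')) hd0 hcond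
  obtain ⟨σ, hσ, k1, k2, k3, k4⟩ := scale_ex (∑ i, (l i : ℝ)) (∑ i, (l' i : ℝ)) (2 * j' + 1) σ0
    (Finset.sum_nonneg (fun i _ => Nat.cast_nonneg _)) (Finset.sum_nonneg (fun i _ => Nat.cast_nonneg _))
    (add_nonneg hj2'.le zero_le_one) hσ0
  refine ⟨min (1 / 100) σ0, σ, lt_min (by norm_num) hσ0, min_le_left _ _, hσ,
    few_large' K _ _ _ 1 (few_anti K (-(1 / 100)) _ _ (neg_le_neg (min_le_left _ _)) hF) ?_⟩
  intro Y w hY hw hq
  have hY0 : 0 < Y := lt_of_lt_of_le zero_lt_one hY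
  obtain ⟨hx, hy⟩ := hq
  refine ⟨?_, ?_, ?_⟩
  · exact tie_mono' _ _ k1 1 l Y hY _ hx
  · obtain ⟨u, p, h1, h2, h3, h4, h5, h6⟩ := hy
    have hc0 : p i' ≠ 0 := (h2 i').ne_zero
    have hw2 : w.2 ≠ 0 := hw.2.1
    set B : ℕ := u * ∏ i ∈ univ.erase i', p i ^ l' i with hB
    have hAB : w.2.natAbs = p i' ^ (2 * k) * B := by
      rw [h1, hB, ← Finset.mul_prod_erase univ (fun i => p i ^ l' i) (Finset.mem_univ i'), hlk]
      ring
    have hB0 : B ≠ 0 := by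
      intro h0
      rw [h0, mul_zero] at hAB
      exact hw2 (Int.natAbs_eq_zero.mp hAB)
    have hcop : Nat.Coprime (p i') B := by
      rw [hB]
      apply Nat.Coprime.mul_right (h4 i').symm
      apply Nat.Coprime.prod_right
      intro i hi
      apply Nat.Coprime.pow_right
      rw [Nat.coprime_primes (h2 i') (h2 i)]
      intro h0
      exact (Finset.mem_erase.mp hi).1 (h3 h0).symm
    have hsgn : (w.2.sign * (B : ℤ)).natAbs = B := by
      rw [Int.natAbs_mul, Int.natAbs_natCast, Int.natAbs_sign_of_ne_zero hw2, one_mul]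
    have hy0 : w.2.sign * (B : ℤ) ≠ 0 := by
      intro h0
      rw [h0] at hsgn
      exact hB0 hsgn.symm
    refine ⟨p i', w.2.sign * B, h2 i', ?_, ?_, ?_, ?_, ?_⟩
    · calc w.2 = w.2.sign * (w.2.natAbs : ℤ) := (Int.sign_mul_natAbs _).symm
        _ = _ := by rw [hAB]; push_cast; ring
    · rw [Int.isCoprime_iff_nat_coprime, hsgn]
      exact hcop
    · refine le_trans (Real.rpow_le_rpow_of_exponent_le hY ?_) (h6 i').1
      rw [← div4_eq]
      exact sub_le_sub_left k1 _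
    · refine le_trans (h6 i').2 (Real.rpow_le_rpow_of_exponent_le hY ?_)
      rw [← div4_eq]
      exact add_le_add_right k1 _
    · apply sfLe_prod (univ.erase i') p l' (fun i _ => h2 i) u _ hy0 (by rw [hsgn]) Y σ (1 / (4 * (j' : ℝ)) + σ)
        hY0 h5 (fun i _ => (h6 i).2)
      apply Real.rpow_le_rpow_of_exponent_le hY
      have h7 : (((univ.erase i').filter (fun i => Odd (l' i))).card : ℝ) ≤ ((univ.filter (fun i => Odd (l' i))).card : ℝ) := by
        exact_mod_cast Finset.card_le_card (Finset.filter_subset_filter _ (Finset.erase_subset _ _))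
      have h8 : ((univ.filter (fun i => Odd (l' i))).card : ℝ) ≤ 2 * j' := by
        have := Finset.card_filter_le (univ : Finset (Fin (2 * j'))) (fun i => Odd (l' i))
        rw [Finset.card_univ, Fintype.card_fin] at this
        exact_mod_cast this
      have h13 : 0 ≤ 1 / (4 * (j' : ℝ)) + σ :=
        add_nonneg (one_div_nonneg.mpr (mul_nonneg zero_le_four (Nat.cast_nonneg _))) hσ.le
      have h10 := mul_le_mul_of_nonneg_right h7 h13
      have h11 : ((univ.filter (fun i => Odd (l' i))).card : ℝ) * (1 / (4 * (j' : ℝ)) + σ) =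
          ((univ.filter (fun i => Odd (l' i))).card : ℝ) / (2 * j') / 2 + ((univ.filter (fun i => Odd (l' i))).card : ℝ) * σ := by
        rw [mul_add, mul_one_div, div4_eq]
      have h12 := mul_le_mul_of_nonneg_right h8 hσ.le
      linarith only [h10, h11, h12, k4, hd]
  · exact size_case K _ _ σ0 (min_le_right _ _) hσ.le 1 j' le_rfl hj' l l' μ Y hY hμ k2 k3 w hw hx hy

/-! ### exponents -/

theorem mono_ge {n : ℕ} (l : Fin n → ℕ) (hl : StrictMono l) (m : ℕ) (hm : ∀ i, m ≤ l i) (i : Fin n) : m + i.val ≤ l i := by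
  obtain ⟨i, hi⟩ := i
  induction i with
  | zero => simpa using hm ⟨0, hi⟩
  | succ k ih =>
    have h1 := ih (by omega)
    have h2 : l ⟨k, by omega⟩ < l ⟨k + 1, hi⟩ := hl (by simp [Fin.lt_def])
    simp only at h1 ⊢
    omega

theorem sum_ge {n : ℕ} (l : Fin n → ℕ) (hl : StrictMono l) (m : ℕ) (hm : ∀ i, m ≤ l i) :
    n * m + n * (n - 1) / 2 ≤ ∑ i, l i := by
  have h1 : ∑ i : Fin n, (m + i.val) ≤ ∑ i, l i := Finset.sum_le_sum (fun i _ => mono_ge l hl m hm i)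
  have h2 : ∑ i : Fin n, (m + i.val) = n * m + n * (n - 1) / 2 := by
    rw [Finset.sum_add_distrib, Finset.sum_const, Finset.card_univ, Fintype.card_fin, smul_eq_mul,
      Fin.sum_univ_eq_sum_range (fun i => i) n, Finset.sum_range_id]
  omega

theorem odd_card_le {n : ℕ} (l : Fin n → ℕ) : ((univ.filter (fun i => Odd (l i))).card) ≤ n := by
  have := Finset.card_filter_le (univ : Finset (Fin n)) (fun i => Odd (l i))
  rwa [Finset.card_univ, Fintype.card_fin] at this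

theorem odd_card_lt {n : ℕ} (l : Fin n → ℕ) (i : Fin n) (hi : ¬ Odd (l i)) : ((univ.filter (fun i => Odd (l i))).card) + 1 ≤ n := by
  have h1 : (univ.filter (fun i => Odd (l i))) ⊂ (univ : Finset (Fin n)) := by
    rw [Finset.filter_ssubset]
    exact ⟨i, Finset.mem_univ _, hi⟩
  have h2 := Finset.card_lt_card h1
  rwa [Finset.card_univ, Fintype.card_fin] at h2

theorem big_j (j : ℝ) (hj : 4 ≤ j) :
    0 < (3 * j - 1 + 2) / (2 * j) - 1 - 1 / 2 - max 0 (2 * (3 * j - 1) / (2 * j) - (j + 3 / 2) / 2) := by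
  have h2 : 0 < 2 * j := by linarith only [hj]
  obtain ⟨v, hv0, hv⟩ : ∃ v : ℝ, 0 < v ∧ v * (2 * j) = 1 :=
    ⟨1 / (2 * j), one_div_pos.mpr h2, div_mul_cancel₀ _ h2.ne'⟩
  have f1 : (3 * j - 1 + 2) / (2 * j) = 3 / 2 + v := by
    rw [div_eq_iff h2.ne']
    linarith only [hv]
  have f2 : 2 * (3 * j - 1) / (2 * j) = 3 - 2 * v := by
    rw [div_eq_iff h2.ne']
    linarith only [hv]
  rw [f1, f2, sub_pos, max_lt_iff]
  refine ⟨by linarith only [hv0], ?_⟩
  by_contra h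
  have h3 : v ≤ 3 / 4 - j / 6 := by linarith only [h]
  have h4 := mul_le_mul_of_nonneg_right h3 h2.le
  have h5 : 0 ≤ (j - 4) * (j - 1 / 2) := mul_nonneg (by linarith only [hj]) (by linarith only [hj])
  linarith only [h4, h5, hv]

/-- varying a tie which is saved by the ladder whatever the other tie is -/
theorem self_saved (K : ℝ) (hK : 2 ≤ K) (j j' : ℕ) (hj : 2 ≤ j) (hj' : 1 ≤ j')
    (l : Fin (2 * j) → ℕ) (l' : Fin (2 * j') → ℕ) (hl : StrictMono l) (hl1 : ∀ i, 1 ≤ l i)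
    (hs : (∃ i, l i = 1) ∨ 4 ≤ j ∨ (j = 3 ∧ 31 ≤ ∑ i, l i) ∨ (∀ i, Odd (l i))) :
    FewN K (fun σ Y w => IsTie σ j l Y w.1 ∧ IsTie σ j' l' Y w.2) := by
  have hj0' : (0 : ℝ) < j' := by exact_mod_cast hj'
  have hj0 : (0 : ℝ) < j := by exact_mod_cast (lt_of_lt_of_le zero_lt_two hj)
  have hd : ((univ.filter (fun i => Odd (l' i))).card : ℝ) / (2 * j') ≤ 1 := by
    rw [div_le_one (mul_pos zero_lt_two hj0')]
    exact_mod_cast odd_card_le l'
  by_cases h1 : ∃ i, l i = 1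
  · obtain ⟨i, hi⟩ := h1
    refine ladder_case K hK j j' hj hj' l l' hl1 i 1 4 hd (Or.inl le_rfl) (2 * j) (by omega) ?_
    rw [if_pos hi]
    push_cast
    have h2j : (2 * (j : ℝ)) ≠ 0 := (mul_pos zero_lt_two hj0).ne'
    have e1 : 2 * (2 * (j : ℝ)) / (2 * j) - 4 / 2 = 0 := by
      rw [mul_div_assoc, div_self h2j]
      norm_num
    have e2 : (2 * (j : ℝ) + 2) / (2 * j) - 1 - 0 = 1 / j := by
      rw [add_div, div_self h2j, sub_zero, add_sub_cancel_left, div_mul_cancel_left₀ two_ne_zero, one_div]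
    rw [e1, max_self, e2, sub_zero]
    exact one_div_pos.mpr hj0
  · have h2 : ∀ i, 2 ≤ l i := by
      intro i
      have := hl1 i
      have : l i ≠ 1 := fun h => h1 ⟨i, h⟩
      omega
    have i0 : Fin (2 * j) := ⟨0, by omega⟩
    have hsum := sum_ge l hl 2 h2
    rcases Nat.lt_or_ge j 4 with h4 | h4
    · have h3 : j = 2 ∨ j = 3 := by omega
      rcases h3 with rfl | rfl
      · -- j = 2 : all exponents odd
        have hodd : ∀ i, Odd (l i) := by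
          rcases hs with h | h | h | h
          · exact absurd h h1
          · omega
          · omega
          · exact h
        have hsum' : 24 ≤ ∑ i, l i := by
          have a0 := hodd 0
          have a1 := hodd 1
          have a2 := hodd 2
          have a3 := hodd 3
          have b0 := h2 0
          have c0 : l 0 < l 1 := hl (by decide)
          have c1 : l 1 < l 2 := hl (by decide)
          have c2 : l 2 < l 3 := hl (by decide)
          have e : ∑ i, l i = l 0 + l 1 + l 2 + l 3 := Fin.sum_univ_four l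
          rw [e]
          rw [Nat.odd_iff] at a0 a1 a2 a3
          omega
        have hμ : (6 : ℝ) ≤ (∑ i, (l i : ℝ)) / (2 * ((2 : ℕ) : ℝ)) := by
          rw [le_div_iff₀ (by norm_num)]
          have : ((24 : ℕ) : ℝ) ≤ ((∑ i, l i : ℕ) : ℝ) := by exact_mod_cast hsum'
          push_cast at this ⊢
          linarith only [this]
        refine ladder_case K hK 2 j' hj hj' l l' hl1 i0 1 6 hd (Or.inr (Or.inl hμ)) 5 (by norm_num) ?_
        rw [if_neg (by have := h2 i0; omega)]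
        norm_num
      · -- j = 3
        have hsum' : 31 ≤ ∑ i, l i := by
          rcases hs with h | h | h | h
          · exact absurd h h1
          · omega
          · exact h.2
          · have h3 : ∀ i, 3 ≤ l i := by
              intro i
              have := h2 i
              have h5 := h i
              rw [Nat.odd_iff] at h5
              omega
            have := sum_ge l hl 3 h3
            omega
        have hμ : (31 / 6 : ℝ) ≤ (∑ i, (l i : ℝ)) / (2 * ((3 : ℕ) : ℝ)) := by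
          rw [le_div_iff₀ (by norm_num)]
          have : ((31 : ℕ) : ℝ) ≤ ((∑ i, l i : ℕ) : ℝ) := by exact_mod_cast hsum'
          push_cast at this ⊢
          linarith only [this]
        refine ladder_case K hK 3 j' hj hj' l l' hl1 i0 1 (31 / 6) hd (Or.inr (Or.inl hμ)) 8 (by norm_num) ?_
        rw [if_neg (by have := h2 i0; omega)]
        norm_num
    · -- j ≥ 4
      have hj4 : (4 : ℝ) ≤ j := by exact_mod_cast h4
      have hμ : (j + 3 / 2 : ℝ) ≤ (∑ i, (l i : ℝ)) / (2 * (j : ℝ)) := by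
        rw [le_div_iff₀ (mul_pos zero_lt_two hj0)]
        have e : 2 * j * 2 + 2 * j * (2 * j - 1) / 2 = 2 * j * 2 + j * (2 * j - 1) := by
          congr 1
          rw [mul_assoc, Nat.mul_div_cancel_left _ (by norm_num)]
        rw [e] at hsum
        have h5 : ((2 * j * 2 + j * (2 * j - 1) : ℕ) : ℝ) ≤ ((∑ i, l i : ℕ) : ℝ) := by exact_mod_cast hsum
        rw [Nat.cast_add, Nat.cast_mul, Nat.cast_mul, Nat.cast_mul, Nat.cast_sub (by omega)] at h5
        push_cast at h5 ⊢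
        linarith only [h5]
      have h6 : ((3 * j - 1 : ℕ) : ℝ) = 3 * j - 1 := by
        rw [Nat.cast_sub (by omega)]; push_cast; ring
      refine ladder_case K hK j j' hj hj' l l' hl1 i0 1 (j + 3 / 2) hd (Or.inr (Or.inl hμ)) (3 * j - 1) (by omega) ?_
      rw [if_neg (fun h => by have := h2 i0; omega), h6]
      exact big_j j hj4

/-- exchange of the two sides -/
theorem few_exchange (K : ℝ) (j j' : ℕ) (l : Fin (2 * j) → ℕ) (l' : Fin (2 * j') → ℕ)
    (h : FewN K (fun σ Y w => IsTie σ j' l' Y w.1 ∧ IsTie σ j l Y w.2)) :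
    FewN K (fun σ Y w => IsTie σ j l Y w.1 ∧ IsTie σ j' l' Y w.2) := by
  obtain ⟨e, σ, he, he1, hσ, hF⟩ := h
  exact ⟨e, σ, he, he1, hσ, few_mono' K _ _ _ (fun Y w hw => ⟨hw.2, hw.1⟩) (few_swap K _ _ hF)⟩

/-- a tie which is not saved by itself -/
def T0 (j : ℕ) (l : Fin (2 * j) → ℕ) : Prop := (j = 2 ∨ (j = 3 ∧ ∑ i, l i ≤ 30)) ∧ (∀ i, 2 ≤ l i) ∧ ∃ i, ¬ Odd (l i)

theorem t0_of_not_saved (j : ℕ) (hj : 2 ≤ j) (l : Fin (2 * j) → ℕ) (hl1 : ∀ i, 1 ≤ l i)
    (hs : ¬ ((∃ i, l i = 1) ∨ 4 ≤ j ∨ (j = 3 ∧ 31 ≤ ∑ i, l i) ∨ (∀ i, Odd (l i)))) : T0 j l := by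
  push Not at hs
  obtain ⟨h1, h2, h3, h4⟩ := hs
  refine ⟨?_, ?_, h4⟩
  · rcases (by omega : j = 2 ∨ j = 3) with h | h
    · exact Or.inl h
    · refine Or.inr ⟨h, ?_⟩
      have := h3 h
      omega
  · intro i
    have := hl1 i
    have := h1 i
    omega

theorem t0_two (K : ℝ) (hK : 2 ≤ K) (j' : ℕ)
    (l : Fin (2 * 2) → ℕ) (l' : Fin (2 * j') → ℕ) (hl : T0 2 l) (hl' : T0 j' l') :
    FewN K (fun σ Y w => IsTie σ 2 l Y w.1 ∧ IsTie σ j' l' Y w.2) := by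
  obtain ⟨_, h2, _⟩ := hl
  obtain ⟨hj, h2', i', hi'⟩ := hl'
  have hj2 : 2 ≤ j' := by omega
  have hj0' : (0 : ℝ) < 2 * j' := by exact_mod_cast (by omega : 0 < 2 * j')
  have hc := odd_card_lt l' i' hi'
  have hd : ((univ.filter (fun i => Odd (l' i))).card : ℝ) / (2 * j') ≤ 1 - 1 / (2 * j') := by
    have : ((univ.filter (fun i => Odd (l' i))).card : ℝ) + 1 ≤ 2 * j' := by exact_mod_cast hc
    rw [div_le_iff₀ hj0', sub_mul, div_mul_cancel₀ _ hj0'.ne']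
    linarith only [this]
  refine ladder_case K hK 2 j' le_rfl (by omega) l l' (fun i => by have := h2 i; omega) 0 _ 4 hd (Or.inl le_rfl) 4 (by norm_num) ?_
  rw [if_neg (by have := h2 0; omega)]
  have h8 : 0 < 1 / (2 * (j' : ℝ)) := one_div_pos.mpr hj0'
  have e1 : 2 * ((4 : ℕ) : ℝ) / (2 * ((2 : ℕ) : ℝ)) - 4 / 2 = 0 := by norm_num
  have e2 : (((4 : ℕ) : ℝ) + 2) / (2 * ((2 : ℕ) : ℝ)) = 3 / 2 := by norm_num
  rw [e1, max_self, e2]
  linarith only [h8]

theorem t0_three (K : ℝ) (hK : 2 ≤ K)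
    (l l' : Fin (2 * 3) → ℕ) (hm' : StrictMono l') (hl : T0 3 l) (hl' : T0 3 l') :
    FewN K (fun σ Y w => IsTie σ 3 l Y w.1 ∧ IsTie σ 3 l' Y w.2) := by
  obtain ⟨_, h2, _⟩ := hl
  obtain ⟨_, h2', i', hi'⟩ := hl'
  have hc := odd_card_lt l' i' hi'
  have hd : ((univ.filter (fun i => Odd (l' i))).card : ℝ) / (2 * (3 : ℕ)) ≤ 5 / 6 := by
    have : ((univ.filter (fun i => Odd (l' i))).card : ℝ) + 1 ≤ 2 * 3 := by exact_mod_cast hc
    rw [div_le_iff₀ (by norm_num)]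
    push_cast
    linarith only [this]
  by_cases h28 : 28 ≤ ∑ i, l i ∨ 28 ≤ ∑ i, l' i
  · have hμ : (28 / 6 : ℝ) ≤ 4 ∨ (28 / 6 : ℝ) ≤ (∑ i, (l i : ℝ)) / (2 * ((3 : ℕ) : ℝ)) ∨ (28 / 6 : ℝ) ≤ (∑ i, (l' i : ℝ)) / (2 * ((3 : ℕ) : ℝ)) := by
      rcases h28 with h | h
      · right; left
        rw [le_div_iff₀ (by norm_num)]
        have : ((28 : ℕ) : ℝ) ≤ ((∑ i, l i : ℕ) : ℝ) := by exact_mod_cast h
        push_cast at this ⊢
        linarith only [this]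
      · right; right
        rw [le_div_iff₀ (by norm_num)]
        have : ((28 : ℕ) : ℝ) ≤ ((∑ i, l' i : ℕ) : ℝ) := by exact_mod_cast h
        push_cast at this ⊢
        linarith only [this]
    refine ladder_case K hK 3 3 (by norm_num) (by norm_num) l l' (fun i => by have := h2 i; omega) 0 _ _ hd hμ 7 (by norm_num) ?_
    rw [if_neg (by have := h2 0; omega)]
    norm_num
  · push Not at h28
    have hge := mono_ge l' hm' 2 h2'
    have e : ∑ i, l' i = l' 0 + l' 1 + l' 2 + l' 3 + l' 4 + l' 5 := Fin.sum_univ_six l'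
    have g0 := hge 0
    have g1 := hge 1
    have g2 := hge 2
    have g3 := hge 3
    have g4 := hge 4
    have g5 := hge 5
    simp only [Fin.val_zero, Fin.val_one] at g0 g1
    have v2 : ((2 : Fin (2 * 3)) : ℕ) = 2 := rfl
    have v3 : ((3 : Fin (2 * 3)) : ℕ) = 3 := rfl
    have v4 : ((4 : Fin (2 * 3)) : ℕ) = 4 := rfl
    have v5 : ((5 : Fin (2 * 3)) : ℕ) = 5 := rfl
    rw [v2] at g2
    rw [v3] at g3
    rw [v4] at g4
    rw [v5] at g5
    have v1 : ((1 : Fin (2 * 3)) : ℕ) = 1 := rfl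
    have hl'eq : l' = fun i => i.val + 2 := by
      funext i
      fin_cases i
      · show l' 0 = 0 + 2
        omega
      · show l' 1 = 1 + 2
        omega
      · show l' 2 = 2 + 2
        omega
      · show l' 3 = 3 + 2
        omega
      · show l' 4 = 4 + 2
        omega
      · show l' 5 = 5 + 2
        omega
    have hc3 : (univ.filter (fun i => Odd (l' i))).card = 3 := by
      rw [hl'eq]
      decide
    have hd' : ((univ.filter (fun i => Odd (l' i))).card : ℝ) / (2 * (3 : ℕ)) ≤ 1 / 2 := by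
      rw [hc3]
      norm_num
    refine ladder_case K hK 3 3 (by norm_num) (by norm_num) l l' (fun i => by have := h2 i; omega) 0 _ 4 hd' (Or.inl le_rfl) 6 (by norm_num) ?_
    rw [if_neg (by have := h2 0; omega)]
    norm_num

theorem t0_t0 (K : ℝ) (hK : 2 ≤ K) (j j' : ℕ)
    (l : Fin (2 * j) → ℕ) (l' : Fin (2 * j') → ℕ) (hm' : StrictMono l') (hl : T0 j l) (hl' : T0 j' l') :
    FewN K (fun σ Y w => IsTie σ j l Y w.1 ∧ IsTie σ j' l' Y w.2) := by
  by_cases h : j = 2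
  · subst h
    exact t0_two K hK j' l l' hl hl'
  · by_cases h' : j' = 2
    · subst h'
      exact few_exchange K j 2 l l' (t0_two K hK j l' l hl' hl)
    · have h3 : j = 3 := by have := hl.1; omega
      have h3' : j' = 3 := by have := hl'.1; omega
      subst h3
      subst h3'
      exact t0_three K hK l l' hm' hl hl'

theorem t0_one (K : ℝ) (hK : 2 ≤ K) (j' : ℕ)
    (l : Fin (2 * 1) → ℕ) (l' : Fin (2 * j') → ℕ) (hl1 : ∀ i, 1 ≤ l i) (hm' : StrictMono l') (hl' : T0 j' l') :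
    FewN K (fun σ Y w => IsTie σ 1 l Y w.1 ∧ IsTie σ j' l' Y w.2) := by
  obtain ⟨hj, h2', i', hi'⟩ := hl'
  have hj2 : 2 ≤ j' := by omega
  have hj0' : (0 : ℝ) < 2 * j' := by exact_mod_cast (by omega : 0 < 2 * j')
  have hc := odd_card_lt l' i' hi'
  have hd : ((univ.filter (fun i => Odd (l' i))).card : ℝ) / (2 * j') ≤ 1 - 1 / (2 * j') := by
    have : ((univ.filter (fun i => Odd (l' i))).card : ℝ) + 1 ≤ 2 * j' := by exact_mod_cast hc
    rw [div_le_iff₀ hj0', sub_mul, div_mul_cancel₀ _ hj0'.ne']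
    linarith only [this]
  rw [Nat.not_odd_iff_even] at hi'
  obtain ⟨k, hk⟩ := hi'
  have hk1 : 1 ≤ k := by have := h2' i'; omega
  -- the other exponents
  have hge := mono_ge l' hm' 2 h2'
  have hsum : 4 * j' + l' i' ≤ ∑ i, l' i := by
    rcases hj with rfl | ⟨rfl, _⟩
    · have e : ∑ i, l' i = l' 0 + l' 1 + l' 2 + l' 3 := Fin.sum_univ_four l'
      have g0 : 2 + 0 ≤ l' 0 := hge 0
      have g1 : 2 + 1 ≤ l' 1 := hge 1
      have g2 : 2 + 2 ≤ l' 2 := hge 2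
      have g3 : 2 + 3 ≤ l' 3 := hge 3
      rw [e]
      fin_cases i'
      · show 4 * 2 + l' 0 ≤ _
        omega
      · show 4 * 2 + l' 1 ≤ _
        omega
      · show 4 * 2 + l' 2 ≤ _
        omega
      · show 4 * 2 + l' 3 ≤ _
        omega
    · have e : ∑ i, l' i = l' 0 + l' 1 + l' 2 + l' 3 + l' 4 + l' 5 := Fin.sum_univ_six l'
      have g0 : 2 + 0 ≤ l' 0 := hge 0
      have g1 : 2 + 1 ≤ l' 1 := hge 1
      have g2 : 2 + 2 ≤ l' 2 := hge 2
      have g3 : 2 + 3 ≤ l' 3 := hge 3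
      have g4 : 2 + 4 ≤ l' 4 := hge 4
      have g5 : 2 + 5 ≤ l' 5 := hge 5
      rw [e]
      fin_cases i'
      · show 4 * 3 + l' 0 ≤ _
        omega
      · show 4 * 3 + l' 1 ≤ _
        omega
      · show 4 * 3 + l' 2 ≤ _
        omega
      · show 4 * 3 + l' 3 ≤ _
        omega
      · show 4 * 3 + l' 4 ≤ _
        omega
      · show 4 * 3 + l' 5 ≤ _
        omega
  refine pf_case K hK j' (by omega) l l' hl1 0 i' k hk1 (by omega) _ _ hd (Or.inr (Or.inr le_rfl)) ?_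
  have h5 : (4 * (j' : ℝ) + 2 * k) ≤ ∑ i, (l' i : ℝ) := by
    have : ((4 * j' + l' i' : ℕ) : ℝ) ≤ ((∑ i, l' i : ℕ) : ℝ) := by exact_mod_cast hsum
    rw [hk] at this
    push_cast at this
    linarith only [this]
  have h6 : 1 - ((∑ i, (l' i : ℝ)) / (2 * j') - 2 * k * (1 / (2 * (j' : ℝ)))) / 2 ≤ 0 := by
    rw [mul_one_div, ← sub_div]
    have h7 : 2 ≤ ((∑ i, (l' i : ℝ)) - 2 * k) / (2 * j') := by
      rw [le_div_iff₀ hj0']
      linarith only [h5]
    linarith only [h7]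
  rw [max_eq_left h6, sub_zero]
  have h8 : 0 < 1 / (2 * (j' : ℝ)) := one_div_pos.mpr hj0'
  split_ifs <;> linarith only [h8]

/-- two ties, not both with `j = 1` -/
theorem tie_pair' (K : ℝ) (hK : 2 ≤ K) (j j' : ℕ) (hj : 1 ≤ j) (hj' : 1 ≤ j') (hjj : ¬ (j = 1 ∧ j' = 1))
    (l : Fin (2 * j) → ℕ) (l' : Fin (2 * j') → ℕ) (hl : StrictMono l) (hl' : StrictMono l') (hl1 : ∀ i, 1 ≤ l i)
    (hl1' : ∀ i, 1 ≤ l' i) :
    FewN K (fun σ Y w => IsTie σ j l Y w.1 ∧ IsTie σ j' l' Y w.2) := by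
  by_cases a : 2 ≤ j ∧ ((∃ i, l i = 1) ∨ 4 ≤ j ∨ (j = 3 ∧ 31 ≤ ∑ i, l i) ∨ (∀ i, Odd (l i)))
  · exact self_saved K hK j j' a.1 hj' l l' hl hl1 a.2
  by_cases a' : 2 ≤ j' ∧ ((∃ i, l' i = 1) ∨ 4 ≤ j' ∨ (j' = 3 ∧ 31 ≤ ∑ i, l' i) ∨ (∀ i, Odd (l' i)))
  · exact few_exchange K j j' l l' (self_saved K hK j' j a'.1 hj l' l hl' hl1' a'.2)
  by_cases h1 : j = 1
  · subst h1
    have h2' : 2 ≤ j' := by omega
    exact t0_one K hK j' l l' hl1 hl' (t0_of_not_saved j' h2' l' hl1' (fun h => a' ⟨h2', h⟩))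
  · have h2 : 2 ≤ j := by omega
    have hT := t0_of_not_saved j h2 l hl1 (fun h => a ⟨h2, h⟩)
    by_cases h1' : j' = 1
    · subst h1'
      exact few_exchange K j 1 l l' (t0_one K hK j l' l hl1' hl hT)
    · have h2' : 2 ≤ j' := by omega
      exact t0_t0 K hK j j' l l' hl' hT (t0_of_not_saved j' h2' l' hl1' (fun h => a' ⟨h2', h⟩))

/-! ### two ties with `j = 1` -/

theorem one_d (K : ℝ) (hK : 2 ≤ K) (l l' : Fin (2 * 1) → ℕ) (hl1 : ∀ i, 1 ≤ l i)
    (i' i0 : Fin (2 * 1)) (hne : i' ≠ i0) (hev : Even (l' i')) (h1 : 1 ≤ l' i') (hodd : Odd (l' i0)) (h3 : 3 ≤ l' i0) :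
    FewN K (fun σ Y w => IsTie σ 1 l Y w.1 ∧ IsTie σ 1 l' Y w.2) := by
  obtain ⟨k, hk⟩ := hev
  have hc : ((univ.filter (fun i => Odd (l' i))).card) + 1 ≤ 2 * 1 :=
    odd_card_lt l' i' (by rw [Nat.not_odd_iff_even]; exact ⟨k, hk⟩)
  have hd : ((univ.filter (fun i => Odd (l' i))).card : ℝ) / (2 * (1 : ℕ)) ≤ 1 / 2 := by
    have : ((univ.filter (fun i => Odd (l' i))).card : ℝ) + 1 ≤ 2 * 1 := by exact_mod_cast hc
    rw [div_le_iff₀ (by norm_num)]
    push_cast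
    linarith only [this]
  have hsum : (∑ i, (l' i : ℝ)) = l' i' + l' i0 := by
    have e : ∑ i, (l' i : ℝ) = l' 0 + l' 1 := Fin.sum_univ_two _
    rw [e]
    fin_cases i' <;> fin_cases i0
    · exact absurd rfl hne
    · rfl
    · exact add_comm _ _
    · exact absurd rfl hne
  refine pf_case K hK 1 le_rfl l l' hl1 0 i' k (by omega) (by omega) _ _ hd (Or.inr (Or.inr le_rfl)) ?_
  have h3' : (3 : ℝ) ≤ l' i0 := by exact_mod_cast h3
  rw [hsum, hk]
  push_cast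
  have h6 : max 0 (1 - (((k : ℝ) + k + l' i0) / (2 * 1) - 2 * k * (1 / (2 * 1))) / 2) ≤ 1 / 4 := by
    apply max_le (by norm_num)
    linarith only [h3']
  split_ifs <;> linarith only [h6]

theorem one_a (K : ℝ) (hK : 2 ≤ K) (l l' : Fin (2 * 1) → ℕ) (hl1 : ∀ i, 1 ≤ l i) (h0 : l 0 = 1)
    (h0' : l' 0 = 1) (hev : Even (l' 1)) (h1 : 1 ≤ l' 1) :
    FewN K (fun σ Y w => IsTie σ 1 l Y w.1 ∧ IsTie σ 1 l' Y w.2) := by
  obtain ⟨k, hk⟩ := hev
  have hd : ((univ.filter (fun i => Odd (l' i))).card : ℝ) / (2 * (1 : ℕ)) ≤ 1 := by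
    rw [div_le_one (by norm_num)]
    exact_mod_cast odd_card_le l'
  have hsum : (∑ i, (l' i : ℝ)) = l' 0 + l' 1 := Fin.sum_univ_two _
  refine pf_case K hK 1 le_rfl l l' hl1 0 1 k (by omega) (by omega) _ _ hd (Or.inr (Or.inr le_rfl)) ?_
  rw [hsum, hk, h0', if_pos h0]
  push_cast
  have h6 : max 0 (1 - ((1 + ((k : ℝ) + k)) / (2 * 1) - 2 * k * (1 / (2 * 1))) / 2) ≤ 3 / 4 := by
    apply max_le (by norm_num)
    linarith only
  linarith only [h6]

/-- two ties with `j = 1` -/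
theorem tie_pair_one' (K : ℝ) (hK : 2 ≤ K)
    (l l' : Fin (2 * 1) → ℕ) (hl : StrictMono l) (hl' : StrictMono l') (hl1 : ∀ i, 1 ≤ l i) (hl1' : ∀ i, 1 ≤ l' i) :
    FewN K (fun σ Y w => IsTie σ 1 l Y w.1 ∧ IsTie σ 1 l' Y w.2) := by
  have h01 : l 0 < l 1 := hl (by decide)
  have h01' : l' 0 < l' 1 := hl' (by decide)
  have p0 := hl1 0
  have p0' := hl1' 0
  -- both exponents even
  by_cases e1 : ∀ i, Even (l i)
  · exact fewN_mono K _ _ (fun σ Y w hw => hw.1) (fewN_of K _ (few_even K _ hK (by norm_num) l hl1 e1))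
  by_cases e1' : ∀ i, Even (l' i)
  · obtain ⟨σ, hσ, hF⟩ := few_even K (-(1 / 100)) hK (by norm_num) l' hl1' e1'
    exact fewN_of K _ ⟨σ, hσ, few_mono' K _ _ _ (fun Y w hw => hw.2) (few_swap K _ _ hF)⟩
  -- small exponents
  by_cases s1 : l 0 + l 1 ≤ 4
  · exact fewN_mono K _ _ (fun σ Y w hw => hw.1) (fewN_of K _ (few_13 K _ hK (by norm_num) l hl1 s1))
  by_cases s1' : l' 0 + l' 1 ≤ 4
  · obtain ⟨σ, hσ, hF⟩ := few_13 K (-(1 / 100)) hK (by norm_num) l' hl1' s1'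
    exact fewN_of K _ ⟨σ, hσ, few_mono' K _ _ _ (fun Y w hw => hw.2) (few_swap K _ _ hF)⟩
  -- type d
  have hne : ∀ m : Fin (2 * 1) → ℕ, ¬ (∀ i, Even (m i)) → Odd (m 0) ∨ Odd (m 1) := by
    intro m hm
    by_contra h
    push Not at h
    obtain ⟨a, b⟩ := h
    apply hm
    intro i
    fin_cases i
    · exact Nat.not_odd_iff_even.mp a
    · exact Nat.not_odd_iff_even.mp b
  have h10 : (1 : Fin (2 * 1)) ≠ 0 := by decide
  have d_case : ∀ m m' : Fin (2 * 1) → ℕ, (∀ i, 1 ≤ m i) → (∀ i, 1 ≤ m' i) → m' 0 < m' 1 → ¬ (∀ i, Even (m' i)) →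
      ¬ (Odd (m' 0) ∧ Odd (m' 1)) → m' 0 ≠ 1 →
      FewN K (fun σ Y w => IsTie σ 1 m Y w.1 ∧ IsTie σ 1 m' Y w.2) := by
    intro m m' q q' q01 he ho h1
    have q0 := q' 0
    rcases hne m' he with h | h
    · have hev : Even (m' 1) := by
        rw [← Nat.not_odd_iff_even]
        exact fun h2 => ho ⟨h, h2⟩
      refine one_d K hK m m' q 1 0 h10 hev (q' 1) h ?_
      rw [Nat.odd_iff] at h
      omega
    · have hev : Even (m' 0) := by
        rw [← Nat.not_odd_iff_even]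
        exact fun h2 => ho ⟨h2, h⟩
      refine one_d K hK m m' q 0 1 h10.symm hev (q' 0) h ?_
      omega
  by_cases o' : Odd (l' 0) ∧ Odd (l' 1)
  · by_cases o : Odd (l 0) ∧ Odd (l 1)
    · -- all exponents odd
      obtain ⟨oa, ob⟩ := o
      obtain ⟨oa', ob'⟩ := o'
      have oa2 := oa
      have ob2 := ob
      have oa2' := oa'
      have ob2' := ob'
      rw [Nat.odd_iff] at oa2 ob2 oa2' ob2'
      by_cases g : Nat.Coprime (l 0) (l 1)
      · exact fewN_of K _ (few_beta K _ hK (by norm_num) l l' hl1 h01 g oa' ob' h01' (by omega))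
      · by_cases g' : Nat.Coprime (l' 0) (l' 1)
        · exact few_exchange K 1 1 l l' (fewN_of K _ (few_beta K _ hK (by norm_num) l' l hl1' h01' g' oa ob h01 (by omega)))
        · refine fewN_of K _ (few_ev K _ hK (by norm_num) l l' hl1 h01 ?_ oa' ob')
          have hg1 : Nat.gcd (l 0) (l 1) ≠ 1 := g
          have hg0 : Nat.gcd (l 0) (l 1) ≠ 0 := by
            intro h0
            have := (Nat.gcd_eq_zero_iff.mp h0).1
            omega
          have hg2 : Odd (Nat.gcd (l 0) (l 1)) := Odd.of_dvd_nat oa (Nat.gcd_dvd_left _ _)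
          rw [Nat.odd_iff] at hg2
          omega
    · -- l is not (odd, odd)
      by_cases h1 : l 0 = 1
      · -- type a against b or c
        have g : Nat.Coprime (l 0) (l 1) := by rw [h1]; exact Nat.coprime_one_left _
        obtain ⟨oa', ob'⟩ := o'
        have oa2' := oa'
        have ob2' := ob'
        rw [Nat.odd_iff] at oa2' ob2'
        exact fewN_of K _ (few_beta K _ hK (by norm_num) l l' hl1 h01 g oa' ob' h01' (by omega))
      · exact few_exchange K 1 1 l l' (d_case l' l hl1' hl1 h01 e1 o h1)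
  · by_cases h1' : l' 0 = 1
    · -- l' of type a
      have hev' : Even (l' 1) := by
        rw [← Nat.not_odd_iff_even]
        intro h2
        exact o' ⟨by rw [h1']; exact odd_one, h2⟩
      by_cases h1 : l 0 = 1
      · exact one_a K hK l l' hl1 h1 h1' hev' (hl1' 1)
      · by_cases o : Odd (l 0) ∧ Odd (l 1)
        · -- c against a
          have g' : Nat.Coprime (l' 0) (l' 1) := by rw [h1']; exact Nat.coprime_one_left _
          obtain ⟨oa, ob⟩ := o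
          have oa2 := oa
          have ob2 := ob
          rw [Nat.odd_iff] at oa2 ob2
          exact few_exchange K 1 1 l l' (fewN_of K _ (few_beta K _ hK (by norm_num) l' l hl1' h01' g' oa ob h01 (by omega)))
        · exact few_exchange K 1 1 l l' (d_case l' l hl1' hl1 h01 e1 o h1)
    · exact d_case l l' hl1 hl1' h01' e1' o' h1'

end Hp

end Pool.Agent.Lib.MP_d8bd92_nt
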