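import Mathlib
set_option autoImplicit false
set_option maxHeartbeats 1000000

/-!
# Phase 2: classification of the sides with a set `G` of good exponents (pure combinatorics of the masses)

`S` is the finite set of the odd primes of `v`, `y p` the mass of `p`, `e p` its exponent. `G` is the set of the
good exponents (at most six), the primes with exponent outside `G` (the bad primes) have a total mass `≤ 1 / 4 - ρ`.
-/

namespace Pool.Agent.Lib.MP_d8bd92_nt

namespace Hp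

variable {ι : Type*} [DecidableEq ι]

/-- Type (G): the classes `T` (all exponents equal to the good exponent `l`), `A`, `B` form a partition of `S`, the
masses of `A` and `B` are at most `1 / 2 - η`. -/
def TypeG (G : Finset ℕ) (S : Finset ι) (y : ι → ℝ) (e : ι → ℕ) (η : ℝ) : Prop :=
  ∃ l ∈ G, ∃ T A B : Finset ι, T ∪ (A ∪ B) = S ∧ Disjoint T (A ∪ B) ∧ Disjoint A B ∧
    (∀ p ∈ T, e p = l) ∧ ∑ p ∈ A, y p ≤ 1 / 2 - η ∧ ∑ p ∈ B, y p ≤ 1 / 2 - η

/-- Type (TIE `j`), `j ≤ 3`: exactly `2 j` large primes, of masses about `1 / (2 j)`, with different exponents; the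
other primes have together a mass at most `σ`. For `j ≤ 2` all the exponents are good. -/
def TieG (G : Finset ℕ) (S : Finset ι) (y : ι → ℝ) (e : ι → ℕ) (σ : ℝ) : Prop :=
  ∃ j : ℕ, 1 ≤ j ∧ j ≤ 3 ∧ 2 * j ≤ G.card + 1 ∧ ∃ J : Finset ι, J ⊆ S ∧ J.card = 2 * j ∧
    (∀ p ∈ J, |y p - 1 / (2 * j)| ≤ σ) ∧ (∀ p ∈ J, ∀ q ∈ J, e p = e q → p = q) ∧
    ∑ p ∈ S \ J, y p ≤ σ ∧ (j ≤ 2 → ∀ p ∈ J, e p ∈ G)

lemma clg_greedy (U : Finset ι) (y : ι → ℝ) {a δ : ℝ} (hy : ∀ p ∈ U, y p ≤ δ) (ha0 : 0 ≤ a)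
    (hδ : 0 ≤ δ) (ha : a ≤ ∑ p ∈ U, y p) :
    ∃ T ⊆ U, a ≤ ∑ p ∈ T, y p ∧ ∑ p ∈ T, y p ≤ a + δ := by
  induction U using Finset.induction_on with
  | empty =>
    refine ⟨∅, Finset.empty_subset _, ha, ?_⟩
    rw [Finset.sum_empty]
    linarith only [ha0, hδ]
  | insert p U hp ih =>
    by_cases h : a ≤ ∑ q ∈ U, y q
    · obtain ⟨T, hT, h1, h2⟩ := ih (fun q hq => hy q (Finset.mem_insert_of_mem hq)) h
      exact ⟨T, hT.trans (Finset.subset_insert _ _), h1, h2⟩
    · refine ⟨insert p U, Finset.Subset.refl _, ha, ?_⟩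
      rw [Finset.sum_insert hp]
      have := hy p (Finset.mem_insert_self _ _)
      linarith [not_le.mp h]

lemma clg_jump (U : Finset ι) (Q : Finset ι → Prop) (h0 : Q ∅) (h1 : ¬ Q U) :
    ∃ I ⊆ U, ∃ p ∈ U, p ∉ I ∧ Q I ∧ ¬ Q (insert p I) := by
  induction U using Finset.induction_on with
  | empty => exact absurd h0 h1
  | insert p U hp ih =>
    by_cases h : Q U
    · exact ⟨U, Finset.subset_insert _ _, p, Finset.mem_insert_self _ _, hp, h, h1⟩
    · obtain ⟨I, hI, q, hq, h2, h3, h4⟩ := ih h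
      exact ⟨I, hI.trans (Finset.subset_insert _ _), q, Finset.mem_insert_of_mem hq, h2, h3, h4⟩

lemma clg_typeG_of {G : Finset ℕ} {S : Finset ι} {y : ι → ℝ} {e : ι → ℕ} {η c : ℝ} {l : ℕ}
    (hl : l ∈ G) {T B : Finset ι} (hT : T ⊆ S) (hB : B ⊆ S) (hd : Disjoint T B)
    (he : ∀ p ∈ T, e p = l) (hsum : ∑ p ∈ S, y p ≤ 1 + c)
    (h1 : ∑ p ∈ B, y p ≤ 1 / 2 - η) (h2 : 1 / 2 + η + c ≤ ∑ p ∈ T, y p + ∑ p ∈ B, y p) :
    TypeG G S y e η := by
  have hTB : T ∪ B ⊆ S := Finset.union_subset hT hB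
  refine ⟨l, hl, T, S \ (T ∪ B), B, ?_, ?_, ?_, he, ?_, h1⟩
  · ext p
    simp only [Finset.mem_union, Finset.mem_sdiff]
    constructor
    · rintro (h | ⟨h, _⟩ | h)
      · exact hT h
      · exact h
      · exact hB h
    · intro h
      by_cases h3 : p ∈ T
      · exact Or.inl h3
      · by_cases h4 : p ∈ B
        · exact Or.inr (Or.inr h4)
        · exact Or.inr (Or.inl ⟨h, fun h5 => h5.elim h3 h4⟩)
  · rw [Finset.disjoint_union_right]
    refine ⟨?_, hd⟩
    exact Finset.disjoint_sdiff.mono_left Finset.subset_union_left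
  · exact Finset.sdiff_disjoint.mono_right Finset.subset_union_right
  · have h3 : ∑ p ∈ S \ (T ∪ B), y p + ∑ p ∈ T ∪ B, y p = ∑ p ∈ S, y p :=
      Finset.sum_sdiff hTB
    rw [Finset.sum_union hd] at h3
    linarith only [hsum, h2, h3]

omit [DecidableEq ι] in
/-- Pigeonhole over the good exponents. -/
lemma clg_pigeon {G : Finset ℕ} {U : Finset ι} {y : ι → ℝ} {e : ι → ℕ} {σ : ℝ} (hσ : 0 < σ)
    (hG : G.card ≤ 6) (he : ∀ p ∈ U, e p ∈ G) (hs : σ ≤ ∑ p ∈ U, y p) :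
    ∃ l ∈ G, σ / 6 ≤ ∑ p ∈ U.filter (fun p => e p = l), y p := by
  by_contra hcon
  push Not at hcon
  have h1 : ∑ p ∈ U, y p = ∑ l ∈ G, ∑ p ∈ U.filter (fun p => e p = l), y p :=
    (Finset.sum_fiberwise_of_maps_to he y).symm
  have hGne : G.Nonempty := by
    by_contra h
    rw [Finset.not_nonempty_iff_eq_empty] at h
    rw [h1, h, Finset.sum_empty] at hs
    linarith only [hσ, hs]
  have h2 : ∑ l ∈ G, ∑ p ∈ U.filter (fun p => e p = l), y p < ∑ _l ∈ G, σ / 6 :=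
    Finset.sum_lt_sum_of_nonempty hGne hcon
  rw [Finset.sum_const, nsmul_eq_mul] at h2
  have h3 : (G.card : ℝ) ≤ 6 := by exact_mod_cast hG
  have h4 : (G.card : ℝ) * (σ / 6) ≤ 6 * (σ / 6) :=
    mul_le_mul_of_nonneg_right h3 (div_nonneg hσ.le (by norm_num))
  linarith only [hs, h1, h2, h4]

/-- Case A: the good small primes have a mass `s ≥ σ`. `Lg`, `Sm`: the good large and the good small primes, `Bd`
the bad primes. -/
lemma clg_caseA {G : Finset ℕ} {S Lg Sm Bd : Finset ι} {y : ι → ℝ} {e : ι → ℕ} {σ η1 η c : ℝ}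
    (hG : G.card ≤ 6)
    (hσ : 0 < σ) (hσ1 : σ ≤ 1 / 40) (hη1 : η1 = σ / 90) (hη : 0 < η) (hc : 0 ≤ c)
    (hsmall : 2 * η + c ≤ η1)
    (hS : Lg ∪ (Sm ∪ Bd) = S) (hdis : Disjoint Lg (Sm ∪ Bd)) (hdis2 : Disjoint Sm Bd)
    (heL : ∀ p ∈ Lg, e p ∈ G) (heS : ∀ p ∈ Sm, e p ∈ G)
    (hSm : ∀ p ∈ Sm, y p ≤ η1)
    (hbad : ∑ p ∈ Bd, y p ≤ 1 / 4)
    (hsum : ∑ p ∈ S, y p ≤ 1 + c) (hsum' : 1 - c ≤ ∑ p ∈ S, y p)
    (hs : σ ≤ ∑ p ∈ Sm, y p) : TypeG G S y e η := by
  have hη10 : 0 < η1 := by rw [hη1]; exact div_pos hσ (by norm_num)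
  have hSmS : Sm ⊆ S := hS ▸ (Finset.subset_union_left.trans Finset.subset_union_right)
  have hLgS : Lg ⊆ S := hS ▸ Finset.subset_union_left
  have hsumLS : ∑ p ∈ Lg, y p + (∑ p ∈ Sm, y p + ∑ p ∈ Bd, y p) = ∑ p ∈ S, y p := by
    rw [← hS, Finset.sum_union hdis, Finset.sum_union hdis2]
  have hdisLS : Disjoint Lg Sm := hdis.mono_right Finset.subset_union_left
  obtain ⟨s, hsdef⟩ : ∃ s, s = ∑ p ∈ Sm, y p := ⟨_, rfl⟩
  rw [← hsdef] at hs hsumLS
  -- the class `T` of small primes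
  obtain ⟨l, hl, hl3⟩ := clg_pigeon hσ hG heS (hsdef ▸ hs)
  obtain ⟨T, hT, hT1, hT2⟩ := clg_greedy (Sm.filter (fun p => e p = l)) y (a := 7 * η1) (δ := η1)
    (fun p hp => hSm p (Finset.mem_filter.mp hp).1) (mul_nonneg (by norm_num) hη10.le) hη10.le (by linarith only [hσ, hη1, hl3])
  have hTSm : T ⊆ Sm := hT.trans (Finset.filter_subset _ _)
  obtain ⟨x, hx⟩ : ∃ x, x = ∑ p ∈ T, y p := ⟨_, rfl⟩
  rw [← hx] at hT1 hT2
  have hsx : ∑ p ∈ Sm \ T, y p = s - x := by
    have := Finset.sum_sdiff (f := y) hTSm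
    rw [hsdef, hx]
    linarith only [this]
  -- claim A1
  have A1 : ∀ I ⊆ Lg, ∑ p ∈ I, y p ≤ 1 / 2 - η → 1 / 2 + η + c ≤ ∑ p ∈ I, y p + s →
      TypeG G S y e η := by
    intro I hI h1 h2
    have hIT : Disjoint T I := (hdisLS.mono hI hTSm).symm
    by_cases h3 : 1 / 2 + η + c ≤ x + ∑ p ∈ I, y p
    · exact clg_typeG_of hl (hTSm.trans hSmS) (hI.trans hLgS) hIT
        (fun p hp => (Finset.mem_filter.mp (hT hp)).2) hsum h1 (by rw [← hx]; exact h3)
    · obtain ⟨U, hU, hU1, hU2⟩ := clg_greedy (Sm \ T) y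
        (a := 1 / 2 + η + c - x - ∑ p ∈ I, y p) (δ := η1)
        (fun p hp => hSm p (Finset.mem_sdiff.mp hp).1) (by linarith [not_le.mp h3]) hη10.le
        (by rw [hsx]; linarith only [h2])
      have hUSm : U ⊆ Sm := hU.trans Finset.sdiff_subset
      have hIU : Disjoint I U := hdisLS.mono hI hUSm
      have hTU : Disjoint T U := Finset.disjoint_sdiff.mono_right hU
      refine clg_typeG_of (B := I ∪ U) hl (hTSm.trans hSmS)
        (Finset.union_subset (hI.trans hLgS) (hUSm.trans hSmS))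
        (Finset.disjoint_union_right.mpr ⟨hIT, hTU⟩)
        (fun p hp => (Finset.mem_filter.mp (hT hp)).2) hsum ?_ ?_
      · rw [Finset.sum_union hIU]
        linarith only [hsmall, hT2, hT1, hU2]
      · rw [Finset.sum_union hIU, ← hx]
        linarith only [hU1]
  by_cases hI0 : 1 / 2 + η + c ≤ s
  · exact A1 ∅ (Finset.empty_subset _) (by rw [Finset.sum_empty]; linarith only [hσ1, hη1, hc, hsmall])
      (by rw [Finset.sum_empty]; linarith only [hI0])
  by_cases hLg1 : ∑ p ∈ Lg, y p ≤ 1 / 2 - η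
  · exact A1 Lg (Finset.Subset.refl _) hLg1 (by linarith only [hσ1, hη1, hη, hsmall, hbad, hsum', hsumLS])
  obtain ⟨I, hI, p, hp, hpI, hq1, hq2⟩ := clg_jump Lg (fun I => ∑ p ∈ I, y p ≤ 1 / 2 - η)
    (by rw [Finset.sum_empty]; linarith only [hσ1, hη1, hc, hsmall]) hLg1
  by_cases hA : 1 / 2 + η + c ≤ ∑ p ∈ I, y p + s
  · exact A1 I hI hq1 hA
  rw [Finset.sum_insert hpI] at hq2
  push Not at hq2 hA
  -- `T = {p}`, `B = I` and some small primes
  have hpS : p ∈ S := hLgS hp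
  obtain ⟨U, hU, hU1, hU2⟩ := clg_greedy Sm y (a := σ / 4) (δ := η1) hSm (div_nonneg hσ.le (by norm_num)) hη10.le
    (by rw [← hsdef]; linarith only [hη1, hη, hc, hsmall, hs])
  have hIU : Disjoint I U := hdisLS.mono hI hU
  have hpU : p ∉ U := fun h => Finset.disjoint_left.mp hdisLS hp (hU h)
  refine clg_typeG_of (T := {p}) (B := I ∪ U) (heL p hp) (Finset.singleton_subset_iff.mpr hpS)
    (Finset.union_subset (hI.trans hLgS) (hU.trans hSmS)) ?_ ?_ hsum ?_ ?_
  · rw [Finset.disjoint_singleton_left, Finset.mem_union]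
    exact fun h => h.elim hpI hpU
  · intro q hq
    rw [Finset.mem_singleton.mp hq]
  · rw [Finset.sum_union hIU]
    linarith only [hη1, hsmall, hs, hA, hU1, hU2]
  · rw [Finset.sum_union hIU, Finset.sum_singleton]
    linarith only [hη1, hsmall, hq2, hU1, hU2]

lemma clg_num1 {i r : ℕ} (h : 3 * i < 2 * r) (hr : r ≤ 6) : i ≤ 3 := by omega

lemma clg_num2 {i r : ℕ} (h : 3 * i < 2 * r) (hr : r ≤ 6) (h2 : r ≤ 2 * i) (h3 : ¬ r = 2 * i) :
    i = 3 ∧ r = 5 := by omega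

lemma clg_div {i : ℝ} (h : i ≠ 0) (y0 : ℝ) : y0 - 1 / (2 * i) = (i * y0 - 1 / 2) / i := by
  field_simp

/-- Case B: the good small primes have a mass `s < σ`. -/
lemma clg_caseB {G : Finset ℕ} {S Lg Sm Bd : Finset ι} {y : ι → ℝ} {e : ι → ℕ} {ρ σ η1 c : ℝ}
    (hG : G.card ≤ 6) (_hρ : 0 < ρ)
    (hσ : 0 < σ) (hσ1 : σ ≤ 1 / 1000) (hσρ : σ ≤ ρ / 10) (hη1 : η1 = σ / 90)
    (hc0 : 0 < c) (hc : c ≤ η1 / 1000)
    (hS : Lg ∪ (Sm ∪ Bd) = S) (hdis : Disjoint Lg (Sm ∪ Bd)) (hdis2 : Disjoint Sm Bd)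
    (hy : ∀ p ∈ S, 0 ≤ y p)
    (heL : ∀ p ∈ Lg, e p ∈ G) (heB : ∀ p ∈ Bd, e p ∉ G)
    (hLg : ∀ p ∈ Lg, η1 ≤ y p)
    (hbad : ∑ p ∈ Bd, y p ≤ 1 / 4 - ρ)
    (hsum : ∑ p ∈ S, y p ≤ 1 + c) (hsum' : 1 - c ≤ ∑ p ∈ S, y p)
    (hs : ∑ p ∈ Sm, y p < σ) : TypeG G S y e c ∨ TieG G S y e σ := by
  have hη10 : 0 < η1 := by rw [hη1]; exact div_pos hσ (by norm_num)
  have hcσ : c ≤ σ / 90000 := by
    rw [hη1] at hc
    linarith only [hc]
  have hBdS : Bd ⊆ S := hS ▸ (Finset.subset_union_right.trans Finset.subset_union_right)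
  have hSmS : Sm ⊆ S := hS ▸ (Finset.subset_union_left.trans Finset.subset_union_right)
  have hLgS : Lg ⊆ S := hS ▸ Finset.subset_union_left
  have hsumLS : ∑ p ∈ Lg, y p + (∑ p ∈ Sm, y p + ∑ p ∈ Bd, y p) = ∑ p ∈ S, y p := by
    rw [← hS, Finset.sum_union hdis, Finset.sum_union hdis2]
  have hdisLB : Disjoint Lg Bd := hdis.mono_right Finset.subset_union_right
  have hSm0 : 0 ≤ ∑ p ∈ Sm, y p := Finset.sum_nonneg fun p hp => hy p (hSmS hp)
  have hBd0 : 0 ≤ ∑ p ∈ Bd, y p := Finset.sum_nonneg fun p hp => hy p (hBdS hp)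
  by_cases hP : TypeG G S y e c
  · exact Or.inl hP
  right
  -- claim B1
  have B1 : ∀ p ∈ Lg, ∀ I ⊆ S, p ∉ I → ∑ q ∈ I, y q ≤ 1 / 2 - c →
      ∑ q ∈ I, y q + y p < 1 / 2 + 2 * c := by
    intro p hp I hI hpI h1
    by_contra h2
    push Not at h2
    apply hP
    refine clg_typeG_of (T := {p}) (B := I) (heL p hp)
      (Finset.singleton_subset_iff.mpr (hLgS hp)) hI
      (Finset.disjoint_singleton_left.mpr hpI) ?_ hsum h1 ?_
    · intro q hq
      rw [Finset.mem_singleton.mp hq]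
    · rw [Finset.sum_singleton]
      linarith only [h2]
  -- the middle sets
  obtain ⟨Mid, hMid⟩ : ∃ Mid : Finset ι → Prop, ∀ M, Mid M ↔
      (M ⊆ S ∧ 1 / 2 - c < ∑ p ∈ M, y p ∧ ∑ p ∈ M, y p < 1 / 2 + 2 * c) :=
    ⟨fun M => M ⊆ S ∧ 1 / 2 - c < ∑ p ∈ M, y p ∧ ∑ p ∈ M, y p < 1 / 2 + 2 * c,
      fun M => Iff.rfl⟩
  have hexK : ∀ K ⊆ Bd, ∃ M ⊆ Lg, Mid (K ∪ M) := by
    intro K hK
    have hKs : ∑ p ∈ K, y p ≤ ∑ p ∈ Bd, y p :=
      Finset.sum_le_sum_of_subset_of_nonneg hK (fun p hp _ => hy p (hBdS hp))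
    have hK0 : 0 ≤ ∑ p ∈ K, y p := Finset.sum_nonneg fun p hp => hy p (hBdS (hK hp))
    have hdK : Disjoint K Lg := (hdisLB.mono_right hK).symm
    obtain ⟨I, hI, p, hp, hpI, h1, h2⟩ := clg_jump Lg
      (fun I => ∑ p ∈ K, y p + ∑ p ∈ I, y p ≤ 1 / 2 - c)
      (by rw [Finset.sum_empty]; linarith only [hσρ, hη1, hc, hbad, hsum, hsum', hKs]) (by push Not; linarith only [hσρ, hbad, hsum', hs, hsumLS, hSm0, hK0])
    have hdKI : Disjoint K I := hdK.mono_right hI
    have hpK : p ∉ K := fun h => Finset.disjoint_left.mp hdK h hp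
    have hsub : insert p I ⊆ Lg := Finset.insert_subset hp hI
    have hKI : ∑ q ∈ K ∪ I, y q = ∑ p ∈ K, y p + ∑ p ∈ I, y p := Finset.sum_union hdKI
    have hb := B1 p hp (K ∪ I) (Finset.union_subset (hK.trans hBdS) (hI.trans hLgS))
      (by rw [Finset.mem_union]; exact fun h => h.elim hpK hpI) (by rw [hKI]; exact h1)
    rw [hKI] at hb
    refine ⟨insert p I, hsub, (hMid _).mpr ⟨Finset.union_subset (hK.trans hBdS)
      (hsub.trans hLgS), ?_, ?_⟩⟩
    · rw [Finset.sum_union (hdK.mono_right hsub)]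
      exact not_le.mp h2
    · rw [Finset.sum_union (hdK.mono_right hsub), Finset.sum_insert hpI]
      linarith only [hb]
  have swap : ∀ M, Mid M → ∀ p ∈ M, p ∈ Lg → ∀ q ∈ Lg, q ∉ M →
      |y p - y q| ≤ 3 * c ∧ Mid (insert q (M.erase p)) := by
    intro M hM p hp hpL q hq hqM
    obtain ⟨hM1, hM2, hM3⟩ := (hMid M).mp hM
    have h1 : ∑ r ∈ M.erase p, y r = ∑ r ∈ M, y r - y p := by
      rw [← Finset.sum_erase_add M y hp]
      ring
    have hpy := hLg p hpL
    have hqy := hLg q hq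
    have hqe : q ∉ M.erase p := fun h => hqM (Finset.mem_of_mem_erase h)
    have hpq : p ≠ q := fun h => hqM (h ▸ hp)
    have hsub : M.erase p ⊆ S := (Finset.erase_subset _ _).trans hM1
    have h2 := B1 q hq (M.erase p) hsub hqe (by rw [h1]; linarith only [hc, hM2, hM3, hpy])
    rw [h1] at h2
    have h3 : ∑ r ∈ insert q (M.erase p), y r = y q + (∑ r ∈ M, y r - y p) := by
      rw [Finset.sum_insert hqe, h1]
    have h4 : 1 / 2 - c < ∑ r ∈ insert q (M.erase p), y r := by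
      by_contra h5
      push Not at h5
      have h6 : p ∉ insert q (M.erase p) := by
        rw [Finset.mem_insert]
        rintro (h | h)
        · exact hpq h
        · exact (Finset.notMem_erase p M) h
      have h7 := B1 p hpL (insert q (M.erase p)) (Finset.insert_subset (hLgS hq) hsub) h6 h5
      rw [h3] at h7
      linarith only [hc0, hc, hM2, hqy, h7]
    rw [h3] at h4
    refine ⟨?_, (hMid _).mpr ⟨Finset.insert_subset (hLgS hq) hsub, ?_, ?_⟩⟩
    · rw [abs_le]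
      constructor
      · linarith only [hM2, h2]
      · linarith only [hM3, h4]
    · rw [h3]
      exact h4
    · rw [h3]
      linarith only [h2]
  obtain ⟨M, hMLg, hM⟩ : ∃ M ⊆ Lg, Mid M := by
    obtain ⟨M, h1, h2⟩ := hexK ∅ (Finset.empty_subset _)
    rw [Finset.empty_union] at h2
    exact ⟨M, h1, h2⟩
  obtain ⟨hM1, hM2, hM3⟩ := (hMid M).mp hM
  have hMne : M.Nonempty := by
    by_contra h
    rw [Finset.not_nonempty_iff_eq_empty] at h
    rw [h, Finset.sum_empty] at hM2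
    linarith only [hσ1, hcσ, hM2]
  obtain ⟨a, ha⟩ := hMne
  have haL : a ∈ Lg := hMLg ha
  have hb : ∃ b ∈ Lg, b ∉ M := by
    by_contra h
    push Not at h
    have h1 : ∑ p ∈ Lg, y p ≤ ∑ p ∈ M, y p :=
      Finset.sum_le_sum_of_subset_of_nonneg h (fun p hp _ => hy p (hM1 hp))
    linarith only [hσρ, hbad, hsum', hs, hcσ, hsumLS, hM2, hM3, h1]
  obtain ⟨b, hb, hbM⟩ := hb
  -- all large masses are about the same
  obtain ⟨y0, hy0⟩ : ∃ y0, y0 = y a := ⟨_, rfl⟩
  have hnear : ∀ r ∈ Lg, |y r - y0| ≤ 6 * c := by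
    intro r hr
    have h1 := (swap M hM a ha haL b hb hbM).1
    rw [hy0]
    by_cases hrM : r ∈ M
    · have h2 := (swap M hM r hrM hr b hb hbM).1
      rw [abs_le] at h1 h2 ⊢
      constructor
      · linarith only [h1, h2]
      · linarith only [h1, h2]
    · have h2 := (swap M hM a ha haL r hr hrM).1
      rw [abs_le] at h2 ⊢
      constructor
      · linarith only [h2]
      · linarith only [h2]
  -- the exponents are different
  have hdist0 : ∀ p ∈ Lg, ∀ q ∈ Lg, e p = e q → ∀ M', Mid M' → p ∈ M' → q ∉ M' → False := by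
    intro p hp q hq heq M' hM' hpM hqM
    obtain ⟨h1, h2, h3⟩ := (hMid M').mp hM'
    have hpq : p ≠ q := fun h => hqM (h ▸ hpM)
    have h4 : ∑ r ∈ M'.erase p, y r = ∑ r ∈ M', y r - y p := by
      rw [← Finset.sum_erase_add M' y hpM]
      ring
    apply hP
    refine clg_typeG_of (T := {p, q}) (B := M'.erase p) (heL p hp) ?_
      ((Finset.erase_subset _ _).trans h1) ?_ ?_ hsum ?_ ?_
    · intro r hr
      rw [Finset.mem_insert, Finset.mem_singleton] at hr
      rcases hr with rfl | rfl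
      · exact hLgS hp
      · exact hLgS hq
    · rw [Finset.disjoint_left]
      intro r hr hr'
      rw [Finset.mem_insert, Finset.mem_singleton] at hr
      rcases hr with rfl | rfl
      · exact (Finset.notMem_erase _ _) hr'
      · exact hqM (Finset.mem_of_mem_erase hr')
    · intro r hr
      rw [Finset.mem_insert, Finset.mem_singleton] at hr
      rcases hr with rfl | rfl
      · rfl
      · exact heq.symm
    · rw [h4]
      have := hLg p hp
      linarith only [hc0, hc, h3, this]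
    · rw [h4, Finset.sum_pair hpq]
      have := hLg q hq
      linarith only [hc0, hc, h2, this]
  have hdist : ∀ p ∈ Lg, ∀ q ∈ Lg, e p = e q → p = q := by
    intro p hp q hq heq
    by_contra hpq
    by_cases hpM : p ∈ M
    · by_cases hqM : q ∈ M
      · have hqb : q ≠ b := fun h => hbM (h ▸ hqM)
        refine hdist0 p hp q hq heq _ (swap M hM q hqM hq b hb hbM).2 ?_ ?_
        · exact Finset.mem_insert_of_mem (Finset.mem_erase.mpr ⟨hpq, hpM⟩)
        · rw [Finset.mem_insert]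
          rintro (h | h)
          · exact hqb h
          · exact (Finset.notMem_erase _ _) h
      · exact hdist0 p hp q hq heq M hM hpM hqM
    · by_cases hqM : q ∈ M
      · exact hdist0 q hq p hp heq.symm M hM hqM hpM
      · refine hdist0 p hp q hq heq _ (swap M hM a ha haL p hp hpM).2
          (Finset.mem_insert_self _ _) ?_
        rw [Finset.mem_insert]
        rintro (h | h)
        · exact hpq h.symm
        · exact hqM (Finset.mem_of_mem_erase h)
  -- numbers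
  obtain ⟨r, hr⟩ : ∃ r : ℕ, r = Lg.card := ⟨_, rfl⟩
  obtain ⟨i, hi⟩ : ∃ i : ℕ, i = M.card := ⟨_, rfl⟩
  have hrG : r ≤ G.card := by
    rw [hr, ← Finset.card_image_of_injOn (f := e) (fun p hp q hq h => hdist p hp q hq h)]
    apply Finset.card_le_card
    intro n hn
    obtain ⟨p, hp, rfl⟩ := Finset.mem_image.mp hn
    exact heL p hp
  have hr6 : r ≤ 6 := hrG.trans hG
  have hir : i ≤ r := by rw [hi, hr]; exact Finset.card_le_card hMLg
  have hi1 : 1 ≤ i := by
    rw [hi]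
    exact Finset.card_pos.mpr ⟨a, ha⟩
  have hirR : (i : ℝ) ≤ r := by exact_mod_cast hir
  have hr6R : (r : ℝ) ≤ 6 := by exact_mod_cast hr6
  have hi0 : (0 : ℝ) ≤ i := Nat.cast_nonneg _
  have hr0 : (0 : ℝ) ≤ r := Nat.cast_nonneg _
  have hi1R : (1 : ℝ) ≤ i := by exact_mod_cast hi1
  have hsub1 : ∀ I ⊆ Lg, |∑ p ∈ I, y p - I.card * y0| ≤ 36 * c := by
    intro I hI
    have h1 : ∑ p ∈ I, y p ≤ I.card * (y0 + 6 * c) := by
      have := Finset.sum_le_card_nsmul I y (y0 + 6 * c) (fun p hp => by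
        have := hnear p (hI hp)
        rw [abs_le] at this
        linarith only [this])
      rwa [nsmul_eq_mul] at this
    have h2 : I.card * (y0 - 6 * c) ≤ ∑ p ∈ I, y p := by
      have := Finset.card_nsmul_le_sum I y (y0 - 6 * c) (fun p hp => by
        have := hnear p (hI hp)
        rw [abs_le] at this
        linarith only [this])
      rwa [nsmul_eq_mul] at this
    have h3 : (I.card : ℝ) ≤ 6 := by
      have : I.card ≤ 6 := (Finset.card_le_card hI).trans (hr ▸ hr6)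
      exact_mod_cast this
    have h4 : (I.card : ℝ) * (6 * c) ≤ 6 * (6 * c) :=
      mul_le_mul_of_nonneg_right h3 (mul_nonneg (by norm_num) hc0.le)
    have h5 : (I.card : ℝ) * (y0 + 6 * c) = I.card * y0 + I.card * (6 * c) := by ring
    have h6 : (I.card : ℝ) * (y0 - 6 * c) = I.card * y0 - I.card * (6 * c) := by ring
    rw [h5] at h1
    rw [h6] at h2
    rw [abs_le]
    constructor
    · linarith only [h2, h4]
    · linarith only [h1, h4]
  have hLgs := hsub1 Lg (Finset.Subset.refl _)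
  have hMs := hsub1 M hMLg
  rw [← hr] at hLgs
  rw [← hi] at hMs
  rw [abs_le] at hLgs hMs
  -- `i y0 = 1/2`
  have hiy1 : (i : ℝ) * y0 ≤ 1 / 2 + 38 * c := by linarith only [hM3, hMs]
  have hiy2 : 1 / 2 - 38 * c ≤ (i : ℝ) * y0 := by linarith only [hM2, hMs]
  have hry1 : (r : ℝ) * y0 ≤ 1 + 37 * c := by linarith only [hsum, hsumLS, hSm0, hBd0, hLgs]
  have hry2 : 3 / 4 + ρ / 2 ≤ (r : ℝ) * y0 := by linarith only [hσρ, hbad, hsum', hs, hcσ, hsumLS, hLgs]
  have hy0pos : 0 < y0 := by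
    by_contra h
    push Not at h
    have := mul_nonpos_of_nonneg_of_nonpos hr0 h
    linarith only [hσ, hσρ, hry2, this]
  -- `3 i < 2 r`
  have h3i : 3 * i < 2 * r := by
    have h1 : 3 * (i : ℝ) * y0 < 2 * r * y0 := by
      rw [mul_assoc, mul_assoc]
      linarith only [hiy1, hry2, hσρ, hcσ, hσ]
    have h2 : 3 * (i : ℝ) < 2 * r := lt_of_mul_lt_mul_right h1 hy0pos.le
    exact_mod_cast h2
  have hi3 : i ≤ 3 := clg_num1 h3i hr6
  have hi3R : (i : ℝ) ≤ 3 := by exact_mod_cast hi3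
  have hy01 : 1 / 10 ≤ y0 := by
    by_contra h
    push Not at h
    have h1 : (i : ℝ) * y0 ≤ 3 * (1 / 10) := by
      calc (i : ℝ) * y0 ≤ 3 * y0 := mul_le_mul_of_nonneg_right hi3R hy0pos.le
        _ ≤ 3 * (1 / 10) := by linarith only [h]
    linarith only [hσ1, hη1, hc, hiy2, h1]
  have hr2i : r ≤ 2 * i := by
    by_contra h
    push Not at h
    have h1 : (2 * (i : ℝ) + 1) ≤ r := by exact_mod_cast h
    have h2 : (2 * (i : ℝ) + 1) * y0 ≤ r * y0 := mul_le_mul_of_nonneg_right h1 hy0pos.le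
    linarith only [hσ1, hη1, hc, hiy2, hry1, hy01, h2]
  have hy0i : |y0 - 1 / (2 * i)| ≤ 38 * c := by
    have hiposR : (0 : ℝ) < i := lt_of_lt_of_le one_pos hi1R
    have h3 : y0 - 1 / (2 * (i : ℝ)) = (i * y0 - 1 / 2) / i := clg_div hiposR.ne' y0
    rw [h3, abs_div, abs_of_pos hiposR, div_le_iff₀ hiposR]
    have h4 : |(i : ℝ) * y0 - 1 / 2| ≤ 38 * c := by
      rw [abs_le]
      constructor
      · linarith only [hiy2]
      · linarith only [hiy1]
    exact h4.trans (le_mul_of_one_le_right (mul_nonneg (by norm_num) hc0.le) hi1R)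
  have hyi : ∀ p ∈ Lg, |y p - 1 / (2 * i)| ≤ σ := by
    intro p hp
    have h1 := hnear p hp
    rw [abs_le] at h1 hy0i ⊢
    constructor
    · linarith only [hcσ, hy0i, h1]
    · linarith only [hcσ, hy0i, h1]
  by_cases hreq : r = 2 * i
  · -- the large good primes are a tie
    have hjG : 2 * i ≤ G.card + 1 := hreq ▸ (hrG.trans (Nat.le_succ _))
    refine ⟨i, hi1, hi3, hjG, Lg, hLgS, hr ▸ hreq, hyi, hdist, ?_, fun _ => heL⟩
    have h1 : ∑ p ∈ S \ Lg, y p + ∑ p ∈ Lg, y p = ∑ p ∈ S, y p := Finset.sum_sdiff hLgS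
    have h2 : (r : ℝ) * y0 = 2 * (i * y0) := by
      rw [hreq]
      push_cast
      ring
    linarith only [hη1, hc, hsum, hLgs, hiy2, h1, h2]
  · obtain ⟨hi3', hr5⟩ := clg_num2 h3i hr6 hr2i hreq
    rw [hi3'] at hy0i hyi hi3R hiy1 hiy2
    rw [hr5] at hLgs hry1 hry2
    push_cast at hy0i hyi hiy1 hiy2 hLgs hry1 hry2
    rw [abs_le] at hy0i
    -- the subsums of the bad primes
    have hK : ∀ K ⊆ Bd, ∑ p ∈ K, y p ≤ 300 * c ∨ |∑ p ∈ K, y p - 1 / 6| ≤ 300 * c := by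
      intro K hKB
      have hKs : ∑ p ∈ K, y p ≤ ∑ p ∈ Bd, y p :=
        Finset.sum_le_sum_of_subset_of_nonneg hKB (fun p hp _ => hy p (hBdS hp))
      have hK0 : 0 ≤ ∑ p ∈ K, y p := Finset.sum_nonneg fun p hp => hy p (hBdS (hKB hp))
      obtain ⟨I, hI, hm⟩ := hexK K hKB
      obtain ⟨-, h2, h3⟩ := (hMid _).mp hm
      have hdK : Disjoint K I := ((hdisLB.mono_right hKB).symm).mono_right hI
      rw [Finset.sum_union hdK] at h2 h3
      have h4 := hsub1 I hI
      rw [abs_le] at h4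
      obtain ⟨m, hmdef⟩ : ∃ m : ℕ, m = I.card := ⟨_, rfl⟩
      rw [← hmdef] at h4
      have hm5 : m ≤ 5 := by
        rw [hmdef, ← hr5, hr]
        exact Finset.card_le_card hI
      interval_cases m
      · exfalso
        push_cast at h4
        linarith only [hσρ, hη1, hc, hbad, hKs, h2, h4]
      · exfalso
        push_cast at h4
        linarith only [hσρ, hη1, hc, hbad, hy0i, hKs, h2, h4]
      · right
        push_cast at h4
        rw [abs_le]
        constructor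
        · linarith only [hy0i, h2, h4]
        · linarith only [hy0i, h3, h4]
      · left
        push_cast at h4
        linarith only [hy0i, h3, h4]
      · exfalso
        push_cast at h4
        linarith only [hσ1, hη1, hc, hy0i, hK0, h3, h4]
      · exfalso
        push_cast at h4
        linarith only [hσ1, hη1, hc, hy0i, hK0, h3, h4]
    -- the bad primes have mass about `1 / 6`
    have hBdsum : 1 / 7 ≤ ∑ p ∈ Bd, y p := by linarith only [hσρ, hbad, hsum', hs, hcσ, hsumLS, hLgs, hiy1]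
    by_cases hq : ∃ q ∈ Bd, |y q - 1 / 6| ≤ 300 * c
    · obtain ⟨q, hqB, hq1⟩ := hq
      have hqL : q ∉ Lg := fun h => Finset.disjoint_left.mp hdisLB h hqB
      have hsubJ : insert q Lg ⊆ S := Finset.insert_subset (hBdS hqB) hLgS
      have hG5 : 2 * 3 ≤ G.card + 1 := Nat.succ_le_succ (hr5 ▸ hrG)
      refine ⟨3, by norm_num, le_rfl, hG5, insert q Lg, hsubJ, ?_, ?_, ?_, ?_, ?_⟩
      · rw [Finset.card_insert_of_notMem hqL, ← hr, hr5]
      · intro p hp
        rcases Finset.mem_insert.mp hp with rfl | hp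
        · push_cast
          rw [abs_le] at hq1 ⊢
          constructor
          · linarith only [hcσ, hq1]
          · linarith only [hcσ, hq1]
        · have := hyi p hp
          push_cast
          exact this
      · intro p hp p' hp' heq
        rcases Finset.mem_insert.mp hp with h1 | h1
        · rcases Finset.mem_insert.mp hp' with h2 | h2
          · rw [h1, h2]
          · exact absurd (heq ▸ heL p' h2) (heB p (h1 ▸ hqB))
        · rcases Finset.mem_insert.mp hp' with h2 | h2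
          · exact absurd (heq ▸ heL p h1) (heB p' (h2 ▸ hqB))
          · exact hdist p h1 p' h2 heq
      · have h1 : ∑ p ∈ S \ insert q Lg, y p + ∑ p ∈ insert q Lg, y p = ∑ p ∈ S, y p :=
          Finset.sum_sdiff hsubJ
        rw [Finset.sum_insert hqL] at h1
        rw [abs_le] at hq1
        linarith only [hsum, hcσ, hLgs, hy0i, hq1, h1]
      · intro h
        exact absurd h (by norm_num)
    · exfalso
      push Not at hq
      have hsmall : ∀ q ∈ Bd, y q ≤ 300 * c := by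
        intro q hqB
        have h1 := hK {q} (Finset.singleton_subset_iff.mpr hqB)
        rw [Finset.sum_singleton] at h1
        exact h1.resolve_right (not_le.mpr (hq q hqB))
      obtain ⟨K, hKB, h1, h2⟩ := clg_greedy Bd y (a := 1 / 12) (δ := 300 * c) hsmall
        (by norm_num) (mul_nonneg (by norm_num) hc0.le) (by linarith only [hBdsum])
      rcases hK K hKB with h3 | h3
      · linarith only [hσ1, hη1, hc, h1, h3]
      · rw [abs_le] at h3
        linarith only [hσ1, hcσ, h2, h3]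

/-- THE CLASSIFICATION with a set `G` of good exponents. -/
theorem cls_good {ρ σ : ℝ} (hρ : 0 < ρ) (hσ : 0 < σ) :
    ∃ η : ℝ, 0 < η ∧ η ≤ σ ∧ η ≤ 1 / 8 ∧ ∀ (G : Finset ℕ), G.card ≤ 6 →
      ∀ (S : Finset ℕ) (y : ℕ → ℝ) (e : ℕ → ℕ),
      (∀ p ∈ S, 0 ≤ y p) → |∑ p ∈ S, y p - 1| ≤ η →
      ∑ p ∈ S.filter (fun p => e p ∉ G), y p ≤ 1 / 4 - ρ →
      TypeG G S y e η ∨ TieG G S y e σ := by
  classical
  obtain ⟨s, hs⟩ : ∃ s, s = min (ρ / 10) (min σ (1 / 1000)) := ⟨_, rfl⟩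
  have hs0 : 0 < s := by
    rw [hs]
    positivity
  have hsρ : s ≤ ρ / 10 := hs ▸ min_le_left _ _
  have hsσ : s ≤ σ := hs ▸ ((min_le_right _ _).trans (min_le_left _ _))
  have hs1 : s ≤ 1 / 1000 := hs ▸ ((min_le_right _ _).trans (min_le_right _ _))
  refine ⟨s / 90 / 1000, by positivity, by linarith only [hs0, hsσ], by linarith only [hs0, hs1], ?_⟩
  intro G hG S y e hy hsum hbad
  rw [abs_le] at hsum
  obtain ⟨Gd, hGd⟩ : ∃ Gd, Gd = S.filter (fun p => e p ∈ G) := ⟨_, rfl⟩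
  obtain ⟨Bd, hBd⟩ : ∃ Bd, Bd = S.filter (fun p => e p ∉ G) := ⟨_, rfl⟩
  rw [← hBd] at hbad
  have h1 : Gd ∪ Bd = S := by
    rw [hGd, hBd]
    exact Finset.filter_union_filter_not_eq _ _
  have h2 : Disjoint Gd Bd := by
    rw [hGd, hBd]
    exact Finset.disjoint_filter_filter_not _ _ _
  have heG : ∀ p ∈ Gd, e p ∈ G := by
    intro p hp
    rw [hGd] at hp
    exact (Finset.mem_filter.mp hp).2
  have heB : ∀ p ∈ Bd, e p ∉ G := by
    intro p hp
    rw [hBd] at hp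
    exact (Finset.mem_filter.mp hp).2
  clear hGd hBd
  obtain ⟨Lg, hLg⟩ : ∃ Lg, Lg = Gd.filter (fun p => s / 90 ≤ y p) := ⟨_, rfl⟩
  obtain ⟨Sm, hSm⟩ : ∃ Sm, Sm = Gd.filter (fun p => ¬ s / 90 ≤ y p) := ⟨_, rfl⟩
  have h3 : Lg ∪ Sm = Gd := by
    rw [hLg, hSm]
    exact Finset.filter_union_filter_not_eq _ _
  have h4 : Disjoint Lg Sm := by
    rw [hLg, hSm]
    exact Finset.disjoint_filter_filter_not _ _ _
  have hLG : Lg ⊆ Gd := h3 ▸ Finset.subset_union_left
  have hSG : Sm ⊆ Gd := h3 ▸ Finset.subset_union_right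
  have hLy : ∀ p ∈ Lg, s / 90 ≤ y p := by
    intro p hp
    rw [hLg] at hp
    exact (Finset.mem_filter.mp hp).2
  have hSy : ∀ p ∈ Sm, y p ≤ s / 90 := by
    intro p hp
    rw [hSm] at hp
    exact (not_le.mp (Finset.mem_filter.mp hp).2).le
  clear hLg hSm
  have hS : Lg ∪ (Sm ∪ Bd) = S := by
    rw [← Finset.union_assoc, h3, h1]
  have hdis : Disjoint Lg (Sm ∪ Bd) := by
    rw [Finset.disjoint_union_right]
    exact ⟨h4, h2.mono_left hLG⟩
  have hdis2 : Disjoint Sm Bd := h2.mono_left hSG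
  obtain ⟨c, hc⟩ : ∃ c, c = s / 90 / 1000 := ⟨_, rfl⟩
  have hc0 : 0 < c := by rw [hc]; positivity
  rw [← hc] at hsum ⊢
  have hsum1 : ∑ p ∈ S, y p ≤ 1 + c := by linarith only [hsum]
  have hsum2 : 1 - c ≤ ∑ p ∈ S, y p := by linarith only [hsum]
  by_cases hsm : s ≤ ∑ p ∈ Sm, y p
  · left
    exact clg_caseA hG hs0 (by linarith only [hs1]) rfl hc0 hc0.le
      (by linarith only [hc, hc0]) hS hdis hdis2 (fun p hp => heG p (hLG hp))
      (fun p hp => heG p (hSG hp)) hSy (by linarith only [hρ, hbad]) hsum1 hsum2 hsm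
  · rcases clg_caseB hG hρ hs0 hs1 hsρ rfl hc0 hc.le hS hdis hdis2 hy
      (fun p hp => heG p (hLG hp)) heB hLy hbad hsum1 hsum2
      (not_le.mp hsm) with h | ⟨j, hj1, hj3, hjG, J, hJS, hJc, hJy, hJe, hJs, hJG⟩
    · exact Or.inl h
    · exact Or.inr ⟨j, hj1, hj3, hjG, J, hJS, hJc, fun p hp => (hJy p hp).trans hsσ, hJe,
        hJs.trans hsσ, hJG⟩

end Hp

end Pool.Agent.Lib.MP_d8bd92_nt
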