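import Pool.Agent.Lib.MP_d8bd92_nt.Hp.Preds
import Pool.Agent.Lib.MP_d8bd92_nt.Hp.ClsG

set_option autoImplicit false

/-! Phase 2: the classification of the sides with the good exponents `1, ..., L0`, from `cls_good`. -/

namespace Pool.Agent.Lib.MP_d8bd92_nt

namespace Hp

open Finset Pool.Agent.Lib.Szpiro

/-- the part of `n` composed of the primes in `U` -/
private noncomputable def prt (n : ℕ) (U : Finset ℕ) : ℕ := ∏ p ∈ U, p ^ n.factorization p

private lemma prt_union {n : ℕ} {U V : Finset ℕ} (h : Disjoint U V) :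
    prt n (U ∪ V) = prt n U * prt n V := by
  unfold prt
  exact Finset.prod_union h

private lemma prime_dvd_prt {n : ℕ} {U : Finset ℕ} (hU : U ⊆ n.primeFactors) {q : ℕ} (hq : q.Prime)
    (h : q ∣ prt n U) : q ∈ U := by
  unfold prt at h
  obtain ⟨p, hp, h1⟩ := (hq.prime.dvd_finsetProd_iff _).mp h
  have h2 := hq.dvd_of_dvd_pow h1
  rw [(Nat.prime_dvd_prime_iff_eq hq (Nat.prime_of_mem_primeFactors (hU hp))).mp h2]
  exact hp

private lemma coprime_prt {n : ℕ} {U V : Finset ℕ} (hU : U ⊆ n.primeFactors)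
    (hV : V ⊆ n.primeFactors) (h : Disjoint U V) : Nat.Coprime (prt n U) (prt n V) := by
  apply Nat.coprime_of_dvd
  intro q hq h1 h2
  exact Finset.disjoint_left.mp h (prime_dvd_prt hU hq h1) (prime_dvd_prt hV hq h2)

/-- the product of the primes in `U` -/
private lemma prime_dvd_prod {n : ℕ} {U : Finset ℕ} (hU : U ⊆ n.primeFactors) {q : ℕ} (hq : q.Prime)
    (h : q ∣ ∏ p ∈ U, p) : q ∈ U := by
  obtain ⟨p, hp, h1⟩ := (hq.prime.dvd_finsetProd_iff _).mp h
  rw [(Nat.prime_dvd_prime_iff_eq hq (Nat.prime_of_mem_primeFactors (hU hp))).mp h1]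
  exact hp

private lemma sqfree_prod {n : ℕ} (U : Finset ℕ) (hU : U ⊆ n.primeFactors) :
    Squarefree (∏ p ∈ U, p) := by
  induction U using Finset.induction_on with
  | empty => simp
  | insert q U hq ih =>
    rw [Finset.prod_insert hq]
    have hqp := Nat.prime_of_mem_primeFactors (hU (Finset.mem_insert_self _ _))
    have hU' : U ⊆ n.primeFactors := (Finset.subset_insert _ _).trans hU
    rw [Nat.squarefree_mul_iff]
    refine ⟨?_, hqp.squarefree, ih hU'⟩
    rw [hqp.coprime_iff_not_dvd]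
    exact fun h => hq (prime_dvd_prod hU' hqp h)

private lemma rd_prt_le {n : ℕ} {U : Finset ℕ} (hU : U ⊆ n.primeFactors) :
    rd (prt n U) ≤ ∏ p ∈ U, p := by
  unfold rd
  apply Finset.prod_le_prod_of_subset_of_one_le'
  · intro q hq
    have h1 := Nat.mem_primeFactors.mp hq
    exact prime_dvd_prt hU h1.1 h1.2.1
  · intro p hp _
    exact (Nat.prime_of_mem_primeFactors (hU hp)).one_lt.le

private lemma log_prod_primes {n : ℕ} {U : Finset ℕ} (hU : U ⊆ n.primeFactors) :
    Real.log ((∏ p ∈ U, p : ℕ) : ℝ) = ∑ p ∈ U, Real.log p := by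
  push_cast
  apply Real.log_prod
  intro p hp
  exact_mod_cast (Nat.prime_of_mem_primeFactors (hU hp)).ne_zero

/-- `N ≤ Y ^ c` from logarithms -/
private lemma le_rpow_of_log {N : ℕ} {Y c : ℝ} (hN : 0 < N) (hY : 0 < Y)
    (h : Real.log N ≤ c * Real.log Y) : (N : ℝ) ≤ Y ^ c := by
  have hN' : (0 : ℝ) < N := by exact_mod_cast hN
  rw [Real.rpow_def_of_pos hY, ← Real.log_le_iff_le_exp hN', mul_comm]
  exact h

private lemma rpow_le_of_log {N : ℕ} {Y c : ℝ} (hN : 0 < N) (hY : 0 < Y)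
    (h : c * Real.log Y ≤ Real.log N) : Y ^ c ≤ (N : ℝ) := by
  have hN' : (0 : ℝ) < N := by exact_mod_cast hN
  rw [Real.rpow_def_of_pos hY, ← Real.le_log_iff_exp_le hN', mul_comm]
  exact h

/-- `n` is its `2`-part times the odd part -/
private lemma two_part {n : ℕ} (hn : n ≠ 0) :
    n = 2 ^ n.factorization 2 * prt n (n.primeFactors.erase 2) := by
  have h1 : ∏ p ∈ n.primeFactors, p ^ n.factorization p = n := by
    have := Nat.prod_factorization_pow_eq_self hn
    rwa [Finsupp.prod, Nat.support_factorization] at this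
  unfold prt
  by_cases h2 : 2 ∈ n.primeFactors
  · rw [Finset.mul_prod_erase n.primeFactors (fun p => p ^ n.factorization p) h2, h1]
  · rw [Finset.erase_eq_of_notMem h2, h1]
    have h3 : n.factorization 2 = 0 := by
      rw [← Finsupp.notMem_support_iff, Nat.support_factorization]
      exact h2
    rw [h3, pow_zero, one_mul]

private lemma odd_of_no_two {n : ℕ} {U : Finset ℕ} (hU : U ⊆ n.primeFactors) (h2 : 2 ∉ U) :
    Odd (prt n U) := by
  rw [← Nat.not_even_iff_odd, even_iff_two_dvd]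
  exact fun h => h2 (prime_dvd_prt hU Nat.prime_two h)

/-- `u` = the part of `x` of the exponents `> L0` -/
def BadPart (L0 : ℕ) (x : ℤ) (u : ℕ) : Prop :=
  UDvd u x.natAbs ∧ (∀ p : ℕ, p.Prime → p ∣ u → L0 < padicValNat p u) ∧
    ∀ p : ℕ, p.Prime → L0 < padicValNat p x.natAbs → p ∣ u

/-- THE CLASSIFICATION with the good exponents `1, ..., L0`. -/
theorem classif_G (K c : ℝ) (hK : 2 ≤ K) (hc : 0 < c) (L0 : ℕ) (hL0 : L0 = 4 ∨ L0 = 6) :
    ∃ L1 : ℕ, ∀ σ : ℝ, 0 < σ → ∃ (η κ Y0 : ℝ), 0 < η ∧ 0 < κ ∧ 1 ≤ Y0 ∧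
    ∀ Y : ℝ, Y0 ≤ Y → ∀ x : ℤ, x ≠ 0 → (x.natAbs : ℝ) ≤ Y ^ K → Y ^ (1 / 2 - κ) ≤ (rd x.natAbs : ℝ) →
      (rd x.natAbs : ℝ) ≤ Y ^ (1 / 2 + κ) → (∃ u, BadPart L0 x u ∧ (rd u : ℝ) ≤ Y ^ (1 / 8 - c)) →
      IsP η L0 Y x ∨ ∃ j : ℕ, 1 ≤ j ∧ j ≤ 3 ∧ ∃ l : Fin (2 * j) → ℕ, StrictMono l ∧ (∀ i, 1 ≤ l i) ∧
        (∀ i, l i ≤ L1) ∧ IsTie σ j l Y x := by
  refine ⟨⌈24 * K⌉₊, fun σ hσ => ?_⟩
  have hK0 : 0 < K := by linarith
  have hG6 : (Finset.Icc 1 L0).card ≤ 6 := by
    rw [Nat.card_Icc]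
    omega
  obtain ⟨τ, hτ⟩ : ∃ τ, τ = min (σ / 2) (1 / 100) := ⟨_, rfl⟩
  have hτ0 : 0 < τ := by
    rw [hτ]
    exact lt_min (by positivity) (by positivity)
  have hτσ : τ ≤ σ / 2 := by rw [hτ]; exact min_le_left _ _
  have hτK : τ ≤ 1 / 100 := by rw [hτ]; exact min_le_right _ _
  obtain ⟨η, hη0, hητ, -, hmain⟩ := cls_good (ρ := 2 * c) (σ := τ) (by linarith) hτ0
  refine ⟨η / 2, η / 4, Real.exp (4 * Real.log 2 / η + 2 * Real.log 2 / σ + 1), by positivity,
    by positivity, ?_, ?_⟩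
  · rw [← Real.exp_zero]
    apply Real.exp_le_exp.mpr
    have := Real.log_pos (by norm_num : (1 : ℝ) < 2)
    positivity
  rintro Y hY x hx0 hxK hr1 hr2 ⟨u, ⟨⟨k, huk, hucop⟩, hu1, hu2⟩, hur⟩
  have hl2 := Real.log_pos (by norm_num : (1 : ℝ) < 2)
  have hY0 : 0 < Y := lt_of_lt_of_le (Real.exp_pos _) hY
  have hlogY : 4 * Real.log 2 / η + 2 * Real.log 2 / σ + 1 ≤ Real.log Y := by
    rw [← Real.exp_le_exp, Real.exp_log hY0]
    exact hY
  obtain ⟨T, hT⟩ : ∃ T, T = Real.log Y := ⟨_, rfl⟩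
  rw [← hT] at hlogY
  have hT0 : 0 < T := by
    have : 0 < 4 * Real.log 2 / η + 2 * Real.log 2 / σ + 1 := by positivity
    linarith only [this, hlogY]
  have hT1 : Real.log 2 ≤ η / 4 * T := by
    have h1 : 4 * Real.log 2 / η ≤ T := by
      have : 0 < 2 * Real.log 2 / σ := by positivity
      linarith only [this, hlogY]
    rw [div_le_iff₀ hη0] at h1
    linarith only [h1]
  have hT2 : Real.log 2 ≤ σ / 2 * T := by
    have h1 : 2 * Real.log 2 / σ ≤ T := by
      have : 0 < 4 * Real.log 2 / η := by positivity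
      linarith only [this, hlogY]
    rw [div_le_iff₀ hσ] at h1
    linarith only [h1]
  obtain ⟨n, hn⟩ : ∃ n, n = x.natAbs := ⟨_, rfl⟩
  rw [← hn] at hxK hr1 hr2 huk hu2
  have hn0 : n ≠ 0 := by rw [hn]; exact Int.natAbs_ne_zero.mpr hx0
  have hnpos : (0 : ℝ) < n := by exact_mod_cast Nat.pos_of_ne_zero hn0
  have hrpos : (0 : ℝ) < (rd n : ℝ) := by exact_mod_cast rd_pos n
  -- logarithms of the hypotheses
  have hlogn : Real.log n ≤ K * T := by
    have := Real.log_le_log hnpos hxK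
    rwa [Real.log_rpow hY0, ← hT] at this
  have hlogr1 : (1 / 2 - η / 4) * T ≤ Real.log (rd n) := by
    have := Real.log_le_log (Real.rpow_pos_of_pos hY0 _) hr1
    rwa [Real.log_rpow hY0, ← hT] at this
  have hlogr2 : Real.log (rd n) ≤ (1 / 2 + η / 4) * T := by
    have := Real.log_le_log hrpos hr2
    rwa [Real.log_rpow hY0, ← hT] at this
  -- the primes
  obtain ⟨S, hS⟩ : ∃ S, S = n.primeFactors.erase 2 := ⟨_, rfl⟩
  have hSn : S ⊆ n.primeFactors := hS ▸ Finset.erase_subset _ _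
  have hS2 : 2 ∉ S := hS ▸ Finset.notMem_erase _ _
  have hlp : ∀ p ∈ n.primeFactors, 0 ≤ Real.log p := fun p hp =>
    Real.log_natCast_nonneg p
  have hrdS : Real.log (rd n) = ∑ p ∈ n.primeFactors, Real.log p := by
    unfold rd
    exact log_prod_primes (Finset.Subset.refl _)
  have hsumS1 : ∑ p ∈ S, Real.log p ≤ Real.log (rd n) := by
    rw [hrdS]
    exact Finset.sum_le_sum_of_subset_of_nonneg hSn (fun p hp _ => hlp p hp)
  have hsumS2 : Real.log (rd n) ≤ ∑ p ∈ S, Real.log p + Real.log 2 := by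
    rw [hrdS, hS]
    by_cases h2 : 2 ∈ n.primeFactors
    · rw [← Finset.sum_erase_add _ _ h2]
      push_cast
      exact le_refl _
    · rw [Finset.erase_eq_of_notMem h2]
      linarith only [hl2]
  have hE : ∑ p ∈ S, (n.factorization p : ℝ) * Real.log p ≤ Real.log n := by
    rw [Real.log_nat_eq_sum_factorization, Finsupp.sum, Nat.support_factorization]
    exact Finset.sum_le_sum_of_subset_of_nonneg hSn
      (fun p hp _ => mul_nonneg (Nat.cast_nonneg _) (hlp p hp))
  obtain ⟨y, hy⟩ : ∃ y : ℕ → ℝ, ∀ p, y p = 2 * Real.log p / T := ⟨_, fun p => rfl⟩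
  have hylog : ∀ p : ℕ, Real.log (p : ℝ) = y p * T / 2 := by
    intro p
    rw [hy]
    field_simp
  have hysum : ∀ U : Finset ℕ, ∑ p ∈ U, Real.log (p : ℝ) = (∑ p ∈ U, y p) * T / 2 := by
    intro U
    rw [Finset.sum_mul, Finset.sum_div]
    exact Finset.sum_congr rfl fun p _ => hylog p
  have hy0 : ∀ p ∈ S, 0 ≤ y p := by
    intro p hp
    rw [hy]
    have := hlp p (hSn hp)
    positivity
  have he1 : ∀ p ∈ S, 1 ≤ n.factorization p := by
    intro p hp
    have h1 := Nat.mem_primeFactors.mp (hSn hp)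
    exact (h1.1.dvd_iff_one_le_factorization hn0).mp h1.2.1
  have hEy : ∑ p ∈ S, (n.factorization p : ℝ) * y p ≤ 2 * K := by
    have h1 : ∑ p ∈ S, (n.factorization p : ℝ) * Real.log p =
        (∑ p ∈ S, (n.factorization p : ℝ) * y p) * T / 2 := by
      rw [Finset.sum_mul, Finset.sum_div]
      refine Finset.sum_congr rfl fun p _ => ?_
      rw [hylog p]
      ring
    rw [h1] at hE
    by_contra h2
    push Not at h2
    have := mul_lt_mul_of_pos_right h2 hT0
    linarith only [this, hE, hlogn]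
  have hSy : |∑ p ∈ S, y p - 1| ≤ η := by
    have h1 := hysum S
    rw [abs_le]
    constructor
    · by_contra h2
      push Not at h2
      have := mul_lt_mul_of_pos_right h2 hT0
      linarith only [this, h1, hsumS2, hlogr1, hT1]
    · by_contra h2
      push Not at h2
      have := mul_lt_mul_of_pos_right h2 hT0
      linarith only [this, h1, hsumS1, hlogr2, mul_pos hη0 hT0]
  have h2part := two_part hn0
  rw [← hS] at h2part
  have hbad : ∑ p ∈ S.filter (fun p => n.factorization p ∉ Finset.Icc 1 L0), y p ≤ 1 / 4 - 2 * c := by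
    have hu0 : u ≠ 0 := by
      rintro rfl
      rw [zero_mul] at huk
      exact hn0 huk
    have hsub : S.filter (fun p => n.factorization p ∉ Finset.Icc 1 L0) ⊆ u.primeFactors := by
      intro p hp
      obtain ⟨hpS, hpe⟩ := Finset.mem_filter.mp hp
      have hpp := Nat.prime_of_mem_primeFactors (hSn hpS)
      have h1 := he1 p hpS
      have h2 : L0 < padicValNat p n := by
        rw [← Nat.factorization_def n hpp]
        rw [Finset.mem_Icc, not_and] at hpe
        exact not_le.mp (hpe h1)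
      exact Nat.mem_primeFactors.mpr ⟨hpp, hu2 p hpp h2, hu0⟩
    have h1 : ∑ p ∈ S.filter (fun p => n.factorization p ∉ Finset.Icc 1 L0), Real.log (p : ℝ) ≤
        Real.log (rd u) := by
      have h2 : Real.log (rd u) = ∑ p ∈ u.primeFactors, Real.log (p : ℝ) := by
        unfold rd
        exact log_prod_primes (Finset.Subset.refl _)
      rw [h2]
      exact Finset.sum_le_sum_of_subset_of_nonneg hsub (fun p _ _ => Real.log_natCast_nonneg p)
    have h2 : Real.log (rd u) ≤ (1 / 8 - c) * T := by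
      have := Real.log_le_log (by exact_mod_cast rd_pos u) hur
      rwa [Real.log_rpow hY0, ← hT] at this
    rw [hysum] at h1
    by_contra h3
    push Not at h3
    have := mul_lt_mul_of_pos_right h3 hT0
    linarith only [this, h1, h2]
  rcases hmain (Finset.Icc 1 L0) hG6 S y n.factorization hy0 hSy hbad with hP | hTie
  · left
    obtain ⟨l, hlG, U, A, B, hU, hd1, hd2, hUl, hA, hB⟩ := hP
    obtain ⟨hl1, hl2⟩ := Finset.mem_Icc.mp hlG
    have hUS : U ⊆ S := hU ▸ Finset.subset_union_left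
    have hABS : A ∪ B ⊆ S := hU ▸ Finset.subset_union_right
    have hAS : A ⊆ S := Finset.subset_union_left.trans hABS
    have hBS : B ⊆ S := Finset.subset_union_right.trans hABS
    have hAn := hAS.trans hSn
    have hBn := hBS.trans hSn
    have hUn := hUS.trans hSn
    have hUA : Disjoint U A := hd1.mono_right Finset.subset_union_left
    have hUB : Disjoint U B := hd1.mono_right Finset.subset_union_right
    have hprtU : prt n U = (∏ p ∈ U, p) ^ l := by
      unfold prt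
      rw [← Finset.prod_pow]
      exact Finset.prod_congr rfl fun p hp => by rw [hUl p hp]
    have hcop : ∀ V : Finset ℕ, V ⊆ n.primeFactors → Disjoint U V →
        Nat.Coprime (prt n V) (∏ p ∈ U, p) := by
      intro V hV hd
      apply Nat.coprime_of_dvd
      intro q hq h1 h2
      exact Finset.disjoint_left.mp hd (prime_dvd_prod hUn hq h2) (prime_dvd_prt hV hq h1)
    have hodd : Odd (∏ p ∈ U, p) := by
      rw [← Nat.not_even_iff_odd, even_iff_two_dvd]
      exact fun h => hS2 (hUS (prime_dvd_prod hUn Nat.prime_two h))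
    have hbound : ∀ V : Finset ℕ, V ⊆ n.primeFactors → ∑ p ∈ V, y p ≤ 1 / 2 - η →
        (rd (prt n V) : ℝ) ≤ Y ^ (1 / 4 - η / 2) := by
      intro V hV h1
      have h2 : ((rd (prt n V) : ℕ) : ℝ) ≤ ((∏ p ∈ V, p : ℕ) : ℝ) := by
        exact_mod_cast rd_prt_le hV
      refine h2.trans (le_rpow_of_log ?_ hY0 ?_)
      · exact Finset.prod_pos fun p hp => (Nat.prime_of_mem_primeFactors (hV hp)).pos
      · rw [log_prod_primes hV, hysum V, ← hT]
        have := mul_le_mul_of_nonneg_right h1 hT0.le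
        linarith only [this]
    refine ⟨n.factorization 2, prt n A, prt n B, ∏ p ∈ U, p, l, ?_, hl1, hl2,
      odd_of_no_two hAn (fun h => hS2 (hAS h)), odd_of_no_two hBn (fun h => hS2 (hBS h)), hodd,
      coprime_prt hAn hBn hd2, hcop A hAn hUA, hcop B hBn hUB, sqfree_prod U hUn,
      hbound A hAn hA, hbound B hBn hB⟩
    rw [← hn]
    conv_lhs => rw [h2part, ← hU, prt_union hd1, prt_union hd2, hprtU]
    ring
  · right
    obtain ⟨j, hj1, hj2, -, Q, hQS, hQc, hQy, hQe, hdust, -⟩ := hTie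
    have hQn := hQS.trans hSn
    have hj1R : (1 : ℝ) ≤ j := by exact_mod_cast hj1
    have hj0 : (0 : ℝ) < j := by linarith only [hj1R]
    have hjK : (j : ℝ) ≤ 3 := by exact_mod_cast hj2
    have h4j : τ ≤ 1 / (4 * j) := by
      have h1 : 1 / (4 * 3 : ℝ) ≤ 1 / (4 * (j : ℝ)) := by
        apply one_div_le_one_div_of_le (by positivity)
        linarith only [hjK]
      linarith only [hτK, h1]
    have hhalf : 1 / (2 * (j : ℝ)) = 2 * (1 / (4 * j)) := by
      field_simp
      norm_num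
    -- the exponents in increasing order
    have hcard : (Q.image n.factorization).card = 2 * j := by
      rw [Finset.card_image_of_injOn (fun p hp q hq h => hQe p hp q hq h), hQc]
    obtain ⟨l, hl⟩ : ∃ l : Fin (2 * j) → ℕ,
        l = (Q.image n.factorization).orderEmbOfFin hcard := ⟨_, rfl⟩
    have hlmono : StrictMono l := by
      rw [hl]
      exact OrderEmbedding.strictMono _
    have hlmem : ∀ i, l i ∈ Q.image n.factorization := by
      intro i
      rw [hl]
      exact Finset.orderEmbOfFin_mem _ hcard i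
    have hlp' : ∀ i, ∃ p ∈ Q, n.factorization p = l i := by
      intro i
      exact Finset.mem_image.mp (hlmem i)
    choose p hpQ hpl using hlp'
    have hpinj : Function.Injective p := by
      intro a b hab
      apply hlmono.injective
      rw [← hpl a, ← hpl b, hab]
    have himage : Finset.univ.image p = Q := by
      apply Finset.eq_of_subset_of_card_le
      · intro q hq
        obtain ⟨i, _, rfl⟩ := Finset.mem_image.mp hq
        exact hpQ i
      · rw [Finset.card_image_of_injective _ hpinj, Finset.card_univ, Fintype.card_fin, hQc]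
    have hprod : ∏ i, p i ^ l i = prt n Q := by
      unfold prt
      rw [← himage, Finset.prod_image (fun a _ b _ h => hpinj h)]
      exact Finset.prod_congr rfl fun i _ => by rw [hpl i]
    refine ⟨j, hj1, hj2, l, hlmono, ?_, ?_, ?_⟩
    · intro i
      rw [← hpl i]
      exact he1 _ (hQS (hpQ i))
    · intro i
      have h1 : (1 / (4 * (j : ℝ))) ≤ y (p i) := by
        have := hQy (p i) (hpQ i)
        rw [abs_le, hhalf] at this
        linarith only [this.1, h4j]
      have h2 : (n.factorization (p i) : ℝ) * y (p i) ≤ 2 * K :=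
        (Finset.single_le_sum (f := fun q => (n.factorization q : ℝ) * y q)
          (fun q hq => mul_nonneg (Nat.cast_nonneg _) (hy0 q hq)) (hQS (hpQ i))).trans hEy
      rw [hpl i] at h2
      have h3 : (l i : ℝ) * (1 / (4 * (j : ℝ))) ≤ 2 * K :=
        (mul_le_mul_of_nonneg_left h1 (Nat.cast_nonneg _)).trans h2
      have h4 : (l i : ℝ) ≤ 24 * K := by
        have h5 : (l i : ℝ) = (l i : ℝ) * (1 / (4 * (j : ℝ))) * (4 * j) := by field_simp
        rw [h5]
        calc (l i : ℝ) * (1 / (4 * (j : ℝ))) * (4 * j) ≤ 2 * K * (4 * j) :=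
              mul_le_mul_of_nonneg_right h3 (by positivity)
          _ ≤ 24 * K := by linarith only [mul_le_mul_of_nonneg_left hjK hK0.le]
      have : (l i : ℝ) ≤ (⌈24 * K⌉₊ : ℝ) := h4.trans (Nat.le_ceil _)
      exact_mod_cast this
    · refine ⟨2 ^ n.factorization 2 * prt n (S \ Q), p, ?_, fun i =>
        Nat.prime_of_mem_primeFactors (hQn (hpQ i)), hpinj, ?_, ?_, ?_⟩
      · rw [← hn, hprod, mul_assoc, ← prt_union Finset.sdiff_disjoint, Finset.sdiff_union_of_subset hQS]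
        exact h2part
      · intro i
        have hpp := Nat.prime_of_mem_primeFactors (hQn (hpQ i))
        apply Nat.Coprime.symm
        rw [hpp.coprime_iff_not_dvd]
        intro h
        rcases hpp.dvd_mul.mp h with h1 | h1
        · have h2 := (Nat.prime_dvd_prime_iff_eq hpp Nat.prime_two).mp (hpp.dvd_of_dvd_pow h1)
          exact hS2 (h2 ▸ hQS (hpQ i))
        · have h2 := prime_dvd_prt (Finset.sdiff_subset.trans hSn) hpp h1
          exact (Finset.mem_sdiff.mp h2).2 (hpQ i)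
      · have hw : rd (2 ^ n.factorization 2 * prt n (S \ Q)) ≤ 2 * ∏ p ∈ S \ Q, p := by
          unfold rd
          have h1 : (2 ^ n.factorization 2 * prt n (S \ Q)).primeFactors ⊆ insert 2 (S \ Q) := by
            intro q hq
            have h2 := Nat.mem_primeFactors.mp hq
            rw [Finset.mem_insert]
            rcases h2.1.dvd_mul.mp h2.2.1 with h3 | h3
            · left
              exact (Nat.prime_dvd_prime_iff_eq h2.1 Nat.prime_two).mp (h2.1.dvd_of_dvd_pow h3)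
            · right
              exact prime_dvd_prt (Finset.sdiff_subset.trans hSn) h2.1 h3
          refine (Finset.prod_le_prod_of_subset_of_one_le' h1 ?_).trans ?_
          · intro q hq _
            rcases Finset.mem_insert.mp hq with rfl | h3
            · norm_num
            · exact (Nat.prime_of_mem_primeFactors (hSn (Finset.mem_sdiff.mp h3).1)).one_lt.le
          · rw [Finset.prod_insert (fun h => hS2 (Finset.mem_sdiff.mp h).1)]
        have hw' : ((rd (2 ^ n.factorization 2 * prt n (S \ Q)) : ℕ) : ℝ) ≤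
            ((2 * ∏ p ∈ S \ Q, p : ℕ) : ℝ) := by exact_mod_cast hw
        have hpos : 0 < ∏ p ∈ S \ Q, p := Finset.prod_pos fun p hp =>
          (Nat.prime_of_mem_primeFactors (hSn (Finset.mem_sdiff.mp hp).1)).pos
        refine hw'.trans (le_rpow_of_log (by positivity) hY0 ?_)
        have hposR : (0 : ℝ) < ((∏ p ∈ S \ Q, p : ℕ) : ℝ) := by exact_mod_cast hpos
        rw [Nat.cast_mul, Real.log_mul (by norm_num) hposR.ne',
          log_prod_primes (Finset.sdiff_subset.trans hSn), hysum, ← hT]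
        push_cast
        have h1 := mul_le_mul_of_nonneg_right hdust hT0.le
        have h2 := mul_le_mul_of_nonneg_right hτσ hT0.le
        linarith only [h1, h2, hT2, mul_pos hσ hT0]
      · intro i
        have hpp := Nat.prime_of_mem_primeFactors (hQn (hpQ i))
        have h1 := hQy (p i) (hpQ i)
        rw [abs_le, hhalf] at h1
        have h2 := mul_le_mul_of_nonneg_right h1.1 hT0.le
        have h3 := mul_le_mul_of_nonneg_right h1.2 hT0.le
        have h4 := mul_le_mul_of_nonneg_right hτσ hT0.le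
        have h5 := hylog (p i)
        have h6 : 0 < σ * T := by positivity
        constructor
        · apply rpow_le_of_log hpp.pos hY0
          rw [← hT]
          linarith only [h2, h3, h4, h5, h6, hT0]
        · apply le_rpow_of_log hpp.pos hY0
          rw [← hT]
          linarith only [h2, h3, h4, h5, h6, hT0]

/-- the part of the exponents `> L0` -/
private lemma exists_badPart (L0 : ℕ) {x : ℤ} (hx : x ≠ 0) : ∃ u k : ℕ, BadPart L0 x u ∧ x.natAbs = u * k ∧
    rd x.natAbs = rd u * rd k ∧ (rd u) ^ (L0 + 1) ≤ u := by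
  obtain ⟨n, hn⟩ : ∃ n, n = x.natAbs := ⟨_, rfl⟩
  have hn0 : n ≠ 0 := by rw [hn]; exact Int.natAbs_ne_zero.mpr hx
  obtain ⟨U, hU⟩ : ∃ U, U = n.primeFactors.filter (fun p => L0 < n.factorization p) := ⟨_, rfl⟩
  obtain ⟨V, hV⟩ : ∃ V, V = n.primeFactors.filter (fun p => ¬ L0 < n.factorization p) := ⟨_, rfl⟩
  have hUn : U ⊆ n.primeFactors := hU ▸ Finset.filter_subset _ _
  have hVn : V ⊆ n.primeFactors := hV ▸ Finset.filter_subset _ _
  have hUV : U ∪ V = n.primeFactors := by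
    rw [hU, hV]
    exact Finset.filter_union_filter_not_eq _ _
  have hdis : Disjoint U V := by
    rw [hU, hV]
    exact Finset.disjoint_filter_filter_not _ _ _
  have hprod : n = prt n U * prt n V := by
    rw [← prt_union hdis, hUV]
    unfold prt
    have := Nat.prod_factorization_pow_eq_self hn0
    rw [Finsupp.prod, Nat.support_factorization] at this
    exact this.symm
  have hcop := coprime_prt hUn hVn hdis
  have hu0 : prt n U ≠ 0 := by
    intro h
    rw [h, zero_mul] at hprod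
    exact hn0 hprod
  have hk0 : prt n V ≠ 0 := by
    intro h
    rw [h, mul_zero] at hprod
    exact hn0 hprod
  have hval : ∀ p : ℕ, p.Prime → p ∣ prt n U → padicValNat p (prt n U) = padicValNat p n := by
    intro p hp hpu
    have := Fact.mk hp
    have h1 : ¬ p ∣ prt n V := fun h => by
      have := Nat.dvd_gcd hpu h
      rw [hcop.gcd_eq_one] at this
      exact hp.one_lt.ne' (Nat.dvd_one.mp this)
    conv_rhs => rw [hprod]
    rw [padicValNat.mul hu0 hk0, padicValNat.eq_zero_of_not_dvd h1, add_zero]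
  refine ⟨prt n U, prt n V, ⟨⟨prt n V, hn ▸ hprod, hcop⟩, ?_, ?_⟩, hn ▸ hprod, ?_, ?_⟩
  · intro p hp hpu
    rw [hval p hp hpu, ← Nat.factorization_def n hp]
    have := prime_dvd_prt hUn hp hpu
    rw [hU] at this
    exact (Finset.mem_filter.mp this).2
  · intro p hp hpl
    rw [← hn, ← Nat.factorization_def n hp] at hpl
    have hpn : p ∈ n.primeFactors := by
      rw [← Nat.support_factorization, Finsupp.mem_support_iff]
      omega
    have hpU : p ∈ U := by
      rw [hU]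
      exact Finset.mem_filter.mpr ⟨hpn, hpl⟩
    unfold prt
    exact (dvd_pow_self p (by omega : n.factorization p ≠ 0)).trans
      (Finset.dvd_prod_of_mem (fun p => p ^ n.factorization p) hpU)
  · rw [← hn]
    conv_lhs => rw [hprod]
    unfold rd
    rw [Nat.Coprime.primeFactors_mul hcop, Finset.prod_union hcop.disjoint_primeFactors]
  · have h1 : rd (prt n U) ≤ ∏ p ∈ U, p := rd_prt_le hUn
    calc (rd (prt n U)) ^ (L0 + 1) ≤ (∏ p ∈ U, p) ^ (L0 + 1) := Nat.pow_le_pow_left h1 _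
      _ = ∏ p ∈ U, p ^ (L0 + 1) := (Finset.prod_pow _ _ _).symm
      _ ≤ prt n U := by
        unfold prt
        apply Finset.prod_le_prod'
        intro p hp
        apply Nat.pow_le_pow_right (Nat.prime_of_mem_primeFactors (hUn hp)).pos
        rw [hU] at hp
        exact (Finset.mem_filter.mp hp).2

/-- `a ^ L ≤ Y ^ e` gives `a ≤ Y ^ f` if `e ≤ L f` -/
private lemma le_rpow_of_pow_le {a L : ℕ} {Y e f : ℝ} (hL : 1 ≤ L) (hY : 1 ≤ Y)
    (h : (a : ℝ) ^ L ≤ Y ^ e) (hef : e ≤ L * f) : (a : ℝ) ≤ Y ^ f := by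
  have hY0 : 0 < Y := by linarith
  have h1 : (a : ℝ) ^ L ≤ (Y ^ f) ^ L := by
    refine h.trans ?_
    rw [← Real.rpow_natCast (Y ^ f) L, ← Real.rpow_mul hY0.le]
    exact Real.rpow_le_rpow_of_exponent_le hY (by linarith [mul_comm (L : ℝ) f])
  exact le_of_pow_le_pow_left₀ (by omega) (Real.rpow_nonneg hY0.le _) h1

/-- The part of the exponents `> L0` is small, or `T1` applies to it. -/
theorem bad_small (c κ η Y : ℝ) (L0 : ℕ) (hL1 : 1 ≤ L0) (hL6 : L0 ≤ 6) (hY : 1 ≤ Y) (x y : ℤ) (hx : x ≠ 0)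
    (hκ : κ ≤ c / 2) (hη : η ≤ c / 12) (hc : 0 < c)
    (hM : max (x.natAbs : ℝ) (y.natAbs : ℝ) ≤ Y ^ (1 / 2 + (L0 : ℝ) / 4 - c))
    (hr : Y ^ (1 / 2 - κ) ≤ (rd x.natAbs : ℝ)) :
    (∃ u : ℕ, UDvd u x.natAbs ∧ (rd u : ℝ) ≤ Y ^ (1 / 4 - η) ∧
      (rd u : ℝ) * (x.natAbs : ℝ) ≤ Y ^ (1 / 4 - η) * u * √(max (x.natAbs : ℝ) (y.natAbs : ℝ))) ∨
    ∃ u, BadPart L0 x u ∧ (rd u : ℝ) ≤ Y ^ (1 / 8 - c / 24) := by
  obtain ⟨u, k, hbp, huk, hrd, hpow⟩ := exists_badPart L0 hx
  have hY0 : 0 < Y := by linarith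
  obtain ⟨M, hMdef⟩ : ∃ M, M = max (x.natAbs : ℝ) (y.natAbs : ℝ) := ⟨_, rfl⟩
  rw [← hMdef] at hM ⊢
  have hxM : (x.natAbs : ℝ) ≤ M := hMdef ▸ le_max_left _ _
  have hxpos : (0 : ℝ) < x.natAbs := by exact_mod_cast Int.natAbs_pos.mpr hx
  have hMpos : 0 < M := lt_of_lt_of_le hxpos hxM
  have hrpos : (0 : ℝ) < (rd u : ℝ) := by exact_mod_cast rd_pos u
  have hkpos : (0 : ℝ) < (rd k : ℝ) := by exact_mod_cast rd_pos k
  have hL1R : (1 : ℝ) ≤ L0 := by exact_mod_cast hL1
  have hL6R : (L0 : ℝ) ≤ 6 := by exact_mod_cast hL6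
  have hk0 : k ≠ 0 := by
    rintro rfl
    rw [mul_zero] at huk
    exact hx (Int.natAbs_eq_zero.mp huk)
  have hkk : (rd k : ℝ) ≤ k := by
    have : rd k ≤ k := Nat.le_of_dvd (Nat.pos_of_ne_zero hk0) (Nat.prod_primeFactors_dvd k)
    exact_mod_cast this
  have hpowR : (rd u : ℝ) ^ L0 * rd u ≤ u := by
    rw [← pow_succ]
    exact_mod_cast hpow
  have hukR : (x.natAbs : ℝ) = u * k := by exact_mod_cast huk
  have hrdR : (rd x.natAbs : ℝ) = rd u * rd k := by exact_mod_cast hrd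
  have hupos : (0 : ℝ) < u := by
    by_contra h
    push Not at h
    have : (0 : ℝ) < (rd u : ℝ) ^ L0 * rd u := by positivity
    linarith only [this, hpowR, h]
  -- step 1
  have h1 : (rd u : ℝ) ^ L0 ≤ Y ^ ((L0 : ℝ) / 4 - c + κ) := by
    have h2 : (rd u : ℝ) ^ L0 * Y ^ (1 / 2 - κ) ≤ Y ^ (1 / 2 + (L0 : ℝ) / 4 - c) := by
      calc (rd u : ℝ) ^ L0 * Y ^ (1 / 2 - κ) ≤ (rd u : ℝ) ^ L0 * (rd u * rd k) := by
            rw [← hrdR]
            exact mul_le_mul_of_nonneg_left hr (by positivity)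
        _ = (rd u : ℝ) ^ L0 * rd u * rd k := by ring
        _ ≤ u * k := mul_le_mul hpowR hkk hkpos.le hupos.le
        _ = x.natAbs := hukR.symm
        _ ≤ M := hxM
        _ ≤ _ := hM
    have h3 : Y ^ (1 / 2 + (L0 : ℝ) / 4 - c) = Y ^ ((L0 : ℝ) / 4 - c + κ) * Y ^ (1 / 2 - κ) := by
      rw [← Real.rpow_add hY0]
      congr 1
      ring
    rw [h3] at h2
    exact le_of_mul_le_mul_right h2 (Real.rpow_pos_of_pos hY0 _)
  have hr1 : (rd u : ℝ) ≤ Y ^ (1 / 4 - η) := by
    refine le_rpow_of_pow_le hL1 hY h1 ?_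
    have h2 := mul_le_mul_of_nonneg_left hη (by linarith only [hL1R] : (0 : ℝ) ≤ (L0 : ℝ))
    have h3 := mul_le_mul_of_nonneg_right hL6R (by linarith only [hc] : (0 : ℝ) ≤ c / 12)
    linarith only [h2, h3, hκ]
  by_cases hT : (rd u : ℝ) * (x.natAbs : ℝ) ≤ Y ^ (1 / 4 - η) * u * √M
  · exact Or.inl ⟨u, hbp.1, hr1, hT⟩
  · right
    refine ⟨u, hbp, ?_⟩
    push Not at hT
    -- step 2
    have hs0 : 0 < √M := Real.sqrt_pos.mpr hMpos
    have hss : √M * √M = M := Real.mul_self_sqrt hMpos.le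
    have h2 : Y ^ (1 / 4 - η) * u * √M < rd u * (√M * √M) := by
      rw [hss]
      exact lt_of_lt_of_le hT (mul_le_mul_of_nonneg_left hxM hrpos.le)
    have h3 : Y ^ (1 / 4 - η) * u < rd u * √M := by
      have h4 : (Y ^ (1 / 4 - η) * u) * √M < (rd u * √M) * √M := by
        rw [mul_assoc (rd u : ℝ)]
        exact h2
      exact lt_of_mul_lt_mul_right h4 hs0.le
    have h4 : Y ^ (1 / 4 - η) * (rd u : ℝ) ^ L0 < √M := by
      have h5 : (Y ^ (1 / 4 - η) * (rd u : ℝ) ^ L0) * rd u < √M * rd u := by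
        calc (Y ^ (1 / 4 - η) * (rd u : ℝ) ^ L0) * rd u = Y ^ (1 / 4 - η) * ((rd u : ℝ) ^ L0 * rd u) := by
              ring
          _ ≤ Y ^ (1 / 4 - η) * u := mul_le_mul_of_nonneg_left hpowR (Real.rpow_nonneg hY0.le _)
          _ < rd u * √M := h3
          _ = √M * rd u := mul_comm _ _
      exact lt_of_mul_lt_mul_right h5 hrpos.le
    have h5 : √M ≤ Y ^ ((1 / 2 + (L0 : ℝ) / 4 - c) / 2) := by
      rw [Real.sqrt_le_left (Real.rpow_nonneg hY0.le _), ← Real.rpow_natCast, ← Real.rpow_mul hY0.le]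
      refine hM.trans (le_of_eq ?_)
      congr 1
      push_cast
      ring
    have h6 : (rd u : ℝ) ^ L0 ≤ Y ^ ((L0 : ℝ) / 8 - c / 2 + η) := by
      have h7 : (rd u : ℝ) ^ L0 * Y ^ (1 / 4 - η) ≤
          Y ^ ((L0 : ℝ) / 8 - c / 2 + η) * Y ^ (1 / 4 - η) := by
        rw [← Real.rpow_add hY0]
        calc (rd u : ℝ) ^ L0 * Y ^ (1 / 4 - η) = Y ^ (1 / 4 - η) * (rd u : ℝ) ^ L0 := mul_comm _ _
          _ ≤ √M := h4.le
          _ ≤ _ := h5
          _ = _ := by
            congr 1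
            ring
      exact le_of_mul_le_mul_right h7 (Real.rpow_pos_of_pos hY0 _)
    refine le_rpow_of_pow_le hL1 hY h6 ?_
    have h7 := mul_le_mul_of_nonneg_right hL6R (by linarith only [hc] : (0 : ℝ) ≤ c / 24)
    linarith only [h7, hη, hc]

/-- THE CLASSIFICATION for the sizes `≤ Y ^ (1/2 + L0/4 - c)`: `T1`, type (P) with exponent `≤ L0`, or a tie. -/
theorem classif2 (c : ℝ) (hc : 0 < c) (L0 : ℕ) (hL0 : L0 = 4 ∨ L0 = 6) :
    ∃ L1 : ℕ, ∀ σ : ℝ, 0 < σ → ∃ (η κ Y0 : ℝ), 0 < η ∧ 0 < κ ∧ 1 ≤ Y0 ∧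
    ∀ Y : ℝ, Y0 ≤ Y → ∀ x y : ℤ, x ≠ 0 →
      max (x.natAbs : ℝ) (y.natAbs : ℝ) ≤ Y ^ (1 / 2 + (L0 : ℝ) / 4 - c) →
      Y ^ (1 / 2 - κ) ≤ (rd x.natAbs : ℝ) → (rd x.natAbs : ℝ) ≤ Y ^ (1 / 2 + κ) →
      (∃ u : ℕ, UDvd u x.natAbs ∧ (rd u : ℝ) ≤ Y ^ (1 / 4 - η) ∧
        (rd u : ℝ) * (x.natAbs : ℝ) ≤ Y ^ (1 / 4 - η) * u * √(max (x.natAbs : ℝ) (y.natAbs : ℝ))) ∨
      IsP η L0 Y x ∨ ∃ j : ℕ, 1 ≤ j ∧ j ≤ 3 ∧ ∃ l : Fin (2 * j) → ℕ, StrictMono l ∧ (∀ i, 1 ≤ l i) ∧
        (∀ i, l i ≤ L1) ∧ IsTie σ j l Y x := by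
  obtain ⟨L1, h⟩ := classif_G 2 (c / 24) le_rfl (by positivity) L0 hL0
  refine ⟨L1, fun σ hσ => ?_⟩
  obtain ⟨η, κ, Y0, hη, hκ, hY0, hcl⟩ := h σ hσ
  refine ⟨min η (c / 12), min κ (c / 2), Y0, lt_min hη (by positivity), lt_min hκ (by positivity), hY0, ?_⟩
  intro Y hY x y hx hM hr1 hr2
  have hY1 : 1 ≤ Y := hY0.trans hY
  rcases bad_small c (min κ (c / 2)) (min η (c / 12)) Y L0 (by omega) (by omega) hY1 x y hx (min_le_right _ _)
    (min_le_right _ _) hc hM hr1 with h1 | h1
  · exact Or.inl h1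
  · right
    have hL6 : (L0 : ℝ) ≤ 6 := by
      rcases hL0 with h | h <;> rw [h] <;> norm_num
    rcases hcl Y hY x hx (((le_max_left _ _).trans hM).trans
      (Real.rpow_le_rpow_of_exponent_le hY1 (by linarith)))
      ((Real.rpow_le_rpow_of_exponent_le hY1 (by linarith only [min_le_left κ (c / 2)])).trans hr1)
      (hr2.trans (Real.rpow_le_rpow_of_exponent_le hY1 (by linarith only [min_le_left κ (c / 2)]))) h1 with h2 | h2
    · left
      obtain ⟨e, A, B, t, l, h3, h4, h5, h6, h7, h8, h9, h10, h11, h12, h13, h14⟩ := h2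
      exact ⟨e, A, B, t, l, h3, h4, h5, h6, h7, h8, h9, h10, h11, h12,
        h13.trans (Real.rpow_le_rpow_of_exponent_le hY1 (by linarith only [min_le_left η (c / 12)])),
        h14.trans (Real.rpow_le_rpow_of_exponent_le hY1 (by linarith only [min_le_left η (c / 12)]))⟩
    · exact Or.inr h2

end Hp

end Pool.Agent.Lib.MP_d8bd92_nt
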