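import Pool.Agent.Lib.MP_d8bd92_nt.TwCurve

set_option autoImplicit false

/-!
From a semistable curve with a rational point of order two to a pair of coprime integers the sum of
which is a square.
-/

namespace Pool.Agent.Lib.MP_d8bd92_nt

namespace Hp

open Finset Pool.Agent.Lib.Szpiro

private theorem curvesA_gcd (m d D c : ℤ) (hc : c = m + d) (h256 : 256 * D = m ^ 2 * d)
    (hcop : IsCoprime c D) : Int.gcd m d ∣ 4 := by
  obtain ⟨g, hg⟩ : ∃ g : ℕ, g = Int.gcd m d := ⟨_, rfl⟩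
  rw [← hg]
  have hgm : (g : ℤ) ∣ m := by rw [hg]; exact Int.gcd_dvd_left ..
  have hgd : (g : ℤ) ∣ d := by rw [hg]; exact Int.gcd_dvd_right ..
  have hgc : (g : ℤ) ∣ c := by rw [hc]; exact dvd_add hgm hgd
  have h1 : IsCoprime (g : ℤ) D := hcop.of_isCoprime_of_dvd_left hgc
  have h2 : IsCoprime ((g : ℤ) ^ 3) D := h1.pow_left
  have h3 : (g : ℤ) ^ 3 ∣ 256 * D := by
    rw [h256]
    have h4 : (g : ℤ) ^ 3 = (g : ℤ) ^ 2 * g := by ring
    rw [h4]
    exact mul_dvd_mul (pow_dvd_pow_of_dvd hgm 2) hgd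
  have h4 : (g : ℤ) ^ 3 ∣ 256 := h2.dvd_of_dvd_mul_right h3
  have h5 : g ^ 3 ∣ 256 := by exact_mod_cast h4
  have h6 : g ^ 3 ≤ 256 := Nat.le_of_dvd (by norm_num) h5
  have h7 : g < 7 := by
    by_contra hcon
    push Not at hcon
    have h7 : 7 ^ 3 ≤ g ^ 3 := Nat.pow_le_pow_left hcon 3
    omega
  interval_cases g <;> revert h5 <;> decide

theorem curves_pair (m d D c g : ℤ) (hD : D ≠ 0) (hc : c = m + d) (h256 : 256 * D = m ^ 2 * d)
    (hg : 4 * m + d = g ^ 2) (hcop : IsCoprime c D) :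
    ∃ (h : ℕ) (x y : ℤ), (h = 1 ∨ h = 4 ∨ h = 16) ∧ 4 * m = h * x ∧ d = h * y ∧ IsCoprime x y ∧
      ∃ s : ℤ, x + y = s ^ 2 := by
  have hne : m ^ 2 * d ≠ 0 := by rw [← h256]; exact mul_ne_zero (by norm_num) hD
  have hd0 : d ≠ 0 := by rintro h0; rw [h0] at hne; simp at hne
  obtain ⟨h, hh⟩ : ∃ h : ℕ, h = Int.gcd (4 * m) d := ⟨_, rfl⟩
  have hpos : 0 < Int.gcd (4 * m) d := Int.gcd_pos_of_ne_zero_right _ hd0
  obtain ⟨x, y, hxy, hx, hy⟩ := Int.exists_gcd_one hpos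
  rw [← hh] at hx hy
  have hcoxy : IsCoprime x y := Int.isCoprime_iff_gcd_eq_one.2 hxy
  have h16 : h ∣ 16 := by
    have h1 : h ∣ Int.gcd (4 * m) (4 * d) := by
      rw [hh]
      exact Int.dvd_gcd (Int.gcd_dvd_left ..) (dvd_mul_of_dvd_right (Int.gcd_dvd_right ..) _)
    rw [Int.gcd_mul_left] at h1
    have h2 := curvesA_gcd m d D c hc h256 hcop
    exact h1.trans (Nat.mul_dvd_mul (by norm_num : Int.natAbs 4 ∣ 4) h2)
  have hle : h ≤ 16 := Nat.le_of_dvd (by norm_num) h16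
  have hsum : g ^ 2 = h * (x + y) := by rw [← hg, hx, hy]; ring
  have hcase : h = 1 ∨ h = 2 ∨ h = 4 ∨ h = 8 ∨ h = 16 := by
    interval_cases h <;> revert h16 <;> decide
  have hodd : ¬ (Even x ∧ Even y) := by
    rintro ⟨⟨a, ha⟩, ⟨b, hb⟩⟩
    obtain ⟨u, v, huv⟩ := hcoxy
    rw [ha, hb] at huv
    have : 2 * (u * a + v * b) = 1 := by linear_combination huv
    omega
  rcases hcase with rfl | rfl | rfl | rfl | rfl
  · refine ⟨1, x, y, Or.inl rfl, by rw [hx]; push_cast; ring, by rw [hy]; push_cast; ring, hcoxy, g, ?_⟩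
    rw [hsum]; push_cast; ring
  · exfalso
    push_cast at hx hy hsum
    have hx2 : x = 2 * m := by linarith
    rcases Int.even_or_odd' g with ⟨t, rfl | rfl⟩
    · have h1 : x + y = 2 * t ^ 2 := by linarith
      apply hodd
      refine ⟨⟨m, by omega⟩, ⟨t ^ 2 - m, by rw [hx2] at h1; linarith⟩⟩
    · have : 2 * (2 * t ^ 2 + 2 * t - (x + y)) = -1 := by linarith
      omega
  · push_cast at hx hy hsum
    rcases Int.even_or_odd' g with ⟨t, rfl | rfl⟩
    · refine ⟨4, x, y, Or.inr (Or.inl rfl), by rw [hx]; push_cast; ring, by rw [hy]; push_cast; ring, hcoxy, t, ?_⟩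
      linarith
    · exfalso
      have : 4 * (t ^ 2 + t - (x + y)) = -1 := by linarith
      omega
  · exfalso
    push_cast at hx hy hsum
    have hm2 : m = 2 * x := by linarith
    have h8 : x ^ 2 * y = 8 * D := by
      have : 32 * (x ^ 2 * y) = 256 * D := by rw [h256, hm2, hy]; ring
      linarith
    rcases Int.even_or_odd' g with ⟨t, rfl | rfl⟩
    · have h1 : t ^ 2 = 2 * (x + y) := by linarith
      rcases Int.even_or_odd' t with ⟨u, rfl | rfl⟩
      · have h2 : x + y = 2 * u ^ 2 := by linarith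
        rcases Int.even_or_odd x with hxe | hxo
        · apply hodd
          refine ⟨hxe, ?_⟩
          obtain ⟨a, ha⟩ := hxe
          exact ⟨u ^ 2 - a, by rw [ha] at h2; linarith⟩
        · have hyo : Odd y := by
            obtain ⟨a, ha⟩ := hxo
            exact ⟨u ^ 2 - a - 1, by rw [ha] at h2; linarith⟩
          have h3 : Odd (x ^ 2 * y) := (hxo.pow).mul hyo
          rw [h8] at h3
          obtain ⟨a, ha⟩ := h3
          omega
      · have : 2 * (2 * u ^ 2 + 2 * u - (x + y)) = -1 := by linarith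
        omega
    · have : 4 * (t ^ 2 + t - 2 * (x + y)) = -1 := by linarith
      omega
  · push_cast at hx hy hsum
    rcases Int.even_or_odd' g with ⟨t, rfl | rfl⟩
    · rcases Int.even_or_odd' t with ⟨u, rfl | rfl⟩
      · refine ⟨16, x, y, Or.inr (Or.inr rfl), by rw [hx]; push_cast; ring, by rw [hy]; push_cast; ring, hcoxy, u, ?_⟩
        linarith
      · exfalso
        have : 4 * (u ^ 2 + u - (x + y)) = -1 := by linarith
        omega
    · exfalso
      have : 4 * (t ^ 2 + t - 4 * (x + y)) = -1 := by linarith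
      omega

/-- The data of the pair. -/
theorem curves_data (W : WeierstrassCurve ℤ) (hΔ : W.Δ ≠ 0) (hss : IsCoprime W.c₄ W.Δ)
    (hP : ∃ P : (W.baseChange ℚ).toAffine.Point, addOrderOf P = 2) :
    ∃ (h : ℕ) (x y : ℤ), (h = 1 ∨ h = 4 ∨ h = 16) ∧ 4 * W.c₄ = h * x + 4 * (h * y) ∧
      64 * W.c₆ ^ 2 = h * (x + y) * (h * x - 8 * (h * y)) ^ 2 ∧ x ≠ 0 ∧ y ≠ 0 ∧ IsCoprime x y ∧
      (∃ s : ℤ, x + y = s ^ 2) ∧ rd x.natAbs * rd y.natAbs ≤ 8 * rd W.Δ.natAbs ∧
      W.Δ.natAbs ≤ (max x.natAbs y.natAbs) ^ 3 ∧ x.natAbs ≤ 1024 * W.Δ.natAbs ∧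
      y.natAbs ≤ 1024 * W.Δ.natAbs := by
  obtain ⟨P, hP⟩ := hP
  obtain ⟨m, d, g, e1, e2, e3, e4⟩ := two_torsion_param W P hP
  obtain ⟨h, x, y, hh, hx, hy, hco, s, hs⟩ := curves_pair m d W.Δ W.c₄ g hΔ e1 e2 e3 hss
  have hne : m ^ 2 * d ≠ 0 := by rw [← e2]; exact mul_ne_zero (by norm_num) hΔ
  have hm0 : m ≠ 0 := by rintro h0; rw [h0] at hne; simp at hne
  have hd0 : d ≠ 0 := by rintro h0; rw [h0] at hne; simp at hne
  have hx0 : x ≠ 0 := by
    rintro rfl
    rw [mul_zero] at hx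
    exact hm0 (by linarith)
  have hy0 : y ≠ 0 := by
    rintro rfl
    rw [mul_zero] at hy
    exact hd0 hy
  have hh1 : 1 ≤ h := by rcases hh with rfl | rfl | rfl <;> norm_num
  have hh16 : h ≤ 16 := by rcases hh with rfl | rfl | rfl <;> norm_num
  have hN' : 256 * W.Δ.natAbs = m.natAbs ^ 2 * d.natAbs := by
    have := congrArg Int.natAbs e2
    rw [Int.natAbs_mul, Int.natAbs_mul, Int.natAbs_pow] at this
    exact this
  have hxn : 4 * m.natAbs = h * x.natAbs := by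
    have := congrArg Int.natAbs hx
    rw [Int.natAbs_mul, Int.natAbs_mul, Int.natAbs_natCast] at this
    exact this
  have hyn : d.natAbs = h * y.natAbs := by
    have := congrArg Int.natAbs hy
    rw [Int.natAbs_mul, Int.natAbs_natCast] at this
    exact this
  have hm1 : 1 ≤ m.natAbs := Int.natAbs_pos.mpr hm0
  have hd1 : 1 ≤ d.natAbs := Int.natAbs_pos.mpr hd0
  have hdb : d.natAbs ≤ 256 * W.Δ.natAbs := by
    rw [hN']; exact Nat.le_mul_of_pos_left _ (by positivity)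
  have hmb : m.natAbs ≤ 256 * W.Δ.natAbs := by
    rw [hN']
    calc m.natAbs = m.natAbs * 1 * 1 := by ring
      _ ≤ m.natAbs * m.natAbs * d.natAbs := by gcongr
      _ = m.natAbs ^ 2 * d.natAbs := by ring
  have hxle : x.natAbs ≤ 4 * m.natAbs := by
    rw [hxn]; exact Nat.le_mul_of_pos_left _ (by omega)
  have hyle : y.natAbs ≤ d.natAbs := by
    rw [hyn]; exact Nat.le_mul_of_pos_left _ (by omega)
  refine ⟨h, x, y, hh, ?_, ?_, hx0, hy0, hco, ⟨s, hs⟩, ?_, ?_, ?_, ?_⟩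
  · rw [e1, ← hx, ← hy]; ring
  · have h1 : (h : ℤ) * (x + y) = g ^ 2 := by rw [← e3, mul_add, ← hx, ← hy]
    rw [h1, ← hx, ← hy]
    have h2 : 4 * W.c₆ ^ 2 = g ^ 2 * (m - 2 * d) ^ 2 := by
      have : (2 * W.c₆) ^ 2 = (g * (m - 2 * d)) ^ 2 := by rw [e4]
      linarith
    linear_combination 16 * h2
  · have h1 := rd_mul_rd_le m d W.Δ W.c₄ hΔ e1 e2 hss
    have h2 : rd x.natAbs ≤ 2 * rd m.natAbs := by
      have h3 : rd x.natAbs ≤ rd (4 * m.natAbs) := by
        apply rd_mono' (by omega)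
        intro p _ hp
        rw [hxn]
        exact dvd_mul_of_dvd_right hp _
      have h4 : rd (4 * m.natAbs) ≤ rd 4 * rd m.natAbs := rd_mul_le 4 m.natAbs (by norm_num) (by omega)
      have h5 : rd 4 = 2 := by
        have h6 : (4 : ℕ) = 2 ^ 2 := by norm_num
        rw [h6, rd_prime_pow 2 2 Nat.prime_two (by norm_num)]
      rw [h5] at h4
      exact h3.trans h4
    have h3 : rd y.natAbs ≤ rd d.natAbs := by
      apply rd_mono' (by omega)
      intro p _ hp
      rw [hyn]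
      exact dvd_mul_of_dvd_right hp _
    calc rd x.natAbs * rd y.natAbs ≤ (2 * rd m.natAbs) * rd d.natAbs := Nat.mul_le_mul h2 h3
      _ = 2 * (rd m.natAbs * rd d.natAbs) := by ring
      _ ≤ 2 * (4 * rd W.Δ.natAbs) := Nat.mul_le_mul_left _ h1
      _ = 8 * rd W.Δ.natAbs := by ring
  · have h1 : 4096 * W.Δ.natAbs = h ^ 3 * (x.natAbs ^ 2 * y.natAbs) := by
      calc 4096 * W.Δ.natAbs = 16 * (256 * W.Δ.natAbs) := by ring
        _ = 16 * (m.natAbs ^ 2 * d.natAbs) := by rw [hN']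
        _ = (4 * m.natAbs) ^ 2 * d.natAbs := by ring
        _ = (h * x.natAbs) ^ 2 * (h * y.natAbs) := by rw [hxn, hyn]
        _ = _ := by ring
    have h2 : x.natAbs ^ 2 * y.natAbs ≤ (max x.natAbs y.natAbs) ^ 3 := by
      calc x.natAbs ^ 2 * y.natAbs ≤ (max x.natAbs y.natAbs) ^ 2 * max x.natAbs y.natAbs :=
            Nat.mul_le_mul (Nat.pow_le_pow_left (le_max_left _ _) 2) (le_max_right _ _)
        _ = _ := by ring
    have h3 : h ^ 3 ≤ 4096 := by
      calc h ^ 3 ≤ 16 ^ 3 := Nat.pow_le_pow_left hh16 3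
        _ = 4096 := by norm_num
    have h4 : 4096 * W.Δ.natAbs ≤ 4096 * (max x.natAbs y.natAbs) ^ 3 := by
      rw [h1]
      exact Nat.mul_le_mul h3 h2
    omega
  · omega
  · omega

end Hp

end Pool.Agent.Lib.MP_d8bd92_nt
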