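import Pool.Agent.Lib.MP_d8bd92_nt.Hp.Defs

set_option autoImplicit false

/-! Predicates of the 100 percent theorem. -/

namespace Pool.Agent.Lib.MP_d8bd92_nt

namespace Hp

open Finset Pool.Agent.Lib.Szpiro

/-! ### predicates -/

/-- `x = ± 2^e A B t^l`, `t` squarefree, and `A`, `B` have radical at most `Y ^ (1/4 - η)` -/
def IsP (η : ℝ) (L : ℕ) (Y : ℝ) (x : ℤ) : Prop :=
  ∃ e A B t l : ℕ, x.natAbs = 2 ^ e * A * B * t ^ l ∧ 1 ≤ l ∧ l ≤ L ∧ Odd A ∧ Odd B ∧ Odd t ∧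
    Nat.Coprime A B ∧ Nat.Coprime A t ∧ Nat.Coprime B t ∧ Squarefree t ∧
    (rd A : ℝ) ≤ Y ^ (1 / 4 - η) ∧ (rd B : ℝ) ≤ Y ^ (1 / 4 - η)

/-- tie: `|x| = w * ∏ p_i ^ (l i)`, `2 j` primes of size `Y ^ (1/(4j) ± σ)`, dust `w` with `rd w ≤ Y ^ σ` -/
def IsTie (σ : ℝ) (j : ℕ) (l : Fin (2 * j) → ℕ) (Y : ℝ) (x : ℤ) : Prop :=
  ∃ (w : ℕ) (p : Fin (2 * j) → ℕ), x.natAbs = w * ∏ i, p i ^ l i ∧ (∀ i, (p i).Prime) ∧ Function.Injective p ∧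
    (∀ i, Nat.Coprime w (p i)) ∧ (rd w : ℝ) ≤ Y ^ σ ∧
    ∀ i, Y ^ (1 / (4 * (j : ℝ)) - σ) ≤ (p i : ℝ) ∧ (p i : ℝ) ≤ Y ^ (1 / (4 * (j : ℝ)) + σ)

/-- the squarefree part of `y` is at most `Z` -/
def SfLe (Z : ℝ) (y : ℤ) : Prop := ∃ D f : ℤ, Squarefree D ∧ y = f ^ 2 * D ∧ ((|D| : ℤ) : ℝ) ≤ Z

/-- the squarefree part of `y` is at least `Z` -/
def SfGe (Z : ℝ) (y : ℤ) : Prop := ∃ D f : ℤ, Squarefree D ∧ y = f ^ 2 * D ∧ Z ≤ ((|D| : ℤ) : ℝ)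

/-- at most `C Y^(3/4-δ)` pairs of `PairSet K ε0 Y` satisfy `Q Y`, for all `Y` -/
def Few (K ε0 : ℝ) (Q : ℝ → ℤ × ℤ → Prop) : Prop :=
  ∃ C δ : ℝ, 0 < C ∧ 0 < δ ∧ ∀ (Y : ℝ), 1 ≤ Y → ∀ P : Finset (ℤ × ℤ),
    (∀ w ∈ P, w ∈ PairSet K ε0 Y ∧ Q Y w) → (P.card : ℝ) ≤ C * Y ^ (3 / 4 - δ)

end Hp

end Pool.Agent.Lib.MP_d8bd92_nt
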