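import Pool.Agent.Lib.MP_d8bd92_nt.Hp.CurvesB

set_option autoImplicit false

/-!
The number of semistable curves with a rational point of order two and `|Δ| > N ^ (6 + ε)`, for any
`ε > 3 ε0`, if `Few K ε0` is true for all pairs.
-/

namespace Pool.Agent.Lib.MP_d8bd92_nt

namespace Hp

open Finset Pool.Agent.Lib.Szpiro

/-- a set of curves with large conductor -/
theorem curves_large_gen (K ε0 Y κ ε a : ℝ) (hY : 1 ≤ Y) (hκ : 0 < κ) (hε : 0 ≤ 2 + ε / 3) (hK : κ + 4 ≤ K)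
    (ha : (8 * Y) ^ (2 + ε0) ≤ (Y ^ a) ^ (2 + ε / 3)) (F : Finset (ℤ × ℤ))
    (hF : ∀ c ∈ F, ∃ W : WeierstrassCurve ℤ, W.c₄ = c.1 ∧ W.c₆ = c.2 ∧ W.Δ ≠ 0 ∧ IsCoprime W.c₄ W.Δ ∧
      (∃ P : (W.baseChange ℚ).toAffine.Point, addOrderOf P = 2) ∧
      ((rd W.Δ.natAbs : ℕ) : ℝ) ≤ Y ∧ ((rd W.Δ.natAbs : ℕ) : ℝ) ^ (6 + ε) < ((W.Δ.natAbs : ℕ) : ℝ) ∧
      ((W.Δ.natAbs : ℕ) : ℝ) ≤ Y ^ κ ∧ Y ^ a < ((rd W.Δ.natAbs : ℕ) : ℝ)) :
    ∃ P : Finset (ℤ × ℤ), (∀ w ∈ P, w ∈ PairSet K ε0 (8 * Y)) ∧ F.card ≤ 6 * P.card := by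
  classical
  have hY0 : 0 < Y := by linarith
  have hpar : ∀ c : ℤ × ℤ, ∃ t : ℕ × (ℤ × ℤ), c ∈ F → ((t.1 = 1 ∨ t.1 = 4 ∨ t.1 = 16) ∧
      4 * c.1 = t.1 * t.2.1 + 4 * (t.1 * t.2.2) ∧
      64 * c.2 ^ 2 = t.1 * (t.2.1 + t.2.2) * (t.1 * t.2.1 - 8 * (t.1 * t.2.2)) ^ 2 ∧
      t.2 ∈ PairSet K ε0 (8 * Y)) := by
    intro c
    by_cases hc : c ∈ F
    · obtain ⟨W, h4, h6, hΔ, hss, hP, hN, hz, hD, hNa⟩ := hF c hc
      obtain ⟨h, x, y, hh, e1, e2, hx, hy, hco, hs, hrd, hm, hx1, hy1⟩ := curves_data W hΔ hss hP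
      refine ⟨(h, (x, y)), fun _ => ⟨hh, by rw [← h4]; exact e1, by rw [← h6]; exact e2, ?_⟩⟩
      have hbd : ∀ n : ℕ, n ≤ 1024 * W.Δ.natAbs → (n : ℝ) ≤ (8 * Y) ^ K := by
        intro n hn
        have h1 : (n : ℝ) ≤ 1024 * ((W.Δ.natAbs : ℕ) : ℝ) := by exact_mod_cast hn
        have h2 : (8 * Y) ^ (κ + 4) = (8 * Y) ^ κ * (8 * Y) ^ (4 : ℕ) := by
          rw [Real.rpow_add (by positivity)]
          congr 1
          exact_mod_cast Real.rpow_natCast (8 * Y) 4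
        have h3 : Y ^ κ ≤ (8 * Y) ^ κ := Real.rpow_le_rpow hY0.le (by linarith) hκ.le
        have h5 : (1024 : ℝ) ≤ (8 * Y) ^ (4 : ℕ) := by
          have h6 : (8 : ℝ) ^ 4 ≤ (8 * Y) ^ 4 := pow_le_pow_left₀ (by norm_num) (by linarith) 4
          norm_num at h6 ⊢
          linarith
        calc (n : ℝ) ≤ 1024 * ((W.Δ.natAbs : ℕ) : ℝ) := h1
          _ ≤ 1024 * Y ^ κ := by linarith
          _ = Y ^ κ * 1024 := by ring
          _ ≤ (8 * Y) ^ κ * (8 * Y) ^ (4 : ℕ) := mul_le_mul h3 h5 (by norm_num) (by positivity)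
          _ = (8 * Y) ^ (κ + 4) := h2.symm
          _ ≤ (8 * Y) ^ K := Real.rpow_le_rpow_of_exponent_le (by linarith) hK
      refine ⟨hx, hy, hco, hs, ?_, ?_, hbd _ hx1, hbd _ hy1⟩
      · have h1 : ((rd x.natAbs : ℕ) : ℝ) * ((rd y.natAbs : ℕ) : ℝ) ≤ 8 * ((rd W.Δ.natAbs : ℕ) : ℝ) := by
          exact_mod_cast hrd
        show ((rd x.natAbs : ℕ) : ℝ) * ((rd y.natAbs : ℕ) : ℝ) ≤ 8 * Y
        linarith
      · show (8 * Y) ^ (2 + ε0) ≤ max ((x.natAbs : ℕ) : ℝ) ((y.natAbs : ℕ) : ℝ)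
        set N : ℝ := ((rd W.Δ.natAbs : ℕ) : ℝ) with hNdef
        set M : ℝ := max ((x.natAbs : ℕ) : ℝ) ((y.natAbs : ℕ) : ℝ) with hMdef
        have hN0 : 0 ≤ N := Nat.cast_nonneg _
        have hM0 : 0 ≤ M := le_max_of_le_left (Nat.cast_nonneg _)
        have h1 : ((W.Δ.natAbs : ℕ) : ℝ) ≤ M ^ 3 := by
          have h2 : ((W.Δ.natAbs : ℕ) : ℝ) ≤ (((max x.natAbs y.natAbs) ^ 3 : ℕ) : ℝ) := by exact_mod_cast hm
          rw [Nat.cast_pow, Nat.cast_max] at h2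
          exact h2
        have h2 : (N ^ (2 + ε / 3)) ^ 3 < M ^ 3 := by
          have h3 : (N ^ (2 + ε / 3)) ^ 3 = N ^ (6 + ε) := by
            rw [← Real.rpow_natCast, ← Real.rpow_mul hN0]
            congr 1
            push_cast
            ring
          rw [h3]
          exact lt_of_lt_of_le hz h1
        have h3 : N ^ (2 + ε / 3) < M := lt_of_pow_lt_pow_left₀ 3 hM0 h2
        have h4 : (Y ^ a) ^ (2 + ε / 3) ≤ N ^ (2 + ε / 3) :=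
          Real.rpow_le_rpow (by positivity) hNa.le hε
        linarith
    · exact ⟨(0, (0, 0)), fun h => absurd h hc⟩
  choose t ht using hpar
  refine ⟨F.image fun c => (t c).2, ?_, ?_⟩
  · intro w hw
    obtain ⟨c, hc, rfl⟩ := Finset.mem_image.1 hw
    exact (ht c hc).2.2.2
  · have h1 : F.card ≤ ((F.image fun c => (t c).2) ×ˢ (({1, 4, 16} : Finset ℕ) ×ˢ (Finset.univ : Finset Bool))).card := by
      apply Finset.card_le_card_of_injOn (fun c => ((t c).2, ((t c).1, decide (0 ≤ c.2))))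
      · intro c hc
        rw [Finset.mem_coe] at hc
        simp only [Finset.coe_product, Set.mem_prod, Finset.mem_coe, Finset.mem_image, Finset.mem_insert,
          Finset.mem_singleton, Finset.mem_univ, and_true]
        exact ⟨⟨c, hc, rfl⟩, (ht c hc).1⟩
      · intro c hc c' hc' hcc
        simp only [Prod.mk.injEq] at hcc
        obtain ⟨h1, h2, h3⟩ := hcc
        obtain ⟨_, e1, e2, _⟩ := ht c hc
        obtain ⟨_, e1', e2', _⟩ := ht c' hc'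
        rw [h1, h2] at e1 e2
        have h4 : c.1 = c'.1 := by linarith
        have h5 : c.2 ^ 2 = c'.2 ^ 2 := by linarith
        have h6 : c.2 = c'.2 := by
          rcases sq_eq_sq_iff_eq_or_eq_neg.mp h5 with h | h
          · exact h
          · have h6 : (0 ≤ c.2) ↔ (0 ≤ c'.2) := by simpa using h3
            by_cases h7 : 0 ≤ c'.2
            · have := h6.mpr h7
              omega
            · have h8 : ¬ 0 ≤ c.2 := fun h => h7 (h6.mp h)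
              omega
        exact Prod.ext h4 h6
    rw [Finset.card_product, Finset.card_product] at h1
    have h2 : ({1, 4, 16} : Finset ℕ).card = 3 := by decide
    rw [h2, Finset.card_univ, Fintype.card_bool] at h1
    linarith

/-- The exceptional curves are few, if `Few (κ + 4) ε0` is true for all pairs and `3 ε0 < ε`. -/
theorem excSet_few_gen (κ ε0 ε : ℝ) (hκ : 0 < κ) (hε0 : -2 < ε0) (hε : 3 * ε0 < ε)
    (hmain : Few (κ + 4) ε0 (fun _ _ => True)) : ∃ C δ : ℝ, 0 < C ∧ 0 < δ ∧ ∀ Y : ℝ, 1 ≤ Y →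
      (excSet Y κ ε).Finite ∧ ((excSet Y κ ε).ncard : ℝ) ≤ C * Y ^ (3 / 4 - δ) := by
  classical
  obtain ⟨η, hη⟩ : ∃ η : ℝ, η = ε / 3 - ε0 := ⟨_, rfl⟩
  have hη0 : 0 < η := by rw [hη]; linarith
  obtain ⟨u, hu⟩ : ∃ u : ℝ, u = 2 + ε / 3 := ⟨_, rfl⟩
  have hu0 : η < u := by rw [hη, hu]; linarith
  have hu1 : 0 < u := by linarith
  obtain ⟨b, hb⟩ : ∃ b : ℝ, b = η / (2 * u) := ⟨_, rfl⟩
  have hb0 : 0 < b := by rw [hb]; positivity
  have hb1 : b < 1 / 2 := by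
    rw [hb, div_lt_div_iff₀ (by positivity) (by norm_num)]
    linarith
  have hbe : (1 - b) * (2 + ε / 3) = 2 + ε0 + η / 2 := by
    rw [← hu, hb]
    field_simp
    rw [hη, hu]
    ring
  have hb1' : 0 < 1 - b := by linarith
  obtain ⟨C1, δ1, hC1, hδ1, h1⟩ := hmain
  obtain ⟨C2, hC2, h2⟩ := twoSet_upper (κ / (1 - b)) (b / 2) (by positivity) (by positivity)
  obtain ⟨C3, hC3, h3⟩ := twoSet_upper κ 1 hκ one_pos
  have h20 : 0 < 2 + ε0 := by linarith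
  obtain ⟨Y0, hY0⟩ : ∃ Y0 : ℝ, Y0 = (8 : ℝ) ^ ((2 + ε0) * (2 / η)) := ⟨_, rfl⟩
  have hY01 : 1 ≤ Y0 := by
    rw [hY0]
    exact Real.one_le_rpow (by norm_num) (by positivity)
  obtain ⟨δ, hδ⟩ : ∃ δ : ℝ, δ = min (b / 4) (min δ1 (3 / 4)) := ⟨_, rfl⟩
  have hδ0 : 0 < δ := by
    rw [hδ]
    exact lt_min (by positivity) (lt_min hδ1 (by norm_num))
  have hδb : δ ≤ b / 4 := by rw [hδ]; exact min_le_left _ _
  have hδ1' : δ ≤ δ1 := by rw [hδ]; exact (min_le_right _ _).trans (min_le_left _ _)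
  have hδ3 : δ ≤ 3 / 4 := by rw [hδ]; exact (min_le_right _ _).trans (min_le_right _ _)
  refine ⟨C3 * Y0 ^ (3 / 4 + 1 : ℝ) + (C2 + 6 * (C1 * 8)), δ, add_pos_of_nonneg_of_pos
    (mul_nonneg hC3.le (Real.rpow_nonneg (zero_le_one.trans hY01) _))
    (add_pos_of_pos_of_nonneg hC2 (mul_nonneg (by norm_num) (mul_nonneg hC1.le (by norm_num)))),
    hδ0, fun Y hY => ?_⟩
  have hYp : 0 < Y := lt_of_lt_of_le one_pos hY
  obtain ⟨hfin3, hc3⟩ := h3 Y hY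
  have hfin : (excSet Y κ ε).Finite := hfin3.subset (excSet_subset Y κ ε)
  refine ⟨hfin, ?_⟩
  have hYδ : 1 ≤ Y ^ (3 / 4 - δ) := Real.one_le_rpow hY (sub_nonneg.mpr hδ3)
  have hYδ0 : 0 ≤ Y ^ (3 / 4 - δ) := zero_le_one.trans hYδ
  have k3 : 0 ≤ C3 * Y0 ^ (3 / 4 + 1 : ℝ) :=
    mul_nonneg hC3.le (Real.rpow_nonneg (zero_le_one.trans hY01) _)
  have k4 : 0 ≤ C2 + 6 * (C1 * 8) :=
    add_nonneg hC2.le (mul_nonneg (by norm_num) (mul_nonneg hC1.le (by norm_num)))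
  by_cases hYY : Y < Y0
  · have k1 : ((excSet Y κ ε).ncard : ℝ) ≤ ((twoSet Y κ).ncard : ℝ) := by
      exact_mod_cast Set.ncard_le_ncard (excSet_subset Y κ ε) hfin3
    have k2 : Y ^ (3 / 4 + 1 : ℝ) ≤ Y0 ^ (3 / 4 + 1 : ℝ) := Real.rpow_le_rpow hYp.le hYY.le (by norm_num)
    calc ((excSet Y κ ε).ncard : ℝ) ≤ C3 * Y ^ (3 / 4 + 1 : ℝ) := k1.trans hc3
      _ ≤ C3 * Y0 ^ (3 / 4 + 1 : ℝ) := mul_le_mul_of_nonneg_left k2 hC3.le
      _ ≤ C3 * Y0 ^ (3 / 4 + 1 : ℝ) * Y ^ (3 / 4 - δ) := le_mul_of_one_le_right k3 hYδ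
      _ ≤ (C3 * Y0 ^ (3 / 4 + 1 : ℝ) + (C2 + 6 * (C1 * 8))) * Y ^ (3 / 4 - δ) :=
        mul_le_mul_of_nonneg_right (le_add_of_nonneg_right k4) hYδ0
  · push Not at hYY
    -- the size condition
    have hcond : (8 * Y) ^ (2 + ε0) ≤ (Y ^ (1 - b)) ^ (2 + ε / 3) := by
      rw [← Real.rpow_mul hYp.le, hbe, Real.mul_rpow (by norm_num) hYp.le]
      have k1 : (8 : ℝ) ^ (2 + ε0) ≤ Y ^ (η / 2) := by
        have k2 : (8 : ℝ) ^ (2 + ε0) = Y0 ^ (η / 2) := by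
          rw [hY0, ← Real.rpow_mul (by norm_num)]
          congr 1
          field_simp
        rw [k2]
        exact Real.rpow_le_rpow (zero_le_one.trans hY01) hYY (half_pos hη0).le
      calc (8 : ℝ) ^ (2 + ε0) * Y ^ (2 + ε0) ≤ Y ^ (η / 2) * Y ^ (2 + ε0) :=
            mul_le_mul_of_nonneg_right k1 (Real.rpow_nonneg hYp.le _)
        _ = Y ^ (2 + ε0 + η / 2) := by
          rw [← Real.rpow_add hYp]
          congr 1
          ring
    -- small conductors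
    have hYb : 1 ≤ Y ^ (1 - b) := Real.one_le_rpow hY hb1'.le
    obtain ⟨hfin2, hc2⟩ := h2 (Y ^ (1 - b)) hYb
    have hpow : (Y ^ (1 - b)) ^ (κ / (1 - b)) = Y ^ κ := by
      rw [← Real.rpow_mul hYp.le]
      congr 1
      field_simp
    have hc2' : ((twoSet (Y ^ (1 - b)) (κ / (1 - b))).ncard : ℝ) ≤ C2 * Y ^ (3 / 4 - δ) := by
      refine hc2.trans ?_
      rw [← Real.rpow_mul hYp.le]
      have this0 : (1 - b) * (3 / 4 + b / 2) ≤ 3 / 4 - δ := by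
        have e : (1 - b) * (3 / 4 + b / 2) = 3 / 4 - b / 4 - b * b / 2 := by ring
        rw [e]
        exact (sub_le_self _ (div_nonneg (mul_self_nonneg b) zero_le_two)).trans
          (sub_le_sub_left hδb _)
      exact mul_le_mul_of_nonneg_left (Real.rpow_le_rpow_of_exponent_le hY this0) hC2.le
    set F : Finset (ℤ × ℤ) := hfin.toFinset.filter (fun c => c ∉ twoSet (Y ^ (1 - b)) (κ / (1 - b))) with hF
    obtain ⟨P, hP, hFP⟩ := curves_large_gen (κ + 4) ε0 Y κ ε (1 - b) hY hκ (by rw [← hu]; exact hu1.le)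
      le_rfl hcond F (by
      intro c hc
      rw [hF, Finset.mem_filter, Set.Finite.mem_toFinset] at hc
      obtain ⟨⟨W, e1, e2, e3, e4, e5, e6, e7, e8⟩, hc'⟩ := hc
      refine ⟨W, e1, e2, e3, e4, e5, e6, e7, e8, ?_⟩
      by_contra hcon
      push Not at hcon
      exact hc' ⟨W, e1, e2, e3, e4, e5, hcon, by rw [hpow]; exact e8⟩)
    have h8Y : 1 ≤ 8 * Y := one_le_mul_of_one_le_of_one_le (by norm_num) hY
    have hPc := h1 (8 * Y) h8Y P (fun w hw => ⟨hP w hw, trivial⟩)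
    have hPc' : (P.card : ℝ) ≤ C1 * 8 * Y ^ (3 / 4 - δ) := by
      refine hPc.trans ?_
      have k1 : (8 * Y) ^ (3 / 4 - δ1) ≤ (8 * Y) ^ (3 / 4 - δ) :=
        Real.rpow_le_rpow_of_exponent_le h8Y (sub_le_sub_left hδ1' _)
      have k2 : (8 * Y) ^ (3 / 4 - δ) = 8 ^ (3 / 4 - δ) * Y ^ (3 / 4 - δ) := Real.mul_rpow (by norm_num) hYp.le
      have k3 : (8 : ℝ) ^ (3 / 4 - δ) ≤ 8 := by
        calc (8 : ℝ) ^ (3 / 4 - δ) ≤ 8 ^ (1 : ℝ) := Real.rpow_le_rpow_of_exponent_le (by norm_num)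
              ((sub_le_self _ hδ0.le).trans (by norm_num))
          _ = 8 := Real.rpow_one 8
      calc C1 * (8 * Y) ^ (3 / 4 - δ1) ≤ C1 * (8 ^ (3 / 4 - δ) * Y ^ (3 / 4 - δ)) := by
            rw [← k2]; exact mul_le_mul_of_nonneg_left k1 hC1.le
        _ ≤ C1 * (8 * Y ^ (3 / 4 - δ)) :=
            mul_le_mul_of_nonneg_left (mul_le_mul_of_nonneg_right k3 hYδ0) hC1.le
        _ = C1 * 8 * Y ^ (3 / 4 - δ) := (mul_assoc _ _ _).symm
    have hsub : excSet Y κ ε ⊆ twoSet (Y ^ (1 - b)) (κ / (1 - b)) ∪ (F : Set (ℤ × ℤ)) := by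
      intro c hc
      by_cases hc' : c ∈ twoSet (Y ^ (1 - b)) (κ / (1 - b))
      · exact Or.inl hc'
      · refine Or.inr ?_
        rw [Finset.mem_coe, hF, Finset.mem_filter, Set.Finite.mem_toFinset]
        exact ⟨hc, hc'⟩
    have k1 : ((excSet Y κ ε).ncard : ℝ) ≤ ((twoSet (Y ^ (1 - b)) (κ / (1 - b))).ncard : ℝ) + (F.card : ℝ) := by
      have k2 := Set.ncard_le_ncard hsub (hfin2.union F.finite_toSet)
      have k3 := Set.ncard_union_le (twoSet (Y ^ (1 - b)) (κ / (1 - b))) (F : Set (ℤ × ℤ))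
      rw [Set.ncard_coe_finset] at k3
      exact_mod_cast k2.trans k3
    have k2 : (F.card : ℝ) ≤ 6 * (P.card : ℝ) := by exact_mod_cast hFP
    calc ((excSet Y κ ε).ncard : ℝ) ≤ C2 * Y ^ (3 / 4 - δ) + 6 * (C1 * 8 * Y ^ (3 / 4 - δ)) :=
          k1.trans (add_le_add hc2' (k2.trans (mul_le_mul_of_nonneg_left hPc' (by norm_num))))
      _ = (C2 + 6 * (C1 * 8)) * Y ^ (3 / 4 - δ) := by ring
      _ ≤ (C3 * Y0 ^ (3 / 4 + 1 : ℝ) + (C2 + 6 * (C1 * 8))) * Y ^ (3 / 4 - δ) :=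
        mul_le_mul_of_nonneg_right (le_add_of_nonneg_left k3) hYδ0

end Hp

end Pool.Agent.Lib.MP_d8bd92_nt
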