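import Pool.Agent.Lib.MP_d8bd92_nt.Hp.CurvesC

set_option autoImplicit false

/-!
The number of curves with a rational point of order two and `|Δ| ≤ X` is at most `C X ^ (1/2 + η)`.
-/

namespace Pool.Agent.Lib.MP_d8bd92_nt

namespace Hp

open Finset Pool.Agent.Lib.Szpiro

/-- pairs `(a, b)` with `1 ≤ b ≤ T` and `a * b ≤ T` -/
def hypPairs (T : ℕ) : Finset (ℕ × ℕ) :=
  (Finset.Icc 1 T).biUnion fun b => (Finset.range (T / b + 1)).image fun a => (a, b)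

theorem mem_hypPairs (T a b : ℕ) (hb : 1 ≤ b) (hbT : b ≤ T) (hab : a * b ≤ T) : (a, b) ∈ hypPairs T := by
  unfold hypPairs
  rw [Finset.mem_biUnion]
  refine ⟨b, Finset.mem_Icc.2 ⟨hb, hbT⟩, ?_⟩
  rw [Finset.mem_image]
  refine ⟨a, ?_, rfl⟩
  rw [Finset.mem_range, Nat.lt_succ_iff]
  exact (Nat.le_div_iff_mul_le (by omega)).2 hab

theorem card_hypPairs (T : ℕ) (hT : 1 ≤ T) : ((hypPairs T).card : ℝ) ≤ T * (2 + Real.log T) := by
  have h1 : (hypPairs T).card ≤ ∑ b ∈ Finset.Icc 1 T, (T / b + 1) := by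
    unfold hypPairs
    refine Finset.card_biUnion_le.trans (Finset.sum_le_sum fun b _ => ?_)
    refine Finset.card_image_le.trans ?_
    rw [Finset.card_range]
  have h2 : ((∑ b ∈ Finset.Icc 1 T, (T / b + 1) : ℕ) : ℝ) ≤ ∑ b ∈ Finset.Icc 1 T, ((T : ℝ) * (b : ℝ)⁻¹ + 1) := by
    push_cast
    apply Finset.sum_le_sum
    intro b _
    have : ((T / b : ℕ) : ℝ) ≤ (T : ℝ) / b := Nat.cast_div_le
    rw [← div_eq_mul_inv]
    linarith
  have h3 : ∑ b ∈ Finset.Icc 1 T, ((T : ℝ) * (b : ℝ)⁻¹ + 1) = T * (harmonic T : ℝ) + T := by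
    rw [Finset.sum_add_distrib, ← Finset.mul_sum]
    congr 1
    · congr 1
      rw [harmonic_eq_sum_Icc]
      push_cast
      rfl
    · simp
  have h4 : (harmonic T : ℝ) ≤ 1 + Real.log T := harmonic_le_one_add_log T
  have h5 : (0 : ℝ) ≤ T := Nat.cast_nonneg _
  calc ((hypPairs T).card : ℝ) ≤ ((∑ b ∈ Finset.Icc 1 T, (T / b + 1) : ℕ) : ℝ) := by exact_mod_cast h1
    _ ≤ T * (harmonic T : ℝ) + T := by rw [← h3]; exact h2
    _ ≤ T * (1 + Real.log T) + T := by gcongr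
    _ = T * (2 + Real.log T) := by ring

/-- The curves with a rational point of order two and `|Δ| ≤ X`. -/
def smallSet (X : ℝ) : Set (ℤ × ℤ) :=
  {c | ∃ W : WeierstrassCurve ℤ, W.c₄ = c.1 ∧ W.c₆ = c.2 ∧ W.Δ ≠ 0 ∧
    (∃ P : (W.baseChange ℚ).toAffine.Point, addOrderOf P = 2) ∧ ((W.Δ.natAbs : ℕ) : ℝ) ≤ X}

theorem smallSet_data (X : ℝ) (c : ℤ × ℤ) (hc : c ∈ smallSet X) : ∃ (s : Bool) (b g : ℤ),
    b ≠ 0 ∧ b.natAbs ≤ Nat.floor (Real.sqrt (1280 * X)) ∧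
    g.natAbs * b.natAbs ≤ Nat.floor (Real.sqrt (1280 * X)) ∧
    (s = true → c.1 = g ^ 2 - 3 * b ∧ 2 * c.2 = g * (9 * b - 2 * g ^ 2)) ∧
    (s = false → 4 * c.1 = g ^ 2 + 3 * b ∧ 8 * c.2 = g * (g ^ 2 - 9 * b)) := by
  obtain ⟨W, h4, h6, hΔ, ⟨P, hP⟩, hX⟩ := hc
  obtain ⟨m, d, g, e1, e2, e3, e4⟩ := two_torsion_param W P hP
  have hne : m ^ 2 * d ≠ 0 := by rw [← e2]; exact mul_ne_zero (by norm_num) hΔ
  have hm0 : m ≠ 0 := by rintro h0; rw [h0] at hne; simp at hne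
  have hd0 : d ≠ 0 := by rintro h0; rw [h0] at hne; simp at hne
  have hN' : 256 * W.Δ.natAbs = m.natAbs ^ 2 * d.natAbs := by
    have := congrArg Int.natAbs e2
    rw [Int.natAbs_mul, Int.natAbs_mul, Int.natAbs_pow] at this
    exact this
  have hm1 : 1 ≤ m.natAbs := Int.natAbs_pos.mpr hm0
  have hd1 : 1 ≤ d.natAbs := Int.natAbs_pos.mpr hd0
  have hg : g.natAbs ^ 2 ≤ 4 * m.natAbs + d.natAbs := by
    have h1 : g.natAbs ^ 2 = (4 * m + d).natAbs := by rw [e3, Int.natAbs_pow]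
    rw [h1]
    refine (Int.natAbs_add_le _ _).trans ?_
    rw [Int.natAbs_mul]
    rfl
  have hfl : ∀ n : ℕ, n ^ 2 ≤ 5 * (m.natAbs ^ 2 * d.natAbs) → n ≤ Nat.floor (Real.sqrt (1280 * X)) := by
    intro n hn
    apply Nat.le_floor
    apply Real.le_sqrt_of_sq_le
    rw [← hN'] at hn
    have h1 : ((n : ℝ)) ^ 2 ≤ 5 * (256 * ((W.Δ.natAbs : ℕ) : ℝ)) := by exact_mod_cast hn
    linarith
  rcases le_total m.natAbs d.natAbs with hmd | hmd
  · refine ⟨true, m, g, hm0, hfl _ ?_, hfl _ ?_, fun _ => ⟨?_, ?_⟩, fun h => absurd h (by simp)⟩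
    · calc m.natAbs ^ 2 = 1 * (m.natAbs ^ 2 * 1) := by ring
        _ ≤ 5 * (m.natAbs ^ 2 * d.natAbs) := by gcongr; norm_num
    · calc (g.natAbs * m.natAbs) ^ 2 = g.natAbs ^ 2 * m.natAbs ^ 2 := by ring
        _ ≤ (4 * m.natAbs + d.natAbs) * m.natAbs ^ 2 := by gcongr
        _ ≤ (4 * d.natAbs + d.natAbs) * m.natAbs ^ 2 := by gcongr
        _ = 5 * (m.natAbs ^ 2 * d.natAbs) := by ring
    · rw [← h4]; linarith
    · rw [← h6, e4]
      have : d = g ^ 2 - 4 * m := by linarith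
      rw [this]; ring
  · refine ⟨false, d, g, hd0, hfl _ ?_, hfl _ ?_, fun h => absurd h (by simp),
      fun _ => ⟨?_, ?_⟩⟩
    · calc d.natAbs ^ 2 = 1 * (d.natAbs * (1 * d.natAbs)) := by ring
        _ ≤ 5 * (m.natAbs * (m.natAbs * d.natAbs)) := by gcongr; norm_num
        _ = 5 * (m.natAbs ^ 2 * d.natAbs) := by ring
    · calc (g.natAbs * d.natAbs) ^ 2 = g.natAbs ^ 2 * (d.natAbs * d.natAbs) := by ring
        _ ≤ (4 * m.natAbs + d.natAbs) * (m.natAbs * d.natAbs) := by gcongr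
        _ ≤ (4 * m.natAbs + m.natAbs) * (m.natAbs * d.natAbs) := by gcongr
        _ = 5 * (m.natAbs ^ 2 * d.natAbs) := by ring
    · rw [← h4]; linarith
    · rw [← h6]
      have h1 : 4 * m = g ^ 2 - d := by linarith
      linear_combination 4 * e4 + g * h1

theorem smallSet_card (X : ℝ) (hX : 1 ≤ X) : (smallSet X).Finite ∧ ((smallSet X).ncard : ℝ) ≤
    8 * (Real.sqrt (1280 * X) * (2 + Real.log (Real.sqrt (1280 * X)))) := by
  classical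
  set T : ℕ := Nat.floor (Real.sqrt (1280 * X)) with hT
  have hs1 : (1 : ℝ) ≤ Real.sqrt (1280 * X) := by
    rw [Real.one_le_sqrt]
    linarith
  have hT1 : 1 ≤ T := by
    rw [hT]
    exact Nat.le_floor (by exact_mod_cast hs1)
  have hTs : (T : ℝ) ≤ Real.sqrt (1280 * X) := Nat.floor_le (by positivity)
  have hpar : ∀ c : ℤ × ℤ, ∃ t : Bool × ℤ × ℤ, c ∈ smallSet X → (t.2.1 ≠ 0 ∧ t.2.1.natAbs ≤ T ∧
      t.2.2.natAbs * t.2.1.natAbs ≤ T ∧
      (t.1 = true → c.1 = t.2.2 ^ 2 - 3 * t.2.1 ∧ 2 * c.2 = t.2.2 * (9 * t.2.1 - 2 * t.2.2 ^ 2)) ∧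
      (t.1 = false → 4 * c.1 = t.2.2 ^ 2 + 3 * t.2.1 ∧ 8 * c.2 = t.2.2 * (t.2.2 ^ 2 - 9 * t.2.1))) := by
    intro c
    by_cases hc : c ∈ smallSet X
    · obtain ⟨s, b, g, h⟩ := smallSet_data X c hc
      exact ⟨(s, b, g), fun _ => h⟩
    · exact ⟨(true, 0, 0), fun h => absurd h hc⟩
  choose t ht using hpar
  set f : ℤ × ℤ → (Bool × Bool × Bool) × (ℕ × ℕ) := fun c =>
    (((t c).1, decide (0 ≤ (t c).2.1), decide (0 ≤ (t c).2.2)), ((t c).2.2.natAbs, (t c).2.1.natAbs)) with hf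
  have hmem : ∀ c ∈ smallSet X, f c ∈ (((Finset.univ : Finset (Bool × Bool × Bool)) ×ˢ hypPairs T :
      Finset ((Bool × Bool × Bool) × (ℕ × ℕ))) : Set _) := by
    intro c hc
    obtain ⟨h1, h2, h3, -, -⟩ := ht c hc
    rw [Finset.coe_product, Set.mem_prod]
    exact ⟨Finset.mem_coe.2 (Finset.mem_univ _), Finset.mem_coe.2
      (mem_hypPairs T _ _ (Int.natAbs_pos.mpr h1) h2 h3)⟩
  have hsign : ∀ a b : ℤ, decide (0 ≤ a) = decide (0 ≤ b) → a.natAbs = b.natAbs → a = b := by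
    intro a b h1 h2
    have h3 : (0 ≤ a) ↔ (0 ≤ b) := by simpa using h1
    by_cases h4 : 0 ≤ b
    · have := h3.2 h4
      omega
    · have : ¬ 0 ≤ a := fun h => h4 (h3.1 h)
      omega
  have hinj : Set.InjOn f (smallSet X) := by
    intro c hc c' hc' hcc
    simp only [hf, Prod.mk.injEq] at hcc
    obtain ⟨⟨k1, k2, k3⟩, k4, k5⟩ := hcc
    have eb : (t c).2.1 = (t c').2.1 := hsign _ _ k2 k5
    have eg : (t c).2.2 = (t c').2.2 := hsign _ _ k3 k4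
    obtain ⟨-, -, -, a1, a2⟩ := ht c hc
    obtain ⟨-, -, -, b1, b2⟩ := ht c' hc'
    rw [k1, eb, eg] at a1 a2
    rcases Bool.eq_false_or_eq_true (t c').1 with h | h
    · obtain ⟨p1, p2⟩ := a1 h
      obtain ⟨q1, q2⟩ := b1 h
      exact Prod.ext (by linarith) (by linarith)
    · obtain ⟨p1, p2⟩ := a2 h
      obtain ⟨q1, q2⟩ := b2 h
      exact Prod.ext (by linarith) (by linarith)
  have himg : f '' smallSet X ⊆ (((Finset.univ : Finset (Bool × Bool × Bool)) ×ˢ hypPairs T :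
      Finset ((Bool × Bool × Bool) × (ℕ × ℕ))) : Set _) := by
    rintro _ ⟨c, hc, rfl⟩
    exact hmem c hc
  have hfin : (smallSet X).Finite :=
    Set.Finite.of_finite_image ((Finset.finite_toSet _).subset himg) hinj
  refine ⟨hfin, ?_⟩
  have h1 : (smallSet X).ncard ≤ 8 * (hypPairs T).card := by
    rw [← Set.InjOn.ncard_image hinj]
    refine (Set.ncard_le_ncard himg (Finset.finite_toSet _)).trans ?_
    rw [Set.ncard_coe_finset, Finset.card_product]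
    have : (Finset.univ : Finset (Bool × Bool × Bool)).card = 8 := by decide
    rw [this]
  have h2 := card_hypPairs T hT1
  have hT0 : (0 : ℝ) < T := by exact_mod_cast hT1
  calc ((smallSet X).ncard : ℝ) ≤ 8 * ((hypPairs T).card : ℝ) := by exact_mod_cast h1
    _ ≤ 8 * (T * (2 + Real.log T)) := by gcongr
    _ ≤ 8 * (Real.sqrt (1280 * X) * (2 + Real.log (Real.sqrt (1280 * X)))) := by
      have h3 : Real.log T ≤ Real.log (Real.sqrt (1280 * X)) := Real.log_le_log hT0 hTs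
      have h4 : 0 ≤ Real.log T := Real.log_nonneg (by exact_mod_cast hT1)
      gcongr

theorem smallSet_upper (η : ℝ) (hη : 0 < η) : ∃ C : ℝ, 0 < C ∧ ∀ X : ℝ, 1 ≤ X →
    (smallSet X).Finite ∧ ((smallSet X).ncard : ℝ) ≤ C * X ^ (1 / 2 + η) := by
  refine ⟨8 * (Real.sqrt 1280 * (2 + Real.sqrt 1280 ^ (2 * η) / (2 * η))), by positivity, fun X hX => ?_⟩
  obtain ⟨h1, h2⟩ := smallSet_card X hX
  refine ⟨h1, h2.trans ?_⟩
  have hXp : 0 < X := by linarith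
  have hs : Real.sqrt (1280 * X) = Real.sqrt 1280 * X ^ (1 / 2 : ℝ) := by
    rw [Real.sqrt_mul (by norm_num), Real.sqrt_eq_rpow X]
  have hlog : Real.log (Real.sqrt (1280 * X)) ≤ Real.sqrt 1280 ^ (2 * η) / (2 * η) * X ^ η := by
    have h3 := Real.log_le_rpow_div (x := Real.sqrt (1280 * X)) (ε := 2 * η) (by positivity) (by positivity)
    refine h3.trans (le_of_eq ?_)
    rw [hs, Real.mul_rpow (by positivity) (by positivity), ← Real.rpow_mul hXp.le]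
    have : (1 / 2 : ℝ) * (2 * η) = η := by ring
    rw [this]
    ring
  have hXη : 1 ≤ X ^ η := Real.one_le_rpow hX hη.le
  have h5 : 2 + Real.log (Real.sqrt (1280 * X)) ≤ (2 + Real.sqrt 1280 ^ (2 * η) / (2 * η)) * X ^ η := by
    have : (2 + Real.sqrt 1280 ^ (2 * η) / (2 * η)) * X ^ η = 2 * X ^ η +
        Real.sqrt 1280 ^ (2 * η) / (2 * η) * X ^ η := by ring
    rw [this]
    linarith
  calc 8 * (Real.sqrt (1280 * X) * (2 + Real.log (Real.sqrt (1280 * X))))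
      ≤ 8 * (Real.sqrt 1280 * X ^ (1 / 2 : ℝ) * ((2 + Real.sqrt 1280 ^ (2 * η) / (2 * η)) * X ^ η)) := by
        rw [← hs]
        gcongr
    _ = 8 * (Real.sqrt 1280 * (2 + Real.sqrt 1280 ^ (2 * η) / (2 * η))) * (X ^ (1 / 2 : ℝ) * X ^ η) := by ring
    _ = _ := by rw [← Real.rpow_add hXp]

/-- The semistable curves with a point of order two, conductor `N ≤ Y` and `|Δ| ≤ Y ^ κ`,
`|Δ| < N ^ (3/2 - ε)`. -/
def lowSet (Y κ ε : ℝ) : Set (ℤ × ℤ) :=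
  {c | ∃ W : WeierstrassCurve ℤ, W.c₄ = c.1 ∧ W.c₆ = c.2 ∧ W.Δ ≠ 0 ∧ IsCoprime W.c₄ W.Δ ∧
    (∃ P : (W.baseChange ℚ).toAffine.Point, addOrderOf P = 2) ∧
    ((rd W.Δ.natAbs : ℕ) : ℝ) ≤ Y ∧ ((W.Δ.natAbs : ℕ) : ℝ) < ((rd W.Δ.natAbs : ℕ) : ℝ) ^ (3 / 2 - ε) ∧
    ((W.Δ.natAbs : ℕ) : ℝ) ≤ Y ^ κ}

theorem lowSet_few (ε : ℝ) (hε : 0 < ε) (hε1 : ε ≤ 1) : ∃ C δ : ℝ, 0 < C ∧ 0 < δ ∧ ∀ κ Y : ℝ, 1 ≤ Y →
    (lowSet Y κ ε).Finite ∧ ((lowSet Y κ ε).ncard : ℝ) ≤ C * Y ^ (3 / 4 - δ) := by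
  obtain ⟨C, hC, h⟩ := smallSet_upper (ε / 6) (by positivity)
  refine ⟨C, ε / 4, hC, by positivity, fun κ Y hY => ?_⟩
  have hYp : 0 < Y := by linarith
  obtain ⟨h1, h2⟩ := h (Y ^ (3 / 2 - ε)) (Real.one_le_rpow hY (by linarith))
  have hsub : lowSet Y κ ε ⊆ smallSet (Y ^ (3 / 2 - ε)) := by
    rintro c ⟨W, e1, e2, e3, e4, e5, e6, e7, e8⟩
    refine ⟨W, e1, e2, e3, e5, e7.le.trans ?_⟩
    exact Real.rpow_le_rpow (Nat.cast_nonneg _) e6 (by linarith)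
  refine ⟨h1.subset hsub, ?_⟩
  have h3 : ((lowSet Y κ ε).ncard : ℝ) ≤ ((smallSet (Y ^ (3 / 2 - ε))).ncard : ℝ) := by
    exact_mod_cast Set.ncard_le_ncard hsub h1
  refine (h3.trans h2).trans ?_
  rw [← Real.rpow_mul hYp.le]
  gcongr
  nlinarith

end Hp

end Pool.Agent.Lib.MP_d8bd92_nt
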