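import Mathlib
import Pool.Agent.Lib.MP_d8bd92_nt.Radical

set_option autoImplicit false

/-!
Definitions for the 100 percent theorem: pairs `(x, y)` of coprime integers with `x + y` a square.
One side `Δ` is fixed, the other is `N = G ^ 2 - Δ`, the norm of `G + √Δ = G + f √D`.
-/

namespace Pool.Agent.Lib.MP_d8bd92_nt

namespace Hp

open Finset Pool.Agent.Lib.Szpiro

/-! ### Quadratic orders -/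

/-- size of `x + y √D` -/
def hh {D : ℤ} (z : ℤ√D) : ℤ := z.re ^ 2 + |D| * z.im ^ 2

/-- the ideal `(E, √D - r)` -/
def idl (D : ℤ) (E : ℕ) (r : ℤ) : Ideal (ℤ√D) := Ideal.span {(E : ℤ√D), (⟨-r, 1⟩ : ℤ√D)}

/-- the label `(A, α)` -/
def lbl {D : ℤ} (A : ℕ) (α : ℤ√D) : Ideal (ℤ√D) := Ideal.span {(A : ℤ√D), α}

/-- the conjugate ideal -/
def cj {D : ℤ} (I : Ideal (ℤ√D)) : Ideal (ℤ√D) := I.map (starRingEnd (ℤ√D))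

/-- `z` or its conjugate -/
def cjp {D : ℤ} (b : Bool) (z : ℤ√D) : ℤ√D := if b then star z else z

/-! ### Pairs -/

/-- pairs `(x, y)` of nonzero coprime integers with `x + y` a perfect square, `rad x * rad y ≤ Y`
and `Y ^ (2 + ε0) ≤ max |x| |y| ≤ Y ^ K` -/
def PairSet (K ε0 Y : ℝ) : Set (ℤ × ℤ) :=
  {w | w.1 ≠ 0 ∧ w.2 ≠ 0 ∧ IsCoprime w.1 w.2 ∧ (∃ g : ℤ, w.1 + w.2 = g ^ 2) ∧
    (rd w.1.natAbs : ℝ) * rd w.2.natAbs ≤ Y ∧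
    Y ^ (2 + ε0) ≤ max (w.1.natAbs : ℝ) (w.2.natAbs : ℝ) ∧
    (w.1.natAbs : ℝ) ≤ Y ^ K ∧ (w.2.natAbs : ℝ) ≤ Y ^ K}

/-- `u` is a unitary divisor of `n` -/
def UDvd (u n : ℕ) : Prop := ∃ k : ℕ, n = u * k ∧ Nat.Coprime u k

open scoped Classical in
/-- A set of pairs after cleaning.  `R = Y ^ (1/2)`.  (The quasi-regularity bounds `qr1`, `qr2` are inherited by subsets.) -/
structure Good (K ε0 κ Y : ℝ) (P : Finset (ℤ × ℤ)) : Prop where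
  base : ∀ w ∈ P, w ∈ PairSet K ε0 Y
  rad1 : ∀ w ∈ P, Y ^ ((1 - κ) / 2) ≤ (rd w.1.natAbs : ℝ) ∧ (rd w.1.natAbs : ℝ) ≤ Y ^ ((1 + κ) / 2)
  rad2 : ∀ w ∈ P, Y ^ ((1 - κ) / 2) ≤ (rd w.2.natAbs : ℝ) ∧ (rd w.2.natAbs : ℝ) ≤ Y ^ ((1 + κ) / 2)
  nsq : ∀ w ∈ P, ¬ IsSquare w.1 ∧ ¬ IsSquare w.2
  dy : ∀ w ∈ P, ∀ w' ∈ P, (w.1.natAbs ≤ 2 * w'.1.natAbs) ∧ (w.2.natAbs ≤ 2 * w'.2.natAbs) ∧
    (0 < w.1 ↔ 0 < w'.1) ∧ (0 < w.2 ↔ 0 < w'.2) ∧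
    padicValInt 2 w.1 = padicValInt 2 w'.1 ∧ padicValInt 2 w.2 = padicValInt 2 w'.2
  qr1 : ∀ w ∈ P, ∀ u : ℕ, UDvd u w.1.natAbs →
    ((P.filter (fun w' : ℤ × ℤ => w'.2 = w.2 ∧ UDvd u w'.1.natAbs)).card : ℝ) ≤
      max 1 (Y ^ (1 / 4 : ℝ) / (rd u : ℝ)) * Y ^ κ
  qr2 : ∀ w ∈ P, ∀ u : ℕ, UDvd u w.2.natAbs →
    ((P.filter (fun w' : ℤ × ℤ => w'.1 = w.1 ∧ UDvd u w'.2.natAbs)).card : ℝ) ≤
      max 1 (Y ^ (1 / 4 : ℝ) / (rd u : ℝ)) * Y ^ κ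

end Hp

end Pool.Agent.Lib.MP_d8bd92_nt
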