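import Pool.Agent.Lib.MP_d8bd92_nt.Hp.LC1
import Pool.Agent.Lib.MP_d8bd92_nt.Hp.WD

set_option autoImplicit false

/-!
MP_d8bd92_nt, block EVL (lattice lemma with small split ideals), file EA: ideals.
-/

namespace Pool.Agent.Lib.MP_d8bd92_nt

namespace Hp

open Finset

variable {D : ℤ}

/-- principal ideals: quotient of generators -/
theorem ea_quot (hD : ∀ n : ℤ, D ≠ n * n) {x y : ℤ√D} {J : Ideal (ℤ√D)} (hy : y ≠ 0)
    (h : Ideal.span {x} = Ideal.span {y} * J) : ∃ ξ : ℤ√D, x = ξ * y ∧ Ideal.span {ξ} = J := by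
  have := isDomain_of hD
  have h1 : y ∣ x := by
    rw [← Ideal.mem_span_singleton]
    have h2 : x ∈ Ideal.span {y} * J := by rw [← h]; exact Ideal.mem_span_singleton_self _
    exact Ideal.mul_le_left (I := Ideal.span {y}) (J := J) h2
  obtain ⟨ξ, hξ⟩ := h1
  refine ⟨ξ, by rw [hξ]; ring, ?_⟩
  apply cancel_span hy
  rw [← h, hξ, Ideal.span_singleton_mul_span_singleton]

/-- the relation of two configurations multiplied by small ideals -/
theorem ea_rel (hD : ∀ n : ℤ, D ≠ n * n) {I I' W R R' : Ideal (ℤ√D)} {l s s' p' : ℕ} {Ω Ω' e e' : ℤ√D}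
    (hs' : 1 ≤ s') (he' : e' ≠ 0) (hΩ : Ω ≠ 0) (hR' : HN R' p')
    (hf : Ideal.span {Ω} = Ideal.span {(s : ℤ√D)} * W * I ^ l)
    (hf' : Ideal.span {Ω'} = Ideal.span {(s' : ℤ√D)} * W * I' ^ l)
    (hee : Ideal.span {e'} * (I * R) = Ideal.span {e} * (I' * R')) :
    ∃ ξ : ℤ√D, (s : ℤ√D) * (p' : ℤ√D) ^ l * e ^ l * Ω' = ξ * ((s' : ℤ√D) * e' ^ l * Ω) ∧
      Ideal.span {ξ} = (R * cj R') ^ l := by
  have := isDomain_of hD
  have hs0 : (s' : ℤ√D) ≠ 0 := by exact_mod_cast (by omega : (s' : ℤ) ≠ 0)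
  apply ea_quot hD (mul_ne_zero (mul_ne_zero hs0 (pow_ne_zero _ he')) hΩ)
  rw [← Ideal.span_singleton_mul_span_singleton, ← Ideal.span_singleton_mul_span_singleton,
    ← Ideal.span_singleton_mul_span_singleton, ← Ideal.span_singleton_mul_span_singleton,
    ← Ideal.span_singleton_mul_span_singleton,
    ← Ideal.span_singleton_pow, ← Ideal.span_singleton_pow, ← Ideal.span_singleton_pow, hf, hf', ← hR'.2]
  calc Ideal.span {(s : ℤ√D)} * (R' * cj R') ^ l * Ideal.span {e} ^ l * (Ideal.span {(s' : ℤ√D)} * W * I' ^ l)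
      = Ideal.span {(s : ℤ√D)} * Ideal.span {(s' : ℤ√D)} * W * (cj R') ^ l * (Ideal.span {e} * (I' * R')) ^ l := by
        rw [mul_pow, mul_pow, mul_pow]; ring
    _ = Ideal.span {(s : ℤ√D)} * Ideal.span {(s' : ℤ√D)} * W * (cj R') ^ l * (Ideal.span {e'} * (I * R)) ^ l := by
        rw [hee]
    _ = _ := by
        rw [mul_pow, mul_pow, mul_pow]; ring

/-- the norm of a generator -/
theorem ea_norm {J : Ideal (ℤ√D)} {N : ℕ} (hJ : HN J N) {ξ : ℤ√D} (h : Ideal.span {ξ} = J) : |ξ.norm| = (N : ℤ) := by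
  have h2 : Ideal.span {((ξ.norm : ℤ) : ℤ√D)} = Ideal.span {((N : ℕ) : ℤ√D)} := by
    rw [← hJ.2, ← h, cj_span_singleton, Ideal.span_singleton_mul_span_singleton, norm_int]
  have h3 : ((ξ.norm : ℤ) : ℤ√D) ∣ (((N : ℕ) : ℤ) : ℤ√D) := by
    rw [← Ideal.mem_span_singleton, h2, Int.cast_natCast]; exact Ideal.mem_span_singleton_self _
  have h4 : (((N : ℕ) : ℤ) : ℤ√D) ∣ ((ξ.norm : ℤ) : ℤ√D) := by
    rw [Int.cast_natCast, ← Ideal.mem_span_singleton, ← h2]; exact Ideal.mem_span_singleton_self _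
  have h5 := (Zsqrtd.intCast_dvd_intCast _ _).mp h3
  have h6 := (Zsqrtd.intCast_dvd_intCast _ _).mp h4
  have h7 : |ξ.norm| = |((N : ℕ) : ℤ)| := by
    rw [Int.abs_eq_natAbs, Int.abs_eq_natAbs, Int.natAbs_eq_of_dvd_dvd h5 h6]
  rw [h7, abs_of_nonneg (by positivity)]

/-- a split prime ideal and its conjugate are comaximal -/
theorem ea_cop_conj {p : ℕ} (hp : p.Prime) (hp2 : p ≠ 2) {r : ℤ} (hpD : ¬ (p : ℤ) ∣ D) (hr : (p : ℤ) ∣ r ^ 2 - D) :
    IsCoprime (idl D p r) (cj (idl D p r)) := by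
  have hpr : ¬ (p : ℤ) ∣ 2 * r := by
    intro h
    have hpp : Prime (p : ℤ) := Nat.prime_iff_prime_int.mp hp
    rcases hpp.dvd_or_dvd h with h1 | h1
    · have h2 : p ∣ 2 := by exact_mod_cast h1
      exact hp2 ((Nat.prime_dvd_prime_iff_eq hp Nat.prime_two).mp h2)
    · apply hpD
      have h3 : (p : ℤ) ∣ r ^ 2 := Dvd.dvd.pow h1 (by norm_num)
      have h4 : D = r ^ 2 - (r ^ 2 - D) := by ring
      rw [h4]
      exact dvd_sub h3 hr
  have hc : IsCoprime (p : ℤ) (2 * r) :=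
    (Prime.coprime_iff_not_dvd (Nat.prime_iff_prime_int.mp hp)).mpr hpr
  obtain ⟨u, v, huv⟩ := hc
  rw [Ideal.isCoprime_iff_add, Ideal.one_eq_top, Ideal.eq_top_iff_one, Ideal.add_eq_sup]
  have hp1 : (p : ℤ√D) ∈ idl D p r := Ideal.subset_span (by simp)
  have h1 : (⟨-r, 1⟩ : ℤ√D) ∈ idl D p r := Ideal.subset_span (by simp)
  have h2 : (⟨-(-r), 1⟩ : ℤ√D) ∈ cj (idl D p r) := by
    rw [wd_cj_idl]
    exact Ideal.subset_span (by simp)
  have e1 : (1 : ℤ√D) = (u : ℤ√D) * (p : ℤ√D) + (-(v : ℤ√D)) * (⟨-r, 1⟩ : ℤ√D) + (v : ℤ√D) * (⟨-(-r), 1⟩ : ℤ√D) := by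
    have h7 : (u : ℤ√D) * (p : ℤ√D) + (v : ℤ√D) * (2 * (r : ℤ√D)) = 1 := by exact_mod_cast huv
    have h8 : (⟨-(-r), 1⟩ : ℤ√D) - (⟨-r, 1⟩ : ℤ√D) = 2 * (r : ℤ√D) := by
      ext <;> simp
      ring
    linear_combination (-1 : ℤ√D) * h7 - (v : ℤ√D) * h8
  rw [e1]
  exact Submodule.add_mem_sup (Ideal.add_mem _ (Ideal.mul_mem_left _ _ hp1) (Ideal.mul_mem_left _ _ h1))
    (Ideal.mul_mem_left _ _ h2)

/-- conjugates of ideals of coprime norms are comaximal -/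
theorem ea_cop_norm {p p' : ℕ} (h : Nat.Coprime p p') (r r' : ℤ) :
    IsCoprime (cj (idl D p' r')) (cj (idl D p r)) := by
  have hc : IsCoprime (p' : ℤ) (p : ℤ) := by
    rw [Int.isCoprime_iff_gcd_eq_one]
    exact h.symm
  obtain ⟨u, v, huv⟩ := hc
  rw [Ideal.isCoprime_iff_add, Ideal.one_eq_top, Ideal.eq_top_iff_one, Ideal.add_eq_sup, wd_cj_idl, wd_cj_idl]
  have hp1 : (p : ℤ√D) ∈ idl D p (-r) := Ideal.subset_span (by simp)
  have hp2 : (p' : ℤ√D) ∈ idl D p' (-r') := Ideal.subset_span (by simp)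
  have e1 : (1 : ℤ√D) = (u : ℤ√D) * (p' : ℤ√D) + (v : ℤ√D) * (p : ℤ√D) := by
    have h7 : (u : ℤ√D) * (p' : ℤ√D) + (v : ℤ√D) * (p : ℤ√D) = 1 := by exact_mod_cast huv
    exact h7.symm
  rw [e1]
  exact Submodule.add_mem_sup (Ideal.mul_mem_left _ _ hp2) (Ideal.mul_mem_left _ _ hp1)

/-- a rational generator of `(R * cj R')^l` forces `p = p'` -/
theorem ea_same (hD : ∀ n : ℤ, D ≠ n * n) {p p' : ℕ} (hp : p.Prime) (hp2 : p ≠ 2) {r r' : ℤ} (hpD : ¬ (p : ℤ) ∣ D)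
    (hr : (p : ℤ) ∣ r ^ 2 - D) (hp' : p'.Prime) (hHN : HN (idl D p r) p) (hHN' : HN (idl D p' r') p') {l : ℕ} (hl : 1 ≤ l) {n : ℤ}
    (h : Ideal.span {(n : ℤ√D)} = (idl D p r * cj (idl D p' r')) ^ l) : p = p' := by
  have := isDomain_of hD
  by_contra hne
  have hcop : Nat.Coprime p p' := (Nat.coprime_primes hp hp').mpr hne
  have h1 := ea_norm ((hHN.mul hHN'.cj).pow l) h
  rw [Zsqrtd.norm_intCast] at h1
  have h2 : (p : ℤ) ∣ n := by
    have hpp : Prime (p : ℤ) := Nat.prime_iff_prime_int.mp hp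
    have h3 : (p : ℤ) ∣ n * n := by
      rw [← dvd_abs, h1]
      push_cast
      exact dvd_pow (Dvd.intro _ rfl) (by omega)
    rcases hpp.dvd_or_dvd h3 with h4 | h4 <;> exact h4
  have h3 : Ideal.span {(n : ℤ√D)} ≤ cj (idl D p r) := by
    have h4 : Ideal.span {(n : ℤ√D)} ≤ idl D p r * cj (idl D p r) := by
      rw [hHN.2, Ideal.span_singleton_le_span_singleton]
      have := (Zsqrtd.intCast_dvd_intCast (d := D) (p : ℤ) n).mpr h2
      rwa [Int.cast_natCast] at this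
    exact h4.trans Ideal.mul_le_right
  have h4 : IsCoprime (cj (idl D p r)) ((idl D p r * cj (idl D p' r')) ^ l) := by
    apply IsCoprime.pow_right
    apply IsCoprime.mul_right
    · exact (ea_cop_conj hp hp2 hpD hr).symm
    · exact (ea_cop_norm hcop r r').symm
  rw [Ideal.isCoprime_iff_add, ← h, Ideal.add_eq_sup, sup_eq_left.mpr h3, Ideal.one_eq_top] at h4
  have h5 : HN (⊤ : Ideal (ℤ√D)) p := by rw [← h4]; exact hHN.cj
  have h6 := h5.unique HN_top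
  exact hp.one_lt.ne' h6

end Hp

end Pool.Agent.Lib.MP_d8bd92_nt
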