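import Pool.Agent.Lib.MP_d8bd92_nt.Hp.LD

set_option autoImplicit false

/-!
MP_d8bd92_nt, block EVL, file EB: dyadic classes of generators.
-/

namespace Pool.Agent.Lib.MP_d8bd92_nt

namespace Hp

open Finset

theorem eb_ne {D : ℤ} (hD : 0 < D) (hns : ∀ n : ℤ, D ≠ n * n) {z : ℤ√D} (hz : z ≠ 0) :
    Zsqrtd.toReal hD.le z ≠ 0 ∧ Zsqrtd.toReal hD.le (star z) ≠ 0 := by
  have h1 : z.norm ≠ 0 := fun h => hz ((Zsqrtd.norm_eq_zero hns z).mp h)
  have h2 := ld_norm hD.le z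
  have h3 : ((z.norm : ℤ) : ℝ) ≠ 0 := by exact_mod_cast h1
  rw [← h2] at h3
  exact ⟨left_ne_zero_of_mul h3, right_ne_zero_of_mul h3⟩

/-- logarithm of the quotient of the two embeddings -/
noncomputable def eb_lam {D : ℤ} (hD : 0 < D) (z : ℤ√D) : ℝ :=
  Real.log (Zsqrtd.toReal hD.le z) - Real.log (Zsqrtd.toReal hD.le (star z))

theorem eb_lam_mul {D : ℤ} (hD : 0 < D) (hns : ∀ n : ℤ, D ≠ n * n) {z w : ℤ√D} (hz : z ≠ 0) (hw : w ≠ 0) :
    eb_lam hD (z * w) = eb_lam hD z + eb_lam hD w := by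
  obtain ⟨h1, h2⟩ := eb_ne hD hns hz
  obtain ⟨h3, h4⟩ := eb_ne hD hns hw
  unfold eb_lam
  rw [star_mul, map_mul, map_mul, Real.log_mul h1 h3, Real.log_mul h4 h2]
  ring

theorem eb_lam_int {D : ℤ} (hD : 0 < D) (m : ℤ) : eb_lam hD ((m : ℤ) : ℤ√D) = 0 := by
  unfold eb_lam
  have : star ((m : ℤ) : ℤ√D) = ((m : ℤ) : ℤ√D) := by simp
  rw [this, sub_self]

theorem eb_lam_pow {D : ℤ} (hD : 0 < D) (hns : ∀ n : ℤ, D ≠ n * n) {z : ℤ√D} (hz : z ≠ 0) (l : ℕ) :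
    eb_lam hD (z ^ l) = l * eb_lam hD z := by
  have := isDomain_of hns
  induction l with
  | zero =>
    have := eb_lam_int hD 1
    simp only [Int.cast_one] at this
    rw [pow_zero, this]; simp
  | succ l ih =>
    rw [pow_succ, eb_lam_mul hD hns (pow_ne_zero _ hz) hz, ih]
    push_cast; ring

/-- bound for `lam` -/
theorem eb_lam_le {D : ℤ} (hD : 0 < D) (hns : ∀ n : ℤ, D ≠ n * n) {z : ℤ√D} (hz : z ≠ 0) {A : ℝ} (hA : 0 < A)
    (h : ((hh z : ℤ) : ℝ) ≤ A * ((|z.norm| : ℤ) : ℝ)) : |eb_lam hD z| ≤ Real.log (2 * A) := by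
  obtain ⟨h1, h2⟩ := eb_ne hD hns hz
  have h3 := ld_hh hD.le z
  have h4 : ((|z.norm| : ℤ) : ℝ) = |Zsqrtd.toReal hD.le z| * |Zsqrtd.toReal hD.le (star z)| := by
    rw [← abs_mul, ld_norm]; push_cast; rfl
  rw [h4] at h
  unfold eb_lam
  rw [← Real.log_abs (Zsqrtd.toReal hD.le z), ← Real.log_abs (Zsqrtd.toReal hD.le (star z))]
  rw [← sq_abs, ← sq_abs (Zsqrtd.toReal hD.le (star z))] at h3
  have p1 : 0 < |Zsqrtd.toReal hD.le z| := abs_pos.mpr h1
  have p2 : 0 < |Zsqrtd.toReal hD.le (star z)| := abs_pos.mpr h2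
  set x := |Zsqrtd.toReal hD.le z|
  set y := |Zsqrtd.toReal hD.le (star z)|
  have h5 : x ^ 2 + y ^ 2 ≤ 2 * A * (x * y) := by linarith
  have hx : x ≤ 2 * A * y := by
    have : x * x ≤ x * (2 * A * y) := by nlinarith [sq_nonneg y]
    exact le_of_mul_le_mul_left this p1
  have hy : y ≤ 2 * A * x := by
    have : y * y ≤ y * (2 * A * x) := by nlinarith [sq_nonneg x]
    exact le_of_mul_le_mul_left this p2
  have hx' := Real.log_le_log p1 hx
  have hy' := Real.log_le_log p2 hy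
  rw [Real.log_mul (by positivity) p2.ne'] at hx'
  rw [Real.log_mul (by positivity) p1.ne'] at hy'
  rw [abs_le]
  constructor <;> linarith

/-- converse -/
theorem eb_hh_le {D : ℤ} (hD : 0 < D) (hns : ∀ n : ℤ, D ≠ n * n) {z : ℤ√D} (hz : z ≠ 0) {B : ℝ}
    (h : |eb_lam hD z| ≤ B) : ((hh z : ℤ) : ℝ) ≤ Real.exp B * ((|z.norm| : ℤ) : ℝ) := by
  obtain ⟨h1, h2⟩ := eb_ne hD hns hz
  have h3 := ld_hh hD.le z
  have h4 : ((|z.norm| : ℤ) : ℝ) = |Zsqrtd.toReal hD.le z| * |Zsqrtd.toReal hD.le (star z)| := by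
    rw [← abs_mul, ld_norm]; push_cast; rfl
  rw [h4]
  unfold eb_lam at h
  rw [← Real.log_abs (Zsqrtd.toReal hD.le z), ← Real.log_abs (Zsqrtd.toReal hD.le (star z))] at h
  rw [← sq_abs, ← sq_abs (Zsqrtd.toReal hD.le (star z))] at h3
  have p1 : 0 < |Zsqrtd.toReal hD.le z| := abs_pos.mpr h1
  have p2 : 0 < |Zsqrtd.toReal hD.le (star z)| := abs_pos.mpr h2
  set x := |Zsqrtd.toReal hD.le z|
  set y := |Zsqrtd.toReal hD.le (star z)|
  rw [abs_le] at h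
  have hx : x ≤ Real.exp B * y := by
    have : Real.log x ≤ B + Real.log y := by linarith [h.2]
    calc x = Real.exp (Real.log x) := (Real.exp_log p1).symm
      _ ≤ Real.exp (B + Real.log y) := Real.exp_le_exp.mpr this
      _ = Real.exp B * y := by rw [Real.exp_add, Real.exp_log p2]
  have hy : y ≤ Real.exp B * x := by
    have : Real.log y ≤ B + Real.log x := by linarith [h.1]
    calc y = Real.exp (Real.log y) := (Real.exp_log p2).symm
      _ ≤ Real.exp (B + Real.log x) := Real.exp_le_exp.mpr this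
      _ = Real.exp B * x := by rw [Real.exp_add, Real.exp_log p1]
  nlinarith

/-- Dyadic classes of generators: same class and the relation imply that `ξ` is balanced. -/
theorem dyadic (L : ℕ) (C0 : ℝ) (hC0 : 1 ≤ C0) : ∃ C : ℝ, 1 ≤ C ∧ ∀ D : ℤ, (∀ n : ℤ, D ≠ n * n) →
    ∃ (κ : ℤ√D → ℕ) (N : ℕ), (N : ℝ) ≤ C * (1 + Real.log ((|D| : ℤ) : ℝ)) ∧
    (∀ e : ℤ√D, e ≠ 0 → (hh e) ^ 2 ≤ 4 * e.norm ^ 2 * |D| → κ e < N) ∧
    ∀ (e e' Ω Ω' ξ : ℤ√D) (m m' : ℤ) (l : ℕ), l ≤ L → e ≠ 0 → e' ≠ 0 → Ω ≠ 0 → Ω' ≠ 0 → m ≠ 0 → m' ≠ 0 →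
      ((hh Ω : ℤ) : ℝ) ≤ C0 * ((|Ω.norm| : ℤ) : ℝ) → ((hh Ω' : ℤ) : ℝ) ≤ C0 * ((|Ω'.norm| : ℤ) : ℝ) →
      (hh e) ^ 2 ≤ 4 * e.norm ^ 2 * |D| → (hh e') ^ 2 ≤ 4 * e'.norm ^ 2 * |D| → κ e = κ e' →
      (m : ℤ√D) * e ^ l * Ω' = ξ * ((m' : ℤ√D) * e' ^ l * Ω) →
      ((hh ξ : ℤ) : ℝ) ≤ C * ((|ξ.norm| : ℤ) : ℝ) := by
  have hl4 : 0 ≤ Real.log 4 := Real.log_nonneg (by norm_num)
  have hlC : 0 ≤ Real.log (2 * C0) := Real.log_nonneg (by linarith)
  set B : ℝ := L + 2 * Real.log (2 * C0) with hB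
  have hB0 : 0 ≤ B := by positivity
  refine ⟨Real.exp B + (8 + 2 * Real.log 4), ?_, ?_⟩
  · have := Real.exp_pos B
    linarith
  intro D hns
  have hD0 : D ≠ 0 := fun h0 => hns 0 (by simp [h0])
  have hDabs : (1 : ℝ) ≤ ((|D| : ℤ) : ℝ) := by exact_mod_cast Int.one_le_abs hD0
  have hlD : 0 ≤ Real.log ((|D| : ℤ) : ℝ) := Real.log_nonneg hDabs
  have hexpB := Real.exp_pos B
  rcases lt_or_gt_of_ne hD0 with hD | hD
  · refine ⟨fun _ => 0, 1, ?_, fun _ _ _ => one_pos, ?_⟩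
    · rw [Nat.cast_one]
      have h1 : 0 ≤ (Real.exp B + (8 + 2 * Real.log 4)) * Real.log ((|D| : ℤ) : ℝ) := by positivity
      nlinarith
    · intro e e' Ω Ω' ξ m m' l _ _ _ _ _ _ _ _ _ _ _ _ _
      have h1 : |ξ.norm| = hh ξ := by
        have h2 := Zsqrtd.norm_nonneg hD.le ξ
        rw [abs_of_nonneg h2, Zsqrtd.norm_def, hh, abs_of_neg hD]
        ring
      rw [h1]
      have h3 : (0 : ℝ) ≤ ((hh ξ : ℤ) : ℝ) := by exact_mod_cast hh_nonneg _
      have h4 : 1 ≤ Real.exp B := Real.one_le_exp hB0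
      nlinarith
  · -- real quadratic
    have hDr : ((|D| : ℤ) : ℝ) = (D : ℝ) := by rw [abs_of_pos hD]
    have hdom := isDomain_of hns
    set A : ℝ := 2 * √(D : ℝ) with hA
    have hDr1 : (1 : ℝ) ≤ (D : ℝ) := by rw [← hDr]; exact hDabs
    have hsq1 : 1 ≤ √(D : ℝ) := by rw [Real.one_le_sqrt]; exact hDr1
    have hA0 : 0 < A := by positivity
    set M : ℕ := ⌈Real.log (2 * A)⌉₊ + 1 with hM
    have hlA : 0 ≤ Real.log (2 * A) := Real.log_nonneg (by nlinarith)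
    have hMle : (M : ℝ) ≤ Real.log (2 * A) + 2 := by
      rw [hM]; push_cast
      have := Nat.ceil_lt_add_one hlA
      linarith
    have hMge : Real.log (2 * A) ≤ (M : ℝ) - 1 := by
      rw [hM]; push_cast
      have := Nat.le_ceil (Real.log (2 * A))
      linarith
    have hlam : ∀ e : ℤ√D, e ≠ 0 → (hh e) ^ 2 ≤ 4 * e.norm ^ 2 * |D| → |eb_lam hD e| ≤ (M : ℝ) - 1 := by
      intro e he h
      refine (eb_lam_le hD hns he hA0 ?_).trans hMge
      have h1 : (((hh e : ℤ) : ℝ)) ^ 2 ≤ (A * ((|e.norm| : ℤ) : ℝ)) ^ 2 := by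
        have h2 : (((hh e : ℤ) : ℝ)) ^ 2 ≤ 4 * ((e.norm : ℤ) : ℝ) ^ 2 * ((|D| : ℤ) : ℝ) := by exact_mod_cast h
        rw [hDr] at h2
        rw [mul_pow, hA, mul_pow, Real.sq_sqrt (by linarith)]
        push_cast
        rw [sq_abs]
        linarith
      exact le_of_sq_le_sq h1 (by positivity)
    refine ⟨fun e => (⌊eb_lam hD e⌋ + M).toNat, 2 * M, ?_, ?_, ?_⟩
    · rw [hDr] at hlD ⊢
      push_cast
      have h1 : Real.log (2 * A) = Real.log 4 + Real.log (D : ℝ) / 2 := by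
        rw [hA, show (2 : ℝ) * (2 * √(D : ℝ)) = 4 * √(D : ℝ) by ring, Real.log_mul (by norm_num) (by positivity),
          Real.log_sqrt (by linarith)]
      have h2 : 0 ≤ Real.exp B * (1 + Real.log (D : ℝ)) := by positivity
      have h3 : 0 ≤ Real.log 4 * Real.log (D : ℝ) := by positivity
      nlinarith
    · intro e he h
      have h1 := hlam e he h
      rw [abs_le] at h1
      have h2 : ⌊eb_lam hD e⌋ < (M : ℤ) := by
        rw [Int.floor_lt]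
        push_cast
        linarith [h1.2]
      show (⌊eb_lam hD e⌋ + M).toNat < 2 * M
      omega
    · intro e e' Ω Ω' ξ m m' l hl he he' hΩ hΩ' hm hm' hb hb' hhe hhe' hκ hrel
      have hmz : ((m : ℤ) : ℤ√D) ≠ 0 := by exact_mod_cast hm
      have hmz' : ((m' : ℤ) : ℤ√D) ≠ 0 := by exact_mod_cast hm'
      have hξ : ξ ≠ 0 := by
        rintro rfl
        rw [zero_mul] at hrel
        exact mul_ne_zero (mul_ne_zero hmz (pow_ne_zero _ he)) hΩ' hrel
      have h1 := congrArg (eb_lam hD) hrel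
      rw [eb_lam_mul hD hns (mul_ne_zero hmz (pow_ne_zero _ he)) hΩ', eb_lam_mul hD hns hmz (pow_ne_zero _ he),
        eb_lam_mul hD hns hξ (mul_ne_zero (mul_ne_zero hmz' (pow_ne_zero _ he')) hΩ),
        eb_lam_mul hD hns (mul_ne_zero hmz' (pow_ne_zero _ he')) hΩ, eb_lam_mul hD hns hmz' (pow_ne_zero _ he'),
        eb_lam_int, eb_lam_int, eb_lam_pow hD hns he, eb_lam_pow hD hns he'] at h1
      have b1 := eb_lam_le hD hns hΩ (by linarith) hb
      have b2 := eb_lam_le hD hns hΩ' (by linarith) hb'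
      have c1 := hlam e he hhe
      have c2 := hlam e' he' hhe'
      have hfl : ⌊eb_lam hD e⌋ = ⌊eb_lam hD e'⌋ := by
        rw [abs_le] at c1 c2
        have d1 : -(M : ℤ) ≤ ⌊eb_lam hD e⌋ := by
          rw [Int.le_floor]; push_cast; linarith [c1.1]
        have d2 : -(M : ℤ) ≤ ⌊eb_lam hD e'⌋ := by
          rw [Int.le_floor]; push_cast; linarith [c2.1]
        simp only at hκ
        omega
      have hdiff : |eb_lam hD e - eb_lam hD e'| ≤ 1 := (Int.abs_sub_lt_one_of_floor_eq_floor hfl).le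
      have hlam2 : |eb_lam hD ξ| ≤ B := by
        have e1 : eb_lam hD ξ = l * (eb_lam hD e - eb_lam hD e') + eb_lam hD Ω' - eb_lam hD Ω := by linarith
        have e2 : |(l : ℝ) * (eb_lam hD e - eb_lam hD e')| ≤ L := by
          rw [abs_mul, Nat.abs_cast]
          have : (l : ℝ) ≤ L := by exact_mod_cast hl
          calc (l : ℝ) * |eb_lam hD e - eb_lam hD e'| ≤ l * 1 := by gcongr
            _ ≤ L := by linarith
        rw [e1, hB]
        rw [abs_le] at b1 b2 e2 ⊢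
        constructor <;> linarith [b1.1, b1.2, b2.1, b2.2, e2.1, e2.2]
      have h5 := eb_hh_le hD hns hξ hlam2
      have h6 : (0 : ℝ) ≤ ((|ξ.norm| : ℤ) : ℝ) := by positivity
      nlinarith

end Hp

end Pool.Agent.Lib.MP_d8bd92_nt
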