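import Pool.Agent.Lib.MP_d8bd92_nt.Hp.EA
import Pool.Agent.Lib.MP_d8bd92_nt.Hp.EB
import Pool.Agent.Lib.MP_d8bd92_nt.Hp.LK3

set_option autoImplicit false

/-!
MP_d8bd92_nt, block EVL, file EC: the lattice lemma with small split ideals (Ellenberg-Venkatesh).
-/

namespace Pool.Agent.Lib.MP_d8bd92_nt

namespace Hp

open Finset

/-- small split primes: `p` odd prime, `D` a nonzero square modulo `p` -/
def SmallSplit (D : ℤ) (p : ℕ) : Prop := p.Prime ∧ p ≠ 2 ∧ ¬ (p : ℤ) ∣ D ∧ ∃ r : ℤ, (p : ℤ) ∣ r ^ 2 - D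

open scoped Classical in
/-- the chosen prime ideal above `p` -/
noncomputable def sid (D : ℤ) (p : ℕ) : Ideal (ℤ√D) :=
  if h : ∃ r : ℤ, (p : ℤ) ∣ r ^ 2 - D then idl D p h.choose else ⊤

theorem sid_eq {D : ℤ} {p : ℕ} (h : SmallSplit D p) : ∃ r : ℤ, (p : ℤ) ∣ r ^ 2 - D ∧ sid D p = idl D p r := by
  obtain ⟨-, -, -, hr⟩ := h
  exact ⟨hr.choose, hr.choose_spec, by unfold sid; rw [dif_pos hr]⟩

theorem sid_HN {D : ℤ} {p : ℕ} (h : SmallSplit D p) : HN (sid D p) p := by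
  obtain ⟨r, hr, he⟩ := sid_eq h
  obtain ⟨hp, hp2, hpD, -⟩ := h
  rw [he]
  refine idl_HN hp.one_le (hp.odd_of_ne_two hp2) ?_ hr
  exact (Prime.coprime_iff_not_dvd (Nat.prime_iff_prime_int.mp hp)).mpr hpD

/-- The lattice lemma with small split primes. -/
theorem ll_ev (ε : ℝ) (hε : 0 < ε) (L : ℕ) (C0 : ℝ) (hC0 : 1 ≤ C0) : ∃ C : ℝ, 0 < C ∧
    ∀ (X K : ℝ) (D : ℤ) (f l : ℕ) (E θ : ℝ) (ι : Type) (S : Finset ι) (Ω : ι → ℤ√D) (I : ι → Ideal (ℤ√D))
      (En s : ι → ℕ) (W : Ideal (ℤ√D)) (P : Finset ℕ), l ≤ L → LLG C0 X K D f l E θ S Ω I En s W →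
      (∀ p ∈ P, SmallSplit D p ∧ C * (p : ℝ) ^ (2 * l) ≤ ((|D| : ℤ) : ℝ)) →
      (S.card : ℝ) * P.card ≤ C * X ^ ε * K * √((|D| : ℤ) : ℝ) * (1 + θ * E / ((f : ℝ) * √((|D| : ℤ) : ℝ))) := by
  classical
  set ε1 : ℝ := ε / 3 with hε1def
  have hε1 : 0 < ε1 := by positivity
  obtain ⟨C1, hC1, hlab⟩ := label_count ε1 hε1
  obtain ⟨C2, hC2, hdy⟩ := dyadic L C0 hC0
  obtain ⟨C4, hC4, hclass⟩ := class_bound L C0 hC0
  obtain ⟨C5, hC5, hom⟩ := omega_pow ε1 hε1 L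
  set C3 : ℝ := 1 + 1 / ε1 with hC3def
  have hC3 : 0 < C3 := by positivity
  refine ⟨C1 * C2 * C3 * C4 * C5 * 2 + (C2 + 1), by positivity, ?_⟩
  intro X K D f l E θ ι S Ω I En s W P hlL h hP
  have hX := h.hX
  have hX0 : 0 < X := lt_of_lt_of_le one_pos hX
  have hK := h.hK
  have hE := h.hE
  have hθ := h.hθ
  have hD := h.hD
  have hf := h.hf
  have hl1 := h.hl
  have hdom : IsDomain (ℤ√D) := isDomain_of hD
  have hD0 : D ≠ 0 := fun h0 => hD 0 (by simp [h0])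
  have hDabs : (1 : ℝ) ≤ ((|D| : ℤ) : ℝ) := by
    exact_mod_cast Int.one_le_abs hD0
  have hsD : 0 < √((|D| : ℤ) : ℝ) := Real.sqrt_pos.mpr (lt_of_lt_of_le one_pos hDabs)
  have hf0 : (0 : ℝ) < (f : ℝ) := by exact_mod_cast hf
  obtain ⟨κ, N, hN, hκN, hκ⟩ := hdy D hD
  have hHN : ∀ x : ι × ℕ, x ∈ S ×ˢ P → HN (I x.1 * sid D x.2) (En x.1 * x.2) := by
    intro x hx
    obtain ⟨hx1, hx2⟩ := Finset.mem_product.mp hx
    exact (h.hn _ hx1).mul (sid_HN (hP _ hx2).1)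
  have hch : ∀ x : ι × ℕ, ∃ (e : ℤ√D) (a b : ℤ), x ∈ S ×ˢ P → (e ≠ 0 ∧ a ≠ 0 ∧ |b| ≤ |a| ∧ a ∣ b ^ 2 - D ∧
      e.norm = a * ((En x.1 : ℤ) * x.2) ∧
      Ideal.span {(a : ℤ√D)} * (I x.1 * sid D x.2) = Ideal.span {e} * Ideal.span {(a : ℤ√D), (⟨b, 1⟩ : ℤ√D)} ∧
      (hh e) ^ 2 ≤ 4 * e.norm ^ 2 * |D| ∧ a ^ 2 ≤ 4 * |D|) := by
    intro x
    by_cases hc : x ∈ S ×ˢ P
    · obtain ⟨e, a, b, he1, he2, he3, he4, he5, he6, he7, he8, he9⟩ := label hD (hHN x hc)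
      refine ⟨e, a, b, fun _ => ⟨he1, he3, he4, he5, ?_, he7, ?_, he9⟩⟩
      · rw [he6]; push_cast; ring
      · refine he8.trans ?_
        rw [he6]
        have ha2 : (1 : ℤ) ≤ a ^ 2 := by
          have : 0 < a ^ 2 := by positivity
          omega
        have h1 : 4 * (((En x.1 * x.2 : ℕ)) : ℤ) ^ 2 * |D| ≤ a ^ 2 * (4 * (((En x.1 * x.2 : ℕ)) : ℤ) ^ 2 * |D|) := by
          exact le_mul_of_one_le_left (mul_nonneg (mul_nonneg (by norm_num) (sq_nonneg _)) (abs_nonneg _)) ha2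
        refine h1.trans (le_of_eq ?_)
        ring
    · exact ⟨0, 0, 0, fun h' => absurd h' hc⟩
  choose e a b hlb using hch
  -- the bound of one class
  set B : ℝ := 1 + θ * E / ((f : ℝ) * √((|D| : ℤ) : ℝ)) with hBdef
  have hB : 0 < B := by positivity
  set M : ℝ := C4 * K * (C5 * X ^ ε1) * B with hMdef
  have hXe : 0 < X ^ ε1 := Real.rpow_pos_of_pos hX0 _
  have hM : 0 < M := by positivity
  have hXe1 : 1 ≤ X ^ ε1 := Real.one_le_rpow hX hε1.le
  -- facts for two elements of one class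
  have hpair : ∀ x ∈ S ×ˢ P, ∀ y ∈ S ×ˢ P, a x = a y → b x = b y → κ (e x) = κ (e y) →
      x.2 = y.2 ∧ ((s x.1 : ℤ√D) * e x ^ l * Ω y.1 = ((s y.1 : ℤ√D) * e y ^ l * Ω x.1) ∨
        (s x.1 : ℤ√D) * e x ^ l * Ω y.1 = - ((s y.1 : ℤ√D) * e y ^ l * Ω x.1)) := by
    intro x hx y hy hab hbb hkk
    obtain ⟨hx1, hx2⟩ := Finset.mem_product.mp hx
    obtain ⟨hy1, hy2⟩ := Finset.mem_product.mp hy
    obtain ⟨he1, ha1, -, -, hn1, hJ1, hh1, -⟩ := hlb x hx
    obtain ⟨he2, ha2, -, -, hn2, hJ2, hh2, -⟩ := hlb y hy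
    obtain ⟨hPx, hPx'⟩ := hP _ hx2
    obtain ⟨hPy, hPy'⟩ := hP _ hy2
    rw [← hab] at hn2 hJ2
    rw [← hbb] at hJ2
    obtain ⟨hee, -⟩ := beta_of_label hD (hHN x hx) (hHN y hy) ha1 (by rw [hn1]; push_cast; ring)
      (by rw [hn2]; push_cast; ring) hJ1 hJ2
    obtain ⟨ξ, hξ1, hξ2⟩ := ea_rel hD (h.s_pos _ hy1) he2 (h.nz _ hx1) (sid_HN hPy) (h.fac _ hx1) (h.fac _ hy1) hee
    have hpy0 : (y.2 : ℤ) ≠ 0 := by
      have := hPy.1.pos
      omega
    have hsx0 : (s x.1 : ℤ) ≠ 0 := by have := h.s_pos _ hx1; omega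
    have hsy0 : (s y.1 : ℤ) ≠ 0 := by have := h.s_pos _ hy1; omega
    have hξN := ea_norm ((( sid_HN hPx).mul (sid_HN hPy).cj).pow l) hξ2
    have hξb : ((hh ξ : ℤ) : ℝ) ≤ C2 * ((|ξ.norm| : ℤ) : ℝ) := by
      refine hκ (e x) (e y) (Ω x.1) (Ω y.1) ξ ((s x.1 : ℤ) * (y.2 : ℤ) ^ l) (s y.1 : ℤ) l hlL he1 he2 (h.nz _ hx1)
        (h.nz _ hy1) (mul_ne_zero hsx0 (pow_ne_zero _ hpy0)) hsy0 (h.bal _ hx1) (h.bal _ hy1) hh1 hh2 hkk ?_
      push_cast
      exact hξ1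
    -- the element is rational
    have hsmall : C2 * ((|ξ.norm| : ℤ) : ℝ) < ((|D| : ℤ) : ℝ) := by
      rw [hξN]
      set Q : ℝ := max (x.2 : ℝ) (y.2 : ℝ) with hQ
      have hQ0 : 0 < Q := by
        rw [hQ]
        apply lt_max_of_lt_left
        exact_mod_cast hPx.1.pos
      have hQD : (C1 * C2 * C3 * C4 * C5 * 2 + (C2 + 1)) * Q ^ (2 * l) ≤ ((|D| : ℤ) : ℝ) := by
        rw [hQ]
        rcases max_choice (x.2 : ℝ) (y.2 : ℝ) with h1 | h1 <;> rw [h1]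
        · exact hPx'
        · exact hPy'
      have h1 : ((((x.2 * y.2) ^ l : ℕ) : ℤ) : ℝ) ≤ Q ^ (2 * l) := by
        push_cast
        rw [pow_mul, mul_comm (x.2 : ℝ)]
        apply pow_le_pow_left₀ (by positivity)
        rw [sq]
        exact mul_le_mul (le_max_right _ _) (le_max_left _ _) (by positivity) hQ0.le
      have h2 : 0 < Q ^ (2 * l) := by positivity
      have h3 : 0 < C1 * C2 * C3 * C4 * C5 * 2 := by positivity
      calc C2 * ((((x.2 * y.2) ^ l : ℕ) : ℤ) : ℝ) ≤ C2 * Q ^ (2 * l) := by gcongr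
        _ < (C1 * C2 * C3 * C4 * C5 * 2 + (C2 + 1)) * Q ^ (2 * l) := by
            exact mul_lt_mul_of_pos_right (lt_add_of_pos_of_lt h3 (lt_add_one C2)) h2
        _ ≤ _ := hQD
    have him : ξ.im = 0 := by
      by_contra hne
      have h1 : |D| ≤ hh ξ := by
        unfold hh
        have h2 : 1 ≤ ξ.im ^ 2 := by
          have : 0 < ξ.im ^ 2 := by positivity
          omega
        have h3 : 0 < |D| := abs_pos.mpr hD0
        exact (le_mul_of_one_le_right h3.le h2).trans (le_add_of_nonneg_left (sq_nonneg ξ.re))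
      have h4 : ((|D| : ℤ) : ℝ) ≤ ((hh ξ : ℤ) : ℝ) := by exact_mod_cast h1
      exact absurd (h4.trans hξb) (not_le.mpr hsmall)
    have hξint : ξ = ((ξ.re : ℤ) : ℤ√D) := by
      ext
      · simp
      · simp [him]
    obtain ⟨rx, hrx, hsidx⟩ := sid_eq hPx
    obtain ⟨ry, hry, hsidy⟩ := sid_eq hPy
    have hpp : x.2 = y.2 := by
      have hHx := sid_HN hPx
      have hHy := sid_HN hPy
      rw [hsidx, hsidy] at hξ2
      rw [hsidx] at hHx
      rw [hsidy] at hHy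
      rw [hξint] at hξ2
      exact ea_same hD hPx.1 hPx.2.1 hPx.2.2.1 hrx hPy.1 hHx hHy hl1 hξ2
    refine ⟨hpp, ?_⟩
    have hre : ξ.re = (y.2 : ℤ) ^ l ∨ ξ.re = - (y.2 : ℤ) ^ l := by
      rw [hξint, Zsqrtd.norm_intCast, hpp] at hξN
      have h1 : ξ.re ^ 2 = ((y.2 : ℤ) ^ l) ^ 2 := by
        have h2 : |ξ.re * ξ.re| = ξ.re * ξ.re := abs_of_nonneg (mul_self_nonneg _)
        rw [h2] at hξN
        rw [sq, hξN]
        push_cast
        rw [mul_pow]; ring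
      exact sq_eq_sq_iff_eq_or_eq_neg.mp h1
    have hpz : ((y.2 : ℤ√D)) ^ l ≠ 0 := by
      apply pow_ne_zero
      exact_mod_cast hpy0
    rcases hre with h1 | h1
    · left
      apply mul_left_cancel₀ hpz
      have h2 : ξ = (y.2 : ℤ√D) ^ l := by rw [hξint, h1]; push_cast; rfl
      rw [h2] at hξ1
      rw [← hξ1]; ring
    · right
      apply mul_left_cancel₀ hpz
      have h2 : ξ = - (y.2 : ℤ√D) ^ l := by rw [hξint, h1]; push_cast; rfl
      rw [h2] at hξ1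
      calc (y.2 : ℤ√D) ^ l * ((s x.1 : ℤ√D) * e x ^ l * Ω y.1) = (s x.1 : ℤ√D) * (y.2 : ℤ√D) ^ l * e x ^ l * Ω y.1 := by ring
        _ = _ := by rw [hξ1]; ring
  -- the bound of one label
  have hlabel1 : ∀ q ∈ (S ×ˢ P).image (fun x => (κ (e x), (a x, b x))),
      (((S ×ˢ P).filter (fun x => (κ (e x), (a x, b x)) = q)).card : ℝ) ≤ 2 * M := by
    intro q hq
    obtain ⟨x1, hx1, hx1q⟩ := Finset.mem_image.mp hq
    set T : Finset (ι × ℕ) := (S ×ˢ P).filter (fun x => (κ (e x), (a x, b x)) = q) with hTdef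
    have hT : T ⊆ S ×ˢ P := Finset.filter_subset _ _
    have hTm : ∀ x ∈ T, κ (e x) = κ (e x1) ∧ a x = a x1 ∧ b x = b x1 := by
      intro x hx
      have h1 := (Finset.mem_filter.mp hx).2
      rw [← hx1q] at h1
      simp only [Prod.mk.injEq] at h1
      exact ⟨h1.1, h1.2.1, h1.2.2⟩
    have hTp : ∀ x ∈ T, x.2 = x1.2 := by
      intro x hx
      obtain ⟨h1, h2, h3⟩ := hTm x hx
      exact (hpair x (hT hx) x1 hx1 h2 h3 h1).1
    -- sign classes
    have hone : ∀ v : Bool, ((T.filter (fun x => decide ((s x.1 : ℤ√D) * e x ^ l * Ω x1.1 =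
        ((s x1.1 : ℤ√D) * e x1 ^ l * Ω x.1)) = v)).card : ℝ) ≤ M := by
      intro v
      set T' : Finset (ι × ℕ) := T.filter (fun x => decide ((s x.1 : ℤ√D) * e x ^ l * Ω x1.1 =
        ((s x1.1 : ℤ√D) * e x1 ^ l * Ω x.1)) = v) with hT'def
      have hT' : T' ⊆ T := Finset.filter_subset _ _
      obtain ⟨ee, hee⟩ : ∃ ee : ι → ℤ√D, ∀ x ∈ T', ee x.1 = e x := by
        refine ⟨fun c => e (c, x1.2), ?_⟩
        intro x hx
        show e (x.1, x1.2) = e x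
        rw [← hTp x (hT' hx)]
      have hinjfst : Set.InjOn Prod.fst (T' : Set (ι × ℕ)) := by
        intro x hx y hy hxy
        have h1 := hTp x (hT' hx)
        have h2 := hTp y (hT' hy)
        exact Prod.ext hxy (h1.trans h2.symm)
      have hcard : (T'.image Prod.fst).card = T'.card := Finset.card_image_of_injOn hinjfst
      rw [← hcard]
      have hsub : T'.image Prod.fst ⊆ S := by
        intro c hc
        obtain ⟨x, hx, rfl⟩ := Finset.mem_image.mp hc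
        exact (Finset.mem_product.mp (hT (hT' hx))).1
      have hPx1 := (hP _ (Finset.mem_product.mp hx1).2).1
      have hsgn : ∀ x ∈ T', ∀ y ∈ T', (s x.1 : ℤ√D) * e x ^ l * Ω y.1 = ((s y.1 : ℤ√D) * e y ^ l * Ω x.1) := by
        have hw : (s x1.1 : ℤ√D) * e x1 ^ l * Ω x1.1 ≠ 0 := by
          have hx11 := (Finset.mem_product.mp hx1).1
          apply mul_ne_zero (mul_ne_zero _ (pow_ne_zero _ (hlb x1 hx1).1)) (h.nz _ hx11)
          have := h.s_pos _ hx11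
          exact_mod_cast (by omega : (s x1.1 : ℤ) ≠ 0)
        have hσ : ∃ σ : ℤ√D, ∀ x ∈ T', (s x.1 : ℤ√D) * e x ^ l * Ω x1.1 =
            σ * ((s x1.1 : ℤ√D) * e x1 ^ l * Ω x.1) := by
          cases v with
          | true =>
            refine ⟨1, ?_⟩
            intro x hx
            have h1 := (Finset.mem_filter.mp hx).2
            rw [decide_eq_true_eq] at h1
            rw [one_mul]; exact h1
          | false =>
            refine ⟨-1, ?_⟩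
            intro x hx
            have h1 := (Finset.mem_filter.mp hx).2
            rw [decide_eq_false_iff_not] at h1
            obtain ⟨g1, g2, g3⟩ := hTm x (hT' hx)
            rcases (hpair x (hT (hT' hx)) x1 hx1 g2 g3 g1).2 with h2 | h2
            · exact absurd h2 h1
            · rw [h2]; ring
        obtain ⟨σ, hσ⟩ := hσ
        have hw2 : (s x1.1 : ℤ√D) * e x1 ^ l ≠ 0 := left_ne_zero_of_mul hw
        have hw3 : Ω x1.1 ≠ 0 := right_ne_zero_of_mul hw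
        intro x hx y hy
        apply mul_left_cancel₀ hw3
        apply mul_left_cancel₀ hw2
        calc (s x1.1 : ℤ√D) * e x1 ^ l * (Ω x1.1 * ((s x.1 : ℤ√D) * e x ^ l * Ω y.1))
            = ((s x.1 : ℤ√D) * e x ^ l * Ω x1.1) * ((s x1.1 : ℤ√D) * e x1 ^ l * Ω y.1) := by ring
          _ = (σ * ((s x1.1 : ℤ√D) * e x1 ^ l * Ω y.1)) * ((s x1.1 : ℤ√D) * e x1 ^ l * Ω x.1) := by
              rw [hσ x hx]; ring
          _ = ((s y.1 : ℤ√D) * e y ^ l * Ω x1.1) * ((s x1.1 : ℤ√D) * e x1 ^ l * Ω x.1) := by rw [← hσ y hy]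
          _ = _ := by ring
      have hcb := hclass X K D f l E θ ι (T'.image Prod.fst) Ω I En s W ee (a x1 * x1.2)
        (Ideal.span {((a x1 : ℤ) : ℤ√D), (⟨b x1, 1⟩ : ℤ√D)} * cj (sid D x1.2))
        hlL (h.subset hsub) (mul_ne_zero (hlb x1 hx1).2.1 (by have := hPx1.1.pos; omega)) (by
          intro c hc
          obtain ⟨x, hx, rfl⟩ := Finset.mem_image.mp hc
          obtain ⟨hk, hac, hbc⟩ := hTm x (hT' hx)
          obtain ⟨he, ha, -, -, hn, hJ, hhc, -⟩ := hlb x (hT (hT' hx))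
          rw [hac] at hn hJ
          rw [hbc] at hJ
          rw [hTp x (hT' hx)] at hn hJ
          rw [hee x hx]
          refine ⟨he, by rw [hn]; ring, ?_⟩
          have h1 : (Ideal.span {((a x1 * (x1.2 : ℤ) : ℤ) : ℤ√D)} : Ideal (ℤ√D)) =
              Ideal.span {((a x1 : ℤ) : ℤ√D)} * (sid D x1.2 * cj (sid D x1.2)) := by
            rw [(sid_HN hPx1).2, Ideal.span_singleton_mul_span_singleton]
            push_cast; rfl
          rw [h1]
          calc Ideal.span {((a x1 : ℤ) : ℤ√D)} * (sid D x1.2 * cj (sid D x1.2)) * I x.1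
              = (Ideal.span {((a x1 : ℤ) : ℤ√D)} * (I x.1 * sid D x1.2)) * cj (sid D x1.2) := by ring
            _ = _ := by rw [hJ]; ring) (by
          intro c hc c' hc'
          obtain ⟨x, hx, rfl⟩ := Finset.mem_image.mp hc
          obtain ⟨y, hy, rfl⟩ := Finset.mem_image.mp hc'
          rw [hee x hx, hee y hy]
          exact hsgn x hx y hy)
      have hom1 := hom f l hf hlL
      have hfX : (f : ℝ) ^ ε1 ≤ X ^ ε1 := Real.rpow_le_rpow hf0.le h.hfX hε1.le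
      calc ((T'.image Prod.fst).card : ℝ) ≤ C4 * K * (((l + 1) ^ f.primeFactors.card : ℕ) : ℝ) * B := hcb
        _ ≤ C4 * K * (C5 * X ^ ε1) * B := by
            have : (((l + 1) ^ f.primeFactors.card : ℕ) : ℝ) ≤ C5 * X ^ ε1 :=
              hom1.trans (by gcongr)
            gcongr
    have hsplit : T.card = (T.filter (fun x => decide ((s x.1 : ℤ√D) * e x ^ l * Ω x1.1 =
        ((s x1.1 : ℤ√D) * e x1 ^ l * Ω x.1)) = true)).card + (T.filter (fun x => decide ((s x.1 : ℤ√D) * e x ^ l * Ω x1.1 =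
        ((s x1.1 : ℤ√D) * e x1 ^ l * Ω x.1)) = false)).card := by
      rw [← Finset.card_filter_add_card_filter_not (s := T) (fun x => decide ((s x.1 : ℤ√D) * e x ^ l * Ω x1.1 =
        ((s x1.1 : ℤ√D) * e x1 ^ l * Ω x.1)) = true)]
      congr 2
      apply Finset.filter_congr
      intro x _
      simp
    have h1 := hone true
    have h2 := hone false
    rw [hsplit]
    rw [Nat.cast_add, two_mul]
    exact add_le_add h1 h2
  have hT : ((((S ×ˢ P).image (fun x => (κ (e x), (a x, b x)))).card : ℕ) : ℝ) ≤ (N : ℝ) * (C1 * X ^ ε1 * √((|D| : ℤ) : ℝ)) := by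
    have h1 := hlab D hD ((S ×ˢ P).image (fun x => (a x, b x))) (by
      intro p hp
      obtain ⟨c, hc, rfl⟩ := Finset.mem_image.mp hp
      obtain ⟨-, ha, hba, hdv, -, -, -, ha2⟩ := hlb c hc
      exact ⟨ha, hba, hdv, ha2⟩)
    have h3 : (S ×ˢ P).image (fun x => (κ (e x), (a x, b x))) ⊆ Finset.range N ×ˢ (S ×ˢ P).image (fun x => (a x, b x)) := by
      intro z hz
      obtain ⟨x, hx, rfl⟩ := Finset.mem_image.mp hz
      rw [Finset.mem_product, Finset.mem_range]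
      obtain ⟨he, -, -, -, -, -, hh1, -⟩ := hlb x hx
      exact ⟨hκN _ he hh1, Finset.mem_image_of_mem _ hx⟩
    have h4 := Finset.card_le_card h3
    rw [Finset.card_product, Finset.card_range] at h4
    have h2 : ((|D| : ℤ) : ℝ) ^ ε1 ≤ X ^ ε1 := Real.rpow_le_rpow (zero_le_one.trans hDabs) h.hDX hε1.le
    calc ((((S ×ˢ P).image (fun x => (κ (e x), (a x, b x)))).card : ℕ) : ℝ)
        ≤ (N : ℝ) * (((S ×ˢ P).image (fun x => (a x, b x))).card : ℝ) := by exact_mod_cast h4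
      _ ≤ (N : ℝ) * (C1 * ((|D| : ℤ) : ℝ) ^ ε1 * √((|D| : ℤ) : ℝ)) := by gcongr
      _ ≤ _ := by gcongr
  have hNX : (N : ℝ) ≤ C2 * (C3 * X ^ ε1) := by
    refine hN.trans ?_
    have h1 : Real.log ((|D| : ℤ) : ℝ) ≤ Real.log X := Real.log_le_log (lt_of_lt_of_le one_pos hDabs) h.hDX
    have h2 : Real.log X ≤ X ^ ε1 / ε1 := Real.log_le_rpow_div hX0.le hε1
    have h3 : 1 + Real.log ((|D| : ℤ) : ℝ) ≤ C3 * X ^ ε1 := by
      rw [hC3def]
      calc 1 + Real.log ((|D| : ℤ) : ℝ) ≤ X ^ ε1 + X ^ ε1 / ε1 := add_le_add hXe1 (h1.trans h2)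
        _ = _ := by ring
    gcongr
  have hmain := lk3_group (S ×ˢ P) (fun x => (κ (e x), (a x, b x))) _ hlabel1
  have hXX : X ^ ε1 * X ^ ε1 * X ^ ε1 = X ^ ε := by
    rw [← Real.rpow_add hX0, ← Real.rpow_add hX0]
    congr 1
    rw [hε1def]; ring
  rw [Finset.card_product] at hmain
  push_cast at hmain
  calc (S.card : ℝ) * P.card ≤ _ := hmain
    _ ≤ ((C2 * (C3 * X ^ ε1)) * (C1 * X ^ ε1 * √((|D| : ℤ) : ℝ))) * (2 * M) := by
        refine mul_le_mul_of_nonneg_right (hT.trans ?_) (by positivity)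
        gcongr
    _ = C1 * C2 * C3 * C4 * C5 * 2 * (X ^ ε1 * X ^ ε1 * X ^ ε1) * K * √((|D| : ℤ) : ℝ) * B := by
        rw [hMdef]; ring
    _ = C1 * C2 * C3 * C4 * C5 * 2 * X ^ ε * K * √((|D| : ℤ) : ℝ) * B := by rw [hXX]
    _ ≤ (C1 * C2 * C3 * C4 * C5 * 2 + (C2 + 1)) * X ^ ε * K * √((|D| : ℤ) : ℝ) * B := by
        have : 0 < X ^ ε := Real.rpow_pos_of_pos hX0 _
        gcongr
        exact le_add_of_nonneg_right (add_nonneg (zero_le_one.trans hC2) zero_le_one)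

end Hp

end Pool.Agent.Lib.MP_d8bd92_nt
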