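import Pool.Agent.Lib.MP_d8bd92_nt.Hp.LL0

set_option autoImplicit false

/-!
MP_d8bd92_nt, block LL, file LB1.
-/

namespace Pool.Agent.Lib.MP_d8bd92_nt

namespace Hp

open Finset

/-- a nonzero ideal of the integers has a positive generator -/
theorem lb1_gen (A : Ideal ℤ) {n : ℤ} (hn : n ∈ A) (h0 : n ≠ 0) :
    ∃ c : ℕ, 1 ≤ c ∧ (c : ℤ) ∈ A ∧ ∀ y ∈ A, (c : ℤ) ∣ y := by
  obtain ⟨a, ha⟩ : ∃ a, A = Ideal.span {a} := (IsPrincipalIdealRing.principal A).principal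
  have h1 : ∀ y, y ∈ A ↔ a ∣ y := by
    intro y
    rw [ha, Ideal.mem_span_singleton]
  refine ⟨a.natAbs, ?_, ?_, ?_⟩
  · rcases Nat.eq_zero_or_pos a.natAbs with h | h
    · rw [Int.natAbs_eq_zero] at h
      have h2 := (h1 n).1 hn
      rw [h, zero_dvd_iff] at h2
      exact absurd h2 h0
    · exact h
  · rw [h1]
    exact Int.dvd_natAbs.2 dvd_rfl
  · intro y hy
    exact Int.natAbs_dvd.2 ((h1 y).1 hy)

/-- Row hpLB1.  Structure of invertible ideals.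
Proof.  Let `c` be the positive generator of the subgroup of `ℤ` generated by the `√D`-coordinates of
the elements of `I` (`I ≠ 0` as `E ∈ I`; if all `√D`-coordinates were 0 then `E √D ∈ I` contradicts).
For `z = x + y √D ∈ I` also `z √D = y D + x √D ∈ I`, so `c ∣ x`, `c ∣ y`: `I = c I'`,
`I' = {(x,y) | c (x + y √D) ∈ I}` (an ideal, contains some `b + √D`).  `c ^ 2 ∣ E`: by `HN.dvd_norm`-type
argument: `span {E} = I * cj I ≤ span {c^2}`; put `E = c^2 E'`, then `I' * cj I' = span {E'}`.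
`I' ∩ ℤ = j ℤ`, `j ≥ 1`.  `E' ∈ I'` so `j ∣ E'`.  Conversely `j * cj I' ≤ I' * cj I' = span {E'}`, so every
`w ∈ cj I'` has `E' ∣ j w`, in particular for `w = b - √D` (conjugate of `b + √D`): `E' ∣ j`.  So `j = E'`.
`(b+√D)(b-√D) = b^2 - D ∈ I' ∩ ℤ`: `E' ∣ b^2 - D`.  `x + y √D ∈ I'` iff `x - b y ∈ I'` iff `E' ∣ x - b y`. -/
theorem struct {D : ℤ} (hD : ∀ n : ℤ, D ≠ n * n) {I : Ideal (ℤ√D)} {E : ℕ} (hI : HN I E) :
    ∃ (c E' : ℕ) (b : ℤ), 1 ≤ c ∧ 1 ≤ E' ∧ E = c ^ 2 * E' ∧ (E' : ℤ) ∣ b ^ 2 - D ∧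
      ∀ z : ℤ√D, z ∈ I ↔ ∃ x y : ℤ, z = ⟨c * x, c * y⟩ ∧ (E' : ℤ) ∣ x - b * y := by
  have hE0 : (E : ℤ) ≠ 0 := by
    have := hI.1
    omega
  have hcast : ∀ n : ℤ, ((n : ℤ) : ℤ√D) = ⟨n, 0⟩ := fun n => by ext <;> simp
  have hEI : (⟨(E : ℤ), 0⟩ : ℤ√D) ∈ I := by
    have h1 : (E : ℤ√D) ∈ I * cj I := by
      rw [hI.2]
      exact Ideal.mem_span_singleton_self _
    have h2 : (E : ℤ√D) ∈ I := Ideal.mul_le_left h1
    have h3 : (E : ℤ√D) = ⟨(E : ℤ), 0⟩ := by ext <;> simp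
    rwa [h3] at h2
  have hsq : ∀ x y : ℤ, (⟨x, y⟩ : ℤ√D) ∈ I → (⟨D * y, x⟩ : ℤ√D) ∈ I := by
    intro x y h
    have h1 := I.mul_mem_left ⟨0, 1⟩ h
    have e : ((⟨0, 1⟩ : ℤ√D) * ⟨x, y⟩) = ⟨D * y, x⟩ := by ext <;> simp
    rwa [e] at h1
  have hint : ∀ n x y : ℤ, (⟨x, y⟩ : ℤ√D) ∈ I → (⟨n * x, n * y⟩ : ℤ√D) ∈ I := by
    intro n x y h
    have h1 := I.mul_mem_left ⟨n, 0⟩ h
    have e : ((⟨n, 0⟩ : ℤ√D) * ⟨x, y⟩) = ⟨n * x, n * y⟩ := by ext <;> simp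
    rwa [e] at h1
  have hadd : ∀ x y x' y' : ℤ, (⟨x, y⟩ : ℤ√D) ∈ I → (⟨x', y'⟩ : ℤ√D) ∈ I →
      (⟨x + x', y + y'⟩ : ℤ√D) ∈ I := by
    intro x y x' y' h h'
    exact I.add_mem h h'
  have hzero : (⟨0, 0⟩ : ℤ√D) ∈ I := I.zero_mem
  -- the second coordinates
  let A : Ideal ℤ :=
    { carrier := {y | ∃ x, (⟨x, y⟩ : ℤ√D) ∈ I}
      add_mem' := by
        rintro y y' ⟨x, h⟩ ⟨x', h'⟩
        exact ⟨x + x', hadd _ _ _ _ h h'⟩
      zero_mem' := ⟨0, hzero⟩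
      smul_mem' := by
        rintro n y ⟨x, h⟩
        exact ⟨n * x, hint n x y h⟩ }
  have hA : ∀ y, y ∈ A ↔ ∃ x, (⟨x, y⟩ : ℤ√D) ∈ I := fun y => Iff.rfl
  obtain ⟨c, hc1, hcA, hcd⟩ := lb1_gen A (n := E) ((hA _).2 ⟨_, hsq _ _ hEI⟩) hE0
  have hdvd : ∀ x y : ℤ, (⟨x, y⟩ : ℤ√D) ∈ I → (c : ℤ) ∣ x ∧ (c : ℤ) ∣ y := fun x y h =>
    ⟨hcd x ((hA _).2 ⟨_, hsq _ _ h⟩), hcd y ((hA _).2 ⟨_, h⟩)⟩
  have hc0 : (c : ℤ) ≠ 0 := by omega
  obtain ⟨x0, hx0⟩ := (hA _).1 hcA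
  obtain ⟨b, rfl⟩ := (hdvd _ _ hx0).1
  -- the integers
  let L : Ideal ℤ :=
    { carrier := {x | (⟨c * x, 0⟩ : ℤ√D) ∈ I}
      add_mem' := by
        intro x x' h h'
        have h1 := hadd _ _ _ _ h h'
        rw [← mul_add, add_zero] at h1
        exact h1
      zero_mem' := by
        change (⟨c * 0, 0⟩ : ℤ√D) ∈ I
        rw [mul_zero]
        exact hzero
      smul_mem' := by
        intro n x h
        have h1 := hint n _ _ h
        change (⟨c * (n * x), 0⟩ : ℤ√D) ∈ I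
        have e : (c : ℤ) * (n * x) = n * (c * x) := by ring
        rw [e]
        rwa [mul_zero] at h1 }
  have hL : ∀ x, x ∈ L ↔ (⟨c * x, 0⟩ : ℤ√D) ∈ I := fun x => Iff.rfl
  obtain ⟨e0, he0⟩ := (hdvd _ _ hEI).1
  have he0' : e0 ≠ 0 := by
    rintro rfl
    rw [mul_zero] at he0
    exact hE0 he0
  obtain ⟨j, hj1, hjL, hjd⟩ := lb1_gen L (n := e0) ((hL _).2 (by rw [← he0]; exact hEI)) he0'
  have hj0 : (j : ℤ) ≠ 0 := by omega
  -- membership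
  have hmem : ∀ x y : ℤ, (⟨c * x, c * y⟩ : ℤ√D) ∈ I ↔ (j : ℤ) ∣ x - b * y := by
    intro x y
    have hy : (⟨y * (c * b), y * c⟩ : ℤ√D) ∈ I := hint y _ _ hx0
    constructor
    · intro h
      apply hjd
      rw [hL]
      have h1 := I.sub_mem h hy
      have e : ((⟨c * x, c * y⟩ : ℤ√D) - ⟨y * (c * b), y * c⟩) = ⟨c * (x - b * y), 0⟩ := by
        ext
        · simp; ring
        · simp; ring
      rwa [e] at h1
    · rintro ⟨k, hk⟩
      have h1 : (⟨k * (c * j), k * 0⟩ : ℤ√D) ∈ I := hint k _ _ ((hL _).1 hjL)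
      have h2 := hadd _ _ _ _ h1 hy
      have e : (⟨k * (c * j) + y * (c * b), k * 0 + y * c⟩ : ℤ√D) = ⟨c * x, c * y⟩ := by
        ext
        · change k * (c * j) + y * (c * b) = c * x
          linear_combination -(c : ℤ) * hk
        · change k * 0 + y * c = c * y
          ring
      rwa [e] at h2
  have hiff : ∀ z : ℤ√D, z ∈ I ↔ ∃ x y : ℤ, z = ⟨c * x, c * y⟩ ∧ (j : ℤ) ∣ x - b * y := by
    intro z
    constructor
    · intro hz
      obtain ⟨⟨x, hx⟩, ⟨y, hy⟩⟩ := hdvd z.re z.im hz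
      have e : z = ⟨c * x, c * y⟩ := by
        ext
        · exact hx
        · exact hy
      refine ⟨x, y, e, ?_⟩
      rw [e] at hz
      exact (hmem x y).1 hz
    · rintro ⟨x, y, rfl, h⟩
      exact (hmem x y).2 h
  -- `j` divides `b ^ 2 - D`
  have hbD : (j : ℤ) ∣ b ^ 2 - D := by
    apply hjd
    rw [hL]
    have h1 := I.mul_mem_left ⟨b, -1⟩ hx0
    have e : ((⟨b, -1⟩ : ℤ√D) * ⟨c * b, c⟩) = ⟨c * (b ^ 2 - D), 0⟩ := by
      ext
      · simp; ring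
      · simp; ring
    rwa [e] at h1
  -- `E = c ^ 2 * j`
  have hd1 : ((c : ℤ) ^ 2 * j) ∣ (E : ℤ) := by
    have h1 : I * cj I ≤ Ideal.span {(((c : ℤ) ^ 2 * j : ℤ) : ℤ√D)} := by
      rw [Ideal.mul_le]
      intro z hz w hw
      rw [mem_cj] at hw
      obtain ⟨x, y, rfl, ⟨u, hu⟩⟩ := (hiff z).1 hz
      obtain ⟨x', y', hw', ⟨u', hu'⟩⟩ := (hiff _).1 hw
      have hw2 : w = ⟨c * x', -(c * y')⟩ := by
        have h2 := congrArg star hw'
        rw [star_star] at h2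
        rw [h2]
        rfl
      rw [hw2, Ideal.mem_span_singleton, Zsqrtd.intCast_dvd]
      obtain ⟨k, hk⟩ := hbD
      constructor
      · refine ⟨k * y * y' + b * y * u' + b * y' * u + j * u * u', ?_⟩
        rw [Zsqrtd.re_mul]
        change c * x * (c * x') + D * (c * y) * -(c * y') = _
        have hx : x = b * y + j * u := by linear_combination hu
        have hx' : x' = b * y' + j * u' := by linear_combination hu'
        rw [hx, hx']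
        linear_combination (c : ℤ) ^ 2 * y * y' * hk
      · refine ⟨y * u' - u * y', ?_⟩
        rw [Zsqrtd.im_mul]
        change c * x * -(c * y') + c * y * (c * x') = _
        have hx : x = b * y + j * u := by linear_combination hu
        have hx' : x' = b * y' + j * u' := by linear_combination hu'
        rw [hx, hx']
        ring
    rw [hI.2, Ideal.span_singleton_le_span_singleton] at h1
    have h2 : (((c : ℤ) ^ 2 * j : ℤ) : ℤ√D) ∣ ((E : ℤ) : ℤ√D) := by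
      rw [Int.cast_natCast]
      exact h1
    exact (Zsqrtd.intCast_dvd_intCast _ _).1 h2
  have hd2 : (E : ℤ) ∣ ((c : ℤ) ^ 2 * j) := by
    have h1 := hI.dvd_norm ((hL _).1 hjL) hx0
    have h2 : ((E : ℤ) : ℤ√D) ∣ (⟨c * j, 0⟩ : ℤ√D) * star ⟨c * b, c⟩ := by
      rw [Int.cast_natCast]
      exact h1
    rw [Zsqrtd.intCast_dvd] at h2
    have h3 := h2.2
    rw [Zsqrtd.im_mul] at h3
    have e : c * j * -(c : ℤ) + 0 * (c * b) = -((c : ℤ) ^ 2 * j) := by ring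
    have h4 : (E : ℤ) ∣ c * j * -(c : ℤ) + 0 * (c * b) := h3
    rw [e, dvd_neg] at h4
    exact h4
  refine ⟨c, j, b, hc1, hj1, ?_, hbD, hiff⟩
  have h1 : E ∣ c ^ 2 * j := by exact_mod_cast hd2
  have h2 : c ^ 2 * j ∣ E := by exact_mod_cast hd1
  exact Nat.dvd_antisymm h1 h2

end Hp

end Pool.Agent.Lib.MP_d8bd92_nt
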