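import Pool.Agent.Lib.MP_d8bd92_nt.Hp.EA
import Pool.Agent.Lib.MP_d8bd92_nt.Hp.LB1
import Pool.Agent.Lib.MP_d8bd92_nt.Hp.LC0
import Pool.Agent.Lib.MP_d8bd92_nt.Hp.LK4

set_option autoImplicit false

/-!
MP_d8bd92_nt, block EVL, file ED: ideals with principal square (genus theory).
-/

namespace Pool.Agent.Lib.MP_d8bd92_nt

namespace Hp

open Finset

variable {D : ℤ}

/-- an ideal equal to its conjugate: rational multiple of a standard ideal of norm dividing `4 D` -/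
theorem ed_struct (hD : ∀ n : ℤ, D ≠ n * n) {I : Ideal (ℤ√D)} {E : ℕ} (hI : HN I E) (hc : cj I = I) :
    ∃ (g E' : ℕ) (b : ℤ), 1 ≤ g ∧ 1 ≤ E' ∧ E = g ^ 2 * E' ∧ (E' : ℤ) ∣ 4 * D ∧ (E' : ℤ) ∣ 2 * b ∧
      I = Ideal.span {(g : ℤ√D)} * Ideal.span {(E' : ℤ√D), (⟨b, 1⟩ : ℤ√D)} ∧
      HN (Ideal.span {(E' : ℤ√D), (⟨b, 1⟩ : ℤ√D)}) E' := by
  have hdom := isDomain_of hD
  obtain ⟨g, E', b, hg, hE', hE, hdv, hmem⟩ := struct hD hI
  have hg0 : (g : ℤ) ≠ 0 := by omega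
  have hgz : (g : ℤ√D) ≠ 0 := by exact_mod_cast hg0
  -- the generators
  have hIeq : I = Ideal.span {(g : ℤ√D)} * Ideal.span {(E' : ℤ√D), (⟨b, 1⟩ : ℤ√D)} := by
    apply le_antisymm
    · intro z hz
      obtain ⟨x, y, rfl, k, hk⟩ := (hmem z).mp hz
      have h1 : (⟨(g : ℤ) * x, (g : ℤ) * y⟩ : ℤ√D) = (g : ℤ√D) * ((k : ℤ√D) * (E' : ℤ√D) + (y : ℤ√D) * ⟨b, 1⟩) := by
        have hx : x = b * y + E' * k := by linarith
        ext
        · simp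
          left
          rw [hx]; ring
        · simp
      rw [h1]
      refine Ideal.mul_mem_mul (Ideal.mem_span_singleton_self _) ?_
      exact Ideal.add_mem _ (Ideal.mul_mem_left _ _ (Ideal.subset_span (by simp)))
        (Ideal.mul_mem_left _ _ (Ideal.subset_span (by simp)))
    · rw [Ideal.span_mul_span', Ideal.span_le]
      rintro z hz
      obtain ⟨u, hu, v, hv, rfl⟩ := Set.mem_mul.mp hz
      rw [Set.mem_singleton_iff] at hu
      subst hu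
      show _ ∈ I
      rw [hmem]
      rcases hv with rfl | hv
      · refine ⟨E', 0, ?_, by simp⟩
        ext <;> simp
      · rw [Set.mem_singleton_iff] at hv
        subst hv
        refine ⟨b, 1, ?_, by simp⟩
        ext <;> simp
  have h2b : (E' : ℤ) ∣ 2 * b := by
    have h1 : (⟨(g : ℤ) * b, (g : ℤ) * 1⟩ : ℤ√D) ∈ I := (hmem _).mpr ⟨b, 1, rfl, by simp⟩
    have h2 : star (⟨(g : ℤ) * b, (g : ℤ) * 1⟩ : ℤ√D) ∈ I := by
      rw [← hc, mem_cj, star_star]; exact h1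
    obtain ⟨x, y, hxy, hd⟩ := (hmem _).mp h2
    have hre := congrArg Zsqrtd.re hxy
    have him := congrArg Zsqrtd.im hxy
    simp only [Zsqrtd.re_star, Zsqrtd.im_star] at hre him
    have hx : x = b := by
      have := mul_left_cancel₀ hg0 hre
      exact this.symm
    have hy : y = -1 := by
      have h3 : (g : ℤ) * (-1) = (g : ℤ) * y := by linarith
      have := mul_left_cancel₀ hg0 h3
      exact this.symm
    rw [hx, hy] at hd
    have : b - b * (-1) = 2 * b := by ring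
    rwa [this] at hd
  refine ⟨g, E', b, hg, hE', hE, ?_, h2b, hIeq, hE', ?_⟩
  · have h1 : (E' : ℤ) ∣ (2 * b) ^ 2 := Dvd.dvd.pow h2b (by norm_num)
    have h2 : 4 * D = (2 * b) ^ 2 - 4 * (b ^ 2 - D) := by ring
    rw [h2]
    exact dvd_sub h1 (Dvd.dvd.mul_left hdv 4)
  · have h1 := hI.2
    rw [hIeq, cj_mul, cj_span_natCast, hE] at h1
    apply cancel_span hgz
    apply cancel_span hgz
    have h2 : Ideal.span {(((g ^ 2 * E' : ℕ) : ℕ) : ℤ√D)} =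
        Ideal.span {(g : ℤ√D)} * (Ideal.span {(g : ℤ√D)} * Ideal.span {(E' : ℤ√D)}) := by
      rw [Ideal.span_singleton_mul_span_singleton, Ideal.span_singleton_mul_span_singleton]
      push_cast; congr 2; ring
    rw [← h2, ← h1]
    ring

/-- same invariants, same ideal -/
theorem ed_same {E' : ℕ} {b b' : ℤ} (h1 : (E' : ℤ) ∣ 2 * b) (h2 : (E' : ℤ) ∣ 2 * b')
    (h : ((E' : ℤ) ∣ b ↔ (E' : ℤ) ∣ b')) :
    (Ideal.span {(E' : ℤ√D), (⟨b, 1⟩ : ℤ√D)} : Ideal (ℤ√D)) = Ideal.span {(E' : ℤ√D), (⟨b', 1⟩ : ℤ√D)} := by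
  have hdv : (E' : ℤ) ∣ b - b' := by
    by_cases hb : (E' : ℤ) ∣ b
    · exact dvd_sub hb (h.mp hb)
    · have hb' : ¬ (E' : ℤ) ∣ b' := fun h3 => hb (h.mpr h3)
      obtain ⟨x, hx⟩ := h1
      obtain ⟨y, hy⟩ := h2
      have hxo : Odd x := by
        rw [← Int.not_even_iff_odd]
        rintro ⟨k, hk⟩
        apply hb
        refine ⟨k, ?_⟩
        have : 2 * b = 2 * (E' * k) := by rw [hx, hk]; ring
        linarith
      have hyo : Odd y := by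
        rw [← Int.not_even_iff_odd]
        rintro ⟨k, hk⟩
        apply hb'
        refine ⟨k, ?_⟩
        have : 2 * b' = 2 * (E' * k) := by rw [hy, hk]; ring
        linarith
      obtain ⟨k, hk⟩ := hxo.sub_odd hyo
      refine ⟨k, ?_⟩
      have : 2 * (b - b') = 2 * (E' * k) := by
        calc 2 * (b - b') = 2 * b - 2 * b' := by ring
          _ = E' * (x - y) := by rw [hx, hy]; ring
          _ = _ := by rw [hk]; ring
      linarith
  obtain ⟨k, hk⟩ := hdv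
  have hz : (⟨b, 1⟩ : ℤ√D) = ⟨b', 1⟩ + (k : ℤ√D) * (E' : ℤ√D) := by
    ext
    · simp
      linarith
    · simp
  apply le_antisymm
  · rw [Ideal.span_le]
    intro z hz'
    rcases hz' with rfl | hz'
    · exact Ideal.subset_span (by simp)
    · rw [Set.mem_singleton_iff] at hz'
      subst hz'
      show _ ∈ Ideal.span _
      rw [hz]
      exact Ideal.add_mem _ (Ideal.subset_span (by simp)) (Ideal.mul_mem_left _ _ (Ideal.subset_span (by simp)))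
  · rw [Ideal.span_le]
    intro z hz'
    rcases hz' with rfl | hz'
    · exact Ideal.subset_span (by simp)
    · rw [Set.mem_singleton_iff] at hz'
      subst hz'
      show _ ∈ Ideal.span _
      have hz2 : (⟨b', 1⟩ : ℤ√D) = ⟨b, 1⟩ - (k : ℤ√D) * (E' : ℤ√D) := by rw [hz]; ring
      rw [hz2]
      exact Ideal.sub_mem _ (Ideal.subset_span (by simp)) (Ideal.mul_mem_left _ _ (Ideal.subset_span (by simp)))

/-- an ideal with principal square of positive norm: `𝔞 ^ 2 = (ξ)`, `norm ξ = N ^ 2`, `Re ξ ≥ 0`.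
Then `m = ξ + N` satisfies `m ^ 2 = 2 (Re ξ + N) ξ` and `(m) cj 𝔞 = (g) 𝔟₀` with an ambiguous ideal `𝔟₀`. -/
theorem ed_square (hD : ∀ n : ℤ, D ≠ n * n) {𝔞 : Ideal (ℤ√D)} {N : ℕ} (ha : HN 𝔞 N) {ξ : ℤ√D}
    (hξ : Ideal.span {ξ} = 𝔞 ^ 2) (hn : ξ.norm = (N : ℤ) ^ 2) (hre : 0 ≤ ξ.re) :
    ∃ (m' : ℤ√D) (g E' : ℕ) (b : ℤ), m' ≠ 0 ∧ 1 ≤ g ∧ 1 ≤ E' ∧ (E' : ℤ) ∣ 4 * D ∧ (E' : ℤ) ∣ 2 * b ∧
      HN (Ideal.span {(E' : ℤ√D), (⟨b, 1⟩ : ℤ√D)}) E' ∧
      Ideal.span {m'} = Ideal.span {(E' : ℤ√D), (⟨b, 1⟩ : ℤ√D)} * 𝔞 ∧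
      m'.norm = (E' : ℤ) * N ∧ m' ^ 2 = (E' : ℤ√D) * ξ := by
  have hdom := isDomain_of hD
  have hN1 := ha.1
  have hN0 : (N : ℤ) ≠ 0 := by omega
  have hNz : (N : ℤ√D) ≠ 0 := by exact_mod_cast hN0
  set m : ℤ√D := ξ + (N : ℤ√D) with hm
  set k0 : ℤ := 2 * (ξ.re + N) with hk0
  have hk0pos : 0 < k0 := by rw [hk0]; omega
  have hm2 : m ^ 2 = (k0 : ℤ√D) * ξ := by
    have h1 : ξ * star ξ = (N : ℤ√D) ^ 2 := by
      rw [← norm_int, hn]; push_cast; ring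
    have h2 : ξ + star ξ = ((2 * ξ.re : ℤ) : ℤ√D) := by
      ext
      · simp; ring
      · simp
    have h3 : (k0 : ℤ√D) = (ξ + star ξ) + 2 * (N : ℤ√D) := by
      rw [h2, hk0]; push_cast; ring
    rw [h3, hm]
    linear_combination (-1 : ℤ√D) * h1
  have hmnorm : m.norm = k0 * N := by
    have h1 : m.re = ξ.re + N := by simp [hm]
    have h2 : m.im = ξ.im := by simp [hm]
    rw [Zsqrtd.norm_def, h1, h2, hk0]
    rw [Zsqrtd.norm_def] at hn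
    linear_combination hn
  have hm0 : m ≠ 0 := by
    intro h
    rw [h, Zsqrtd.norm_zero] at hmnorm
    exact (mul_ne_zero hk0pos.ne' hN0) hmnorm.symm
  -- the ideal
  set 𝔟 : Ideal (ℤ√D) := Ideal.span {m} * cj 𝔞 with h𝔟
  set k : ℕ := k0.toNat * N * N with hk
  have hk0nat : ((k0.toNat : ℕ) : ℤ) = k0 := Int.toNat_of_nonneg hk0pos.le
  have hk0nat' : 1 ≤ k0.toNat := by omega
  have hkz : ((k : ℕ) : ℤ) = k0 * N * N := by rw [hk]; push_cast; rw [hk0nat]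
  have hkzz : ((k : ℕ) : ℤ√D) = (k0 : ℤ√D) * (N : ℤ√D) * (N : ℤ√D) := by
    rw [← Int.cast_natCast, hkz]; push_cast; rfl
  have hHN : HN 𝔟 k := by
    refine ⟨Nat.mul_pos (Nat.mul_pos hk0nat' hN1) hN1, ?_⟩
    rw [h𝔟, cj_mul, cj_cj, cj_span_singleton, hkzz]
    have h1 : (Ideal.span {(k0 : ℤ√D) * (N : ℤ√D) * (N : ℤ√D)} : Ideal (ℤ√D)) =
        Ideal.span {m * star m} * Ideal.span {(N : ℤ√D)} := by
      rw [Ideal.span_singleton_mul_span_singleton, ← norm_int, hmnorm]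
      push_cast; rfl
    rw [h1, ← ha.2, ← Ideal.span_singleton_mul_span_singleton]
    ring
  have hsq : 𝔟 * 𝔟 = Ideal.span {((k : ℕ) : ℤ√D)} := by
    have h1 : 𝔟 * 𝔟 = Ideal.span {m ^ 2} * (cj 𝔞) ^ 2 := by
      rw [h𝔟, sq m, ← Ideal.span_singleton_mul_span_singleton]; ring
    rw [h1, hm2, ← Ideal.span_singleton_mul_span_singleton, hξ, hkzz]
    have h2 : (Ideal.span {(k0 : ℤ√D) * (N : ℤ√D) * (N : ℤ√D)} : Ideal (ℤ√D)) =
        Ideal.span {(k0 : ℤ√D)} * (Ideal.span {(N : ℤ√D)} * Ideal.span {(N : ℤ√D)}) := by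
      rw [Ideal.span_singleton_mul_span_singleton, Ideal.span_singleton_mul_span_singleton]
      congr 2; ring
    rw [h2, ← ha.2]; ring
  have hconj : cj 𝔟 = 𝔟 := hHN.cancel (by rw [hHN.2, hsq])
  obtain ⟨g, E', b, hg, hE', hE, h4D, h2b, hbeq, hHN0⟩ := ed_struct hD hHN hconj
  have hgz : (g : ℤ√D) ≠ 0 := by exact_mod_cast (by omega : (g : ℤ) ≠ 0)
  set 𝔟0 : Ideal (ℤ√D) := Ideal.span {(E' : ℤ√D), (⟨b, 1⟩ : ℤ√D)} with h𝔟0
  -- the generator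
  have hmN : Ideal.span {m * (N : ℤ√D)} = Ideal.span {(g : ℤ√D)} * (𝔟0 * 𝔞) := by
    calc Ideal.span {m * (N : ℤ√D)} = Ideal.span {m} * Ideal.span {(N : ℤ√D)} := by
          rw [Ideal.span_singleton_mul_span_singleton]
      _ = 𝔟 * 𝔞 := by rw [← ha.2, h𝔟]; ring
      _ = _ := by rw [hbeq]; ring
  obtain ⟨m', hm'1, hm'2⟩ := ea_quot hD hgz hmN
  have hk0E : k0 * N ^ 2 = (g : ℤ) ^ 2 * E' := by
    have h1 : ((k : ℕ) : ℤ) = ((g ^ 2 * E' : ℕ) : ℤ) := by rw [hE]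
    rw [hkz] at h1
    push_cast at h1
    linarith
  have hg2 : ((g : ℤ) ^ 2) ≠ 0 := pow_ne_zero _ (by omega)
  have hg2z : ((g : ℤ√D)) ^ 2 ≠ 0 := pow_ne_zero _ hgz
  refine ⟨m', g, E', b, ?_, hg, hE', h4D, h2b, hHN0, hm'2, ?_, ?_⟩
  · rintro rfl
    rw [zero_mul] at hm'1
    exact mul_ne_zero hm0 hNz hm'1
  · have h1 := congrArg Zsqrtd.norm hm'1
    rw [Zsqrtd.norm_mul, Zsqrtd.norm_mul, hmnorm, Zsqrtd.norm_natCast, Zsqrtd.norm_natCast] at h1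
    apply mul_left_cancel₀ hg2
    linear_combination (-1 : ℤ) * h1 + (N : ℤ) * hk0E
  · apply mul_left_cancel₀ hg2z
    have h1 : (m * (N : ℤ√D)) ^ 2 = (m' * (g : ℤ√D)) ^ 2 := by rw [hm'1]
    have h2 : (k0 : ℤ√D) * (N : ℤ√D) ^ 2 = (g : ℤ√D) ^ 2 * (E' : ℤ√D) := by exact_mod_cast hk0E
    have h3 : (m * (N : ℤ√D)) ^ 2 = ((k0 : ℤ√D) * (N : ℤ√D) ^ 2) * ξ := by
      rw [mul_pow, hm2]; ring
    rw [h3, h2] at h1
    linear_combination (-1 : ℤ√D) * h1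

end Hp

end Pool.Agent.Lib.MP_d8bd92_nt
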