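import Pool.Agent.Lib.MP_d8bd92_nt.Hp.ED
import Pool.Agent.Lib.MP_d8bd92_nt.Hp.LK3

set_option autoImplicit false

/-!
MP_d8bd92_nt, block EVL, file EE: the lattice lemma for exponent two (genus theory).
-/

namespace Pool.Agent.Lib.MP_d8bd92_nt

namespace Hp

open Finset

/-- all norms have the same sign -/
theorem ee_sign (ε : ℝ) (hε : 0 < ε) (C0 : ℝ) (hC0 : 1 ≤ C0) : ∃ C : ℝ, 0 < C ∧
    ∀ (X K : ℝ) (D : ℤ) (f : ℕ) (E θ : ℝ) (ι : Type) (S : Finset ι) (Ω : ι → ℤ√D) (I : ι → Ideal (ℤ√D))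
      (En s : ι → ℕ) (W : Ideal (ℤ√D)), LLG C0 X K D f 2 E θ S Ω I En s W →
      (∀ c ∈ S, ∀ c' ∈ S, 0 < (Ω c).norm * (Ω c').norm) →
      (S.card : ℝ) ≤ C * X ^ ε * K * (1 + θ * E / ((f : ℝ) * √((|D| : ℤ) : ℝ))) := by
  classical
  set ε1 : ℝ := ε / 2 with hε1def
  have hε1 : 0 < ε1 := by positivity
  obtain ⟨C4, hC4, hclass⟩ := class_bound 2 C0 hC0
  obtain ⟨C5, hC5, hom⟩ := omega_pow ε1 hε1 2
  obtain ⟨C6, hC6, hdiv⟩ := card_divisors_le_rpow ε1 hε1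
  refine ⟨2 * ((C6 * 4 ^ ε1) * 2) * (C4 * C5), by positivity, ?_⟩
  intro X K D f E θ ι S Ω I En s W h hsgn
  have hX := h.hX
  have hX0 : 0 < X := by linarith
  have hK := h.hK
  have hE := h.hE
  have hθ := h.hθ
  have hD := h.hD
  have hf := h.hf
  have hdom : IsDomain (ℤ√D) := isDomain_of hD
  have hD0 : D ≠ 0 := fun h0 => hD 0 (by simp [h0])
  have hDabs : (1 : ℝ) ≤ ((|D| : ℤ) : ℝ) := by
    exact_mod_cast Int.one_le_abs hD0
  have hsD : 0 < √((|D| : ℤ) : ℝ) := Real.sqrt_pos.mpr (by linarith)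
  have hf0 : (0 : ℝ) < (f : ℝ) := by exact_mod_cast hf
  have hXe : 0 < X ^ ε1 := Real.rpow_pos_of_pos hX0 _
  set B : ℝ := 1 + θ * E / ((f : ℝ) * √((|D| : ℤ) : ℝ)) with hBdef
  have hB : 0 < B := by positivity
  rcases S.eq_empty_or_nonempty with rfl | ⟨c0, hc0⟩
  · simp only [Finset.card_empty, Nat.cast_zero]
    positivity
  have hnn : ∀ c ∈ S, (Ω c).norm ≠ 0 := by
    intro c hc h0
    exact h.nz c hc ((Zsqrtd.norm_eq_zero h.hD _).mp h0)
  have hch : ∀ c : ι, ∃ (m β : ℤ√D) (E' : ℕ) (b : ℤ) (σ : Bool), c ∈ S → (m ≠ 0 ∧ 1 ≤ E' ∧ (E' : ℤ) ∣ 4 * D ∧ (E' : ℤ) ∣ 2 * b ∧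
      HN (Ideal.span {(E' : ℤ√D), (⟨b, 1⟩ : ℤ√D)}) E' ∧
      Ideal.span {m} = Ideal.span {(E' : ℤ√D), (⟨b, 1⟩ : ℤ√D)} * (I c * cj (I c0)) ∧
      m.norm = (E' : ℤ) * ((En c : ℤ) * En c0) ∧ m ^ 2 = (E' : ℤ√D) * ((if σ then (1 : ℤ√D) else -1) * β) ∧
      (((s c : ℤ) * (Ω c0).norm : ℤ) : ℤ√D) * β = (((s c0 : ℤ) * ((En c0 ^ 2 : ℕ) : ℤ) : ℤ) : ℤ√D) * (Ω c * star (Ω c0))) := by
    intro c
    by_cases hc : c ∈ S
    swap
    · exact ⟨0, 0, 0, 0, true, fun h' => absurd h' hc⟩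
    have hN : HN (I c * cj (I c0)) (En c * En c0) := (h.hn c hc).mul (h.hn c0 hc0).cj
    obtain ⟨β, hβ1, hβ2⟩ := lk4_quot (h.s_pos c hc) (hnn c0 hc0) ((h.hn c0 hc0).pow 2) (h.fac c hc) (h.fac c0 hc0)
    have hβ3 : Ideal.span {β} = (I c * cj (I c0)) ^ 2 := by
      rw [hβ2, cj_pow, mul_pow]
    have hβn := ea_norm (hN.pow 2) hβ3
    have hβpos : 0 < β.norm := by
      have h1 := congrArg Zsqrtd.norm hβ1
      rw [norm_int_mul, norm_int_mul, Zsqrtd.norm_mul (Ω c), norm_star] at h1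
      have h2 := hsgn c hc c0 hc0
      have h3 : ((s c0 : ℤ) * ((En c0 ^ 2 : ℕ) : ℤ)) ≠ 0 := by
        have h4 := h.s_pos c0 hc0
        have h5 := (h.hn c0 hc0).1
        apply mul_ne_zero (by omega)
        push_cast
        exact pow_ne_zero _ (by omega)
      have h4 : 0 < ((s c : ℤ) * (Ω c0).norm) ^ 2 * β.norm := by
        rw [h1]
        exact mul_pos (by positivity) h2
      exact pos_of_mul_pos_right h4 (sq_nonneg _)
    rw [abs_of_pos hβpos] at hβn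
    have hβN : β.norm = ((En c * En c0 : ℕ) : ℤ) ^ 2 := by rw [hβn]; push_cast; ring
    by_cases hre : 0 ≤ β.re
    · obtain ⟨m, g, E', b, q1, q2, q3, q4, q5, q6, q7, q8, q9⟩ := ed_square hD hN hβ3 hβN hre
      refine ⟨m, β, E', b, true, fun _ => ⟨q1, q3, q4, q5, q6, q7, ?_, ?_, hβ1⟩⟩
      · rw [q8]; push_cast; ring
      · rw [q9]; simp
    · have hβ3' : Ideal.span {-β} = (I c * cj (I c0)) ^ 2 := by rw [Ideal.span_singleton_neg, hβ3]
      have hβN' : (-β).norm = ((En c * En c0 : ℕ) : ℤ) ^ 2 := by rw [Zsqrtd.norm_neg, hβN]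
      have hre' : 0 ≤ (-β).re := by rw [Zsqrtd.re_neg]; omega
      obtain ⟨m, g, E', b, q1, q2, q3, q4, q5, q6, q7, q8, q9⟩ := ed_square hD hN hβ3' hβN' hre'
      refine ⟨m, β, E', b, false, fun _ => ⟨q1, q3, q4, q5, q6, q7, ?_, ?_, hβ1⟩⟩
      · rw [q8]; push_cast; ring
      · rw [q9]; simp
  choose m β E' b σ hm using hch
  set M : ℝ := C4 * K * (C5 * X ^ ε1) * B with hMdef
  have hM : 0 < M := by positivity
  -- one class
  have hone : ∀ q ∈ S.image (fun c => (σ c, E' c, decide ((E' c : ℤ) ∣ b c))),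
      ((S.filter (fun c => (σ c, E' c, decide ((E' c : ℤ) ∣ b c)) = q)).card : ℝ) ≤ M := by
    intro q hq
    obtain ⟨c1, hc1, hc1q⟩ := Finset.mem_image.mp hq
    set T : Finset ι := S.filter (fun c => (σ c, E' c, decide ((E' c : ℤ) ∣ b c)) = q) with hTdef
    have hT : T ⊆ S := Finset.filter_subset _ _
    obtain ⟨k1, k2, k3, k4, k5, k6, k7, k8, k9⟩ := hm c1 hc1
    have hTm : ∀ c ∈ T, σ c = σ c1 ∧ E' c = E' c1 ∧
        (Ideal.span {(E' c : ℤ√D), (⟨b c, 1⟩ : ℤ√D)} : Ideal (ℤ√D)) = Ideal.span {(E' c1 : ℤ√D), (⟨b c1, 1⟩ : ℤ√D)} := by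
      intro c hc
      have h1 := (Finset.mem_filter.mp hc).2
      rw [← hc1q] at h1
      simp only [Prod.mk.injEq, decide_eq_decide] at h1
      obtain ⟨a1, a2, a3⟩ := h1
      obtain ⟨p1, p2, p3, p4, p5, p6, p7, p8, p9⟩ := hm c (hT hc)
      refine ⟨a1, a2, ?_⟩
      rw [a2] at p4 a3 ⊢
      exact ed_same p4 k4 a3
    have hE1 : (1 : ℤ) ≤ (E' c1 : ℤ) := by exact_mod_cast k2
    have hEc0 : (1 : ℤ) ≤ (En c0 : ℤ) := by exact_mod_cast (h.hn c0 hc0).1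
    have hcb := hclass X K D f 2 E θ ι T Ω I En s W m ((E' c1 : ℤ) * En c0)
      (cj (Ideal.span {(E' c1 : ℤ√D), (⟨b c1, 1⟩ : ℤ√D)}) * I c0)
      le_rfl (h.subset hT) (by positivity) (by
        intro c hc
        obtain ⟨p1, p2, p3, p4, p5, p6, p7, p8, p9⟩ := hm c (hT hc)
        obtain ⟨a1, a2, a3⟩ := hTm c hc
        refine ⟨p1, ?_, ?_⟩
        · rw [p7, a2]; ring
        · rw [p6, a3]
          have h1 : (Ideal.span {(((E' c1 : ℤ) * En c0 : ℤ) : ℤ√D)} : Ideal (ℤ√D)) =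
              Ideal.span {(E' c1 : ℤ√D)} * Ideal.span {(En c0 : ℤ√D)} := by
            rw [Ideal.span_singleton_mul_span_singleton]; push_cast; rfl
          rw [h1, ← k5.2, ← (h.hn c0 hc0).2]
          ring) (by
        intro c hc c' hc'
        obtain ⟨p1, p2, p3, p4, p5, p6, p7, p8, p9⟩ := hm c (hT hc)
        obtain ⟨p1', p2', p3', p4', p5', p6', p7', p8', p9'⟩ := hm c' (hT hc')
        obtain ⟨a1, a2, a3⟩ := hTm c hc
        obtain ⟨a1', a2', a3'⟩ := hTm c' hc'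
        have hn0 : (((Ω c0).norm : ℤ) : ℤ√D) ≠ 0 := by exact_mod_cast hnn c0 hc0
        apply mul_left_cancel₀ hn0
        rw [a1, a2] at p8
        rw [a1', a2'] at p8'
        push_cast at p9 p9'
        rw [p8, p8']
        linear_combination ((E' c1 : ℤ√D) * (if σ c1 = true then (1 : ℤ√D) else -1) * Ω c') * p9 -
          ((E' c1 : ℤ√D) * (if σ c1 = true then (1 : ℤ√D) else -1) * Ω c) * p9')
    have hom1 := hom f 2 hf le_rfl
    have hfX : (f : ℝ) ^ ε1 ≤ X ^ ε1 := Real.rpow_le_rpow hf0.le h.hfX hε1.le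
    calc (T.card : ℝ) ≤ C4 * K * (((2 + 1) ^ f.primeFactors.card : ℕ) : ℝ) * B := hcb
      _ ≤ C4 * K * (C5 * X ^ ε1) * B := by
          have : (((2 + 1) ^ f.primeFactors.card : ℕ) : ℝ) ≤ C5 * X ^ ε1 :=
            hom1.trans (by gcongr)
          gcongr
  have hmain := lk3_group S (fun c => (σ c, E' c, decide ((E' c : ℤ) ∣ b c))) _ hone
  -- number of classes
  have hcount : (((S.image (fun c => (σ c, E' c, decide ((E' c : ℤ) ∣ b c)))).card : ℕ) : ℝ) ≤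
      2 * ((C6 * 4 ^ ε1) * 2) * X ^ ε1 := by
    have h4D0 : (4 * D).natAbs ≠ 0 := by
      rw [Int.natAbs_ne_zero]
      exact mul_ne_zero (by norm_num) hD0
    have h3 : S.image (fun c => (σ c, E' c, decide ((E' c : ℤ) ∣ b c))) ⊆
        (Finset.univ : Finset Bool) ×ˢ ((4 * D).natAbs.divisors ×ˢ (Finset.univ : Finset Bool)) := by
      intro z hz
      obtain ⟨c, hc, rfl⟩ := Finset.mem_image.mp hz
      obtain ⟨p1, p2, p3, p4, p5, p6, p7, p8, p9⟩ := hm c hc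
      rw [Finset.mem_product, Finset.mem_product, Nat.mem_divisors]
      refine ⟨Finset.mem_univ _, ⟨?_, h4D0⟩, Finset.mem_univ _⟩
      exact Int.natCast_dvd.mp p3
    have h4 := Finset.card_le_card h3
    rw [Finset.card_product, Finset.card_product, Finset.card_univ, Fintype.card_bool] at h4
    have h5 := hdiv _ h4D0
    have h6 : (((4 * D).natAbs : ℕ) : ℝ) ^ ε1 ≤ 4 ^ ε1 * X ^ ε1 := by
      rw [← Real.mul_rpow (by norm_num) hX0.le]
      apply Real.rpow_le_rpow (by positivity) _ hε1.le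
      have h7 : (((4 * D).natAbs : ℕ) : ℝ) = 4 * ((|D| : ℤ) : ℝ) := by
        rw [Int.natAbs_mul, Nat.cast_mul]
        congr 1
        rw [Nat.cast_natAbs]
      rw [h7]
      have := h.hDX
      linarith
    have h8 : (((4 * D).natAbs.divisors.card : ℕ) : ℝ) ≤ C6 * (4 ^ ε1 * X ^ ε1) :=
      h5.trans (by gcongr)
    calc (((S.image (fun c => (σ c, E' c, decide ((E' c : ℤ) ∣ b c)))).card : ℕ) : ℝ)
        ≤ ((2 * ((4 * D).natAbs.divisors.card * 2) : ℕ) : ℝ) := by exact_mod_cast h4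
      _ = 2 * ((((4 * D).natAbs.divisors.card : ℕ) : ℝ) * 2) := by push_cast; ring
      _ ≤ 2 * ((C6 * (4 ^ ε1 * X ^ ε1)) * 2) := by gcongr
      _ = _ := by ring
  have hXX : X ^ ε1 * X ^ ε1 = X ^ ε := by
    rw [← Real.rpow_add hX0]
    congr 1
    rw [hε1def]; ring
  calc (S.card : ℝ) ≤ _ := hmain
    _ ≤ (2 * ((C6 * 4 ^ ε1) * 2) * X ^ ε1) * M := by gcongr
    _ = 2 * ((C6 * 4 ^ ε1) * 2) * (C4 * C5) * (X ^ ε1 * X ^ ε1) * K * B := by rw [hMdef]; ring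
    _ = _ := by rw [hXX]

/-- The lattice lemma for exponent two: only `X ^ ε` classes. -/
theorem ll_two (ε : ℝ) (hε : 0 < ε) (C0 : ℝ) (hC0 : 1 ≤ C0) : ∃ C : ℝ, 0 < C ∧
    ∀ (X K : ℝ) (D : ℤ) (f : ℕ) (E θ : ℝ) (ι : Type) (S : Finset ι) (Ω : ι → ℤ√D) (I : ι → Ideal (ℤ√D))
      (En s : ι → ℕ) (W : Ideal (ℤ√D)), LLG C0 X K D f 2 E θ S Ω I En s W →
      (S.card : ℝ) ≤ C * X ^ ε * K * (1 + θ * E / ((f : ℝ) * √((|D| : ℤ) : ℝ))) := by
  classical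
  obtain ⟨C, hC, hone⟩ := ee_sign ε hε C0 hC0
  refine ⟨2 * C, by positivity, ?_⟩
  intro X K D f E θ ι S Ω I En s W h
  have h1 := hone X K D f E θ ι (S.filter (fun c => 0 < (Ω c).norm)) Ω I En s W (h.subset (Finset.filter_subset _ _)) (by
    intro c hc c' hc'
    exact mul_pos (Finset.mem_filter.mp hc).2 (Finset.mem_filter.mp hc').2)
  have h2 := hone X K D f E θ ι (S.filter (fun c => ¬ 0 < (Ω c).norm)) Ω I En s W (h.subset (Finset.filter_subset _ _)) (by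
    intro c hc c' hc'
    obtain ⟨a1, a2⟩ := Finset.mem_filter.mp hc
    obtain ⟨b1, b2⟩ := Finset.mem_filter.mp hc'
    have a3 : (Ω c).norm ≠ 0 := fun h0 => h.nz c a1 ((Zsqrtd.norm_eq_zero h.hD _).mp h0)
    have b3 : (Ω c').norm ≠ 0 := fun h0 => h.nz c' b1 ((Zsqrtd.norm_eq_zero h.hD _).mp h0)
    exact mul_pos_of_neg_of_neg (by omega) (by omega))
  have h3 := Finset.card_filter_add_card_filter_not (s := S) (fun c => 0 < (Ω c).norm)
  have h4 : (S.card : ℝ) = ((S.filter (fun c => 0 < (Ω c).norm)).card : ℝ) +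
      ((S.filter (fun c => ¬ 0 < (Ω c).norm)).card : ℝ) := by
    rw [← h3]; push_cast; rfl
  rw [h4]
  linarith

end Hp

end Pool.Agent.Lib.MP_d8bd92_nt
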