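import Pool.Agent.Lib.MP_d8bd92_nt.Hp.WJ

set_option autoImplicit false

/-!
MP_d8bd92_nt, phase 2: the walk theorem with an abstract bound `T` for the lattice lemma.
-/

namespace Pool.Agent.Lib.MP_d8bd92_nt

namespace Hp

open Finset

/-- the lattice lemma holds with the bound `T` for the number of classes -/
def LLT (C1 X : ℝ) (D : ℤ) (l : ℕ) (T : ℝ) : Prop :=
  ∀ (K : ℝ) (f : ℕ) (E θ : ℝ) (ι : Type) (S : Finset ι) (Ω : ι → ℤ√D) (I : ι → Ideal (ℤ√D)) (En s : ι → ℕ)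
    (W : Ideal (ℤ√D)), LLG C1 X K D f l E θ S Ω I En s W →
    (S.card : ℝ) ≤ T * K * (1 + θ * E / ((f : ℝ) * √((|D| : ℤ) : ℝ)))

open scoped Classical in
/-- `walk_end` with an abstract `T` -/
theorem walk_end_T (ε : ℝ) (hε : 0 < ε) (n : ℕ) (C0 : ℝ) (hC0 : 1 ≤ C0) : ∃ C0' C2 : ℝ, 1 ≤ C0' ∧ 0 < C2 ∧
    ∀ (X T : ℝ) (D : ℤ) (f l : ℕ) (E θ : ℝ) (dA dB Z μA μB : ℝ) (ι : Type) (S : Finset ι) (Ω : ι → ℤ√D)
      (t s : ι → ℕ) (r : ι → ℤ) (q : Ideal (ℤ√D)) (A B : ι → Ideal (ℤ√D)) (nA nB : ι → ℕ) (v0 vend : Ideal (ℤ√D))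
      (Tw : Finset (Fin (n + 1) → ι)), LLT C0' X D l T →
      WalkData C0 X D f l E θ (n + 1) dA dB Z μA μB S Ω t s r q A B nA nB →
      (∀ w ∈ Tw, IsWalk S A B v0 n w ∧ (if Even n then B (w (Fin.last n)) else A (w (Fin.last n))) = vend ∧
        ∀ i j : Fin (n + 1), i < j → (Nat.gcd (t (w j)) (t (w i)) : ℝ) ≤ Z) →
      (Tw.card : ℝ) ≤ C2 * X ^ ε * Z ^ ((n + 1) ^ 2) * μA ^ ((n + 2) / 2) * μB ^ ((n + 1) / 2) *
        T * (1 + θ * E ^ (n + 1) / ((f : ℝ) * √((|D| : ℤ) : ℝ))) := by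
  obtain ⟨C1, hC1, heven⟩ := even_prod ((n + 2) / 2) (by omega) C0 hC0
  have hC' : 1 ≤ max (2 ^ (n + 1)) C1 := hC1.trans (le_max_right _ _)
  have hn1 : (0 : ℝ) < (n + 1 : ℕ) := by positivity
  obtain ⟨C2, hC2, hcount⟩ := tuple_count (ε / (n + 1 : ℕ)) (by positivity) n
  refine ⟨max (2 ^ (n + 1)) C1, C2 * 2 ^ ε, hC', by positivity, ?_⟩
  intro X T D f l E θ dA dB Z μA μB ι S Ω t s r q A B nA nB v0 vend Tw hLLB hW hT
  have hX := hW.hX
  have hX0 : 0 < X := by linarith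
  obtain ⟨T', hT'sub, hT'card, hT'inj⟩ := wi_rep Tw (fun w => (wi_e t r w : Ideal (ℤ√D)))
  obtain ⟨Ω', s', W, hLL⟩ := wi_llg heven hW T' (fun w hw => hT w (hT'sub hw)) hT'inj
  have hcard1 := hLLB _ _ _ _ _ T' Ω' _ _ s' W hLL
  -- the walks with a given ideal
  have hcard2 : (Tw.card : ℝ) ≤ ((Tw.image (fun w => (wi_e t r w : Ideal (ℤ√D)))).card : ℝ) *
      (C2 * ((2 * X) ^ (n + 1)) ^ (ε / (n + 1 : ℕ)) * (μA ^ ((n + 2) / 2) * μB ^ ((n + 1) / 2))) := by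
    apply wi_fiber
    intro x hx
    apply wi_same hC2 (by positivity) hcount hW _ _ x
    · intro w hw
      exact (Finset.mem_filter.mp hw).2
    · exact v0
    · intro w hw
      have h1 := hT w (Finset.mem_filter.mp hw).1
      exact ⟨h1.1, h1.2.2⟩
  have hpow : ((2 * X) ^ (n + 1)) ^ (ε / (n + 1 : ℕ)) = 2 ^ ε * X ^ ε := by
    rw [← Real.rpow_natCast, ← Real.rpow_mul (by positivity), mul_div_cancel₀ _ hn1.ne',
      Real.mul_rpow (by norm_num) hX0.le]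
  rw [hpow, ← hT'card] at hcard2
  have hμ : 0 ≤ C2 * (2 ^ ε * X ^ ε) * (μA ^ ((n + 2) / 2) * μB ^ ((n + 1) / 2)) := by
    have h1 := hW.hμA
    have h2 := hW.hμB
    positivity
  refine hcard2.trans ((mul_le_mul_of_nonneg_right hcard1 hμ).trans (le_of_eq ?_))
  ring

open scoped Classical in
/-- Walk theorem with an abstract `T`.  The lattice lemma is used with the constant `C0'`. -/
theorem walk_theorem_T (ε : ℝ) (hε : 0 < ε) (h : ℕ) (hh1 : 1 ≤ h) (C0 : ℝ) (hC0 : 1 ≤ C0) :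
    ∃ C0' C2 : ℝ, 1 ≤ C0' ∧ 0 < C2 ∧
    ∀ (X T : ℝ) (D : ℤ) (f l : ℕ) (E θ : ℝ) (dA dB Z μA μB : ℝ) (ι : Type) (S : Finset ι) (Ω : ι → ℤ√D)
      (t s : ι → ℕ) (r : ι → ℤ) (q : Ideal (ℤ√D)) (A B : ι → Ideal (ℤ√D)) (nA nB : ι → ℕ),
      0 ≤ T → LLT C0' X D l T →
      WalkData C0 X D f l E θ h dA dB Z μA μB S Ω t s r q A B nA nB →
      dA ^ ((h + 1) / 2) * dB ^ (h / 2) ≤ C2 * X ^ ε * Z ^ (h ^ 3) * μA ^ ((h + 1) / 2) * μB ^ (h / 2) *
        ((if Even h then (S.image A).card else (S.image B).card : ℕ) : ℝ) *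
        T * (1 + θ * E ^ h / ((f : ℝ) * √((|D| : ℤ) : ℝ))) := by
  obtain ⟨n, rfl⟩ : ∃ n, h = n + 1 := ⟨h - 1, by omega⟩
  obtain ⟨C0', C, hC0', hC, hmain⟩ := walk_end_T ε hε n C0 hC0
  refine ⟨C0', 2 ^ (n + 1) * C, hC0', by positivity, ?_⟩
  intro X τ D f l E θ dA dB Z μA μB ι S Ω t s r q A B nA nB hτ0 hLLB hW
  obtain ⟨e0, he0⟩ := hW.ne
  have hdA0 : 0 ≤ dA := zero_le_one.trans hW.hdA
  have hdB0 : 0 ≤ dB := zero_le_one.trans hW.hdB
  have hX0 : 0 ≤ X := zero_le_one.trans hW.hX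
  have hZ0 : 0 ≤ Z := zero_le_one.trans hW.hZ
  have hμA0 : 0 ≤ μA := zero_le_one.trans hW.hμA
  have hμB0 : 0 ≤ μB := zero_le_one.trans hW.hμB
  have hE0 : 0 ≤ E := zero_le_one.trans hW.hE
  have hθ0 : 0 ≤ θ := hW.hθ.le
  obtain ⟨T, hT, hTcard⟩ := greedy S A B (fun e' e => Z < (Nat.gcd (t e') (t e) : ℝ)) (n + 1) dA dB hdA0 hdB0 e0 he0
    hW.degA hW.degB hW.badA hW.badB n le_rfl
  set endl : (Fin (n + 1) → ι) → Ideal (ℤ√D) := fun w =>
    if Even n then B (w (Fin.last n)) else A (w (Fin.last n)) with hendl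
  set Q : ℝ := 1 + θ * E ^ (n + 1) / ((f : ℝ) * √((|D| : ℤ) : ℝ)) with hQ
  have hQ0 : 0 ≤ Q := by rw [hQ]; positivity
  set P : ℕ := if Even (n + 1) then (S.image A).card else (S.image B).card with hP
  set M : ℝ := C * X ^ ε * Z ^ ((n + 1) ^ 2) * μA ^ ((n + 2) / 2) * μB ^ ((n + 1) / 2) * τ * Q with hM
  have hM0 : 0 ≤ M := by rw [hM]; positivity
  have himg : (T.image endl).card ≤ P := by
    rw [hP]
    rcases Nat.even_or_odd n with hn | hn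
    · have hn1 : ¬ Even (n + 1) := by rw [Nat.not_even_iff_odd]; exact hn.add_one
      rw [if_neg hn1]
      refine card_le_card ?_
      intro v hv
      obtain ⟨w, hw, rfl⟩ := mem_image.1 hv
      rw [hendl]
      simp only [if_pos hn]
      exact mem_image_of_mem B ((hT w hw).1.mem _)
    · have hn1 : Even (n + 1) := hn.add_one
      have hn2 : ¬ Even n := Nat.not_even_iff_odd.2 hn
      rw [if_pos hn1]
      refine card_le_card ?_
      intro v hv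
      obtain ⟨w, hw, rfl⟩ := mem_image.1 hv
      rw [hendl]
      simp only [if_neg hn2]
      exact mem_image_of_mem A ((hT w hw).1.mem _)
  have hfib : ∀ v ∈ T.image endl, (((T.filter (fun w => endl w = v)).card : ℕ) : ℝ) ≤ M := by
    intro v _
    have h1 := hmain X τ D f l E θ dA dB Z μA μB ι S Ω t s r q A B nA nB (A e0) v
      (T.filter (fun w => endl w = v)) hLLB hW ?_
    · rw [hM, hQ]; exact h1
    · intro w hw
      rw [mem_filter] at hw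
      refine ⟨(hT w hw.1).1, hw.2, ?_⟩
      intro i j hij
      exact not_lt.1 ((hT w hw.1).2 i j hij)
  have hTM : (T.card : ℝ) ≤ (P : ℝ) * M := by
    rw [card_eq_sum_card_image endl T]
    push_cast
    calc ∑ v ∈ T.image endl, (((T.filter (fun w => endl w = v)).card : ℕ) : ℝ) ≤ ∑ _v ∈ T.image endl, M :=
          sum_le_sum hfib
      _ = ((T.image endl).card : ℝ) * M := by rw [sum_const, nsmul_eq_mul]
      _ ≤ (P : ℝ) * M := mul_le_mul_of_nonneg_right (by exact_mod_cast himg) hM0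
  clear_value M Q P endl
  have hexp : (n + 2) / 2 + (n + 1) / 2 = n + 1 := by omega
  have hZZ : Z ^ ((n + 1) ^ 2) ≤ Z ^ ((n + 1) ^ 3) :=
    pow_le_pow_right₀ hW.hZ (Nat.pow_le_pow_right (by omega) (by norm_num))
  have e1 : dA ^ ((n + 1 + 1) / 2) * dB ^ ((n + 1) / 2) =
      2 ^ (n + 1) * ((dA / 2) ^ ((n + 2) / 2) * (dB / 2) ^ ((n + 1) / 2)) := by
    have e2 : (2 : ℝ) ^ (n + 1) = 2 ^ ((n + 2) / 2) * 2 ^ ((n + 1) / 2) := by
      rw [← pow_add, hexp]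
    rw [e2, div_pow, div_pow]
    have h3 : (2 : ℝ) ^ ((n + 2) / 2) ≠ 0 := by positivity
    have h4 : (2 : ℝ) ^ ((n + 1) / 2) ≠ 0 := by positivity
    field_simp
  rw [e1]
  calc 2 ^ (n + 1) * ((dA / 2) ^ ((n + 2) / 2) * (dB / 2) ^ ((n + 1) / 2))
      ≤ 2 ^ (n + 1) * ((P : ℝ) * M) := mul_le_mul_of_nonneg_left (hTcard.trans hTM) (by positivity)
    _ = (2 ^ (n + 1) * C * X ^ ε * μA ^ ((n + 2) / 2) * μB ^ ((n + 1) / 2) * P * τ * Q) * Z ^ ((n + 1) ^ 2) := by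
        rw [hM]; ring
    _ ≤ (2 ^ (n + 1) * C * X ^ ε * μA ^ ((n + 2) / 2) * μB ^ ((n + 1) / 2) * P * τ * Q) * Z ^ ((n + 1) ^ 3) := by
        refine mul_le_mul_of_nonneg_left hZZ ?_
        have q1 : 0 ≤ X ^ ε := Real.rpow_nonneg hX0 ε
        have q2 : 0 ≤ μA ^ ((n + 2) / 2) := pow_nonneg hμA0 _
        have q3 : 0 ≤ μB ^ ((n + 1) / 2) := pow_nonneg hμB0 _
        have q4 : (0 : ℝ) ≤ (P : ℝ) := Nat.cast_nonneg _
        exact mul_nonneg (mul_nonneg (mul_nonneg (mul_nonneg (mul_nonneg (mul_nonneg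
          (mul_nonneg (by positivity) hC.le) q1) q2) q3) q4) hτ0) hQ0
    _ = (2 ^ (n + 1) * C) * X ^ ε * Z ^ ((n + 1) ^ 3) * μA ^ ((n + 1 + 1) / 2) * μB ^ ((n + 1) / 2) * P * τ * Q := by
        ring

end Hp

end Pool.Agent.Lib.MP_d8bd92_nt
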