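import Pool.Agent.Lib.MP_d8bd92_nt.Hp.EC
import Pool.Agent.Lib.MP_d8bd92_nt.Hp.EE
import Pool.Agent.Lib.MP_d8bd92_nt.Hp.LK4
import Pool.Agent.Lib.MP_d8bd92_nt.Hp.SSP
import Pool.Agent.Lib.MP_d8bd92_nt.Hp.PT1

set_option autoImplicit false

/-!
MP_d8bd92_nt, block EVL, file EF: the lattice lemma with `T` classes.
-/

namespace Pool.Agent.Lib.MP_d8bd92_nt

namespace Hp

open Finset

theorem LLT.mono12 {C1 X : ℝ} {D : ℤ} {l : ℕ} {T T' : ℝ} (h : LLT C1 X D l T) (hT : T ≤ T') : LLT C1 X D l T' := by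
  intro K f E θ ι S Ω I En s W hd
  refine (h K f E θ ι S Ω I En s W hd).trans ?_
  have h1 := hd.hK
  have h2 := hd.hE
  have h3 := hd.hθ
  have h4 := hd.hf
  gcongr

/-- all labels -/
theorem llt_general (ε : ℝ) (hε : 0 < ε) (L : ℕ) (C1 : ℝ) (hC1 : 1 ≤ C1) : ∃ C : ℝ, 0 < C ∧
    ∀ (X : ℝ) (D : ℤ) (l : ℕ), l ≤ L → LLT C1 X D l (C * X ^ ε * √((|D| : ℤ) : ℝ)) := by
  obtain ⟨C, hC, h⟩ := ll_general ε hε L C1 hC1
  refine ⟨C, hC, ?_⟩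
  intro X D l hl K f E θ ι S Ω I En s W hd
  refine (h X K D f l E θ ι S Ω I En s W hl hd).trans (le_of_eq ?_)
  ring

/-- exponent one: a bounded number of classes -/
theorem llt_one (C1 : ℝ) (hC1 : 1 ≤ C1) : ∃ C : ℝ, 0 < C ∧ ∀ (X : ℝ) (D : ℤ), LLT C1 X D 1 C := by
  obtain ⟨C, hC, h⟩ := ll_general_one C1 hC1
  exact ⟨C, hC, fun X D K f E θ ι S Ω I En s W hd => h X K D f E θ ι S Ω I En s W hd⟩

/-- exponent two: `X ^ ε` classes -/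
theorem llt_two (ε : ℝ) (hε : 0 < ε) (C1 : ℝ) (hC1 : 1 ≤ C1) : ∃ C : ℝ, 0 < C ∧
    ∀ (X : ℝ) (D : ℤ), LLT C1 X D 2 (C * X ^ ε) := by
  obtain ⟨C, hC, h⟩ := ll_two ε hε C1 hC1
  exact ⟨C, hC, fun X D K f E θ ι S Ω I En s W hd => h X K D f E θ ι S Ω I En s W hd⟩

/-- small split primes -/
theorem llt_ev (ε : ℝ) (hε : 0 < ε) (L : ℕ) (C1 : ℝ) (hC1 : 1 ≤ C1) : ∃ C : ℝ, 0 < C ∧
    ∀ (X : ℝ) (D : ℤ) (l : ℕ) (P : Finset ℕ), l ≤ L → P.Nonempty →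
      (∀ p ∈ P, SmallSplit D p ∧ C * (p : ℝ) ^ (2 * l) ≤ ((|D| : ℤ) : ℝ)) →
      LLT C1 X D l (C * X ^ ε * √((|D| : ℤ) : ℝ) / P.card) := by
  obtain ⟨C, hC, h⟩ := ll_ev ε hε L C1 hC1
  refine ⟨C, hC, ?_⟩
  intro X D l P hl hne hP K f E θ ι S Ω I En s W hd
  have h1 := h X K D f l E θ ι S Ω I En s W P hl hd hP
  have h2 : (0 : ℝ) < P.card := by exact_mod_cast hne.card_pos
  rw [← le_div_iff₀ h2] at h1
  refine h1.trans (le_of_eq ?_)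
  ring

/-- split primes from the Jacobi symbol -/
theorem smallSplit_of_jacobi {D : ℤ} {p : ℕ} (hp : p.Prime) (h3 : 3 ≤ p) (h : jacobiSym D p = 1) : SmallSplit D p := by
  have hf : Fact p.Prime := ⟨hp⟩
  rw [← jacobiSym.legendreSym.to_jacobiSym] at h
  have h0 : (D : ZMod p) ≠ 0 := by
    intro h1
    rw [(legendreSym.eq_zero_iff p D).mpr h1] at h
    exact zero_ne_one h
  refine ⟨hp, by omega, ?_, ?_⟩
  · intro h1
    exact h0 ((ZMod.intCast_zmod_eq_zero_iff_dvd D p).mpr h1)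
  · obtain ⟨x, hx⟩ := (legendreSym.eq_one_iff p h0).mp h
    refine ⟨(x.val : ℤ), ?_⟩
    rw [← ZMod.intCast_zmod_eq_zero_iff_dvd]
    push_cast
    rw [ZMod.natCast_zmod_val, hx]
    ring

/-- For all but `C Q ^ (1 - c)` squarefree `|D| ≤ Q` a power of `Q` is saved for every exponent `l ≤ L`. -/
theorem lltau (L : ℕ) (C1 : ℝ) (hC1 : 1 ≤ C1) : ∃ κ c : ℝ, 0 < κ ∧ 0 < c ∧ ∀ ε : ℝ, 0 < ε → ∃ C : ℝ, 0 < C ∧
    ∀ Q : ℝ, 1 ≤ Q → ∃ Exc : Finset ℤ, (Exc.card : ℝ) ≤ C * Q ^ (1 - c) ∧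
      ∀ D : ℤ, Squarefree D → D ≠ 1 → ((|D| : ℤ) : ℝ) ≤ Q → D ∉ Exc →
        ∀ (X : ℝ) (l : ℕ), 1 ≤ X → l ≤ L → LLT C1 X D l (C * X ^ ε * Q ^ (1 / 2 - κ)) := by
  classical
  set κ0 : ℝ := 1 / (6 * (L + 1)) with hκ0
  have hL0 : (0 : ℝ) ≤ L := Nat.cast_nonneg L
  have hκ0p : 0 < κ0 := by positivity
  have hκ06 : κ0 ≤ 1 / 6 := by
    rw [hκ0]
    apply one_div_le_one_div_of_le (by norm_num)
    nlinarith
  have hκL : (L : ℝ) * κ0 ≤ 1 / 6 := by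
    rw [hκ0, mul_one_div, div_le_div_iff₀ (by positivity) (by norm_num)]
    nlinarith
  obtain ⟨C', c, hC', hc, hssp⟩ := small_split_primes κ0 hκ0p hκ06
  refine ⟨κ0 / 2, c, by positivity, hc, ?_⟩
  intro ε hε
  obtain ⟨Ce, hCe, hev⟩ := llt_ev ε hε L C1 hC1
  obtain ⟨Cg, hCg, hgen⟩ := llt_general ε hε L C1 hC1
  refine ⟨C' + Ce + Cg * √Ce, by positivity, ?_⟩
  intro Q hQ
  have hQ0 : 0 < Q := by linarith
  set PD : ℤ → Finset ℕ := fun D => (Finset.Icc 3 ⌊Q ^ κ0⌋₊).filter (fun r => r.Prime ∧ jacobiSym D r = 1) with hPD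
  set Exc : Finset ℤ := (Finset.Icc (-⌊Q⌋) ⌊Q⌋).filter (fun D => ((|D| : ℤ) : ℝ) ≤ Q ∧ Squarefree D ∧ D ≠ 1 ∧
    ((PD D).card : ℝ) < Q ^ (κ0 / 2)) with hExc
  refine ⟨Exc, ?_, ?_⟩
  · have h1 := hssp Q hQ Exc (fun D hD => (Finset.mem_filter.mp hD).2)
    refine h1.trans ?_
    have h2 : 0 < Q ^ (1 - c) := Real.rpow_pos_of_pos hQ0 _
    have h3 : 0 ≤ Cg * √Ce := by positivity
    nlinarith
  · intro D hsq hD1 hDQ hDE X l hX hl
    have hX0 : 0 < X := by linarith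
    have hcard : Q ^ (κ0 / 2) ≤ ((PD D).card : ℝ) := by
      by_contra hlt
      push Not at hlt
      apply hDE
      rw [hExc, Finset.mem_filter, Finset.mem_Icc]
      refine ⟨?_, hDQ, hsq, hD1, hlt⟩
      have h1 : |D| ≤ ⌊Q⌋ := Int.le_floor.mpr hDQ
      exact abs_le.mp h1
    have hQκ : 0 < Q ^ (κ0 / 2) := Real.rpow_pos_of_pos hQ0 _
    have hXε : 0 < X ^ ε := Real.rpow_pos_of_pos hX0 _
    have hsD : √((|D| : ℤ) : ℝ) ≤ Q ^ (1 / 2 : ℝ) := by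
      rw [← Real.sqrt_eq_rpow]
      exact Real.sqrt_le_sqrt hDQ
    have hl' : (l : ℝ) ≤ L := by exact_mod_cast hl
    by_cases hbig : Ce * Q ^ (2 * (l : ℝ) * κ0) ≤ ((|D| : ℤ) : ℝ)
    · have hne : (PD D).Nonempty := by
        rw [← Finset.card_pos]
        have : (0 : ℝ) < ((PD D).card : ℝ) := lt_of_lt_of_le hQκ hcard
        exact_mod_cast this
      have h1 := hev X D l (PD D) hl hne (by
        intro p hp
        obtain ⟨h2, h3, h4⟩ := Finset.mem_filter.mp hp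
        obtain ⟨h5, h6⟩ := Finset.mem_Icc.mp h2
        refine ⟨smallSplit_of_jacobi h3 h5 h4, le_trans ?_ hbig⟩
        have h7 : (p : ℝ) ≤ Q ^ κ0 := by
          have h8 : (p : ℝ) ≤ (⌊Q ^ κ0⌋₊ : ℝ) := by exact_mod_cast h6
          exact h8.trans (Nat.floor_le (by positivity))
        have h9 : (p : ℝ) ^ (2 * l) ≤ Q ^ (2 * (l : ℝ) * κ0) := by
          calc (p : ℝ) ^ (2 * l) ≤ (Q ^ κ0) ^ (2 * l) := by gcongr
            _ = Q ^ (2 * (l : ℝ) * κ0) := by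
                rw [← Real.rpow_natCast, ← Real.rpow_mul hQ0.le]
                congr 1
                push_cast; ring
        gcongr)
      refine h1.mono12 ?_
      rw [div_le_iff₀ (lt_of_lt_of_le hQκ hcard)]
      have h2 : Q ^ (1 / 2 - κ0 / 2) * Q ^ (κ0 / 2) = Q ^ (1 / 2 : ℝ) := by
        rw [← Real.rpow_add hQ0]; congr 1; ring
      have h3 : 0 < Q ^ (1 / 2 - κ0 / 2) := Real.rpow_pos_of_pos hQ0 _
      calc Ce * X ^ ε * √((|D| : ℤ) : ℝ) ≤ Ce * X ^ ε * Q ^ (1 / 2 : ℝ) := by gcongr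
        _ = Ce * X ^ ε * Q ^ (1 / 2 - κ0 / 2) * Q ^ (κ0 / 2) := by rw [← h2]; ring
        _ ≤ (C' + Ce + Cg * √Ce) * X ^ ε * Q ^ (1 / 2 - κ0 / 2) * ((PD D).card : ℝ) := by
            have h4 : 0 ≤ Cg * √Ce := by positivity
            gcongr
            linarith
    · push Not at hbig
      refine (hgen X D l hl).mono12 ?_
      have h1 : √((|D| : ℤ) : ℝ) ≤ √Ce * Q ^ ((l : ℝ) * κ0) := by
        calc √((|D| : ℤ) : ℝ) ≤ √(Ce * Q ^ (2 * (l : ℝ) * κ0)) := Real.sqrt_le_sqrt hbig.le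
          _ = √Ce * √(Q ^ (2 * (l : ℝ) * κ0)) := Real.sqrt_mul hCe.le _
          _ = √Ce * Q ^ ((l : ℝ) * κ0) := by
              congr 1
              rw [Real.sqrt_eq_rpow, ← Real.rpow_mul hQ0.le]
              congr 1; ring
      have h2 : Q ^ ((l : ℝ) * κ0) ≤ Q ^ (1 / 2 - κ0 / 2) := by
        apply Real.rpow_le_rpow_of_exponent_le hQ
        nlinarith
      have h3 : 0 < Q ^ (1 / 2 - κ0 / 2) := Real.rpow_pos_of_pos hQ0 _
      calc Cg * X ^ ε * √((|D| : ℤ) : ℝ) ≤ Cg * X ^ ε * (√Ce * Q ^ (1 / 2 - κ0 / 2)) := by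
            gcongr
            exact h1.trans (by gcongr)
        _ = (Cg * √Ce) * X ^ ε * Q ^ (1 / 2 - κ0 / 2) := by ring
        _ ≤ (C' + Ce + Cg * √Ce) * X ^ ε * Q ^ (1 / 2 - κ0 / 2) := by
            gcongr
            linarith

end Hp

end Pool.Agent.Lib.MP_d8bd92_nt
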