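import Pool.Agent.Lib.MP_d8bd92_nt.Hp.LC0

set_option autoImplicit false

/-!
MP_d8bd92_nt, block few_ev, file EvA: size classes.
-/

namespace Pool.Agent.Lib.MP_d8bd92_nt

namespace Hp

open Finset

private theorem evx_real {D : ℤ} (hD : 0 ≤ D) (z : ℤ√D) :
    Zsqrtd.toReal hD z = (z.re : ℝ) + (z.im : ℝ) * Real.sqrt (D : ℝ) := rfl

private theorem evx_star {D : ℤ} (hD : 0 ≤ D) (z : ℤ√D) :
    Zsqrtd.toReal hD (star z) = (z.re : ℝ) - (z.im : ℝ) * Real.sqrt (D : ℝ) := by
  rw [evx_real]
  simp [sub_eq_add_neg]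

private theorem evx_norm {D : ℤ} (hD : 0 ≤ D) (z : ℤ√D) :
    Zsqrtd.toReal hD z * Zsqrtd.toReal hD (star z) = (z.norm : ℝ) := by
  rw [← map_mul, ← norm_int, map_intCast]

private theorem evx_hh {D : ℤ} (hD : 0 ≤ D) (z : ℤ√D) :
    Zsqrtd.toReal hD z ^ 2 + Zsqrtd.toReal hD (star z) ^ 2 = 2 * ((hh z : ℤ) : ℝ) := by
  rw [evx_real, evx_star, hh, abs_of_nonneg hD]
  have h : Real.sqrt (D : ℝ) ^ 2 = (D : ℝ) := Real.sq_sqrt (by exact_mod_cast hD)
  push_cast
  linear_combination (2 * (z.im : ℝ) ^ 2) * h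

private theorem evx_neg {D : ℤ} (hD : D < 0) (z : ℤ√D) : hh z = |z.norm| := by
  rw [abs_of_nonneg (Zsqrtd.norm_nonneg hD.le z), hh, abs_of_neg hD, Zsqrtd.norm_def]
  ring

/-- Row hpev-A.  Size classes.
Proof.  `D < 0`: `κ = 0`; `hh z = |norm z|` for all `z` and the norm is multiplicative.
`D > 0`: for `z = x + y √D ≠ 0` let `u = |x + y √D|`, `v = |x - y √D|` (real numbers, both `> 0` as `D` is not a square),
`ρ z = u / v`, `t = ⌊Real.log (ρ z)⌋ : ℤ`, `κ z = 2 * t.natAbs + (if 0 ≤ t then 0 else 1)` (injective in `t`).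
`hh z = (u^2 + v^2)/2`, `|norm z| = u v`, so `hh z / |norm z| = (ρ + 1/ρ)/2`; if this is `≤ H` then `ρ, 1/ρ ≤ 2 H`,
`|log ρ| ≤ log (2 H)`, `κ z ≤ 2 (log (2 H) + 1) + 1`.  Same `κ`: same `t`, `|log ρ(z) - log ρ(z')| ≤ 1`, and
`ρ (z * star z') = ρ z / ρ z'` is between `exp (-1)` and `exp 1`, so `(ρ + 1/ρ)/2 ≤ exp 1 ≤ 3`. -/
theorem ev_size_class : ∃ C : ℝ, 1 ≤ C ∧ ∀ D : ℤ, (∀ n : ℤ, D ≠ n * n) → ∃ κ : ℤ√D → ℕ,
    (∀ (z : ℤ√D) (H : ℝ), z ≠ 0 → 1 ≤ H → ((hh z : ℤ) : ℝ) ≤ H * ((|z.norm| : ℤ) : ℝ) →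
      (κ z : ℝ) ≤ C * (1 + Real.log H)) ∧
    ∀ z z' : ℤ√D, z ≠ 0 → z' ≠ 0 → κ z = κ z' → hh (z * star z') ≤ 3 * |(z * star z').norm| := by
  have hl2 : 0 < Real.log 2 := Real.log_pos (by norm_num)
  refine ⟨2 * Real.log 2 + 3, by linarith, ?_⟩
  intro D hns
  rcases lt_trichotomy D 0 with hD | hD | hD
  · refine ⟨fun _ => 0, ?_, ?_⟩
    · intro z H _ hH _
      have hlH : 0 ≤ Real.log H := Real.log_nonneg hH
      rw [Nat.cast_zero]
      positivity
    · intro z z' _ _ _
      rw [evx_neg hD]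
      have := abs_nonneg (z * star z').norm
      linarith
  · exact absurd hD (by simpa using hns 0)
  · set φ := Zsqrtd.toReal hD.le with hφ
    have hpos : ∀ z : ℤ√D, z ≠ 0 → 0 < |φ z| ∧ 0 < |φ (star z)| := by
      intro z hz
      have h1 : z.norm ≠ 0 := fun h => hz ((Zsqrtd.norm_eq_zero hns z).mp h)
      have h2 := evx_norm hD.le z
      rw [← hφ] at h2
      have h3 : φ z * φ (star z) ≠ 0 := by
        rw [h2]; exact_mod_cast h1
      exact ⟨abs_pos.mpr (left_ne_zero_of_mul h3), abs_pos.mpr (right_ne_zero_of_mul h3)⟩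
    have hnorm : ∀ z : ℤ√D, ((|z.norm| : ℤ) : ℝ) = |φ z| * |φ (star z)| := by
      intro z
      rw [← abs_mul, hφ, evx_norm, Int.cast_abs]
    have hhh : ∀ z : ℤ√D, 2 * ((hh z : ℤ) : ℝ) = |φ z| ^ 2 + |φ (star z)| ^ 2 := by
      intro z
      rw [sq_abs, sq_abs, hφ, evx_hh]
    set t : ℤ√D → ℤ := fun z => ⌊Real.log (|φ z| / |φ (star z)|)⌋ with ht
    refine ⟨fun z => 2 * (t z).natAbs + (if 0 ≤ t z then 0 else 1), ?_, ?_⟩
    · intro z H hz hH hle
      obtain ⟨ha, hb⟩ := hpos z hz
      have h1 := hnorm z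
      have h2 := hhh z
      rw [h1] at hle
      set a := |φ z|
      set b := |φ (star z)|
      have hH0 : 0 < H := by linarith
      have hlH : 0 ≤ Real.log H := Real.log_nonneg hH
      have h3 : a ^ 2 + b ^ 2 ≤ 2 * H * (a * b) := by linarith
      have h4 : a ≤ 2 * H * b := by
        by_contra hc
        push Not at hc
        nlinarith [mul_lt_mul_of_pos_left hc ha, sq_nonneg b]
      have h5 : b ≤ 2 * H * a := by
        by_contra hc
        push Not at hc
        nlinarith [mul_lt_mul_of_pos_left hc hb, sq_nonneg a]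
      have h6 : a / b ≤ 2 * H := by rwa [div_le_iff₀ hb]
      have h7 : 1 / (2 * H) ≤ a / b := by
        rw [div_le_div_iff₀ (by positivity) hb]
        linarith
      have hab : 0 < a / b := by positivity
      have h8 : Real.log (a / b) ≤ Real.log (2 * H) := Real.log_le_log hab h6
      have h9 : - Real.log (2 * H) ≤ Real.log (a / b) := by
        have := Real.log_le_log (by positivity) h7
        rwa [one_div, Real.log_inv] at this
      have hlog2H : Real.log (2 * H) = Real.log 2 + Real.log H := by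
        rw [Real.log_mul (by norm_num) hH0.ne']
      have h10 : ((t z : ℤ) : ℝ) ≤ Real.log (a / b) := Int.floor_le _
      have h11 : Real.log (a / b) < (t z : ℝ) + 1 := Int.lt_floor_add_one _
      have h12 : (((t z).natAbs : ℕ) : ℝ) ≤ Real.log (2 * H) + 1 := by
        rw [Nat.cast_natAbs, Int.cast_abs, abs_le]
        constructor <;> linarith
      have h13 : (((if 0 ≤ t z then 0 else 1 : ℕ)) : ℝ) ≤ 1 := by
        split_ifs <;> norm_num
      push_cast at h13 ⊢
      rw [hlog2H] at h12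
      nlinarith [mul_nonneg hl2.le hlH]
    · intro z z' hz hz' hk
      have htt : t z = t z' := by
        simp only at hk
        split_ifs at hk <;> omega
      obtain ⟨ha, hb⟩ := hpos z hz
      obtain ⟨ha', hb'⟩ := hpos z' hz'
      have e1 : |φ (z * star z')| = |φ z| * |φ (star z')| := by rw [map_mul, abs_mul]
      have e2 : |φ (star (z * star z'))| = |φ (star z)| * |φ z'| := by
        rw [star_mul', star_star, map_mul, abs_mul]
      have h1 := hnorm (z * star z')
      have h2 := hhh (z * star z')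
      rw [e1, e2] at h1 h2
      have h3 : |Real.log (|φ z| / |φ (star z)|) - Real.log (|φ z'| / |φ (star z')|)| < 1 :=
        Int.abs_sub_lt_one_of_floor_eq_floor htt
      set a := |φ z|
      set b := |φ (star z)|
      set a' := |φ z'|
      set b' := |φ (star z')|
      have h4 : Real.log (a / b) - Real.log (a' / b') = Real.log ((a * b') / (b * a')) := by
        rw [← Real.log_div (by positivity) (by positivity)]
        congr 1
        field_simp
      rw [h4, abs_lt] at h3
      have hq : 0 < (a * b') / (b * a') := by positivity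
      have h5 : (a * b') / (b * a') < 3 := by
        have h6 : (a * b') / (b * a') < Real.exp 1 := by
          rw [← Real.log_lt_iff_lt_exp hq]
          exact h3.2
        linarith [Real.exp_one_lt_d9]
      have h6 : (b * a') / (a * b') < 3 := by
        have h7 : Real.log ((b * a') / (a * b')) < 1 := by
          have h8 : (b * a') / (a * b') = ((a * b') / (b * a'))⁻¹ := by rw [inv_div]
          rw [h8, Real.log_inv]
          linarith [h3.1]
        have hq' : 0 < (b * a') / (a * b') := by positivity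
        have h8 : (b * a') / (a * b') < Real.exp 1 := by
          rw [← Real.log_lt_iff_lt_exp hq']
          exact h7
        linarith [Real.exp_one_lt_d9]
      have hA : 0 < a * b' := by positivity
      have hB : 0 < b * a' := by positivity
      rw [div_lt_iff₀ hB] at h5
      rw [div_lt_iff₀ hA] at h6
      have h7 : ((hh (z * star z') : ℤ) : ℝ) ≤ 3 * ((|(z * star z').norm| : ℤ) : ℝ) := by
        rw [h1]
        have h8 : (a * b') ^ 2 ≤ 3 * ((a * b') * (b * a')) := by nlinarith
        have h9 : (b * a') ^ 2 ≤ 3 * ((a * b') * (b * a')) := by nlinarith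
        linarith
      exact_mod_cast h7

end Hp

end Pool.Agent.Lib.MP_d8bd92_nt
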