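import Pool.Agent.Lib.MP_d8bd92_nt.Hp.LL0

set_option autoImplicit false

/-!
MP_d8bd92_nt, block few_ev, file EvB: the quotient `ξ`.
-/

namespace Pool.Agent.Lib.MP_d8bd92_nt

namespace Hp

open Finset

theorem evb_aux {A : Type*} [CommRing A] {a b : A} {J : Ideal A}
    (h : Ideal.span {a} = Ideal.span {b} * J) : ∃ x, a = b * x := by
  have h1 : a ∈ Ideal.span {b} := by
    have h2 : Ideal.span {b} * J ≤ Ideal.span {b} := Ideal.mul_le_left
    rw [← h] at h2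
    exact h2 (Ideal.mem_span_singleton_self a)
  exact Ideal.mem_span_singleton.mp h1

theorem evb_dvd {A : Type*} [CommRing A] {a b : A} (h : Ideal.span {a} = Ideal.span {b}) : a ∣ b := by
  apply Ideal.mem_span_singleton.mp
  rw [h]
  exact Ideal.mem_span_singleton_self b

/-- Row hpev-B.  `span {e'^g Ω} * R^g = W * (span {e'} * (I * R))^g = W * (span {e} * (I' * R'))^g = span {e^g Ω'} * R'^g`
(`Ideal.span_singleton_pow`, `Ideal.span_singleton_mul_span_singleton`, commutativity).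
Times `cj R ^ g` (`R * cj R = span {r}`): `span {e'^g Ω r^g} = span {e^g Ω'} * (R' * cj R)^g`.  So `e'^g Ω r^g ∈ span {e^g Ω'}`: `ξ`.
`span {e^g Ω'} * span {ξ} = span {e^g Ω'} * (R' * cj R)^g`, `cancel_span` (use `isDomain_of`): `span {ξ} = (R' * cj R)^g`, and
`HN ((R' * cj R)^g) ((r' * r)^g)` by `HN.mul`, `HN.cj`, `HN.pow`.  `span {ξ} * cj (span {ξ}) = span {ξ * star ξ} = span {norm ξ}`
(`cj_span_singleton`, `norm_int`), so `span {(norm ξ : ℤ√D)} = span {(r' r)^g}`: the integers agree up to sign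
(`Zsqrtd.intCast_dvd_intCast`, see `HN.unique` in LL0). -/
theorem ev_xi {D : ℤ} (hD : ∀ n : ℤ, D ≠ n * n) {I I' R R' W : Ideal (ℤ√D)} {g r r' : ℕ} {Ω Ω' e e' : ℤ√D}
    (hΩ : Ω ≠ 0) (hΩ' : Ω' ≠ 0) (he : e ≠ 0) (he' : e' ≠ 0) (hR : HN R r) (hR' : HN R' r')
    (hf : Ideal.span {Ω} = W * I ^ g) (hf' : Ideal.span {Ω'} = W * I' ^ g)
    (hee : Ideal.span {e'} * (I * R) = Ideal.span {e} * (I' * R')) :
    ∃ ξ : ℤ√D, e ^ g * Ω' * ξ = e' ^ g * Ω * (r : ℤ√D) ^ g ∧ |ξ.norm| = ((r : ℤ) * r') ^ g := by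
  have := isDomain_of hD
  have h1 : Ideal.span {e' ^ g * Ω} * R ^ g = Ideal.span {e ^ g * Ω'} * R' ^ g := by
    rw [← Ideal.span_singleton_mul_span_singleton, ← Ideal.span_singleton_mul_span_singleton,
      ← Ideal.span_singleton_pow, ← Ideal.span_singleton_pow, hf, hf']
    calc Ideal.span {e'} ^ g * (W * I ^ g) * R ^ g = W * (Ideal.span {e'} * (I * R)) ^ g := by ring
      _ = W * (Ideal.span {e} * (I' * R')) ^ g := by rw [hee]
      _ = Ideal.span {e} ^ g * (W * I' ^ g) * R' ^ g := by ring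
  have h2 : Ideal.span {e' ^ g * Ω * (r : ℤ√D) ^ g} =
      Ideal.span {e ^ g * Ω'} * (R' * cj R) ^ g := by
    rw [← Ideal.span_singleton_mul_span_singleton, ← Ideal.span_singleton_pow, ← hR.2]
    calc Ideal.span {e' ^ g * Ω} * (R * cj R) ^ g
        = (Ideal.span {e' ^ g * Ω} * R ^ g) * cj R ^ g := by ring
      _ = (Ideal.span {e ^ g * Ω'} * R' ^ g) * cj R ^ g := by rw [h1]
      _ = Ideal.span {e ^ g * Ω'} * (R' * cj R) ^ g := by ring
  obtain ⟨ξ, hξ⟩ := evb_aux h2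
  have hne : e ^ g * Ω' ≠ 0 := mul_ne_zero (pow_ne_zero _ he) hΩ'
  have h4 : Ideal.span {ξ} = (R' * cj R) ^ g := by
    apply cancel_span hne
    rw [Ideal.span_singleton_mul_span_singleton, ← h2, ← hξ]
  have h5 : HN ((R' * cj R) ^ g) ((r' * r) ^ g) := (hR'.mul hR.cj).pow g
  have h6 : (Ideal.span {((ξ.norm : ℤ) : ℤ√D)} : Ideal (ℤ√D)) =
      Ideal.span {((((r' * r) ^ g : ℕ) : ℤ) : ℤ√D)} := by
    rw [Int.cast_natCast, ← h5.2, ← h4, cj_span_singleton, Ideal.span_singleton_mul_span_singleton,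
      norm_int]
  have h7 : ((ξ.norm : ℤ) : ℤ√D) ∣ ((((r' * r) ^ g : ℕ) : ℤ) : ℤ√D) := evb_dvd h6
  have h8 : ((((r' * r) ^ g : ℕ) : ℤ) : ℤ√D) ∣ ((ξ.norm : ℤ) : ℤ√D) := evb_dvd h6.symm
  have h9 := Int.natAbs_eq_of_dvd_dvd ((Zsqrtd.intCast_dvd_intCast _ _).mp h7)
    ((Zsqrtd.intCast_dvd_intCast _ _).mp h8)
  refine ⟨ξ, hξ.symm, ?_⟩
  rw [Int.abs_eq_natAbs, h9]
  push_cast
  simp [mul_comm]

end Hp

end Pool.Agent.Lib.MP_d8bd92_nt
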