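import Pool.Agent.Lib.MP_d8bd92_nt.Hp.LC0

set_option autoImplicit false

/-!
MP_d8bd92_nt, block few_ev, file EvC: the quotient `ξ` is balanced.
-/

namespace Pool.Agent.Lib.MP_d8bd92_nt

namespace Hp

open Finset

/-- Row hpev-C.  Multiply by `star e ^ g * star Ω'`: with the integer `j = norm(e)^g * norm(Ω')` (`≠ 0`, `Zsqrtd.norm_eq_zero hD`)
`j * ξ = r^g * ((e' * star e)^g * (Ω * star Ω'))`.  Take `hh`: `j^2 hh ξ = r^(2g) hh (..) ≤ r^(2g) * 2 * hh ((e' * star e)^g) * hh (Ω * star Ω')`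
`≤ r^(2g) * 2 * 2^(g-1) * hh (e' * star e)^g * (2 * hh Ω * hh Ω')` (`hh_int_mul`, `hh_mul_le`, `hh_pow_le`, `hh_star`)
`≤ r^(2g) * 2^(g+1) * 3^g * |norm (e' * star e)|^g * C0^2 * |norm Ω| |norm Ω'|`, and
`j^2 |norm ξ| = r^(2g) |norm (e' * star e)|^g |norm Ω| |norm Ω'|`.  Divide by `j^2 > 0`. -/
theorem ev_xi_size {D : ℤ} (hD : ∀ n : ℤ, D ≠ n * n) {g r : ℕ} {Ω Ω' e e' ξ : ℤ√D} {C0 : ℝ} (hC0 : 1 ≤ C0) (hg : 1 ≤ g)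
    (hΩ : Ω ≠ 0) (hΩ' : Ω' ≠ 0) (he : e ≠ 0) (he' : e' ≠ 0)
    (hb : ((hh Ω : ℤ) : ℝ) ≤ C0 * ((|Ω.norm| : ℤ) : ℝ)) (hb' : ((hh Ω' : ℤ) : ℝ) ≤ C0 * ((|Ω'.norm| : ℤ) : ℝ))
    (hee : hh (e' * star e) ≤ 3 * |(e' * star e).norm|)
    (h : e ^ g * Ω' * ξ = e' ^ g * Ω * (r : ℤ√D) ^ g) :
    ((hh ξ : ℤ) : ℝ) ≤ 2 ^ (g + 1) * 3 ^ g * C0 ^ 2 * ((|ξ.norm| : ℤ) : ℝ) := by
  -- the integer j and the key identity
  set j : ℤ := e.norm ^ g * Ω'.norm with hjdef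
  set R : ℤ := (r : ℤ) ^ g with hRdef
  set w : ℤ√D := e' * star e with hwdef
  set v : ℤ√D := Ω * star Ω' with hvdef
  have hj : j ≠ 0 := by
    rw [hjdef]
    refine mul_ne_zero (pow_ne_zero _ ?_) ?_
    · exact fun h0 => he ((Zsqrtd.norm_eq_zero hD e).mp h0)
    · exact fun h0 => hΩ' ((Zsqrtd.norm_eq_zero hD Ω').mp h0)
  have key : (j : ℤ√D) * ξ = (R : ℤ√D) * (w ^ g * v) := by
    have h1 : (j : ℤ√D) = (e * star e) ^ g * (Ω' * star Ω') := by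
      rw [hjdef]; push_cast; rw [norm_int, norm_int]
    have h2 : (R : ℤ√D) = (r : ℤ√D) ^ g := by
      rw [hRdef]; push_cast; rfl
    rw [h1, h2, hwdef, hvdef]
    calc (e * star e) ^ g * (Ω' * star Ω') * ξ = (star e ^ g * star Ω') * (e ^ g * Ω' * ξ) := by
          rw [mul_pow]; ring
      _ = (star e ^ g * star Ω') * (e' ^ g * Ω * (r : ℤ√D) ^ g) := by rw [h]
      _ = (r : ℤ√D) ^ g * ((e' * star e) ^ g * (Ω * star Ω')) := by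
          rw [mul_pow e']; ring
  clear_value j R
  have k1 : j ^ 2 * hh ξ = R ^ 2 * hh (w ^ g * v) := by
    rw [← hh_int_mul, key, hh_int_mul]
  have k2 : j ^ 2 * |ξ.norm| = R ^ 2 * (|w.norm| ^ g * (|Ω.norm| * |Ω'.norm|)) := by
    have h3 : j ^ 2 * ξ.norm = R ^ 2 * (w.norm ^ g * (Ω.norm * Ω'.norm)) := by
      have h4 := congrArg Zsqrtd.norm key
      rw [norm_int_mul, norm_int_mul, Zsqrtd.norm_mul, hvdef, Zsqrtd.norm_mul, norm_star] at h4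
      have h5 : (w ^ g).norm = w.norm ^ g := by
        have := map_pow (Zsqrtd.normMonoidHom (d := D)) w g
        exact this
      rw [h5] at h4
      exact h4
    have h6 := congrArg abs h3
    rw [abs_mul, abs_mul, abs_mul, abs_mul, abs_of_nonneg (sq_nonneg j),
      abs_of_nonneg (sq_nonneg R), abs_pow] at h6
    exact h6
  have hw0 := hh_nonneg w
  have hΩ0 := hh_nonneg Ω
  have hΩ'0 := hh_nonneg Ω'
  have k3 : hh (w ^ g * v) ≤ 2 ^ (g + 1) * (3 ^ g * |w.norm| ^ g) * (hh Ω * hh Ω') := by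
    have a1 : hh (w ^ g * v) ≤ 2 * hh (w ^ g) * hh v := hh_mul_le _ _
    have a2 : hh (w ^ g) ≤ 2 ^ (g - 1) * hh w ^ g := hh_pow_le w g hg
    have a3 : hh v ≤ 2 * hh Ω * hh Ω' := by
      have := hh_mul_le Ω (star Ω')
      rwa [hh_star] at this
    have a4 : hh w ^ g ≤ (3 * |w.norm|) ^ g := pow_le_pow_left₀ hw0 hee g
    have a5 : (2 : ℤ) ^ (g + 1) = 2 * 2 ^ (g - 1) * 2 := by
      have : g + 1 = (g - 1) + 2 := by omega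
      rw [this, pow_add]; ring
    have hv0 := hh_nonneg v
    have hwg0 := hh_nonneg (w ^ g)
    calc hh (w ^ g * v) ≤ 2 * hh (w ^ g) * hh v := a1
      _ ≤ 2 * (2 ^ (g - 1) * (3 * |w.norm|) ^ g) * (2 * hh Ω * hh Ω') := by
          refine mul_le_mul ?_ a3 hv0 (by positivity)
          refine mul_le_mul_of_nonneg_left (a2.trans ?_) (by norm_num)
          exact mul_le_mul_of_nonneg_left a4 (by positivity)
      _ = 2 ^ (g + 1) * (3 ^ g * |w.norm| ^ g) * (hh Ω * hh Ω') := by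
          rw [a5, mul_pow]; ring
  -- over the reals
  have r1 : ((j : ℝ)) ^ 2 * ((hh ξ : ℤ) : ℝ) = (R : ℝ) ^ 2 * ((hh (w ^ g * v) : ℤ) : ℝ) := by
    exact_mod_cast k1
  have r2 : ((j : ℝ)) ^ 2 * ((|ξ.norm| : ℤ) : ℝ) =
      (R : ℝ) ^ 2 * (((|w.norm| : ℤ) : ℝ) ^ g * (((|Ω.norm| : ℤ) : ℝ) * ((|Ω'.norm| : ℤ) : ℝ))) := by
    exact_mod_cast k2
  have r3 : ((hh (w ^ g * v) : ℤ) : ℝ) ≤
      2 ^ (g + 1) * (3 ^ g * ((|w.norm| : ℤ) : ℝ) ^ g) * (((hh Ω : ℤ) : ℝ) * ((hh Ω' : ℤ) : ℝ)) := by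
    exact_mod_cast k3
  have hΩr : (0 : ℝ) ≤ ((hh Ω : ℤ) : ℝ) := by exact_mod_cast hΩ0
  have hΩr' : (0 : ℝ) ≤ ((hh Ω' : ℤ) : ℝ) := by exact_mod_cast hΩ'0
  have hnw : (0 : ℝ) ≤ ((|w.norm| : ℤ) : ℝ) := by exact_mod_cast abs_nonneg w.norm
  have hnΩ : (0 : ℝ) ≤ ((|Ω.norm| : ℤ) : ℝ) := by exact_mod_cast abs_nonneg Ω.norm
  have hnΩ' : (0 : ℝ) ≤ ((|Ω'.norm| : ℤ) : ℝ) := by exact_mod_cast abs_nonneg Ω'.norm
  have hjr : (0 : ℝ) < (j : ℝ) ^ 2 := by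
    have : (j : ℝ) ≠ 0 := by exact_mod_cast hj
    positivity
  have r4 : ((hh Ω : ℤ) : ℝ) * ((hh Ω' : ℤ) : ℝ) ≤
      (C0 * ((|Ω.norm| : ℤ) : ℝ)) * (C0 * ((|Ω'.norm| : ℤ) : ℝ)) :=
    mul_le_mul hb hb' hΩr' (by positivity)
  have r5 : (j : ℝ) ^ 2 * ((hh ξ : ℤ) : ℝ) ≤
      (j : ℝ) ^ 2 * (2 ^ (g + 1) * 3 ^ g * C0 ^ 2 * ((|ξ.norm| : ℤ) : ℝ)) := by
    calc (j : ℝ) ^ 2 * ((hh ξ : ℤ) : ℝ) = (R : ℝ) ^ 2 * ((hh (w ^ g * v) : ℤ) : ℝ) := r1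
      _ ≤ (R : ℝ) ^ 2 * (2 ^ (g + 1) * (3 ^ g * ((|w.norm| : ℤ) : ℝ) ^ g) *
            ((C0 * ((|Ω.norm| : ℤ) : ℝ)) * (C0 * ((|Ω'.norm| : ℤ) : ℝ)))) := by
          refine mul_le_mul_of_nonneg_left (r3.trans ?_) (by positivity)
          exact mul_le_mul_of_nonneg_left r4 (by positivity)
      _ = 2 ^ (g + 1) * 3 ^ g * C0 ^ 2 * ((R : ℝ) ^ 2 * (((|w.norm| : ℤ) : ℝ) ^ g *
            (((|Ω.norm| : ℤ) : ℝ) * ((|Ω'.norm| : ℤ) : ℝ)))) := by ring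
      _ = (j : ℝ) ^ 2 * (2 ^ (g + 1) * 3 ^ g * C0 ^ 2 * ((|ξ.norm| : ℤ) : ℝ)) := by
          rw [← r2]; ring
  exact le_of_mul_le_mul_left r5 hjr

end Hp

end Pool.Agent.Lib.MP_d8bd92_nt
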