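import Pool.Agent.Lib.MP_d8bd92_nt.Hp.EvB
import Pool.Agent.Lib.MP_d8bd92_nt.Hp.EvC

set_option autoImplicit false

/-!
MP_d8bd92_nt, block few_ev, file EvD: equal labels force equal amplifiers.
-/

namespace Pool.Agent.Lib.MP_d8bd92_nt

namespace Hp

open Finset

/-- Row hpev-D1.  `|D| * im^2 ≤ hh ξ ≤ B (r r')^g < |D|`, so `im = 0`.  Then `norm ξ = re^2` and `re^2 = (r r')^g`; if `r ≠ r'`, the exponent of the
prime `r` in `re^2` is even, in `(r r')^g` it is `g`, odd (`Nat.factorization` of natAbs).  So `r = r'`, `re^2 = (r^g)^2`, `re = ± r^g`. -/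
theorem ev_int {D : ℤ} {g r r' : ℕ} {ξ : ℤ√D} {B : ℝ} (hodd : Odd g) (hr : r.Prime) (hr' : r'.Prime)
    (hn : |ξ.norm| = ((r : ℤ) * r') ^ g) (hb : ((hh ξ : ℤ) : ℝ) ≤ B * ((|ξ.norm| : ℤ) : ℝ))
    (hsmall : B * ((r : ℝ) * r') ^ g < ((|D| : ℤ) : ℝ)) :
    r = r' ∧ (ξ = (r : ℤ√D) ^ g ∨ ξ = -(r : ℤ√D) ^ g) := by
  have hDpos : 0 ≤ |D| := abs_nonneg D
  have h1 : ((hh ξ : ℤ) : ℝ) < ((|D| : ℤ) : ℝ) := by
    refine lt_of_le_of_lt hb ?_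
    have e1 : ((((r : ℤ) * r') ^ g : ℤ) : ℝ) = ((r : ℝ) * r') ^ g := by push_cast; rfl
    rw [hn, e1]
    exact hsmall
  have h2 : hh ξ < |D| := by exact_mod_cast h1
  have him : ξ.im = 0 := by
    by_contra hne
    have h3 : 1 ≤ ξ.im ^ 2 := by
      have : 0 < ξ.im ^ 2 := by positivity
      omega
    have h4 : |D| ≤ |D| * ξ.im ^ 2 := le_mul_of_one_le_right hDpos h3
    have h5 : 0 ≤ ξ.re ^ 2 := sq_nonneg _
    unfold hh at h2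
    linarith
  have hnorm : ξ.norm = ξ.re ^ 2 := by
    rw [Zsqrtd.norm_def, him]
    ring
  have hre : ξ.re ^ 2 = ((r : ℤ) * r') ^ g := by
    rw [← hn, hnorm, abs_of_nonneg (sq_nonneg _)]
  have hrr : r = r' := by
    by_contra hne
    have h6 : ξ.re.natAbs ^ 2 = (r * r') ^ g := by
      have : ((ξ.re.natAbs ^ 2 : ℕ) : ℤ) = (((r * r') ^ g : ℕ) : ℤ) := by
        push_cast
        rw [sq_abs]
        exact hre
      exact_mod_cast this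
    have h7 := congrArg (fun n => n.factorization r) h6
    simp only [Nat.factorization_pow, Finsupp.smul_apply, smul_eq_mul] at h7
    rw [Nat.factorization_mul hr.ne_zero hr'.ne_zero] at h7
    simp only [Finsupp.add_apply] at h7
    rw [hr.factorization_self, Nat.factorization_eq_zero_of_not_dvd (fun hd => hne
      ((Nat.prime_dvd_prime_iff_eq hr hr').mp hd))] at h7
    rw [add_zero, mul_one] at h7
    rcases hodd with ⟨k, hk⟩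
    omega
  refine ⟨hrr, ?_⟩
  subst hrr
  have h8 : ξ.re ^ 2 = ((r : ℤ) ^ g) ^ 2 := by
    rw [hre, mul_pow, sq]
  have hcast : ξ = ((ξ.re : ℤ) : ℤ√D) := by
    ext
    · simp
    · simp [him]
  rcases sq_eq_sq_iff_eq_or_eq_neg.mp h8 with h | h
  · left
    rw [hcast, h]
    push_cast
    rfl
  · right
    rw [hcast, h]
    push_cast
    rfl

/-- Row hpev-D2 (uses `ev_xi`, `ev_xi_size`, `ev_int` with `B = 2 ^ (g + 1) * 3 ^ g * C0 ^ 2`).  Then `e^g Ω' (± r^g) = e'^g Ω r^g`, cancel `r^g ≠ 0`. -/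
theorem ev_pair {D : ℤ} (hD : ∀ n : ℤ, D ≠ n * n) {I I' R R' W : Ideal (ℤ√D)} {g r r' : ℕ} {Ω Ω' e e' : ℤ√D} {C0 z : ℝ}
    (hC0 : 1 ≤ C0) (hodd : Odd g)
    (hΩ : Ω ≠ 0) (hΩ' : Ω' ≠ 0) (he : e ≠ 0) (he' : e' ≠ 0) (hR : HN R r) (hR' : HN R' r')
    (hr : r.Prime) (hr' : r'.Prime) (hz : (r : ℝ) ≤ z) (hz' : (r' : ℝ) ≤ z)
    (hf : Ideal.span {Ω} = W * I ^ g) (hf' : Ideal.span {Ω'} = W * I' ^ g)
    (hb : ((hh Ω : ℤ) : ℝ) ≤ C0 * ((|Ω.norm| : ℤ) : ℝ)) (hb' : ((hh Ω' : ℤ) : ℝ) ≤ C0 * ((|Ω'.norm| : ℤ) : ℝ))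
    (hsz : hh (e' * star e) ≤ 3 * |(e' * star e).norm|)
    (hsmall : 2 ^ (g + 1) * 3 ^ g * C0 ^ 2 * z ^ (2 * g) < ((|D| : ℤ) : ℝ))
    (hee : Ideal.span {e'} * (I * R) = Ideal.span {e} * (I' * R')) :
    r = r' ∧ (e ^ g * Ω' = e' ^ g * Ω ∨ e ^ g * Ω' = -(e' ^ g * Ω)) := by
  have := isDomain_of hD
  have hg : 1 ≤ g := hodd.pos
  obtain ⟨ξ, hξ, hn⟩ := ev_xi hD hΩ hΩ' he he' hR hR' hf hf' hee
  have hsize := ev_xi_size hD hC0 hg hΩ hΩ' he he' hb hb' hsz hξ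
  have hsm : (2 ^ (g + 1) * 3 ^ g * C0 ^ 2) * ((r : ℝ) * r') ^ g < ((|D| : ℤ) : ℝ) := by
    refine lt_of_le_of_lt ?_ hsmall
    have h1 : ((r : ℝ) * r') ^ g ≤ z ^ (2 * g) := by
      rw [pow_mul, sq]
      have : (r : ℝ) * r' ≤ z * z :=
        mul_le_mul hz hz' (Nat.cast_nonneg _) (le_trans (Nat.cast_nonneg _) hz)
      exact pow_le_pow_left₀ (by positivity) this g
    exact mul_le_mul_of_nonneg_left h1 (by positivity)
  obtain ⟨hrr, hξ2⟩ := ev_int hodd hr hr' hn hsize hsm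
  refine ⟨hrr, ?_⟩
  have hr0 : ((r : ℤ√D)) ^ g ≠ 0 := pow_ne_zero _ hR.ne_zero
  rcases hξ2 with h | h
  · left
    rw [h] at hξ
    exact mul_right_cancel₀ hr0 hξ
  · right
    rw [h] at hξ
    have h2 : (-(e ^ g * Ω')) * (r : ℤ√D) ^ g = e' ^ g * Ω * (r : ℤ√D) ^ g := by
      rw [← hξ]; ring
    have h3 := mul_right_cancel₀ hr0 h2
    rw [← h3, neg_neg]

end Hp

end Pool.Agent.Lib.MP_d8bd92_nt
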