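import Pool.Agent.Lib.MP_d8bd92_nt.Hp.LK2

set_option autoImplicit false

/-!
MP_d8bd92_nt, block few_ev, file EvE: the number of elements in one class.
-/

namespace Pool.Agent.Lib.MP_d8bd92_nt

namespace Hp

open Finset

/-- Row hpev-E.  `S` empty: trivial.  Fix `c0 ∈ S`, let `e₁ c := e c` if `e c0 ^ g * Ω c = e c ^ g * Ω c0` and `e₁ c := - e c` otherwise
(`g` odd); then `e c0 ^ g * Ω c = e₁ c ^ g * Ω c0` for all `c ∈ S`, and for `c, c' ∈ S`: `e₁ c ^ g * Ω c' = e₁ c' ^ g * Ω c` (multiply by `e c0 ^ g ≠ 0`;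
`isDomain_of`).  Apply `class_bound L C0 hC0` with `K = 1`, `l = g`, `s = 1`, `e₁`, the integer `a * r` and the ideal `J * cj R`:
`span {a r} * I c = span {e₁ c} * (J * cj R)` (multiply the hypothesis by `cj R`, `R * cj R = span {r}`, `span {- e} = span {e}`);
`norm (e₁ c) = norm (e c) = a * (En c * r)`. -/
theorem ev_class (L : ℕ) (C0 : ℝ) (hC0 : 1 ≤ C0) : ∃ C : ℝ, 0 < C ∧ ∀ (X : ℝ) (D : ℤ) (f g : ℕ) (E θ : ℝ) (ι : Type)
    (S : Finset ι) (Ω : ι → ℤ√D) (I : ι → Ideal (ℤ√D)) (En : ι → ℕ) (W R J : Ideal (ℤ√D)) (e : ι → ℤ√D) (a : ℤ) (r : ℕ),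
    g ≤ L → Odd g → LLG C0 X 1 D f g E θ S Ω I En (fun _ => 1) W → a ≠ 0 → HN R r →
    (∀ c ∈ S, e c ≠ 0 ∧ (e c).norm = a * ((En c * r : ℕ) : ℤ) ∧
      Ideal.span {(a : ℤ√D)} * (I c * R) = Ideal.span {e c} * J) →
    (∀ c ∈ S, ∀ c' ∈ S, e c ^ g * Ω c' = e c' ^ g * Ω c ∨ e c ^ g * Ω c' = -(e c' ^ g * Ω c)) →
    (S.card : ℝ) ≤ C * (((g + 1) ^ f.primeFactors.card : ℕ) : ℝ) * (1 + θ * E / ((f : ℝ) * √((|D| : ℤ) : ℝ))) := by
  obtain ⟨C, hC, hcb⟩ := class_bound L C0 hC0
  refine ⟨C, hC, ?_⟩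
  intro X D f g E θ ι S Ω I En W R J e a r hgL hodd hL ha hR h1 h2
  classical
  have := isDomain_of hL.hD
  have hE0 : 0 ≤ E := le_trans zero_le_one hL.hE
  have hθ0 : 0 ≤ θ := hL.hθ.le
  rcases S.eq_empty_or_nonempty with hS | ⟨c0, hc0⟩
  · rw [hS, Finset.card_empty]
    push_cast
    positivity
  · set e₁ : ι → ℤ√D := fun c => if e c0 ^ g * Ω c = e c ^ g * Ω c0 then e c else - e c with he₁
    have hcase : ∀ c, e₁ c = e c ∨ e₁ c = - e c := by
      intro c
      simp only [he₁]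
      split_ifs
      · exact Or.inl rfl
      · exact Or.inr rfl
    have hA : ∀ c ∈ S, e c0 ^ g * Ω c = e₁ c ^ g * Ω c0 := by
      intro c hc
      by_cases hh : e c0 ^ g * Ω c = e c ^ g * Ω c0
      · have : e₁ c = e c := by simp only [he₁]; rw [if_pos hh]
        rw [this]; exact hh
      · have h3 : e₁ c = - e c := by simp only [he₁]; rw [if_neg hh]
        rcases h2 c0 hc0 c hc with h4 | h4
        · exact absurd h4 hh
        · rw [h3, hodd.neg_pow, h4, neg_mul]
    have he0 : e c0 ^ g ≠ 0 := pow_ne_zero _ (h1 c0 hc0).1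
    have hB : ∀ c ∈ S, ∀ c' ∈ S, e₁ c ^ g * Ω c' = e₁ c' ^ g * Ω c := by
      intro c hc c' hc'
      apply mul_left_cancel₀ he0
      calc e c0 ^ g * (e₁ c ^ g * Ω c') = e₁ c ^ g * (e c0 ^ g * Ω c') := by ring
        _ = e₁ c ^ g * (e₁ c' ^ g * Ω c0) := by rw [hA c' hc']
        _ = e₁ c' ^ g * (e₁ c ^ g * Ω c0) := by ring
        _ = e₁ c' ^ g * (e c0 ^ g * Ω c) := by rw [hA c hc]
        _ = _ := by ring
    have hr0 : ((r : ℕ) : ℤ) ≠ 0 := by
      have := hR.1
      omega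
    have har : a * (r : ℤ) ≠ 0 := mul_ne_zero ha hr0
    have hkey := hcb X 1 D f g E θ ι S Ω I En (fun _ => 1) W e₁ (a * (r : ℤ)) (J * cj R) hgL hL har
      (by
        intro c hc
        obtain ⟨g1, g2, g3⟩ := h1 c hc
        have hne : e₁ c ≠ 0 := by
          rcases hcase c with h | h
          · rw [h]; exact g1
          · rw [h]; exact neg_ne_zero.mpr g1
        have hnm : (e₁ c).norm = (e c).norm := by
          rcases hcase c with h | h
          · rw [h]
          · rw [h, Zsqrtd.norm_neg]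
        have hsp : (Ideal.span {e₁ c} : Ideal (ℤ√D)) = Ideal.span {e c} := by
          rcases hcase c with h | h
          · rw [h]
          · rw [h, Ideal.span_singleton_neg]
        refine ⟨hne, ?_, ?_⟩
        · rw [hnm, g2]
          push_cast
          ring
        · rw [hsp]
          have e3 : (Ideal.span {((a * (r : ℤ) : ℤ) : ℤ√D)} : Ideal (ℤ√D)) =
              Ideal.span {(a : ℤ√D)} * (R * cj R) := by
            rw [hR.2, Ideal.span_singleton_mul_span_singleton]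
            push_cast
            rfl
          rw [e3]
          calc Ideal.span {(a : ℤ√D)} * (R * cj R) * I c =
                Ideal.span {(a : ℤ√D)} * (I c * R) * cj R := by ring
            _ = Ideal.span {e c} * J * cj R := by rw [g3]
            _ = _ := by ring)
      (by
        intro c hc c' hc'
        have := hB c hc c' hc'
        simp only [Nat.cast_one, one_mul]
        exact this)
    rw [mul_one] at hkey
    exact hkey

end Hp

end Pool.Agent.Lib.MP_d8bd92_nt
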