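import Pool.Agent.Lib.MP_d8bd92_nt.Hp.EvA
import Pool.Agent.Lib.MP_d8bd92_nt.Hp.EvD
import Pool.Agent.Lib.MP_d8bd92_nt.Hp.EvE
import Pool.Agent.Lib.MP_d8bd92_nt.Hp.LB3
import Pool.Agent.Lib.MP_d8bd92_nt.Hp.LB4
import Pool.Agent.Lib.MP_d8bd92_nt.Hp.LC1
import Pool.Agent.Lib.MP_d8bd92_nt.Hp.LJ

set_option autoImplicit false

/-!
MP_d8bd92_nt, block few_ev, file EvF: the count for one fixed side.
-/

namespace Pool.Agent.Lib.MP_d8bd92_nt

namespace Hp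

open Finset

private theorem evx_F_size {D : ℤ} {e : ℤ√D} {a : ℤ} {N : ℕ} (ha : a ≠ 0)
    (hn : e.norm = a * N) (hh2 : (hh e) ^ 2 ≤ 4 * (N : ℤ) ^ 2 * |D|) :
    ((hh e : ℤ) : ℝ) ≤ (2 * √((|D| : ℤ) : ℝ)) * ((|e.norm| : ℤ) : ℝ) := by
  have hD0 : (0 : ℝ) ≤ ((|D| : ℤ) : ℝ) := by exact_mod_cast abs_nonneg D
  have h1 : (((hh e : ℤ) : ℝ)) ^ 2 ≤ (2 * (N : ℝ) * √((|D| : ℤ) : ℝ)) ^ 2 := by
    rw [mul_pow, Real.sq_sqrt hD0]
    have h0 : (((hh e) ^ 2 : ℤ) : ℝ) ≤ ((4 * (N : ℤ) ^ 2 * |D| : ℤ) : ℝ) := by exact_mod_cast hh2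
    rw [Int.cast_mul, Int.cast_mul, Int.cast_pow, Int.cast_pow, Int.cast_natCast] at h0
    calc ((hh e : ℤ) : ℝ) ^ 2 ≤ _ := h0
      _ = (2 * (N : ℝ)) ^ 2 * ((|D| : ℤ) : ℝ) := by push_cast; ring
  have h2 : ((hh e : ℤ) : ℝ) ≤ 2 * (N : ℝ) * √((|D| : ℤ) : ℝ) :=
    le_of_sq_le_sq h1 (by positivity)
  have h3 : (N : ℝ) ≤ ((|e.norm| : ℤ) : ℝ) := by
    rw [hn, abs_mul]
    have h5 : 1 ≤ |a| := Int.one_le_abs ha
    have h4 : (N : ℤ) ≤ |a| * |(N : ℤ)| := by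
      rw [Nat.abs_cast]
      nlinarith [Int.natCast_nonneg N]
    exact_mod_cast h4
  have hs : 0 ≤ √((|D| : ℤ) : ℝ) := Real.sqrt_nonneg _
  nlinarith [mul_le_mul_of_nonneg_left h3 hs]

private theorem evx_F_log (Cs ε : ℝ) (hCs : 1 ≤ Cs) (hε : 0 < ε) : ∀ (X d : ℝ), 1 ≤ d → d ≤ X →
    Cs * (1 + Real.log (2 * √d)) + 1 ≤ (2 * Cs + Cs / ε + 1) * X ^ ε := by
  intro X d hd hdX
  have hX : 1 ≤ X := hd.trans hdX
  have hXε : 1 ≤ X ^ ε := Real.one_le_rpow hX hε.le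
  have h1 : Real.log (2 * √d) ≤ 1 + Real.log X := by
    have hsd : 1 ≤ √d := by rw [Real.one_le_sqrt]; exact hd
    have h2 : √d ≤ X := by
      have : √d ≤ √d * √d := by nlinarith
      rw [Real.mul_self_sqrt (by linarith)] at this
      linarith
    rw [Real.log_mul (by norm_num) (by positivity)]
    have h3 : Real.log 2 ≤ 1 := by
      have := Real.log_two_lt_d9
      linarith
    have h4 : Real.log (√d) ≤ Real.log X := Real.log_le_log (by positivity) h2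
    linarith
  have h5 : Real.log X ≤ X ^ ε / ε := Real.log_le_rpow_div (by linarith) hε
  have h6 : Cs * (1 + Real.log (2 * √d)) ≤ Cs * (2 + X ^ ε / ε) :=
    mul_le_mul_of_nonneg_left (by linarith) (by linarith)
  calc Cs * (1 + Real.log (2 * √d)) + 1 ≤ Cs * (2 + X ^ ε / ε) + 1 := by linarith
    _ = 2 * Cs * 1 + Cs / ε * X ^ ε + 1 * 1 := by field_simp
    _ ≤ 2 * Cs * X ^ ε + Cs / ε * X ^ ε + 1 * X ^ ε := by
      have : 0 ≤ 2 * Cs := by linarith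
      nlinarith [mul_le_mul_of_nonneg_left hXε this]
    _ = _ := by ring

/-- Row hpev-F.  `B = 2 ^ (L + 1) * 3 ^ L * C0 ^ 2` (we may assume `z ≥ 1`, otherwise `P` is empty).
For `(c, r) ∈ S ×ˢ P` the ideal `I c * R r` is invertible of norm `En c * r` (`HN.mul`); `label` gives `e, a, b` (choose functions of `(c, r)`).
`hh e ≤ 2 (En c * r) √|D|` and `|norm e| = |a| (En c * r) ≥ En c * r`, so `hh e ≤ H |norm e|` with `H = 2 √|D| ≥ 1`; `ev_size_class` gives `κ` and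
`κ e ≤ C (1 + log H) ≤ C' (1 + log X) ≤ C'' X^(ε/4)`.  Map `(c, r)` to `((a, b), κ e)`: by `label_count` at most `C X^(ε/4) √|D|` pairs `(a, b)`.
In a fibre: for `(c, r), (c', r')` `beta_of_label` (with `J = span {a, b + √D}`) gives `span {e'} * (I c * R r) = span {e} * (I c' * R r')`, so by
`ev_pair` `r = r'` and the relation up to sign.  So the fibre is `S' × {r}` and `ev_class` bounds `S'` by
`C (g+1)^ω(f) (1 + ..)`, and `(g+1)^ω(f) ≤ C X^(ε/4)` (`omega_pow`, `f ≤ X`).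
`|S| |P| = |S ×ˢ P| ≤ (number of classes) * (maximal fibre)` (`Finset.card_le_mul_card_image`). -/
theorem ev_core (ε : ℝ) (hε : 0 < ε) (L : ℕ) (C0 : ℝ) (hC0 : 1 ≤ C0) : ∃ C B : ℝ, 0 < C ∧ 0 < B ∧
    ∀ (X : ℝ) (D : ℤ) (f g : ℕ) (E θ : ℝ) (ι : Type) (S : Finset ι) (Ω : ι → ℤ√D) (I : ι → Ideal (ℤ√D)) (En : ι → ℕ)
      (W : Ideal (ℤ√D)) (P : Finset ℕ) (R : ℕ → Ideal (ℤ√D)) (z : ℝ),
      g ≤ L → Odd g → LLG C0 X 1 D f g E θ S Ω I En (fun _ => 1) W →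
      (∀ r ∈ P, r.Prime ∧ HN (R r) r ∧ (r : ℝ) ≤ z) → B * z ^ (2 * g) < ((|D| : ℤ) : ℝ) →
      (S.card : ℝ) * P.card ≤ C * X ^ ε * √((|D| : ℤ) : ℝ) * (1 + θ * E / ((f : ℝ) * √((|D| : ℤ) : ℝ))) := by
  classical
  obtain ⟨Cs, hCs, hsize⟩ := ev_size_class
  obtain ⟨CL, hCL, hlc⟩ := label_count (ε / 4) (by linarith)
  obtain ⟨CE, hCE, hcl⟩ := ev_class L C0 hC0
  obtain ⟨CO, hCO, hom⟩ := omega_pow (ε / 4) (by linarith) L
  set CK : ℝ := 2 * Cs + Cs / (ε / 4) + 1 with hCKdef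
  have hCK : 0 < CK := by positivity
  refine ⟨CE * CO * (CL * CK), 2 ^ (L + 1) * 3 ^ L * C0 ^ 2, by positivity, by positivity, ?_⟩
  intro X D f g E θ ι S Ω I En W P R z hgL hgodd hS hP hB
  have hD : ∀ n : ℤ, D ≠ n * n := hS.hD
  have hD0 : D ≠ 0 := fun h => hD 0 (by rw [h]; ring)
  have hd1 : (1 : ℝ) ≤ ((|D| : ℤ) : ℝ) := by exact_mod_cast Int.one_le_abs hD0
  have hdX : ((|D| : ℤ) : ℝ) ≤ X := hS.hDX
  set d : ℝ := ((|D| : ℤ) : ℝ) with hd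
  have hX1 : 1 ≤ X := hS.hX
  have hsd : 1 ≤ √d := by rw [Real.one_le_sqrt]; exact hd1
  obtain ⟨κ, hκ1, hκ2⟩ := hsize D hD
  -- smallness for `g`
  have hsmall : 2 ^ (g + 1) * 3 ^ g * C0 ^ 2 * z ^ (2 * g) < d := by
    refine lt_of_le_of_lt ?_ hB
    have hz0 : 0 ≤ z ^ (2 * g) := (even_two_mul g).pow_nonneg z
    apply mul_le_mul_of_nonneg_right _ hz0
    apply mul_le_mul_of_nonneg_right _ (sq_nonneg C0)
    exact mul_le_mul (pow_le_pow_right₀ (by norm_num) (by omega)) (pow_le_pow_right₀ (by norm_num) hgL)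
      (by positivity) (by positivity)
  -- labels
  have hlab : ∀ p : ι × ℕ, p ∈ S ×ˢ P → ∃ (e : ℤ√D) (a b : ℤ), e ≠ 0 ∧ a ≠ 0 ∧ |b| ≤ |a| ∧ a ∣ b ^ 2 - D ∧
      a ^ 2 ≤ 4 * |D| ∧ e.norm = a * ((En p.1 * p.2 : ℕ) : ℤ) ∧
      Ideal.span {(a : ℤ√D)} * (I p.1 * R p.2) = Ideal.span {e} * Ideal.span {(a : ℤ√D), (⟨b, 1⟩ : ℤ√D)} ∧
      ((hh e : ℤ) : ℝ) ≤ (2 * √d) * ((|e.norm| : ℤ) : ℝ) := by
    intro p hp
    rw [Finset.mem_product] at hp
    obtain ⟨e, a, b, h1, h2, h3, h4, h5, h6, h7, h8, h9⟩ :=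
      label hD (HN.mul (hS.hn p.1 hp.1) (hP p.2 hp.2).2.1)
    exact ⟨e, a, b, h1, h3, h4, h5, h9, h6, h7, evx_F_size h3 h6 h8⟩
  choose! e a b he ha hba hdvd ha2 hnorm hlabel hbal using hlab
  -- the class map
  set Φ : ι × ℕ → (ℤ × ℤ) × ℕ := fun p => ((a p, b p), κ (e p)) with hΦ
  have hκb : ∀ p ∈ S ×ˢ P, ((κ (e p) : ℕ) : ℝ) ≤ Cs * (1 + Real.log (2 * √d)) := by
    intro p hp
    exact hκ1 (e p) (2 * √d) (he p hp) (by linarith) (hbal p hp)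
  set Km : ℕ := ⌊Cs * (1 + Real.log (2 * √d))⌋₊ with hKm
  have hlog0 : 0 ≤ Real.log (2 * √d) := Real.log_nonneg (by linarith)
  have hKm1 : ((Km + 1 : ℕ) : ℝ) ≤ CK * X ^ (ε / 4) := by
    have h1 : (Km : ℝ) ≤ Cs * (1 + Real.log (2 * √d)) := Nat.floor_le (by positivity)
    have h2 := evx_F_log Cs (ε / 4) hCs (by linarith) X d hd1 hdX
    rw [← hCKdef] at h2
    push_cast
    linarith
  set T : Finset (ℤ × ℤ) := (S ×ˢ P).image (fun p => (a p, b p)) with hT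
  have hTc : (T.card : ℝ) ≤ CL * d ^ (ε / 4) * √d := by
    apply hlc D hD
    intro q hq
    rw [hT, Finset.mem_image] at hq
    obtain ⟨p, hp, rfl⟩ := hq
    exact ⟨ha p hp, hba p hp, hdvd p hp, ha2 p hp⟩
  have himg : ((S ×ˢ P).image Φ).card ≤ T.card * (Km + 1) := by
    calc ((S ×ˢ P).image Φ).card ≤ (T ×ˢ Finset.range (Km + 1)).card := by
          apply Finset.card_le_card
          intro y hy
          rw [Finset.mem_image] at hy
          obtain ⟨p, hp, rfl⟩ := hy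
          rw [Finset.mem_product]
          refine ⟨Finset.mem_image_of_mem _ hp, ?_⟩
          rw [Finset.mem_range]
          exact Nat.lt_succ_of_le (Nat.le_floor (hκb p hp))
      _ = T.card * (Km + 1) := by rw [Finset.card_product, Finset.card_range]
  -- the fibres
  set M : ℝ := CE * (((g + 1) ^ f.primeFactors.card : ℕ) : ℝ) * (1 + θ * E / ((f : ℝ) * √d)) with hM
  have hfac1 : ∀ c ∈ S, Ideal.span {Ω c} = W * I c ^ g := by
    intro c hc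
    have := hS.fac c hc
    rw [this]
    simp
  have hpair : ∀ p ∈ S ×ˢ P, ∀ p' ∈ S ×ˢ P, Φ p = Φ p' →
      p.2 = p'.2 ∧ (e p ^ g * Ω p'.1 = e p' ^ g * Ω p.1 ∨ e p ^ g * Ω p'.1 = -(e p' ^ g * Ω p.1)) := by
    intro p hp p' hp' hpp
    have hp1 := Finset.mem_product.mp hp
    have hp1' := Finset.mem_product.mp hp'
    simp only [hΦ, Prod.mk.injEq] at hpp
    obtain ⟨⟨haa, hbb⟩, hkk⟩ := hpp
    have hI := HN.mul (hS.hn p.1 hp1.1) (hP p.2 hp1.2).2.1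
    have hI' := HN.mul (hS.hn p'.1 hp1'.1) (hP p'.2 hp1'.2).2.1
    have hn' : (e p').norm = a p * ((En p'.1 * p'.2 : ℕ) : ℤ) := by rw [haa]; exact hnorm p' hp'
    have hl' : Ideal.span {((a p : ℤ) : ℤ√D)} * (I p'.1 * R p'.2) =
        Ideal.span {e p'} * Ideal.span {((a p : ℤ) : ℤ√D), (⟨b p, 1⟩ : ℤ√D)} := by
      rw [haa, hbb]; exact hlabel p' hp'
    have hβ := (beta_of_label hD hI hI' (ha p hp) (hnorm p hp) hn' (hlabel p hp) hl').1
    exact ev_pair hD hC0 hgodd (hS.nz p.1 hp1.1) (hS.nz p'.1 hp1'.1) (he p hp) (he p' hp')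
      (hP p.2 hp1.2).2.1 (hP p'.2 hp1'.2).2.1 (hP p.2 hp1.2).1 (hP p'.2 hp1'.2).1
      (hP p.2 hp1.2).2.2 (hP p'.2 hp1'.2).2.2 (hfac1 p.1 hp1.1) (hfac1 p'.1 hp1'.1)
      (hS.bal p.1 hp1.1) (hS.bal p'.1 hp1'.1) (hκ2 (e p') (e p) (he p' hp') (he p hp) hkk.symm)
      hsmall hβ
  have hfib : ∀ y ∈ (S ×ˢ P).image Φ, (((S ×ˢ P).filter (fun p => Φ p = y)).card : ℝ) ≤ M := by
    intro y hy
    rw [Finset.mem_image] at hy
    obtain ⟨p0, hp0, hy0⟩ := hy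
    set F : Finset (ι × ℕ) := (S ×ˢ P).filter (fun p => Φ p = y) with hF
    have hFm : ∀ p ∈ F, p ∈ S ×ˢ P ∧ Φ p = Φ p0 := by
      intro p hp
      rw [hF, Finset.mem_filter] at hp
      exact ⟨hp.1, by rw [hp.2, hy0]⟩
    have hF2 : ∀ p ∈ F, p.2 = p0.2 := by
      intro p hp
      exact (hpair p (hFm p hp).1 p0 hp0 (hFm p hp).2).1
    have hcardF : (F.image Prod.fst).card = F.card := by
      apply Finset.card_image_of_injOn
      intro p hp p' hp' hpp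
      exact Prod.ext hpp ((hF2 p hp).trans (hF2 p' hp').symm)
    have hS' : F.image Prod.fst ⊆ S := by
      intro c hc
      rw [Finset.mem_image] at hc
      obtain ⟨p, hp, rfl⟩ := hc
      exact (Finset.mem_product.mp (hFm p hp).1).1
    have hmem : ∀ c ∈ F.image Prod.fst, (c, p0.2) ∈ F := by
      intro c hc
      rw [Finset.mem_image] at hc
      obtain ⟨p, hp, rfl⟩ := hc
      rw [← hF2 p hp]
      exact hp
    have hp0' := Finset.mem_product.mp hp0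
    have hres := hcl X D f g E θ ι (F.image Prod.fst) Ω I En W (R p0.2)
      (Ideal.span {((a p0 : ℤ) : ℤ√D), (⟨b p0, 1⟩ : ℤ√D)}) (fun c => e (c, p0.2)) (a p0) p0.2 hgL hgodd
      (hS.subset hS') (ha p0 hp0) (hP p0.2 hp0'.2).2.1 ?_ ?_
    · rw [← hcardF]
      exact hres
    · intro c hc
      have h1 := hFm _ (hmem c hc)
      have h2 := h1.2
      simp only [hΦ, Prod.mk.injEq] at h2
      obtain ⟨⟨haa, hbb⟩, hkk⟩ := h2
      refine ⟨he _ h1.1, ?_, ?_⟩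
      · rw [← haa]
        exact hnorm _ h1.1
      · rw [← haa, ← hbb]
        exact hlabel _ h1.1
    · intro c hc c' hc'
      have h1 := hFm _ (hmem c hc)
      have h2 := hFm _ (hmem c' hc')
      exact (hpair _ h1.1 _ h2.1 (h1.2.trans h2.2.symm)).2
  have hθE : 0 ≤ θ * E / ((f : ℝ) * √d) := by
    have h1 := hS.hθ.le
    have h2 : 0 ≤ E := by linarith [hS.hE]
    positivity
  have hM0 : 0 ≤ M := by positivity
  have hcount : (S ×ˢ P).card ≤ ⌊M⌋₊ * ((S ×ˢ P).image Φ).card := by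
    apply Finset.card_le_mul_card_image
    intro y hy
    exact Nat.le_floor (hfib y hy)
  have hf1 : (f : ℝ) ≤ X := hS.hfX
  have hf0 : (0 : ℝ) ≤ (f : ℝ) := Nat.cast_nonneg f
  have hMb : M ≤ CE * (CO * X ^ (ε / 4)) * (1 + θ * E / ((f : ℝ) * √d)) := by
    rw [hM]
    apply mul_le_mul_of_nonneg_right _ (by linarith)
    apply mul_le_mul_of_nonneg_left _ hCE.le
    refine (hom f g hS.hf hgL).trans ?_
    apply mul_le_mul_of_nonneg_left _ (by linarith)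
    exact Real.rpow_le_rpow hf0 hf1 (by linarith)
  have hXe : X ^ (ε / 4) * (X ^ (ε / 4) * X ^ (ε / 4)) ≤ X ^ ε := by
    rw [← Real.rpow_add (by linarith), ← Real.rpow_add (by linarith)]
    exact Real.rpow_le_rpow_of_exponent_le hX1 (by linarith)
  have hdε : d ^ (ε / 4) ≤ X ^ (ε / 4) := Real.rpow_le_rpow (by linarith) hdX (by linarith)
  have hXpos : 0 < X ^ (ε / 4) := Real.rpow_pos_of_pos (by linarith) _
  calc (S.card : ℝ) * P.card = (((S ×ˢ P).card : ℕ) : ℝ) := by rw [Finset.card_product]; push_cast; ring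
    _ ≤ ((⌊M⌋₊ * ((S ×ˢ P).image Φ).card : ℕ) : ℝ) := by exact_mod_cast hcount
    _ ≤ ((⌊M⌋₊ * (T.card * (Km + 1)) : ℕ) : ℝ) := by exact_mod_cast Nat.mul_le_mul_left _ himg
    _ = (⌊M⌋₊ : ℝ) * ((T.card : ℝ) * ((Km + 1 : ℕ) : ℝ)) := by push_cast; ring
    _ ≤ M * ((CL * X ^ (ε / 4) * √d) * (CK * X ^ (ε / 4))) := by
        apply mul_le_mul (Nat.floor_le hM0) _ (by positivity) hM0
        apply mul_le_mul (hTc.trans _) hKm1 (by positivity) (by positivity)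
        apply mul_le_mul_of_nonneg_right _ (by linarith)
        exact mul_le_mul_of_nonneg_left hdε hCL.le
    _ ≤ (CE * (CO * X ^ (ε / 4)) * (1 + θ * E / ((f : ℝ) * √d))) *
          ((CL * X ^ (ε / 4) * √d) * (CK * X ^ (ε / 4))) :=
        mul_le_mul_of_nonneg_right hMb (by positivity)
    _ = (CE * CO * (CL * CK)) * (X ^ (ε / 4) * (X ^ (ε / 4) * X ^ (ε / 4))) * √d *
          (1 + θ * E / ((f : ℝ) * √d)) := by ring
    _ ≤ (CE * CO * (CL * CK)) * X ^ ε * √d * (1 + θ * E / ((f : ℝ) * √d)) := by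
        apply mul_le_mul_of_nonneg_right _ (by linarith)
        apply mul_le_mul_of_nonneg_right _ (by linarith)
        exact mul_le_mul_of_nonneg_left hXe (by positivity)

end Hp

end Pool.Agent.Lib.MP_d8bd92_nt
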