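import Pool.Agent.Lib.MP_d8bd92_nt.Hp.EvPairs
import Pool.Agent.Lib.MP_d8bd92_nt.Hp.AlK
import Pool.Agent.Lib.MP_d8bd92_nt.Hp.AlL

set_option autoImplicit false

/-!
MP_d8bd92_nt, block few_ev, file EvG2: sizes for a family of pairs.
-/

namespace Pool.Agent.Lib.MP_d8bd92_nt

namespace Hp

open Finset Pool.Agent.Lib.Szpiro

/-- Row hpev-G2.  `theta_exists` for the set `S.image (fun x => (x, y))` (both sides are comparable) gives `θ`.  With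
`(el D (x, y) f).norm = x` (`el_norm`), `|D| * (el D (x, y) f).im ^ 2 = |D| f ^ 2 = |y|`, `0 < (el D (x, y) f).im = f`,
`0 ≤ (el D (x, y) f).re` (`gg_nonneg`) `BR_pair` gives the first statement.
`E = Wn x1` for `x1 ∈ S` with `Wn x1` minimal (`Finset.exists_min_image`): `v * Wn x ^ g = |x| ≤ 2 |x1| ≤ v * (2 Wn x1) ^ g`, so
`Wn x ≤ 2 Wn x1` (`v ≥ 1` as `x ≠ 0`).  Last: `θ ^ 2 * |x1| ≤ 64 |y|`, `E ^ 2 ≤ E ^ g ≤ |x1|`, `f √|D| = √|y|`, so `θ E ≤ 8 √|y|` (squares). -/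
theorem ev_sizes {D y : ℤ} {f g v : ℕ} {S : Finset ℤ} {Wn : ℤ → ℕ} {Q : Ideal (ℤ√D)}
    (h : EvPairs D y f g v S Wn Q) (hg : 2 ≤ g) (hne : S.Nonempty) :
    ∃ E θ : ℝ, 1 ≤ E ∧ 0 < θ ∧ θ ≤ 1 ∧
      (∀ x ∈ S, ∀ x' ∈ S, BR 1000 θ (el D (x, y) f * star (el D (x', y) f))) ∧
      (∀ x ∈ S, E ≤ (Wn x : ℝ) ∧ (Wn x : ℝ) ≤ 2 * E) ∧ θ * E / ((f : ℝ) * √((|D| : ℤ) : ℝ)) ≤ 8 := by
  classical
  have hD0 : D ≠ 0 := h.hD.ne_zero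
  have hf0 : (0 : ℤ) < (f : ℤ) := by exact_mod_cast h.hf
  have hf0R : (0 : ℝ) < (f : ℝ) := by exact_mod_cast h.hf
  have hy0 : y ≠ 0 := by
    rw [h.hy]
    exact mul_ne_zero (pow_ne_zero _ (ne_of_gt hf0)) hD0
  have hyabs : |D| * (f : ℤ) ^ 2 = (y.natAbs : ℤ) := by
    rw [← Int.abs_eq_natAbs, h.hy, abs_mul, abs_of_nonneg (sq_nonneg (f : ℤ)), mul_comm]
  have hyabsR : ((|D| * (f : ℤ) ^ 2 : ℤ) : ℝ) = (y.natAbs : ℝ) := by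
    rw [hyabs, Int.cast_natCast]
  have hn : ∀ x ∈ S, (el D (x, y) (f : ℤ)).norm = x := fun x hx =>
    el_norm (D := D) (F := (f : ℤ)) (w := (x, y)) (h.sq x hx) h.hy
  have hnR : ∀ x ∈ S, ((|(el D (x, y) (f : ℤ)).norm| : ℤ) : ℝ) = (x.natAbs : ℝ) := by
    intro x hx
    rw [hn x hx, Int.abs_eq_natAbs, Int.cast_natCast]
  have hdyR : ∀ x ∈ S, ∀ x' ∈ S, (x.natAbs : ℝ) ≤ 2 * (x'.natAbs : ℝ) := by
    intro x hx x' hx'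
    exact_mod_cast (h.dy x hx x' hx').1
  obtain ⟨θ, hθ0, hθ1, hθ'⟩ := theta_exists (S.image (fun x => (x, y)))
    (fun w hw => by
      obtain ⟨x, hx, rfl⟩ := Finset.mem_image.1 hw
      exact ⟨h.nz x hx, hy0⟩)
    (fun w hw w' hw' => by
      obtain ⟨x, hx, rfl⟩ := Finset.mem_image.1 hw
      obtain ⟨x', hx', rfl⟩ := Finset.mem_image.1 hw'
      exact ⟨(h.dy x hx x' hx').1, by change y.natAbs ≤ 2 * y.natAbs; omega⟩)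
  have hθ : ∀ x ∈ S, ((θ = 1 ∧ (x.natAbs : ℝ) ≤ 64 * (y.natAbs : ℝ)) ∨
      (4 * (y.natAbs : ℝ) ≤ (x.natAbs : ℝ) ∧ (y.natAbs : ℝ) ≤ 4 * θ ^ 2 * (x.natAbs : ℝ))) ∧
      θ ^ 2 * max (x.natAbs : ℝ) (y.natAbs : ℝ) ≤ 64 * (y.natAbs : ℝ) := fun x hx =>
    hθ' (x, y) (Finset.mem_image_of_mem _ hx)
  obtain ⟨w1, hw1, hmin⟩ := Finset.exists_min_image S Wn hne
  have hA1 : 1 ≤ v := by
    rcases Nat.eq_zero_or_pos v with hv | hv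
    · exfalso
      have h1 := (h.fac w1 hw1).1
      rw [hv, zero_mul] at h1
      exact h.nz w1 hw1 (Int.natAbs_eq_zero.1 h1)
    · exact hv
  have hW1 : 1 ≤ Wn w1 := (h.fac w1 hw1).2.1.pos
  refine ⟨(Wn w1 : ℝ), θ, by exact_mod_cast hW1, hθ0, hθ1, ?_, ?_, ?_⟩
  · intro x hx x' hx'
    refine BR_pair (κ0 := 1000) hD0 (gg_nonneg (x, y)) (gg_nonneg (x', y)) hf0 hf0 ?_ ?_ ?_ ?_ ?_ ?_ ?_ rfl ?_
    · rw [hnR x hx, hnR x' hx']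
      exact hdyR x hx x' hx'
    · rw [hnR x hx, hnR x' hx']
      exact hdyR x' hx' x hx
    · rw [hn x hx, hn x' hx']
      exact (h.dy x hx x' hx').2
    · rw [hn x hx]
      exact h.nz x hx
    · rw [hn x' hx']
      exact h.nz x' hx'
    · change ((f : ℤ) : ℝ) ≤ 2 * ((f : ℤ) : ℝ)
      push_cast
      linarith
    · change ((f : ℤ) : ℝ) ≤ 2 * ((f : ℤ) : ℝ)
      push_cast
      linarith
    · have h1 := (hθ x hx).1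
      rw [hnR x hx]
      change (θ = 1 ∧ (x.natAbs : ℝ) ≤ 64 * ((|D| * (f : ℤ) ^ 2 : ℤ) : ℝ)) ∨
        (4 * ((|D| * (f : ℤ) ^ 2 : ℤ) : ℝ) ≤ (x.natAbs : ℝ) ∧
          ((|D| * (f : ℤ) ^ 2 : ℤ) : ℝ) ≤ 4 * θ ^ 2 * (x.natAbs : ℝ))
      rw [hyabsR]
      exact h1
  · intro w hw
    refine ⟨by exact_mod_cast hmin w hw, ?_⟩
    have h1 := (h.dy w hw w1 hw1).1
    rw [(h.fac w hw).1, (h.fac w1 hw1).1] at h1
    have h2 : v * Wn w ^ g ≤ v * (2 * Wn w1 ^ g) := by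
      calc v * Wn w ^ g ≤ 2 * (v * Wn w1 ^ g) := h1
        _ = v * (2 * Wn w1 ^ g) := by ring
    have h3 : Wn w ^ g ≤ 2 * Wn w1 ^ g := Nat.le_of_mul_le_mul_left h2 hA1
    have h4 : 2 * Wn w1 ^ g ≤ (2 * Wn w1) ^ g := by
      rw [mul_pow]
      apply Nat.mul_le_mul_right
      calc 2 = 2 ^ 1 := rfl
        _ ≤ 2 ^ g := Nat.pow_le_pow_right (by norm_num) (by omega)
    have h5 : Wn w ≤ 2 * Wn w1 := (Nat.pow_le_pow_iff_left (by omega)).mp (le_trans h3 h4)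
    exact_mod_cast h5
  · have hDpos : (0 : ℝ) < ((|D| : ℤ) : ℝ) := by
      exact_mod_cast abs_pos.mpr hD0
    have hs : 0 < √((|D| : ℤ) : ℝ) := Real.sqrt_pos.mpr hDpos
    rw [div_le_iff₀ (mul_pos hf0R hs)]
    have h1 := (hθ w1 hw1).2
    rw [← hyabsR] at h1
    have h2 : Wn w1 ^ 2 ≤ w1.natAbs := by
      rw [(h.fac w1 hw1).1]
      calc Wn w1 ^ 2 ≤ Wn w1 ^ g := Nat.pow_le_pow_right hW1 hg
        _ = 1 * Wn w1 ^ g := (one_mul _).symm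
        _ ≤ v * Wn w1 ^ g := Nat.mul_le_mul_right _ hA1
    have h2R : (Wn w1 : ℝ) ^ 2 ≤ (w1.natAbs : ℝ) := by exact_mod_cast h2
    have h3 : (θ * (Wn w1 : ℝ)) ^ 2 ≤ (8 * ((f : ℝ) * √((|D| : ℤ) : ℝ))) ^ 2 := by
      have e1 : (8 * ((f : ℝ) * √((|D| : ℤ) : ℝ))) ^ 2 = 64 * ((|D| * (f : ℤ) ^ 2 : ℤ) : ℝ) := by
        rw [mul_pow, mul_pow, Real.sq_sqrt hDpos.le, Int.cast_mul, Int.cast_pow, Int.cast_natCast]
        ring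
      rw [e1, mul_pow]
      calc θ ^ 2 * (Wn w1 : ℝ) ^ 2 ≤ θ ^ 2 * (w1.natAbs : ℝ) :=
            mul_le_mul_of_nonneg_left h2R (sq_nonneg _)
        _ ≤ θ ^ 2 * max (w1.natAbs : ℝ) ((|D| * (f : ℤ) ^ 2 : ℤ) : ℝ) :=
            mul_le_mul_of_nonneg_left (le_max_left _ _) (sq_nonneg _)
        _ ≤ 64 * ((|D| * (f : ℤ) ^ 2 : ℤ) : ℝ) := h1
    exact (abs_le_of_sq_le_sq' h3 (by positivity)).2

end Hp

end Pool.Agent.Lib.MP_d8bd92_nt
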