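import Pool.Agent.Lib.MP_d8bd92_nt.Hp.LL0

set_option autoImplicit false

/-!
MP_d8bd92_nt, block LL, file LLG.
-/

namespace Pool.Agent.Lib.MP_d8bd92_nt

namespace Hp

open Finset

/-- data of the general lattice lemma -/
structure LLG (C0 X K : ℝ) (D : ℤ) (f l : ℕ) (E θ : ℝ) {ι : Type} (S : Finset ι) (Ω : ι → ℤ√D)
    (I : ι → Ideal (ℤ√D)) (En s : ι → ℕ) (W : Ideal (ℤ√D)) : Prop where
  hX : 1 ≤ X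
  hD : ∀ n : ℤ, D ≠ n * n
  hDX : ((|D| : ℤ) : ℝ) ≤ X
  hf : 1 ≤ f
  hfX : (f : ℝ) ≤ X
  hl : 1 ≤ l
  hE : 1 ≤ E
  hθ : 0 < θ
  hθ1 : θ ≤ 1
  hK : 1 ≤ K
  im_dvd : ∀ c ∈ S, (f : ℤ) ∣ (Ω c).im
  nz : ∀ c ∈ S, Ω c ≠ 0
  cop : ∀ c ∈ S, IsCoprime (Ω c).norm (f : ℤ)
  s_pos : ∀ c ∈ S, 1 ≤ s c
  hn : ∀ c ∈ S, HN (I c) (En c)
  E_cop : ∀ c ∈ S, IsCoprime (En c : ℤ) (f : ℤ)
  E_lo : ∀ c ∈ S, E ≤ (En c : ℝ)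
  E_hi : ∀ c ∈ S, (En c : ℝ) ≤ C0 * E
  cont : ∀ c ∈ S, Cont (I c) K
  fac : ∀ c ∈ S, Ideal.span {Ω c} = Ideal.span {(s c : ℤ√D)} * W * I c ^ l
  bal : ∀ c ∈ S, ((hh (Ω c) : ℤ) : ℝ) ≤ C0 * ((|(Ω c).norm| : ℤ) : ℝ)
  real : ∀ c ∈ S, (((|D| * (Ω c).im ^ 2 : ℤ)) : ℝ) ≤ C0 * θ ^ 2 * ((|(Ω c).norm| : ℤ) : ℝ)
  inj : ∀ c ∈ S, ∀ c' ∈ S, I c = I c' → c = c'

theorem LLG.subset {C0 X K : ℝ} {D : ℤ} {f l : ℕ} {E θ : ℝ} {ι : Type} {S S' : Finset ι} {Ω : ι → ℤ√D}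
    {I : ι → Ideal (ℤ√D)} {En s : ι → ℕ} {W : Ideal (ℤ√D)} (h : LLG C0 X K D f l E θ S Ω I En s W) (hS : S' ⊆ S) :
    LLG C0 X K D f l E θ S' Ω I En s W where
  hX := h.hX
  hD := h.hD
  hDX := h.hDX
  hf := h.hf
  hfX := h.hfX
  hl := h.hl
  hE := h.hE
  hθ := h.hθ
  hθ1 := h.hθ1
  hK := h.hK
  im_dvd := fun c hc => h.im_dvd c (hS hc)
  nz := fun c hc => h.nz c (hS hc)
  cop := fun c hc => h.cop c (hS hc)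
  s_pos := fun c hc => h.s_pos c (hS hc)
  hn := fun c hc => h.hn c (hS hc)
  E_cop := fun c hc => h.E_cop c (hS hc)
  E_lo := fun c hc => h.E_lo c (hS hc)
  E_hi := fun c hc => h.E_hi c (hS hc)
  cont := fun c hc => h.cont c (hS hc)
  fac := fun c hc => h.fac c (hS hc)
  bal := fun c hc => h.bal c (hS hc)
  real := fun c hc => h.real c (hS hc)
  inj := fun c hc c' hc' => h.inj c (hS hc) c' (hS hc')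

end Hp

end Pool.Agent.Lib.MP_d8bd92_nt
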