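import Pool.Agent.Lib.MP_d8bd92_nt.Hp.EvG1
import Pool.Agent.Lib.MP_d8bd92_nt.Hp.EvG2
import Pool.Agent.Lib.MP_d8bd92_nt.Hp.LLG

set_option autoImplicit false

/-!
MP_d8bd92_nt, block few_ev, file EvG: a family of pairs satisfies the hypotheses of the lattice lemma.
-/

namespace Pool.Agent.Lib.MP_d8bd92_nt

namespace Hp

open Finset Pool.Agent.Lib.Szpiro

/-- Row hpev-G3.  `E, θ` from `ev_sizes`, the other fields from `ev_basic`, `ev_HN`, `ev_inj`, `ev_fac`, `ev_cont`, `nsq_of_sqf`.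
`|D| ≤ |y| ≤ X`, `f ≤ f ^ 2 ≤ |y|` as `|D| ≥ 1`; `Im (el (x, y) * star (el (x0, y))) = f (gg w0 - gg w)`; the norm of the product is `x * x0`
(`Zsqrtd.norm_mul`, `Zsqrtd.norm_conj`); `bal`, `real` are the two parts of `BR`. -/
theorem ev_llg {D y : ℤ} {f g v : ℕ} {S : Finset ℤ} {Wn : ℤ → ℕ} {Q : Ideal (ℤ√D)} {X : ℝ}
    (h : EvPairs D y f g v S Wn Q) (hg : 2 ≤ g) (hX : 1 ≤ X) (hyX : (y.natAbs : ℝ) ≤ X) {x0 : ℤ} (hx0 : x0 ∈ S) :
    ∃ E θ : ℝ, LLG 1000 X 1 D f g E θ S (fun x => el D (x, y) f * star (el D (x0, y) f)) (fun x => lbl (Wn x) (el D (x, y) f)) Wn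
      (fun _ => 1) (Q * Ideal.span {star (el D (x0, y) f)}) ∧ θ * E / ((f : ℝ) * √((|D| : ℤ) : ℝ)) ≤ 8 := by
  obtain ⟨E, θ, hE, hθ, hθ1, hBR, hEW, hlast⟩ := ev_sizes h hg ⟨x0, hx0⟩
  have hg1 : 1 ≤ g := by omega
  have hD0 : D ≠ 0 := h.hD.ne_zero
  have hyabs : (y.natAbs : ℝ) = (f : ℝ) ^ 2 * ((|D| : ℤ) : ℝ) := by
    have h1 : y.natAbs = f ^ 2 * D.natAbs := by
      rw [h.hy, Int.natAbs_mul, Int.natAbs_pow, Int.natAbs_natCast]
    have h2 : ((|D| : ℤ) : ℝ) = (D.natAbs : ℝ) := by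
      rw [Int.abs_eq_natAbs, Int.cast_natCast]
    rw [h1, h2]
    push_cast
    ring
  have hDabs : (1 : ℝ) ≤ ((|D| : ℤ) : ℝ) := by
    exact_mod_cast Int.one_le_abs hD0
  have hf1 : (1 : ℝ) ≤ (f : ℝ) := by exact_mod_cast h.hf
  have hf2 : (f : ℝ) ≤ (f : ℝ) ^ 2 := by nlinarith
  have hnorm : ∀ x ∈ S, (el D (x, y) f * star (el D (x0, y) f)).norm = x * x0 := by
    intro x hx
    rw [Zsqrtd.norm_mul, Zsqrtd.norm_conj, (ev_basic h hg1 hx).1, (ev_basic h hg1 hx0).1]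
  refine ⟨E, θ, ?_, hlast⟩
  refine { hX := hX, hD := nsq_of_sqf h.hD h.hD1, hDX := ?_, hf := h.hf, hfX := ?_, hl := hg1, hE := hE,
           hθ := hθ, hθ1 := hθ1, hK := le_rfl, im_dvd := ?_, nz := ?_, cop := ?_,
           s_pos := fun _ _ => le_rfl, hn := fun x hx => ev_HN h hg1 hx, E_cop := ?_,
           E_lo := fun x hx => (hEW x hx).1, E_hi := ?_, cont := ?_, fac := ?_,
           bal := fun x hx => (hBR x hx x0 hx0).1, real := fun x hx => (hBR x hx x0 hx0).2,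
           inj := fun x hx x' hx' he => ev_inj h hg1 hx hx' he }
  · have h1 : ((|D| : ℤ) : ℝ) ≤ (y.natAbs : ℝ) := by
      rw [hyabs]
      nlinarith
    linarith
  · have h1 : (f : ℝ) ≤ (y.natAbs : ℝ) := by
      rw [hyabs]
      nlinarith
    linarith
  · intro x _
    refine ⟨gg (x0, y) - gg (x, y), ?_⟩
    simp only [el, Zsqrtd.im_mul, Zsqrtd.re_star, Zsqrtd.im_star]
    ring
  · intro x hx h0
    have h1 := hnorm x hx
    rw [h0, Zsqrtd.norm_zero] at h1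
    exact mul_ne_zero (h.nz x hx) (h.nz x0 hx0) h1.symm
  · intro x hx
    rw [hnorm x hx]
    exact IsCoprime.mul_left (ev_basic h hg1 hx).2.2.2.2.2.1 (ev_basic h hg1 hx0).2.2.2.2.2.1
  · intro x hx
    exact (ev_basic h hg1 hx).2.2.2.2.1
  · intro x hx
    have h1 := (hEW x hx).2
    linarith
  · intro x hx
    exact ev_cont _ (ev_basic h hg1 hx).2.2.1 (ev_basic h hg1 hx).2.1
  · intro x hx
    exact ev_fac h hg1 hx (star (el D (x0, y) f))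

end Hp

end Pool.Agent.Lib.MP_d8bd92_nt
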