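import Pool.Agent.Lib.MP_d8bd92_nt.Hp.Defs

set_option autoImplicit false

/-!
Invertible ideals of `ℤ√D`: basic facts.
-/

namespace Pool.Agent.Lib.MP_d8bd92_nt

namespace Hp

open Finset

/-- `I` is invertible of norm `E` -/
def HN {D : ℤ} (I : Ideal (ℤ√D)) (E : ℕ) : Prop := 1 ≤ E ∧ I * cj I = Ideal.span {(E : ℤ√D)}

/-- every integer dividing `I` is at most `K` -/
def Cont {D : ℤ} (I : Ideal (ℤ√D)) (K : ℝ) : Prop :=
  ∀ g : ℕ, I ≤ Ideal.span {(g : ℤ√D)} → (g : ℝ) ≤ K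

theorem nsq_of_sqf {D : ℤ} (hD : Squarefree D) (h1 : D ≠ 1) : ∀ n : ℤ, D ≠ n * n := by
  rintro n rfl
  have h : IsUnit n := hD n (dvd_refl _)
  rcases Int.isUnit_iff.mp h with h | h <;> simp [h] at h1

theorem isDomain_of {D : ℤ} (h : ∀ n : ℤ, D ≠ n * n) : IsDomain (ℤ√D) := by
  have : NoZeroDivisors (ℤ√D) := ⟨by
    intro a b hab
    have := congrArg Zsqrtd.norm hab
    rw [Zsqrtd.norm_mul, Zsqrtd.norm_zero, mul_eq_zero] at this
    rcases this with h1 | h1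
    · left; exact (Zsqrtd.norm_eq_zero h a).mp h1
    · right; exact (Zsqrtd.norm_eq_zero h b).mp h1⟩
  exact NoZeroDivisors.to_isDomain _

variable {D : ℤ}

theorem cj_mul (I J : Ideal (ℤ√D)) : cj (I * J) = cj I * cj J := Ideal.map_mul _ _ _

theorem cj_cj (I : Ideal (ℤ√D)) : cj (cj I) = I := by
  unfold cj
  rw [Ideal.map_map]
  have : (starRingEnd (ℤ√D)).comp (starRingEnd (ℤ√D)) = RingHom.id _ := by
    ext <;> simp
  rw [this, Ideal.map_id]

theorem mem_cj {I : Ideal (ℤ√D)} {z : ℤ√D} : z ∈ cj I ↔ star z ∈ I := by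
  constructor
  · intro h
    have h2 : starRingEnd (ℤ√D) z ∈ cj (cj I) := Ideal.mem_map_of_mem _ h
    rw [cj_cj] at h2
    exact h2
  · intro h
    have h2 : starRingEnd (ℤ√D) (star z) ∈ cj I := Ideal.mem_map_of_mem _ h
    simpa [starRingEnd_apply] using h2

theorem cj_mono {I J : Ideal (ℤ√D)} (h : I ≤ J) : cj I ≤ cj J := Ideal.map_mono h

theorem cj_span_singleton (a : ℤ√D) : cj (Ideal.span {a}) = Ideal.span {star a} := by
  unfold cj; rw [Ideal.map_span]; simp [starRingEnd_apply]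

theorem cj_span_natCast (a : ℕ) : cj (Ideal.span {(a : ℤ√D)}) = Ideal.span {(a : ℤ√D)} := by
  rw [cj_span_singleton]; simp

theorem cj_span_intCast (a : ℤ) : cj (Ideal.span {(a : ℤ√D)}) = Ideal.span {(a : ℤ√D)} := by
  rw [cj_span_singleton]; simp

theorem cj_span_pair (a b : ℤ√D) : cj (Ideal.span {a, b}) = Ideal.span {star a, star b} := by
  unfold cj; rw [Ideal.map_span]; simp [Set.image_pair, starRingEnd_apply]

theorem cj_top : cj (⊤ : Ideal (ℤ√D)) = ⊤ := by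
  unfold cj; exact Ideal.map_top _

theorem cj_pow (I : Ideal (ℤ√D)) (n : ℕ) : cj (I ^ n) = cj I ^ n := by
  unfold cj; exact Ideal.map_pow _ _ _

theorem norm_int (z : ℤ√D) : ((z.norm : ℤ) : ℤ√D) = z * star z := Zsqrtd.norm_eq_mul_conj z

theorem cancel_span [IsDomain (ℤ√D)] {a : ℤ√D} (ha : a ≠ 0) {I J : Ideal (ℤ√D)}
    (h : Ideal.span {a} * I = Ideal.span {a} * J) : I = J :=
  (Ideal.span_singleton_mul_right_inj ha).mp h

theorem HN.ne_zero {I : Ideal (ℤ√D)} {E : ℕ} (h : HN I E) : (E : ℤ√D) ≠ 0 := by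
  have := h.1
  exact_mod_cast (by omega : (E : ℤ) ≠ 0)

theorem HN.cancel [IsDomain (ℤ√D)] {I J J' : Ideal (ℤ√D)} {E : ℕ} (h : HN I E) (hJ : I * J = I * J') : J = J' := by
  apply cancel_span h.ne_zero
  rw [← h.2, mul_comm I, mul_assoc, mul_assoc, hJ]

theorem HN.mul {I J : Ideal (ℤ√D)} {E F : ℕ} (h : HN I E) (h' : HN J F) : HN (I * J) (E * F) := by
  refine ⟨Nat.mul_pos h.1 h'.1, ?_⟩
  rw [cj_mul, mul_mul_mul_comm, h.2, h'.2, Ideal.span_singleton_mul_span_singleton]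
  push_cast; rfl

theorem HN.cj {I : Ideal (ℤ√D)} {E : ℕ} (h : HN I E) : HN (Hp.cj I) E := by
  refine ⟨h.1, ?_⟩
  rw [cj_cj, mul_comm, h.2]

theorem HN_top : HN (⊤ : Ideal (ℤ√D)) 1 := by
  refine ⟨le_refl _, ?_⟩
  rw [cj_top]; simp

theorem HN.pow {I : Ideal (ℤ√D)} {E : ℕ} (h : HN I E) (n : ℕ) : HN (I ^ n) (E ^ n) := by
  induction n with
  | zero => simpa using HN_top
  | succ n ih => rw [pow_succ, pow_succ]; exact ih.mul h

/-- two norms of the same ideal agree -/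
theorem HN.unique {I : Ideal (ℤ√D)} {E F : ℕ} (h : HN I E) (h' : HN I F) : E = F := by
  have h1 : (Ideal.span {(E : ℤ√D)} : Ideal (ℤ√D)) = Ideal.span {(F : ℤ√D)} := by rw [← h.2, h'.2]
  have h2 : ((E : ℤ) : ℤ√D) ∣ ((F : ℤ) : ℤ√D) := by
    have : (F : ℤ√D) ∈ Ideal.span {(E : ℤ√D)} := by rw [h1]; exact Ideal.mem_span_singleton_self _
    have h9 := Ideal.mem_span_singleton.mp this
    rwa [Int.cast_natCast, Int.cast_natCast]
  have h3 : ((F : ℤ) : ℤ√D) ∣ ((E : ℤ) : ℤ√D) := by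
    have : (E : ℤ√D) ∈ Ideal.span {(F : ℤ√D)} := by rw [← h1]; exact Ideal.mem_span_singleton_self _
    have h9 := Ideal.mem_span_singleton.mp this
    rwa [Int.cast_natCast, Int.cast_natCast]
  have h4 := (Zsqrtd.intCast_dvd_intCast _ _).mp h2
  have h5 := (Zsqrtd.intCast_dvd_intCast _ _).mp h3
  exact Nat.dvd_antisymm (Int.natCast_dvd_natCast.mp h4) (Int.natCast_dvd_natCast.mp h5)

/-- elements of `I` have norm divisible by the norm of `I` -/
theorem HN.dvd_norm {I : Ideal (ℤ√D)} {E : ℕ} (h : HN I E) {z w : ℤ√D} (hz : z ∈ I) (hw : w ∈ I) :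
    (E : ℤ√D) ∣ z * star w := by
  rw [← Ideal.mem_span_singleton, ← h.2]
  exact Ideal.mul_mem_mul hz (mem_cj.mpr (by simpa using hw))

end Hp

end Pool.Agent.Lib.MP_d8bd92_nt
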