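import Pool.Agent.Lib.MP_d8bd92_nt.Hp.EvPairs
import Pool.Agent.Lib.MP_d8bd92_nt.Hp.AlE
import Pool.Agent.Lib.MP_d8bd92_nt.Hp.AlN
import Pool.Agent.Lib.MP_d8bd92_nt.Hp.LL0

set_option autoImplicit false

/-!
MP_d8bd92_nt, block few_ev, file EvG1: ideals of a family of pairs.
-/

namespace Pool.Agent.Lib.MP_d8bd92_nt

namespace Hp

open Finset Pool.Agent.Lib.Szpiro

/-- Row hpev-G1a.  If `lbl A z ≤ span {g}` then `z ∈ span {g}`, so `(g : ℤ) ∣ z.im` (`Zsqrtd.intCast_dvd`), and `(A : ℤ√D) ∈ span {g}`, so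
`(g : ℤ) ∣ A ∣ norm z`; `norm z` is prime to `z.im ^ 2 * D`, so `g ∣ 1` (`g` divides both). -/
theorem ev_cont {D : ℤ} (z : ℤ√D) {A : ℕ} (hd : (A : ℤ) ∣ z.norm) (hc : IsCoprime z.norm (z.im ^ 2 * D)) :
    Cont (lbl A z) 1 := by
  intro n hn
  have hA : ((A : ℕ) : ℤ√D) ∈ Ideal.span {(n : ℤ√D)} := hn (Ideal.subset_span (by simp))
  have hz : z ∈ Ideal.span {(n : ℤ√D)} := hn (Ideal.subset_span (by simp))
  have h1 : ((n : ℤ) : ℤ√D) ∣ ((A : ℤ) : ℤ√D) := by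
    have := Ideal.mem_span_singleton.mp hA
    rwa [Int.cast_natCast, Int.cast_natCast]
  have h2 : ((n : ℤ) : ℤ√D) ∣ z := by
    have := Ideal.mem_span_singleton.mp hz
    rwa [Int.cast_natCast]
  have h3 : (n : ℤ) ∣ (A : ℤ) := (Zsqrtd.intCast_dvd_intCast _ _).mp h1
  have h4 : (n : ℤ) ∣ z.im := ((Zsqrtd.intCast_dvd _ _).mp h2).2
  have h5 : IsUnit (n : ℤ) := hc.isUnit_of_dvd' (h3.trans hd)
    (dvd_mul_of_dvd_left (h4.trans (dvd_pow_self _ two_ne_zero)) _)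
  have h6 : n = 1 := by
    have := Int.isUnit_iff_natAbs_eq.mp h5
    simpa using this
  rw [h6]
  norm_num

/-- Row hpev-G1b.  `el_norm`, `el_cop`: the norm of `el D (x, y) f` is `x`, prime to `f ^ 2 * D`; `Wn x` divides it. -/
theorem ev_basic {D y : ℤ} {f g v : ℕ} {S : Finset ℤ} {Wn : ℤ → ℕ} {Q : Ideal (ℤ√D)}
    (h : EvPairs D y f g v S Wn Q) (hg : 1 ≤ g) {x : ℤ} (hx : x ∈ S) :
    (el D (x, y) f).norm = x ∧ IsCoprime (el D (x, y) f).norm ((el D (x, y) f).im ^ 2 * D) ∧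
      ((Wn x : ℕ) : ℤ) ∣ (el D (x, y) f).norm ∧
      1 ≤ Wn x ∧ IsCoprime ((Wn x : ℕ) : ℤ) (f : ℤ) ∧ IsCoprime x (f : ℤ) ∧ el D (x, y) f ≠ 0 := by
  obtain ⟨k1, k2, k3⟩ := h.fac x hx
  have h4 : ∃ k : ℤ, (x, y).1 + (x, y).2 = k ^ 2 := h.sq x hx
  have hF : (x, y).2 = ((f : ℤ)) ^ 2 * D := h.hy
  have h3 : IsCoprime (x, y).1 (x, y).2 := h.cop x hx
  have hn : (el D (x, y) f).norm = x := el_norm (D := D) (F := (f : ℤ)) h4 hF
  have hc := el_cop (D := D) (F := (f : ℤ)) h4 hF h3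
  have hd : ((Wn x : ℕ) : ℤ) ∣ x := by
    rw [Int.natCast_dvd, k1]
    exact Dvd.dvd.mul_left (dvd_pow_self _ (by omega)) _
  have hcf : IsCoprime x (f : ℤ) := by
    have h5 : IsCoprime x (((f : ℤ)) ^ 2 * D) := by rw [← h.hy]; exact h.cop x hx
    exact (IsCoprime.pow_right_iff (by norm_num)).1 (IsCoprime.of_mul_right_left h5)
  refine ⟨hn, hc, by rw [hn]; exact hd, k2.pos, IsCoprime.of_isCoprime_of_dvd_left hcf hd, hcf, ?_⟩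
  intro h0
  apply h.nz x hx
  rw [← hn, h0]
  simp

/-- Row hpev-G1c.  `lbl_mul_cj`. -/
theorem ev_HN {D y : ℤ} {f g v : ℕ} {S : Finset ℤ} {Wn : ℤ → ℕ} {Q : Ideal (ℤ√D)}
    (h : EvPairs D y f g v S Wn Q) (hg : 1 ≤ g) {x : ℤ} (hx : x ∈ S) : HN (lbl (Wn x) (el D (x, y) f)) (Wn x) := by
  obtain ⟨h1, h2, h3, h4, h5, h6, h7⟩ := ev_basic h hg hx
  exact ⟨h4, lbl_mul_cj _ (h.fac x hx).2.1 h3 h2⟩

/-- Row hpev-G1d.  `lbl_inj` gives `Wn x = Wn x'`, so `|x| = |x'|`, same sign, so `x = x'`. -/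
theorem ev_inj {D y : ℤ} {f g v : ℕ} {S : Finset ℤ} {Wn : ℤ → ℕ} {Q : Ideal (ℤ√D)}
    (h : EvPairs D y f g v S Wn Q) (hg : 1 ≤ g) {x x' : ℤ} (hx : x ∈ S) (hx' : x' ∈ S)
    (he : lbl (Wn x) (el D (x, y) f) = lbl (Wn x') (el D (x', y) f)) : x = x' := by
  obtain ⟨h1, h2, h3, h4, h5, h6, h7⟩ := ev_basic h hg hx
  obtain ⟨h1', h2', h3', h4', h5', h6', h7'⟩ := ev_basic h hg hx'
  obtain ⟨e1, -⟩ := lbl_inj _ _ h4 h4' h3 h3' h2 h2' he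
  have k1 := (h.fac x hx).1
  have k1' := (h.fac x' hx').1
  have k2 : x.natAbs = x'.natAbs := by rw [k1, k1', e1]
  have k3 := (h.dy x hx x' hx').2
  have k4 := h.nz x hx
  have k4' := h.nz x' hx'
  rcases Int.natAbs_eq_natAbs_iff.mp k2 with h9 | h9
  · exact h9
  · exfalso
    rcases lt_or_gt_of_ne k4' with h10 | h10
    · have : 0 < x := by omega
      have := k3.mp this
      omega
    · have := k3.mpr h10
      omega

/-- Row hpev-G1e.  `z = el D (x, y) f`: `span {z} = lbl |norm z| z` (`lbl_natAbs_norm`), `|norm z| = v * Wn x ^ g`, `lbl_coprime_mul`, `lbl_pow`. -/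
theorem ev_fac {D y : ℤ} {f g v : ℕ} {S : Finset ℤ} {Wn : ℤ → ℕ} {Q : Ideal (ℤ√D)}
    (h : EvPairs D y f g v S Wn Q) (hg : 1 ≤ g) {x : ℤ} (hx : x ∈ S) (z0 : ℤ√D) :
    Ideal.span {el D (x, y) f * z0} = Ideal.span {((1 : ℕ) : ℤ√D)} * (Q * Ideal.span {z0}) * lbl (Wn x) (el D (x, y) f) ^ g := by
  obtain ⟨h1, h2, h3, h4, h5, h6, h7⟩ := ev_basic h hg hx
  obtain ⟨k1, k2, k3⟩ := h.fac x hx
  have h8 : Ideal.span {el D (x, y) f} = Q * lbl (Wn x) (el D (x, y) f) ^ g := by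
    have hd : ((Wn x ^ g : ℕ) : ℤ) ∣ (el D (x, y) f).norm := by
      rw [h1, Int.natCast_dvd, k1]
      exact Dvd.intro_left _ rfl
    have h9 : lbl (Wn x ^ g) (el D (x, y) f) = lbl (Wn x) (el D (x, y) f) ^ g := lbl_pow _ k2 hd h2
    rw [← lbl_natAbs_norm, h1, k1, lbl_coprime_mul _ (Nat.Coprime.pow_right g k3), h9, h.lab x hx]
  rw [← Ideal.span_singleton_mul_span_singleton, h8]
  have h9 : (Ideal.span {((1 : ℕ) : ℤ√D)} : Ideal (ℤ√D)) = 1 := by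
    rw [Nat.cast_one, Ideal.span_singleton_one, Ideal.one_eq_top]
  rw [h9, one_mul]
  ring

end Hp

end Pool.Agent.Lib.MP_d8bd92_nt
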