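import Pool.Agent.Lib.MP_d8bd92_nt.Hp.EvF
import Pool.Agent.Lib.MP_d8bd92_nt.Hp.EvG

set_option autoImplicit false

/-!
MP_d8bd92_nt, block few_ev, file EvS: the bound for one fixed side.
-/

namespace Pool.Agent.Lib.MP_d8bd92_nt

namespace Hp

open Finset Pool.Agent.Lib.Szpiro

/-- Row hpev-S1.  `jacobiSym D r = 1` for a prime `r ≠ 2`: `D` is a nonzero square modulo `r` (`jacobiSym.legendreSym.to_jacobiSym`,
`legendreSym.eq_one_iff`): `ρ ^ 2 = D` modulo `r`, `R = idl D r ρ`, `idl_mul_cj` (`r` odd, prime to `D`). -/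
theorem ev_prime_ideal {D : ℤ} {r : ℕ} (hr : r.Prime) (hr2 : r ≠ 2) (hj : jacobiSym D r = 1) :
    ∃ R : Ideal (ℤ√D), HN R r := by
  have : Fact r.Prime := ⟨hr⟩
  have hl : legendreSym r D = 1 := by
    rw [jacobiSym.legendreSym.to_jacobiSym]
    exact hj
  have h0 : (D : ZMod r) ≠ 0 := by
    intro h
    rw [(legendreSym.eq_zero_iff r D).mpr h] at hl
    exact zero_ne_one hl
  obtain ⟨c, hc⟩ := (legendreSym.eq_one_iff r h0).mp hl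
  have hdvd : (r : ℤ) ∣ ((c.val : ℕ) : ℤ) ^ 2 - D := by
    rw [← ZMod.intCast_zmod_eq_zero_iff_dvd]
    push_cast
    rw [ZMod.natCast_zmod_val, hc]
    ring
  have hcop : IsCoprime (r : ℤ) D := by
    rw [(Nat.prime_iff_prime_int.mp hr).coprime_iff_not_dvd]
    intro h
    exact h0 ((ZMod.intCast_zmod_eq_zero_iff_dvd D r).mpr h)
  exact ⟨idl D r ((c.val : ℕ) : ℤ), hr.one_lt.le, idl_mul_cj (hr.odd_of_ne_two hr2) hcop hdvd⟩

/-- Row hpev-S2.  `S` empty: trivial.  Fix `x0 ∈ S`; `ev_llg` gives `E, θ` and the data `LLG 1000 ..`; `ev_core` with `L = g`, `C0 = 1000`,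
`R r` from `ev_prime_ideal` gives `|S| |P| ≤ C X ^ ε √|D| (1 + 8)`. -/
theorem ev_pairs_bound (ε : ℝ) (hε : 0 < ε) (g : ℕ) (hg3 : 3 ≤ g) (hodd : Odd g) :
    ∃ C B : ℝ, 0 < C ∧ 0 < B ∧ ∀ (X : ℝ) (D y : ℤ) (f v : ℕ) (S : Finset ℤ) (Wn : ℤ → ℕ) (Q : Ideal (ℤ√D)) (P : Finset ℕ)
      (z : ℝ), 1 ≤ X → EvPairs D y f g v S Wn Q → (y.natAbs : ℝ) ≤ X →
      (∀ r ∈ P, r.Prime ∧ r ≠ 2 ∧ jacobiSym D r = 1 ∧ (r : ℝ) ≤ z) → B * z ^ (2 * g) < ((|D| : ℤ) : ℝ) →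
      (S.card : ℝ) * P.card ≤ C * X ^ ε * √((|D| : ℤ) : ℝ) := by
  obtain ⟨Ce, B, hCe, hB, he⟩ := ev_core ε hε g 1000 (by norm_num)
  refine ⟨Ce * 9, B, by positivity, hB, ?_⟩
  intro X D y f v S Wn Q P z hX hEv hyX hP hBz
  rcases S.eq_empty_or_nonempty with hSe | hSne
  · subst hSe
    have h2 : (0 : ℝ) ≤ √((|D| : ℤ) : ℝ) := Real.sqrt_nonneg _
    simp only [Finset.card_empty, Nat.cast_zero, zero_mul]
    positivity
  obtain ⟨x0, hx0⟩ := hSne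
  obtain ⟨E, θ, hL, hθE⟩ := ev_llg hEv (by omega) hX hyX hx0
  have hRe : ∀ r : ℕ, ∃ R : Ideal (ℤ√D), r ∈ P → HN R r := by
    intro r
    by_cases hr : r ∈ P
    · obtain ⟨R, hR⟩ := ev_prime_ideal (hP r hr).1 (hP r hr).2.1 (hP r hr).2.2.1
      exact ⟨R, fun _ => hR⟩
    · exact ⟨⊤, fun h => absurd h hr⟩
  choose R hR using hRe
  have hcore := he X D f g E θ ℤ S _ _ Wn _ P R z le_rfl hodd hL
    (fun r hr => ⟨(hP r hr).1, hR r hr, (hP r hr).2.2.2⟩) hBz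
  refine hcore.trans ?_
  calc Ce * X ^ ε * √((|D| : ℤ) : ℝ) * (1 + θ * E / ((f : ℝ) * √((|D| : ℤ) : ℝ))) ≤
      Ce * X ^ ε * √((|D| : ℤ) : ℝ) * 9 := by
        apply mul_le_mul_of_nonneg_left _ (by positivity)
        linarith
    _ = Ce * 9 * X ^ ε * √((|D| : ℤ) : ℝ) := by ring

end Hp

end Pool.Agent.Lib.MP_d8bd92_nt
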