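import Pool.Agent.Lib.MP_d8bd92_nt.Hp.Extract
import Pool.Agent.Lib.MP_d8bd92_nt.Hp.BC
import Pool.Agent.Lib.MP_d8bd92_nt.SqE1

set_option autoImplicit false

/-!
Pairs whose second member has an exceptional squarefree part.
-/

namespace Pool.Agent.Lib.MP_d8bd92_nt

namespace Hp

open Finset Pool.Agent.Lib.Szpiro

/-- radical of `f² D` -/
theorem exc_rad (D f : ℤ) (hD : Squarefree D) (hf : f ≠ 0) :
    D.natAbs * SqPart.nrad D.natAbs f.natAbs ≤ rd (f ^ 2 * D).natAbs := by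
  classical
  have hD0 : D.natAbs ≠ 0 := Int.natAbs_ne_zero.mpr hD.ne_zero
  have hf0 : f.natAbs ≠ 0 := Int.natAbs_ne_zero.mpr hf
  have h1 : ∏ p ∈ D.natAbs.primeFactors, p = D.natAbs :=
    Nat.prod_primeFactors_of_squarefree (Int.squarefree_natAbs.mpr hD)
  have hn : (f ^ 2 * D).natAbs = f.natAbs ^ 2 * D.natAbs := by
    rw [Int.natAbs_mul, Int.natAbs_pow]
  have hn0 : f.natAbs ^ 2 * D.natAbs ≠ 0 := mul_ne_zero (pow_ne_zero _ hf0) hD0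
  have hdis : Disjoint D.natAbs.primeFactors (f.natAbs.primeFactors.filter (fun p => ¬ p ∣ D.natAbs)) := by
    rw [Finset.disjoint_left]
    intro p hp hp'
    exact (Finset.mem_filter.mp hp').2 (Nat.dvd_of_mem_primeFactors hp)
  have hsub : D.natAbs.primeFactors ∪ f.natAbs.primeFactors.filter (fun p => ¬ p ∣ D.natAbs) ⊆
      (f.natAbs ^ 2 * D.natAbs).primeFactors := by
    intro p hp
    rw [Finset.mem_union, Finset.mem_filter] at hp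
    rcases hp with hp | ⟨hp, _⟩
    · rw [Nat.mem_primeFactors] at hp ⊢
      exact ⟨hp.1, hp.2.1.trans (Dvd.intro_left _ rfl), hn0⟩
    · rw [Nat.mem_primeFactors] at hp ⊢
      exact ⟨hp.1, (hp.2.1.trans (dvd_pow_self _ two_ne_zero)).trans (Dvd.intro _ rfl), hn0⟩
  calc D.natAbs * SqPart.nrad D.natAbs f.natAbs
      = (∏ p ∈ D.natAbs.primeFactors, p) * ∏ p ∈ f.natAbs.primeFactors.filter (fun p => ¬ p ∣ D.natAbs), p := by
        rw [h1]; rfl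
    _ = ∏ p ∈ D.natAbs.primeFactors ∪ f.natAbs.primeFactors.filter (fun p => ¬ p ∣ D.natAbs), p :=
        (Finset.prod_union hdis).symm
    _ ≤ ∏ p ∈ (f.natAbs ^ 2 * D.natAbs).primeFactors, p :=
        Finset.prod_le_prod_of_subset_of_one_le' hsub (fun p hp _ => (Nat.prime_of_mem_primeFactors hp).one_le)
    _ = rd (f ^ 2 * D).natAbs := by rw [hn]; rfl

/-- number of sides with a given family of squarefree parts -/
theorem exc_count (σ : ℝ) (hσ : 0 < σ) : ∃ C : ℝ, 1 ≤ C ∧ ∀ (Z : ℕ) (X z : ℝ) (𝒟 V : Finset ℤ), 1 ≤ Z → 0 ≤ X → 0 < z →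
    (∀ D ∈ 𝒟, Squarefree D ∧ z ≤ (D.natAbs : ℝ) ∧ D.natAbs ≤ Z) →
    (∀ y ∈ V, y ≠ 0 ∧ y.natAbs ≤ Z ∧ (rd y.natAbs : ℝ) ≤ X ∧ ∃ D ∈ 𝒟, ∃ f : ℤ, y = f ^ 2 * D) →
    (V.card : ℝ) ≤ C * (Z : ℝ) ^ σ * ((𝒟.card : ℝ) * (X / z)) := by
  classical
  obtain ⟨C, hC, hb⟩ := SqPart.card_nrad_le σ hσ
  refine ⟨C, hC, fun Z X z 𝒟 V hZ hX hz h𝒟 hV => ?_⟩
  have hsub : V ⊆ 𝒟.biUnion (fun D => ((Icc 1 Z).filter (fun n => (SqPart.nrad D.natAbs n : ℝ) ≤ X / z)).image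
      (fun n : ℕ => (n : ℤ) ^ 2 * D)) := by
    intro y hy
    obtain ⟨hy0, hyZ, hyX, D, hD, f, rfl⟩ := hV y hy
    obtain ⟨hDs, hDz, hDZ⟩ := h𝒟 D hD
    have hf : f ≠ 0 := by
      rintro rfl
      simp at hy0
    have hD1 : 1 ≤ D.natAbs := Nat.one_le_iff_ne_zero.mpr (Int.natAbs_ne_zero.mpr hDs.ne_zero)
    have hf1 : 1 ≤ f.natAbs := Nat.one_le_iff_ne_zero.mpr (Int.natAbs_ne_zero.mpr hf)
    rw [Finset.mem_biUnion]
    refine ⟨D, hD, ?_⟩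
    rw [Finset.mem_image]
    refine ⟨f.natAbs, ?_, ?_⟩
    · rw [Finset.mem_filter, Finset.mem_Icc]
      refine ⟨⟨hf1, ?_⟩, ?_⟩
      · rw [Int.natAbs_mul, Int.natAbs_pow] at hyZ
        calc f.natAbs ≤ f.natAbs ^ 2 := Nat.le_self_pow (by norm_num) _
          _ ≤ f.natAbs ^ 2 * D.natAbs := Nat.le_mul_of_pos_right _ hD1
          _ ≤ Z := hyZ
      · have h1 : ((D.natAbs * SqPart.nrad D.natAbs f.natAbs : ℕ) : ℝ) ≤ X := by
          refine le_trans ?_ hyX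
          exact_mod_cast exc_rad D f hDs hf
        rw [le_div_iff₀ hz]
        push_cast at h1
        have h2 : (0 : ℝ) ≤ (SqPart.nrad D.natAbs f.natAbs : ℝ) := Nat.cast_nonneg _
        rw [mul_comm]
        exact (mul_le_mul_of_nonneg_right hDz h2).trans h1
    · rw [Int.natAbs_sq]
  calc (V.card : ℝ) ≤ ((𝒟.biUnion (fun D => ((Icc 1 Z).filter (fun n => (SqPart.nrad D.natAbs n : ℝ) ≤ X / z)).image
      (fun n : ℕ => (n : ℤ) ^ 2 * D))).card : ℝ) := by exact_mod_cast Finset.card_le_card hsub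
    _ ≤ ∑ D ∈ 𝒟, (((((Icc 1 Z).filter (fun n => (SqPart.nrad D.natAbs n : ℝ) ≤ X / z)).image
      (fun n : ℕ => (n : ℤ) ^ 2 * D))).card : ℝ) := by exact_mod_cast Finset.card_biUnion_le
    _ ≤ ∑ D ∈ 𝒟, C * (Z : ℝ) ^ σ * (X / z) := by
        apply Finset.sum_le_sum
        intro D hD
        obtain ⟨hDs, hDz, hDZ⟩ := h𝒟 D hD
        have hD1 : 1 ≤ D.natAbs := Nat.one_le_iff_ne_zero.mpr (Int.natAbs_ne_zero.mpr hDs.ne_zero)
        refine le_trans ?_ (hb Z D.natAbs (X / z) hD1 hDZ (by positivity))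
        exact_mod_cast Finset.card_image_le
    _ = C * (Z : ℝ) ^ σ * ((𝒟.card : ℝ) * (X / z)) := by
        rw [Finset.sum_const, nsmul_eq_mul]
        ring

theorem exc_log (σ : ℝ) (hσ : 0 < σ) : ∃ C : ℝ, 1 ≤ C ∧ ∀ Y : ℝ, 1 ≤ Y → ((Nat.log 2 ⌊Y⌋₊ + 1 : ℕ) : ℝ) ≤ C * Y ^ σ := by
  have hl2 : 0 < Real.log 2 := Real.log_pos (by norm_num)
  refine ⟨1 / (σ * Real.log 2) + 1, by
    have : 0 < 1 / (σ * Real.log 2) := by positivity
    linarith, fun Y hY => ?_⟩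
  have hY0 : 0 < Y := by linarith
  set n : ℕ := Nat.log 2 ⌊Y⌋₊ with hn
  have h2 : 2 ^ n ≤ ⌊Y⌋₊ := Nat.pow_log_le_self 2 (by
    have : 1 ≤ ⌊Y⌋₊ := Nat.le_floor (by exact_mod_cast hY)
    omega)
  have h3 : (2 : ℝ) ^ n ≤ Y := by
    calc (2 : ℝ) ^ n = ((2 ^ n : ℕ) : ℝ) := by push_cast; rfl
      _ ≤ ((⌊Y⌋₊ : ℕ) : ℝ) := by exact_mod_cast h2
      _ ≤ Y := Nat.floor_le (by linarith)
  have h4 : (n : ℝ) * Real.log 2 ≤ Real.log Y := by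
    have := Real.log_le_log (by positivity) h3
    rwa [Real.log_pow] at this
  have h5 : Real.log Y ≤ Y ^ σ / σ := Real.log_le_rpow_div hY0.le hσ
  have h6 : (n : ℝ) ≤ 1 / (σ * Real.log 2) * Y ^ σ := by
    have h7 : (n : ℝ) * Real.log 2 ≤ Y ^ σ / σ := h4.trans h5
    have h8 : 1 / (σ * Real.log 2) * Y ^ σ = (Y ^ σ / σ) / Real.log 2 := by
      field_simp
    rw [h8, le_div_iff₀ hl2]
    exact h7
  have h9 : 1 ≤ Y ^ σ := Real.one_le_rpow hY hσ.le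
  push_cast
  calc (n : ℝ) + 1 ≤ 1 / (σ * Real.log 2) * Y ^ σ + Y ^ σ := by linarith
    _ = (1 / (σ * Real.log 2) + 1) * Y ^ σ := by ring

/-- number of sides with an exceptional squarefree part -/
theorem exc_sides (K c C0 : ℝ) (hK : 2 ≤ K) (hC0 : 0 ≤ C0) (Bad : ℝ → ℤ → Prop)
    (h : ∀ Y : ℝ, 1 ≤ Y → ∀ Z : ℝ, 1 ≤ Z → Z ≤ Y → ∀ 𝒟 : Finset ℤ,
      (∀ D ∈ 𝒟, Squarefree D ∧ ((|D| : ℤ) : ℝ) ≤ Z ∧ Bad Y D) → (𝒟.card : ℝ) ≤ C0 * Z * Y ^ (-c)) (κ : ℝ) (hκ : 0 < κ) :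
    ∃ C : ℝ, 0 ≤ C ∧ ∀ (Y : ℝ), 2 ≤ Y ^ (1 / 4 : ℝ) → 1 ≤ Y → ∀ V : Finset ℤ,
      (∀ y ∈ V, y ≠ 0 ∧ (y.natAbs : ℝ) ≤ Y ^ K ∧ (rd y.natAbs : ℝ) ≤ Y ^ (3 / 4 : ℝ) ∧
        ∃ D f : ℤ, Squarefree D ∧ y = f ^ 2 * D ∧ Bad Y D) →
      ∀ X : ℝ, 0 ≤ X → (∀ y ∈ V, (rd y.natAbs : ℝ) ≤ X) →
      (V.card : ℝ) ≤ C * Y ^ (κ - c) * X := by
  classical
  have hK0 : 0 < K := by linarith
  obtain ⟨C1, hC1, hb1⟩ := exc_count (κ / (2 * K)) (by positivity)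
  obtain ⟨C2, hC2, hb2⟩ := exc_log (κ / 2) (by positivity)
  refine ⟨C2 * (C1 * (2 * C0)), by positivity, fun Y hY4 hY V hV X hX hVX => ?_⟩
  have hY0 : 0 < Y := by linarith
  obtain ⟨hZ1, hZ2⟩ := Z_facts K (κ / (2 * K)) Y hK0 (by positivity) hY
  have e : K * (κ / (2 * K)) = κ / 2 := by field_simp
  rw [e] at hZ2
  have hch : ∀ y : ℤ, ∃ D f : ℤ, y ∈ V → Squarefree D ∧ y = f ^ 2 * D ∧ Bad Y D := by
    intro y
    by_cases hy : y ∈ V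
    · obtain ⟨_, _, _, D, f, h1⟩ := hV y hy
      exact ⟨D, f, fun _ => h1⟩
    · exact ⟨0, 0, fun h => absurd h hy⟩
  choose D f hDf using hch
  set N : ℕ := Nat.log 2 ⌊Y⌋₊ with hN
  have hDle : ∀ y ∈ V, (D y).natAbs ≤ rd y.natAbs := by
    intro y hy
    obtain ⟨h1, h2, h3⟩ := hDf y hy
    have hf : f y ≠ 0 := by
      intro h0
      rw [h0] at h2
      simp at h2
      exact (hV y hy).1 h2
    have h4 := exc_rad (D y) (f y) h1 hf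
    rw [← h2] at h4
    have h5 : 1 ≤ SqPart.nrad (D y).natAbs (f y).natAbs := by
      unfold SqPart.nrad
      exact Finset.prod_pos fun p hp => (Nat.prime_of_mem_primeFactors (Finset.mem_filter.mp hp).1).pos
    exact (Nat.le_mul_of_pos_right _ h5).trans h4
  have hDY : ∀ y ∈ V, ((D y).natAbs : ℝ) ≤ Y ^ (3 / 4 : ℝ) := fun y hy =>
    le_trans (by exact_mod_cast hDle y hy) (hV y hy).2.2.1
  have hY34 : Y ^ (3 / 4 : ℝ) * Y ^ (1 / 4 : ℝ) = Y := by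
    rw [← Real.rpow_add hY0]
    norm_num
  have hY34' : Y ^ (3 / 4 : ℝ) ≤ Y := by
    calc Y ^ (3 / 4 : ℝ) ≤ Y ^ (1 : ℝ) := Real.rpow_le_rpow_of_exponent_le hY (by norm_num)
      _ = Y := Real.rpow_one Y
  have hlog : ∀ y ∈ V, Nat.log 2 (D y).natAbs ∈ Finset.range (N + 1) := by
    intro y hy
    rw [Finset.mem_range]
    have : Nat.log 2 (D y).natAbs ≤ N := by
      apply Nat.log_mono_right
      apply Nat.le_floor
      exact (hDY y hy).trans hY34'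
    omega
  have hfib : ∀ n : ℕ, ((V.filter (fun y => Nat.log 2 (D y).natAbs = n)).card : ℝ) ≤
      C1 * Y ^ (κ / 2) * (2 * C0 * Y ^ (-c) * X) := by
    intro n
    rcases Finset.eq_empty_or_nonempty (V.filter (fun y => Nat.log 2 (D y).natAbs = n)) with h0 | ⟨y0, hy0⟩
    · rw [h0, Finset.card_empty, Nat.cast_zero]
      positivity
    · rw [Finset.mem_filter] at hy0
      have hD0 : ∀ y ∈ V, (D y).natAbs ≠ 0 := fun y hy => Int.natAbs_ne_zero.mpr (hDf y hy).1.ne_zero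
      have h2n : (2 : ℝ) ^ n ≤ Y ^ (3 / 4 : ℝ) := by
        refine le_trans ?_ (hDY y0 hy0.1)
        rw [← hy0.2]
        exact_mod_cast Nat.pow_log_le_self 2 (hD0 y0 hy0.1)
      have h2n1 : (2 : ℝ) ^ (n + 1) ≤ Y := by
        calc (2 : ℝ) ^ (n + 1) = 2 ^ n * 2 := pow_succ _ _
          _ ≤ Y ^ (3 / 4 : ℝ) * Y ^ (1 / 4 : ℝ) := by gcongr
          _ = Y := hY34
      set 𝒟 : Finset ℤ := (V.filter (fun y => Nat.log 2 (D y).natAbs = n)).image D with h𝒟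
      have hcard := h Y hY ((2 : ℝ) ^ (n + 1)) (one_le_pow₀ (by norm_num)) h2n1 𝒟 (by
        intro D' hD'
        obtain ⟨y, hy, rfl⟩ := Finset.mem_image.mp hD'
        rw [Finset.mem_filter] at hy
        refine ⟨(hDf y hy.1).1, ?_, (hDf y hy.1).2.2⟩
        have h1 : (D y).natAbs < 2 ^ (Nat.log 2 (D y).natAbs).succ := Nat.lt_pow_succ_log_self (by norm_num) _
        rw [hy.2] at h1
        have h2 : ((|D y| : ℤ) : ℝ) = ((D y).natAbs : ℝ) := by rw [Nat.cast_natAbs]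
        rw [h2]
        have h3 : (((D y).natAbs : ℕ) : ℝ) < ((2 ^ n.succ : ℕ) : ℝ) := by exact_mod_cast h1
        push_cast at h3
        exact h3.le)
      have hV' := hb1 ⌊Y ^ K⌋₊ X ((2 : ℝ) ^ n) 𝒟 (V.filter (fun y => Nat.log 2 (D y).natAbs = n)) hZ1 hX (by positivity) (by
        intro D' hD'
        obtain ⟨y, hy, rfl⟩ := Finset.mem_image.mp hD'
        rw [Finset.mem_filter] at hy
        refine ⟨(hDf y hy.1).1, ?_, ?_⟩
        · have h1 : 2 ^ Nat.log 2 (D y).natAbs ≤ (D y).natAbs := Nat.pow_log_le_self 2 (hD0 y hy.1)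
          rw [hy.2] at h1
          exact_mod_cast h1
        · apply Nat.le_floor
          calc ((D y).natAbs : ℝ) ≤ Y ^ (3 / 4 : ℝ) := hDY y hy.1
            _ ≤ Y ^ K := Real.rpow_le_rpow_of_exponent_le hY (by linarith)) (by
        intro y hy
        have hyV := (Finset.mem_filter.mp hy).1
        obtain ⟨h1, h2, _, _⟩ := hV y hyV
        exact ⟨h1, Nat.le_floor h2, hVX y hyV, D y, Finset.mem_image_of_mem D hy, f y, (hDf y hyV).2.1⟩)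
      have hYc : 0 < Y ^ (-c) := Real.rpow_pos_of_pos hY0 _
      have h2p : (0 : ℝ) < (2 : ℝ) ^ n := by positivity
      have hq0 : 0 < Y ^ (κ / 2) := Real.rpow_pos_of_pos hY0 _
      have hC10 : 0 ≤ C1 := by linarith
      have f1 : C1 * ((⌊Y ^ K⌋₊ : ℕ) : ℝ) ^ (κ / (2 * K)) ≤ C1 * Y ^ (κ / 2) := mul_le_mul_of_nonneg_left hZ2 hC10
      have f0 : 0 ≤ X / 2 ^ n := div_nonneg hX h2p.le
      have f2 : (𝒟.card : ℝ) * (X / 2 ^ n) ≤ (C0 * 2 ^ (n + 1) * Y ^ (-c)) * (X / 2 ^ n) := mul_le_mul_of_nonneg_right hcard f0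
      have f3 : (0 : ℝ) ≤ (𝒟.card : ℝ) * (X / 2 ^ n) := mul_nonneg (Nat.cast_nonneg _) f0
      have f4 : (C0 * 2 ^ (n + 1) * Y ^ (-c)) * (X / 2 ^ n) = 2 * C0 * Y ^ (-c) * X := by
        have e0 : (2 : ℝ) ^ n * ((2 : ℝ) ^ n)⁻¹ = 1 := mul_inv_cancel₀ h2p.ne'
        rw [pow_succ]
        generalize Y ^ (-c) = yc
        generalize (2 : ℝ) ^ n = t at e0 ⊢
        calc (C0 * (t * 2) * yc) * (X / t) = 2 * C0 * yc * X * (t * t⁻¹) := by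
              rw [div_eq_mul_inv]; ring
          _ = _ := by rw [e0, mul_one]
      calc ((V.filter (fun y => Nat.log 2 (D y).natAbs = n)).card : ℝ)
          ≤ C1 * ((⌊Y ^ K⌋₊ : ℕ) : ℝ) ^ (κ / (2 * K)) * ((𝒟.card : ℝ) * (X / 2 ^ n)) := hV'
        _ ≤ C1 * Y ^ (κ / 2) * ((C0 * 2 ^ (n + 1) * Y ^ (-c)) * (X / 2 ^ n)) :=
            mul_le_mul f1 f2 f3 (mul_nonneg hC10 hq0.le)
        _ = C1 * Y ^ (κ / 2) * (2 * C0 * Y ^ (-c) * X) := by rw [f4]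
  have hsum : (V.card : ℝ) = ∑ n ∈ Finset.range (N + 1), ((V.filter (fun y => Nat.log 2 (D y).natAbs = n)).card : ℝ) := by
    exact_mod_cast Finset.card_eq_sum_card_fiberwise (fun y hy => hlog y hy)
  calc (V.card : ℝ) = ∑ n ∈ Finset.range (N + 1), ((V.filter (fun y => Nat.log 2 (D y).natAbs = n)).card : ℝ) := hsum
    _ ≤ ∑ n ∈ Finset.range (N + 1), C1 * Y ^ (κ / 2) * (2 * C0 * Y ^ (-c) * X) := Finset.sum_le_sum fun n _ => hfib n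
    _ = ((N + 1 : ℕ) : ℝ) * (C1 * Y ^ (κ / 2) * (2 * C0 * Y ^ (-c) * X)) := by
        rw [Finset.sum_const, nsmul_eq_mul, Finset.card_range]
    _ ≤ (C2 * Y ^ (κ / 2)) * (C1 * Y ^ (κ / 2) * (2 * C0 * Y ^ (-c) * X)) := by
        have := hb2 Y hY
        gcongr
    _ = C2 * (C1 * (2 * C0)) * (Y ^ (κ / 2) * Y ^ (κ / 2) * Y ^ (-c)) * X := by ring
    _ = C2 * (C1 * (2 * C0)) * Y ^ (κ - c) * X := by
        rw [← Real.rpow_add hY0, ← Real.rpow_add hY0]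
        congr 3
        ring

/-- Pairs whose second member has an exceptional squarefree part are few: balanced pairs. -/
theorem few_exc_bal (K ε0 c C0 κ : ℝ) (hK : 2 ≤ K) (hc : 0 < c) (hC0 : 0 ≤ C0) (hκ : κ ≤ c / 12) (hκ1 : κ ≤ 1 / 4) (Bad : ℝ → ℤ → Prop)
    (h : ∀ Y : ℝ, 1 ≤ Y → ∀ Z : ℝ, 1 ≤ Z → Z ≤ Y → ∀ 𝒟 : Finset ℤ,
      (∀ D ∈ 𝒟, Squarefree D ∧ ((|D| : ℤ) : ℝ) ≤ Z ∧ Bad Y D) → (𝒟.card : ℝ) ≤ C0 * Z * Y ^ (-c)) :
    Few K ε0 (fun Y w => 2 ≤ Y ^ (1 / 4 : ℝ) ∧ (rd w.1.natAbs : ℝ) ≤ Y ^ (1 / 2 + κ) ∧ (rd w.2.natAbs : ℝ) ≤ Y ^ (1 / 2 + κ) ∧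
      ∃ D f : ℤ, Squarefree D ∧ w.2 = f ^ 2 * D ∧ Bad Y D) := by
  classical
  have hK0 : 0 < K := by linarith
  obtain ⟨C1, hC1, hb1⟩ := exc_sides K c C0 hK hC0 Bad h (c / 12) (by positivity)
  obtain ⟨C2, hC2, hb2⟩ := common_bound (c / 12 / K) (by positivity)
  obtain ⟨C3, hC3, hb3⟩ := count_rad (c / 12 / K) (by positivity)
  refine ⟨C1 + C3 * √(C2 * C1) + 1, min (c / 12) (1 / 12), by positivity, lt_min (by positivity) (by norm_num), fun Y hY P hP => ?_⟩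
  have hY0 : 0 < Y := by linarith
  rcases Finset.eq_empty_or_nonempty P with h0 | ⟨w0, hw0⟩
  · rw [h0, Finset.card_empty, Nat.cast_zero]
    positivity
  have hY4 := (hP w0 hw0).2.1
  obtain ⟨hZ1, hZ2⟩ := Z_facts K (c / 12 / K) Y hK0 (by positivity) hY
  have e : K * (c / 12 / K) = c / 12 := by field_simp
  rw [e] at hZ2
  set Z0 : ℕ := ⌊Y ^ K⌋₊ with hZ0
  have hPS : ∀ w ∈ P, PS Z0 w := fun w hw => (PS_of_pairSet K ε0 Y w (hP w hw).1).1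
  have hYe : ∀ a b : ℝ, a ≤ b → Y ^ a ≤ Y ^ b := fun a b hab => Real.rpow_le_rpow_of_exponent_le hY hab
  have hk := kst P (C2 * Y ^ (c / 12)) (by positivity) (by
    intro a a' haa
    rcases Finset.eq_empty_or_nonempty
      ((P.image Prod.snd).filter (fun b => (a, b) ∈ P ∧ (a', b) ∈ P)) with he | ⟨b, hb⟩
    · rw [he, Finset.card_empty, Nat.cast_zero]
      positivity
    · have hb' := (Finset.mem_filter.1 hb).2
      refine (hb2 Z0 a a' _ hZ1 haa (hPS _ hb'.1).b1 (hPS _ hb'.2).b1 ?_).trans ?_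
      · intro y hy
        have hy' := (Finset.mem_filter.1 hy).2
        exact ⟨(hPS _ hy'.1).sq, (hPS _ hy'.2).sq⟩
      · gcongr)
  have hv : ((P.image Prod.snd).card : ℝ) ≤ C1 * Y ^ (c / 12 - c) * Y ^ (1 / 2 + κ) := by
    apply hb1 Y hY4 hY (P.image Prod.snd) _ (Y ^ (1 / 2 + κ)) (by positivity)
    · intro y hy
      obtain ⟨w, hw, rfl⟩ := Finset.mem_image.1 hy
      exact (hP w hw).2.2.2.1
    · intro y hy
      obtain ⟨w, hw, rfl⟩ := Finset.mem_image.1 hy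
      obtain ⟨h1, h2, h3, h4, h5⟩ := hP w hw
      exact ⟨h1.2.1, h1.2.2.2.2.2.2.2, h4.trans (hYe _ _ (by linarith)), h5⟩
  have hu : ((P.image Prod.fst).card : ℝ) ≤ C3 * Y ^ (c / 12) * Y ^ (1 / 2 + κ) := by
    refine (hb3 Z0 (Y ^ (1 / 2 + κ)) (P.image Prod.fst) hZ1 (by positivity) ?_).trans ?_
    · intro a ha
      obtain ⟨w, hw, rfl⟩ := Finset.mem_image.1 ha
      exact ⟨(hPS w hw).n1, (hPS w hw).b1, (hP w hw).2.2.1⟩
    · gcongr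
  set v : ℝ := ((P.image Prod.snd).card : ℝ) with hvdef
  set u : ℝ := ((P.image Prod.fst).card : ℝ) with hudef
  have hv' : v ≤ C1 * Y ^ (1 / 2 - 10 * c / 12) := by
    refine hv.trans ?_
    rw [mul_assoc, ← Real.rpow_add hY0]
    have := hYe (c / 12 - c + (1 / 2 + κ)) (1 / 2 - 10 * c / 12) (by linarith)
    gcongr
  have hu' : u ≤ C3 * Y ^ (1 / 2 + 2 * c / 12) := by
    refine hu.trans ?_
    rw [mul_assoc, ← Real.rpow_add hY0]
    have := hYe (c / 12 + (1 / 2 + κ)) (1 / 2 + 2 * c / 12) (by linarith)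
    gcongr
  have hsq : √(C2 * Y ^ (c / 12) * v) ≤ √(C2 * C1) * Y ^ (1 / 4 - 4 * c / 12) := by
    have e1 : √(C2 * C1) * Y ^ (1 / 4 - 4 * c / 12) = √((C2 * C1) * (Y ^ (1 / 4 - 4 * c / 12)) ^ 2) := by
      rw [Real.sqrt_mul (show (0 : ℝ) ≤ C2 * C1 by positivity) ((Y ^ (1 / 4 - 4 * c / 12)) ^ 2), Real.sqrt_sq (by positivity)]
    rw [e1]
    apply Real.sqrt_le_sqrt
    have e2 : (Y ^ (1 / 4 - 4 * c / 12)) ^ 2 = Y ^ (1 / 2 - 8 * c / 12) := by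
      rw [← Real.rpow_natCast, ← Real.rpow_mul hY0.le]
      congr 1
      push_cast
      ring
    rw [e2]
    calc C2 * Y ^ (c / 12) * v ≤ C2 * Y ^ (c / 12) * (C1 * Y ^ (1 / 2 - 10 * c / 12)) := by gcongr
      _ = C2 * C1 * (Y ^ (c / 12) * Y ^ (1 / 2 - 10 * c / 12)) := by ring
      _ ≤ C2 * C1 * Y ^ (1 / 2 - 8 * c / 12) := by
          rw [← Real.rpow_add hY0]
          have := hYe (c / 12 + (1 / 2 - 10 * c / 12)) (1 / 2 - 8 * c / 12) (by linarith)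
          gcongr
  set m : ℝ := min (c / 12) (1 / 12) with hm
  have hm1 : m ≤ c / 12 := min_le_left _ _
  have hm2 : m ≤ 1 / 12 := min_le_right _ _
  calc (P.card : ℝ) ≤ v + u * √(C2 * Y ^ (c / 12) * v) := hk
    _ ≤ C1 * Y ^ (1 / 2 - 10 * c / 12) + (C3 * Y ^ (1 / 2 + 2 * c / 12)) * (√(C2 * C1) * Y ^ (1 / 4 - 4 * c / 12)) := by
        gcongr
    _ = C1 * Y ^ (1 / 2 - 10 * c / 12) + C3 * √(C2 * C1) * (Y ^ (1 / 2 + 2 * c / 12) * Y ^ (1 / 4 - 4 * c / 12)) := by ring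
    _ ≤ C1 * Y ^ (3 / 4 - m) + C3 * √(C2 * C1) * Y ^ (3 / 4 - m) := by
        rw [← Real.rpow_add hY0]
        have h1 := hYe (1 / 2 - 10 * c / 12) (3 / 4 - m) (by linarith)
        have h2 := hYe (1 / 2 + 2 * c / 12 + (1 / 4 - 4 * c / 12)) (3 / 4 - m) (by linarith)
        gcongr
    _ ≤ (C1 + C3 * √(C2 * C1) + 1) * Y ^ (3 / 4 - m) := by
        have h1 : 0 ≤ Y ^ (3 / 4 - m) := Real.rpow_nonneg hY0.le _
        have h2 : (C1 + C3 * √(C2 * C1) + 1) * Y ^ (3 / 4 - m) =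
            C1 * Y ^ (3 / 4 - m) + C3 * √(C2 * C1) * Y ^ (3 / 4 - m) + Y ^ (3 / 4 - m) := by ring
        rw [h2]
        exact le_add_of_nonneg_right h1

/-- Pairs whose second member has an exceptional squarefree part are few (`few_small` as a hypothesis). -/
theorem few_exc (K ε0 c C0 : ℝ) (hK : 2 ≤ K) (hc : 0 < c) (hC0 : 0 ≤ C0)
    (hsm : ∀ c' : ℝ, 0 < c' → Few K ε0 (fun Y w => (rd w.1.natAbs : ℝ) ≤ Y ^ (1 / 2 - c'))) (Bad : ℝ → ℤ → Prop)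
    (h : ∀ Y : ℝ, 1 ≤ Y → ∀ Z : ℝ, 1 ≤ Z → Z ≤ Y → ∀ 𝒟 : Finset ℤ,
      (∀ D ∈ 𝒟, Squarefree D ∧ ((|D| : ℤ) : ℝ) ≤ Z ∧ Bad Y D) → (𝒟.card : ℝ) ≤ C0 * Z * Y ^ (-c)) :
    Few K ε0 (fun Y w => ∃ D f : ℤ, Squarefree D ∧ w.2 = f ^ 2 * D ∧ Bad Y D) := by
  classical
  set κ : ℝ := min (c / 12) (1 / 4) with hκ
  have hκ0 : 0 < κ := lt_min (by positivity) (by norm_num)
  have h1 := hsm κ hκ0
  have h2 := few_swap K ε0 _ h1
  have h3 := few_exc_bal K ε0 c C0 κ hK hc hC0 (min_le_left _ _) (min_le_right _ _) Bad h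
  obtain ⟨Ca, δa, hCa, hδa, ha⟩ := h1
  obtain ⟨Cb, δb, hCb, hδb, hb⟩ := h2
  obtain ⟨Cd, δd, hCd, hδd, hd⟩ := h3
  -- small `Y`
  set B : ℕ := ⌊(16 : ℝ) ^ K⌋₊ with hB
  set C1 : ℝ := ((Finset.Icc (-(B : ℤ)) B ×ˢ Finset.Icc (-(B : ℤ)) B).card : ℝ) with hC1
  have hC10 : 0 ≤ C1 := by positivity
  set m : ℝ := min (min δa δb) (min δd (1 / 2)) with hm
  have hm0 : 0 < m := lt_min (lt_min hδa hδb) (lt_min hδd (by norm_num))
  have hma : m ≤ δa := (min_le_left _ _).trans (min_le_left _ _)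
  have hmb : m ≤ δb := (min_le_left _ _).trans (min_le_right _ _)
  have hmd : m ≤ δd := (min_le_right _ _).trans (min_le_left _ _)
  have hmh : m ≤ 1 / 2 := (min_le_right _ _).trans (min_le_right _ _)
  refine ⟨Ca + Cb + Cd + C1, m, by positivity, hm0, fun Y hY P hP => ?_⟩
  have hY0 : 0 < Y := by linarith
  have hYe : ∀ a b : ℝ, a ≤ b → Y ^ a ≤ Y ^ b := fun a b hab => Real.rpow_le_rpow_of_exponent_le hY hab
  have hYm : 1 ≤ Y ^ (3 / 4 - m) := Real.one_le_rpow hY (by linarith)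
  by_cases hY4 : 2 ≤ Y ^ (1 / 4 : ℝ)
  · have c1 := ha Y hY (P.filter (fun w => (rd w.1.natAbs : ℝ) ≤ Y ^ (1 / 2 - κ))) (fun w hw => by
      rw [Finset.mem_filter] at hw
      exact ⟨(hP w hw.1).1, hw.2⟩)
    have c2 := hb Y hY (P.filter (fun w => (rd w.2.natAbs : ℝ) ≤ Y ^ (1 / 2 - κ))) (fun w hw => by
      rw [Finset.mem_filter] at hw
      exact ⟨(hP w hw.1).1, hw.2⟩)
    have c3 := hd Y hY (P.filter (fun w => (rd w.1.natAbs : ℝ) ≤ Y ^ (1 / 2 + κ) ∧ (rd w.2.natAbs : ℝ) ≤ Y ^ (1 / 2 + κ)))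
      (fun w hw => by
      rw [Finset.mem_filter] at hw
      exact ⟨(hP w hw.1).1, hY4, hw.2.1, hw.2.2, (hP w hw.1).2⟩)
    have hcov : P ⊆ (P.filter (fun w => (rd w.1.natAbs : ℝ) ≤ Y ^ (1 / 2 - κ))) ∪
        ((P.filter (fun w => (rd w.2.natAbs : ℝ) ≤ Y ^ (1 / 2 - κ))) ∪
        (P.filter (fun w => (rd w.1.natAbs : ℝ) ≤ Y ^ (1 / 2 + κ) ∧ (rd w.2.natAbs : ℝ) ≤ Y ^ (1 / 2 + κ)))) := by
      intro w hw
      rw [Finset.mem_union, Finset.mem_union, Finset.mem_filter, Finset.mem_filter, Finset.mem_filter]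
      by_cases e1 : (rd w.1.natAbs : ℝ) ≤ Y ^ (1 / 2 - κ)
      · exact Or.inl ⟨hw, e1⟩
      by_cases e2 : (rd w.2.natAbs : ℝ) ≤ Y ^ (1 / 2 - κ)
      · exact Or.inr (Or.inl ⟨hw, e2⟩)
      push Not at e1 e2
      have e3 := (hP w hw).1.2.2.2.2.1
      have key : ∀ a b : ℝ, Y ^ (1 / 2 - κ) < a → Y ^ (1 / 2 - κ) < b → a * b ≤ Y → a ≤ Y ^ (1 / 2 + κ) := by
        intro a b ha hb hab
        have hp : 0 < Y ^ (1 / 2 - κ) := Real.rpow_pos_of_pos hY0 _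
        have ha0 : 0 < a := hp.trans ha
        have h9 : a * Y ^ (1 / 2 - κ) ≤ Y := (mul_le_mul_of_nonneg_left hb.le ha0.le).trans hab
        have h10 : Y ^ (1 / 2 + κ) * Y ^ (1 / 2 - κ) = Y := by
          rw [← Real.rpow_add hY0]
          norm_num
        by_contra hcon
        push Not at hcon
        have : Y ^ (1 / 2 + κ) * Y ^ (1 / 2 - κ) < a * Y ^ (1 / 2 - κ) := mul_lt_mul_of_pos_right hcon hp
        linarith
      exact Or.inr (Or.inr ⟨hw, key _ _ e1 e2 e3, key _ _ e2 e1 (by rw [mul_comm]; exact e3)⟩)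
    have hc4 : (P.card : ℝ) ≤ ((P.filter (fun w => (rd w.1.natAbs : ℝ) ≤ Y ^ (1 / 2 - κ))).card : ℝ) +
        (((P.filter (fun w => (rd w.2.natAbs : ℝ) ≤ Y ^ (1 / 2 - κ))).card : ℝ) +
        ((P.filter (fun w => (rd w.1.natAbs : ℝ) ≤ Y ^ (1 / 2 + κ) ∧ (rd w.2.natAbs : ℝ) ≤ Y ^ (1 / 2 + κ))).card : ℝ)) := by
      have := (Finset.card_le_card hcov).trans ((Finset.card_union_le _ _).trans
        (Nat.add_le_add_left (Finset.card_union_le _ _) _))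
      exact_mod_cast this
    calc (P.card : ℝ) ≤ Ca * Y ^ (3 / 4 - δa) + (Cb * Y ^ (3 / 4 - δb) + Cd * Y ^ (3 / 4 - δd)) := by
          refine hc4.trans ?_
          exact add_le_add c1 (add_le_add c2 c3)
      _ ≤ Ca * Y ^ (3 / 4 - m) + (Cb * Y ^ (3 / 4 - m) + Cd * Y ^ (3 / 4 - m)) := by
          have q1 := hYe (3 / 4 - δa) (3 / 4 - m) (by linarith)
          have q2 := hYe (3 / 4 - δb) (3 / 4 - m) (by linarith)
          have q3 := hYe (3 / 4 - δd) (3 / 4 - m) (by linarith)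
          gcongr
      _ ≤ (Ca + Cb + Cd + C1) * Y ^ (3 / 4 - m) := by
          have q4 : 0 ≤ C1 * Y ^ (3 / 4 - m) := mul_nonneg hC10 (zero_le_one.trans hYm)
          have q5 : (Ca + Cb + Cd + C1) * Y ^ (3 / 4 - m) =
              Ca * Y ^ (3 / 4 - m) + (Cb * Y ^ (3 / 4 - m) + Cd * Y ^ (3 / 4 - m)) + C1 * Y ^ (3 / 4 - m) := by ring
          rw [q5]
          exact le_add_of_nonneg_right q4
  · push Not at hY4
    have hY16 : Y ≤ 16 := by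
      by_contra hcon
      push Not at hcon
      have : (16 : ℝ) ^ (1 / 4 : ℝ) ≤ Y ^ (1 / 4 : ℝ) := Real.rpow_le_rpow (by norm_num) hcon.le (by norm_num)
      have e16 : (16 : ℝ) ^ (1 / 4 : ℝ) = 2 := by
        rw [show (16 : ℝ) = 2 ^ (4 : ℝ) by norm_num, ← Real.rpow_mul (by norm_num)]
        norm_num
      linarith
    have hsub : P ⊆ Finset.Icc (-(B : ℤ)) B ×ˢ Finset.Icc (-(B : ℤ)) B := by
      intro w hw
      obtain ⟨_, _, _, _, _, _, h1, h2⟩ := (hP w hw).1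
      have h6 : Y ^ K ≤ (16 : ℝ) ^ K := Real.rpow_le_rpow hY0.le hY16 (by linarith)
      have h7 : w.1.natAbs ≤ B := Nat.le_floor (h1.trans h6)
      have h8 : w.2.natAbs ≤ B := Nat.le_floor (h2.trans h6)
      rw [Finset.mem_product, Finset.mem_Icc, Finset.mem_Icc]
      refine ⟨⟨?_, ?_⟩, ⟨?_, ?_⟩⟩ <;> omega
    have h9 : (P.card : ℝ) ≤ C1 := by
      rw [hC1]
      exact_mod_cast Finset.card_le_card hsub
    calc (P.card : ℝ) ≤ C1 := h9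
      _ ≤ (Ca + Cb + Cd + C1) * 1 := by linarith
      _ ≤ (Ca + Cb + Cd + C1) * Y ^ (3 / 4 - m) := by gcongr

end Hp

end Pool.Agent.Lib.MP_d8bd92_nt
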