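import Pool.Agent.Lib.MP_d8bd92_nt.Hp.Exc
import Pool.Agent.Lib.MP_d8bd92_nt.Hp.PT1
import Pool.Agent.Lib.MP_d8bd92_nt.Hp.LK4

set_option autoImplicit false

/-!
Phase 2: pairs whose fixed side does not satisfy the lattice lemma with a good `T` are few.
-/

namespace Pool.Agent.Lib.MP_d8bd92_nt

namespace Hp

open Finset Pool.Agent.Lib.Szpiro

/-- the fixed side `y` satisfies the lattice lemma with `T = Y ^ τ` for the exponent `l` (constant `C1`, sizes up to `Y ^ Q`) -/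
def TorLe (C1 Q : ℝ) (l : ℕ) (τ Y : ℝ) (y : ℤ) : Prop :=
  ∀ D f : ℤ, Squarefree D → D ≠ 1 → y = f ^ 2 * D → LLT C1 (Y ^ Q) D l (Y ^ τ)

private theorem exc2_mono {C1 X : ℝ} {D : ℤ} {l : ℕ} {T T' : ℝ} (h : LLT C1 X D l T) (hT : T ≤ T') : LLT C1 X D l T' := by
  intro K f E θ ι S Ω I En s W hd
  refine (h K f E θ ι S Ω I En s W hd).trans ?_
  have h1 := hd.hK
  have h2 := hd.hE
  have h3 := hd.hθ
  have h4 := hd.hf
  gcongr

private theorem exc2_gen (ε : ℝ) (hε : 0 < ε) (L : ℕ) (C1 : ℝ) (hC1 : 1 ≤ C1) : ∃ C : ℝ, 0 < C ∧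
    ∀ (X : ℝ) (D : ℤ) (l : ℕ), l ≤ L → LLT C1 X D l (C * X ^ ε * √((|D| : ℤ) : ℝ)) := by
  obtain ⟨C, hC, h⟩ := ll_general ε hε L C1 hC1
  refine ⟨C, hC, ?_⟩
  intro X D l hl K f E θ ι S Ω I En s W hd
  refine (h X K D f l E θ ι S Ω I En s W hl hd).trans (le_of_eq ?_)
  ring

private theorem exc2_large (C c : ℝ) (hc : 0 < c) : ∃ Y0 : ℝ, 1 ≤ Y0 ∧ ∀ Y : ℝ, Y0 ≤ Y → C ≤ Y ^ c := by
  refine ⟨max 1 ((max C 1) ^ (1 / c)), le_max_left _ _, fun Y hY => ?_⟩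
  have h1 : (max C 1) ^ (1 / c) ≤ Y := (le_max_right _ _).trans hY
  have h2 : 0 ≤ max C 1 := le_trans zero_le_one (le_max_right _ _)
  calc C ≤ max C 1 := le_max_left _ _
    _ = ((max C 1) ^ (1 / c)) ^ c := by
        rw [← Real.rpow_mul h2, one_div, inv_mul_cancel₀ hc.ne', Real.rpow_one]
    _ ≤ Y ^ c := Real.rpow_le_rpow (by positivity) h1 hc.le

private theorem exc2_or (K ε0 : ℝ) (Q Q' : ℝ → ℤ × ℤ → Prop) (hQ : Few K ε0 Q) (hQ' : Few K ε0 Q')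
    (R : ℝ → ℤ × ℤ → Prop) (hR : ∀ Y w, w ∈ PairSet K ε0 Y → 1 ≤ Y → R Y w → Q Y w ∨ Q' Y w) : Few K ε0 R := by
  classical
  obtain ⟨C, δ, hC, hδ, hb⟩ := hQ
  obtain ⟨C', δ', hC', hδ', hb'⟩ := hQ'
  refine ⟨C + C', min δ δ', by positivity, lt_min hδ hδ', fun Y hY P hP => ?_⟩
  have h1 := hb Y hY (P.filter (fun w => Q Y w)) (fun w hw => by
    rw [Finset.mem_filter] at hw; exact ⟨(hP w hw.1).1, hw.2⟩)
  have h2 := hb' Y hY (P.filter (fun w => ¬ Q Y w)) (fun w hw => by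
    rw [Finset.mem_filter] at hw
    refine ⟨(hP w hw.1).1, ?_⟩
    rcases hR Y w (hP w hw.1).1 hY (hP w hw.1).2 with h | h
    · exact absurd h hw.2
    · exact h)
  have h3 : P.card = (P.filter (fun w => Q Y w)).card + (P.filter (fun w => ¬ Q Y w)).card :=
    (Finset.card_filter_add_card_filter_not _).symm
  have h4 : Y ^ (3 / 4 - δ) ≤ Y ^ (3 / 4 - min δ δ') :=
    Real.rpow_le_rpow_of_exponent_le hY (by linarith [min_le_left δ δ'])
  have h5 : Y ^ (3 / 4 - δ') ≤ Y ^ (3 / 4 - min δ δ') :=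
    Real.rpow_le_rpow_of_exponent_le hY (by linarith [min_le_right δ δ'])
  rw [h3]
  push_cast
  calc _ ≤ C * Y ^ (3 / 4 - δ) + C' * Y ^ (3 / 4 - δ') := add_le_add h1 h2
    _ ≤ C * Y ^ (3 / 4 - min δ δ') + C' * Y ^ (3 / 4 - min δ δ') := by gcongr
    _ = _ := by ring

/-- the squarefree part is at most the radical -/
theorem exc_sf_le_rd (D f : ℤ) (hD : Squarefree D) (hf : f ≠ 0) : ((|D| : ℤ) : ℝ) ≤ (rd (f ^ 2 * D).natAbs : ℝ) := by
  have h4 := exc_rad D f hD hf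
  have h5 : 1 ≤ SqPart.nrad D.natAbs f.natAbs := by
    unfold SqPart.nrad
    exact Finset.prod_pos fun p hp => (Nat.prime_of_mem_primeFactors (Finset.mem_filter.mp hp).1).pos
  have h6 : D.natAbs ≤ rd (f ^ 2 * D).natAbs := (Nat.le_mul_of_pos_right _ h5).trans h4
  have h7 : ((|D| : ℤ) : ℝ) = (D.natAbs : ℝ) := by rw [Nat.cast_natAbs]
  rw [h7]
  exact_mod_cast h6

/-- few pairs whose fixed side fails the lattice lemma with `T = Y ^ (τ + κ)` -/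
theorem few_tor_of (K ε0 C1 Q τ κ : ℝ) (l : ℕ) (hK : 2 ≤ K) (hC1 : 1 ≤ C1) (hQ : 1 ≤ Q) (hτ : 0 ≤ τ) (hκ : 0 < κ)
    (hsm : ∀ c' : ℝ, 0 < c' → Few K ε0 (fun Y w => (rd w.1.natAbs : ℝ) ≤ Y ^ (1 / 2 - c')))
    (hT : ∀ ε κ' : ℝ, 0 < ε → 0 < κ' → ∃ C c : ℝ, 0 < C ∧ 0 < c ∧
      ∀ Z : ℝ, 1 ≤ Z → ∃ Exc : Finset ℤ, (Exc.card : ℝ) ≤ C * Z ^ (1 - c) ∧
        ∀ (D : ℤ) (X : ℝ), Squarefree D → D ≠ 1 → ((|D| : ℤ) : ℝ) ≤ Z → D ∉ Exc →
          1 ≤ X → LLT C1 X D l (C * X ^ ε * Z ^ (2 * τ + κ'))) :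
    Few K ε0 (fun Y w => ¬ TorLe C1 Q l (τ + κ) Y w.2) := by
  classical
  set κ1 : ℝ := min κ 1 with hκ1
  have hκ10 : 0 < κ1 := lt_min hκ one_pos
  have hκ1κ : κ1 ≤ κ := min_le_left _ _
  have hκ11 : κ1 ≤ 1 := min_le_right _ _
  set ε : ℝ := κ1 / (8 * Q) with hε
  have hε0 : 0 < ε := by positivity
  have hQε : Q * ε = κ1 / 8 := by
    rw [hε]
    field_simp
  -- `κ''`
  set k2 : ℝ := κ1 / (16 * (1 + τ)) with hk2
  have hk20 : 0 < k2 := by positivity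
  have hk2τ : k2 * (2 * τ + κ1 / 4) ≤ κ1 / 8 := by
    rw [hk2, div_mul_eq_mul_div, div_le_div_iff₀ (by positivity) (by norm_num)]
    nlinarith
  have hk2h : k2 ≤ 1 / 2 := by
    rw [hk2, div_le_div_iff₀ (by positivity) (by norm_num)]
    nlinarith
  obtain ⟨C, c, hC, hc, hT⟩ := hT ε (κ1 / 4) hε0 (by positivity)
  obtain ⟨Cg, hCg, hgen⟩ := exc2_gen ε hε0 l C1 hC1
  obtain ⟨Y1, hY1, hc1⟩ := exc2_large (max C Cg) (κ1 / 8) (by positivity)
  obtain ⟨s, hs⟩ : ∃ s : ℝ, s = κ1 / 4 := ⟨_, rfl⟩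
  have hs0 : 0 < s := by rw [hs]; positivity
  obtain ⟨c0, hc0⟩ : ∃ c0 : ℝ, c0 = c * s := ⟨_, rfl⟩
  have hc00 : 0 < c0 := by rw [hc0]; positivity
  set Bad : ℝ → ℤ → Prop := fun Y D => ((|D| : ℤ) : ℝ) ≤ Y ^ (1 / 2 + k2) ∧ D ≠ 1 ∧ ¬ LLT C1 (Y ^ Q) D l (Y ^ (τ + κ)) with hBad
  have hexc := few_exc K ε0 c0 (C + 3 * Y1 ^ c0) hK hc00 (by positivity) hsm Bad (by
    intro Y hY Z hZ hZY 𝒟 h𝒟
    have hY0 : 0 < Y := by linarith
    have hYe : ∀ a b : ℝ, a ≤ b → Y ^ a ≤ Y ^ b := fun a b hab => Real.rpow_le_rpow_of_exponent_le hY hab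
    have hYc0 : 0 < Y ^ (-c0) := Real.rpow_pos_of_pos hY0 _
    by_cases hYY : Y1 ≤ Y
    · have hCY := hc1 Y hYY
      have hX1 : 1 ≤ Y ^ Q := Real.one_le_rpow hY (by linarith)
      have hXε : (Y ^ Q) ^ ε = Y ^ (κ1 / 8) := by
        rw [← Real.rpow_mul hY0.le, hQε]
      set Z' : ℝ := min Z (Y ^ (1 / 2 + k2)) with hZ'
      have hZ'1 : 1 ≤ Z' := le_min hZ (Real.one_le_rpow hY (by linarith))
      have hZ'0 : 0 < Z' := by linarith
      have hZ'Z : Z' ≤ Z := min_le_left _ _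
      by_cases hsm : Y ^ s ≤ Z'
      · obtain ⟨Exc, hE1, hE2⟩ := hT Z' hZ'1
        have hsub : 𝒟 ⊆ Exc := by
          intro D hD
          obtain ⟨h1, h2, h3, h4, h5⟩ := h𝒟 D hD
          by_contra hDE
          apply h5
          have h6 : ((|D| : ℤ) : ℝ) ≤ Z' := le_min h2 h3
          refine exc2_mono (hE2 D (Y ^ Q) h1 h4 h6 hDE hX1) ?_
          rw [hXε]
          have h7 : Z' ^ (2 * τ + κ1 / 4) ≤ Y ^ (τ + κ1 / 8 + κ1 / 8) := by
            calc Z' ^ (2 * τ + κ1 / 4) ≤ (Y ^ (1 / 2 + k2)) ^ (2 * τ + κ1 / 4) :=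
                  Real.rpow_le_rpow hZ'0.le (min_le_right _ _) (by positivity)
              _ = Y ^ ((1 / 2 + k2) * (2 * τ + κ1 / 4)) := by rw [← Real.rpow_mul hY0.le]
              _ ≤ Y ^ (τ + κ1 / 8 + κ1 / 8) := hYe _ _ (by
                  have e5 : (1 / 2 + k2) * (2 * τ + κ1 / 4) = τ + κ1 / 8 + k2 * (2 * τ + κ1 / 4) := by ring
                  rw [e5]
                  linarith)
          calc C * Y ^ (κ1 / 8) * Z' ^ (2 * τ + κ1 / 4) ≤ Y ^ (κ1 / 8) * Y ^ (κ1 / 8) * Y ^ (τ + κ1 / 8 + κ1 / 8) := by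
                have := (le_max_left C Cg).trans hCY
                gcongr
            _ = Y ^ (τ + κ1 / 2) := by
                rw [← Real.rpow_add hY0, ← Real.rpow_add hY0]
                congr 1
                ring
            _ ≤ Y ^ (τ + κ) := hYe _ _ (by linarith)
        have h8 : Z' ^ (1 - c) ≤ Z * Y ^ (-c0) := by
          rw [show 1 - c = 1 + -c by ring, Real.rpow_add hZ'0, Real.rpow_one]
          have h9 : Z' ^ (-c) ≤ Y ^ (-c0) := by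
            rw [hc0, show -(c * s) = s * -c by ring, Real.rpow_mul hY0.le]
            exact Real.rpow_le_rpow_of_nonpos (by positivity) hsm (by linarith)
          gcongr
        calc (𝒟.card : ℝ) ≤ (Exc.card : ℝ) := by exact_mod_cast Finset.card_le_card hsub
          _ ≤ C * Z' ^ (1 - c) := hE1
          _ ≤ C * (Z * Y ^ (-c0)) := by gcongr
          _ ≤ (C + 3 * Y1 ^ c0) * Z * Y ^ (-c0) := by
              have : 0 ≤ 3 * Y1 ^ c0 * (Z * Y ^ (-c0)) := by positivity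
              linarith
      · -- no bad discriminants
        push Not at hsm
        have hemp : 𝒟 = ∅ := by
          rw [Finset.eq_empty_iff_forall_notMem]
          intro D hD
          obtain ⟨h1, h2, h3, h4, h5⟩ := h𝒟 D hD
          apply h5
          have h6 : ((|D| : ℤ) : ℝ) ≤ Y ^ s := (le_min h2 h3).trans hsm.le
          refine exc2_mono (hgen (Y ^ Q) D l le_rfl) ?_
          rw [hXε]
          have h7 : √((|D| : ℤ) : ℝ) ≤ Y ^ (s / 2) := by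
            rw [Real.sqrt_le_left (by positivity), ← Real.rpow_natCast, ← Real.rpow_mul hY0.le]
            refine h6.trans (hYe _ _ ?_)
            push_cast
            linarith
          calc Cg * Y ^ (κ1 / 8) * √((|D| : ℤ) : ℝ) ≤ Y ^ (κ1 / 8) * Y ^ (κ1 / 8) * Y ^ (s / 2) := by
                have := (le_max_right C Cg).trans hCY
                gcongr
            _ = Y ^ (κ1 / 8 + κ1 / 8 + s / 2) := by
                rw [← Real.rpow_add hY0, ← Real.rpow_add hY0]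
            _ ≤ Y ^ (τ + κ) := hYe _ _ (by rw [hs]; linarith)
        rw [hemp, Finset.card_empty, Nat.cast_zero]
        positivity
    · push Not at hYY
      have h1 : 𝒟 ⊆ Finset.Icc (-⌊Z⌋) ⌊Z⌋ := by
        intro D hD
        rw [Finset.mem_Icc]
        have h2 : |D| ≤ ⌊Z⌋ := Int.le_floor.mpr (h𝒟 D hD).2.1
        exact abs_le.mp h2
      have h2 : ((Finset.Icc (-⌊Z⌋) ⌊Z⌋).card : ℝ) ≤ 3 * Z := by
        rw [Int.card_Icc]
        have h3 : 1 ≤ ⌊Z⌋ := Int.le_floor.mpr (by exact_mod_cast hZ)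
        have h4 : ((⌊Z⌋ + 1 - -⌊Z⌋).toNat : ℤ) = ⌊Z⌋ + 1 - -⌊Z⌋ := Int.toNat_of_nonneg (by omega)
        have h5 : (((⌊Z⌋ + 1 - -⌊Z⌋).toNat : ℕ) : ℝ) = ((⌊Z⌋ + 1 - -⌊Z⌋ : ℤ) : ℝ) := by exact_mod_cast h4
        rw [h5]
        push_cast
        have h6 : ((⌊Z⌋ : ℤ) : ℝ) ≤ Z := Int.floor_le Z
        linarith
      have h3 : 1 ≤ Y1 ^ c0 * Y ^ (-c0) := by
        rw [Real.rpow_neg hY0.le, ← div_eq_mul_inv, one_le_div (Real.rpow_pos_of_pos hY0 _)]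
        exact Real.rpow_le_rpow hY0.le hYY.le hc00.le
      calc (𝒟.card : ℝ) ≤ ((Finset.Icc (-⌊Z⌋) ⌊Z⌋).card : ℝ) := by exact_mod_cast Finset.card_le_card h1
        _ ≤ 3 * Z := h2
        _ ≤ 3 * Z * (Y1 ^ c0 * Y ^ (-c0)) := le_mul_of_one_le_right (by linarith) h3
        _ = (3 * Y1 ^ c0) * Z * Y ^ (-c0) := by ring
        _ ≤ (C + 3 * Y1 ^ c0) * Z * Y ^ (-c0) := by
            have : 0 ≤ C * (Z * Y ^ (-c0)) := by positivity
            linarith)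
  apply exc2_or K ε0 _ _ hexc (hsm k2 hk20)
  intro Y w hw hY hnot
  simp only [TorLe] at hnot
  push Not at hnot
  obtain ⟨D, f, h1, h2, h3, h4⟩ := hnot
  by_cases h5 : ((|D| : ℤ) : ℝ) ≤ Y ^ (1 / 2 + k2)
  · exact Or.inl ⟨D, f, h1, h3, h5, h2, h4⟩
  · right
    push Not at h5
    have hf : f ≠ 0 := by
      rintro rfl
      have := hw.2.1
      rw [h3] at this
      simp at this
    have h6 := exc_sf_le_rd D f h1 hf
    rw [← h3] at h6
    have h7 := hw.2.2.2.2.1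
    have hY0 : 0 < Y := by linarith
    have h8 : 0 < Y ^ (1 / 2 + k2) := by positivity
    have h9 : Y ^ (1 / 2 - k2) * Y ^ (1 / 2 + k2) = Y := by
      rw [← Real.rpow_add hY0]
      norm_num
    by_contra h10
    push Not at h10
    have h11 : Y ^ (1 / 2 + k2) < (rd w.2.natAbs : ℝ) := lt_of_lt_of_le h5 h6
    have h12 : Y ^ (1 / 2 - k2) * Y ^ (1 / 2 + k2) < (rd w.1.natAbs : ℝ) * (rd w.2.natAbs : ℝ) :=
      mul_lt_mul'' h10 h11 (by positivity) h8.le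
    linarith

end Hp

end Pool.Agent.Lib.MP_d8bd92_nt
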