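import Pool.Agent.Lib.MP_d8bd92_nt.Hp.Exc2

set_option autoImplicit false

/-!
Phase 2: the blocks `few_tor`, `few_tor5`, `few_square2`, `extraction2`, `critical2`, from `few_small2`, `llt_good`, `llt_five`.
-/

namespace Pool.Agent.Lib.MP_d8bd92_nt

namespace Hp

open Finset Pool.Agent.Lib.Szpiro

/-- from the statement of `llt_good` -/
theorem few_tor_fin (K ε0 C1 Q κ : ℝ) (hK : 2 ≤ K) (hC1 : 1 ≤ C1) (hQ : 1 ≤ Q) (hκ : 0 < κ) (l : ℕ)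
    (hl : l ∈ ({1, 2, 3, 4, 6} : Finset ℕ))
    (hsm : ∀ c' : ℝ, 0 < c' → Few K ε0 (fun Y w => (rd w.1.natAbs : ℝ) ≤ Y ^ (1 / 2 - c')))
    (hgood : ∀ ε κ C1 : ℝ, 0 < ε → 0 < κ → 1 ≤ C1 → ∃ C c : ℝ, 0 < C ∧ 0 < c ∧
      ∀ Z : ℝ, 1 ≤ Z → ∃ Exc : Finset ℤ, (Exc.card : ℝ) ≤ C * Z ^ (1 - c) ∧
        ∀ (D : ℤ) (X : ℝ) (l : ℕ), l ∈ ({1, 2, 3, 4, 6} : Finset ℕ) → Squarefree D → D ≠ 1 → ((|D| : ℤ) : ℝ) ≤ Z → D ∉ Exc →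
          1 ≤ X → LLT C1 X D l (C * X ^ ε * Z ^ κ)) :
    Few K ε0 (fun Y w => ¬ TorLe C1 Q l κ Y w.2) := by
  have h := few_tor_of K ε0 C1 Q 0 κ l hK hC1 hQ le_rfl hκ hsm (by
    intro ε κ' hε hκ'
    obtain ⟨C, c, hC, hc, hb⟩ := hgood ε κ' C1 hε hκ' hC1
    refine ⟨C, c, hC, hc, fun Z hZ => ?_⟩
    obtain ⟨Exc, h1, h2⟩ := hb Z hZ
    refine ⟨Exc, h1, fun D X h3 h4 h5 h6 h7 => ?_⟩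
    have h8 := h2 D X l hl h3 h4 h5 h6 h7
    rwa [show 2 * (0 : ℝ) + κ' = κ' by ring])
  rwa [zero_add] at h

/-- from the statement of `llt_five` -/
theorem few_tor5_fin (K ε0 C1 Q κ : ℝ) (hK : 2 ≤ K) (hC1 : 1 ≤ C1) (hQ : 1 ≤ Q) (hκ : 0 < κ)
    (hsm : ∀ c' : ℝ, 0 < c' → Few K ε0 (fun Y w => (rd w.1.natAbs : ℝ) ≤ Y ^ (1 / 2 - c')))
    (hfive : ∀ ε κ C1 : ℝ, 0 < ε → 0 < κ → 1 ≤ C1 → ∃ C c : ℝ, 0 < C ∧ 0 < c ∧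
      ∀ Z : ℝ, 1 ≤ Z → ∃ Exc : Finset ℤ, (Exc.card : ℝ) ≤ C * Z ^ (1 - c) ∧
        ∀ (D : ℤ) (X : ℝ), Squarefree D → D ≠ 1 → ((|D| : ℤ) : ℝ) ≤ Z → D ∉ Exc →
          1 ≤ X → LLT C1 X D 5 (C * X ^ ε * Z ^ (1 / 4 + κ))) :
    Few K ε0 (fun Y w => ¬ TorLe C1 Q 5 (1 / 8 + κ) Y w.2) := by
  exact few_tor_of K ε0 C1 Q (1 / 8) κ 5 hK hC1 hQ (by norm_num) hκ hsm (by
    intro ε κ' hε hκ'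
    obtain ⟨C, c, hC, hc, hb⟩ := hfive ε κ' C1 hε hκ' hC1
    refine ⟨C, c, hC, hc, fun Z hZ => ?_⟩
    obtain ⟨Exc, h1, h2⟩ := hb Z hZ
    refine ⟨Exc, h1, fun D X h3 h4 h5 h6 h7 => ?_⟩
    have h8 := h2 D X h3 h4 h5 h6 h7
    rwa [show 2 * (1 / 8 : ℝ) + κ' = 1 / 4 + κ' by ring])

theorem few_square2 (K ε0 : ℝ) (hK : 2 ≤ K) (_he0 : -(3 / 2) < ε0) : Few K ε0 (fun _ w => IsSquare w.1) :=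
  few_square_g K ε0 hK

theorem extraction2_fin (K ε0 κ : ℝ) (hK : 2 ≤ K) (hκ : 0 < κ)
    (hsm : ∀ c' : ℝ, 0 < c' → Few K ε0 (fun Y w => (rd w.1.natAbs : ℝ) ≤ Y ^ (1 / 2 - c'))) : ∃ C δ : ℝ, 0 < C ∧ 0 < δ ∧
    ∀ Y : ℝ, 1 ≤ Y → ∀ P : Finset (ℤ × ℤ), (∀ w ∈ P, w ∈ PairSet K ε0 Y) → C * Y ^ (3 / 4 - δ) < (P.card : ℝ) →
      ∃ P' ⊆ P, Good K ε0 κ Y P' ∧ Y ^ (3 / 4 - κ) ≤ (P'.card : ℝ) :=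
  extraction_of K ε0 κ hK hκ hsm

open scoped Classical in
theorem critical2 (K ε0 κ : ℝ) (hK : 2 ≤ K) (_he0 : -(3 / 2) < ε0) (hκ : 0 < κ) (hκ1 : κ ≤ 1 / 100) : ∃ Y0 : ℝ, 1 ≤ Y0 ∧
    ∀ Y : ℝ, Y0 ≤ Y → ∀ P : Finset (ℤ × ℤ), Good K ε0 κ Y P → Y ^ (3 / 4 - κ) ≤ (P.card : ℝ) →
      Y ^ (1 / 2 - 3 * κ) ≤ (((P.image Prod.snd).filter (fun y => Y ^ (1 / 4 - 2 * κ) ≤
        ((P.filter (fun w => w.2 = y)).card : ℝ))).card : ℝ) := by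
  convert critical_g K ε0 κ hK hκ hκ1

end Hp

end Pool.Agent.Lib.MP_d8bd92_nt
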