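import Pool.Agent.Lib.MP_d8bd92_nt.Hp.Exc3

set_option autoImplicit false

/-!
Phase 2: the blocks `few_P4`, `few_P6`, from `few_PT`, `few_tor`, `few_tor5`.
-/

namespace Pool.Agent.Lib.MP_d8bd92_nt

namespace Hp

open Finset Pool.Agent.Lib.Szpiro

/-- `IsP` with the exponent of `t` equal to `l` -/
def IsPl (η : ℝ) (l : ℕ) (Y : ℝ) (x : ℤ) : Prop :=
  ∃ e A B t : ℕ, x.natAbs = 2 ^ e * A * B * t ^ l ∧ Odd A ∧ Odd B ∧ Odd t ∧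
    Nat.Coprime A B ∧ Nat.Coprime A t ∧ Nat.Coprime B t ∧ Squarefree t ∧
    (rd A : ℝ) ≤ Y ^ (1 / 4 - η) ∧ (rd B : ℝ) ≤ Y ^ (1 / 4 - η)

theorem exc_anti (K ε0 ε0' : ℝ) (Q : ℝ → ℤ × ℤ → Prop) (h : ε0 ≤ ε0') (hF : Few K ε0 Q) : Few K ε0' Q := by
  obtain ⟨C, δ, hC, hδ, hb⟩ := hF
  refine ⟨C, δ, hC, hδ, fun Y hY P hP => hb Y hY P (fun w hw => ⟨?_, (hP w hw).2⟩)⟩
  obtain ⟨h1, h2, h3, h4, h5, h6, h7, h8⟩ := (hP w hw).1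
  exact ⟨h1, h2, h3, h4, h5, (Real.rpow_le_rpow_of_exponent_le hY (by linarith)).trans h6, h7, h8⟩

theorem exc_or (K ε0 : ℝ) (Q Q' : ℝ → ℤ × ℤ → Prop) (hQ : Few K ε0 Q) (hQ' : Few K ε0 Q')
    (R : ℝ → ℤ × ℤ → Prop) (hR : ∀ Y w, w ∈ PairSet K ε0 Y → 1 ≤ Y → R Y w → Q Y w ∨ Q' Y w) : Few K ε0 R := by
  classical
  obtain ⟨C, δ, hC, hδ, hb⟩ := hQ
  obtain ⟨C', δ', hC', hδ', hb'⟩ := hQ'
  refine ⟨C + C', min δ δ', by positivity, lt_min hδ hδ', fun Y hY P hP => ?_⟩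
  have h1 := hb Y hY (P.filter (fun w => Q Y w)) (fun w hw => by
    rw [Finset.mem_filter] at hw; exact ⟨(hP w hw.1).1, hw.2⟩)
  have h2 := hb' Y hY (P.filter (fun w => ¬ Q Y w)) (fun w hw => by
    rw [Finset.mem_filter] at hw
    refine ⟨(hP w hw.1).1, ?_⟩
    rcases hR Y w (hP w hw.1).1 hY (hP w hw.1).2 with h | h
    · exact absurd h hw.2
    · exact h)
  have h3 : P.card = (P.filter (fun w => Q Y w)).card + (P.filter (fun w => ¬ Q Y w)).card :=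
    (Finset.card_filter_add_card_filter_not _).symm
  have h4 : Y ^ (3 / 4 - δ) ≤ Y ^ (3 / 4 - min δ δ') :=
    Real.rpow_le_rpow_of_exponent_le hY (by linarith [min_le_left δ δ'])
  have h5 : Y ^ (3 / 4 - δ') ≤ Y ^ (3 / 4 - min δ δ') :=
    Real.rpow_le_rpow_of_exponent_le hY (by linarith [min_le_right δ δ'])
  rw [h3]
  push_cast
  calc _ ≤ C * Y ^ (3 / 4 - δ) + C' * Y ^ (3 / 4 - δ') := add_le_add h1 h2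
    _ ≤ C * Y ^ (3 / 4 - min δ δ') + C' * Y ^ (3 / 4 - min δ δ') := by gcongr
    _ = _ := by ring

theorem isPl_of_isP {η : ℝ} {L : ℕ} {Y : ℝ} {x : ℤ} (h : IsP η L Y x) : ∃ l : ℕ, 1 ≤ l ∧ l ≤ L ∧ IsPl η l Y x := by
  obtain ⟨e, A, B, t, l, h1, h2, h3, h4, h5, h6, h7, h8, h9, h10, h11, h12⟩ := h
  exact ⟨l, h2, h3, e, A, B, t, h1, h4, h5, h6, h7, h8, h9, h10, h11, h12⟩

/-- the statement of `few_PT` for given `K` -/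
def StmtPT (K : ℝ) : Prop := ∀ (η τ : ℝ) (l : ℕ), 1 ≤ l → 0 < η → 0 ≤ τ → τ ≤ 1 / 4 →
    ∃ e1 κ Q C1 : ℝ, 0 < e1 ∧ e1 ≤ 1 / 100 ∧ 0 < κ ∧ 1 ≤ Q ∧ 1 ≤ C1 ∧
      Few K (-1 + 4 * τ - e1) (fun Y w => IsPl η l Y w.1 ∧ TorLe C1 Q l (τ + κ) Y w.2)

theorem few_Pl (K η : ℝ) (hη : 0 < η) (hPT : StmtPT K) (l : ℕ) (hl : l ∈ ({1, 2, 3, 4, 6} : Finset ℕ))
    (htor : ∀ ε0 C1 Q κ : ℝ, -(3 / 2) < ε0 → 1 ≤ C1 → 1 ≤ Q → 0 < κ → Few K ε0 (fun Y w => ¬ TorLe C1 Q l κ Y w.2)) :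
    ∃ e1 : ℝ, 0 < e1 ∧ e1 ≤ 1 / 100 ∧ Few K (-1 - e1) (fun Y w => IsPl η l Y w.1) := by
  have hl1 : 1 ≤ l := by
    simp only [Finset.mem_insert, Finset.mem_singleton] at hl
    omega
  obtain ⟨e1, κ, Q, C1, he1, he2, hκ, hQ, hC1, hF⟩ := hPT η 0 l hl1 hη le_rfl (by norm_num)
  refine ⟨e1, he1, he2, ?_⟩
  rw [show -1 + 4 * (0 : ℝ) - e1 = -1 - e1 by ring, zero_add] at hF
  apply exc_or K _ _ _ hF (htor (-1 - e1) C1 Q κ (by linarith) hC1 hQ hκ)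
  intro Y w _ _ h
  by_cases h2 : TorLe C1 Q l κ Y w.2
  · exact Or.inl ⟨h, h2⟩
  · exact Or.inr h2

theorem few_P4_fin (K η : ℝ) (hη : 0 < η) (hPT : StmtPT K)
    (htor : ∀ (ε0 C1 Q κ : ℝ) (l : ℕ), -(3 / 2) < ε0 → 1 ≤ C1 → 1 ≤ Q → 0 < κ → l ∈ ({1, 2, 3, 4, 6} : Finset ℕ) →
      Few K ε0 (fun Y w => ¬ TorLe C1 Q l κ Y w.2)) :
    ∃ e1 : ℝ, 0 < e1 ∧ e1 ≤ 1 / 100 ∧ Few K (-1 - e1) (fun Y w => IsP η 4 Y w.1) := by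
  have h := fun (l : ℕ) (hl : l ∈ ({1, 2, 3, 4, 6} : Finset ℕ)) =>
    few_Pl K η hη hPT l hl (fun ε0 C1 Q κ a b c d => htor ε0 C1 Q κ l a b c d hl)
  obtain ⟨a1, ha1, hb1, hc1⟩ := h 1 (by simp)
  obtain ⟨a2, ha2, hb2, hc2⟩ := h 2 (by simp)
  obtain ⟨a3, ha3, hb3, hc3⟩ := h 3 (by simp)
  obtain ⟨a4, ha4, hb4, hc4⟩ := h 4 (by simp)
  obtain ⟨a, ha⟩ : ∃ a : ℝ, a = min (min a1 a2) (min a3 a4) := ⟨_, rfl⟩
  have e1 : a ≤ a1 := by rw [ha]; exact (min_le_left _ _).trans (min_le_left _ _)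
  have e2 : a ≤ a2 := by rw [ha]; exact (min_le_left _ _).trans (min_le_right _ _)
  have e3 : a ≤ a3 := by rw [ha]; exact (min_le_right _ _).trans (min_le_left _ _)
  have e4 : a ≤ a4 := by rw [ha]; exact (min_le_right _ _).trans (min_le_right _ _)
  refine ⟨a, by rw [ha]; exact lt_min (lt_min ha1 ha2) (lt_min ha3 ha4), e1.trans hb1, ?_⟩
  have f1 := exc_anti K (-1 - a1) (-1 - a) _ (by linarith) hc1
  have f2 := exc_anti K (-1 - a2) (-1 - a) _ (by linarith) hc2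
  have f3 := exc_anti K (-1 - a3) (-1 - a) _ (by linarith) hc3
  have f4 := exc_anti K (-1 - a4) (-1 - a) _ (by linarith) hc4
  have g1 := exc_or K _ _ _ f1 f2 (fun Y w => IsPl η 1 Y w.1 ∨ IsPl η 2 Y w.1) (fun Y w _ _ h => h)
  have g2 := exc_or K _ _ _ f3 f4 (fun Y w => IsPl η 3 Y w.1 ∨ IsPl η 4 Y w.1) (fun Y w _ _ h => h)
  apply exc_or K _ _ _ g1 g2
  intro Y w _ _ h
  obtain ⟨l, hl1, hl2, hp⟩ := isPl_of_isP h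
  have hl : l = 1 ∨ l = 2 ∨ l = 3 ∨ l = 4 := by omega
  rcases hl with rfl | rfl | rfl | rfl
  · exact Or.inl (Or.inl hp)
  · exact Or.inl (Or.inr hp)
  · exact Or.inr (Or.inl hp)
  · exact Or.inr (Or.inr hp)

theorem few_P6_fin (K η : ℝ) (hη : 0 < η) (hPT : StmtPT K)
    (htor : ∀ (ε0 C1 Q κ : ℝ) (l : ℕ), -(3 / 2) < ε0 → 1 ≤ C1 → 1 ≤ Q → 0 < κ → l ∈ ({1, 2, 3, 4, 6} : Finset ℕ) →
      Few K ε0 (fun Y w => ¬ TorLe C1 Q l κ Y w.2))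
    (htor5 : ∀ (ε0 C1 Q κ : ℝ), -(3 / 2) < ε0 → 1 ≤ C1 → 1 ≤ Q → 0 < κ →
      Few K ε0 (fun Y w => ¬ TorLe C1 Q 5 (1 / 8 + κ) Y w.2)) :
    ∃ e1 : ℝ, 0 < e1 ∧ e1 ≤ 1 / 100 ∧ Few K (-(1 / 2) - e1) (fun Y w => IsP η 6 Y w.1) := by
  obtain ⟨a4, ha4, hb4, hc4⟩ := few_P4_fin K η hη hPT htor
  obtain ⟨a6, ha6, hb6, hc6⟩ := few_Pl K η hη hPT 6 (by simp) (fun ε0 C1 Q κ a b c d => htor ε0 C1 Q κ 6 a b c d (by simp))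
  obtain ⟨a5, κ, Q, C1, ha5, hb5, hκ, hQ, hC1, hF⟩ := hPT η (1 / 8) 5 (by norm_num) hη (by norm_num) (by norm_num)
  refine ⟨a5, ha5, hb5, ?_⟩
  rw [show -1 + 4 * (1 / 8 : ℝ) - a5 = -(1 / 2) - a5 by ring] at hF
  have f5 := exc_or K _ _ _ hF (htor5 (-(1 / 2) - a5) C1 Q κ (by linarith) hC1 hQ hκ) (fun Y w => IsPl η 5 Y w.1) (by
    intro Y w _ _ h
    by_cases h2 : TorLe C1 Q 5 (1 / 8 + κ) Y w.2
    · exact Or.inl ⟨h, h2⟩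
    · exact Or.inr h2)
  have f4 := exc_anti K (-1 - a4) (-(1 / 2) - a5) _ (by linarith) hc4
  have f6 := exc_anti K (-1 - a6) (-(1 / 2) - a5) _ (by linarith) hc6
  have g1 := exc_or K _ _ _ f5 f6 (fun Y w => IsPl η 5 Y w.1 ∨ IsPl η 6 Y w.1) (fun Y w _ _ h => h)
  apply exc_or K _ _ _ f4 g1
  intro Y w _ _ h
  obtain ⟨e, A, B, t, l, h1, h2, h3, h4, h5, h6, h7, h8, h9, h10, h11, h12⟩ := h
  by_cases hl : l ≤ 4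
  · exact Or.inl ⟨e, A, B, t, l, h1, h2, hl, h4, h5, h6, h7, h8, h9, h10, h11, h12⟩
  · right
    have hl' : l = 5 ∨ l = 6 := by omega
    rcases hl' with rfl | rfl
    · exact Or.inl ⟨e, A, B, t, h1, h4, h5, h6, h7, h8, h9, h10, h11, h12⟩
    · exact Or.inr ⟨e, A, B, t, h1, h4, h5, h6, h7, h8, h9, h10, h11, h12⟩

end Hp

end Pool.Agent.Lib.MP_d8bd92_nt
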