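import Pool.Agent.Lib.MP_d8bd92_nt.Hp.Preds
import Pool.Agent.Lib.MP_d8bd92_nt.Hp.BA
import Pool.Agent.Lib.MP_d8bd92_nt.Hp.BE
import Pool.Agent.Lib.MP_d8bd92_nt.Hp.BF
import Pool.Agent.Lib.MP_d8bd92_nt.Hp.BG

set_option autoImplicit false

/-!
Block 1: extraction of large good sets of pairs, critical fixed sides.
-/

namespace Pool.Agent.Lib.MP_d8bd92_nt

namespace Hp

open Finset Pool.Agent.Lib.Szpiro

theorem PairSet_swap (K ε0 Y : ℝ) (w : ℤ × ℤ) (h : w ∈ PairSet K ε0 Y) : (w.2, w.1) ∈ PairSet K ε0 Y := by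
  obtain ⟨h1, h2, h3, ⟨g, h4⟩, h5, h6, h7, h8⟩ := h
  exact ⟨h2, h1, h3.symm, ⟨g, by rw [← h4]; ring⟩, by rw [mul_comm]; exact h5, by rw [max_comm]; exact h6, h8, h7⟩

/-- `Few` is symmetric -/
theorem few_swap (K ε0 : ℝ) (Q : ℝ → ℤ × ℤ → Prop) (h : Few K ε0 Q) : Few K ε0 (fun Y w => Q Y (w.2, w.1)) := by
  classical
  obtain ⟨C, δ, hC, hδ, hb⟩ := h
  refine ⟨C, δ, hC, hδ, fun Y hY P hP => ?_⟩
  have h1 := hb Y hY (P.image (fun w => (w.2, w.1))) (by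
    intro w hw
    rw [Finset.mem_image] at hw
    obtain ⟨v, hv, rfl⟩ := hw
    exact ⟨PairSet_swap K ε0 Y v (hP v hv).1, (hP v hv).2⟩)
  rwa [Finset.card_image_of_injective _ (fun a b hab => by
    simp only [Prod.mk.injEq] at hab
    exact Prod.ext hab.2 hab.1)] at h1

theorem Z_facts (K σ Y : ℝ) (hK : 0 < K) (hσ : 0 < σ) (hY : 1 ≤ Y) :
    1 ≤ ⌊Y ^ K⌋₊ ∧ ((⌊Y ^ K⌋₊ : ℕ) : ℝ) ^ σ ≤ Y ^ (K * σ) := by
  have h1 : 1 ≤ Y ^ K := Real.one_le_rpow hY hK.le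
  refine ⟨Nat.le_floor (by exact_mod_cast h1), ?_⟩
  rw [Real.rpow_mul (by linarith)]
  exact Real.rpow_le_rpow (Nat.cast_nonneg _) (Nat.floor_le (by linarith)) hσ.le

theorem PS_of_pairSet (K ε0 Y : ℝ) (w : ℤ × ℤ) (h : w ∈ PairSet K ε0 Y) :
    PS ⌊Y ^ K⌋₊ w ∧ ra w * rb w ≤ Y := by
  obtain ⟨h1, h2, h3, h4, h5, h6, h7, h8⟩ := h
  exact ⟨⟨h1, h2, h3, h4, Nat.le_floor h7, Nat.le_floor h8⟩, h5⟩

/-- one side is a square -/
theorem few_square_g (K ε0 : ℝ) (hK : 2 ≤ K) : Few K ε0 (fun _ w => IsSquare w.1) := by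
  have h : Few K ε0 (fun _ w => IsSquare w.2) := by
    obtain ⟨C, hC, hb⟩ := squares_le (1 / (100 * K)) (by positivity)
    refine ⟨C, 3 / 4 - 2 / 3 - 1 / 100, by linarith, by norm_num, fun Y hY P hP => ?_⟩
    obtain ⟨hZ1, hZ2⟩ := Z_facts K (1 / (100 * K)) Y (by linarith) (by positivity) hY
    have h1 := hb ⌊Y ^ K⌋₊ Y P hZ1 hY (fun w hw => by
      obtain ⟨h1, h2⟩ := hP w hw
      obtain ⟨h3, h4⟩ := PS_of_pairSet K ε0 Y w h1
      exact ⟨h3, h4, h2⟩)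
    have e : K * (1 / (100 * K)) = 1 / 100 := by field_simp
    rw [e] at hZ2
    refine h1.trans ?_
    have h2 : Y ^ (3 / 4 - (3 / 4 - 2 / 3 - 1 / 100) : ℝ) = Y ^ (1 / 100 : ℝ) * Y ^ (2 / 3 : ℝ) := by
      rw [← Real.rpow_add (by linarith)]
      norm_num
    rw [h2, mul_assoc]
    gcongr
  exact few_swap K ε0 (fun _ w => IsSquare w.2) h

open scoped Classical in
/-- pairs which are not quasi-regular: second member fixed -/
theorem bad_few (K κ κ' : ℝ) (hK : 0 < K) (hκ' : 0 < κ') (h : 4 * κ' ≤ κ) : ∃ C : ℝ, 1 ≤ C ∧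
    ∀ (Y : ℝ) (P : Finset (ℤ × ℤ)), 1 ≤ Y → (∀ w ∈ P, PS ⌊Y ^ K⌋₊ w ∧ ra w ≤ Y ^ ((1 + κ') / 2)) →
    ((P.filter (fun w => ∃ u : ℕ, UDvd u w.1.natAbs ∧ max 1 (Y ^ (1 / 4 : ℝ) / (rd u : ℝ)) * Y ^ κ <
      ((P.filter (fun w' : ℤ × ℤ => w'.2 = w.2 ∧ UDvd u w'.1.natAbs)).card : ℝ))).card : ℝ) ≤
      C * Y ^ (3 / 4 - κ') := by
  obtain ⟨C, hC, hb⟩ := qr_le (κ' / K) κ κ' (by positivity) (by linarith) hκ'.le
  refine ⟨C, hC, fun Y P hY hP => ?_⟩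
  obtain ⟨hZ1, hZ2⟩ := Z_facts K (κ' / K) Y hK (by positivity) hY
  have e : K * (κ' / K) = κ' := by field_simp
  rw [e] at hZ2
  refine (hb ⌊Y ^ K⌋₊ Y P hZ1 hY hP).trans ?_
  have h2 : Y ^ κ' * Y ^ (3 / 4 + κ' - κ) ≤ Y ^ (3 / 4 - κ') := by
    rw [← Real.rpow_add (by linarith)]
    exact Real.rpow_le_rpow_of_exponent_le hY (by linarith)
  calc C * ((⌊Y ^ K⌋₊ : ℕ) : ℝ) ^ (κ' / K) * Y ^ (3 / 4 + κ' - κ) ≤ C * Y ^ κ' * Y ^ (3 / 4 + κ' - κ) := by gcongr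
    _ = C * (Y ^ κ' * Y ^ (3 / 4 + κ' - κ)) := by ring
    _ ≤ C * Y ^ (3 / 4 - κ') := by gcongr

theorem ext_sum_aux (Ca Cb Cc Cd Ce Cg y a b c d e n P : ℝ) (h : (Ca + Cb + Cc + Cd + Ce + Ce + Cg) * y < P)
    (hs : P ≤ a + (b + (c + (d + (e + (e + n)))))) (ha : a ≤ Ca * y) (hb : b ≤ Cb * y) (hc : c ≤ Cc * y)
    (hd : d ≤ Cd * y) (he : e ≤ Ce * y) : Cg * y ≤ n := by
  have e6 : (Ca + Cb + Cc + Cd + Ce + Ce + Cg) * y = Ca * y + Cb * y + Cc * y + Cd * y + Ce * y + Ce * y + Cg * y := by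
    ring
  linarith

theorem ext_half_aux (A b : ℝ) (hA : 0 ≤ A) (hb : 2 ≤ b) : A ≤ 1 / 2 * (A * b) := by nlinarith

theorem ext_exp (κ κ1 κ' : ℝ) (h1 : κ1 ≤ κ) (h0 : 0 < κ1) (h : κ' = κ1 / 4) : (1 - κ) / 2 ≤ 1 / 2 - κ' / 2 ∧
    (1 + κ') / 2 ≤ (1 + κ) / 2 ∧ (0 < κ' / 2) ∧ 4 * κ' ≤ κ1 := by
  rw [h]
  exact ⟨by linarith, by linarith, by linarith, by linarith⟩

open scoped Classical in
/-- Extraction, with `few_small` as a hypothesis. -/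
theorem extraction_of (K ε0 κ : ℝ) (hK : 2 ≤ K) (hκ : 0 < κ)
    (hsmall : ∀ c : ℝ, 0 < c → Few K ε0 (fun Y w => (rd w.1.natAbs : ℝ) ≤ Y ^ (1 / 2 - c))) :
    ∃ C δ : ℝ, 0 < C ∧ 0 < δ ∧
    ∀ Y : ℝ, 1 ≤ Y → ∀ P : Finset (ℤ × ℤ), (∀ w ∈ P, w ∈ PairSet K ε0 Y) → C * Y ^ (3 / 4 - δ) < (P.card : ℝ) →
      ∃ P' ⊆ P, Good K ε0 κ Y P' ∧ Y ^ (3 / 4 - κ) ≤ (P'.card : ℝ) := by
  obtain ⟨κ1, hκ1⟩ : ∃ κ1 : ℝ, κ1 = min κ 1 := ⟨_, rfl⟩
  have hκ10 : 0 < κ1 := by rw [hκ1]; exact lt_min hκ one_pos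
  have hκ11 : κ1 ≤ κ := by rw [hκ1]; exact min_le_left _ _
  have hκ12 : κ1 ≤ 1 := by rw [hκ1]; exact min_le_right _ _
  obtain ⟨κ', hκ'⟩ : ∃ κ' : ℝ, κ' = κ1 / 4 := ⟨_, rfl⟩
  obtain ⟨x1, x2, x3, x4⟩ := ext_exp κ κ1 κ' hκ11 hκ10 hκ'
  have hκ'0 : 0 < κ' := by rw [hκ']; positivity
  obtain ⟨Ca, δa, hCa, hδa, ha⟩ := few_square_g K ε0 hK
  obtain ⟨Cb, δb, hCb, hδb, hb⟩ := few_swap K ε0 _ (few_square_g K ε0 hK)
  obtain ⟨Cc, δc, hCc, hδc, hc⟩ := hsmall (κ' / 2) x3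
  obtain ⟨Cd, δd, hCd, hδd, hd⟩ := few_swap K ε0 _ (hsmall (κ' / 2) x3)
  obtain ⟨Ce, hCe, he⟩ := bad_few K κ1 κ' (two_pos.trans_le hK) hκ'0 x4
  obtain ⟨Cg, hCg, hg⟩ := exists_dy K (κ1 / 4) (two_pos.trans_le hK) (div_pos hκ10 four_pos)
  obtain ⟨δ, hδ⟩ : ∃ δ : ℝ, δ = min (min (min δa δb) (min δc δd)) κ' := ⟨_, rfl⟩
  have hδ0 : 0 < δ := by
    rw [hδ]
    exact lt_min (lt_min (lt_min hδa hδb) (lt_min hδc hδd)) hκ'0
  have d1 : δ ≤ δa := by rw [hδ]; exact (min_le_left _ _).trans ((min_le_left _ _).trans (min_le_left _ _))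
  have d2 : δ ≤ δb := by rw [hδ]; exact (min_le_left _ _).trans ((min_le_left _ _).trans (min_le_right _ _))
  have d3 : δ ≤ δc := by rw [hδ]; exact (min_le_left _ _).trans ((min_le_right _ _).trans (min_le_left _ _))
  have d4 : δ ≤ δd := by rw [hδ]; exact (min_le_left _ _).trans ((min_le_right _ _).trans (min_le_right _ _))
  have d5 : δ ≤ κ' := by rw [hδ]; exact min_le_right _ _
  refine ⟨Ca + Cb + Cc + Cd + Ce + Ce + Cg, δ, by positivity, hδ0, fun Y hY P hP hcard => ?_⟩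
  have hY0 : 0 < Y := one_pos.trans_le hY
  have hmono : ∀ x : ℝ, δ ≤ x → Y ^ (3 / 4 - x) ≤ Y ^ (3 / 4 - δ) := fun x hx =>
    Real.rpow_le_rpow_of_exponent_le hY (sub_le_sub_left hx _)
  -- the first cleaning
  set P0 := P.filter (fun w => ¬ IsSquare w.1 ∧ ¬ IsSquare w.2 ∧ Y ^ (1 / 2 - κ' / 2) < (rd w.1.natAbs : ℝ) ∧
    Y ^ (1 / 2 - κ' / 2) < (rd w.2.natAbs : ℝ)) with hP0
  have hP0m : ∀ w ∈ P0, w ∈ P ∧ ¬ IsSquare w.1 ∧ ¬ IsSquare w.2 ∧ Y ^ (1 / 2 - κ' / 2) < (rd w.1.natAbs : ℝ) ∧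
      Y ^ (1 / 2 - κ' / 2) < (rd w.2.natAbs : ℝ) := by
    intro w hw
    rw [hP0, Finset.mem_filter] at hw
    exact ⟨hw.1, hw.2⟩
  have hrad : ∀ w ∈ P0, (rd w.1.natAbs : ℝ) ≤ Y ^ ((1 + κ') / 2) ∧ (rd w.2.natAbs : ℝ) ≤ Y ^ ((1 + κ') / 2) := by
    intro w hw
    obtain ⟨h1, _, _, h2, h3⟩ := hP0m w hw
    have h4 : (rd w.1.natAbs : ℝ) * rd w.2.natAbs ≤ Y := (hP w h1).2.2.2.2.1
    have e1 : Y = Y ^ (1 / 2 - κ' / 2) * Y ^ ((1 + κ') / 2) := by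
      rw [← Real.rpow_add hY0]
      have : (1 / 2 - κ' / 2 + (1 + κ') / 2 : ℝ) = 1 := by ring
      rw [this, Real.rpow_one]
    have p1 : 0 < Y ^ (1 / 2 - κ' / 2) := Real.rpow_pos_of_pos hY0 _
    have p2 : 0 < Y ^ ((1 + κ') / 2) := Real.rpow_pos_of_pos hY0 _
    constructor
    · by_contra hcon
      push Not at hcon
      have : Y < (rd w.1.natAbs : ℝ) * rd w.2.natAbs := by
        calc Y = Y ^ ((1 + κ') / 2) * Y ^ (1 / 2 - κ' / 2) := by rw [mul_comm]; exact e1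
          _ < (rd w.1.natAbs : ℝ) * rd w.2.natAbs := mul_lt_mul'' hcon h3 p2.le p1.le
      exact absurd h4 (not_le.mpr this)
    · by_contra hcon
      push Not at hcon
      have : Y < (rd w.1.natAbs : ℝ) * rd w.2.natAbs := by
        calc Y = Y ^ (1 / 2 - κ' / 2) * Y ^ ((1 + κ') / 2) := e1
          _ < (rd w.1.natAbs : ℝ) * rd w.2.natAbs := mul_lt_mul'' h2 hcon p1.le p2.le
      exact absurd h4 (not_le.mpr this)
  have hPS : ∀ w ∈ P0, PS ⌊Y ^ K⌋₊ w := fun w hw => (PS_of_pairSet K ε0 Y w (hP w (hP0m w hw).1)).1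
  -- the bad pairs
  set B1 := P0.filter (fun w => ∃ u : ℕ, UDvd u w.1.natAbs ∧ max 1 (Y ^ (1 / 4 : ℝ) / (rd u : ℝ)) * Y ^ κ1 <
      ((P0.filter (fun w' : ℤ × ℤ => w'.2 = w.2 ∧ UDvd u w'.1.natAbs)).card : ℝ)) with hB1
  set B2 := P0.filter (fun w => ∃ u : ℕ, UDvd u w.2.natAbs ∧ max 1 (Y ^ (1 / 4 : ℝ) / (rd u : ℝ)) * Y ^ κ1 <
      ((P0.filter (fun w' : ℤ × ℤ => w'.1 = w.1 ∧ UDvd u w'.2.natAbs)).card : ℝ)) with hB2
  have hB1c : (B1.card : ℝ) ≤ Ce * Y ^ (3 / 4 - κ') :=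
    he Y P0 hY (fun w hw => ⟨hPS w hw, (hrad w hw).1⟩)
  have hB2c : (B2.card : ℝ) ≤ Ce * Y ^ (3 / 4 - κ') := by
    set f : ℤ × ℤ → ℤ × ℤ := fun w => (w.2, w.1) with hf
    have hfi : Function.Injective f := fun a b hab => by
      simp only [hf, Prod.mk.injEq] at hab
      exact Prod.ext hab.2 hab.1
    have h1 := he Y (P0.image f) hY (by
      intro w hw
      rw [Finset.mem_image] at hw
      obtain ⟨v, hv, rfl⟩ := hw
      obtain ⟨a1, a2, a3, ⟨g, a4⟩, a5, a6⟩ := hPS v hv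
      exact ⟨⟨a2, a1, a3.symm, ⟨g, by show v.2 + v.1 = g ^ 2; rw [← a4]; ring⟩, a6, a5⟩, (hrad v hv).2⟩)
    refine le_trans ?_ h1
    have h2 : (B2.image f) ⊆ ((P0.image f).filter (fun w => ∃ u : ℕ, UDvd u w.1.natAbs ∧
        max 1 (Y ^ (1 / 4 : ℝ) / (rd u : ℝ)) * Y ^ κ1 <
        (((P0.image f).filter (fun w' : ℤ × ℤ => w'.2 = w.2 ∧ UDvd u w'.1.natAbs)).card : ℝ))) := by
      intro w hw
      rw [Finset.mem_image] at hw
      obtain ⟨v, hv, rfl⟩ := hw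
      rw [hB2, Finset.mem_filter] at hv
      obtain ⟨hv0, u, hu1, hu2⟩ := hv
      rw [Finset.mem_filter]
      refine ⟨Finset.mem_image_of_mem _ hv0, u, hu1, hu2.trans_le ?_⟩
      have h3 : (P0.filter (fun w' : ℤ × ℤ => w'.1 = v.1 ∧ UDvd u w'.2.natAbs)).image f ⊆
          (P0.image f).filter (fun w' : ℤ × ℤ => w'.2 = (f v).2 ∧ UDvd u w'.1.natAbs) := by
        intro z hz
        rw [Finset.mem_image] at hz
        obtain ⟨y, hy, rfl⟩ := hz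
        rw [Finset.mem_filter] at hy
        rw [Finset.mem_filter]
        exact ⟨Finset.mem_image_of_mem _ hy.1, hy.2.1, hy.2.2⟩
      have h4 := Finset.card_le_card h3
      rw [Finset.card_image_of_injective _ hfi] at h4
      exact_mod_cast h4
    have h5 := Finset.card_le_card h2
    rw [Finset.card_image_of_injective _ hfi] at h5
    exact_mod_cast h5
  set P1 := P0.filter (fun w => w ∉ B1 ∧ w ∉ B2) with hP1
  -- cardinality of P1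
  have hcov : P ⊆ (P.filter (fun w => IsSquare w.1)) ∪ ((P.filter (fun w => IsSquare w.2)) ∪
      ((P.filter (fun w => (rd w.1.natAbs : ℝ) ≤ Y ^ (1 / 2 - κ' / 2))) ∪
      ((P.filter (fun w => (rd w.2.natAbs : ℝ) ≤ Y ^ (1 / 2 - κ' / 2))) ∪ (B1 ∪ (B2 ∪ P1))))) := by
    intro w hw
    simp only [Finset.mem_union, Finset.mem_filter]
    by_cases h1 : IsSquare w.1
    · exact Or.inl ⟨hw, h1⟩
    by_cases h2 : IsSquare w.2
    · exact Or.inr (Or.inl ⟨hw, h2⟩)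
    by_cases h3 : (rd w.1.natAbs : ℝ) ≤ Y ^ (1 / 2 - κ' / 2)
    · exact Or.inr (Or.inr (Or.inl ⟨hw, h3⟩))
    by_cases h4 : (rd w.2.natAbs : ℝ) ≤ Y ^ (1 / 2 - κ' / 2)
    · exact Or.inr (Or.inr (Or.inr (Or.inl ⟨hw, h4⟩)))
    push Not at h3 h4
    have h5 : w ∈ P0 := by rw [hP0, Finset.mem_filter]; exact ⟨hw, h1, h2, h3, h4⟩
    by_cases h6 : w ∈ B1
    · exact Or.inr (Or.inr (Or.inr (Or.inr (Or.inl h6))))
    by_cases h7 : w ∈ B2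
    · exact Or.inr (Or.inr (Or.inr (Or.inr (Or.inr (Or.inl h7)))))
    refine Or.inr (Or.inr (Or.inr (Or.inr (Or.inr (Or.inr ?_)))))
    rw [hP1, Finset.mem_filter]
    exact ⟨h5, h6, h7⟩
  have ka := ha Y hY (P.filter (fun w => IsSquare w.1)) (fun w hw => by
    rw [Finset.mem_filter] at hw; exact ⟨hP w hw.1, hw.2⟩)
  have kb := hb Y hY (P.filter (fun w => IsSquare w.2)) (fun w hw => by
    rw [Finset.mem_filter] at hw; exact ⟨hP w hw.1, hw.2⟩)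
  have kc := hc Y hY (P.filter (fun w => (rd w.1.natAbs : ℝ) ≤ Y ^ (1 / 2 - κ' / 2))) (fun w hw => by
    rw [Finset.mem_filter] at hw; exact ⟨hP w hw.1, hw.2⟩)
  have kd := hd Y hY (P.filter (fun w => (rd w.2.natAbs : ℝ) ≤ Y ^ (1 / 2 - κ' / 2))) (fun w hw => by
    rw [Finset.mem_filter] at hw; exact ⟨hP w hw.1, hw.2⟩)
  have hsum : (P.card : ℝ) ≤ Ca * Y ^ (3 / 4 - δa) + (Cb * Y ^ (3 / 4 - δb) + (Cc * Y ^ (3 / 4 - δc) +
      (Cd * Y ^ (3 / 4 - δd) + (Ce * Y ^ (3 / 4 - κ') + (Ce * Y ^ (3 / 4 - κ') + P1.card))))) := by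
    have h1 := (Finset.card_le_card hcov).trans ((Finset.card_union_le _ _).trans
      (Nat.add_le_add_left ((Finset.card_union_le _ _).trans (Nat.add_le_add_left
        ((Finset.card_union_le _ _).trans (Nat.add_le_add_left ((Finset.card_union_le _ _).trans
          (Nat.add_le_add_left ((Finset.card_union_le _ _).trans (Nat.add_le_add_left
            (Finset.card_union_le _ _) _)) _)) _)) _)) _))
    have h2 : (P.card : ℝ) ≤ ((P.filter (fun w => IsSquare w.1)).card : ℝ) +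
        (((P.filter (fun w => IsSquare w.2)).card : ℝ) +
        (((P.filter (fun w => (rd w.1.natAbs : ℝ) ≤ Y ^ (1 / 2 - κ' / 2))).card : ℝ) +
        (((P.filter (fun w => (rd w.2.natAbs : ℝ) ≤ Y ^ (1 / 2 - κ' / 2))).card : ℝ) +
        ((B1.card : ℝ) + ((B2.card : ℝ) + (P1.card : ℝ)))))) := by exact_mod_cast h1
    exact h2.trans (add_le_add ka (add_le_add kb (add_le_add kc (add_le_add kd
      (add_le_add hB1c (add_le_add_left hB2c _))))))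
  have hP1c : Cg * Y ^ (3 / 4 - δ) ≤ (P1.card : ℝ) := by
    exact ext_sum_aux Ca Cb Cc Cd Ce Cg _ _ _ _ _ _ _ _ hcard hsum (mul_le_mul_of_nonneg_left (hmono δa d1) hCa.le)
      (mul_le_mul_of_nonneg_left (hmono δb d2) hCb.le) (mul_le_mul_of_nonneg_left (hmono δc d3) hCc.le)
      (mul_le_mul_of_nonneg_left (hmono δd d4) hCd.le)
      (mul_le_mul_of_nonneg_left (hmono κ' d5) (zero_le_one.trans hCe))
  -- dyadic pigeonhole
  have hP1m : ∀ w ∈ P1, w ∈ P0 ∧ w ∉ B1 ∧ w ∉ B2 := by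
    intro w hw
    rw [hP1, Finset.mem_filter] at hw
    exact ⟨hw.1, hw.2⟩
  obtain ⟨P', hP'1, hP'c, hP'd⟩ := hg Y P1 hY (fun w hw => by
    obtain ⟨a1, a2, a3, a4, a5, a6, a7, a8⟩ := hP w (hP0m w (hP1m w hw).1).1
    exact ⟨a1, a2, a7, a8⟩)
  have hP'm : ∀ w ∈ P', w ∈ P0 ∧ w ∉ B1 ∧ w ∉ B2 := fun w hw => hP1m w (hP'1 hw)
  have hP'P0 : P' ⊆ P0 := fun w hw => (hP'm w hw).1
  have hYκ : Y ^ κ1 ≤ Y ^ κ := Real.rpow_le_rpow_of_exponent_le hY hκ11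
  refine ⟨P', fun w hw => (hP0m w (hP'm w hw).1).1, ?_, ?_⟩
  · constructor
    · exact fun w hw => hP w (hP0m w (hP'm w hw).1).1
    · intro w hw
      obtain ⟨_, _, _, h2, h3⟩ := hP0m w (hP'm w hw).1
      exact ⟨(Real.rpow_le_rpow_of_exponent_le hY x1).trans h2.le,
        (hrad w (hP'm w hw).1).1.trans (Real.rpow_le_rpow_of_exponent_le hY x2)⟩
    · intro w hw
      obtain ⟨_, _, _, h2, h3⟩ := hP0m w (hP'm w hw).1
      exact ⟨(Real.rpow_le_rpow_of_exponent_le hY x1).trans h3.le,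
        (hrad w (hP'm w hw).1).2.trans (Real.rpow_le_rpow_of_exponent_le hY x2)⟩
    · intro w hw
      obtain ⟨_, h1, h2, _⟩ := hP0m w (hP'm w hw).1
      exact ⟨h1, h2⟩
    · exact hP'd
    · intro w hw u hu
      obtain ⟨h1, h2, _⟩ := hP'm w hw
      have h3 : ¬ (max 1 (Y ^ (1 / 4 : ℝ) / (rd u : ℝ)) * Y ^ κ1 <
          ((P0.filter (fun w' : ℤ × ℤ => w'.2 = w.2 ∧ UDvd u w'.1.natAbs)).card : ℝ)) := by
        intro hcon
        apply h2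
        rw [hB1, Finset.mem_filter]
        exact ⟨h1, u, hu, hcon⟩
      push Not at h3
      have h4 : ((P'.filter (fun w' : ℤ × ℤ => w'.2 = w.2 ∧ UDvd u w'.1.natAbs)).card : ℝ) ≤
          ((P0.filter (fun w' : ℤ × ℤ => w'.2 = w.2 ∧ UDvd u w'.1.natAbs)).card : ℝ) := by
        exact_mod_cast Finset.card_le_card (Finset.filter_subset_filter _ hP'P0)
      exact h4.trans (h3.trans (mul_le_mul_of_nonneg_left hYκ (zero_le_one.trans (le_max_left _ _))))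
    · intro w hw u hu
      obtain ⟨h1, _, h2⟩ := hP'm w hw
      have h3 : ¬ (max 1 (Y ^ (1 / 4 : ℝ) / (rd u : ℝ)) * Y ^ κ1 <
          ((P0.filter (fun w' : ℤ × ℤ => w'.1 = w.1 ∧ UDvd u w'.2.natAbs)).card : ℝ)) := by
        intro hcon
        apply h2
        rw [hB2, Finset.mem_filter]
        exact ⟨h1, u, hu, hcon⟩
      push Not at h3
      have h4 : ((P'.filter (fun w' : ℤ × ℤ => w'.1 = w.1 ∧ UDvd u w'.2.natAbs)).card : ℝ) ≤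
          ((P0.filter (fun w' : ℤ × ℤ => w'.1 = w.1 ∧ UDvd u w'.2.natAbs)).card : ℝ) := by
        exact_mod_cast Finset.card_le_card (Finset.filter_subset_filter _ hP'P0)
      exact h4.trans (h3.trans (mul_le_mul_of_nonneg_left hYκ (zero_le_one.trans (le_max_left _ _))))
  · have h1 : Cg * Y ^ (3 / 4 - δ) ≤ Cg * Y ^ (κ1 / 4) * (P'.card : ℝ) := hP1c.trans hP'c
    have h2 : Y ^ (3 / 4 - δ) ≤ Y ^ (κ1 / 4) * (P'.card : ℝ) := by
      have : Cg * Y ^ (3 / 4 - δ) ≤ Cg * (Y ^ (κ1 / 4) * (P'.card : ℝ)) := by rw [← mul_assoc]; exact h1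
      exact le_of_mul_le_mul_left this (one_pos.trans_le hCg)
    have h3 : Y ^ (3 / 4 - δ) = Y ^ (κ1 / 4) * Y ^ (3 / 4 - δ - κ1 / 4) := by
      rw [← Real.rpow_add hY0]
      congr 1
      ring
    rw [h3] at h2
    have h4 := le_of_mul_le_mul_left h2 (Real.rpow_pos_of_pos hY0 _)
    refine le_trans ?_ h4
    apply Real.rpow_le_rpow_of_exponent_le hY
    rw [hκ'] at d5
    linarith

/-- the same with a colouring by few colours, `few_small` as a hypothesis -/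
theorem extraction_col_of (K ε0 κ : ℝ) (hK : 2 ≤ K) (hκ : 0 < κ)
    (hsmall : ∀ c : ℝ, 0 < c → Few K ε0 (fun Y w => (rd w.1.natAbs : ℝ) ≤ Y ^ (1 / 2 - c))) :
    ∃ C δ : ℝ, 0 < C ∧ 0 < δ ∧
    ∀ Y : ℝ, 1 ≤ Y → ∀ (P : Finset (ℤ × ℤ)) (N : ℕ) (col : ℤ × ℤ → Fin N), (N : ℝ) ≤ Y ^ δ →
      (∀ w ∈ P, w ∈ PairSet K ε0 Y) → C * Y ^ (3 / 4 - δ) < (P.card : ℝ) →
      ∃ P' ⊆ P, Good K ε0 κ Y P' ∧ Y ^ (3 / 4 - κ) ≤ (P'.card : ℝ) ∧ ∃ k, ∀ w ∈ P', col w = k := by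
  classical
  obtain ⟨C, δ, hC, hδ, hb⟩ := extraction_of K ε0 κ hK hκ hsmall
  refine ⟨C, δ / 2, hC, by positivity, fun Y hY P N col hN hP hcard => ?_⟩
  have hY0 : 0 < Y := by linarith
  have hPne : P.Nonempty := by
    rw [Finset.nonempty_iff_ne_empty]
    rintro rfl
    have : 0 < C * Y ^ (3 / 4 - δ / 2) := by positivity
    rw [Finset.card_empty] at hcard
    push_cast at hcard
    linarith
  obtain ⟨w0, hw0⟩ := hPne
  have hN0 : (0 : ℝ) < (N : ℝ) := by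
    have : 0 < N := Fin.pos (col w0)
    exact_mod_cast this
  -- a large colour class
  obtain ⟨k, hk⟩ : ∃ k : Fin N, (P.card : ℝ) ≤ (N : ℝ) * ((P.filter (fun w => col w = k)).card : ℝ) := by
    by_contra hcon
    push Not at hcon
    have h1 : P.card = ∑ k : Fin N, (P.filter (fun w => col w = k)).card :=
      Finset.card_eq_sum_card_fiberwise (fun w _ => Finset.mem_univ _)
    have h2 : (N : ℝ) * (P.card : ℝ) = ∑ k : Fin N, (N : ℝ) * ((P.filter (fun w => col w = k)).card : ℝ) := by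
      rw [← Finset.mul_sum, h1]
      push_cast
      rfl
    have h3 : ∑ k : Fin N, (N : ℝ) * ((P.filter (fun w => col w = k)).card : ℝ) < ∑ _k : Fin N, (P.card : ℝ) :=
      Finset.sum_lt_sum_of_nonempty ⟨col w0, Finset.mem_univ _⟩ (fun k _ => hcon k)
    rw [Finset.sum_const, Finset.card_univ, Fintype.card_fin, nsmul_eq_mul] at h3
    linarith
  have h2 : C * Y ^ (3 / 4 - δ) < ((P.filter (fun w => col w = k)).card : ℝ) := by
    have h3 : C * Y ^ (3 / 4 - δ / 2) < Y ^ (δ / 2) * ((P.filter (fun w => col w = k)).card : ℝ) :=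
      hcard.trans_le (hk.trans (by gcongr))
    have h4 : Y ^ (3 / 4 - δ / 2) = Y ^ (δ / 2) * Y ^ (3 / 4 - δ) := by
      rw [← Real.rpow_add hY0]
      congr 1
      ring
    rw [h4] at h3
    have h5 : Y ^ (δ / 2) * (C * Y ^ (3 / 4 - δ)) < Y ^ (δ / 2) * ((P.filter (fun w => col w = k)).card : ℝ) := by
      calc Y ^ (δ / 2) * (C * Y ^ (3 / 4 - δ)) = C * (Y ^ (δ / 2) * Y ^ (3 / 4 - δ)) := by ring
        _ < _ := h3
    exact lt_of_mul_lt_mul_left h5 (by positivity)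
  obtain ⟨P', hP'1, hG, hc⟩ := hb Y hY (P.filter (fun w => col w = k)) (fun w hw => by
    rw [Finset.mem_filter] at hw; exact hP w hw.1) h2
  refine ⟨P', hP'1.trans (Finset.filter_subset _ _), hG, hc, k, fun w hw => ?_⟩
  exact (Finset.mem_filter.mp (hP'1 hw)).2

open scoped Classical in
/-- many critical fixed sides -/
theorem critical_g (K ε0 κ : ℝ) (hK : 2 ≤ K) (hκ : 0 < κ) (hκ1 : κ ≤ 1 / 100) : ∃ Y0 : ℝ, 1 ≤ Y0 ∧
    ∀ Y : ℝ, Y0 ≤ Y → ∀ P : Finset (ℤ × ℤ), Good K ε0 κ Y P → Y ^ (3 / 4 - κ) ≤ (P.card : ℝ) →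
      Y ^ (1 / 2 - 3 * κ) ≤ (((P.image Prod.snd).filter (fun y => Y ^ (1 / 4 - 2 * κ) ≤
        ((P.filter (fun w => w.2 = y)).card : ℝ))).card : ℝ) := by
  obtain ⟨C, hC, hb⟩ := count_rad (κ / (4 * K)) (by positivity)
  -- Y0 with 2 C ≤ Y0 ^ (κ / 4) and 2 ≤ Y0 ^ κ
  obtain ⟨Y0, hY0, hY01⟩ : ∃ Y0 : ℝ, 1 ≤ Y0 ∧ 2 * C ≤ Y0 ^ (κ / 4) := by
    refine ⟨(2 * C) ^ (4 / κ), Real.one_le_rpow (by linarith) (by positivity), ?_⟩
    rw [← Real.rpow_mul (by linarith)]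
    have : 4 / κ * (κ / 4) = 1 := by field_simp
    rw [this, Real.rpow_one]
  refine ⟨Y0, hY0, fun Y hYY P hG hcard => ?_⟩
  have hY : 1 ≤ Y := hY0.trans hYY
  have hYpos : 0 < Y := by linarith
  have hYC : 2 * C ≤ Y ^ (κ / 4) := hY01.trans (Real.rpow_le_rpow (by linarith) hYY (by positivity))
  set V := P.image Prod.snd with hV
  set F := V.filter (fun y => Y ^ (1 / 4 - 2 * κ) ≤ ((P.filter (fun w => w.2 = y)).card : ℝ)) with hF
  obtain ⟨hZ1, hZ2⟩ := Z_facts K (κ / (4 * K)) Y (by linarith) (by positivity) hY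
  have e : K * (κ / (4 * K)) = κ / 4 := by field_simp
  rw [e] at hZ2
  -- number of second members
  have hVc : (V.card : ℝ) ≤ C * Y ^ (κ / 4) * Y ^ ((1 + κ) / 2) := by
    have h1 := hb ⌊Y ^ K⌋₊ (Y ^ ((1 + κ) / 2)) V hZ1 (by positivity) (by
      intro y hy
      rw [hV, Finset.mem_image] at hy
      obtain ⟨w, hw, rfl⟩ := hy
      obtain ⟨a1, a2, a3, a4, a5, a6, a7, a8⟩ := hG.base w hw
      exact ⟨a2, Nat.le_floor a8, (hG.rad2 w hw).2⟩)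
    refine h1.trans ?_
    gcongr
  -- degrees
  have hdeg : ∀ y ∈ V, ((P.filter (fun w => w.2 = y)).card : ℝ) ≤ Y ^ (1 / 4 + κ) := by
    intro y hy
    rw [hV, Finset.mem_image] at hy
    obtain ⟨w, hw, rfl⟩ := hy
    have h1 := hG.qr1 w hw 1 ⟨w.1.natAbs, by rw [one_mul], Nat.coprime_one_left _⟩
    have h2 : rd 1 = 1 := by simp [rd]
    have h3 : P.filter (fun w' : ℤ × ℤ => w'.2 = w.2) ⊆ P.filter (fun w' : ℤ × ℤ => w'.2 = w.2 ∧ UDvd 1 w'.1.natAbs) := by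
      intro z hz
      rw [Finset.mem_filter] at hz ⊢
      exact ⟨hz.1, hz.2, z.1.natAbs, by rw [one_mul], Nat.coprime_one_left _⟩
    have h4 : ((P.filter (fun w' : ℤ × ℤ => w'.2 = w.2)).card : ℝ) ≤
        ((P.filter (fun w' : ℤ × ℤ => w'.2 = w.2 ∧ UDvd 1 w'.1.natAbs)).card : ℝ) := by
      exact_mod_cast Finset.card_le_card h3
    refine h4.trans (h1.trans ?_)
    rw [h2, Nat.cast_one, div_one, max_eq_right (Real.one_le_rpow hY (by norm_num)), ← Real.rpow_add hYpos]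
  have hsum : (P.card : ℝ) = ∑ y ∈ V, ((P.filter (fun w => w.2 = y)).card : ℝ) := by
    have h1 := Finset.card_eq_sum_card_fiberwise (s := P) (t := V) (f := Prod.snd)
      (fun w hw => Finset.mem_image_of_mem _ hw)
    rw [h1]
    push_cast
    rfl
  have hle : (P.card : ℝ) ≤ (F.card : ℝ) * Y ^ (1 / 4 + κ) + (V.card : ℝ) * Y ^ (1 / 4 - 2 * κ) := by
    rw [hsum, ← Finset.sum_filter_add_sum_filter_not V (fun y => Y ^ (1 / 4 - 2 * κ) ≤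
      ((P.filter (fun w => w.2 = y)).card : ℝ))]
    apply add_le_add
    · calc _ ≤ ∑ _y ∈ F, Y ^ (1 / 4 + κ) := Finset.sum_le_sum (fun y hy => hdeg y (Finset.mem_filter.mp hy).1)
        _ = _ := by rw [Finset.sum_const, nsmul_eq_mul]
    · calc _ ≤ ∑ _y ∈ V.filter (fun y => ¬ Y ^ (1 / 4 - 2 * κ) ≤ ((P.filter (fun w => w.2 = y)).card : ℝ)),
            Y ^ (1 / 4 - 2 * κ) := Finset.sum_le_sum (fun y hy => by
              have := (Finset.mem_filter.mp hy).2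
              push Not at this
              exact this.le)
        _ = ((V.filter (fun y => ¬ Y ^ (1 / 4 - 2 * κ) ≤ ((P.filter (fun w => w.2 = y)).card : ℝ))).card : ℝ) *
            Y ^ (1 / 4 - 2 * κ) := by rw [Finset.sum_const, nsmul_eq_mul]
        _ ≤ (V.card : ℝ) * Y ^ (1 / 4 - 2 * κ) := by
            gcongr
            exact Finset.filter_subset _ _
  have h1 : (V.card : ℝ) * Y ^ (1 / 4 - 2 * κ) ≤ 1 / 2 * Y ^ (3 / 4 - κ) := by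
    calc (V.card : ℝ) * Y ^ (1 / 4 - 2 * κ) ≤ C * Y ^ (κ / 4) * Y ^ ((1 + κ) / 2) * Y ^ (1 / 4 - 2 * κ) := by gcongr
      _ = C * Y ^ (3 / 4 - 5 / 4 * κ) := by
          rw [mul_assoc, mul_assoc, ← Real.rpow_add hYpos, ← Real.rpow_add hYpos]
          congr 2
          ring
      _ ≤ 1 / 2 * Y ^ (κ / 4) * Y ^ (3 / 4 - 5 / 4 * κ) := by
          apply mul_le_mul_of_nonneg_right _ (by positivity)
          linarith
      _ = 1 / 2 * Y ^ (3 / 4 - κ) := by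
          rw [mul_assoc, ← Real.rpow_add hYpos]
          congr 2
          ring
  have h2 : 1 / 2 * Y ^ (3 / 4 - κ) ≤ (F.card : ℝ) * Y ^ (1 / 4 + κ) := by linarith
  have h3 : (2 : ℝ) ≤ Y ^ κ := by
    have h4 : (2 : ℝ) ≤ Y ^ (κ / 4) := by linarith
    exact h4.trans (Real.rpow_le_rpow_of_exponent_le hY (by linarith))
  have h4 : Y ^ (1 / 2 - 3 * κ) * Y ^ (1 / 4 + κ) ≤ (F.card : ℝ) * Y ^ (1 / 4 + κ) := by
    refine le_trans ?_ h2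
    have e1 : Y ^ (1 / 2 - 3 * κ) * Y ^ (1 / 4 + κ) * Y ^ κ = Y ^ (3 / 4 - κ) := by
      rw [← Real.rpow_add hYpos, ← Real.rpow_add hYpos]
      congr 1
      ring
    rw [← e1]
    have e2 : 0 ≤ Y ^ (1 / 2 - 3 * κ) * Y ^ (1 / 4 + κ) := by positivity
    exact ext_half_aux _ _ e2 h3
  exact le_of_mul_le_mul_right h4 (Real.rpow_pos_of_pos hYpos _)

/-- one side is a square -/
theorem few_square (K ε0 : ℝ) (hK : 2 ≤ K) (_he0 : -1 / 100 ≤ ε0) : Few K ε0 (fun _ w => IsSquare w.1) := few_square_g K ε0 hK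

open scoped Classical in
/-- many critical fixed sides -/
theorem critical (K ε0 κ : ℝ) (hK : 2 ≤ K) (_he0 : -1 / 100 ≤ ε0) (hκ : 0 < κ) (hκ1 : κ ≤ 1 / 100) : ∃ Y0 : ℝ, 1 ≤ Y0 ∧
    ∀ Y : ℝ, Y0 ≤ Y → ∀ P : Finset (ℤ × ℤ), Good K ε0 κ Y P → Y ^ (3 / 4 - κ) ≤ (P.card : ℝ) →
      Y ^ (1 / 2 - 3 * κ) ≤ (((P.image Prod.snd).filter (fun y => Y ^ (1 / 4 - 2 * κ) ≤
        ((P.filter (fun w => w.2 = y)).card : ℝ))).card : ℝ) := critical_g K ε0 κ hK hκ hκ1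

end Hp

end Pool.Agent.Lib.MP_d8bd92_nt
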