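import Pool.Agent.Lib.MP_d8bd92_nt.Hp.Sm0
import Pool.Agent.Lib.MP_d8bd92_nt.Hp.Preds
import Pool.Agent.Lib.MP_d8bd92_nt.Hp.BA

set_option autoImplicit false

/-!
Pairs with one small radical: from columns to pairs.
-/

namespace Pool.Agent.Lib.MP_d8bd92_nt

namespace Hp

open Finset Pool.Agent.Lib.Szpiro

/-- from columns to pairs.  Proof: `S ≤ #(S.image fst) * max` ; the first members `x = w.1` satisfy `rd |x| ≤ Y ^ (1/4 + κ)`, `1 ≤ |x| ≤ Y ^ K`: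
`count_rad (κ / (2 K))` (BA) gives at most `C Y ^ (κ/2) Y ^ (1/4 + κ)` of them.  For fixed `x`: `exists_sqfree x`, `D ≠ 1` as `x` is not a square, the swapped fibre is a `Col`. -/
theorem col_sum (K ε0 κ : ℝ) (hK : 2 ≤ K) (hκ : 0 < κ) (U : ℝ → ℤ × ℤ → Prop)
    (hU : ∀ Y w, U Y w → ra w ≤ Y ^ (1 / 4 + κ)) (hcol : ∃ C : ℝ, 1 ≤ C ∧
    ∀ (Y : ℝ) (D : ℤ) (f : ℕ) (S : Finset (ℤ × ℤ)), 1 ≤ Y → Col K ε0 Y D f S → (∀ w ∈ S, U Y w.swap) →
      (S.card : ℝ) ≤ C * Y ^ (1 / 2 - 2 * κ)) : ∃ C : ℝ, 1 ≤ C ∧ ∀ (Y : ℝ) (S : Finset (ℤ × ℤ)), 1 ≤ Y →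
    (∀ w ∈ S, w ∈ PairSet K ε0 Y ∧ U Y w ∧ ¬ IsSquare w.1) → (S.card : ℝ) ≤ C * Y ^ (3 / 4 - κ / 2) := by
  classical
  obtain ⟨C1, hC1, h1⟩ := hcol
  have hK0 : 0 < K := by linarith
  have hσ : 0 < κ / (2 * K) := by positivity
  obtain ⟨C2, hC2, h2⟩ := count_rad (κ / (2 * K)) hσ
  refine ⟨C1 * C2, by nlinarith, ?_⟩
  intro Y S hY hS
  have hY0 : 0 < Y := by linarith
  -- the fibres
  have hfib : ∀ x ∈ S.image Prod.fst,
      ((S.filter (fun w => w.1 = x)).card : ℝ) ≤ C1 * Y ^ (1 / 2 - 2 * κ) := by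
    intro x hx
    obtain ⟨w0, hw0, hw0x⟩ := Finset.mem_image.1 hx
    obtain ⟨hw0P, _, hw0s⟩ := hS w0 hw0
    have hx0 : x ≠ 0 := by
      rw [← hw0x]
      exact hw0P.1
    obtain ⟨D, f, hD, hf, hxD⟩ := exists_sqfree x hx0
    have hD1 : D ≠ 1 := by
      intro hD1
      apply hw0s
      rw [hw0x, hxD, hD1, mul_one]
      exact ⟨(f : ℤ), by ring⟩
    have hcard : ((S.filter (fun w => w.1 = x)).image Prod.swap).card =
        (S.filter (fun w => w.1 = x)).card :=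
      Finset.card_image_of_injective _ Prod.swap_injective
    have hCol : Col K ε0 Y D f ((S.filter (fun w => w.1 = x)).image Prod.swap) := by
      refine ⟨hD, hD1, hf, ?_, ?_⟩
      · intro w hw
        obtain ⟨v, hv, rfl⟩ := Finset.mem_image.1 hw
        rw [Prod.swap_swap]
        exact (hS v (Finset.mem_filter.1 hv).1).1
      · intro w hw
        obtain ⟨v, hv, rfl⟩ := Finset.mem_image.1 hw
        rw [Prod.snd_swap, (Finset.mem_filter.1 hv).2]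
        exact hxD
    have h3 := h1 Y D f _ hY hCol (by
      intro w hw
      obtain ⟨v, hv, rfl⟩ := Finset.mem_image.1 hw
      rw [Prod.swap_swap]
      exact (hS v (Finset.mem_filter.1 hv).1).2.1)
    rw [hcard] at h3
    exact h3
  -- the first members
  have hYK1 : 1 ≤ Y ^ K := Real.one_le_rpow hY hK0.le
  have hZ1 : 1 ≤ ⌊Y ^ K⌋₊ := Nat.le_floor (by rw [Nat.cast_one]; exact hYK1)
  have hZle : ((⌊Y ^ K⌋₊ : ℕ) : ℝ) ≤ Y ^ K := Nat.floor_le (by linarith)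
  have hX0 : 0 ≤ Y ^ (1 / 4 + κ) := Real.rpow_nonneg hY0.le _
  have h4 := h2 ⌊Y ^ K⌋₊ (Y ^ (1 / 4 + κ)) (S.image Prod.fst) hZ1 hX0 (by
    intro a ha
    obtain ⟨w, hw, rfl⟩ := Finset.mem_image.1 ha
    obtain ⟨hwP, hwU, _⟩ := hS w hw
    obtain ⟨hn1, _, _, _, _, _, hb1, _⟩ := hwP
    refine ⟨hn1, Nat.le_floor hb1, ?_⟩
    exact hU Y w hwU)
  have h5 : ((⌊Y ^ K⌋₊ : ℕ) : ℝ) ^ (κ / (2 * K)) ≤ Y ^ (κ / 2) := by
    refine (Real.rpow_le_rpow (Nat.cast_nonneg _) hZle hσ.le).trans ?_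
    rw [← Real.rpow_mul hY0.le]
    apply le_of_eq
    congr 1
    field_simp
  have h6 : ((S.image Prod.fst).card : ℝ) ≤ C2 * Y ^ (κ / 2) * Y ^ (1 / 4 + κ) := by
    refine h4.trans ?_
    refine mul_le_mul_of_nonneg_right ?_ hX0
    exact mul_le_mul_of_nonneg_left h5 (by linarith)
  -- the sum
  have h7 : (S.card : ℝ) = ∑ x ∈ S.image Prod.fst, ((S.filter (fun w => w.1 = x)).card : ℝ) := by
    rw [Finset.card_eq_sum_card_image Prod.fst S, Nat.cast_sum]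
  have h8 : (S.card : ℝ) ≤ ((S.image Prod.fst).card : ℝ) * (C1 * Y ^ (1 / 2 - 2 * κ)) := by
    rw [h7]
    refine (Finset.sum_le_card_nsmul _ _ _ hfib).trans ?_
    rw [nsmul_eq_mul]
  have h9 : 0 ≤ C1 * Y ^ (1 / 2 - 2 * κ) :=
    mul_nonneg (by linarith) (Real.rpow_nonneg hY0.le _)
  refine h8.trans ((mul_le_mul_of_nonneg_right h6 h9).trans (le_of_eq ?_))
  have h10 : Y ^ (3 / 4 - κ / 2) = Y ^ (κ / 2) * Y ^ (1 / 4 + κ) * Y ^ (1 / 2 - 2 * κ) := by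
    rw [← Real.rpow_add hY0, ← Real.rpow_add hY0]
    congr 1
    ring
  rw [h10]
  ring

end Hp

end Pool.Agent.Lib.MP_d8bd92_nt
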