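import Pool.Agent.Lib.MP_d8bd92_nt.Hp.Sm0
import Pool.Agent.Lib.MP_d8bd92_nt.ToD
import Pool.Agent.Lib.MP_d8bd92_nt.CdA

set_option autoImplicit false

/-!
Pairs with one small radical, tools 3: heavy divisors, numbers of labels.
-/

namespace Pool.Agent.Lib.MP_d8bd92_nt

namespace Hp

open Finset Pool.Agent.Lib.Szpiro

/-- a heavy divisor determines the pair up to few possibilities.  Proof: copy the private theorem `BI_fiber` of Hp/BI.lean (with the two members exchanged):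
`split_fiber` (ToD.lean) with `α = sign Δ`, `β = sign w.1`, `m = |Δ|`, `k = m`, `G = 1`. -/
theorem heavy_fib (Δ : ℤ) (m : ℕ) (T : Finset (ℤ × ℤ))
    (hT : ∀ w ∈ T, w.2 = Δ ∧ w.1 ≠ 0 ∧ w.2 ≠ 0 ∧ IsCoprime w.1 w.2 ∧ (∃ g : ℤ, w.1 + w.2 = g ^ 2) ∧ m ∣ w.1.natAbs ∧
      w.1.natAbs ≤ m ^ 2) (hs : ∀ w ∈ T, ∀ w' ∈ T, (0 < w.1 ↔ 0 < w'.1)) :
    (T.card : ℝ) ≤ 5 * (m.divisors.card : ℝ) := by
  classical
  rcases T.eq_empty_or_nonempty with hE | ⟨w0, hw0⟩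
  · rw [hE, Finset.card_empty]
    push_cast
    positivity
  obtain ⟨h1, h2, h3, h4, h5, h6, h7⟩ := hT w0 hw0
  have hx : Δ ≠ 0 := by rw [← h1]; exact h3
  have hκ : m ≠ 0 := by
    rintro rfl
    exact h2 (Int.natAbs_eq_zero.mp (Nat.eq_zero_of_zero_dvd h6))
  obtain ⟨s, hs1, hsT⟩ : ∃ s : ℤ, (s = 1 ∨ s = -1) ∧ ∀ w ∈ T, w.1 = s * (w.1.natAbs : ℤ) := by
    by_cases h0 : 0 < w0.1
    · refine ⟨1, Or.inl rfl, fun w hw => ?_⟩
      have := (hs w0 hw0 w hw).mp h0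
      rw [one_mul, Int.natAbs_of_nonneg this.le]
    · refine ⟨-1, Or.inr rfl, fun w hw => ?_⟩
      have h8 : ¬ 0 < w.1 := fun h => h0 ((hs w0 hw0 w hw).mpr h)
      rw [neg_one_mul, Int.ofNat_natAbs_of_nonpos (not_lt.mp h8), neg_neg]
  have hs0 : s ≠ 0 := by rcases hs1 with h | h <;> rw [h] <;> norm_num
  have hsa : s.natAbs = 1 := by rcases hs1 with h | h <;> rw [h] <;> rfl
  have hsx : Δ.sign ≠ 0 := by
    intro h
    exact hx (Int.sign_eq_zero_iff_zero.mp h)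
  have hinj : T.card = (T.image (fun w : ℤ × ℤ => w.1.natAbs)).card := by
    rw [Finset.card_image_of_injOn]
    intro a ha b hb hab
    simp only at hab
    refine Prod.ext ?_ ((hT a ha).1.trans (hT b hb).1.symm)
    rw [hsT a ha, hsT b hb, hab]
  have hmain := split_fiber Δ.sign s hs0 1 Δ.natAbs m hκ (T.image (fun w : ℤ × ℤ => w.1.natAbs))
    (by
      intro n hn
      rw [Finset.mem_image] at hn
      obtain ⟨w, hw, rfl⟩ := hn
      obtain ⟨w1, w2, w3, w4, ⟨g, w5⟩, w6, w7⟩ := hT w hw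
      refine ⟨w6, Int.natAbs_pos.mpr w2, w7, ?_, g, ?_⟩
      · have h := Int.isCoprime_iff_gcd_eq_one.mp w4.symm
        rw [w1] at h
        exact le_of_eq h
      · rw [Int.sign_mul_natAbs, ← hsT w hw, ← w5, w1, add_comm])
    hsx
  rw [← hinj] at hmain
  refine hmain.trans (le_of_eq ?_)
  rw [Int.natAbs_sign_of_ne_zero hx, hsa]
  push_cast
  ring

/-- number of labels of odd divisors with radical at most `X`.  Proof: `card_idl_le ε` (AlG): `lbl_eq_idl` gives `lbl (A w) (el D w f) = idl D (A w) r`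
(the norm is `w.1` by `PCls.norm`, `el_cop`), `1 ≤ A w ≤ |w.1| ≤ Z`, `A w` prime to `D`.  If `T` is empty the bound is trivial. -/
theorem sm_label_count (ε : ℝ) (hε : 0 < ε) : ∃ C : ℝ, 1 ≤ C ∧ ∀ (Z X : ℝ) (D : ℤ) (f : ℕ) (S : Finset (ℤ × ℤ))
    (A : ℤ × ℤ → ℕ), PCls Z D f S → 1 ≤ X → (∀ w ∈ S, Odd (A w) ∧ A w ∣ w.1.natAbs ∧ (rd (A w) : ℝ) ≤ X) →
    ∀ T : Finset (Ideal (ℤ√D)), (∀ I ∈ T, ∃ w ∈ S, I = lbl (A w) (el D w f)) → (T.card : ℝ) ≤ C * Z ^ ε * X := by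
  obtain ⟨C, hC, H⟩ := card_idl_le ε hε
  refine ⟨max C 1, le_max_right _ _, ?_⟩
  intro Z X D f S A hP hX hA T hT
  have hZ := hP.hZ
  have hZ0 : 0 < Z := by linarith
  have h1 : (T.card : ℝ) ≤ C * Z ^ ε * X := by
    refine H D Z X T hZ hX ?_
    intro I hI
    obtain ⟨w, hw, rfl⟩ := hT I hI
    obtain ⟨hodd, hdvd, hrd⟩ := hA w hw
    have hn := hP.norm hw
    have hdz : ((A w : ℕ) : ℤ) ∣ (el D w f).norm := by
      rw [hn]
      exact Int.natCast_dvd.mpr hdvd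
    obtain ⟨r, hr1, -, hr3⟩ := lbl_eq_idl (el D w f) (Odd.pos hodd) hdz
      (el_cop (hP.sq w hw) (hP.eq w hw) (hP.cop w hw))
    refine ⟨A w, r, Odd.pos hodd, ?_, hodd, ?_, hrd, hr1, hr3⟩
    · have h2 : A w ≤ w.1.natAbs := Nat.le_of_dvd (Int.natAbs_pos.mpr (hP.n1 w hw)) hdvd
      have h3 : ((A w : ℕ) : ℝ) ≤ (w.1.natAbs : ℝ) := by exact_mod_cast h2
      exact h3.trans (hP.b1 w hw)
    · have h2 := hP.cop w hw
      rw [hP.eq w hw] at h2
      exact (IsCoprime.of_mul_right_right h2).of_isCoprime_of_dvd_left (Int.natCast_dvd.mpr hdvd)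
  refine h1.trans ?_
  have : 0 ≤ Z ^ ε := by positivity
  have hX0 : 0 ≤ X := by linarith
  gcongr
  exact le_max_left _ _

end Hp

end Pool.Agent.Lib.MP_d8bd92_nt
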