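import Pool.Agent.Lib.MP_d8bd92_nt.Hp.Sm2
import Pool.Agent.Lib.MP_d8bd92_nt.Hp.Sm3

set_option autoImplicit false

/-!
Pairs with one small radical: the type `U3` at a fixed member.
-/

namespace Pool.Agent.Lib.MP_d8bd92_nt

namespace Hp

open Finset Pool.Agent.Lib.Szpiro

/-- data of a pair of type `U3` -/
private structure SmU3_d (Y κ : ℝ) (w : ℤ × ℤ) (e A B t l : ℕ) : Prop where
  fac : w.1.natAbs = 2 ^ e * A * B * t ^ l
  oA : Odd A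
  oB : Odd B
  ot : Odd t
  AB : Nat.Coprime A B
  At : Nat.Coprime A t
  Bt : Nat.Coprime B t
  pt : t.Prime
  hl : 1 ≤ l
  rA : (rd A : ℝ) ≤ Y ^ (1 / 4 + 2 * κ)
  rB : (rd B : ℝ) ≤ Y ^ (1 / 4 + 2 * κ)
  thi : (t : ℝ) ≤ Y ^ (1 / 4 + κ)
  tlo : Y ^ (1 / 5 : ℝ) ≤ (t : ℝ)
  hA : w.1.natAbs ≤ (A * t ^ l) ^ 2
  hB : w.1.natAbs ≤ (B * t ^ l) ^ 2

private theorem SmU3_two {Y κ : ℝ} (hY : 1000 < Y) (hκ1 : κ ≤ 1 / 100) :
    2 < Y ^ (1 / 5 : ℝ) ∧ Y ^ (1 / 5 : ℝ) ≤ Y ^ (1 / 4 - κ) := by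
  constructor
  · have h1 : (2 : ℝ) = (32 : ℝ) ^ (1 / 5 : ℝ) := by
      rw [show (32 : ℝ) = 2 ^ (5 : ℝ) by norm_num, ← Real.rpow_mul (by norm_num)]
      norm_num
    rw [h1]
    exact Real.rpow_lt_rpow (by norm_num) (by linarith only [hY]) (by norm_num)
  · exact Real.rpow_le_rpow_of_exponent_le (by linarith only [hY]) (by linarith only [hκ1])

private theorem SmU3_odd {Y κ : ℝ} (hY : 1000 < Y) (hκ1 : κ ≤ 1 / 100) {p : ℕ} (hp : p.Prime)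
    (h : Y ^ (1 / 4 - κ) ≤ (p : ℝ)) : Odd p := by
  obtain ⟨h1, h2⟩ := SmU3_two hY hκ1
  have h3 : (2 : ℝ) < (p : ℝ) := h1.trans_le (h2.trans h)
  have h4 : 2 < p := by exact_mod_cast h3
  exact hp.odd_of_ne_two (by omega)

private theorem SmU3_data {Y κ : ℝ} (hY : 1000 < Y) (hκ : 0 < κ) (hκ1 : κ ≤ 1 / 100) (w : ℤ × ℤ)
    (h : U3 Y κ w.swap) : ∃ e A B t l : ℕ, SmU3_d Y κ w e A B t l := by
  have hY0 : (0 : ℝ) < Y := by linarith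
  have hY1 : (1 : ℝ) ≤ Y := by linarith
  obtain ⟨-, -, p, q, r, i, j, k, u, hp, hq, hr, hpq, hpr, hqr, hi, hj, hk, hu, hcop, hfac, hpl, hph, hql, hqh, hrl,
    hrh, hru, h1, h2, h3⟩ := h
  simp only [Prod.snd_swap] at hfac h1 h2 h3
  obtain ⟨e, a, ha, hue⟩ := Nat.exists_eq_two_pow_mul_odd (n := u) (by omega)
  have hop := SmU3_odd hY hκ1 hp hpl
  have hoq := SmU3_odd hY hκ1 hq hql
  have hor := SmU3_odd hY hκ1 hr hrl
  have hau : a ∣ u := by rw [hue]; exact dvd_mul_left _ _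
  have ha0 : a ≠ 0 := by rintro rfl; exact absurd ha (by decide)
  have hcpq : Nat.Coprime (p * q) u := Nat.Coprime.coprime_mul_right hcop
  have hcr : Nat.Coprime r u := Nat.Coprime.coprime_mul_left hcop
  have hcp : Nat.Coprime p u := Nat.Coprime.coprime_mul_right hcpq
  have hcq : Nat.Coprime q u := Nat.Coprime.coprime_mul_left hcpq
  have hcpa : Nat.Coprime p a := Nat.Coprime.coprime_dvd_right hau hcp
  have hcqa : Nat.Coprime q a := Nat.Coprime.coprime_dvd_right hau hcq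
  have hcra : Nat.Coprime r a := Nat.Coprime.coprime_dvd_right hau hcr
  have hpq' : Nat.Coprime p q := (Nat.coprime_primes hp hq).2 hpq
  have hpr' : Nat.Coprime p r := (Nat.coprime_primes hp hr).2 hpr
  have hqr' : Nat.Coprime q r := (Nat.coprime_primes hq hr).2 hqr
  have hrda : (rd a : ℝ) ≤ Y ^ κ := by
    refine le_trans ?_ hru
    exact_mod_cast rd_dvd_le (by omega) hau
  have hpi : p ^ i ≠ 0 := pow_ne_zero _ hp.ne_zero
  have ha1 : 1 ≤ a := Nat.one_le_iff_ne_zero.2 ha0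
  refine ⟨e, a * p ^ i, q ^ j, r, k, ?_, ha.mul hop.pow, hoq.pow, hor, ?_, ?_, ?_, hr, hk, ?_, ?_, hrh, ?_, ?_, ?_⟩
  · rw [hfac, hue]; ring
  · exact Nat.Coprime.mul_left (Nat.Coprime.pow_right _ hcqa.symm) (Nat.Coprime.pow _ _ hpq')
  · exact Nat.Coprime.mul_left hcra.symm (Nat.Coprime.pow_left _ hpr')
  · exact Nat.Coprime.pow_left _ hqr'
  · rw [rd_mul_coprime a (p ^ i) ha0 hpi (Nat.Coprime.pow_right _ hcpa.symm), rd_prime_pow p i hp (by omega)]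
    push_cast
    have e1 : Y ^ (1 / 4 + 2 * κ) = Y ^ κ * Y ^ (1 / 4 + κ) := by
      rw [← Real.rpow_add hY0]
      congr 1
      ring
    rw [e1]
    exact mul_le_mul hrda hph (Nat.cast_nonneg _) (by positivity)
  · rw [rd_prime_pow q j hq (by omega)]
    exact hqh.trans (Real.rpow_le_rpow_of_exponent_le hY1 (by linarith))
  · exact (SmU3_two hY hκ1).2.trans hrl
  · refine h2.trans (Nat.pow_le_pow_left ?_ 2)
    calc p ^ i * r ^ k = 1 * p ^ i * r ^ k := by ring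
      _ ≤ a * p ^ i * r ^ k := Nat.mul_le_mul_right _ (Nat.mul_le_mul_right _ ha1)
  · exact h3

theorem SmU3_a1 {N N0 : ℝ} (hN : 0 ≤ N) (h : 1 ≤ N0) :
    4 * N * (1 + 2 * ((2 : ℕ) : ℝ) * N0) ≤ 20 * N * N0 := by
  have h0 : N ≤ N * N0 := le_mul_of_one_le_right hN h
  push_cast
  linarith

theorem SmU3_a2 {G : ℝ} (h : 0 ≤ G) : G ≤ (1 + G) ^ 2 := by
  have h0 : 0 ≤ G ^ 2 := sq_nonneg G
  linarith [add_sq 1 G]

open scoped Classical in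
private theorem SmU3_main (K ε0 κ τ : ℝ) (hK : 2 ≤ K) (hε : -1 / 100 ≤ ε0) (hκ : 0 < κ) (hκ1 : κ ≤ 1 / 100) (hτ : 0 < τ) :
    ∃ C : ℝ, 1 ≤ C ∧ ∀ (Y E : ℝ) (D : ℤ) (f l : ℕ) (S : Finset (ℤ × ℤ)) (e A B t : ℤ × ℤ → ℕ)
      (Q : Ideal (ℤ√D)), 1000 < Y → PCls (Y ^ K) D f S → S.Nonempty →
      (∀ w ∈ S, Y ^ (2 + ε0) ≤ max (w.1.natAbs : ℝ) (w.2.natAbs : ℝ)) → (∀ w ∈ S, (rd w.2.natAbs : ℝ) ≤ Y ^ (1 / 4 + κ)) →
      (∀ w ∈ S, SmU3_d Y κ w (e w) (A w) (B w) (t w) l) → (∀ w ∈ S, lbl (2 ^ e w) (el D w f) = Q) →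
      1 ≤ E → E ≤ Y ^ K → (∀ w ∈ S, E ≤ (t w : ℝ) ∧ (t w : ℝ) ≤ 2 * E) →
      (S.card : ℝ) ≤ C * Y ^ (7 / 16 + 13 * κ / 4 + 3 * τ) := by
  have hK0 : (0 : ℝ) < K := lt_of_lt_of_le two_pos hK
  set ε : ℝ := τ / K with hεdef
  have hε' : 0 < ε := div_pos hτ hK0
  have hKε : K * ε = τ := by rw [hεdef]; field_simp
  obtain ⟨C1, hC1, H1⟩ := sm_label_count ε hε'
  obtain ⟨C2, hC2, H2⟩ := card_divisors_le_rpow ε hε'
  obtain ⟨C3, hC3, H3⟩ := walk_el ε hε' ⌈5 * K⌉₊ 2 (by norm_num)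
  refine ⟨100 * C1 * C2 + (1 + 3600 * C1 ^ 3 * C2 ^ 2 * C3 * 3 ^ ε), ?_, ?_⟩
  · have h1 : 0 ≤ 3600 * C1 ^ 3 * C2 ^ 2 * C3 * 3 ^ ε := by positivity
    have h2 : 0 ≤ 100 * C1 * C2 := by positivity
    linarith only [h1, h2]
  intro Y E D f l S e A B t Q hY hP hne hmax hrad hd hQ hE1 hEK hE
  have hY0 : (0 : ℝ) < Y := lt_trans (by norm_num) hY
  have hY1 : (1 : ℝ) ≤ Y := le_trans (by norm_num) hY.le
  have hYK : (1 : ℝ) ≤ Y ^ K := Real.one_le_rpow hY1 hK0.le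
  have hYKε : (Y ^ K) ^ ε = Y ^ τ := by rw [← Real.rpow_mul hY0.le, hKε]
  have hYτ : (1 : ℝ) ≤ Y ^ τ := Real.one_le_rpow hY1 hτ.le
  obtain ⟨θ, hcls, hθ⟩ := hP.cls hne
  -- exponent bound
  have hlL : l ≤ ⌈5 * K⌉₊ := by
    obtain ⟨w0, hw0⟩ := hne
    have h1 := hd w0 hw0
    have h2 : (t w0 ^ l : ℕ) ≤ w0.1.natAbs := by
      refine Nat.le_of_dvd (Int.natAbs_pos.2 (hP.n1 w0 hw0)) ?_
      rw [h1.fac]
      exact dvd_mul_left _ _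
    have h3 : ((t w0 : ℝ)) ^ l ≤ Y ^ K := by
      refine le_trans ?_ (hP.b1 w0 hw0)
      exact_mod_cast h2
    have h4 : (Y ^ (1 / 5 : ℝ)) ^ l ≤ Y ^ K := le_trans (pow_le_pow_left₀ (Real.rpow_nonneg hY0.le _) h1.tlo l) h3
    rw [← Real.rpow_natCast, ← Real.rpow_mul hY0.le] at h4
    have h5 : 1 / 5 * (l : ℝ) ≤ K := (Real.rpow_le_rpow_left_iff (lt_trans (by norm_num) hY)).1 h4
    have h6 : (l : ℝ) ≤ 5 * K := by linarith only [h5]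
    exact_mod_cast h6.trans (Nat.le_ceil _)
  have hfacs : ElFac (3 * Y ^ K) E D l S (fun w => el D w f) e A B t Q := by
    obtain ⟨w0, hw0⟩ := hne
    refine ⟨(hd w0 hw0).hl, hE1, by linarith only [hEK, hYK], ?_, fun w hw => (hd w hw).oA, fun w hw => (hd w hw).oB,
      fun w hw => (hd w hw).ot, fun w hw => (hd w hw).AB, fun w hw => (hd w hw).At, fun w hw => (hd w hw).Bt,
      fun w hw => (hd w hw).pt.squarefree, fun w hw => (hE w hw).1, fun w hw => (hE w hw).2, hQ⟩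
    intro w hw
    simp only [hP.norm hw]
    exact (hd w hw).fac
  have hX : (1 : ℝ) ≤ Y ^ (1 / 4 + 2 * κ) := Real.one_le_rpow hY1 (by linarith only [hκ])
  -- label counts
  obtain ⟨N, hN⟩ : ∃ N : ℝ, N = C1 * Y ^ τ * Y ^ (1 / 4 + 2 * κ) := ⟨_, rfl⟩
  have hN1 : 1 ≤ N := by
    rw [hN]
    exact one_le_mul_of_one_le_of_one_le (one_le_mul_of_one_le_of_one_le hC1 hYτ) hX
  have hNA : ((S.image (fun w => lbl (A w) (el D w f))).card : ℝ) ≤ N := by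
    rw [hN, ← hYKε]
    refine H1 (Y ^ K) _ D f S A hP hX (fun w hw => ⟨(hd w hw).oA, ?_, (hd w hw).rA⟩) _ ?_
    · rw [(hd w hw).fac]
      exact Dvd.dvd.mul_right (Dvd.dvd.mul_right (dvd_mul_left _ _) _) _
    · intro I hI
      obtain ⟨w, hw, rfl⟩ := Finset.mem_image.1 hI
      exact ⟨w, hw, rfl⟩
  have hNB : ((S.image (fun w => lbl (B w) (el D w f))).card : ℝ) ≤ N := by
    rw [hN, ← hYKε]
    refine H1 (Y ^ K) _ D f S B hP hX (fun w hw => ⟨(hd w hw).oB, ?_, (hd w hw).rB⟩) _ ?_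
    · rw [(hd w hw).fac]
      exact Dvd.dvd.mul_right (dvd_mul_left _ _) _
    · intro I hI
      obtain ⟨w, hw, rfl⟩ := Finset.mem_image.1 hI
      exact ⟨w, hw, rfl⟩
  -- fibres
  obtain ⟨N0, hN0⟩ : ∃ N0 : ℝ, N0 = 5 * (C2 * Y ^ τ) := ⟨_, rfl⟩
  have hN01 : 1 ≤ N0 := by
    have h1 : 1 ≤ C2 * Y ^ τ := one_le_mul_of_one_le_of_one_le hC2 hYτ
    rw [hN0]
    linarith only [h1]
  have hfib : ∀ T ⊆ S, ∀ m : ℕ, (∀ w ∈ T, m ∣ w.1.natAbs ∧ w.1.natAbs ≤ m ^ 2) → (T.card : ℝ) ≤ N0 := by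
    intro T hT m hm
    rcases T.eq_empty_or_nonempty with h0 | ⟨w1, hw1⟩
    · rw [h0, Finset.card_empty, Nat.cast_zero]
      exact zero_le_one.trans hN01
    have hw1S := hT hw1
    have hm0 : m ≠ 0 := by
      rintro rfl
      exact hP.n1 w1 hw1S (Int.natAbs_eq_zero.1 (Nat.eq_zero_of_zero_dvd (hm w1 hw1).1))
    have hmK : (m : ℝ) ≤ Y ^ K := by
      refine le_trans ?_ (hP.b1 w1 hw1S)
      exact_mod_cast Nat.le_of_dvd (Int.natAbs_pos.2 (hP.n1 w1 hw1S)) (hm w1 hw1).1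
    have h1 := heavy_fib ((f : ℤ) ^ 2 * D) m T (fun w hw => ⟨hP.eq w (hT hw), hP.n1 w (hT hw), ?_, hP.cop w (hT hw),
      hP.sq w (hT hw), (hm w hw).1, (hm w hw).2⟩) (fun w hw w' hw' => hP.sg w (hT hw) w' (hT hw'))
    · have h2 := H2 m hm0
      have h3 : (m : ℝ) ^ ε ≤ Y ^ τ := by
        rw [← hYKε]
        exact Real.rpow_le_rpow (Nat.cast_nonneg _) hmK hε'.le
      rw [hN0]
      have h4 : ((m.divisors.card : ℕ) : ℝ) ≤ C2 * Y ^ τ :=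
        h2.trans (mul_le_mul_of_nonneg_left h3 (zero_le_one.trans hC2))
      linarith only [h1, h4]
    · rw [hP.eq w (hT hw)]
      have := hP.hf
      have hD0 := hP.hD.ne_zero
      exact mul_ne_zero (by positivity) hD0
  have hcop' : ∀ w ∈ S, IsCoprime (el D w f).norm ((el D w f).im ^ 2 * D) := hcls.cop
  have hAeq : ∀ w ∈ S, ∀ w' ∈ S, lbl (A w') (el D w' f) = lbl (A w) (el D w f) → A w' = A w := fun w hw w' hw' h =>
    (lbl_inj _ _ (Odd.pos (hd w' hw').oA) (Odd.pos (hd w hw).oA) (hfacs.A_dvd hw') (hfacs.A_dvd hw) (hcop' w' hw')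
      (hcop' w hw) h).1
  have hBeq : ∀ w ∈ S, ∀ w' ∈ S, lbl (B w') (el D w' f) = lbl (B w) (el D w f) → B w' = B w := fun w hw w' hw' h =>
    (lbl_inj _ _ (Odd.pos (hd w' hw').oB) (Odd.pos (hd w hw).oB) (hfacs.B_dvd hw') (hfacs.B_dvd hw) (hcop' w' hw')
      (hcop' w hw) h).1
  have hteq : ∀ w ∈ S, ∀ w' ∈ S, lbl (t w') (el D w' f) = lbl (t w) (el D w f) → t w' = t w := fun w hw w' hw' h =>
    (lbl_inj _ _ (Odd.pos (hd w' hw').ot) (Odd.pos (hd w hw).ot) (hfacs.t_dvd hw') (hfacs.t_dvd hw) (hcop' w' hw')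
      (hcop' w hw) h).1
  have hgcd : ∀ w ∈ S, ∀ w' ∈ S, (1 : ℝ) < (Nat.gcd (t w') (t w) : ℝ) → t w' = t w := by
    intro w hw w' hw' h
    have h1 : 1 < Nat.gcd (t w') (t w) := by exact_mod_cast h
    by_contra hne'
    have := (Nat.coprime_primes (hd w' hw').pt (hd w hw).pt).2 hne'
    rw [Nat.Coprime] at this
    omega
  have hbadA : ∀ w ∈ S, ∀ w0 ∈ S, ((S.filter (fun w' => lbl (A w') (el D w' f) = lbl (A w) (el D w f) ∧
        (1 : ℝ) < (Nat.gcd (t w') (t w0) : ℝ))).card : ℝ) ≤ N0 := by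
    intro w hw w0 hw0
    refine hfib _ (Finset.filter_subset _ _) (A w * t w0 ^ l) ?_
    intro w' hw'
    obtain ⟨hw'S, h1, h2⟩ := Finset.mem_filter.1 hw'
    rw [← hAeq w hw w' hw'S h1, ← hgcd w0 hw0 w' hw'S h2]
    refine ⟨?_, (hd w' hw'S).hA⟩
    rw [(hd w' hw'S).fac]
    exact ⟨2 ^ e w' * B w', by ring⟩
  have hbadB : ∀ w ∈ S, ∀ w0 ∈ S, ((S.filter (fun w' => lbl (B w') (el D w' f) = lbl (B w) (el D w f) ∧
        (1 : ℝ) < (Nat.gcd (t w') (t w0) : ℝ))).card : ℝ) ≤ N0 := by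
    intro w hw w0 hw0
    refine hfib _ (Finset.filter_subset _ _) (B w * t w0 ^ l) ?_
    intro w' hw'
    obtain ⟨hw'S, h1, h2⟩ := Finset.mem_filter.1 hw'
    rw [← hBeq w hw w' hw'S h1, ← hgcd w0 hw0 w' hw'S h2]
    refine ⟨?_, (hd w' hw'S).hB⟩
    rw [(hd w' hw'S).fac]
    exact ⟨2 ^ e w' * A w', by ring⟩
  have hmulA : ∀ w ∈ S, ((S.filter (fun w' => lbl (A w') (el D w' f) = lbl (A w) (el D w f) ∧
        lbl (t w') (el D w' f) = lbl (t w) (el D w f))).card : ℝ) ≤ N0 := by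
    intro w hw
    refine hfib _ (Finset.filter_subset _ _) (A w * t w ^ l) ?_
    intro w' hw'
    obtain ⟨hw'S, h1, h2⟩ := Finset.mem_filter.1 hw'
    rw [← hAeq w hw w' hw'S h1, ← hteq w hw w' hw'S h2]
    refine ⟨?_, (hd w' hw'S).hA⟩
    rw [(hd w' hw'S).fac]
    exact ⟨2 ^ e w' * B w', by ring⟩
  have hmulB : ∀ w ∈ S, ((S.filter (fun w' => lbl (B w') (el D w' f) = lbl (B w) (el D w f) ∧
        lbl (t w') (el D w' f) = lbl (t w) (el D w f))).card : ℝ) ≤ N0 := by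
    intro w hw
    refine hfib _ (Finset.filter_subset _ _) (B w * t w ^ l) ?_
    intro w' hw'
    obtain ⟨hw'S, h1, h2⟩ := Finset.mem_filter.1 hw'
    rw [← hBeq w hw w' hw'S h1, ← hteq w hw w' hw'S h2]
    refine ⟨?_, (hd w' hw'S).hB⟩
    rw [(hd w' hw'S).fac]
    exact ⟨2 ^ e w' * A w', by ring⟩
  have hwalk := H3 (3 * Y ^ K) E θ N N 1 N0 N0 N0 N0 D f l (ℤ × ℤ) S (fun w => el D w f) e A B t Q hlL hcls hfacs
    (le_refl 1) (zero_le_one.trans hN01) (zero_le_one.trans hN01) hN01 hN01 hN1 hN1 hNA hNB hbadA hbadB hmulA hmulB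
  -- the last factor
  have hlast : θ * E ^ 2 / ((f : ℝ) * √((|D| : ℤ) : ℝ)) ≤ 8 := by
    obtain ⟨w0, hw0⟩ := hne
    have h1 := hθ (Y ^ (2 + ε0)) (Real.rpow_pos_of_pos hY0 _) hmax
    have h2 : E ≤ Y ^ (1 / 4 + κ) := (hE w0 hw0).1.trans (hd w0 hw0).thi
    have h3 : E ^ 2 ≤ Y ^ (9 / 10 : ℝ) := by
      have h4 : E ^ 2 ≤ (Y ^ (1 / 4 + κ)) ^ 2 := pow_le_pow_left₀ (zero_le_one.trans hE1) h2 2
      refine h4.trans ?_
      rw [← Real.rpow_natCast, ← Real.rpow_mul hY0.le]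
      refine Real.rpow_le_rpow_of_exponent_le hY1 ?_
      push_cast
      linarith only [hκ1]
    have h5 : Y ^ (9 / 10 : ℝ) ≤ √(Y ^ (2 + ε0)) := by
      refine Real.le_sqrt_of_sq_le ?_
      rw [← Real.rpow_natCast, ← Real.rpow_mul hY0.le]
      refine Real.rpow_le_rpow_of_exponent_le hY1 ?_
      push_cast
      linarith only [hε]
    have h6 : 0 < √(Y ^ (2 + ε0)) := lt_of_lt_of_le (Real.rpow_pos_of_pos hY0 _) h5
    calc θ * E ^ 2 / ((f : ℝ) * √((|D| : ℤ) : ℝ)) = E ^ 2 * (θ / ((f : ℝ) * √((|D| : ℤ) : ℝ))) := by ring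
      _ ≤ √(Y ^ (2 + ε0)) * (8 / √(Y ^ (2 + ε0))) := by
          refine mul_le_mul (h3.trans h5) h1 ?_ h6.le
          have := hcls.hθ
          positivity
      _ = 8 := by field_simp
  have hDs : √((|D| : ℤ) : ℝ) ≤ Y ^ (1 / 8 + κ / 2) := by
    obtain ⟨w0, hw0⟩ := hne
    have h1 := D_le_rd hP.hD hP.hf (hP.eq w0 hw0)
    have h2 : ((|D| : ℤ) : ℝ) ≤ Y ^ (1 / 4 + κ) := h1.trans (hrad w0 hw0)
    calc √((|D| : ℤ) : ℝ) ≤ √(Y ^ (1 / 4 + κ)) := Real.sqrt_le_sqrt h2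
      _ = Y ^ (1 / 8 + κ / 2) := by
          rw [Real.sqrt_eq_rpow, ← Real.rpow_mul hY0.le]
          congr 1
          ring
  have hif : (if l = 1 then (1 : ℝ) else √((|D| : ℤ) : ℝ)) ≤ Y ^ (1 / 8 + κ / 2) := by
    split_ifs
    · exact Real.one_le_rpow hY1 (by linarith only [hκ])
    · exact hDs
  -- the two easy alternatives
  have hc1 : (0 : ℝ) ≤ 100 * C1 * C2 := mul_nonneg (by linarith only [hC1]) (zero_le_one.trans hC2)
  have hA1 : 4 * N * (1 + 2 * ((2 : ℕ) : ℝ) * N0) ≤ 100 * C1 * C2 * Y ^ (7 / 16 + 13 * κ / 4 + 3 * τ) := by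
    have h1 : 4 * N * (1 + 2 * ((2 : ℕ) : ℝ) * N0) ≤ 20 * N * N0 := SmU3_a1 (zero_le_one.trans hN1) hN01
    refine h1.trans ?_
    have h2 : 20 * N * N0 = 100 * C1 * C2 * (Y ^ τ * Y ^ (1 / 4 + 2 * κ) * Y ^ τ) := by
      rw [hN, hN0]; ring
    rw [h2, ← Real.rpow_add hY0, ← Real.rpow_add hY0]
    refine mul_le_mul_of_nonneg_left ?_ hc1
    exact Real.rpow_le_rpow_of_exponent_le hY1 (by linarith only [hκ, hτ])
  have hpos : (0 : ℝ) ≤ Y ^ (7 / 16 + 13 * κ / 4 + 3 * τ) := Real.rpow_nonneg hY0.le _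
  have hc3 : (0 : ℝ) ≤ 3600 * C1 ^ 3 * C2 ^ 2 * C3 * 3 ^ ε := by positivity
  rcases hwalk with h | h | h
  · refine (h.trans hA1).trans ?_
    exact mul_le_mul_of_nonneg_right (by linarith only [hc3]) hpos
  · refine (h.trans hA1).trans ?_
    exact mul_le_mul_of_nonneg_right (by linarith only [hc3]) hpos
  · have hN0' : (0 : ℝ) < N := zero_lt_one.trans_le hN1
    have h2 : ((S.card : ℝ) / (4 * N)) ^ ((2 + 1) / 2) * ((S.card : ℝ) / (4 * N)) ^ (2 / 2) =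
        (S.card : ℝ) ^ 2 / (16 * N ^ 2) := by
      show ((S.card : ℝ) / (4 * N)) ^ 1 * ((S.card : ℝ) / (4 * N)) ^ 1 = _
      rw [pow_one, div_mul_div_comm]
      congr 1 <;> ring
    rw [h2] at h
    have hX3 : (3 * Y ^ K) ^ ε = 3 ^ ε * Y ^ τ := by
      rw [Real.mul_rpow (by norm_num) (Real.rpow_nonneg hY0.le _), hYKε]
    have h3 : C3 * (3 * Y ^ K) ^ ε * (1 : ℝ) ^ (2 ^ 3) * N0 ^ ((2 + 1) / 2) * N0 ^ (2 / 2) *
        (if Even 2 then N else N) * (if l = 1 then 1 else √((|D| : ℤ) : ℝ)) *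
        (1 + θ * E ^ 2 / ((f : ℝ) * √((|D| : ℤ) : ℝ))) ≤
        C3 * (3 ^ ε * Y ^ τ) * N0 ^ 2 * N * Y ^ (1 / 8 + κ / 2) * 9 := by
      have e1 : C3 * (3 * Y ^ K) ^ ε * (1 : ℝ) ^ (2 ^ 3) * N0 ^ ((2 + 1) / 2) * N0 ^ (2 / 2) *
        (if Even 2 then N else N) = C3 * (3 ^ ε * Y ^ τ) * N0 ^ 2 * N := by
        rw [hX3, ite_self]
        show C3 * (3 ^ ε * Y ^ τ) * (1 : ℝ) ^ (2 ^ 3) * N0 ^ 1 * N0 ^ 1 * N = _
        rw [one_pow]
        ring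
      rw [e1]
      have hif0 : (0 : ℝ) ≤ (if l = 1 then (1 : ℝ) else √((|D| : ℤ) : ℝ)) := by
        split_ifs
        · exact zero_le_one
        · exact Real.sqrt_nonneg _
      refine mul_le_mul (mul_le_mul_of_nonneg_left hif (by positivity)) (by linarith only [hlast]) ?_ (by positivity)
      have := hcls.hθ
      positivity
    have h4 : (S.card : ℝ) ^ 2 ≤ 16 * N ^ 2 * (C3 * (3 ^ ε * Y ^ τ) * N0 ^ 2 * N * Y ^ (1 / 8 + κ / 2) * 9) := by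
      have h5 := h.trans h3
      rw [div_le_iff₀ (by positivity)] at h5
      linarith only [h5]
    have h5 : 16 * N ^ 2 * (C3 * (3 ^ ε * Y ^ τ) * N0 ^ 2 * N * Y ^ (1 / 8 + κ / 2) * 9) =
        3600 * C1 ^ 3 * C2 ^ 2 * C3 * 3 ^ ε * (Y ^ (7 / 16 + 13 * κ / 4 + 3 * τ)) ^ 2 := by
      have e1 : (Y ^ (7 / 16 + 13 * κ / 4 + 3 * τ)) ^ 2 =
          (Y ^ τ) ^ 6 * (Y ^ (1 / 4 + 2 * κ)) ^ 3 * Y ^ (1 / 8 + κ / 2) := by
        rw [← Real.rpow_natCast, ← Real.rpow_natCast, ← Real.rpow_natCast, ← Real.rpow_mul hY0.le,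
          ← Real.rpow_mul hY0.le, ← Real.rpow_mul hY0.le, ← Real.rpow_add hY0, ← Real.rpow_add hY0]
        congr 1
        push_cast
        ring
      rw [e1, hN, hN0]
      ring
    rw [h5] at h4
    obtain ⟨G, hG⟩ : ∃ G : ℝ, G = 3600 * C1 ^ 3 * C2 ^ 2 * C3 * 3 ^ ε := ⟨_, rfl⟩
    rw [← hG] at h4 hc3 ⊢
    have h6 : (S.card : ℝ) ^ 2 ≤ ((1 + G) * Y ^ (7 / 16 + 13 * κ / 4 + 3 * τ)) ^ 2 := by
      refine h4.trans ?_
      rw [mul_pow]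
      exact mul_le_mul_of_nonneg_right (SmU3_a2 hc3) (pow_nonneg hpos 2)
    have h7 : (S.card : ℝ) ≤ (1 + G) * Y ^ (7 / 16 + 13 * κ / 4 + 3 * τ) :=
      (sq_le_sq₀ (Nat.cast_nonneg _) (mul_nonneg (by linarith only [hc3]) hpos)).1 h6
    refine h7.trans (mul_le_mul_of_nonneg_right (by linarith only [hc1]) hpos)

/-- type `U3` at a fixed member.  Proof: `τ = 1 / 1000`, `ε = τ / K` (so `(Y ^ K) ^ ε = Y ^ τ`).  `Y ≤ 1000`: `Col.small`.  `Y > 1000`, `S` nonempty: for `w ∈ S`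
write `|w.1| = p ^ i * q ^ j * r ^ k * u`, `u = 2 ^ e * a`, `a` odd; `p, q, r` odd as they are `≥ Y ^ (1/5) > 2`; `A = a * p ^ i`, `B = q ^ j`, `t = r`, `l = k`:
`|w.1| = 2 ^ e * A * B * t ^ l`, `rd A ≤ Y ^ (1/4 + 2 κ)`, `rd B = q ≤ Y ^ (1/4 + κ)`.  `reduce K ε0 τ` with `e`, `l`, `t`: class `S1`, loss `C Y ^ (4 τ)`.
`PCls.cls`: `θ`, `ElCls (3 Y ^ K) θ`, `θ E ^ 2 / (f √|D|) ≤ 8 E ^ 2 / √M ≤ 8`, `M = Y ^ (2 + ε0)`, `E ≤ r ≤ Y ^ (1/4 + κ)`.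
`walk_el ε L 2` with `NA = NB = N := C Y ^ τ Y ^ (1/4 + 2 κ)` (`sm_label_count`), `Z = 1`, `bA = bB = μA = μB = N0 := C Y ^ τ` (`≥ 1`): if the `A`-labels of `w, w'` agree then
`A w = A w'` (`lbl_inj`), and `1 < gcd (t w') (t w0)` means `t w' = t w0` (primes), so all `w'` of the filter have the divisor `m = A w * t w0 ^ l0` and
`|w'.1| ≤ (p ^ i * r ^ k) ^ 2 ≤ m ^ 2`: `heavy_fib`, `card_divisors_le_rpow ε` (`m ≤ Y ^ K`); the same for `B` (heavy pair `q ^ j * r ^ k`) and for the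
multiplicities (`lbl_inj` for `t`).  Results: `#S1 ≤ 4 N (1 + 4 N0)`, or `(#S1 / (4 N)) ^ 2 ≤ C (3 Y ^ K) ^ ε N0 ^ 2 N √|D| 9` with `√|D| ≤ Y ^ ((1/4 + κ) / 2)` (`D_le_rd`), i.e.
`#S1 ≤ C Y ^ (7/16 + 13 κ / 4 + 3 τ)`.  Total exponent `7/16 + 13 κ / 4 + 7 τ ≤ 1/2 - 2 κ` as `κ ≤ 1/100`. -/
theorem u3_col (K ε0 κ : ℝ) (hK : 2 ≤ K) (hε : -1 / 100 ≤ ε0) (hκ : 0 < κ) (hκ1 : κ ≤ 1 / 100) : ∃ C : ℝ, 1 ≤ C ∧
    ∀ (Y : ℝ) (D : ℤ) (f : ℕ) (S : Finset (ℤ × ℤ)), 1 ≤ Y → Col K ε0 Y D f S → (∀ w ∈ S, U3 Y κ w.swap) →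
      (S.card : ℝ) ≤ C * Y ^ (1 / 2 - 2 * κ) := by
  have hK0 : (0 : ℝ) < K := by linarith
  obtain ⟨C1, hC1, H1⟩ := reduce K ε0 (1 / 1000) hK0 (by norm_num)
  obtain ⟨C2, hC2, H2⟩ := SmU3_main K ε0 κ (1 / 1000) hK hε hκ hκ1 (by norm_num)
  have hC1p : (0 : ℝ) < C1 := by linarith
  have hC2p : (0 : ℝ) < C2 := by linarith
  have h1000 : (0 : ℝ) ≤ (1000 : ℝ) ^ K := by positivity
  refine ⟨C1 * C2 + (2 * 1000 ^ K + 1), ?_, ?_⟩
  · have : 0 < C1 * C2 := by positivity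
    linarith
  intro Y D f S hY1 hcol hU
  have hY0 : (0 : ℝ) < Y := by linarith
  have hYp : (1 : ℝ) ≤ Y ^ (1 / 2 - 2 * κ) := Real.one_le_rpow hY1 (by linarith)
  have hCC : 0 < C1 * C2 := by positivity
  rcases le_or_gt Y 1000 with hY | hY
  · refine (hcol.small hK0 hY1 hY).trans ?_
    calc 2 * (1000 : ℝ) ^ K + 1 ≤ C1 * C2 + (2 * 1000 ^ K + 1) := by linarith
      _ = (C1 * C2 + (2 * 1000 ^ K + 1)) * 1 := by ring
      _ ≤ _ := mul_le_mul_of_nonneg_left hYp (by linarith)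
  rcases S.eq_empty_or_nonempty with h0 | hne
  · rw [h0, Finset.card_empty, Nat.cast_zero]
    have : 0 ≤ C1 * C2 + (2 * 1000 ^ K + 1) := by linarith
    positivity
  have hdat : ∀ w, ∃ e A B t l : ℕ, w ∈ S → SmU3_d Y κ w e A B t l := by
    intro w
    by_cases hw : w ∈ S
    · obtain ⟨e, A, B, t, l, h⟩ := SmU3_data hY hκ hκ1 w (hU w hw)
      exact ⟨e, A, B, t, l, fun _ => h⟩
    · exact ⟨0, 0, 0, 0, 0, fun h => absurd h hw⟩
  choose e A B t l hd using hdat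
  obtain ⟨S', hS', hne', hcard, hP, ⟨Q, hQ⟩, ⟨l0, hl0⟩, ⟨E, hE1, hEK, hE⟩⟩ := H1 Y D f S e l t hY1 hcol hne (by
    intro w hw
    have h := hd w hw
    have hpos : 0 < w.1.natAbs := by
      have h1 := hcol.mem w hw
      exact Int.natAbs_pos.2 h1.2.1
    have htl : t w ^ l w ∣ w.1.natAbs := by rw [h.fac]; exact dvd_mul_left _ _
    have h2 : t w ^ l w ≤ w.1.natAbs := Nat.le_of_dvd hpos htl
    refine ⟨?_, ?_, h.pt.one_lt.le, ?_⟩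
    · rw [h.fac]
      exact Dvd.dvd.mul_right (Dvd.dvd.mul_right (dvd_mul_right _ _) _) _
    · exact (Nat.pow_le_pow_left h.pt.two_le _).trans h2
    · exact (Nat.le_self_pow (by have := h.hl; omega) _).trans h2)
  have hmain := H2 Y E D f l0 S' e A B t Q hY hP hne' (by
      intro w hw
      have h1 := (hcol.mem w (hS' hw)).2.2.2.2.2.1
      rw [max_comm]
      exact h1) (by
      intro w hw
      exact (hU w (hS' hw)).2.1) (by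
      intro w hw
      have h1 := hd w (hS' hw)
      rw [hl0 w hw] at h1
      exact h1) hQ hE1 hEK hE
  calc (S.card : ℝ) ≤ C1 * Y ^ (4 * (1 / 1000 : ℝ)) * S'.card := hcard
    _ ≤ C1 * Y ^ (4 * (1 / 1000 : ℝ)) * (C2 * Y ^ (7 / 16 + 13 * κ / 4 + 3 * (1 / 1000 : ℝ))) :=
        mul_le_mul_of_nonneg_left hmain (by positivity)
    _ = C1 * C2 * Y ^ (4 * (1 / 1000 : ℝ) + (7 / 16 + 13 * κ / 4 + 3 * (1 / 1000 : ℝ))) := by
        rw [Real.rpow_add hY0 (4 * (1 / 1000 : ℝ)) (7 / 16 + 13 * κ / 4 + 3 * (1 / 1000 : ℝ))]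
        ring
    _ ≤ C1 * C2 * Y ^ (1 / 2 - 2 * κ) := by
        refine mul_le_mul_of_nonneg_left ?_ hCC.le
        refine Real.rpow_le_rpow_of_exponent_le hY1 ?_
        linarith
    _ ≤ _ := mul_le_mul_of_nonneg_right (by linarith) (by positivity)

end Hp

end Pool.Agent.Lib.MP_d8bd92_nt
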