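import Pool.Agent.Lib.MP_d8bd92_nt.Hp.SmU1
import Pool.Agent.Lib.MP_d8bd92_nt.Hp.SmS
import Pool.Agent.Lib.MP_d8bd92_nt.Hp.SmU3
import Pool.Agent.Lib.MP_d8bd92_nt.Hp.Preds
import Pool.Agent.Lib.MP_d8bd92_nt.Hp.BE
import Pool.Agent.Lib.MP_d8bd92_nt.Hp.BH
import Pool.Agent.Lib.MP_d8bd92_nt.Hp.BM

set_option autoImplicit false

/-!
Pairs with one small radical are few.
-/

namespace Pool.Agent.Lib.MP_d8bd92_nt

namespace Hp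

open Finset Pool.Agent.Lib.Szpiro

private theorem FewSmall_ps {K ε0 Y : ℝ} {w : ℤ × ℤ} (h : w ∈ PairSet K ε0 Y) :
    PS ⌊Y ^ K⌋₊ w ∧ ra w * rb w ≤ Y := by
  obtain ⟨h1, h2, h3, h4, h5, -, h7, h8⟩ := h
  exact ⟨⟨h1, h2, h3, h4, Nat.le_floor h7, Nat.le_floor h8⟩, h5⟩

private theorem FewSmall_swap {Z : ℕ} {w : ℤ × ℤ} (h : PS Z w) : PS Z w.swap := by
  obtain ⟨g, hg⟩ := h.sq
  exact ⟨h.n2, h.n1, h.cop.symm, ⟨g, by rw [Prod.fst_swap, Prod.snd_swap, add_comm]; exact hg⟩, h.b2, h.b1⟩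

private theorem FewSmall_le {C Y a b : ℝ} (hC : 0 ≤ C) (hY : 1 ≤ Y) (h : a ≤ b) : C * Y ^ a ≤ C * Y ^ b :=
  mul_le_mul_of_nonneg_left (Real.rpow_le_rpow_of_exponent_le hY h) hC

theorem FewSmall_sum {p p1 p2 p3 C1 C2 C3 C4 C5 y : ℝ} (h : p ≤ p1 + (p2 + p3)) (b1 : p1 ≤ C1 * y)
    (b2 : p2 ≤ C2 * y) (b3 : p3 ≤ (C3 + C4 + C5) * y) : p ≤ (C1 + C2 + C3 + C4 + C5) * y := by
  have e : (C1 + C2 + C3 + C4 + C5) * y = C1 * y + (C2 * y + (C3 + C4 + C5) * y) := by ring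
  rw [e]
  exact h.trans (add_le_add b1 (add_le_add b2 b3))

theorem FewSmall_sum3 {p u v a b c C3 C4 C5 y : ℝ} (h : p ≤ a + u + v) (h4 : u ≤ b) (h5 : v ≤ c)
    (e3 : a ≤ C3 * y) (e4 : b ≤ C4 * y) (e5 : c ≤ C5 * y) : p ≤ (C3 + C4 + C5) * y := by
  have e : (C3 + C4 + C5) * y = C3 * y + C4 * y + C5 * y := by ring
  rw [e]
  exact h.trans (add_le_add (add_le_add e3 (h4.trans e4)) (h5.trans e5))

theorem FewSmall_pos {C1 C2 C3 C4 C5 : ℝ} (h1 : 1 ≤ C1) (h2 : 1 ≤ C2) (h3 : 1 ≤ C3) (h4 : 1 ≤ C4)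
    (h5 : 1 ≤ C5) : 0 < C1 + C2 + C3 + C4 + C5 := by linarith

theorem FewSmall_exps {δ δ2 δ3 : ℝ} (d2 : δ ≤ δ2) (d3 : δ ≤ δ3) (d4 : δ ≤ 1 / 200) :
    (1 / 100 + 2 / 3 : ℝ) ≤ 3 / 4 - δ ∧ (3 / 4 - δ2 : ℝ) ≤ 3 / 4 - δ ∧ (3 / 4 - δ3 : ℝ) ≤ 3 / 4 - δ ∧
      (3 / 4 - 1 / 100 / 2 : ℝ) ≤ 3 / 4 - δ := by
  refine ⟨?_, ?_, ?_, ?_⟩ <;> linarith

theorem FewSmall_Z {K Y : ℝ} (hK0 : 0 < K) (hY : 1 ≤ Y) :
    1 ≤ ⌊Y ^ K⌋₊ ∧ (⌊Y ^ K⌋₊ : ℝ) ^ (1 / (100 * K)) ≤ Y ^ (1 / 100 : ℝ) := by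
  have h0 : 0 < Y := zero_lt_one.trans_le hY
  have hYK : 1 ≤ Y ^ K := Real.one_le_rpow hY hK0.le
  refine ⟨Nat.le_floor (by exact_mod_cast hYK), ?_⟩
  calc (⌊Y ^ K⌋₊ : ℝ) ^ (1 / (100 * K)) ≤ (Y ^ K) ^ (1 / (100 * K)) :=
        Real.rpow_le_rpow (Nat.cast_nonneg _) (Nat.floor_le (zero_le_one.trans hYK))
          (div_nonneg zero_le_one (mul_nonneg (by norm_num) hK0.le))
    _ = Y ^ (K * (1 / (100 * K))) := (Real.rpow_mul h0.le _ _).symm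
    _ = Y ^ (1 / 100 : ℝ) := by
        congr 1
        field_simp

theorem FewSmall_b1 {Y C1 z δ p : ℝ} (hY : 1 ≤ Y) (hC1 : 1 ≤ C1) (hz : z ≤ Y ^ (1 / 100 : ℝ))
    (hd : (1 / 100 + 2 / 3 : ℝ) ≤ 3 / 4 - δ) (h : p ≤ C1 * z * Y ^ (2 / 3 : ℝ)) :
    p ≤ C1 * Y ^ (3 / 4 - δ) := by
  have h0 : 0 < Y := zero_lt_one.trans_le hY
  refine h.trans ?_
  rw [mul_assoc]
  refine mul_le_mul_of_nonneg_left ?_ (zero_le_one.trans hC1)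
  calc z * Y ^ (2 / 3 : ℝ) ≤ Y ^ (1 / 100 : ℝ) * Y ^ (2 / 3 : ℝ) :=
        mul_le_mul_of_nonneg_right hz (Real.rpow_nonneg h0.le _)
    _ = Y ^ (1 / 100 + 2 / 3 : ℝ) := (Real.rpow_add h0 _ _).symm
    _ ≤ Y ^ (3 / 4 - δ) := Real.rpow_le_rpow_of_exponent_le hY hd

theorem FewSmall_par {K c : ℝ} (hK : 2 ≤ K) (hc : 0 < c) :
    0 < K ∧ ∃ c' : ℝ, 0 < c' ∧ 0 < 2 * c' ∧ 2 * c' ≤ 1 ∧ (1 / 2 - c ≤ (1 - 2 * c') / 2) ∧
      0 < 1 / (100 * K) := by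
  have hK0 : 0 < K := by linarith
  refine ⟨hK0, min c (1 / 2), lt_min hc (by norm_num), ?_, ?_, ?_, by positivity⟩
  · have := lt_min hc (show (0 : ℝ) < 1 / 2 by norm_num)
    linarith
  · have := min_le_right c (1 / 2)
    linarith
  · have := min_le_left c (1 / 2)
    linarith

/-- Proof: wlog `c ≤ 1/2`; `κ = 1/100`, `κ' = 2 c`.  Split `P` into: `w.1` a square (`squares_le σ` for the swapped set, `σ = 1 / (100 K)`), `rb w ≤ Y ^ (3/4 - κ/20)`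
(`middle_le K κ' (κ/20)`), `rb w ≥ Y ^ (3/4 - κ/20)` (`unbalanced_le K κ`), its `U1` and `U3` parts: `col_sum` with `u1_col`, `u3_col`.
Members of `PairSet` satisfy `PS ⌊Y ^ K⌋₊` (`Nat.le_floor`) and `ra w * rb w ≤ Y`. -/
theorem few_small (K ε0 c : ℝ) (hK : 2 ≤ K) (hε : -1 / 100 ≤ ε0) (hc : 0 < c) :
    Few K ε0 (fun Y w => (rd w.1.natAbs : ℝ) ≤ Y ^ (1 / 2 - c)) := by
  classical
  obtain ⟨hK0, c', hc'0, hc'2, hc'3, hc'4, hσ⟩ := FewSmall_par hK hc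
  have q1 : (0 : ℝ) < 1 / 2000 := by norm_num
  have q2 : (1 / 2000 : ℝ) ≤ 1 / 4 := by norm_num
  have q3 : (0 : ℝ) < 1 / 100 := by norm_num
  have q4 : (1 / 100 : ℝ) ≤ 1 / 20 := by norm_num
  obtain ⟨C1, hC1, H1⟩ := squares_le (1 / (100 * K)) hσ
  obtain ⟨C2, δ2, hC2, hδ2, H2⟩ := middle_le K (2 * c') (1 / 2000) hK0 hc'2 hc'3 q1 q2
  obtain ⟨C3, δ3, hC3, hδ3, H3⟩ := unbalanced_le K (1 / 100) hK0 q3 q4
  obtain ⟨C4, hC4, H4⟩ := col_sum K ε0 (1 / 100) hK q3 (fun Y w => U1 Y (1 / 100) w)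
    (fun Y w h => h.2.1) (u1_col K ε0 (1 / 100) hK hε q3 le_rfl)
  obtain ⟨C5, hC5, H5⟩ := col_sum K ε0 (1 / 100) hK q3 (fun Y w => U3 Y (1 / 100) w)
    (fun Y w h => h.2.1) (u3_col K ε0 (1 / 100) hK hε q3 le_rfl)
  obtain ⟨δ, hδ, d2, d3, d4⟩ : ∃ δ : ℝ, 0 < δ ∧ δ ≤ δ2 ∧ δ ≤ δ3 ∧ δ ≤ 1 / 200 :=
    ⟨min δ2 (min δ3 (1 / 200)), lt_min hδ2 (lt_min hδ3 (by norm_num)), min_le_left _ _,
      (min_le_right _ _).trans (min_le_left _ _), (min_le_right _ _).trans (min_le_right _ _)⟩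
  obtain ⟨x1, x2, x3, x4⟩ := FewSmall_exps d2 d3 d4
  refine ⟨C1 + C2 + C3 + C4 + C5, δ, FewSmall_pos hC1 hC2 hC3 hC4 hC5, hδ, ?_⟩
  intro Y hY P hP
  obtain ⟨hZ1, hZσ⟩ := FewSmall_Z hK0 hY
  have hra : ∀ w ∈ P, ra w ≤ Y ^ ((1 - 2 * c') / 2) := fun w hw =>
    (hP w hw).2.trans (Real.rpow_le_rpow_of_exponent_le hY hc'4)
  have hcov : P ⊆ P.filter (fun w => IsSquare w.1) ∪ (P.filter (fun w => rb w ≤ Y ^ (3 / 4 - 1 / 2000 : ℝ)) ∪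
      P.filter (fun w => ¬ IsSquare w.1 ∧ Y ^ (3 / 4 - 1 / 100 / 20 : ℝ) ≤ rb w)) := by
    intro w hw
    rw [Finset.mem_union, Finset.mem_union, Finset.mem_filter, Finset.mem_filter, Finset.mem_filter]
    by_cases hs : IsSquare w.1
    · exact Or.inl ⟨hw, hs⟩
    · rcases le_total (rb w) (Y ^ (3 / 4 - 1 / 2000 : ℝ)) with h | h
      · exact Or.inr (Or.inl ⟨hw, h⟩)
      · refine Or.inr (Or.inr ⟨hw, hs, ?_⟩)
        have e : (3 / 4 - 1 / 100 / 20 : ℝ) = 3 / 4 - 1 / 2000 := by norm_num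
        rw [e]
        exact h
  have hcard := (Finset.card_le_card hcov).trans ((Finset.card_union_le _ _).trans
    (Nat.add_le_add_left (Finset.card_union_le _ _) _))
  refine FewSmall_sum (C1 := C1) (C2 := C2) (C3 := C3) (C4 := C4) (C5 := C5)
    (p1 := ((P.filter (fun w => IsSquare w.1)).card : ℝ))
    (p2 := ((P.filter (fun w => rb w ≤ Y ^ (3 / 4 - 1 / 2000 : ℝ))).card : ℝ))
    (p3 := ((P.filter (fun w => ¬ IsSquare w.1 ∧ Y ^ (3 / 4 - 1 / 100 / 20 : ℝ) ≤ rb w)).card : ℝ))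
    (by exact_mod_cast hcard) ?_ ?_ ?_
  · have hinj : ((P.filter (fun w => IsSquare w.1)).image Prod.swap).card =
        (P.filter (fun w => IsSquare w.1)).card :=
      Finset.card_image_of_injective _ Prod.swap_injective
    have h := H1 ⌊Y ^ K⌋₊ Y ((P.filter (fun w => IsSquare w.1)).image Prod.swap) hZ1 hY (by
      intro w hw
      obtain ⟨v, hv, rfl⟩ := Finset.mem_image.1 hw
      rw [Finset.mem_filter] at hv
      have hps := FewSmall_ps (hP v hv.1).1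
      refine ⟨FewSmall_swap hps.1, ?_, hv.2⟩
      have : ra v.swap * rb v.swap = ra v * rb v := by
        unfold ra rb
        rw [Prod.fst_swap, Prod.snd_swap, mul_comm]
      rw [this]
      exact hps.2)
    rw [hinj] at h
    exact FewSmall_b1 hY hC1 hZσ x1 h
  · have h := H2 Y (P.filter (fun w => rb w ≤ Y ^ (3 / 4 - 1 / 2000 : ℝ))) hY (by
      intro w hw
      rw [Finset.mem_filter] at hw
      have hps := FewSmall_ps (hP w hw.1).1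
      exact ⟨hps.1, hps.2, hra w hw.1, hw.2⟩)
    exact h.trans (FewSmall_le (zero_le_one.trans hC2) hY x2)
  · have hm : ∀ w ∈ P.filter (fun w => ¬ IsSquare w.1 ∧ Y ^ (3 / 4 - 1 / 100 / 20 : ℝ) ≤ rb w),
        w ∈ PairSet K ε0 Y ∧ ¬ IsSquare w.1 ∧ Y ^ (3 / 4 - 1 / 100 / 20 : ℝ) ≤ rb w := by
      intro w hw
      rw [Finset.mem_filter] at hw
      exact ⟨(hP w hw.1).1, hw.2⟩
    generalize P.filter (fun w => ¬ IsSquare w.1 ∧ Y ^ (3 / 4 - 1 / 100 / 20 : ℝ) ≤ rb w) = P3 at hm ⊢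
    have h := H3 Y P3 hY (by
      intro w hw
      have hps := FewSmall_ps (hm w hw).1
      exact ⟨hps.1, hps.2, (hm w hw).2.2⟩)
    have h4 := H4 Y (P3.filter (fun w => U1 Y (1 / 100) w)) hY (by
      intro w hw
      rw [Finset.mem_filter] at hw
      exact ⟨(hm w hw.1).1, hw.2, (hm w hw.1).2.1⟩)
    have h5 := H5 Y (P3.filter (fun w => U3 Y (1 / 100) w)) hY (by
      intro w hw
      rw [Finset.mem_filter] at hw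
      exact ⟨(hm w hw.1).1, hw.2, (hm w hw.1).2.1⟩)
    exact FewSmall_sum3 h h4 h5 (FewSmall_le (zero_le_one.trans hC3) hY x3)
      (FewSmall_le (zero_le_one.trans hC4) hY x4) (FewSmall_le (zero_le_one.trans hC5) hY x4)

end Hp

end Pool.Agent.Lib.MP_d8bd92_nt
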