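import Pool.Agent.Lib.MP_d8bd92_nt.Hp.Extract
import Pool.Agent.Lib.MP_d8bd92_nt.Hp.FewSmall

set_option autoImplicit false

/-!
Block 1: the extraction theorems.
-/

namespace Pool.Agent.Lib.MP_d8bd92_nt

namespace Hp

open Finset Pool.Agent.Lib.Szpiro

/-- Extraction: a set with more than `C Y^(3/4-δ)` pairs contains a large good set. -/
theorem extraction (K ε0 κ : ℝ) (hK : 2 ≤ K) (hε : -1 / 100 ≤ ε0) (hκ : 0 < κ) : ∃ C δ : ℝ, 0 < C ∧ 0 < δ ∧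
    ∀ Y : ℝ, 1 ≤ Y → ∀ P : Finset (ℤ × ℤ), (∀ w ∈ P, w ∈ PairSet K ε0 Y) → C * Y ^ (3 / 4 - δ) < (P.card : ℝ) →
      ∃ P' ⊆ P, Good K ε0 κ Y P' ∧ Y ^ (3 / 4 - κ) ≤ (P'.card : ℝ) :=
  extraction_of K ε0 κ hK hκ (fun c hc => few_small K ε0 c hK hε hc)

/-- the same with a colouring by few colours: all pairs of `P'` have the same colour -/
theorem extraction_col (K ε0 κ : ℝ) (hK : 2 ≤ K) (hε : -1 / 100 ≤ ε0) (hκ : 0 < κ) : ∃ C δ : ℝ, 0 < C ∧ 0 < δ ∧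
    ∀ Y : ℝ, 1 ≤ Y → ∀ (P : Finset (ℤ × ℤ)) (N : ℕ) (col : ℤ × ℤ → Fin N), (N : ℝ) ≤ Y ^ δ →
      (∀ w ∈ P, w ∈ PairSet K ε0 Y) → C * Y ^ (3 / 4 - δ) < (P.card : ℝ) →
      ∃ P' ⊆ P, Good K ε0 κ Y P' ∧ Y ^ (3 / 4 - κ) ≤ (P'.card : ℝ) ∧ ∃ k, ∀ w ∈ P', col w = k :=
  extraction_col_of K ε0 κ hK hκ (fun c hc => few_small K ε0 c hK hε hc)

end Hp

end Pool.Agent.Lib.MP_d8bd92_nt
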