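import Pool.Agent.Lib.MP_d8bd92_nt.Hp.FPf

set_option autoImplicit false

/-! Block 3.A, stronger version (walks of both parities): numbers. -/

namespace Pool.Agent.Lib.MP_d8bd92_nt

namespace Hp

open Finset Pool.Agent.Lib.Szpiro

theorem fn_h {e1 η τ : ℝ} (he0 : 0 ≤ e1) (he : e1 ≤ η / 100) (hη : 0 < η) (hτ : η ≤ τ) (hτ1 : τ ≤ 3 / 5) :
    ∃ h : ℕ, 1 ≤ h ∧ (h : ℝ) ≤ 1 + 1 / η ∧
      1 / 2 + η / 16 + max 0 (h * τ - 1 + e1 / 2) ≤ (h + 1) * τ / 2 := by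
  have hτ0 : 0 < τ := by linarith
  set v : ℝ := 1 / τ + 1 / 2 with hv
  have h53 : 5 / 3 ≤ 1 / τ := by
    rw [le_div_iff₀ hτ0]
    linarith
  have hv1 : 1 ≤ v := by linarith
  have hv0 : v * τ = 1 + τ / 2 := by
    rw [hv]
    field_simp
  refine ⟨⌊v⌋₊, ?_, ?_, ?_⟩
  · exact (Nat.one_le_floor_iff v).mpr hv1
  · have h1 : ((⌊v⌋₊ : ℕ) : ℝ) ≤ v := Nat.floor_le (by linarith)
    have h4 : 1 / τ ≤ 1 / η := one_div_le_one_div_of_le hη hτ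
    linarith
  · have h1 : ((⌊v⌋₊ : ℕ) : ℝ) ≤ v := Nat.floor_le (by linarith)
    have h2 : v < ((⌊v⌋₊ : ℕ) : ℝ) + 1 := Nat.lt_floor_add_one v
    set n : ℝ := ((⌊v⌋₊ : ℕ) : ℝ) with hn
    have h3 : n * τ ≤ 1 + τ / 2 := by
      rw [← hv0]; nlinarith
    have h4 : 1 - τ / 2 ≤ n * τ := by
      have : v * τ - τ ≤ n * τ := by nlinarith
      linarith
    rcases le_total 0 (n * τ - 1 + e1 / 2) with h5 | h5
    · rw [max_eq_right h5]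
      nlinarith
    · rw [max_eq_left h5]
      nlinarith

open scoped Classical in
/-- the walk theorem for all lengths up to `H` with one constant -/
theorem walk_allN (ε : ℝ) (hε : 0 < ε) (L H : ℕ) : ∃ C : ℝ, 1 ≤ C ∧
    ∀ (h : ℕ), 1 ≤ h → h ≤ H → ∀ (X : ℝ) (D : ℤ) (f l : ℕ) (E θ : ℝ) (dA dB Z μA μB : ℝ) (ι : Type) (S : Finset ι)
      (Ω : ι → ℤ√D) (t s : ι → ℕ) (r : ι → ℤ) (q : Ideal (ℤ√D)) (A B : ι → Ideal (ℤ√D)) (nA nB : ι → ℕ), l ≤ L →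
      WalkData 1000 X D f l E θ h dA dB Z μA μB S Ω t s r q A B nA nB →
      dA ^ ((h + 1) / 2) * dB ^ (h / 2) ≤ C * X ^ ε * Z ^ (h ^ 3) * μA ^ ((h + 1) / 2) * μB ^ (h / 2) *
        ((if Even h then (S.image A).card else (S.image B).card : ℕ) : ℝ) *
        √((|D| : ℤ) : ℝ) * (1 + θ * E ^ h / ((f : ℝ) * √((|D| : ℤ) : ℝ))) := by
  have h1 : ∀ h : ℕ, ∃ C : ℝ, 0 < C ∧ (1 ≤ h → ∀ (X : ℝ) (D : ℤ) (f l : ℕ) (E θ : ℝ) (dA dB Z μA μB : ℝ) (ι : Type) (S : Finset ι)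
      (Ω : ι → ℤ√D) (t s : ι → ℕ) (r : ι → ℤ) (q : Ideal (ℤ√D)) (A B : ι → Ideal (ℤ√D)) (nA nB : ι → ℕ), l ≤ L →
      WalkData 1000 X D f l E θ h dA dB Z μA μB S Ω t s r q A B nA nB →
      dA ^ ((h + 1) / 2) * dB ^ (h / 2) ≤ C * X ^ ε * Z ^ (h ^ 3) * μA ^ ((h + 1) / 2) * μB ^ (h / 2) *
        ((if Even h then (S.image A).card else (S.image B).card : ℕ) : ℝ) *
        (if l = 1 then 1 else √((|D| : ℤ) : ℝ)) * (1 + θ * E ^ h / ((f : ℝ) * √((|D| : ℤ) : ℝ)))) := by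
    intro h
    by_cases hh : 1 ≤ h
    · obtain ⟨C, hC, hb⟩ := walk_theorem ε hε L h hh 1000 (by norm_num)
      exact ⟨C, hC, fun _ => hb⟩
    · exact ⟨1, one_pos, fun h' => absurd h' hh⟩
  choose C hC hb using h1
  refine ⟨1 + ∑ h ∈ range (H + 1), C h, ?_, ?_⟩
  · have : 0 ≤ ∑ h ∈ range (H + 1), C h := sum_nonneg fun h _ => (hC h).le
    linarith
  intro h hm hmH X D f l E θ dA dB Z μA μB ι S Ω t s r q A B nA nB hl hW
  have h2 := hb h hm X D f l E θ dA dB Z μA μB ι S Ω t s r q A B nA nB hl hW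
  refine h2.trans ?_
  have hX0 : (0 : ℝ) ≤ X := by linarith [hW.hX]
  have hZ0 : (0 : ℝ) ≤ Z := by linarith [hW.hZ]
  have hμA0 : (0 : ℝ) ≤ μA := by linarith [hW.hμA]
  have hμB0 : (0 : ℝ) ≤ μB := by linarith [hW.hμB]
  have hE0 : (0 : ℝ) ≤ E := by linarith [hW.hE]
  have hθ0 : (0 : ℝ) ≤ θ := hW.hθ.le
  have hCle : C h ≤ 1 + ∑ h ∈ range (H + 1), C h := by
    have : C h ≤ ∑ h ∈ range (H + 1), C h :=
      single_le_sum (f := C) (fun h _ => (hC h).le) (mem_range.mpr (by omega))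
    linarith
  have hD1 : (1 : ℝ) ≤ √((|D| : ℤ) : ℝ) := by
    rw [Real.one_le_sqrt]
    exact_mod_cast Int.one_le_abs hW.hD.ne_zero
  have hite : (if l = 1 then (1 : ℝ) else √((|D| : ℤ) : ℝ)) ≤ √((|D| : ℤ) : ℝ) := by
    split_ifs
    · exact hD1
    · exact le_refl _
  have hite0 : (0 : ℝ) ≤ (if l = 1 then (1 : ℝ) else √((|D| : ℤ) : ℝ)) := by
    split_ifs <;> positivity
  have hc0 : (0 : ℝ) ≤ 1 + ∑ h ∈ range (H + 1), C h := by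
    have : 0 ≤ ∑ h ∈ range (H + 1), C h := sum_nonneg fun h _ => (hC h).le
    linarith
  generalize 1 + ∑ h ∈ range (H + 1), C h = c at hCle hc0
  have hnn : (0 : ℝ) ≤ ((if Even h then (S.image A).card else (S.image B).card : ℕ) : ℝ) := Nat.cast_nonneg _
  generalize ((if Even h then (S.image A).card else (S.image B).card : ℕ) : ℝ) = nn at hnn
  gcongr

/-- exponents: the number of labels against the degrees -/
theorem fn_key {κ a b τ : ℝ} (hκ : 0 < κ) (hab : a ≤ b) (hsum : a + b + τ ≤ (1 + κ) / 2) (h : ℕ) (hh : 1 ≤ h) :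
    ((h : ℝ) + 1) * τ / 2 - 1 / 4 - κ * h ≤
      (((h + 1) / 2 : ℕ) : ℝ) * (1 / 4 - a) + ((h / 2 : ℕ) : ℝ) * (1 / 4 - b) - (if Even h then a else b) := by
  rcases Nat.even_or_odd' h with ⟨m, hm | hm⟩
  · subst hm
    have e1 : (2 * m + 1) / 2 = m := by omega
    have e2 : 2 * m / 2 = m := by omega
    rw [e1, e2, if_pos (even_two_mul m)]
    have hm1 : (1 : ℝ) ≤ (m : ℝ) := by exact_mod_cast (by omega : 1 ≤ m)
    push_cast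
    nlinarith
  · subst hm
    have e1 : (2 * m + 1 + 1) / 2 = m + 1 := by omega
    have e2 : (2 * m + 1) / 2 = m := by omega
    have e3 : ¬ Even (2 * m + 1) := by
      rw [Nat.not_even_iff_odd]
      exact odd_two_mul_add_one m
    rw [e1, e2, if_neg e3]
    have hm1 : (0 : ℝ) ≤ (m : ℝ) := Nat.cast_nonneg m
    push_cast
    nlinarith

/-- the final inequality in exponents -/
theorem fn_final {Y κ e1 η a b τ C N SD F X Z μ dA dB : ℝ} {h H : ℕ} (hY : 1 < Y) (hκ : 0 < κ) (hη : 0 < η)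
    (hh : 1 ≤ h) (hhH : h ≤ H) (hκH : κ * (6 * (H : ℝ) ^ 3 + 6 * H + 8) ≤ η / 64)
    (hab : a ≤ b) (hsum : a + b + τ ≤ (1 + κ) / 2)
    (hfin : 1 / 2 + η / 16 + max 0 (h * τ - 1 + e1 / 2) ≤ (h + 1) * τ / 2)
    (hX0 : 0 ≤ X) (hC0 : 0 ≤ C) (hSD0 : 0 ≤ SD) (hF0 : 0 ≤ F)
    (hCX : 9 * (C * X) ≤ Y ^ (η / 64) * Y ^ κ) (hZ : Z = Y ^ (6 * κ)) (hμ : μ = Y ^ κ)
    (hdA : dA = Y ^ (1 / 4 - 3 * κ - a)) (hdB : dB = Y ^ (1 / 4 - 3 * κ - b))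
    (hN : N ≤ Y ^ (κ / 4 + (if Even h then a else b))) (hSD : SD ≤ Y ^ ((1 + κ) / 4))
    (hF : F ≤ 8 * Y ^ (h * τ - 1 + e1 / 2))
    (hw : dA ^ ((h + 1) / 2) * dB ^ (h / 2) ≤
      C * X * Z ^ (h ^ 3) * μ ^ ((h + 1) / 2) * μ ^ (h / 2) * N * SD * (1 + F)) : False := by
  have hY0 : 0 < Y := by linarith
  have hkey := fn_key hκ hab hsum h hh
  set c : ℝ := (if Even h then a else b) with hc
  set p : ℕ := (h + 1) / 2 with hp
  set q : ℕ := h / 2 with hq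
  have hpq : (p : ℝ) + (q : ℝ) = (h : ℝ) := by
    have : p + q = h := by omega
    exact_mod_cast this
  set M0 : ℝ := max 0 (h * τ - 1 + e1 / 2) with hM0
  have hmr : (1 : ℝ) ≤ (h : ℝ) := by exact_mod_cast hh
  have hmHr : (h : ℝ) ≤ (H : ℝ) := by exact_mod_cast hhH
  have h1F : 1 + F ≤ 9 * Y ^ M0 := by
    have h1 : (1 : ℝ) ≤ Y ^ M0 := Real.one_le_rpow hY.le (le_max_left _ _)
    have h2 : Y ^ (h * τ - 1 + e1 / 2) ≤ Y ^ M0 := Real.rpow_le_rpow_of_exponent_le hY.le (le_max_right _ _)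
    linarith
  have hL : dA ^ p * dB ^ q = Y ^ ((1 / 4 - 3 * κ - a) * p + (1 / 4 - 3 * κ - b) * q) := by
    rw [hdA, hdB, ← Real.rpow_natCast, ← Real.rpow_natCast, ← Real.rpow_mul hY0.le, ← Real.rpow_mul hY0.le,
      ← Real.rpow_add hY0]
  have hZp : Z ^ (h ^ 3) = Y ^ (6 * κ * (h : ℝ) ^ 3) := by
    rw [hZ, ← Real.rpow_natCast, ← Real.rpow_mul hY0.le]
    push_cast
    rfl
  have hμp : ∀ k : ℕ, μ ^ k = Y ^ (κ * k) := by
    intro k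
    rw [hμ, ← Real.rpow_natCast, ← Real.rpow_mul hY0.le]
  have hR : C * X * Z ^ (h ^ 3) * μ ^ p * μ ^ q * N * SD * (1 + F) ≤
      Y ^ (η / 64 + κ + 6 * κ * (h : ℝ) ^ 3 + κ * p + κ * q + (κ / 4 + c) + (1 + κ) / 4 + M0) := by
    rw [hZp, hμp, hμp]
    calc C * X * Y ^ (6 * κ * (h : ℝ) ^ 3) * Y ^ (κ * p) * Y ^ (κ * q) * N * SD * (1 + F)
        ≤ C * X * Y ^ (6 * κ * (h : ℝ) ^ 3) * Y ^ (κ * p) * Y ^ (κ * q) * Y ^ (κ / 4 + c) * Y ^ ((1 + κ) / 4) * (9 * Y ^ M0) := by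
          gcongr
      _ = (9 * (C * X)) * (Y ^ (6 * κ * (h : ℝ) ^ 3) * Y ^ (κ * p) * Y ^ (κ * q) * Y ^ (κ / 4 + c) * Y ^ ((1 + κ) / 4) * Y ^ M0) := by
          ring
      _ ≤ (Y ^ (η / 64) * Y ^ κ) * (Y ^ (6 * κ * (h : ℝ) ^ 3) * Y ^ (κ * p) * Y ^ (κ * q) * Y ^ (κ / 4 + c) * Y ^ ((1 + κ) / 4) * Y ^ M0) := by
          gcongr
      _ = _ := by
          simp only [← Real.rpow_add hY0]
          congr 1
          ring
  have hE := hw.trans hR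
  rw [hL, Real.rpow_le_rpow_left_iff hY] at hE
  have hm3 : (6 : ℝ) * κ * (h : ℝ) ^ 3 ≤ κ * (6 * (H : ℝ) ^ 3) := by
    have : (h : ℝ) ^ 3 ≤ (H : ℝ) ^ 3 := by gcongr
    nlinarith
  have hκh : κ * h ≤ κ * H := by gcongr
  have hκ0 : 0 ≤ κ * h := by positivity
  have hκpq : κ * p + κ * q = κ * h := by rw [← mul_add, hpq]
  have hκpq' : (1 / 4 - 3 * κ - a) * p + (1 / 4 - 3 * κ - b) * q =
      (p : ℝ) * (1 / 4 - a) + (q : ℝ) * (1 / 4 - b) - 3 * (κ * h) := by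
    rw [← hκpq]; ring
  have hexp : κ * (6 * (H : ℝ) ^ 3 + 6 * H + 8) = κ * (6 * (H : ℝ) ^ 3) + 6 * (κ * H) + 8 * κ := by ring
  rw [hexp] at hκH
  rw [hκpq'] at hE
  have hEE : (p : ℝ) * (1 / 4 - a) + (q : ℝ) * (1 / 4 - b) - c ≤
      η / 64 + κ + 6 * κ * (h : ℝ) ^ 3 + κ * h + 3 * (κ * h) + κ / 4 + (1 + κ) / 4 + M0 := by
    rw [← hκpq] at hE ⊢
    linarith
  linarith

end Hp

end Pool.Agent.Lib.MP_d8bd92_nt
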