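import Pool.Agent.Lib.MP_d8bd92_nt.Hp.Preds
import Pool.Agent.Lib.MP_d8bd92_nt.TwRad

set_option autoImplicit false

/-! Block 3.A, first part: unitary divisors and the quasi-regularity bounds. -/

namespace Pool.Agent.Lib.MP_d8bd92_nt

namespace Hp

open Finset Pool.Agent.Lib.Szpiro

/-- `x = ± A t^l c`, pairwise coprime -/
def UA (A t l : ℕ) (x : ℤ) : Prop :=
  ∃ c : ℕ, x.natAbs = A * t ^ l * c ∧ Nat.Coprime A t ∧ Nat.Coprime (A * t) c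

theorem UA.udvd {A t l u : ℕ} {x : ℤ} (h : UA A t l x) (hsq : Squarefree t) (hu : u ∣ t) :
    UDvd (A * u ^ l) x.natAbs := by
  obtain ⟨c, hx, hAt, hc⟩ := h
  obtain ⟨v, rfl⟩ := hu
  have huv : Nat.Coprime u v := Nat.coprime_of_squarefree_mul hsq
  refine ⟨v ^ l * c, by rw [hx, mul_pow]; ring, ?_⟩
  have hAv : Nat.Coprime A v := Nat.Coprime.coprime_dvd_right (Dvd.intro_left _ rfl) hAt
  have hAc : Nat.Coprime A c := Nat.Coprime.coprime_dvd_left (Dvd.intro _ rfl) hc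
  have huc : Nat.Coprime u c := Nat.Coprime.coprime_dvd_left ((Dvd.intro _ rfl : u ∣ u * v).trans (Dvd.intro_left _ rfl)) hc
  apply Nat.Coprime.mul_left
  · exact Nat.Coprime.mul_right (Nat.Coprime.pow_right _ hAv) hAc
  · exact Nat.Coprime.mul_right (Nat.Coprime.pow _ _ huv) (Nat.Coprime.pow_left _ huc)

theorem rd_sq {t : ℕ} (h : Squarefree t) : rd t = t := by
  unfold rd
  exact Nat.prod_primeFactors_of_squarefree h

theorem rd_pow' {t l : ℕ} (hl : 1 ≤ l) : rd (t ^ l) = rd t := by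
  unfold rd
  rw [Nat.primeFactors_pow _ (by omega)]

theorem rd_Aul {A u l : ℕ} (hl : 1 ≤ l) (hA : A ≠ 0) (hu : Squarefree u) (h : Nat.Coprime A u) :
    rd (A * u ^ l) = rd A * u := by
  have hu0 : u ≠ 0 := hu.ne_zero
  rw [rd_mul_coprime A (u ^ l) hA (pow_ne_zero _ hu0) (Nat.Coprime.pow_right _ h), rd_pow' hl, rd_sq hu]

open scoped Classical in
theorem Good.qr1' {K ε0 κ Y : ℝ} (hY : 1 ≤ Y) {P : Finset (ℤ × ℤ)} (hP : Good K ε0 κ Y P) {w : ℤ × ℤ} (hw : w ∈ P)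
    {u : ℕ} (hu : UDvd u w.1.natAbs) {ρ : ℝ} (hρ : 0 < ρ) (hρu : ρ ≤ (rd u : ℝ)) :
    ((P.filter (fun w' : ℤ × ℤ => w'.2 = w.2 ∧ UDvd u w'.1.natAbs)).card : ℝ) ≤
      max 1 (Y ^ (1 / 4 : ℝ) / ρ) * Y ^ κ := by
  classical
  have hY0 : 0 < Y := by linarith
  have h1 := hP.qr1 w hw u hu
  refine h1.trans ?_
  gcongr

open scoped Classical in
theorem Good.bad {K ε0 κ Y : ℝ} (hY : 1 ≤ Y) {P : Finset (ℤ × ℤ)} (hP : Good K ε0 κ Y P) {S : Finset (ℤ × ℤ)}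
    (hS : S ⊆ P) {y : ℤ} (hy : ∀ w ∈ S, w.2 = y) {A t : ℤ × ℤ → ℕ} {l : ℕ} (hl : 1 ≤ l)
    (hA : ∀ w ∈ S, UA (A w) (t w) l w.1) (hsq : ∀ w ∈ S, Squarefree (t w)) {RA Z : ℝ} (hRA : 0 < RA) (hZ : 0 < Z)
    {w0 : ℤ × ℤ} (hw0 : w0 ∈ S) (hRA' : RA ≤ (rd (A w0) : ℝ)) (hA0 : A w0 ≠ 0) {T0 : ℕ} (hT0 : T0 ≠ 0) :
    ((S.filter (fun w => A w = A w0 ∧ Z < (Nat.gcd (t w) T0 : ℝ))).card : ℝ) ≤
      (T0.divisors.card : ℝ) * (max 1 (Y ^ (1 / 4 : ℝ) / (RA * Z)) * Y ^ κ) := by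
  classical
  have hY0 : 0 < Y := by linarith
  set F : ℕ → Finset (ℤ × ℤ) := fun u => S.filter (fun w => A w = A w0 ∧ Z < (Nat.gcd (t w) T0 : ℝ) ∧ Nat.gcd (t w) T0 = u)
    with hF
  have h1 : S.filter (fun w => A w = A w0 ∧ Z < (Nat.gcd (t w) T0 : ℝ)) ⊆ T0.divisors.biUnion F := by
    intro w hw
    rw [mem_filter] at hw
    rw [mem_biUnion]
    refine ⟨Nat.gcd (t w) T0, Nat.mem_divisors.mpr ⟨Nat.gcd_dvd_right _ _, hT0⟩, ?_⟩
    rw [hF, mem_filter]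
    exact ⟨hw.1, hw.2.1, hw.2.2, rfl⟩
  have h2 : ∀ u ∈ T0.divisors, ((F u).card : ℝ) ≤ max 1 (Y ^ (1 / 4 : ℝ) / (RA * Z)) * Y ^ κ := by
    intro u hu
    rcases (F u).eq_empty_or_nonempty with h0 | ⟨w1, hw1⟩
    · rw [h0, card_empty, Nat.cast_zero]; positivity
    have hw1' := hw1
    rw [hF, mem_filter] at hw1'
    obtain ⟨hw1S, hA1, hZ1, hg1⟩ := hw1'
    have hZu : Z < (u : ℝ) := by rw [hg1] at hZ1; exact hZ1
    have hut : u ∣ t w1 := by rw [← hg1]; exact Nat.gcd_dvd_left _ _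
    have husq : Squarefree u := Squarefree.squarefree_of_dvd hut (hsq w1 hw1S)
    have hcop : Nat.Coprime (A w0) u := by
      obtain ⟨c, _, h3, _⟩ := hA w1 hw1S
      rw [hA1] at h3
      exact Nat.Coprime.coprime_dvd_right hut h3
    have hud : UDvd (A w0 * u ^ l) w1.1.natAbs := by
      rw [← hA1]
      exact (hA w1 hw1S).udvd (hsq w1 hw1S) hut
    have hrd : RA * Z ≤ (rd (A w0 * u ^ l) : ℝ) := by
      rw [rd_Aul hl hA0 husq hcop]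
      push_cast
      have : (0 : ℝ) ≤ rd (A w0) := by positivity
      exact mul_le_mul hRA' hZu.le hZ.le this
    have h3 := hP.qr1' hY (hS hw1S) hud (by positivity : 0 < RA * Z) hrd
    refine le_trans ?_ h3
    norm_cast
    apply card_le_card
    intro w hw
    rw [hF, mem_filter] at hw
    obtain ⟨hwS, hAw, _, hg⟩ := hw
    rw [mem_filter]
    refine ⟨hS hwS, by rw [hy w hwS, hy w1 hw1S], ?_⟩
    rw [← hAw]
    exact (hA w hwS).udvd (hsq w hwS) (by rw [← hg]; exact Nat.gcd_dvd_left _ _)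
  calc ((S.filter (fun w => A w = A w0 ∧ Z < (Nat.gcd (t w) T0 : ℝ))).card : ℝ)
      ≤ ((T0.divisors.biUnion F).card : ℝ) := by exact_mod_cast card_le_card h1
    _ ≤ ((∑ u ∈ T0.divisors, (F u).card : ℕ) : ℝ) := by exact_mod_cast card_biUnion_le
    _ = ∑ u ∈ T0.divisors, ((F u).card : ℝ) := by push_cast; rfl
    _ ≤ ∑ u ∈ T0.divisors, max 1 (Y ^ (1 / 4 : ℝ) / (RA * Z)) * Y ^ κ := sum_le_sum h2
    _ = _ := by rw [sum_const, nsmul_eq_mul]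

open scoped Classical in
theorem Good.mul {K ε0 κ Y : ℝ} (hY : 1 ≤ Y) {P : Finset (ℤ × ℤ)} (hP : Good K ε0 κ Y P) {S : Finset (ℤ × ℤ)}
    (hS : S ⊆ P) {y : ℤ} (hy : ∀ w ∈ S, w.2 = y) {A t : ℤ × ℤ → ℕ} {l : ℕ} (hl : 1 ≤ l)
    (hA : ∀ w ∈ S, UA (A w) (t w) l w.1) (hsq : ∀ w ∈ S, Squarefree (t w))
    {w0 : ℤ × ℤ} (hw0 : w0 ∈ S) (hA0 : A w0 ≠ 0) (hbig : Y ^ (1 / 4 : ℝ) ≤ (rd (A w0) : ℝ) * t w0) :
    ((S.filter (fun w => A w = A w0 ∧ t w = t w0)).card : ℝ) ≤ Y ^ κ := by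
  classical
  have hY0 : 0 < Y := by linarith
  have hud : UDvd (A w0 * t w0 ^ l) w0.1.natAbs := (hA w0 hw0).udvd (hsq w0 hw0) (dvd_refl _)
  have hcop : Nat.Coprime (A w0) (t w0) := (hA w0 hw0).choose_spec.2.1
  have hrd : Y ^ (1 / 4 : ℝ) ≤ (rd (A w0 * t w0 ^ l) : ℝ) := by
    rw [rd_Aul hl hA0 (hsq w0 hw0) hcop]
    push_cast
    exact hbig
  have h3 := hP.qr1' hY (hS hw0) hud (by positivity : 0 < Y ^ (1 / 4 : ℝ)) hrd
  rw [div_self (by positivity), max_self, one_mul] at h3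
  refine le_trans ?_ h3
  norm_cast
  apply card_le_card
  intro w hw
  rw [mem_filter] at hw
  obtain ⟨hwS, hAw, htw⟩ := hw
  rw [mem_filter]
  refine ⟨hS hwS, by rw [hy w hwS, hy w0 hw0], ?_⟩
  rw [← hAw, ← htw]
  exact (hA w hwS).udvd (hsq w hwS) (dvd_refl _)

end Hp

end Pool.Agent.Lib.MP_d8bd92_nt
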