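import Pool.Agent.Lib.MP_d8bd92_nt.Hp.Defs

set_option autoImplicit false

namespace Pool.Agent.Lib.MP_d8bd92_nt

namespace Hp

open Finset Pool.Agent.Lib.Szpiro

/-- data of a family of configurations for the lattice lemma -/
structure LLData (C0 X : ℝ) (D : ℤ) (f l : ℕ) (E θ : ℝ) {ι : Type} (S : Finset ι) (Ω : ι → ℤ√D) (En s : ι → ℕ)
    (r : ι → ℤ) (W : Ideal (ℤ√D)) : Prop where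
  hX : 1 ≤ X
  hD : Squarefree D
  hD1 : D ≠ 1
  hDX : ((|D| : ℤ) : ℝ) ≤ X
  hf : 1 ≤ f
  hfX : (f : ℝ) ≤ X
  hl : 1 ≤ l
  hE : 1 ≤ E
  hEX : E ≤ X
  hθ : 0 < θ
  hθ1 : θ ≤ 1
  im_dvd : ∀ c ∈ S, (f : ℤ) ∣ (Ω c).im
  nz : ∀ c ∈ S, Ω c ≠ 0
  cop : ∀ c ∈ S, IsCoprime (Ω c).norm (f : ℤ)
  s_pos : ∀ c ∈ S, 1 ≤ s c
  E_odd : ∀ c ∈ S, Odd (En c)
  E_cop : ∀ c ∈ S, IsCoprime (En c : ℤ) (D * f)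
  root : ∀ c ∈ S, (En c : ℤ) ∣ r c ^ 2 - D
  E_lo : ∀ c ∈ S, E ≤ (En c : ℝ)
  E_hi : ∀ c ∈ S, (En c : ℝ) ≤ 2 * E
  fac : ∀ c ∈ S, Ideal.span {Ω c} = Ideal.span {(s c : ℤ√D)} * W * idl D (En c) (r c) ^ l
  bal : ∀ c ∈ S, ((hh (Ω c) : ℤ) : ℝ) ≤ C0 * ((|(Ω c).norm| : ℤ) : ℝ)
  size : ∀ c ∈ S, ((hh (Ω c) : ℤ) : ℝ) ≤ X
  real : ∀ c ∈ S, (((|D| * (Ω c).im ^ 2 : ℤ)) : ℝ) ≤ C0 * θ ^ 2 * ((|(Ω c).norm| : ℤ) : ℝ)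
  inj : ∀ c ∈ S, ∀ c' ∈ S, idl D (En c) (r c) = idl D (En c') (r c') → c = c'

open scoped Classical in
/-- data of the walk theorem.  `S` elements, `A`, `B` labels, `t` (root `r`) the part of exponent `l`. -/
structure WalkData (C0 X : ℝ) (D : ℤ) (f l : ℕ) (E θ : ℝ) (h : ℕ) (dA dB Z μA μB : ℝ) {ι : Type} (S : Finset ι) (Ω : ι → ℤ√D)
    (t s : ι → ℕ) (r : ι → ℤ) (q : Ideal (ℤ√D)) (A B : ι → Ideal (ℤ√D)) (nA nB : ι → ℕ) : Prop where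
  hX : 1 ≤ X
  hD : Squarefree D
  hD1 : D ≠ 1
  hDX : ((|D| : ℤ) : ℝ) ≤ X
  hf : 1 ≤ f
  hfX : (f : ℝ) ≤ X
  hl : 1 ≤ l
  hE : 1 ≤ E
  hEX : E ≤ X
  hθ : 0 < θ
  hθ1 : θ ≤ 1
  hZ : 1 ≤ Z
  hμA : 1 ≤ μA
  hμB : 1 ≤ μB
  hdA : 1 ≤ dA
  hdB : 1 ≤ dB
  ne : S.Nonempty
  im_dvd : ∀ e ∈ S, (f : ℤ) ∣ (Ω e).im
  nz : ∀ e ∈ S, Ω e ≠ 0
  cop : ∀ e ∈ S, IsCoprime (Ω e).norm (f : ℤ)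
  s_pos : ∀ e ∈ S, 1 ≤ s e
  t_sq : ∀ e ∈ S, Squarefree (t e)
  t_odd : ∀ e ∈ S, Odd (t e)
  t_cop : ∀ e ∈ S, IsCoprime (t e : ℤ) (D * f)
  root : ∀ e ∈ S, (t e : ℤ) ∣ r e ^ 2 - D
  t_lo : ∀ e ∈ S, E ≤ (t e : ℝ)
  t_hi : ∀ e ∈ S, (t e : ℝ) ≤ 2 * E
  cA : ∀ e ∈ S, 1 ≤ nA e ∧ A e * cj (A e) = Ideal.span {(nA e : ℤ√D)}
  cB : ∀ e ∈ S, 1 ≤ nB e ∧ B e * cj (B e) = Ideal.span {(nB e : ℤ√D)}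
  fac : ∀ e ∈ S, Ideal.span {Ω e} = Ideal.span {(s e : ℤ√D)} * q * A e * B e * idl D (t e) (r e) ^ l
  bal : ∀ e ∈ S, ∀ e' ∈ S, ((hh (Ω e * star (Ω e')) : ℤ) : ℝ) ≤ C0 * ((|(Ω e * star (Ω e')).norm| : ℤ) : ℝ)
  size : ∀ e ∈ S, ((hh (Ω e) : ℤ) : ℝ) ≤ X
  real : ∀ e ∈ S, ∀ e' ∈ S, (((|D| * (Ω e * star (Ω e')).im ^ 2 : ℤ)) : ℝ) ≤
    C0 * θ ^ 2 * ((|(Ω e * star (Ω e')).norm| : ℤ) : ℝ)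
  degA : ∀ e ∈ S, dA ≤ ((S.filter (fun e' => A e' = A e)).card : ℝ)
  degB : ∀ e ∈ S, dB ≤ ((S.filter (fun e' => B e' = B e)).card : ℝ)
  badA : ∀ e ∈ S, ∀ e0 ∈ S, ((S.filter (fun e' => A e' = A e ∧ Z < (Nat.gcd (t e') (t e0) : ℝ))).card : ℝ) ≤ dA / (2 * h)
  badB : ∀ e ∈ S, ∀ e0 ∈ S, ((S.filter (fun e' => B e' = B e ∧ Z < (Nat.gcd (t e') (t e0) : ℝ))).card : ℝ) ≤ dB / (2 * h)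
  mulA : ∀ e ∈ S, ((S.filter (fun e' => A e' = A e ∧ idl D (t e') (r e') = idl D (t e) (r e))).card : ℝ) ≤ μA
  mulB : ∀ e ∈ S, ((S.filter (fun e' => B e' = B e ∧ idl D (t e') (r e') = idl D (t e) (r e))).card : ℝ) ≤ μB

end Hp

end Pool.Agent.Lib.MP_d8bd92_nt
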