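import Pool.Agent.Lib.MP_d8bd92_nt.Hp.FPa
import Pool.Agent.Lib.MP_d8bd92_nt.Hp.Alpha
import Pool.Agent.Lib.MP_d8bd92_nt.Hp.LLDefs

set_option autoImplicit false

/-! Block 3.A, second part: the walk data of a fibre. -/

namespace Pool.Agent.Lib.MP_d8bd92_nt

namespace Hp

open Finset Pool.Agent.Lib.Szpiro

/-- a set of pairs with the same second entry `y = f ^ 2 D`, and decompositions `x = ± 2^e A B t^l` of the first entries -/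
structure Fib (K ε0 κ Y : ℝ) (l : ℕ) (RA RB RT : ℝ) (P : Finset (ℤ × ℤ)) (y D : ℤ) (f : ℕ) (e A B t : ℤ × ℤ → ℕ)
    (S : Finset (ℤ × ℤ)) : Prop where
  hY : 1 ≤ Y
  hK : 2 ≤ K
  hκ : 0 < κ
  good : Good K ε0 κ Y P
  sub : S ⊆ P
  hy : ∀ w ∈ S, w.2 = y
  hD : Squarefree D
  hf : 1 ≤ f
  hyf : y = (f : ℤ) ^ 2 * D
  hl1 : 1 ≤ l
  eq : ∀ w ∈ S, w.1.natAbs = 2 ^ e w * A w * B w * t w ^ l
  oA : ∀ w ∈ S, Odd (A w)
  oB : ∀ w ∈ S, Odd (B w)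
  ot : ∀ w ∈ S, Odd (t w)
  AB : ∀ w ∈ S, Nat.Coprime (A w) (B w)
  At : ∀ w ∈ S, Nat.Coprime (A w) (t w)
  Bt : ∀ w ∈ S, Nat.Coprime (B w) (t w)
  sq : ∀ w ∈ S, Squarefree (t w)
  hRA : 1 ≤ RA
  hRB : 1 ≤ RB
  hRT : 1 ≤ RT
  RAl : ∀ w ∈ S, RA ≤ (rd (A w) : ℝ)
  RAh : ∀ w ∈ S, (rd (A w) : ℝ) ≤ 2 * RA
  RBl : ∀ w ∈ S, RB ≤ (rd (B w) : ℝ)
  RBh : ∀ w ∈ S, (rd (B w) : ℝ) ≤ 2 * RB
  RTl : ∀ w ∈ S, RT ≤ (t w : ℝ)
  RTh : ∀ w ∈ S, (t w : ℝ) ≤ 2 * RT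
  bigA : ∀ w ∈ S, Y ^ (1 / 4 : ℝ) ≤ (rd (A w) : ℝ) * t w
  bigB : ∀ w ∈ S, Y ^ (1 / 4 : ℝ) ≤ (rd (B w) : ℝ) * t w

section fib

variable {K ε0 κ Y : ℝ} {l : ℕ} {RA RB RT : ℝ} {P : Finset (ℤ × ℤ)} {y D : ℤ} {f : ℕ} {e A B t : ℤ × ℤ → ℕ}
  {S : Finset (ℤ × ℤ)}

theorem Fib.subset (h : Fib K ε0 κ Y l RA RB RT P y D f e A B t S) {S' : Finset (ℤ × ℤ)} (hS : S' ⊆ S) :
    Fib K ε0 κ Y l RA RB RT P y D f e A B t S' where
  hY := h.hY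
  hK := h.hK
  hκ := h.hκ
  good := h.good
  sub := hS.trans h.sub
  hy := fun w hw => h.hy w (hS hw)
  hD := h.hD
  hf := h.hf
  hyf := h.hyf
  hl1 := h.hl1
  eq := fun w hw => h.eq w (hS hw)
  oA := fun w hw => h.oA w (hS hw)
  oB := fun w hw => h.oB w (hS hw)
  ot := fun w hw => h.ot w (hS hw)
  AB := fun w hw => h.AB w (hS hw)
  At := fun w hw => h.At w (hS hw)
  Bt := fun w hw => h.Bt w (hS hw)
  sq := fun w hw => h.sq w (hS hw)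
  hRA := h.hRA
  hRB := h.hRB
  hRT := h.hRT
  RAl := fun w hw => h.RAl w (hS hw)
  RAh := fun w hw => h.RAh w (hS hw)
  RBl := fun w hw => h.RBl w (hS hw)
  RBh := fun w hw => h.RBh w (hS hw)
  RTl := fun w hw => h.RTl w (hS hw)
  RTh := fun w hw => h.RTh w (hS hw)
  bigA := fun w hw => h.bigA w (hS hw)
  bigB := fun w hw => h.bigB w (hS hw)

/-- exchange `A` and `B` -/
theorem Fib.swap (h : Fib K ε0 κ Y l RA RB RT P y D f e A B t S) : Fib K ε0 κ Y l RB RA RT P y D f e B A t S where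
  hY := h.hY
  hK := h.hK
  hκ := h.hκ
  good := h.good
  sub := h.sub
  hy := h.hy
  hD := h.hD
  hf := h.hf
  hyf := h.hyf
  hl1 := h.hl1
  eq := fun w hw => by rw [h.eq w hw]; ring
  oA := h.oB
  oB := h.oA
  ot := h.ot
  AB := fun w hw => (h.AB w hw).symm
  At := h.Bt
  Bt := h.At
  sq := h.sq
  hRA := h.hRB
  hRB := h.hRA
  hRT := h.hRT
  RAl := h.RBl
  RAh := h.RBh
  RBl := h.RAl
  RBh := h.RAh
  RTl := h.RTl
  RTh := h.RTh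
  bigA := h.bigB
  bigB := h.bigA

theorem Fib.base (h : Fib K ε0 κ Y l RA RB RT P y D f e A B t S) {w : ℤ × ℤ} (hw : w ∈ S) : w ∈ PairSet K ε0 Y :=
  h.good.base w (h.sub hw)

theorem Fib.w2 (h : Fib K ε0 κ Y l RA RB RT P y D f e A B t S) {w : ℤ × ℤ} (hw : w ∈ S) :
    w.2 = (f : ℤ) ^ 2 * D := by rw [h.hy w hw, h.hyf]

theorem Fib.norm (h : Fib K ε0 κ Y l RA RB RT P y D f e A B t S) {w : ℤ × ℤ} (hw : w ∈ S) :
    (el D w f).norm = w.1 := el_norm (h.base hw).2.2.2.1 (h.w2 hw)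

theorem Fib.cop (h : Fib K ε0 κ Y l RA RB RT P y D f e A B t S) {w : ℤ × ℤ} (hw : w ∈ S) :
    IsCoprime (el D w f).norm ((el D w f).im ^ 2 * D) :=
  el_cop (h.base hw).2.2.2.1 (h.w2 hw) (h.base hw).2.2.1

theorem Fib.copf (h : Fib K ε0 κ Y l RA RB RT P y D f e A B t S) {w : ℤ × ℤ} (hw : w ∈ S) :
    IsCoprime w.1 (D * f) := by
  have h1 : IsCoprime w.1 w.2 := (h.base hw).2.2.1
  rw [h.w2 hw] at h1
  have h2 : IsCoprime w.1 D := IsCoprime.of_mul_right_right h1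
  have h3 : IsCoprime w.1 (f : ℤ) := (IsCoprime.pow_right_iff (by norm_num)).mp (IsCoprime.of_mul_right_left h1)
  exact IsCoprime.mul_right h2 h3

theorem Fib.dvdA (h : Fib K ε0 κ Y l RA RB RT P y D f e A B t S) {w : ℤ × ℤ} (hw : w ∈ S) :
    (A w : ℤ) ∣ (el D w f).norm := by
  rw [h.norm hw, Int.natCast_dvd, h.eq w hw]
  exact ⟨2 ^ e w * B w * t w ^ l, by ring⟩

theorem Fib.dvdt (h : Fib K ε0 κ Y l RA RB RT P y D f e A B t S) {w : ℤ × ℤ} (hw : w ∈ S) :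
    (t w : ℤ) ∣ (el D w f).norm := by
  rw [h.norm hw, Int.natCast_dvd, h.eq w hw]
  exact (dvd_pow_self _ (by have := h.hl1; omega)).trans (Dvd.intro_left _ rfl)

theorem Fib.A0 (h : Fib K ε0 κ Y l RA RB RT P y D f e A B t S) {w : ℤ × ℤ} (hw : w ∈ S) : A w ≠ 0 := by
  intro h0
  have := h.oA w hw
  rw [h0] at this
  exact absurd this (by decide)

theorem Fib.t0 (h : Fib K ε0 κ Y l RA RB RT P y D f e A B t S) {w : ℤ × ℤ} (hw : w ∈ S) : t w ≠ 0 :=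
  (h.sq w hw).ne_zero

theorem Fib.UA (h : Fib K ε0 κ Y l RA RB RT P y D f e A B t S) {w : ℤ × ℤ} (hw : w ∈ S) : UA (A w) (t w) l w.1 := by
  refine ⟨2 ^ e w * B w, by rw [h.eq w hw]; ring, h.At w hw, ?_⟩
  have h2A : Nat.Coprime (A w) 2 := Nat.coprime_two_right.mpr (h.oA w hw)
  have h2t : Nat.Coprime (t w) 2 := Nat.coprime_two_right.mpr (h.ot w hw)
  apply Nat.Coprime.mul_left
  · exact Nat.Coprime.mul_right (Nat.Coprime.pow_right _ h2A) (h.AB w hw)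
  · exact Nat.Coprime.mul_right (Nat.Coprime.pow_right _ h2t) (h.Bt w hw).symm

theorem Fib.xle (h : Fib K ε0 κ Y l RA RB RT P y D f e A B t S) {w : ℤ × ℤ} (hw : w ∈ S) :
    (w.1.natAbs : ℝ) ≤ Y ^ K := (h.base hw).2.2.2.2.2.2.1

theorem Fib.yle (h : Fib K ε0 κ Y l RA RB RT P y D f e A B t S) (hS : S.Nonempty) : (y.natAbs : ℝ) ≤ Y ^ K := by
  obtain ⟨w, hw⟩ := hS
  rw [← h.hy w hw]
  exact (h.base hw).2.2.2.2.2.2.2

theorem Fib.yabs (h : Fib K ε0 κ Y l RA RB RT P y D f e A B t S) :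
    ((|D| * (f : ℤ) ^ 2 : ℤ) : ℝ) = (y.natAbs : ℝ) := by
  rw [h.hyf, Int.natAbs_mul, Nat.cast_mul]
  simp [Int.natAbs_pow, Nat.cast_natAbs]
  ring

theorem Fib.D0 (h : Fib K ε0 κ Y l RA RB RT P y D f e A B t S) : D ≠ 0 := h.hD.ne_zero

theorem Fib.D1 (h : Fib K ε0 κ Y l RA RB RT P y D f e A B t S) (hS : S.Nonempty) : D ≠ 1 := by
  rintro rfl
  obtain ⟨w, hw⟩ := hS
  apply (h.good.nsq w (h.sub hw)).2
  rw [h.w2 hw]
  exact ⟨f, by ring⟩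

theorem Fib.size (h : Fib K ε0 κ Y l RA RB RT P y D f e A B t S) {w : ℤ × ℤ} (hw : w ∈ S) :
    ((hh (el D w f) : ℤ) : ℝ) ≤ 3 * Y ^ K := by
  have h1 : hh (el D w f) = w.1 + w.2 + |D| * (f : ℤ) ^ 2 := by
    show (gg w) ^ 2 + |D| * (f : ℤ) ^ 2 = _
    rw [gg_sq (h.base hw).2.2.2.1]
  rw [h1]
  have h2 := h.yabs
  have h3 := h.yle ⟨w, hw⟩
  have h4 := h.xle hw
  have h5 : (w.1 : ℝ) ≤ (w.1.natAbs : ℝ) := by rw [Nat.cast_natAbs]; exact_mod_cast le_abs_self _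
  have h6 : (w.2 : ℝ) ≤ (w.2.natAbs : ℝ) := by rw [Nat.cast_natAbs]; exact_mod_cast le_abs_self _
  rw [h.hy w hw] at h6
  push_cast at h2 ⊢
  rw [h.hy w hw]
  linarith

theorem Fib.YK (h : Fib K ε0 κ Y l RA RB RT P y D f e A B t S) : 1 ≤ Y ^ K :=
  Real.one_le_rpow h.hY (by linarith [h.hK])

theorem Fib.tle (h : Fib K ε0 κ Y l RA RB RT P y D f e A B t S) {w : ℤ × ℤ} (hw : w ∈ S) :
    (t w : ℝ) ≤ Y ^ K := by
  refine le_trans ?_ (h.xle hw)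
  have h1 := h.dvdt hw
  rw [h.norm hw, Int.natCast_dvd] at h1
  have h2 : w.1.natAbs ≠ 0 := Int.natAbs_ne_zero.mpr (h.base hw).1
  exact_mod_cast Nat.le_of_dvd (Nat.pos_of_ne_zero h2) h1

theorem Fib.Ale (h : Fib K ε0 κ Y l RA RB RT P y D f e A B t S) {w : ℤ × ℤ} (hw : w ∈ S) :
    (A w : ℝ) ≤ Y ^ K := by
  refine le_trans ?_ (h.xle hw)
  have h1 := h.dvdA hw
  rw [h.norm hw, Int.natCast_dvd] at h1
  have h2 : w.1.natAbs ≠ 0 := Int.natAbs_ne_zero.mpr (h.base hw).1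
  exact_mod_cast Nat.le_of_dvd (Nat.pos_of_ne_zero h2) h1

/-- the number of labels -/
theorem card_labels (ε : ℝ) (hε : 0 < ε) : ∃ C : ℝ, 0 < C ∧ ∀ {K ε0 κ Y : ℝ} {l : ℕ} {RA RB RT : ℝ}
    {P : Finset (ℤ × ℤ)} {y D : ℤ} {f : ℕ} {e A B t : ℤ × ℤ → ℕ} {S : Finset (ℤ × ℤ)},
    Fib K ε0 κ Y l RA RB RT P y D f e A B t S → ∀ [DecidableEq (Ideal (ℤ√D))],
    ((S.image (fun w => lbl (A w) (el D w f))).card : ℝ) ≤ C * (Y ^ K) ^ ε * (2 * RA) := by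
  obtain ⟨C, hC, hb⟩ := card_idl_le ε hε
  refine ⟨C, hC, ?_⟩
  intro K ε0 κ Y l RA RB RT P y D f e A B t S h _
  apply hb D (Y ^ K) (2 * RA) _ h.YK (by linarith [h.hRA])
  intro I hI
  rw [mem_image] at hI
  obtain ⟨w, hw, rfl⟩ := hI
  obtain ⟨r, hr1, hr2, hr3⟩ := lbl_eq_idl (el D w f) (Nat.one_le_iff_ne_zero.mpr (h.A0 hw)) (h.dvdA hw) (h.cop hw)
  refine ⟨A w, r, Nat.one_le_iff_ne_zero.mpr (h.A0 hw), h.Ale hw, h.oA w hw, ?_, h.RAh w hw, hr1, hr3⟩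
  have h1 := h.copf hw
  have h2 : (A w : ℤ) ∣ w.1 := by rw [← h.norm hw]; exact h.dvdA hw
  exact IsCoprime.of_mul_right_left (IsCoprime.of_isCoprime_of_dvd_left h1 h2)

end fib

end Hp

end Pool.Agent.Lib.MP_d8bd92_nt
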