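import Pool.Agent.Lib.MP_d8bd92_nt.Hp.FPb

set_option autoImplicit false

/-! Block 3.A, third part: the 2-part, and the walk data. -/

namespace Pool.Agent.Lib.MP_d8bd92_nt

namespace Hp

open Finset Pool.Agent.Lib.Szpiro

section fib

variable {K ε0 κ Y : ℝ} {l : ℕ} {RA RB RT : ℝ} {P : Finset (ℤ × ℤ)} {y D : ℤ} {f : ℕ} {e A B t : ℤ × ℤ → ℕ}
  {S : Finset (ℤ × ℤ)}

theorem Fib.B0 (h : Fib K ε0 κ Y l RA RB RT P y D f e A B t S) {w : ℤ × ℤ} (hw : w ∈ S) : B w ≠ 0 := h.swap.A0 hw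

theorem Fib.e_eq (h : Fib K ε0 κ Y l RA RB RT P y D f e A B t S) {w : ℤ × ℤ} (hw : w ∈ S) :
    padicValInt 2 w.1 = e w := by
  have : Fact (Nat.Prime 2) := ⟨Nat.prime_two⟩
  unfold padicValInt
  rw [h.eq w hw]
  have hA : ¬ 2 ∣ A w := fun h2 => (Nat.not_even_iff_odd.mpr (h.oA w hw)) (even_iff_two_dvd.mpr h2)
  have hB : ¬ 2 ∣ B w := fun h2 => (Nat.not_even_iff_odd.mpr (h.oB w hw)) (even_iff_two_dvd.mpr h2)
  have ht : ¬ 2 ∣ t w ^ l := fun h2 => (Nat.not_even_iff_odd.mpr ((h.ot w hw).pow)) (even_iff_two_dvd.mpr h2)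
  have h2 : (2 : ℕ) ^ e w ≠ 0 := by positivity
  have htl : t w ^ l ≠ 0 := pow_ne_zero _ (h.t0 hw)
  rw [padicValNat.mul (mul_ne_zero (mul_ne_zero h2 (h.A0 hw)) (h.B0 hw)) htl,
    padicValNat.mul (mul_ne_zero h2 (h.A0 hw)) (h.B0 hw), padicValNat.mul h2 (h.A0 hw), padicValNat.prime_pow,
    padicValNat.eq_zero_of_not_dvd hA, padicValNat.eq_zero_of_not_dvd hB, padicValNat.eq_zero_of_not_dvd ht]
  simp

/-- the 2-part is constant on a quarter of the fibre -/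
theorem Fib.two_part (h : Fib K ε0 κ Y l RA RB RT P y D f e A B t S) :
    ∃ S' ⊆ S, (S.card ≤ 4 * S'.card) ∧ ∃ q : Ideal (ℤ√D), ∀ w ∈ S', lbl (2 ^ e w) (el D w f) = q := by
  classical
  rcases S.eq_empty_or_nonempty with h0 | ⟨w0, hw0⟩
  · subst h0
    exact ⟨∅, subset_refl _, by simp, ⊤, by simp⟩
  by_cases hy : Even y
  · refine ⟨S, subset_refl _, by omega, ⊤, fun w hw => ?_⟩
    have h1 : IsCoprime w.1 w.2 := (h.base hw).2.2.1
    rw [h.hy w hw] at h1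
    have h2 : e w = 0 := by
      by_contra h3
      have h4 : (2 : ℤ) ∣ w.1 := by
        have : 2 ∣ w.1.natAbs := by
          rw [h.eq w hw]
          exact ((dvd_pow_self 2 h3).trans (Dvd.intro _ rfl)).trans ((Dvd.intro _ rfl : 2 ^ e w * A w ∣ 2 ^ e w * A w * B w).trans
            (Dvd.intro _ rfl))
        have h5 := Int.natCast_dvd.mpr this
        exact_mod_cast h5
      have h6 : (2 : ℤ) ∣ y := even_iff_two_dvd.mp hy
      have h7 := h1.isUnit_of_dvd' h4 h6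
      rw [Int.isUnit_iff] at h7
      omega
    rw [h2, pow_zero, lbl_one]
  · have hyo : Odd y := Int.not_even_iff_odd.mp hy
    have hDo : Odd D := by
      rw [h.hyf] at hyo
      exact (Int.odd_mul.mp hyo).2
    have he : ∀ w ∈ S, e w = e w0 := by
      intro w hw
      rw [← h.e_eq hw, ← h.e_eq hw0]
      exact (h.good.dy w (h.sub hw) w0 (h.sub hw0)).2.2.2.2.1
    set Q : Finset (Ideal (ℤ√D)) := S.image (fun w => lbl (2 ^ e w) (el D w f)) with hQ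
    have hQ4 : Q.card ≤ 4 := by
      apply card_two hDo (e w0)
      intro I hI
      rw [hQ, mem_image] at hI
      obtain ⟨w, hw, rfl⟩ := hI
      have hd : ((2 ^ e w : ℕ) : ℤ) ∣ (el D w f).norm := by
        rw [h.norm hw, Int.natCast_dvd, h.eq w hw]
        exact ⟨A w * B w * t w ^ l, by ring⟩
      obtain ⟨r, hr1, _, hr3⟩ := lbl_eq_idl (el D w f) (Nat.one_le_two_pow) hd (h.cop hw)
      rw [he w hw] at hr1 hr3
      exact ⟨r, hr1, by rw [he w hw]; exact hr3⟩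
    have h5 : S.card = ∑ q ∈ Q, (S.filter (fun w => lbl (2 ^ e w) (el D w f) = q)).card :=
      card_eq_sum_card_image _ _
    have hQne : Q.Nonempty := ⟨_, mem_image_of_mem _ hw0⟩
    obtain ⟨q, hq, hqm⟩ := exists_max_image Q (fun q => (S.filter (fun w => lbl (2 ^ e w) (el D w f) = q)).card) hQne
    refine ⟨S.filter (fun w => lbl (2 ^ e w) (el D w f) = q), filter_subset _ _, ?_, q, fun w hw => (mem_filter.mp hw).2⟩
    calc S.card = ∑ q ∈ Q, (S.filter (fun w => lbl (2 ^ e w) (el D w f) = q)).card := h5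
      _ ≤ ∑ _q ∈ Q, (S.filter (fun w => lbl (2 ^ e w) (el D w f) = q)).card := sum_le_sum hqm
      _ = Q.card * (S.filter (fun w => lbl (2 ^ e w) (el D w f) = q)).card := by rw [sum_const, smul_eq_mul]
      _ ≤ 4 * _ := Nat.mul_le_mul_right _ hQ4

open scoped Classical in
/-- one `bad` bound of the walk data -/
theorem Fib.bad (h : Fib K ε0 κ Y l RA RB RT P y D f e A B t S) {Z : ℝ} (hZ : 1 ≤ Z)
    {w0 w1 : ℤ × ℤ} (hw0 : w0 ∈ S) (hw1 : w1 ∈ S) :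
    ((S.filter (fun w => lbl (A w) (el D w f) = lbl (A w0) (el D w0 f) ∧ Z < (Nat.gcd (t w) (t w1) : ℝ))).card : ℝ) ≤
      ((t w1).divisors.card : ℝ) * (max 1 (Y ^ (1 / 4 : ℝ) / (RA * Z)) * Y ^ κ) := by
  refine le_trans ?_ (h.good.bad h.hY h.sub h.hy h.hl1 (fun w hw => h.UA hw) h.sq (by linarith [h.hRA] : 0 < RA)
    (by linarith : 0 < Z) hw0 (h.RAl w0 hw0) (h.A0 hw0) (h.t0 hw1))
  norm_cast
  apply card_le_card
  intro w hw
  rw [mem_filter] at hw ⊢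
  refine ⟨hw.1, ?_, hw.2.2⟩
  exact (lbl_inj (el D w f) (el D w0 f) (Nat.one_le_iff_ne_zero.mpr (h.A0 hw.1)) (Nat.one_le_iff_ne_zero.mpr (h.A0 hw0))
    (h.dvdA hw.1) (h.dvdA hw0) (h.cop hw.1) (h.cop hw0) hw.2.1).1

open scoped Classical in
/-- one `mul` bound of the walk data -/
theorem Fib.mul (h : Fib K ε0 κ Y l RA RB RT P y D f e A B t S) {r : ℤ × ℤ → ℤ}
    (hr : ∀ w ∈ S, (t w : ℤ) ∣ r w ^ 2 - D) {w0 : ℤ × ℤ} (hw0 : w0 ∈ S) :
    ((S.filter (fun w => lbl (A w) (el D w f) = lbl (A w0) (el D w0 f) ∧ idl D (t w) (r w) = idl D (t w0) (r w0))).card : ℝ) ≤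
      Y ^ κ := by
  refine le_trans ?_ (h.good.mul h.hY h.sub h.hy h.hl1 (fun w hw => h.UA hw) h.sq hw0 (h.A0 hw0) (h.bigA w0 hw0))
  norm_cast
  apply card_le_card
  intro w hw
  rw [mem_filter] at hw ⊢
  refine ⟨hw.1, ?_, ?_⟩
  · exact (lbl_inj (el D w f) (el D w0 f) (Nat.one_le_iff_ne_zero.mpr (h.A0 hw.1)) (Nat.one_le_iff_ne_zero.mpr (h.A0 hw0))
      (h.dvdA hw.1) (h.dvdA hw0) (h.cop hw.1) (h.cop hw0) hw.2.1).1
  · exact (idl_inj (Nat.one_le_iff_ne_zero.mpr (h.t0 hw.1)) (Nat.one_le_iff_ne_zero.mpr (h.t0 hw0)) (hr w hw.1) (hr w0 hw0)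
      hw.2.2).1

end fib

end Hp

end Pool.Agent.Lib.MP_d8bd92_nt
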