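import Pool.Agent.Lib.MP_d8bd92_nt.Hp.FPc

set_option autoImplicit false

/-! Block 3.A, fourth part: the walk data. -/

namespace Pool.Agent.Lib.MP_d8bd92_nt

namespace Hp

open Finset Pool.Agent.Lib.Szpiro

section fib

variable {K ε0 κ Y : ℝ} {l : ℕ} {RA RB RT : ℝ} {P : Finset (ℤ × ℤ)} {y D : ℤ} {f : ℕ} {e A B t : ℤ × ℤ → ℕ}
  {S : Finset (ℤ × ℤ)}

theorem Fib.sqrt_sq (h : Fib K ε0 κ Y l RA RB RT P y D f e A B t S) :
    ((f : ℝ) * √((|D| : ℤ) : ℝ)) ^ 2 = (y.natAbs : ℝ) := by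
  rw [mul_pow, Real.sq_sqrt (by positivity), ← h.yabs]
  push_cast
  ring

theorem Fib.theta (h : Fib K ε0 κ Y l RA RB RT P y D f e A B t S) (hS : S.Nonempty) :
    ∃ θ : ℝ, 0 < θ ∧ θ ≤ 1 ∧ θ / ((f : ℝ) * √((|D| : ℤ) : ℝ)) ≤ 8 * Y ^ (-(1 + ε0 / 2)) ∧
      ∀ w ∈ S, ∀ w' ∈ S, BR 1000 θ (el D w f * star (el D w' f)) := by
  obtain ⟨θ, h0, h1, hθ⟩ := theta_exists S (fun w hw => ⟨(h.base hw).1, (h.base hw).2.1⟩)
    (fun w hw w' hw' => ⟨(h.good.dy w (h.sub hw) w' (h.sub hw')).1, (h.good.dy w (h.sub hw) w' (h.sub hw')).2.1⟩)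
  have hY0 : 0 < Y := by linarith [h.hY]
  refine ⟨θ, h0, h1, ?_, ?_⟩
  · obtain ⟨w, hw⟩ := hS
    have h2 := (hθ w hw).2
    have h3 : Y ^ (2 + ε0) ≤ max (w.1.natAbs : ℝ) (w.2.natAbs : ℝ) := (h.base hw).2.2.2.2.2.1
    rw [h.hy w hw] at h2 h3
    have h4 : θ ^ 2 * Y ^ (2 + ε0) ≤ 64 * (y.natAbs : ℝ) :=
      (mul_le_mul_of_nonneg_left h3 (by positivity)).trans h2
    have h5 := h.sqrt_sq
    have hD0 : (0 : ℝ) < ((|D| : ℤ) : ℝ) := by exact_mod_cast abs_pos.mpr h.D0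
    have hf0 : (0 : ℝ) < (f : ℝ) := by exact_mod_cast h.hf
    set F : ℝ := (f : ℝ) * √((|D| : ℤ) : ℝ) with hF
    have hF0 : 0 < F := by positivity
    rw [div_le_iff₀ hF0]
    apply le_of_sq_le_sq _ (by positivity)
    have h6 : (8 * Y ^ (-(1 + ε0 / 2)) * F) ^ 2 = 64 * (Y ^ (2 + ε0))⁻¹ * F ^ 2 := by
      have : (Y ^ (-(1 + ε0 / 2))) ^ 2 = (Y ^ (2 + ε0))⁻¹ := by
        rw [← Real.rpow_natCast (Y ^ (-(1 + ε0 / 2))) 2, ← Real.rpow_mul hY0.le, ← Real.rpow_neg hY0.le]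
        congr 1
        push_cast
        ring
      rw [mul_pow, mul_pow, this]
      norm_num
    rw [h6, h5]
    have hp : 0 < Y ^ (2 + ε0) := by positivity
    rw [mul_assoc, inv_mul_eq_div, ← mul_div_assoc, le_div_iff₀ hp]
    exact h4
  · intro w hw w' hw'
    have hyy : ∀ v ∈ S, ((|D| * (el D v f).im ^ 2 : ℤ) : ℝ) = (v.2.natAbs : ℝ) := by
      intro v hv
      rw [h.hy v hv]
      exact h.yabs
    have hx : ∀ v ∈ S, ((|(el D v f).norm| : ℤ) : ℝ) = (v.1.natAbs : ℝ) := by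
      intro v hv
      rw [h.norm hv, Nat.cast_natAbs]
    have hdy := h.good.dy w (h.sub hw) w' (h.sub hw')
    have hdy' := h.good.dy w' (h.sub hw') w (h.sub hw)
    have hf0 : (0 : ℤ) < (f : ℤ) := by exact_mod_cast h.hf
    have hf1 : (0 : ℝ) < ((f : ℤ) : ℝ) := by exact_mod_cast hf0
    apply BR_pair h.D0 (gg_nonneg w) (gg_nonneg w') hf0 hf0
    · rw [hx w hw, hx w' hw']; exact_mod_cast hdy.1
    · rw [hx w hw, hx w' hw']; exact_mod_cast hdy'.1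
    · rw [h.norm hw, h.norm hw']; exact hdy.2.2.1
    · rw [h.norm hw]; exact (h.base hw).1
    · rw [h.norm hw']; exact (h.base hw').1
    · show ((f : ℤ) : ℝ) ≤ 2 * ((f : ℤ) : ℝ); linarith
    · show ((f : ℤ) : ℝ) ≤ 2 * ((f : ℤ) : ℝ); linarith
    · rfl
    · rw [hyy w hw, hx w hw]
      exact (hθ w hw).1

open scoped Classical in
/-- the walk data of a fibre -/
theorem Fib.walkData (h : Fib K ε0 κ Y l RA RB RT P y D f e A B t S) (hS : S.Nonempty) {q : Ideal (ℤ√D)}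
    (hq : ∀ w ∈ S, lbl (2 ^ e w) (el D w f) = q) (n : ℕ) {dA dB Z : ℝ} (hZ : 1 ≤ Z) (hdA : 1 ≤ dA) (hdB : 1 ≤ dB)
    (degA : ∀ w ∈ S, dA ≤ ((S.filter (fun w' => lbl (A w') (el D w' f) = lbl (A w) (el D w f))).card : ℝ))
    (degB : ∀ w ∈ S, dB ≤ ((S.filter (fun w' => lbl (B w') (el D w' f) = lbl (B w) (el D w f))).card : ℝ))
    (badA : ∀ w ∈ S, ((t w).divisors.card : ℝ) * (max 1 (Y ^ (1 / 4 : ℝ) / (RA * Z)) * Y ^ κ) ≤ dA / (2 * n))
    (badB : ∀ w ∈ S, ((t w).divisors.card : ℝ) * (max 1 (Y ^ (1 / 4 : ℝ) / (RB * Z)) * Y ^ κ) ≤ dB / (2 * n)) :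
    ∃ (θ : ℝ) (r : ℤ × ℤ → ℤ), 0 < θ ∧ θ / ((f : ℝ) * √((|D| : ℤ) : ℝ)) ≤ 8 * Y ^ (-(1 + ε0 / 2)) ∧
      WalkData 1000 (3 * Y ^ K) D f l RT θ n dA dB Z (Y ^ κ) (Y ^ κ) S (fun w => el D w f) t (fun _ => 1) r q
        (fun w => lbl (A w) (el D w f)) (fun w => lbl (B w) (el D w f)) A B := by
  obtain ⟨θ, h0, h1, h2, hBR⟩ := h.theta hS
  have hY0 : 0 < Y := by linarith [h.hY]
  have hr0 : ∀ w : ℤ × ℤ, ∃ r : ℤ, w ∈ S → ((t w : ℤ) ∣ r ^ 2 - D ∧ lbl (t w) (el D w f) = idl D (t w) r) := by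
    intro w
    by_cases hw : w ∈ S
    · obtain ⟨r, hr1, _, hr3⟩ := lbl_eq_idl (el D w f) (Nat.one_le_iff_ne_zero.mpr (h.t0 hw)) (h.dvdt hw) (h.cop hw)
      exact ⟨r, fun _ => ⟨hr1, hr3⟩⟩
    · exact ⟨0, fun h' => absurd h' hw⟩
  choose r hr using hr0
  have hYK := h.YK
  have hyK := h.yle hS
  have hfY : (f : ℝ) ≤ (y.natAbs : ℝ) ∧ ((|D| : ℤ) : ℝ) ≤ (y.natAbs : ℝ) := by
    rw [← h.yabs]
    have hD1 : (1 : ℤ) ≤ |D| := Int.one_le_abs h.D0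
    have hf1 : (1 : ℤ) ≤ (f : ℤ) := by exact_mod_cast h.hf
    have h3 : (f : ℤ) ≤ |D| * (f : ℤ) ^ 2 := by nlinarith
    have h4 : |D| ≤ |D| * (f : ℤ) ^ 2 := le_mul_of_one_le_right (by linarith) (one_le_pow₀ hf1)
    constructor
    · exact_mod_cast h3
    · exact_mod_cast h4
  have hκ1 : 1 ≤ Y ^ κ := Real.one_le_rpow h.hY h.hκ.le
  refine ⟨θ, r, h0, h2, ?_⟩
  exact {
    hX := by linarith
    hD := h.hD
    hD1 := h.D1 hS
    hDX := by linarith [hfY.2]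
    hf := h.hf
    hfX := by linarith [hfY.1]
    hl := h.hl1
    hE := h.hRT
    hEX := by
      obtain ⟨w, hw⟩ := hS
      linarith [h.RTl w hw, h.tle hw]
    hθ := h0
    hθ1 := h1
    hZ := hZ
    hμA := hκ1
    hμB := hκ1
    hdA := hdA
    hdB := hdB
    ne := hS
    im_dvd := fun w _ => dvd_refl _
    nz := fun w hw h3 => by
      have h4 := h.norm hw
      rw [h3, Zsqrtd.norm_zero] at h4
      exact (h.base hw).1 h4.symm
    cop := fun w hw => by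
      rw [h.norm hw]
      exact IsCoprime.of_mul_right_right (h.copf hw)
    s_pos := fun _ _ => le_refl _
    t_sq := h.sq
    t_odd := h.ot
    t_cop := fun w hw => by
      have h3 : (t w : ℤ) ∣ w.1 := by rw [← h.norm hw]; exact h.dvdt hw
      exact IsCoprime.of_isCoprime_of_dvd_left (h.copf hw) h3
    root := fun w hw => (hr w hw).1
    t_lo := h.RTl
    t_hi := h.RTh
    cA := fun w hw => ⟨Nat.one_le_iff_ne_zero.mpr (h.A0 hw), lbl_mul_cj _ (h.oA w hw) (h.dvdA hw) (h.cop hw)⟩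
    cB := fun w hw => ⟨Nat.one_le_iff_ne_zero.mpr (h.B0 hw), lbl_mul_cj _ (h.oB w hw) (h.swap.dvdA hw) (h.cop hw)⟩
    fac := fun w hw => by
      have h3 : (el D w f).norm.natAbs = 2 ^ e w * A w * B w * t w ^ l := by rw [h.norm hw]; exact h.eq w hw
      rw [span_el (el D w f) (h.cop hw) h3 (h.oA w hw) (h.oB w hw) (h.ot w hw) (h.AB w hw) (h.At w hw) (h.Bt w hw),
        hq w hw, (hr w hw).2]
      simp
    bal := fun w hw w' hw' => (hBR w hw w' hw').1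
    size := fun w hw => h.size hw
    real := fun w hw w' hw' => (hBR w hw w' hw').2
    degA := degA
    degB := degB
    badA := fun w hw w' hw' => (h.bad hZ hw hw').trans (badA w' hw')
    badB := fun w hw w' hw' => (h.swap.bad hZ hw hw').trans (badB w' hw')
    mulA := fun w hw => h.mul (fun w hw => (hr w hw).1) hw
    mulB := fun w hw => h.swap.mul (fun w hw => (hr w hw).1) hw }

end fib

end Hp

end Pool.Agent.Lib.MP_d8bd92_nt
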