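import Pool.Agent.Lib.MP_d8bd92_nt.Hp.FPd
import Pool.Agent.Lib.MP_d8bd92_nt.Hp.WJ
import Pool.Agent.Lib.MP_d8bd92_nt.Hp.WA

set_option autoImplicit false

/-! Block 3.A, fifth part: choice of the length of the walk, contradiction. -/

namespace Pool.Agent.Lib.MP_d8bd92_nt

namespace Hp

open Finset Pool.Agent.Lib.Szpiro

theorem fp_h {ε0 η τ : ℝ} (hε : 0 < ε0) (hη : 0 < η) (hτ : η ≤ τ) (hτ1 : τ ≤ 3 / 5) :
    ∃ m : ℕ, 1 ≤ m ∧ (2 * (m : ℝ)) ≤ 2 + (1 + ε0) / η ∧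
      1 / 2 + ε0 / 4 + max 0 (2 * m * τ - 1 - ε0 / 2) ≤ (2 * m + 1) * τ / 2 := by
  have hτ0 : 0 < τ := by linarith
  set v : ℝ := (1 + τ + ε0 / 2) / (2 * τ) with hv
  have hv1 : 1 ≤ v := by
    rw [hv, le_div_iff₀ (by linarith)]
    linarith
  have hv0 : v * (2 * τ) = 1 + τ + ε0 / 2 := div_mul_cancel₀ _ (by linarith)
  refine ⟨⌊v⌋₊, ?_, ?_, ?_⟩
  · exact (Nat.one_le_floor_iff v).mpr hv1
  · have h1 : ((⌊v⌋₊ : ℕ) : ℝ) ≤ v := Nat.floor_le (by linarith)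
    have h2 : 2 * v ≤ 2 + (1 + ε0) / η := by
      have h3 : 2 * v = 1 + (1 + ε0 / 2) / τ := by
        rw [hv]
        field_simp
        ring
      have h4 : (1 + ε0 / 2) / τ ≤ (1 + ε0) / η := by
        apply div_le_div₀ (by linarith) (by linarith) hη hτ
      linarith
    linarith
  · have h1 : ((⌊v⌋₊ : ℕ) : ℝ) ≤ v := Nat.floor_le (by linarith)
    have h2 : v < ((⌊v⌋₊ : ℕ) : ℝ) + 1 := Nat.lt_floor_add_one v
    set n : ℝ := ((⌊v⌋₊ : ℕ) : ℝ) with hn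
    have h3 : 2 * n * τ ≤ 1 + τ + ε0 / 2 := by
      rw [← hv0]; nlinarith
    have h4 : 1 + τ + ε0 / 2 - 2 * τ ≤ 2 * n * τ := by
      rw [← hv0]; nlinarith
    rcases le_total 0 (2 * n * τ - 1 - ε0 / 2) with h5 | h5
    · rw [max_eq_right h5]
      nlinarith
    · rw [max_eq_left h5]
      nlinarith

theorem large_rpow (C c : ℝ) (hc : 0 < c) : ∃ Y0 : ℝ, 1 ≤ Y0 ∧ ∀ Y : ℝ, Y0 ≤ Y → C ≤ Y ^ c := by
  refine ⟨(max C 1) ^ (1 / c), Real.one_le_rpow (le_max_right _ _) (by positivity), fun Y hY => ?_⟩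
  have h0 : (0 : ℝ) < max C 1 := by positivity
  calc C ≤ max C 1 := le_max_left _ _
    _ = ((max C 1) ^ (1 / c)) ^ c := by rw [← Real.rpow_mul h0.le, one_div, inv_mul_cancel₀ hc.ne', Real.rpow_one]
    _ ≤ Y ^ c := Real.rpow_le_rpow (by positivity) hY hc.le

theorem exp_of {Y R : ℝ} (hY : 1 < Y) (hR : 1 ≤ R) : ∃ a : ℝ, 0 ≤ a ∧ R = Y ^ a :=
  ⟨Real.logb Y R, Real.logb_nonneg hY hR, (Real.rpow_logb (by linarith) hY.ne' (by linarith)).symm⟩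

open scoped Classical in
/-- the walk theorem for all lengths up to `H` with one constant -/
theorem walk_all (ε : ℝ) (hε : 0 < ε) (L H : ℕ) : ∃ C : ℝ, 1 ≤ C ∧
    ∀ (m : ℕ), 1 ≤ m → 2 * m ≤ H → ∀ (X : ℝ) (D : ℤ) (f l : ℕ) (E θ : ℝ) (dA dB Z μA μB : ℝ) (ι : Type) (S : Finset ι)
      (Ω : ι → ℤ√D) (t s : ι → ℕ) (r : ι → ℤ) (q : Ideal (ℤ√D)) (A B : ι → Ideal (ℤ√D)) (nA nB : ι → ℕ), l ≤ L →
      WalkData 1000 X D f l E θ (2 * m) dA dB Z μA μB S Ω t s r q A B nA nB →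
      dA ^ m * dB ^ m ≤ C * X ^ ε * Z ^ ((2 * m) ^ 3) * μA ^ m * μB ^ m * ((S.image A).card : ℝ) *
        √((|D| : ℤ) : ℝ) * (1 + θ * E ^ (2 * m) / ((f : ℝ) * √((|D| : ℤ) : ℝ))) := by
  have h1 : ∀ h : ℕ, ∃ C : ℝ, 0 < C ∧ (1 ≤ h → ∀ (X : ℝ) (D : ℤ) (f l : ℕ) (E θ : ℝ) (dA dB Z μA μB : ℝ) (ι : Type) (S : Finset ι)
      (Ω : ι → ℤ√D) (t s : ι → ℕ) (r : ι → ℤ) (q : Ideal (ℤ√D)) (A B : ι → Ideal (ℤ√D)) (nA nB : ι → ℕ), l ≤ L →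
      WalkData 1000 X D f l E θ h dA dB Z μA μB S Ω t s r q A B nA nB →
      dA ^ ((h + 1) / 2) * dB ^ (h / 2) ≤ C * X ^ ε * Z ^ (h ^ 3) * μA ^ ((h + 1) / 2) * μB ^ (h / 2) *
        ((if Even h then (S.image A).card else (S.image B).card : ℕ) : ℝ) *
        (if l = 1 then 1 else √((|D| : ℤ) : ℝ)) * (1 + θ * E ^ h / ((f : ℝ) * √((|D| : ℤ) : ℝ)))) := by
    intro h
    by_cases hh : 1 ≤ h
    · obtain ⟨C, hC, hb⟩ := walk_theorem ε hε L h hh 1000 (by norm_num)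
      exact ⟨C, hC, fun _ => hb⟩
    · exact ⟨1, one_pos, fun h' => absurd h' hh⟩
  choose C hC hb using h1
  refine ⟨1 + ∑ h ∈ range (H + 1), C h, ?_, ?_⟩
  · have : 0 ≤ ∑ h ∈ range (H + 1), C h := sum_nonneg fun h _ => (hC h).le
    linarith
  intro m hm hmH X D f l E θ dA dB Z μA μB ι S Ω t s r q A B nA nB hl hW
  have h2 := hb (2 * m) (by omega) X D f l E θ dA dB Z μA μB ι S Ω t s r q A B nA nB hl hW
  have e1 : (2 * m + 1) / 2 = m := by omega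
  have e2 : 2 * m / 2 = m := by omega
  rw [e1, e2, if_pos (even_two_mul m)] at h2
  refine h2.trans ?_
  have hX0 : (0 : ℝ) ≤ X := by linarith [hW.hX]
  have hZ0 : (0 : ℝ) ≤ Z := by linarith [hW.hZ]
  have hμA0 : (0 : ℝ) ≤ μA := by linarith [hW.hμA]
  have hμB0 : (0 : ℝ) ≤ μB := by linarith [hW.hμB]
  have hE0 : (0 : ℝ) ≤ E := by linarith [hW.hE]
  have hθ0 : (0 : ℝ) ≤ θ := hW.hθ.le
  have hCle : C (2 * m) ≤ 1 + ∑ h ∈ range (H + 1), C h := by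
    have : C (2 * m) ≤ ∑ h ∈ range (H + 1), C h :=
      single_le_sum (f := C) (fun h _ => (hC h).le) (mem_range.mpr (by omega))
    linarith
  have hD1 : (1 : ℝ) ≤ √((|D| : ℤ) : ℝ) := by
    rw [Real.one_le_sqrt]
    exact_mod_cast Int.one_le_abs hW.hD.ne_zero
  have hite : (if l = 1 then (1 : ℝ) else √((|D| : ℤ) : ℝ)) ≤ √((|D| : ℤ) : ℝ) := by
    split_ifs
    · exact hD1
    · exact le_refl _
  have hite0 : (0 : ℝ) ≤ (if l = 1 then (1 : ℝ) else √((|D| : ℤ) : ℝ)) := by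
    split_ifs <;> positivity
  have hc0 : (0 : ℝ) ≤ 1 + ∑ h ∈ range (H + 1), C h := by
    have : 0 ≤ ∑ h ∈ range (H + 1), C h := sum_nonneg fun h _ => (hC h).le
    linarith
  generalize 1 + ∑ h ∈ range (H + 1), C h = c at hCle hc0
  gcongr

end Hp

end Pool.Agent.Lib.MP_d8bd92_nt
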