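import Pool.Agent.Lib.MP_d8bd92_nt.Hp.FPe

set_option autoImplicit false

/-! Block 3.A, sixth part: the contradiction. -/

namespace Pool.Agent.Lib.MP_d8bd92_nt

namespace Hp

open Finset Pool.Agent.Lib.Szpiro

/-- the numerical form of the `bad` condition -/
theorem fp_badnum {Y κ η c d N : ℝ} (hY : 1 < Y) (hκ : 0 < κ) (hκη : κ ≤ η / 8) (hc : c ≤ 1 / 4 - η)
    (hd : d ≤ Y ^ (κ / 4)) (hN0 : 0 < N) (hN : N ≤ Y ^ κ) :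
    d * (max 1 (Y ^ (1 / 4 : ℝ) / (Y ^ c * Y ^ (6 * κ))) * Y ^ κ) ≤ Y ^ (1 / 4 - 3 * κ - c) / N := by
  have hY0 : 0 < Y := zero_lt_one.trans hY
  have h1 : Y ^ (1 / 4 : ℝ) / (Y ^ c * Y ^ (6 * κ)) = Y ^ (1 / 4 - c - 6 * κ) := by
    rw [← Real.rpow_add hY0, ← Real.rpow_sub hY0]
    congr 1
    ring
  rw [h1, le_div_iff₀ hN0]
  have h2 : max 1 (Y ^ (1 / 4 - c - 6 * κ)) ≤ Y ^ (1 / 4 - c - (21 / 4) * κ) := by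
    apply max_le
    · apply Real.one_le_rpow hY.le
      linarith only [hκη, hκ, hc]
    · apply Real.rpow_le_rpow_of_exponent_le hY.le
      linarith only [hκ]
  have h3 : (0 : ℝ) ≤ max 1 (Y ^ (1 / 4 - c - 6 * κ)) := by positivity
  calc d * (max 1 (Y ^ (1 / 4 - c - 6 * κ)) * Y ^ κ) * N
      ≤ Y ^ (κ / 4) * (Y ^ (1 / 4 - c - (21 / 4) * κ) * Y ^ κ) * Y ^ κ := by gcongr
    _ = Y ^ (1 / 4 - 3 * κ - c) := by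
        rw [← Real.rpow_add hY0, ← Real.rpow_add hY0, ← Real.rpow_add hY0]
        congr 1
        ring

/-- the numerical form of the degree condition -/
theorem fp_degnum {Y κ c s n : ℝ} (hY : 1 < Y) (h16 : 16 ≤ Y ^ (3 * κ / 4)) (hs : Y ^ (1 / 4 - 2 * κ) ≤ 4 * s)
    (hn0 : 0 < n) (hn : n ≤ Y ^ (κ / 4 + c)) : Y ^ (1 / 4 - 3 * κ - c) ≤ s / (4 * n) := by
  have hY0 : 0 < Y := zero_lt_one.trans hY
  rw [le_div_iff₀ (by positivity)]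
  have h1 : Y ^ (1 / 4 - 3 * κ - c) * (4 * n) ≤ Y ^ (1 / 4 - 3 * κ - c) * (4 * Y ^ (κ / 4 + c)) := by gcongr
  have h2 : Y ^ (1 / 4 - 3 * κ - c) * (4 * Y ^ (κ / 4 + c)) * Y ^ (3 * κ / 4) = 4 * Y ^ (1 / 4 - 2 * κ) := by
    rw [show Y ^ (1 / 4 - 3 * κ - c) * (4 * Y ^ (κ / 4 + c)) * Y ^ (3 * κ / 4) =
      4 * (Y ^ (1 / 4 - 3 * κ - c) * Y ^ (κ / 4 + c) * Y ^ (3 * κ / 4)) by ring, ← Real.rpow_add hY0, ← Real.rpow_add hY0]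
    congr 2
    ring
  have h3 : 0 ≤ Y ^ (1 / 4 - 3 * κ - c) * (4 * Y ^ (κ / 4 + c)) := by positivity
  have h4 : Y ^ (1 / 4 - 3 * κ - c) * (4 * Y ^ (κ / 4 + c)) * 16 ≤
      Y ^ (1 / 4 - 3 * κ - c) * (4 * Y ^ (κ / 4 + c)) * Y ^ (3 * κ / 4) := mul_le_mul_of_nonneg_left h16 h3
  rw [h2] at h4
  linarith only [h1, h4, hs]

/-- the final inequality in exponents -/
theorem fp_final {Y κ ε0 a b τ C N SD F X Z μ dA dB : ℝ} {m H : ℕ} (hY : 1 < Y) (hκ : 0 < κ)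
    (hm : 1 ≤ m) (hmH : 2 * m ≤ H) (hκH : κ * (6 * (H : ℝ) ^ 3 + 6 * H + 8) ≤ ε0 / 16) (hε : 0 < ε0)
    (hab : a ≤ b) (hsum : a + b + τ ≤ (1 + κ) / 2) (hτ0 : 0 ≤ τ)
    (hfin : 1 / 2 + ε0 / 4 + max 0 (2 * m * τ - 1 - ε0 / 2) ≤ (2 * m + 1) * τ / 2)
    (hX0 : 0 ≤ X) (hC0 : 0 ≤ C) (hN0 : 0 ≤ N) (hSD0 : 0 ≤ SD) (hF0 : 0 ≤ F)
    (hCX : 9 * (C * X) ≤ Y ^ (ε0 / 16) * Y ^ κ) (hZ : Z = Y ^ (6 * κ)) (hμ : μ = Y ^ κ)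
    (hdA : dA = Y ^ (1 / 4 - 3 * κ - a)) (hdB : dB = Y ^ (1 / 4 - 3 * κ - b))
    (hN : N ≤ Y ^ (κ / 4 + a)) (hSD : SD ≤ Y ^ ((1 + κ) / 4)) (hF : F ≤ 8 * Y ^ (2 * m * τ - 1 - ε0 / 2))
    (h : dA ^ m * dB ^ m ≤ C * X * Z ^ ((2 * m) ^ 3) * μ ^ m * μ ^ m * N * SD * (1 + F)) : False := by
  have hY0 : 0 < Y := zero_lt_one.trans hY
  set M0 : ℝ := max 0 (2 * m * τ - 1 - ε0 / 2) with hM0
  have hmr : (1 : ℝ) ≤ (m : ℝ) := by exact_mod_cast hm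
  have hm0 : (0 : ℝ) ≤ (m : ℝ) := Nat.cast_nonneg m
  have hmHr : 2 * (m : ℝ) ≤ (H : ℝ) := by exact_mod_cast hmH
  have h1F : 1 + F ≤ 9 * Y ^ M0 := by
    have h1 : (1 : ℝ) ≤ Y ^ M0 := Real.one_le_rpow hY.le (le_max_left _ _)
    have h2 : Y ^ (2 * m * τ - 1 - ε0 / 2) ≤ Y ^ M0 := Real.rpow_le_rpow_of_exponent_le hY.le (le_max_right _ _)
    linarith only [h1, h2, hF]
  have hL : dA ^ m * dB ^ m = Y ^ ((1 / 2 - 6 * κ - a - b) * m) := by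
    rw [hdA, hdB, ← Real.rpow_natCast, ← Real.rpow_natCast, ← Real.rpow_mul hY0.le, ← Real.rpow_mul hY0.le,
      ← Real.rpow_add hY0]
    congr 1
    ring
  have hZp : Z ^ ((2 * m) ^ 3) = Y ^ (6 * κ * (2 * m) ^ 3) := by
    rw [hZ, ← Real.rpow_natCast, ← Real.rpow_mul hY0.le]
    push_cast
    rfl
  have hμp : μ ^ m = Y ^ (κ * m) := by
    rw [hμ, ← Real.rpow_natCast, ← Real.rpow_mul hY0.le]
  have hR : C * X * Z ^ ((2 * m) ^ 3) * μ ^ m * μ ^ m * N * SD * (1 + F) ≤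
      Y ^ (ε0 / 16 + κ + 6 * κ * (2 * m) ^ 3 + κ * m + κ * m + (κ / 4 + a) + (1 + κ) / 4 + M0) := by
    rw [hZp, hμp]
    calc C * X * Y ^ (6 * κ * (2 * m) ^ 3) * Y ^ (κ * m) * Y ^ (κ * m) * N * SD * (1 + F)
        ≤ C * X * Y ^ (6 * κ * (2 * m) ^ 3) * Y ^ (κ * m) * Y ^ (κ * m) * Y ^ (κ / 4 + a) * Y ^ ((1 + κ) / 4) * (9 * Y ^ M0) := by
          gcongr
      _ = (9 * (C * X)) * (Y ^ (6 * κ * (2 * m) ^ 3) * Y ^ (κ * m) * Y ^ (κ * m) * Y ^ (κ / 4 + a) * Y ^ ((1 + κ) / 4) * Y ^ M0) := by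
          ring
      _ ≤ (Y ^ (ε0 / 16) * Y ^ κ) * (Y ^ (6 * κ * (2 * m) ^ 3) * Y ^ (κ * m) * Y ^ (κ * m) * Y ^ (κ / 4 + a) * Y ^ ((1 + κ) / 4) * Y ^ M0) := by
          gcongr
      _ = _ := by
          simp only [← Real.rpow_add hY0]
          congr 1
          ring
  have hE := h.trans hR
  rw [hL, Real.rpow_le_rpow_left_iff hY] at hE
  have hm3 : (6 : ℝ) * κ * (2 * m) ^ 3 ≤ κ * (6 * (H : ℝ) ^ 3) := by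
    have h1 : (2 * (m : ℝ)) ^ 3 ≤ (H : ℝ) ^ 3 := pow_le_pow_left₀ (mul_nonneg zero_le_two hm0) hmHr 3
    have h2 : 6 * κ * (2 * (m : ℝ)) ^ 3 ≤ 6 * κ * (H : ℝ) ^ 3 :=
      mul_le_mul_of_nonneg_left h1 (mul_nonneg (Nat.ofNat_nonneg 6) hκ.le)
    linarith only [h2]
  have hκm : κ * m ≤ κ * H / 2 := by
    have h1 : κ * (2 * (m : ℝ)) ≤ κ * H := mul_le_mul_of_nonneg_left hmHr hκ.le
    linarith only [h1]
  have hκH0 : 0 ≤ κ * (H : ℝ) := mul_nonneg hκ.le (Nat.cast_nonneg H)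
  have hsum' : 1 / 2 - 6 * κ - a - b ≥ τ - 7 * κ := by linarith only [hsum, hκ]
  have h5 : (τ - 7 * κ) * m ≤ (1 / 2 - 6 * κ - a - b) * m := by
    exact mul_le_mul_of_nonneg_right hsum' hm0
  linarith only [hE, h5, hfin, hκH, hab, hsum, hm3, hκm, hκH0, hκ, hε]

end Hp

end Pool.Agent.Lib.MP_d8bd92_nt
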