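import Pool.Agent.Lib.MP_d8bd92_nt.Hp.FPf

set_option autoImplicit false

/-! Block 3.A, seventh part: a large fibre is impossible. -/

namespace Pool.Agent.Lib.MP_d8bd92_nt

namespace Hp

open Finset Pool.Agent.Lib.Szpiro

/-- choice of `κ` -/
theorem fp_kappa (ε0 η : ℝ) (H : ℕ) (hε : 0 < ε0) (hη : 0 < η) : ∃ κ : ℝ, 0 < κ ∧ κ ≤ 1 / 100 ∧ κ ≤ η / 8 ∧
    κ * (6 * (H : ℝ) ^ 3 + 6 * H + 8) ≤ ε0 / 16 := by
  have h1 : (0 : ℝ) < 6 * (H : ℝ) ^ 3 + 6 * H + 8 := by positivity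
  refine ⟨min (min (1 / 100) (η / 8)) (ε0 / 16 / (6 * (H : ℝ) ^ 3 + 6 * H + 8)), ?_, ?_, ?_, ?_⟩
  · apply lt_min (lt_min (by norm_num) (by positivity)) (by positivity)
  · exact (min_le_left _ _).trans (min_le_left _ _)
  · exact (min_le_left _ _).trans (min_le_right _ _)
  · rw [← le_div_iff₀ h1]
    exact min_le_right _ _

theorem fp_contra_le (K ε0 η : ℝ) (L : ℕ) (hK : 2 ≤ K) (hε : 0 < ε0) (hη : 0 < η) :
    ∃ κ : ℝ, 0 < κ ∧ κ ≤ 1 / 100 ∧ κ ≤ η / 8 ∧ ∃ Y0 : ℝ, 1 ≤ Y0 ∧ ∀ Y : ℝ, Y0 ≤ Y →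
      ∀ {l : ℕ} {RA RB RT : ℝ} {P : Finset (ℤ × ℤ)} {y D : ℤ} {f : ℕ} {e A B t : ℤ × ℤ → ℕ} {S : Finset (ℤ × ℤ)},
        Fib K ε0 κ Y l RA RB RT P y D f e A B t S → l ≤ L → Y ^ (1 / 4 - 2 * κ) ≤ (S.card : ℝ) → RA ≤ RB →
        RA ≤ Y ^ (1 / 4 - η) → RB ≤ Y ^ (1 / 4 - η) → RA * RB * RT ≤ Y ^ ((1 + κ) / 2) →
        Y ^ ((1 - κ) / 2) ≤ 16 * (RA * RB * RT) → ((|D| : ℤ) : ℝ) ≤ Y ^ ((1 + κ) / 2) → False := by
  classical
  set H : ℕ := ⌈2 + (1 + ε0) / η⌉₊ with hH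
  obtain ⟨κ, hκ, hκ1, hκη, hκH⟩ := fp_kappa ε0 η H hε hη
  have hK0 : 0 < K := by linarith
  obtain ⟨C1, hC1, hb1⟩ := card_labels (κ / (8 * K)) (by positivity)
  obtain ⟨C2, hC2, hb2⟩ := card_divisors_le (κ / (8 * K)) (by positivity)
  obtain ⟨C3, hC3, hb3⟩ := walk_all (κ / K) (by positivity) L H
  obtain ⟨Y1, hY1, hc1⟩ := large_rpow (2 * C1) (κ / 8) (by positivity)
  obtain ⟨Y2, hY2, hc2⟩ := large_rpow C2 (κ / 8) (by positivity)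
  obtain ⟨Y3, hY3, hc3⟩ := large_rpow 16 (3 * κ / 4) (by positivity)
  obtain ⟨Y4, hY4, hc4⟩ := large_rpow (2 * H) κ hκ
  obtain ⟨Y5, hY5, hc5⟩ := large_rpow 16 (η / 2) (by positivity)
  obtain ⟨Y6, hY6, hc6⟩ := large_rpow (9 * (C3 * 3 ^ (κ / K))) (ε0 / 16) (by positivity)
  refine ⟨κ, hκ, hκ1, hκη, max (max (max 2 Y1) (max Y2 Y3)) (max (max Y4 Y5) Y6), ?_, ?_⟩
  · exact le_trans (by norm_num) ((le_max_left (2 : ℝ) Y1).trans ((le_max_left _ _).trans (le_max_left _ _)))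
  intro Y hY l RA RB RT P y D f e A B t S hF hlL hcard hRAB hRAη hRBη hsum1 hsum2 hDY
  simp only [max_le_iff] at hY
  obtain ⟨⟨⟨hY2', hY1'⟩, hY2'', hY3'⟩, ⟨hY4', hY5'⟩, hY6'⟩ := hY
  have hc1' := hc1 Y hY1'
  have hc2' := hc2 Y hY2''
  have hc3' := hc3 Y hY3'
  have hc4' := hc4 Y hY4'
  have hc5' := hc5 Y hY5'
  have hc6' := hc6 Y hY6'
  have hYg : 1 < Y := by linarith
  have hY0 : 0 < Y := by linarith
  obtain ⟨a, ha0, haE⟩ := exp_of hYg hF.hRA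
  obtain ⟨b, hb0, hbE⟩ := exp_of hYg hF.hRB
  obtain ⟨τ, hτ0, hτE⟩ := exp_of hYg hF.hRT
  subst haE hbE hτE
  rw [← Real.rpow_add hY0, ← Real.rpow_add hY0] at hsum1 hsum2
  rw [Real.rpow_le_rpow_left_iff hYg] at hsum1 hRAB hRAη hRBη
  have hsum2' : (1 - κ) / 2 ≤ η / 2 + (a + b + τ) := by
    rw [← Real.rpow_le_rpow_left_iff hYg, Real.rpow_add hY0]
    refine hsum2.trans ?_
    gcongr
  have hτη : η ≤ τ := by linarith
  have hτ1 : τ ≤ 3 / 5 := by linarith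
  obtain ⟨m, hm1, hmH, hfin⟩ := fp_h hε hη hτη hτ1
  have hmH' : 2 * m ≤ H := by
    have : ((2 * m : ℕ) : ℝ) ≤ (H : ℝ) := by
      push_cast
      exact hmH.trans (Nat.le_ceil _)
    exact_mod_cast this
  -- the 2-part
  obtain ⟨S1, hS1, hS1c, q, hq⟩ := hF.two_part
  have hF1 := hF.subset hS1
  have hcard1 : Y ^ (1 / 4 - 2 * κ) ≤ 4 * (S1.card : ℝ) := by
    refine hcard.trans ?_
    exact_mod_cast hS1c
  have hS1ne : S1.Nonempty := by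
    rw [nonempty_iff_ne_empty]
    rintro rfl
    have : 0 < Y ^ (1 / 4 - 2 * κ) := by positivity
    simp at hcard1
    linarith
  -- the subgraph
  obtain ⟨S2, hS2, hS2ne, hdA, hdB⟩ := min_degree S1 (fun w => lbl (A w) (el D w f)) (fun w => lbl (B w) (el D w f)) hS1ne
  have hF2 := hF1.subset hS2
  have hYK : (Y ^ K) ^ (κ / (8 * K)) = Y ^ (κ / 8) := by
    rw [← Real.rpow_mul hY0.le]
    congr 1
    field_simp
  have hlab : ∀ {c : ℝ} {N : ℝ}, N ≤ C1 * (Y ^ K) ^ (κ / (8 * K)) * (2 * Y ^ c) → N ≤ Y ^ (κ / 4 + c) := by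
    intro c N hN
    refine hN.trans ?_
    rw [hYK]
    calc C1 * Y ^ (κ / 8) * (2 * Y ^ c) = (2 * C1) * (Y ^ (κ / 8) * Y ^ c) := by ring
      _ ≤ Y ^ (κ / 8) * (Y ^ (κ / 8) * Y ^ c) := by gcongr
      _ = Y ^ (κ / 4 + c) := by
          simp only [← Real.rpow_add hY0]
          congr 1
          ring
  have hlabA : (((S1.image (fun w => lbl (A w) (el D w f))).card : ℕ) : ℝ) ≤ Y ^ (κ / 4 + a) := hlab (hb1 hF1)
  have hlabB : (((S1.image (fun w => lbl (B w) (el D w f))).card : ℕ) : ℝ) ≤ Y ^ (κ / 4 + b) := hlab (hb1 hF1.swap)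
  have hposA : (0 : ℝ) < (((S1.image (fun w => lbl (A w) (el D w f))).card : ℕ) : ℝ) := by
    exact_mod_cast card_pos.mpr (hS1ne.image _)
  have hposB : (0 : ℝ) < (((S1.image (fun w => lbl (B w) (el D w f))).card : ℕ) : ℝ) := by
    exact_mod_cast card_pos.mpr (hS1ne.image _)
  have hdegA : Y ^ (1 / 4 - 3 * κ - a) ≤ (S1.card : ℝ) / (4 * (((S1.image (fun w => lbl (A w) (el D w f))).card : ℕ) : ℝ)) :=
    fp_degnum hYg hc3' hcard1 hposA hlabA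
  have hdegB : Y ^ (1 / 4 - 3 * κ - b) ≤ (S1.card : ℝ) / (4 * (((S1.image (fun w => lbl (B w) (el D w f))).card : ℕ) : ℝ)) :=
    fp_degnum hYg hc3' hcard1 hposB hlabB
  have hdiv : ∀ w ∈ S2, (((t w).divisors.card : ℕ) : ℝ) ≤ Y ^ (κ / 4) := by
    intro w hw
    have h1 := hb2 (Y ^ K) (t w) (Nat.one_le_iff_ne_zero.mpr (hF2.t0 hw)) (hF2.tle hw)
    rw [hYK] at h1
    refine h1.trans ?_
    calc C2 * Y ^ (κ / 8) ≤ Y ^ (κ / 8) * Y ^ (κ / 8) := by gcongr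
      _ = Y ^ (κ / 4) := by
          rw [← Real.rpow_add hY0]
          congr 1
          ring
  have hNn : (0 : ℝ) < 2 * (((2 * m : ℕ)) : ℝ) := by
    have : (1 : ℝ) ≤ (m : ℝ) := by exact_mod_cast hm1
    push_cast
    linarith
  have hNle : (2 : ℝ) * (((2 * m : ℕ)) : ℝ) ≤ Y ^ κ := by
    refine le_trans ?_ hc4'
    have : ((2 * m : ℕ) : ℝ) ≤ (H : ℝ) := by exact_mod_cast hmH'
    linarith
  obtain ⟨θ, r, hθ0, hθ, hW⟩ := hF2.walkData hS2ne (fun w hw => hq w (hS2 hw)) (2 * m)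
    (dA := Y ^ (1 / 4 - 3 * κ - a)) (dB := Y ^ (1 / 4 - 3 * κ - b)) (Z := Y ^ (6 * κ))
    (Real.one_le_rpow hYg.le (by positivity)) (Real.one_le_rpow hYg.le (by linarith)) (Real.one_le_rpow hYg.le (by linarith))
    (fun w hw => hdegA.trans (hdA w hw)) (fun w hw => hdegB.trans (hdB w hw))
    (fun w hw => fp_badnum hYg hκ hκη hRAη (hdiv w hw) hNn hNle)
    (fun w hw => fp_badnum hYg hκ hκη hRBη (hdiv w hw) hNn hNle)
  have hwalk := hb3 m hm1 hmH' (3 * Y ^ K) D f l (Y ^ τ) θ _ _ _ _ _ _ S2 _ t _ r q _ _ A B hlL hW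
  have hlabA2 : (((S2.image (fun w => lbl (A w) (el D w f))).card : ℕ) : ℝ) ≤ Y ^ (κ / 4 + a) := hlab (hb1 hF2)
  have hD1 : (0 : ℝ) < ((|D| : ℤ) : ℝ) := by exact_mod_cast abs_pos.mpr hF.D0
  have hf1 : (0 : ℝ) < (f : ℝ) := by exact_mod_cast hF.hf
  have hFle : θ * (Y ^ τ) ^ (2 * m) / ((f : ℝ) * √((|D| : ℤ) : ℝ)) ≤ 8 * Y ^ (2 * m * τ - 1 - ε0 / 2) := by
    have h1 : (Y ^ τ) ^ (2 * m) = Y ^ (2 * m * τ) := by
      rw [← Real.rpow_natCast, ← Real.rpow_mul hY0.le]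
      congr 1
      push_cast
      ring
    calc θ * (Y ^ τ) ^ (2 * m) / ((f : ℝ) * √((|D| : ℤ) : ℝ))
        = θ / ((f : ℝ) * √((|D| : ℤ) : ℝ)) * Y ^ (2 * m * τ) := by rw [h1]; ring
      _ ≤ 8 * Y ^ (-(1 + ε0 / 2)) * Y ^ (2 * m * τ) := by gcongr
      _ = 8 * Y ^ (2 * m * τ - 1 - ε0 / 2) := by
          rw [mul_assoc, ← Real.rpow_add hY0]
          congr 2
          ring
  have hSD : √((|D| : ℤ) : ℝ) ≤ Y ^ ((1 + κ) / 4) := by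
    rw [Real.sqrt_le_left (by positivity)]
    refine hDY.trans (le_of_eq ?_)
    rw [← Real.rpow_natCast (Y ^ ((1 + κ) / 4)) 2, ← Real.rpow_mul hY0.le]
    congr 1
    push_cast
    ring
  have hX : (3 * Y ^ K) ^ (κ / K) = 3 ^ (κ / K) * Y ^ κ := by
    rw [Real.mul_rpow (by norm_num) (by positivity), ← Real.rpow_mul hY0.le]
    congr 2
    field_simp
  have hCX : 9 * (C3 * (3 * Y ^ K) ^ (κ / K)) ≤ Y ^ (ε0 / 16) * Y ^ κ := by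
    rw [hX, show 9 * (C3 * (3 ^ (κ / K) * Y ^ κ)) = 9 * (C3 * 3 ^ (κ / K)) * Y ^ κ by ring]
    gcongr
  exact fp_final hYg hκ hm1 hmH' hκH hε hRAB hsum1 hτ0 hfin (by positivity) (by linarith) (by positivity) (by positivity)
    (by positivity) hCX rfl rfl rfl rfl hlabA2 hSD hFle hwalk

end Hp

end Pool.Agent.Lib.MP_d8bd92_nt
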