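import Pool.Agent.Lib.MP_d8bd92_nt.Hp.FPb

set_option autoImplicit false

/-! Block 3.A: radicals of decompositions, colours. -/

namespace Pool.Agent.Lib.MP_d8bd92_nt

namespace Hp

open Finset Pool.Agent.Lib.Szpiro

/-- the data of `IsP` -/
structure PDat (η : ℝ) (L : ℕ) (Y : ℝ) (x : ℤ) (e A B t l : ℕ) : Prop where
  eq : x.natAbs = 2 ^ e * A * B * t ^ l
  hl1 : 1 ≤ l
  hlL : l ≤ L
  oA : Odd A
  oB : Odd B
  ot : Odd t
  AB : Nat.Coprime A B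
  At : Nat.Coprime A t
  Bt : Nat.Coprime B t
  sq : Squarefree t
  rA : (rd A : ℝ) ≤ Y ^ (1 / 4 - η)
  rB : (rd B : ℝ) ≤ Y ^ (1 / 4 - η)

theorem exists_pdat (η : ℝ) (L : ℕ) (Y : ℝ) : ∃ e A B t l : ℤ × ℤ → ℕ, ∀ w : ℤ × ℤ, IsP η L Y w.1 →
    PDat η L Y w.1 (e w) (A w) (B w) (t w) (l w) := by
  classical
  have h : ∀ w : ℤ × ℤ, ∃ e A B t l : ℕ, IsP η L Y w.1 → PDat η L Y w.1 e A B t l := by
    intro w
    by_cases hw : IsP η L Y w.1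
    · obtain ⟨e, A, B, t, l, h1, h2, h3, h4, h5, h6, h7, h8, h9, h10, h11, h12⟩ := hw
      exact ⟨e, A, B, t, l, fun _ => ⟨h1, h2, h3, h4, h5, h6, h7, h8, h9, h10, h11, h12⟩⟩
    · exact ⟨0, 0, 0, 0, 0, fun h => absurd h hw⟩
  choose e A B t l h using h
  exact ⟨e, A, B, t, l, h⟩

theorem odd_ne_zero {n : ℕ} (h : Odd n) : n ≠ 0 := by
  rintro rfl
  exact absurd h (by decide)

theorem PDat.lower {η : ℝ} {L : ℕ} {Y : ℝ} {x : ℤ} {e A B t l : ℕ} (h : PDat η L Y x e A B t l) (hx : x ≠ 0) :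
    rd A * rd B * t ≤ rd x.natAbs := by
  have hA := odd_ne_zero h.oA
  have hB := odd_ne_zero h.oB
  have ht := odd_ne_zero h.ot
  have htl : t ^ l ≠ 0 := pow_ne_zero _ ht
  have h1 : rd (A * B * t ^ l) = rd A * rd B * t := by
    rw [rd_mul_coprime (A * B) (t ^ l) (mul_ne_zero hA hB) htl
      (Nat.Coprime.pow_right _ (Nat.Coprime.mul_left h.At h.Bt)), rd_mul_coprime A B hA hB h.AB, rd_pow' h.hl1, rd_sq h.sq]
  rw [← h1]
  apply rd_mono' (Int.natAbs_ne_zero.mpr hx)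
  intro p _ hp
  rw [h.eq]
  exact hp.trans ⟨2 ^ e, by ring⟩

theorem PDat.upper {η : ℝ} {L : ℕ} {Y : ℝ} {x : ℤ} {e A B t l : ℕ} (h : PDat η L Y x e A B t l) :
    rd x.natAbs ≤ 2 * (rd A * rd B * t) := by
  have hA := odd_ne_zero h.oA
  have hB := odd_ne_zero h.oB
  have ht := odd_ne_zero h.ot
  have htl : t ^ l ≠ 0 := pow_ne_zero _ ht
  have h2 : rd (2 ^ e) ≤ 2 := by
    rcases Nat.eq_zero_or_pos e with h0 | h0
    · rw [h0, pow_zero, rd_one]; norm_num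
    · rw [rd_prime_pow 2 e Nat.prime_two (by omega)]
  have h2e : (2 : ℕ) ^ e ≠ 0 := by positivity
  rw [h.eq]
  calc rd (2 ^ e * A * B * t ^ l) ≤ rd (2 ^ e * A * B) * rd (t ^ l) := rd_mul_le _ _ (mul_ne_zero (mul_ne_zero h2e hA) hB) htl
    _ ≤ (rd (2 ^ e * A) * rd B) * rd (t ^ l) := Nat.mul_le_mul_right _ (rd_mul_le _ _ (mul_ne_zero h2e hA) hB)
    _ ≤ ((rd (2 ^ e) * rd A) * rd B) * rd (t ^ l) :=
        Nat.mul_le_mul_right _ (Nat.mul_le_mul_right _ (rd_mul_le _ _ h2e hA))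
    _ ≤ ((2 * rd A) * rd B) * rd (t ^ l) :=
        Nat.mul_le_mul_right _ (Nat.mul_le_mul_right _ (Nat.mul_le_mul_right _ h2))
    _ = 2 * (rd A * rd B * t) := by rw [rd_pow' h.hl1, rd_sq h.sq]; ring

theorem PDat.le {η : ℝ} {L : ℕ} {Y : ℝ} {x : ℤ} {e A B t l : ℕ} (h : PDat η L Y x e A B t l) (hx : x ≠ 0) :
    rd A ≤ x.natAbs ∧ rd B ≤ x.natAbs ∧ t ≤ x.natAbs := by
  have h1 := h.lower hx
  have h2 : rd x.natAbs ≤ x.natAbs := rd_le (Int.natAbs_ne_zero.mpr hx)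
  have h3 := rd_pos A
  have h4 := rd_pos B
  have h5 : 0 < t := Nat.pos_of_ne_zero (odd_ne_zero h.ot)
  refine ⟨?_, ?_, ?_⟩
  · calc rd A = rd A * 1 * 1 := by ring
      _ ≤ rd A * rd B * t := by gcongr <;> omega
      _ ≤ _ := h1.trans h2
  · calc rd B = 1 * rd B * 1 := by ring
      _ ≤ rd A * rd B * t := by gcongr <;> omega
      _ ≤ _ := h1.trans h2
  · calc t = 1 * 1 * t := by ring
      _ ≤ rd A * rd B * t := by gcongr <;> omega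
      _ ≤ _ := h1.trans h2

/-- few colours -/
theorem colours_few (K : ℝ) (hK : 0 < K) (L : ℕ) (δ : ℝ) (hδ : 0 < δ) : ∃ Y0 : ℝ, 1 ≤ Y0 ∧ ∀ Y : ℝ, Y0 ≤ Y →
    (((L + 1) * ((Nat.log 2 ⌊Y ^ K⌋₊ + 1) * ((Nat.log 2 ⌊Y ^ K⌋₊ + 1) * (Nat.log 2 ⌊Y ^ K⌋₊ + 1))) : ℕ) : ℝ) ≤ Y ^ δ := by
  set s : ℝ := δ / 6 with hs
  have hs0 : 0 < s := by positivity
  have hl2 : 0 < Real.log 2 := Real.log_pos (by norm_num)
  set C : ℝ := K / (s * Real.log 2) + 1 with hC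
  have hC0 : 1 ≤ C := by
    have : 0 < K / (s * Real.log 2) := by positivity
    linarith
  refine ⟨max 1 (((L : ℝ) + 1) * C ^ 3) ^ (1 / (3 * s)), Real.one_le_rpow (le_max_left _ _) (by positivity), fun Y hY => ?_⟩
  have hY1 : 1 ≤ Y := le_trans (Real.one_le_rpow (le_max_left _ _) (by positivity)) hY
  have hY0 : 0 < Y := by linarith
  set n : ℕ := Nat.log 2 ⌊Y ^ K⌋₊ with hn
  have hYK : 1 ≤ Y ^ K := Real.one_le_rpow hY1 hK.le
  have h1 : ((n : ℕ) : ℝ) + 1 ≤ C * Y ^ s := by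
    have h2 : 2 ^ n ≤ ⌊Y ^ K⌋₊ := Nat.pow_log_le_self 2 (by
      have : 1 ≤ ⌊Y ^ K⌋₊ := Nat.le_floor (by exact_mod_cast hYK)
      omega)
    have h3 : (2 : ℝ) ^ n ≤ Y ^ K := by
      calc (2 : ℝ) ^ n = ((2 ^ n : ℕ) : ℝ) := by push_cast; rfl
        _ ≤ ((⌊Y ^ K⌋₊ : ℕ) : ℝ) := by exact_mod_cast h2
        _ ≤ Y ^ K := Nat.floor_le (by linarith)
    have h4 : (n : ℝ) * Real.log 2 ≤ K * Real.log Y := by
      have := Real.log_le_log (by positivity) h3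
      rwa [Real.log_pow, Real.log_rpow hY0] at this
    have h5 : Real.log Y ≤ Y ^ s / s := Real.log_le_rpow_div hY0.le hs0
    have h6 : (n : ℝ) ≤ K / (s * Real.log 2) * Y ^ s := by
      have h7 : (n : ℝ) * Real.log 2 ≤ K * (Y ^ s / s) := h4.trans (by gcongr)
      have h8 : K / (s * Real.log 2) * Y ^ s = K * (Y ^ s / s) / Real.log 2 := by
        field_simp
      rw [h8, le_div_iff₀ hl2]
      exact h7
    have h9 : 1 ≤ Y ^ s := Real.one_le_rpow hY1 hs0.le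
    calc (n : ℝ) + 1 ≤ K / (s * Real.log 2) * Y ^ s + Y ^ s := by linarith
      _ = C * Y ^ s := by rw [hC]; ring
  have h2 : max 1 (((L : ℝ) + 1) * C ^ 3) ≤ Y ^ (3 * s) := by
    calc max 1 (((L : ℝ) + 1) * C ^ 3) = (max 1 (((L : ℝ) + 1) * C ^ 3) ^ (1 / (3 * s))) ^ (3 * s) := by
          rw [← Real.rpow_mul (by positivity), one_div, inv_mul_cancel₀ (by positivity), Real.rpow_one]
      _ ≤ Y ^ (3 * s) := Real.rpow_le_rpow (by positivity) hY (by positivity)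
  have h3 : ((L : ℝ) + 1) * C ^ 3 ≤ Y ^ (3 * s) := (le_max_right _ _).trans h2
  have h4 : (Y ^ s) ^ 3 = Y ^ (3 * s) := by
    rw [← Real.rpow_natCast, ← Real.rpow_mul hY0.le]
    congr 1
    push_cast
    ring
  have hn0 : (0 : ℝ) ≤ (n : ℝ) + 1 := by positivity
  push_cast
  calc ((L : ℝ) + 1) * (((n : ℝ) + 1) * (((n : ℝ) + 1) * ((n : ℝ) + 1)))
      = ((L : ℝ) + 1) * ((n : ℝ) + 1) ^ 3 := by ring
    _ ≤ ((L : ℝ) + 1) * (C * Y ^ s) ^ 3 := by gcongr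
    _ = (((L : ℝ) + 1) * C ^ 3) * (Y ^ s) ^ 3 := by ring
    _ ≤ Y ^ (3 * s) * Y ^ (3 * s) := by rw [h4]; gcongr
    _ = Y ^ δ := by
        rw [← Real.rpow_add hY0]
        congr 1
        rw [hs]
        ring

end Hp

end Pool.Agent.Lib.MP_d8bd92_nt
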