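import Pool.Agent.Lib.MP_d8bd92_nt.Hp.FNb
import Pool.Agent.Lib.MP_d8bd92_nt.Hp.PT1

set_option autoImplicit false

/-! Phase 2, block few_PT, part 1: monotonicity of the lattice lemma, walks with an abstract `T`, numbers. -/

namespace Pool.Agent.Lib.MP_d8bd92_nt

namespace Hp

open Finset Pool.Agent.Lib.Szpiro

theorem LLG.mono {C0 X K C0' X' : ℝ} {D : ℤ} {f l : ℕ} {E θ : ℝ} {ι : Type} {S : Finset ι} {Ω : ι → ℤ√D}
    {I : ι → Ideal (ℤ√D)} {En s : ι → ℕ} {W : Ideal (ℤ√D)} (h : LLG C0 X K D f l E θ S Ω I En s W)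
    (hC : C0 ≤ C0') (hX : X ≤ X') : LLG C0' X' K D f l E θ S Ω I En s W where
  hX := h.hX.trans hX
  hD := h.hD
  hDX := h.hDX.trans hX
  hf := h.hf
  hfX := h.hfX.trans hX
  hl := h.hl
  hE := h.hE
  hθ := h.hθ
  hθ1 := h.hθ1
  hK := h.hK
  im_dvd := h.im_dvd
  nz := h.nz
  cop := h.cop
  s_pos := h.s_pos
  hn := h.hn
  E_cop := h.E_cop
  E_lo := h.E_lo
  E_hi := fun c hc => (h.E_hi c hc).trans (mul_le_mul_of_nonneg_right hC (by linarith [h.hE]))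
  cont := h.cont
  fac := h.fac
  bal := fun c hc => (h.bal c hc).trans (mul_le_mul_of_nonneg_right hC (by positivity))
  real := fun c hc => (h.real c hc).trans (by
    have h1 : (0 : ℝ) ≤ ((|(Ω c).norm| : ℤ) : ℝ) := by positivity
    have h2 : C0 * θ ^ 2 ≤ C0' * θ ^ 2 := mul_le_mul_of_nonneg_right hC (by positivity)
    exact mul_le_mul_of_nonneg_right h2 h1)
  inj := h.inj

theorem LLT.mono {C1 C1' X X' : ℝ} {D : ℤ} {l : ℕ} {T : ℝ} (h : LLT C1' X' D l T) (hC : C1 ≤ C1') (hX : X ≤ X') :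
    LLT C1 X D l T :=
  fun K f E θ ι S Ω I En s W hG => h K f E θ ι S Ω I En s W (hG.mono hC hX)

/-- `LLT` does not see `T` replaced by something larger -/
theorem LLT.mono_T {C1 X : ℝ} {D : ℤ} {l : ℕ} {T T' : ℝ} (h : LLT C1 X D l T) (hT : T ≤ T') : LLT C1 X D l T' := by
  intro K f E θ ι S Ω I En s W hG
  refine (h K f E θ ι S Ω I En s W hG).trans ?_
  have h1 : 0 ≤ K := by linarith [hG.hK]
  have h2 : 0 ≤ θ * E / ((f : ℝ) * √((|D| : ℤ) : ℝ)) := by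
    have := hG.hθ.le
    have := hG.hE
    positivity
  have h3 : 0 ≤ 1 + θ * E / ((f : ℝ) * √((|D| : ℤ) : ℝ)) := by linarith
  exact mul_le_mul_of_nonneg_right (mul_le_mul_of_nonneg_right hT h1) h3

open scoped Classical in
/-- the walk theorem with an abstract `T` for all lengths up to `H` with the same constants -/
theorem walk_allT (ε : ℝ) (hε : 0 < ε) (H : ℕ) : ∃ C1 C : ℝ, 1 ≤ C1 ∧ 1 ≤ C ∧
    ∀ (h : ℕ), 1 ≤ h → h ≤ H → ∀ (X T : ℝ) (D : ℤ) (f l : ℕ) (E θ : ℝ) (dA dB Z μA μB : ℝ) (ι : Type) (S : Finset ι)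
      (Ω : ι → ℤ√D) (t s : ι → ℕ) (r : ι → ℤ) (q : Ideal (ℤ√D)) (A B : ι → Ideal (ℤ√D)) (nA nB : ι → ℕ),
      0 ≤ T → LLT C1 X D l T →
      WalkData 1000 X D f l E θ h dA dB Z μA μB S Ω t s r q A B nA nB →
      dA ^ ((h + 1) / 2) * dB ^ (h / 2) ≤ C * X ^ ε * Z ^ (h ^ 3) * μA ^ ((h + 1) / 2) * μB ^ (h / 2) *
        ((if Even h then (S.image A).card else (S.image B).card : ℕ) : ℝ) *
        T * (1 + θ * E ^ h / ((f : ℝ) * √((|D| : ℤ) : ℝ))) := by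
  have h1 : ∀ h : ℕ, ∃ C1 C : ℝ, 1 ≤ C1 ∧ 0 < C ∧ (1 ≤ h → ∀ (X T : ℝ) (D : ℤ) (f l : ℕ) (E θ : ℝ) (dA dB Z μA μB : ℝ)
      (ι : Type) (S : Finset ι)
      (Ω : ι → ℤ√D) (t s : ι → ℕ) (r : ι → ℤ) (q : Ideal (ℤ√D)) (A B : ι → Ideal (ℤ√D)) (nA nB : ι → ℕ),
      0 ≤ T → LLT C1 X D l T →
      WalkData 1000 X D f l E θ h dA dB Z μA μB S Ω t s r q A B nA nB →
      dA ^ ((h + 1) / 2) * dB ^ (h / 2) ≤ C * X ^ ε * Z ^ (h ^ 3) * μA ^ ((h + 1) / 2) * μB ^ (h / 2) *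
        ((if Even h then (S.image A).card else (S.image B).card : ℕ) : ℝ) *
        T * (1 + θ * E ^ h / ((f : ℝ) * √((|D| : ℤ) : ℝ)))) := by
    intro h
    by_cases hh : 1 ≤ h
    · obtain ⟨C1, C, hC1, hC, hb⟩ := walk_theorem_T ε hε h hh 1000 (by norm_num)
      exact ⟨C1, C, hC1, hC, fun _ => hb⟩
    · exact ⟨1, 1, le_refl _, one_pos, fun h' => absurd h' hh⟩
  choose C1 C hC1 hC hb using h1
  have hs0 : 0 ≤ ∑ h ∈ range (H + 1), C1 h := sum_nonneg fun h _ => by linarith [hC1 h]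
  have hs1 : 0 ≤ ∑ h ∈ range (H + 1), C h := sum_nonneg fun h _ => (hC h).le
  refine ⟨1 + ∑ h ∈ range (H + 1), C1 h, 1 + ∑ h ∈ range (H + 1), C h, by linarith, by linarith, ?_⟩
  intro h hm hmH X T D f l E θ dA dB Z μA μB ι S Ω t s r q A B nA nB hT0 hT hW
  have hC1le : C1 h ≤ 1 + ∑ h ∈ range (H + 1), C1 h := by
    have : C1 h ≤ ∑ h ∈ range (H + 1), C1 h :=
      single_le_sum (f := C1) (fun h _ => by linarith [hC1 h]) (mem_range.mpr (by omega))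
    linarith
  have h2 := hb h hm X T D f l E θ dA dB Z μA μB ι S Ω t s r q A B nA nB hT0 (hT.mono hC1le le_rfl) hW
  refine h2.trans ?_
  have hX0 : (0 : ℝ) ≤ X := by linarith [hW.hX]
  have hZ0 : (0 : ℝ) ≤ Z := by linarith [hW.hZ]
  have hμA0 : (0 : ℝ) ≤ μA := by linarith [hW.hμA]
  have hμB0 : (0 : ℝ) ≤ μB := by linarith [hW.hμB]
  have hE0 : (0 : ℝ) ≤ E := by linarith [hW.hE]
  have hθ0 : (0 : ℝ) ≤ θ := hW.hθ.le
  have hCle : C h ≤ 1 + ∑ h ∈ range (H + 1), C h := by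
    have : C h ≤ ∑ h ∈ range (H + 1), C h :=
      single_le_sum (f := C) (fun h _ => (hC h).le) (mem_range.mpr (by omega))
    linarith
  generalize 1 + ∑ h ∈ range (H + 1), C h = c at hCle
  have hnn : (0 : ℝ) ≤ ((if Even h then (S.image A).card else (S.image B).card : ℕ) : ℝ) := Nat.cast_nonneg _
  generalize ((if Even h then (S.image A).card else (S.image B).card : ℕ) : ℝ) = nn at hnn
  gcongr

/-- choice of the length: `x` the exponent of `t`, `T = Y ^ τ`, `max ≥ Y ^ (1 + 4 τ - e1)` -/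
theorem ft_h {e1 η x τ : ℝ} (he0 : 0 ≤ e1) (he : e1 ≤ η / 100) (hη : 0 < η) (hx : η ≤ x) (hx1 : x ≤ 3 / 5)
    (hτ : 0 ≤ τ) (hτ1 : τ ≤ 1 / 4) :
    ∃ h : ℕ, 1 ≤ h ∧ (h : ℝ) ≤ 1 + 1 / η ∧
      1 / 4 + τ + η / 16 + max 0 (h * x - (1 / 2 + 2 * τ) + e1 / 2) ≤ (h + 1) * x / 2 := by
  have hx0 : 0 < x := by linarith
  set v : ℝ := (1 / 2 + 2 * τ) / x + 1 / 2 with hv
  have hv0 : v * x = 1 / 2 + 2 * τ + x / 2 := by
    rw [hv]
    field_simp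
  have hv1 : 1 ≤ v := by
    have h5 : 1 / 2 ≤ (1 / 2 + 2 * τ) / x := by
      rw [le_div_iff₀ hx0]
      linarith
    linarith
  refine ⟨⌊v⌋₊, ?_, ?_, ?_⟩
  · exact (Nat.one_le_floor_iff v).mpr hv1
  · have h1 : ((⌊v⌋₊ : ℕ) : ℝ) ≤ v := Nat.floor_le (by linarith)
    have h4 : (1 / 2 + 2 * τ) / x ≤ 1 / η := by
      apply div_le_div₀ (by norm_num) (by linarith) hη hx
    linarith
  · have h1 : ((⌊v⌋₊ : ℕ) : ℝ) ≤ v := Nat.floor_le (by linarith)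
    have h2 : v < ((⌊v⌋₊ : ℕ) : ℝ) + 1 := Nat.lt_floor_add_one v
    set n : ℝ := ((⌊v⌋₊ : ℕ) : ℝ) with hn
    have h3 : n * x ≤ 1 / 2 + 2 * τ + x / 2 := by
      rw [← hv0]
      exact mul_le_mul_of_nonneg_right h1 hx0.le
    have h4 : 1 / 2 + 2 * τ - x / 2 ≤ n * x := by
      have : (v - 1) * x ≤ n * x := mul_le_mul_of_nonneg_right (by linarith) hx0.le
      linarith
    rcases le_total 0 (n * x - (1 / 2 + 2 * τ) + e1 / 2) with h5 | h5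
    · rw [max_eq_right h5]
      linarith
    · rw [max_eq_left h5]
      linarith

/-- the final inequality in exponents -/
theorem ft_final {Y κ κT e1 η a b x τ C N T F X Z μ dA dB : ℝ} {h H : ℕ} (hY : 1 < Y) (hκ : 0 < κ) (hη : 0 < η)
    (hκT : κT = η / 64)
    (hh : 1 ≤ h) (hhH : h ≤ H) (hκH : κ * (6 * (H : ℝ) ^ 3 + 6 * H + 8) ≤ η / 64)
    (hab : a ≤ b) (hsum : a + b + x ≤ (1 + κ) / 2)
    (hfin : 1 / 4 + τ + η / 16 + max 0 (h * x - (1 / 2 + 2 * τ) + e1 / 2) ≤ (h + 1) * x / 2)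
    (hX0 : 0 ≤ X) (hC0 : 0 ≤ C) (hT0 : 0 ≤ T) (hF0 : 0 ≤ F)
    (hCX : 9 * (C * X) ≤ Y ^ (η / 64) * Y ^ κ) (hZ : Z = Y ^ (6 * κ)) (hμ : μ = Y ^ κ)
    (hdA : dA = Y ^ (1 / 4 - 3 * κ - a)) (hdB : dB = Y ^ (1 / 4 - 3 * κ - b))
    (hN : N ≤ Y ^ (κ / 4 + (if Even h then a else b))) (hT : T ≤ Y ^ (τ + κT))
    (hF : F ≤ 8 * Y ^ (h * x - (1 / 2 + 2 * τ) + e1 / 2))
    (hw : dA ^ ((h + 1) / 2) * dB ^ (h / 2) ≤
      C * X * Z ^ (h ^ 3) * μ ^ ((h + 1) / 2) * μ ^ (h / 2) * N * T * (1 + F)) : False := by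
  have hY0 : 0 < Y := by linarith
  have hkey := fn_key hκ hab hsum h hh
  set c : ℝ := (if Even h then a else b) with hc
  set p : ℕ := (h + 1) / 2 with hp
  set q : ℕ := h / 2 with hq
  have hpq : (p : ℝ) + (q : ℝ) = (h : ℝ) := by
    have : p + q = h := by omega
    exact_mod_cast this
  set M0 : ℝ := max 0 (h * x - (1 / 2 + 2 * τ) + e1 / 2) with hM0
  have hmr : (1 : ℝ) ≤ (h : ℝ) := by exact_mod_cast hh
  have hmHr : (h : ℝ) ≤ (H : ℝ) := by exact_mod_cast hhH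
  have h1F : 1 + F ≤ 9 * Y ^ M0 := by
    have h1 : (1 : ℝ) ≤ Y ^ M0 := Real.one_le_rpow hY.le (le_max_left _ _)
    have h2 : Y ^ (h * x - (1 / 2 + 2 * τ) + e1 / 2) ≤ Y ^ M0 := Real.rpow_le_rpow_of_exponent_le hY.le (le_max_right _ _)
    linarith
  have hL : dA ^ p * dB ^ q = Y ^ ((1 / 4 - 3 * κ - a) * p + (1 / 4 - 3 * κ - b) * q) := by
    rw [hdA, hdB, ← Real.rpow_natCast, ← Real.rpow_natCast, ← Real.rpow_mul hY0.le, ← Real.rpow_mul hY0.le,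
      ← Real.rpow_add hY0]
  have hZp : Z ^ (h ^ 3) = Y ^ (6 * κ * (h : ℝ) ^ 3) := by
    rw [hZ, ← Real.rpow_natCast, ← Real.rpow_mul hY0.le]
    push_cast
    rfl
  have hμp : ∀ k : ℕ, μ ^ k = Y ^ (κ * k) := by
    intro k
    rw [hμ, ← Real.rpow_natCast, ← Real.rpow_mul hY0.le]
  have hR : C * X * Z ^ (h ^ 3) * μ ^ p * μ ^ q * N * T * (1 + F) ≤
      Y ^ (η / 64 + κ + 6 * κ * (h : ℝ) ^ 3 + κ * p + κ * q + (κ / 4 + c) + (τ + κT) + M0) := by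
    rw [hZp, hμp, hμp]
    calc C * X * Y ^ (6 * κ * (h : ℝ) ^ 3) * Y ^ (κ * p) * Y ^ (κ * q) * N * T * (1 + F)
        ≤ C * X * Y ^ (6 * κ * (h : ℝ) ^ 3) * Y ^ (κ * p) * Y ^ (κ * q) * Y ^ (κ / 4 + c) * Y ^ (τ + κT) * (9 * Y ^ M0) := by
          gcongr
      _ = (9 * (C * X)) * (Y ^ (6 * κ * (h : ℝ) ^ 3) * Y ^ (κ * p) * Y ^ (κ * q) * Y ^ (κ / 4 + c) * Y ^ (τ + κT) * Y ^ M0) := by
          ring
      _ ≤ (Y ^ (η / 64) * Y ^ κ) * (Y ^ (6 * κ * (h : ℝ) ^ 3) * Y ^ (κ * p) * Y ^ (κ * q) * Y ^ (κ / 4 + c) * Y ^ (τ + κT) * Y ^ M0) := by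
          gcongr
      _ = _ := by
          simp only [← Real.rpow_add hY0]
          congr 1
          ring
  have hE := hw.trans hR
  rw [hL, Real.rpow_le_rpow_left_iff hY] at hE
  have hm3 : (6 : ℝ) * κ * (h : ℝ) ^ 3 ≤ κ * (6 * (H : ℝ) ^ 3) := by
    have h1 : (h : ℝ) ^ 3 ≤ (H : ℝ) ^ 3 := pow_le_pow_left₀ (Nat.cast_nonneg h) hmHr 3
    have h2 : κ * (6 * (h : ℝ) ^ 3) ≤ κ * (6 * (H : ℝ) ^ 3) :=
      mul_le_mul_of_nonneg_left (mul_le_mul_of_nonneg_left h1 (by norm_num)) hκ.le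
    linarith
  have hκh : κ * h ≤ κ * H := by gcongr
  have hκ0 : 0 ≤ κ * h := by positivity
  have hκpq : κ * p + κ * q = κ * h := by rw [← mul_add, hpq]
  have hκpq' : (1 / 4 - 3 * κ - a) * p + (1 / 4 - 3 * κ - b) * q =
      (p : ℝ) * (1 / 4 - a) + (q : ℝ) * (1 / 4 - b) - 3 * (κ * h) := by
    rw [← hκpq]; ring
  have hexp : κ * (6 * (H : ℝ) ^ 3 + 6 * H + 8) = κ * (6 * (H : ℝ) ^ 3) + 6 * (κ * H) + 8 * κ := by ring
  rw [hexp] at hκH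
  rw [hκpq'] at hE
  have hEE : (p : ℝ) * (1 / 4 - a) + (q : ℝ) * (1 / 4 - b) - c ≤
      η / 64 + κ + 6 * κ * (h : ℝ) ^ 3 + κ * h + 3 * (κ * h) + κ / 4 + (τ + κT) + M0 := by
    rw [← hκpq] at hE ⊢
    linarith
  linarith

end Hp

end Pool.Agent.Lib.MP_d8bd92_nt
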