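import Pool.Agent.Lib.MP_d8bd92_nt.Hp.FTa

set_option autoImplicit false

/-! Phase 2, block few_PT, part 2: a large fibre is impossible. -/

namespace Pool.Agent.Lib.MP_d8bd92_nt

namespace Hp

open Finset Pool.Agent.Lib.Szpiro

theorem FTb_num {Y : ℝ} (hY : 2 ≤ Y) (K : ℝ) : 3 * Y ^ K ≤ Y ^ (K + 2) := by
  have hY0 : 0 < Y := by linarith
  have h4 : (4 : ℝ) ≤ Y ^ (2 : ℝ) := by
    rw [show (2 : ℝ) = ((2 : ℕ) : ℝ) by norm_num, Real.rpow_natCast]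
    calc (4 : ℝ) = 2 ^ 2 := by norm_num
      _ ≤ Y ^ 2 := pow_le_pow_left₀ (by norm_num) hY 2
  have h5 : 0 ≤ Y ^ K := (Real.rpow_pos_of_pos hY0 K).le
  rw [Real.rpow_add hY0, mul_comm]
  exact mul_le_mul_of_nonneg_left (by linarith) h5

theorem ft_contra_le (K η τ e1 : ℝ) (hK : 2 ≤ K) (hη : 0 < η) (hτ : 0 ≤ τ) (hτ1 : τ ≤ 1 / 4) (he0 : 0 ≤ e1)
    (he : e1 ≤ η / 100) :
    ∃ κ C1 : ℝ, 0 < κ ∧ κ ≤ 1 / 100 ∧ κ ≤ η / 8 ∧ 1 ≤ C1 ∧ ∃ Y0 : ℝ, 1 ≤ Y0 ∧ ∀ Y : ℝ, Y0 ≤ Y →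
      ∀ {l : ℕ} {RA RB RT : ℝ} {P : Finset (ℤ × ℤ)} {y D : ℤ} {f : ℕ} {e A B t : ℤ × ℤ → ℕ} {S : Finset (ℤ × ℤ)},
        Fib K (-1 + 4 * τ - e1) κ Y l RA RB RT P y D f e A B t S →
        (∀ D f : ℤ, Squarefree D → D ≠ 1 → y = f ^ 2 * D → LLT C1 (Y ^ (K + 2)) D l (Y ^ (τ + η / 64))) →
        Y ^ (1 / 4 - 2 * κ) ≤ (S.card : ℝ) → RA ≤ RB →
        RA ≤ Y ^ (1 / 4 - η) → RB ≤ Y ^ (1 / 4 - η) → RA * RB * RT ≤ Y ^ ((1 + κ) / 2) →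
        Y ^ ((1 - κ) / 2) ≤ 16 * (RA * RB * RT) → False := by
  classical
  set H : ℕ := ⌈1 + 1 / η⌉₊ with hH
  obtain ⟨κ, hκ, hκ1, hκη, hκH⟩ := fn_kappa η H hη
  have hK0 : 0 < K := by linarith
  obtain ⟨C1, hC1, hb1⟩ := card_labels (κ / (8 * K)) (by positivity)
  obtain ⟨C2, hC2, hb2⟩ := card_divisors_le (κ / (8 * K)) (by positivity)
  obtain ⟨C4, C3, hC4, hC3, hb3⟩ := walk_allT (κ / K) (by positivity) H
  obtain ⟨Y1, hY1, hc1⟩ := large_rpow (2 * C1) (κ / 8) (by positivity)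
  obtain ⟨Y2, hY2, hc2⟩ := large_rpow C2 (κ / 8) (by positivity)
  obtain ⟨Y3, hY3, hc3⟩ := large_rpow 16 (3 * κ / 4) (by positivity)
  obtain ⟨Y4, hY4, hc4⟩ := large_rpow (2 * H) κ hκ
  obtain ⟨Y5, hY5, hc5⟩ := large_rpow 16 (η / 2) (by positivity)
  obtain ⟨Y6, hY6, hc6⟩ := large_rpow (9 * (C3 * 3 ^ (κ / K))) (η / 64) (by positivity)
  refine ⟨κ, C4, hκ, hκ1, hκη, hC4, max (max (max 2 Y1) (max Y2 Y3)) (max (max Y4 Y5) Y6), ?_, ?_⟩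
  · exact le_trans (by norm_num) ((le_max_left (2 : ℝ) Y1).trans ((le_max_left _ _).trans (le_max_left _ _)))
  intro Y hY l RA RB RT P y D f e A B t S hF hTor hcard hRAB hRAη hRBη hsum1 hsum2
  simp only [max_le_iff] at hY
  obtain ⟨⟨⟨hY2', hY1'⟩, hY2'', hY3'⟩, ⟨hY4', hY5'⟩, hY6'⟩ := hY
  have hc1' := hc1 Y hY1'
  have hc2' := hc2 Y hY2''
  have hc3' := hc3 Y hY3'
  have hc4' := hc4 Y hY4'
  have hc5' := hc5 Y hY5'
  have hc6' := hc6 Y hY6'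
  have hYg : 1 < Y := by linarith
  have hY0 : 0 < Y := by linarith
  obtain ⟨a, ha0, haE⟩ := exp_of hYg hF.hRA
  obtain ⟨b, hb0, hbE⟩ := exp_of hYg hF.hRB
  obtain ⟨x, hx0, hxE⟩ := exp_of hYg hF.hRT
  subst haE hbE hxE
  rw [← Real.rpow_add hY0, ← Real.rpow_add hY0] at hsum1 hsum2
  rw [Real.rpow_le_rpow_left_iff hYg] at hsum1 hRAB hRAη hRBη
  have hsum2' : (1 - κ) / 2 ≤ η / 2 + (a + b + x) := by
    rw [← Real.rpow_le_rpow_left_iff hYg, Real.rpow_add hY0]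
    refine hsum2.trans ?_
    gcongr
  have hxη : η ≤ x := by linarith
  have hx1 : x ≤ 3 / 5 := by linarith
  obtain ⟨h, hh1, hhH, hfin⟩ := ft_h (e1 := e1) he0 he hη hxη hx1 hτ hτ1
  have hhH' : h ≤ H := by
    have : (h : ℝ) ≤ (H : ℝ) := hhH.trans (Nat.le_ceil _)
    exact_mod_cast this
  -- the 2-part
  obtain ⟨S1, hS1, hS1c, q, hq⟩ := hF.two_part
  have hF1 := hF.subset hS1
  have hcard1 : Y ^ (1 / 4 - 2 * κ) ≤ 4 * (S1.card : ℝ) := by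
    refine hcard.trans ?_
    exact_mod_cast hS1c
  have hS1ne : S1.Nonempty := by
    rw [nonempty_iff_ne_empty]
    rintro rfl
    have : 0 < Y ^ (1 / 4 - 2 * κ) := by positivity
    simp at hcard1
    linarith
  -- the subgraph
  obtain ⟨S2, hS2, hS2ne, hdA, hdB⟩ := min_degree S1 (fun w => lbl (A w) (el D w f)) (fun w => lbl (B w) (el D w f)) hS1ne
  have hF2 := hF1.subset hS2
  have hYK : (Y ^ K) ^ (κ / (8 * K)) = Y ^ (κ / 8) := by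
    rw [← Real.rpow_mul hY0.le]
    congr 1
    field_simp
  have hlab : ∀ {c : ℝ} {N : ℝ}, N ≤ C1 * (Y ^ K) ^ (κ / (8 * K)) * (2 * Y ^ c) → N ≤ Y ^ (κ / 4 + c) := by
    intro c N hN
    refine hN.trans ?_
    rw [hYK]
    calc C1 * Y ^ (κ / 8) * (2 * Y ^ c) = (2 * C1) * (Y ^ (κ / 8) * Y ^ c) := by ring
      _ ≤ Y ^ (κ / 8) * (Y ^ (κ / 8) * Y ^ c) := by gcongr
      _ = Y ^ (κ / 4 + c) := by
          simp only [← Real.rpow_add hY0]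
          congr 1
          ring
  have hlabA : (((S1.image (fun w => lbl (A w) (el D w f))).card : ℕ) : ℝ) ≤ Y ^ (κ / 4 + a) := hlab (hb1 hF1)
  have hlabB : (((S1.image (fun w => lbl (B w) (el D w f))).card : ℕ) : ℝ) ≤ Y ^ (κ / 4 + b) := hlab (hb1 hF1.swap)
  have hposA : (0 : ℝ) < (((S1.image (fun w => lbl (A w) (el D w f))).card : ℕ) : ℝ) := by
    exact_mod_cast card_pos.mpr (hS1ne.image _)
  have hposB : (0 : ℝ) < (((S1.image (fun w => lbl (B w) (el D w f))).card : ℕ) : ℝ) := by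
    exact_mod_cast card_pos.mpr (hS1ne.image _)
  have hdegA : Y ^ (1 / 4 - 3 * κ - a) ≤ (S1.card : ℝ) / (4 * (((S1.image (fun w => lbl (A w) (el D w f))).card : ℕ) : ℝ)) :=
    fp_degnum hYg hc3' hcard1 hposA hlabA
  have hdegB : Y ^ (1 / 4 - 3 * κ - b) ≤ (S1.card : ℝ) / (4 * (((S1.image (fun w => lbl (B w) (el D w f))).card : ℕ) : ℝ)) :=
    fp_degnum hYg hc3' hcard1 hposB hlabB
  have hdiv : ∀ w ∈ S2, (((t w).divisors.card : ℕ) : ℝ) ≤ Y ^ (κ / 4) := by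
    intro w hw
    have h1 := hb2 (Y ^ K) (t w) (Nat.one_le_iff_ne_zero.mpr (hF2.t0 hw)) (hF2.tle hw)
    rw [hYK] at h1
    refine h1.trans ?_
    calc C2 * Y ^ (κ / 8) ≤ Y ^ (κ / 8) * Y ^ (κ / 8) := by gcongr
      _ = Y ^ (κ / 4) := by
          rw [← Real.rpow_add hY0]
          congr 1
          ring
  have hNn : (0 : ℝ) < 2 * (h : ℝ) := by
    have : (1 : ℝ) ≤ (h : ℝ) := by exact_mod_cast hh1
    linarith
  have hNle : (2 : ℝ) * (h : ℝ) ≤ Y ^ κ := by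
    refine le_trans ?_ hc4'
    have : (h : ℝ) ≤ (H : ℝ) := by exact_mod_cast hhH'
    linarith
  obtain ⟨θ, r, hθ0, hθ, hW⟩ := hF2.walkData hS2ne (fun w hw => hq w (hS2 hw)) h
    (dA := Y ^ (1 / 4 - 3 * κ - a)) (dB := Y ^ (1 / 4 - 3 * κ - b)) (Z := Y ^ (6 * κ))
    (Real.one_le_rpow hYg.le (by positivity)) (Real.one_le_rpow hYg.le (by linarith)) (Real.one_le_rpow hYg.le (by linarith))
    (fun w hw => hdegA.trans (hdA w hw)) (fun w hw => hdegB.trans (hdB w hw))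
    (fun w hw => fp_badnum hYg hκ hκη hRAη (hdiv w hw) hNn hNle)
    (fun w hw => fp_badnum hYg hκ hκη hRBη (hdiv w hw) hNn hNle)
  have hT0 : (0 : ℝ) ≤ Y ^ (τ + η / 64) := by positivity
  have hYK2 : 3 * Y ^ K ≤ Y ^ (K + 2) := FTb_num hY2' K
  have hLLT : LLT C4 (3 * Y ^ K) D l (Y ^ (τ + η / 64)) :=
    (hTor D f hW.hD hW.hD1 hF.hyf).mono le_rfl hYK2
  have hwalk := hb3 h hh1 hhH' (3 * Y ^ K) (Y ^ (τ + η / 64)) D f l (Y ^ x) θ _ _ _ _ _ _ S2 _ t _ r q _ _ A B hT0 hLLT hW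
  have hlabN : (((if Even h then (S2.image (fun w => lbl (A w) (el D w f))).card else
      (S2.image (fun w => lbl (B w) (el D w f))).card : ℕ)) : ℝ) ≤ Y ^ (κ / 4 + (if Even h then a else b)) := by
    split_ifs
    · exact hlab (hb1 hF2)
    · exact hlab (hb1 hF2.swap)
  have hD1 : (0 : ℝ) < ((|D| : ℤ) : ℝ) := by exact_mod_cast abs_pos.mpr hF.D0
  have hf1 : (0 : ℝ) < (f : ℝ) := by exact_mod_cast hF.hf
  have hFle : θ * (Y ^ x) ^ h / ((f : ℝ) * √((|D| : ℤ) : ℝ)) ≤ 8 * Y ^ (h * x - (1 / 2 + 2 * τ) + e1 / 2) := by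
    have h1 : (Y ^ x) ^ h = Y ^ (h * x) := by
      rw [← Real.rpow_natCast, ← Real.rpow_mul hY0.le]
      congr 1
      ring
    calc θ * (Y ^ x) ^ h / ((f : ℝ) * √((|D| : ℤ) : ℝ))
        = θ / ((f : ℝ) * √((|D| : ℤ) : ℝ)) * Y ^ (h * x) := by rw [h1]; ring
      _ ≤ 8 * Y ^ (-(1 + (-1 + 4 * τ - e1) / 2)) * Y ^ (h * x) := by gcongr
      _ = 8 * Y ^ (h * x - (1 / 2 + 2 * τ) + e1 / 2) := by
          rw [mul_assoc, ← Real.rpow_add hY0]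
          congr 2
          ring
  have hX : (3 * Y ^ K) ^ (κ / K) = 3 ^ (κ / K) * Y ^ κ := by
    rw [Real.mul_rpow (by norm_num) (by positivity), ← Real.rpow_mul hY0.le]
    congr 2
    field_simp
  have hCX : 9 * (C3 * (3 * Y ^ K) ^ (κ / K)) ≤ Y ^ (η / 64) * Y ^ κ := by
    rw [hX, show 9 * (C3 * (3 ^ (κ / K) * Y ^ κ)) = 9 * (C3 * 3 ^ (κ / K)) * Y ^ κ by ring]
    gcongr
  exact ft_final (κT := η / 64) hYg hκ hη rfl hh1 hhH' hκH hRAB hsum1 hfin (by positivity) (by linarith) hT0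
    (by positivity) hCX rfl rfl rfl rfl hlabN le_rfl hFle hwalk

end Hp

end Pool.Agent.Lib.MP_d8bd92_nt
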