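import Pool.Agent.Lib.MP_d8bd92_nt.Hp.Exc4

/-! Phase 2: `TorLe` is in Exc2.lean, `IsPl` and `StmtPT` are in Exc4.lean. -/
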