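import Pool.Agent.Lib.MP_d8bd92_nt.Hp.FTb
import Pool.Agent.Lib.MP_d8bd92_nt.Hp.P2Preds
import Pool.Agent.Lib.MP_d8bd92_nt.Hp.FPx
import Pool.Agent.Lib.MP_d8bd92_nt.Hp.Extract

set_option autoImplicit false

/-! Phase 2, block few_PT, part 3: `few_PT_of`. -/

namespace Pool.Agent.Lib.MP_d8bd92_nt

namespace Hp

open Finset Pool.Agent.Lib.Szpiro

theorem exists_pdatl (η : ℝ) (l : ℕ) (hl1 : 1 ≤ l) (Y : ℝ) : ∃ e A B t : ℤ × ℤ → ℕ, ∀ w : ℤ × ℤ, IsPl η l Y w.1 →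
    PDat η l Y w.1 (e w) (A w) (B w) (t w) l := by
  classical
  have h : ∀ w : ℤ × ℤ, ∃ e A B t : ℕ, IsPl η l Y w.1 → PDat η l Y w.1 e A B t l := by
    intro w
    by_cases hw : IsPl η l Y w.1
    · obtain ⟨e, A, B, t, h1, h4, h5, h6, h7, h8, h9, h10, h11, h12⟩ := hw
      exact ⟨e, A, B, t, fun _ => ⟨h1, hl1, le_rfl, h4, h5, h6, h7, h8, h9, h10, h11, h12⟩⟩
    · exact ⟨0, 0, 0, 0, fun h => absurd h hw⟩
  choose e A B t h using h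
  exact ⟨e, A, B, t, h⟩

theorem ft_extract_of (K ε0 η κ : ℝ) (l : ℕ) (hl1 : 1 ≤ l) (hK : 2 ≤ K) (hη : 0 < η) (hκ : 0 < κ) (hκη : 4 * κ ≤ η)
    (hext0 : ExtCol K ε0 κ) (hcr0 : Crit K ε0 κ) :
    ∃ Y0 C δ : ℝ, 1 ≤ Y0 ∧ 0 < C ∧ 0 < δ ∧ ∀ Y : ℝ, Y0 ≤ Y → ∀ P : Finset (ℤ × ℤ),
      (∀ w ∈ P, w ∈ PairSet K ε0 Y ∧ IsPl η l Y w.1) → C * Y ^ (3 / 4 - δ) < (P.card : ℝ) →
      ∃ (RA RB RT : ℝ) (P' : Finset (ℤ × ℤ)) (y D : ℤ) (f : ℕ) (e A B t : ℤ × ℤ → ℕ) (S : Finset (ℤ × ℤ)),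
        Fib K ε0 κ Y l RA RB RT P' y D f e A B t S ∧ (∃ w ∈ P, w.2 = y) ∧ Y ^ (1 / 4 - 2 * κ) ≤ (S.card : ℝ) ∧
        RA ≤ Y ^ (1 / 4 - η) ∧ RB ≤ Y ^ (1 / 4 - η) ∧ RA * RB * RT ≤ Y ^ ((1 + κ) / 2) ∧
        Y ^ ((1 - κ) / 2) ≤ 16 * (RA * RB * RT) := by
  classical
  obtain ⟨C, δ, hC, hδ, hext⟩ := hext0
  obtain ⟨Y1, hY1, hcr⟩ := hcr0
  obtain ⟨Y2, hY2, hcol⟩ := colours_few K (by linarith) 0 δ hδ
  refine ⟨max (max 2 (2 ^ (2 / η))) (max Y1 Y2), C, δ, ?_, hC, hδ, ?_⟩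
  · exact le_trans (by norm_num) ((le_max_left (2 : ℝ) _).trans (le_max_left _ _))
  intro Y hY P hP hcard
  simp only [max_le_iff] at hY
  obtain ⟨⟨hYa, hYb⟩, hYc, hYd⟩ := hY
  have hYg : 1 < Y := by linarith
  have hY0 : 0 < Y := by linarith
  have h2 : (2 : ℝ) ≤ Y ^ (η / 2) := by
    calc (2 : ℝ) = (2 ^ (2 / η)) ^ (η / 2) := by
          rw [← Real.rpow_mul (by norm_num), div_mul_div_comm, mul_comm 2 η, div_self (by positivity), Real.rpow_one]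
      _ ≤ Y ^ (η / 2) := Real.rpow_le_rpow (by positivity) hYb (by positivity)
  obtain ⟨e, A, B, t, hdat⟩ := exists_pdatl η l hl1 Y
  set n : ℕ := Nat.log 2 ⌊Y ^ K⌋₊ with hn
  let T : Type := Fin (n + 1) × (Fin (n + 1) × Fin (n + 1))
  have hT : Fintype.card T = (n + 1) * ((n + 1) * (n + 1)) := by
    simp [T, Fintype.card_prod, Fintype.card_fin]
  let tup : ℤ × ℤ → T := fun w => (Fin.ofNat (n + 1) (Nat.log 2 (rd (A w))),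
    (Fin.ofNat (n + 1) (Nat.log 2 (rd (B w))), Fin.ofNat (n + 1) (Nat.log 2 (t w))))
  let col : ℤ × ℤ → Fin (Fintype.card T) := fun w => Fintype.equivFin T (tup w)
  have hcol' : ((Fintype.card T : ℕ) : ℝ) ≤ Y ^ δ := by
    have h3 := hcol Y hYd
    rw [hT]
    rwa [zero_add, one_mul] at h3
  obtain ⟨P', hP', hgood, hcard', k, hk⟩ := hext Y hYg.le P (Fintype.card T) col hcol'
    (fun w hw => (hP w hw).1) hcard
  have hdat' : ∀ w ∈ P', PDat η l Y w.1 (e w) (A w) (B w) (t w) l := fun w hw => hdat w (hP w (hP' hw)).2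
  have hlogle : ∀ w ∈ P', ∀ m : ℕ, m ≤ w.1.natAbs → Nat.log 2 m ≤ n := by
    intro w hw m hm
    apply Nat.log_mono_right
    apply Nat.le_floor
    calc (m : ℝ) ≤ (w.1.natAbs : ℝ) := by exact_mod_cast hm
      _ ≤ Y ^ K := (hgood.base w hw).2.2.2.2.2.2.1
  have hcr' := hcr Y hYc P' hgood hcard'
  have hpos : (0 : ℝ) < Y ^ (1 / 2 - 3 * κ) := by positivity
  have hne : ((P'.image Prod.snd).filter (fun y => Y ^ (1 / 4 - 2 * κ) ≤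
      ((P'.filter (fun w => w.2 = y)).card : ℝ))).Nonempty := by
    rw [← card_pos]
    have : (0 : ℝ) < (((P'.image Prod.snd).filter (fun y => Y ^ (1 / 4 - 2 * κ) ≤
      ((P'.filter (fun w => w.2 = y)).card : ℝ))).card : ℝ) := lt_of_lt_of_le hpos hcr'
    exact_mod_cast this
  obtain ⟨y, hy⟩ := hne
  rw [mem_filter] at hy
  set S : Finset (ℤ × ℤ) := P'.filter (fun w => w.2 = y) with hS
  have hSne : S.Nonempty := by
    rw [← card_pos]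
    have : (0 : ℝ) < Y ^ (1 / 4 - 2 * κ) := by positivity
    have : (0 : ℝ) < (S.card : ℝ) := lt_of_lt_of_le this hy.2
    exact_mod_cast this
  obtain ⟨w0, hw0⟩ := hSne
  have hw0' : w0 ∈ P' := (mem_filter.mp hw0).1
  have htup : ∀ w ∈ P', tup w = tup w0 := by
    intro w hw
    have h3 : col w = col w0 := by rw [hk w hw, hk w0 hw0']
    exact (Fintype.equivFin T).injective h3
  have hval : ∀ {N a b : ℕ}, a ≤ N → b ≤ N → Fin.ofNat (N + 1) a = Fin.ofNat (N + 1) b → a = b := by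
    intro N a b ha hb hab
    have h3 := congrArg Fin.val hab
    simp only [Fin.val_ofNat] at h3
    rwa [Nat.mod_eq_of_lt (by omega), Nat.mod_eq_of_lt (by omega)] at h3
  have hx0 : ∀ w ∈ P', w.1 ≠ 0 := fun w hw => (hgood.base w hw).1
  have ha : ∀ w ∈ P', Nat.log 2 (rd (A w)) = Nat.log 2 (rd (A w0)) := fun w hw =>
    hval (hlogle w hw _ ((hdat' w hw).le (hx0 w hw)).1) (hlogle w0 hw0' _ ((hdat' w0 hw0').le (hx0 w0 hw0')).1)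
      (congrArg (fun v : T => v.1) (htup w hw))
  have hb : ∀ w ∈ P', Nat.log 2 (rd (B w)) = Nat.log 2 (rd (B w0)) := fun w hw =>
    hval (hlogle w hw _ ((hdat' w hw).le (hx0 w hw)).2.1) (hlogle w0 hw0' _ ((hdat' w0 hw0').le (hx0 w0 hw0')).2.1)
      (congrArg (fun v : T => v.2.1) (htup w hw))
  have ht : ∀ w ∈ P', Nat.log 2 (t w) = Nat.log 2 (t w0) := fun w hw =>
    hval (hlogle w hw _ ((hdat' w hw).le (hx0 w hw)).2.2) (hlogle w0 hw0' _ ((hdat' w0 hw0').le (hx0 w0 hw0')).2.2)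
      (congrArg (fun v : T => v.2.2) (htup w hw))
  obtain ⟨D, f, h3, h4, h5, h6, h7, h8, h9⟩ := fib_of (l := fun _ => l) hK hη hκ hκη hYg h2 hgood hdat' (fun _ _ => rfl)
    ha hb ht (S := S) (y := y) (filter_subset _ _) ⟨w0, hw0⟩ (fun w hw => (mem_filter.mp hw).2)
  exact ⟨_, _, _, P', y, D, f, e, A, B, t, S, h3, ⟨w0, hP' hw0', (mem_filter.mp hw0).2⟩, hy.2, h5, h6, h7, h8⟩

private theorem ft_few_large (K ε0 : ℝ) (Q Q' : ℝ → ℤ × ℤ → Prop) (Y0 : ℝ) (hQ : Few K ε0 Q)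
    (h : ∀ Y w, Y0 ≤ Y → w ∈ PairSet K ε0 Y → Q' Y w → Q Y w) : Few K ε0 Q' := by
  classical
  obtain ⟨C, δ, hC, hδ, hb⟩ := hQ
  set B : ℕ := ⌊(max 1 Y0) ^ (max K 0)⌋₊ with hB
  set C1 : ℝ := ((Finset.Icc (-(B : ℤ)) B ×ˢ Finset.Icc (-(B : ℤ)) B).card : ℝ) with hC1
  have hC10 : 0 ≤ C1 := by positivity
  refine ⟨C + C1, min δ (1 / 2), by positivity, lt_min hδ (by norm_num), fun Y hY P hP => ?_⟩
  have hY0 : 0 < Y := by linarith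
  have h4 : Y ^ (3 / 4 - δ) ≤ Y ^ (3 / 4 - min δ (1 / 2)) :=
    Real.rpow_le_rpow_of_exponent_le hY (by linarith [min_le_left δ (1 / 2 : ℝ)])
  have h5 : 1 ≤ Y ^ (3 / 4 - min δ (1 / 2 : ℝ)) :=
    Real.one_le_rpow hY (by linarith [min_le_right δ (1 / 2 : ℝ)])
  by_cases hYY : Y0 ≤ Y
  · have h1 := hb Y hY P (fun w hw => ⟨(hP w hw).1, h Y w hYY (hP w hw).1 (hP w hw).2⟩)
    calc (P.card : ℝ) ≤ C * Y ^ (3 / 4 - δ) := h1
      _ ≤ C * Y ^ (3 / 4 - min δ (1 / 2)) := by gcongr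
      _ ≤ (C + C1) * Y ^ (3 / 4 - min δ (1 / 2)) := by gcongr; linarith
  · push Not at hYY
    have hsub : P ⊆ Finset.Icc (-(B : ℤ)) B ×ˢ Finset.Icc (-(B : ℤ)) B := by
      intro w hw
      obtain ⟨_, _, _, _, _, _, h1, h2⟩ := (hP w hw).1
      have h6 : Y ^ K ≤ (max 1 Y0) ^ (max K 0) := by
        calc Y ^ K ≤ Y ^ (max K 0) := Real.rpow_le_rpow_of_exponent_le hY (le_max_left _ _)
          _ ≤ (max 1 Y0) ^ (max K 0) := Real.rpow_le_rpow hY0.le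
            (hYY.le.trans (le_max_right _ _)) (le_max_right _ _)
      have h7 : w.1.natAbs ≤ B := Nat.le_floor (h1.trans h6)
      have h8 : w.2.natAbs ≤ B := Nat.le_floor (h2.trans h6)
      rw [Finset.mem_product, Finset.mem_Icc, Finset.mem_Icc]
      refine ⟨⟨?_, ?_⟩, ⟨?_, ?_⟩⟩ <;> omega
    have h9 : (P.card : ℝ) ≤ C1 := by
      rw [hC1]
      exact_mod_cast Finset.card_le_card hsub
    calc (P.card : ℝ) ≤ C1 := h9
      _ ≤ (C + C1) * 1 := by linarith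
      _ ≤ (C + C1) * Y ^ (3 / 4 - min δ (1 / 2)) := by gcongr

/-- **few_PT**: pairs of type P with `t` of exponent `l`, whose fixed side satisfies the lattice lemma with `T = Y ^ (τ + κ)`.
`τ = 0`: `max ≥ Y^(1-e1)`; `τ = 1/8`: `max ≥ Y^(3/2-e1)` -/
theorem few_PT_of (K η τ : ℝ) (l : ℕ) (hl : 1 ≤ l) (hK : 2 ≤ K) (hη : 0 < η) (hτ : 0 ≤ τ) (hτ1 : τ ≤ 1 / 4)
    (hsmall : ∀ ε0 c : ℝ, -(3 / 2) < ε0 → 0 < c → Few K ε0 (fun Y w => (rd w.1.natAbs : ℝ) ≤ Y ^ (1 / 2 - c))) :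
    ∃ e1 κ Q C1 : ℝ, 0 < e1 ∧ e1 ≤ 1 / 100 ∧ 0 < κ ∧ 1 ≤ Q ∧ 1 ≤ C1 ∧
      Few K (-1 + 4 * τ - e1) (fun Y w => IsPl η l Y w.1 ∧ TorLe C1 Q l (τ + κ) Y w.2) := by
  obtain ⟨e1, he1, he1a, he1b⟩ : ∃ e1 : ℝ, 0 < e1 ∧ e1 ≤ 1 / 100 ∧ e1 ≤ η / 100 :=
    ⟨min (1 / 100) (η / 100), lt_min (by norm_num) (by positivity), min_le_left _ _, min_le_right _ _⟩
  obtain ⟨κ, C1, hκ, hκ1, hκη, hC1, Y0, hY0, hb⟩ := ft_contra_le K η τ e1 hK hη hτ hτ1 he1.le he1b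
  refine ⟨e1, η / 64, K + 2, C1, he1, he1a, by positivity, by linarith, hC1, ?_⟩
  have hext : ExtCol K (-1 + 4 * τ - e1) κ :=
    extraction_col_of K _ κ hK hκ (fun c hc => hsmall _ c (by linarith) hc)
  have hcr : Crit K (-1 + 4 * τ - e1) κ := critical_g K _ κ hK hκ hκ1
  obtain ⟨Y1, C, δ, hY1, hC, hδ, hb1⟩ := ft_extract_of K (-1 + 4 * τ - e1) η κ l hl hK hη hκ (by linarith) hext hcr
  apply ft_few_large K (-1 + 4 * τ - e1)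
    (fun Y w => max Y0 Y1 ≤ Y ∧ IsPl η l Y w.1 ∧ TorLe C1 (K + 2) l (τ + η / 64) Y w.2) _ (max Y0 Y1) _
    (fun Y w hY _ hq => ⟨hY, hq⟩)
  refine ⟨C, δ, hC, hδ, fun Y hY P hP => ?_⟩
  by_contra hlt
  rw [not_le] at hlt
  have hPne : P.Nonempty := by
    rw [nonempty_iff_ne_empty]
    rintro rfl
    have : 0 < Y := by linarith
    have h1 : 0 < C * Y ^ (3 / 4 - δ) := by positivity
    simp at hlt
    linarith
  obtain ⟨w0, hw0⟩ := hPne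
  have hYm := (hP w0 hw0).2.1
  rw [max_le_iff] at hYm
  obtain ⟨RA, RB, RT, P', y, D, f, e, A, B, t, S, hF, ⟨w1, hw1, hw1y⟩, hS, hRA, hRB, hs1, hs2⟩ :=
    hb1 Y hYm.2 P (fun w hw => ⟨(hP w hw).1, (hP w hw).2.2.1⟩) hlt
  have hTor : ∀ D f : ℤ, Squarefree D → D ≠ 1 → y = f ^ 2 * D → LLT C1 (Y ^ (K + 2)) D l (Y ^ (τ + η / 64)) := by
    have h3 := (hP w1 hw1).2.2.2
    rw [hw1y] at h3
    exact h3
  rcases le_total RA RB with h | h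
  · exact hb Y hYm.1 hF hTor hS h hRA hRB hs1 hs2
  · exact hb Y hYm.1 hF.swap hTor hS h hRB hRA (by rw [mul_comm RB RA]; exact hs1) (by rw [mul_comm RB RA]; exact hs2)

/-- the block few_PT in the form of Exc4.lean -/
theorem stmtPT_of (K : ℝ) (hK : 2 ≤ K)
    (hsmall : ∀ ε0 c : ℝ, -(3 / 2) < ε0 → 0 < c → Few K ε0 (fun Y w => (rd w.1.natAbs : ℝ) ≤ Y ^ (1 / 2 - c))) :
    StmtPT K :=
  fun η τ l hl hη hτ hτ1 => few_PT_of K η τ l hl hK hη hτ hτ1 hsmall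

end Hp

end Pool.Agent.Lib.MP_d8bd92_nt
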