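import Pool.Agent.Lib.MP_d8bd92_nt.Hp.SmV1
import Pool.Agent.Lib.MP_d8bd92_nt.Hp.SmS
import Pool.Agent.Lib.MP_d8bd92_nt.Hp.SmV3
import Pool.Agent.Lib.MP_d8bd92_nt.Hp.Preds
import Pool.Agent.Lib.MP_d8bd92_nt.Hp.BE
import Pool.Agent.Lib.MP_d8bd92_nt.Hp.BH
import Pool.Agent.Lib.MP_d8bd92_nt.Hp.BM

set_option autoImplicit false

/-!
Pairs with one small radical are few, for maxima above `Y ^ (1/2 + s)`.
-/

namespace Pool.Agent.Lib.MP_d8bd92_nt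

namespace Hp

open Finset Pool.Agent.Lib.Szpiro

private theorem FewSmall2_ps {K ε0 Y : ℝ} {w : ℤ × ℤ} (h : w ∈ PairSet K ε0 Y) :
    PS ⌊Y ^ K⌋₊ w ∧ ra w * rb w ≤ Y := by
  obtain ⟨h1, h2, h3, h4, h5, -, h7, h8⟩ := h
  exact ⟨⟨h1, h2, h3, h4, Nat.le_floor h7, Nat.le_floor h8⟩, h5⟩

private theorem FewSmall2_swap {Z : ℕ} {w : ℤ × ℤ} (h : PS Z w) : PS Z w.swap := by
  obtain ⟨g, hg⟩ := h.sq
  exact ⟨h.n2, h.n1, h.cop.symm, ⟨g, by rw [Prod.fst_swap, Prod.snd_swap, add_comm]; exact hg⟩, h.b2, h.b1⟩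

private theorem FewSmall2_le {C Y a b : ℝ} (hC : 0 ≤ C) (hY : 1 ≤ Y) (h : a ≤ b) : C * Y ^ a ≤ C * Y ^ b :=
  mul_le_mul_of_nonneg_left (Real.rpow_le_rpow_of_exponent_le hY h) hC

/-- pairs with a small radical are few, for every lower bound `Y ^ (1/2 + s)` of the maximum (`s = 3/2 + ε0`) -/
theorem few_small2 (K ε0 c : ℝ) (hK : 2 ≤ K) (he0 : -(3 / 2) < ε0) (hc : 0 < c) :
    Few K ε0 (fun Y w => (rd w.1.natAbs : ℝ) ≤ Y ^ (1 / 2 - c)) := by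
  classical
  have hK0 : 0 < K := by linarith
  obtain ⟨c', hc'0, hc'1, hc'2⟩ : ∃ c' : ℝ, 0 < c' ∧ c' ≤ c ∧ c' ≤ 1 / 2 :=
    ⟨min c (1 / 2), lt_min hc (by norm_num), min_le_left _ _, min_le_right _ _⟩
  have hσ : 0 < 1 / (100 * K) := by positivity
  obtain ⟨κ, hκ, hκ1, hκ2⟩ : ∃ κ : ℝ, 0 < κ ∧ κ ≤ 1 / 100 ∧ κ ≤ (3 / 2 + ε0) / 40 :=
    ⟨min (1 / 100) ((3 / 2 + ε0) / 40), lt_min (by norm_num) (by linarith), min_le_left _ _, min_le_right _ _⟩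
  obtain ⟨C1, hC1, H1⟩ := squares_le (1 / (100 * K)) hσ
  obtain ⟨C2, δ2, hC2, hδ2, H2⟩ := middle_le K (2 * c') (κ / 20) hK0 (by linarith) (by linarith)
    (by positivity) (by linarith)
  obtain ⟨C3, δ3, hC3, hδ3, H3⟩ := unbalanced_le K κ hK0 hκ (by linarith)
  obtain ⟨C4, hC4, H4⟩ := col_sum K ε0 κ hK hκ (fun Y w => U1 Y κ w)
    (fun Y w h => h.2.1) (v1_col K ε0 κ hK hκ hκ1 hκ2)
  obtain ⟨C5, hC5, H5⟩ := col_sum K ε0 κ hK hκ (fun Y w => U3 Y κ w)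
    (fun Y w h => h.2.1) (v3_col K ε0 κ hK hκ hκ1 hκ2)
  obtain ⟨δ, hδ, d2, d3, d4⟩ : ∃ δ : ℝ, 0 < δ ∧ δ ≤ δ2 ∧ δ ≤ δ3 ∧ δ ≤ κ / 2 :=
    ⟨min δ2 (min δ3 (κ / 2)), lt_min hδ2 (lt_min hδ3 (by positivity)), min_le_left _ _,
      (min_le_right _ _).trans (min_le_left _ _), (min_le_right _ _).trans (min_le_right _ _)⟩
  refine ⟨C1 + C2 + C3 + C4 + C5, δ, by linarith, hδ, ?_⟩
  intro Y hY P hP
  have h0 : 0 < Y := by linarith
  have hYK : 1 ≤ Y ^ K := Real.one_le_rpow hY hK0.le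
  have hZ1 : 1 ≤ ⌊Y ^ K⌋₊ := Nat.le_floor (by exact_mod_cast hYK)
  have hZσ : (⌊Y ^ K⌋₊ : ℝ) ^ (1 / (100 * K)) ≤ Y ^ (1 / 100 : ℝ) := by
    calc (⌊Y ^ K⌋₊ : ℝ) ^ (1 / (100 * K)) ≤ (Y ^ K) ^ (1 / (100 * K)) :=
          Real.rpow_le_rpow (by positivity) (Nat.floor_le (by linarith)) hσ.le
      _ = Y ^ (K * (1 / (100 * K))) := (Real.rpow_mul h0.le _ _).symm
      _ = Y ^ (1 / 100 : ℝ) := by
          congr 1
          field_simp
  have hra : ∀ w ∈ P, ra w ≤ Y ^ ((1 - 2 * c') / 2) := by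
    intro w hw
    refine (hP w hw).2.trans (Real.rpow_le_rpow_of_exponent_le hY (by linarith))
  set P1 := P.filter (fun w => IsSquare w.1) with hP1
  set P2 := P.filter (fun w => rb w ≤ Y ^ (3 / 4 - κ / 20 : ℝ)) with hP2
  set P3 := P.filter (fun w => ¬ IsSquare w.1 ∧ Y ^ (3 / 4 - κ / 20 : ℝ) ≤ rb w) with hP3
  have hcov : P ⊆ P1 ∪ (P2 ∪ P3) := by
    intro w hw
    rw [hP1, hP2, hP3]
    simp only [Finset.mem_union, Finset.mem_filter]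
    by_cases hs : IsSquare w.1
    · exact Or.inl ⟨hw, hs⟩
    · rcases le_total (rb w) (Y ^ (3 / 4 - κ / 20 : ℝ)) with h | h
      · exact Or.inr (Or.inl ⟨hw, h⟩)
      · exact Or.inr (Or.inr ⟨hw, hs, h⟩)
  have hcard : (P.card : ℝ) ≤ P1.card + (P2.card + P3.card) := by
    have := (Finset.card_le_card hcov).trans ((Finset.card_union_le _ _).trans (Nat.add_le_add_left
        (Finset.card_union_le _ _) _))
    exact_mod_cast this
  have b1 : (P1.card : ℝ) ≤ C1 * Y ^ (3 / 4 - δ) := by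
    have hinj : (P1.image Prod.swap).card = P1.card :=
      Finset.card_image_of_injective _ Prod.swap_injective
    have h := H1 ⌊Y ^ K⌋₊ Y (P1.image Prod.swap) hZ1 hY (by
      intro w hw
      obtain ⟨v, hv, rfl⟩ := Finset.mem_image.1 hw
      rw [hP1, Finset.mem_filter] at hv
      have hps := FewSmall2_ps (hP v hv.1).1
      refine ⟨FewSmall2_swap hps.1, ?_, hv.2⟩
      have : ra v.swap * rb v.swap = ra v * rb v := by
        unfold ra rb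
        rw [Prod.fst_swap, Prod.snd_swap, mul_comm]
      rw [this]
      exact hps.2)
    rw [hinj] at h
    refine h.trans ?_
    rw [mul_assoc]
    refine mul_le_mul_of_nonneg_left ?_ (by linarith)
    calc (⌊Y ^ K⌋₊ : ℝ) ^ (1 / (100 * K)) * Y ^ (2 / 3 : ℝ) ≤ Y ^ (1 / 100 : ℝ) * Y ^ (2 / 3 : ℝ) :=
          mul_le_mul_of_nonneg_right hZσ (Real.rpow_nonneg h0.le _)
      _ = Y ^ (1 / 100 + 2 / 3 : ℝ) := (Real.rpow_add h0 _ _).symm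
      _ ≤ Y ^ (3 / 4 - δ) := Real.rpow_le_rpow_of_exponent_le hY (by linarith)
  have b2 : (P2.card : ℝ) ≤ C2 * Y ^ (3 / 4 - δ) := by
    have h := H2 Y P2 hY (by
      intro w hw
      rw [hP2, Finset.mem_filter] at hw
      have hps := FewSmall2_ps (hP w hw.1).1
      exact ⟨hps.1, hps.2, hra w hw.1, hw.2⟩)
    exact h.trans (FewSmall2_le (by linarith) hY (by linarith))
  have b3 : (P3.card : ℝ) ≤ (C3 + C4 + C5) * Y ^ (3 / 4 - δ) := by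
    have hm : ∀ w ∈ P3, w ∈ PairSet K ε0 Y ∧ ¬ IsSquare w.1 ∧ Y ^ (3 / 4 - κ / 20 : ℝ) ≤ rb w := by
      intro w hw
      rw [hP3, Finset.mem_filter] at hw
      exact ⟨(hP w hw.1).1, hw.2⟩
    have h := H3 Y P3 hY (by
      intro w hw
      have hps := FewSmall2_ps (hm w hw).1
      exact ⟨hps.1, hps.2, (hm w hw).2.2⟩)
    have h4 := H4 Y (P3.filter (fun w => U1 Y κ w)) hY (by
      intro w hw
      rw [Finset.mem_filter] at hw
      exact ⟨(hm w hw.1).1, hw.2, (hm w hw.1).2.1⟩)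
    have h5 := H5 Y (P3.filter (fun w => U3 Y κ w)) hY (by
      intro w hw
      rw [Finset.mem_filter] at hw
      exact ⟨(hm w hw.1).1, hw.2, (hm w hw.1).2.1⟩)
    have e3 := FewSmall2_le (C := C3) (by linarith) hY (show (3 / 4 - δ3 : ℝ) ≤ 3 / 4 - δ by linarith)
    have e4 := FewSmall2_le (C := C4) (by linarith) hY (show (3 / 4 - κ / 2 : ℝ) ≤ 3 / 4 - δ by linarith)
    have e5 := FewSmall2_le (C := C5) (by linarith) hY (show (3 / 4 - κ / 2 : ℝ) ≤ 3 / 4 - δ by linarith)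
    have e : (C3 + C4 + C5) * Y ^ (3 / 4 - δ) = C3 * Y ^ (3 / 4 - δ) + C4 * Y ^ (3 / 4 - δ) +
      C5 * Y ^ (3 / 4 - δ) := by ring
    rw [e]
    linarith
  have e : (C1 + C2 + C3 + C4 + C5) * Y ^ (3 / 4 - δ) = C1 * Y ^ (3 / 4 - δ) + C2 * Y ^ (3 / 4 - δ) +
    (C3 + C4 + C5) * Y ^ (3 / 4 - δ) := by ring
  rw [e]
  linarith

end Hp

end Pool.Agent.Lib.MP_d8bd92_nt
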