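import Pool.Agent.Lib.MP_d8bd92_nt.Hp.LL0

set_option autoImplicit false

/-!
MP_d8bd92_nt, block LL, file LF1.
-/

namespace Pool.Agent.Lib.MP_d8bd92_nt

namespace Hp

open Finset

variable {D : ℤ}

private theorem lf1_hh_real (hD0 : 0 ≤ D) (z : ℤ√D) :
    ((hh z : ℤ) : ℝ) = ((Zsqrtd.toReal hD0 z) ^ 2 + (Zsqrtd.toReal hD0 (star z)) ^ 2) / 2 := by
  have h0 : (0 : ℝ) ≤ (D : ℝ) := by exact_mod_cast hD0
  have hs : Real.sqrt (D : ℝ) ^ 2 = (D : ℝ) := Real.sq_sqrt h0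
  have e1 : Zsqrtd.toReal hD0 z = (z.re : ℝ) + (z.im : ℝ) * Real.sqrt (D : ℝ) := rfl
  have e2 : Zsqrtd.toReal hD0 (star z) = ((star z).re : ℝ) + ((star z).im : ℝ) * Real.sqrt (D : ℝ) := rfl
  rw [e1, e2, Zsqrtd.re_star, Zsqrtd.im_star]
  unfold hh
  rw [abs_of_nonneg hD0]
  push_cast
  have : ((z.re : ℝ) + (z.im : ℝ) * Real.sqrt (D : ℝ)) ^ 2 + ((z.re : ℝ) + (-(z.im : ℝ)) * Real.sqrt (D : ℝ)) ^ 2
      = 2 * ((z.re : ℝ) ^ 2 + (z.im : ℝ) ^ 2 * Real.sqrt (D : ℝ) ^ 2) := by ring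
  rw [this, hs]
  ring

private theorem lf1_norm_real (hD0 : 0 ≤ D) (z : ℤ√D) :
    ((z.norm : ℤ) : ℝ) = (Zsqrtd.toReal hD0 z) * (Zsqrtd.toReal hD0 (star z)) := by
  rw [← map_mul, ← Zsqrtd.norm_eq_mul_conj, map_intCast]

private theorem lf1_ineq {a b : ℝ} (ha : 0 ≤ a) (hb : 0 ≤ b) (k : ℕ) :
    (a ^ 2 + b ^ 2) * (a * b) ^ k ≤ a ^ (2 * (k + 1)) + b ^ (2 * (k + 1)) := by
  have key : 0 ≤ (a ^ (k + 2) - b ^ (k + 2)) * (a ^ k - b ^ k) := by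
    rcases le_total a b with h | h
    · have h1 : a ^ (k + 2) ≤ b ^ (k + 2) := pow_le_pow_left₀ ha h _
      have h2 : a ^ k ≤ b ^ k := pow_le_pow_left₀ ha h _
      nlinarith [mul_nonneg (sub_nonneg.mpr h1) (sub_nonneg.mpr h2)]
    · have h1 : b ^ (k + 2) ≤ a ^ (k + 2) := pow_le_pow_left₀ hb h _
      have h2 : b ^ k ≤ a ^ k := pow_le_pow_left₀ hb h _
      exact mul_nonneg (sub_nonneg.mpr h1) (sub_nonneg.mpr h2)
  have e : (a ^ (k + 2) - b ^ (k + 2)) * (a ^ k - b ^ k)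
      = a ^ (2 * (k + 1)) + b ^ (2 * (k + 1)) - (a ^ 2 + b ^ 2) * (a * b) ^ k := by
    rw [mul_pow]; ring
  linarith [key, e]

/-- Row hpLF1.  `D < 0`: `hh z = norm z`, equality.  `D > 0`: with `u = |x + y √D|`, `v = |x - y √D|` one has
`hh z = (u^2 + v^2)/2`, `|norm z| = u v`, and `t^l + t^(-l) ≥ t + 1/t` for `t > 0`, `l ≥ 1`
(for `t = u^2/(u v)`...: `(t + 1/t)/2 ≤ (t^l + t^(-l))/2` with `t = u/v`). -/
theorem bal_root (hD : ∀ n : ℤ, D ≠ n * n) (z : ℤ√D) (l : ℕ) (hl : 1 ≤ l) :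
    hh z * |z.norm| ^ (l - 1) ≤ hh (z ^ l) := by
  obtain ⟨k, rfl⟩ : ∃ k, l = k + 1 := ⟨l - 1, by omega⟩
  rw [Nat.add_sub_cancel]
  rcases lt_or_ge D 0 with hneg | hpos
  · have hhn : ∀ w : ℤ√D, hh w = w.norm := by
      intro w
      unfold hh
      rw [Zsqrtd.norm_def, abs_of_neg hneg]
      ring
    have hnn : 0 ≤ z.norm := Zsqrtd.norm_nonneg hneg.le z
    have hpow : (z ^ (k + 1)).norm = z.norm ^ (k + 1) := map_pow Zsqrtd.normMonoidHom z (k + 1)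
    rw [hhn, hhn, hpow, abs_of_nonneg hnn, pow_succ]
    exact le_of_eq (mul_comm _ _)
  · have hgoal : ((hh z * |z.norm| ^ k : ℤ) : ℝ) ≤ ((hh (z ^ (k + 1)) : ℤ) : ℝ) := by
      push_cast
      rw [lf1_hh_real hpos z, lf1_hh_real hpos (z ^ (k + 1)), lf1_norm_real hpos z, star_pow, map_pow, map_pow,
        abs_mul]
      have h := lf1_ineq (abs_nonneg (Zsqrtd.toReal hpos z)) (abs_nonneg (Zsqrtd.toReal hpos (star z))) k
      have e1 : |Zsqrtd.toReal hpos z| ^ (2 * (k + 1)) = (Zsqrtd.toReal hpos z ^ (k + 1)) ^ 2 := by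
        rw [pow_mul, sq_abs, ← pow_mul, ← pow_mul, mul_comm]
      have e2 : |Zsqrtd.toReal hpos (star z)| ^ (2 * (k + 1)) = (Zsqrtd.toReal hpos (star z) ^ (k + 1)) ^ 2 := by
        rw [pow_mul, sq_abs, ← pow_mul, ← pow_mul, mul_comm]
      rw [e1, e2, sq_abs, sq_abs] at h
      linarith [h]
    exact_mod_cast hgoal

end Hp

end Pool.Agent.Lib.MP_d8bd92_nt
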