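import Pool.Agent.Lib.MP_d8bd92_nt.Hp.LL0

set_option autoImplicit false

/-!
MP_d8bd92_nt, block LL, file LG1.
-/

namespace Pool.Agent.Lib.MP_d8bd92_nt

namespace Hp

open Finset

variable {D : ℤ}

theorem lg1_both (z : ℤ√D) (l : ℕ) : ∀ N : ℕ, l < 2 * N →
    (z ^ l).re = ∑ i ∈ range N, (l.choose (2 * i) : ℤ) * z.re ^ (l - 2 * i) *
      z.im ^ (2 * i) * D ^ i ∧
    (z ^ l).im = ∑ i ∈ range N, (l.choose (2 * i + 1) : ℤ) * z.re ^ (l - (2 * i + 1)) *
      z.im ^ (2 * i + 1) * D ^ i := by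
  induction l with
  | zero =>
    intro N hN
    obtain ⟨M, rfl⟩ : ∃ M, N = M + 1 := ⟨N - 1, by omega⟩
    refine ⟨?_, ?_⟩
    · rw [sum_range_succ', sum_eq_zero]
      · simp
      · intro i _
        rw [Nat.choose_eq_zero_of_lt (by omega)]
        simp
    · rw [sum_eq_zero]
      · simp
      · intro i _
        rw [Nat.choose_eq_zero_of_lt (by omega)]
        simp
  | succ l ih =>
    intro N hN
    obtain ⟨h1, h2⟩ := ih N (by omega)
    refine ⟨?_, ?_⟩
    · have e1 : (z ^ (l + 1)).re = (z ^ l).re * z.re + D * (z ^ l).im * z.im := by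
        rw [pow_succ, Zsqrtd.re_mul]
      obtain ⟨M, rfl⟩ : ∃ M, N = M + 1 := ⟨N - 1, by omega⟩
      rw [e1, h1, h2, sum_range_succ' (fun i => ((l + 1).choose (2 * i) : ℤ) *
        z.re ^ (l + 1 - 2 * i) * z.im ^ (2 * i) * D ^ i)]
      rw [sum_range_succ (fun i => (l.choose (2 * i + 1) : ℤ) * z.re ^ (l - (2 * i + 1)) *
        z.im ^ (2 * i + 1) * D ^ i), sum_range_succ' (fun i => (l.choose (2 * i) : ℤ) *
        z.re ^ (l - 2 * i) * z.im ^ (2 * i) * D ^ i)]
      have e2 : ((l.choose (2 * M + 1) : ℕ) : ℤ) = 0 := by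
        rw [Nat.choose_eq_zero_of_lt (by omega)]; rfl
      rw [e2]
      have e3 : ∀ i ∈ range M, ((l + 1).choose (2 * (i + 1)) : ℤ) * z.re ^ (l + 1 - 2 * (i + 1)) *
          z.im ^ (2 * (i + 1)) * D ^ (i + 1) =
          ((l.choose (2 * (i + 1)) : ℤ) * z.re ^ (l - 2 * (i + 1)) *
          z.im ^ (2 * (i + 1)) * D ^ (i + 1)) * z.re +
          D * ((l.choose (2 * i + 1) : ℤ) * z.re ^ (l - (2 * i + 1)) *
            z.im ^ (2 * i + 1) * D ^ i) * z.im := by
        intro i _
        have h3 : (l + 1).choose (2 * (i + 1)) = l.choose (2 * i + 1) + l.choose (2 * (i + 1)) := by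
          rw [show 2 * (i + 1) = (2 * i + 1) + 1 by ring, Nat.choose_succ_succ]
        rw [h3]
        have h5 : l + 1 - 2 * (i + 1) = l - (2 * i + 1) := by omega
        by_cases h4 : 2 * (i + 1) ≤ l
        · have h6 : l + 1 - 2 * (i + 1) = (l - 2 * (i + 1)) + 1 := by omega
          push_cast
          rw [add_mul, add_mul, add_mul]
          nth_rw 1 [h5]
          rw [h6]
          ring
        · rw [Nat.choose_eq_zero_of_lt (show l < 2 * (i + 1) by omega), h5]
          push_cast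
          ring
      rw [sum_congr rfl e3, sum_add_distrib, ← sum_mul, ← sum_mul, ← mul_sum]
      simp only [Nat.mul_zero, Nat.choose_zero_right, Nat.sub_zero, pow_zero, pow_succ]
      push_cast
      ring
    · have e1 : (z ^ (l + 1)).im = (z ^ l).re * z.im + (z ^ l).im * z.re := by
        rw [pow_succ, Zsqrtd.im_mul]
      rw [e1, h1, h2, sum_mul, sum_mul, ← sum_add_distrib]
      refine sum_congr rfl fun i _ => ?_
      rw [Nat.choose_succ_succ]
      have h5 : l + 1 - (2 * i + 1) = l - 2 * i := by omega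
      rw [h5]
      by_cases h4 : 2 * i + 1 ≤ l
      · have h6 : l - 2 * i = (l - (2 * i + 1)) + 1 := by omega
        rw [h6]
        push_cast
        ring
      · rw [Nat.choose_eq_zero_of_lt (show l < 2 * i + 1 by omega)]
        push_cast
        ring

/-- Row hpLG1.  Expansion: `Im (x + y √D)^l = y * Σ_{j odd, j ≤ l} C(l,j) x^(l-j) y^(j-1) D^((j-1)/2)`. -/
theorem im_pow_expand (z : ℤ√D) (l : ℕ) :
    (z ^ l).im = ∑ i ∈ range (l / 2 + 1), (l.choose (2 * i + 1) : ℤ) * z.re ^ (l - (2 * i + 1)) *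
      z.im ^ (2 * i + 1) * D ^ i :=
  (lg1_both z l (l / 2 + 1) (by omega)).2

end Hp

end Pool.Agent.Lib.MP_d8bd92_nt
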