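import Pool.Agent.Lib.MP_d8bd92_nt.Hp.LG1

set_option autoImplicit false

/-!
MP_d8bd92_nt, block LL, file LG2.
-/

namespace Pool.Agent.Lib.MP_d8bd92_nt

namespace Hp

open Finset

variable {D : ℤ}

/-- `q ^ (v + 1)` divides `C(l, 2i+1) q ^ (2i)` for `i ≥ 1`, where `q ^ v` is the part of `q` in `l`. -/
private lemma lg2_choose (q v l l' i : ℕ) (hq : q.Prime) (hlv : l = q ^ v * l') (hi : 1 ≤ i) :
    q ^ (v + 1) ∣ l.choose (2 * i + 1) * q ^ (2 * i) := by
  rcases Nat.eq_zero_or_pos l with h0 | h0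
  · rw [h0, Nat.choose_eq_zero_of_lt (by omega), zero_mul]
    exact dvd_zero _
  obtain ⟨e, j', hj', hje⟩ := Nat.exists_eq_pow_mul_and_not_dvd (show 2 * i + 1 ≠ 0 by omega) q hq.ne_one
  have hj0 : 0 < j' := by
    rcases Nat.eq_zero_or_pos j' with h | h
    · rw [h, mul_zero] at hje
      omega
    · exact h
  -- the exponent of `q` in `2 i + 1` is small
  have he : e + 1 ≤ 2 * i := by
    rcases Nat.eq_zero_or_pos e with h | h
    · omega
    · have hq2 : q ≠ 2 := by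
        intro h2
        have h3 : q ∣ 2 * i + 1 := by
          rw [hje]
          exact Dvd.dvd.mul_right (dvd_pow_self q (by omega)) _
        rw [h2] at h3
        omega
      have hq3 : 3 ≤ q := by
        have := hq.two_le
        omega
      have h4 : 3 ^ e ≤ 2 * i + 1 := by
        calc 3 ^ e ≤ q ^ e := Nat.pow_le_pow_left hq3 e
          _ ≤ q ^ e * j' := Nat.le_mul_of_pos_right _ hj0
          _ = 2 * i + 1 := hje.symm
      have h5 : ∀ m : ℕ, 1 ≤ m → m + 2 ≤ 3 ^ m := by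
        intro m hm
        induction m, hm using Nat.le_induction with
        | base => norm_num
        | succ m hm ih =>
          rw [pow_succ]
          omega
      have := h5 e h
      omega
  have hrec : (2 * i + 1) * l.choose (2 * i + 1) = l * (l - 1).choose (2 * i) := by
    have h := Nat.add_one_mul_choose_eq (l - 1) (2 * i)
    rw [show l - 1 + 1 = l by omega] at h
    rw [h]
    ring
  have hdiv : q ^ (v - e) ∣ l.choose (2 * i + 1) := by
    rcases le_or_gt e v with hev | hev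
    · have h6 : q ^ e * (j' * l.choose (2 * i + 1)) = q ^ e * (q ^ (v - e) * (l' * (l - 1).choose (2 * i))) := by
        calc q ^ e * (j' * l.choose (2 * i + 1)) = (q ^ e * j') * l.choose (2 * i + 1) := by ring
          _ = l * (l - 1).choose (2 * i) := by rw [← hje, hrec]
          _ = q ^ v * l' * (l - 1).choose (2 * i) := by rw [← hlv]
          _ = q ^ (e + (v - e)) * l' * (l - 1).choose (2 * i) := by rw [Nat.add_sub_cancel' hev]
          _ = _ := by rw [pow_add]; ring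
      have h7 : j' * l.choose (2 * i + 1) = q ^ (v - e) * (l' * (l - 1).choose (2 * i)) :=
        Nat.eq_of_mul_eq_mul_left (pow_pos hq.pos e) h6
      have h8 : q ^ (v - e) ∣ j' * l.choose (2 * i + 1) := Dvd.intro _ h7.symm
      exact (Nat.Coprime.pow_left _ ((Nat.Prime.coprime_iff_not_dvd hq).2 hj')).dvd_of_dvd_mul_left h8
    · rw [Nat.sub_eq_zero_of_le hev.le, pow_zero]
      exact one_dvd _
  have h9 : q ^ (v - e) * q ^ (e + 1) ∣ l.choose (2 * i + 1) * q ^ (2 * i) :=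
    Nat.mul_dvd_mul hdiv (pow_dvd_pow q he)
  rw [← pow_add] at h9
  exact dvd_trans (pow_dvd_pow q (by omega)) h9

/-- Row hpLG2 (uses G1).  TL lemma.  `q` prime, `q ∣ y`, `q ∤ norm`, so `q ∤ x`.  `Im β^l = y * (l x^(l-1) + Σ_{i ≥ 1} ..)` and
`v_q(C(l,j) y^(j-1)) > v_q(l)` for odd `j ≥ 3` because `j C(l,j) = l C(l-1,j-1)` and `v_q(j) < j - 1`
(`j` odd: `v_2(j) = 0`; `q ≥ 3`: `q^v ∣ j` gives `v < q^v - 1 ≤ j - 1`).  So `v_q(Im β^l) = v_q(y) + v_q(l)`. -/
theorem tl_lemma (q k l : ℕ) (hq : q.Prime) (hl : 1 ≤ l) (β : ℤ√D) (h1 : (q : ℤ) ∣ β.im)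
    (h2 : ¬ (q : ℤ) ∣ β.norm) (h3 : ((q ^ k : ℕ) : ℤ) ∣ (β ^ l).im) : ((q ^ k : ℕ) : ℤ) ∣ (l : ℤ) * β.im := by
  obtain ⟨v, l', hl', hlv⟩ := Nat.exists_eq_pow_mul_and_not_dvd (show l ≠ 0 by omega) q hq.ne_one
  obtain ⟨y1, hy1⟩ := h1
  have hqx : ¬ (q : ℤ) ∣ β.re := by
    intro h
    apply h2
    rw [Zsqrtd.norm_def]
    apply dvd_sub
    · exact Dvd.dvd.mul_left h _
    · exact Dvd.dvd.mul_left (Dvd.intro y1 hy1.symm) _
  have hqZ : Prime (q : ℤ) := Nat.prime_iff_prime_int.1 hq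
  have hsum := im_pow_expand β l
  rw [Finset.sum_range_succ'] at hsum
  have hS : (β.im * (q : ℤ) ^ (v + 1)) ∣ ∑ i ∈ range (l / 2), (l.choose (2 * (i + 1) + 1) : ℤ) *
      β.re ^ (l - (2 * (i + 1) + 1)) * β.im ^ (2 * (i + 1) + 1) * D ^ (i + 1) := by
    apply Finset.dvd_sum
    intro i _
    obtain ⟨t, ht⟩ := lg2_choose q v l l' (i + 1) hq hlv (by omega)
    have ht' : (l.choose (2 * (i + 1) + 1) : ℤ) * (q : ℤ) ^ (2 * (i + 1)) = (q : ℤ) ^ (v + 1) * t := by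
      exact_mod_cast ht
    refine ⟨t * β.re ^ (l - (2 * (i + 1) + 1)) * y1 ^ (2 * (i + 1)) * D ^ (i + 1), ?_⟩
    have e1 : β.im ^ (2 * (i + 1) + 1) = β.im * ((q : ℤ) ^ (2 * (i + 1)) * y1 ^ (2 * (i + 1))) := by
      rw [pow_succ', ← mul_pow, ← hy1]
    rw [e1]
    linear_combination (β.re ^ (l - (2 * (i + 1) + 1)) * β.im * y1 ^ (2 * (i + 1)) * D ^ (i + 1)) * ht'
  obtain ⟨T, hT⟩ := hS
  have e2 : (β ^ l).im = β.im * (q : ℤ) ^ v * ((l' : ℤ) * β.re ^ (l - 1) + q * T) := by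
    rw [hsum, hT]
    have hlZ : (l : ℤ) = (q : ℤ) ^ v * l' := by exact_mod_cast hlv
    simp only [mul_zero, zero_add, Nat.choose_one_right, pow_zero, pow_one, mul_one]
    rw [hlZ, pow_succ]
    ring
  have hcop : IsCoprime ((q ^ k : ℕ) : ℤ) ((l' : ℤ) * β.re ^ (l - 1) + q * T) := by
    rw [Nat.cast_pow]
    apply IsCoprime.pow_left
    rw [hqZ.coprime_iff_not_dvd]
    intro h
    have h5 : (q : ℤ) ∣ (l' : ℤ) * β.re ^ (l - 1) := (dvd_add_left (Dvd.intro T rfl)).1 h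
    rcases hqZ.dvd_or_dvd h5 with h6 | h6
    · exact hl' (Int.natCast_dvd_natCast.1 h6)
    · exact hqx (hqZ.dvd_of_dvd_pow h6)
  rw [e2] at h3
  have h7 := hcop.dvd_of_dvd_mul_right h3
  have hlZ : (l : ℤ) = (q : ℤ) ^ v * l' := by exact_mod_cast hlv
  rw [hlZ]
  have h8 : (q : ℤ) ^ v * l' * β.im = β.im * (q : ℤ) ^ v * l' := by ring
  rw [h8]
  exact Dvd.dvd.mul_right h7 _

end Hp

end Pool.Agent.Lib.MP_d8bd92_nt
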