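import Pool.Agent.Lib.MP_d8bd92_nt.Hp.LL0

set_option autoImplicit false

/-!
MP_d8bd92_nt, block LL, file LI1.
-/

namespace Pool.Agent.Lib.MP_d8bd92_nt

namespace Hp

open Finset

/-- Row hpLI1.  Nonzero integers in `cj I` are at least `E / K`: if `j ∈ cj I` then `j * I ≤ cj I * I = span {E}`, so
`I ≤ span {E / gcd(E, j)}`, hence `E / gcd (E, j) ≤ K` and `E ≤ K * |j|`. -/
theorem int_in_cj {D : ℤ} {I : Ideal (ℤ√D)} {E : ℕ} {K : ℝ} (hI : HN I E) (hK : Cont I K) {j : ℤ} (hj : j ≠ 0)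
    (hm : (j : ℤ√D) ∈ cj I) : (E : ℝ) ≤ K * |(j : ℝ)| := by
  -- `g = gcd (E, j)`, `E = g * e`, `j = g * j'`
  obtain ⟨g, e, j', hg, hco, hE, hj'⟩ : ∃ (g e : ℕ) (j' : ℤ), 0 < g ∧ IsCoprime (e : ℤ) j' ∧ E = g * e ∧
      j = g * j' := by
    have hg : 0 < Int.gcd (E : ℤ) j := Int.gcd_pos_of_ne_zero_right _ hj
    obtain ⟨m, n, hco, hm', hn'⟩ := Int.exists_gcd_one hg
    have hgz : (0 : ℤ) < (Int.gcd (E : ℤ) j : ℕ) := by exact_mod_cast hg
    have hm0 : 0 ≤ m := by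
      by_contra hneg
      push Not at hneg
      have h1 : (0 : ℤ) ≤ (E : ℤ) := Int.natCast_nonneg _
      nlinarith
    refine ⟨Int.gcd (E : ℤ) j, m.toNat, n, hg, ?_, ?_, ?_⟩
    · rw [Int.toNat_of_nonneg hm0]
      exact Int.isCoprime_iff_gcd_eq_one.mpr hco
    · have : (E : ℤ) = ((Int.gcd (E : ℤ) j * m.toNat : ℕ) : ℤ) := by
        rw [Nat.cast_mul, Int.toNat_of_nonneg hm0, mul_comm]
        exact hm'
      exact_mod_cast this
    · rw [mul_comm]; exact hn'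
  have hle : I ≤ Ideal.span {(e : ℤ√D)} := by
    intro i hi
    have h1 : (j : ℤ√D) * i ∈ Ideal.span {(E : ℤ√D)} := by
      rw [← hI.2, mul_comm I]
      exact Ideal.mul_mem_mul hm hi
    rw [Ideal.mem_span_singleton] at h1 ⊢
    have h2 : ((E : ℤ) : ℤ√D) ∣ (j : ℤ√D) * i := by
      rwa [Int.cast_natCast]
    rw [Zsqrtd.intCast_dvd] at h2
    have h3 : ((e : ℤ) : ℤ√D) ∣ i := by
      rw [Zsqrtd.intCast_dvd]
      have hgz : (g : ℤ) ≠ 0 := by exact_mod_cast hg.ne'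
      obtain ⟨ha, hb⟩ := h2
      rw [hE, hj'] at ha hb
      constructor
      · apply hco.dvd_of_dvd_mul_left
        apply (mul_dvd_mul_iff_left hgz).mp
        have : (g : ℤ) * (j' * i.re) = (((((g : ℤ) * j' : ℤ) : ℤ√D)) * i).re := by
          rw [Zsqrtd.re_mul]; simp; ring
        rw [this]
        simpa using ha
      · apply hco.dvd_of_dvd_mul_left
        apply (mul_dvd_mul_iff_left hgz).mp
        have : (g : ℤ) * (j' * i.im) = (((((g : ℤ) * j' : ℤ) : ℤ√D)) * i).im := by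
          rw [Zsqrtd.im_mul]; simp; ring
        rw [this]
        simpa using hb
    rwa [Int.cast_natCast] at h3
  have hek : (e : ℝ) ≤ K := hK e hle
  have hg1 : (g : ℝ) ≤ |(j : ℝ)| := by
    have h1 : (g : ℤ) ∣ j := ⟨j', hj'⟩
    have h2 : (g : ℤ) ≤ |j| := Int.le_of_dvd (abs_pos.mpr hj) ((dvd_abs _ _).mpr h1)
    exact_mod_cast h2
  rw [hE]
  push_cast
  have he0 : (0 : ℝ) ≤ (e : ℝ) := Nat.cast_nonneg _
  have hj0 : (0 : ℝ) ≤ |(j : ℝ)| := abs_nonneg _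
  calc (g : ℝ) * e ≤ |(j : ℝ)| * e := by gcongr
    _ ≤ |(j : ℝ)| * K := by gcongr
    _ = K * |(j : ℝ)| := by ring

end Hp

end Pool.Agent.Lib.MP_d8bd92_nt
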