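import Pool.Agent.Lib.MP_d8bd92_nt.Hp.LLG
import Pool.Agent.Lib.MP_d8bd92_nt.Hp.LC1
import Pool.Agent.Lib.MP_d8bd92_nt.Hp.LE
import Pool.Agent.Lib.MP_d8bd92_nt.Hp.LF1
import Pool.Agent.Lib.MP_d8bd92_nt.Hp.LC0

set_option autoImplicit false

/-!
MP_d8bd92_nt, block LL, file LK1.
-/

namespace Pool.Agent.Lib.MP_d8bd92_nt

namespace Hp

open Finset

/-- Row hpLK1.  Facts for two configurations with the same label and EXACT relation: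
`β` from `beta_of_label`, `(f : ℤ) ∣ (β^l).im`, `β^l` balanced and `θ`-real with constant `4 C0^2`
(from `pow_rel`, `im_dvd_of_rel`, `ratio_of_rel` with `P = Ω * star Ω'`; `hh P ≤ 2 C0^2 |norm P|`,
`|D| P.im^2 ≤ 4 C0^2 θ^2 |norm P|` by `im_mul_sq_le`), `norm β = E E' > 0`, `norm β` prime to `f`,
`hh β ≤ 4 C0^2 norm β` by `bal_root`. -/
theorem pair_facts {C0 X K : ℝ} {D : ℤ} {f l : ℕ} {E θ : ℝ} {ι : Type} {S : Finset ι} {Ω : ι → ℤ√D}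
    {I : ι → Ideal (ℤ√D)} {En s : ι → ℕ} {W : Ideal (ℤ√D)} (hC0 : 1 ≤ C0)
    (h : LLG C0 X K D f l E θ S Ω I En s W) {c c' : ι} (hc : c ∈ S) (hc' : c' ∈ S) {e e' β : ℤ√D} {a : ℤ}
    (ha : a ≠ 0) (he : e ≠ 0) (he' : e' ≠ 0) (hn : e.norm = a * En c) (hn' : e'.norm = a * En c')
    (hβ : (a : ℤ√D) * β = e' * star e)
    (hrel : (s c : ℤ√D) * e ^ l * Ω c' = (s c' : ℤ√D) * e' ^ l * Ω c) :
    β.norm = (En c : ℤ) * En c' ∧ 0 < β.norm ∧ IsCoprime β.norm (f : ℤ) ∧ (f : ℤ) ∣ (β ^ l).im ∧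
      ((hh (β ^ l) : ℤ) : ℝ) ≤ 4 * C0 ^ 2 * (((β ^ l).norm : ℤ) : ℝ) ∧
      (((|D| * (β ^ l).im ^ 2 : ℤ)) : ℝ) ≤ 4 * C0 ^ 2 * θ ^ 2 * (((β ^ l).norm : ℤ) : ℝ) ∧
      ((hh β : ℤ) : ℝ) ≤ 4 * C0 ^ 2 * ((β.norm : ℤ) : ℝ) := by
  have hD0 : D ≠ 0 := by
    intro h0
    exact h.hD 0 (by rw [h0]; ring)
  have norm_ne : ∀ z : ℤ√D, z ≠ 0 → z.norm ≠ 0 := by
    intro z hz h0
    exact hz ((Zsqrtd.norm_eq_zero h.hD z).mp h0)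
  have hEc : (0 : ℤ) < (En c : ℤ) := by
    have := (h.hn c hc).1
    omega
  have hEc' : (0 : ℤ) < (En c' : ℤ) := by
    have := (h.hn c' hc').1
    omega
  -- the norm of `β`
  have hβn : β.norm = (En c : ℤ) * En c' := by
    have h1 := congrArg Zsqrtd.norm hβ
    rw [norm_int_mul, Zsqrtd.norm_mul, norm_star, hn, hn'] at h1
    have h2 : a ^ 2 * β.norm = a ^ 2 * ((En c : ℤ) * En c') := by rw [h1]; ring
    exact mul_left_cancel₀ (pow_ne_zero 2 ha) h2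
  have hβpos : 0 < β.norm := by rw [hβn]; exact mul_pos hEc hEc'
  have hcop : IsCoprime β.norm (f : ℤ) := by
    rw [hβn]
    exact IsCoprime.mul_left (h.E_cop c hc) (h.E_cop c' hc')
  -- the relation
  set P : ℤ√D := Ω c * star (Ω c') with hP
  have hrel2 := pow_rel hβ hrel
  rw [← hP] at hrel2
  have hj : ((s c' : ℤ) * a ^ l) ≠ 0 := by
    apply mul_ne_zero
    · have := h.s_pos c' hc'
      omega
    · exact pow_ne_zero _ ha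
  have hk : ((s c : ℤ) * e.norm ^ l * (Ω c').norm) ≠ 0 := by
    apply mul_ne_zero (mul_ne_zero _ (pow_ne_zero _ (norm_ne e he))) (norm_ne _ (h.nz c' hc'))
    have := h.s_pos c hc
    omega
  have hPim : (f : ℤ) ∣ P.im := by
    have h1 : P.im = (Ω c).re * (-(Ω c').im) + (Ω c).im * (Ω c').re := by
      rw [hP]
      simp [Zsqrtd.im_mul]
    rw [h1]
    exact dvd_add (Dvd.dvd.mul_left ((dvd_neg).mpr (h.im_dvd c' hc')) _) (Dvd.dvd.mul_right (h.im_dvd c hc) _)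
  have hPn : P.norm = (Ω c).norm * (Ω c').norm := by
    rw [hP, Zsqrtd.norm_mul, norm_star]
  have hPcop : IsCoprime P.norm (f : ℤ) := by
    rw [hPn]
    exact IsCoprime.mul_left (h.cop c hc) (h.cop c' hc')
  have hfd : (f : ℤ) ∣ (β ^ l).im := im_dvd_of_rel hj hrel2 hPim hPcop
  obtain ⟨hr1, hr2⟩ := ratio_of_rel hj hk hrel2
  -- sizes
  have hPabs : |P.norm| = |(Ω c).norm| * |(Ω c').norm| := by rw [hPn, abs_mul]
  have hPpos : (0 : ℤ) < |P.norm| := by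
    rw [hPabs]
    exact mul_pos (abs_pos.mpr (norm_ne _ (h.nz c hc))) (abs_pos.mpr (norm_ne _ (h.nz c' hc')))
  have hPposR : (0 : ℝ) < ((|P.norm| : ℤ) : ℝ) := by exact_mod_cast hPpos
  set N1 : ℝ := ((|(Ω c).norm| : ℤ) : ℝ) with hN1
  set N2 : ℝ := ((|(Ω c').norm| : ℤ) : ℝ) with hN2
  have hN1p : 0 ≤ N1 := by rw [hN1]; exact_mod_cast abs_nonneg _
  have hN2p : 0 ≤ N2 := by rw [hN2]; exact_mod_cast abs_nonneg _
  have hPR : ((|P.norm| : ℤ) : ℝ) = N1 * N2 := by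
    rw [hPabs, hN1, hN2]; push_cast; ring
  have hb1 := h.bal c hc
  have hb2 := h.bal c' hc'
  have ht1 := h.real c hc
  have ht2 := h.real c' hc'
  rw [← hN1] at hb1 ht1
  rw [← hN2] at hb2 ht2
  have hC0p : 0 ≤ C0 := by linarith
  have hh1 : (0 : ℝ) ≤ ((hh (Ω c) : ℤ) : ℝ) := by exact_mod_cast hh_nonneg _
  have hh2 : (0 : ℝ) ≤ ((hh (Ω c') : ℤ) : ℝ) := by exact_mod_cast hh_nonneg _
  have hi1 : (0 : ℝ) ≤ (((|D| * (Ω c).im ^ 2 : ℤ)) : ℝ) := Int.cast_nonneg (mul_nonneg (abs_nonneg _) (sq_nonneg _))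
  have hi2 : (0 : ℝ) ≤ (((|D| * (Ω c').im ^ 2 : ℤ)) : ℝ) := Int.cast_nonneg (mul_nonneg (abs_nonneg _) (sq_nonneg _))
  have hhP : ((hh P : ℤ) : ℝ) ≤ 2 * C0 ^ 2 * (N1 * N2) := by
    have h1 : hh P ≤ 2 * hh (Ω c) * hh (Ω c') := by
      have := hh_mul_le (Ω c) (star (Ω c'))
      rwa [hh_star] at this
    have h2 : ((hh P : ℤ) : ℝ) ≤ 2 * ((hh (Ω c) : ℤ) : ℝ) * ((hh (Ω c') : ℤ) : ℝ) := by exact_mod_cast h1
    have h3 : ((hh (Ω c) : ℤ) : ℝ) * ((hh (Ω c') : ℤ) : ℝ) ≤ (C0 * N1) * (C0 * N2) :=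
      mul_le_mul hb1 hb2 hh2 (mul_nonneg hC0p hN1p)
    linarith only [h2, h3]
  have hiP : (((|D| * P.im ^ 2 : ℤ)) : ℝ) ≤ 4 * C0 ^ 2 * θ ^ 2 * (N1 * N2) := by
    have h1 : |D| * P.im ^ 2 ≤ 2 * (|D| * (Ω c).im ^ 2 * hh (Ω c') + hh (Ω c) * (|D| * (Ω c').im ^ 2)) := by
      have := im_mul_sq_le (Ω c) (star (Ω c'))
      rw [hh_star, ← hP] at this
      have h9 : (star (Ω c')).im ^ 2 = (Ω c').im ^ 2 := by simp
      rwa [h9] at this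
    have h2 : (((|D| * P.im ^ 2 : ℤ)) : ℝ) ≤ 2 * ((((|D| * (Ω c).im ^ 2 : ℤ)) : ℝ) * ((hh (Ω c') : ℤ) : ℝ) +
        ((hh (Ω c) : ℤ) : ℝ) * (((|D| * (Ω c').im ^ 2 : ℤ)) : ℝ)) := by exact_mod_cast h1
    have h3 : (((|D| * (Ω c).im ^ 2 : ℤ)) : ℝ) * ((hh (Ω c') : ℤ) : ℝ) ≤ (C0 * θ ^ 2 * N1) * (C0 * N2) :=
      mul_le_mul ht1 hb2 hh2 (mul_nonneg (mul_nonneg hC0p (sq_nonneg _)) hN1p)
    have h4 : ((hh (Ω c) : ℤ) : ℝ) * (((|D| * (Ω c').im ^ 2 : ℤ)) : ℝ) ≤ (C0 * N1) * (C0 * θ ^ 2 * N2) :=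
      mul_le_mul hb1 ht2 hi2 (mul_nonneg hC0p hN1p)
    linarith only [h2, h3, h4]
  have hβln : (β ^ l).norm = β.norm ^ l := by
    exact map_pow (Zsqrtd.normMonoidHom (d := D)) β l
  have hβlpos : 0 < (β ^ l).norm := by rw [hβln]; exact pow_pos hβpos l
  have hβlabs : |(β ^ l).norm| = (β ^ l).norm := abs_of_pos hβlpos
  rw [hβlabs] at hr1 hr2
  have hβlR : (0 : ℝ) < (((β ^ l).norm : ℤ) : ℝ) := by exact_mod_cast hβlpos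
  have hbal2 : ((hh (β ^ l) : ℤ) : ℝ) ≤ 2 * C0 ^ 2 * (((β ^ l).norm : ℤ) : ℝ) := by
    have h1 : ((hh (β ^ l) : ℤ) : ℝ) * ((|P.norm| : ℤ) : ℝ) = ((hh P : ℤ) : ℝ) * (((β ^ l).norm : ℤ) : ℝ) := by
      exact_mod_cast hr1
    rw [← hPR] at hhP
    have h2 : ((hh (β ^ l) : ℤ) : ℝ) * ((|P.norm| : ℤ) : ℝ) ≤
        (2 * C0 ^ 2 * (((β ^ l).norm : ℤ) : ℝ)) * ((|P.norm| : ℤ) : ℝ) := by
      rw [h1]
      have := mul_le_mul_of_nonneg_right hhP hβlR.le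
      linarith only [this]
    exact le_of_mul_le_mul_right h2 hPposR
  refine ⟨hβn, hβpos, hcop, hfd, ?_, ?_, ?_⟩
  · have : 0 ≤ C0 ^ 2 * (((β ^ l).norm : ℤ) : ℝ) := mul_nonneg (sq_nonneg _) hβlR.le
    linarith only [hbal2, this]
  · have h1 : (((|D| * (β ^ l).im ^ 2 : ℤ)) : ℝ) * ((|P.norm| : ℤ) : ℝ) =
        (((|D| * P.im ^ 2 : ℤ)) : ℝ) * (((β ^ l).norm : ℤ) : ℝ) := by
      have : |D| * (β ^ l).im ^ 2 * |P.norm| = |D| * P.im ^ 2 * (β ^ l).norm := by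
        rw [mul_assoc, hr2]; ring
      exact_mod_cast this
    rw [← hPR] at hiP
    have h2 : (((|D| * (β ^ l).im ^ 2 : ℤ)) : ℝ) * ((|P.norm| : ℤ) : ℝ) ≤
        (4 * C0 ^ 2 * θ ^ 2 * (((β ^ l).norm : ℤ) : ℝ)) * ((|P.norm| : ℤ) : ℝ) := by
      rw [h1]
      have := mul_le_mul_of_nonneg_right hiP hβlR.le
      linarith only [this]
    exact le_of_mul_le_mul_right h2 hPposR
  · have h1 := bal_root h.hD β l h.hl
    rw [abs_of_pos hβpos] at h1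
    have h2 : ((hh β : ℤ) : ℝ) * ((β.norm : ℤ) : ℝ) ^ (l - 1) ≤ ((hh (β ^ l) : ℤ) : ℝ) := by exact_mod_cast h1
    have h3 : (((β ^ l).norm : ℤ) : ℝ) = ((β.norm : ℤ) : ℝ) * ((β.norm : ℤ) : ℝ) ^ (l - 1) := by
      rw [hβln]
      push_cast
      rw [← pow_succ', Nat.sub_add_cancel h.hl]
    have hp : (0 : ℝ) < ((β.norm : ℤ) : ℝ) := by exact_mod_cast hβpos
    have h4 : ((hh β : ℤ) : ℝ) * ((β.norm : ℤ) : ℝ) ^ (l - 1) ≤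
        (4 * C0 ^ 2 * ((β.norm : ℤ) : ℝ)) * ((β.norm : ℤ) : ℝ) ^ (l - 1) := by
      have h5 : 0 ≤ C0 ^ 2 * (((β ^ l).norm : ℤ) : ℝ) := mul_nonneg (sq_nonneg _) hβlR.le
      calc ((hh β : ℤ) : ℝ) * ((β.norm : ℤ) : ℝ) ^ (l - 1) ≤ ((hh (β ^ l) : ℤ) : ℝ) := h2
        _ ≤ 2 * C0 ^ 2 * (((β ^ l).norm : ℤ) : ℝ) := hbal2
        _ ≤ 4 * C0 ^ 2 * (((β ^ l).norm : ℤ) : ℝ) := by linarith only [h5]
        _ = _ := by rw [h3]; ring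
    exact le_of_mul_le_mul_right h4 (pow_pos hp _)

end Hp

end Pool.Agent.Lib.MP_d8bd92_nt
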