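import Pool.Agent.Lib.MP_d8bd92_nt.Hp.LadDefs

set_option autoImplicit false

/-!
Ladder block: at most four ideals at the prime 2.
-/

namespace Pool.Agent.Lib.MP_d8bd92_nt

namespace Hp

open Finset Pool.Agent.Lib.Szpiro

open scoped Classical in
/-- at most four 2-parts `(2^e, z)`.  Proof: `e = 0`: `lbl_one`, one ideal.  `e ≥ 1`: if `P` is nonempty then for `w ∈ P` the number
`w.1` is even (`h.fac`), prime to `w.2 = y = f^2 D` (`h.cop`), so `D` is odd; every `lbl (2^e) (zz w)` is an `idl D (2^e) r` with `2^e ∣ r^2 - D`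
by `lbl_eq_idl` (`2^e ∣ norm = w.1`; `h.norm`, `h.ncop`, `h.fac`); `card_two`. -/
theorem lad_two {Z RA Rc T m m' : ℝ} {y D : ℤ} {f e l : ℕ} {P : Finset (ℤ × ℤ)} {A B c t : ℤ × ℤ → ℕ}
    (h : LadData Z RA Rc T m m' y D f e l P A B c t) :
    (P.image (fun w => lbl (2 ^ e) (zz D f w))).card ≤ 4 := by
  by_cases he : e = 0
  · subst he
    have h1 : P.image (fun w => lbl (2 ^ 0) (zz D f w)) ⊆ {(⊤ : Ideal (ℤ√D))} := by
      intro I hI
      obtain ⟨w, _, rfl⟩ := Finset.mem_image.1 hI
      rw [Finset.mem_singleton, pow_zero, lbl_one]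
    have h2 := Finset.card_le_card h1
    rw [Finset.card_singleton] at h2
    omega
  · rcases P.eq_empty_or_nonempty with rfl | ⟨w, hw⟩
    · simp
    · have hpow : ∀ w ∈ P, ((2 ^ e : ℕ) : ℤ) ∣ w.1 := by
        intro w hw
        rw [Int.natCast_dvd, h.fac w hw]
        exact ⟨A w * B w * c w * t w ^ l, by ring⟩
      have hDodd : Odd D := by
        by_contra hcon
        rw [Int.not_odd_iff_even] at hcon
        have h1 : (2 : ℤ) ∣ w.1 := by
          refine dvd_trans ?_ (hpow w hw)
          push_cast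
          exact dvd_pow_self _ he
        have h2 : (2 : ℤ) ∣ w.2 := by
          rw [h.snd w hw, h.hy]
          exact (even_iff_two_dvd.1 hcon).mul_left _
        have h3 := (h.cop w hw).isUnit_of_dvd' h1 h2
        rw [Int.isUnit_iff] at h3
        omega
      refine card_two hDodd e _ ?_
      intro I hI
      obtain ⟨w', hw', rfl⟩ := Finset.mem_image.1 hI
      obtain ⟨r, h1, _, h3⟩ := lbl_eq_idl (zz D f w') (A := 2 ^ e) Nat.one_le_two_pow
        (by rw [h.norm hw']; exact hpow w' hw') (h.ncop hw')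
      exact ⟨r, h1, h3⟩

end Hp

end Pool.Agent.Lib.MP_d8bd92_nt
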