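import Pool.Agent.Lib.MP_d8bd92_nt.Hp.LadDefs

set_option autoImplicit false

/-!
Ladder block: number of labels.
-/

namespace Pool.Agent.Lib.MP_d8bd92_nt

namespace Hp

open Finset Pool.Agent.Lib.Szpiro

/-- a label is an ideal of the form counted by `card_idl_le` -/
private theorem LadC_lab {Z RA Rc T m m' : ℝ} {y D : ℤ} {f e l : ℕ} {P : Finset (ℤ × ℤ)} {A B c t : ℤ × ℤ → ℕ}
    (h : LadData Z RA Rc T m m' y D f e l P A B c t) {w : ℤ × ℤ} (hw : w ∈ P) {a : ℕ} (ha : Odd a)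
    (hd : (a : ℤ) ∣ (zz D f w).norm) {X : ℝ} (hr : (rd a : ℝ) ≤ X) :
    ∃ (A' : ℕ) (r : ℤ), 1 ≤ A' ∧ (A' : ℝ) ≤ Z ∧ Odd A' ∧ IsCoprime (A' : ℤ) D ∧ (rd A' : ℝ) ≤ X ∧
      (A' : ℤ) ∣ r ^ 2 - D ∧ lbl a (zz D f w) = idl D A' r := by
  have ha1 : 1 ≤ a := ha.pos
  obtain ⟨r, hr1, _, hr3⟩ := lbl_eq_idl (zz D f w) ha1 hd (h.ncop hw)
  refine ⟨a, r, ha1, ?_, ha, ?_, hr, hr1, hr3⟩
  · have h1 : (a : ℤ) ∣ w.1 := by rw [← h.norm hw]; exact hd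
    have h2 : a ∣ w.1.natAbs := Int.natCast_dvd.1 h1
    have h3 : a ≤ w.1.natAbs := Nat.le_of_dvd (Int.natAbs_pos.2 (h.nz w hw)) h2
    exact le_trans (by exact_mod_cast h3) (h.bd w hw)
  · exact ((h.ncop hw).of_mul_right_right).of_isCoprime_of_dvd_left hd

open scoped Classical in
/-- number of labels.  Proof: `card_idl_le` (with this `ε`), every label is an `idl D A r` by `lbl_eq_idl` (`h.dvd`, `h.ncop`); `A ∣ w.1` gives
`A ≤ Z` and `A` prime to `D` (`h.cop`, `h.hy`). -/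
theorem lad_labels (ε : ℝ) (hε : 0 < ε) : ∃ C : ℝ, 1 ≤ C ∧ ∀ (Z RA Rc T m m' : ℝ) (y D : ℤ) (f e l : ℕ) (P : Finset (ℤ × ℤ))
    (A B c t : ℤ × ℤ → ℕ), LadData Z RA Rc T m m' y D f e l P A B c t →
    ((P.image (fun w => lbl (A w) (zz D f w))).card : ℝ) ≤ C * Z ^ ε * RA ∧
    ((P.image (fun w => lbl (c w) (zz D f w))).card : ℝ) ≤ C * Z ^ ε * Rc := by
  obtain ⟨C, hC, hc⟩ := card_idl_le ε hε
  refine ⟨max C 1, le_max_right _ _, ?_⟩
  intro Z RA Rc T m m' y D f e l P A B c t h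
  have hZ0 : (0 : ℝ) ≤ Z := le_trans zero_le_one h.hZ
  have hZp : (0 : ℝ) ≤ Z ^ ε := Real.rpow_nonneg hZ0 _
  have hRA : (0 : ℝ) ≤ RA := le_trans zero_le_one h.hRA
  have hRc : (0 : ℝ) ≤ Rc := le_trans zero_le_one h.hRc
  have hm : C ≤ max C 1 := le_max_left _ _
  constructor
  · refine (hc D Z RA _ h.hZ h.hRA ?_).trans (by gcongr)
    intro I hI
    obtain ⟨w, hw, rfl⟩ := Finset.mem_image.1 hI
    exact LadC_lab h hw (h.oA w hw) (h.dvd hw).1 (h.rA w hw)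
  · refine (hc D Z Rc _ h.hZ h.hRc ?_).trans (by gcongr)
    intro I hI
    obtain ⟨w, hw, rfl⟩ := Finset.mem_image.1 hI
    exact LadC_lab h hw (h.oc w hw) (h.dvd hw).2.2.1 (h.rc w hw)

open scoped Classical in
/-- number of pair labels.  Proof: the image of `F` under `plbl D f A` is contained in the image of the product of the two sets of
labels of `lad_labels` under `(I, J) ↦ I * cj J`; use `lad_labels (ε / 2)`. -/
theorem lad_plabels (ε : ℝ) (hε : 0 < ε) : ∃ C : ℝ, 1 ≤ C ∧ ∀ (Z RA Rc T m m' : ℝ) (y D : ℤ) (f e l : ℕ) (P : Finset (ℤ × ℤ))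
    (A B c t : ℤ × ℤ → ℕ), LadData Z RA Rc T m m' y D f e l P A B c t → ∀ F : Finset ((ℤ × ℤ) × (ℤ × ℤ)),
    (∀ p ∈ F, p.1 ∈ P ∧ p.2 ∈ P) →
    ((F.image (plbl D f A)).card : ℝ) ≤ C * Z ^ ε * RA ^ 2 := by
  obtain ⟨C, hC, hc⟩ := lad_labels (ε / 2) (by positivity)
  refine ⟨C ^ 2, one_le_pow₀ hC, ?_⟩
  intro Z RA Rc T m m' y D f e l P A B c t h F hF
  have hZ0 : (0 : ℝ) < Z := lt_of_lt_of_le zero_lt_one h.hZ
  have h1 := (hc Z RA Rc T m m' y D f e l P A B c t h).1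
  set L : Finset (Ideal (ℤ√D)) := P.image (fun w => lbl (A w) (zz D f w)) with hL
  have hsub : F.image (plbl D f A) ⊆ (L ×ˢ L).image (fun x => x.1 * cj x.2) := by
    intro I hI
    obtain ⟨p, hp, rfl⟩ := Finset.mem_image.1 hI
    refine Finset.mem_image.2 ⟨(lbl (A p.1) (zz D f p.1), lbl (A p.2) (zz D f p.2)), ?_, rfl⟩
    exact Finset.mem_product.2 ⟨Finset.mem_image.2 ⟨p.1, (hF p hp).1, rfl⟩, Finset.mem_image.2 ⟨p.2, (hF p hp).2, rfl⟩⟩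
  have hcard : (F.image (plbl D f A)).card ≤ L.card * L.card :=
    ((Finset.card_le_card hsub).trans Finset.card_image_le).trans (Finset.card_product L L).le
  have hZ2 : Z ^ (ε / 2) * Z ^ (ε / 2) = Z ^ ε := by
    rw [← Real.rpow_add hZ0]
    congr 1
    ring
  calc ((F.image (plbl D f A)).card : ℝ) ≤ (L.card : ℝ) * (L.card : ℝ) := by exact_mod_cast hcard
    _ ≤ (C * Z ^ (ε / 2) * RA) * (C * Z ^ (ε / 2) * RA) := by
        have : (0 : ℝ) ≤ C * Z ^ (ε / 2) * RA := le_trans (by positivity) h1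
        gcongr
    _ = C ^ 2 * (Z ^ (ε / 2) * Z ^ (ε / 2)) * RA ^ 2 := by ring
    _ = C ^ 2 * Z ^ ε * RA ^ 2 := by rw [hZ2]

end Hp

end Pool.Agent.Lib.MP_d8bd92_nt
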