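import Pool.Agent.Lib.MP_d8bd92_nt.Hp.LadA
import Pool.Agent.Lib.MP_d8bd92_nt.Hp.LadB
import Pool.Agent.Lib.MP_d8bd92_nt.Hp.LadC

set_option autoImplicit false

/-!
Ladder block: many pairs.
-/

namespace Pool.Agent.Lib.MP_d8bd92_nt

namespace Hp

open Finset Pool.Agent.Lib.Szpiro

/-- `log Z` is small -/
theorem lad_log (ε : ℝ) (hε : 0 < ε) : ∃ C : ℝ, 1 ≤ C ∧ ∀ (Z : ℝ) (n : ℕ), 1 ≤ Z → 1 ≤ n → (n : ℝ) ≤ Z ^ 2 →
    ((Nat.log 2 n + 1 : ℕ) : ℝ) ≤ C * Z ^ ε := by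
  have hl2 : 0 < Real.log 2 := Real.log_pos (by norm_num)
  refine ⟨2 / (ε * Real.log 2) + 1, by have h0 : 0 < 2 / (ε * Real.log 2) := by positivity
                                       linarith only [h0], ?_⟩
  intro Z n hZ hn hnZ
  have hZ0 : 0 < Z := lt_of_lt_of_le one_pos hZ
  have hnR : (1 : ℝ) ≤ (n : ℝ) := by exact_mod_cast hn
  have h1 : ((2 : ℝ)) ^ (Nat.log 2 n) ≤ (n : ℝ) := by
    exact_mod_cast Nat.pow_log_le_self 2 (by omega)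
  have h2 : (Nat.log 2 n : ℝ) * Real.log 2 ≤ Real.log n := by
    rw [← Real.log_pow]
    exact Real.log_le_log (by positivity) h1
  have h3 : Real.log n ≤ 2 * Real.log Z := by
    have h4 : Real.log n ≤ Real.log (Z ^ 2) := Real.log_le_log (lt_of_lt_of_le one_pos hnR) hnZ
    rw [Real.log_pow] at h4
    exact_mod_cast h4
  have h5 : Real.log Z ≤ Z ^ ε / ε := Real.log_le_rpow_div hZ0.le hε
  have h6 : (1 : ℝ) ≤ Z ^ ε := Real.one_le_rpow hZ hε.le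
  have h7 : (Nat.log 2 n : ℝ) ≤ 2 / (ε * Real.log 2) * Z ^ ε := by
    have h8 : (Nat.log 2 n : ℝ) * Real.log 2 ≤ 2 * (Z ^ ε / ε) := by linarith only [h2, h3, h5]
    have h9 : (Nat.log 2 n : ℝ) ≤ 2 * (Z ^ ε / ε) / Real.log 2 := (le_div_iff₀ hl2).mpr h8
    calc (Nat.log 2 n : ℝ) ≤ 2 * (Z ^ ε / ε) / Real.log 2 := h9
      _ = 2 / (ε * Real.log 2) * Z ^ ε := by field_simp
  push_cast
  calc (Nat.log 2 n : ℝ) + 1 ≤ 2 / (ε * Real.log 2) * Z ^ ε + Z ^ ε := by linarith only [h7, h6]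
    _ = (2 / (ε * Real.log 2) + 1) * Z ^ ε := by ring

private theorem ladD_tle {Z RA Rc T m m' : ℝ} {y D : ℤ} {f e l : ℕ} {P : Finset (ℤ × ℤ)} {A B c t : ℤ × ℤ → ℕ}
    (h : LadData Z RA Rc T m m' y D f e l P A B c t) {w : ℤ × ℤ} (hw : w ∈ P) : (t w : ℝ) ≤ Z := by
  have h1 := h.fac w hw
  have h2 := h.bd w hw
  have h3 : w.1.natAbs ≠ 0 := Int.natAbs_ne_zero.mpr (h.nz w hw)
  have hl := h.hl
  have h4 : t w ∣ w.1.natAbs := by
    rw [h1]; exact (dvd_pow_self _ (by omega)).mul_left _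
  have h5 : t w ≤ w.1.natAbs := Nat.le_of_dvd (Nat.pos_of_ne_zero h3) h4
  have h6 : (t w : ℝ) ≤ (w.1.natAbs : ℝ) := by exact_mod_cast h5
  exact h6.trans h2

private theorem ladD_ceq {Z RA Rc T m m' : ℝ} {y D : ℤ} {f e l : ℕ} {P : Finset (ℤ × ℤ)} {A B c t : ℤ × ℤ → ℕ}
    (h : LadData Z RA Rc T m m' y D f e l P A B c t) {w w' : ℤ × ℤ} (hw : w ∈ P) (hw' : w' ∈ P)
    (he : lbl (c w) (zz D f w) = lbl (c w') (zz D f w')) : c w = c w' := by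
  refine (lbl_inj (zz D f w) (zz D f w') ?_ ?_ (h.dvd hw).2.2.1 (h.dvd hw').2.2.1 (h.ncop hw) (h.ncop hw') he).1
  · have := (h.oc w hw).pos; omega
  · have := (h.oc w' hw').pos; omega

open scoped Classical in
private theorem ladD_main (ε : ℝ) (hε : 0 < ε) : ∃ C : ℝ, 1 ≤ C ∧ ∀ (Z RA Rc T m m' : ℝ) (y D : ℤ) (f e l : ℕ) (P : Finset (ℤ × ℤ))
    (A B c t : ℤ × ℤ → ℕ), LadData Z RA Rc T m m' y D f e l P A B c t → C * Z ^ ε * Rc * m' ≤ (P.card : ℝ) →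
    ∃ (q : Ideal (ℤ√D)) (E : ℝ) (F : Finset ((ℤ × ℤ) × (ℤ × ℤ))), 1 ≤ E ∧ E ≤ T ^ 2 ∧ E ≤ Z ^ 2 ∧ F.Nonempty ∧
      (∀ p ∈ F, p.1 ∈ P ∧ p.2 ∈ P ∧ lbl (2 ^ e) (zz D f p.1) = q ∧ lbl (2 ^ e) (zz D f p.2) = q ∧
        lbl (c p.1) (zz D f p.1) = lbl (c p.2) (zz D f p.2) ∧ t p.1 ≠ t p.2 ∧
        E ≤ ((t p.1 * t p.2 : ℕ) : ℝ) ∧ ((t p.1 * t p.2 : ℕ) : ℝ) ≤ 2 * E) ∧
      (P.card : ℝ) ^ 2 ≤ C * Z ^ ε * Rc * (F.card : ℝ) := by
  obtain ⟨C1, hC1, hL⟩ := lad_labels (ε / 2) (by positivity)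
  obtain ⟨C2, hC2, hG⟩ := lad_log (ε / 2) (by positivity)
  have hC12 : 1 ≤ 32 * C1 * C2 := by nlinarith only [hC1, hC2]
  refine ⟨32 * C1 * C2, hC12, ?_⟩
  intro Z RA Rc T m m' y D f e l P A B c t h hP
  have hZ := h.hZ
  have hRc := h.hRc
  have hm' := h.hm'
  have hZ0 : 0 < Z := lt_of_lt_of_le one_pos hZ
  have hC10 : 0 ≤ C1 := zero_le_one.trans hC1
  have hC20 : 0 ≤ C2 := zero_le_one.trans hC2
  have hRc0 : 0 < Rc := lt_of_lt_of_le one_pos hRc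
  have hm0 : 0 < m' := lt_of_lt_of_le one_pos hm'
  have hz1 : (1 : ℝ) ≤ Z ^ (ε / 2) := Real.one_le_rpow hZ (half_pos hε).le
  have hz0 : (0 : ℝ) ≤ Z ^ (ε / 2) := zero_le_one.trans hz1
  have hzz : Z ^ ε = Z ^ (ε / 2) * Z ^ (ε / 2) := by
    rw [← Real.rpow_add hZ0]; congr 1; ring
  obtain ⟨q, hq⟩ := lad_pigeon P (fun w => lbl (2 ^ e) (zz D f w)) 4 (by exact_mod_cast lad_two h)
  set P1 : Finset (ℤ × ℤ) := P.filter (fun w => lbl (2 ^ e) (zz D f w) = q) with hP1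
  have hP1P : P1 ⊆ P := Finset.filter_subset _ _
  set N : ℝ := C1 * Z ^ (ε / 2) * Rc with hN
  have hN0 : 0 ≤ N := by
    exact mul_nonneg (mul_nonneg hC10 hz0) hRc0.le
  have hNc : ((P1.image (fun w => lbl (c w) (zz D f w))).card : ℝ) ≤ N := by
    have h1 := (hL Z RA Rc T m m' y D f e l P A B c t h).2
    have h2 : (P1.image (fun w => lbl (c w) (zz D f w))).card ≤ (P.image (fun w => lbl (c w) (zz D f w))).card :=
      Finset.card_le_card (Finset.image_subset_image hP1P)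
    have h3 : ((P1.image (fun w => lbl (c w) (zz D f w))).card : ℝ) ≤
        ((P.image (fun w => lbl (c w) (zz D f w))).card : ℝ) := by exact_mod_cast h2
    exact h3.trans h1
  have hCS := lad_cauchy P1 (fun w => lbl (c w) (zz D f w)) N hNc
  set G : Finset ((ℤ × ℤ) × (ℤ × ℤ)) :=
    (P1 ×ˢ P1).filter (fun p => lbl (c p.1) (zz D f p.1) = lbl (c p.2) (zz D f p.2)) with hGdef
  set F0 : Finset ((ℤ × ℤ) × (ℤ × ℤ)) := G.filter (fun p => ¬ t p.1 = t p.2) with hF0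
  set G1 : Finset ((ℤ × ℤ) × (ℤ × ℤ)) := G.filter (fun p => t p.1 = t p.2) with hG1def
  have hsum : (G.card : ℝ) = (G1.card : ℝ) + (F0.card : ℝ) := by
    have := Finset.card_filter_add_card_filter_not (s := G) (fun p => t p.1 = t p.2)
    exact_mod_cast this.symm
  have hG1c : (G1.card : ℝ) ≤ (P1.card : ℝ) * m' := by
    have h1 : G1.card = ∑ b ∈ P1, (G1.filter (fun p => p.1 = b)).card := by
      refine Finset.card_eq_sum_card_fiberwise ?_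
      intro p hp
      have hp1 : p ∈ G1 := hp
      rw [hG1def, Finset.mem_filter, hGdef, Finset.mem_filter, Finset.mem_product] at hp1
      exact hp1.1.1.1
    rw [h1]
    push_cast
    calc (∑ b ∈ P1, ((G1.filter (fun p => p.1 = b)).card : ℝ)) ≤ ∑ _b ∈ P1, m' := by
          refine Finset.sum_le_sum ?_
          intro b hb
          refine le_trans ?_ (h.mct b (hP1P hb))
          have h2 : (G1.filter (fun p => p.1 = b)).card ≤
              (P.filter (fun w' => c w' = c b ∧ t w' = t b)).card := by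
            refine Finset.card_le_card_of_injOn Prod.snd ?_ ?_
            · intro p hp
              have hp1 : p ∈ G1.filter (fun p => p.1 = b) := hp
              rw [Finset.mem_filter, hG1def, Finset.mem_filter, hGdef, Finset.mem_filter, Finset.mem_product] at hp1
              obtain ⟨⟨⟨⟨h3, h4⟩, h5⟩, h6⟩, h7⟩ := hp1
              have h8 := ladD_ceq h (hP1P h3) (hP1P h4) h5
              rw [h7] at h8 h6
              exact Finset.mem_coe.mpr (Finset.mem_filter.mpr ⟨hP1P h4, h8.symm, h6.symm⟩)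
            · intro p hp p' hp' hpp
              have hp1 : p ∈ G1.filter (fun p => p.1 = b) := hp
              have hp2 : p' ∈ G1.filter (fun p => p.1 = b) := hp'
              rw [Finset.mem_filter] at hp1 hp2
              exact Prod.ext (hp1.2.trans hp2.2.symm) hpp
          exact_mod_cast h2
      _ = (P1.card : ℝ) * m' := by rw [Finset.sum_const, nsmul_eq_mul]
  have hP1c : (0 : ℝ) ≤ (P1.card : ℝ) := Nat.cast_nonneg _
  have hPc : (0 : ℝ) ≤ (P.card : ℝ) := Nat.cast_nonneg _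
  have hNm : N * m' ≤ (P1.card : ℝ) / 2 := by
    have h1 : 8 * (N * m') ≤ 32 * C1 * C2 * Z ^ ε * Rc * m' := by
      rw [hzz, hN]
      have h2 : 0 ≤ C1 * Z ^ (ε / 2) * Rc * m' := mul_nonneg hN0 hm0.le
      have h2' : 0 ≤ 8 * (C1 * Z ^ (ε / 2) * Rc * m') := by linarith only [h2]
      have h3 : (1 : ℝ) ≤ 4 * C2 * Z ^ (ε / 2) := by nlinarith only [hC2, hz1]
      calc 8 * (C1 * Z ^ (ε / 2) * Rc * m') = 8 * (C1 * Z ^ (ε / 2) * Rc * m') * 1 := by ring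
        _ ≤ 8 * (C1 * Z ^ (ε / 2) * Rc * m') * (4 * C2 * Z ^ (ε / 2)) :=
            mul_le_mul_of_nonneg_left h3 h2'
        _ = 32 * C1 * C2 * (Z ^ (ε / 2) * Z ^ (ε / 2)) * Rc * m' := by ring
    have h4 : 8 * (N * m') ≤ 4 * (P1.card : ℝ) := (h1.trans hP).trans hq
    linarith only [h4]
  have hmain : (P1.card : ℝ) ^ 2 ≤ 2 * N * (F0.card : ℝ) := by
    have h1 : N * (G1.card : ℝ) ≤ (P1.card : ℝ) ^ 2 / 2 := by
      calc N * (G1.card : ℝ) ≤ N * ((P1.card : ℝ) * m') := mul_le_mul_of_nonneg_left hG1c hN0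
        _ = (P1.card : ℝ) * (N * m') := by ring
        _ ≤ (P1.card : ℝ) * ((P1.card : ℝ) / 2) := mul_le_mul_of_nonneg_left hNm hP1c
        _ = (P1.card : ℝ) ^ 2 / 2 := by ring
    have h2 : N * (G.card : ℝ) = N * (G1.card : ℝ) + N * (F0.card : ℝ) := by rw [hsum]; ring
    linarith only [hCS, h1, h2]
  -- colours
  have hmemF0 : ∀ p ∈ F0, p.1 ∈ P1 ∧ p.2 ∈ P1 ∧ lbl (c p.1) (zz D f p.1) = lbl (c p.2) (zz D f p.2) ∧
      t p.1 ≠ t p.2 := by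
    intro p hp
    rw [hF0, Finset.mem_filter, hGdef, Finset.mem_filter, Finset.mem_product] at hp
    exact ⟨hp.1.1.1, hp.1.1.2, hp.1.2, hp.2⟩
  have htt : ∀ p ∈ F0, 1 ≤ t p.1 * t p.2 ∧ ((t p.1 * t p.2 : ℕ) : ℝ) ≤ Z ^ 2 ∧ ((t p.1 * t p.2 : ℕ) : ℝ) ≤ T ^ 2 := by
    intro p hp
    obtain ⟨h1, h2, -, -⟩ := hmemF0 p hp
    have a1 := (h.pt p.1 (hP1P h1)).one_lt
    have a2 := (h.pt p.2 (hP1P h2)).one_lt
    have b1 := ladD_tle h (hP1P h1)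
    have b2 := ladD_tle h (hP1P h2)
    have c1 := h.tT p.1 (hP1P h1)
    have c2 := h.tT p.2 (hP1P h2)
    refine ⟨Nat.mul_pos (by omega) (by omega), ?_, ?_⟩
    · push_cast
      rw [sq]
      exact mul_le_mul b1 b2 (Nat.cast_nonneg _) hZ0.le
    · push_cast
      rw [sq]
      exact mul_le_mul c1 c2 (Nat.cast_nonneg _) (zero_le_one.trans h.hT)
  have hcol : ((F0.image (fun p => Nat.log 2 (t p.1 * t p.2))).card : ℝ) ≤ C2 * Z ^ (ε / 2) := by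
    have hZ2 : (1 : ℝ) ≤ Z ^ 2 := one_le_pow₀ hZ
    have h1 : F0.image (fun p => Nat.log 2 (t p.1 * t p.2)) ⊆ Finset.range (Nat.log 2 ⌊Z ^ 2⌋₊ + 1) := by
      intro k hk
      rw [Finset.mem_image] at hk
      obtain ⟨p, hp, rfl⟩ := hk
      have h2 : t p.1 * t p.2 ≤ ⌊Z ^ 2⌋₊ := Nat.le_floor (htt p hp).2.1
      have h3 : Nat.log 2 (t p.1 * t p.2) ≤ Nat.log 2 ⌊Z ^ 2⌋₊ := Nat.log_mono_right h2
      exact Finset.mem_range.mpr (by omega)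
    have h4 : (F0.image (fun p => Nat.log 2 (t p.1 * t p.2))).card ≤ Nat.log 2 ⌊Z ^ 2⌋₊ + 1 := by
      have := Finset.card_le_card h1
      rwa [Finset.card_range] at this
    have h5 := hG Z ⌊Z ^ 2⌋₊ hZ (Nat.le_floor (by exact_mod_cast hZ2)) (Nat.floor_le (zero_le_one.trans hZ2))
    have h6 : ((F0.image (fun p => Nat.log 2 (t p.1 * t p.2))).card : ℝ) ≤ ((Nat.log 2 ⌊Z ^ 2⌋₊ + 1 : ℕ) : ℝ) := by
      exact_mod_cast h4
    exact h6.trans h5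
  obtain ⟨k, hk⟩ := lad_pigeon F0 (fun p => Nat.log 2 (t p.1 * t p.2)) (C2 * Z ^ (ε / 2)) hcol
  set F : Finset ((ℤ × ℤ) × (ℤ × ℤ)) := F0.filter (fun p => Nat.log 2 (t p.1 * t p.2) = k) with hFdef
  have hfin : (P.card : ℝ) ^ 2 ≤ 32 * C1 * C2 * Z ^ ε * Rc * (F.card : ℝ) := by
    have h1 : (P.card : ℝ) ^ 2 ≤ 16 * (P1.card : ℝ) ^ 2 := by
      have h0 := pow_le_pow_left₀ hPc hq 2
      rw [mul_pow] at h0
      norm_num at h0
      exact h0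
    have h2 : N * (F0.card : ℝ) ≤ N * (C2 * Z ^ (ε / 2) * (F.card : ℝ)) := mul_le_mul_of_nonneg_left hk hN0
    calc (P.card : ℝ) ^ 2 ≤ 16 * (P1.card : ℝ) ^ 2 := h1
      _ ≤ 16 * (2 * N * (F0.card : ℝ)) := by linarith only [hmain]
      _ ≤ 32 * (N * (C2 * Z ^ (ε / 2) * (F.card : ℝ))) := by linarith only [h2]
      _ = 32 * C1 * C2 * Z ^ ε * Rc * (F.card : ℝ) := by rw [hzz, hN]; ring
  have hPpos : (0 : ℝ) < (P.card : ℝ) := by
    have h0 : (0 : ℝ) < 32 * C1 * C2 := lt_of_lt_of_le one_pos hC12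
    exact lt_of_lt_of_le (mul_pos (mul_pos (mul_pos h0 (Real.rpow_pos_of_pos hZ0 ε)) hRc0) hm0) hP
  have hFne : F.Nonempty := by
    rw [Finset.nonempty_iff_ne_empty]
    intro hF
    rw [hF, Finset.card_empty, Nat.cast_zero, mul_zero] at hfin
    exact absurd (pow_pos hPpos 2) (not_lt.2 hfin)
  have hmemF : ∀ p ∈ F, p ∈ F0 ∧ ((2 : ℝ) ^ k) ≤ ((t p.1 * t p.2 : ℕ) : ℝ) ∧
      ((t p.1 * t p.2 : ℕ) : ℝ) ≤ 2 * (2 : ℝ) ^ k := by
    intro p hp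
    rw [hFdef, Finset.mem_filter] at hp
    obtain ⟨h1, h2⟩ := hp
    have h3 := (htt p h1).1
    refine ⟨h1, ?_, ?_⟩
    · have := Nat.pow_log_le_self 2 (x := t p.1 * t p.2) (by omega)
      rw [h2] at this
      exact_mod_cast this
    · have := (Nat.lt_pow_succ_log_self (b := 2) (by norm_num) (t p.1 * t p.2)).le
      rw [h2, pow_succ, mul_comm (2 ^ k) 2] at this
      exact_mod_cast this
  refine ⟨q, (2 : ℝ) ^ k, F, one_le_pow₀ (by norm_num), ?_, ?_, hFne, ?_, hfin⟩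
  · obtain ⟨p, hp⟩ := hFne
    exact (hmemF p hp).2.1.trans (htt p (hmemF p hp).1).2.2
  · obtain ⟨p, hp⟩ := hFne
    exact (hmemF p hp).2.1.trans (htt p (hmemF p hp).1).2.1
  · intro p hp
    obtain ⟨h1, h2, h3⟩ := hmemF p hp
    obtain ⟨h4, h5, h6, h7⟩ := hmemF0 p h1
    rw [hP1, Finset.mem_filter] at h4 h5
    exact ⟨h4.1, h5.1, h4.2, h5.2, h6, h7, h2, h3⟩

/-- The set `F` of pairs.  Proof: `lad_two` + `lad_pigeon`: `P1 ⊆ P` with constant 2-part `q`, `#P ≤ 4 #P1`.  `lad_labels (ε/2)` and `lad_cauchy` for `P1` and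
the label of `c`, `N = C1 Z^(ε/2) Rc`: `#P1^2 ≤ N #(pairs with the same label of c)`; the pairs with also `t p.1 = t p.2` are at most `#P1 * m'`
(the same label implies the same `c` by `lbl_inj`; `h.mct`), so, as `N m' ≤ #P / 8 ≤ #P1 / 2`, `#P1^2 ≤ 2 N #F0` with `F0` the pairs with `t p.1 ≠ t p.2`.
`lad_pigeon` for the colour `Nat.log 2 (t p.1 * t p.2)` (in `range (log2 (Z^2) + 1)`, `lad_log (ε/2)`), `E = 2^k`. -/
theorem lad_ecal (ε : ℝ) (hε : 0 < ε) : ∃ C : ℝ, 1 ≤ C ∧ ∀ (Z RA Rc T m m' : ℝ) (y D : ℤ) (f e l : ℕ) (P : Finset (ℤ × ℤ))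
    (A B c t : ℤ × ℤ → ℕ), LadData Z RA Rc T m m' y D f e l P A B c t → C * Z ^ ε * Rc * m' ≤ (P.card : ℝ) →
    ∃ (q : Ideal (ℤ√D)) (E : ℝ) (F : Finset ((ℤ × ℤ) × (ℤ × ℤ))), 1 ≤ E ∧ E ≤ T ^ 2 ∧ E ≤ Z ^ 2 ∧ F.Nonempty ∧
      (∀ p ∈ F, p.1 ∈ P ∧ p.2 ∈ P ∧ lbl (2 ^ e) (zz D f p.1) = q ∧ lbl (2 ^ e) (zz D f p.2) = q ∧
        lbl (c p.1) (zz D f p.1) = lbl (c p.2) (zz D f p.2) ∧ t p.1 ≠ t p.2 ∧
        E ≤ ((t p.1 * t p.2 : ℕ) : ℝ) ∧ ((t p.1 * t p.2 : ℕ) : ℝ) ≤ 2 * E) ∧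
      (P.card : ℝ) ^ 2 ≤ C * Z ^ ε * Rc * (F.card : ℝ) :=
  ladD_main ε hε

end Hp

end Pool.Agent.Lib.MP_d8bd92_nt
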