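import Mathlib

set_option autoImplicit false

/-!
Ladder block: combinatorial lemmas.
-/

namespace Pool.Agent.Lib.MP_d8bd92_nt

namespace Hp

open Finset

/-- Cauchy: pairs with the same colour.  Proof: `S.card = ∑ b ∈ S.image φ, #(fibre b)`, Cauchy-Schwarz
(`inner_mul_le_norm_mul_norm` or `Finset.sum_mul_sq_le_sq_mul_sq` or `sq_sum_le_card_mul_sum_sq`), and
`∑ b, #(fibre b)^2` is the number of pairs with the same colour (`Finset.card_eq_sum_card_image`, product of the fibres). -/
theorem lad_cauchy {α β : Type} [DecidableEq α] [DecidableEq β] (S : Finset α) (φ : α → β) (N : ℝ)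
    (hN : ((S.image φ).card : ℝ) ≤ N) :
    (S.card : ℝ) ^ 2 ≤ N * (((S ×ˢ S).filter (fun p => φ p.1 = φ p.2)).card : ℝ) := by
  set c : β → ℕ := fun b => (S.filter (fun a => φ a = b)).card with hc
  have h1 : (S.card : ℝ) = ∑ b ∈ S.image φ, (c b : ℝ) := by
    rw [card_eq_sum_card_image φ S]
    push_cast
    rfl
  have h2 : (((S ×ˢ S).filter (fun p => φ p.1 = φ p.2)).card : ℝ) = ∑ b ∈ S.image φ, (c b : ℝ) ^ 2 := by
    have hmaps : ∀ p ∈ (S ×ˢ S).filter (fun p => φ p.1 = φ p.2), φ p.1 ∈ S.image φ := by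
      intro p hp
      rw [mem_filter, mem_product] at hp
      exact mem_image_of_mem φ hp.1.1
    rw [card_eq_sum_card_fiberwise hmaps]
    push_cast
    refine sum_congr rfl fun b _ => ?_
    have h3 : ((S ×ˢ S).filter (fun p => φ p.1 = φ p.2)).filter (fun p => φ p.1 = b) =
        (S.filter (fun a => φ a = b)) ×ˢ (S.filter (fun a => φ a = b)) := by
      ext ⟨x, y⟩
      simp only [mem_filter, mem_product]
      constructor
      · rintro ⟨⟨⟨hx, hy⟩, h⟩, hb⟩
        exact ⟨⟨hx, hb⟩, hy, h ▸ hb⟩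
      · rintro ⟨⟨hx, hxb⟩, hy, hyb⟩
        exact ⟨⟨⟨hx, hy⟩, hxb.trans hyb.symm⟩, hxb⟩
    rw [h3, card_product]
    push_cast
    rw [hc]
    ring
  rw [h1, h2]
  have h4 : (∑ b ∈ S.image φ, (c b : ℝ)) ^ 2 ≤ ((S.image φ).card : ℝ) * ∑ b ∈ S.image φ, (c b : ℝ) ^ 2 :=
    sq_sum_le_card_mul_sum_sq
  refine h4.trans (mul_le_mul_of_nonneg_right hN ?_)
  exact sum_nonneg fun b _ => sq_nonneg _

/-- Pigeonhole.  Proof: `Finset.card_eq_sum_card_fiberwise` / `exists_le_card_fiber...`; if `S` is empty take any `b`. -/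
theorem lad_pigeon {α β : Type} [DecidableEq β] [Nonempty β] (S : Finset α) (φ : α → β) (N : ℝ)
    (hN : ((S.image φ).card : ℝ) ≤ N) :
    ∃ b : β, (S.card : ℝ) ≤ N * ((S.filter (fun a => φ a = b)).card : ℝ) := by
  rcases S.eq_empty_or_nonempty with h0 | hne
  · obtain ⟨b⟩ := (inferInstance : Nonempty β)
    refine ⟨b, ?_⟩
    have hN0 : 0 ≤ N := (Nat.cast_nonneg _).trans hN
    rw [h0]
    simp
  · have hne' : (S.image φ).Nonempty := hne.image φ
    obtain ⟨b, -, hb⟩ := exists_max_image (S.image φ) (fun b => (S.filter (fun a => φ a = b)).card) hne'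
    refine ⟨b, ?_⟩
    have h1 : S.card ≤ (S.image φ).card * (S.filter (fun a => φ a = b)).card := by
      calc S.card = ∑ x ∈ S.image φ, (S.filter (fun a => φ a = x)).card := card_eq_sum_card_image φ S
        _ ≤ ∑ _x ∈ S.image φ, (S.filter (fun a => φ a = b)).card := sum_le_sum hb
        _ = _ := by rw [sum_const, smul_eq_mul]
    calc (S.card : ℝ) ≤ ((S.image φ).card : ℝ) * ((S.filter (fun a => φ a = b)).card : ℝ) := by exact_mod_cast h1
      _ ≤ N * _ := mul_le_mul_of_nonneg_right hN (Nat.cast_nonneg _)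

/-- Number of pairs when the first member lies in one of few classes, and the second one in one of few elements given the first one.
Proof: `F` is contained in the union over `k ∈ I` of the pairs with colour `k`; for every `k` the pairs `p` with colour `k` have
at most `a` first members and, for every first member, at most `b` second members (`Finset.card_le_mul_card_image` or
`Finset.card_eq_sum_card_image` twice). -/
theorem lad_count {α κ : Type} [DecidableEq α] [DecidableEq κ] (F : Finset (α × α)) (φ : α × α → κ) (N a b : ℝ)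
    (ha : 0 ≤ a) (hb : 0 ≤ b) (hN : ((F.image φ).card : ℝ) ≤ N)
    (h1 : ∀ p ∈ F, ((((F.filter (fun p' => φ p' = φ p)).image Prod.fst)).card : ℝ) ≤ a)
    (h2 : ∀ p ∈ F, ((F.filter (fun p' => φ p' = φ p ∧ p'.1 = p.1)).card : ℝ) ≤ b) :
    (F.card : ℝ) ≤ N * a * b := by
  have key : ∀ k ∈ F.image φ, (((F.filter (fun p => φ p = k)).card : ℕ) : ℝ) ≤ a * b := by
    intro k hk
    obtain ⟨p, hp, rfl⟩ := mem_image.1 hk
    rw [card_eq_sum_card_image Prod.fst (F.filter (fun p' => φ p' = φ p))]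
    push_cast
    have h3 : ∀ x ∈ (F.filter (fun p' => φ p' = φ p)).image Prod.fst,
        ((((F.filter (fun p' => φ p' = φ p)).filter (fun p' => p'.1 = x)).card : ℕ) : ℝ) ≤ b := by
      intro x hx
      obtain ⟨p', hp', rfl⟩ := mem_image.1 hx
      rw [mem_filter] at hp'
      have h4 := h2 p' hp'.1
      rw [filter_filter, ← hp'.2]
      exact h4
    calc _ ≤ ∑ _x ∈ (F.filter (fun p' => φ p' = φ p)).image Prod.fst, b := sum_le_sum h3
      _ = (((F.filter (fun p' => φ p' = φ p)).image Prod.fst).card : ℝ) * b := by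
          rw [sum_const, nsmul_eq_mul]
      _ ≤ a * b := mul_le_mul_of_nonneg_right (h1 p hp) hb
  rw [card_eq_sum_card_image φ F]
  push_cast
  calc _ ≤ ∑ _k ∈ F.image φ, a * b := sum_le_sum key
    _ = ((F.image φ).card : ℝ) * (a * b) := by rw [sum_const, nsmul_eq_mul]
    _ ≤ N * (a * b) := mul_le_mul_of_nonneg_right hN (mul_nonneg ha hb)
    _ = N * a * b := by ring

end Hp

end Pool.Agent.Lib.MP_d8bd92_nt
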