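import Pool.Agent.Lib.MP_d8bd92_nt.Hp.LadE1
import Pool.Agent.Lib.MP_d8bd92_nt.Hp.LadA

set_option autoImplicit false

/-!
Ladder block: multiplicities of pairs.
-/

namespace Pool.Agent.Lib.MP_d8bd92_nt

namespace Hp

open Finset Pool.Agent.Lib.Szpiro

open scoped Classical in
/-- multiplicity: `plbl D f A p = Q` and `t p.1 * t p.2 = N`.  Proof: `F` empty: trivial.  Else `N ≤ Z ^ 2`, colour
`φ p = (labels of A for p.1 and p.2, t p.1)`: at most `C Z^ε` pairs of labels (`lad_prod`) times `#N.divisors ≤ C Z^(2ε)` (`card_divisors_le`).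
Given the colour, `A p.1`, `A p.2` are known (`lbl_inj`: equal labels have the same `A`) and `t p.2 = N / t p.1` is known, so the first
member is one of at most `m` elements, and also the second (`h.mAt`); conclude with `lad_count` (a = b = m). Use `ε / 3`. -/
theorem lad_mul (ε : ℝ) (hε : 0 < ε) : ∃ C : ℝ, 1 ≤ C ∧ ∀ (Z RA Rc T m m' : ℝ) (y D : ℤ) (f e l : ℕ) (P : Finset (ℤ × ℤ))
    (A B c t : ℤ × ℤ → ℕ), LadData Z RA Rc T m m' y D f e l P A B c t →
    ∀ (Q : Ideal (ℤ√D)) (N : ℕ) (F : Finset ((ℤ × ℤ) × (ℤ × ℤ))),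
    (∀ p ∈ F, p.1 ∈ P ∧ p.2 ∈ P ∧ plbl D f A p = Q ∧ t p.1 * t p.2 = N) →
    (F.card : ℝ) ≤ C * Z ^ ε * m ^ 2 := by
  classical
  have hε3 : 0 < ε / 3 := by positivity
  obtain ⟨C1, hC11, hC1⟩ := lad_prod (ε / 3) hε3
  obtain ⟨C2, hC20, hC2⟩ := card_divisors_le (ε / 3) hε3
  have hC10 : 0 ≤ C1 := by linarith
  refine ⟨max 1 (C1 * C2), le_max_left _ _, ?_⟩
  intro Z RA Rc T m m' y D f e l P A B c t h Q N F hF
  have hZ1 := h.hZ
  have hZ0 : 0 < Z := by linarith
  have hm1 := h.hm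
  have hm0 : 0 ≤ m := by linarith
  rcases F.eq_empty_or_nonempty with hE | ⟨p0, hp0⟩
  · rw [hE, Finset.card_empty]
    push_cast
    have : (0 : ℝ) ≤ max 1 (C1 * C2) := by positivity
    positivity
  -- bounds for N
  have ht1 : ∀ w ∈ P, 1 ≤ t w := fun w hw => (h.pt w hw).one_lt.le
  have htZ : ∀ w ∈ P, (t w : ℝ) ≤ Z := by
    intro w hw
    have h1 : t w ∣ w.1.natAbs := by
      have h2 := (h.dvd hw).2.2.2
      rw [h.norm hw] at h2
      exact Int.natCast_dvd.1 h2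
    have h2 : t w ≤ w.1.natAbs := Nat.le_of_dvd (Int.natAbs_pos.2 (h.nz w hw)) h1
    have h3 : (t w : ℝ) ≤ (w.1.natAbs : ℝ) := by exact_mod_cast h2
    exact h3.trans (h.bd w hw)
  obtain ⟨a1, a2, a3, a4⟩ := hF p0 hp0
  have hN1 : 1 ≤ N := by
    rw [← a4]
    exact Nat.mul_pos (ht1 _ a1) (ht1 _ a2)
  have hNZ : (N : ℝ) ≤ Z ^ 2 := by
    rw [← a4]
    push_cast
    rw [sq]
    exact mul_le_mul (htZ _ a1) (htZ _ a2) (Nat.cast_nonneg _) hZ0.le
  have hdiv := hC2 (Z ^ 2) N hN1 hNZ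
  have hlab := hC1 Z RA Rc T m m' y D f e l P A B c t h Q F
    (fun p hp => ⟨(hF p hp).1, (hF p hp).2.1, (hF p hp).2.2.1⟩)
  set lb : (ℤ × ℤ) × (ℤ × ℤ) → Ideal (ℤ√D) × Ideal (ℤ√D) :=
    fun p => (lbl (A p.1) (zz D f p.1), lbl (A p.2) (zz D f p.2)) with hlb
  have hA1 : ∀ w ∈ P, 1 ≤ A w := fun w hw => (h.oA w hw).pos
  have hinj : ∀ w ∈ P, ∀ w' ∈ P, lbl (A w) (zz D f w) = lbl (A w') (zz D f w') → A w = A w' := by
    intro w hw w' hw' he
    exact (lbl_inj _ _ (hA1 w hw) (hA1 w' hw') (h.dvd hw).1 (h.dvd hw').1 (h.ncop hw) (h.ncop hw') he).1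
  have himg : ((F.image (fun p => (lb p, t p.1))).card : ℝ) ≤ C1 * C2 * Z ^ ε := by
    have h1 : F.image (fun p => (lb p, t p.1)) ⊆ (F.image lb) ×ˢ N.divisors := by
      intro x hx
      rw [Finset.mem_image] at hx
      obtain ⟨p, hp, rfl⟩ := hx
      rw [Finset.mem_product]
      refine ⟨Finset.mem_image_of_mem _ hp, ?_⟩
      rw [Nat.mem_divisors]
      exact ⟨⟨t p.2, (hF p hp).2.2.2.symm⟩, by omega⟩
    have h2 := Finset.card_le_card h1
    rw [Finset.card_product] at h2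
    have h3 : ((F.image (fun p => (lb p, t p.1))).card : ℝ) ≤
        ((F.image lb).card : ℝ) * (N.divisors.card : ℝ) := by exact_mod_cast h2
    refine h3.trans ?_
    calc ((F.image lb).card : ℝ) * (N.divisors.card : ℝ) ≤
        (C1 * Z ^ (ε / 3)) * (C2 * (Z ^ 2) ^ (ε / 3)) :=
          mul_le_mul hlab hdiv (Nat.cast_nonneg _) (by positivity)
      _ = C1 * C2 * Z ^ ε := by
          have h4 : (Z ^ 2) ^ (ε / 3) = Z ^ (2 * (ε / 3)) := by
            rw [← Real.rpow_natCast Z 2, ← Real.rpow_mul hZ0.le]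
            norm_num
          have h5 : Z ^ ε = Z ^ (ε / 3) * Z ^ (2 * (ε / 3)) := by
            rw [← Real.rpow_add hZ0]
            ring_nf
          rw [h4, h5]
          ring
  have hkey := lad_count F (fun p => (lb p, t p.1)) (C1 * C2 * Z ^ ε) m m hm0 hm0 himg
    (by
      intro p hp
      obtain ⟨b1, b2, b3, b4⟩ := hF p hp
      refine le_trans ?_ (h.mAt p.1 b1)
      have h1 : (F.filter (fun p' => (lb p', t p'.1) = (lb p, t p.1))).image Prod.fst ⊆
          P.filter (fun w' => A w' = A p.1 ∧ t w' = t p.1) := by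
        intro w hw
        rw [Finset.mem_image] at hw
        obtain ⟨p', hp', rfl⟩ := hw
        rw [Finset.mem_filter] at hp'
        obtain ⟨c1, c2⟩ := hp'
        simp only [hlb, Prod.mk.injEq] at c2
        rw [Finset.mem_filter]
        exact ⟨(hF p' c1).1, hinj _ (hF p' c1).1 _ b1 c2.1.1, c2.2⟩
      exact_mod_cast Finset.card_le_card h1)
    (by
      intro p hp
      obtain ⟨b1, b2, b3, b4⟩ := hF p hp
      refine le_trans ?_ (h.mAt p.2 b2)
      have h1 : (F.filter (fun p' => (lb p', t p'.1) = (lb p, t p.1) ∧ p'.1 = p.1)).card =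
          ((F.filter (fun p' => (lb p', t p'.1) = (lb p, t p.1) ∧ p'.1 = p.1)).image Prod.snd).card := by
        rw [Finset.card_image_of_injOn]
        intro x hx x' hx' hxx
        have hx1 := (Finset.mem_filter.1 hx).2.2
        have hx2 := (Finset.mem_filter.1 hx').2.2
        exact Prod.ext (hx1.trans hx2.symm) hxx
      rw [h1]
      have h2 : (F.filter (fun p' => (lb p', t p'.1) = (lb p, t p.1) ∧ p'.1 = p.1)).image Prod.snd ⊆
          P.filter (fun w' => A w' = A p.2 ∧ t w' = t p.2) := by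
        intro w hw
        rw [Finset.mem_image] at hw
        obtain ⟨p', hp', rfl⟩ := hw
        rw [Finset.mem_filter] at hp'
        obtain ⟨c1, c2, c3⟩ := hp'
        simp only [hlb, Prod.mk.injEq] at c2
        rw [Finset.mem_filter]
        refine ⟨(hF p' c1).2.1, hinj _ (hF p' c1).2.1 _ b2 c2.1.2, ?_⟩
        have h3 := (hF p' c1).2.2.2
        rw [c3, ← b4] at h3
        exact Nat.eq_of_mul_eq_mul_left (ht1 _ b1) h3
      exact_mod_cast Finset.card_le_card h2)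
  refine hkey.trans ?_
  have h1 : C1 * C2 * Z ^ ε * m * m = C1 * C2 * (Z ^ ε * m ^ 2) := by ring
  have h2 : max 1 (C1 * C2) * Z ^ ε * m ^ 2 = max 1 (C1 * C2) * (Z ^ ε * m ^ 2) := by ring
  rw [h1, h2]
  exact mul_le_mul_of_nonneg_right (le_max_right _ _) (by positivity)

end Hp

end Pool.Agent.Lib.MP_d8bd92_nt
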