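import Pool.Agent.Lib.MP_d8bd92_nt.Hp.LadE1
import Pool.Agent.Lib.MP_d8bd92_nt.Hp.LadA

set_option autoImplicit false

/-!
Ladder block: bad pairs.
-/

namespace Pool.Agent.Lib.MP_d8bd92_nt

namespace Hp

open Finset Pool.Agent.Lib.Szpiro

open scoped Classical in
private theorem LadE3_core {Z RA Rc T m m' : ℝ} {y D : ℤ} {f e l : ℕ} {P : Finset (ℤ × ℤ)}
    {A B c t : ℤ × ℤ → ℕ} (h : LadData Z RA Rc T m m' y D f e l P A B c t) {N : ℕ} (hN : 1 ≤ N)
    (F : Finset ((ℤ × ℤ) × (ℤ × ℤ))) {κ : Type} [DecidableEq κ] (lam : (ℤ × ℤ) × (ℤ × ℤ) → κ) (X : ℝ)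
    (hX : ((F.image lam).card : ℝ) ≤ X)
    (hF : ∀ p ∈ F, p.1 ∈ P ∧ p.2 ∈ P ∧ c p.1 = c p.2 ∧ t p.1 ∣ N)
    (hlam : ∀ p ∈ F, ∀ p' ∈ F, lam p' = lam p → A p'.1 = A p.1 ∧ A p'.2 = A p.2) :
    (F.card : ℝ) ≤ X * (N.divisors.card : ℝ) * m * m := by
  have hm0 : 0 ≤ m := le_trans zero_le_one h.hm
  refine lad_count F (fun p => (lam p, t p.1)) _ m m hm0 hm0 ?_ ?_ ?_
  · have h1 : F.image (fun p => (lam p, t p.1)) ⊆ (F.image lam) ×ˢ N.divisors := by
      intro q hq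
      rw [Finset.mem_image] at hq
      obtain ⟨p, hp, rfl⟩ := hq
      rw [Finset.mem_product]
      exact ⟨Finset.mem_image_of_mem lam hp, Nat.mem_divisors.2 ⟨(hF p hp).2.2.2, by omega⟩⟩
    have h2 := Finset.card_le_card h1
    rw [Finset.card_product] at h2
    calc (((F.image (fun p => (lam p, t p.1))).card : ℕ) : ℝ)
        ≤ (((F.image lam).card * N.divisors.card : ℕ) : ℝ) := by exact_mod_cast h2
      _ = ((F.image lam).card : ℝ) * (N.divisors.card : ℝ) := by push_cast; ring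
      _ ≤ X * (N.divisors.card : ℝ) := mul_le_mul_of_nonneg_right hX (Nat.cast_nonneg _)
  · intro p hp
    refine le_trans ?_ (h.mAt p.1 (hF p hp).1)
    have h1 : (F.filter (fun p' => (lam p', t p'.1) = (lam p, t p.1))).image Prod.fst ⊆
        P.filter (fun w' => A w' = A p.1 ∧ t w' = t p.1) := by
      intro w hw
      rw [Finset.mem_image] at hw
      obtain ⟨p', hp', rfl⟩ := hw
      rw [Finset.mem_filter] at hp'
      obtain ⟨hp'F, hpe⟩ := hp'
      rw [Prod.mk.injEq] at hpe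
      rw [Finset.mem_filter]
      exact ⟨(hF p' hp'F).1, (hlam p hp p' hp'F hpe.1).1, hpe.2⟩
    exact_mod_cast Finset.card_le_card h1
  · intro p hp
    refine le_trans ?_ (h.mAc p.2 (hF p hp).2.1)
    have h1 : (F.filter (fun p' => (lam p', t p'.1) = (lam p, t p.1) ∧ p'.1 = p.1)).card ≤
        (P.filter (fun w' => A w' = A p.2 ∧ c w' = c p.2)).card := by
      refine Finset.card_le_card_of_injOn Prod.snd ?_ ?_
      · intro p' hp'
        rw [Finset.mem_coe, Finset.mem_filter] at hp'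
        obtain ⟨hp'F, hpe, hp1⟩ := hp'
        rw [Prod.mk.injEq] at hpe
        rw [Finset.mem_coe, Finset.mem_filter]
        refine ⟨(hF p' hp'F).2.1, (hlam p hp p' hp'F hpe.1).2, ?_⟩
        rw [← (hF p' hp'F).2.2.1, hp1]
        exact (hF p hp).2.2.1
      · intro p' hp' p'' hp'' he
        rw [Finset.mem_coe, Finset.mem_filter] at hp' hp''
        exact Prod.ext (hp'.2.2.trans hp''.2.2.symm) he
    exact_mod_cast h1

open scoped Classical in
/-- bad pairs: `plbl D f A p = Q`, the same `c`, and `t p.1 * t p.2` not prime to `N`.  Proof: as `t p.1`, `t p.2` are primes, `t p.1 ∣ N` or `t p.2 ∣ N`: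
split `F` in two parts.  First part: colour `(labels of A for p.1 and p.2, t p.1)`, at most `C Z^ε * #N.divisors` colours; given the colour `A p.1`, `t p.1` are known:
at most `m` first members (`h.mAt`); given the first member, `c p.2 = c p.1` and `A p.2` are known: at most `m` second members (`h.mAc`).
`lad_count`.  Second part: exchange the roles (apply `lad_count` to the swapped pairs `F.image Prod.swap`). -/
theorem lad_bad (ε : ℝ) (hε : 0 < ε) : ∃ C : ℝ, 1 ≤ C ∧ ∀ (Z RA Rc T m m' : ℝ) (y D : ℤ) (f e l : ℕ) (P : Finset (ℤ × ℤ))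
    (A B c t : ℤ × ℤ → ℕ), LadData Z RA Rc T m m' y D f e l P A B c t →
    ∀ (Q : Ideal (ℤ√D)) (N : ℕ) (F : Finset ((ℤ × ℤ) × (ℤ × ℤ))), 1 ≤ N → (N : ℝ) ≤ Z ^ 2 →
    (∀ p ∈ F, p.1 ∈ P ∧ p.2 ∈ P ∧ plbl D f A p = Q ∧ c p.1 = c p.2 ∧ ¬ Nat.Coprime (t p.1 * t p.2) N) →
    (F.card : ℝ) ≤ C * Z ^ ε * m ^ 2 := by
  obtain ⟨C1, hC1, H1⟩ := lad_prod (ε / 2) (by positivity)
  obtain ⟨C2, hC2, H2⟩ := card_divisors_le (ε / 4) (by positivity)
  refine ⟨max 1 (2 * (C1 * C2)), le_max_left _ _, ?_⟩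
  intro Z RA Rc T m m' y D f e l P A B c t h Q N F hN hNZ hF
  have hZ0 : 0 < Z := lt_of_lt_of_le zero_lt_one h.hZ
  have hdiv : (N.divisors.card : ℝ) ≤ C2 * Z ^ (ε / 2) := by
    have h1 := H2 (Z ^ 2) N hN hNZ
    have h2 : (Z ^ 2 : ℝ) ^ (ε / 4) = Z ^ (ε / 2) := by
      rw [← Real.rpow_natCast, ← Real.rpow_mul hZ0.le]
      congr 1
      push_cast
      ring
    rwa [h2] at h1
  have hpos : ∀ {w : ℤ × ℤ}, w ∈ P → 1 ≤ A w := fun hw => (h.oA _ hw).pos
  have hinj : ∀ {w w' : ℤ × ℤ}, w ∈ P → w' ∈ P → lbl (A w) (zz D f w) = lbl (A w') (zz D f w') →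
      A w = A w' := by
    intro w w' hw hw' he
    exact (lbl_inj (zz D f w) (zz D f w') (hpos hw) (hpos hw') (h.dvd hw).1 (h.dvd hw').1
      (h.ncop hw) (h.ncop hw') he).1
  set lam : (ℤ × ℤ) × (ℤ × ℤ) → Ideal (ℤ√D) × Ideal (ℤ√D) :=
    fun p => (lbl (A p.1) (zz D f p.1), lbl (A p.2) (zz D f p.2)) with hlam
  have hlamE : ∀ {p p' : (ℤ × ℤ) × (ℤ × ℤ)}, p.1 ∈ P → p.2 ∈ P → p'.1 ∈ P → p'.2 ∈ P →
      lam p' = lam p → A p'.1 = A p.1 ∧ A p'.2 = A p.2 := by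
    intro p p' h1 h2 h3 h4 he
    rw [hlam, Prod.mk.injEq] at he
    exact ⟨hinj h3 h1 he.1, hinj h4 h2 he.2⟩
  set F1 := F.filter (fun p => t p.1 ∣ N) with hF1
  set F2 := F.filter (fun p => t p.2 ∣ N) with hF2
  have himg : ∀ G : Finset ((ℤ × ℤ) × (ℤ × ℤ)), G ⊆ F → ((G.image lam).card : ℝ) ≤ C1 * Z ^ (ε / 2) := by
    intro G hG
    exact H1 Z RA Rc T m m' y D f e l P A B c t h Q G
      (fun p hp => ⟨(hF p (hG hp)).1, (hF p (hG hp)).2.1, (hF p (hG hp)).2.2.1⟩)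
  have hb1 : (F1.card : ℝ) ≤ C1 * Z ^ (ε / 2) * (N.divisors.card : ℝ) * m * m := by
    refine LadE3_core h hN F1 lam _ (himg F1 (Finset.filter_subset _ _)) ?_ ?_
    · intro p hp
      rw [hF1, Finset.mem_filter] at hp
      have h1 := hF p hp.1
      exact ⟨h1.1, h1.2.1, h1.2.2.2.1, hp.2⟩
    · intro p hp p' hp' he
      rw [hF1, Finset.mem_filter] at hp hp'
      exact hlamE (hF p hp.1).1 (hF p hp.1).2.1 (hF p' hp'.1).1 (hF p' hp'.1).2.1 he
  have hb2 : (F2.card : ℝ) ≤ C1 * Z ^ (ε / 2) * (N.divisors.card : ℝ) * m * m := by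
    have hc : (F2.image Prod.swap).card = F2.card :=
      Finset.card_image_of_injective _ Prod.swap_injective
    rw [← hc]
    refine LadE3_core h hN (F2.image Prod.swap) (fun p => lam p.swap) _ ?_ ?_ ?_
    · rw [Finset.image_image]
      have h1 : (fun p => lam (Prod.swap p)) ∘ Prod.swap = lam := by
        funext p
        simp only [Function.comp_apply, Prod.swap_swap]
      rw [h1]
      exact himg F2 (Finset.filter_subset _ _)
    · intro p hp
      rw [Finset.mem_image] at hp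
      obtain ⟨q, hq, rfl⟩ := hp
      rw [hF2, Finset.mem_filter] at hq
      have h1 := hF q hq.1
      exact ⟨h1.2.1, h1.1, h1.2.2.2.1.symm, hq.2⟩
    · intro p hp p' hp' he
      rw [Finset.mem_image] at hp hp'
      obtain ⟨q, hq, rfl⟩ := hp
      obtain ⟨q', hq', rfl⟩ := hp'
      rw [hF2, Finset.mem_filter] at hq hq'
      simp only [Prod.swap_swap] at he
      have h2 := hlamE (hF q hq.1).1 (hF q hq.1).2.1 (hF q' hq'.1).1 (hF q' hq'.1).2.1 he
      exact ⟨h2.2, h2.1⟩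
  have hcov : F ⊆ F1 ∪ F2 := by
    intro p hp
    have h1 := hF p hp
    have h2 := h1.2.2.2.2
    rw [Nat.coprime_mul_iff_left, not_and_or] at h2
    rw [Finset.mem_union, hF1, hF2, Finset.mem_filter, Finset.mem_filter]
    rcases h2 with h2 | h2
    · exact Or.inl ⟨hp, by
        by_contra h3
        exact h2 (((h.pt _ h1.1).coprime_iff_not_dvd).2 h3)⟩
    · exact Or.inr ⟨hp, by
        by_contra h3
        exact h2 (((h.pt _ h1.2.1).coprime_iff_not_dvd).2 h3)⟩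
  have hcard : (F.card : ℝ) ≤ (F1.card : ℝ) + (F2.card : ℝ) := by
    have h1 := le_trans (Finset.card_le_card hcov) (Finset.card_union_le F1 F2)
    exact_mod_cast h1
  have hm0 : 0 ≤ m := le_trans zero_le_one h.hm
  have hC10 : 0 ≤ C1 := le_trans zero_le_one hC1
  have hZe : 0 ≤ Z ^ (ε / 2) := Real.rpow_nonneg hZ0.le _
  have hZZ : Z ^ (ε / 2) * Z ^ (ε / 2) = Z ^ ε := by
    rw [← Real.rpow_add hZ0]
    congr 1
    ring
  have hfin : C1 * Z ^ (ε / 2) * (N.divisors.card : ℝ) * m * m ≤ C1 * C2 * Z ^ ε * m ^ 2 := by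
    calc C1 * Z ^ (ε / 2) * (N.divisors.card : ℝ) * m * m
        ≤ C1 * Z ^ (ε / 2) * (C2 * Z ^ (ε / 2)) * m * m := by
          refine mul_le_mul_of_nonneg_right (mul_le_mul_of_nonneg_right
            (mul_le_mul_of_nonneg_left hdiv (mul_nonneg hC10 hZe)) hm0) hm0
      _ = C1 * C2 * (Z ^ (ε / 2) * Z ^ (ε / 2)) * m ^ 2 := by ring
      _ = C1 * C2 * Z ^ ε * m ^ 2 := by rw [hZZ]
  have hZe2 : 0 ≤ Z ^ ε := Real.rpow_nonneg hZ0.le _
  calc (F.card : ℝ) ≤ C1 * C2 * Z ^ ε * m ^ 2 + C1 * C2 * Z ^ ε * m ^ 2 := by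
        linarith [hb1.trans hfin, hb2.trans hfin]
    _ = 2 * (C1 * C2) * (Z ^ ε * m ^ 2) := by ring
    _ ≤ max 1 (2 * (C1 * C2)) * (Z ^ ε * m ^ 2) :=
        mul_le_mul_of_nonneg_right (le_max_right _ _) (mul_nonneg hZe2 (sq_nonneg m))
    _ = max 1 (2 * (C1 * C2)) * Z ^ ε * m ^ 2 := by ring

end Hp

end Pool.Agent.Lib.MP_d8bd92_nt
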