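import Pool.Agent.Lib.MP_d8bd92_nt.Hp.LadDefs

set_option autoImplicit false

/-!
Ladder block: sizes.
-/

namespace Pool.Agent.Lib.MP_d8bd92_nt

namespace Hp

open Finset Pool.Agent.Lib.Szpiro

theorem LadG1_le_of_sq {a b : ℝ} (h : a ^ 2 ≤ b ^ 2) (hb : 0 ≤ b) : a ≤ b := by
  by_contra hcon
  push Not at hcon
  nlinarith

/-- balanced and real.  Proof: `theta_exists P` gives `θ`.  For `a, b ∈ P`: `BR 1000 θ (zz a * star (zz b))` by `BR_pair` (`h.norm`, `h.dy`, `h.sgn`, `h.nz`, `gg_nonneg`, imaginary parts are `f`;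
`|D| f^2 = |y|`).  The product in question is `(zz p.1 * star (zz p'.1)) * (zz p'.2 * star (zz p.2))`: `BR_mul`. The last bound:
`θ^2 M ≤ 64 |y| = 64 f^2 |D|`, take roots (if `P` is empty it is void; state it for a member `w ∈ P`). -/
theorem lad_bal {Z RA Rc T m m' : ℝ} {y D : ℤ} {f e l : ℕ} {P : Finset (ℤ × ℤ)} {A B c t : ℤ × ℤ → ℕ}
    (h : LadData Z RA Rc T m m' y D f e l P A B c t) (M : ℝ) (hM : 0 < M)
    (hMP : ∀ w ∈ P, M ≤ max (w.1.natAbs : ℝ) (w.2.natAbs : ℝ)) (hne : P.Nonempty) :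
    ∃ θ : ℝ, 0 < θ ∧ θ ≤ 1 ∧ (∀ p p' : (ℤ × ℤ) × (ℤ × ℤ), p.1 ∈ P → p.2 ∈ P → p'.1 ∈ P → p'.2 ∈ P →
      BR 4000000 θ ((zz D f p.1 * star (zz D f p.2)) * star (zz D f p'.1 * star (zz D f p'.2)))) ∧
      θ / ((f : ℝ) * √((|D| : ℤ) : ℝ)) ≤ 8 / √M := by
  have hD0 : D ≠ 0 := h.D0
  have hf1 := h.hf
  have hfZ : (0 : ℤ) < (f : ℤ) := by exact_mod_cast hf1
  have hfR : (0 : ℝ) < (f : ℝ) := by exact_mod_cast hf1
  have hy0 : y ≠ 0 := by
    rw [h.hy]
    exact mul_ne_zero (pow_ne_zero _ hfZ.ne') hD0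
  have habs : ∀ n : ℤ, ((|n| : ℤ) : ℝ) = (n.natAbs : ℝ) := by
    intro n
    rw [Int.abs_eq_natAbs]
    simp only [Int.cast_natCast]
  obtain ⟨θ, hθ0, hθ1, hθ⟩ := theta_exists P
    (fun w hw => ⟨h.nz w hw, by rw [h.snd w hw]; exact hy0⟩)
    (fun w hw w' hw' => ⟨h.dy w hw w' hw', by rw [h.snd w hw, h.snd w' hw']; omega⟩)
  have hyD : ∀ w ∈ P, (w.2.natAbs : ℝ) = ((|D| * (f : ℤ) ^ 2 : ℤ) : ℝ) := by
    intro w hw
    rw [← habs, h.snd w hw, h.hy, abs_mul, abs_of_nonneg (by positivity : (0 : ℤ) ≤ (f : ℤ) ^ 2), mul_comm]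
  have hpair : ∀ a ∈ P, ∀ b ∈ P, BR 1000 θ (zz D f a * star (zz D f b)) := by
    intro a ha b hb
    have hna := h.norm ha
    have hnb := h.norm hb
    have key := BR_pair (z := zz D f a) (z' := zz D f b) (κ0 := 1000) (θ := θ) hD0
      (gg_nonneg a) (gg_nonneg b) hfZ hfZ
      (by rw [hna, hnb, habs, habs]; exact_mod_cast h.dy a ha b hb)
      (by rw [hna, hnb, habs, habs]; exact_mod_cast h.dy b hb a ha)
      (by rw [hna, hnb]; exact h.sgn a ha b hb)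
      (by rw [hna]; exact h.nz a ha) (by rw [hnb]; exact h.nz b hb)
      (by
        rw [h.im a, h.im b]
        push_cast
        linarith)
      (by
        rw [h.im a, h.im b]
        push_cast
        linarith) rfl
      (by
        rw [hna, h.im a, habs]
        have h1 := (hθ a ha).1
        rw [hyD a ha] at h1
        exact h1)
    exact key
  refine ⟨θ, hθ0, hθ1, ?_, ?_⟩
  · intro p p' h1 h2 h3 h4
    have e1 : star (zz D f p'.1 * star (zz D f p'.2)) = zz D f p'.2 * star (zz D f p'.1) := by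
      rw [star_mul, star_star]
    rw [e1]
    have h5 := BR_mul (C := 1000) (C' := 1000) (by norm_num) (by norm_num) (hpair _ h1 _ h2) (hpair _ h4 _ h3)
    norm_num at h5
    exact h5
  · obtain ⟨w, hw⟩ := hne
    have h1 := (hθ w hw).2
    have h2 := hMP w hw
    rw [hyD w hw] at h1
    have hDp : (0 : ℝ) < ((|D| : ℤ) : ℝ) := by exact_mod_cast abs_pos.2 hD0
    have hsD : 0 < √((|D| : ℤ) : ℝ) := Real.sqrt_pos.2 hDp
    have hsM : 0 < √M := Real.sqrt_pos.2 hM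
    rw [div_le_div_iff₀ (mul_pos hfR hsD) hsM]
    have h3 : (θ * √M) ^ 2 ≤ (8 * ((f : ℝ) * √((|D| : ℤ) : ℝ))) ^ 2 := by
      rw [mul_pow, mul_pow, mul_pow, Real.sq_sqrt hM.le, Real.sq_sqrt hDp.le]
      have h4 : θ ^ 2 * M ≤ 64 * ((|D| * (f : ℤ) ^ 2 : ℤ) : ℝ) := by
        refine le_trans ?_ h1
        rw [← hyD w hw]
        exact mul_le_mul_of_nonneg_left h2 (sq_nonneg _)
      push_cast at h4 ⊢
      nlinarith
    exact LadG1_le_of_sq h3 (by positivity)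

end Hp

end Pool.Agent.Lib.MP_d8bd92_nt
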