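import Pool.Agent.Lib.MP_d8bd92_nt.Hp.LadDefs

set_option autoImplicit false

/-!
Ladder block: factorisation of `(α star α')`.
-/

namespace Pool.Agent.Lib.MP_d8bd92_nt

namespace Hp

open Finset Pool.Agent.Lib.Szpiro

/-- the ideal of the two primes.  Proof: `lbl_eq_idl` gives `r`, `r'` with `lbl (t w) (zz w) = idl D (t w) r`, `lbl (t w') (zz w') = idl D (t w') r'`; by CRT
(`t w`, `t w'` distinct primes) there is `s` with `t w ∣ s - r`, `t w' ∣ s + r'`; `idl_congr`, `cj_idl`, `idl_mul_coprime`. -/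
theorem lad_root {Z RA Rc T m m' : ℝ} {y D : ℤ} {f e l : ℕ} {P : Finset (ℤ × ℤ)} {A B c t : ℤ × ℤ → ℕ}
    (h : LadData Z RA Rc T m m' y D f e l P A B c t) {w w' : ℤ × ℤ} (hw : w ∈ P) (hw' : w' ∈ P) (ht : t w ≠ t w') :
    ∃ s : ℤ, ((t w * t w' : ℕ) : ℤ) ∣ s ^ 2 - D ∧
      lbl (t w) (zz D f w) * cj (lbl (t w') (zz D f w')) = idl D (t w * t w') s := by
  obtain ⟨r, hr1, -, hr3⟩ := lbl_eq_idl (zz D f w) (h.pt w hw).one_lt.le (h.dvd hw).2.2.2 (h.ncop hw)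
  obtain ⟨r', hr1', -, hr3'⟩ :=
    lbl_eq_idl (zz D f w') (h.pt w' hw').one_lt.le (h.dvd hw').2.2.2 (h.ncop hw')
  have hcop : Nat.Coprime (t w) (t w') := (Nat.coprime_primes (h.pt w hw) (h.pt w' hw')).2 ht
  have hcopZ : IsCoprime (t w : ℤ) (t w' : ℤ) := Nat.isCoprime_iff_coprime.2 hcop
  obtain ⟨u, v, huv⟩ := hcopZ
  have hs1 : (t w : ℤ) ∣ (r * (v * t w') - r' * (u * t w)) - r := by
    refine ⟨-(r + r') * u, ?_⟩
    have e : v * (t w' : ℤ) = 1 - u * t w := by linarith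
    rw [e]; ring
  have hs2 : (t w' : ℤ) ∣ (r * (v * t w') - r' * (u * t w)) + r' := by
    refine ⟨(r + r') * v, ?_⟩
    have e : u * (t w : ℤ) = 1 - v * t w' := by linarith
    rw [e]; ring
  generalize (r * (v * t w') - r' * (u * t w)) = s at hs1 hs2
  refine ⟨s, ?_, ?_⟩
  · rw [Nat.cast_mul]
    refine IsCoprime.mul_dvd (Nat.isCoprime_iff_coprime.2 hcop) ?_ ?_
    · have e : s ^ 2 - D = (s - r) * (s + r) + (r ^ 2 - D) := by ring
      rw [e]
      exact dvd_add (Dvd.dvd.mul_right hs1 _) hr1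
    · have e : s ^ 2 - D = (s + r') * (s - r') + (r' ^ 2 - D) := by ring
      rw [e]
      exact dvd_add (Dvd.dvd.mul_right hs2 _) hr1'
  · rw [hr3, hr3', cj_idl, idl_mul_coprime s hcop]
    have e1 : idl D (t w) r = idl D (t w) s := by
      refine idl_congr ?_
      have := (dvd_neg).2 hs1
      rwa [neg_sub] at this
    have e2 : idl D (t w') (-r') = idl D (t w') s := by
      refine idl_congr ?_
      have := (dvd_neg).2 hs2
      have e3 : -(s + r') = -r' - s := by ring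
      rwa [e3] at this
    rw [e1, e2]

/-- norm of a pair label.  Proof: `cj_mul`, `cj_cj`, `lbl_mul_cj` twice. -/
theorem lad_pnorm {Z RA Rc T m m' : ℝ} {y D : ℤ} {f e l : ℕ} {P : Finset (ℤ × ℤ)} {A B c t : ℤ × ℤ → ℕ}
    (h : LadData Z RA Rc T m m' y D f e l P A B c t) {p : (ℤ × ℤ) × (ℤ × ℤ)} (hp : p.1 ∈ P) (hp' : p.2 ∈ P) :
    plbl D f A p * cj (plbl D f A p) = Ideal.span {((A p.1 * A p.2 : ℕ) : ℤ√D)} := by
  have h1 := lbl_mul_cj (zz D f p.1) (h.oA p.1 hp) (h.dvd hp).1 (h.ncop hp)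
  have h2 := lbl_mul_cj (zz D f p.2) (h.oA p.2 hp') (h.dvd hp').1 (h.ncop hp')
  unfold plbl
  rw [cj_mul, cj_cj]
  have e : lbl (A p.1) (zz D f p.1) * cj (lbl (A p.2) (zz D f p.2)) *
      (cj (lbl (A p.1) (zz D f p.1)) * lbl (A p.2) (zz D f p.2)) =
      (lbl (A p.1) (zz D f p.1) * cj (lbl (A p.1) (zz D f p.1))) *
      (lbl (A p.2) (zz D f p.2) * cj (lbl (A p.2) (zz D f p.2))) := by ring
  rw [e, h1, h2, Ideal.span_singleton_mul_span_singleton, Nat.cast_mul]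

end Hp

end Pool.Agent.Lib.MP_d8bd92_nt
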