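import Pool.Agent.Lib.MP_d8bd92_nt.Hp.LadDefs

set_option autoImplicit false

/-!
Ladder block: factorisation of `(α star α')`.
-/

namespace Pool.Agent.Lib.MP_d8bd92_nt

namespace Hp

open Finset Pool.Agent.Lib.Szpiro

/-- factorisation.  Proof: `span_el'` for `zz w` and `zz w'` (with `h.norm`, `h.fac`, ...), conjugate the second (`cj_mul`, `cj_span`; `cj` of a power
by induction), `Ideal.span_singleton_mul_span_singleton`; `lbl (c w) (zz w) * cj (lbl (c w') (zz w')) = span {c w}` by `hc` and `lbl_mul_cj`; rearrange (`ring` in the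
commutative semiring of ideals), `mul_pow`. -/
theorem lad_fac {Z RA Rc T m m' : ℝ} {y D : ℤ} {f e l : ℕ} {P : Finset (ℤ × ℤ)} {A B c t : ℤ × ℤ → ℕ}
    (h : LadData Z RA Rc T m m' y D f e l P A B c t) {w w' : ℤ × ℤ} (hw : w ∈ P) (hw' : w' ∈ P) (q : Ideal (ℤ√D))
    (hq : lbl (2 ^ e) (zz D f w) = q) (hq' : lbl (2 ^ e) (zz D f w') = q)
    (hc : lbl (c w) (zz D f w) = lbl (c w') (zz D f w')) :
    Ideal.span {zz D f w * star (zz D f w')} = Ideal.span {(c w : ℤ√D)} * (q * cj q) * plbl D f A (w, w') *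
      plbl D f B (w, w') * (lbl (t w) (zz D f w) * cj (lbl (t w') (zz D f w'))) ^ l := by
  have h1 := span_el' (zz D f w) (h.ncop hw) (by rw [h.norm hw]; exact h.fac w hw) (h.oA w hw) (h.oB w hw)
    (h.oc w hw) (h.ot w hw) (h.cAB w hw) (h.cAt w hw) (h.cBt w hw) (h.cAc w hw) (h.cBc w hw) (h.cct w hw)
  have h2 := span_el' (zz D f w') (h.ncop hw') (by rw [h.norm hw']; exact h.fac w' hw') (h.oA w' hw')
    (h.oB w' hw') (h.oc w' hw') (h.ot w' hw') (h.cAB w' hw') (h.cAt w' hw') (h.cBt w' hw') (h.cAc w' hw')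
    (h.cBc w' hw') (h.cct w' hw')
  rw [hq] at h1
  rw [hq'] at h2
  have h3 : Ideal.span {star (zz D f w')} = cj q * cj (lbl (A w') (zz D f w')) * cj (lbl (B w') (zz D f w')) *
      cj (lbl (c w') (zz D f w')) * cj (lbl (t w') (zz D f w')) ^ l := by
    have hp : ∀ (I : Ideal (ℤ√D)) (n : ℕ), cj (I ^ n) = cj I ^ n := by
      intro I n
      unfold cj
      exact Ideal.map_pow _ _ _
    rw [← cj_span, h2, cj_mul, cj_mul, cj_mul, cj_mul, hp]
  have h4 : lbl (c w) (zz D f w) * cj (lbl (c w') (zz D f w')) = Ideal.span {(c w : ℤ√D)} := by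
    rw [← hc]
    exact lbl_mul_cj _ (h.oc w hw) (h.dvd hw).2.2.1 (h.ncop hw)
  rw [← Ideal.span_singleton_mul_span_singleton, h1, h3, ← h4, mul_pow]
  unfold plbl
  ring

end Hp

end Pool.Agent.Lib.MP_d8bd92_nt
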