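import Pool.Agent.Lib.MP_d8bd92_nt.Hp.LadDefs

set_option autoImplicit false

/-!
Ladder block: sizes.
-/

namespace Pool.Agent.Lib.MP_d8bd92_nt

namespace Hp

open Finset Pool.Agent.Lib.Szpiro

private theorem LadG2_y {Z RA Rc T m m' : ℝ} {y D : ℤ} {f e l : ℕ} {P : Finset (ℤ × ℤ)} {A B c t : ℤ × ℤ → ℕ}
    (h : LadData Z RA Rc T m m' y D f e l P A B c t) : (f : ℝ) ^ 2 * ((|D| : ℤ) : ℝ) ≤ Z := by
  have h1 : (y.natAbs : ℝ) = (f : ℝ) ^ 2 * ((|D| : ℤ) : ℝ) := by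
    rw [Nat.cast_natAbs, h.hy, abs_mul, abs_pow, abs_of_nonneg (by positivity : (0 : ℤ) ≤ (f : ℤ))]
    push_cast
    ring
  rw [← h1]
  exact h.hyZ

private theorem LadG2_hh {Z RA Rc T m m' : ℝ} {y D : ℤ} {f e l : ℕ} {P : Finset (ℤ × ℤ)} {A B c t : ℤ × ℤ → ℕ}
    (h : LadData Z RA Rc T m m' y D f e l P A B c t) {w : ℤ × ℤ} (hw : w ∈ P) :
    ((hh (zz D f w) : ℤ) : ℝ) ≤ 3 * Z := by
  have h1 : hh (zz D f w) = (w.1 + w.2) + |D| * (f : ℤ) ^ 2 := by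
    show gg w ^ 2 + |D| * (f : ℤ) ^ 2 = _
    rw [gg_sq (h.sq w hw)]
  rw [h1]
  have h2 := h.bd w hw
  have h3 := h.hyZ
  have h4 := LadG2_y h
  have h5 : (w.1 : ℝ) ≤ (w.1.natAbs : ℝ) := by
    rw [Nat.cast_natAbs]
    exact_mod_cast le_abs_self w.1
  have h6 : (w.2 : ℝ) ≤ (y.natAbs : ℝ) := by
    rw [h.snd w hw, Nat.cast_natAbs]
    exact_mod_cast le_abs_self y
  push_cast
  push_cast at h4
  nlinarith

private theorem LadG2_nonneg {D : ℤ} (z : ℤ√D) : 0 ≤ hh z := by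
  unfold hh
  positivity

/-- size.  Proof: `hh (zz w) = gg w ^ 2 + |D| f^2 = |w.1 + w.2| + |y| ≤ 3 Z`, `hh_mul`, `hh_star`. -/
theorem lad_size {Z RA Rc T m m' : ℝ} {y D : ℤ} {f e l : ℕ} {P : Finset (ℤ × ℤ)} {A B c t : ℤ × ℤ → ℕ}
    (h : LadData Z RA Rc T m m' y D f e l P A B c t) {w w' : ℤ × ℤ} (hw : w ∈ P) (hw' : w' ∈ P) :
    ((hh (zz D f w * star (zz D f w')) : ℤ) : ℝ) ≤ 18 * Z ^ 2 := by
  have h1 := hh_mul (zz D f w) (star (zz D f w'))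
  rw [hh_star] at h1
  have h2 : ((hh (zz D f w * star (zz D f w')) : ℤ) : ℝ) ≤ 2 * ((hh (zz D f w) : ℤ) : ℝ) * ((hh (zz D f w') : ℤ) : ℝ) := by
    exact_mod_cast h1
  have h3 := LadG2_hh h hw
  have h4 := LadG2_hh h hw'
  have h5 : (0 : ℝ) ≤ ((hh (zz D f w) : ℤ) : ℝ) := by exact_mod_cast LadG2_nonneg (zz D f w)
  have h6 : (0 : ℝ) ≤ ((hh (zz D f w') : ℤ) : ℝ) := by exact_mod_cast LadG2_nonneg (zz D f w')
  have h7 := mul_le_mul h3 h4 h6 (by linarith [h.hZ])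
  nlinarith

/-- `|D|`, `f`, `t t'` are small.  Proof: `|y| = f^2 |D|`, `t ∣ w.1`. -/
theorem lad_small {Z RA Rc T m m' : ℝ} {y D : ℤ} {f e l : ℕ} {P : Finset (ℤ × ℤ)} {A B c t : ℤ × ℤ → ℕ}
    (h : LadData Z RA Rc T m m' y D f e l P A B c t) :
    ((|D| : ℤ) : ℝ) ≤ Z ∧ (f : ℝ) ≤ Z ∧ (∀ w ∈ P, (t w : ℝ) ≤ Z) ∧ (∀ w ∈ P, IsCoprime (t w : ℤ) (D * f)) ∧
      (∀ w ∈ P, IsCoprime w.1 (f : ℤ)) := by
  have hf1 : (1 : ℝ) ≤ (f : ℝ) := by exact_mod_cast h.hf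
  have hD1 : (1 : ℝ) ≤ ((|D| : ℤ) : ℝ) := by exact_mod_cast Int.one_le_abs h.D0
  have hy := LadG2_y h
  have hcop : ∀ w ∈ P, IsCoprime w.1 ((f : ℤ) ^ 2 * D) := by
    intro w hw
    have h1 := h.cop w hw
    rwa [h.snd w hw, h.hy] at h1
  have hcf : ∀ w ∈ P, IsCoprime w.1 (f : ℤ) := by
    intro w hw
    have h1 : IsCoprime w.1 ((f : ℤ) ^ 2) := (hcop w hw).of_mul_right_left
    exact (IsCoprime.pow_right_iff (by norm_num)).1 h1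
  have hcD : ∀ w ∈ P, IsCoprime w.1 D := fun w hw => (hcop w hw).of_mul_right_right
  have htd : ∀ w ∈ P, (t w : ℤ) ∣ w.1 := by
    intro w hw
    have h1 := (h.dvd hw).2.2.2
    rwa [h.norm hw] at h1
  refine ⟨?_, ?_, ?_, ?_, hcf⟩
  · have h1 : (1 : ℝ) ≤ (f : ℝ) ^ 2 := one_le_pow₀ hf1
    exact (le_mul_of_one_le_left (by linarith) h1).trans hy
  · have h1 : (f : ℝ) ≤ (f : ℝ) ^ 2 := le_self_pow₀ hf1 (by norm_num)
    exact (h1.trans (le_mul_of_one_le_right (by positivity) hD1)).trans hy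
  · intro w hw
    have h1 : t w ≤ w.1.natAbs :=
      Nat.le_of_dvd (Nat.pos_of_ne_zero (Int.natAbs_ne_zero.2 (h.nz w hw))) (Int.natCast_dvd.1 (htd w hw))
    exact le_trans (by exact_mod_cast h1) (h.bd w hw)
  · intro w hw
    exact IsCoprime.mul_right ((hcD w hw).of_isCoprime_of_dvd_left (htd w hw))
      ((hcf w hw).of_isCoprime_of_dvd_left (htd w hw))

end Hp

end Pool.Agent.Lib.MP_d8bd92_nt
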