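import Pool.Agent.Lib.MP_d8bd92_nt.Hp.LLDefs
import Pool.Agent.Lib.MP_d8bd92_nt.Hp.LadF1
import Pool.Agent.Lib.MP_d8bd92_nt.Hp.LadF2
import Pool.Agent.Lib.MP_d8bd92_nt.Hp.LadG2

set_option autoImplicit false

/-!
Ladder block: the data of the walk theorem.
-/

namespace Pool.Agent.Lib.MP_d8bd92_nt

namespace Hp

open Finset Pool.Agent.Lib.Szpiro

open scoped Classical in
/-- The data of the walk theorem for a set `F` of pairs.  Proof: choose `r p` for `p ∈ F` with `lad_root` (`t p.1 ≠ t p.2`).  `fac`: `lad_fac`, `lad_root`.  `cA`: `lad_pnorm`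
(for `B` use `hL.swap`; `plbl D f A` does not depend on the order).  `bal`, `real`: `hbr` (definition of `BR`, `star (a * star b)` as in the statement).  `size`: `lad_size`.  `cop`: norm of
`zz w` is `w.1` (`hL.norm`), `lad_small`.  `t_sq`: distinct primes (`Nat.squarefree_mul`).  `badA`: `1 < gcd` in `ℝ` means not coprime.  `mulA`: `idl_inj` gives
`t p'.1 * t p'.2 = t p.1 * t p.2`, so the filter is smaller than the one in the hypothesis (`Finset.card_le_card`, `Finset.filter_subset_filter` / `monotone_filter_right`). -/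
theorem lad_walkdata {Z RA Rc T m m' : ℝ} {y D : ℤ} {f e l : ℕ} {P : Finset (ℤ × ℤ)} {A B c t : ℤ × ℤ → ℕ}
    (hL : LadData Z RA Rc T m m' y D f e l P A B c t) (q : Ideal (ℤ√D)) (E θ dd μ : ℝ) (h : ℕ)
    (F : Finset ((ℤ × ℤ) × (ℤ × ℤ))) (hE : 1 ≤ E) (hEZ : E ≤ Z ^ 2) (hF : F.Nonempty) (hμ : 1 ≤ μ) (hdd : 1 ≤ dd)
    (hF1 : ∀ p ∈ F, p.1 ∈ P ∧ p.2 ∈ P ∧ lbl (2 ^ e) (zz D f p.1) = q ∧ lbl (2 ^ e) (zz D f p.2) = q ∧
        lbl (c p.1) (zz D f p.1) = lbl (c p.2) (zz D f p.2) ∧ t p.1 ≠ t p.2 ∧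
        E ≤ ((t p.1 * t p.2 : ℕ) : ℝ) ∧ ((t p.1 * t p.2 : ℕ) : ℝ) ≤ 2 * E)
    (hθ : 0 < θ) (hθ1 : θ ≤ 1) (hbr : ∀ p p' : (ℤ × ℤ) × (ℤ × ℤ), p.1 ∈ P → p.2 ∈ P → p'.1 ∈ P → p'.2 ∈ P →
      BR 4000000 θ ((zz D f p.1 * star (zz D f p.2)) * star (zz D f p'.1 * star (zz D f p'.2))))
    (degA : ∀ p ∈ F, dd ≤ ((F.filter (fun p' => plbl D f A p' = plbl D f A p)).card : ℝ))
    (degB : ∀ p ∈ F, dd ≤ ((F.filter (fun p' => plbl D f B p' = plbl D f B p)).card : ℝ))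
    (badA : ∀ p ∈ F, ∀ p0 ∈ F, ((F.filter (fun p' => plbl D f A p' = plbl D f A p ∧
      ¬ Nat.Coprime (t p'.1 * t p'.2) (t p0.1 * t p0.2))).card : ℝ) ≤ dd / (2 * h))
    (badB : ∀ p ∈ F, ∀ p0 ∈ F, ((F.filter (fun p' => plbl D f B p' = plbl D f B p ∧
      ¬ Nat.Coprime (t p'.1 * t p'.2) (t p0.1 * t p0.2))).card : ℝ) ≤ dd / (2 * h))
    (mulA : ∀ p ∈ F, ((F.filter (fun p' => plbl D f A p' = plbl D f A p ∧ t p'.1 * t p'.2 = t p.1 * t p.2)).card : ℝ) ≤ μ)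
    (mulB : ∀ p ∈ F, ((F.filter (fun p' => plbl D f B p' = plbl D f B p ∧ t p'.1 * t p'.2 = t p.1 * t p.2)).card : ℝ) ≤ μ) :
    ∃ r : (ℤ × ℤ) × (ℤ × ℤ) → ℤ, WalkData 4000000 (18 * Z ^ 2) D f l E θ h dd dd 1 μ μ F
      (fun p => zz D f p.1 * star (zz D f p.2)) (fun p => t p.1 * t p.2) (fun p => c p.1) r (q * cj q)
      (plbl D f A) (plbl D f B) (fun p => A p.1 * A p.2) (fun p => B p.1 * B p.2) := by
  have hZ1 : (1 : ℝ) ≤ Z := hL.hZ
  have hZ0 : (0 : ℝ) < Z := by linarith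
  have hZ2 : (1 : ℝ) ≤ Z ^ 2 := one_le_pow₀ hZ1
  have hZZ : Z ≤ Z ^ 2 := by nlinarith
  obtain ⟨hs1, hs2, hs3, hs4, hs5⟩ := lad_small hL
  have hroot : ∀ p ∈ F, ∃ s : ℤ, ((t p.1 * t p.2 : ℕ) : ℤ) ∣ s ^ 2 - D ∧
      lbl (t p.1) (zz D f p.1) * cj (lbl (t p.2) (zz D f p.2)) = idl D (t p.1 * t p.2) s := fun p hp => by
    obtain ⟨h1, h2, _, _, _, h3, _, _⟩ := hF1 p hp
    exact lad_root hL h1 h2 h3
  choose! r hr using hroot
  have hN : ∀ p ∈ F, 1 ≤ t p.1 * t p.2 := fun p hp =>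
    Nat.mul_pos (hL.pt _ (hF1 p hp).1).pos (hL.pt _ (hF1 p hp).2.1).pos
  have hgcd : ∀ p ∈ F, ∀ p0 : (ℤ × ℤ) × (ℤ × ℤ), (1 : ℝ) < (Nat.gcd (t p.1 * t p.2) (t p0.1 * t p0.2) : ℝ) →
      ¬ Nat.Coprime (t p.1 * t p.2) (t p0.1 * t p0.2) := by
    intro p _ p0 h1 h2
    rw [Nat.Coprime] at h2
    rw [h2] at h1
    simp at h1
  have hmul : ∀ p ∈ F, ∀ p' ∈ F, idl D (t p'.1 * t p'.2) (r p') = idl D (t p.1 * t p.2) (r p) →
      t p'.1 * t p'.2 = t p.1 * t p.2 := fun p hp p' hp' h1 =>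
    (idl_inj (hN p' hp') (hN p hp) (hr p' hp').1 (hr p hp).1 h1).1
  refine ⟨r, ?_⟩
  refine
  { hX := by linarith
    hD := hL.hD
    hD1 := hL.hD1
    hDX := by linarith
    hf := hL.hf
    hfX := by linarith
    hl := hL.hl
    hE := hE
    hEX := by linarith
    hθ := hθ
    hθ1 := hθ1
    hZ := le_rfl
    hμA := hμ
    hμB := hμ
    hdA := hdd
    hdB := hdd
    ne := hF
    im_dvd := ?_
    nz := ?_
    cop := ?_
    s_pos := fun p hp => (hL.oc _ (hF1 p hp).1).pos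
    t_sq := ?_
    t_odd := fun p hp => (hL.ot _ (hF1 p hp).1).mul (hL.ot _ (hF1 p hp).2.1)
    t_cop := ?_
    root := fun p hp => (hr p hp).1
    t_lo := fun p hp => (hF1 p hp).2.2.2.2.2.2.1
    t_hi := fun p hp => (hF1 p hp).2.2.2.2.2.2.2
    cA := fun p hp => ⟨Nat.mul_pos (hL.oA _ (hF1 p hp).1).pos (hL.oA _ (hF1 p hp).2.1).pos,
      lad_pnorm hL (hF1 p hp).1 (hF1 p hp).2.1⟩
    cB := fun p hp => ⟨Nat.mul_pos (hL.oB _ (hF1 p hp).1).pos (hL.oB _ (hF1 p hp).2.1).pos,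
      lad_pnorm hL.swap (hF1 p hp).1 (hF1 p hp).2.1⟩
    fac := ?_
    bal := fun p hp p' hp' => (hbr p p' (hF1 p hp).1 (hF1 p hp).2.1 (hF1 p' hp').1 (hF1 p' hp').2.1).1
    size := fun p hp => lad_size hL (hF1 p hp).1 (hF1 p hp).2.1
    real := fun p hp p' hp' => (hbr p p' (hF1 p hp).1 (hF1 p hp).2.1 (hF1 p' hp').1 (hF1 p' hp').2.1).2
    degA := degA
    degB := degB
    badA := ?_
    badB := ?_
    mulA := ?_
    mulB := ?_ }
  · intro p _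
    refine ⟨(zz D f p.2).re - (zz D f p.1).re, ?_⟩
    simp only [zz, el, Zsqrtd.im_mul, Zsqrtd.re_star, Zsqrtd.im_star]
    ring
  · intro p hp h0
    have h1 : (zz D f p.1 * star (zz D f p.2)).norm = p.1.1 * p.2.1 := by
      rw [Zsqrtd.norm_mul, Zsqrtd.norm_conj, hL.norm (hF1 p hp).1, hL.norm (hF1 p hp).2.1]
    rw [h0, Zsqrtd.norm_zero] at h1
    exact mul_ne_zero (hL.nz _ (hF1 p hp).1) (hL.nz _ (hF1 p hp).2.1) h1.symm
  · intro p hp
    rw [Zsqrtd.norm_mul, Zsqrtd.norm_conj, hL.norm (hF1 p hp).1, hL.norm (hF1 p hp).2.1]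
    exact (hs5 _ (hF1 p hp).1).mul_left (hs5 _ (hF1 p hp).2.1)
  · intro p hp
    obtain ⟨h1, h2, _, _, _, h3, _, _⟩ := hF1 p hp
    exact (Nat.squarefree_mul ((Nat.coprime_primes (hL.pt _ h1) (hL.pt _ h2)).2 h3)).2
      ⟨(hL.pt _ h1).squarefree, (hL.pt _ h2).squarefree⟩
  · intro p hp
    rw [Nat.cast_mul]
    exact (hs4 _ (hF1 p hp).1).mul_left (hs4 _ (hF1 p hp).2.1)
  · intro p hp
    obtain ⟨h1, h2, h3, h4, h5, _, _, _⟩ := hF1 p hp
    have h6 := lad_fac hL h1 h2 q h3 h4 h5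
    rw [(hr p hp).2] at h6
    exact h6
  · intro p hp p0 hp0
    refine le_trans ?_ (badA p hp p0 hp0)
    have : (F.filter (fun e' => plbl D f A e' = plbl D f A p ∧
        (1 : ℝ) < (Nat.gcd (t e'.1 * t e'.2) (t p0.1 * t p0.2) : ℝ))).card ≤
        (F.filter (fun p' => plbl D f A p' = plbl D f A p ∧
      ¬ Nat.Coprime (t p'.1 * t p'.2) (t p0.1 * t p0.2))).card := by
      apply Finset.card_le_card
      intro x hx
      rw [Finset.mem_filter] at hx ⊢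
      exact ⟨hx.1, hx.2.1, hgcd x hx.1 p0 hx.2.2⟩
    exact_mod_cast this
  · intro p hp p0 hp0
    refine le_trans ?_ (badB p hp p0 hp0)
    have : (F.filter (fun e' => plbl D f B e' = plbl D f B p ∧
        (1 : ℝ) < (Nat.gcd (t e'.1 * t e'.2) (t p0.1 * t p0.2) : ℝ))).card ≤
        (F.filter (fun p' => plbl D f B p' = plbl D f B p ∧
      ¬ Nat.Coprime (t p'.1 * t p'.2) (t p0.1 * t p0.2))).card := by
      apply Finset.card_le_card
      intro x hx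
      rw [Finset.mem_filter] at hx ⊢
      exact ⟨hx.1, hx.2.1, hgcd x hx.1 p0 hx.2.2⟩
    exact_mod_cast this
  · intro p hp
    refine le_trans ?_ (mulA p hp)
    have : (F.filter (fun e' => plbl D f A e' = plbl D f A p ∧
        idl D (t e'.1 * t e'.2) (r e') = idl D (t p.1 * t p.2) (r p))).card ≤
        (F.filter (fun p' => plbl D f A p' = plbl D f A p ∧ t p'.1 * t p'.2 = t p.1 * t p.2)).card := by
      apply Finset.card_le_card
      intro x hx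
      rw [Finset.mem_filter] at hx ⊢
      exact ⟨hx.1, hx.2.1, hmul p hp x hx.1 hx.2.2⟩
    exact_mod_cast this
  · intro p hp
    refine le_trans ?_ (mulB p hp)
    have : (F.filter (fun e' => plbl D f B e' = plbl D f B p ∧
        idl D (t e'.1 * t e'.2) (r e') = idl D (t p.1 * t p.2) (r p))).card ≤
        (F.filter (fun p' => plbl D f B p' = plbl D f B p ∧ t p'.1 * t p'.2 = t p.1 * t p.2)).card := by
      apply Finset.card_le_card
      intro x hx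
      rw [Finset.mem_filter] at hx ⊢
      exact ⟨hx.1, hx.2.1, hmul p hp x hx.1 hx.2.2⟩
    exact_mod_cast this

end Hp

end Pool.Agent.Lib.MP_d8bd92_nt
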