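import Pool.Agent.Lib.MP_d8bd92_nt.Hp.Alpha
import Pool.Agent.Lib.MP_d8bd92_nt.Hp.Preds

set_option autoImplicit false

/-!
Ladder block (few_ladder): data of a fibre.
-/

namespace Pool.Agent.Lib.MP_d8bd92_nt

namespace Hp

open Finset Pool.Agent.Lib.Szpiro

/-- the element of the pair `w` -/
def zz (D : ℤ) (f : ℕ) (w : ℤ × ℤ) : ℤ√D := el D w (f : ℤ)

/-- product of a label with the conjugate of another one -/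
def plbl (D : ℤ) (f : ℕ) (A : ℤ × ℤ → ℕ) (p : (ℤ × ℤ) × (ℤ × ℤ)) : Ideal (ℤ√D) :=
  lbl (A p.1) (zz D f p.1) * cj (lbl (A p.2) (zz D f p.2))

/-- Data of a fibre: all pairs of `P` have the second member `y = f ^ 2 D`, the first one is
`± 2^e A B c t^l` with `t` an odd prime. -/
structure LadData (Z RA Rc T m m' : ℝ) (y D : ℤ) (f e l : ℕ) (P : Finset (ℤ × ℤ)) (A B c t : ℤ × ℤ → ℕ) : Prop where
  hZ : 1 ≤ Z
  hRA : 1 ≤ RA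
  hRc : 1 ≤ Rc
  hT : 1 ≤ T
  hm : 1 ≤ m
  hm' : 1 ≤ m'
  hD : Squarefree D
  hD1 : D ≠ 1
  hf : 1 ≤ f
  hy : y = (f : ℤ) ^ 2 * D
  hyZ : (y.natAbs : ℝ) ≤ Z
  hl : 1 ≤ l
  snd : ∀ w ∈ P, w.2 = y
  nz : ∀ w ∈ P, w.1 ≠ 0
  cop : ∀ w ∈ P, IsCoprime w.1 w.2
  sq : ∀ w ∈ P, ∃ g : ℤ, w.1 + w.2 = g ^ 2
  bd : ∀ w ∈ P, (w.1.natAbs : ℝ) ≤ Z
  dy : ∀ w ∈ P, ∀ w' ∈ P, w.1.natAbs ≤ 2 * w'.1.natAbs
  sgn : ∀ w ∈ P, ∀ w' ∈ P, (0 < w.1 ↔ 0 < w'.1)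
  fac : ∀ w ∈ P, w.1.natAbs = 2 ^ e * A w * B w * c w * t w ^ l
  oA : ∀ w ∈ P, Odd (A w)
  oB : ∀ w ∈ P, Odd (B w)
  oc : ∀ w ∈ P, Odd (c w)
  ot : ∀ w ∈ P, Odd (t w)
  pt : ∀ w ∈ P, (t w).Prime
  cAB : ∀ w ∈ P, Nat.Coprime (A w) (B w)
  cAt : ∀ w ∈ P, Nat.Coprime (A w) (t w)
  cBt : ∀ w ∈ P, Nat.Coprime (B w) (t w)
  cAc : ∀ w ∈ P, Nat.Coprime (A w) (c w)
  cBc : ∀ w ∈ P, Nat.Coprime (B w) (c w)
  cct : ∀ w ∈ P, Nat.Coprime (c w) (t w)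
  rA : ∀ w ∈ P, (rd (A w) : ℝ) ≤ RA
  rB : ∀ w ∈ P, (rd (B w) : ℝ) ≤ RA
  rc : ∀ w ∈ P, (rd (c w) : ℝ) ≤ Rc
  tT : ∀ w ∈ P, (t w : ℝ) ≤ T
  mAt : ∀ w ∈ P, ((P.filter (fun w' => A w' = A w ∧ t w' = t w)).card : ℝ) ≤ m
  mBt : ∀ w ∈ P, ((P.filter (fun w' => B w' = B w ∧ t w' = t w)).card : ℝ) ≤ m
  mAc : ∀ w ∈ P, ((P.filter (fun w' => A w' = A w ∧ c w' = c w)).card : ℝ) ≤ m
  mBc : ∀ w ∈ P, ((P.filter (fun w' => B w' = B w ∧ c w' = c w)).card : ℝ) ≤ m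
  mct : ∀ w ∈ P, ((P.filter (fun w' => c w' = c w ∧ t w' = t w)).card : ℝ) ≤ m'

/-- exchange of `A` and `B` -/
theorem LadData.swap {Z RA Rc T m m' : ℝ} {y D : ℤ} {f e l : ℕ} {P : Finset (ℤ × ℤ)} {A B c t : ℤ × ℤ → ℕ}
    (h : LadData Z RA Rc T m m' y D f e l P A B c t) : LadData Z RA Rc T m m' y D f e l P B A c t where
  hZ := h.hZ
  hRA := h.hRA
  hRc := h.hRc
  hT := h.hT
  hm := h.hm
  hm' := h.hm'
  hD := h.hD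
  hD1 := h.hD1
  hf := h.hf
  hy := h.hy
  hyZ := h.hyZ
  hl := h.hl
  snd := h.snd
  nz := h.nz
  cop := h.cop
  sq := h.sq
  bd := h.bd
  dy := h.dy
  sgn := h.sgn
  fac := fun w hw => by rw [h.fac w hw]; ring
  oA := h.oB
  oB := h.oA
  oc := h.oc
  ot := h.ot
  pt := h.pt
  cAB := fun w hw => (h.cAB w hw).symm
  cAt := h.cBt
  cBt := h.cAt
  cAc := h.cBc
  cBc := h.cAc
  cct := h.cct
  rA := h.rB
  rB := h.rA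
  rc := h.rc
  tT := h.tT
  mAt := h.mBt
  mBt := h.mAt
  mAc := h.mBc
  mBc := h.mAc
  mct := h.mct

section basics

variable {Z RA Rc T m m' : ℝ} {y D : ℤ} {f e l : ℕ} {P : Finset (ℤ × ℤ)} {A B c t : ℤ × ℤ → ℕ}

theorem LadData.norm (h : LadData Z RA Rc T m m' y D f e l P A B c t) {w : ℤ × ℤ} (hw : w ∈ P) :
    (zz D f w).norm = w.1 :=
  el_norm (h.sq w hw) (by rw [h.snd w hw, h.hy])

theorem LadData.ncop (h : LadData Z RA Rc T m m' y D f e l P A B c t) {w : ℤ × ℤ} (hw : w ∈ P) :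
    IsCoprime (zz D f w).norm ((zz D f w).im ^ 2 * D) :=
  el_cop (h.sq w hw) (by rw [h.snd w hw, h.hy]) (h.cop w hw)

theorem LadData.im (_h : LadData Z RA Rc T m m' y D f e l P A B c t) (w : ℤ × ℤ) :
    (zz D f w).im = (f : ℤ) := rfl

theorem LadData.D0 (h : LadData Z RA Rc T m m' y D f e l P A B c t) : D ≠ 0 := h.hD.ne_zero

/-- the divisors `A w`, `B w`, `c w`, `t w` of the norm -/
theorem LadData.dvd (h : LadData Z RA Rc T m m' y D f e l P A B c t) {w : ℤ × ℤ} (hw : w ∈ P) :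
    (A w : ℤ) ∣ (zz D f w).norm ∧ (B w : ℤ) ∣ (zz D f w).norm ∧ (c w : ℤ) ∣ (zz D f w).norm ∧
      (t w : ℤ) ∣ (zz D f w).norm := by
  rw [h.norm hw]
  have hl := h.hl
  have h1 := h.fac w hw
  refine ⟨Int.natCast_dvd.2 ?_, Int.natCast_dvd.2 ?_, Int.natCast_dvd.2 ?_, Int.natCast_dvd.2 ?_⟩
  · rw [h1]; exact ⟨2 ^ e * B w * c w * t w ^ l, by ring⟩
  · rw [h1]; exact ⟨2 ^ e * A w * c w * t w ^ l, by ring⟩
  · rw [h1]; exact ⟨2 ^ e * A w * B w * t w ^ l, by ring⟩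
  · rw [h1]; exact (dvd_pow_self _ (by omega)).mul_left _

end basics

end Hp

end Pool.Agent.Lib.MP_d8bd92_nt
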