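import Pool.Agent.Lib.MP_d8bd92_nt.Hp.LadDefs

set_option autoImplicit false

/-!
Ladder block: pairs of labels with given product.
-/

namespace Pool.Agent.Lib.MP_d8bd92_nt

namespace Hp

open Finset Pool.Agent.Lib.Szpiro

private theorem LadE1_lab {Z RA Rc T m m' : ℝ} {y D : ℤ} {f e l : ℕ} {P : Finset (ℤ × ℤ)} {A B c t : ℤ × ℤ → ℕ}
    (h : LadData Z RA Rc T m m' y D f e l P A B c t) {w : ℤ × ℤ} (hw : w ∈ P) :
    ∃ (A' : ℕ) (r : ℤ), 1 ≤ A' ∧ (A' : ℝ) ≤ Z ∧ Odd A' ∧ IsCoprime (A' : ℤ) D ∧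
      (A' : ℤ) ∣ r ^ 2 - D ∧ lbl (A w) (zz D f w) = idl D A' r := by
  have hd := (h.dvd hw).1
  have ha1 : 1 ≤ A w := (h.oA w hw).pos
  obtain ⟨r, hr1, _, hr3⟩ := lbl_eq_idl (zz D f w) ha1 hd (h.ncop hw)
  refine ⟨A w, r, ha1, ?_, h.oA w hw, ?_, hr1, hr3⟩
  · have h1 : (A w : ℤ) ∣ w.1 := by rw [← h.norm hw]; exact hd
    have h2 : A w ∣ w.1.natAbs := Int.natCast_dvd.1 h1
    have h3 : A w ≤ w.1.natAbs := Nat.le_of_dvd (Int.natAbs_pos.2 (h.nz w hw)) h2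
    exact le_trans (by exact_mod_cast h3) (h.bd w hw)
  · exact ((h.ncop hw).of_mul_right_right).of_isCoprime_of_dvd_left hd

open scoped Classical in
/-- `F` pairs with a given product label: the set of pairs of labels is small.  Proof: `card_prod_le` applied to the image of `F` under
`p ↦ (lbl (A p.1) (zz p.1), lbl (A p.2) (zz p.2))` (labels are `idl D A r` by `lbl_eq_idl`, `A ∣ w.1`, so `A ≤ Z` and `A` prime to `D`). -/
theorem lad_prod (ε : ℝ) (hε : 0 < ε) : ∃ C : ℝ, 1 ≤ C ∧ ∀ (Z RA Rc T m m' : ℝ) (y D : ℤ) (f e l : ℕ) (P : Finset (ℤ × ℤ))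
    (A B c t : ℤ × ℤ → ℕ), LadData Z RA Rc T m m' y D f e l P A B c t → ∀ (Q : Ideal (ℤ√D)) (F : Finset ((ℤ × ℤ) × (ℤ × ℤ))),
    (∀ p ∈ F, p.1 ∈ P ∧ p.2 ∈ P ∧ plbl D f A p = Q) →
    ((F.image (fun p => (lbl (A p.1) (zz D f p.1), lbl (A p.2) (zz D f p.2)))).card : ℝ) ≤ C * Z ^ ε := by
  obtain ⟨C, hC, hc⟩ := card_prod_le ε hε
  refine ⟨max C 1, le_max_right _ _, ?_⟩
  intro Z RA Rc T m m' y D f e l P A B c t h Q F hF
  have hZp : (0 : ℝ) ≤ Z ^ ε := Real.rpow_nonneg (le_trans zero_le_one h.hZ) _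
  refine (hc D Z Q _ h.hZ ?_).trans (mul_le_mul_of_nonneg_right (le_max_left _ _) hZp)
  intro q hq
  obtain ⟨p, hp, rfl⟩ := Finset.mem_image.1 hq
  obtain ⟨h1, h2, h3⟩ := hF p hp
  exact ⟨LadE1_lab h h1, LadE1_lab h h2, h3⟩

end Hp

end Pool.Agent.Lib.MP_d8bd92_nt
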