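import Pool.Agent.Lib.MP_d8bd92_nt.Hp.WJ
import Pool.Agent.Lib.MP_d8bd92_nt.Hp.WA
import Pool.Agent.Lib.MP_d8bd92_nt.Hp.LadH1
import Pool.Agent.Lib.MP_d8bd92_nt.Hp.LadD
import Pool.Agent.Lib.MP_d8bd92_nt.Hp.LadE2
import Pool.Agent.Lib.MP_d8bd92_nt.Hp.LadE3
import Pool.Agent.Lib.MP_d8bd92_nt.Hp.LadG1

set_option autoImplicit false

/-!
Ladder block: the walk inequality for pairs.
-/

namespace Pool.Agent.Lib.MP_d8bd92_nt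

namespace Hp

open Finset Pool.Agent.Lib.Szpiro

/-- the degrees are large -/
private theorem LadH2_deg {C C1 C2 Z ε ε' Rc RA dd p F V : ℝ} (hC1 : 1 ≤ C1) (hC2 : 1 ≤ C2)
    (hC : 4 * C1 * C2 ≤ C) (hZ : 1 ≤ Z) (hε' : 0 < ε') (hε : 2 * ε' ≤ ε) (hRc : 1 ≤ Rc) (hRA : 1 ≤ RA) (hdd : 1 ≤ dd)
    (h1 : dd * (C * Z ^ ε * Rc * RA ^ 2) ≤ p ^ 2) (h2 : p ^ 2 ≤ C1 * Z ^ ε' * Rc * F)
    (hV0 : 0 < V) (hV : V ≤ C2 * Z ^ ε' * RA ^ 2) : dd ≤ F / (4 * V) := by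
  have hZ0 : 0 < Z := by linarith
  have hz1 : 0 < Z ^ ε' := Real.rpow_pos_of_pos hZ0 _
  have hz2 : Z ^ ε' * Z ^ ε' ≤ Z ^ ε := by
    rw [← Real.rpow_add hZ0]
    exact Real.rpow_le_rpow_of_exponent_le hZ (by linarith)
  have hRc0 : 0 < Rc := by linarith
  have hRA0 : 0 < RA := by linarith
  have hC00 : 0 ≤ C := le_trans (by positivity) hC
  rw [le_div_iff₀ (by positivity)]
  have h3 : dd * (4 * V) * (C1 * Z ^ ε' * Rc) ≤ F * (C1 * Z ^ ε' * Rc) := by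
    calc dd * (4 * V) * (C1 * Z ^ ε' * Rc)
        ≤ dd * (4 * (C2 * Z ^ ε' * RA ^ 2)) * (C1 * Z ^ ε' * Rc) := by gcongr
      _ = dd * ((4 * C1 * C2) * (Z ^ ε' * Z ^ ε') * Rc * RA ^ 2) := by ring
      _ ≤ dd * (C * Z ^ ε * Rc * RA ^ 2) := by gcongr
      _ ≤ p ^ 2 := h1
      _ ≤ C1 * Z ^ ε' * Rc * F := h2
      _ = F * (C1 * Z ^ ε' * Rc) := by ring
  exact le_of_mul_le_mul_right h3 (by positivity)

/-- the final computation -/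
private theorem LadH2_fin {C C2 C4 C5 Z ε' m RA T M dd θ E fD TD V μ : ℝ} (h : ℕ) (hh1 : 1 ≤ h)
    (hC2 : 1 ≤ C2) (hC4 : 1 ≤ C4) (hC5 : 0 < C5) (hZ : 1 ≤ Z) (hε' : 0 < ε') (hm : 1 ≤ m)
    (hT : 1 ≤ T) (hM : 0 < M) (hTD : 0 ≤ TD) (hE : 1 ≤ E) (hET : E ≤ T ^ 2)
    (hV0 : 0 ≤ V) (hV : V ≤ C2 * Z ^ ε' * RA ^ 2) (hθ : θ / fD ≤ 8 / √M) (hθ0 : 0 ≤ θ / fD)
    (hμ : μ = C4 * Z ^ ε' * m ^ 2)
    (hC : 8 * C5 * (18 : ℝ) ^ ε' * C4 ^ h * C2 ≤ C)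
    (hw : dd ^ ((h + 1) / 2) * dd ^ (h / 2) ≤ C5 * (18 * Z ^ 2) ^ ε' * 1 ^ (h ^ 3) * μ ^ ((h + 1) / 2) * μ ^ (h / 2) *
        V * TD * (1 + θ * E ^ h / fD)) :
    dd ^ h ≤ C * Z ^ ((h + 3 : ℝ) * ε') * m ^ (2 * h) * RA ^ 2 * TD * (1 + T ^ (2 * h) / √M) := by
  have hZ0 : 0 < Z := by linarith
  have hz1 : 0 < Z ^ ε' := Real.rpow_pos_of_pos hZ0 _
  have hhh : (h + 1) / 2 + h / 2 = h := by omega
  have e1 : dd ^ ((h + 1) / 2) * dd ^ (h / 2) = dd ^ h := by rw [← pow_add, hhh]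
  have e2 : μ ^ ((h + 1) / 2) * μ ^ (h / 2) = C4 ^ h * (Z ^ ε') ^ h * m ^ (2 * h) := by
    rw [← pow_add, hhh, hμ, mul_pow, mul_pow, ← pow_mul]
  have e3 : (18 * Z ^ 2) ^ ε' = (18 : ℝ) ^ ε' * (Z ^ ε' * Z ^ ε') := by
    rw [Real.mul_rpow (by norm_num) (by positivity), pow_two, Real.mul_rpow hZ0.le hZ0.le]
  have e4 : Z ^ ((h + 3 : ℝ) * ε') = (Z ^ ε' * Z ^ ε') * (Z ^ ε') ^ h * Z ^ ε' := by
    rw [show (h + 3 : ℝ) * ε' = (ε' + ε' + ε' * h + ε') by ring, Real.rpow_add hZ0, Real.rpow_add hZ0,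
      Real.rpow_add hZ0, Real.rpow_mul hZ0.le, Real.rpow_natCast]
  have hTh : 0 < T ^ (2 * h) := by positivity
  have hsM : 0 < √M := Real.sqrt_pos.mpr hM
  have h5 : 1 + θ * E ^ h / fD ≤ 8 * (1 + T ^ (2 * h) / √M) := by
    have h6 : E ^ h ≤ T ^ (2 * h) := by
      rw [pow_mul]
      exact pow_le_pow_left₀ (by linarith) hET h
    have h7 : θ * E ^ h / fD = θ / fD * E ^ h := by ring
    have h8 : θ / fD * E ^ h ≤ 8 / √M * T ^ (2 * h) := by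
      apply mul_le_mul hθ h6 (by positivity) (by positivity)
    have h9 : 8 / √M * T ^ (2 * h) = 8 * (T ^ (2 * h) / √M) := by ring
    rw [h7]
    linarith
  have h50 : 0 ≤ 1 + T ^ (2 * h) / √M := by positivity
  have h51 : 0 ≤ 1 + θ * E ^ h / fD := by
    have h7 : θ * E ^ h / fD = θ / fD * E ^ h := by ring
    rw [h7]
    positivity
  have h18 : 0 < (18 : ℝ) ^ ε' := Real.rpow_pos_of_pos (by norm_num) _
  rw [← e1]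
  calc dd ^ ((h + 1) / 2) * dd ^ (h / 2)
      ≤ C5 * (18 * Z ^ 2) ^ ε' * 1 ^ (h ^ 3) * μ ^ ((h + 1) / 2) * μ ^ (h / 2) *
        V * TD * (1 + θ * E ^ h / fD) := hw
    _ = C5 * ((18 : ℝ) ^ ε' * (Z ^ ε' * Z ^ ε')) * (C4 ^ h * (Z ^ ε') ^ h * m ^ (2 * h)) * V * TD *
        (1 + θ * E ^ h / fD) := by rw [← e2, ← e3, one_pow]; ring
    _ ≤ C5 * ((18 : ℝ) ^ ε' * (Z ^ ε' * Z ^ ε')) * (C4 ^ h * (Z ^ ε') ^ h * m ^ (2 * h)) *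
        (C2 * Z ^ ε' * RA ^ 2) * TD * (8 * (1 + T ^ (2 * h) / √M)) := by gcongr
    _ = (8 * C5 * (18 : ℝ) ^ ε' * C4 ^ h * C2) * ((Z ^ ε' * Z ^ ε') * (Z ^ ε') ^ h * Z ^ ε') *
        m ^ (2 * h) * RA ^ 2 * TD * (1 + T ^ (2 * h) / √M) := by ring
    _ ≤ C * ((Z ^ ε' * Z ^ ε') * (Z ^ ε') ^ h * Z ^ ε') *
        m ^ (2 * h) * RA ^ 2 * TD * (1 + T ^ (2 * h) / √M) := by gcongr
    _ = _ := by rw [← e4]

/-- the bad sets are small -/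
private theorem LadH2_bad {C C3 Z ε ε' m dd x : ℝ} (h : ℕ) (hh1 : 1 ≤ h) (hC3 : 1 ≤ C3) (hC : 2 * h * C3 ≤ C)
    (hZ : 1 ≤ Z) (hε : ε' ≤ ε) (hm : 1 ≤ m) (hdd : C * Z ^ ε * m ^ 2 ≤ dd) (hx : x ≤ C3 * Z ^ ε' * m ^ 2) :
    x ≤ dd / (2 * h) := by
  have hZ0 : 0 < Z := by linarith
  have hz1 : 0 < Z ^ ε' := Real.rpow_pos_of_pos hZ0 _
  have hz2 : Z ^ ε' ≤ Z ^ ε := Real.rpow_le_rpow_of_exponent_le hZ hε
  have hh : (0 : ℝ) < h := by exact_mod_cast hh1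
  have hC00 : 0 ≤ C := le_trans (by positivity) hC
  rw [le_div_iff₀ (by positivity)]
  calc x * (2 * h) ≤ C3 * Z ^ ε' * m ^ 2 * (2 * h) := by gcongr
    _ = 2 * h * C3 * Z ^ ε' * m ^ 2 := by ring
    _ ≤ C * Z ^ ε * m ^ 2 := by gcongr
    _ ≤ dd := hdd

open scoped Classical in
/-- the bad sets of one kind of labels -/
private theorem LadH2_badset {C C3 Z RA Rc T m m' ε ε' dd : ℝ} {y D : ℤ} {f e l : ℕ} {P : Finset (ℤ × ℤ)} {A B c t : ℤ × ℤ → ℕ}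
    (hL : LadData Z RA Rc T m m' y D f e l P A B c t) (h : ℕ) (hh1 : 1 ≤ h) (hC3 : 1 ≤ C3) (hC : 2 * h * C3 ≤ C)
    (hε : ε' ≤ ε) (hdd : C * Z ^ ε * m ^ 2 ≤ dd)
    (hbad : ∀ (Z RA Rc T m m' : ℝ) (y D : ℤ) (f e l : ℕ) (P : Finset (ℤ × ℤ))
      (A B c t : ℤ × ℤ → ℕ), LadData Z RA Rc T m m' y D f e l P A B c t →
      ∀ (Q : Ideal (ℤ√D)) (N : ℕ) (F : Finset ((ℤ × ℤ) × (ℤ × ℤ))), 1 ≤ N → (N : ℝ) ≤ Z ^ 2 →
      (∀ p ∈ F, p.1 ∈ P ∧ p.2 ∈ P ∧ plbl D f A p = Q ∧ c p.1 = c p.2 ∧ ¬ Nat.Coprime (t p.1 * t p.2) N) →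
      (F.card : ℝ) ≤ C3 * Z ^ ε' * m ^ 2)
    (F : Finset ((ℤ × ℤ) × (ℤ × ℤ)))
    (hF : ∀ p ∈ F, p.1 ∈ P ∧ p.2 ∈ P ∧ lbl (c p.1) (zz D f p.1) = lbl (c p.2) (zz D f p.2)) :
    ∀ p ∈ F, ∀ p0 ∈ F, ((F.filter (fun p' => plbl D f A p' = plbl D f A p ∧
      ¬ Nat.Coprime (t p'.1 * t p'.2) (t p0.1 * t p0.2))).card : ℝ) ≤ dd / (2 * h) := by
  intro p hp p0 hp0
  apply LadH2_bad h hh1 hC3 hC hL.hZ hε hL.hm hdd
  obtain ⟨h01, h02, -⟩ := hF p0 hp0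
  have hsm := (lad_small hL).2.2.1
  apply hbad Z RA Rc T m m' y D f e l P A B c t hL (plbl D f A p) (t p0.1 * t p0.2)
  · exact Nat.mul_pos (hL.pt _ h01).pos (hL.pt _ h02).pos
  · push_cast
    rw [pow_two]
    exact mul_le_mul (hsm _ h01) (hsm _ h02) (Nat.cast_nonneg _) (by linarith [hL.hZ])
  · intro p' hp'
    rw [mem_filter] at hp'
    obtain ⟨h1, h2, h3⟩ := hF p' hp'.1
    refine ⟨h1, h2, hp'.2.1, ?_, hp'.2.2⟩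
    exact (lbl_inj _ _ (hL.oc _ h1).pos (hL.oc _ h2).pos (hL.dvd h1).2.2.1 (hL.dvd h2).2.2.1
      (hL.ncop h1) (hL.ncop h2) h3).1

/-- Walk inequality for pairs, in numbers.  Proof: `ε' = ε / (h + 3)`.  `lad_ecal ε'` gives `q, E, F`.  `lad_plabels ε'` for `A` and (via `LadData.swap`) for `B`: at most
`V = C2 Z^ε' RA^2` labels on `F`.  `min_degree F (plbl D f A) (plbl D f B)`: `F' ⊆ F` with degrees `≥ #F / (4 V) ≥ dd` (hypothesis on `dd`, `C ≥ 4 C1 C2`).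
`lad_bal`: `θ`.  `μ = C4 Z^ε' m^2` (`lad_mul`), bad sets `≤ C3 Z^ε' m^2 ≤ dd / (2 h)` (`lad_bad` with `N = t p0.1 * t p0.2`; `c p.1 = c p.2` by `lbl_inj`), `C ≥ 2 h C3`.
`lad_walkdata`, then `walk_theorem ε' L h 4000000`: `dd^((h+1)/2) dd^(h/2) = dd^h ≤ C5 (18 Z^2)^ε' μ^((h+1)/2) μ^(h/2) V T_D (1 + θ E^h / (f √|D|))`, and
`θ E^h / (f √|D|) ≤ 8 T^(2h) / √M`.  Powers of `Z`: `2 ε' + h ε' + ε' = ε`. -/
theorem ladder_num (ε : ℝ) (hε : 0 < ε) (L h : ℕ) (hh1 : 1 ≤ h) : ∃ C : ℝ, 1 ≤ C ∧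
    ∀ (Z RA Rc T m m' : ℝ) (y D : ℤ) (f e l : ℕ) (P : Finset (ℤ × ℤ)) (A B c t : ℤ × ℤ → ℕ),
    LadData Z RA Rc T m m' y D f e l P A B c t → l ≤ L → ∀ (M dd : ℝ), 0 < M →
    (∀ w ∈ P, M ≤ max (w.1.natAbs : ℝ) (w.2.natAbs : ℝ)) → 1 ≤ dd → C * Z ^ ε * Rc * m' ≤ (P.card : ℝ) →
    dd * (C * Z ^ ε * Rc * RA ^ 2) ≤ (P.card : ℝ) ^ 2 → C * Z ^ ε * m ^ 2 ≤ dd →
    dd ^ h ≤ C * Z ^ ε * m ^ (2 * h) * RA ^ 2 * (if l = 1 then 1 else √((|D| : ℤ) : ℝ)) * (1 + T ^ (2 * h) / √M) := by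
  classical
  set ε' : ℝ := ε / (h + 3) with hε'def
  have hh0 : (0 : ℝ) < h + 3 := by positivity
  have hε' : 0 < ε' := by positivity
  have hεε : (h + 3 : ℝ) * ε' = ε := by rw [hε'def]; field_simp
  have hh1' : (1 : ℝ) ≤ h := by exact_mod_cast hh1
  have h2ε : 2 * ε' ≤ ε := by nlinarith
  have h1ε : ε' ≤ ε := by linarith
  obtain ⟨C1, hC1, hecal⟩ := lad_ecal ε' hε'
  obtain ⟨C2, hC2, hplab⟩ := lad_plabels ε' hε'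
  obtain ⟨C3, hC3, hbad⟩ := lad_bad ε' hε'
  obtain ⟨C4, hC4, hmul⟩ := lad_mul ε' hε'
  obtain ⟨C5, hC5, hwalk⟩ := walk_theorem ε' hε' L h hh1 4000000 (by norm_num)
  have h18 : 0 < (18 : ℝ) ^ ε' := Real.rpow_pos_of_pos (by norm_num) _
  set Ca : ℝ := 4 * C1 * C2 with hCa
  set Cb : ℝ := 2 * h * C3 with hCb
  set Cc : ℝ := 8 * C5 * (18 : ℝ) ^ ε' * C4 ^ h * C2 with hCc
  have hCa1 : C1 ≤ Ca := by rw [hCa]; nlinarith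
  have hCb0 : 0 ≤ Cb := by positivity
  have hCc0 : 0 ≤ Cc := by positivity
  refine ⟨Ca + Cb + Cc, by linarith, ?_⟩
  set C : ℝ := Ca + Cb + Cc with hCdef
  intro Z RA Rc T m m' y D f e l P A B c t hL hl M dd hM hMP hdd hP1 hP2 hdd2
  have hZ := hL.hZ
  have hZ0 : 0 < Z := by linarith
  have hz1 : 1 ≤ Z ^ ε' := Real.one_le_rpow hZ hε'.le
  have hz2 : Z ^ ε' ≤ Z ^ ε := Real.rpow_le_rpow_of_exponent_le hZ h1ε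
  have hRc0 : 0 < Rc := by linarith [hL.hRc]
  have hm'0 : 0 < m' := by linarith [hL.hm']
  have hC1C : C1 ≤ C := by linarith
  obtain ⟨q, E, F, hE1, hET, hEZ, hFne, hF, hcard⟩ := hecal Z RA Rc T m m' y D f e l P A B c t hL
    (le_trans (by gcongr) hP1)
  have hFP : ∀ p ∈ F, p.1 ∈ P ∧ p.2 ∈ P := fun p hp => ⟨(hF p hp).1, (hF p hp).2.1⟩
  have hVA := hplab Z RA Rc T m m' y D f e l P A B c t hL F hFP
  have hVB := hplab Z RA Rc T m m' y D f e l P B A c t hL.swap F hFP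
  obtain ⟨F', hF'F, hF'ne, hdA, hdB⟩ := min_degree F (plbl D f A) (plbl D f B) hFne
  have hPne : P.Nonempty := by
    obtain ⟨p, hp⟩ := hFne
    exact ⟨_, (hF p hp).1⟩
  obtain ⟨θ, hθ0, hθ1, hbr, hθM⟩ := lad_bal hL M hM hMP hPne
  set μ : ℝ := C4 * Z ^ ε' * m ^ 2 with hμdef
  have hm := hL.hm
  have hμ1 : 1 ≤ μ := by
    rw [hμdef]
    have : 1 ≤ m ^ 2 := one_le_pow₀ hm
    have h1 : 1 ≤ C4 * Z ^ ε' := one_le_mul_of_one_le_of_one_le hC4 hz1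
    exact one_le_mul_of_one_le_of_one_le h1 this
  have hVA0 : (0 : ℝ) < ((F.image (plbl D f A)).card : ℝ) := by
    exact_mod_cast (hFne.image _).card_pos
  have hVB0 : (0 : ℝ) < ((F.image (plbl D f B)).card : ℝ) := by
    exact_mod_cast (hFne.image _).card_pos
  have hdegA : dd ≤ (F.card : ℝ) / (4 * (F.image (plbl D f A)).card) :=
    LadH2_deg hC1 hC2 (by linarith) hZ hε' h2ε hL.hRc hL.hRA hdd hP2 hcard hVA0 hVA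
  have hdegB : dd ≤ (F.card : ℝ) / (4 * (F.image (plbl D f B)).card) :=
    LadH2_deg hC1 hC2 (by linarith) hZ hε' h2ε hL.hRc hL.hRA hdd hP2 hcard hVB0 hVB
  have hF'1 : ∀ p ∈ F', p.1 ∈ P ∧ p.2 ∈ P ∧ lbl (2 ^ e) (zz D f p.1) = q ∧ lbl (2 ^ e) (zz D f p.2) = q ∧
        lbl (c p.1) (zz D f p.1) = lbl (c p.2) (zz D f p.2) ∧ t p.1 ≠ t p.2 ∧
        E ≤ ((t p.1 * t p.2 : ℕ) : ℝ) ∧ ((t p.1 * t p.2 : ℕ) : ℝ) ≤ 2 * E := fun p hp => hF p (hF'F hp)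
  have hF'2 : ∀ p ∈ F', p.1 ∈ P ∧ p.2 ∈ P ∧ lbl (c p.1) (zz D f p.1) = lbl (c p.2) (zz D f p.2) :=
    fun p hp => ⟨(hF'1 p hp).1, (hF'1 p hp).2.1, (hF'1 p hp).2.2.2.2.1⟩
  have hbadA := LadH2_badset hL h hh1 hC3 (by linarith : 2 * (h : ℝ) * C3 ≤ C) h1ε hdd2 hbad F' hF'2
  have hbadB := LadH2_badset hL.swap h hh1 hC3 (by linarith : 2 * (h : ℝ) * C3 ≤ C) h1ε hdd2 hbad F' hF'2
  obtain ⟨r, hW⟩ := lad_walkdata hL q E θ dd μ h F' hE1 hEZ hF'ne hμ1 hdd hF'1 hθ0 hθ1 hbr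
    (fun p hp => hdegA.trans (hdA p hp)) (fun p hp => hdegB.trans (hdB p hp)) hbadA hbadB
    (fun p hp => hmul Z RA Rc T m m' y D f e l P A B c t hL (plbl D f A p) (t p.1 * t p.2) _ (by
      intro p' hp'
      rw [mem_filter] at hp'
      exact ⟨(hF'1 p' hp'.1).1, (hF'1 p' hp'.1).2.1, hp'.2.1, hp'.2.2⟩))
    (fun p hp => hmul Z RA Rc T m m' y D f e l P B A c t hL.swap (plbl D f B p) (t p.1 * t p.2) _ (by
      intro p' hp'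
      rw [mem_filter] at hp'
      exact ⟨(hF'1 p' hp'.1).1, (hF'1 p' hp'.1).2.1, hp'.2.1, hp'.2.2⟩))
  have hw := hwalk (18 * Z ^ 2) D f l E θ dd dd 1 μ μ _ F' _ _ _ r _ _ _ _ _ hl hW
  have hfac : (f : ℝ) * √((|D| : ℤ) : ℝ) > 0 := by
    have h1 : (0 : ℝ) < f := by exact_mod_cast hL.hf
    have h2 : (0 : ℝ) < ((|D| : ℤ) : ℝ) := by exact_mod_cast abs_pos.mpr hL.D0
    have h3 := Real.sqrt_pos.mpr h2
    positivity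
  rw [← hεε]
  refine LadH2_fin h hh1 hC2 hC4 hC5 hZ hε' hm hL.hT hM (by split_ifs <;> positivity) hE1 hET
    (Nat.cast_nonneg _) ?_ hθM (by positivity) hμdef (by linarith) hw
  split_ifs
  · refine le_trans ?_ hVA
    exact_mod_cast card_le_card (image_subset_image hF'F)
  · refine le_trans ?_ hVB
    exact_mod_cast card_le_card (image_subset_image hF'F)

end Hp

end Pool.Agent.Lib.MP_d8bd92_nt
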