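import Pool.Agent.Lib.MP_d8bd92_nt.Hp.LadDefs

set_option autoImplicit false

/-!
Ladder block: decomposition of one tie number.
-/

namespace Pool.Agent.Lib.MP_d8bd92_nt

namespace Hp

open Finset Pool.Agent.Lib.Szpiro

private theorem LadJ1_rd {n : ℕ} {p l : Fin n → ℕ} (hp : ∀ i, (p i).Prime) (hinj : Function.Injective p)
    (hl : ∀ i, 1 ≤ l i) (S : Finset (Fin n)) : rd (∏ i ∈ S, p i ^ l i) = ∏ i ∈ S, p i := by
  classical
  induction S using Finset.induction_on with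
  | empty => simp [rd_one]
  | insert q S hq ih =>
    rw [Finset.prod_insert hq, Finset.prod_insert hq]
    have hcop : Nat.Coprime (p q ^ l q) (∏ i ∈ S, p i ^ l i) := by
      refine Nat.Coprime.prod_right (fun i hi => ?_)
      refine Nat.Coprime.pow _ _ ((Nat.coprime_primes (hp q) (hp i)).2 ?_)
      intro h
      rw [hinj h] at hq
      exact hq hi
    have := hl q
    rw [rd_mul_coprime _ _ (pow_ne_zero _ (hp q).ne_zero)
      (Finset.prod_ne_zero_iff.2 fun i _ => pow_ne_zero _ (hp i).ne_zero) hcop,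
      rd_prime_pow _ _ (hp q) (by omega), ih]

private theorem LadJ1_up {n : ℕ} {p : Fin n → ℕ} {Y b : ℝ} (hY : 1 ≤ Y) (h : ∀ i, (p i : ℝ) ≤ Y ^ b)
    (S : Finset (Fin n)) : ((∏ i ∈ S, p i : ℕ) : ℝ) ≤ Y ^ (b * S.card) := by
  have hY0 : (0 : ℝ) ≤ Y := by linarith
  rw [Real.rpow_mul hY0, Real.rpow_natCast, ← Finset.prod_const]
  push_cast
  exact Finset.prod_le_prod (fun i _ => Nat.cast_nonneg _) (fun i _ => h i)

private theorem LadJ1_low {n : ℕ} {p : Fin n → ℕ} {Y b : ℝ} (hY : 1 ≤ Y) (h : ∀ i, Y ^ b ≤ (p i : ℝ))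
    (S : Finset (Fin n)) : Y ^ (b * S.card) ≤ ((∏ i ∈ S, p i : ℕ) : ℝ) := by
  have hY0 : (0 : ℝ) ≤ Y := by linarith
  rw [Real.rpow_mul hY0, Real.rpow_natCast, ← Finset.prod_const]
  push_cast
  exact Finset.prod_le_prod (fun i _ => Real.rpow_nonneg hY0 _) (fun i _ => h i)

/-- Decomposition of one tie number.  Proof: choose once and for all (inside the proof) an index `k ≠ i` and a splitting of the other `2 j - 2` indices in two sets
`I`, `J` of `j - 1` elements (`Finset.exists_subset_card_eq`).  `|x| = w0 ∏ p_i ^ l_i`; all `p_i > 2` are odd, so `w0 = 2^e w1` with `w1` odd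
(`e = padicValInt 2 x`; `Nat.exists_eq_two_pow_mul_odd` and uniqueness).  `A = w1 * ∏ i ∈ I, p_i ^ l_i`, `B = ∏ i ∈ J, p_i ^ l_i`, `c = p_k ^ l_k`, `t = p_i`.
Radicals: `rd_mul_coprime`, `rd_prime_pow`, so `rd (∏ i ∈ I, p_i ^ l_i) = ∏ i ∈ I, p_i` (induction) which is between `Y^((j-1)(1/(4j) ∓ σ))`;
`rd (A * t^l) ≥ Y^(j (1/(4j) - σ)) = Y^(1/4 - jσ)`. -/
theorem lad_tie_num (j : ℕ) (hj : 2 ≤ j) (l : Fin (2 * j) → ℕ) (hl : ∀ i, 1 ≤ l i) (i : Fin (2 * j)) (σ Y : ℝ) (hσ : 0 < σ)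
    (hY : 1 ≤ Y) (hY2 : 2 < Y ^ (1 / (4 * (j : ℝ)) - σ)) (x : ℤ) (hx : x ≠ 0) (ht : IsTie σ j l Y x) :
    ∃ A B c t : ℕ, x.natAbs = 2 ^ (padicValInt 2 x) * A * B * c * t ^ (l i) ∧ Odd A ∧ Odd B ∧ Odd c ∧ Odd t ∧ t.Prime ∧
      Nat.Coprime A B ∧ Nat.Coprime A t ∧ Nat.Coprime B t ∧ Nat.Coprime A c ∧ Nat.Coprime B c ∧ Nat.Coprime c t ∧
      (rd A : ℝ) ≤ Y ^ (((j : ℝ) - 1) / (4 * j) + j * σ) ∧ (rd B : ℝ) ≤ Y ^ (((j : ℝ) - 1) / (4 * j) + j * σ) ∧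
      (rd c : ℝ) ≤ Y ^ (1 / (4 * (j : ℝ)) + σ) ∧ (t : ℝ) ≤ Y ^ (1 / (4 * (j : ℝ)) + σ) ∧
      Y ^ (1 / 4 - j * σ) ≤ (rd (A * t ^ (l i)) : ℝ) ∧ Y ^ (1 / 4 - j * σ) ≤ (rd (B * t ^ (l i)) : ℝ) ∧
      Y ^ (1 / 4 - j * σ) ≤ (rd (A * c) : ℝ) ∧ Y ^ (1 / 4 - j * σ) ≤ (rd (B * c) : ℝ) ∧
      Y ^ (1 / (2 * (j : ℝ)) - 2 * σ) ≤ (rd (c * t ^ (l i)) : ℝ) := by
  classical
  obtain ⟨w, p, hxw, hp, hinj, hwp, hrw, hb⟩ := ht
  have hY0 : (0 : ℝ) < Y := by linarith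
  have hjR : (0 : ℝ) < (j : ℝ) := by exact_mod_cast (by omega : 0 < j)
  have hxn : x.natAbs ≠ 0 := Int.natAbs_ne_zero.2 hx
  have hw0 : w ≠ 0 := by
    rintro rfl
    rw [zero_mul] at hxw
    exact hxn hxw
  have hp2 : ∀ a, 2 < p a := by
    intro a
    have h1 : (2 : ℝ) < (p a : ℝ) := lt_of_lt_of_le hY2 (hb a).1
    exact_mod_cast h1
  have hpo : ∀ a, Odd (p a) := fun a => (hp a).odd_of_ne_two (by have := hp2 a; omega)
  obtain ⟨e, w1, hw1, hwe⟩ := Nat.exists_eq_two_pow_mul_odd hw0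
  have hw1d : w1 ∣ w := ⟨2 ^ e, by rw [hwe]; ring⟩
  have hw10 : w1 ≠ 0 := by
    rintro rfl
    simp at hw1
  have hw1p : ∀ a, Nat.Coprime w1 (p a) := fun a => Nat.Coprime.coprime_dvd_left hw1d (hwp a)
  have hrw1 : (rd w1 : ℝ) ≤ Y ^ σ := by
    refine le_trans ?_ hrw
    exact_mod_cast rd_mono' hw0 (fun q _ hq => hq.trans hw1d)
  have hrw1' : (1 : ℝ) ≤ (rd w1 : ℝ) := one_le_rd w1
  -- index sets
  have hcard : (Finset.univ : Finset (Fin (2 * j))).card = 2 * j := by simp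
  obtain ⟨k, hk⟩ : ∃ k : Fin (2 * j), k ≠ i := by
    have : Nontrivial (Fin (2 * j)) := Fin.nontrivial_iff_two_le.2 (by omega)
    exact exists_ne i
  set S : Finset (Fin (2 * j)) := (Finset.univ.erase i).erase k with hS
  have hkS : k ∈ (Finset.univ : Finset (Fin (2 * j))).erase i := by simp [hk]
  have hScard : S.card = 2 * j - 2 := by
    rw [hS, Finset.card_erase_of_mem hkS, Finset.card_erase_of_mem (Finset.mem_univ i), hcard]
    omega
  obtain ⟨I, hIS, hIc⟩ := Finset.exists_subset_card_eq (s := S) (n := j - 1) (by omega)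
  set J : Finset (Fin (2 * j)) := S \ I with hJ
  have hJc : J.card = j - 1 := by
    rw [hJ, Finset.card_sdiff_of_subset hIS, hScard, hIc]
    omega
  have hIJ : Disjoint I J := Finset.disjoint_sdiff
  have hiS : ∀ a ∈ S, a ≠ i ∧ a ≠ k := by
    intro a ha
    rw [hS, Finset.mem_erase, Finset.mem_erase] at ha
    exact ⟨ha.2.1, ha.1⟩
  have hJS : J ⊆ S := Finset.sdiff_subset
  have hprod : ∏ a, p a ^ l a = (∏ a ∈ I, p a ^ l a) * (∏ a ∈ J, p a ^ l a) * p k ^ l k * p i ^ l i := by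
    rw [← Finset.mul_prod_erase Finset.univ (fun a => p a ^ l a) (Finset.mem_univ i),
      ← Finset.mul_prod_erase _ (fun a => p a ^ l a) hkS, ← hS,
      ← Finset.prod_sdiff hIS, ← hJ]
    ring
  have hcop : ∀ a b, a ≠ b → Nat.Coprime (p a ^ l a) (p b ^ l b) := by
    intro a b hab
    exact Nat.Coprime.pow _ _ ((Nat.coprime_primes (hp a) (hp b)).2 (fun h => hab (hinj h)))
  have hcopI : ∀ (T : Finset (Fin (2 * j))) (b : Fin (2 * j)), b ∉ T →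
      Nat.Coprime (∏ a ∈ T, p a ^ l a) (p b ^ l b) := by
    intro T b hb
    refine Nat.Coprime.prod_left (fun a ha => hcop a b ?_)
    rintro rfl
    exact hb ha
  have hcopI' : ∀ (T : Finset (Fin (2 * j))) (b : Fin (2 * j)), b ∉ T →
      Nat.Coprime (∏ a ∈ T, p a ^ l a) (p b) := by
    intro T b hb
    refine Nat.Coprime.prod_left (fun a ha => ?_)
    refine Nat.Coprime.pow_left _ ((Nat.coprime_primes (hp a) (hp b)).2 (fun h => ?_))
    rw [hinj h] at ha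
    exact hb ha
  have hiI : i ∉ I := fun h => (hiS i (hIS h)).1 rfl
  have hiJ : i ∉ J := fun h => (hiS i (hJS h)).1 rfl
  have hkI : k ∉ I := fun h => (hiS k (hIS h)).2 rfl
  have hkJ : k ∉ J := fun h => (hiS k (hJS h)).2 rfl
  have hodd : ∀ T : Finset (Fin (2 * j)), Odd (∏ a ∈ T, p a ^ l a) := by
    intro T
    exact Finset.prod_induction _ Odd (fun _ _ h h' => h.mul h') odd_one (fun a _ => (hpo a).pow)
  have hwT : ∀ T : Finset (Fin (2 * j)), Nat.Coprime w1 (∏ a ∈ T, p a ^ l a) := fun T =>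
    Nat.Coprime.prod_right (fun a _ => (hw1p a).pow_right _)
  have hne : ∀ T : Finset (Fin (2 * j)), (∏ a ∈ T, p a ^ l a) ≠ 0 := fun T =>
    Finset.prod_ne_zero_iff.2 (fun a _ => pow_ne_zero _ (hp a).ne_zero)
  have hli : l i ≠ 0 := by have := hl i; omega
  have hlk : l k ≠ 0 := by have := hl k; omega
  -- the power of 2
  have hodd' : Odd (w1 * ∏ a, p a ^ l a) := hw1.mul (hodd Finset.univ)
  have hval : padicValInt 2 x = e := by
    unfold padicValInt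
    rw [hxw, hwe, mul_assoc, padicValNat.mul (pow_ne_zero _ two_ne_zero)
      (mul_ne_zero hw10 (hne Finset.univ)), padicValNat.prime_pow,
      padicValNat.eq_zero_of_not_dvd (fun h => (Nat.not_even_iff_odd.2 hodd') (even_iff_two_dvd.2 h)),
      add_zero]
  -- radicals
  have hrI := LadJ1_rd hp hinj hl I
  have hrJ := LadJ1_rd hp hinj hl J
  have hrA : rd (w1 * ∏ a ∈ I, p a ^ l a) = rd w1 * ∏ a ∈ I, p a := by
    rw [rd_mul_coprime _ _ hw10 (hne I) (hwT I), hrI]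
  have hrc : rd (p k ^ l k) = p k := rd_prime_pow _ _ (hp k) hlk
  have hrt : rd (p i ^ l i) = p i := rd_prime_pow _ _ (hp i) hli
  have hcast : ((j - 1 : ℕ) : ℝ) = (j : ℝ) - 1 := by
    rw [Nat.cast_sub (by omega)]
    simp
  have hIup : ((∏ a ∈ I, p a : ℕ) : ℝ) ≤ Y ^ ((1 / (4 * (j : ℝ)) + σ) * ((j : ℝ) - 1)) := by
    have := LadJ1_up hY (fun a => (hb a).2) I
    rwa [hIc, hcast] at this
  have hJup : ((∏ a ∈ J, p a : ℕ) : ℝ) ≤ Y ^ ((1 / (4 * (j : ℝ)) + σ) * ((j : ℝ) - 1)) := by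
    have := LadJ1_up hY (fun a => (hb a).2) J
    rwa [hJc, hcast] at this
  have hIlow : Y ^ ((1 / (4 * (j : ℝ)) - σ) * ((j : ℝ) - 1)) ≤ ((∏ a ∈ I, p a : ℕ) : ℝ) := by
    have := LadJ1_low hY (fun a => (hb a).1) I
    rwa [hIc, hcast] at this
  have hJlow : Y ^ ((1 / (4 * (j : ℝ)) - σ) * ((j : ℝ) - 1)) ≤ ((∏ a ∈ J, p a : ℕ) : ℝ) := by
    have := LadJ1_low hY (fun a => (hb a).1) J
    rwa [hJc, hcast] at this
  have hA0 : w1 * ∏ a ∈ I, p a ^ l a ≠ 0 := mul_ne_zero hw10 (hne I)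
  have hexp : (1 / (4 * (j : ℝ)) - σ) * ((j : ℝ) - 1) + (1 / (4 * (j : ℝ)) - σ) = 1 / 4 - j * σ := by
    field_simp
    ring
  have hAc : Nat.Coprime (w1 * ∏ a ∈ I, p a ^ l a) (p k ^ l k) :=
    Nat.Coprime.mul_left ((hw1p k).pow_right _) (hcopI I k hkI)
  have hAt : Nat.Coprime (w1 * ∏ a ∈ I, p a ^ l a) (p i ^ l i) :=
    Nat.Coprime.mul_left ((hw1p i).pow_right _) (hcopI I i hiI)
  have hIlow1 : ∀ q : ℕ, Y ^ (1 / (4 * (j : ℝ)) - σ) ≤ (q : ℝ) →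
      Y ^ (1 / 4 - j * σ) ≤ ((rd w1 : ℝ) * ((∏ a ∈ I, p a : ℕ) : ℝ)) * (q : ℝ) := by
    intro q hq
    rw [← hexp, Real.rpow_add hY0]
    refine mul_le_mul ?_ hq (Real.rpow_nonneg hY0.le _) (by positivity)
    refine hIlow.trans ?_
    exact le_mul_of_one_le_left (Nat.cast_nonneg _) hrw1'
  have hJlow1 : ∀ q : ℕ, Y ^ (1 / (4 * (j : ℝ)) - σ) ≤ (q : ℝ) →
      Y ^ (1 / 4 - j * σ) ≤ ((∏ a ∈ J, p a : ℕ) : ℝ) * (q : ℝ) := by
    intro q hq
    rw [← hexp, Real.rpow_add hY0]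
    exact mul_le_mul hJlow hq (Real.rpow_nonneg hY0.le _) (Nat.cast_nonneg _)
  refine ⟨w1 * ∏ a ∈ I, p a ^ l a, ∏ a ∈ J, p a ^ l a, p k ^ l k, p i, ?_, hw1.mul (hodd I), hodd J,
    (hpo k).pow, hpo i, hp i, ?_, ?_, hcopI' J i hiJ, hAc, hcopI J k hkJ, ?_, ?_, ?_, ?_, (hb i).2,
    ?_, ?_, ?_, ?_, ?_⟩
  · rw [hval, hxw, hprod, hwe]
    ring
  · refine Nat.Coprime.mul_left (hwT J) ?_
    refine Nat.Coprime.prod_left (fun a ha => Nat.Coprime.prod_right (fun b hb' => hcop a b ?_))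
    rintro rfl
    exact (Finset.disjoint_left.1 hIJ ha) hb'
  · exact Nat.Coprime.mul_left (hw1p i) (hcopI' I i hiI)
  · exact Nat.Coprime.pow_left _ ((Nat.coprime_primes (hp k) (hp i)).2 (fun h => hk (hinj h)))
  · rw [hrA]
    push_cast
    have h1 : Y ^ (((j : ℝ) - 1) / (4 * j) + j * σ) =
        Y ^ σ * Y ^ ((1 / (4 * (j : ℝ)) + σ) * ((j : ℝ) - 1)) := by
      rw [← Real.rpow_add hY0]
      congr 1
      field_simp
      ring
    rw [h1]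
    have h2 := hIup
    push_cast at h2
    exact mul_le_mul hrw1 h2 (by positivity) (Real.rpow_nonneg hY0.le _)
  · rw [hrJ]
    refine hJup.trans (Real.rpow_le_rpow_of_exponent_le hY ?_)
    have h1 : (1 / (4 * (j : ℝ)) + σ) * ((j : ℝ) - 1) = ((j : ℝ) - 1) / (4 * j) + (j * σ - σ) := by
      field_simp
    rw [h1]
    linarith
  · rw [hrc]
    exact (hb k).2
  · rw [rd_mul_coprime _ _ hA0 (pow_ne_zero _ (hp i).ne_zero) hAt, hrA, hrt]
    have := hIlow1 (p i) (hb i).1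
    push_cast at this ⊢
    exact this
  · rw [rd_mul_coprime _ _ (hne J) (pow_ne_zero _ (hp i).ne_zero) (hcopI J i hiJ), hrJ, hrt]
    have := hJlow1 (p i) (hb i).1
    push_cast at this ⊢
    exact this
  · rw [rd_mul_coprime _ _ hA0 (pow_ne_zero _ (hp k).ne_zero) hAc, hrA, hrc]
    have := hIlow1 (p k) (hb k).1
    push_cast at this ⊢
    exact this
  · rw [rd_mul_coprime _ _ (hne J) (pow_ne_zero _ (hp k).ne_zero) (hcopI J k hkJ), hrJ, hrc]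
    have := hJlow1 (p k) (hb k).1
    push_cast at this ⊢
    exact this
  · rw [rd_mul_coprime _ _ (pow_ne_zero _ (hp k).ne_zero) (pow_ne_zero _ (hp i).ne_zero)
      (hcop k i hk), hrc, hrt]
    have h1 : Y ^ (1 / (2 * (j : ℝ)) - 2 * σ) =
        Y ^ (1 / (4 * (j : ℝ)) - σ) * Y ^ (1 / (4 * (j : ℝ)) - σ) := by
      rw [← Real.rpow_add hY0]
      congr 1
      field_simp
      ring
    rw [h1]
    push_cast
    exact mul_le_mul (hb k).1 (hb i).1 (Real.rpow_nonneg hY0.le _) (Nat.cast_nonneg _)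

end Hp

end Pool.Agent.Lib.MP_d8bd92_nt
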