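import Pool.Agent.Lib.MP_d8bd92_nt.Hp.T2C

set_option autoImplicit false

/-! The low range, from the tool (S). -/

namespace Pool.Agent.Lib.MP_d8bd92_nt

namespace Hp

open Finset Pool.Agent.Lib.Szpiro

/-- the class of the exponent 1 and the even classes -/
theorem low_split (n : ℕ) (hn : n ≠ 0) : ∃ a t c F : ℕ, n = a * t ∧ Nat.Coprime a t ∧ Squarefree t ∧ Odd t ∧
    n = c ^ 2 * F ∧ Nat.Coprime c F ∧ rd n ^ 3 ≤ 8 * n * t ^ 2 * rd c := by
  classical
  obtain ⟨t, ht⟩ : ∃ t : ℕ, t = ∏ p ∈ n.primeFactors.filter (fun p => n.factorization p = 1 ∧ p ≠ 2), p := ⟨_, rfl⟩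
  obtain ⟨a, ha⟩ : ∃ a : ℕ, a = ∏ p ∈ n.primeFactors.filter (fun p => ¬ (n.factorization p = 1 ∧ p ≠ 2)),
    p ^ n.factorization p := ⟨_, rfl⟩
  obtain ⟨c, hc⟩ : ∃ c : ℕ, c = ∏ p ∈ n.primeFactors.filter (fun p => Even (n.factorization p)),
    p ^ (n.factorization p / 2) := ⟨_, rfl⟩
  obtain ⟨F, hF⟩ : ∃ F : ℕ, F = ∏ p ∈ n.primeFactors.filter (fun p => ¬ Even (n.factorization p)),
    p ^ n.factorization p := ⟨_, rfl⟩
  have hpr : ∀ p ∈ n.primeFactors, p.Prime := fun p hp => Nat.prime_of_mem_primeFactors hp
  have hn1 : n = ∏ p ∈ n.primeFactors, p ^ n.factorization p := (Nat.factorization_prod_pow_eq_self hn).symm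
  have ht1 : t = ∏ p ∈ n.primeFactors.filter (fun p => n.factorization p = 1 ∧ p ≠ 2), p ^ n.factorization p := by
    rw [ht]
    apply Finset.prod_congr rfl
    intro p hp
    rw [Finset.mem_filter] at hp
    rw [hp.2.1, pow_one]
  have hnat : n = a * t := by
    rw [mul_comm, ht1, ha, Finset.prod_filter_mul_prod_filter_not]
    exact hn1
  have hcF : n = c ^ 2 * F := by
    have h1 : c ^ 2 = ∏ p ∈ n.primeFactors.filter (fun p => Even (n.factorization p)), p ^ n.factorization p := by
      rw [hc, ← Finset.prod_pow]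
      apply Finset.prod_congr rfl
      intro p hp
      rw [Finset.mem_filter] at hp
      rw [← pow_mul, Nat.div_mul_cancel hp.2.two_dvd]
    rw [h1, hF, Finset.prod_filter_mul_prod_filter_not]
    exact hn1
  have hcop : ∀ (P : ℕ → Prop) [DecidablePred P] (f g : ℕ → ℕ),
      Nat.Coprime (∏ p ∈ n.primeFactors.filter (fun p => ¬ P p), p ^ f p) (∏ p ∈ n.primeFactors.filter P, p ^ g p) := by
    intro P _ f g
    apply Nat.Coprime.prod_left
    intro p hp
    apply Nat.Coprime.prod_right
    intro q hq
    rw [Finset.mem_filter] at hp hq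
    apply Nat.Coprime.pow
    rw [Nat.coprime_primes (hpr _ hp.1) (hpr _ hq.1)]
    rintro rfl
    exact hp.2 hq.2
  have htne : t ≠ 0 := by rintro h; exact hn (by rw [hnat, h]; simp)
  have hcne : c ≠ 0 := by rintro h; exact hn (by rw [hcF, h]; simp)
  refine ⟨a, t, c, F, hnat, ?_, ?_, ?_, hcF, ?_, ?_⟩
  · rw [ha, ht1]
    exact hcop _ _ _
  · rw [ht]
    apply Finset.squarefree_prod_of_pairwise_isCoprime
    · intro p hp q hq hpq
      simp only [Finset.coe_filter, Set.mem_setOf_eq] at hp hq
      exact Nat.coprime_iff_isRelPrime.1 ((Nat.coprime_primes (hpr _ hp.1) (hpr _ hq.1)).2 hpq)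
    · intro p hp
      rw [Finset.mem_filter] at hp
      exact (hpr _ hp.1).prime.squarefree
  · rw [ht]
    apply Finset.prod_induction _ (fun x => Odd x) (fun x y hx hy => hx.mul hy) odd_one
    intro p hp
    rw [Finset.mem_filter] at hp
    exact (hpr _ hp.1).odd_of_ne_two hp.2.2
  · rw [hc, hF]
    exact (hcop _ _ _).symm
  · -- the inequality
    have hrc : ∏ p ∈ n.primeFactors.filter (fun p => Even (n.factorization p)), p ≤ rd c := by
      rw [rd]
      apply Finset.prod_le_prod_of_subset_of_one_le'
      · intro p hp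
        have hp' := hp
        rw [Finset.mem_filter] at hp
        rw [Nat.mem_primeFactors]
        refine ⟨hpr _ hp.1, ?_, hcne⟩
        have h1 : 0 < n.factorization p := (hpr _ hp.1).factorization_pos_of_dvd hn (Nat.dvd_of_mem_primeFactors hp.1)
        have h2 : n.factorization p / 2 ≠ 0 := by
          obtain ⟨m, hm⟩ := hp.2
          omega
        rw [hc]
        exact (dvd_pow_self p h2).trans (Finset.dvd_prod_of_mem (fun p => p ^ (n.factorization p / 2)) hp')
      · intro p hp _
        exact (Nat.prime_of_mem_primeFactors hp).one_lt.le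
    have h8 : ∏ p ∈ n.primeFactors, (if p = 2 then 8 else 1) ≤ 8 := by
      rw [← Finset.prod_filter]
      have : (n.primeFactors.filter (fun p => p = 2)).card ≤ 1 := by
        rw [Finset.card_le_one]
        intro x hx y hy
        rw [Finset.mem_filter] at hx hy
        rw [hx.2, hy.2]
      rw [Finset.prod_const]
      calc 8 ^ (n.primeFactors.filter (fun p => p = 2)).card ≤ 8 ^ 1 := Nat.pow_le_pow_right (by norm_num) this
        _ = 8 := by norm_num
    have hterm : ∀ p ∈ n.primeFactors, p ^ 3 ≤ (if p = 2 then 8 else 1) * p ^ n.factorization p *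
        (if n.factorization p = 1 ∧ p ≠ 2 then p else 1) ^ 2 * (if Even (n.factorization p) then p else 1) := by
      intro p hp
      have hp1 : 1 ≤ p := (hpr p hp).one_lt.le
      have h1 : 0 < n.factorization p := (hpr _ hp).factorization_pos_of_dvd hn (Nat.dvd_of_mem_primeFactors hp)
      have hv : 1 ≤ p ^ n.factorization p := Nat.one_le_pow _ _ hp1
      by_cases hp2 : p = 2
      · have e1 : 1 ≤ (if Even (n.factorization p) then p else 1) := by split_ifs <;> omega
        have e2 : (if n.factorization p = 1 ∧ p ≠ 2 then p else 1) = 1 := by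
          rw [if_neg]
          rintro ⟨_, h⟩
          exact h hp2
        rw [e2, if_pos hp2]
        calc p ^ 3 = 8 * 1 * 1 ^ 2 * 1 := by rw [hp2]; norm_num
          _ ≤ _ := by gcongr
      · rw [if_neg hp2, one_mul]
        by_cases k1 : n.factorization p = 1
        · rw [if_pos ⟨k1, hp2⟩, k1]
          have : ¬ Even 1 := by decide
          rw [if_neg this]
          apply le_of_eq
          ring
        · rw [if_neg (fun h => k1 h.1)]
          by_cases k2 : n.factorization p = 2
          · rw [k2]
            have : Even 2 := by decide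
            rw [if_pos this]
            apply le_of_eq
            ring
          · have e1 : 1 ≤ (if Even (n.factorization p) then p else 1) := by split_ifs <;> omega
            calc p ^ 3 ≤ p ^ n.factorization p := Nat.pow_le_pow_right hp1 (by omega)
              _ = p ^ n.factorization p * 1 ^ 2 * 1 := by ring
              _ ≤ _ := by gcongr
    calc rd n ^ 3 = ∏ p ∈ n.primeFactors, p ^ 3 := by rw [rd, Finset.prod_pow]
      _ ≤ ∏ p ∈ n.primeFactors, ((if p = 2 then 8 else 1) * p ^ n.factorization p *
        (if n.factorization p = 1 ∧ p ≠ 2 then p else 1) ^ 2 * (if Even (n.factorization p) then p else 1)) :=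
          Finset.prod_le_prod' hterm
      _ = (∏ p ∈ n.primeFactors, (if p = 2 then 8 else 1)) * n * t ^ 2 *
          ∏ p ∈ n.primeFactors.filter (fun p => Even (n.factorization p)), p := by
        rw [Finset.prod_mul_distrib, Finset.prod_mul_distrib, Finset.prod_mul_distrib, Finset.prod_pow,
          ← Finset.prod_filter (fun p => n.factorization p = 1 ∧ p ≠ 2), ← ht,
          ← Finset.prod_filter (fun p => Even (n.factorization p)), ← hn1]
      _ ≤ 8 * n * t ^ 2 * rd c := by gcongr

end Hp

end Pool.Agent.Lib.MP_d8bd92_nt
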