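import Pool.Agent.Lib.MP_d8bd92_nt.Hp.LowA

set_option autoImplicit false

/-! The low range, from the tool (S). -/

namespace Pool.Agent.Lib.MP_d8bd92_nt

namespace Hp

open Finset Pool.Agent.Lib.Szpiro

/-- the predicate of the tool (S) from a splitting of the natural numbers -/
theorem low_isS (η Y : ℝ) (x y : ℤ) (hy : y ≠ 0) (a t c F : ℕ) (h1 : x.natAbs = a * t) (h2 : Nat.Coprime a t)
    (h3 : Squarefree t) (h4 : Odd t) (h5 : y.natAbs = c ^ 2 * F) (h6 : Nat.Coprime c F)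
    (h7 : Y ^ (1 / 4 + η) ≤ (t : ℝ) * rd c) : IsS η Y (x, y) := by
  refine ⟨a, t, c, y.sign * F, h1, h2, h3, h4, ?_, ?_, h7⟩
  · show y = (c : ℤ) ^ 2 * (y.sign * F)
    have e1 : y.sign * (y.natAbs : ℤ) = y := Int.sign_mul_natAbs y
    rw [h5] at e1
    push_cast at e1
    linarith
  · rcases lt_trichotomy y 0 with h | h | h
    · rw [Int.sign_eq_neg_one_of_neg h, neg_one_mul]
      exact (Nat.isCoprime_iff_coprime.2 h6).neg_right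
    · exact absurd h hy
    · rw [Int.sign_eq_one_of_pos h, one_mul]
      exact Nat.isCoprime_iff_coprime.2 h6

/-- low range -/
theorem few_low_of (K ε0 e : ℝ) (he : 0 < e)
    (hsm : ∀ c : ℝ, 0 < c → Few K ε0 (fun Y w => (rd w.1.natAbs : ℝ) ≤ Y ^ (1 / 2 - c)))
    (hS : ∀ η : ℝ, 0 < η → Few K ε0 (IsS η)) :
    Few K ε0 (fun Y w => max (w.1.natAbs : ℝ) (w.2.natAbs : ℝ) ≤ Y ^ (1 - e)) := by
  have h1 := hsm (e / 12) (by positivity)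
  have h2 := hS (e / 8) (by positivity)
  have hF := few_or' K ε0 _ _ (few_or' K ε0 _ _ h1 (few_swap K ε0 _ h1)) (few_or' K ε0 _ _ h2 (few_swap K ε0 _ h2))
  obtain ⟨Y0, hY0, hY1⟩ : ∃ Y0 : ℝ, 1 ≤ Y0 ∧ 64 < Y0 ^ e := by
    refine ⟨65 ^ (1 / e), Real.one_le_rpow (by norm_num) (by positivity), ?_⟩
    rw [← Real.rpow_mul (by norm_num), one_div, inv_mul_cancel₀ he.ne', Real.rpow_one]
    norm_num
  apply few_large' K ε0 _ _ Y0 hF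
  intro Y w hY hw hmax
  have hYo : 1 ≤ Y := hY0.trans hY
  have hYp : 0 < Y := by linarith
  have hYe : 64 < Y ^ e := lt_of_lt_of_le hY1 (Real.rpow_le_rpow (by linarith) hY he.le)
  obtain ⟨g1, g2, g3, g4, g5, g6, g7, g8⟩ := hw
  by_cases hs1 : (rd w.1.natAbs : ℝ) ≤ Y ^ (1 / 2 - e / 12)
  · exact Or.inl (Or.inl hs1)
  by_cases hs2 : (rd w.2.natAbs : ℝ) ≤ Y ^ (1 / 2 - e / 12)
  · exact Or.inl (Or.inr hs2)
  right
  push Not at hs1 hs2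
  obtain ⟨a, t, c, F, k1, k2, k3, k4, k5, k6, k7⟩ := low_split w.1.natAbs (Int.natAbs_ne_zero.2 g1)
  obtain ⟨a', t', c', F', l1, l2, l3, l4, l5, l6, l7⟩ := low_split w.2.natAbs (Int.natAbs_ne_zero.2 g2)
  by_cases hA : Y ^ (1 / 4 + e / 8) ≤ (t : ℝ) * rd c'
  · left
    have := low_isS (e / 8) Y w.1 w.2 g2 a t c' F' k1 k2 k3 k4 l5 l6 hA
    simpa using this
  by_cases hB : Y ^ (1 / 4 + e / 8) ≤ (t' : ℝ) * rd c
  · right
    exact low_isS (e / 8) Y w.2 w.1 g1 a' t' c F l1 l2 l3 l4 k5 k6 hB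
  exfalso
  push Not at hA hB
  have hM0 : (0 : ℝ) ≤ max (w.1.natAbs : ℝ) (w.2.natAbs : ℝ) := le_max_of_le_left (Nat.cast_nonneg _)
  set M : ℝ := max (w.1.natAbs : ℝ) (w.2.natAbs : ℝ) with hM
  have hx : (w.1.natAbs : ℝ) ≤ M := le_max_left _ _
  have hy : (w.2.natAbs : ℝ) ≤ M := le_max_right _ _
  have i1 : (rd w.1.natAbs : ℝ) ^ 3 ≤ 8 * w.1.natAbs * (t : ℝ) ^ 2 * rd c := by exact_mod_cast k7
  have i2 : (rd w.2.natAbs : ℝ) ^ 3 ≤ 8 * w.2.natAbs * (t' : ℝ) ^ 2 * rd c' := by exact_mod_cast l7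
  have r1 := one_le_rd c
  have r2 := one_le_rd c'
  have hp : 0 < Y ^ (1 / 2 - e / 12) := Real.rpow_pos_of_pos hYp _
  have j1 : (Y ^ (1 / 2 - e / 12)) ^ 3 * (Y ^ (1 / 2 - e / 12)) ^ 3 ≤
      (rd w.1.natAbs : ℝ) ^ 3 * (rd w.2.natAbs : ℝ) ^ 3 := by
    apply mul_le_mul (pow_le_pow_left₀ hp.le hs1.le 3) (pow_le_pow_left₀ hp.le hs2.le 3) (by positivity) (by positivity)
  have j2 : (rd w.1.natAbs : ℝ) ^ 3 * (rd w.2.natAbs : ℝ) ^ 3 ≤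
      64 * M ^ 2 * ((t : ℝ) * rd c') ^ 2 * ((t' : ℝ) * rd c) ^ 2 := by
    calc (rd w.1.natAbs : ℝ) ^ 3 * (rd w.2.natAbs : ℝ) ^ 3
        ≤ (8 * w.1.natAbs * (t : ℝ) ^ 2 * rd c) * (8 * w.2.natAbs * (t' : ℝ) ^ 2 * rd c') := by gcongr
      _ ≤ (8 * M * (t : ℝ) ^ 2 * (rd c : ℝ) ^ 2) * (8 * M * (t' : ℝ) ^ 2 * (rd c' : ℝ) ^ 2) := by
        have q1 : (rd c : ℝ) ≤ (rd c : ℝ) ^ 2 := le_self_pow₀ r1 two_ne_zero
        have q2 : (rd c' : ℝ) ≤ (rd c' : ℝ) ^ 2 := le_self_pow₀ r2 two_ne_zero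
        gcongr
      _ = 64 * M ^ 2 * ((t : ℝ) * rd c') ^ 2 * ((t' : ℝ) * rd c) ^ 2 := by ring
  have j3 : 64 * M ^ 2 * ((t : ℝ) * rd c') ^ 2 * ((t' : ℝ) * rd c) ^ 2 ≤
      64 * (Y ^ (1 - e)) ^ 2 * (Y ^ (1 / 4 + e / 8)) ^ 2 * (Y ^ (1 / 4 + e / 8)) ^ 2 := by
    have t0 : (0 : ℝ) ≤ (t : ℝ) * rd c' := by positivity
    have t1 : (0 : ℝ) ≤ (t' : ℝ) * rd c := by positivity
    gcongr
  have j4 : (Y ^ (1 / 2 - e / 12)) ^ 3 * (Y ^ (1 / 2 - e / 12)) ^ 3 = Y ^ (3 - e / 2) := by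
    rw [← Real.rpow_natCast, ← Real.rpow_mul hYp.le, ← Real.rpow_add hYp]
    congr 1
    push_cast
    ring
  have j5 : 64 * (Y ^ (1 - e)) ^ 2 * (Y ^ (1 / 4 + e / 8)) ^ 2 * (Y ^ (1 / 4 + e / 8)) ^ 2 = 64 * Y ^ (3 - 3 * e / 2) := by
    rw [← Real.rpow_natCast, ← Real.rpow_natCast, ← Real.rpow_mul hYp.le, ← Real.rpow_mul hYp.le, mul_assoc, mul_assoc,
      ← Real.rpow_add hYp, ← Real.rpow_add hYp]
    congr 2
    push_cast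
    ring
  have j6 : Y ^ (3 - e / 2) = Y ^ e * Y ^ (3 - 3 * e / 2) := by
    rw [← Real.rpow_add hYp]
    congr 1
    ring
  have hq : 0 < Y ^ (3 - 3 * e / 2) := Real.rpow_pos_of_pos hYp _
  have := j1.trans (j2.trans j3)
  rw [j4, j5, j6] at this
  exact absurd this (not_le.2 (mul_lt_mul_of_pos_right hYe hq))

end Hp

end Pool.Agent.Lib.MP_d8bd92_nt
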