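import Pool.Agent.Lib.MP_d8bd92_nt.Hp.Main

set_option autoImplicit false

/-! Preparations for the true exponent: restriction of the size, the part of the large exponents. -/

namespace Pool.Agent.Lib.MP_d8bd92_nt

namespace Hp

open Finset Pool.Agent.Lib.Szpiro

/-- restriction of the size -/
theorem few_size (K ε0 ε1 : ℝ) (Q : ℝ → ℤ × ℤ → Prop) (h : Few K ε1 Q) :
    Few K ε0 (fun Y w => Y ^ (2 + ε1) ≤ max (w.1.natAbs : ℝ) (w.2.natAbs : ℝ) ∧ Q Y w) := by
  obtain ⟨C, δ, hC, hδ, hb⟩ := h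
  refine ⟨C, δ, hC, hδ, fun Y hY P hP => hb Y hY P (fun w hw => ?_)⟩
  obtain ⟨⟨h1, h2, h3, h4, h5, h6, h7, h8⟩, h9, h10⟩ := hP w hw
  exact ⟨⟨h1, h2, h3, h4, h5, h9, h7, h8⟩, h10⟩

/-- the part of `n` of the exponents `> L0` -/
theorem exists_bad (L0 n : ℕ) (hn : n ≠ 0) : ∃ u : ℕ, UDvd u n ∧
    (∀ p : ℕ, p.Prime → p ∣ u → L0 < padicValNat p u) ∧ (∀ p : ℕ, p.Prime → L0 < padicValNat p n → p ∣ u) ∧
    rd u ^ (L0 + 1) ≤ u ∧ rd n * u ≤ rd u * n := by
  classical
  obtain ⟨u, hu⟩ : ∃ u : ℕ, u = ∏ p ∈ n.primeFactors.filter (fun p => L0 < n.factorization p), p ^ n.factorization p := ⟨_, rfl⟩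
  obtain ⟨k, hk⟩ : ∃ k : ℕ, k = ∏ p ∈ n.primeFactors.filter (fun p => ¬ L0 < n.factorization p), p ^ n.factorization p := ⟨_, rfl⟩
  have hnuk : n = u * k := by
    rw [hu, hk, Finset.prod_filter_mul_prod_filter_not]
    exact (Nat.factorization_prod_pow_eq_self hn).symm
  have hu0 : u ≠ 0 := by rintro rfl; exact hn (by rw [hnuk]; simp)
  have hk0 : k ≠ 0 := by rintro rfl; exact hn (by rw [hnuk]; simp)
  have hcop : Nat.Coprime u k := by
    rw [hu, hk]
    apply Nat.Coprime.prod_left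
    intro p hp
    apply Nat.Coprime.prod_right
    intro q hq
    rw [Finset.mem_filter] at hp hq
    apply Nat.Coprime.pow
    rw [Nat.coprime_primes (Nat.prime_of_mem_primeFactors hp.1) (Nat.prime_of_mem_primeFactors hq.1)]
    rintro rfl
    exact hq.2 hp.2
  have hmem : ∀ p : ℕ, p.Prime → p ∣ u → p ∈ n.primeFactors ∧ L0 < n.factorization p := by
    intro p hp hpu
    rw [hu, hp.prime.dvd_finset_prod_iff] at hpu
    obtain ⟨q, hq, hpq⟩ := hpu
    rw [Finset.mem_filter] at hq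
    have h1 := (Nat.prime_dvd_prime_iff_eq hp (Nat.prime_of_mem_primeFactors hq.1)).1 (hp.dvd_of_dvd_pow hpq)
    rw [h1]
    exact hq
  have hval : ∀ p : ℕ, p.Prime → p ∣ u → u.factorization p = n.factorization p := by
    intro p hp hpu
    have h1 : ¬ p ∣ k := fun h => by
      have h2 := Nat.dvd_gcd hpu h
      rw [hcop] at h2
      exact hp.one_lt.ne' (Nat.dvd_one.1 h2)
    rw [hnuk, Nat.factorization_mul hu0 hk0, Finsupp.add_apply, Nat.factorization_eq_zero_of_not_dvd h1, add_zero]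
  refine ⟨u, ⟨k, hnuk, hcop⟩, ?_, ?_, ?_, ?_⟩
  · intro p hp hpu
    rw [← Nat.factorization_def u hp, hval p hp hpu]
    exact (hmem p hp hpu).2
  · intro p hp hpn
    rw [← Nat.factorization_def n hp] at hpn
    rw [hu]
    have h1 : p ∈ n.primeFactors.filter (fun p => L0 < n.factorization p) := by
      rw [Finset.mem_filter, Nat.mem_primeFactors]
      refine ⟨⟨hp, ?_, hn⟩, hpn⟩
      exact Nat.dvd_of_factorization_pos (by omega)
    exact (dvd_pow_self p (by omega)).trans (Finset.dvd_prod_of_mem _ h1)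
  · have h1 : u = ∏ p ∈ u.primeFactors, p ^ u.factorization p := (Nat.factorization_prod_pow_eq_self hu0).symm
    calc rd u ^ (L0 + 1) = ∏ p ∈ u.primeFactors, p ^ (L0 + 1) := by rw [rd, Finset.prod_pow]
      _ ≤ ∏ p ∈ u.primeFactors, p ^ u.factorization p := by
        apply Finset.prod_le_prod' 
        intro p hp
        have hp' := Nat.prime_of_mem_primeFactors hp
        have hpu := Nat.dvd_of_mem_primeFactors hp
        apply Nat.pow_le_pow_right hp'.pos
        rw [hval p hp' hpu]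
        exact (hmem p hp' hpu).2
      _ = u := h1.symm
  · have h1 : rd n ≤ rd u * k := by
      rw [hnuk]
      exact (rd_mul_le u k hu0 hk0).trans (Nat.mul_le_mul_left _ (rd_le hk0))
    calc rd n * u ≤ (rd u * k) * u := Nat.mul_le_mul_right _ h1
      _ = rd u * n := by rw [hnuk]; ring

end Hp

end Pool.Agent.Lib.MP_d8bd92_nt
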