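import Pool.Agent.Lib.MP_d8bd92_nt.Hp.MT0

set_option autoImplicit false

/-! The part of the large exponents is small, outside the set of `T1`. -/

namespace Pool.Agent.Lib.MP_d8bd92_nt

namespace Hp

open Finset Pool.Agent.Lib.Szpiro

theorem bad_le (L0 : ℕ) (hL1 : 1 ≤ L0) (hL6 : L0 ≤ 6) (e Y : ℝ) (he : 0 < e) (hY : 1 ≤ Y) (n u : ℕ) (M : ℝ)
    (hn : (n : ℝ) ≤ M) (hM0 : 0 < M) (hM : M ≤ Y ^ (((L0 : ℝ) + 2) / 4 - e)) (hrad : Y ^ (1 / 2 - e / 8) ≤ (rd n : ℝ))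
    (h1 : rd u ^ (L0 + 1) ≤ u) (h2 : rd n * u ≤ rd u * n)
    (hT1 : (rd u : ℝ) ≤ Y ^ (1 / 4 - e / 8) → Y ^ (1 / 4 - e / 8) * u * √M < (rd u : ℝ) * n) :
    (rd u : ℝ) ≤ Y ^ (1 / 8 - e / 24) := by
  have hYp : 0 < Y := by linarith
  obtain ⟨r, hr⟩ : ∃ r : ℝ, r = (rd u : ℝ) := ⟨_, rfl⟩
  have hr1 : 1 ≤ r := by rw [hr]; exact one_le_rd u
  have hr0 : 0 < r := by linarith
  rw [← hr] at hT1 ⊢
  have h1' : r ^ L0 * r ≤ (u : ℝ) := by
    rw [hr, ← pow_succ]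
    exact_mod_cast h1
  have h2' : (rd n : ℝ) * u ≤ r * n := by
    rw [hr]
    exact_mod_cast h2
  have hL0' : (1 : ℝ) ≤ L0 := by exact_mod_cast hL1
  have hL6' : (L0 : ℝ) ≤ 6 := by exact_mod_cast hL6
  have hLne : L0 ≠ 0 := by omega
  have hpow : ∀ a : ℝ, Y ^ a < r → Y ^ (a * L0) < r ^ L0 := by
    intro a ha
    rw [Real.rpow_mul hYp.le, Real.rpow_natCast]
    exact pow_lt_pow_left₀ ha (Real.rpow_nonneg hYp.le _) hLne
  -- first bound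
  have hfirst : r ≤ Y ^ (1 / 4 - e / 8) := by
    by_contra hcon
    push Not at hcon
    have k1 := hpow _ hcon
    have k2 : (rd n : ℝ) * r ^ L0 ≤ n := by
      have k3 : ((rd n : ℝ) * r ^ L0) * r ≤ n * r := by
        calc ((rd n : ℝ) * r ^ L0) * r = (rd n : ℝ) * (r ^ L0 * r) := by ring
          _ ≤ (rd n : ℝ) * u := by gcongr
          _ ≤ r * n := h2'
          _ = n * r := by ring
      exact le_of_mul_le_mul_right k3 hr0
    have k4 : Y ^ (1 / 2 - e / 8) * Y ^ ((1 / 4 - e / 8) * L0) < Y ^ (((L0 : ℝ) + 2) / 4 - e) := by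
      calc Y ^ (1 / 2 - e / 8) * Y ^ ((1 / 4 - e / 8) * L0) < Y ^ (1 / 2 - e / 8) * r ^ L0 :=
            mul_lt_mul_of_pos_left k1 (Real.rpow_pos_of_pos hYp _)
        _ ≤ (rd n : ℝ) * r ^ L0 := by gcongr
        _ ≤ n := k2
        _ ≤ M := hn
        _ ≤ _ := hM
    rw [← Real.rpow_add hYp] at k4
    have k5 : Y ^ (((L0 : ℝ) + 2) / 4 - e) ≤ Y ^ (1 / 2 - e / 8 + (1 / 4 - e / 8) * L0) :=
      Real.rpow_le_rpow_of_exponent_le hY (by nlinarith)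
    linarith
  have hT := hT1 hfirst
  by_contra hcon
  push Not at hcon
  have k1 := hpow _ hcon
  have hsM : 0 < √M := Real.sqrt_pos.2 hM0
  have k2 : Y ^ (1 / 4 - e / 8) * r ^ L0 < √M := by
    have k3 : (Y ^ (1 / 4 - e / 8) * r ^ L0) * (r * √M) < √M * (r * √M) := by
      calc (Y ^ (1 / 4 - e / 8) * r ^ L0) * (r * √M) = Y ^ (1 / 4 - e / 8) * (r ^ L0 * r) * √M := by ring
        _ ≤ Y ^ (1 / 4 - e / 8) * u * √M := by gcongr
        _ < r * n := hT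
        _ ≤ r * M := by gcongr
        _ = √M * (r * √M) := by
          nth_rewrite 1 [← Real.mul_self_sqrt hM0.le]
          ring
    exact lt_of_mul_lt_mul_right k3 (by positivity)
  have k4 : √M ≤ Y ^ ((((L0 : ℝ) + 2) / 4 - e) / 2) := by
    rw [Real.sqrt_le_left (by positivity), ← Real.rpow_natCast, ← Real.rpow_mul hYp.le]
    refine hM.trans (le_of_eq ?_)
    congr 1
    push_cast
    ring
  have k5 : Y ^ (1 / 4 - e / 8) * Y ^ ((1 / 8 - e / 24) * L0) < Y ^ ((((L0 : ℝ) + 2) / 4 - e) / 2) := by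
    calc Y ^ (1 / 4 - e / 8) * Y ^ ((1 / 8 - e / 24) * L0) < Y ^ (1 / 4 - e / 8) * r ^ L0 :=
          mul_lt_mul_of_pos_left k1 (Real.rpow_pos_of_pos hYp _)
      _ ≤ √M := k2.le
      _ ≤ _ := k4
  rw [← Real.rpow_add hYp] at k5
  have k6 : Y ^ ((((L0 : ℝ) + 2) / 4 - e) / 2) ≤ Y ^ (1 / 4 - e / 8 + (1 / 8 - e / 24) * L0) :=
    Real.rpow_le_rpow_of_exponent_le hY (by nlinarith)
  linarith

end Hp

end Pool.Agent.Lib.MP_d8bd92_nt
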