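import Pool.Agent.Lib.MP_d8bd92_nt.Hp.PC5

set_option autoImplicit false

/-!
MP_d8bd92_nt, phase 2, row PC6.
-/

namespace Pool.Agent.Lib.MP_d8bd92_nt

namespace Hp

open Finset

/-- the integer divisors of `m` -/
private def PC6_divs (m : ℤ) : Finset ℤ :=
  m.natAbs.divisors.image (fun d : ℕ => (d : ℤ)) ∪ m.natAbs.divisors.image (fun d : ℕ => -(d : ℤ))

private theorem PC6_divs_card (m : ℤ) : (PC6_divs m).card ≤ 2 * m.natAbs.divisors.card := by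
  unfold PC6_divs
  refine (card_union_le _ _).trans ?_
  have h1 := card_image_le (s := m.natAbs.divisors) (f := fun d : ℕ => (d : ℤ))
  have h2 := card_image_le (s := m.natAbs.divisors) (f := fun d : ℕ => -(d : ℤ))
  omega

private theorem PC6_mem_divs {m u : ℤ} (hm : m ≠ 0) (hu : u ∣ m) : u ∈ PC6_divs m := by
  have h1 : u.natAbs ∈ m.natAbs.divisors :=
    Nat.mem_divisors.2 ⟨Int.natAbs_dvd_natAbs.2 hu, Int.natAbs_ne_zero.2 hm⟩
  unfold PC6_divs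
  rw [mem_union, mem_image, mem_image]
  rcases Int.natAbs_eq u with h | h
  · exact Or.inl ⟨_, h1, h.symm⟩
  · exact Or.inr ⟨_, h1, h.symm⟩

/-- codes with given `a`, `x`, `y` -/
private theorem PC6_fib1 (C D : ℤ) (hD : Squarefree D) (T : ℕ)
    (hT : ∀ n : ℕ, n ≠ 0 → (n : ℤ) ^ 2 ≤ 4 * |D| → n.divisors.card ≤ T)
    (F : Finset (ℤ × ℤ × ℤ × ℤ)) (hF : ∀ v ∈ F, Code C D 2 v) (a x y : ℤ)
    (h : ∀ v ∈ F, v.1 = a ∧ v.2.2.1 = x ∧ v.2.2.2 = y) : F.card ≤ 2 * T := by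
  rcases F.eq_empty_or_nonempty with rfl | ⟨v0, hv0⟩
  · simp
  have ha : a ≠ 0 := by
    rw [← (h v0 hv0).1]
    exact (hF v0 hv0).1
  have ha2 : a ^ 2 ≤ 4 * |D| := by
    rw [← (h v0 hv0).1]
    exact (hF v0 hv0).2.1
  have hinj : Set.InjOn (fun v : ℤ × ℤ × ℤ × ℤ => v.2.1) (F : Set (ℤ × ℤ × ℤ × ℤ)) := by
    rintro v hv v' hv' e
    obtain ⟨h1, h2, h3⟩ := h v hv
    obtain ⟨h1', h2', h3'⟩ := h v' hv'
    exact Prod.ext (h1.trans h1'.symm) (Prod.ext e (Prod.ext (h2.trans h2'.symm)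
      (h3.trans h3'.symm)))
  rw [← card_image_of_injOn hinj]
  have h1 := sqf_roots D hD a ha (F.image fun v => v.2.1) (by
    intro b hb
    obtain ⟨v, hv, rfl⟩ := mem_image.1 hb
    obtain ⟨-, -, c1, c2, c3, -⟩ := hF v hv
    rw [(h v hv).1] at c2 c3
    exact ⟨c1, c2, c3⟩)
  have h2 := hT a.natAbs (Int.natAbs_ne_zero.2 ha) (by
    rw [Int.natAbs_sq]
    exact ha2)
  omega

/-- codes with given `y ≠ 0` and `x - |a|` -/
private theorem PC6_fib2 (C D : ℤ) (hD : Squarefree D) (T : ℕ)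
    (hT : ∀ n : ℕ, n ≠ 0 → (n : ℤ) ^ 2 ≤ 4 * |D| → n.divisors.card ≤ T)
    (F : Finset (ℤ × ℤ × ℤ × ℤ)) (hF : ∀ v ∈ F, Code C D 2 v) (y u : ℤ) (hy : y ≠ 0)
    (h : ∀ v ∈ F, v.2.2.2 = y ∧ v.2.2.1 - |v.1| = u) : F.card ≤ 4 * T := by
  classical
  rcases F.eq_empty_or_nonempty with rfl | ⟨v0, hv0⟩
  · simp
  have key : ∀ v ∈ F, u * (v.2.2.1 + |v.1|) = D * y ^ 2 := by
    intro v hv
    obtain ⟨-, -, -, -, -, c, -⟩ := hF v hv
    obtain ⟨h1, h2⟩ := h v hv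
    rw [h1] at c
    rw [← h2]
    linear_combination c - sq_abs v.1
  have hm : D * y ^ 2 ≠ 0 := mul_ne_zero hD.ne_zero (pow_ne_zero 2 hy)
  have hu : u ≠ 0 := by
    rintro rfl
    have := key v0 hv0
    rw [zero_mul] at this
    exact hm this.symm
  have hx : ∀ v ∈ F, v.2.2.1 = v0.2.2.1 ∧ |v.1| = |v0.1| := by
    intro v hv
    have e1 := mul_left_cancel₀ hu ((key v hv).trans (key v0 hv0).symm)
    have e2 := (h v hv).2
    have e3 := (h v0 hv0).2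
    constructor <;> omega
  have him : F.image (fun v => v.1) ⊆ {v0.1, -v0.1} := by
    intro a ha
    obtain ⟨v, hv, rfl⟩ := mem_image.1 ha
    rw [mem_insert, mem_singleton]
    exact abs_eq_abs.1 (hx v hv).2
  have hc : (F.image (fun v => v.1)).card ≤ 2 :=
    (card_le_card him).trans card_le_two
  have hb := card_le_mul_card_image (s := F) (f := fun v => v.1) (2 * T) (by
    intro a _
    refine PC6_fib1 C D hD T hT (F.filter fun v => v.1 = a)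
      (fun v hv => hF v (mem_filter.1 hv).1) a v0.2.2.1 y ?_
    intro v hv
    obtain ⟨h1, h2⟩ := mem_filter.1 hv
    exact ⟨h2, (hx v h1).1, (h v h1).1⟩)
  calc F.card ≤ 2 * T * (F.image (fun v => v.1)).card := hb
    _ ≤ 2 * T * 2 := Nat.mul_le_mul_left _ hc
    _ = 4 * T := by ring

private theorem PC6_y {C D : ℤ} (hC : 1 ≤ C) (hD : D ≠ 0) {v : ℤ × ℤ × ℤ × ℤ}
    (h : Code C D 2 v) : |v.2.2.2| ≤ C := by
  obtain ⟨-, -, -, -, -, -, c, -⟩ := h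
  have hD0 : 0 < |D| := abs_pos.2 hD
  by_contra hn
  push Not at hn
  have h1 : C < v.2.2.2 ^ 2 := by
    have e : |v.2.2.2| ^ 2 = v.2.2.2 ^ 2 := sq_abs _
    nlinarith
  have h2 : 0 ≤ v.2.2.1 ^ 2 := sq_nonneg _
  have h3 : |D| * C < v.2.2.1 ^ 2 + |D| * v.2.2.2 ^ 2 := by nlinarith
  have h4 : 0 < |D| * C := mul_pos hD0 (by omega)
  have h5 : (|D| * C) ^ 2 < (v.2.2.1 ^ 2 + |D| * v.2.2.2 ^ 2) ^ 2 :=
    pow_lt_pow_left₀ h3 h4.le two_ne_zero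
  have h6 : C * |D| ^ 2 ≤ (|D| * C) ^ 2 := by
    have h7 : 0 ≤ |D| ^ 2 := by positivity
    nlinarith [mul_nonneg h7 (by nlinarith : 0 ≤ C ^ 2 - C)]
  omega

/-- codes with `y ≠ 0` -/
private theorem PC6_main (C D : ℤ) (hC : 1 ≤ C) (hD : Squarefree D) (T : ℕ)
    (hT : ∀ n : ℕ, n ≠ 0 → (n : ℤ) ^ 2 ≤ 4 * |D| → n.divisors.card ≤ T) (T2 : ℕ)
    (hT2 : ∀ y : ℤ, y ≠ 0 → |y| ≤ C → (D * y ^ 2).natAbs.divisors.card ≤ T2)
    (F : Finset (ℤ × ℤ × ℤ × ℤ)) (hF : ∀ v ∈ F, Code C D 2 v ∧ v.2.2.2 ≠ 0) :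
    F.card ≤ 4 * T * ((2 * C + 1).toNat * (2 * T2)) := by
  classical
  have hb := card_le_mul_card_image (s := F) (f := fun v => (v.2.2.2, v.2.2.1 - |v.1|)) (4 * T) (by
    rintro ⟨y, u⟩ hyu
    obtain ⟨w, hw, ew⟩ := mem_image.1 hyu
    have hy : y ≠ 0 := by
      have e : w.2.2.2 = y := congrArg Prod.fst ew
      rw [← e]
      exact (hF w hw).2
    refine PC6_fib2 C D hD T hT (F.filter fun v => (v.2.2.2, v.2.2.1 - |v.1|) = (y, u))
      (fun v hv => (hF v (mem_filter.1 hv).1).1) y u hy ?_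
    intro v hv
    have e := (mem_filter.1 hv).2
    exact ⟨congrArg Prod.fst e, congrArg Prod.snd e⟩)
  have him : F.image (fun v => (v.2.2.2, v.2.2.1 - |v.1|)) ⊆
      (((Icc (-C) C).filter fun y => y ≠ 0).biUnion fun y =>
        (PC6_divs (D * y ^ 2)).image fun u => (y, u)) := by
    intro p hp
    obtain ⟨v, hv, rfl⟩ := mem_image.1 hp
    obtain ⟨h1, h2⟩ := hF v hv
    have h3 := PC6_y hC hD.ne_zero h1
    rw [mem_biUnion]
    refine ⟨v.2.2.2, mem_filter.2 ⟨mem_Icc.2 (abs_le.1 h3), h2⟩, mem_image.2 ⟨_, ?_, rfl⟩⟩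
    refine PC6_mem_divs (mul_ne_zero hD.ne_zero (pow_ne_zero 2 h2)) ?_
    obtain ⟨-, -, -, -, -, c, -⟩ := h1
    exact ⟨v.2.2.1 + |v.1|, by linear_combination -c + sq_abs v.1⟩
  have hc : (F.image (fun v => (v.2.2.2, v.2.2.1 - |v.1|))).card ≤
      (2 * C + 1).toNat * (2 * T2) := by
    refine (card_le_card him).trans ?_
    refine (card_biUnion_le_card_mul _ _ (2 * T2) ?_).trans ?_
    · intro y hy
      obtain ⟨h1, h2⟩ := mem_filter.1 hy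
      refine card_image_le.trans ((PC6_divs_card _).trans ?_)
      exact Nat.mul_le_mul_left 2 (hT2 y h2 (abs_le.2 (mem_Icc.1 h1)))
    · refine Nat.mul_le_mul_right _ ((card_filter_le _ _).trans ?_)
      rw [Int.card_Icc]
      refine Int.toNat_le_toNat ?_
      omega
  exact hb.trans (Nat.mul_le_mul_left _ hc)

/-- Row PC6.  `k = 2`.  `y = 0`: `code_zero`.  `y ≠ 0`: `|D| y ^ 2 ≤ √C |D|`, so `|y| ≤ C`; for each `y`: `(x - |a|)(x + |a|) = D y ^ 2`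
is nonzero, so `x - |a|` is one of at most `2 τ (|D| y ^ 2)` numbers and determines `x` and `|a|`; then `b` by `sqf_roots`. -/
theorem code_two (C : ℤ) (hC : 1 ≤ C) (ε : ℝ) (hε : 0 < ε) : ∃ C' : ℝ, 0 < C' ∧ ∀ D : ℤ, Squarefree D →
    ∀ F : Finset (ℤ × ℤ × ℤ × ℤ), (∀ v ∈ F, Code C D 2 v) → (F.card : ℝ) ≤ C' * ((|D| : ℤ) : ℝ) ^ ε := by
  classical
  obtain ⟨C0, hC0, h0⟩ := code_zero ε hε
  obtain ⟨C1, hC1, h1⟩ := card_divisors_le_rpow (ε / 2) (by positivity)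
  have hCr : (1 : ℝ) ≤ (C : ℝ) := by exact_mod_cast hC
  refine ⟨C0 + 4 * (C1 * 4 ^ (ε / 2)) * ((2 * C + 1) * (2 * (C1 * ((C : ℝ) ^ 2) ^ (ε / 2)))),
    by positivity, fun D hD F hF => ?_⟩
  have hD0 : (1 : ℝ) ≤ ((|D| : ℤ) : ℝ) := by
    exact_mod_cast Int.one_le_abs hD.ne_zero
  set A : ℝ := ((|D| : ℤ) : ℝ) with hA
  have hA0 : 0 < A := by linarith
  -- the two parts
  have e1 := h0 C D 2 hD (F.filter fun v => v.2.2.2 = 0) (by
    intro v hv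
    obtain ⟨a1, a2⟩ := mem_filter.1 hv
    exact ⟨hF v a1, a2⟩)
  let T : ℕ := ⌊C1 * (4 * A) ^ (ε / 2)⌋₊
  let T2 : ℕ := ⌊C1 * (A * (C : ℝ) ^ 2) ^ (ε / 2)⌋₊
  have e2 := PC6_main C D hC hD T (by
    intro n hn hn2
    refine Nat.le_floor ((h1 n hn).trans ?_)
    refine mul_le_mul_of_nonneg_left ?_ (by linarith)
    refine Real.rpow_le_rpow (Nat.cast_nonneg _) ?_ (by positivity)
    have b1 : (1 : ℝ) ≤ (n : ℝ) := by exact_mod_cast Nat.one_le_iff_ne_zero.2 hn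
    have b2 : ((n : ℝ)) ^ 2 ≤ 4 * A := by
      rw [hA]
      exact_mod_cast hn2
    nlinarith) T2 (by
    intro y hy hyC
    have c1 : (D * y ^ 2).natAbs ≠ 0 :=
      Int.natAbs_ne_zero.2 (mul_ne_zero hD.ne_zero (pow_ne_zero 2 hy))
    refine Nat.le_floor ((h1 _ c1).trans ?_)
    refine mul_le_mul_of_nonneg_left ?_ (by linarith)
    refine Real.rpow_le_rpow (Nat.cast_nonneg _) ?_ (by positivity)
    have c2 : (((D * y ^ 2).natAbs : ℕ) : ℝ) = A * (|(y : ℝ)|) ^ 2 := by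
      rw [Nat.cast_natAbs, abs_mul, Int.cast_mul, abs_pow, hA]
      push_cast
      ring
    rw [c2]
    have c3 : |(y : ℝ)| ≤ (C : ℝ) := by exact_mod_cast hyC
    have c4 : |(y : ℝ)| ^ 2 ≤ (C : ℝ) ^ 2 := pow_le_pow_left₀ (abs_nonneg _) c3 2
    exact mul_le_mul_of_nonneg_left c4 hA0.le) (F.filter fun v => ¬ v.2.2.2 = 0) (by
    intro v hv
    obtain ⟨a1, a2⟩ := mem_filter.1 hv
    exact ⟨hF v a1, a2⟩)
  have hcard : F.card = (F.filter fun v => v.2.2.2 = 0).card +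
      (F.filter fun v => ¬ v.2.2.2 = 0).card :=
    (card_filter_add_card_filter_not _).symm
  have hT : (T : ℝ) ≤ C1 * (4 * A) ^ (ε / 2) := Nat.floor_le (by positivity)
  have hT2 : (T2 : ℝ) ≤ C1 * (A * (C : ℝ) ^ 2) ^ (ε / 2) := Nat.floor_le (by positivity)
  have hCn : (((2 * C + 1).toNat : ℕ) : ℝ) = 2 * C + 1 := by
    have d1 : (((2 * C + 1).toNat : ℕ) : ℤ) = 2 * C + 1 := Int.toNat_of_nonneg (by omega)
    exact_mod_cast congrArg (fun z : ℤ => (z : ℝ)) d1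
  have e3 : ((F.filter fun v => ¬ v.2.2.2 = 0).card : ℝ) ≤
      4 * (C1 * (4 * A) ^ (ε / 2)) * ((2 * C + 1) * (2 * (C1 * (A * (C : ℝ) ^ 2) ^ (ε / 2)))) := by
    have d2 : ((F.filter fun v => ¬ v.2.2.2 = 0).card : ℝ) ≤
        4 * (T : ℝ) * ((((2 * C + 1).toNat : ℕ) : ℝ) * (2 * (T2 : ℝ))) := by
      exact_mod_cast e2
    rw [hCn] at d2
    refine d2.trans ?_
    gcongr
  have e4 : 4 * (C1 * (4 * A) ^ (ε / 2)) * ((2 * C + 1) * (2 * (C1 * (A * (C : ℝ) ^ 2) ^ (ε / 2)))) =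
      4 * (C1 * 4 ^ (ε / 2)) * ((2 * C + 1) * (2 * (C1 * ((C : ℝ) ^ 2) ^ (ε / 2)))) * A ^ ε := by
    rw [Real.mul_rpow (by norm_num) hA0.le, Real.mul_rpow hA0.le (by positivity)]
    have d3 : A ^ ε = A ^ (ε / 2) * A ^ (ε / 2) := by
      rw [← Real.rpow_add hA0]
      congr 1
      ring
    rw [d3]
    ring
  rw [hcard]
  push_cast
  calc ((F.filter fun v => v.2.2.2 = 0).card : ℝ) + ((F.filter fun v => ¬ v.2.2.2 = 0).card : ℝ)
      ≤ C0 * A ^ ε + 4 * (C1 * 4 ^ (ε / 2)) * ((2 * C + 1) *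
          (2 * (C1 * ((C : ℝ) ^ 2) ^ (ε / 2)))) * A ^ ε := by
        rw [← e4]
        exact add_le_add e1 e3
    _ = _ := by ring

end Hp

end Pool.Agent.Lib.MP_d8bd92_nt
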