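import Pool.Agent.Lib.MP_d8bd92_nt.Hp.PC1

set_option autoImplicit false

/-!
MP_d8bd92_nt, phase 2, row PC2.
-/

namespace Pool.Agent.Lib.MP_d8bd92_nt

namespace Hp

open Finset

/-- Row PC2.  From `roots_le` with `q = |a|`.  (h2): `n * n ∣ a`, `n ∣ 2 b`: if a prime `p ∣ n` divides `b`, then `p ^ 2 ∣ b ^ 2 - D` and
`p ^ 2 ∣ b ^ 2`, so `p ^ 2 ∣ D`, not squarefree; so `n` is prime to `b`, `n ∣ 2`. -/
theorem sqf_roots (D : ℤ) (hD : Squarefree D) (a : ℤ) (ha : a ≠ 0) (R : Finset ℤ)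
    (h : ∀ b ∈ R, 0 ≤ b ∧ b < |a| ∧ a ∣ b ^ 2 - D) : R.card ≤ 2 * a.natAbs.divisors.card := by
  have hq : 0 < a.natAbs := Int.natAbs_pos.mpr ha
  apply roots_le a.natAbs hq R
  · intro x hx
    obtain ⟨h1, h2, -⟩ := h x hx
    refine ⟨h1, ?_⟩
    rw [Int.natCast_natAbs]
    exact h2
  · intro x hx x' hx'
    have h1 := (h x hx).2.2
    have h2 := (h x' hx').2.2
    rw [Int.natAbs_dvd]
    have e : (x - x') * (x + x') = (x ^ 2 - D) - (x' ^ 2 - D) := by ring
    rw [e]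
    exact dvd_sub h1 h2
  · intro x hx x' hx' n hnn hn1 hn2
    have h1 := (h x hx).2.2
    have hn0 : n ≠ 0 := by
      rintro rfl
      simp at hnn
      omega
    have hcop : IsCoprime (n : ℤ) x := by
      rw [Int.isCoprime_iff_gcd_eq_one]
      by_contra hne
      obtain ⟨p, hp, hpd⟩ := Nat.exists_prime_and_dvd hne
      have hpn : (p : ℤ) ∣ (n : ℤ) := (Int.natCast_dvd_natCast.mpr hpd).trans (Int.gcd_dvd_left ..)
      have hpx : (p : ℤ) ∣ x := (Int.natCast_dvd_natCast.mpr hpd).trans (Int.gcd_dvd_right ..)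
      have hpp : (p : ℤ) * p ∣ a := by
        have e1 : (p : ℤ) * p ∣ (n : ℤ) * n := mul_dvd_mul hpn hpn
        have e2 : (n : ℤ) * n ∣ (a.natAbs : ℤ) := by exact_mod_cast hnn
        rw [Int.dvd_natAbs] at e2
        exact e1.trans e2
      have hppx : (p : ℤ) * p ∣ x ^ 2 := by
        rw [pow_two]
        exact mul_dvd_mul hpx hpx
      have hppD : (p : ℤ) * p ∣ D := by
        have e : D = x ^ 2 - (x ^ 2 - D) := by ring
        rw [e]
        exact dvd_sub hppx (hpp.trans h1)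
      have hu := hD (p : ℤ) hppD
      rw [Int.isUnit_iff_natAbs_eq] at hu
      simp at hu
      exact hp.one_lt.ne' hu
    have h2x : (n : ℤ) ∣ 2 * x := by
      have e : 2 * x = (x - x') + (x + x') := by ring
      rw [e]
      exact dvd_add hn1 hn2
    have h2 : (n : ℤ) ∣ 2 := hcop.dvd_of_dvd_mul_right h2x
    have h3 : n ∣ 2 := by exact_mod_cast h2
    exact Nat.le_of_dvd (by norm_num) h3

end Hp

end Pool.Agent.Lib.MP_d8bd92_nt
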