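import Pool.Agent.Lib.MP_d8bd92_nt.Hp.PCDefs
import Pool.Agent.Lib.MP_d8bd92_nt.Hp.PC2
import Pool.Agent.Lib.MP_d8bd92_nt.CdA

set_option autoImplicit false

/-!
MP_d8bd92_nt, phase 2, row PC5.
-/

namespace Pool.Agent.Lib.MP_d8bd92_nt

namespace Hp

open Finset

/-- if `v` is a code with `y = 0` then `|a|` divides `2 ^ L * |D|` with `L = log_2 (4 |D|)` -/
theorem code_zero_dvd (C D : ℤ) (k : ℕ) (hD : Squarefree D) (v : ℤ × ℤ × ℤ × ℤ) (hv : Code C D k v)
    (hy : v.2.2.2 = 0) : v.1.natAbs ∣ 2 ^ (Nat.log 2 (4 * D.natAbs)) * D.natAbs := by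
  obtain ⟨h1, h2, h3, h4, h5, h6, h7, h8⟩ := hv
  have hD0 : D ≠ 0 := hD.ne_zero
  have hDn : D.natAbs ≠ 0 := Int.natAbs_ne_zero.2 hD0
  have han : v.1.natAbs ≠ 0 := Int.natAbs_ne_zero.2 h1
  have hN : 2 ^ (Nat.log 2 (4 * D.natAbs)) * D.natAbs ≠ 0 := by positivity
  have hle : v.1.natAbs ≤ 4 * D.natAbs := by
    have e1 : ((v.1.natAbs : ℕ) : ℤ) ^ 2 ≤ 4 * ((D.natAbs : ℕ) : ℤ) := by
      rw [Int.natCast_natAbs, Int.natCast_natAbs, sq_abs]
      exact h2
    have e2 : v.1.natAbs ^ 2 ≤ 4 * D.natAbs := by exact_mod_cast e1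
    have e3 : 1 ≤ v.1.natAbs := Nat.one_le_iff_ne_zero.2 han
    nlinarith
  rw [← Nat.factorization_prime_le_iff_dvd han hN]
  intro p hp
  rw [Nat.factorization_mul (by positivity) hDn, Finsupp.add_apply]
  by_cases hp2 : p = 2
  · subst hp2
    have e1 : (2 ^ (Nat.log 2 (4 * D.natAbs))).factorization 2 = Nat.log 2 (4 * D.natAbs) := by
      rw [Nat.Prime.factorization_pow Nat.prime_two, Finsupp.single_eq_same]
    rw [e1]
    have e2 : 2 ^ (v.1.natAbs.factorization 2) ≤ 4 * D.natAbs :=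
      (Nat.ordProj_le 2 han).trans hle
    have e3 : v.1.natAbs.factorization 2 ≤ Nat.log 2 (4 * D.natAbs) := Nat.le_log_of_pow_le (by norm_num) e2
    omega
  · by_cases hpa : p ∣ v.1.natAbs
    · have hpa' : (p : ℤ) ∣ v.1 := Int.natCast_dvd.2 hpa
      have hpD : (p : ℤ) ∣ D := h8 hy p hp hp2 hpa'
      have hpD' : p ∣ D.natAbs := Int.natCast_dvd.1 hpD
      have e1 : v.1.natAbs.factorization p ≤ 1 := by
        by_contra hcon
        have e2 : 2 ≤ v.1.natAbs.factorization p := by omega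
        have e3 : p ^ 2 ∣ v.1.natAbs := (Nat.Prime.pow_dvd_iff_le_factorization hp han).2 e2
        have e4 : (p : ℤ) ^ 2 ∣ v.1 := by
          have := Int.natCast_dvd.2 e3
          exact_mod_cast this
        have e5 : (p : ℤ) ∣ v.2.1 := by
          have e6 : (p : ℤ) ∣ v.2.1 ^ 2 := by
            have e7 : (p : ℤ) ∣ v.2.1 ^ 2 - D := hpa'.trans h5
            have e8 := dvd_add e7 hpD
            rwa [sub_add_cancel] at e8
          exact (Nat.prime_iff_prime_int.1 hp).dvd_of_dvd_pow e6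
        have e9 : (p : ℤ) ^ 2 ∣ D := by
          have e10 : (p : ℤ) ^ 2 ∣ v.2.1 ^ 2 := pow_dvd_pow_of_dvd e5 2
          have e11 : (p : ℤ) ^ 2 ∣ v.2.1 ^ 2 - D := e4.trans h5
          have e12 := dvd_sub e10 e11
          rwa [sub_sub_cancel] at e12
        rw [pow_two] at e9
        have e13 := hD _ e9
        exact (Nat.prime_iff_prime_int.1 hp).not_isUnit e13
      have e2 : 1 ≤ D.natAbs.factorization p :=
        (Nat.Prime.dvd_iff_one_le_factorization hp hDn).1 hpD'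
      omega
    · rw [Nat.factorization_eq_zero_of_not_dvd hpa]
      omega

/-- Row PC5.  Codes with `y = 0`.  An odd prime `p ∣ a` divides `D`, so `p ∣ b`, and `p ^ 2 ∤ a` (else `p ^ 2 ∣ D`); so
`|a| = 2 ^ j * a'` with `a' ∣ D`, `2 ^ j ≤ |a| ≤ 2 √|D|`: at most `2 τ(|D|) (2 + log_2 |D|)` values of `a`; `x ^ 2 = a ^ k`: at most 2
values of `x`; at most `2 τ(|a|)` values of `b` by `sqf_roots`. -/
theorem code_zero (ε : ℝ) (hε : 0 < ε) : ∃ C' : ℝ, 0 < C' ∧ ∀ (C D : ℤ) (k : ℕ), Squarefree D →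
    ∀ F : Finset (ℤ × ℤ × ℤ × ℤ), (∀ v ∈ F, Code C D k v ∧ v.2.2.2 = 0) → (F.card : ℝ) ≤ C' * ((|D| : ℤ) : ℝ) ^ ε := by
  obtain ⟨C0, hC01, hC0⟩ := card_divisors_le_rpow (ε / 4) (by positivity)
  refine ⟨8 * C0 ^ 2 * (4 : ℝ) ^ (ε / 2), by positivity, ?_⟩
  intro C D k hD F hF
  classical
  have hD0 : D ≠ 0 := hD.ne_zero
  have hDn : D.natAbs ≠ 0 := Int.natAbs_ne_zero.2 hD0
  set N : ℕ := 2 ^ (Nat.log 2 (4 * D.natAbs)) * D.natAbs with hNdef
  have hN : N ≠ 0 := by positivity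
  set T : ℕ := N.divisors.card with hT
  -- the values of `a`
  have hA : (F.image (fun v => v.1)).card ≤ 2 * T := by
    have h1 : F.image (fun v => v.1) ⊆
        (N.divisors.image (fun d : ℕ => (d : ℤ))) ∪ (N.divisors.image (fun d : ℕ => -(d : ℤ))) := by
      intro a ha
      obtain ⟨v, hv, rfl⟩ := Finset.mem_image.1 ha
      have h2 := code_zero_dvd C D k hD v (hF v hv).1 (hF v hv).2
      have h3 : v.1.natAbs ∈ N.divisors := Nat.mem_divisors.2 ⟨h2, hN⟩
      rcases Int.natAbs_eq v.1 with h | h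
      · exact Finset.mem_union_left _ (Finset.mem_image.2 ⟨_, h3, h.symm⟩)
      · exact Finset.mem_union_right _ (Finset.mem_image.2 ⟨_, h3, h.symm⟩)
    calc (F.image (fun v => v.1)).card ≤ _ := Finset.card_le_card h1
      _ ≤ _ := Finset.card_union_le _ _
      _ ≤ N.divisors.card + N.divisors.card := add_le_add Finset.card_image_le Finset.card_image_le
      _ = 2 * T := by rw [hT]; ring
  -- the fibres
  have hfib : ∀ a ∈ F.image (fun v => v.1), (F.filter (fun v => v.1 = a)).card ≤ (2 * T) * 2 := by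
    intro a ha
    obtain ⟨v0, hv0, hva⟩ := Finset.mem_image.1 ha
    have hva' : v0.1 = a := hva
    have ha0 : a ≠ 0 := hva' ▸ (hF v0 hv0).1.1
    have haN : a.natAbs ∣ N := by
      rw [← hva']
      exact code_zero_dvd C D k hD v0 (hF v0 hv0).1 (hF v0 hv0).2
    set B : Finset ℤ := (F.filter (fun v => v.1 = a)).image (fun v => v.2.1) with hB
    set X : Finset ℤ := (F.filter (fun v => v.1 = a)).image (fun v => v.2.2.1) with hX
    have hBc : B.card ≤ 2 * T := by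
      have h1 : B.card ≤ 2 * a.natAbs.divisors.card := by
        apply sqf_roots D hD a ha0 B
        intro b hb
        obtain ⟨v, hv, rfl⟩ := Finset.mem_image.1 hb
        obtain ⟨hvF, hva2⟩ := Finset.mem_filter.1 hv
        have hc := (hF v hvF).1
        have hb1 : 0 ≤ v.2.1 := hc.2.2.1
        have hb2 : v.2.1 < |v.1| := hc.2.2.2.1
        have hb3 : v.1 ∣ v.2.1 ^ 2 - D := hc.2.2.2.2.1
        rw [hva2] at hb2 hb3
        exact ⟨hb1, hb2, hb3⟩
      have h2 : a.natAbs.divisors.card ≤ T := by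
        rw [hT]
        exact Finset.card_le_card (Nat.divisors_subset_of_dvd hN haN)
      omega
    have hXc : X.card ≤ 2 := by
      have hv0X : v0.2.2.1 ∈ X :=
        Finset.mem_image.2 ⟨v0, Finset.mem_filter.2 ⟨hv0, hva'⟩, rfl⟩
      have hsq : ∀ x ∈ X, x ^ 2 = a ^ k := by
        intro x hx
        obtain ⟨v, hv, rfl⟩ := Finset.mem_image.1 hx
        obtain ⟨hvF, hva2⟩ := Finset.mem_filter.1 hv
        have hc := (hF v hvF).1.2.2.2.2.2.1
        have hy := (hF v hvF).2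
        rw [hy, hva2] at hc
        simpa using hc
      have h1 : X ⊆ {v0.2.2.1, -v0.2.2.1} := by
        intro x hx
        have e : x ^ 2 = v0.2.2.1 ^ 2 := by rw [hsq x hx, hsq _ hv0X]
        rcases sq_eq_sq_iff_eq_or_eq_neg.1 e with h | h
        · rw [h]; exact Finset.mem_insert_self _ _
        · rw [h]; exact Finset.mem_insert_of_mem (Finset.mem_singleton_self _)
      exact (Finset.card_le_card h1).trans Finset.card_le_two
    have hinj : (F.filter (fun v => v.1 = a)).card ≤ (B ×ˢ X).card := by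
      apply Finset.card_le_card_of_injOn (fun v => (v.2.1, v.2.2.1))
      · intro v hv
        have hv' : v ∈ F.filter (fun v => v.1 = a) := hv
        exact Finset.mem_coe.2 (Finset.mem_product.2 ⟨Finset.mem_image.2 ⟨v, hv', rfl⟩, Finset.mem_image.2 ⟨v, hv', rfl⟩⟩)
      · intro v hv w hw hvw
        have hv' : v ∈ F.filter (fun v => v.1 = a) := hv
        have hw' : w ∈ F.filter (fun v => v.1 = a) := hw
        obtain ⟨hvF, hva2⟩ := Finset.mem_filter.1 hv'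
        obtain ⟨hwF, hwa2⟩ := Finset.mem_filter.1 hw'
        have hvw2 : (v.2.1, v.2.2.1) = (w.2.1, w.2.2.1) := hvw
        have e1 : v.2.1 = w.2.1 := (Prod.mk.inj hvw2).1
        have e2 : v.2.2.1 = w.2.2.1 := (Prod.mk.inj hvw2).2
        have e3 : v.2.2.2 = w.2.2.2 := by rw [(hF v hvF).2, (hF w hwF).2]
        have e0 : v.1 = w.1 := by rw [hva2, hwa2]
        exact Prod.ext e0 (Prod.ext e1 (Prod.ext e2 e3))
    rw [Finset.card_product] at hinj
    exact hinj.trans (Nat.mul_le_mul hBc hXc)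
  have hcard : F.card ≤ 8 * T ^ 2 := by
    have h1 : F.card = ∑ a ∈ F.image (fun v => v.1), (F.filter (fun v => v.1 = a)).card :=
      Finset.card_eq_sum_card_image (fun v : ℤ × ℤ × ℤ × ℤ => v.1) F
    have h2 : ∑ a ∈ F.image (fun v => v.1), (F.filter (fun v => v.1 = a)).card ≤
        (F.image (fun v => v.1)).card * ((2 * T) * 2) := by
      rw [← smul_eq_mul]
      exact Finset.sum_le_card_nsmul _ _ _ hfib
    have h3 := Nat.mul_le_mul_right ((2 * T) * 2) hA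
    nlinarith
  -- the divisor bound
  have hTle : (T : ℝ) ≤ C0 * (N : ℝ) ^ (ε / 4) := hC0 N hN
  have hD1 : (1 : ℝ) ≤ (D.natAbs : ℝ) := by exact_mod_cast Nat.one_le_iff_ne_zero.2 hDn
  have hNle : (N : ℝ) ≤ 4 * (D.natAbs : ℝ) ^ 2 := by
    have h1 : 2 ^ (Nat.log 2 (4 * D.natAbs)) ≤ 4 * D.natAbs := Nat.pow_log_le_self 2 (by omega)
    have h2 : N ≤ 4 * D.natAbs * D.natAbs := Nat.mul_le_mul_right _ h1
    have h3 : (N : ℝ) ≤ ((4 * D.natAbs * D.natAbs : ℕ) : ℝ) := by exact_mod_cast h2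
    calc (N : ℝ) ≤ _ := h3
      _ = 4 * (D.natAbs : ℝ) ^ 2 := by push_cast; ring
  have hTle2 : (T : ℝ) ≤ C0 * ((4 : ℝ) ^ (ε / 4) * (D.natAbs : ℝ) ^ (ε / 2)) := by
    refine hTle.trans (mul_le_mul_of_nonneg_left ?_ (by linarith))
    calc (N : ℝ) ^ (ε / 4) ≤ (4 * (D.natAbs : ℝ) ^ 2) ^ (ε / 4) :=
          Real.rpow_le_rpow (Nat.cast_nonneg _) hNle (by positivity)
      _ = (4 : ℝ) ^ (ε / 4) * ((D.natAbs : ℝ) ^ 2) ^ (ε / 4) := Real.mul_rpow (by norm_num) (by positivity)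
      _ = (4 : ℝ) ^ (ε / 4) * (D.natAbs : ℝ) ^ (ε / 2) := by
          rw [← Real.rpow_natCast, ← Real.rpow_mul (by positivity)]
          congr 2
          push_cast
          ring
  have hcard' : (F.card : ℝ) ≤ 8 * (T : ℝ) ^ 2 := by exact_mod_cast hcard
  have habs : ((|D| : ℤ) : ℝ) = (D.natAbs : ℝ) := by
    rw [Int.abs_eq_natAbs]
    simp
  rw [habs]
  have h4 : (4 : ℝ) ^ (ε / 4) * (4 : ℝ) ^ (ε / 4) = (4 : ℝ) ^ (ε / 2) := by
    rw [← Real.rpow_add (by norm_num)]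
    congr 1
    ring
  have h5 : (D.natAbs : ℝ) ^ (ε / 2) * (D.natAbs : ℝ) ^ (ε / 2) = (D.natAbs : ℝ) ^ ε := by
    rw [← Real.rpow_add (by linarith)]
    congr 1
    ring
  calc (F.card : ℝ) ≤ 8 * (T : ℝ) ^ 2 := hcard'
    _ ≤ 8 * (C0 * ((4 : ℝ) ^ (ε / 4) * (D.natAbs : ℝ) ^ (ε / 2))) ^ 2 := by
        apply mul_le_mul_of_nonneg_left _ (by norm_num)
        exact pow_le_pow_left₀ (Nat.cast_nonneg _) hTle2 2
    _ = 8 * C0 ^ 2 * ((4 : ℝ) ^ (ε / 4) * (4 : ℝ) ^ (ε / 4)) *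
          ((D.natAbs : ℝ) ^ (ε / 2) * (D.natAbs : ℝ) ^ (ε / 2)) := by ring
    _ = 8 * C0 ^ 2 * (4 : ℝ) ^ (ε / 2) * (D.natAbs : ℝ) ^ ε := by rw [h4, h5]

end Hp

end Pool.Agent.Lib.MP_d8bd92_nt
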