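import Pool.Agent.Lib.MP_d8bd92_nt.Hp.PC4
import Pool.Agent.Lib.MP_d8bd92_nt.Hp.PC5

set_option autoImplicit false

/-!
MP_d8bd92_nt, phase 2, row PC7.
-/

namespace Pool.Agent.Lib.MP_d8bd92_nt

namespace Hp

open Finset

private theorem pc7_fib {α β : Type*} [DecidableEq β] (s : Finset α) (t : Finset β) (f : α → β)
    (B : ℝ) (hB : 0 ≤ B) (hf : ∀ a ∈ s, f a ∈ t)
    (h : ∀ b ∈ t, ((s.filter (fun a => f a = b)).card : ℝ) ≤ B) : (s.card : ℝ) ≤ B * t.card := by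
  have h1 : s.card ≤ ⌊B⌋₊ * t.card :=
    Finset.card_le_mul_card_image_of_maps_to hf _ (fun b hb => Nat.le_floor (h b hb))
  calc (s.card : ℝ) ≤ ((⌊B⌋₊ * t.card : ℕ) : ℝ) := by exact_mod_cast h1
    _ = (⌊B⌋₊ : ℝ) * t.card := by push_cast; ring
    _ ≤ B * t.card := mul_le_mul_of_nonneg_right (Nat.floor_le hB) (Nat.cast_nonneg _)

/-- symmetric intervals -/
private theorem pc7_icc (R : ℝ) (hR : 1 ≤ R) :
    (((Icc (-⌊R⌋) ⌊R⌋ : Finset ℤ).card : ℕ) : ℝ) ≤ 3 * R := by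
  have h1 : 1 ≤ ⌊R⌋ := Int.le_floor.2 (by exact_mod_cast hR)
  have h2 : ((⌊R⌋ : ℤ) : ℝ) ≤ R := Int.floor_le R
  have h3 : (((Icc (-⌊R⌋) ⌊R⌋ : Finset ℤ).card : ℕ) : ℤ) = 2 * ⌊R⌋ + 1 := by
    rw [Int.card_Icc]
    omega
  have h4 : (((Icc (-⌊R⌋) ⌊R⌋ : Finset ℤ).card : ℕ) : ℝ) = 2 * ((⌊R⌋ : ℤ) : ℝ) + 1 := by
    exact_mod_cast h3
  rw [h4]
  linarith

private theorem pc7_mem {R : ℝ} {a : ℤ} (h : ((|a| : ℤ) : ℝ) ≤ R) : a ∈ Icc (-⌊R⌋) ⌊R⌋ := by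
  have h1 : |a| ≤ ⌊R⌋ := Int.le_floor.2 h
  exact Finset.mem_Icc.2 (abs_le.1 h1)

private theorem pc7_neg {α : Type*} {s : Finset α} {B : ℝ} (hB : 0 ≤ B)
    (h : ∀ w ∈ s, (s.card : ℝ) ≤ B) : (s.card : ℝ) ≤ B := by
  rcases s.eq_empty_or_nonempty with h0 | ⟨w, hw⟩
  · rw [h0]
    simpa using hB
  · exact h w hw

/-- codes with `y = 0` -/
private theorem pc7_zero (C : ℤ) (k : ℕ) (ε : ℝ) (hε : 0 < ε) : ∃ C' : ℝ, 0 < C' ∧ ∀ Z : ℝ, 1 ≤ Z →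
    ∀ F : Finset (ℤ × ℤ × ℤ × ℤ × ℤ), (∀ w ∈ F, Squarefree w.1 ∧ ((|w.1| : ℤ) : ℝ) ≤ Z ∧
      Code C w.1 k w.2 ∧ w.2.2.2.2 = 0) → (F.card : ℝ) ≤ C' * Z ^ (1 + ε) := by
  obtain ⟨C1, hC1, h1⟩ := code_zero ε hε
  refine ⟨3 * C1, by positivity, ?_⟩
  intro Z hZ F hF
  have hZ0 : 0 < Z := by linarith
  have h2 := pc7_fib F (Icc (-⌊Z⌋) ⌊Z⌋) (fun w => w.1) (C1 * Z ^ ε) (by positivity)
    (fun w hw => pc7_mem (hF w hw).2.1) (by
      intro D _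
      refine pc7_neg (by positivity) fun w0 hw0 => ?_
      rw [Finset.mem_filter] at hw0
      obtain ⟨hw0, hD⟩ := hw0
      have h3 := (hF w0 hw0)
      have h4 : ((F.filter (fun w => w.1 = D)).image (fun w => w.2)).card =
          (F.filter (fun w => w.1 = D)).card := by
        refine Finset.card_image_of_injOn ?_
        intro u hu v hv huv
        rw [Finset.mem_coe, Finset.mem_filter] at hu hv
        exact Prod.ext (hu.2.trans hv.2.symm) huv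
      rw [← h4]
      have h5 : Squarefree D := hD ▸ h3.1
      refine (h1 C D k h5 _ ?_).trans ?_
      · intro v hv
        rw [Finset.mem_image] at hv
        obtain ⟨w, hw, rfl⟩ := hv
        rw [Finset.mem_filter] at hw
        have h6 := hF w hw.1
        rw [hw.2] at h6
        exact h6.2.2
      · have h6 : ((|D| : ℤ) : ℝ) ≤ Z := hD ▸ h3.2.1
        exact mul_le_mul_of_nonneg_left (Real.rpow_le_rpow (by positivity) h6 hε.le) hC1.le)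
  refine h2.trans ?_
  have h3 := pc7_icc Z hZ
  calc C1 * Z ^ ε * (((Icc (-⌊Z⌋) ⌊Z⌋ : Finset ℤ).card : ℕ) : ℝ) ≤ C1 * Z ^ ε * (3 * Z) :=
        mul_le_mul_of_nonneg_left h3 (by positivity)
    _ = 3 * C1 * Z ^ (1 + ε) := by
        rw [Real.rpow_add hZ0, Real.rpow_one]
        ring

/-- the size of `y` -/
private theorem pc7_y (C : ℤ) (hC : 1 ≤ C) (k : ℕ) (hk : 2 ≤ k) (Z : ℝ) (hZ : 1 ≤ Z) (D x y : ℤ)
    (hD : D ≠ 0) (hDZ : ((|D| : ℤ) : ℝ) ≤ Z) (h : (x ^ 2 + |D| * y ^ 2) ^ 2 ≤ C * |D| ^ k) :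
    ((|y| : ℤ) : ℝ) ≤ C * Z ^ ((k : ℝ) / 4 - 1 / 2) := by
  have hZ0 : 0 < Z := by linarith
  have hD1 : 1 ≤ |D| := Int.one_le_abs hD
  have hC1 : (1 : ℝ) ≤ (C : ℝ) := by exact_mod_cast hC
  obtain ⟨m, rfl⟩ : ∃ m, k = m + 2 := ⟨k - 2, by omega⟩
  have h1 : |D| ^ 2 * y ^ 4 ≤ |D| ^ 2 * (C * |D| ^ m) := by
    have h2 : (|D| * y ^ 2) ^ 2 ≤ (x ^ 2 + |D| * y ^ 2) ^ 2 := by
      apply pow_le_pow_left₀ (by positivity)
      nlinarith [sq_nonneg x]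
    calc |D| ^ 2 * y ^ 4 = (|D| * y ^ 2) ^ 2 := by ring
      _ ≤ C * |D| ^ (m + 2) := h2.trans h
      _ = |D| ^ 2 * (C * |D| ^ m) := by ring
  have h2 : y ^ 4 ≤ C * |D| ^ m := le_of_mul_le_mul_left h1 (by positivity)
  have h3 : ((|y| : ℤ) : ℝ) ^ 4 ≤ C * Z ^ m := by
    have h4 : |y| ^ 4 ≤ C * |D| ^ m := by
      have h5 : |y| ^ 4 = y ^ 4 := by
        rw [← abs_pow, abs_of_nonneg (by positivity)]
      rw [h5]
      exact h2
    have h5 : ((|y| : ℤ) : ℝ) ^ 4 ≤ (C : ℝ) * ((|D| : ℤ) : ℝ) ^ m := by exact_mod_cast h4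
    refine h5.trans (mul_le_mul_of_nonneg_left ?_ (by linarith))
    exact pow_le_pow_left₀ (by positivity) hDZ m
  have h4 : (C * Z ^ (((m + 2 : ℕ) : ℝ) / 4 - 1 / 2)) ^ 4 = (C : ℝ) ^ 4 * Z ^ m := by
    rw [mul_pow]
    congr 1
    rw [← Real.rpow_natCast (Z ^ _) 4, ← Real.rpow_mul hZ0.le, ← Real.rpow_natCast Z m]
    congr 1
    push_cast
    ring
  have h5 : (C : ℝ) * Z ^ m ≤ (C : ℝ) ^ 4 * Z ^ m :=
    mul_le_mul_of_nonneg_right (le_self_pow₀ hC1 (by norm_num)) (by positivity)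
  rw [← h4] at h5
  exact le_of_pow_le_pow_left₀ (by norm_num) (by positivity) (h3.trans h5)

/-- the size of `a` -/
private theorem pc7_a (Z : ℝ) (hZ : 1 ≤ Z) (D a : ℤ) (hDZ : ((|D| : ℤ) : ℝ) ≤ Z)
    (h : a ^ 2 ≤ 4 * |D|) : ((|a| : ℤ) : ℝ) ≤ 2 * √Z := by
  have h1 : ((|a| : ℤ) : ℝ) ^ 2 ≤ 4 * Z := by
    have h2 : |a| ^ 2 ≤ 4 * |D| := by rw [sq_abs]; exact h
    have h3 : ((|a| : ℤ) : ℝ) ^ 2 ≤ 4 * ((|D| : ℤ) : ℝ) := by exact_mod_cast h2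
    linarith
  have h2 : (2 * √Z) ^ 2 = 4 * Z := by
    rw [mul_pow, Real.sq_sqrt (by linarith)]
    ring
  rw [← h2] at h1
  exact le_of_pow_le_pow_left₀ (by norm_num) (by positivity) h1

/-- the pairs `(x, y)` for one `a` -/
private theorem pc7_xy (C : ℤ) (hC : 1 ≤ C) (k : ℕ) (hk : 2 ≤ k) (ε : ℝ) (hε : 0 < ε) :
    ∃ C' : ℝ, 0 < C' ∧ ∀ Z : ℝ, 1 ≤ Z → ∀ a : ℤ, a ≠ 0 → ∀ S : Finset (ℤ × ℤ),
      (∀ v ∈ S, v.2 ≠ 0 ∧ ∃ D b : ℤ, Squarefree D ∧ ((|D| : ℤ) : ℝ) ≤ Z ∧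
        Code C D k (a, b, v.1, v.2)) →
      (S.card : ℝ) ≤ C' * Z ^ (2 * k * ε) * (√Z + C * Z ^ ((k : ℝ) / 4 - 1 / 2)) := by
  obtain ⟨C2, hC2, h2⟩ := pairs_count ε hε
  have hC1 : (1 : ℝ) ≤ (C : ℝ) := by exact_mod_cast hC
  refine ⟨4 * C2 * ((2 : ℝ) ^ k * C) ^ ε, by positivity, ?_⟩
  intro Z hZ a ha S hS
  have hZ0 : 0 < Z := by linarith
  have hsZ : 1 ≤ √Z := Real.one_le_sqrt.2 hZ
  have hkr : (2 : ℝ) ≤ (k : ℝ) := by exact_mod_cast hk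
  obtain ⟨Y1, hY1⟩ : ∃ Y1 : ℝ, Y1 = C * Z ^ ((k : ℝ) / 4 - 1 / 2) := ⟨_, rfl⟩
  have hY11 : 1 ≤ Y1 := by
    rw [hY1]
    exact one_le_mul_of_one_le_of_one_le hC1 (Real.one_le_rpow hZ (by linarith))
  rw [← hY1]
  refine pc7_neg (by positivity) fun v0 hv0 => ?_
  have ha2 : ((|a| : ℤ) : ℝ) ≤ 2 * √Z := by
    obtain ⟨_, D, b, _, hDZ, hc⟩ := hS v0 hv0
    exact pc7_a Z hZ D a hDZ hc.2.1
  have h3 := pc7_fib S (S.image (fun v => (|v.1|, |v.2|))) (fun v => (|v.1|, |v.2|)) 4 (by norm_num)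
    (fun v hv => Finset.mem_image_of_mem _ hv) (by
      rintro ⟨x, y⟩ _
      have h4 : S.filter (fun v => (|v.1|, |v.2|) = (x, y)) ⊆
          ({x, -x} : Finset ℤ) ×ˢ ({y, -y} : Finset ℤ) := by
        intro v hv
        rw [Finset.mem_filter] at hv
        have h5 : |v.1| = x := congrArg Prod.fst hv.2
        have h6 : |v.2| = y := congrArg Prod.snd hv.2
        rw [Finset.mem_product, Finset.mem_insert, Finset.mem_singleton, Finset.mem_insert,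
          Finset.mem_singleton]
        refine ⟨?_, ?_⟩
        · rw [← h5]
          rcases abs_choice v.1 with h | h <;> rw [h]
          · exact Or.inl rfl
          · exact Or.inr (neg_neg _).symm
        · rw [← h6]
          rcases abs_choice v.2 with h | h <;> rw [h]
          · exact Or.inl rfl
          · exact Or.inr (neg_neg _).symm
      have h5 := (Finset.card_le_card h4)
      rw [Finset.card_product] at h5
      have h6 : ({x, -x} : Finset ℤ).card ≤ 2 := Finset.card_le_two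
      have h7 : ({y, -y} : Finset ℤ).card ≤ 2 := Finset.card_le_two
      have h8 : (S.filter (fun v => (|v.1|, |v.2|) = (x, y))).card ≤ 4 :=
        h5.trans ((Nat.mul_le_mul h6 h7).trans (le_of_eq rfl))
      exact_mod_cast h8)
  have h4 := h2 (a ^ k) Z Y1 (pow_ne_zero _ ha) hZ hY11
    (S.image (fun v => (|v.1|, |v.2|))) (by
      intro u hu
      rw [Finset.mem_image] at hu
      obtain ⟨v, hv, rfl⟩ := hu
      obtain ⟨hy, D, b, hD, hDZ, hc⟩ := hS v hv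
      have hD0 : D ≠ 0 := hD.ne_zero
      have h5 : v.1 ^ 2 - a ^ k = D * v.2 ^ 2 := by
        have h6 : v.1 ^ 2 - D * v.2 ^ 2 = a ^ k := hc.2.2.2.2.2.1
        linarith
      refine ⟨abs_nonneg _, Int.one_le_abs hy, ?_, ?_, ?_⟩
      · rw [hY1]
        exact pc7_y C hC k hk Z hZ D v.1 v.2 hD0 hDZ hc.2.2.2.2.2.2.1
      · change |v.2| ^ 2 ∣ |v.1| ^ 2 - a ^ k
        rw [sq_abs, sq_abs, h5]
        exact Dvd.intro_left _ rfl
      · change ((abs ((abs v.1) ^ 2 - a ^ k) : ℤ) : ℝ) ≤ Z * ((|v.2| : ℤ) : ℝ) ^ 2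
        rw [sq_abs, h5, abs_mul, Int.cast_mul, abs_pow]
        push_cast
        push_cast at hDZ
        exact mul_le_mul_of_nonneg_right hDZ (by positivity))
  have hA : ((|a ^ k| : ℤ) : ℝ) = ((a.natAbs ^ k : ℕ) : ℝ) := by
    rw [abs_pow, Int.cast_pow, Nat.cast_pow, Nat.cast_natAbs]
  rw [hA] at h4
  have h5 : (((a.natAbs ^ k : ℕ) : ℝ) * Y1) ^ ε ≤ ((2 : ℝ) ^ k * C) ^ ε * Z ^ (2 * k * ε) := by
    have h6 : ((a.natAbs ^ k : ℕ) : ℝ) * Y1 ≤ ((2 : ℝ) ^ k * C) * Z ^ (2 * k : ℝ) := by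
      have h7 : ((a.natAbs ^ k : ℕ) : ℝ) ≤ (2 * Z) ^ k := by
        have h8 : ((a.natAbs : ℕ) : ℝ) ≤ 2 * Z := by
          have h9 : ((a.natAbs : ℕ) : ℝ) = ((|a| : ℤ) : ℝ) := by
            rw [Nat.cast_natAbs]
          rw [h9]
          refine ha2.trans ?_
          have h10 : √Z ≤ Z := (Real.sqrt_le_left hZ0.le).2 (by nlinarith)
          linarith
        push_cast
        exact pow_le_pow_left₀ (by positivity) h8 k
      have h8 : Y1 ≤ C * Z ^ (k : ℝ) := by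
        rw [hY1]
        refine mul_le_mul_of_nonneg_left (Real.rpow_le_rpow_of_exponent_le hZ ?_) (by linarith)
        linarith
      calc ((a.natAbs ^ k : ℕ) : ℝ) * Y1 ≤ (2 * Z) ^ k * (C * Z ^ (k : ℝ)) :=
            mul_le_mul h7 h8 (by linarith) (by positivity)
        _ = ((2 : ℝ) ^ k * C) * (Z ^ (k : ℝ) * Z ^ (k : ℝ)) := by
            rw [mul_pow, ← Real.rpow_natCast Z k]
            ring
        _ = ((2 : ℝ) ^ k * C) * Z ^ (2 * k : ℝ) := by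
            rw [← Real.rpow_add hZ0]
            congr 2
            ring
    calc (((a.natAbs ^ k : ℕ) : ℝ) * Y1) ^ ε ≤ (((2 : ℝ) ^ k * C) * Z ^ (2 * k : ℝ)) ^ ε :=
          Real.rpow_le_rpow (by positivity) h6 hε.le
      _ = ((2 : ℝ) ^ k * C) ^ ε * Z ^ (2 * k * ε) := by
          rw [Real.mul_rpow (by positivity) (by positivity), ← Real.rpow_mul hZ0.le]
  calc (S.card : ℝ) ≤ 4 * ((S.image (fun v => (|v.1|, |v.2|))).card : ℝ) := h3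
    _ ≤ 4 * (C2 * (((a.natAbs ^ k : ℕ) : ℝ) * Y1) ^ ε * (√Z + Y1)) :=
        mul_le_mul_of_nonneg_left h4 (by norm_num)
    _ ≤ 4 * (C2 * (((2 : ℝ) ^ k * C) ^ ε * Z ^ (2 * k * ε)) * (√Z + Y1)) := by
        refine mul_le_mul_of_nonneg_left ?_ (by norm_num)
        refine mul_le_mul_of_nonneg_right ?_ (by positivity)
        exact mul_le_mul_of_nonneg_left h5 hC2.le
    _ = 4 * C2 * ((2 : ℝ) ^ k * C) ^ ε * Z ^ (2 * k * ε) * (√Z + Y1) := by ring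

/-- codes with `y ≠ 0` -/
private theorem pc7_pos (C : ℤ) (hC : 1 ≤ C) (k : ℕ) (hk : 2 ≤ k) (ε : ℝ) (hε : 0 < ε) :
    ∃ C' : ℝ, 0 < C' ∧ ∀ Z : ℝ, 1 ≤ Z →
    ∀ F : Finset (ℤ × ℤ × ℤ × ℤ × ℤ), (∀ w ∈ F, Squarefree w.1 ∧ ((|w.1| : ℤ) : ℝ) ≤ Z ∧
      Code C w.1 k w.2 ∧ w.2.2.2.2 ≠ 0) → (F.card : ℝ) ≤ C' * Z ^ (max 1 ((k : ℝ) / 4) + ε) := by
  obtain ⟨ε1, hε1⟩ : ∃ ε1 : ℝ, ε1 = ε / (2 * k + 1) := ⟨_, rfl⟩
  have hkr : (2 : ℝ) ≤ (k : ℝ) := by exact_mod_cast hk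
  have hε10 : 0 < ε1 := by
    rw [hε1]
    positivity
  have hε12 : 2 * k * ε1 + ε1 = ε := by
    rw [hε1]
    field_simp
  obtain ⟨C1, hC1, h1⟩ := pc7_xy C hC k hk ε1 hε10
  obtain ⟨C3, hC3, h3⟩ := card_divisors_le_rpow ε1 hε10
  have hCr : (1 : ℝ) ≤ (C : ℝ) := by exact_mod_cast hC
  refine ⟨2 * (C3 * (2 : ℝ) ^ ε1) * (C1 * 6 * (1 + C)), by positivity, ?_⟩
  intro Z hZ F hF
  have hZ0 : 0 < Z := by linarith
  have hsZ : 1 ≤ √Z := Real.one_le_sqrt.2 hZ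
  -- the divisor function
  have hdiv : ∀ D a : ℤ, a ≠ 0 → ((|D| : ℤ) : ℝ) ≤ Z → a ^ 2 ≤ 4 * |D| →
      ((a.natAbs.divisors.card : ℕ) : ℝ) ≤ C3 * (2 : ℝ) ^ ε1 * Z ^ ε1 := by
    intro D a ha hD h
    refine (h3 a.natAbs (by omega)).trans ?_
    have h4 : ((a.natAbs : ℕ) : ℝ) ≤ 2 * Z := by
      have h9 : ((a.natAbs : ℕ) : ℝ) = ((|a| : ℤ) : ℝ) := by
        rw [Nat.cast_natAbs]
      rw [h9]
      refine (pc7_a Z hZ D a hD h).trans ?_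
      have h10 : √Z ≤ Z := (Real.sqrt_le_left hZ0.le).2 (by nlinarith)
      linarith
    have h5 : ((a.natAbs : ℕ) : ℝ) ^ ε1 ≤ (2 : ℝ) ^ ε1 * Z ^ ε1 := by
      rw [← Real.mul_rpow (by norm_num) hZ0.le]
      exact Real.rpow_le_rpow (by positivity) h4 hε10.le
    calc C3 * ((a.natAbs : ℕ) : ℝ) ^ ε1 ≤ C3 * ((2 : ℝ) ^ ε1 * Z ^ ε1) :=
          mul_le_mul_of_nonneg_left h5 (by linarith)
      _ = C3 * (2 : ℝ) ^ ε1 * Z ^ ε1 := by ring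
  -- the triples
  obtain ⟨T, hT⟩ : ∃ T : Finset (ℤ × ℤ × ℤ), T = F.image (fun w => (w.2.1, w.2.2.2.1, w.2.2.2.2)) :=
    ⟨_, rfl⟩
  have hstep1 : (F.card : ℝ) ≤ 2 * (C3 * (2 : ℝ) ^ ε1 * Z ^ ε1) * T.card := by
    refine pc7_fib F T (fun w => (w.2.1, w.2.2.2.1, w.2.2.2.2)) _ (by positivity)
      (fun w hw => by rw [hT]; exact Finset.mem_image_of_mem _ hw) ?_
    rintro ⟨a, x, y⟩ _
    refine pc7_neg (by positivity) fun w0 hw0 => ?_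
    rw [Finset.mem_filter] at hw0
    obtain ⟨hw0, he0⟩ := hw0
    obtain ⟨g1, g2, g3, g4⟩ := hF w0 hw0
    have e1 : w0.2.1 = a := congrArg Prod.fst he0
    have e2 : w0.2.2.2.1 = x := congrArg (fun v => v.2.1) he0
    have e3 : w0.2.2.2.2 = y := congrArg (fun v => v.2.2) he0
    have key : ∀ w ∈ F.filter (fun w => (w.2.1, w.2.2.2.1, w.2.2.2.2) = (a, x, y)),
        w.1 = w0.1 ∧ w.2.1 = a ∧ w.2.2.2.1 = x ∧ w.2.2.2.2 = y := by
      intro w hw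
      rw [Finset.mem_filter] at hw
      obtain ⟨hw, he⟩ := hw
      have f1 : w.2.1 = a := congrArg Prod.fst he
      have f2 : w.2.2.2.1 = x := congrArg (fun v => v.2.1) he
      have f3 : w.2.2.2.2 = y := congrArg (fun v => v.2.2) he
      obtain ⟨k1, k2, k3, k4⟩ := hF w hw
      have m1 : w.2.2.2.1 ^ 2 - w.1 * w.2.2.2.2 ^ 2 = w.2.1 ^ k := k3.2.2.2.2.2.1
      have m2 : w0.2.2.2.1 ^ 2 - w0.1 * w0.2.2.2.2 ^ 2 = w0.2.1 ^ k := g3.2.2.2.2.2.1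
      rw [f1, f2, f3] at m1
      rw [e1, e2, e3] at m2
      rw [f3] at k4
      refine ⟨?_, f1, f2, f3⟩
      have m3 : w.1 * y ^ 2 = w0.1 * y ^ 2 := by linarith
      exact mul_right_cancel₀ (pow_ne_zero 2 k4) m3
    have h4 : ((F.filter (fun w => (w.2.1, w.2.2.2.1, w.2.2.2.2) = (a, x, y))).image
        (fun w => w.2.2.1)).card =
        (F.filter (fun w => (w.2.1, w.2.2.2.1, w.2.2.2.2) = (a, x, y))).card := by
      refine Finset.card_image_of_injOn ?_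
      intro u hu v hv huv
      obtain ⟨u1, u2, u3, u4⟩ := key u hu
      obtain ⟨v1, v2, v3, v4⟩ := key v hv
      have huv' : u.2.2.1 = v.2.2.1 := huv
      refine Prod.ext (u1.trans v1.symm) (Prod.ext (u2.trans v2.symm) (Prod.ext huv'
        (Prod.ext (u3.trans v3.symm) (u4.trans v4.symm))))
    rw [← h4]
    have ha0 : a ≠ 0 := by
      rw [← e1]
      exact g3.1
    have h5 := sqf_roots w0.1 g1 a ha0 ((F.filter (fun w =>
      (w.2.1, w.2.2.2.1, w.2.2.2.2) = (a, x, y))).image (fun w => w.2.2.1)) (by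
        intro b hb
        rw [Finset.mem_image] at hb
        obtain ⟨w, hw, rfl⟩ := hb
        obtain ⟨u1, u2, u3, u4⟩ := key w hw
        rw [Finset.mem_filter] at hw
        obtain ⟨k1, k2, k3, k4⟩ := hF w hw.1
        have n1 : 0 ≤ w.2.2.1 := k3.2.2.1
        have n2 : w.2.2.1 < |w.2.1| := k3.2.2.2.1
        have n3 : w.2.1 ∣ w.2.2.1 ^ 2 - w.1 := k3.2.2.2.2.1
        rw [u2] at n2 n3
        rw [u1] at n3
        exact ⟨n1, n2, n3⟩)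
    have h6 : ((((F.filter (fun w => (w.2.1, w.2.2.2.1, w.2.2.2.2) = (a, x, y))).image
        (fun w => w.2.2.1)).card : ℕ) : ℝ) ≤ 2 * ((a.natAbs.divisors.card : ℕ) : ℝ) := by
      exact_mod_cast h5
    refine h6.trans (mul_le_mul_of_nonneg_left ?_ (by norm_num))
    refine hdiv w0.1 a ha0 g2 ?_
    rw [← e1]
    exact g3.2.1
  have hstep2 : (T.card : ℝ) ≤
      (C1 * Z ^ (2 * k * ε1) * (√Z + C * Z ^ ((k : ℝ) / 4 - 1 / 2))) * (6 * √Z) := by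
    have h4 := pc7_fib T (Icc (-⌊2 * √Z⌋) ⌊2 * √Z⌋) (fun v => v.1)
      (C1 * Z ^ (2 * k * ε1) * (√Z + C * Z ^ ((k : ℝ) / 4 - 1 / 2))) (by positivity) (by
        intro v hv
        rw [hT, Finset.mem_image] at hv
        obtain ⟨w, hw, rfl⟩ := hv
        obtain ⟨k1, k2, k3, k4⟩ := hF w hw
        exact pc7_mem (pc7_a Z hZ w.1 w.2.1 k2 k3.2.1)) (by
        intro a _
        refine pc7_neg (by positivity) fun v0 hv0 => ?_
        rw [Finset.mem_filter] at hv0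
        have ha0 : a ≠ 0 := by
          obtain ⟨hv0, hva⟩ := hv0
          rw [hT, Finset.mem_image] at hv0
          obtain ⟨w, hw, rfl⟩ := hv0
          obtain ⟨k1, k2, k3, k4⟩ := hF w hw
          rw [← hva]
          exact k3.1
        have h5 : ((T.filter (fun v => v.1 = a)).image (fun v => v.2)).card =
            (T.filter (fun v => v.1 = a)).card := by
          refine Finset.card_image_of_injOn ?_
          intro u hu v hv huv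
          rw [Finset.mem_coe, Finset.mem_filter] at hu hv
          exact Prod.ext (hu.2.trans hv.2.symm) huv
        rw [← h5]
        refine h1 Z hZ a ha0 _ ?_
        intro v hv
        rw [Finset.mem_image] at hv
        obtain ⟨u, hu, rfl⟩ := hv
        rw [Finset.mem_filter] at hu
        obtain ⟨hu, hua⟩ := hu
        rw [hT, Finset.mem_image] at hu
        obtain ⟨w, hw, rfl⟩ := hu
        obtain ⟨k1, k2, k3, k4⟩ := hF w hw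
        refine ⟨k4, w.1, w.2.2.1, k1, k2, ?_⟩
        rw [← hua]
        exact k3)
    refine h4.trans (mul_le_mul_of_nonneg_left ?_ (by positivity))
    have h5 := pc7_icc (2 * √Z) (by linarith)
    linarith
  have hlast : √Z * (√Z + C * Z ^ ((k : ℝ) / 4 - 1 / 2)) ≤
      (1 + C) * Z ^ (max 1 ((k : ℝ) / 4)) := by
    have h4 : √Z * √Z = Z ^ (1 : ℝ) := by
      rw [Real.mul_self_sqrt hZ0.le, Real.rpow_one]
    have h5 : √Z * Z ^ ((k : ℝ) / 4 - 1 / 2) = Z ^ ((k : ℝ) / 4) := by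
      rw [Real.sqrt_eq_rpow, ← Real.rpow_add hZ0]
      congr 1
      ring
    have h6 : Z ^ (1 : ℝ) ≤ Z ^ (max 1 ((k : ℝ) / 4)) :=
      Real.rpow_le_rpow_of_exponent_le hZ (le_max_left _ _)
    have h7 : Z ^ ((k : ℝ) / 4) ≤ Z ^ (max 1 ((k : ℝ) / 4)) :=
      Real.rpow_le_rpow_of_exponent_le hZ (le_max_right _ _)
    calc √Z * (√Z + C * Z ^ ((k : ℝ) / 4 - 1 / 2)) =
        √Z * √Z + C * (√Z * Z ^ ((k : ℝ) / 4 - 1 / 2)) := by ring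
      _ = Z ^ (1 : ℝ) + C * Z ^ ((k : ℝ) / 4) := by rw [h4, h5]
      _ ≤ Z ^ (max 1 ((k : ℝ) / 4)) + C * Z ^ (max 1 ((k : ℝ) / 4)) :=
          add_le_add h6 (mul_le_mul_of_nonneg_left h7 (by linarith))
      _ = (1 + C) * Z ^ (max 1 ((k : ℝ) / 4)) := by ring
  have hexp : Z ^ (max 1 ((k : ℝ) / 4) + ε) =
      Z ^ (max 1 ((k : ℝ) / 4)) * (Z ^ (2 * k * ε1) * Z ^ ε1) := by
    rw [← Real.rpow_add hZ0, ← Real.rpow_add hZ0, hε12]
  calc (F.card : ℝ) ≤ 2 * (C3 * (2 : ℝ) ^ ε1 * Z ^ ε1) * T.card := hstep1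
    _ ≤ 2 * (C3 * (2 : ℝ) ^ ε1 * Z ^ ε1) *
        ((C1 * Z ^ (2 * k * ε1) * (√Z + C * Z ^ ((k : ℝ) / 4 - 1 / 2))) * (6 * √Z)) :=
        mul_le_mul_of_nonneg_left hstep2 (by positivity)
    _ = 2 * (C3 * (2 : ℝ) ^ ε1) * (C1 * 6) * (Z ^ (2 * k * ε1) * Z ^ ε1) *
        (√Z * (√Z + C * Z ^ ((k : ℝ) / 4 - 1 / 2))) := by ring
    _ ≤ 2 * (C3 * (2 : ℝ) ^ ε1) * (C1 * 6) * (Z ^ (2 * k * ε1) * Z ^ ε1) *
        ((1 + C) * Z ^ (max 1 ((k : ℝ) / 4))) :=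
        mul_le_mul_of_nonneg_left hlast (by positivity)
    _ = 2 * (C3 * (2 : ℝ) ^ ε1) * (C1 * 6 * (1 + C)) * Z ^ (max 1 ((k : ℝ) / 4) + ε) := by
        rw [hexp]
        ring

/-- Row PC7.  Sum over all squarefree `D`, `|D| ≤ Z`.  Codes with `y = 0`: `code_zero` for every `D`.  Codes with `y ≠ 0`:
`D = (x ^ 2 - |a| ^ k) / y ^ 2` is determined by `(|a|, |x|, |y|)`, `b` has at most `2 τ(|a|)` values for given `D`, `a`; for each `|a| ≤ 2 √Z`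
the pairs `(|x|, |y|)` are counted by `pairs_count` with `A = |a| ^ k`, `Y1 = C * Z ^ (k / 4 - 1 / 2)` (as `|D| y ^ 2 ≤ √C |D| ^ (k/2)`). -/
theorem code_sum (C : ℤ) (hC : 1 ≤ C) (k : ℕ) (hk : 2 ≤ k) (ε : ℝ) (hε : 0 < ε) : ∃ C' : ℝ, 0 < C' ∧ ∀ Z : ℝ, 1 ≤ Z →
    ∀ F : Finset (ℤ × ℤ × ℤ × ℤ × ℤ), (∀ w ∈ F, Squarefree w.1 ∧ ((|w.1| : ℤ) : ℝ) ≤ Z ∧ Code C w.1 k w.2) →
      (F.card : ℝ) ≤ C' * Z ^ (max 1 ((k : ℝ) / 4) + ε) := by
  obtain ⟨C1, hC1, h1⟩ := pc7_zero C k ε hε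
  obtain ⟨C2, hC2, h2⟩ := pc7_pos C hC k hk ε hε
  refine ⟨C1 + C2, by positivity, ?_⟩
  intro Z hZ F hF
  have h3 := h1 Z hZ (F.filter (fun w => w.2.2.2.2 = 0)) (by
    intro w hw
    rw [Finset.mem_filter] at hw
    obtain ⟨k1, k2, k3⟩ := hF w hw.1
    exact ⟨k1, k2, k3, hw.2⟩)
  have h4 := h2 Z hZ (F.filter (fun w => ¬ w.2.2.2.2 = 0)) (by
    intro w hw
    rw [Finset.mem_filter] at hw
    obtain ⟨k1, k2, k3⟩ := hF w hw.1
    exact ⟨k1, k2, k3, hw.2⟩)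
  have h5 := Finset.card_filter_add_card_filter_not (s := F)
    (fun w : ℤ × ℤ × ℤ × ℤ × ℤ => w.2.2.2.2 = 0)
  have h6 : (F.card : ℝ) = ((F.filter (fun w => w.2.2.2.2 = 0)).card : ℝ) +
      ((F.filter (fun w => ¬ w.2.2.2.2 = 0)).card : ℝ) := by
    rw [← h5]
    push_cast
    rfl
  have h7 : Z ^ (1 + ε) ≤ Z ^ (max 1 ((k : ℝ) / 4) + ε) :=
    Real.rpow_le_rpow_of_exponent_le hZ (by
      have := le_max_left (1 : ℝ) ((k : ℝ) / 4)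
      linarith)
  have h8 := mul_le_mul_of_nonneg_left h7 hC1.le
  rw [h6]
  calc _ ≤ C1 * Z ^ (1 + ε) + C2 * Z ^ (max 1 ((k : ℝ) / 4) + ε) := add_le_add h3 h4
    _ ≤ (C1 + C2) * Z ^ (max 1 ((k : ℝ) / 4) + ε) := by linarith

end Hp

end Pool.Agent.Lib.MP_d8bd92_nt
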