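import Pool.Agent.Lib.MP_d8bd92_nt.Hp.PT6
import Pool.Agent.Lib.MP_d8bd92_nt.Hp.PC6
import Pool.Agent.Lib.MP_d8bd92_nt.Hp.PC7

set_option autoImplicit false

/-!
MP_d8bd92_nt, phase 2: the lattice lemma for the exponents 1, 2, 3, 4, 6 (and 5), outside a sparse set of `D`.
-/

namespace Pool.Agent.Lib.MP_d8bd92_nt

namespace Hp

open Finset

theorem tk_two (ε : ℝ) (hε : 0 < ε) (C1 : ℤ) (hC1 : 1 ≤ C1) : ∃ C : ℝ, 0 < C ∧ ∀ D : ℤ, Squarefree D → D ≠ 1 →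
    ∃ M : ℕ, (M : ℝ) ≤ C * ((|D| : ℤ) : ℝ) ^ ε ∧ TK D 2 C1 M := by
  obtain ⟨C, hC, h⟩ := code_two (16 ^ 2 * C1 ^ 2) (one_le_mul_of_one_le_of_one_le (by norm_num) (one_le_pow₀ hC1)) ε hε
  refine ⟨C, hC, ?_⟩
  intro D hD hD1
  have hD0 : (0 : ℝ) ≤ ((|D| : ℤ) : ℝ) := by exact_mod_cast abs_nonneg D
  have hnn : 0 ≤ C * ((|D| : ℤ) : ℝ) ^ ε := mul_nonneg hC.le (Real.rpow_nonneg hD0 _)
  refine ⟨⌊C * ((|D| : ℤ) : ℝ) ^ ε⌋₊, Nat.floor_le hnn, ?_⟩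
  apply tk_of_codes (nsq_of_sqf hD hD1) (by norm_num) (by omega)
  intro F hF
  exact Nat.le_floor (h D hD F hF)

theorem tk_avg (k : ℕ) (hk : 2 ≤ k) (C1 : ℤ) (hC1 : 1 ≤ C1) (κ : ℝ) (hκ : 0 < κ) : ∃ C : ℝ, 0 < C ∧ ∀ Z : ℝ, 1 ≤ Z →
    ∃ Exc : Finset ℤ, (Exc.card : ℝ) ≤ C * Z ^ (1 - κ / 2) ∧ ∀ D : ℤ, Squarefree D → D ≠ 1 → ((|D| : ℤ) : ℝ) ≤ Z →
      D ∉ Exc → ∃ M : ℕ, (M : ℝ) ≤ Z ^ (max 1 ((k : ℝ) / 4) - 1 + κ) ∧ TK D k C1 M := by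
  classical
  obtain ⟨C, hC, h⟩ := code_sum (16 ^ k * C1 ^ 2) (by
    have h1 : (1 : ℤ) ≤ 16 ^ k := one_le_pow₀ (by norm_num)
    exact one_le_mul_of_one_le_of_one_le h1 (one_le_pow₀ hC1)) k hk (κ / 2) (by positivity)
  refine ⟨C, hC, ?_⟩
  intro Z hZ
  have hZ0 : 0 < Z := by linarith
  set τ : ℝ := max 1 ((k : ℝ) / 4) - 1 + κ with hτ
  set Exc : Finset ℤ := (Finset.Icc (-⌊Z⌋) ⌊Z⌋).filter (fun D => Squarefree D ∧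
    ∃ F : Finset (ℤ × ℤ × ℤ × ℤ), (∀ v ∈ F, Code (16 ^ k * C1 ^ 2) D k v) ∧ Z ^ τ < (F.card : ℝ)) with hExc
  refine ⟨Exc, ?_, ?_⟩
  · have hch : ∀ D : ℤ, ∃ F : Finset (ℤ × ℤ × ℤ × ℤ), D ∈ Exc → ((∀ v ∈ F, Code (16 ^ k * C1 ^ 2) D k v) ∧
        Z ^ τ < (F.card : ℝ)) := by
      intro D
      by_cases hD : D ∈ Exc
      · obtain ⟨F, h1, h2⟩ := (Finset.mem_filter.mp hD).2.2
        exact ⟨F, fun _ => ⟨h1, h2⟩⟩
      · exact ⟨∅, fun h => absurd h hD⟩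
    choose F hF using hch
    set G : Finset (ℤ × ℤ × ℤ × ℤ × ℤ) := Exc.biUnion (fun D => (F D).image (fun v => (D, v))) with hG
    have hGcard : (Exc.card : ℝ) * Z ^ τ ≤ (G.card : ℝ) := by
      rw [hG, Finset.card_biUnion]
      · push_cast
        calc (Exc.card : ℝ) * Z ^ τ = ∑ _D ∈ Exc, Z ^ τ := by rw [Finset.sum_const, nsmul_eq_mul]
          _ ≤ ∑ D ∈ Exc, ((((F D).image (fun v => (D, v))).card : ℕ) : ℝ) := by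
              apply Finset.sum_le_sum
              intro D hD
              rw [Finset.card_image_of_injective _ (fun a b hab => (Prod.mk.inj hab).2)]
              exact (hF D hD).2.le
      · intro D _ D' _ hne
        rw [Function.onFun, Finset.disjoint_left]
        intro w hw hw'
        obtain ⟨v, _, rfl⟩ := Finset.mem_image.mp hw
        obtain ⟨v', _, h2⟩ := Finset.mem_image.mp hw'
        exact hne (Prod.mk.inj h2).1.symm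
    have hG2 := h Z hZ G (by
      intro w hw
      obtain ⟨D, hD, hw2⟩ := Finset.mem_biUnion.mp hw
      obtain ⟨v, hv, rfl⟩ := Finset.mem_image.mp hw2
      obtain ⟨h1, h2, -⟩ := Finset.mem_filter.mp hD
      refine ⟨h2, ?_, (hF D hD).1 v hv⟩
      have h3 : |D| ≤ ⌊Z⌋ := abs_le.mpr (Finset.mem_Icc.mp h1)
      have h4 : ((|D| : ℤ) : ℝ) ≤ ((⌊Z⌋ : ℤ) : ℝ) := by exact_mod_cast h3
      exact h4.trans (Int.floor_le Z))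
    have hZτ : 0 < Z ^ τ := Real.rpow_pos_of_pos hZ0 _
    rw [← mul_le_mul_iff_left₀ hZτ]
    calc (Exc.card : ℝ) * Z ^ τ ≤ C * Z ^ (max 1 ((k : ℝ) / 4) + κ / 2) := hGcard.trans hG2
      _ = C * Z ^ (1 - κ / 2) * Z ^ τ := by
          rw [mul_assoc, ← Real.rpow_add hZ0, hτ]
          congr 2
          ring
  · intro D hD hD1 hDZ hDE
    refine ⟨⌊Z ^ τ⌋₊, Nat.floor_le (Real.rpow_nonneg hZ0.le _), ?_⟩
    apply tk_of_codes (nsq_of_sqf hD hD1) (by omega) (by omega)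
    intro F hF
    apply Nat.le_floor
    by_contra hcon
    push Not at hcon
    apply hDE
    rw [hExc, Finset.mem_filter, Finset.mem_Icc, ← abs_le]
    exact ⟨Int.le_floor.mpr hDZ, hD, F, hF, hcon⟩

theorem le_two_sq' (c : ℤ) (h : 1 ≤ c) : c ≤ 2 * c ^ 2 := by nlinarith

theorem sq_one_add_bounds (x : ℝ) (h : 0 < x) : x ≤ (1 + x) ^ 2 ∧ 1 ≤ (1 + x) ^ 2 ∧ x ^ 2 ≤ (1 + x) ^ 2 := by
  refine ⟨?_, ?_, ?_⟩
  · nlinarith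
  · nlinarith
  · nlinarith

/-- the integer constant -/
theorem int_const (C0 : ℝ) (hC0 : 1 ≤ C0) : ∃ C1 : ℤ, 1 ≤ C1 ∧ 2 * C0 ^ 2 ≤ (C1 : ℝ) := by
  refine ⟨⌈2 * C0 ^ 2⌉, ?_, Int.le_ceil _⟩
  have h1 : (1 : ℝ) ≤ 2 * C0 ^ 2 := by nlinarith
  exact_mod_cast h1.trans (Int.le_ceil _)

/-- exponents 1, 2, 3, 4, 6: `T = (C X) ^ ε |D| ^ κ` outside a sparse set -/
theorem llt_good (ε κ C1 : ℝ) (hε : 0 < ε) (hκ : 0 < κ) (hC1 : 1 ≤ C1) : ∃ C c : ℝ, 0 < C ∧ 0 < c ∧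
    ∀ Z : ℝ, 1 ≤ Z → ∃ Exc : Finset ℤ, (Exc.card : ℝ) ≤ C * Z ^ (1 - c) ∧
      ∀ (D : ℤ) (X : ℝ) (l : ℕ), l ∈ ({1, 2, 3, 4, 6} : Finset ℕ) → Squarefree D → D ≠ 1 → ((|D| : ℤ) : ℝ) ≤ Z → D ∉ Exc →
        1 ≤ X → LLT C1 X D l (C * X ^ ε * Z ^ κ) := by
  obtain ⟨c1, hc1, hc2⟩ := int_const C1 hC1
  have hc3 : c1 ≤ 2 * c1 ^ 2 := le_two_sq' c1 hc1
  have hc4 : 1 ≤ 2 * c1 ^ 2 := hc1.trans hc3
  obtain ⟨Ca, hCa, hllt⟩ := llt_of_tk ε hε 6 C1 hC1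
  obtain ⟨C2, hC2, h2⟩ := tk_two (κ / 4) (by positivity) (2 * c1 ^ 2) hc4
  obtain ⟨C3, hC3, h3⟩ := tk_avg 3 (by norm_num) (2 * c1 ^ 2) hc4 (κ / 2) (by positivity)
  obtain ⟨Co, hCo, hone⟩ := ll_general_one C1 hC1
  refine ⟨Ca * (1 + C2) ^ 2 + Co + C3, κ / 2 / 2, by positivity, by positivity, ?_⟩
  intro Z hZ
  have hZ0 : 0 < Z := by linarith
  obtain ⟨Exc, hE1, hE2⟩ := h3 Z hZ
  have hZp : ∀ t : ℝ, 0 ≤ t → 1 ≤ Z ^ t := fun t ht => Real.one_le_rpow hZ ht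
  refine ⟨Exc, hE1.trans ?_, ?_⟩
  · apply mul_le_mul_of_nonneg_right _ (Real.rpow_nonneg hZ0.le _)
    have : 0 < Ca * (1 + C2) ^ 2 := by positivity
    linarith
  intro D X l hl hD hD1 hDZ hDE hX
  have hX0 : 0 < X := by linarith
  have hXe : 1 ≤ X ^ ε := Real.one_le_rpow hX hε.le
  have hnsq := nsq_of_sqf hD hD1
  obtain ⟨M2, hM2, hT2⟩ := h2 D hD hD1
  obtain ⟨M3, hM3, hT3⟩ := hE2 D hD hD1 hDZ hDE
  have hmax : max (1 : ℝ) (((3 : ℕ) : ℝ) / 4) - 1 + κ / 2 = κ / 2 := by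
    rw [max_eq_left (by norm_num)]; ring
  rw [hmax] at hM3
  have hDpos : (0 : ℝ) ≤ ((|D| : ℤ) : ℝ) := by exact_mod_cast abs_nonneg D
  have hM2' : (M2 : ℝ) ≤ C2 * Z ^ (κ / 4) := hM2.trans (by
    apply mul_le_mul_of_nonneg_left _ hC2.le
    exact Real.rpow_le_rpow hDpos hDZ (by positivity))
  have hq : 1 ≤ Z ^ (κ / 4) := hZp _ (by positivity)
  have hqq : Z ^ κ = Z ^ (κ / 4) * Z ^ (κ / 4) * Z ^ (κ / 2) := by
    rw [← Real.rpow_add hZ0, ← Real.rpow_add hZ0]; congr 1; ring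
  have hq2 : Z ^ (κ / 2) = Z ^ (κ / 4) * Z ^ (κ / 4) := by
    rw [← Real.rpow_add hZ0]; congr 1; ring
  have fin : ∀ M : ℕ, (M : ℝ) ≤ (1 + C2) ^ 2 * Z ^ κ → TK D l c1 M → l ≤ 6 →
      LLT C1 X D l ((Ca * (1 + C2) ^ 2 + Co + C3) * X ^ ε * Z ^ κ) := by
    intro M hM hT hl6
    refine (hllt X D l M c1 hl6 hc2 hT).mono' ?_
    calc Ca * X ^ ε * M ≤ Ca * X ^ ε * ((1 + C2) ^ 2 * Z ^ κ) := by gcongr
      _ = (Ca * (1 + C2) ^ 2) * (X ^ ε * Z ^ κ) := by ring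
      _ ≤ (Ca * (1 + C2) ^ 2 + Co + C3) * (X ^ ε * Z ^ κ) := by
          apply mul_le_mul_of_nonneg_right _ (by positivity)
          linarith
      _ = _ := by ring
  have hM2nn : (0 : ℝ) ≤ M2 := Nat.cast_nonneg _
  have hM3nn : (0 : ℝ) ≤ M3 := Nat.cast_nonneg _
  have hZκ : 1 ≤ Z ^ κ := hZp _ hκ.le
  simp only [Finset.mem_insert, Finset.mem_singleton] at hl
  rcases hl with rfl | rfl | rfl | rfl | rfl
  · -- l = 1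
    intro K f E θ ι S Ω I En s W hd
    have h1 := hone X K D f E θ ι S Ω I En s W hd
    have hK := hd.hK
    have hE := hd.hE
    have hθ := hd.hθ
    have hf0 : (0 : ℝ) < (f : ℝ) := by exact_mod_cast hd.hf
    refine h1.trans ?_
    have : Co ≤ (Ca * (1 + C2) ^ 2 + Co + C3) * X ^ ε * Z ^ κ := by
      have p1 : 0 < Ca * (1 + C2) ^ 2 := by positivity
      have p2 : 1 ≤ X ^ ε * Z ^ κ := one_le_mul_of_one_le_of_one_le hXe hZκ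
      calc Co = Co * 1 := by ring
        _ ≤ (Ca * (1 + C2) ^ 2 + Co + C3) * (X ^ ε * Z ^ κ) := by
            apply mul_le_mul (by linarith) p2 (by norm_num) (by positivity)
        _ = _ := by ring
    gcongr
  · refine fin M2 ?_ (hT2.mono hc3 le_rfl) (by norm_num)
    refine hM2'.trans ?_
    have p1 : C2 ≤ (1 + C2) ^ 2 := (sq_one_add_bounds C2 hC2).1
    have p2 : Z ^ (κ / 4) ≤ Z ^ κ := Real.rpow_le_rpow_of_exponent_le hZ (by linarith)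
    gcongr
  · refine fin M3 ?_ (hT3.mono hc3 le_rfl) (by norm_num)
    refine hM3.trans ?_
    have p2 : Z ^ (κ / 2) ≤ Z ^ κ := Real.rpow_le_rpow_of_exponent_le hZ (by linarith)
    exact p2.trans (le_mul_of_one_le_left (Real.rpow_nonneg hZ0.le _) (sq_one_add_bounds C2 hC2).2.1)
  · refine fin (M2 * M2) ?_ (tk_comp hnsq (by norm_num) hc1 (hT2.mono hc3 le_rfl) hT2) (by norm_num)
    push_cast
    have p3 : (M2 : ℝ) * M2 ≤ (C2 * Z ^ (κ / 4)) * (C2 * Z ^ (κ / 4)) := by gcongr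
    refine p3.trans ?_
    have p2 : Z ^ (κ / 4) * Z ^ (κ / 4) ≤ Z ^ κ := by
      rw [← hq2]; exact Real.rpow_le_rpow_of_exponent_le hZ (by linarith)
    have p1 : C2 ^ 2 ≤ (1 + C2) ^ 2 := (sq_one_add_bounds C2 hC2).2.2
    calc (C2 * Z ^ (κ / 4)) * (C2 * Z ^ (κ / 4)) = C2 ^ 2 * (Z ^ (κ / 4) * Z ^ (κ / 4)) := by ring
      _ ≤ (1 + C2) ^ 2 * Z ^ κ := by gcongr
  · refine fin (M2 * M3) ?_ (tk_comp hnsq (by norm_num) hc1 (hT2.mono hc3 le_rfl) hT3) (by norm_num)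
    push_cast
    have p3 : (M2 : ℝ) * M3 ≤ (C2 * Z ^ (κ / 4)) * Z ^ (κ / 2) := by gcongr
    refine p3.trans ?_
    have p2 : Z ^ (κ / 4) * Z ^ (κ / 2) ≤ Z ^ κ := by
      rw [← Real.rpow_add hZ0]; exact Real.rpow_le_rpow_of_exponent_le hZ (by linarith)
    have p1 : C2 ≤ (1 + C2) ^ 2 := (sq_one_add_bounds C2 hC2).1
    calc (C2 * Z ^ (κ / 4)) * Z ^ (κ / 2) = C2 * (Z ^ (κ / 4) * Z ^ (κ / 2)) := by ring
      _ ≤ (1 + C2) ^ 2 * Z ^ κ := by gcongr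

/-- exponent 5: `T = (C X) ^ ε |D| ^ (1/4 + κ)` outside a sparse set -/
theorem llt_five (ε κ C1 : ℝ) (hε : 0 < ε) (hκ : 0 < κ) (hC1 : 1 ≤ C1) : ∃ C c : ℝ, 0 < C ∧ 0 < c ∧
    ∀ Z : ℝ, 1 ≤ Z → ∃ Exc : Finset ℤ, (Exc.card : ℝ) ≤ C * Z ^ (1 - c) ∧
      ∀ (D : ℤ) (X : ℝ), Squarefree D → D ≠ 1 → ((|D| : ℤ) : ℝ) ≤ Z → D ∉ Exc →
        1 ≤ X → LLT C1 X D 5 (C * X ^ ε * Z ^ (1 / 4 + κ)) := by
  obtain ⟨c1, hc1, hc2⟩ := int_const C1 hC1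
  obtain ⟨Ca, hCa, hllt⟩ := llt_of_tk ε hε 5 C1 hC1
  obtain ⟨C3, hC3, h3⟩ := tk_avg 5 (by norm_num) c1 hc1 κ hκ
  refine ⟨Ca + C3, κ / 2, by positivity, by positivity, ?_⟩
  intro Z hZ
  have hZ0 : 0 < Z := by linarith
  obtain ⟨Exc, hE1, hE2⟩ := h3 Z hZ
  refine ⟨Exc, hE1.trans ?_, ?_⟩
  · apply mul_le_mul_of_nonneg_right _ (Real.rpow_nonneg hZ0.le _)
    linarith
  intro D X hD hD1 hDZ hDE hX
  have hX0 : 0 < X := by linarith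
  obtain ⟨M, hM, hT⟩ := hE2 D hD hD1 hDZ hDE
  have hmax : max (1 : ℝ) (((5 : ℕ) : ℝ) / 4) - 1 + κ = 1 / 4 + κ := by
    rw [max_eq_right (by norm_num)]; norm_num
  rw [hmax] at hM
  refine (hllt X D 5 M c1 le_rfl hc2 hT).mono' ?_
  have hZp : 0 < Z ^ (1 / 4 + κ) := Real.rpow_pos_of_pos hZ0 _
  have hXp : 0 < X ^ ε := Real.rpow_pos_of_pos hX0 _
  calc Ca * X ^ ε * M ≤ Ca * X ^ ε * Z ^ (1 / 4 + κ) := by gcongr
    _ ≤ (Ca + C3) * X ^ ε * Z ^ (1 / 4 + κ) := by gcongr; linarith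

end Hp

end Pool.Agent.Lib.MP_d8bd92_nt
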