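import Pool.Agent.Lib.MP_d8bd92_nt.Hp.Sm0

set_option autoImplicit false

/-!
Pairs with one small radical, tools 1.
-/

namespace Pool.Agent.Lib.MP_d8bd92_nt

namespace Hp

open Finset Pool.Agent.Lib.Szpiro

/-- number of dyadic classes.  Proof: `2 ^ n ≤ Y ^ K` gives `n log 2 ≤ K log Y ≤ K Y ^ τ / τ` (`Real.log_le_rpow_div`), and `1 ≤ Y ^ τ`. -/
theorem log_bound (K τ : ℝ) (hK : 0 < K) (hτ : 0 < τ) : ∃ C : ℝ, 1 ≤ C ∧ ∀ Y : ℝ, 1 ≤ Y → ∀ n : ℕ,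
    (2 : ℝ) ^ n ≤ Y ^ K → ((n + 1 : ℕ) : ℝ) ≤ C * Y ^ τ := by
  have hl2 : 0 < Real.log 2 := Real.log_pos (by norm_num)
  have hd : 0 < τ * Real.log 2 := mul_pos hτ hl2
  refine ⟨K / (τ * Real.log 2) + 1, ?_, ?_⟩
  · have : 0 < K / (τ * Real.log 2) := div_pos hK hd
    linarith
  · intro Y hY n hn
    have hY0 : 0 < Y := by linarith
    have h1 : (n : ℝ) * Real.log 2 ≤ K * Real.log Y := by
      have h2 := Real.log_le_log (by positivity) hn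
      rwa [Real.log_pow, Real.log_rpow hY0] at h2
    have h3 : Real.log Y ≤ Y ^ τ / τ := Real.log_le_rpow_div hY0.le hτ
    have h4 : K * Real.log Y ≤ K * (Y ^ τ / τ) := mul_le_mul_of_nonneg_left h3 hK.le
    have h5 : (n : ℝ) ≤ K / (τ * Real.log 2) * Y ^ τ := by
      have h6 : K / (τ * Real.log 2) * Y ^ τ = K * (Y ^ τ / τ) / Real.log 2 := by
        field_simp
      rw [h6, le_div_iff₀ hl2]
      linarith
    have h7 : (1 : ℝ) ≤ Y ^ τ := Real.one_le_rpow hY hτ.le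
    push_cast
    linarith

/-- the squarefree part is at most the radical.  Proof: `|D|` is squarefree and divides `|Δ| = f ^ 2 |D|`: `|D| = rd |D|` (product of its prime factors,
`Nat.prod_primeFactors_of_squarefree`) and `rd_mono`. -/
theorem D_le_rd {D : ℤ} {f : ℕ} {Δ : ℤ} (hD : Squarefree D) (hf : 1 ≤ f) (h : Δ = (f : ℤ) ^ 2 * D) :
    ((|D| : ℤ) : ℝ) ≤ (rd Δ.natAbs : ℝ) := by
  have hsq : Squarefree D.natAbs := Int.squarefree_natAbs.2 hD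
  have h1 : rd D.natAbs = D.natAbs := by
    unfold rd
    exact Nat.prod_primeFactors_of_squarefree hsq
  have hD0 : D ≠ 0 := hD.ne_zero
  have hΔ : Δ.natAbs ≠ 0 := by
    rw [Int.natAbs_ne_zero, h]
    have hf0 : (f : ℤ) ≠ 0 := by
      have : 0 < f := hf
      exact_mod_cast this.ne'
    exact mul_ne_zero (pow_ne_zero 2 hf0) hD0
  have hdvd : D.natAbs ∣ Δ.natAbs :=
    Int.natAbs_dvd_natAbs.2 ⟨(f : ℤ) ^ 2, by rw [h]; ring⟩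
  have h2 : rd D.natAbs ≤ rd Δ.natAbs := rd_mono' hΔ (fun p _ hp => hp.trans hdvd)
  rw [h1] at h2
  have h3 : ((|D| : ℤ) : ℝ) = ((D.natAbs : ℕ) : ℝ) := by
    rw [Int.abs_eq_natAbs]
    simp
  rw [h3]
  exact_mod_cast h2

/-- small `Y`.  Proof: `w ↦ w.1` is injective on `S` (`w.2` is constant) with values in `Icc (-n) n`, `n = ⌊Y ^ K⌋₊`; `2 n + 1 ≤ 2 Y0 ^ K + 1`. -/
theorem Col.small {K ε0 Y Y0 : ℝ} {D : ℤ} {f : ℕ} {S : Finset (ℤ × ℤ)} (h : Col K ε0 Y D f S) (hK : 0 < K)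
    (hY : 1 ≤ Y) (hY0 : Y ≤ Y0) : (S.card : ℝ) ≤ 2 * Y0 ^ K + 1 := by
  have hY00 : 0 ≤ Y := by linarith
  have hpow : Y ^ K ≤ Y0 ^ K := Real.rpow_le_rpow hY00 hY0 hK.le
  have hn0 : 0 ≤ Y0 ^ K := Real.rpow_nonneg (by linarith) K
  have hinj : Set.InjOn (fun w : ℤ × ℤ => w.1) (S : Set (ℤ × ℤ)) := by
    intro w hw w' hw' he
    have h1 := h.eq w hw
    have h2 := h.eq w' hw'
    exact Prod.ext he (by rw [h1, h2])
  have hsub : S.image (fun w : ℤ × ℤ => w.1) ⊆ Finset.Icc (-((⌊Y0 ^ K⌋₊ : ℕ) : ℤ)) ((⌊Y0 ^ K⌋₊ : ℕ) : ℤ) := by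
    intro z hz
    obtain ⟨w, hw, rfl⟩ := Finset.mem_image.1 hz
    have h1 := (h.mem w hw).2.2.2.2.2.2.2
    have h2 : (w.1.natAbs : ℝ) ≤ Y ^ K := h1
    have h3 : w.1.natAbs ≤ ⌊Y0 ^ K⌋₊ := Nat.le_floor (h2.trans hpow)
    rw [Finset.mem_Icc]
    show -((⌊Y0 ^ K⌋₊ : ℕ) : ℤ) ≤ w.1 ∧ w.1 ≤ ((⌊Y0 ^ K⌋₊ : ℕ) : ℤ)
    omega
  have hcard := Finset.card_le_card hsub
  rw [Finset.card_image_of_injOn hinj, Int.card_Icc] at hcard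
  have h4 : (((⌊Y0 ^ K⌋₊ : ℕ) : ℤ) + 1 - -((⌊Y0 ^ K⌋₊ : ℕ) : ℤ)).toNat = 2 * ⌊Y0 ^ K⌋₊ + 1 := by
    omega
  rw [h4] at hcard
  have h5 : (S.card : ℝ) ≤ 2 * ((⌊Y0 ^ K⌋₊ : ℕ) : ℝ) + 1 := by exact_mod_cast hcard
  have h6 : ((⌊Y0 ^ K⌋₊ : ℕ) : ℝ) ≤ Y0 ^ K := Nat.floor_le hn0
  linarith

/-- radical of a divisor -/
theorem rd_dvd_le {a b : ℕ} (hb : b ≠ 0) (h : a ∣ b) : rd a ≤ rd b :=
  rd_mono' hb (fun _ _ hp => hp.trans h)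

end Hp

end Pool.Agent.Lib.MP_d8bd92_nt
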