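import Pool.Agent.Lib.MP_d8bd92_nt.Hp.One3
import Pool.Agent.Lib.MP_d8bd92_nt.Hp.Sm1
import Pool.Agent.Lib.MP_d8bd92_nt.Hp.BA
import Pool.Agent.Lib.MP_d8bd92_nt.Hp.Extract

set_option autoImplicit false

/-!
MP_d8bd92_nt, phase 2: the elementary count.  For a divisor `u` of `x` the square root `G` of `x + y` is in few residue
classes modulo `u` and in a short interval.
-/

namespace Pool.Agent.Lib.MP_d8bd92_nt

namespace Hp

open Finset Pool.Agent.Lib.Szpiro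

theorem t1_card {α β : Type} [DecidableEq β] (S : Finset α) (f : α → β) (I : Finset β) (M : ℝ)
    (hI : ∀ a ∈ S, f a ∈ I) (hM : ∀ b ∈ I, ((S.filter (fun a => f a = b)).card : ℝ) ≤ M) :
    (S.card : ℝ) ≤ I.card * M := by
  have h1 : S.card = ∑ b ∈ I, (S.filter (fun a => f a = b)).card :=
    Finset.card_eq_sum_card_fiberwise (fun a ha => hI a ha)
  rw [h1]
  push_cast
  calc ∑ b ∈ I, ((S.filter (fun a => f a = b)).card : ℝ) ≤ ∑ _b ∈ I, M := Finset.sum_le_sum hM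
    _ = I.card * M := by rw [Finset.sum_const, nsmul_eq_mul]

/-- one class: fixed `y`, fixed divisor `u` of `x`, fixed sign and dyadic size of `x` -/
theorem t1_class (σ : ℝ) (hσ : 0 < σ) : ∃ C : ℝ, 1 ≤ C ∧ ∀ (y : ℤ) (u n : ℕ) (b : Bool) (B : ℝ) (T : Finset (ℤ × ℤ)),
    1 ≤ u → 1 ≤ B →
    (∀ w ∈ T, w.1 ≠ 0 ∧ w.2 = y ∧ IsCoprime w.1 w.2 ∧ (∃ g : ℤ, w.1 + w.2 = g ^ 2) ∧ u ∣ w.1.natAbs ∧
      Nat.log 2 w.1.natAbs = n ∧ decide (0 ≤ w.1) = b ∧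
      (w.1.natAbs : ℝ) ≤ B * u * √(max (w.1.natAbs : ℝ) (w.2.natAbs : ℝ))) →
    (T.card : ℝ) ≤ C * (u : ℝ) ^ σ * B := by
  classical
  obtain ⟨C1, hC1, h1⟩ := Th.card_kth 2 (by norm_num) σ hσ
  refine ⟨C1 * 10, by linarith, fun y u n b B T hu hB hT => ?_⟩
  have hur : (0 : ℝ) < u := by exact_mod_cast hu
  have hch : ∀ w ∈ T, ∃ g : ℤ, 0 ≤ g ∧ g ^ 2 = w.1 + y := by
    intro w hw
    obtain ⟨_, hw2, _, ⟨g, hg⟩, _⟩ := hT w hw
    exact ⟨|g|, abs_nonneg g, by rw [sq_abs, ← hw2]; exact hg.symm⟩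
  choose! g hg using hch
  have hinj : Set.InjOn g T := by
    intro w hw v hv hwv
    obtain ⟨_, e1⟩ := hg w hw
    obtain ⟨_, f1⟩ := hg v hv
    have hw2 := (hT w hw).2.1
    have hv2 := (hT v hv).2.1
    apply Prod.ext
    · rw [hwv] at e1
      linarith
    · rw [hw2, hv2]
  rw [← Finset.card_image_of_injOn hinj]
  obtain ⟨X, hX⟩ : ∃ X : ℝ, X = (2 : ℝ) ^ n := ⟨_, rfl⟩
  have hX0 : 0 < X := by rw [hX]; positivity
  obtain ⟨m, hm⟩ : ∃ m : ℝ, m = √(max X |(y : ℝ)|) := ⟨_, rfl⟩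
  have hmx : 0 < max X |(y : ℝ)| := lt_max_of_lt_left hX0
  have hm0 : 0 < m := by rw [hm]; exact Real.sqrt_pos.mpr hmx
  have hmsq : m ^ 2 = max X |(y : ℝ)| := by rw [hm]; exact Real.sq_sqrt hmx.le
  have hdy : ∀ w ∈ T, X ≤ |(w.1 : ℝ)| ∧ |(w.1 : ℝ)| ≤ 2 * X := by
    intro w hw
    obtain ⟨x0, _, _, _, _, hn, _, _⟩ := hT w hw
    have e : |(w.1 : ℝ)| = (w.1.natAbs : ℝ) := abs_cast_eq _
    rw [e, hX, ← hn]
    have hx1 : w.1.natAbs ≠ 0 := Int.natAbs_ne_zero.mpr x0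
    constructor
    · exact_mod_cast Nat.pow_log_le_self 2 hx1
    · have := Nat.lt_pow_succ_log_self (b := 2) (by norm_num) w.1.natAbs
      have h6 : w.1.natAbs ≤ 2 * 2 ^ Nat.log 2 w.1.natAbs := by
        rw [pow_succ] at this
        omega
      exact_mod_cast h6
  have h3 := h1 u y (T.image g) (10 * B) hu (by linarith) (by
    intro s hs
    rw [Finset.mem_image] at hs
    obtain ⟨w, hw, rfl⟩ := hs
    obtain ⟨_, e1⟩ := hg w hw
    obtain ⟨_, hw2, xy, _, hdv, _⟩ := hT w hw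
    have hdv : (u : ℤ) ∣ w.1 := Int.natCast_dvd.mpr hdv
    refine ⟨?_, ?_⟩
    · rw [hw2] at xy
      have h5 : IsCoprime y (u : ℤ) := (IsCoprime.of_isCoprime_of_dvd_left xy hdv).symm
      obtain ⟨c, hc⟩ := hdv
      have h6 : IsCoprime (g w ^ 2) (u : ℤ) := by
        rw [e1, hc, add_comm]
        exact IsCoprime.add_mul_left_left h5 c
      exact IsCoprime.of_isCoprime_of_dvd_left h6 (dvd_pow_self _ (by norm_num))
    · rw [e1]
      simpa using hdv) (by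
    intro x T' hT' hT2
    have hdiam : ∀ s ∈ T', ∀ t ∈ T', s - t ≤ ((⌊2 * X / m⌋₊ : ℕ) : ℤ) := by
      intro s hs t ht
      have hs1 := hT' hs
      have ht1 := hT' ht
      rw [Finset.mem_image] at hs1 ht1
      obtain ⟨w, hw, rfl⟩ := hs1
      obtain ⟨v, hv, rfl⟩ := ht1
      rcases le_or_gt (g v) (g w) with hle | hlt
      · obtain ⟨a1, a2⟩ := hdy w hw
        obtain ⟨b1, b2⟩ := hdy v hv
        obtain ⟨c1, c2⟩ := hg w hw
        obtain ⟨d1, d2⟩ := hg v hv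
        obtain ⟨_, hw2, _, _, _, _, hwb, _⟩ := hT w hw
        obtain ⟨_, _, _, _, _, _, hvb, _⟩ := hT v hv
        have hsgn : 0 ≤ w.1 ↔ 0 ≤ v.1 := by
          rw [← hvb] at hwb
          exact decide_eq_decide.mp hwb
        have hm2 : m ^ 2 ≤ max |(w.1 : ℝ)| |(y : ℝ)| := by
          rw [hmsq]
          exact max_le_max a1 le_rfl
        have h6 := root_gap w.1 v.1 y (g w) (g v) X m c1 d1 c2 d2 a1 a2 b1 b2 hsgn hm0 hm2 hle
        have h7 : ((g w - g v : ℤ) : ℝ) ≤ 2 * X / m := by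
          rw [le_div_iff₀ hm0]
          exact h6
        have h8 : 0 ≤ g w - g v := by omega
        have h9 : ((g w - g v).toNat : ℝ) ≤ 2 * X / m := by
          have : (((g w - g v).toNat : ℤ) : ℝ) = ((g w - g v : ℤ) : ℝ) := by
            rw [Int.toNat_of_nonneg h8]
          have e3 : ((g w - g v).toNat : ℝ) = (((g w - g v).toNat : ℤ) : ℝ) := by norm_cast
          rw [e3, this]
          exact h7
        have h10 := Nat.le_floor h9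
        omega
      · have : (0 : ℤ) ≤ ((⌊2 * X / m⌋₊ : ℕ) : ℤ) := Int.natCast_nonneg _
        omega
    have h6 := cdD_card_class T' ⌊2 * X / m⌋₊ u hu hdiam x hT2
    rcases T'.eq_empty_or_nonempty with h7 | ⟨s, hs0⟩
    · rw [h7, Finset.card_empty, Nat.cast_zero]
      linarith
    have hs1 := hT' hs0
    rw [Finset.mem_image] at hs1
    obtain ⟨w, hw, rfl⟩ := hs1
    obtain ⟨a1, a2⟩ := hdy w hw
    obtain ⟨_, hw2, _, _, _, _, _, hbd⟩ := hT w hw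
    have e1 : |(w.1 : ℝ)| = (w.1.natAbs : ℝ) := abs_cast_eq _
    have e2 : |(y : ℝ)| = (w.2.natAbs : ℝ) := by
      rw [← hw2]; exact abs_cast_eq _
    have hsq : √(max (w.1.natAbs : ℝ) (w.2.natAbs : ℝ)) ≤ 2 * m := by
      rw [Real.sqrt_le_left (by positivity), mul_pow, hmsq, ← e1, ← e2]
      have h7 : X ≤ max X |(y : ℝ)| := le_max_left _ _
      have h8 : |(y : ℝ)| ≤ max X |(y : ℝ)| := le_max_right _ _
      exact max_le (by linarith) (by linarith)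
    have hXb : X ≤ B * u * (2 * m) := by
      rw [e1] at a1
      exact a1.trans (hbd.trans (by gcongr))
    have h8 : ((⌊2 * X / m⌋₊ : ℕ) : ℝ) / u ≤ 4 * B := by
      rw [div_le_iff₀ hur]
      calc ((⌊2 * X / m⌋₊ : ℕ) : ℝ) ≤ 2 * X / m := Nat.floor_le (by positivity)
        _ ≤ 4 * B * (u : ℝ) := by
          rw [div_le_iff₀ hm0]
          calc 2 * X ≤ 2 * (B * u * (2 * m)) := by gcongr
            _ = 4 * B * (u : ℝ) * m := by ring
    linarith)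
  refine h3.trans (le_of_eq ?_)
  ring

private theorem t1_num {C1 C2 C3 C4 Y η τ k2 : ℝ} (hY : 1 ≤ Y) (hk2 : 0 < k2) (hτ : 5 * τ = η / 4) (hC1 : 1 ≤ C1)
    (hC2 : 1 ≤ C2) (hC3 : 1 ≤ C3) :
    (C2 * Y ^ τ * Y ^ (1 / 2 + η / 2)) * (C3 * Y ^ τ * (k2 * 2)) * (C1 * Y ^ τ * (Y ^ (1 / 4 - η) / k2)) *
      (2 * (C4 * Y ^ τ) * (C4 * Y ^ τ)) = 4 * C1 * C2 * C3 * C4 ^ 2 * Y ^ (3 / 4 - η / 4) := by
  have hY0 : 0 < Y := by linarith
  have e : Y ^ (3 / 4 - η / 4) = Y ^ τ * Y ^ (1 / 2 + η / 2) * Y ^ τ * Y ^ τ * Y ^ (1 / 4 - η) * Y ^ τ * Y ^ τ := by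
    rw [← Real.rpow_add hY0, ← Real.rpow_add hY0, ← Real.rpow_add hY0, ← Real.rpow_add hY0, ← Real.rpow_add hY0,
      ← Real.rpow_add hY0]
    congr 1
    linarith
  rw [e]
  field_simp
  ring

/-- The elementary count: a divisor `u` of `x` with `rad u ≤ Y^(1/4-η)` and `rad u * |x| ≤ Y^(1/4-η) * u * max (|x|, |y|)^(1/2)`. -/
theorem t1_few (K ε0 η : ℝ) (hK : 2 ≤ K) (hη : 0 < η) :
    Few K ε0 (fun Y w => (rd w.2.natAbs : ℝ) ≤ Y ^ (1 / 2 + η / 2) ∧ ∃ u : ℕ, u ∣ w.1.natAbs ∧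
      (rd u : ℝ) ≤ Y ^ (1 / 4 - η) ∧
      (rd u : ℝ) * (w.1.natAbs : ℝ) ≤ Y ^ (1 / 4 - η) * u * √(max (w.1.natAbs : ℝ) (w.2.natAbs : ℝ))) := by
  classical
  have hK0 : 0 < K := by linarith
  obtain ⟨τ, hτ⟩ : ∃ τ : ℝ, τ = η / 20 := ⟨_, rfl⟩
  have hτ0 : 0 < τ := by rw [hτ]; positivity
  obtain ⟨C1, hC1, h1⟩ := t1_class (τ / K) (by positivity)
  obtain ⟨C2, hC2, h2⟩ := count_rad (τ / K) (by positivity)
  obtain ⟨C3, hC3, h3⟩ := card_rd_le (τ / K) (by positivity)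
  obtain ⟨C4, hC4, h4⟩ := log_bound K τ hK0 hτ0
  refine ⟨4 * C1 * C2 * C3 * C4 ^ 2, η / 4, by positivity, by positivity, fun Y hY P hP => ?_⟩
  have hY0 : 0 < Y := by linarith
  obtain ⟨hZ1, hZ2⟩ := Z_facts K (τ / K) Y hK0 (by positivity) hY
  have eK : K * (τ / K) = τ := by field_simp
  rw [eK] at hZ2
  set Z : ℕ := ⌊Y ^ K⌋₊ with hZ
  have hYK : (0 : ℝ) ≤ Y ^ K := by positivity
  have hch : ∀ w ∈ P, ∃ u : ℕ, u ∣ w.1.natAbs ∧ (rd u : ℝ) ≤ Y ^ (1 / 4 - η) ∧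
      (rd u : ℝ) * (w.1.natAbs : ℝ) ≤ Y ^ (1 / 4 - η) * u * √(max (w.1.natAbs : ℝ) (w.2.natAbs : ℝ)) :=
    fun w hw => (hP w hw).2.2
  choose! u hu using hch
  have hxZ : ∀ w ∈ P, w.1.natAbs ≤ Z := by
    intro w hw
    obtain ⟨⟨_, _, _, _, _, _, xK, _⟩, _⟩ := hP w hw
    exact Nat.le_floor xK
  have hu0 : ∀ w ∈ P, u w ≠ 0 := by
    intro w hw h0
    have h5 := (hu w hw).1
    rw [h0] at h5
    obtain ⟨⟨x0, _⟩, _⟩ := hP w hw
    exact x0 (Int.natAbs_eq_zero.mp (Nat.eq_zero_of_zero_dvd h5))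
  have huZ : ∀ w ∈ P, u w ≤ Z := by
    intro w hw
    obtain ⟨⟨x0, _⟩, _⟩ := hP w hw
    exact (Nat.le_of_dvd (Nat.pos_of_ne_zero (Int.natAbs_ne_zero.mpr x0)) (hu w hw).1).trans (hxZ w hw)
  have hrd : ∀ w ∈ P, rd (u w) ≤ Z := fun w hw => (rd_le (hu0 w hw)).trans (huZ w hw)
  have hrd0 : ∀ w ∈ P, rd (u w) ≠ 0 := fun w hw => (rd_pos _).ne'
  -- the sides `y`
  have hV : ((P.image Prod.snd).card : ℝ) ≤ C2 * Y ^ τ * Y ^ (1 / 2 + η / 2) := by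
    have h5 := h2 Z (Y ^ (1 / 2 + η / 2)) (P.image Prod.snd) hZ1 (by positivity) (by
      intro a ha
      rw [Finset.mem_image] at ha
      obtain ⟨w, hw, rfl⟩ := ha
      obtain ⟨⟨_, y0, _, _, _, _, _, yK⟩, hr, _⟩ := hP w hw
      exact ⟨y0, Nat.le_floor yK, hr⟩)
    exact h5.trans (by gcongr)
  -- the divisors
  have hU : ∀ k : ℕ, (((Icc 1 Z).filter (fun a => (rd a : ℝ) ≤ (2 : ℝ) ^ k * 2)).card : ℝ) ≤ C3 * Y ^ τ * ((2 : ℝ) ^ k * 2) := by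
    intro k
    exact (h3 Z ((2 : ℝ) ^ k * 2) hZ1 (by positivity)).trans (by gcongr)
  have hL : ((Nat.log 2 Z + 1 : ℕ) : ℝ) ≤ C4 * Y ^ τ := by
    apply h4 Y hY
    calc (2 : ℝ) ^ Nat.log 2 Z ≤ (Z : ℝ) := by exact_mod_cast Nat.pow_log_le_self 2 (by omega)
      _ ≤ Y ^ K := Nat.floor_le hYK
  -- the colours
  have hmain := t1_card P (fun w => (Nat.log 2 w.1.natAbs, decide (0 ≤ w.1), Nat.log 2 (rd (u w))))
    (range (Nat.log 2 Z + 1) ×ˢ ((univ : Finset Bool) ×ˢ range (Nat.log 2 Z + 1)))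
    ((C2 * Y ^ τ * Y ^ (1 / 2 + η / 2)) * C3 * Y ^ τ * 2 * (C1 * Y ^ τ * Y ^ (1 / 4 - η)))
    (by
      intro w hw
      simp only [Finset.mem_product, Finset.mem_range, Finset.mem_univ, true_and, Nat.lt_succ_iff]
      exact ⟨Nat.log_mono_right (hxZ w hw), Nat.log_mono_right (hrd w hw)⟩)
    (by
      rintro ⟨n, b, k⟩ _
      set Q := P.filter (fun w => (Nat.log 2 w.1.natAbs, decide (0 ≤ w.1), Nat.log 2 (rd (u w))) = (n, b, k)) with hQ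
      have hQm : ∀ w ∈ Q, w ∈ P ∧ Nat.log 2 w.1.natAbs = n ∧ decide (0 ≤ w.1) = b ∧ Nat.log 2 (rd (u w)) = k := by
        intro w hw
        rw [hQ, Finset.mem_filter, Prod.mk.injEq, Prod.mk.injEq] at hw
        exact hw
      rcases Q.eq_empty_or_nonempty with h0 | ⟨w0, hw0⟩
      · rw [h0, Finset.card_empty, Nat.cast_zero]
        positivity
      have hk : ∀ w ∈ Q, (2 : ℝ) ^ k ≤ (rd (u w) : ℝ) ∧ (rd (u w) : ℝ) ≤ (2 : ℝ) ^ k * 2 := by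
        intro w hw
        obtain ⟨hwP, _, _, hwk⟩ := hQm w hw
        rw [← hwk]
        constructor
        · exact_mod_cast Nat.pow_log_le_self 2 (hrd0 w hwP)
        · have := Nat.lt_pow_succ_log_self (b := 2) (by norm_num) (rd (u w))
          have h6 : rd (u w) ≤ 2 ^ Nat.log 2 (rd (u w)) * 2 := by
            rw [pow_succ] at this
            omega
          exact_mod_cast h6
      have hB : 1 ≤ Y ^ (1 / 4 - η) / (2 : ℝ) ^ k := by
        rw [one_le_div (by positivity)]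
        exact (hk w0 hw0).1.trans (hu w0 (hQm w0 hw0).1).2.1
      have h5 := t1_card Q (fun w => (w.2, u w)) (P.image Prod.snd ×ˢ ((Icc 1 Z).filter (fun a => (rd a : ℝ) ≤ (2 : ℝ) ^ k * 2)))
        (C1 * Y ^ τ * (Y ^ (1 / 4 - η) / (2 : ℝ) ^ k))
        (by
          intro w hw
          obtain ⟨hwP, _⟩ := hQm w hw
          simp only [Finset.mem_product, Finset.mem_filter, Finset.mem_Icc]
          exact ⟨Finset.mem_image_of_mem _ hwP, ⟨Nat.one_le_iff_ne_zero.mpr (hu0 w hwP), huZ w hwP⟩, (hk w hw).2⟩)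
        (by
          rintro ⟨y, v⟩ hyv
          simp only [Finset.mem_product, Finset.mem_filter, Finset.mem_Icc] at hyv
          obtain ⟨_, ⟨hv1, hvZ⟩, _⟩ := hyv
          have h6 := h1 y v n b (Y ^ (1 / 4 - η) / (2 : ℝ) ^ k) (Q.filter (fun w => (w.2, u w) = (y, v))) hv1 hB (by
            intro w hw
            rw [Finset.mem_filter, Prod.mk.injEq] at hw
            obtain ⟨hwQ, hwy, hwv⟩ := hw
            obtain ⟨hwP, hwn, hwb, hwk⟩ := hQm w hwQ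
            obtain ⟨⟨x0, _, xy, hg, _⟩, _⟩ := hP w hwP
            obtain ⟨u1, u2, u3⟩ := hu w hwP
            rw [hwv] at u1 u2 u3
            refine ⟨x0, hwy, xy, hg, u1, hwn, hwb, ?_⟩
            have h7 : (2 : ℝ) ^ k * (w.1.natAbs : ℝ) ≤ Y ^ (1 / 4 - η) * v * √(max (w.1.natAbs : ℝ) (w.2.natAbs : ℝ)) := by
              refine le_trans ?_ u3
              have := (hk w hwQ).1
              rw [hwv] at this
              gcongr
            rw [div_mul_eq_mul_div, div_mul_eq_mul_div, le_div_iff₀ (by positivity), mul_comm]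
            exact h7)
          refine h6.trans ?_
          have h8 : ((v : ℕ) : ℝ) ^ (τ / K) ≤ Y ^ τ := by
            refine le_trans ?_ hZ2
            gcongr
          gcongr)
      refine h5.trans ?_
      rw [Finset.card_product, Nat.cast_mul]
      calc ((P.image Prod.snd).card : ℝ) * (((Icc 1 Z).filter (fun a => (rd a : ℝ) ≤ (2 : ℝ) ^ k * 2)).card : ℝ) *
            (C1 * Y ^ τ * (Y ^ (1 / 4 - η) / (2 : ℝ) ^ k)) ≤
          (C2 * Y ^ τ * Y ^ (1 / 2 + η / 2)) * (C3 * Y ^ τ * ((2 : ℝ) ^ k * 2)) *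
            (C1 * Y ^ τ * (Y ^ (1 / 4 - η) / (2 : ℝ) ^ k)) := by
            gcongr
            exact hU k
        _ = _ := by
            field_simp)
  refine hmain.trans ?_
  rw [Finset.card_product, Finset.card_product, Finset.card_range, Finset.card_univ, Fintype.card_bool, Nat.cast_mul,
    Nat.cast_mul]
  have h9 : (((Nat.log 2 Z + 1 : ℕ) : ℝ) * (((2 : ℕ) : ℝ) * ((Nat.log 2 Z + 1 : ℕ) : ℝ))) ≤ 2 * (C4 * Y ^ τ) * (C4 * Y ^ τ) := by
    have h10 : (0 : ℝ) ≤ ((Nat.log 2 Z + 1 : ℕ) : ℝ) := Nat.cast_nonneg _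
    calc (((Nat.log 2 Z + 1 : ℕ) : ℝ) * (((2 : ℕ) : ℝ) * ((Nat.log 2 Z + 1 : ℕ) : ℝ))) =
        2 * ((Nat.log 2 Z + 1 : ℕ) : ℝ) * ((Nat.log 2 Z + 1 : ℕ) : ℝ) := by push_cast; ring
      _ ≤ _ := by gcongr
  have h11 := t1_num (C4 := C4) (k2 := 1) hY one_pos (show 5 * τ = η / 4 by rw [hτ]; ring) hC1 hC2 hC3
  rw [← h11]
  calc _ ≤ (2 * (C4 * Y ^ τ) * (C4 * Y ^ τ)) *
      ((C2 * Y ^ τ * Y ^ (1 / 2 + η / 2)) * C3 * Y ^ τ * 2 * (C1 * Y ^ τ * Y ^ (1 / 4 - η))) := by gcongr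
    _ = _ := by ring

/-- (T1), from the theorem that pairs with a small radical are few. -/
theorem few_T1_of (K ε0 η : ℝ) (hK : 2 ≤ K) (hη : 0 < η)
    (hsmall : ∀ c : ℝ, 0 < c → Few K ε0 (fun Y w => (rd w.1.natAbs : ℝ) ≤ Y ^ (1 / 2 - c))) :
    Few K ε0 (fun Y w => ∃ u : ℕ,
    UDvd u w.1.natAbs ∧ (rd u : ℝ) ≤ Y ^ (1 / 4 - η) ∧
    (rd u : ℝ) * (w.1.natAbs : ℝ) ≤ Y ^ (1 / 4 - η) * u * √(max (w.1.natAbs : ℝ) (w.2.natAbs : ℝ))) := by
  classical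
  obtain ⟨C, δ, hC, hδ, hb⟩ := t1_few K ε0 η hK hη
  obtain ⟨C', δ', hC', hδ', hb'⟩ := hsmall (η / 2) (by positivity)
  refine ⟨C + C', min δ δ', by positivity, lt_min hδ hδ', fun Y hY P hP => ?_⟩
  have hY0 : 0 < Y := by linarith
  have h1 := hb Y hY (P.filter (fun w => (rd w.2.natAbs : ℝ) ≤ Y ^ (1 / 2 + η / 2))) (fun w hw => by
    rw [Finset.mem_filter] at hw
    obtain ⟨u, ⟨k, hk, _⟩, h2, h3⟩ := (hP w hw.1).2
    exact ⟨(hP w hw.1).1, hw.2, u, ⟨k, hk⟩, h2, h3⟩)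
  have h2 := hb' Y hY (P.filter (fun w => ¬ (rd w.2.natAbs : ℝ) ≤ Y ^ (1 / 2 + η / 2))) (fun w hw => by
    rw [Finset.mem_filter, not_le] at hw
    refine ⟨(hP w hw.1).1, ?_⟩
    obtain ⟨⟨_, _, _, _, hr, _⟩, _⟩ := hP w hw.1
    have h6 : Y ^ (1 / 2 - η / 2) * Y ^ (1 / 2 + η / 2) = Y := by
      rw [← Real.rpow_add hY0]
      norm_num
    have h7 : (0 : ℝ) < Y ^ (1 / 2 + η / 2) := by positivity
    have h8 : (rd w.1.natAbs : ℝ) * Y ^ (1 / 2 + η / 2) ≤ Y ^ (1 / 2 - η / 2) * Y ^ (1 / 2 + η / 2) := by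
      rw [h6]
      refine le_trans ?_ hr
      have := hw.2.le
      gcongr
    exact le_of_mul_le_mul_right h8 h7)
  have h3 : P.card = (P.filter (fun w => (rd w.2.natAbs : ℝ) ≤ Y ^ (1 / 2 + η / 2))).card +
      (P.filter (fun w => ¬ (rd w.2.natAbs : ℝ) ≤ Y ^ (1 / 2 + η / 2))).card :=
    (Finset.card_filter_add_card_filter_not _).symm
  have h4 : Y ^ (3 / 4 - δ) ≤ Y ^ (3 / 4 - min δ δ') :=
    Real.rpow_le_rpow_of_exponent_le hY (by linarith [min_le_left δ δ'])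
  have h5 : Y ^ (3 / 4 - δ') ≤ Y ^ (3 / 4 - min δ δ') :=
    Real.rpow_le_rpow_of_exponent_le hY (by linarith [min_le_right δ δ'])
  rw [h3]
  push_cast
  calc _ ≤ C * Y ^ (3 / 4 - δ) + C' * Y ^ (3 / 4 - δ') := add_le_add h1 h2
    _ ≤ C * Y ^ (3 / 4 - min δ δ') + C' * Y ^ (3 / 4 - min δ δ') := by gcongr
    _ = _ := by ring

end Hp

end Pool.Agent.Lib.MP_d8bd92_nt
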