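import Pool.Agent.Lib.MP_d8bd92_nt.Hp.T2B

set_option autoImplicit false

/-!
MP_d8bd92_nt, phase 2: all pairs of ties, final form.
-/

namespace Pool.Agent.Lib.MP_d8bd92_nt

namespace Hp

open Finset Pool.Agent.Lib.Szpiro

/-- the predicate of `few_S` -/
def IsS (η : ℝ) (Y : ℝ) (w : ℤ × ℤ) : Prop :=
  ∃ (a t c : ℕ) (F : ℤ), w.1.natAbs = a * t ∧ Nat.Coprime a t ∧ Squarefree t ∧ Odd t ∧
      w.2 = (c : ℤ) ^ 2 * F ∧ IsCoprime (c : ℤ) F ∧ Y ^ (1 / 4 + η) ≤ (t : ℝ) * rd c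

theorem qq_large (a : ℝ) (ha : 0 < a) : ∃ Y0 : ℝ, 1 ≤ Y0 ∧ ∀ Y : ℝ, Y0 ≤ Y → 2 < Y ^ a := by
  refine ⟨(3 : ℝ) ^ (1 / a), Real.one_le_rpow (by norm_num) (by positivity), fun Y hY => ?_⟩
  have h2 : ((3 : ℝ) ^ (1 / a)) ^ a = 3 := by
    rw [← Real.rpow_mul (by norm_num), one_div_mul_cancel ha.ne', Real.rpow_one]
  calc (2 : ℝ) < 3 := by norm_num
    _ = ((3 : ℝ) ^ (1 / a)) ^ a := h2.symm
    _ ≤ Y ^ a := Real.rpow_le_rpow (Real.rpow_nonneg (by norm_num) _) hY ha.le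

/-- `{1,2,3,4}` against `{1,2,3,4}` from the tool (S) -/
theorem few_QQ (K ε0 : ℝ) (hS : Few K ε0 (IsS (1 / 16))) (l l' : Fin (2 * 2) → ℕ) (hl : ∀ i, l i = i.val + 1)
    (hl' : ∀ i, l' i = i.val + 1) : FewS K ε0 (fun σ Y w => IsTie σ 2 l Y w.1 ∧ IsTie σ 2 l' Y w.2) := by
  obtain ⟨Y0, hY0, hlarge⟩ := qq_large (1 / 16) (by norm_num)
  refine ⟨1 / 96, by norm_num, few_large' K ε0 _ _ Y0 hS ?_⟩
  intro Y w hY hw hq
  have hY1 : 1 ≤ Y := hY0.trans hY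
  have hYp : 0 < Y := by linarith
  obtain ⟨⟨u, p, h1, h2, h3, h4, h5, h6⟩, ⟨u', p', h1', h2', h3', h4', h5', h6'⟩⟩ := hq
  have l0 : l 0 = 1 := hl 0
  have l1 : l 1 = 2 := hl 1
  have l2 : l 2 = 3 := hl 2
  have l3 : l 3 = 4 := hl 3
  have l0' : l' 0 = 1 := hl' 0
  have l1' : l' 1 = 2 := hl' 1
  have l2' : l' 2 = 3 := hl' 2
  have l3' : l' 3 = 4 := hl' 3
  have e4 : ∏ i, p i ^ l i = p 0 ^ l 0 * p 1 ^ l 1 * p 2 ^ l 2 * p 3 ^ l 3 := Fin.prod_univ_four _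
  have e4' : ∏ i, p' i ^ l' i = p' 0 ^ l' 0 * p' 1 ^ l' 1 * p' 2 ^ l' 2 * p' 3 ^ l' 3 := Fin.prod_univ_four _
  rw [e4, l0, l1, l2, l3] at h1
  rw [e4', l0', l1', l2', l3'] at h1'
  have hw2 : w.2 ≠ 0 := hw.2.1
  have hcp : ∀ i i' : Fin (2 * 2), i ≠ i' → Nat.Coprime (p i) (p i') := fun i i' h =>
    (Nat.coprime_primes (h2 i) (h2 i')).mpr (fun h' => h (h3 h'))
  have hcp' : ∀ i i' : Fin (2 * 2), i ≠ i' → Nat.Coprime (p' i) (p' i') := fun i i' h =>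
    (Nat.coprime_primes (h2' i) (h2' i')).mpr (fun h' => h (h3' h'))
  have hodd : Odd (p 0) := by
    apply (h2 0).odd_of_ne_two
    intro h
    have a1 := (h6 0).1
    rw [h] at a1
    have a2 := hlarge Y hY
    have a3 : Y ^ (1 / 16 : ℝ) ≤ Y ^ (1 / (4 * ((2 : ℕ) : ℝ)) - 1 / 96) := by
      apply Real.rpow_le_rpow_of_exponent_le hY1
      norm_num
    push_cast at a1 a3
    linarith
  set c : ℕ := p' 1 * p' 3 ^ 2 with hc
  set B : ℕ := u' * (p' 0 * p' 2 ^ 3) with hB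
  have hcB : Nat.Coprime c B := by
    rw [hc, hB]
    apply Nat.Coprime.mul_left
    · apply Nat.Coprime.mul_right (h4' 1).symm
      exact Nat.Coprime.mul_right (hcp' 1 0 (by decide)) (Nat.Coprime.pow_right _ (hcp' 1 2 (by decide)))
    · apply Nat.Coprime.pow_left
      apply Nat.Coprime.mul_right (h4' 3).symm
      exact Nat.Coprime.mul_right (hcp' 3 0 (by decide)) (Nat.Coprime.pow_right _ (hcp' 3 2 (by decide)))
  have hAB : w.2.natAbs = c ^ 2 * B := by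
    rw [h1', hc, hB]; ring
  have hsgn : (w.2.sign * (B : ℤ)).natAbs = B := by
    rw [Int.natAbs_mul, Int.natAbs_natCast, Int.natAbs_sign_of_ne_zero hw2, one_mul]
  refine ⟨u * (p 1 ^ 2 * p 2 ^ 3 * p 3 ^ 4), p 0, c, w.2.sign * B, ?_, ?_, (h2 0).prime.squarefree, hodd, ?_, ?_, ?_⟩
  · rw [h1]; ring
  · apply Nat.Coprime.mul_left (h4 0)
    apply Nat.Coprime.mul_left
    · apply Nat.Coprime.mul_left
      · exact Nat.Coprime.pow_left _ (hcp 1 0 (by decide))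
      · exact Nat.Coprime.pow_left _ (hcp 2 0 (by decide))
    · exact Nat.Coprime.pow_left _ (hcp 3 0 (by decide))
  · calc w.2 = w.2.sign * (w.2.natAbs : ℤ) := (Int.sign_mul_natAbs _).symm
      _ = _ := by rw [hAB]; push_cast; ring
  · rw [Int.isCoprime_iff_nat_coprime, hsgn]
    exact hcB
  · have hrd : rd c = p' 1 * p' 3 := by
      have q1 : rd (p' 1 * p' 3 ^ 2) = rd (p' 1) * rd (p' 3 ^ 2) :=
        rd_mul_coprime _ _ (h2' 1).ne_zero (pow_ne_zero _ (h2' 3).ne_zero) (Nat.Coprime.pow_right _ (hcp' 1 3 (by decide)))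
      rw [hc, q1, rd_pow' (by norm_num), rd_sq (h2' 1).prime.squarefree, rd_sq (h2' 3).prime.squarefree]
    rw [hrd]
    push_cast
    have a0 := (h6 0).1
    have a1 := (h6' 1).1
    have a3 := (h6' 3).1
    have e : Y ^ (1 / 4 + 1 / 16 : ℝ) ≤ Y ^ (1 / (4 * ((2 : ℕ) : ℝ)) - 1 / 96) *
        (Y ^ (1 / (4 * ((2 : ℕ) : ℝ)) - 1 / 96) * Y ^ (1 / (4 * ((2 : ℕ) : ℝ)) - 1 / 96)) := by
      rw [← Real.rpow_add hYp, ← Real.rpow_add hYp]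
      apply Real.rpow_le_rpow_of_exponent_le hY1
      norm_num
    refine e.trans ?_
    gcongr

/-- all pairs of ties (from the extraction, the critical sides and the tool (S)) -/
theorem tie_all2' (K ε0 : ℝ) (hK : 2 ≤ K) (hext : ExtStmt K ε0) (hcr : CritStmt K ε0) (hS : Few K ε0 (IsS (1 / 16)))
    (j j' : ℕ) (hj : 1 ≤ j) (hj' : 1 ≤ j') (l : Fin (2 * j) → ℕ) (l' : Fin (2 * j') → ℕ) (hl : StrictMono l)
    (hl' : StrictMono l') (hl1 : ∀ i, 1 ≤ l i) (hl1' : ∀ i, 1 ≤ l' i) :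
    ∃ σ : ℝ, 0 < σ ∧ Few K ε0 (fun Y w => IsTie σ j l Y w.1 ∧ IsTie σ j' l' Y w.2) :=
  tie_all2_of K ε0 hK hext hcr (fun l l' hl hl' => few_QQ K ε0 hS l l' hl hl') j j' hj hj' l l' hl hl' hl1 hl1'

end Hp

end Pool.Agent.Lib.MP_d8bd92_nt
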