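import Pool.Agent.Lib.MP_d8bd92_nt.Hp.P2B
import Pool.Agent.Lib.MP_d8bd92_nt.Hp.Exc4
import Pool.Agent.Lib.MP_d8bd92_nt.Hp.FTc
import Pool.Agent.Lib.MP_d8bd92_nt.Hp.T2C
import Pool.Agent.Lib.MP_d8bd92_nt.Hp.PT7
import Pool.Agent.Lib.MP_d8bd92_nt.Hp.T1
import Pool.Agent.Lib.MP_d8bd92_nt.Hp.LowB
import Pool.Agent.Lib.MP_d8bd92_nt.Hp.FewSmall2

set_option autoImplicit false

/-! Phase 2: the blocks `few_tor`, `few_tor5`, `few_PT`, `few_P4`, `few_P6`, `extraction2`. -/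

namespace Pool.Agent.Lib.MP_d8bd92_nt

namespace Hp

open Finset Pool.Agent.Lib.Szpiro

theorem few_tor (K ε0 C1 Q κ : ℝ) (hK : 2 ≤ K) (he0 : -(3 / 2) < ε0) (hC1 : 1 ≤ C1) (hQ : 1 ≤ Q) (hκ : 0 < κ) (l : ℕ)
    (hl : l ∈ ({1, 2, 3, 4, 6} : Finset ℕ)) : Few K ε0 (fun Y w => ¬ TorLe C1 Q l κ Y w.2) :=
  few_tor_fin K ε0 C1 Q κ hK hC1 hQ hκ l hl (fun c hc => few_small2 K ε0 c hK he0 hc) llt_good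

theorem few_tor5 (K ε0 C1 Q κ : ℝ) (hK : 2 ≤ K) (he0 : -(3 / 2) < ε0) (hC1 : 1 ≤ C1) (hQ : 1 ≤ Q) (hκ : 0 < κ) :
    Few K ε0 (fun Y w => ¬ TorLe C1 Q 5 (1 / 8 + κ) Y w.2) :=
  few_tor5_fin K ε0 C1 Q κ hK hC1 hQ hκ (fun c hc => few_small2 K ε0 c hK he0 hc) llt_five

theorem few_PT (K η τ : ℝ) (l : ℕ) (hl : 1 ≤ l) (hK : 2 ≤ K) (hη : 0 < η) (hτ : 0 ≤ τ) (hτ1 : τ ≤ 1 / 4) :
    ∃ e1 κ Q C1 : ℝ, 0 < e1 ∧ e1 ≤ 1 / 100 ∧ 0 < κ ∧ 1 ≤ Q ∧ 1 ≤ C1 ∧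
      Few K (-1 + 4 * τ - e1) (fun Y w => IsPl η l Y w.1 ∧ TorLe C1 Q l (τ + κ) Y w.2) :=
  few_PT_of K η τ l hl hK hη hτ hτ1 (fun ε0 c he hc => few_small2 K ε0 c hK he hc)

theorem few_P4 (K η : ℝ) (hK : 2 ≤ K) (hη : 0 < η) : ∃ e1 : ℝ, 0 < e1 ∧ e1 ≤ 1 / 100 ∧
    Few K (-1 - e1) (fun Y w => IsP η 4 Y w.1) :=
  few_P4_fin K η hη (fun η τ l hl hη hτ hτ1 => few_PT K η τ l hl hK hη hτ hτ1)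
    (fun ε0 C1 Q κ l he hC hQ hκ hl => few_tor K ε0 C1 Q κ hK he hC hQ hκ l hl)

theorem few_P6 (K η : ℝ) (hK : 2 ≤ K) (hη : 0 < η) : ∃ e1 : ℝ, 0 < e1 ∧ e1 ≤ 1 / 100 ∧
    Few K (-(1 / 2) - e1) (fun Y w => IsP η 6 Y w.1) :=
  few_P6_fin K η hη (fun η τ l hl hη hτ hτ1 => few_PT K η τ l hl hK hη hτ hτ1)
    (fun ε0 C1 Q κ l he hC hQ hκ hl => few_tor K ε0 C1 Q κ hK he hC hQ hκ l hl)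
    (fun ε0 C1 Q κ he hC hQ hκ => few_tor5 K ε0 C1 Q κ hK he hC hQ hκ)

theorem extraction2 (K ε0 κ : ℝ) (hK : 2 ≤ K) (he0 : -(3 / 2) < ε0) (hκ : 0 < κ) : ∃ C δ : ℝ, 0 < C ∧ 0 < δ ∧
    ∀ Y : ℝ, 1 ≤ Y → ∀ P : Finset (ℤ × ℤ), (∀ w ∈ P, w ∈ PairSet K ε0 Y) → C * Y ^ (3 / 4 - δ) < (P.card : ℝ) →
      ∃ P' ⊆ P, Good K ε0 κ Y P' ∧ Y ^ (3 / 4 - κ) ≤ (P'.card : ℝ) :=
  extraction2_fin K ε0 κ hK hκ (fun c hc => few_small2 K ε0 c hK he0 hc)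

theorem tie_all2 (K ε0 : ℝ) (hK : 2 ≤ K) (he0 : -(3 / 2) < ε0) (j j' : ℕ) (hj : 1 ≤ j) (hj' : 1 ≤ j')
    (l : Fin (2 * j) → ℕ) (l' : Fin (2 * j') → ℕ) (hl : StrictMono l) (hl' : StrictMono l') (hl1 : ∀ i, 1 ≤ l i)
    (hl1' : ∀ i, 1 ≤ l' i) : ∃ σ : ℝ, 0 < σ ∧ Few K ε0 (fun Y w => IsTie σ j l Y w.1 ∧ IsTie σ j' l' Y w.2) :=
  tie_all2' K ε0 hK (fun κ hκ => extraction2 K ε0 κ hK he0 hκ) (fun κ hκ hκ1 => critical2 K ε0 κ hK he0 hκ hκ1)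
    (few_S K ε0 (1 / 16) hK he0 (by norm_num)) j j' hj hj' l l' hl hl' hl1 hl1'

theorem few_T1 (K ε0 η : ℝ) (hK : 2 ≤ K) (he0 : -(3 / 2) < ε0) (hη : 0 < η) : Few K ε0 (fun Y w => ∃ u : ℕ,
    UDvd u w.1.natAbs ∧ (rd u : ℝ) ≤ Y ^ (1 / 4 - η) ∧
    (rd u : ℝ) * (w.1.natAbs : ℝ) ≤ Y ^ (1 / 4 - η) * u * √(max (w.1.natAbs : ℝ) (w.2.natAbs : ℝ))) :=
  few_T1_of K ε0 η hK hη (fun c hc => few_small2 K ε0 c hK he0 hc)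

theorem few_low (K ε0 e : ℝ) (hK : 2 ≤ K) (he0 : -(3 / 2) < ε0) (he : 0 < e) :
    Few K ε0 (fun Y w => max (w.1.natAbs : ℝ) (w.2.natAbs : ℝ) ≤ Y ^ (1 - e)) :=
  few_low_of K ε0 e he (fun c hc => few_small2 K ε0 c hK he0 hc) (fun η hη => few_S K ε0 η hK he0 hη)

end Hp

end Pool.Agent.Lib.MP_d8bd92_nt
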