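import Pool.Agent.Lib.MP_d8bd92_nt.Hp.MT1
import Pool.Agent.Lib.MP_d8bd92_nt.Hp.P2Fin
import Pool.Agent.Lib.MP_d8bd92_nt.Hp.ClsH

set_option autoImplicit false

/-! Assembly of the true exponent. -/

namespace Pool.Agent.Lib.MP_d8bd92_nt

namespace Hp

open Finset Pool.Agent.Lib.Szpiro

/-- all tie pairs with bounded data, one `σ` -/
theorem tie_fin (K ε0 : ℝ) (hK : 2 ≤ K) (he0 : -(3 / 2) < ε0) (J L1 : ℕ) : ∃ σ : ℝ, 0 < σ ∧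
    Few K ε0 (fun Y w => (∃ j : ℕ, 1 ≤ j ∧ j ≤ J ∧ ∃ l : Fin (2 * j) → ℕ, StrictMono l ∧ (∀ i, 1 ≤ l i) ∧
      (∀ i, l i ≤ L1) ∧ IsTie σ j l Y w.1) ∧ (∃ j : ℕ, 1 ≤ j ∧ j ≤ J ∧ ∃ l : Fin (2 * j) → ℕ, StrictMono l ∧
      (∀ i, 1 ≤ l i) ∧ (∀ i, l i ≤ L1) ∧ IsTie σ j l Y w.2)) := by
  classical
  set I : Finset ((Σ j : Fin (J + 1), (Fin (2 * j.val) → Fin (L1 + 1))) ×
      (Σ j : Fin (J + 1), (Fin (2 * j.val) → Fin (L1 + 1)))) := Finset.univ.filter (fun t =>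
        1 ≤ t.1.1.val ∧ 1 ≤ t.2.1.val ∧ StrictMono (fun i => (t.1.2 i).val) ∧ StrictMono (fun i => (t.2.2 i).val) ∧
        (∀ i, 1 ≤ (t.1.2 i).val) ∧ (∀ i, 1 ≤ (t.2.2 i).val)) with hI
  have hσ : ∀ t : (Σ j : Fin (J + 1), (Fin (2 * j.val) → Fin (L1 + 1))) ×
      (Σ j : Fin (J + 1), (Fin (2 * j.val) → Fin (L1 + 1))), ∃ u : ℝ, 0 < u ∧ (t ∈ I →
      Few K ε0 (fun Y w => IsTie u t.1.1.val (fun i => (t.1.2 i).val) Y w.1 ∧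
        IsTie u t.2.1.val (fun i => (t.2.2 i).val) Y w.2)) := by
    intro t
    by_cases ht : t ∈ I
    · have ht' := ht
      rw [hI, Finset.mem_filter] at ht'
      obtain ⟨_, h1, h2, h3, h4, h5, h6⟩ := ht'
      obtain ⟨σ, hσ, hF⟩ := tie_all2 K ε0 hK he0 t.1.1.val t.2.1.val h1 h2 _ _ h3 h4 h5 h6
      exact ⟨σ, hσ, fun _ => hF⟩
    · exact ⟨1, one_pos, fun h => absurd h ht⟩
  choose s hs0 hs using hσ
  obtain ⟨σ, hσ0, hσ1⟩ : ∃ σ : ℝ, 0 < σ ∧ ∀ t, σ ≤ s t := by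
    rcases isEmpty_or_nonempty ((Σ j : Fin (J + 1), (Fin (2 * j.val) → Fin (L1 + 1))) ×
      (Σ j : Fin (J + 1), (Fin (2 * j.val) → Fin (L1 + 1)))) with he | he
    · exact ⟨1, one_pos, fun t => (he.false t).elim⟩
    · obtain ⟨t0, ht0⟩ := Finite.exists_min s
      exact ⟨s t0, hs0 t0, ht0⟩
  refine ⟨σ, hσ0, ?_⟩
  have hF := few_finset' K ε0 I _ (fun t ht => hs t ht)
  apply few_large' K ε0 _ _ 1 hF
  rintro Y w hY hw ⟨⟨j, hj1, hj2, l, hl1, hl2, hl3, hl4⟩, ⟨j', hj1', hj2', l', hl1', hl2', hl3', hl4'⟩⟩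
  refine ⟨(⟨⟨j, by omega⟩, fun i => ⟨l i, by have := hl3 i; omega⟩⟩,
    ⟨⟨j', by omega⟩, fun i => ⟨l' i, by have := hl3' i; omega⟩⟩), ?_, ?_, ?_⟩
  · rw [hI, Finset.mem_filter]
    exact ⟨Finset.mem_univ _, hj1, hj1', hl1, hl1', hl2, hl2'⟩
  · exact tie_mono' _ _ (hσ1 _) _ _ _ hY _ hl4
  · exact tie_mono' _ _ (hσ1 _) _ _ _ hY _ hl4'

/-- the middle ranges: `L0 = 4`: `[Y^(1-e1), Y^(3/2-e)]`, `L0 = 6`: `[Y^(3/2-e1), Y^(2-e)]` -/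
theorem mid_range (K : ℝ) (hK : 2 ≤ K) (L0 : ℕ) (hL0 : L0 = 4 ∨ L0 = 6) (e : ℝ) (he : 0 < e)
    (hP : ∀ η : ℝ, 0 < η → ∃ e1 : ℝ, 0 < e1 ∧ e1 ≤ 1 / 100 ∧
      Few K ((L0 : ℝ) / 4 - 2 - e1) (fun Y w => IsP η L0 Y w.1)) :
    ∃ e1 : ℝ, 0 < e1 ∧ e1 ≤ 1 / 100 ∧ Few K ((L0 : ℝ) / 4 - 2 - e1)
      (fun Y w => max (w.1.natAbs : ℝ) (w.2.natAbs : ℝ) ≤ Y ^ (((L0 : ℝ) + 2) / 4 - e)) := by
  have hL1 : 1 ≤ L0 := by omega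
  have hL6 : L0 ≤ 6 := by omega
  have hL4 : (4 : ℝ) ≤ L0 := by exact_mod_cast (by omega : 4 ≤ L0)
  obtain ⟨L1, hcl⟩ := classif_G K (e / 24) hK (by positivity) L0 hL0
  obtain ⟨σ, hσ, htie⟩ := tie_fin K (-(5 / 4)) hK (by norm_num) 3 L1
  obtain ⟨η, κ, Y0, hη, hκ, hY0, hcl⟩ := hcl σ hσ
  obtain ⟨e1, he1, he11, hPf⟩ := hP η hη
  refine ⟨e1, he1, he11, ?_⟩
  obtain ⟨κ', hκ'⟩ : ∃ κ' : ℝ, κ' = min κ (e / 8) := ⟨_, rfl⟩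
  have hκ0 : 0 < κ' := by rw [hκ']; exact lt_min hκ (by positivity)
  have hκκ : κ' ≤ κ := by rw [hκ']; exact min_le_left _ _
  have hκe : κ' ≤ e / 8 := by rw [hκ']; exact min_le_right _ _
  have hε : -(5 / 4 : ℝ) ≤ (L0 : ℝ) / 4 - 2 - e1 := by linarith
  have hsm := few_anti K _ _ _ hε (few_small2 K (-(5 / 4)) κ' hK (by norm_num) hκ0)
  have hT := few_anti K _ _ _ hε (few_T1 K (-(5 / 4)) (e / 8) hK (by norm_num) (by positivity))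
  have ht := few_anti K _ _ _ hε htie
  have hF := few_or' K _ _ _ (few_or' K _ _ _ hsm (few_swap K _ _ hsm))
    (few_or' K _ _ _ (few_or' K _ _ _ hT (few_swap K _ _ hT))
      (few_or' K _ _ _ (few_or' K _ _ _ hPf (few_swap K _ _ hPf)) ht))
  apply few_large' K _ _ _ Y0 hF
  rintro Y w hY hw hmax
  have hY1 : 1 ≤ Y := hY0.trans hY
  have hYp : 0 < Y := one_pos.trans_le hY1
  obtain ⟨h1, h2, h3, h4, h5, h6, h7, h8⟩ := hw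
  by_cases hs1 : (rd w.1.natAbs : ℝ) ≤ Y ^ (1 / 2 - κ')
  · exact Or.inl (Or.inl hs1)
  by_cases hs2 : (rd w.2.natAbs : ℝ) ≤ Y ^ (1 / 2 - κ')
  · exact Or.inl (Or.inr hs2)
  right
  push Not at hs1 hs2
  have key : ∀ a b : ℝ, Y ^ (1 / 2 - κ') < a → Y ^ (1 / 2 - κ') < b → a * b ≤ Y → a ≤ Y ^ (1 / 2 + κ) := by
    intro a b ha hb hab
    have hp : 0 < Y ^ (1 / 2 - κ') := Real.rpow_pos_of_pos hYp _
    have h10 : Y ^ (1 / 2 + κ') * Y ^ (1 / 2 - κ') = Y := by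
      rw [← Real.rpow_add hYp]
      norm_num
    have h11 : Y ^ (1 / 2 + κ') ≤ Y ^ (1 / 2 + κ) := Real.rpow_le_rpow_of_exponent_le hY1 (add_le_add_right hκκ _)
    refine le_trans ?_ h11
    have h9 : a * Y ^ (1 / 2 - κ') ≤ Y := (mul_le_mul_of_nonneg_left hb.le (hp.le.trans ha.le)).trans hab
    exact le_of_mul_le_mul_right (h9.trans h10.ge) hp
  have hlow : ∀ a : ℝ, Y ^ (1 / 2 - κ') < a → Y ^ (1 / 2 - κ) ≤ a ∧ Y ^ (1 / 2 - e / 8) ≤ a := fun a ha =>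
    ⟨(Real.rpow_le_rpow_of_exponent_le hY1 (sub_le_sub_left hκκ _)).trans ha.le,
      (Real.rpow_le_rpow_of_exponent_le hY1 (sub_le_sub_left hκe _)).trans ha.le⟩
  -- the bad parts
  have hbad : ∀ x y : ℤ, x ≠ 0 → (x.natAbs : ℝ) ≤ max (x.natAbs : ℝ) (y.natAbs : ℝ) →
      max (x.natAbs : ℝ) (y.natAbs : ℝ) ≤ Y ^ (((L0 : ℝ) + 2) / 4 - e) → Y ^ (1 / 2 - κ') < (rd x.natAbs : ℝ) →
      (¬ ∃ u : ℕ, UDvd u x.natAbs ∧ (rd u : ℝ) ≤ Y ^ (1 / 4 - e / 8) ∧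
        (rd u : ℝ) * (x.natAbs : ℝ) ≤ Y ^ (1 / 4 - e / 8) * u * √(max (x.natAbs : ℝ) (y.natAbs : ℝ))) →
      ∃ u, BadPart L0 x u ∧ (rd u : ℝ) ≤ Y ^ (1 / 8 - e / 24) := by
    intro x y hx hxM hM hr hnT
    obtain ⟨u, hu1, hu2, hu3, hu4, hu5⟩ := exists_bad L0 x.natAbs (Int.natAbs_ne_zero.2 hx)
    refine ⟨u, ⟨hu1, hu2, hu3⟩, ?_⟩
    have hM0 : 0 < max (x.natAbs : ℝ) (y.natAbs : ℝ) :=
      lt_max_of_lt_left (by exact_mod_cast Int.natAbs_pos.2 hx)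
    refine bad_le L0 hL1 hL6 e Y he hY1 x.natAbs u _ hxM hM0 hM (hlow _ hr).2 hu4 hu5 (fun hru => ?_)
    by_contra hcon
    push Not at hcon
    exact hnT ⟨u, hu1, hru, hcon⟩
  by_cases ht1 : ∃ u : ℕ, UDvd u w.1.natAbs ∧ (rd u : ℝ) ≤ Y ^ (1 / 4 - e / 8) ∧
    (rd u : ℝ) * (w.1.natAbs : ℝ) ≤ Y ^ (1 / 4 - e / 8) * u * √(max (w.1.natAbs : ℝ) (w.2.natAbs : ℝ))
  · exact Or.inl (Or.inl ht1)
  by_cases ht2 : ∃ u : ℕ, UDvd u w.2.natAbs ∧ (rd u : ℝ) ≤ Y ^ (1 / 4 - e / 8) ∧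
    (rd u : ℝ) * (w.2.natAbs : ℝ) ≤ Y ^ (1 / 4 - e / 8) * u * √(max (w.2.natAbs : ℝ) (w.1.natAbs : ℝ))
  · exact Or.inl (Or.inr ht2)
  right
  have c1 := hcl Y hY w.1 h1 h7 (hlow _ hs1).1 (key _ _ hs1 hs2 h5)
    (hbad w.1 w.2 h1 (le_max_left _ _) hmax hs1 ht1)
  have c2 := hcl Y hY w.2 h2 h8 (hlow _ hs2).1 (key _ _ hs2 hs1 (by rw [mul_comm]; exact h5))
    (hbad w.2 w.1 h2 (le_max_left _ _) (by rw [max_comm]; exact hmax) hs2 ht2)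
  rcases c1 with c1 | c1
  · exact Or.inl (Or.inl c1)
  rcases c2 with c2 | c2
  · exact Or.inl (Or.inr c2)
  exact Or.inr ⟨c1, c2⟩

/-- the true exponent: few pairs with `max |x| |y| ≥ Y ^ (1/2 + e1)` -/
theorem main_true' (K e1 : ℝ) (hK : 2 ≤ K) (he1 : 0 < e1) : Few K (-(3 / 2) + e1) (fun _ _ => True) := by
  obtain ⟨e3, he3, hF3⟩ := main_pairs_neg K hK
  obtain ⟨e6, he6, he61, hF6⟩ := mid_range K hK 6 (Or.inr rfl) e3 he3 (fun η hη => by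
    obtain ⟨e, h1, h2, h3⟩ := few_P6 K η hK hη
    refine ⟨e, h1, h2, ?_⟩
    have : ((6 : ℕ) : ℝ) / 4 - 2 - e = -(1 / 2) - e := by norm_num
    rw [this]
    exact h3)
  obtain ⟨e4, he4, he41, hF4⟩ := mid_range K hK 4 (Or.inl rfl) e6 he6 (fun η hη => by
    obtain ⟨e, h1, h2, h3⟩ := few_P4 K η hK hη
    refine ⟨e, h1, h2, ?_⟩
    have : ((4 : ℕ) : ℝ) / 4 - 2 - e = -1 - e := by norm_num
    rw [this]
    exact h3)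
  have hlow := few_low K (-(3 / 2) + e1) e4 hK (by linarith) he4
  have hF := few_or' K _ _ _ (few_or' K _ _ _ hlow (few_size K (-(3 / 2) + e1) _ _ hF4))
    (few_or' K _ _ _ (few_size K (-(3 / 2) + e1) _ _ hF6) (few_size K (-(3 / 2) + e1) _ _ hF3))
  apply few_large' K _ _ _ 1 hF
  rintro Y w hY hw -
  have c4 : (2 : ℝ) + (((4 : ℕ) : ℝ) / 4 - 2 - e4) = 1 - e4 := by push_cast; ring
  have c4' : (((4 : ℕ) : ℝ) + 2) / 4 - e6 = 3 / 2 - e6 := by push_cast; ring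
  have c6 : (2 : ℝ) + (((6 : ℕ) : ℝ) / 4 - 2 - e6) = 3 / 2 - e6 := by push_cast; ring
  have c6' : (((6 : ℕ) : ℝ) + 2) / 4 - e3 = 2 + -e3 := by push_cast; ring
  rw [c4, c4', c6, c6']
  by_cases k1 : max (w.1.natAbs : ℝ) (w.2.natAbs : ℝ) ≤ Y ^ (1 - e4)
  · exact Or.inl (Or.inl k1)
  push Not at k1
  by_cases k2 : max (w.1.natAbs : ℝ) (w.2.natAbs : ℝ) ≤ Y ^ (3 / 2 - e6)
  · exact Or.inl (Or.inr ⟨k1.le, k2⟩)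
  push Not at k2
  by_cases k3 : max (w.1.natAbs : ℝ) (w.2.natAbs : ℝ) ≤ Y ^ (2 + -e3)
  · exact Or.inr (Or.inl ⟨k2.le, k3⟩)
  push Not at k3
  exact Or.inr (Or.inr ⟨k3.le, trivial⟩)

end Hp

end Pool.Agent.Lib.MP_d8bd92_nt
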