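import Pool.Agent.Lib.MP_d8bd92_nt.Hp.Cases

set_option autoImplicit false

/-! All pairs, for a slightly negative `ε0`. -/

namespace Pool.Agent.Lib.MP_d8bd92_nt

namespace Hp

open Finset Pool.Agent.Lib.Szpiro

/-- the two sides of a tie pair, any `j`, `j'` -/
theorem tie_pair_all (K : ℝ) (hK : 2 ≤ K) (j j' : ℕ) (hj : 1 ≤ j) (hj' : 1 ≤ j')
    (l : Fin (2 * j) → ℕ) (l' : Fin (2 * j') → ℕ) (hl : StrictMono l) (hl' : StrictMono l') (hl1 : ∀ i, 1 ≤ l i)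
    (hl1' : ∀ i, 1 ≤ l' i) :
    FewN K (fun σ Y w => IsTie σ j l Y w.1 ∧ IsTie σ j' l' Y w.2) := by
  by_cases h : j = 1 ∧ j' = 1
  · obtain ⟨rfl, rfl⟩ := h
    exact tie_pair_one' K hK l l' hl hl' hl1 hl1'
  · exact tie_pair' K hK j j' hj hj' h l l' hl hl' hl1 hl1'

/-- all tie pairs with bounded data, one `σ` and one `e` -/
theorem tie_all (K : ℝ) (hK : 2 ≤ K) (J L1 : ℕ) :
    FewN K (fun σ Y w => (∃ j : ℕ, 1 ≤ j ∧ j ≤ J ∧ ∃ l : Fin (2 * j) → ℕ, StrictMono l ∧ (∀ i, 1 ≤ l i) ∧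
      (∀ i, l i ≤ L1) ∧ IsTie σ j l Y w.1) ∧ (∃ j : ℕ, 1 ≤ j ∧ j ≤ J ∧ ∃ l : Fin (2 * j) → ℕ, StrictMono l ∧
      (∀ i, 1 ≤ l i) ∧ (∀ i, l i ≤ L1) ∧ IsTie σ j l Y w.2)) := by
  classical
  -- index set
  set I : Finset ((Σ j : Fin (J + 1), (Fin (2 * j.val) → Fin (L1 + 1))) ×
      (Σ j : Fin (J + 1), (Fin (2 * j.val) → Fin (L1 + 1)))) := Finset.univ.filter (fun t =>
        1 ≤ t.1.1.val ∧ 1 ≤ t.2.1.val ∧ StrictMono (fun i => (t.1.2 i).val) ∧ StrictMono (fun i => (t.2.2 i).val) ∧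
        (∀ i, 1 ≤ (t.1.2 i).val) ∧ (∀ i, 1 ≤ (t.2.2 i).val)) with hI
  have hσ : ∀ t : (Σ j : Fin (J + 1), (Fin (2 * j.val) → Fin (L1 + 1))) ×
      (Σ j : Fin (J + 1), (Fin (2 * j.val) → Fin (L1 + 1))), ∃ u : ℝ, 0 < u ∧ u ≤ 1 / 100 ∧ (t ∈ I →
      Few K (-u) (fun Y w => IsTie u t.1.1.val (fun i => (t.1.2 i).val) Y w.1 ∧
        IsTie u t.2.1.val (fun i => (t.2.2 i).val) Y w.2)) := by
    intro t
    by_cases ht : t ∈ I
    · have ht' := ht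
      rw [hI, Finset.mem_filter] at ht'
      obtain ⟨_, h1, h2, h3, h4, h5, h6⟩ := ht'
      obtain ⟨e, σ, he, he1, hσ, hF⟩ := tie_pair_all K hK t.1.1.val t.2.1.val h1 h2 _ _ h3 h4 h5 h6
      refine ⟨min e σ, lt_min he hσ, (min_le_left _ _).trans he1, fun _ => ?_⟩
      apply few_large' K _ _ _ 1 (few_anti K (-e) _ _ (neg_le_neg (min_le_left _ _)) hF)
      intro Y w hY _ hq
      exact ⟨tie_mono' _ _ (min_le_right _ _) _ _ _ hY _ hq.1, tie_mono' _ _ (min_le_right _ _) _ _ _ hY _ hq.2⟩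
    · exact ⟨1 / 100, by norm_num, le_rfl, fun h => absurd h ht⟩
  choose s hs0 hs100 hs using hσ
  obtain ⟨σ, hσ0, hσ100, hσ1⟩ : ∃ σ : ℝ, 0 < σ ∧ σ ≤ 1 / 100 ∧ ∀ t, σ ≤ s t := by
    rcases isEmpty_or_nonempty ((Σ j : Fin (J + 1), (Fin (2 * j.val) → Fin (L1 + 1))) ×
      (Σ j : Fin (J + 1), (Fin (2 * j.val) → Fin (L1 + 1)))) with he | he
    · exact ⟨1 / 100, by norm_num, le_rfl, fun t => (he.false t).elim⟩
    · obtain ⟨t0, ht0⟩ := Finite.exists_min s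
      exact ⟨s t0, hs0 t0, hs100 t0, ht0⟩
  refine ⟨σ, σ, hσ0, hσ100, hσ0, ?_⟩
  have hF := few_finset' K (-σ) I _ (fun t ht => few_anti K (-(s t)) _ _ (neg_le_neg (hσ1 t)) (hs t ht))
  apply few_large' K _ _ _ 1 hF
  rintro Y w hY hw ⟨⟨j, hj1, hj2, l, hl1, hl2, hl3, hl4⟩, ⟨j', hj1', hj2', l', hl1', hl2', hl3', hl4'⟩⟩
  refine ⟨(⟨⟨j, by omega⟩, fun i => ⟨l i, by have := hl3 i; omega⟩⟩,
    ⟨⟨j', by omega⟩, fun i => ⟨l' i, by have := hl3' i; omega⟩⟩), ?_, ?_, ?_⟩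
  · rw [hI, Finset.mem_filter]
    exact ⟨Finset.mem_univ _, hj1, hj1', hl1, hl1', hl2, hl2'⟩
  · exact tie_mono' _ _ (hσ1 _) _ _ _ hY _ hl4
  · exact tie_mono' _ _ (hσ1 _) _ _ _ hY _ hl4'

/-- few pairs with `max |x| |y| ≥ Y ^ (2 - e)`, for some `e > 0` -/
theorem main_pairs_neg (K : ℝ) (hK : 2 ≤ K) : ∃ e : ℝ, 0 < e ∧ Few K (-e) (fun _ _ => True) := by
  classical
  obtain ⟨J, L1, hcl⟩ := classification K hK
  obtain ⟨e, σ, he, he1, hσ0, htie⟩ := tie_all K hK J L1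
  obtain ⟨η, κ, Y0, L, hη, hκ, hY0, hcl⟩ := hcl σ hσ0
  obtain ⟨e', he', he1', hP⟩ := few_P_neg K η L hK hη
  set ε0 : ℝ := -(min e e') with hε0
  have h0 : 0 < min e e' := lt_min he he'
  have hl : -(1 / 100) ≤ ε0 := by
    rw [hε0]
    exact neg_le_neg ((min_le_left _ _).trans he1)
  have htie := few_anti K (-e) ε0 _ (neg_le_neg (min_le_left _ _)) htie
  have hP := few_anti K (-e') ε0 _ (neg_le_neg (min_le_right _ _)) hP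
  refine ⟨min e e', h0, ?_⟩
  have hsm := few_small K ε0 κ hK (by linarith) hκ
  have hF := few_or' K ε0 _ _ (few_or' K ε0 _ _ hsm (few_swap K ε0 _ hsm))
    (few_or' K ε0 _ _ (few_or' K ε0 _ _ hP (few_swap K ε0 _ hP)) htie)
  apply few_large' K ε0 _ _ Y0 hF
  rintro Y w hY hw -
  have hY1 : 1 ≤ Y := hY0.trans hY
  have hYp : 0 < Y := by linarith
  obtain ⟨h1, h2, h3, h4, h5, h6, h7, h8⟩ := hw
  by_cases hs1 : (rd w.1.natAbs : ℝ) ≤ Y ^ (1 / 2 - κ)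
  · exact Or.inl (Or.inl hs1)
  by_cases hs2 : (rd w.2.natAbs : ℝ) ≤ Y ^ (1 / 2 - κ)
  · exact Or.inl (Or.inr hs2)
  right
  push Not at hs1 hs2
  have key : ∀ a b : ℝ, Y ^ (1 / 2 - κ) < a → Y ^ (1 / 2 - κ) < b → a * b ≤ Y → a ≤ Y ^ (1 / 2 + κ) := by
    intro a b ha hb hab
    have hp : 0 < Y ^ (1 / 2 - κ) := Real.rpow_pos_of_pos hYp _
    have h9 : a * Y ^ (1 / 2 - κ) ≤ Y := by nlinarith
    have h10 : Y ^ (1 / 2 + κ) * Y ^ (1 / 2 - κ) = Y := by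
      rw [← Real.rpow_add hYp]
      norm_num
    by_contra hcon
    push Not at hcon
    have : Y ^ (1 / 2 + κ) * Y ^ (1 / 2 - κ) < a * Y ^ (1 / 2 - κ) := mul_lt_mul_of_pos_right hcon hp
    linarith
  have c1 := hcl Y hY w.1 h1 h7 hs1.le (key _ _ hs1 hs2 h5)
  have c2 := hcl Y hY w.2 h2 h8 hs2.le (key _ _ hs2 hs1 (by rw [mul_comm]; exact h5))
  rcases c1 with c1 | c1
  · exact Or.inl (Or.inl c1)
  rcases c2 with c2 | c2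
  · exact Or.inl (Or.inr c2)
  exact Or.inr ⟨c1, c2⟩

theorem main_pairs (K ε0 : ℝ) (hK : 2 ≤ K) (hε : 0 < ε0) : Few K ε0 (fun _ _ => True) := by
  obtain ⟨e, he, hF⟩ := main_pairs_neg K hK
  exact few_anti K (-e) ε0 _ (by linarith) hF

end Hp

end Pool.Agent.Lib.MP_d8bd92_nt
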