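import Pool.Agent.Lib.MP_d8bd92_nt.Hp.SB

set_option autoImplicit false

/-! Tool (S), third part: all colours, all odd parts. -/

namespace Pool.Agent.Lib.MP_d8bd92_nt

namespace Hp

open Finset Pool.Agent.Lib.Szpiro

theorem sc_log {Z ε : ℝ} (hZ : 1 ≤ Z) (hε : 0 < ε) :
    ((Nat.log 2 ⌊Z⌋₊ + 1 : ℕ) : ℝ) ≤ (1 + 1 / (ε * Real.log 2)) * Z ^ ε := by
  have hZ0 : 0 < Z := by linarith
  have hl2 : 0 < Real.log 2 := Real.log_pos (by norm_num)
  have h1 : (2 : ℝ) ^ (Nat.log 2 ⌊Z⌋₊) ≤ Z := by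
    have h2 : ⌊Z⌋₊ ≠ 0 := by
      have : 1 ≤ ⌊Z⌋₊ := (Nat.one_le_floor_iff Z).mpr hZ
      omega
    have h3 : 2 ^ (Nat.log 2 ⌊Z⌋₊) ≤ ⌊Z⌋₊ := Nat.pow_log_le_self 2 h2
    have h4 : ((2 ^ (Nat.log 2 ⌊Z⌋₊) : ℕ) : ℝ) ≤ (⌊Z⌋₊ : ℝ) := by exact_mod_cast h3
    push_cast at h4
    exact h4.trans (Nat.floor_le hZ0.le)
  have h5 : (Nat.log 2 ⌊Z⌋₊ : ℝ) * Real.log 2 ≤ Real.log Z := by
    rw [← Real.log_pow]
    exact Real.log_le_log (by positivity) h1
  have h6 : Real.log Z ≤ Z ^ ε / ε := Real.log_le_rpow_div hZ0.le hε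
  have h7 : (Nat.log 2 ⌊Z⌋₊ : ℝ) ≤ 1 / (ε * Real.log 2) * Z ^ ε := by
    have h8 : 1 / (ε * Real.log 2) * Z ^ ε = (Z ^ ε / ε) / Real.log 2 := by
      field_simp
    rw [h8, le_div_iff₀ hl2]
    linarith
  have h9 : 1 ≤ Z ^ ε := Real.one_le_rpow hZ hε.le
  push_cast
  nlinarith

theorem sc_natlog {Z : ℝ} {n : ℕ} (h : (n : ℝ) ≤ Z) : Nat.log 2 n < Nat.log 2 ⌊Z⌋₊ + 1 := by
  have : n ≤ ⌊Z⌋₊ := Nat.le_floor h
  exact Nat.lt_succ_of_le (Nat.log_mono_right this)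

theorem sc_dy {n m : ℕ} (hn : n ≠ 0) (hm : m ≠ 0) (h : Nat.log 2 n = Nat.log 2 m) : n ≤ 2 * m := by
  have h1 : n < 2 ^ (Nat.log 2 n + 1) := Nat.lt_pow_succ_log_self (by norm_num) n
  have h2 : 2 ^ Nat.log 2 m ≤ m := Nat.pow_log_le_self 2 hm
  rw [h, pow_succ] at h1
  omega

open scoped Classical in
/-- number of 2-parts -/
theorem SFib.card_two {Z RA E G M : ℝ} {D : ℤ} {f : ℕ} {e A t c : ℤ × ℤ → ℕ} {S : Finset (ℤ × ℤ)}
    (h : SFib Z RA E G M D f e A t c S) :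
    (S.image (fun w => (e w, lbl (2 ^ e w) (zel D f c w)))).card ≤ 4 * (Nat.log 2 ⌊Z⌋₊ + 1) := by
  have h1 : S.image (fun w => (e w, lbl (2 ^ e w) (zel D f c w))) ⊆
      (range (Nat.log 2 ⌊Z⌋₊ + 1)).biUnion (fun e0 =>
        ((S.filter (fun w => e w = e0)).image (fun w => lbl (2 ^ e w) (zel D f c w))).image (fun I => (e0, I))) := by
    intro p hp
    obtain ⟨w, hw, rfl⟩ := mem_image.mp hp
    have h2 : 2 ^ e w ≤ w.1.natAbs := by
      apply Nat.le_of_dvd (Int.natAbs_pos.mpr (h.nz1 w hw))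
      rw [h.x_eq w hw]
      exact ⟨A w * t w, by ring⟩
    have h3 : ((2 ^ e w : ℕ) : ℝ) ≤ Z := le_trans (by exact_mod_cast h2) (h.zx w hw)
    have h4 := sc_natlog h3
    rw [Nat.log_pow (by norm_num)] at h4
    rw [mem_biUnion]
    refine ⟨e w, mem_range.mpr h4, ?_⟩
    rw [mem_image]
    exact ⟨_, mem_image.mpr ⟨w, mem_filter.mpr ⟨hw, rfl⟩, rfl⟩, rfl⟩
  refine (card_le_card h1).trans ?_
  refine (card_biUnion_le_card_mul _ _ 4 ?_).trans (by rw [card_range, mul_comm])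
  intro e0 _
  refine card_image_le.trans ?_
  rcases (S.filter (fun w => e w = e0)).eq_empty_or_nonempty with h5 | ⟨w1, hw1⟩
  · rw [h5]; simp
  rcases Nat.eq_zero_or_pos e0 with h6 | h6
  · subst h6
    have h7 : (S.filter (fun w => e w = 0)).image (fun w => lbl (2 ^ e w) (zel D f c w)) ⊆ {⊤} := by
      intro I hI
      obtain ⟨w, hw, rfl⟩ := mem_image.mp hI
      rw [mem_filter] at hw
      rw [hw.2, pow_zero, lbl_one]
      exact mem_singleton_self _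
    exact (card_le_card h7).trans (by simp)
  · have hDodd : Odd D := by
      rw [mem_filter] at hw1
      have h8 : (2 : ℤ) ∣ w1.1 := by
        rw [← Int.natAbs_dvd_natAbs, h.x_eq w1 hw1.1]
        have : (2 : ℕ) ∣ 2 ^ e w1 := dvd_pow_self 2 (by omega)
        exact (this.mul_right _).mul_right _
      have h9 := h.copDf hw1.1
      have h10 : IsCoprime (2 : ℤ) D :=
        IsCoprime.of_isCoprime_of_dvd_left (IsCoprime.of_mul_right_left h9) h8
      rcases Int.even_or_odd D with h11 | h11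
      · exfalso
        obtain ⟨k, hk⟩ := h11
        have h12 : (2 : ℤ) ∣ D := ⟨k, by rw [hk]; ring⟩
        have h13 : IsUnit (2 : ℤ) := h10.isUnit_of_dvd' (dvd_refl _) h12
        rw [Int.isUnit_iff] at h13
        omega
      · exact h11
    apply Hp.card_two hDodd e0
    intro I hI
    obtain ⟨w, hw, rfl⟩ := mem_image.mp hI
    rw [mem_filter] at hw
    have hdv : ((2 ^ e w : ℕ) : ℤ) ∣ (zel D f c w).norm := by
      rw [Int.natCast_dvd, h.norm hw.1, h.x_eq w hw.1]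
      exact ⟨A w * t w, by ring⟩
    obtain ⟨r, hr1, _, hr3⟩ := lbl_eq_idl (zel D f c w) (Nat.one_le_two_pow) hdv (h.copz hw.1)
    rw [hw.2] at hr1 hr3
    exact ⟨r, hr1, by rw [hw.2]; exact hr3⟩

/-- all pairs with a given odd part -/
theorem S_fib (ε : ℝ) (hε : 0 < ε) : ∃ C : ℝ, 0 < C ∧ ∀ {Z RA E G M : ℝ} {D : ℤ} {f : ℕ}
    {e A t c : ℤ × ℤ → ℕ} {S : Finset (ℤ × ℤ)} (_ : SFib Z RA E G M D f e A t c S), 1 ≤ RA →
    (S.card : ℝ) ≤ C * Z ^ ε * RA * (1 + E * G / √M) := by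
  classical
  obtain ⟨C1, hC1, hcl⟩ := S_class (ε / 8) (by positivity)
  obtain ⟨C2, hC2, hid⟩ := card_idl_le (ε / 8) (by positivity)
  set C3 : ℝ := 1 + 1 / (ε / 8 * Real.log 2) with hC3
  have hC3' : 0 < C3 := by
    have : 0 < Real.log 2 := Real.log_pos (by norm_num)
    positivity
  refine ⟨8 * C1 * C2 * C3 ^ 3, by positivity, ?_⟩
  intro Z RA E G M D f e A t c S h hRA
  have hZ0 : 0 < Z := by linarith [h.hZ]
  have hG0 : 0 < G := by linarith [h.hG]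
  have hE0 : 0 < E := by linarith [h.hE]
  have hM0 : 0 < M := by linarith [h.hM]
  have hRA0 : 0 < RA := by linarith
  have hnn : 0 ≤ 1 + E * G / √M := by positivity
  set N : ℕ := Nat.log 2 ⌊Z⌋₊ + 1 with hN
  have hNle : (N : ℝ) ≤ C3 * Z ^ (ε / 8) := sc_log h.hZ (by positivity)
  have hnz2 : ∀ w ∈ S, w.2 ≠ 0 := by
    intro w hw h0
    have h1 := h.y_eq w hw
    rw [h0] at h1
    have h2 : ((c w * f : ℕ) : ℤ) ≠ 0 := by
      have := h.c1 w hw
      have := h.hf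
      positivity
    exact mul_ne_zero (pow_ne_zero _ h2) h.D0 h1.symm
  set I1 := S.image (fun w => (e w, lbl (2 ^ e w) (zel D f c w))) with hI1
  set I2 := S.image (fun w => lbl (A w) (zel D f c w)) with hI2
  have hI1c : (I1.card : ℝ) ≤ 4 * N := by exact_mod_cast h.card_two
  have hI2c : (I2.card : ℝ) ≤ C2 * Z ^ (ε / 8) * RA := by
    apply hid D Z RA I2 h.hZ hRA
    intro I hI
    obtain ⟨w, hw, rfl⟩ := mem_image.mp hI
    obtain ⟨r, hr1, _, hr3⟩ := lbl_eq_idl (zel D f c w) (h.A0 hw) (h.dvdA hw) (h.copz hw)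
    have h3 : ((A w : ℕ) : ℤ) ∣ w.1 := by rw [← h.norm hw]; exact h.dvdA hw
    have h4 : A w ∣ w.1.natAbs := by
      rw [h.x_eq w hw]; exact ⟨2 ^ e w * t w, by ring⟩
    have h5 : A w ≤ w.1.natAbs := Nat.le_of_dvd (Int.natAbs_pos.mpr (h.nz1 w hw)) h4
    exact ⟨A w, r, h.A0 hw, le_trans (by exact_mod_cast h5) (h.zx w hw), h.oA w hw,
      IsCoprime.of_isCoprime_of_dvd_left (IsCoprime.of_mul_right_left (h.copDf hw)) h3, h.radA w hw, hr1, hr3⟩
  set col : ℤ × ℤ → (ℕ × Ideal (ℤ√D)) × (Ideal (ℤ√D) × (ℕ × (ℕ × Bool))) := fun w =>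
    ((e w, lbl (2 ^ e w) (zel D f c w)), (lbl (A w) (zel D f c w), (Nat.log 2 w.1.natAbs, (Nat.log 2 w.2.natAbs,
      decide (0 < w.1))))) with hcol
  have himg : S.image col ⊆ I1 ×ˢ (I2 ×ˢ (range N ×ˢ (range N ×ˢ (univ : Finset Bool)))) := by
    intro p hp
    obtain ⟨w, hw, rfl⟩ := mem_image.mp hp
    rw [hcol]
    simp only [mem_product, mem_univ, and_true, mem_range]
    exact ⟨mem_image_of_mem _ hw, mem_image_of_mem _ hw, sc_natlog (h.zx w hw), sc_natlog (h.zy w hw)⟩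
  have hcc : ((S.image col).card : ℝ) ≤ (4 * N) * ((C2 * Z ^ (ε / 8) * RA) * (N * (N * 2))) := by
    have h1 := card_le_card himg
    rw [card_product, card_product, card_product, card_product, card_range, card_univ, Fintype.card_bool] at h1
    have h2 : ((S.image col).card : ℝ) ≤ (I1.card : ℝ) * ((I2.card : ℝ) * (N * (N * 2))) := by exact_mod_cast h1
    refine h2.trans ?_
    have hN0 : (0 : ℝ) ≤ N := Nat.cast_nonneg _
    gcongr
  have hfil : ∀ k ∈ S.image col, ((S.filter (fun w => col w = k)).card : ℝ) ≤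
      C1 * Z ^ (ε / 8) * (1 + E * G / √M) := by
    intro k _
    have h1 := h.subset (filter_subset (fun w => col w = k) S)
    have h2 : ∀ w ∈ S.filter (fun w => col w = k), w ∈ S ∧ col w = k := fun w hw => mem_filter.mp hw
    apply hcl h1 k.1.2 k.2.1
    · intro w hw w' hw'
      obtain ⟨hw, hk⟩ := h2 w hw
      obtain ⟨hw', hk'⟩ := h2 w' hw'
      have hkk : col w = col w' := hk.trans hk'.symm
      rw [hcol] at hkk
      simp only [Prod.mk.injEq, decide_eq_decide] at hkk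
      obtain ⟨_, _, h3, h4, h5⟩ := hkk
      exact ⟨sc_dy (Int.natAbs_ne_zero.mpr (h.nz1 w hw)) (Int.natAbs_ne_zero.mpr (h.nz1 w' hw')) h3,
        sc_dy (Int.natAbs_ne_zero.mpr (hnz2 w hw)) (Int.natAbs_ne_zero.mpr (hnz2 w' hw')) h4, h5⟩
    · intro w hw
      obtain ⟨hw, hk⟩ := h2 w hw
      rw [← hk]
    · intro w hw
      obtain ⟨hw, hk⟩ := h2 w hw
      rw [← hk]
  have hcard : (S.card : ℝ) ≤ ((S.image col).card : ℝ) * (C1 * Z ^ (ε / 8) * (1 + E * G / √M)) := by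
    rw [card_eq_sum_card_image col S]
    push_cast
    calc ∑ k ∈ S.image col, ((S.filter (fun w => col w = k)).card : ℝ)
        ≤ ∑ k ∈ S.image col, C1 * Z ^ (ε / 8) * (1 + E * G / √M) := sum_le_sum hfil
      _ = _ := by rw [sum_const, nsmul_eq_mul]
  set z : ℝ := Z ^ (ε / 8) with hz
  have hz0 : 0 < z := by positivity
  have hz5 : z ^ 5 ≤ Z ^ ε := by
    rw [hz, ← Real.rpow_natCast, ← Real.rpow_mul hZ0.le]
    apply Real.rpow_le_rpow_of_exponent_le h.hZ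
    push_cast
    linarith
  have hN0 : (0 : ℝ) ≤ N := Nat.cast_nonneg _
  calc (S.card : ℝ) ≤ ((S.image col).card : ℝ) * (C1 * z * (1 + E * G / √M)) := hcard
    _ ≤ ((4 * N) * ((C2 * z * RA) * (N * (N * 2)))) * (C1 * z * (1 + E * G / √M)) :=
      mul_le_mul_of_nonneg_right hcc (by positivity)
    _ ≤ ((4 * (C3 * z)) * ((C2 * z * RA) * ((C3 * z) * ((C3 * z) * 2)))) * (C1 * z * (1 + E * G / √M)) := by
      gcongr
    _ = (8 * C1 * C2 * C3 ^ 3 * RA * (1 + E * G / √M)) * z ^ 5 := by ring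
    _ ≤ (8 * C1 * C2 * C3 ^ 3 * RA * (1 + E * G / √M)) * Z ^ ε := mul_le_mul_of_nonneg_left hz5 (by positivity)
    _ = _ := by ring

theorem S_count (ε : ℝ) (hε : 0 < ε) : ∃ C : ℝ, 0 < C ∧ ∀ (Z RA RF E G M : ℝ) (P : Finset (ℤ × ℤ))
    (A t c : ℤ × ℤ → ℕ) (F : ℤ × ℤ → ℤ), 1 ≤ Z → 1 ≤ RA → 1 ≤ RF → 1 ≤ E → 1 ≤ G → 1 ≤ M →
    (∀ w ∈ P, w.1 ≠ 0 ∧ w.2 ≠ 0 ∧ IsCoprime w.1 w.2 ∧ (∃ g : ℤ, w.1 + w.2 = g ^ 2) ∧ ¬ IsSquare w.2 ∧
      (w.1.natAbs : ℝ) ≤ Z ∧ (w.2.natAbs : ℝ) ≤ Z ∧ M ≤ max (w.1.natAbs : ℝ) (w.2.natAbs : ℝ)) →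
    (∀ w ∈ P, w.1.natAbs = A w * t w ∧ Nat.Coprime (A w) (t w) ∧ Squarefree (t w) ∧ Odd (t w) ∧
      (rd (A w) : ℝ) ≤ RA ∧ E ≤ (t w : ℝ) ∧ (t w : ℝ) ≤ 2 * E) →
    (∀ w ∈ P, w.2 = (c w : ℤ) ^ 2 * F w ∧ (rd (F w).natAbs : ℝ) ≤ RF ∧ (c w : ℝ) ≤ G) →
    (P.card : ℝ) ≤ C * Z ^ ε * RA * RF * (1 + E * G / √M) := by
  classical
  obtain ⟨C1, hC1, hfb⟩ := S_fib (ε / 2) (by positivity)
  obtain ⟨C2, hC2, hrad⟩ := card_rad_le (ε / 2) (by positivity)
  refine ⟨2 * C2 * C1, by positivity, ?_⟩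
  intro Z RA RF E G M P A t c F hZ hRA hRF hE hG hM hb hA hc
  have hZ0 : 0 < Z := by linarith
  have hG0 : 0 < G := by linarith
  have hE0 : 0 < E := by linarith
  have hM0 : 0 < M := by linarith
  have hnn : 0 ≤ 1 + E * G / √M := by positivity
  have hF0 : ∀ w ∈ P, F w ≠ 0 := by
    intro w hw h0
    have := (hc w hw).1
    rw [h0, mul_zero] at this
    exact (hb w hw).2.1 this
  have hc0 : ∀ w ∈ P, c w ≠ 0 := by
    intro w hw h0
    have := (hc w hw).1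
    rw [h0] at this
    exact (hb w hw).2.1 (by rw [this]; simp)
  -- number of odd parts
  have hnF : ((P.image F).card : ℝ) ≤ 2 * (C2 * Z ^ (ε / 2) * RF) := by
    have h1 : P.image F ⊆ ((P.image F).image Int.natAbs).image (fun n : ℕ => (n : ℤ)) ∪
        ((P.image F).image Int.natAbs).image (fun n : ℕ => -(n : ℤ)) := by
      intro v hv
      rw [mem_union, mem_image, mem_image]
      rcases Int.natAbs_eq v with h2 | h2
      · exact Or.inl ⟨v.natAbs, mem_image_of_mem _ hv, h2.symm⟩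
      · exact Or.inr ⟨v.natAbs, mem_image_of_mem _ hv, h2.symm⟩
    have h2 : (((P.image F).image Int.natAbs).card : ℝ) ≤ C2 * Z ^ (ε / 2) * RF := by
      apply hrad Z RF _ hZ hRF
      intro n hn
      obtain ⟨v, hv, rfl⟩ := mem_image.mp hn
      obtain ⟨w, hw, rfl⟩ := mem_image.mp hv
      refine ⟨Nat.one_le_iff_ne_zero.mpr (Int.natAbs_ne_zero.mpr (hF0 w hw)), ?_, (hc w hw).2.1⟩
      have h3 : (F w).natAbs ∣ w.2.natAbs := by
        rw [Int.natAbs_dvd_natAbs, (hc w hw).1]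
        exact Dvd.intro_left _ rfl
      have h4 : (F w).natAbs ≤ w.2.natAbs := Nat.le_of_dvd (Int.natAbs_pos.mpr (hb w hw).2.1) h3
      exact le_trans (by exact_mod_cast h4) (hb w hw).2.2.2.2.2.2.1
    have h3 := (card_le_card h1).trans (card_union_le _ _)
    have h4 : (P.image F).card ≤ ((P.image F).image Int.natAbs).card + ((P.image F).image Int.natAbs).card :=
      h3.trans (add_le_add card_image_le card_image_le)
    have h5 : ((P.image F).card : ℝ) ≤ (((P.image F).image Int.natAbs).card : ℝ) +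
        (((P.image F).image Int.natAbs).card : ℝ) := by exact_mod_cast h4
    linarith
  have hfil : ∀ F0 ∈ P.image F, ((P.filter (fun w => F w = F0)).card : ℝ) ≤
      C1 * Z ^ (ε / 2) * RA * (1 + E * G / √M) := by
    intro F0 hF
    obtain ⟨w1, hw1, hF1⟩ := mem_image.mp hF
    obtain ⟨D, f, hD, hf, hDf⟩ := exists_sqfree F0 (by rw [← hF1]; exact hF0 w1 hw1)
    have hA0 : ∀ w ∈ P, A w ≠ 0 := by
      intro w hw h0
      have := (hA w hw).1
      rw [h0, zero_mul, Int.natAbs_eq_zero] at this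
      exact (hb w hw).1 this
    have hdec : ∀ w : ℤ × ℤ, ∃ p : ℕ × ℕ, w ∈ P → (Odd p.2 ∧ A w = 2 ^ p.1 * p.2) := by
      intro w
      by_cases hw : w ∈ P
      · obtain ⟨k, m, hm, hk⟩ := Nat.exists_eq_two_pow_mul_odd (hA0 w hw)
        exact ⟨(k, m), fun _ => ⟨hm, hk⟩⟩
      · exact ⟨(0, 0), fun h' => absurd h' hw⟩
    choose p hp using hdec
    have hyq : ∀ w ∈ P, F w = F0 → w.2 = ((c w * f : ℕ) : ℤ) ^ 2 * D := by
      intro w hw hFw
      rw [(hc w hw).1, hFw, hDf]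
      push_cast
      ring
    apply hfb (Z := Z) (RA := RA) (E := E) (G := G) (M := M) (D := D) (f := f) (e := fun w => (p w).1)
      (A := fun w => (p w).2) (t := t) (c := c) _ hRA
    have hm : ∀ w ∈ P.filter (fun w => F w = F0), w ∈ P ∧ F w = F0 := fun w hw => mem_filter.mp hw
    exact {
      hZ := hZ
      hE := hE
      hM := hM
      hG := hG
      hD := hD
      hD1 := by
        intro h1
        have h2 := hyq w1 hw1 hF1
        rw [h1, mul_one] at h2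
        exact (hb w1 hw1).2.2.2.2.1 ⟨((c w1 * f : ℕ) : ℤ), by rw [h2]; ring⟩
      hf := hf
      nz1 := fun w hw => (hb w (hm w hw).1).1
      cop := fun w hw => (hb w (hm w hw).1).2.2.1
      sq := fun w hw => (hb w (hm w hw).1).2.2.2.1
      x_eq := fun w hw => by
        rw [(hA w (hm w hw).1).1, (hp w (hm w hw).1).2]
      y_eq := fun w hw => hyq w (hm w hw).1 (hm w hw).2
      c1 := fun w hw => Nat.one_le_iff_ne_zero.mpr (hc0 w (hm w hw).1)
      cG := fun w hw => (hc w (hm w hw).1).2.2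
      oA := fun w hw => (hp w (hm w hw).1).1
      ot := fun w hw => (hA w (hm w hw).1).2.2.2.1
      At := fun w hw => by
        have h1 := (hA w (hm w hw).1).2.1
        rw [(hp w (hm w hw).1).2] at h1
        exact Nat.Coprime.coprime_dvd_left (Dvd.intro_left _ rfl) h1
      radA := fun w hw => by
        have h1 : rd (p w).2 ≤ rd (A w) := by
          apply rd_mono' (hA0 w (hm w hw).1)
          intro q _ hq2
          rw [(hp w (hm w hw).1).2]
          exact hq2.mul_left _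
        exact le_trans (by exact_mod_cast h1) (hA w (hm w hw).1).2.2.2.2.1
      t_lo := fun w hw => (hA w (hm w hw).1).2.2.2.2.2.1
      t_hi := fun w hw => (hA w (hm w hw).1).2.2.2.2.2.2
      zx := fun w hw => (hb w (hm w hw).1).2.2.2.2.2.1
      zy := fun w hw => (hb w (hm w hw).1).2.2.2.2.2.2.1
      mx := fun w hw => (hb w (hm w hw).1).2.2.2.2.2.2.2 }
  have hcard : (P.card : ℝ) ≤ ((P.image F).card : ℝ) * (C1 * Z ^ (ε / 2) * RA * (1 + E * G / √M)) := by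
    rw [card_eq_sum_card_image F P]
    push_cast
    calc ∑ k ∈ P.image F, ((P.filter (fun w => F w = k)).card : ℝ)
        ≤ ∑ k ∈ P.image F, C1 * Z ^ (ε / 2) * RA * (1 + E * G / √M) := sum_le_sum hfil
      _ = _ := by rw [sum_const, nsmul_eq_mul]
  have hzz : Z ^ (ε / 2) * Z ^ (ε / 2) = Z ^ ε := by
    rw [← Real.rpow_add hZ0]; congr 1; ring
  calc (P.card : ℝ) ≤ ((P.image F).card : ℝ) * (C1 * Z ^ (ε / 2) * RA * (1 + E * G / √M)) := hcard
    _ ≤ (2 * (C2 * Z ^ (ε / 2) * RF)) * (C1 * Z ^ (ε / 2) * RA * (1 + E * G / √M)) :=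
      mul_le_mul_of_nonneg_right hnF (by positivity)
    _ = 2 * C2 * C1 * (Z ^ (ε / 2) * Z ^ (ε / 2)) * RA * RF * (1 + E * G / √M) := by ring
    _ = _ := by rw [hzz]

end Hp

end Pool.Agent.Lib.MP_d8bd92_nt
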