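import Pool.Agent.Lib.MP_d8bd92_nt.Hp.SfOf
import Pool.Agent.Lib.MP_d8bd92_nt.Hp.SC
import Pool.Agent.Lib.MP_d8bd92_nt.Hp.FewSmall2

set_option autoImplicit false

/-! The tool (S), final form. -/

namespace Pool.Agent.Lib.MP_d8bd92_nt

namespace Hp

open Finset Pool.Agent.Lib.Szpiro

theorem few_S (K ε0 η : ℝ) (hK : 2 ≤ K) (he0 : -(3 / 2) < ε0) (hη : 0 < η) : Few K ε0 (fun Y w =>
    ∃ (a t c : ℕ) (F : ℤ), w.1.natAbs = a * t ∧ Nat.Coprime a t ∧ Squarefree t ∧ Odd t ∧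
      w.2 = (c : ℤ) ^ 2 * F ∧ IsCoprime (c : ℤ) F ∧ Y ^ (1 / 4 + η) ≤ (t : ℝ) * rd c) :=
  few_S_of K ε0 η hK he0 hη S_count (fun c hc => few_small2 K ε0 c hK he0 hc)
    (few_swap K ε0 (fun _ w => IsSquare w.1) (few_square_g K ε0 hK))

end Hp

end Pool.Agent.Lib.MP_d8bd92_nt
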