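import Mathlib

set_option autoImplicit false

/-!
MP_d8bd92_nt, phase 2, row PC1.
-/

namespace Pool.Agent.Lib.MP_d8bd92_nt

namespace Hp

open Finset

/-- Row PC1.  Fix `x0 ∈ R`.  `φ x = gcd (x - x0) q` is a divisor of `q`; for `d = φ x` the number `q / d` divides `x + x0`
(as `q ∣ (x - x0) (x + x0)`), `n = gcd d (q / d)` has `n * n ∣ q`, `n ∣ x - x0`, `n ∣ x + x0`, so `n ≤ 2`.  Two elements of the
same fibre differ by a multiple of `lcm d (q / d) = q / n`, so a fibre has at most `n ≤ 2` elements. -/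
theorem roots_le (q : ℕ) (hq : 0 < q) (R : Finset ℤ) (h0 : ∀ x ∈ R, 0 ≤ x ∧ x < q)
    (h1 : ∀ x ∈ R, ∀ x' ∈ R, (q : ℤ) ∣ (x - x') * (x + x'))
    (h2 : ∀ x ∈ R, ∀ x' ∈ R, ∀ n : ℕ, n * n ∣ q → (n : ℤ) ∣ x - x' → (n : ℤ) ∣ x + x' → n ≤ 2) :
    R.card ≤ 2 * q.divisors.card := by
  classical
  rcases R.eq_empty_or_nonempty with hR | ⟨x0, hx0⟩
  · subst hR; simp
  have key : ∀ x ∈ R, ∀ d e : ℕ, Int.gcd (x - x0) q = d → q = d * e → ((d : ℤ) ∣ x - x0) ∧ ((e : ℤ) ∣ x + x0) := by
    intro x hx d e hd hqe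
    have hd0 : 0 < d := by
      rcases Nat.eq_zero_or_pos d with h | h
      · subst h; simp at hqe; omega
      · exact h
    have hdx : (d : ℤ) ∣ x - x0 := by rw [← hd]; exact Int.gcd_dvd_left _ _
    refine ⟨hdx, ?_⟩
    obtain ⟨u, hu⟩ := hdx
    have hdz : (d : ℤ) ≠ 0 := by exact_mod_cast hd0.ne'
    have hcop : IsCoprime (e : ℤ) u := by
      rw [Int.isCoprime_iff_gcd_eq_one]
      have h3 : Int.gcd ((d : ℤ) * u) ((d : ℤ) * e) = d := by
        have h33 : (d : ℤ) * (e : ℤ) = (q : ℤ) := by rw [hqe]; push_cast; rfl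
        rw [← hu, h33]; exact hd
      rw [Int.gcd_mul_left] at h3
      simp only [Int.natAbs_natCast] at h3
      have h4 : Int.gcd u (e : ℤ) = 1 := by
        have : d * Int.gcd u (e : ℤ) = d * 1 := by rw [h3, mul_one]
        exact Nat.eq_of_mul_eq_mul_left hd0 this
      rw [Int.gcd_comm]; exact h4
    have h5 := h1 x hx x0 hx0
    rw [hu, hqe] at h5
    push_cast at h5
    rw [mul_assoc] at h5
    have h6 : (e : ℤ) ∣ u * (x + x0) := (mul_dvd_mul_iff_left hdz).1 h5
    exact hcop.dvd_of_dvd_mul_left h6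
  refine Finset.card_le_mul_card_image_of_maps_to (f := fun x => Int.gcd (x - x0) q) (t := q.divisors) ?_ 2 ?_
  · intro x _
    rw [Nat.mem_divisors]
    refine ⟨?_, hq.ne'⟩
    have := Int.gcd_dvd_right (x - x0) (q : ℤ)
    exact_mod_cast this
  · intro d hd
    rw [Nat.mem_divisors] at hd
    obtain ⟨⟨e, hqe⟩, -⟩ := hd
    rcases (R.filter (fun x => Int.gcd (x - x0) q = d)).eq_empty_or_nonempty with hE | ⟨x1, hx1⟩
    · rw [hE]; simp
    rw [Finset.mem_filter] at hx1
    obtain ⟨hx1R, hx1d⟩ := hx1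
    have hk1 := key x1 hx1R d e hx1d hqe
    set n := Nat.gcd d e with hn
    have hd0 : 0 < d := Nat.pos_of_ne_zero (by rintro rfl; simp at hqe; omega)
    have he0 : 0 < e := Nat.pos_of_ne_zero (by rintro rfl; simp at hqe; omega)
    have hn0 : 0 < n := Nat.gcd_pos_of_pos_left _ hd0
    have hnn : n * n ∣ q := by rw [hqe]; exact mul_dvd_mul (Nat.gcd_dvd_left _ _) (Nat.gcd_dvd_right _ _)
    have hn2 : n ≤ 2 := by
      refine h2 x1 hx1R x0 hx0 n hnn ?_ ?_
      · exact dvd_trans (by exact_mod_cast Nat.gcd_dvd_left d e) hk1.1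
      · exact dvd_trans (by exact_mod_cast Nat.gcd_dvd_right d e) hk1.2
    set m := Nat.lcm d e with hm
    have hmn : n * m = q := by rw [hn, hm, Nat.gcd_mul_lcm, hqe]
    have hm0 : 0 < m := Nat.pos_of_ne_zero (by intro h; rw [h] at hmn; simp at hmn; omega)
    have hcong : ∀ x ∈ R.filter (fun x => Int.gcd (x - x0) q = d), ∀ y ∈ R.filter (fun x => Int.gcd (x - x0) q = d),
        (m : ℤ) ∣ x - y := by
      intro x hx y hy
      rw [Finset.mem_filter] at hx hy
      have a := key x hx.1 d e hx.2 hqe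
      have b := key y hy.1 d e hy.2 hqe
      have h7 : (d : ℤ) ∣ x - y := by
        have := dvd_sub a.1 b.1
        simpa using this
      have h8 : (e : ℤ) ∣ x - y := by
        have := dvd_sub a.2 b.2
        simpa using this
      have h9 : d ∣ (x - y).natAbs := Int.natCast_dvd.1 h7
      have h10 : e ∣ (x - y).natAbs := Int.natCast_dvd.1 h8
      exact Int.natCast_dvd.2 (Nat.lcm_dvd h9 h10)
    have hinj : Set.InjOn (fun x : ℤ => x / (m : ℤ)) (R.filter (fun x => Int.gcd (x - x0) q = d)) := by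
      intro x hx y hy hxy
      have hc := hcong x hx y hy
      have hmz : (0 : ℤ) < m := by exact_mod_cast hm0
      have h11 : x % (m : ℤ) = y % (m : ℤ) := Int.emod_eq_emod_iff_emod_sub_eq_zero.2 (Int.emod_eq_zero_of_dvd hc)
      have h12 := Int.emod_add_mul_ediv x m
      have h13 := Int.emod_add_mul_ediv y m
      simp only at hxy
      rw [← h12, ← h13, h11, hxy]
    have hmaps : ∀ x ∈ R.filter (fun x => Int.gcd (x - x0) q = d), (fun x : ℤ => x / (m : ℤ)) x ∈ ({0, 1} : Finset ℤ) := by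
      intro x hx
      rw [Finset.mem_filter] at hx
      have h14 := h0 x hx.1
      have hmz : (0 : ℤ) < m := by exact_mod_cast hm0
      have h15 : 0 ≤ x / (m : ℤ) := Int.ediv_nonneg h14.1 hmz.le
      have h16 : x / (m : ℤ) < 2 := by
        rw [Int.ediv_lt_iff_lt_mul hmz]
        have : (q : ℤ) = n * m := by exact_mod_cast hmn.symm
        have h17 : (n : ℤ) ≤ 2 := by exact_mod_cast hn2
        nlinarith [h14.2]
      simp only [Finset.mem_insert, Finset.mem_singleton]
      omega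
    calc (R.filter (fun x => Int.gcd (x - x0) q = d)).card ≤ ({0, 1} : Finset ℤ).card :=
          Finset.card_le_card_of_injOn _ hmaps hinj
      _ ≤ 2 := by decide

end Hp

end Pool.Agent.Lib.MP_d8bd92_nt
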