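import Pool.Agent.Lib.MP_d8bd92_nt.Hp.PC1

set_option autoImplicit false

/-!
MP_d8bd92_nt, phase 2, row PC3.
-/

namespace Pool.Agent.Lib.MP_d8bd92_nt

namespace Hp

open Finset

/-- Row PC3.  The residues `x mod y ^ 2` are at most `2 τ (y ^ 2)` by `roots_le` (h2: `n ∣ 2 x`, `n ^ 2 ∣ y ^ 2`, `x` prime to `y`, so
`n ∣ 2`).  All `x` lie in an interval of length at most `√2 * √Z * y ≤ 2 √Z y`: with `B = Z y ^ 2`, `M - B ≤ x ^ 2 ≤ M + B`,
`√(M + B) - √(max 0 (M - B)) ≤ √(2 B)`; equivalently for `x ≤ x'` in `S`: `(x' - x) ^ 2 ≤ x' ^ 2 - x ^ 2 ≤ 2 B`.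
One residue class mod `y ^ 2` contains at most `2 √Z y / y ^ 2 + 1` of them. -/
theorem int_roots (y : ℕ) (hy : 1 ≤ y) (M : ℤ) (Z : ℝ) (hZ : 1 ≤ Z) (S : Finset ℤ)
    (h : ∀ x ∈ S, 0 ≤ x ∧ IsCoprime x (y : ℤ) ∧ ((y : ℤ) ^ 2) ∣ x ^ 2 - M ∧ ((|x ^ 2 - M| : ℤ) : ℝ) ≤ Z * (y : ℝ) ^ 2) :
    (S.card : ℝ) ≤ 2 * ((y ^ 2).divisors.card : ℝ) * (2 * √Z / y + 1) := by
  classical
  have hq : 0 < y ^ 2 := by positivity
  have hqz : (0 : ℤ) < ((y ^ 2 : ℕ) : ℤ) := by exact_mod_cast hq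
  have hyr : (0 : ℝ) < (y : ℝ) := by exact_mod_cast hy
  have hcast : ((y ^ 2 : ℕ) : ℤ) = (y : ℤ) ^ 2 := by push_cast; rfl
  -- the residues
  have hR : (S.image (fun x => x % ((y ^ 2 : ℕ) : ℤ))).card ≤ 2 * (y ^ 2).divisors.card := by
    refine roots_le (y ^ 2) hq _ ?_ ?_ ?_
    · intro x hx
      obtain ⟨z, -, rfl⟩ := Finset.mem_image.1 hx
      exact ⟨Int.emod_nonneg _ hqz.ne', Int.emod_lt_of_pos _ hqz⟩
    · intro x hx x' hx'
      obtain ⟨z, hz, rfl⟩ := Finset.mem_image.1 hx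
      obtain ⟨z', hz', rfl⟩ := Finset.mem_image.1 hx'
      have e1 := (h z hz).2.2.1
      have e2 := (h z' hz').2.2.1
      rw [← hcast] at e1 e2
      have e3 : ((y ^ 2 : ℕ) : ℤ) ∣ z ^ 2 - z' ^ 2 := by
        have := dvd_sub e1 e2
        have e : z ^ 2 - M - (z' ^ 2 - M) = z ^ 2 - z' ^ 2 := by ring
        rwa [e] at this
      have m1 : z % ((y ^ 2 : ℕ) : ℤ) ≡ z [ZMOD ((y ^ 2 : ℕ) : ℤ)] := Int.mod_modEq _ _
      have m2 : z' % ((y ^ 2 : ℕ) : ℤ) ≡ z' [ZMOD ((y ^ 2 : ℕ) : ℤ)] := Int.mod_modEq _ _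
      have m3 : (z % ((y ^ 2 : ℕ) : ℤ) - z' % ((y ^ 2 : ℕ) : ℤ)) * (z % ((y ^ 2 : ℕ) : ℤ) + z' % ((y ^ 2 : ℕ) : ℤ))
          ≡ (z - z') * (z + z') [ZMOD ((y ^ 2 : ℕ) : ℤ)] := (m1.sub m2).mul (m1.add m2)
      have m4 : (z - z') * (z + z') ≡ 0 [ZMOD ((y ^ 2 : ℕ) : ℤ)] := by
        refine (Int.modEq_zero_iff_dvd).2 ?_
        have e : (z - z') * (z + z') = z ^ 2 - z' ^ 2 := by ring
        rw [e]; exact e3
      exact Int.modEq_zero_iff_dvd.1 (m3.trans m4)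
    · intro x hx x' hx' n hn hd1 hd2
      obtain ⟨z, hz, rfl⟩ := Finset.mem_image.1 hx
      have hcop := (h z hz).2.1
      have hny : n ∣ y := by
        have : n ^ 2 ∣ y ^ 2 := by rw [sq n]; exact hn
        exact (Nat.pow_dvd_pow_iff (by norm_num)).1 this
      have hnyz : (n : ℤ) ∣ (y : ℤ) := by exact_mod_cast hny
      have hnq : (n : ℤ) ∣ ((y ^ 2 : ℕ) : ℤ) := by
        rw [hcast, sq]; exact Dvd.dvd.mul_right hnyz _
      have h2x : (n : ℤ) ∣ 2 * (z % ((y ^ 2 : ℕ) : ℤ)) := by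
        have := dvd_add hd1 hd2
        have e : (fun x => x % ((y ^ 2 : ℕ) : ℤ)) z - x' + ((fun x => x % ((y ^ 2 : ℕ) : ℤ)) z + x')
            = 2 * (z % ((y ^ 2 : ℕ) : ℤ)) := by ring
        rwa [e] at this
      have h2z : (n : ℤ) ∣ 2 * z := by
        have e : 2 * z = 2 * (z % ((y ^ 2 : ℕ) : ℤ)) + ((y ^ 2 : ℕ) : ℤ) * (2 * (z / ((y ^ 2 : ℕ) : ℤ))) := by
          have := Int.emod_add_mul_ediv z ((y ^ 2 : ℕ) : ℤ)
          linear_combination -2 * this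
        rw [e]
        exact dvd_add h2x (Dvd.dvd.mul_right hnq _)
      have hc2 : IsCoprime (n : ℤ) z := (hcop.of_isCoprime_of_dvd_right hnyz).symm
      have h2 : (n : ℤ) ∣ 2 := hc2.dvd_of_dvd_mul_right h2z
      exact_mod_cast Int.le_of_dvd (by norm_num) h2
  -- the fibres
  have hF : S.card ≤ (⌊2 * √Z / y⌋₊ + 1) * (S.image (fun x => x % ((y ^ 2 : ℕ) : ℤ))).card := by
    refine Finset.card_le_mul_card_image S _ ?_
    intro a ha
    obtain ⟨w, hw, hwa⟩ := Finset.mem_image.1 ha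
    set T : Finset ℤ := S.filter (fun x => x % ((y ^ 2 : ℕ) : ℤ) = a) with hT
    have hTne : T.Nonempty := ⟨w, by rw [hT, Finset.mem_filter]; exact ⟨hw, hwa⟩⟩
    have hx0 := Finset.min'_mem T hTne
    set x0 := T.min' hTne with hx0d
    have hx0S : x0 ∈ S := (Finset.mem_filter.1 hx0).1
    have hx0a : x0 % ((y ^ 2 : ℕ) : ℤ) = a := (Finset.mem_filter.1 hx0).2
    have hk : ∀ x ∈ T, ∃ k : ℕ, x = x0 + ((y ^ 2 : ℕ) : ℤ) * k ∧ k < ⌊2 * √Z / y⌋₊ + 1 := by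
      intro x hx
      have hxS : x ∈ S := (Finset.mem_filter.1 hx).1
      have hxa : x % ((y ^ 2 : ℕ) : ℤ) = a := (Finset.mem_filter.1 hx).2
      have hle : x0 ≤ x := Finset.min'_le T x hx
      have hd : ((y ^ 2 : ℕ) : ℤ) ∣ x - x0 := by
        have : x0 ≡ x [ZMOD ((y ^ 2 : ℕ) : ℤ)] := by
          show x0 % _ = x % _
          rw [hx0a, hxa]
        exact this.dvd
      obtain ⟨k, hk⟩ := hd
      have hk0 : 0 ≤ k := by
        by_contra hneg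
        push Not at hneg
        have : ((y ^ 2 : ℕ) : ℤ) * k < 0 := mul_neg_of_pos_of_neg hqz hneg
        linarith
      lift k to ℕ using hk0
      refine ⟨k, by linarith, Nat.lt_succ_of_le (Nat.le_floor ?_)⟩
      -- size
      have b1 := (h x hxS).2.2.2
      have b0 := (h x0 hx0S).2.2.2
      have p1 := (h x hxS).1
      have p0 := (h x0 hx0S).1
      have c1 : (x : ℝ) ^ 2 - M ≤ Z * (y : ℝ) ^ 2 := by
        have := le_abs_self (x ^ 2 - M)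
        have t : ((x ^ 2 - M : ℤ) : ℝ) ≤ ((|x ^ 2 - M| : ℤ) : ℝ) := by exact_mod_cast this
        push_cast at t
        push_cast at b1
        linarith
      have c0 : -(Z * (y : ℝ) ^ 2) ≤ (x0 : ℝ) ^ 2 - M := by
        have := neg_abs_le (x0 ^ 2 - M)
        have t : ((-|x0 ^ 2 - M| : ℤ) : ℝ) ≤ ((x0 ^ 2 - M : ℤ) : ℝ) := by exact_mod_cast this
        push_cast at t
        push_cast at b0
        linarith
      have hxr : (x : ℝ) = x0 + (y : ℝ) ^ 2 * k := by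
        have e : x = x0 + ((y ^ 2 : ℕ) : ℤ) * k := by linarith
        rw [e]; push_cast; ring
      have p0r : (0 : ℝ) ≤ (x0 : ℝ) := by exact_mod_cast p0
      have kr : (0 : ℝ) ≤ (k : ℝ) := Nat.cast_nonneg _
      have hsq : ((y : ℝ) ^ 2 * k) ^ 2 ≤ 2 * (Z * (y : ℝ) ^ 2) := by
        have : ((y : ℝ) ^ 2 * k) ^ 2 ≤ (x : ℝ) ^ 2 - (x0 : ℝ) ^ 2 := by
          rw [hxr]
          have t : 0 ≤ (x0 : ℝ) * ((y : ℝ) ^ 2 * k) := by positivity
          nlinarith [t]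
        linarith
      have hZ0 : (0 : ℝ) ≤ Z := by linarith
      have hs : √Z ^ 2 = Z := Real.sq_sqrt hZ0
      have hyk : (y : ℝ) * k ≤ 2 * √Z := by
        have t1 : ((y : ℝ) * k) ^ 2 ≤ (2 * √Z) ^ 2 := by
          have e1 : ((y : ℝ) ^ 2 * k) ^ 2 = (y : ℝ) ^ 2 * ((y : ℝ) * k) ^ 2 := by ring
          have e2 : 2 * (Z * (y : ℝ) ^ 2) = (y : ℝ) ^ 2 * (2 * Z) := by ring
          rw [e1, e2] at hsq
          have t2 := le_of_mul_le_mul_left hsq (by positivity)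
          rw [mul_pow 2, hs]
          linarith
        have t3 : 0 ≤ 2 * √Z := by positivity
        exact (sq_le_sq₀ (by positivity) t3).1 t1
      rw [le_div_iff₀ hyr]
      linarith
    choose! g hg using hk
    calc T.card ≤ (Finset.range (⌊2 * √Z / y⌋₊ + 1)).card := by
          refine Finset.card_le_card_of_injOn g ?_ ?_
          · intro x hx
            rw [Finset.coe_range, Set.mem_Iio]
            exact (hg x hx).2
          · intro x hx x' hx' he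
            rw [(hg x hx).1, (hg x' hx').1, he]
      _ = ⌊2 * √Z / y⌋₊ + 1 := Finset.card_range _
  have hfl : ((⌊2 * √Z / y⌋₊ : ℕ) : ℝ) ≤ 2 * √Z / y := Nat.floor_le (by positivity)
  calc (S.card : ℝ) ≤ (((⌊2 * √Z / y⌋₊ + 1) * (S.image (fun x => x % ((y ^ 2 : ℕ) : ℤ))).card : ℕ) : ℝ) := by
        exact_mod_cast hF
    _ = ((⌊2 * √Z / y⌋₊ : ℕ) + 1 : ℝ) * ((S.image (fun x => x % ((y ^ 2 : ℕ) : ℤ))).card : ℝ) := by push_cast; ring
    _ ≤ (2 * √Z / y + 1) * ((2 * (y ^ 2).divisors.card : ℕ) : ℝ) := by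
        refine mul_le_mul (by linarith) (by exact_mod_cast hR) (Nat.cast_nonneg _) (by positivity)
    _ = 2 * ((y ^ 2).divisors.card : ℝ) * (2 * √Z / y + 1) := by push_cast; ring

end Hp

end Pool.Agent.Lib.MP_d8bd92_nt
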