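import Pool.Agent.Lib.MP_d8bd92_nt.Hp.PC3
import Pool.Agent.Lib.MP_d8bd92_nt.CdA

set_option autoImplicit false

/-!
MP_d8bd92_nt, phase 2, row PC4.
-/

namespace Pool.Agent.Lib.MP_d8bd92_nt

namespace Hp

open Finset

/-- the harmonic sum -/
private theorem PC4_harm (Z Y1 : ℝ) (hZ : 1 ≤ Z) (hY : 1 ≤ Y1) (σ : ℝ) (hσ : 0 < σ) :
    ∑ k ∈ Icc 1 ⌊Y1⌋₊, (2 * √Z / (k : ℝ) + 1) ≤ 2 * (1 + 1 / σ) * Y1 ^ σ * (√Z + Y1) := by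
  have h1 : ∑ k ∈ Icc 1 ⌊Y1⌋₊, (2 * √Z / (k : ℝ) + 1) =
      2 * √Z * (harmonic ⌊Y1⌋₊ : ℝ) + ⌊Y1⌋₊ := by
    rw [Finset.sum_add_distrib, harmonic_eq_sum_Icc]
    push_cast
    rw [Finset.mul_sum]
    simp [div_eq_mul_inv]
  have h2 := harmonic_floor_le_one_add_log Y1 hY
  have h3 : Real.log Y1 ≤ Y1 ^ σ / σ := Real.log_le_rpow_div (by linarith) hσ
  have h4 : 1 ≤ Y1 ^ σ := Real.one_le_rpow hY hσ.le
  have h5 : (⌊Y1⌋₊ : ℝ) ≤ Y1 := Nat.floor_le (by linarith)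
  have hs : 0 ≤ √Z := Real.sqrt_nonneg _
  have h6 : (harmonic ⌊Y1⌋₊ : ℝ) ≤ (1 + 1 / σ) * Y1 ^ σ := by
    calc (harmonic ⌊Y1⌋₊ : ℝ) ≤ 1 + Real.log Y1 := h2
      _ ≤ Y1 ^ σ + Y1 ^ σ / σ := add_le_add h4 h3
      _ = (1 + 1 / σ) * Y1 ^ σ := by ring
  have h7 : 0 ≤ 1 / σ := by positivity
  have h8 : 1 ≤ (1 + 1 / σ) * Y1 ^ σ := by nlinarith [mul_nonneg h7 (by linarith : 0 ≤ Y1 ^ σ)]
  rw [h1]
  calc 2 * √Z * (harmonic ⌊Y1⌋₊ : ℝ) + ⌊Y1⌋₊ ≤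
      2 * √Z * ((1 + 1 / σ) * Y1 ^ σ) + 1 * Y1 := by
        rw [one_mul]
        exact add_le_add (mul_le_mul_of_nonneg_left h6 (by positivity)) h5
    _ ≤ 2 * √Z * ((1 + 1 / σ) * Y1 ^ σ) + (2 * ((1 + 1 / σ) * Y1 ^ σ)) * Y1 := by
        refine add_le_add le_rfl (mul_le_mul_of_nonneg_right ?_ (by linarith))
        linarith
    _ = 2 * (1 + 1 / σ) * Y1 ^ σ * (√Z + Y1) := by ring

/-- one fibre -/
private theorem PC4_fib (A : ℤ) (Z : ℝ) (hZ : 1 ≤ Z) (S : Finset (ℤ × ℤ))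
    (hS : ∀ v ∈ S, 0 ≤ v.1 ∧ 1 ≤ v.2 ∧ v.2 ^ 2 ∣ v.1 ^ 2 - A ∧
      ((|v.1 ^ 2 - A| : ℤ) : ℝ) ≤ Z * (v.2 : ℝ) ^ 2) (g y1 : ℕ) (hg : 1 ≤ g) (hy1 : 1 ≤ y1)
    (hf : ∀ v ∈ S, Int.gcd v.1 v.2 = g ∧ (v.2 / (Int.gcd v.1 v.2 : ℤ)).toNat = y1) :
    (S.card : ℝ) ≤ 2 * ((y1 ^ 2).divisors.card : ℝ) * (2 * √Z / y1 + 1) := by
  classical
  have hg0 : (g : ℤ) ≠ 0 := by exact_mod_cast (by omega : g ≠ 0)
  have hgp : (0 : ℤ) < g := by exact_mod_cast hg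
  -- the coordinates
  have hx : ∀ v ∈ S, v.1 = g * (v.1 / g) := by
    intro v hv
    obtain ⟨h1, -⟩ := hf v hv
    have h2 : (g : ℤ) ∣ v.1 := by
      rw [← h1]
      exact Int.gcd_dvd_left _ _
    exact (Int.mul_ediv_cancel' h2).symm
  have hy : ∀ v ∈ S, v.2 = g * y1 := by
    intro v hv
    obtain ⟨h1, h2⟩ := hf v hv
    have h3 : (g : ℤ) ∣ v.2 := by
      rw [← h1]
      exact Int.gcd_dvd_right _ _
    rw [h1] at h2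
    have h4 : 0 ≤ v.2 / (g : ℤ) := Int.ediv_nonneg (by linarith [(hS v hv).2.1]) hgp.le
    have h5 : ((v.2 / (g : ℤ)).toNat : ℤ) = v.2 / g := Int.toNat_of_nonneg h4
    rw [← h2, h5]
    exact (Int.mul_ediv_cancel' h3).symm
  have hcard : (S.image fun v => v.1 / (g : ℤ)).card = S.card := by
    refine Finset.card_image_of_injOn ?_
    intro v hv w hw hvw
    rw [Finset.mem_coe] at hv hw
    have h1 : v.1 / (g : ℤ) = w.1 / g := hvw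
    refine Prod.ext ?_ ?_
    · rw [hx v hv, hx w hw, h1]
    · rw [hy v hv, hy w hw]
  rw [← hcard]
  refine int_roots y1 hy1 (A / (g : ℤ) ^ 2) Z hZ _ ?_
  intro x hxT
  obtain ⟨v, hv, rfl⟩ := Finset.mem_image.1 hxT
  obtain ⟨s1, s2, s3, s4⟩ := hS v hv
  obtain ⟨f1, f2⟩ := hf v hv
  have e1 := hx v hv
  have e2 := hy v hv
  set x1 : ℤ := v.1 / (g : ℤ) with hx1
  have hgA : (g : ℤ) ^ 2 ∣ A := by
    have h1 : (g : ℤ) ^ 2 ∣ v.1 ^ 2 := ⟨x1 ^ 2, by rw [e1]; ring⟩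
    have h2 : (g : ℤ) ^ 2 ∣ v.1 ^ 2 - A := Dvd.dvd.trans ⟨(y1 : ℤ) ^ 2, by rw [e2]; ring⟩ s3
    have h3 : A = v.1 ^ 2 - (v.1 ^ 2 - A) := by ring
    rw [h3]
    exact dvd_sub h1 h2
  have eA : A = (g : ℤ) ^ 2 * (A / (g : ℤ) ^ 2) := (Int.mul_ediv_cancel' hgA).symm
  set M : ℤ := A / (g : ℤ) ^ 2 with hM
  have e3 : v.1 ^ 2 - A = (g : ℤ) ^ 2 * (x1 ^ 2 - M) := by
    rw [eA, e1]; ring
  refine ⟨Int.ediv_nonneg s1 hgp.le, ?_, ?_, ?_⟩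
  · rw [Int.isCoprime_iff_gcd_eq_one]
    have h1 := Int.gcd_div_gcd_div_gcd (i := v.1) (j := v.2) (by rw [f1]; omega)
    rw [f1] at h1
    have h2 : v.2 / (g : ℤ) = y1 := by
      rw [e2]
      exact Int.mul_ediv_cancel_left _ hg0
    rw [h2] at h1
    exact h1
  · have h1 : (g : ℤ) ^ 2 * (y1 : ℤ) ^ 2 ∣ (g : ℤ) ^ 2 * (x1 ^ 2 - M) := by
      rw [← e3]
      refine Dvd.dvd.trans ?_ s3
      rw [e2]
      exact ⟨1, by ring⟩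
    exact (mul_dvd_mul_iff_left (pow_ne_zero 2 hg0)).1 h1
  · have h1 := s4
    rw [e3, abs_mul, abs_of_nonneg (by positivity : (0 : ℤ) ≤ (g : ℤ) ^ 2), e2] at h1
    push_cast at h1
    have hgr : (0 : ℝ) < (g : ℝ) ^ 2 := by
      have : (0 : ℝ) < g := by exact_mod_cast hgp
      positivity
    have h2 : (g : ℝ) ^ 2 * |(x1 : ℝ) ^ 2 - (M : ℝ)| ≤ (g : ℝ) ^ 2 * (Z * (y1 : ℝ) ^ 2) := by
      calc (g : ℝ) ^ 2 * |(x1 : ℝ) ^ 2 - (M : ℝ)| ≤ Z * ((g : ℝ) * y1) ^ 2 := h1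
        _ = (g : ℝ) ^ 2 * (Z * (y1 : ℝ) ^ 2) := by ring
    have h3 := le_of_mul_le_mul_left h2 hgr
    push_cast
    exact h3

/-- Row PC4.  Pairs `(x, y)`, `x ≥ 0`, `1 ≤ y ≤ Y1`, `y ^ 2 ∣ x ^ 2 - A`, `|x ^ 2 - A| ≤ Z y ^ 2`: with `g = gcd x y`, `x = g x1`,
`y = g y1`: `g ^ 2 ∣ A` (`A` may be negative; so at most `τ |A|` values of `g`), `M = A / g ^ 2`, `y1 ^ 2 ∣ x1 ^ 2 - M`, `|x1 ^ 2 - M| ≤ Z y1 ^ 2`, coprime;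
for each `g` and `y1 ≤ Y1` use `int_roots`; `card_divisors_le_rpow` (CdA.lean) for the divisor functions,
`∑_{y1 ≤ Y1} (2 √Z / y1 + 1) ≤ 2 √Z (1 + log Y1) + Y1`. -/
theorem pairs_count (ε : ℝ) (hε : 0 < ε) : ∃ C : ℝ, 0 < C ∧ ∀ (A : ℤ) (Z Y1 : ℝ), A ≠ 0 → 1 ≤ Z → 1 ≤ Y1 →
    ∀ S : Finset (ℤ × ℤ), (∀ v ∈ S, 0 ≤ v.1 ∧ 1 ≤ v.2 ∧ (v.2 : ℝ) ≤ Y1 ∧ v.2 ^ 2 ∣ v.1 ^ 2 - A ∧
      ((|v.1 ^ 2 - A| : ℤ) : ℝ) ≤ Z * (v.2 : ℝ) ^ 2) →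
    (S.card : ℝ) ≤ C * (((|A| : ℤ) : ℝ) * Y1) ^ ε * (√Z + Y1) := by
  obtain ⟨C1, hC1, hd⟩ := card_divisors_le_rpow (ε / 3) (by positivity)
  have hσ : 0 < ε / 3 := by positivity
  refine ⟨4 * C1 ^ 2 * (1 + 1 / (ε / 3)), by positivity, ?_⟩
  intro A Z Y1 hA hZ hY S hS
  classical
  set n : ℕ := ⌊Y1⌋₊ with hn
  set G : Finset ℕ := A.natAbs.divisors with hG
  set f : ℤ × ℤ → ℕ × ℕ := fun v => (Int.gcd v.1 v.2, (v.2 / (Int.gcd v.1 v.2 : ℤ)).toNat)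
    with hfd
  have hAn : A.natAbs ≠ 0 := Int.natAbs_ne_zero.2 hA
  have hA1 : (1 : ℝ) ≤ ((|A| : ℤ) : ℝ) := by
    exact_mod_cast Int.one_le_abs hA
  have hmap : ∀ v ∈ S, f v ∈ G ×ˢ Icc 1 n := by
    intro v hv
    obtain ⟨s1, s2, s3, s4, s5⟩ := hS v hv
    have hg1 : (Int.gcd v.1 v.2 : ℤ) ∣ v.1 := Int.gcd_dvd_left _ _
    have hg2 : (Int.gcd v.1 v.2 : ℤ) ∣ v.2 := Int.gcd_dvd_right _ _
    have hgp : 0 < Int.gcd v.1 v.2 := Int.gcd_pos_of_ne_zero_right _ (by omega)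
    have hgp' : (0 : ℤ) < (Int.gcd v.1 v.2 : ℤ) := by exact_mod_cast hgp
    have hgA : (Int.gcd v.1 v.2 : ℤ) ∣ A := by
      have h1 : (Int.gcd v.1 v.2 : ℤ) ∣ v.1 ^ 2 := dvd_pow hg1 two_ne_zero
      have h2 : (Int.gcd v.1 v.2 : ℤ) ∣ v.1 ^ 2 - A := (dvd_pow hg2 two_ne_zero).trans s4
      have h3 : A = v.1 ^ 2 - (v.1 ^ 2 - A) := by ring
      rw [h3]
      exact dvd_sub h1 h2
    rw [Finset.mem_product]
    refine ⟨?_, ?_⟩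
    · rw [hG, Nat.mem_divisors]
      exact ⟨Int.natCast_dvd.1 hgA, hAn⟩
    · rw [Finset.mem_Icc]
      have h1 : 1 ≤ v.2 / (Int.gcd v.1 v.2 : ℤ) :=
        Int.le_ediv_of_mul_le hgp' (by rw [one_mul]; exact Int.le_of_dvd (by omega) hg2)
      have h2 : ((v.2 / (Int.gcd v.1 v.2 : ℤ)).toNat : ℤ) = v.2 / (Int.gcd v.1 v.2 : ℤ) :=
        Int.toNat_of_nonneg (by omega)
      change 1 ≤ (v.2 / (Int.gcd v.1 v.2 : ℤ)).toNat ∧ (v.2 / (Int.gcd v.1 v.2 : ℤ)).toNat ≤ n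
      refine ⟨by omega, ?_⟩
      rw [hn]
      refine Nat.le_floor ?_
      have h3 : ((v.2 / (Int.gcd v.1 v.2 : ℤ)).toNat : ℤ) ≤ v.2 := by
        rw [h2]
        exact Int.ediv_le_self _ (by omega)
      have h4 : (((v.2 / (Int.gcd v.1 v.2 : ℤ)).toNat : ℤ) : ℝ) ≤ (v.2 : ℝ) := by
        exact_mod_cast h3
      calc (((v.2 / (Int.gcd v.1 v.2 : ℤ)).toNat : ℕ) : ℝ) =
          (((v.2 / (Int.gcd v.1 v.2 : ℤ)).toNat : ℤ) : ℝ) := by push_cast; rfl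
        _ ≤ (v.2 : ℝ) := h4
        _ ≤ Y1 := s3
  have hcard : S.card = ∑ p ∈ G ×ˢ Icc 1 n, (S.filter fun v => f v = p).card :=
    Finset.card_eq_sum_card_fiberwise (f := f) hmap
  have hY0 : 0 ≤ Y1 := by linarith
  have hkey : ∀ p ∈ G ×ˢ Icc 1 n, ((S.filter fun v => f v = p).card : ℝ) ≤
      2 * (C1 * (Y1 ^ 2) ^ (ε / 3)) * (2 * √Z / (p.2 : ℝ) + 1) := by
    rintro ⟨g, y1⟩ hp
    rw [Finset.mem_product, Finset.mem_Icc] at hp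
    obtain ⟨hp1, hp2, hp3⟩ := hp
    have hg : 1 ≤ g := Nat.pos_of_mem_divisors hp1
    have h1 := PC4_fib A Z hZ (S.filter fun v => f v = (g, y1))
      (fun v hv => by
        obtain ⟨hv1, -⟩ := Finset.mem_filter.1 hv
        obtain ⟨s1, s2, s3, s4, s5⟩ := hS v hv1
        exact ⟨s1, s2, s4, s5⟩) g y1 hg hp2
      (fun v hv => by
        obtain ⟨-, hv2⟩ := Finset.mem_filter.1 hv
        exact ⟨congrArg Prod.fst hv2, congrArg Prod.snd hv2⟩)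
    refine h1.trans ?_
    have hy0 : (0 : ℝ) < (y1 : ℝ) := by exact_mod_cast hp2
    have h2 : (((y1 ^ 2).divisors.card : ℕ) : ℝ) ≤ C1 * (Y1 ^ 2) ^ (ε / 3) := by
      have h3 := hd (y1 ^ 2) (by positivity)
      refine h3.trans (mul_le_mul_of_nonneg_left ?_ (by linarith))
      refine Real.rpow_le_rpow (by positivity) ?_ hσ.le
      have h4 : (y1 : ℝ) ≤ Y1 := le_trans (by exact_mod_cast hp3) (Nat.floor_le hY0)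
      push_cast
      exact pow_le_pow_left₀ hy0.le h4 2
    have h5 : 0 ≤ 2 * √Z / (y1 : ℝ) + 1 := by positivity
    exact mul_le_mul_of_nonneg_right (mul_le_mul_of_nonneg_left h2 (by norm_num)) h5
  have hsum : (S.card : ℝ) ≤ (G.card : ℝ) * ((2 * (C1 * (Y1 ^ 2) ^ (ε / 3))) *
      ∑ k ∈ Icc 1 n, (2 * √Z / (k : ℝ) + 1)) := by
    rw [hcard]
    push_cast
    refine (Finset.sum_le_sum hkey).trans (le_of_eq ?_)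
    rw [Finset.sum_product, Finset.mul_sum]
    simp only [Finset.sum_const, nsmul_eq_mul]
  have hG1 : (G.card : ℝ) ≤ C1 * ((|A| : ℤ) : ℝ) ^ (ε / 3) := by
    have h1 := hd A.natAbs hAn
    have h2 : ((A.natAbs : ℕ) : ℝ) = ((|A| : ℤ) : ℝ) := Nat.cast_natAbs A
    rw [h2] at h1
    exact h1
  have hharm := PC4_harm Z Y1 hZ hY (ε / 3) hσ
  have hs : 0 ≤ √Z := Real.sqrt_nonneg _
  have q1 : (Y1 ^ 2) ^ (ε / 3) * Y1 ^ (ε / 3) = Y1 ^ ε := by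
    rw [← Real.rpow_natCast Y1 2, ← Real.rpow_mul hY0, ← Real.rpow_add (by linarith)]
    congr 1
    push_cast
    ring
  have q2 : ((|A| : ℤ) : ℝ) ^ (ε / 3) ≤ ((|A| : ℤ) : ℝ) ^ ε :=
    Real.rpow_le_rpow_of_exponent_le hA1 (by linarith)
  have q3 : 0 ≤ (Y1 ^ 2) ^ (ε / 3) := by positivity
  have q4 : 0 ≤ C1 := by linarith
  calc (S.card : ℝ) ≤ (G.card : ℝ) * ((2 * (C1 * (Y1 ^ 2) ^ (ε / 3))) *
      ∑ k ∈ Icc 1 n, (2 * √Z / (k : ℝ) + 1)) := hsum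
    _ ≤ (C1 * ((|A| : ℤ) : ℝ) ^ (ε / 3)) * ((2 * (C1 * (Y1 ^ 2) ^ (ε / 3))) *
        (2 * (1 + 1 / (ε / 3)) * Y1 ^ (ε / 3) * (√Z + Y1))) := by
        refine mul_le_mul hG1 (mul_le_mul_of_nonneg_left hharm (by positivity)) ?_ (by positivity)
        refine mul_nonneg (by positivity) (Finset.sum_nonneg fun k _ => by positivity)
    _ = 4 * C1 ^ 2 * (1 + 1 / (ε / 3)) * (((|A| : ℤ) : ℝ) ^ (ε / 3) *
        ((Y1 ^ 2) ^ (ε / 3) * Y1 ^ (ε / 3))) * (√Z + Y1) := by ring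
    _ ≤ 4 * C1 ^ 2 * (1 + 1 / (ε / 3)) * (((|A| : ℤ) : ℝ) ^ ε * Y1 ^ ε) * (√Z + Y1) := by
        rw [q1]
        refine mul_le_mul_of_nonneg_right (mul_le_mul_of_nonneg_left
          (mul_le_mul_of_nonneg_right q2 (by positivity)) (by positivity)) (by positivity)
    _ = 4 * C1 ^ 2 * (1 + 1 / (ε / 3)) * (((|A| : ℤ) : ℝ) * Y1) ^ ε * (√Z + Y1) := by
        rw [Real.mul_rpow (by linarith) hY0]

end Hp

end Pool.Agent.Lib.MP_d8bd92_nt
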