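import Pool.Agent.Lib.MP_d8bd92_nt.Hp.Defs

set_option autoImplicit false

/-!
MP_d8bd92_nt, phase 2: codes of the classes of the torsion lemma.
-/

namespace Pool.Agent.Lib.MP_d8bd92_nt

namespace Hp

/-- code `(a, b, x, y)` of a class for the exponent `k` -/
def Code (C D : ℤ) (k : ℕ) (v : ℤ × ℤ × ℤ × ℤ) : Prop :=
  v.1 ≠ 0 ∧ v.1 ^ 2 ≤ 4 * |D| ∧ 0 ≤ v.2.1 ∧ v.2.1 < |v.1| ∧ v.1 ∣ v.2.1 ^ 2 - D ∧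
  v.2.2.1 ^ 2 - D * v.2.2.2 ^ 2 = v.1 ^ k ∧ (v.2.2.1 ^ 2 + |D| * v.2.2.2 ^ 2) ^ 2 ≤ C * |D| ^ k ∧
  (v.2.2.2 = 0 → ∀ p : ℕ, p.Prime → p ≠ 2 → (p : ℤ) ∣ v.1 → (p : ℤ) ∣ D)

end Hp

end Pool.Agent.Lib.MP_d8bd92_nt
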