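import Pool.Agent.Lib.MP_d8bd92_nt.Hp.LK2
import Pool.Agent.Lib.MP_d8bd92_nt.Hp.LK3
import Pool.Agent.Lib.MP_d8bd92_nt.Hp.LJ

set_option autoImplicit false

/-!
MP_d8bd92_nt, phase 2: the lattice lemma from a splitting in classes.
-/

namespace Pool.Agent.Lib.MP_d8bd92_nt

namespace Hp

open Finset

/-- The lattice lemma from a splitting in classes: `g` is the class, in one class `a I_c = e_c J` and the relation is exact. -/
theorem ll_classes (ε : ℝ) (hε : 0 < ε) (L : ℕ) (C0 : ℝ) (hC0 : 1 ≤ C0) : ∃ C : ℝ, 0 < C ∧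
    ∀ (X K : ℝ) (D : ℤ) (f l : ℕ) (E θ : ℝ) (ι : Type) (S : Finset ι) (Ω : ι → ℤ√D) (I : ι → Ideal (ℤ√D))
      (En s : ι → ℕ) (W : Ideal (ℤ√D)) (γ : Type) (_ : DecidableEq γ) (g : ι → γ) (e : ι → ℤ√D), l ≤ L →
      LLG C0 X K D f l E θ S Ω I En s W →
      (∀ c1 ∈ S, ∃ (a : ℤ) (J : Ideal (ℤ√D)), a ≠ 0 ∧ ∀ c ∈ S, g c = g c1 →
        e c ≠ 0 ∧ (e c).norm = a * En c ∧ Ideal.span {(a : ℤ√D)} * I c = Ideal.span {e c} * J) →
      (∀ c ∈ S, ∀ c' ∈ S, g c = g c' → (s c : ℤ√D) * e c ^ l * Ω c' = (s c' : ℤ√D) * e c' ^ l * Ω c) →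
      (S.card : ℝ) ≤ C * X ^ ε * ((S.image g).card : ℝ) * K * (1 + θ * E / ((f : ℝ) * √((|D| : ℤ) : ℝ))) := by
  obtain ⟨C4, hC4, hclass⟩ := class_bound L C0 hC0
  obtain ⟨C5, hC5, hom⟩ := omega_pow ε hε L
  refine ⟨C4 * C5, by positivity, ?_⟩
  intro X K D f l E θ ι S Ω I En s W γ _ g e hlL h hlab hrel
  have hX := h.hX
  have hX0 : 0 < X := by linarith
  have hK := h.hK
  have hE := h.hE
  have hθ := h.hθ
  have hD := h.hD
  have hf := h.hf
  have hf0 : (0 : ℝ) < (f : ℝ) := by exact_mod_cast hf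
  set B : ℝ := 1 + θ * E / ((f : ℝ) * √((|D| : ℤ) : ℝ)) with hBdef
  have hB : 0 < B := by positivity
  have hXe : 0 < X ^ ε := Real.rpow_pos_of_pos hX0 _
  have hone : ∀ v ∈ S.image g, ((S.filter (fun c => g c = v)).card : ℝ) ≤ C4 * K * (C5 * X ^ ε) * B := by
    intro v hv
    obtain ⟨c1, hc1, rfl⟩ := Finset.mem_image.mp hv
    obtain ⟨a, J, ha, hJ⟩ := hlab c1 hc1
    have hsub : S.filter (fun c => g c = g c1) ⊆ S := Finset.filter_subset _ _
    have hcb := hclass X K D f l E θ ι (S.filter (fun c => g c = g c1)) Ω I En s W e a J hlL (h.subset hsub) ha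
      (fun c hc => hJ c (hsub hc) (Finset.mem_filter.mp hc).2)
      (fun c hc c' hc' => hrel c (hsub hc) c' (hsub hc')
        ((Finset.mem_filter.mp hc).2.trans (Finset.mem_filter.mp hc').2.symm))
    have hom1 := hom f l hf hlL
    have hfX : (f : ℝ) ^ ε ≤ X ^ ε := Real.rpow_le_rpow hf0.le h.hfX hε.le
    calc ((S.filter (fun c => g c = g c1)).card : ℝ)
        ≤ C4 * K * (((l + 1) ^ f.primeFactors.card : ℕ) : ℝ) * B := hcb
      _ ≤ C4 * K * (C5 * X ^ ε) * B := by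
          have : (((l + 1) ^ f.primeFactors.card : ℕ) : ℝ) ≤ C5 * X ^ ε :=
            hom1.trans (by gcongr)
          gcongr
  have hmain := lk3_group S g _ hone
  calc (S.card : ℝ) ≤ ((S.image g).card : ℝ) * (C4 * K * (C5 * X ^ ε) * B) := hmain
    _ = C4 * C5 * X ^ ε * ((S.image g).card : ℝ) * K * B := by ring

end Hp

end Pool.Agent.Lib.MP_d8bd92_nt
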