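import Pool.Agent.Lib.MP_d8bd92_nt.Hp.LB3
import Pool.Agent.Lib.MP_d8bd92_nt.Hp.LC3
import Pool.Agent.Lib.MP_d8bd92_nt.Hp.LK4
import Pool.Agent.Lib.MP_d8bd92_nt.Hp.PCDefs

set_option autoImplicit false

/-!
MP_d8bd92_nt, phase 2: one step of the torsion lemma (shortest vector `e`, `e ^ k = β ξ`).
-/

namespace Pool.Agent.Lib.MP_d8bd92_nt

namespace Hp

open Finset

variable {D : ℤ}

theorem pt_span_shift (a b b' : ℤ) (h : a ∣ b - b') :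
    Ideal.span {(a : ℤ√D), (⟨b, 1⟩ : ℤ√D)} = Ideal.span {(a : ℤ√D), (⟨b', 1⟩ : ℤ√D)} := by
  obtain ⟨m, hm⟩ := h
  have h1 : (⟨b, 1⟩ : ℤ√D) = (⟨b', 1⟩ : ℤ√D) + (m : ℤ√D) * (a : ℤ√D) := by
    ext
    · simp only [Zsqrtd.re_add, Zsqrtd.re_mul, Zsqrtd.re_intCast, Zsqrtd.im_intCast]
      linear_combination hm
    · simp
  apply le_antisymm
  · rw [Ideal.span_le]
    rintro x (rfl | rfl)
    · exact Ideal.subset_span (by simp)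
    · rw [h1]
      exact Ideal.add_mem _ (Ideal.subset_span (by simp)) (Ideal.mul_mem_left _ _ (Ideal.subset_span (by simp)))
  · rw [Ideal.span_le]
    rintro x (rfl | rfl)
    · exact Ideal.subset_span (by simp)
    · have h2 : (⟨b', 1⟩ : ℤ√D) = (⟨b, 1⟩ : ℤ√D) - (m : ℤ√D) * (a : ℤ√D) := by
        rw [h1]; ring
      rw [h2]
      exact Ideal.sub_mem _ (Ideal.subset_span (by simp)) (Ideal.mul_mem_left _ _ (Ideal.subset_span (by simp)))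

/-- `(b + √D) ^ (j + 1) = (2 b) ^ j (b + √D)` mod `p`, if `p ∣ b ^ 2 - D` -/
theorem pt_pow_mod_p {b p : ℤ} (h : p ∣ b ^ 2 - D) (j : ℕ) :
    ∃ z : ℤ√D, (⟨b, 1⟩ : ℤ√D) ^ (j + 1) = (((2 * b) ^ j : ℤ) : ℤ√D) * (⟨b, 1⟩ : ℤ√D) + (p : ℤ√D) * z := by
  obtain ⟨m, hm⟩ := h
  have hsq : (⟨b, 1⟩ : ℤ√D) * (⟨b, 1⟩ : ℤ√D) = ((2 * b : ℤ) : ℤ√D) * (⟨b, 1⟩ : ℤ√D) - (p : ℤ√D) * (m : ℤ√D) := by
    ext
    · simp only [Zsqrtd.re_sub, Zsqrtd.re_mul, Zsqrtd.re_intCast, Zsqrtd.im_intCast]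
      linear_combination -hm
    · simp only [Zsqrtd.im_sub, Zsqrtd.im_mul, Zsqrtd.re_intCast, Zsqrtd.im_intCast]
      ring
  induction j with
  | zero => exact ⟨0, by simp⟩
  | succ j ih =>
    obtain ⟨z, hz⟩ := ih
    refine ⟨z * (⟨b, 1⟩ : ℤ√D) - (((2 * b) ^ j : ℤ) : ℤ√D) * (m : ℤ√D), ?_⟩
    have e1 : (((2 * b) ^ (j + 1) : ℤ) : ℤ√D) = (((2 * b) ^ j : ℤ) : ℤ√D) * ((2 * b : ℤ) : ℤ√D) := by
      rw [pow_succ, Int.cast_mul]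
    calc (⟨b, 1⟩ : ℤ√D) ^ (j + 1 + 1) = (⟨b, 1⟩ : ℤ√D) ^ (j + 1) * (⟨b, 1⟩ : ℤ√D) := pow_succ _ _
      _ = (((2 * b) ^ j : ℤ) : ℤ√D) * ((⟨b, 1⟩ : ℤ√D) * (⟨b, 1⟩ : ℤ√D)) + (p : ℤ√D) * (z * (⟨b, 1⟩ : ℤ√D)) := by
          rw [hz]; ring
      _ = _ := by rw [hsq, e1]; ring

/-- one step: `e` a shortest vector of `A`, `e ^ k = β ξ` -/
theorem tstep (hD : ∀ n : ℤ, D ≠ n * n) {A : Ideal (ℤ√D)} {N k : ℕ} (hk : 1 ≤ k) (hA : HN A N)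
    {β : ℤ√D} (hβ : Ideal.span {β} = A ^ k) (hpos : 0 < β.norm) {C1 : ℤ} (hC1 : 0 ≤ C1) (hbal : hh β ≤ C1 * β.norm) :
    ∃ (e : ℤ√D) (v : ℤ × ℤ × ℤ × ℤ), Code (16 ^ k * C1 ^ 2) D k v ∧ e ≠ 0 ∧ e.norm = v.1 * N ∧
      Ideal.span {(v.1 : ℤ√D)} * A = Ideal.span {e} * Ideal.span {(v.1 : ℤ√D), (⟨v.2.1, 1⟩ : ℤ√D)} ∧
      e ^ k = β * (⟨v.2.2.1, v.2.2.2⟩ : ℤ√D) := by
  have hdom := isDomain_of hD
  have hD0 : D ≠ 0 := by simpa using hD 0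
  obtain ⟨e, a, b, he, heA, ha, -, hdv, hn, hJ, hhe, ha2⟩ := label hD hA
  have hN0 : (0 : ℤ) < N := by exact_mod_cast hA.1
  have hβ0 : β ≠ 0 := by
    rintro rfl
    simp at hpos
  -- reduce `b`
  set b' := b % |a| with hb'
  have ha' : 0 < |a| := abs_pos.mpr ha
  have hbb : a ∣ b - b' := by
    rw [hb', ← abs_dvd]; exact Int.dvd_self_sub_emod
  have hb0 : 0 ≤ b' := Int.emod_nonneg _ ha'.ne'
  have hb1 : b' < |a| := Int.emod_lt_of_pos _ ha'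
  have hdv' : a ∣ b' ^ 2 - D := by
    have h1 : b' ^ 2 - D = (b ^ 2 - D) - (b - b') * (b + b') := by ring
    rw [h1]
    exact dvd_sub hdv (Dvd.dvd.mul_right hbb _)
  rw [pt_span_shift a b b' hbb] at hJ
  -- `ξ`
  obtain ⟨ξ, hξ⟩ : β ∣ e ^ k := by
    rw [← Ideal.mem_span_singleton, hβ]
    exact Ideal.pow_mem_pow heA k
  have hnβ : β.norm = (N : ℤ) ^ k := by
    have h1 := lk4_norm (hA.pow k) HN_top (β := β) (by rw [cj_top, Ideal.mul_top, hβ])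
    rw [abs_of_pos hpos] at h1
    rw [h1]; push_cast; ring
  have hnξ : ξ.norm = a ^ k := by
    have h1 := congrArg Zsqrtd.norm hξ
    rw [lc3_norm_pow, Zsqrtd.norm_mul, hn, hnβ, mul_pow] at h1
    have h2 : (N : ℤ) ^ k ≠ 0 := pow_ne_zero _ hN0.ne'
    apply mul_left_cancel₀ h2
    linear_combination -h1
  have hhξ : (hh ξ) ^ 2 ≤ 16 ^ k * C1 ^ 2 * |D| ^ k := by
    have h1 : ((β.norm : ℤ) : ℤ√D) * ξ = e ^ k * star β := by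
      rw [norm_int, hξ]; ring
    have h2 := congrArg hh h1
    rw [hh_int_mul] at h2
    have h3 := lc3_hh_pow e (star β) k
    rw [hh_star] at h3
    have h4 : (0 : ℤ) ≤ hh e := hh_nonneg e
    have h5 : β.norm ^ 2 * hh ξ ≤ 2 ^ k * hh e ^ k * (C1 * β.norm) := by
      rw [h2]
      exact h3.trans (mul_le_mul_of_nonneg_left hbal (by positivity))
    have h6 : β.norm * hh ξ ≤ 2 ^ k * hh e ^ k * C1 := by
      have : β.norm * (β.norm * hh ξ) ≤ β.norm * (2 ^ k * hh e ^ k * C1) := by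
        calc β.norm * (β.norm * hh ξ) = β.norm ^ 2 * hh ξ := by ring
          _ ≤ _ := h5
          _ = _ := by ring
      exact le_of_mul_le_mul_left this hpos
    rw [hnβ] at h6
    have h7 : 0 ≤ (N : ℤ) ^ k * hh ξ := mul_nonneg (by positivity) (hh_nonneg ξ)
    have h8 : ((N : ℤ) ^ k * hh ξ) ^ 2 ≤ (2 ^ k * hh e ^ k * C1) ^ 2 := pow_le_pow_left₀ h7 h6 2
    have h9 : (hh e ^ 2) ^ k ≤ (4 * (N : ℤ) ^ 2 * |D|) ^ k := pow_le_pow_left₀ (by positivity) hhe k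
    have h10 : (2 ^ k * hh e ^ k * C1) ^ 2 = 4 ^ k * C1 ^ 2 * (hh e ^ 2) ^ k := by
      have : (4 : ℤ) ^ k = (2 ^ k) ^ 2 := by rw [← pow_mul, mul_comm, pow_mul]; norm_num
      rw [this]; ring
    rw [h10] at h8
    have h11 : 4 ^ k * C1 ^ 2 * (hh e ^ 2) ^ k ≤ 4 ^ k * C1 ^ 2 * (4 * (N : ℤ) ^ 2 * |D|) ^ k :=
      mul_le_mul_of_nonneg_left h9 (by positivity)
    have h12 : (16 : ℤ) ^ k = 4 ^ k * 4 ^ k := by rw [← mul_pow]; norm_num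
    have h13 : (0 : ℤ) < ((N : ℤ) ^ k) ^ 2 := by positivity
    apply le_of_mul_le_mul_left _ h13
    calc ((N : ℤ) ^ k) ^ 2 * hh ξ ^ 2 = ((N : ℤ) ^ k * hh ξ) ^ 2 := by ring
      _ ≤ 4 ^ k * C1 ^ 2 * (4 * (N : ℤ) ^ 2 * |D|) ^ k := h8.trans h11
      _ = ((N : ℤ) ^ k) ^ 2 * (16 ^ k * C1 ^ 2 * |D| ^ k) := by
          rw [h12, mul_pow, mul_pow]; ring
  refine ⟨e, (a, b', ξ.re, ξ.im), ⟨ha, ha2, hb0, hb1, hdv', ?_, hhξ, ?_⟩, he, hn, hJ, hξ⟩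
  · rw [← hnξ, Zsqrtd.norm_def]; ring
  · intro hy p hp hp2 hpa
    -- `span {a ^ k} = span {ξ} * J ^ k`
    change ξ.im = 0 at hy
    change (p : ℤ) ∣ a at hpa
    set J := Ideal.span {(a : ℤ√D), (⟨b', 1⟩ : ℤ√D)} with hJdef
    have h1 : Ideal.span {((a : ℤ√D)) ^ k} = Ideal.span {ξ} * J ^ k := by
      apply cancel_span hβ0
      calc Ideal.span {β} * Ideal.span {((a : ℤ√D)) ^ k} = (Ideal.span {(a : ℤ√D)} * A) ^ k := by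
            rw [mul_pow, Ideal.span_singleton_pow, hβ]; ring
        _ = (Ideal.span {e} * J) ^ k := by rw [hJ]
        _ = Ideal.span {β} * (Ideal.span {ξ} * J ^ k) := by
            rw [mul_pow, Ideal.span_singleton_pow, hξ, ← Ideal.span_singleton_mul_span_singleton]; ring
    have h2 : ξ * (⟨b', 1⟩ : ℤ√D) ^ k ∈ Ideal.span {((a : ℤ√D)) ^ k} := by
      rw [h1]
      exact Ideal.mul_mem_mul (Ideal.mem_span_singleton_self _)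
        (Ideal.pow_mem_pow (Ideal.subset_span (by simp)) k)
    have hξx : ξ = ((ξ.re : ℤ) : ℤ√D) := by
      ext <;> simp [hy]
    have hx2 : ξ.re * ξ.re = a ^ k := by
      rw [← hnξ, Zsqrtd.norm_def, hy]; ring
    have hx0 : ξ.re ≠ 0 := by
      intro h0
      rw [h0] at hx2
      exact pow_ne_zero k ha (by rw [← hx2]; ring)
    have hdx : ((ξ.re : ℤ) : ℤ√D) ∣ (⟨b', 1⟩ : ℤ√D) ^ k := by
      obtain ⟨w, hw⟩ := Ideal.mem_span_singleton.mp h2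
      refine ⟨w, ?_⟩
      have h3 : ((ξ.re : ℤ) : ℤ√D) ≠ 0 := by exact_mod_cast hx0
      apply mul_left_cancel₀ h3
      have h4 : ((a : ℤ√D)) ^ k = ((ξ.re : ℤ) : ℤ√D) * ((ξ.re : ℤ) : ℤ√D) := by
        rw [← Int.cast_mul, hx2, Int.cast_pow]
      calc ((ξ.re : ℤ) : ℤ√D) * (⟨b', 1⟩ : ℤ√D) ^ k = ξ * (⟨b', 1⟩ : ℤ√D) ^ k := by rw [← hξx]
        _ = ((a : ℤ√D)) ^ k * w := hw
        _ = _ := by rw [h4]; ring
    have hpp : Prime (p : ℤ) := Nat.prime_iff_prime_int.mp hp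
    have hpx : (p : ℤ) ∣ ξ.re := by
      have h3 : (p : ℤ) ∣ ξ.re * ξ.re := by
        rw [hx2]; exact dvd_pow hpa (by omega)
      rcases hpp.dvd_mul.mp h3 with h | h <;> exact h
    have hpD : (p : ℤ) ∣ b' ^ 2 - D := hpa.trans hdv'
    obtain ⟨j, rfl⟩ : ∃ j, k = j + 1 := ⟨k - 1, by omega⟩
    obtain ⟨z, hz⟩ := pt_pow_mod_p hpD j
    have h55 : ((p : ℤ) : ℤ√D) ∣ ((ξ.re : ℤ) : ℤ√D) := (Zsqrtd.intCast_dvd_intCast _ _).mpr hpx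
    have h5 : ((p : ℤ) : ℤ√D) ∣ (⟨b', 1⟩ : ℤ√D) ^ (j + 1) := h55.trans hdx
    have h6 : ((p : ℤ) : ℤ√D) ∣ (((2 * b') ^ j : ℤ) : ℤ√D) * (⟨b', 1⟩ : ℤ√D) := by
      have h7 : (((2 * b') ^ j : ℤ) : ℤ√D) * (⟨b', 1⟩ : ℤ√D) = (⟨b', 1⟩ : ℤ√D) ^ (j + 1) - ((p : ℤ) : ℤ√D) * z := by
        rw [hz]; ring
      rw [h7]
      exact dvd_sub h5 (Dvd.intro _ rfl)
    have h8 : (p : ℤ) ∣ (2 * b') ^ j := by
      have h9 := ((Zsqrtd.intCast_dvd _ _).mp h6).2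
      rw [Zsqrtd.im_smul, mul_one] at h9
      exact h9
    have h10 : (p : ℤ) ∣ 2 * b' := hpp.dvd_of_dvd_pow h8
    have h11 : (p : ℤ) ∣ b' := by
      rcases hpp.dvd_mul.mp h10 with h | h
      · exfalso
        have h12 : p ∣ 2 := by exact_mod_cast h
        exact hp2 ((Nat.prime_dvd_prime_iff_eq hp Nat.prime_two).mp h12)
      · exact h
    have h13 : (p : ℤ) ∣ b' ^ 2 := dvd_pow h11 (by norm_num)
    have h14 : D = b' ^ 2 - (b' ^ 2 - D) := by ring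
    rw [h14]
    exact dvd_sub h13 hpD

end Hp

end Pool.Agent.Lib.MP_d8bd92_nt
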