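import Pool.Agent.Lib.MP_d8bd92_nt.Hp.PT4
import Pool.Agent.Lib.MP_d8bd92_nt.Hp.LC1

set_option autoImplicit false

/-!
MP_d8bd92_nt, phase 2: families, classes, composition.
-/

namespace Pool.Agent.Lib.MP_d8bd92_nt

namespace Hp

open Finset

variable {D : ℤ}

/-- `hh` is submultiplicative the other way for powers -/
theorem pt_hh_pow_ge (z : ℤ√D) (k : ℕ) (hk : 1 ≤ k) : hh z ^ k ≤ hh (z ^ k) := by
  rcases le_or_gt D 0 with h | h
  · have h1 : ∀ w : ℤ√D, hh w = w.norm := by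
      intro w
      unfold hh
      rw [abs_of_nonpos h, Zsqrtd.norm_def]; ring
    rw [h1, h1, lc3_norm_pow]
  · have hr : ((√(D : ℝ)) * √(D : ℝ) : ℝ) = ((D : ℤ) : ℝ) := Real.mul_self_sqrt (by exact_mod_cast h.le)
    have hr' : ((-√(D : ℝ)) * -√(D : ℝ) : ℝ) = ((D : ℤ) : ℝ) := by rw [neg_mul_neg]; exact hr
    set φ : ℤ√D →+* ℝ := Zsqrtd.lift ⟨√(D : ℝ), hr⟩ with hφ
    set ψ : ℤ√D →+* ℝ := Zsqrtd.lift ⟨-√(D : ℝ), hr'⟩ with hψ
    have hφz : ∀ w : ℤ√D, φ w = (w.re : ℝ) + w.im * √(D : ℝ) := fun w => by rw [hφ, Zsqrtd.lift_apply_apply]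
    have hψz : ∀ w : ℤ√D, ψ w = (w.re : ℝ) + w.im * (-√(D : ℝ)) := fun w => by rw [hψ, Zsqrtd.lift_apply_apply]
    have h1 : ∀ w : ℤ√D, ((hh w : ℤ) : ℝ) = (φ w ^ 2 + ψ w ^ 2) / 2 := by
      intro w
      rw [hφz, hψz]
      unfold hh
      rw [abs_of_pos h]
      push_cast
      have : (√(D : ℝ)) ^ 2 = (D : ℝ) := by rw [sq]; exact hr
      linear_combination (-(w.im : ℝ) ^ 2) * this
    have h2 : ((hh z ^ k : ℤ) : ℝ) ≤ ((hh (z ^ k) : ℤ) : ℝ) := by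
      push_cast
      rw [h1, h1, map_pow, map_pow, div_pow]
      have h3 := add_pow_le (sq_nonneg (φ z)) (sq_nonneg (ψ z)) k
      have h4 : (2 : ℝ) ^ k = 2 ^ (k - 1) * 2 := by rw [← pow_succ]; congr 1; omega
      have h5 : (φ z ^ k) ^ 2 = (φ z ^ 2) ^ k := by rw [← pow_mul, ← pow_mul, mul_comm]
      have h6 : (ψ z ^ k) ^ 2 = (ψ z ^ 2) ^ k := by rw [← pow_mul, ← pow_mul, mul_comm]
      rw [h4, h5, h6, div_le_div_iff₀ (by positivity) (by norm_num)]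
      nlinarith [h3]
    exact_mod_cast h2

/-- at most `M` classes for the exponent `k` -/
def TK (D : ℤ) (k : ℕ) (C1 : ℤ) (M : ℕ) : Prop :=
  ∀ (ι : Type) (S : Finset ι) (A : ι → Ideal (ℤ√D)) (N : ι → ℕ) (β : ι → ℤ√D),
    (∀ c ∈ S, HN (A c) (N c) ∧ Ideal.span {β c} = A c ^ k ∧ 0 < (β c).norm ∧ hh (β c) ≤ C1 * (β c).norm) →
    ∃ (g : ι → ℕ) (e : ι → ℤ√D), (∀ c ∈ S, g c < M) ∧
      (∀ c1 ∈ S, ∃ (a : ℤ) (J : Ideal (ℤ√D)), a ≠ 0 ∧ ∀ c ∈ S, g c = g c1 → e c ≠ 0 ∧ (e c).norm = a * N c ∧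
        Ideal.span {(a : ℤ√D)} * A c = Ideal.span {e c} * J) ∧
      (∀ c ∈ S, ∀ c' ∈ S, g c = g c' → e c ^ k * β c' = e c' ^ k * β c)

theorem TK.mono {k : ℕ} {C1 C1' : ℤ} {M M' : ℕ} (h : TK D k C1' M) (hC : C1 ≤ C1') (hM : M ≤ M') : TK D k C1 M' := by
  intro ι S A N β hS
  obtain ⟨g, e, h1, h2, h3⟩ := h ι S A N β (fun c hc => by
    obtain ⟨a1, a2, a3, a4⟩ := hS c hc
    exact ⟨a1, a2, a3, a4.trans (mul_le_mul_of_nonneg_right hC a3.le)⟩)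
  exact ⟨g, e, fun c hc => (h1 c hc).trans_le hM, h2, h3⟩

theorem tk_of_codes (hD : ∀ n : ℤ, D ≠ n * n) {k : ℕ} (hk : 1 ≤ k) {C1 : ℤ} (hC1 : 0 ≤ C1) {M : ℕ}
    (hM : ∀ F : Finset (ℤ × ℤ × ℤ × ℤ), (∀ v ∈ F, Code (16 ^ k * C1 ^ 2) D k v) → F.card ≤ M) : TK D k C1 M := by
  classical
  intro ι S A N β hS
  have key : ∀ c, ∃ (e : ℤ√D) (v : ℤ × ℤ × ℤ × ℤ), c ∈ S → (Code (16 ^ k * C1 ^ 2) D k v ∧ e ≠ 0 ∧ e.norm = v.1 * N c ∧
      Ideal.span {(v.1 : ℤ√D)} * A c = Ideal.span {e} * Ideal.span {(v.1 : ℤ√D), (⟨v.2.1, 1⟩ : ℤ√D)} ∧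
      e ^ k = β c * (⟨v.2.2.1, v.2.2.2⟩ : ℤ√D)) := by
    intro c
    by_cases hc : c ∈ S
    · obtain ⟨h1, h2, h3, h4⟩ := hS c hc
      obtain ⟨e, v, h⟩ := tstep hD hk h1 h2 h3 hC1 h4
      exact ⟨e, v, fun _ => h⟩
    · exact ⟨0, 0, fun h => absurd h hc⟩
  choose e v hv using key
  set F := S.image v with hF
  have hFM : F.card ≤ M := by
    apply hM
    intro w hw
    obtain ⟨c, hc, rfl⟩ := Finset.mem_image.mp hw
    exact (hv c hc).1
  have hmem : ∀ c ∈ S, v c ∈ F := fun c hc => Finset.mem_image_of_mem v hc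
  refine ⟨fun c => if h : v c ∈ F then (F.equivFin ⟨v c, h⟩ : ℕ) else 0, e, ?_, ?_, ?_⟩
  · intro c hc
    dsimp only
    rw [dif_pos (hmem c hc)]
    exact (Fin.is_lt _).trans_le hFM
  all_goals
    have hinj : ∀ c ∈ S, ∀ c' ∈ S, (if h : v c ∈ F then (F.equivFin ⟨v c, h⟩ : ℕ) else 0) =
        (if h : v c' ∈ F then (F.equivFin ⟨v c', h⟩ : ℕ) else 0) → v c = v c' := by
      intro c hc c' hc' h
      rw [dif_pos (hmem c hc), dif_pos (hmem c' hc')] at h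
      have h1 := F.equivFin.injective (Fin.ext h)
      exact congrArg Subtype.val h1
  · intro c1 hc1
    refine ⟨(v c1).1, Ideal.span {((v c1).1 : ℤ√D), (⟨(v c1).2.1, 1⟩ : ℤ√D)}, (hv c1 hc1).1.1, ?_⟩
    intro c hc hg
    have h := hinj c hc c1 hc1 hg
    obtain ⟨-, h1, h2, h3, -⟩ := hv c hc
    rw [h] at h2 h3
    exact ⟨h1, h2, h3⟩
  · intro c hc c' hc' hg
    have h := hinj c hc c' hc' hg
    obtain ⟨-, -, -, -, h1⟩ := hv c hc
    obtain ⟨-, -, -, -, h2⟩ := hv c' hc'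
    rw [h1, h2, h]
    ring

/-- balanced powers -/
theorem pt_bal_root {z : ℤ√D} {k : ℕ} (hk : 1 ≤ k) {Q : ℤ} (hQ : 1 ≤ Q) (hz : 0 < z.norm) (h : hh (z ^ k) ≤ Q * z.norm ^ k) :
    hh z ≤ Q * z.norm := by
  by_contra hcon
  push Not at hcon
  have h1 := pt_hh_pow_ge z k hk
  have h2 : z.norm ≤ hh z := (le_abs_self _).trans (abs_norm_le_hh z)
  obtain ⟨j, rfl⟩ : ∃ j, k = j + 1 := ⟨k - 1, by omega⟩
  have h3 : z.norm ^ j ≤ hh z ^ j := pow_le_pow_left₀ hz.le h2 j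
  have h4 : 0 < z.norm ^ j := by positivity
  have h5 : Q * z.norm ^ (j + 1) < hh z ^ (j + 1) := by
    calc Q * z.norm ^ (j + 1) = z.norm ^ j * (Q * z.norm) := by ring
      _ < z.norm ^ j * hh z := mul_lt_mul_of_pos_left hcon h4
      _ ≤ hh z ^ j * hh z := mul_le_mul_of_nonneg_right h3 (hz.le.trans h2)
      _ = hh z ^ (j + 1) := by ring
  linarith

/-- composition -/
theorem tk_comp (hD : ∀ n : ℤ, D ≠ n * n) {k1 k2 : ℕ} (hk1 : 1 ≤ k1) {C1 : ℤ} (hC1 : 1 ≤ C1) {M1 M2 : ℕ}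
    (h1 : TK D k1 C1 M1) (h2 : TK D k2 (2 * C1 ^ 2) M2) : TK D (k1 * k2) C1 (M1 * M2) := by
  classical
  intro ι S A N β hS
  have hdom := isDomain_of hD
  obtain ⟨g1, e1, hg1, hJ1, hr1⟩ := h1 ι S (fun c => A c ^ k2) (fun c => N c ^ k2) β (fun c hc => by
    obtain ⟨a1, a2, a3, a4⟩ := hS c hc
    refine ⟨a1.pow k2, ?_, a3, a4⟩
    rw [a2, ← pow_mul, mul_comm])
  -- second step in the class `n`
  have hβ0 : ∀ c ∈ S, β c ≠ 0 := by
    intro c hc h0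
    have := (hS c hc).2.2.1
    rw [h0] at this
    simp at this
  have key : ∀ n : ℕ, ∃ (g2 : ι → ℕ) (e2 : ι → ℤ√D), (∀ c ∈ S, g1 c = n → g2 c < M2) ∧
      (∀ c1 ∈ S, g1 c1 = n → ∃ (a : ℤ) (J : Ideal (ℤ√D)), a ≠ 0 ∧ ∀ c ∈ S, g1 c = n → g2 c = g2 c1 →
        e2 c ≠ 0 ∧ (e2 c).norm = a * N c ∧ Ideal.span {(a : ℤ√D)} * A c = Ideal.span {e2 c} * J) ∧
      (∀ c ∈ S, ∀ c' ∈ S, g1 c = n → g1 c' = n → g2 c = g2 c' → e2 c ^ k2 * e1 c' = e2 c' ^ k2 * e1 c) := by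
    intro n
    by_cases hex : ∃ c0 ∈ S, g1 c0 = n
    swap
    · refine ⟨0, 0, ?_, ?_, ?_⟩
      · intro c hc h; exact absurd ⟨c, hc, h⟩ hex
      · intro c hc h; exact absurd ⟨c, hc, h⟩ hex
      · intro c hc _ _ h; exact absurd ⟨c, hc, h⟩ hex
    obtain ⟨c0, hc0, hc0n⟩ := hex
    obtain ⟨a, J, ha, hJ⟩ := hJ1 c0 hc0
    obtain ⟨he0, hn0, hs0⟩ := hJ c0 hc0 rfl
    have hA0 := (hS c0 hc0).1
    have hN0 : (N c0 : ℤ) ≠ 0 := by have := hA0.1; omega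
    have hstep : ∀ c, ∃ β' : ℤ√D, (c ∈ S ∧ g1 c = n) → ((a : ℤ√D) * β' = e1 c * star (e1 c0) ∧
        Ideal.span {β'} = (A c * cj (A c0)) ^ k2 ∧ 0 < β'.norm ∧ hh β' ≤ 2 * C1 ^ 2 * β'.norm) := by
      intro c
      by_cases hc : c ∈ S ∧ g1 c = n
      swap
      · exact ⟨0, fun h => absurd h hc⟩
      obtain ⟨hcS, hcn⟩ := hc
      obtain ⟨hec, hnc, hsc⟩ := hJ c hcS (hcn.trans hc0n.symm)
      obtain ⟨-, β', hb1, hb2, hb3⟩ := beta_of_label hD (hA0.pow k2) ((hS c hcS).1.pow k2) ha hn0 hnc hs0 hsc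
      have hbpos : 0 < β'.norm := by
        rw [hb3]
        have p1 := (hS c hcS).1.1
        have p2 := hA0.1
        positivity
      refine ⟨β', fun _ => ⟨hb1, ?_, hbpos, ?_⟩⟩
      · rw [hb2, cj_pow, mul_pow]
      · -- balanced
        have hrel := hr1 c hcS c0 hc0 (hcn.trans hc0n.symm)
        set z := e1 c * star (e1 c0) with hz
        have q1 := (hS c hcS).2.2
        have q0 := (hS c0 hc0).2.2
        have e3 : (((β c0).norm : ℤ) : ℤ√D) * z ^ k1 = (((e1 c0).norm ^ k1 : ℤ) : ℤ√D) * (β c * star (β c0)) := by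
          rw [Int.cast_pow, norm_int, norm_int, hz]
          linear_combination (star (e1 c0) ^ k1 * star (β c0)) * hrel
        have e4 := congrArg hh e3
        have e5 := congrArg Zsqrtd.norm e3
        rw [hh_int_mul, hh_int_mul] at e4
        rw [norm_int_mul, norm_int_mul, lc3_norm_pow, Zsqrtd.norm_mul (β c), norm_star] at e5
        have e6 : hh (β c * star (β c0)) ≤ 2 * hh (β c) * hh (β c0) := by
          have := hh_mul_le (β c) (star (β c0))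
          rwa [hh_star] at this
        have e7 : hh (β c) * hh (β c0) ≤ (C1 * (β c).norm) * (C1 * (β c0).norm) :=
          mul_le_mul q1.2 q0.2 (hh_nonneg _) (mul_nonneg (by omega) q1.1.le)
        have hzn : 0 < z.norm := by
          have e8 : z.norm = a ^ 2 * β'.norm := by
            rw [← hb1, norm_int_mul]
          rw [e8]
          have : 0 < a ^ 2 := by positivity
          positivity
        have e9 : hh (z ^ k1) ≤ 2 * C1 ^ 2 * z.norm ^ k1 := by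
          have p3 : (0 : ℤ) < (β c0).norm ^ 2 := by have := q0.1; positivity
          apply le_of_mul_le_mul_left _ p3
          calc (β c0).norm ^ 2 * hh (z ^ k1) = ((e1 c0).norm ^ k1) ^ 2 * hh (β c * star (β c0)) := e4
            _ ≤ ((e1 c0).norm ^ k1) ^ 2 * (2 * ((C1 * (β c).norm) * (C1 * (β c0).norm))) := by
                apply mul_le_mul_of_nonneg_left _ (sq_nonneg _)
                linarith
            _ = 2 * C1 ^ 2 * (((e1 c0).norm ^ k1) ^ 2 * ((β c).norm * (β c0).norm)) := by ring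
            _ = (β c0).norm ^ 2 * (2 * C1 ^ 2 * z.norm ^ k1) := by rw [← e5]; ring
        have e10 : hh z ≤ 2 * C1 ^ 2 * z.norm := pt_bal_root hk1 (by nlinarith) hzn e9
        rw [← hb1, hh_int_mul, norm_int_mul] at e10
        have p4 : (0 : ℤ) < a ^ 2 := by positivity
        apply le_of_mul_le_mul_left _ p4
        linarith
    choose β' hβ' using hstep
    obtain ⟨g2, e2, hg2, hJ2, hr2⟩ := h2 ι (S.filter (fun c => g1 c = n)) (fun c => A c * cj (A c0))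
      (fun c => N c * N c0) β' (fun c hc => by
        obtain ⟨hcS, hcn⟩ := Finset.mem_filter.mp hc
        obtain ⟨-, b2, b3, b4⟩ := hβ' c ⟨hcS, hcn⟩
        exact ⟨(hS c hcS).1.mul hA0.cj, b2, b3, b4⟩)
    refine ⟨g2, e2, ?_, ?_, ?_⟩
    · intro c hc hcn
      exact hg2 c (Finset.mem_filter.mpr ⟨hc, hcn⟩)
    · intro c1 hc1 hc1n
      obtain ⟨a2, J2, ha2, hJ2'⟩ := hJ2 c1 (Finset.mem_filter.mpr ⟨hc1, hc1n⟩)
      refine ⟨a2 * N c0, J2 * A c0, mul_ne_zero ha2 hN0, ?_⟩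
      intro c hc hcn hgc
      obtain ⟨b1, b2, b3⟩ := hJ2' c (Finset.mem_filter.mpr ⟨hc, hcn⟩) hgc
      refine ⟨b1, ?_, ?_⟩
      · rw [b2]; push_cast; ring
      · have b4 : (Ideal.span {((a2 * (N c0 : ℤ) : ℤ) : ℤ√D)} : Ideal (ℤ√D)) =
            Ideal.span {(a2 : ℤ√D)} * (A c0 * cj (A c0)) := by
          rw [hA0.2, Ideal.span_singleton_mul_span_singleton]; push_cast; rfl
        rw [b4]
        calc Ideal.span {(a2 : ℤ√D)} * (A c0 * cj (A c0)) * A c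
            = (Ideal.span {(a2 : ℤ√D)} * (A c * cj (A c0))) * A c0 := by ring
          _ = Ideal.span {e2 c} * (J2 * A c0) := by rw [b3]; ring
    · intro c hc c' hc' hcn hcn' hgg
      have b5 := hr2 c (Finset.mem_filter.mpr ⟨hc, hcn⟩) c' (Finset.mem_filter.mpr ⟨hc', hcn'⟩) hgg
      have b6 := (hβ' c ⟨hc, hcn⟩).1
      have b7 := (hβ' c' ⟨hc', hcn'⟩).1
      have hse : star (e1 c0) ≠ 0 := by
        intro h0
        apply he0
        rw [← star_star (e1 c0), h0, star_zero]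
      apply mul_right_cancel₀ hse
      calc e2 c ^ k2 * e1 c' * star (e1 c0) = (a : ℤ√D) * (e2 c ^ k2 * β' c') := by
            rw [mul_assoc, ← b7]; ring
        _ = (a : ℤ√D) * (e2 c' ^ k2 * β' c) := by rw [b5]
        _ = e2 c' ^ k2 * e1 c * star (e1 c0) := by
            rw [mul_assoc (e2 c' ^ k2), ← b6]; ring
  choose g2 e2 hg2 hJ2 hr2 using key
  have hcode : ∀ c ∈ S, ∀ c' ∈ S, g1 c * M2 + g2 (g1 c) c = g1 c' * M2 + g2 (g1 c') c' →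
      g1 c = g1 c' ∧ g2 (g1 c) c = g2 (g1 c') c' := by
    intro c hc c' hc' h
    have a1 := hg2 (g1 c) c hc rfl
    have a2 := hg2 (g1 c') c' hc' rfl
    have hM2 : 0 < M2 := by omega
    have h3 : (g1 c * M2 + g2 (g1 c) c) / M2 = g1 c := by
      rw [add_comm, Nat.add_mul_div_right _ _ hM2, Nat.div_eq_of_lt a1, zero_add]
    have h4 : (g1 c' * M2 + g2 (g1 c') c') / M2 = g1 c' := by
      rw [add_comm, Nat.add_mul_div_right _ _ hM2, Nat.div_eq_of_lt a2, zero_add]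
    have h5 : g1 c = g1 c' := by rw [← h3, ← h4, h]
    refine ⟨h5, ?_⟩
    rw [← h5] at h ⊢
    omega
  refine ⟨fun c => g1 c * M2 + g2 (g1 c) c, fun c => e2 (g1 c) c, ?_, ?_, ?_⟩
  · intro c hc
    have a1 := hg2 (g1 c) c hc rfl
    have a2 := hg1 c hc
    calc g1 c * M2 + g2 (g1 c) c < g1 c * M2 + M2 := by omega
      _ = (g1 c + 1) * M2 := by ring
      _ ≤ M1 * M2 := Nat.mul_le_mul_right _ a2
  · intro c1 hc1
    obtain ⟨a, J, ha, hJ⟩ := hJ2 (g1 c1) c1 hc1 rfl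
    refine ⟨a, J, ha, ?_⟩
    intro c hc hgc
    obtain ⟨b1, b2⟩ := hcode c hc c1 hc1 hgc
    have := hJ c hc b1 (by rw [← b1] at b2 ⊢; exact b2)
    rw [← b1] at this
    exact this
  · intro c hc c' hc' hgc
    obtain ⟨b1, b2⟩ := hcode c hc c' hc' hgc
    have b3 := hr2 (g1 c) c hc c' hc' rfl b1.symm (by rw [← b1] at b2; exact b2)
    have b4 := hr1 c hc c' hc' b1
    obtain ⟨a, J, ha, hJ⟩ := hJ1 c hc
    have hne : e1 c' ≠ 0 := (hJ c' hc' b1.symm).1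
    have hne2 : e1 c' ^ k1 ≠ 0 := pow_ne_zero _ hne
    show e2 (g1 c) c ^ (k1 * k2) * β c' = e2 (g1 c') c' ^ (k1 * k2) * β c
    rw [← b1]
    apply mul_right_cancel₀ hne2
    calc e2 (g1 c) c ^ (k1 * k2) * β c' * e1 c' ^ k1 = (e2 (g1 c) c ^ k2 * e1 c') ^ k1 * β c' := by
          rw [mul_pow, ← pow_mul, mul_comm k2 k1]; ring
      _ = (e2 (g1 c) c' ^ k2 * e1 c) ^ k1 * β c' := by rw [b3]
      _ = e2 (g1 c) c' ^ (k1 * k2) * (e1 c ^ k1 * β c') := by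
          rw [mul_pow, ← pow_mul, mul_comm k2 k1]; ring
      _ = e2 (g1 c) c' ^ (k1 * k2) * (e1 c' ^ k1 * β c) := by rw [b4]
      _ = _ := by ring

end Hp

end Pool.Agent.Lib.MP_d8bd92_nt
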