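import Pool.Agent.Lib.MP_d8bd92_nt.Hp.PT1
import Pool.Agent.Lib.MP_d8bd92_nt.Hp.PT2
import Pool.Agent.Lib.MP_d8bd92_nt.Hp.PT5

set_option autoImplicit false

/-!
MP_d8bd92_nt, phase 2: from the class bound `TK` to the lattice lemma `LLT`.
-/

namespace Pool.Agent.Lib.MP_d8bd92_nt

namespace Hp

open Finset

/-- one sign of the norm -/
theorem llt_sign (ε : ℝ) (hε : 0 < ε) (L : ℕ) (C0 : ℝ) (hC0 : 1 ≤ C0) : ∃ C : ℝ, 0 < C ∧
    ∀ (X K : ℝ) (D : ℤ) (f l : ℕ) (E θ : ℝ) (ι : Type) (S : Finset ι) (Ω : ι → ℤ√D) (I : ι → Ideal (ℤ√D))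
      (En s : ι → ℕ) (W : Ideal (ℤ√D)) (M : ℕ) (C1 : ℤ), l ≤ L → 2 * C0 ^ 2 ≤ (C1 : ℝ) → TK D l C1 M →
      LLG C0 X K D f l E θ S Ω I En s W → (∀ c ∈ S, ∀ c' ∈ S, 0 < (Ω c).norm * (Ω c').norm) →
      (S.card : ℝ) ≤ C * X ^ ε * M * K * (1 + θ * E / ((f : ℝ) * √((|D| : ℤ) : ℝ))) := by
  classical
  obtain ⟨C, hC, hcl⟩ := ll_classes ε hε L C0 hC0
  refine ⟨C, hC, ?_⟩
  intro X K D f l E θ ι S Ω I En s W M C1 hlL hC1 hTK h hsign
  have hX := h.hX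
  have hX0 : 0 < X := by linarith
  have hK := h.hK
  have hE := h.hE
  have hθ := h.hθ
  have hf0 : (0 : ℝ) < (f : ℝ) := by exact_mod_cast h.hf
  have hB : 0 < 1 + θ * E / ((f : ℝ) * √((|D| : ℤ) : ℝ)) := by positivity
  have hXe : 0 < X ^ ε := Real.rpow_pos_of_pos hX0 _
  rcases S.eq_empty_or_nonempty with rfl | ⟨c0, hc0⟩
  · simp only [Finset.card_empty, Nat.cast_zero]
    positivity
  have hdom : IsDomain (ℤ√D) := isDomain_of h.hD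
  have hnn : ∀ c ∈ S, (Ω c).norm ≠ 0 := by
    intro c hc h0
    exact h.nz c hc ((Zsqrtd.norm_eq_zero h.hD _).mp h0)
  have hn0 := h.hn c0 hc0
  have key : ∀ c, ∃ β : ℤ√D, c ∈ S →
      ((((s c : ℤ) * (Ω c0).norm : ℤ) : ℤ√D) * β = (((s c0 : ℤ) * (En c0 ^ l : ℕ) : ℤ) : ℤ√D) * (Ω c * star (Ω c0)) ∧
        Ideal.span {β} = (I c * cj (I c0)) ^ l ∧ 0 < β.norm ∧ hh β ≤ C1 * β.norm) := by
    intro c
    by_cases hc : c ∈ S
    swap
    · exact ⟨0, fun h => absurd h hc⟩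
    obtain ⟨β, hβ, hsp⟩ := lk4_quot (h.s_pos c hc) (hnn c0 hc0) (hn0.pow l) (h.fac c hc) (h.fac c0 hc0)
    have hj : ((s c : ℤ) * (Ω c0).norm : ℤ) ≠ 0 := mul_ne_zero (by have := h.s_pos c hc; omega) (hnn c0 hc0)
    have hj2 : (0 : ℤ) < ((s c : ℤ) * (Ω c0).norm) ^ 2 := by positivity
    have hm2 : (0 : ℤ) < ((s c0 : ℤ) * (En c0 ^ l : ℕ)) ^ 2 := by
      have a1 := h.s_pos c0 hc0
      have a2 := hn0.1
      positivity
    have hnrm : ((s c : ℤ) * (Ω c0).norm) ^ 2 * β.norm =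
        ((s c0 : ℤ) * (En c0 ^ l : ℕ)) ^ 2 * ((Ω c).norm * (Ω c0).norm) := by
      have h0 := congrArg Zsqrtd.norm hβ
      rw [norm_int_mul, norm_int_mul, Zsqrtd.norm_mul (Ω c), norm_star] at h0
      exact h0
    have hpos : 0 < β.norm := by
      have h1 := mul_pos hm2 (hsign c hc c0 hc0)
      rw [← hnrm] at h1
      exact (mul_pos_iff_of_pos_left hj2).mp h1
    refine ⟨β, fun _ => ⟨hβ, ?_, hpos, ?_⟩⟩
    · rw [hsp, cj_pow, mul_pow]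
    · have h1 := congrArg hh hβ
      rw [hh_int_mul, hh_int_mul] at h1
      have h2 : hh (Ω c * star (Ω c0)) ≤ 2 * hh (Ω c) * hh (Ω c0) := by
        have := hh_mul_le (Ω c) (star (Ω c0))
        rwa [hh_star] at this
      have hb1 := h.bal c hc
      have hb0 := h.bal c0 hc0
      have n1 : (0 : ℝ) ≤ ((|(Ω c).norm| : ℤ) : ℝ) := by exact_mod_cast abs_nonneg _
      have n0 : (0 : ℝ) ≤ ((|(Ω c0).norm| : ℤ) : ℝ) := by exact_mod_cast abs_nonneg _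
      have p1 : (0 : ℝ) ≤ ((hh (Ω c) : ℤ) : ℝ) := by exact_mod_cast hh_nonneg _
      have p0 : (0 : ℝ) ≤ ((hh (Ω c0) : ℤ) : ℝ) := by exact_mod_cast hh_nonneg _
      have hprod : ((|(Ω c).norm| : ℤ) : ℝ) * ((|(Ω c0).norm| : ℤ) : ℝ) = (((Ω c).norm * (Ω c0).norm : ℤ) : ℝ) := by
        rw [← Int.cast_mul, ← abs_mul, abs_of_pos (hsign c hc c0 hc0)]
      have h3 : ((hh (Ω c) : ℤ) : ℝ) * ((hh (Ω c0) : ℤ) : ℝ) ≤ C0 ^ 2 * (((Ω c).norm * (Ω c0).norm : ℤ) : ℝ) := by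
        calc _ ≤ (C0 * ((|(Ω c).norm| : ℤ) : ℝ)) * (C0 * ((|(Ω c0).norm| : ℤ) : ℝ)) :=
              mul_le_mul hb1 hb0 p0 (by positivity)
          _ = _ := by rw [← hprod]; ring
      have hR : ((hh β : ℤ) : ℝ) ≤ (C1 : ℝ) * ((β.norm : ℤ) : ℝ) := by
        have hj2R : (0 : ℝ) < ((((s c : ℤ) * (Ω c0).norm) ^ 2 : ℤ) : ℝ) := by exact_mod_cast hj2
        have hm2R : (0 : ℝ) ≤ ((((s c0 : ℤ) * (En c0 ^ l : ℕ)) ^ 2 : ℤ) : ℝ) := by exact_mod_cast hm2.le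
        have h1R : ((((s c : ℤ) * (Ω c0).norm) ^ 2 : ℤ) : ℝ) * ((hh β : ℤ) : ℝ) =
            ((((s c0 : ℤ) * (En c0 ^ l : ℕ)) ^ 2 : ℤ) : ℝ) * ((hh (Ω c * star (Ω c0)) : ℤ) : ℝ) := by
          exact_mod_cast h1
        have hnR : ((((s c : ℤ) * (Ω c0).norm) ^ 2 : ℤ) : ℝ) * ((β.norm : ℤ) : ℝ) =
            ((((s c0 : ℤ) * (En c0 ^ l : ℕ)) ^ 2 : ℤ) : ℝ) * (((Ω c).norm * (Ω c0).norm : ℤ) : ℝ) := by
          exact_mod_cast hnrm
        have h2R : ((hh (Ω c * star (Ω c0)) : ℤ) : ℝ) ≤ 2 * ((hh (Ω c) : ℤ) : ℝ) * ((hh (Ω c0) : ℤ) : ℝ) := by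
          exact_mod_cast h2
        have hnpos : (0 : ℝ) ≤ (((Ω c).norm * (Ω c0).norm : ℤ) : ℝ) := by exact_mod_cast (hsign c hc c0 hc0).le
        refine le_of_mul_le_mul_left ?_ hj2R
        calc ((((s c : ℤ) * (Ω c0).norm) ^ 2 : ℤ) : ℝ) * ((hh β : ℤ) : ℝ)
            = ((((s c0 : ℤ) * (En c0 ^ l : ℕ)) ^ 2 : ℤ) : ℝ) * ((hh (Ω c * star (Ω c0)) : ℤ) : ℝ) := h1R
          _ ≤ ((((s c0 : ℤ) * (En c0 ^ l : ℕ)) ^ 2 : ℤ) : ℝ) *
              ((C1 : ℝ) * (((Ω c).norm * (Ω c0).norm : ℤ) : ℝ)) := by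
              apply mul_le_mul_of_nonneg_left _ hm2R
              have h5 := mul_le_mul_of_nonneg_right hC1 hnpos
              nlinarith
          _ = ((((s c : ℤ) * (Ω c0).norm) ^ 2 : ℤ) : ℝ) * ((C1 : ℝ) * ((β.norm : ℤ) : ℝ)) := by
              linear_combination (-(C1 : ℝ)) * hnR
      exact_mod_cast hR
  choose β hβ using key
  obtain ⟨g, e, hg, hJ, hr⟩ := hTK ι S (fun c => I c * cj (I c0)) (fun c => En c * En c0) β (fun c hc => by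
    obtain ⟨-, b2, b3, b4⟩ := hβ c hc
    exact ⟨(h.hn c hc).mul hn0.cj, b2, b3, b4⟩)
  have hmain := hcl X K D f l E θ ι S Ω I En s W ℕ inferInstance g e hlL h ?_ ?_
  · refine hmain.trans ?_
    have himg : ((S.image g).card : ℝ) ≤ M := by
      have h1 : S.image g ⊆ Finset.range M := by
        intro n hn
        obtain ⟨c, hc, rfl⟩ := Finset.mem_image.mp hn
        exact Finset.mem_range.mpr (hg c hc)
      have h2 := Finset.card_le_card h1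
      rw [Finset.card_range] at h2
      exact_mod_cast h2
    gcongr
  · intro c1 hc1
    obtain ⟨a, J, ha, hJ'⟩ := hJ c1 hc1
    have hE0 : (En c0 : ℤ) ≠ 0 := by have := hn0.1; omega
    refine ⟨a * En c0, J * I c0, mul_ne_zero ha hE0, ?_⟩
    intro c hc hgc
    obtain ⟨b1, b2, b3⟩ := hJ' c hc hgc
    refine ⟨b1, ?_, ?_⟩
    · rw [b2]; push_cast; ring
    · have b4 : (Ideal.span {((a * (En c0 : ℤ) : ℤ) : ℤ√D)} : Ideal (ℤ√D)) =
          Ideal.span {(a : ℤ√D)} * (I c0 * cj (I c0)) := by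
        rw [hn0.2, Ideal.span_singleton_mul_span_singleton]; push_cast; rfl
      rw [b4]
      calc Ideal.span {(a : ℤ√D)} * (I c0 * cj (I c0)) * I c
          = (Ideal.span {(a : ℤ√D)} * (I c * cj (I c0))) * I c0 := by ring
        _ = Ideal.span {e c} * (J * I c0) := by rw [b3]; ring
  · intro c hc c' hc' hgg
    have b1 := hr c hc c' hc' hgg
    have b2 := (hβ c hc).1
    have b3 := (hβ c' hc').1
    have hΩ0 : star (Ω c0) ≠ 0 := by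
      intro h0
      apply h.nz c0 hc0
      rw [← star_star (Ω c0), h0, star_zero]
    have hN : (((Ω c0).norm : ℤ) : ℤ√D) ≠ 0 := by exact_mod_cast hnn c0 hc0
    have hm : (((s c0 : ℤ) * (En c0 ^ l : ℕ) : ℤ) : ℤ√D) ≠ 0 := by
      have a1 := h.s_pos c0 hc0
      have a2 := hn0.1
      have : ((s c0 : ℤ) * (En c0 ^ l : ℕ) : ℤ) ≠ 0 := by positivity
      exact_mod_cast this
    apply mul_right_cancel₀ (mul_ne_zero (mul_ne_zero hm hΩ0) hN)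
    have e2 : (((s c : ℤ) * (Ω c0).norm : ℤ) : ℤ√D) = (s c : ℤ√D) * (((Ω c0).norm : ℤ) : ℤ√D) := by push_cast; ring
    have e3 : (((s c' : ℤ) * (Ω c0).norm : ℤ) : ℤ√D) = (s c' : ℤ√D) * (((Ω c0).norm : ℤ) : ℤ√D) := by push_cast; ring
    rw [e2] at b2
    rw [e3] at b3
    generalize (((s c0 : ℤ) * (En c0 ^ l : ℕ) : ℤ) : ℤ√D) = m at *
    generalize (((Ω c0).norm : ℤ) : ℤ√D) = n at *
    linear_combination (-(s c : ℤ√D) * e c ^ l * n) * b3 + ((s c' : ℤ√D) * e c' ^ l * n) * b2 +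
      ((s c : ℤ√D) * (s c' : ℤ√D) * n * n) * b1

/-- `LLT` from `TK` -/
theorem llt_of_tk (ε : ℝ) (hε : 0 < ε) (L : ℕ) (C0 : ℝ) (hC0 : 1 ≤ C0) : ∃ C : ℝ, 0 < C ∧
    ∀ (X : ℝ) (D : ℤ) (l M : ℕ) (C1 : ℤ), l ≤ L → 2 * C0 ^ 2 ≤ (C1 : ℝ) → TK D l C1 M →
      LLT C0 X D l (C * X ^ ε * M) := by
  classical
  obtain ⟨C, hC, hone⟩ := llt_sign ε hε L C0 hC0
  refine ⟨2 * C, by positivity, ?_⟩
  intro X D l M C1 hlL hC1 hTK K f E θ ι S Ω I En s W h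
  have h1 := hone X K D f l E θ ι (S.filter (fun c => 0 < (Ω c).norm)) Ω I En s W M C1 hlL hC1 hTK
    (h.subset (Finset.filter_subset _ _)) (by
    intro c hc c' hc'
    exact mul_pos (Finset.mem_filter.mp hc).2 (Finset.mem_filter.mp hc').2)
  have h2 := hone X K D f l E θ ι (S.filter (fun c => ¬ 0 < (Ω c).norm)) Ω I En s W M C1 hlL hC1 hTK
    (h.subset (Finset.filter_subset _ _)) (by
    intro c hc c' hc'
    obtain ⟨a1, a2⟩ := Finset.mem_filter.mp hc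
    obtain ⟨b1, b2⟩ := Finset.mem_filter.mp hc'
    have a3 : (Ω c).norm ≠ 0 := fun h0 => h.nz c a1 ((Zsqrtd.norm_eq_zero h.hD _).mp h0)
    have b3 : (Ω c').norm ≠ 0 := fun h0 => h.nz c' b1 ((Zsqrtd.norm_eq_zero h.hD _).mp h0)
    exact mul_pos_of_neg_of_neg (by omega) (by omega))
  have h3 := Finset.card_filter_add_card_filter_not (s := S) (fun c => 0 < (Ω c).norm)
  have h4 : (S.card : ℝ) = ((S.filter (fun c => 0 < (Ω c).norm)).card : ℝ) +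
      ((S.filter (fun c => ¬ 0 < (Ω c).norm)).card : ℝ) := by
    rw [← h3]; push_cast; rfl
  rw [h4]
  linarith

theorem LLT.mono' {C1 X : ℝ} {D : ℤ} {l : ℕ} {T T' : ℝ} (h : LLT C1 X D l T) (hT : T ≤ T') : LLT C1 X D l T' := by
  intro K f E θ ι S Ω I En s W hd
  refine (h K f E θ ι S Ω I En s W hd).trans ?_
  have h1 := hd.hK
  have h2 := hd.hE
  have h3 := hd.hθ
  have h4 := hd.hf
  gcongr

end Hp

end Pool.Agent.Lib.MP_d8bd92_nt
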