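import Pool.Agent.Lib.MP_d8bd92_nt.Hp.Alpha
import Pool.Agent.Lib.MP_d8bd92_nt.Hp.LLDefs
import Pool.Agent.Lib.MP_d8bd92_nt.Hp.Preds

set_option autoImplicit false

/-!
MP_d8bd92_nt, block 3.C (few_pf, fixing a part): definitions.
-/

namespace Pool.Agent.Lib.MP_d8bd92_nt

namespace Hp

open Finset Pool.Agent.Lib.Szpiro

/-- the element of the pair `w`, `w.2 = (c^k f)^2 D` -/
def pz (D : ℤ) (f k : ℕ) (c : ℤ × ℤ → ℕ) (w : ℤ × ℤ) : ℤ√D := el D w ((c w : ℤ) ^ k * f)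

/-- Partial fixing data: `w.2 = (c^k f)^2 D` with `f`, `D` fixed, `|w.1| = 2^e A t^l` with `e`, `l` fixed, `t` a prime. -/
structure PfData (Z : ℝ) (D : ℤ) (f k e l : ℕ) (S : Finset (ℤ × ℤ)) (c A t : ℤ × ℤ → ℕ) : Prop where
  hZ : 1 ≤ Z
  hD : Squarefree D
  hD1 : D ≠ 1
  hf : 1 ≤ f
  hl : 1 ≤ l
  sq : ∀ w ∈ S, ∃ g : ℤ, w.1 + w.2 = g ^ 2
  cop : ∀ w ∈ S, IsCoprime w.1 w.2
  nx : ∀ w ∈ S, w.1 ≠ 0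
  c1 : ∀ w ∈ S, 1 ≤ c w
  y : ∀ w ∈ S, w.2 = ((c w : ℤ) ^ k * f) ^ 2 * D
  x : ∀ w ∈ S, w.1.natAbs = 2 ^ e * A w * t w ^ l
  A_odd : ∀ w ∈ S, Odd (A w)
  t_odd : ∀ w ∈ S, Odd (t w)
  t_pr : ∀ w ∈ S, (t w).Prime
  At : ∀ w ∈ S, Nat.Coprime (A w) (t w)
  cmp : ∀ w ∈ S, ∀ w' ∈ S, w.1.natAbs ≤ 2 * w'.1.natAbs ∧ w.2.natAbs ≤ 2 * w'.2.natAbs ∧ (0 < w.1 ↔ 0 < w'.1)
  xZ : ∀ w ∈ S, (w.1.natAbs : ℝ) ≤ Z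
  yZ : ∀ w ∈ S, (w.2.natAbs : ℝ) ≤ Z

/-- `θ` is a good parameter for `S` (see `theta_exists`) -/
def ThetaOK (θ : ℝ) (S : Finset (ℤ × ℤ)) : Prop := 0 < θ ∧ θ ≤ 1 ∧ ∀ w ∈ S,
  ((θ = 1 ∧ (w.1.natAbs : ℝ) ≤ 64 * (w.2.natAbs : ℝ)) ∨
    (4 * (w.2.natAbs : ℝ) ≤ (w.1.natAbs : ℝ) ∧ (w.2.natAbs : ℝ) ≤ 4 * θ ^ 2 * (w.1.natAbs : ℝ))) ∧
  θ ^ 2 * max (w.1.natAbs : ℝ) (w.2.natAbs : ℝ) ≤ 64 * (w.2.natAbs : ℝ)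

theorem PfData.mono {Z : ℝ} {D : ℤ} {f k e l : ℕ} {S S' : Finset (ℤ × ℤ)} {c A t : ℤ × ℤ → ℕ}
    (h : PfData Z D f k e l S c A t) (hS : S' ⊆ S) : PfData Z D f k e l S' c A t where
  hZ := h.hZ
  hD := h.hD
  hD1 := h.hD1
  hf := h.hf
  hl := h.hl
  sq := fun w hw => h.sq w (hS hw)
  cop := fun w hw => h.cop w (hS hw)
  nx := fun w hw => h.nx w (hS hw)
  c1 := fun w hw => h.c1 w (hS hw)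
  y := fun w hw => h.y w (hS hw)
  x := fun w hw => h.x w (hS hw)
  A_odd := fun w hw => h.A_odd w (hS hw)
  t_odd := fun w hw => h.t_odd w (hS hw)
  t_pr := fun w hw => h.t_pr w (hS hw)
  At := fun w hw => h.At w (hS hw)
  cmp := fun w hw w' hw' => h.cmp w (hS hw) w' (hS hw')
  xZ := fun w hw => h.xZ w (hS hw)
  yZ := fun w hw => h.yZ w (hS hw)

theorem ThetaOK.mono {θ : ℝ} {S S' : Finset (ℤ × ℤ)} (h : ThetaOK θ S) (hS : S' ⊆ S) : ThetaOK θ S' :=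
  ⟨h.1, h.2.1, fun w hw => h.2.2 w (hS hw)⟩

end Hp

end Pool.Agent.Lib.MP_d8bd92_nt
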