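import Pool.Agent.Lib.MP_d8bd92_nt.Hp.Pf0

set_option autoImplicit false

/-!
MP_d8bd92_nt, block 3.C, file Pf1: the element `pz` of a pair.
-/

namespace Pool.Agent.Lib.MP_d8bd92_nt

namespace Hp

open Finset Pool.Agent.Lib.Szpiro

section

variable {Z : ℝ} {D : ℤ} {f k e l : ℕ} {S : Finset (ℤ × ℤ)} {c A t : ℤ × ℤ → ℕ}

/-- `el_norm` (AlM) with `F = c^k f`. -/
theorem pz_norm (h : PfData Z D f k e l S c A t) {w : ℤ × ℤ} (hw : w ∈ S) : (pz D f k c w).norm = w.1 :=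
  el_norm (h.sq w hw) (h.y w hw)

/-- `el_cop` (AlM). -/
theorem pz_cop (h : PfData Z D f k e l S c A t) {w : ℤ × ℤ} (hw : w ∈ S) :
    IsCoprime (pz D f k c w).norm ((pz D f k c w).im ^ 2 * D) :=
  el_cop (h.sq w hw) (h.y w hw) (h.cop w hw)

/-- `|D| im^2 = |w.2|`. -/
private theorem pf1_y (h : PfData Z D f k e l S c A t) {w : ℤ × ℤ} (hw : w ∈ S) :
    |D| * ((c w : ℤ) ^ k * f) ^ 2 = |w.2| := by
  rw [h.y w hw, abs_mul, abs_of_nonneg (sq_nonneg ((c w : ℤ) ^ k * f)), mul_comm]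

/-- `re^2 + |D| im^2 = (x + y) + |y| ≤ 3 Z`. -/
theorem pz_hh (h : PfData Z D f k e l S c A t) {w : ℤ × ℤ} (hw : w ∈ S) :
    ((hh (pz D f k c w) : ℤ) : ℝ) ≤ 3 * Z := by
  have h1 : hh (pz D f k c w) = w.1 + w.2 + |w.2| := by
    rw [← pf1_y h hw, ← gg_sq (h.sq w hw)]
    rfl
  have h2 := h.xZ w hw
  have h3 := h.yZ w hw
  rw [Nat.cast_natAbs, Int.cast_abs] at h2 h3
  have h4 := le_abs_self (w.1 : ℝ)
  have h5 := le_abs_self (w.2 : ℝ)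
  rw [h1]
  push_cast
  linarith

/-- `|D| im^2 = |w.2|`. -/
theorem pz_y (h : PfData Z D f k e l S c A t) {w : ℤ × ℤ} (hw : w ∈ S) :
    |D| * (pz D f k c w).im ^ 2 = (w.2.natAbs : ℤ) := by
  rw [Int.natCast_natAbs]
  exact pf1_y h hw

/-- `span_el` (AlN) with `B = 1` (`lbl_one`). -/
theorem pz_span (h : PfData Z D f k e l S c A t) {w : ℤ × ℤ} (hw : w ∈ S) :
    Ideal.span {pz D f k c w} = lbl (2 ^ e) (pz D f k c w) * lbl (A w) (pz D f k c w) *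
      lbl (t w) (pz D f k c w) ^ l := by
  have h1 := span_el (pz D f k c w) (pz_cop h hw) (e := e) (A := A w) (B := 1) (t := t w) (l := l)
    (by rw [pz_norm h hw, h.x w hw, mul_one]) (h.A_odd w hw) odd_one (h.t_odd w hw)
    (Nat.coprime_one_right _) (h.At w hw) (Nat.coprime_one_left _)
  rwa [lbl_one, Ideal.mul_top] at h1

private theorem pf1_t_nat (h : PfData Z D f k e l S c A t) {w : ℤ × ℤ} (hw : w ∈ S) :
    t w ∣ w.1.natAbs := by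
  rw [h.x w hw]
  exact Dvd.dvd.mul_left (dvd_pow_self _ (by have := h.hl; omega)) _

private theorem pf1_A_nat (h : PfData Z D f k e l S c A t) {w : ℤ × ℤ} (hw : w ∈ S) :
    A w ∣ w.1.natAbs := by
  rw [h.x w hw]
  exact Dvd.dvd.mul_right (Dvd.intro_left _ rfl) _

private theorem pf1_t_dvd (h : PfData Z D f k e l S c A t) {w : ℤ × ℤ} (hw : w ∈ S) :
    ((t w : ℕ) : ℤ) ∣ w.1 := Int.natCast_dvd.2 (pf1_t_nat h hw)

private theorem pf1_A_dvd (h : PfData Z D f k e l S c A t) {w : ℤ × ℤ} (hw : w ∈ S) :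
    ((A w : ℕ) : ℤ) ∣ w.1 := Int.natCast_dvd.2 (pf1_A_nat h hw)

/-- `A w` and `t w` divide the norm; `lbl_eq_idl` (AlE). -/
theorem pz_root_t (h : PfData Z D f k e l S c A t) {w : ℤ × ℤ} (hw : w ∈ S) :
    ∃ r : ℤ, ((t w : ℕ) : ℤ) ∣ r ^ 2 - D ∧ lbl (t w) (pz D f k c w) = idl D (t w) r := by
  obtain ⟨r, h1, -, h2⟩ := lbl_eq_idl (pz D f k c w) (A := t w) (h.t_odd w hw).pos
    (by rw [pz_norm h hw]; exact pf1_t_dvd h hw) (pz_cop h hw)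
  exact ⟨r, h1, h2⟩

theorem pz_root_A (h : PfData Z D f k e l S c A t) {w : ℤ × ℤ} (hw : w ∈ S) :
    ∃ r : ℤ, ((A w : ℕ) : ℤ) ∣ r ^ 2 - D ∧ lbl (A w) (pz D f k c w) = idl D (A w) r := by
  obtain ⟨r, h1, -, h2⟩ := lbl_eq_idl (pz D f k c w) (A := A w) (h.A_odd w hw).pos
    (by rw [pz_norm h hw]; exact pf1_A_dvd h hw) (pz_cop h hw)
  exact ⟨r, h1, h2⟩

/-- `lbl_mul_cj` (AlD). -/
theorem pz_cj_A (h : PfData Z D f k e l S c A t) {w : ℤ × ℤ} (hw : w ∈ S) :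
    lbl (A w) (pz D f k c w) * cj (lbl (A w) (pz D f k c w)) = Ideal.span {((A w : ℕ) : ℤ√D)} :=
  lbl_mul_cj (pz D f k c w) (h.A_odd w hw) (by rw [pz_norm h hw]; exact pf1_A_dvd h hw)
    (pz_cop h hw)

private theorem pf1_cop (h : PfData Z D f k e l S c A t) {w : ℤ × ℤ} (hw : w ∈ S) {a : ℤ}
    (ha : a ∣ w.1) : IsCoprime a (D * f) := by
  have h1 : IsCoprime a w.2 := (h.cop w hw).of_isCoprime_of_dvd_left ha
  refine h1.of_isCoprime_of_dvd_right ⟨((c w : ℤ) ^ k) ^ 2 * f, ?_⟩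
  rw [h.y w hw]
  ring

/-- `t w` is prime to `D f`: it divides `w.1`, which is prime to `w.2 = (c^k f)^2 D`. The same for `A w`. -/
theorem pz_cop_t (h : PfData Z D f k e l S c A t) {w : ℤ × ℤ} (hw : w ∈ S) :
    IsCoprime ((t w : ℕ) : ℤ) (D * f) := pf1_cop h hw (pf1_t_dvd h hw)

theorem pz_cop_A (h : PfData Z D f k e l S c A t) {w : ℤ × ℤ} (hw : w ∈ S) :
    IsCoprime ((A w : ℕ) : ℤ) (D * f) := pf1_cop h hw (pf1_A_dvd h hw)

/-- `1 ≤ t ≤ |w.1| ≤ Z`, `1 ≤ A ≤ |w.1| ≤ Z`. -/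
theorem pz_le (h : PfData Z D f k e l S c A t) {w : ℤ × ℤ} (hw : w ∈ S) :
    1 ≤ t w ∧ 1 ≤ A w ∧ (t w : ℝ) ≤ Z ∧ (A w : ℝ) ≤ Z := by
  have h0 : 0 < w.1.natAbs := Int.natAbs_pos.2 (h.nx w hw)
  have h1 : ((t w : ℕ) : ℝ) ≤ (w.1.natAbs : ℝ) := by
    exact_mod_cast Nat.le_of_dvd h0 (pf1_t_nat h hw)
  have h2 : ((A w : ℕ) : ℝ) ≤ (w.1.natAbs : ℝ) := by
    exact_mod_cast Nat.le_of_dvd h0 (pf1_A_nat h hw)
  exact ⟨(h.t_odd w hw).pos, (h.A_odd w hw).pos, h1.trans (h.xZ w hw), h2.trans (h.xZ w hw)⟩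

/-- equal labels have the same number (`lbl_inj`, AlE). -/
theorem pz_inj_A (h : PfData Z D f k e l S c A t) {w w' : ℤ × ℤ} (hw : w ∈ S) (hw' : w' ∈ S)
    (he : lbl (A w) (pz D f k c w) = lbl (A w') (pz D f k c w')) : A w = A w' :=
  (lbl_inj (pz D f k c w) (pz D f k c w') (h.A_odd w hw).pos (h.A_odd w' hw').pos
    (by rw [pz_norm h hw]; exact pf1_A_dvd h hw) (by rw [pz_norm h hw']; exact pf1_A_dvd h hw')
    (pz_cop h hw) (pz_cop h hw') he).1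

theorem pz_inj_t (h : PfData Z D f k e l S c A t) {w w' : ℤ × ℤ} (hw : w ∈ S) (hw' : w' ∈ S)
    (he : lbl (t w) (pz D f k c w) = lbl (t w') (pz D f k c w')) : t w = t w' :=
  (lbl_inj (pz D f k c w) (pz D f k c w') (h.t_odd w hw).pos (h.t_odd w' hw').pos
    (by rw [pz_norm h hw]; exact pf1_t_dvd h hw) (by rw [pz_norm h hw']; exact pf1_t_dvd h hw')
    (pz_cop h hw) (pz_cop h hw') he).1

private theorem pf1_im_pos (h : PfData Z D f k e l S c A t) {w : ℤ × ℤ} (hw : w ∈ S) :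
    0 < (pz D f k c w).im := by
  have h1 : (0 : ℤ) < c w := by exact_mod_cast h.c1 w hw
  have h2 : (0 : ℤ) < f := by exact_mod_cast h.hf
  exact mul_pos (pow_pos h1 k) h2

private theorem pf1_im_le (h : PfData Z D f k e l S c A t) {w w' : ℤ × ℤ} (hw : w ∈ S)
    (hw' : w' ∈ S) : (pz D f k c w).im ≤ 2 * (pz D f k c w').im := by
  have h1 := (h.cmp w hw w' hw').2.1
  have h2 : (w.2.natAbs : ℤ) ≤ 2 * (w'.2.natAbs : ℤ) := by exact_mod_cast h1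
  rw [← pz_y h hw, ← pz_y h hw'] at h2
  have hD : 0 < |D| := abs_pos.2 h.hD.ne_zero
  have h3 := pf1_im_pos h hw
  have h4 := pf1_im_pos h hw'
  have h5 : (pz D f k c w).im ^ 2 ≤ 2 * (pz D f k c w').im ^ 2 := by
    refine le_of_mul_le_mul_left ?_ hD
    linarith
  nlinarith

private theorem pf1_norm (h : PfData Z D f k e l S c A t) {w : ℤ × ℤ} (hw : w ∈ S) :
    ((|(pz D f k c w).norm| : ℤ) : ℝ) = (w.1.natAbs : ℝ) := by
  rw [pz_norm h hw, Nat.cast_natAbs]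

/-- `BR_pair` (AlK) with `κ0 = 1000`: `c^k f ≤ 2 c'^k f` follows from `|w.2| ≤ 2 |w'.2|`. -/
theorem pz_BR (h : PfData Z D f k e l S c A t) {θ : ℝ} (hθ : ThetaOK θ S) {w w' : ℤ × ℤ} (hw : w ∈ S) (hw' : w' ∈ S) :
    BR 1000 θ (pz D f k c w * star (pz D f k c w')) := by
  have hxx := (h.cmp w hw w' hw').1
  have hxx' := (h.cmp w' hw' w hw).1
  refine BR_pair h.hD.ne_zero (gg_nonneg w) (gg_nonneg w') (pf1_im_pos h hw) (pf1_im_pos h hw')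
    ?_ ?_ ?_ ?_ ?_ ?_ ?_ rfl ?_
  · rw [pf1_norm h hw, pf1_norm h hw']
    exact_mod_cast hxx
  · rw [pf1_norm h hw, pf1_norm h hw']
    exact_mod_cast hxx'
  · rw [pz_norm h hw, pz_norm h hw']
    exact (h.cmp w hw w' hw').2.2
  · rw [pz_norm h hw]
    exact h.nx w hw
  · rw [pz_norm h hw']
    exact h.nx w' hw'
  · exact_mod_cast pf1_im_le h hw hw'
  · exact_mod_cast pf1_im_le h hw' hw
  · have h1 := (hθ.2.2 w hw).1
    rw [pf1_norm h hw, pz_y h hw, Int.cast_natCast]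
    exact h1

end

end Hp

end Pool.Agent.Lib.MP_d8bd92_nt
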