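import Pool.Agent.Lib.MP_d8bd92_nt.Hp.Pf1

set_option autoImplicit false

/-!
MP_d8bd92_nt, block 3.C, file Pf2: pairs of elements with the same label are data for the lattice lemma.
-/

namespace Pool.Agent.Lib.MP_d8bd92_nt

namespace Hp

open Finset Pool.Agent.Lib.Szpiro

private theorem pf2_cj_pow {D : ℤ} (I : Ideal (ℤ√D)) (n : ℕ) : cj (I ^ n) = cj I ^ n := by
  unfold cj; exact Ideal.map_pow _ _ _

private theorem pf2_root {Z : ℝ} {D : ℤ} {f k e l : ℕ} {S : Finset (ℤ × ℤ)} {c A t : ℤ × ℤ → ℕ}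
    (h : PfData Z D f k e l S c A t) {w w' : ℤ × ℤ} (hw : w ∈ S) (hw' : w' ∈ S)
    (hc : Nat.Coprime (t w) (t w')) :
    ∃ r : ℤ, ((t w * t w' : ℕ) : ℤ) ∣ r ^ 2 - D ∧
      idl D (t w * t w') r = lbl (t w) (pz D f k c w) * cj (lbl (t w') (pz D f k c w')) := by
  obtain ⟨r1, h1, e1⟩ := pz_root_t h hw
  obtain ⟨r2, h2, e2⟩ := pz_root_t h hw'
  have hco : IsCoprime ((t w : ℕ) : ℤ) ((t w' : ℕ) : ℤ) := Nat.isCoprime_iff_coprime.2 hc
  obtain ⟨u, v, huv⟩ := hco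
  have d1 : ((t w : ℕ) : ℤ) ∣ (r1 * (v * (t w' : ℕ)) - r2 * (u * (t w : ℕ))) - r1 :=
    ⟨-(r1 + r2) * u, by linear_combination r1 * huv⟩
  have d2 : ((t w' : ℕ) : ℤ) ∣ (r1 * (v * (t w' : ℕ)) - r2 * (u * (t w : ℕ))) - (-r2) :=
    ⟨(r1 + r2) * v, by linear_combination (-r2) * huv⟩
  set r : ℤ := r1 * (v * (t w' : ℕ)) - r2 * (u * (t w : ℕ)) with hr
  refine ⟨r, ?_, ?_⟩
  · rw [Nat.cast_mul]
    apply IsCoprime.mul_dvd (Nat.isCoprime_iff_coprime.2 hc)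
    · have : r ^ 2 - D = (r - r1) * (r + r1) + (r1 ^ 2 - D) := by ring
      rw [this]
      exact dvd_add (d1.mul_right _) h1
    · have : r ^ 2 - D = (r - (-r2)) * (r - r2) + (r2 ^ 2 - D) := by ring
      rw [this]
      exact dvd_add (d2.mul_right _) h2
  · rw [idl_mul_coprime r hc, idl_congr d1, idl_congr d2, e1, e2, cj_idl]

/-- Row Pf2 (uses Pf1 and Alpha).  For `p = (w, w') ∈ T` put `z = pz w`, `z' = pz w'`, `Ω = z * star z'`, `En = t w * t w'`.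
`t = idl D (t w) r1`, `t' = idl D (t w') r2` (pz_root_t), `cj t' = idl D (t w') (-r2)` (cj_idl); by the Chinese remainder theorem there is
`r p` with `r ≡ r1 mod t w`, `r ≡ - r2 mod t w'`; then `idl D (t w * t w') r = lbl (t w) z * cj (lbl (t w') z')` (idl_mul_coprime, idl_congr).
fac: `(z) = q * a * t^l` (pz_span), `(star z') = cj (z') = cj q * cj a * (cj t')^l` (cj_span, cj_mul, Ideal.map_pow), `a * cj a = (A w)` (pz_cj_A).
bal, real: pz_BR.  size: hh_mul, hh_star, pz_hh: `2 (3 Z)^2`.  cop: norm Ω = w.1 * w'.1, prime to `f`.  hEX: `E ≤ t t' ≤ Z^2`.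
hDX, hfX: `(c^k f)^2 |D| = |w.2| ≤ Z`. -/
theorem pf_lldata {Z : ℝ} {D : ℤ} {f k e l : ℕ} {S : Finset (ℤ × ℤ)} {c A t : ℤ × ℤ → ℕ}
    (h : PfData Z D f k e l S c A t) {θ : ℝ} (hθ : ThetaOK θ S) {q : Ideal (ℤ√D)}
    (hq : ∀ w ∈ S, lbl (2 ^ e) (pz D f k c w) = q) {E : ℕ} (hE : 1 ≤ E)
    {T : Finset ((ℤ × ℤ) × (ℤ × ℤ))} (hT0 : T.Nonempty)
    (hT : ∀ p ∈ T, p.1 ∈ S ∧ p.2 ∈ S ∧ lbl (A p.1) (pz D f k c p.1) = lbl (A p.2) (pz D f k c p.2) ∧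
      Nat.Coprime (t p.1) (t p.2) ∧ E ≤ t p.1 * t p.2 ∧ t p.1 * t p.2 ≤ 2 * E)
    (hinj : ∀ p ∈ T, ∀ p' ∈ T, lbl (t p.1) (pz D f k c p.1) * cj (lbl (t p.2) (pz D f k c p.2)) =
      lbl (t p'.1) (pz D f k c p'.1) * cj (lbl (t p'.2) (pz D f k c p'.2)) → p = p') :
    ∃ r : (ℤ × ℤ) × (ℤ × ℤ) → ℤ, LLData 1000 (18 * Z ^ 2) D f l (E : ℝ) θ T
      (fun p => pz D f k c p.1 * star (pz D f k c p.2)) (fun p => t p.1 * t p.2) (fun p => A p.1) r (q * cj q) := by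
  classical
  obtain ⟨p0, hp0⟩ := hT0
  obtain ⟨hw0, -⟩ := hT p0 hp0
  have hZ0 : 0 < Z := by linarith [h.hZ]
  have hZZ : Z ≤ 18 * Z ^ 2 := by nlinarith [h.hZ]
  have hZ2 : Z ^ 2 ≤ 18 * Z ^ 2 := by nlinarith [h.hZ]
  have hroot : ∀ p : (ℤ × ℤ) × (ℤ × ℤ), ∃ r : ℤ, p ∈ T → (((t p.1 * t p.2 : ℕ) : ℤ) ∣ r ^ 2 - D ∧
      idl D (t p.1 * t p.2) r = lbl (t p.1) (pz D f k c p.1) * cj (lbl (t p.2) (pz D f k c p.2))) := by
    intro p
    by_cases hp : p ∈ T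
    · obtain ⟨h1, h2, -, h4, -⟩ := hT p hp
      obtain ⟨r, hr⟩ := pf2_root h h1 h2 h4
      exact ⟨r, fun _ => hr⟩
    · exact ⟨0, fun h' => absurd h' hp⟩
  choose r hr using hroot
  have hyn : ∀ w ∈ S, w.2.natAbs = (c w ^ k * f) ^ 2 * D.natAbs := by
    intro w hw
    rw [h.y w hw, Int.natAbs_mul, Int.natAbs_pow, Int.natAbs_mul, Int.natAbs_pow, Int.natAbs_natCast,
      Int.natAbs_natCast]
  have hDn : 1 ≤ D.natAbs := Nat.one_le_iff_ne_zero.2 (Int.natAbs_ne_zero.2 h.hD.ne_zero)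
  have hcf : ∀ w ∈ S, 1 ≤ c w ^ k := fun w hw => Nat.one_le_pow _ _ (h.c1 w hw)
  have hnorm : ∀ p ∈ T, (pz D f k c p.1 * star (pz D f k c p.2)).norm = p.1.1 * p.2.1 := by
    intro p hp
    obtain ⟨h1, h2, -⟩ := hT p hp
    rw [Zsqrtd.norm_mul, Zsqrtd.norm_conj, pz_norm h h1, pz_norm h h2]
  have hcopf : ∀ w ∈ S, IsCoprime w.1 (f : ℤ) := by
    intro w hw
    have h1 := h.cop w hw
    rw [h.y w hw] at h1
    have h2 : (f : ℤ) ∣ ((c w : ℤ) ^ k * f) ^ 2 * D :=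
      ⟨(c w : ℤ) ^ k * ((c w : ℤ) ^ k * f) * D, by ring⟩
    exact h1.of_isCoprime_of_dvd_right h2
  refine ⟨r, ?_⟩
  refine
    { hX := by nlinarith [h.hZ]
      hD := h.hD
      hD1 := h.hD1
      hDX := ?_
      hf := h.hf
      hfX := ?_
      hl := h.hl
      hE := by exact_mod_cast hE
      hEX := ?_
      hθ := hθ.1
      hθ1 := hθ.2.1
      im_dvd := ?_
      nz := ?_
      cop := ?_
      s_pos := ?_
      E_odd := ?_
      E_cop := ?_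
      root := ?_
      E_lo := ?_
      E_hi := ?_
      fac := ?_
      bal := ?_
      size := ?_
      real := ?_
      inj := ?_ }
  · have h1 : D.natAbs ≤ p0.1.2.natAbs := by
      rw [hyn p0.1 hw0]
      exact Nat.le_mul_of_pos_left _ (pow_pos (Nat.mul_pos (hcf _ hw0) h.hf) 2)
    have h2 : ((|D| : ℤ) : ℝ) = (D.natAbs : ℝ) := by
      rw [Int.abs_eq_natAbs, Int.cast_natCast]
    rw [h2]
    calc (D.natAbs : ℝ) ≤ (p0.1.2.natAbs : ℝ) := by exact_mod_cast h1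
      _ ≤ Z := h.yZ _ hw0
      _ ≤ _ := hZZ
  · have h1 : f ≤ p0.1.2.natAbs := by
      rw [hyn p0.1 hw0]
      have h3 := hcf _ hw0
      have h4 := h.hf
      calc f = 1 * f := (one_mul f).symm
        _ ≤ c p0.1 ^ k * f := Nat.mul_le_mul_right _ h3
        _ ≤ (c p0.1 ^ k * f) ^ 2 := Nat.le_self_pow (by norm_num) _
        _ ≤ (c p0.1 ^ k * f) ^ 2 * D.natAbs := Nat.le_mul_of_pos_right _ hDn
    calc (f : ℝ) ≤ (p0.1.2.natAbs : ℝ) := by exact_mod_cast h1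
      _ ≤ Z := h.yZ _ hw0
      _ ≤ _ := hZZ
  · obtain ⟨h1, h2, -, -, h5, -⟩ := hT p0 hp0
    obtain ⟨-, -, h6, -⟩ := pz_le h h1
    obtain ⟨-, -, h7, -⟩ := pz_le h h2
    calc (E : ℝ) ≤ ((t p0.1 * t p0.2 : ℕ) : ℝ) := by exact_mod_cast h5
      _ = (t p0.1 : ℝ) * t p0.2 := by push_cast; ring
      _ ≤ Z * Z := mul_le_mul h6 h7 (Nat.cast_nonneg _) hZ0.le
      _ = Z ^ 2 := by ring
      _ ≤ _ := hZ2
  · intro p hp
    have e1 : (pz D f k c p.1).im = (c p.1 : ℤ) ^ k * f := rfl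
    have e2 : (pz D f k c p.2).im = (c p.2 : ℤ) ^ k * f := rfl
    have e3 : (pz D f k c p.1 * star (pz D f k c p.2)).im =
        (pz D f k c p.1).re * -(pz D f k c p.2).im + (pz D f k c p.1).im * (pz D f k c p.2).re := by
      rw [Zsqrtd.im_mul, Zsqrtd.im_star, Zsqrtd.re_star]
    rw [e3, e1, e2]
    exact ⟨(pz D f k c p.1).re * -((c p.2 : ℤ) ^ k) + (c p.1 : ℤ) ^ k * (pz D f k c p.2).re, by ring⟩
  · intro p hp h0
    have h1 := hnorm p hp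
    change pz D f k c p.1 * star (pz D f k c p.2) = 0 at h0
    rw [h0, Zsqrtd.norm_zero] at h1
    obtain ⟨a1, a2, -⟩ := hT p hp
    exact mul_ne_zero (h.nx _ a1) (h.nx _ a2) h1.symm
  · intro p hp
    obtain ⟨a1, a2, -⟩ := hT p hp
    rw [hnorm p hp]
    exact (hcopf _ a1).mul_left (hcopf _ a2)
  · intro p hp
    exact (pz_le h (hT p hp).1).2.1
  · intro p hp
    obtain ⟨a1, a2, -⟩ := hT p hp
    exact (h.t_odd _ a1).mul (h.t_odd _ a2)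
  · intro p hp
    obtain ⟨a1, a2, -⟩ := hT p hp
    rw [Nat.cast_mul]
    exact (pz_cop_t h a1).mul_left (pz_cop_t h a2)
  · intro p hp
    exact (hr p hp).1
  · intro p hp
    obtain ⟨-, -, -, -, a5, -⟩ := hT p hp
    exact_mod_cast a5
  · intro p hp
    obtain ⟨-, -, -, -, -, a6⟩ := hT p hp
    exact_mod_cast a6
  · intro p hp
    obtain ⟨a1, a2, a3, a4, -⟩ := hT p hp
    have e1 := pz_span h a1
    have e2 : Ideal.span {star (pz D f k c p.2)} = cj q * cj (lbl (A p.1) (pz D f k c p.1)) *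
        cj (lbl (t p.2) (pz D f k c p.2)) ^ l := by
      rw [← cj_span, pz_span h a2, cj_mul, cj_mul, pf2_cj_pow, hq _ a2, ← a3]
    rw [hq _ a1] at e1
    have e3 := pz_cj_A h a1
    rw [(hr p hp).2, ← Ideal.span_singleton_mul_span_singleton, e1, e2, ← e3, mul_pow]
    ring
  · intro p hp
    obtain ⟨a1, a2, -⟩ := hT p hp
    exact (pz_BR h hθ a1 a2).1
  · intro p hp
    obtain ⟨a1, a2, -⟩ := hT p hp
    have e1 := hh_mul (pz D f k c p.1) (star (pz D f k c p.2))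
    rw [hh_star] at e1
    have e2 : ((hh (pz D f k c p.1 * star (pz D f k c p.2)) : ℤ) : ℝ) ≤
        2 * ((hh (pz D f k c p.1) : ℤ) : ℝ) * ((hh (pz D f k c p.2) : ℤ) : ℝ) := by exact_mod_cast e1
    have e3 := pz_hh h a1
    have e4 := pz_hh h a2
    have e5 : (0 : ℝ) ≤ ((hh (pz D f k c p.2) : ℤ) : ℝ) := by
      have : 0 ≤ hh (pz D f k c p.2) := by unfold hh; positivity
      exact_mod_cast this
    calc _ ≤ _ := e2
      _ ≤ 2 * (3 * Z) * (3 * Z) := by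
          apply mul_le_mul _ e4 e5 (by positivity)
          linarith
      _ = 18 * Z ^ 2 := by ring
  · intro p hp
    obtain ⟨a1, a2, -⟩ := hT p hp
    exact (pz_BR h hθ a1 a2).2
  · intro p hp p' hp' heq
    apply hinj p hp p' hp'
    rw [← (hr p hp).2, ← (hr p' hp').2]
    exact heq

end Hp

end Pool.Agent.Lib.MP_d8bd92_nt
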