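import Pool.Agent.Lib.MP_d8bd92_nt.Hp.Pf2
import Pool.Agent.Lib.MP_d8bd92_nt.Hp.LM

set_option autoImplicit false

/-!
MP_d8bd92_nt, block 3.C, file Pf3: number of pairs of `t`-labels.
-/

namespace Pool.Agent.Lib.MP_d8bd92_nt

namespace Hp

open Finset Pool.Agent.Lib.Szpiro

/-- a subset with the same image on which the map is injective -/
private theorem pf3_inj {α β : Type} [DecidableEq α] [DecidableEq β] (T : Finset α) (φ : α → β) :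
    ∃ T' : Finset α, T' ⊆ T ∧ (∀ p ∈ T', ∀ p' ∈ T', φ p = φ p' → p = p') ∧ T'.card = (T.image φ).card := by
  have h1 : ∀ b ∈ T.image φ, ∃ a ∈ T, φ a = b := fun b hb => by
    obtain ⟨a, ha, hab⟩ := Finset.mem_image.1 hb
    exact ⟨a, ha, hab⟩
  choose g hg1 hg2 using h1
  refine ⟨(T.image φ).attach.image (fun b => g b.1 b.2), ?_, ?_, ?_⟩
  · intro a ha
    obtain ⟨b, _, rfl⟩ := Finset.mem_image.1 ha
    exact hg1 b.1 b.2
  · intro p hp p' hp' he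
    obtain ⟨b, _, rfl⟩ := Finset.mem_image.1 hp
    obtain ⟨b', _, rfl⟩ := Finset.mem_image.1 hp'
    have hbb : b = b' := by
      apply Subtype.ext
      have e1 := hg2 b.1 b.2
      have e2 := hg2 b'.1 b'.2
      rw [← e1, ← e2]
      exact he
    rw [hbb]
  · rw [Finset.card_image_of_injective, Finset.card_attach]
    intro b b' he
    apply Subtype.ext
    have e1 := hg2 b.1 b.2
    have e2 := hg2 b'.1 b'.2
    have he' : g b.1 b.2 = g b'.1 b'.2 := he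
    rw [← e1, ← e2, he']

private theorem pf3_j {Z : ℝ} {n : ℕ} (hn : 1 ≤ n) (hnZ : (n : ℝ) ≤ Z ^ 2) :
    Nat.log 2 n ∈ Finset.range (⌊2 * Real.log Z / Real.log 2⌋₊ + 1) := by
  have hl2 : 0 < Real.log 2 := Real.log_pos (by norm_num)
  rw [Finset.mem_range, Nat.lt_succ_iff]
  apply Nat.le_floor
  rw [le_div_iff₀ hl2]
  have h0 : 2 ^ Nat.log 2 n ≤ n := Nat.pow_log_le_self 2 (by omega)
  have h1 : ((2 ^ Nat.log 2 n : ℕ) : ℝ) ≤ Z ^ 2 := le_trans (by exact_mod_cast h0) hnZ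
  have h2 := Real.log_le_log (by positivity) h1
  push_cast at h2
  rw [Real.log_pow, Real.log_pow] at h2
  push_cast at h2
  linarith

private theorem pf3_num {ε Z : ℝ} (hε : 0 < ε) (hZ : 1 ≤ Z) :
    ((⌊2 * Real.log Z / Real.log 2⌋₊ + 1 : ℕ) : ℝ) ≤ (1 + 6 / (ε * Real.log 2)) * Z ^ (ε / 3) := by
  have hl2 : 0 < Real.log 2 := Real.log_pos (by norm_num)
  have hlZ : 0 ≤ Real.log Z := Real.log_nonneg hZ
  have h1 : (⌊2 * Real.log Z / Real.log 2⌋₊ : ℝ) ≤ 2 * Real.log Z / Real.log 2 := Nat.floor_le (by positivity)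
  have h2 := Real.log_le_rpow_div (x := Z) (by linarith) (show 0 < ε / 3 by positivity)
  have h3 : (1 : ℝ) ≤ Z ^ (ε / 3) := Real.one_le_rpow hZ (by positivity)
  have h4 : 2 * Real.log Z / Real.log 2 ≤ 6 / (ε * Real.log 2) * Z ^ (ε / 3) := by
    calc 2 * Real.log Z / Real.log 2 ≤ 2 * (Z ^ (ε / 3) / (ε / 3)) / Real.log 2 := by gcongr
      _ = 6 / (ε * Real.log 2) * Z ^ (ε / 3) := by field_simp; ring
  push_cast
  linarith

/-- one dyadic class -/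
private theorem pf3_class {ε C2 C3 : ℝ} {L : ℕ} (hC2 : 0 < C2) (hC3 : 0 < C3)
    (h2 : ∀ (X : ℝ) (D : ℤ) (f l : ℕ) (E θ : ℝ) (ι : Type) (S : Finset ι) (Ω : ι → ℤ√D) (En s : ι → ℕ)
      (r : ι → ℤ) (W : Ideal (ℤ√D)), l ≤ L → LLData 1000 X D f l E θ S Ω En s r W →
      (S.card : ℝ) ≤ C2 * X ^ (ε / 6) * √((|D| : ℤ) : ℝ) * (1 + θ * E / ((f : ℝ) * √((|D| : ℤ) : ℝ))))
    (h3 : ∀ (X : ℝ) (D : ℤ) (f : ℕ) (E θ : ℝ) (ι : Type) (S : Finset ι) (Ω : ι → ℤ√D) (En s : ι → ℕ)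
      (r : ι → ℤ) (W : Ideal (ℤ√D)), LLData 1000 X D f 1 E θ S Ω En s r W →
      (S.card : ℝ) ≤ C3 * X ^ (ε / 6) * (1 + θ * E / ((f : ℝ) * √((|D| : ℤ) : ℝ))))
    {Z : ℝ} {D : ℤ} {f k e l : ℕ} {S : Finset (ℤ × ℤ)} {c A t : ℤ × ℤ → ℕ} (hlL : l ≤ L)
    (h : PfData Z D f k e l S c A t) {θ E1 : ℝ} (hθ : ThetaOK θ S) (hE1 : 1 ≤ E1) {q : Ideal (ℤ√D)}
    (hq : ∀ w ∈ S, lbl (2 ^ e) (pz D f k c w) = q) (j : ℕ)
    {T : Finset ((ℤ × ℤ) × (ℤ × ℤ))}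
    (hT : ∀ p ∈ T, p.1 ∈ S ∧ p.2 ∈ S ∧ lbl (A p.1) (pz D f k c p.1) = lbl (A p.2) (pz D f k c p.2) ∧
      Nat.Coprime (t p.1) (t p.2) ∧ ((t p.1 * t p.2 : ℕ) : ℝ) ≤ E1 ∧ 2 ^ j ≤ t p.1 * t p.2 ∧
      t p.1 * t p.2 ≤ 2 * 2 ^ j)
    (hinj : ∀ p ∈ T, ∀ p' ∈ T, lbl (t p.1) (pz D f k c p.1) * cj (lbl (t p.2) (pz D f k c p.2)) =
      lbl (t p'.1) (pz D f k c p'.1) * cj (lbl (t p'.2) (pz D f k c p'.2)) → p = p') :
    (T.card : ℝ) ≤ (C2 + C3) * (18 * Z ^ 2) ^ (ε / 6) * (if l = 1 then 1 else √((|D| : ℤ) : ℝ)) *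
      (1 + θ * E1 / ((f : ℝ) * √((|D| : ℤ) : ℝ))) := by
  have hθ0 : 0 < θ := hθ.1
  have hX0 : (0 : ℝ) ≤ (18 * Z ^ 2) ^ (ε / 6) := Real.rpow_nonneg (by positivity) _
  rcases T.eq_empty_or_nonempty with hT0 | hT0
  · rw [hT0]
    simp only [Finset.card_empty, Nat.cast_zero]
    have : (0 : ℝ) ≤ (if l = 1 then 1 else √((|D| : ℤ) : ℝ)) := by split_ifs <;> positivity
    positivity
  · obtain ⟨r, hr⟩ := pf_lldata h hθ hq (E := 2 ^ j) Nat.one_le_two_pow hT0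
      (fun p hp => ⟨(hT p hp).1, (hT p hp).2.1, (hT p hp).2.2.1, (hT p hp).2.2.2.1,
        (hT p hp).2.2.2.2.2.1, (hT p hp).2.2.2.2.2.2⟩) hinj
    obtain ⟨p, hp⟩ := hT0
    have hE : ((2 ^ j : ℕ) : ℝ) ≤ E1 := le_trans (by exact_mod_cast (hT p hp).2.2.2.2.2.1) (hT p hp).2.2.2.2.1
    have hG : 1 + θ * ((2 ^ j : ℕ) : ℝ) / ((f : ℝ) * √((|D| : ℤ) : ℝ)) ≤
        1 + θ * E1 / ((f : ℝ) * √((|D| : ℤ) : ℝ)) := by gcongr
    have hG0 : 0 ≤ 1 + θ * ((2 ^ j : ℕ) : ℝ) / ((f : ℝ) * √((|D| : ℤ) : ℝ)) := by positivity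
    by_cases hl : l = 1
    · subst hl
      rw [if_pos rfl, mul_one]
      refine (h3 _ _ _ _ _ _ _ _ _ _ _ _ hr).trans ?_
      have : C3 ≤ C2 + C3 := by linarith
      gcongr
    · rw [if_neg hl]
      refine (h2 _ _ _ _ _ _ _ _ _ _ _ _ _ hlL hr).trans ?_
      have : C2 ≤ C2 + C3 := by linarith
      gcongr

/-- labels of the pairs are of the form required by `card_prod_le` -/
private theorem pf3_lab {Z : ℝ} {D : ℤ} {f k e l : ℕ} {S : Finset (ℤ × ℤ)} {c A t : ℤ × ℤ → ℕ}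
    (h : PfData Z D f k e l S c A t) {w : ℤ × ℤ} (hw : w ∈ S) :
    ∃ (a : ℕ) (r : ℤ), 1 ≤ a ∧ (a : ℝ) ≤ Z ∧ Odd a ∧ IsCoprime (a : ℤ) D ∧ (a : ℤ) ∣ r ^ 2 - D ∧
        lbl (t w) (pz D f k c w) = idl D a r := by
  obtain ⟨r, hr1, hr2⟩ := pz_root_t h hw
  obtain ⟨h1, _, h3, _⟩ := pz_le h hw
  exact ⟨t w, r, h1, h3, h.t_odd w hw, (pz_cop_t h hw).of_mul_right_left, hr1, hr2⟩

open scoped Classical in
/-- Row Pf3 (uses Pf2, ll_lemma, ll_one, card_prod_le (AlH)).  `T` empty is clear.  `φ p := lbl (t p.1) z * cj (lbl (t p.2) z')`.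
(1) `#(T.image (pairs)) ≤ C Z^(ε/3) * #(T.image φ)` : the fibres over one ideal have at most `C Z^(ε/3)` elements by card_prod_le (Z).
(2) Dyadic classes: `j p := Nat.log 2 (t p.1 * t p.2)`, `2^j ≤ t t' < 2^(j+1)`, `t t' ≤ Z^2`, so at most `1 + 2 log Z / log 2 ≤ C Z^(ε/3)` values of `j`.
(3) For one `j` take `T' ⊆ T` on which `φ` is injective with the same image as `T.filter (j p = j)`; pf_lldata with `E = 2^j`, then ll_lemma or ll_one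
(`l = 1`) with `C0 = 1000`, `X = 18 Z^2` and the exponent `ε/6`: at most `C Z^(ε/3) √|D| (1 + θ 2^j / (f √|D|))`, and `2^j ≤ t t' ≤ E1`. -/
theorem pf_pairs (ε : ℝ) (hε : 0 < ε) (L : ℕ) : ∃ C : ℝ, 0 < C ∧
    ∀ (Z : ℝ) (D : ℤ) (f k e l : ℕ) (S : Finset (ℤ × ℤ)) (c A t : ℤ × ℤ → ℕ) (θ E1 : ℝ) (q : Ideal (ℤ√D))
      (T : Finset ((ℤ × ℤ) × (ℤ × ℤ))), l ≤ L → PfData Z D f k e l S c A t → ThetaOK θ S → 1 ≤ E1 →
      (∀ w ∈ S, lbl (2 ^ e) (pz D f k c w) = q) →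
      (∀ p ∈ T, p.1 ∈ S ∧ p.2 ∈ S ∧ lbl (A p.1) (pz D f k c p.1) = lbl (A p.2) (pz D f k c p.2) ∧
        Nat.Coprime (t p.1) (t p.2) ∧ ((t p.1 * t p.2 : ℕ) : ℝ) ≤ E1) →
      ((T.image (fun p => (lbl (t p.1) (pz D f k c p.1), lbl (t p.2) (pz D f k c p.2)))).card : ℝ) ≤
        C * Z ^ ε * (if l = 1 then 1 else √((|D| : ℤ) : ℝ)) * (1 + θ * E1 / ((f : ℝ) * √((|D| : ℤ) : ℝ))) := by
  obtain ⟨C1, hC1, h1⟩ := card_prod_le (ε / 3) (by positivity)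
  obtain ⟨C2, hC2, h2⟩ := ll_lemma (ε / 6) (by positivity) L 1000 (by norm_num)
  obtain ⟨C3, hC3, h3⟩ := ll_one (ε / 6) (by positivity) 1000 (by norm_num)
  have hl2 : 0 < Real.log 2 := Real.log_pos (by norm_num)
  have hM : 0 < 1 + 6 / (ε * Real.log 2) := by positivity
  have hK : (0 : ℝ) < 18 ^ (ε / 6) := Real.rpow_pos_of_pos (by norm_num) _
  refine ⟨C1 * (1 + 6 / (ε * Real.log 2)) * ((C2 + C3) * 18 ^ (ε / 6)), by positivity, ?_⟩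
  intro Z D f k e l S c A t θ E1 q T hlL h hθ hE1 hq hT
  have hZ : 1 ≤ Z := h.hZ
  have hZ0 : 0 < Z := by linarith
  have hθ0 : 0 < θ := hθ.1
  set F : ℝ := (if l = 1 then 1 else √((|D| : ℤ) : ℝ)) with hF
  set G : ℝ := 1 + θ * E1 / ((f : ℝ) * √((|D| : ℤ) : ℝ)) with hG
  have hF0 : 0 ≤ F := by rw [hF]; split_ifs <;> positivity
  have hG0 : 0 ≤ G := by rw [hG]; positivity
  have hY : (18 * Z ^ 2) ^ (ε / 6) = 18 ^ (ε / 6) * Z ^ (ε / 3) := by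
    rw [Real.mul_rpow (by norm_num) (by positivity), ← Real.rpow_natCast Z 2, ← Real.rpow_mul hZ0.le]
    congr 2
    push_cast
    ring
  -- the maps
  set g : (ℤ × ℤ) × (ℤ × ℤ) → Ideal (ℤ√D) × Ideal (ℤ√D) :=
    fun p => (lbl (t p.1) (pz D f k c p.1), lbl (t p.2) (pz D f k c p.2)) with hg
  set mf : Ideal (ℤ√D) × Ideal (ℤ√D) → Ideal (ℤ√D) := fun x => x.1 * cj x.2 with hmf
  -- step 1
  have s1 : (((T.image g).card : ℕ) : ℝ) ≤ (((T.image g).image mf).card : ℝ) * (C1 * Z ^ (ε / 3)) := by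
    rw [Finset.card_eq_sum_card_image mf (T.image g)]
    push_cast
    rw [← nsmul_eq_mul]
    refine Finset.sum_le_card_nsmul _ _ _ ?_
    intro Q _
    refine h1 D Z Q _ hZ ?_
    intro x hx
    obtain ⟨hx1, hx2⟩ := Finset.mem_filter.1 hx
    obtain ⟨p, hp, rfl⟩ := Finset.mem_image.1 hx1
    exact ⟨pf3_lab h (hT p hp).1, pf3_lab h (hT p hp).2.1, hx2⟩
  -- step 2
  set N : ℕ := ⌊2 * Real.log Z / Real.log 2⌋₊ + 1 with hN
  have s2 : (T.image g).image mf ⊆ (Finset.range N).biUnion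
      (fun j => (T.filter (fun p => Nat.log 2 (t p.1 * t p.2) = j)).image (fun p => mf (g p))) := by
    intro Q hQ
    obtain ⟨x, hx, rfl⟩ := Finset.mem_image.1 hQ
    obtain ⟨p, hp, rfl⟩ := Finset.mem_image.1 hx
    rw [Finset.mem_biUnion]
    refine ⟨Nat.log 2 (t p.1 * t p.2), ?_, ?_⟩
    · obtain ⟨a1, _, a3, _⟩ := pz_le h (hT p hp).1
      obtain ⟨b1, _, b3, _⟩ := pz_le h (hT p hp).2.1
      refine pf3_j (Nat.mul_pos a1 b1) ?_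
      push_cast
      rw [sq]
      gcongr
    · exact Finset.mem_image.2 ⟨p, Finset.mem_filter.2 ⟨hp, rfl⟩, rfl⟩
  -- step 3
  have s3 : ∀ j ∈ Finset.range N, ((((T.filter (fun p => Nat.log 2 (t p.1 * t p.2) = j)).image
      (fun p => mf (g p))).card : ℕ) : ℝ) ≤ (C2 + C3) * (18 * Z ^ 2) ^ (ε / 6) * F * G := by
    intro j _
    obtain ⟨T', hT'1, hT'2, hT'3⟩ := pf3_inj (T.filter (fun p => Nat.log 2 (t p.1 * t p.2) = j)) (fun p => mf (g p))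
    rw [← hT'3]
    refine pf3_class hC2 hC3 h2 h3 hlL h hθ hE1 hq j ?_ hT'2
    intro p hp
    obtain ⟨hp1, hp2⟩ := Finset.mem_filter.1 (hT'1 hp)
    obtain ⟨a1, _, a3, _⟩ := pz_le h (hT p hp1).1
    obtain ⟨b1, _, b3, _⟩ := pz_le h (hT p hp1).2.1
    have hpos : t p.1 * t p.2 ≠ 0 := (Nat.mul_pos a1 b1).ne'
    refine ⟨(hT p hp1).1, (hT p hp1).2.1, (hT p hp1).2.2.1, (hT p hp1).2.2.2.1, (hT p hp1).2.2.2.2, ?_, ?_⟩
    · rw [← hp2]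
      exact Nat.pow_log_le_self 2 hpos
    · rw [← hp2]
      have := Nat.lt_pow_succ_log_self (b := 2) (by norm_num) (t p.1 * t p.2)
      rw [Nat.succ_eq_add_one, pow_succ] at this
      linarith
  have s4 : ((((T.image g).image mf).card : ℕ) : ℝ) ≤ (N : ℝ) * ((C2 + C3) * (18 * Z ^ 2) ^ (ε / 6) * F * G) := by
    have e1 : ((T.image g).image mf).card ≤ ∑ j ∈ Finset.range N, ((T.filter (fun p => Nat.log 2 (t p.1 * t p.2) = j)).image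
        (fun p => mf (g p))).card := (Finset.card_le_card s2).trans Finset.card_biUnion_le
    have e2 : ((((T.image g).image mf).card : ℕ) : ℝ) ≤ ∑ j ∈ Finset.range N, ((((T.filter (fun p => Nat.log 2 (t p.1 * t p.2) = j)).image
        (fun p => mf (g p))).card : ℕ) : ℝ) := by exact_mod_cast e1
    refine e2.trans ?_
    have e3 := Finset.sum_le_card_nsmul _ _ _ s3
    rwa [Finset.card_range, nsmul_eq_mul] at e3
  have s5 : (N : ℝ) ≤ (1 + 6 / (ε * Real.log 2)) * Z ^ (ε / 3) := pf3_num hε hZ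
  have hZ3 : Z ^ (ε / 3) * Z ^ (ε / 3) * Z ^ (ε / 3) = Z ^ ε := by
    rw [← Real.rpow_add hZ0, ← Real.rpow_add hZ0]
    congr 1
    ring
  have hZp : 0 < Z ^ (ε / 3) := Real.rpow_pos_of_pos hZ0 _
  calc (((T.image g).card : ℕ) : ℝ) ≤ (((T.image g).image mf).card : ℝ) * (C1 * Z ^ (ε / 3)) := s1
    _ ≤ ((1 + 6 / (ε * Real.log 2)) * Z ^ (ε / 3) * ((C2 + C3) * (18 * Z ^ 2) ^ (ε / 6) * F * G)) *
        (C1 * Z ^ (ε / 3)) := by
        refine mul_le_mul_of_nonneg_right (s4.trans ?_) (by positivity)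
        refine mul_le_mul_of_nonneg_right s5 ?_
        rw [hY]
        positivity
    _ = C1 * (1 + 6 / (ε * Real.log 2)) * ((C2 + C3) * 18 ^ (ε / 6)) * (Z ^ (ε / 3) * Z ^ (ε / 3) * Z ^ (ε / 3)) * F * G := by
        rw [hY]
        ring
    _ = C1 * (1 + 6 / (ε * Real.log 2)) * ((C2 + C3) * 18 ^ (ε / 6)) * Z ^ ε * F * G := by rw [hZ3]

end Hp

end Pool.Agent.Lib.MP_d8bd92_nt
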