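import Pool.Agent.Lib.MP_d8bd92_nt.Hp.Pf3

set_option autoImplicit false

/-!
MP_d8bd92_nt, block 3.C, file Pf4: Cauchy-Schwarz and double counting.
-/

namespace Pool.Agent.Lib.MP_d8bd92_nt

namespace Hp

open Finset Pool.Agent.Lib.Szpiro

/-- Cauchy-Schwarz for the fibres of `Λ` (`sq_sum_le_card_mul_sum_sq`, `card_eq_sum_card_image`). -/
theorem pf_cauchy {ι α : Type} [DecidableEq α] (S : Finset ι) (Λ : ι → α) :
    (S.card : ℝ) ^ 2 ≤ ((S.image Λ).card : ℝ) * (((S ×ˢ S).filter (fun p => Λ p.1 = Λ p.2)).card : ℝ) := by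
  have h1 : S.card = ∑ a ∈ S.image Λ, (S.filter (fun x => Λ x = a)).card := Finset.card_eq_sum_card_image Λ S
  have h2 : ((S ×ˢ S).filter (fun p => Λ p.1 = Λ p.2)).card =
      ∑ a ∈ S.image Λ, (S.filter (fun x => Λ x = a)).card ^ 2 := by
    rw [Finset.card_eq_sum_card_fiberwise (f := fun p : ι × ι => Λ p.1) (t := S.image Λ)]
    · apply Finset.sum_congr rfl
      intro a _
      have h3 : ((S ×ˢ S).filter (fun p => Λ p.1 = Λ p.2)).filter (fun p => Λ p.1 = a) =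
          (S.filter (fun x => Λ x = a)) ×ˢ (S.filter (fun x => Λ x = a)) := by
        ext p
        simp only [Finset.mem_filter, Finset.mem_product]
        constructor
        · rintro ⟨⟨⟨h4, h5⟩, h6⟩, h7⟩
          exact ⟨⟨h4, h7⟩, h5, by rw [← h6, h7]⟩
        · rintro ⟨⟨h4, h5⟩, h6, h7⟩
          exact ⟨⟨⟨h4, h6⟩, by rw [h5, h7]⟩, h5⟩
      rw [h3, Finset.card_product, sq]
    · intro p hp
      rw [Finset.mem_coe, Finset.mem_filter, Finset.mem_product] at hp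
      exact Finset.mem_coe.2 (Finset.mem_image_of_mem Λ hp.1.1)
  have h4 : (S.card : ℝ) = ∑ a ∈ S.image Λ, ((S.filter (fun x => Λ x = a)).card : ℝ) := by
    rw [← Nat.cast_sum, ← h1]
  have h5 : (((S ×ˢ S).filter (fun p => Λ p.1 = Λ p.2)).card : ℝ) =
      ∑ a ∈ S.image Λ, ((S.filter (fun x => Λ x = a)).card : ℝ) ^ 2 := by
    rw [h2]
    push_cast
    rfl
  rw [h4, h5]
  exact sq_sum_le_card_mul_sum_sq

/-- Counting by fibres. -/
private theorem pf4_fib {ι κ : Type} [DecidableEq κ] (P : Finset ι) (g : ι → κ) (T : Finset κ)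
    (hT : ∀ p ∈ P, g p ∈ T) (m : ℝ) (hm : ∀ a ∈ T, ((P.filter (fun p => g p = a)).card : ℝ) ≤ m) :
    (P.card : ℝ) ≤ T.card * m := by
  have h : P.card = ∑ a ∈ T, (P.filter (fun p => g p = a)).card :=
    Finset.card_eq_sum_card_fiberwise (fun p hp => hT p hp)
  rw [h, Nat.cast_sum]
  calc ∑ a ∈ T, ((P.filter (fun p => g p = a)).card : ℝ) ≤ ∑ _a ∈ T, m := Finset.sum_le_sum hm
    _ = T.card * m := by rw [Finset.sum_const, nsmul_eq_mul]

/-- A set of pairs with a given first member. -/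
private theorem pf4_snd {α : Type} [DecidableEq α] (P : Finset (α × α)) (w : α) (R : Finset α)
    (hR : ∀ p ∈ P, p.1 = w → p.2 ∈ R) : (P.filter (fun p => p.1 = w)).card ≤ R.card := by
  apply Finset.card_le_card_of_injOn (fun p => p.2)
  · intro p hp
    rw [Finset.mem_coe, Finset.mem_filter] at hp
    exact Finset.mem_coe.2 (hR p hp.1 hp.2)
  · intro p hp p' hp' he
    rw [Finset.mem_coe, Finset.mem_filter] at hp hp'
    exact Prod.ext (hp.2.trans hp'.2.symm) he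

open scoped Classical in
/-- Row Pf4 (uses pf_cauchy, Pf3, Pf1).  `Λ w = lbl (A w) (pz w)`: `|S|^2 ≤ N * #{(w, w') : Λ w = Λ w'}`.
Pairs with `t w = t w'`: for given `w` we have `A w' = A w` (pz_inj_A) and `t w' = t w`: at most `μ0` : in total `≤ |S| μ0`.
Pairs `T` with `t w ≠ t w'` (coprime primes): by pf_pairs (with `E1 ^ 2`) the pair of `t`-labels takes at most `...` values; a fibre: `t w = b`, `t w' = b'`
are determined (pz_inj_t), at most `μ1` elements `w`, and for each `w` at most `μ0` elements `w'` (`A w' = A w`, `t w' = b'`). -/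
theorem pf_count (ε : ℝ) (hε : 0 < ε) (L : ℕ) : ∃ C : ℝ, 0 < C ∧
    ∀ (Z : ℝ) (D : ℤ) (f k e l : ℕ) (S : Finset (ℤ × ℤ)) (c A t : ℤ × ℤ → ℕ) (θ E1 N μ0 μ1 : ℝ) (q : Ideal (ℤ√D)),
      l ≤ L → PfData Z D f k e l S c A t → ThetaOK θ S → 1 ≤ E1 → 0 ≤ μ0 → 0 ≤ μ1 →
      (∀ w ∈ S, lbl (2 ^ e) (pz D f k c w) = q) →
      ((S.image (fun w => lbl (A w) (pz D f k c w))).card : ℝ) ≤ N →
      (∀ w ∈ S, (t w : ℝ) ≤ E1) →
      (∀ a b : ℕ, ((S.filter (fun w => A w = a ∧ t w = b)).card : ℝ) ≤ μ0) →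
      (∀ b : ℕ, ((S.filter (fun w => t w = b)).card : ℝ) ≤ μ1) →
      (S.card : ℝ) ^ 2 ≤ N * μ0 * ((S.card : ℝ) + μ1 * (C * Z ^ ε * (if l = 1 then 1 else √((|D| : ℤ) : ℝ)) *
        (1 + θ * E1 ^ 2 / ((f : ℝ) * √((|D| : ℤ) : ℝ))))) := by
  obtain ⟨C, hC, hpairs⟩ := pf_pairs ε hε L
  refine ⟨C, hC, ?_⟩
  intro Z D f k e l S c A t θ E1 N μ0 μ1 q hl h hθ hE1 hμ0 hμ1 hq hN ht hA hT
  set Λ : ℤ × ℤ → Ideal (ℤ√D) := fun w => lbl (A w) (pz D f k c w) with hΛ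
  set P := (S ×ˢ S).filter (fun p => Λ p.1 = Λ p.2) with hP
  have hcs : (S.card : ℝ) ^ 2 ≤ ((S.image Λ).card : ℝ) * (P.card : ℝ) := pf_cauchy S Λ
  set B : ℝ := C * Z ^ ε * (if l = 1 then 1 else √((|D| : ℤ) : ℝ)) *
        (1 + θ * E1 ^ 2 / ((f : ℝ) * √((|D| : ℤ) : ℝ))) with hB
  have hmemP : ∀ p ∈ P, p.1 ∈ S ∧ p.2 ∈ S ∧ Λ p.1 = Λ p.2 := by
    intro p hp
    rw [hP, Finset.mem_filter, Finset.mem_product] at hp
    exact ⟨hp.1.1, hp.1.2, hp.2⟩
  -- pairs with the same `t`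
  have hPe : ((P.filter (fun p => t p.1 = t p.2)).card : ℝ) ≤ (S.card : ℝ) * μ0 := by
    apply pf4_fib _ (fun p => p.1) S
    · intro p hp
      exact (hmemP p (Finset.mem_filter.1 hp).1).1
    · intro w hw
      refine le_trans (Nat.cast_le.2 (pf4_snd _ w (S.filter (fun w' => A w' = A w ∧ t w' = t w)) ?_)) (hA (A w) (t w))
      intro p hp hpw
      obtain ⟨hp1, hp2⟩ := Finset.mem_filter.1 hp
      obtain ⟨h1, h2, h3⟩ := hmemP p hp1
      rw [Finset.mem_filter]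
      refine ⟨h2, ?_, ?_⟩
      · rw [← hpw]
        exact (pz_inj_A h h1 h2 h3).symm
      · rw [← hpw]
        exact hp2.symm
  -- pairs with different `t`
  set T := P.filter (fun p => ¬ t p.1 = t p.2) with hTdef
  set F : (ℤ × ℤ) × (ℤ × ℤ) → Ideal (ℤ√D) × Ideal (ℤ√D) :=
    fun p => (lbl (t p.1) (pz D f k c p.1), lbl (t p.2) (pz D f k c p.2)) with hF
  have hTB : ((T.image F).card : ℝ) ≤ B := by
    refine hpairs Z D f k e l S c A t θ (E1 ^ 2) q T hl h hθ (one_le_pow₀ hE1) hq ?_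
    intro p hp
    obtain ⟨hp1, hp2⟩ := Finset.mem_filter.1 hp
    obtain ⟨h1, h2, h3⟩ := hmemP p hp1
    refine ⟨h1, h2, h3, (Nat.coprime_primes (h.t_pr _ h1) (h.t_pr _ h2)).2 hp2, ?_⟩
    rw [Nat.cast_mul, sq]
    exact mul_le_mul (ht _ h1) (ht _ h2) (Nat.cast_nonneg _) (by linarith)
  have hPn : (T.card : ℝ) ≤ (T.image F).card * (μ1 * μ0) := by
    apply pf4_fib T F (T.image F) (fun p hp => Finset.mem_image_of_mem F hp)
    intro a ha
    obtain ⟨p0, hp0, rfl⟩ := Finset.mem_image.1 ha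
    obtain ⟨hp01, -⟩ := Finset.mem_filter.1 hp0
    obtain ⟨h01, h02, -⟩ := hmemP p0 hp01
    have hfib : ∀ p ∈ T.filter (fun p => F p = F p0), p.1 ∈ S ∧ p.2 ∈ S ∧ Λ p.1 = Λ p.2 ∧ t p.1 = t p0.1 ∧
        t p.2 = t p0.2 := by
      intro p hp
      obtain ⟨hp1, hp2⟩ := Finset.mem_filter.1 hp
      obtain ⟨h1, h2, h3⟩ := hmemP p (Finset.mem_filter.1 hp1).1
      have e1 : lbl (t p.1) (pz D f k c p.1) = lbl (t p0.1) (pz D f k c p0.1) := congrArg Prod.fst hp2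
      have e2 : lbl (t p.2) (pz D f k c p.2) = lbl (t p0.2) (pz D f k c p0.2) := congrArg Prod.snd hp2
      exact ⟨h1, h2, h3, pz_inj_t h h1 h01 e1, pz_inj_t h h2 h02 e2⟩
    have h5 : ((T.filter (fun p => F p = F p0)).card : ℝ) ≤
        ((S.filter (fun w => t w = t p0.1)).card : ℝ) * μ0 := by
      apply pf4_fib _ (fun p => p.1) (S.filter (fun w => t w = t p0.1))
      · intro p hp
        obtain ⟨h1, h2, h3, h4, h5⟩ := hfib p hp
        exact Finset.mem_filter.2 ⟨h1, h4⟩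
      · intro w hw
        refine le_trans (Nat.cast_le.2 (pf4_snd _ w (S.filter (fun w' => A w' = A w ∧ t w' = t p0.2)) ?_))
          (hA (A w) (t p0.2))
        intro p hp hpw
        obtain ⟨h1, h2, h3, h4, h5⟩ := hfib p hp
        rw [Finset.mem_filter]
        refine ⟨h2, ?_, h5⟩
        rw [← hpw]
        exact (pz_inj_A h h1 h2 h3).symm
    exact le_trans h5 (mul_le_mul_of_nonneg_right (hT (t p0.1)) hμ0)
  have hcard : (P.card : ℝ) = ((P.filter (fun p => t p.1 = t p.2)).card : ℝ) + (T.card : ℝ) := by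
    rw [hTdef, ← Nat.cast_add, Finset.card_filter_add_card_filter_not]
  have hN0 : 0 ≤ N := le_trans (Nat.cast_nonneg _) hN
  have h6 : (P.card : ℝ) ≤ (S.card : ℝ) * μ0 + B * (μ1 * μ0) := by
    rw [hcard]
    refine add_le_add hPe (le_trans hPn ?_)
    exact mul_le_mul_of_nonneg_right hTB (mul_nonneg hμ1 hμ0)
  calc (S.card : ℝ) ^ 2 ≤ ((S.image Λ).card : ℝ) * (P.card : ℝ) := hcs
    _ ≤ N * ((S.card : ℝ) * μ0 + B * (μ1 * μ0)) := mul_le_mul hN h6 (Nat.cast_nonneg _) hN0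
    _ = N * μ0 * ((S.card : ℝ) + μ1 * B) := by ring

end Hp

end Pool.Agent.Lib.MP_d8bd92_nt
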