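import Mathlib

set_option autoImplicit false

/-!
MP_d8bd92_nt, phase 2, rank method (block few_rank13), file RkA: planar lemma.
-/

namespace Pool.Agent.Lib.MP_d8bd92_nt

namespace Hp

/-- Cross products in the planar lattice. -/
private lemma rka_cross {N κ κ' n1 n2 n3 u1 u2 u3 : ℤ} (hprim : u1 * n1 + u2 * n2 + u3 * n3 = 1)
    {x1 x2 x3 y1 y2 y3 : ℤ} (hx2 : N ∣ x2 - κ * x1) (hx3 : N ∣ x3 - κ' * x1)
    (hx : n1 * x1 + n2 * x2 + n3 * x3 = 0) (hy2 : N ∣ y2 - κ * y1) (hy3 : N ∣ y3 - κ' * y1)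
    (hy : n1 * y1 + n2 * y2 + n3 * y3 = 0) :
    ∃ m : ℤ, x2 * y3 - x3 * y2 = N * m * n1 ∧ x3 * y1 - x1 * y3 = N * m * n2 ∧
      x1 * y2 - x2 * y1 = N * m * n3 := by
  obtain ⟨p2, e2⟩ := hx2
  obtain ⟨p3, e3⟩ := hx3
  obtain ⟨q2, f2⟩ := hy2
  obtain ⟨q3, f3⟩ := hy3
  have h1 : N ∣ x2 * y3 - x3 * y2 := by
    refine ⟨κ * x1 * q3 + κ' * y1 * p2 + N * p2 * q3 - κ' * x1 * q2 - κ * y1 * p3 - N * p3 * q2, ?_⟩
    have a2 : x2 = κ * x1 + N * p2 := by linarith
    have a3 : x3 = κ' * x1 + N * p3 := by linarith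
    have b2 : y2 = κ * y1 + N * q2 := by linarith
    have b3 : y3 = κ' * y1 + N * q3 := by linarith
    rw [a2, a3, b2, b3]
    ring
  have h2 : N ∣ x3 * y1 - x1 * y3 := by
    refine ⟨p3 * y1 - x1 * q3, ?_⟩
    have a3 : x3 = κ' * x1 + N * p3 := by linarith
    have b3 : y3 = κ' * y1 + N * q3 := by linarith
    rw [a3, b3]
    ring
  have h3 : N ∣ x1 * y2 - x2 * y1 := by
    refine ⟨x1 * q2 - p2 * y1, ?_⟩
    have a2 : x2 = κ * x1 + N * p2 := by linarith
    have b2 : y2 = κ * y1 + N * q2 := by linarith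
    rw [a2, b2]
    ring
  have hk : N ∣ u1 * (x2 * y3 - x3 * y2) + u2 * (x3 * y1 - x1 * y3) + u3 * (x1 * y2 - x2 * y1) :=
    dvd_add (dvd_add (Dvd.dvd.mul_left h1 _) (Dvd.dvd.mul_left h2 _)) (Dvd.dvd.mul_left h3 _)
  obtain ⟨m, hm⟩ := hk
  refine ⟨m, ?_, ?_, ?_⟩
  · rw [← hm]
    linear_combination (-(x2 * y3 - x3 * y2)) * hprim + (u2 * y3 - u3 * y2) * hx + (u3 * x2 - u2 * x3) * hy
  · rw [← hm]
    linear_combination (-(x3 * y1 - x1 * y3)) * hprim + (u3 * y1 - u1 * y3) * hx + (u1 * x3 - u3 * x1) * hy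
  · rw [← hm]
    linear_combination (-(x1 * y2 - x2 * y1)) * hprim + (u1 * y2 - u2 * y1) * hx + (u2 * x1 - u1 * x2) * hy

/-- Proportional to a nonzero vector implies pairwise proportional. -/
private lemma rka_prop {d1 d2 d3 a1 a2 a3 b1 b2 b3 : ℤ} (hd : ¬ (d1 = 0 ∧ d2 = 0 ∧ d3 = 0))
    (ha1 : a2 * d3 - a3 * d2 = 0) (ha2 : a3 * d1 - a1 * d3 = 0) (ha3 : a1 * d2 - a2 * d1 = 0)
    (hb1 : b2 * d3 - b3 * d2 = 0) (hb2 : b3 * d1 - b1 * d3 = 0) (hb3 : b1 * d2 - b2 * d1 = 0) :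
    a1 * b2 = b1 * a2 ∧ a1 * b3 = b1 * a3 ∧ a2 * b3 = b2 * a3 := by
  by_cases h1 : d1 = 0
  · by_cases h2 : d2 = 0
    · have h3 : d3 ≠ 0 := fun h => hd ⟨h1, h2, h⟩
      subst h1 h2
      have ea1 : a1 = 0 := by
        have : a1 * d3 = 0 := by linarith
        exact (mul_eq_zero.1 this).resolve_right h3
      have ea2 : a2 = 0 := by
        have : a2 * d3 = 0 := by linarith
        exact (mul_eq_zero.1 this).resolve_right h3
      have eb1 : b1 = 0 := by
        have : b1 * d3 = 0 := by linarith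
        exact (mul_eq_zero.1 this).resolve_right h3
      have eb2 : b2 = 0 := by
        have : b2 * d3 = 0 := by linarith
        exact (mul_eq_zero.1 this).resolve_right h3
      subst ea1 ea2 eb1 eb2
      simp
    · refine ⟨?_, ?_, ?_⟩
      · apply mul_right_cancel₀ h2
        linear_combination b2 * ha3 - a2 * hb3
      · apply mul_right_cancel₀ h2
        linear_combination b3 * ha3 - a3 * hb3 + (b3 * a2 - a3 * b2) * h1
      · apply mul_right_cancel₀ h2
        linear_combination b2 * ha1 - a2 * hb1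
  · have g : a1 * b2 = b1 * a2 := by
      apply mul_right_cancel₀ h1
      linear_combination b1 * ha3 - a1 * hb3
    refine ⟨g, ?_, ?_⟩
    · apply mul_right_cancel₀ h1
      linear_combination a1 * hb2 - b1 * ha2
    · apply mul_right_cancel₀ h1
      linear_combination a2 * hb2 - b2 * ha2 - d3 * g

/-- Row RkA.  The vectors `X i = (a i, b i, c i)`, `i ∈ S`, lie in the box `(0, G]^3`, in the lattice `Λ = {(x, y, z) : N ∣ y - κ x, N ∣ z - κ' x}` and in the plane
`n1 x + n2 y + n3 z = 0` with `(n1, n2, n3)` primitive and some `|n_j| ≥ M`.  Then either they are pairwise proportional or `#S * N * M ≤ 16 G^2`.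
Proof.  `S` empty is clear.  `Λ' := Λ ∩ plane`, closed under differences, contains the `X i ≠ 0`.  Let `d ∈ Λ'`, `d ≠ 0`, with the smallest sup norm `la ≥ 1` (`la ≤ G`; use
`Nat.find` or `WellFounded.min` on the natural number `max |d1| |d2| |d3|`).
(1) For `x, y ∈ Λ'` the cross product is `N m (n1, n2, n3)` with an integer `m`: it is orthogonal-plane parallel, i.e. `n_i (x × y)_j = n_j (x × y)_i`, and with `u1 n1 + u2 n2 + u3 n3 = 1` this gives
`x × y = k n`, `k := u · (x × y)`; every coordinate of `x × y` is divisible by `N` (congruences), so `N ∣ k` (again by `u`).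
(2) So `X i × d = N m_i n` with `|m_i| N M ≤ 2 G la`.  If `2 G la < N M` all `m_i = 0`: all `X i` are proportional to `d ≠ 0`, so pairwise proportional.
(3) Otherwise: let `c0` be a coordinate with `|d_{c0}| = la`.  The map `i ↦ (m_i, ⌊(X i)_{c0} / la⌋)` is injective: if both agree, `z = X i - X k ∈ Λ'`, `z × d = 0`, `|z_{c0}| < la`, so `|z_j| la = |z_{c0}| |d_j| ≤ |z_{c0}| la`
for all `j`, so the sup norm of `z` is `< la`, `z = 0`, `i = k` by `hinj`.  At most `1 + 4 G la / (N M) ≤ 6 G la / (N M)` values of `m`, at most `G / la + 1 ≤ 2 G / la` values of the second. -/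
theorem rk_planar {ι : Type} (S : Finset ι) (N : ℤ) (hN : 0 < N) (G : ℤ) (κ κ' : ℤ) (a b c : ι → ℤ)
    (hb : ∀ i ∈ S, N ∣ b i - κ * a i) (hc : ∀ i ∈ S, N ∣ c i - κ' * a i)
    (hbox : ∀ i ∈ S, 0 < a i ∧ a i ≤ G ∧ 0 < b i ∧ b i ≤ G ∧ 0 < c i ∧ c i ≤ G)
    (hinj : ∀ i ∈ S, ∀ k ∈ S, a i = a k → b i = b k → c i = c k → i = k)
    (n1 n2 n3 u1 u2 u3 : ℤ) (hprim : u1 * n1 + u2 * n2 + u3 * n3 = 1)
    (hpl : ∀ i ∈ S, n1 * a i + n2 * b i + n3 * c i = 0) (M : ℤ) (hM0 : 0 < M) (hM : M ≤ |n1| ∨ M ≤ |n2| ∨ M ≤ |n3|) :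
    (∀ i ∈ S, ∀ k ∈ S, a i * b k = a k * b i ∧ a i * c k = a k * c i ∧ b i * c k = b k * c i) ∨
      (S.card : ℤ) * (N * M) ≤ 16 * G ^ 2 := by
  classical
  rcases S.eq_empty_or_nonempty with rfl | ⟨i0, hi0⟩
  · left
    intro i hi
    simp at hi
  set P : ℤ → ℤ → ℤ → Prop := fun x y z => N ∣ y - κ * x ∧ N ∣ z - κ' * x ∧
    n1 * x + n2 * y + n3 * z = 0 with hP
  have hPX : ∀ i ∈ S, P (a i) (b i) (c i) := fun i hi => ⟨hb i hi, hc i hi, hpl i hi⟩
  have hPs : ∀ x y z x' y' z' : ℤ, P x y z → P x' y' z' → P (x - x') (y - y') (z - z') := by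
    rintro x y z x' y' z' ⟨p1, p2, p3⟩ ⟨q1, q2, q3⟩
    refine ⟨?_, ?_, ?_⟩
    · have := dvd_sub p1 q1
      have e : y - y' - κ * (x - x') = (y - κ * x) - (y' - κ * x') := by ring
      rw [e]
      exact this
    · have := dvd_sub p2 q2
      have e : z - z' - κ' * (x - x') = (z - κ' * x) - (z' - κ' * x') := by ring
      rw [e]
      exact this
    · linear_combination p3 - q3
  have hG : 0 < G := lt_of_lt_of_le (hbox i0 hi0).1 (hbox i0 hi0).2.1
  have hex : ∃ l : ℕ, ∃ x y z : ℤ, P x y z ∧ ¬ (x = 0 ∧ y = 0 ∧ z = 0) ∧ |x| ≤ l ∧ |y| ≤ l ∧ |z| ≤ l := by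
    obtain ⟨h1, h2, h3, h4, h5, h6⟩ := hbox i0 hi0
    refine ⟨G.toNat, a i0, b i0, c i0, hPX i0 hi0, fun h => by omega, ?_, ?_, ?_⟩
    · rw [Int.toNat_of_nonneg hG.le, abs_of_pos h1]; exact h2
    · rw [Int.toNat_of_nonneg hG.le, abs_of_pos h3]; exact h4
    · rw [Int.toNat_of_nonneg hG.le, abs_of_pos h5]; exact h6
  set ln := Nat.find hex with hln
  obtain ⟨d1, d2, d3, hPd, hd0, hd1, hd2, hd3⟩ := Nat.find_spec hex
  rw [← hln] at hd1 hd2 hd3
  have hmin0 : ∀ l' : ℕ, l' < ln → ¬ ∃ x y z : ℤ, P x y z ∧ ¬ (x = 0 ∧ y = 0 ∧ z = 0) ∧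
      |x| ≤ l' ∧ |y| ≤ l' ∧ |z| ≤ l' := fun l' hl' => Nat.find_min hex hl'
  have hlG : (ln : ℤ) ≤ G := by
    by_contra hcon
    push Not at hcon
    have hlt : G.toNat < ln := by omega
    apply hmin0 _ hlt
    obtain ⟨h1, h2, h3, h4, h5, h6⟩ := hbox i0 hi0
    refine ⟨a i0, b i0, c i0, hPX i0 hi0, fun h => by omega, ?_, ?_, ?_⟩
    · rw [Int.toNat_of_nonneg hG.le, abs_of_pos h1]; exact h2
    · rw [Int.toNat_of_nonneg hG.le, abs_of_pos h3]; exact h4
    · rw [Int.toNat_of_nonneg hG.le, abs_of_pos h5]; exact h6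
  have hl0 : 0 < ln := by
    rcases Nat.eq_zero_or_pos ln with h | h
    · exfalso
      apply hd0
      rw [h] at hd1 hd2 hd3
      refine ⟨abs_eq_zero.1 (le_antisymm (by simpa using hd1) (abs_nonneg _)),
        abs_eq_zero.1 (le_antisymm (by simpa using hd2) (abs_nonneg _)),
        abs_eq_zero.1 (le_antisymm (by simpa using hd3) (abs_nonneg _))⟩
    · exact h
  set l : ℤ := (ln : ℤ) with hl
  have hlp : 0 < l := by rw [hl]; exact_mod_cast hl0
  have hmin : ∀ x y z : ℤ, P x y z → |x| < l → |y| < l → |z| < l → x = 0 ∧ y = 0 ∧ z = 0 := by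
    intro x y z hp hx hy hz
    by_contra hcon
    apply hmin0 (ln - 1) (by omega)
    have e : ((ln - 1 : ℕ) : ℤ) = l - 1 := by
      rw [hl]
      omega
    refine ⟨x, y, z, hp, hcon, ?_, ?_, ?_⟩
    · rw [e]; omega
    · rw [e]; omega
    · rw [e]; omega
  have hmax : |d1| = l ∨ |d2| = l ∨ |d3| = l := by
    by_contra hcon
    push Not at hcon
    obtain ⟨c1, c2, c3⟩ := hcon
    exact hd0 (hmin d1 d2 d3 hPd (lt_of_le_of_ne hd1 c1) (lt_of_le_of_ne hd2 c2)
      (lt_of_le_of_ne hd3 c3))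
  have hcr : ∀ i ∈ S, ∃ m : ℤ, b i * d3 - c i * d2 = N * m * n1 ∧ c i * d1 - a i * d3 = N * m * n2 ∧
      a i * d2 - b i * d1 = N * m * n3 := by
    intro i hi
    exact rka_cross hprim (hb i hi) (hc i hi) (hpl i hi) hPd.1 hPd.2.1 hPd.2.2
  choose! m hm using hcr
  have habs : ∀ x y z w : ℤ, 0 < x → x ≤ G → 0 < z → z ≤ G → |y| ≤ l → |w| ≤ l →
      |x * y - z * w| ≤ 2 * G * l := by
    intro x y z w h1 h2 h3 h4 h5 h6
    have t1 : |x * y| ≤ G * l := by
      rw [abs_mul, abs_of_pos h1]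
      exact mul_le_mul h2 h5 (abs_nonneg _) hG.le
    have t2 : |z * w| ≤ G * l := by
      rw [abs_mul, abs_of_pos h3]
      exact mul_le_mul h4 h6 (abs_nonneg _) hG.le
    have t3 := abs_sub (x * y) (z * w)
    linarith
  have hNM : 0 < N * M := mul_pos hN hM0
  have hmb : ∀ i ∈ S, |m i| * (N * M) ≤ 2 * G * l := by
    intro i hi
    obtain ⟨h1, h2, h3, h4, h5, h6⟩ := hbox i hi
    obtain ⟨e1, e2, e3⟩ := hm i hi
    have key : ∀ n : ℤ, M ≤ |n| → |N * m i * n| ≤ 2 * G * l → |m i| * (N * M) ≤ 2 * G * l := by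
      intro n hn hh
      rw [abs_mul, abs_mul, abs_of_pos hN] at hh
      have t := mul_le_mul_of_nonneg_left hn (mul_nonneg hN.le (abs_nonneg (m i)))
      calc |m i| * (N * M) = N * |m i| * M := by ring
        _ ≤ N * |m i| * |n| := t
        _ ≤ _ := hh
    rcases hM with h | h | h
    · apply key n1 h
      rw [← e1]
      exact habs _ _ _ _ h3 h4 h5 h6 hd3 hd2
    · apply key n2 h
      rw [← e2]
      exact habs _ _ _ _ h5 h6 h1 h2 hd1 hd3
    · apply key n3 h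
      rw [← e3]
      exact habs _ _ _ _ h1 h2 h3 h4 hd2 hd1
  by_cases hcase : 2 * G * l < N * M
  · left
    have hm0 : ∀ i ∈ S, m i = 0 := by
      intro i hi
      by_contra hne
      have t1 : 1 ≤ |m i| := Int.one_le_abs hne
      have t2 := hmb i hi
      nlinarith
    intro i hi k hk
    obtain ⟨e1, e2, e3⟩ := hm i hi
    obtain ⟨f1, f2, f3⟩ := hm k hk
    rw [hm0 i hi] at e1 e2 e3
    rw [hm0 k hk] at f1 f2 f3
    simp only [mul_zero, zero_mul] at e1 e2 e3 f1 f2 f3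
    obtain ⟨g1, g2, g3⟩ := rka_prop hd0 e1 e2 e3 f1 f2 f3
    exact ⟨g1, g2, g3⟩
  right
  push Not at hcase
  have core : ∀ (e : ι → ℤ) (dz : ℤ), |dz| = l → (∀ i ∈ S, 0 < e i ∧ e i ≤ G) →
      (∀ i ∈ S, ∀ k ∈ S, m i = m k → (a i - a k) * dz = (e i - e k) * d1 ∧
        (b i - b k) * dz = (e i - e k) * d2 ∧ (c i - c k) * dz = (e i - e k) * d3) →
      (S.card : ℤ) * (N * M) ≤ 16 * G ^ 2 := by
    intro e dz hdz he hrel
    set K : ℤ := 2 * G * l / (N * M) with hK
    set Q : ℤ := G / l with hQ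
    have hK1 : 1 ≤ K := by
      rw [hK]
      exact (Int.le_ediv_iff_mul_le hNM).2 (by linarith)
    have hQ1 : 1 ≤ Q := by
      rw [hQ]
      exact (Int.le_ediv_iff_mul_le hlp).2 (by linarith)
    have hKle : K * (N * M) ≤ 2 * G * l := Int.ediv_mul_le _ hNM.ne'
    have hQle : Q * l ≤ G := Int.ediv_mul_le _ hlp.ne'
    have hcard : S.card ≤ ((Finset.Icc (-K) K) ×ˢ (Finset.Icc 0 Q)).card := by
      apply Finset.card_le_card_of_injOn (fun i => (m i, e i / l))
      · intro i hi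
        have hi' : i ∈ S := hi
        simp only [Finset.coe_product, Finset.coe_Icc, Set.mem_prod, Set.mem_Icc]
        have t1 : |m i| ≤ K := (Int.le_ediv_iff_mul_le hNM).2 (hmb i hi')
        have t2 := abs_le.1 t1
        refine ⟨⟨t2.1, t2.2⟩, Int.ediv_nonneg (he i hi').1.le hlp.le, ?_⟩
        exact Int.ediv_le_ediv hlp (he i hi').2
      · intro i hi k hk hik
        have hi' : i ∈ S := hi
        have hk' : k ∈ S := hk
        simp only [Prod.mk.injEq] at hik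
        obtain ⟨r1, r2, r3⟩ := hrel i hi' k hk' hik.1
        have hz : |e i - e k| < l := by
          have g1 := Int.mul_ediv_add_emod (e i) l
          have g2 := Int.mul_ediv_add_emod (e k) l
          have g3 := Int.emod_nonneg (e i) hlp.ne'
          have g4 := Int.emod_nonneg (e k) hlp.ne'
          have g5 := Int.emod_lt_of_pos (e i) hlp
          have g6 := Int.emod_lt_of_pos (e k) hlp
          rw [hik.2] at g1
          rw [abs_lt]
          constructor <;> linarith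
        have hj : ∀ w d : ℤ, w * dz = (e i - e k) * d → |d| ≤ l → |w| < l := by
          intro w d h1 h2
          have h3 : |w| * l = |e i - e k| * |d| := by
            rw [← hdz, ← abs_mul, h1, abs_mul]
          have h4 : |e i - e k| * |d| ≤ |e i - e k| * l :=
            mul_le_mul_of_nonneg_left h2 (abs_nonneg _)
          have h5 : |w| ≤ |e i - e k| := le_of_mul_le_mul_right (h3.trans_le h4) hlp
          exact lt_of_le_of_lt h5 hz
        have hzero := hmin _ _ _ (hPs _ _ _ _ _ _ (hPX i hi') (hPX k hk')) (hj _ _ r1 hd1)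
          (hj _ _ r2 hd2) (hj _ _ r3 hd3)
        exact hinj i hi' k hk' (by linarith [hzero.1]) (by linarith [hzero.2.1])
          (by linarith [hzero.2.2])
    rw [Finset.card_product, Int.card_Icc, Int.card_Icc] at hcard
    have hc2 : (S.card : ℤ) ≤ (2 * K + 1) * (Q + 1) := by
      have h1 : ((K + 1 - -K).toNat : ℤ) = 2 * K + 1 := by
        rw [Int.toNat_of_nonneg (by linarith)]
        ring
      have h2 : ((Q + 1 - 0).toNat : ℤ) = Q + 1 := by
        rw [Int.toNat_of_nonneg (by linarith)]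
        ring
      have h3 : (S.card : ℤ) ≤ (((K + 1 - -K).toNat * (Q + 1 - 0).toNat : ℕ) : ℤ) := by
        exact_mod_cast hcard
      rw [Nat.cast_mul, h1, h2] at h3
      exact h3
    have hc3 : (S.card : ℤ) ≤ (3 * K) * (2 * Q) := by
      refine hc2.trans ?_
      exact mul_le_mul (by linarith) (by linarith) (by linarith) (by linarith)
    calc (S.card : ℤ) * (N * M) ≤ (3 * K) * (2 * Q) * (N * M) :=
          mul_le_mul_of_nonneg_right hc3 hNM.le
      _ = 6 * Q * (K * (N * M)) := by ring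
      _ ≤ 6 * Q * (2 * G * l) := mul_le_mul_of_nonneg_left hKle (by linarith)
      _ = 12 * G * (Q * l) := by ring
      _ ≤ 12 * G * G := mul_le_mul_of_nonneg_left hQle (by linarith)
      _ ≤ 16 * G ^ 2 := by nlinarith
  rcases hmax with h | h | h
  · apply core a d1 h (fun i hi => ⟨(hbox i hi).1, (hbox i hi).2.1⟩)
    intro i hi k hk hik
    obtain ⟨e1, e2, e3⟩ := hm i hi
    obtain ⟨f1, f2, f3⟩ := hm k hk
    rw [hik] at e1 e2 e3
    refine ⟨rfl, ?_, ?_⟩
    · linear_combination f3 - e3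
    · linear_combination e2 - f2
  · apply core b d2 h (fun i hi => ⟨(hbox i hi).2.2.1, (hbox i hi).2.2.2.1⟩)
    intro i hi k hk hik
    obtain ⟨e1, e2, e3⟩ := hm i hi
    obtain ⟨f1, f2, f3⟩ := hm k hk
    rw [hik] at e1 e2 e3
    refine ⟨?_, rfl, ?_⟩
    · linear_combination e3 - f3
    · linear_combination f1 - e1
  · apply core c d3 h (fun i hi => ⟨(hbox i hi).2.2.2.2.1, (hbox i hi).2.2.2.2.2⟩)
    intro i hi k hk hik
    obtain ⟨e1, e2, e3⟩ := hm i hi
    obtain ⟨f1, f2, f3⟩ := hm k hk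
    rw [hik] at e1 e2 e3
    refine ⟨?_, ?_, rfl⟩
    · linear_combination f2 - e2
    · linear_combination e1 - f1

end Hp

end Pool.Agent.Lib.MP_d8bd92_nt
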