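import Mathlib

set_option autoImplicit false

/-!
MP_d8bd92_nt, phase 2, rank method, file RkB: cells.
-/

namespace Pool.Agent.Lib.MP_d8bd92_nt

namespace Hp

private theorem rkb_term {G s x d e d' e' : ℝ} (hG : 0 ≤ G) (hs : 0 ≤ s) (hx : |x| ≤ G) (hd : |d| ≤ s) (he : |e| ≤ s)
    (hd' : |d'| ≤ s) (he' : |e'| ≤ s) : |x * (d * e - d' * e')| ≤ 2 * G * s ^ 2 := by
  have h1 : |d * e| ≤ s * s := by
    rw [abs_mul]
    exact mul_le_mul hd he (abs_nonneg _) hs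
  have h2 : |d' * e'| ≤ s * s := by
    rw [abs_mul]
    exact mul_le_mul hd' he' (abs_nonneg _) hs
  have h3 : |d * e - d' * e'| ≤ s * s + s * s := (abs_sub _ _).trans (add_le_add h1 h2)
  rw [abs_mul]
  calc |x| * |d * e - d' * e'| ≤ G * (s * s + s * s) := mul_le_mul hx h3 (abs_nonneg _) hG
    _ = 2 * G * s ^ 2 := by ring

/-- the determinant of three vectors of a cell is small -/
private theorem rkb_small {G s a1 b1 c1 a2 b2 c2 a3 b3 c3 : ℝ} (hG : 0 ≤ G) (hs : 0 ≤ s)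
    (ha : |a1| ≤ G) (hb : |b1| ≤ G) (hc : |c1| ≤ G)
    (ha2 : |a2 - a1| ≤ s) (hb2 : |b2 - b1| ≤ s) (hc2 : |c2 - c1| ≤ s)
    (ha3 : |a3 - a1| ≤ s) (hb3 : |b3 - b1| ≤ s) (hc3 : |c3 - c1| ≤ s) :
    |(b1 * c2 - c1 * b2) * a3 + (c1 * a2 - a1 * c2) * b3 + (a1 * b2 - b1 * a2) * c3| ≤ 6 * G * s ^ 2 := by
  have e : (b1 * c2 - c1 * b2) * a3 + (c1 * a2 - a1 * c2) * b3 + (a1 * b2 - b1 * a2) * c3 =
      a1 * ((b2 - b1) * (c3 - c1) - (c2 - c1) * (b3 - b1)) +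
      b1 * ((c2 - c1) * (a3 - a1) - (a2 - a1) * (c3 - c1)) +
      c1 * ((a2 - a1) * (b3 - b1) - (b2 - b1) * (a3 - a1)) := by ring
  rw [e]
  have h1 := rkb_term hG hs ha hb2 hc3 hc2 hb3
  have h2 := rkb_term hG hs hb hc2 ha3 ha2 hc3
  have h3 := rkb_term hG hs hc ha2 hb3 hb2 ha3
  have h4 := abs_add_le (a1 * ((b2 - b1) * (c3 - c1) - (c2 - c1) * (b3 - b1)) +
      b1 * ((c2 - c1) * (a3 - a1) - (a2 - a1) * (c3 - c1)))
      (c1 * ((a2 - a1) * (b3 - b1) - (b2 - b1) * (a3 - a1)))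
  have h5 := abs_add_le (a1 * ((b2 - b1) * (c3 - c1) - (c2 - c1) * (b3 - b1)))
      (b1 * ((c2 - c1) * (a3 - a1) - (a2 - a1) * (c3 - c1)))
  linarith

/-- primitive multiple -/
private theorem rkb_prim (m1 m2 m3 : ℤ) (h : ¬ (m1 = 0 ∧ m2 = 0 ∧ m3 = 0)) :
    ∃ g n1 n2 n3 u1 u2 u3 : ℤ, g ≠ 0 ∧ m1 = g * n1 ∧ m2 = g * n2 ∧ m3 = g * n3 ∧
      u1 * n1 + u2 * n2 + u3 * n3 = 1 := by
  have h1 := Int.gcd_eq_gcd_ab m1 m2
  have h2 := Int.gcd_eq_gcd_ab (Int.gcd m1 m2 : ℤ) m3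
  set g : ℤ := (Int.gcd (Int.gcd m1 m2 : ℤ) m3 : ℤ) with hg
  have d1 : g ∣ (Int.gcd m1 m2 : ℤ) := Int.gcd_dvd_left _ _
  have d3 : g ∣ m3 := Int.gcd_dvd_right _ _
  obtain ⟨n1, hn1⟩ : g ∣ m1 := d1.trans (Int.gcd_dvd_left _ _)
  obtain ⟨n2, hn2⟩ : g ∣ m2 := d1.trans (Int.gcd_dvd_right _ _)
  obtain ⟨n3, hn3⟩ := d3
  have hg0 : g ≠ 0 := by
    intro h0
    apply h
    rw [hn1, hn2, hn3, h0]
    simp
  refine ⟨g, n1, n2, n3, m1.gcdA m2 * (Int.gcdA (Int.gcd m1 m2 : ℤ) m3),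
    m1.gcdB m2 * (Int.gcdA (Int.gcd m1 m2 : ℤ) m3), Int.gcdB (Int.gcd m1 m2 : ℤ) m3, hg0, hn1, hn2, hn3, ?_⟩
  apply mul_left_cancel₀ hg0
  have h3 : g = (m1 * m1.gcdA m2 + m2 * m1.gcdB m2) * (Int.gcdA (Int.gcd m1 m2 : ℤ) m3) +
      m3 * Int.gcdB (Int.gcd m1 m2 : ℤ) m3 := by
    rw [← h1]
    exact h2
  calc g * (m1.gcdA m2 * (Int.gcdA (Int.gcd m1 m2 : ℤ) m3) * n1 +
        m1.gcdB m2 * (Int.gcdA (Int.gcd m1 m2 : ℤ) m3) * n2 + Int.gcdB (Int.gcd m1 m2 : ℤ) m3 * n3)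
      = ((g * n1) * m1.gcdA m2 + (g * n2) * m1.gcdB m2) * (Int.gcdA (Int.gcd m1 m2 : ℤ) m3) +
          (g * n3) * Int.gcdB (Int.gcd m1 m2 : ℤ) m3 := by ring
    _ = (m1 * m1.gcdA m2 + m2 * m1.gcdB m2) * (Int.gcdA (Int.gcd m1 m2 : ℤ) m3) +
          m3 * Int.gcdB (Int.gcd m1 m2 : ℤ) m3 := by rw [← hn1, ← hn2, ← hn3]
    _ = g * 1 := by rw [mul_one]; exact h3.symm

/-- the number of cells -/
private theorem rkb_cells {ι : Type} (S : Finset ι) (G s : ℝ) (hs : 0 < s) (hsG : s ≤ G) (f : ι → ℤ × ℤ × ℤ)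
    (hf : ∀ i ∈ S, (f i).1 ∈ Finset.Icc (0 : ℤ) ⌊G / s⌋ ∧ (f i).2.1 ∈ Finset.Icc (0 : ℤ) ⌊G / s⌋ ∧
      (f i).2.2 ∈ Finset.Icc (0 : ℤ) ⌊G / s⌋) :
    ∃ S' ⊆ S, (S.card : ℝ) ≤ 8 * (G / s) ^ 3 * (S'.card : ℝ) ∧ ∀ i ∈ S', ∀ k ∈ S', f i = f k := by
  classical
  rcases S.eq_empty_or_nonempty with h0 | hne
  · subst h0
    exact ⟨∅, Finset.Subset.refl _, by simp, by simp⟩
  obtain ⟨v, hv, hmax⟩ := Finset.exists_max_image (S.image f) (fun v => (S.filter (fun i => f i = v)).card)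
    (hne.image f)
  refine ⟨S.filter (fun i => f i = v), Finset.filter_subset _ _, ?_, ?_⟩
  · have h1 : S.card ≤ (S.image f).card * (S.filter (fun i => f i = v)).card := by
      rw [Finset.card_eq_sum_card_image f S]
      calc _ ≤ ∑ _w ∈ S.image f, (S.filter (fun i => f i = v)).card := Finset.sum_le_sum hmax
        _ = _ := by rw [Finset.sum_const, smul_eq_mul]
    have hG1 : 1 ≤ G / s := by rwa [le_div_iff₀ hs, one_mul]
    have hfl : 0 ≤ ⌊G / s⌋ := Int.floor_nonneg.2 (by linarith)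
    have hI : ((Finset.Icc (0 : ℤ) ⌊G / s⌋).card : ℝ) ≤ 2 * (G / s) := by
      rw [Int.card_Icc, sub_zero]
      have h2 : (((⌊G / s⌋ + 1).toNat : ℕ) : ℝ) = ((⌊G / s⌋ + 1 : ℤ) : ℝ) := by
        have h3 : (((⌊G / s⌋ + 1).toNat : ℕ) : ℤ) = ⌊G / s⌋ + 1 := Int.toNat_of_nonneg (by omega)
        exact_mod_cast congrArg (Int.cast : ℤ → ℝ) h3
      rw [h2]
      push_cast
      have := Int.floor_le (G / s)
      linarith
    have h2 : ((S.image f).card : ℝ) ≤ 8 * (G / s) ^ 3 := by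
      have h3 : S.image f ⊆ (Finset.Icc (0 : ℤ) ⌊G / s⌋) ×ˢ ((Finset.Icc (0 : ℤ) ⌊G / s⌋) ×ˢ
          (Finset.Icc (0 : ℤ) ⌊G / s⌋)) := by
        intro w hw
        obtain ⟨i, hi, rfl⟩ := Finset.mem_image.1 hw
        obtain ⟨g1, g2, g3⟩ := hf i hi
        exact Finset.mem_product.2 ⟨g1, Finset.mem_product.2 ⟨g2, g3⟩⟩
      have h4 := Finset.card_le_card h3
      rw [Finset.card_product, Finset.card_product] at h4
      have h5 : ((S.image f).card : ℝ) ≤ ((Finset.Icc (0 : ℤ) ⌊G / s⌋).card : ℝ) *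
          (((Finset.Icc (0 : ℤ) ⌊G / s⌋).card : ℝ) * ((Finset.Icc (0 : ℤ) ⌊G / s⌋).card : ℝ)) := by
        exact_mod_cast h4
      refine h5.trans ?_
      have h6 : (0 : ℝ) ≤ ((Finset.Icc (0 : ℤ) ⌊G / s⌋).card : ℝ) := Nat.cast_nonneg _
      have h7 : (0 : ℝ) ≤ 2 * (G / s) := h6.trans hI
      calc _ ≤ (2 * (G / s)) * ((2 * (G / s)) * (2 * (G / s))) :=
            mul_le_mul hI (mul_le_mul hI hI h6 h7) (mul_nonneg h6 h6) h7
        _ = _ := by ring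
    calc (S.card : ℝ) ≤ ((S.image f).card : ℝ) * ((S.filter (fun i => f i = v)).card : ℝ) := by exact_mod_cast h1
      _ ≤ _ := mul_le_mul_of_nonneg_right h2 (Nat.cast_nonneg _)
  · intro i hi k hk
    rw [(Finset.mem_filter.1 hi).2, (Finset.mem_filter.1 hk).2]

private theorem rkb_floor {s x y : ℝ} (hs : 0 < s) (h : ⌊x / s⌋ = ⌊y / s⌋) : |y - x| ≤ s := by
  have h1 := Int.abs_sub_lt_one_of_floor_eq_floor h.symm
  rw [← sub_div, abs_div, abs_of_pos hs, div_lt_one hs] at h1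
  exact h1.le

private theorem rkb_mem {G s x : ℝ} (hs : 0 < s) (hx : 0 < x) (hxG : x ≤ G) : ⌊x / s⌋ ∈ Finset.Icc (0 : ℤ) ⌊G / s⌋ := by
  rw [Finset.mem_Icc]
  refine ⟨Int.floor_nonneg.2 (by positivity), Int.floor_le_floor ?_⟩
  exact div_le_div_of_nonneg_right hxG hs.le

/-- Row RkB.  `X i = (a i, b i, c i)` in the box `(0, G]^3` and in the lattice `Λ`.  Cells of side `s ≤ G`: `i ↦ (⌊a i / s⌋, ⌊b i / s⌋, ⌊c i / s⌋)` takes at most `(G / s + 1)^3 ≤ 8 (G / s)^3` values, so some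
cell `S'` has `#S ≤ 8 (G/s)^3 #S'` (S empty: S' = ∅).  For `X, Z, T` in one cell `det (X, Z, T) = det (X, Z - X, T - X)` has absolute value `≤ 6 G s^2 < N^2` and is divisible by `N^2` (write `b = κ a + N β`, `c = κ' a + N γ`:
`det = N^2 det (a, β, γ)`), so it is `0`.  If not all pairs in `S'` are proportional take `X, Z` not proportional: `X × Z = g (n1, n2, n3)` with `g = gcd`, `n` primitive (Bezout), and `det (X, Z, T) = 0` says `n · T = 0`. -/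
theorem rk_cell {ι : Type} (S : Finset ι) (N : ℤ) (hN : 0 < N) (G s : ℝ) (κ κ' : ℤ) (a b c : ι → ℤ)
    (hb : ∀ i ∈ S, N ∣ b i - κ * a i) (hc : ∀ i ∈ S, N ∣ c i - κ' * a i)
    (hbox : ∀ i ∈ S, 0 < a i ∧ (a i : ℝ) ≤ G ∧ 0 < b i ∧ (b i : ℝ) ≤ G ∧ 0 < c i ∧ (c i : ℝ) ≤ G)
    (hs : 0 < s) (hsG : s ≤ G) (h6 : 6 * G * s ^ 2 < (N : ℝ) ^ 2) :
    ∃ S' ⊆ S, (S.card : ℝ) ≤ 8 * (G / s) ^ 3 * (S'.card : ℝ) ∧
      ((∀ i ∈ S', ∀ k ∈ S', a i * b k = a k * b i ∧ a i * c k = a k * c i ∧ b i * c k = b k * c i) ∨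
        ∃ n1 n2 n3 u1 u2 u3 : ℤ, u1 * n1 + u2 * n2 + u3 * n3 = 1 ∧ ∀ i ∈ S', n1 * a i + n2 * b i + n3 * c i = 0) := by
  have hpos : ∀ i ∈ S, (0 : ℝ) < a i ∧ (0 : ℝ) < b i ∧ (0 : ℝ) < c i := by
    intro i hi
    obtain ⟨h1, h2, h3, h4, h5, h7⟩ := hbox i hi
    exact ⟨by exact_mod_cast h1, by exact_mod_cast h3, by exact_mod_cast h5⟩
  obtain ⟨S', hS', hcard, hcell⟩ := rkb_cells S G s hs hsG
    (fun i => (⌊(a i : ℝ) / s⌋, ⌊(b i : ℝ) / s⌋, ⌊(c i : ℝ) / s⌋)) (by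
      intro i hi
      obtain ⟨h1, h2, h3, h4, h5, h7⟩ := hbox i hi
      obtain ⟨g1, g2, g3⟩ := hpos i hi
      exact ⟨rkb_mem hs g1 h2, rkb_mem hs g2 h4, rkb_mem hs g3 h7⟩)
  refine ⟨S', hS', hcard, ?_⟩
  have hG0 : 0 ≤ G := by linarith
  -- all determinants vanish
  have hdet : ∀ i ∈ S', ∀ k ∈ S', ∀ t ∈ S', (b i * c k - c i * b k) * a t + (c i * a k - a i * c k) * b t +
      (a i * b k - b i * a k) * c t = 0 := by
    intro i hi k hk t ht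
    have hik := hcell i hi k hk
    have hit := hcell i hi t ht
    simp only [Prod.mk.injEq] at hik hit
    obtain ⟨x1, x2, x3⟩ := hik
    obtain ⟨y1, y2, y3⟩ := hit
    obtain ⟨h1, h2, h3, h4, h5, h7⟩ := hbox i (hS' hi)
    obtain ⟨g1, g2, g3⟩ := hpos i (hS' hi)
    have hsm := rkb_small (G := G) (s := s) (a1 := a i) (b1 := b i) (c1 := c i) (a2 := a k) (b2 := b k) (c2 := c k)
      (a3 := a t) (b3 := b t) (c3 := c t) hG0 hs.le (by rw [abs_of_pos g1]; exact h2) (by rw [abs_of_pos g2]; exact h4)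
      (by rw [abs_of_pos g3]; exact h7) (rkb_floor hs x1) (rkb_floor hs x2) (rkb_floor hs x3) (rkb_floor hs y1)
      (rkb_floor hs y2) (rkb_floor hs y3)
    have hlt := lt_of_le_of_lt hsm h6
    have hlt' : |(b i * c k - c i * b k) * a t + (c i * a k - a i * c k) * b t +
      (a i * b k - b i * a k) * c t| < N ^ 2 := by exact_mod_cast hlt
    have hdvd : N ^ 2 ∣ (b i * c k - c i * b k) * a t + (c i * a k - a i * c k) * b t +
        (a i * b k - b i * a k) * c t := by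
      obtain ⟨β1, e1⟩ := hb i (hS' hi)
      obtain ⟨β2, e2⟩ := hb k (hS' hk)
      obtain ⟨β3, e3⟩ := hb t (hS' ht)
      obtain ⟨γ1, f1⟩ := hc i (hS' hi)
      obtain ⟨γ2, f2⟩ := hc k (hS' hk)
      obtain ⟨γ3, f3⟩ := hc t (hS' ht)
      have e1' : b i = κ * a i + N * β1 := by linarith
      have e2' : b k = κ * a k + N * β2 := by linarith
      have e3' : b t = κ * a t + N * β3 := by linarith
      have f1' : c i = κ' * a i + N * γ1 := by linarith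
      have f2' : c k = κ' * a k + N * γ2 := by linarith
      have f3' : c t = κ' * a t + N * γ3 := by linarith
      refine ⟨(β1 * γ2 - γ1 * β2) * a t + (γ1 * a k - a i * γ2) * β3 + (a i * β2 - β1 * a k) * γ3, ?_⟩
      rw [e1', e2', e3', f1', f2', f3']
      ring
    exact Int.eq_zero_of_abs_lt_dvd hdvd hlt'
  by_cases hprop : ∀ i ∈ S', ∀ k ∈ S', a i * b k = a k * b i ∧ a i * c k = a k * c i ∧ b i * c k = b k * c i
  · exact Or.inl hprop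
  · right
    push Not at hprop
    obtain ⟨i, hi, k, hk, hne⟩ := hprop
    have hm : ¬ (b i * c k - c i * b k = 0 ∧ c i * a k - a i * c k = 0 ∧ a i * b k - b i * a k = 0) := by
      rintro ⟨h1, h2, h3⟩
      exact hne (by linarith) (by linarith) (by linarith)
    obtain ⟨g, n1, n2, n3, u1, u2, u3, hg, e1, e2, e3, hu⟩ := rkb_prim _ _ _ hm
    refine ⟨n1, n2, n3, u1, u2, u3, hu, ?_⟩
    intro t ht
    have h1 := hdet i hi k hk t ht
    rw [e1, e2, e3] at h1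
    apply mul_left_cancel₀ hg
    linarith

end Hp

end Pool.Agent.Lib.MP_d8bd92_nt
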