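import Mathlib

set_option autoImplicit false

/-!
MP_d8bd92_nt, phase 2, rank method, file RkC: separated slopes, proportional vectors, square roots of unity.
-/

namespace Pool.Agent.Lib.MP_d8bd92_nt

namespace Hp

private theorem rkc_ne {i k a b : ℕ} (hi : i.Prime) (hk : k.Prime) (hne : i ≠ k) (ha : 1 ≤ a) (hb : 1 ≤ b) :
    a ^ 2 * k ≠ b ^ 2 * i := by
  intro h
  have : Fact i.Prime := ⟨hi⟩
  have ha0 : a ≠ 0 := by omega
  have hb0 : b ≠ 0 := by omega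
  have h1 := congrArg (padicValNat i) h
  rw [padicValNat.mul (pow_ne_zero _ ha0) hk.ne_zero, padicValNat.mul (pow_ne_zero _ hb0) hi.ne_zero,
    padicValNat.pow, padicValNat.pow, padicValNat.self hi.one_lt,
    padicValNat.eq_zero_of_not_dvd (fun hd => hne ((Nat.prime_dvd_prime_iff_eq hi hk).mp hd))] at h1
  omega

/-- Row RkC1.  `s i ^ 2 k - s k ^ 2 i` is a multiple of `N`, not zero for primes `i ≠ k` (valuation at `i`: odd against even), so the slopes `s i ^ 2 / i` are at distance `≥ N / (i k) ≥ N / Pu^2`; they lie in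
`[0, A^2 / Pl]`.  So `i ↦ ⌊(s i ^ 2 / i) Pu^2 / N⌋` is injective with values in `[0, A^2 Pu^2 / (Pl N)]`. -/
theorem rk_slopes (I : Finset ℕ) (N : ℕ) (hN : 0 < N) (s : ℕ → ℕ) (A Pl Pu : ℝ) (hPl : 0 < Pl)
    (hI : ∀ i ∈ I, i.Prime ∧ Pl ≤ (i : ℝ) ∧ (i : ℝ) ≤ Pu) (hs : ∀ i ∈ I, 1 ≤ s i ∧ (s i : ℝ) ≤ A)
    (hd : ∀ i ∈ I, ∀ k ∈ I, (N : ℤ) ∣ (s i : ℤ) ^ 2 * k - (s k : ℤ) ^ 2 * i) :
    (I.card : ℝ) ≤ 1 + A ^ 2 * Pu ^ 2 / (Pl * N) := by
  have hNR : (0 : ℝ) < (N : ℝ) := by exact_mod_cast hN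
  set g : ℕ → ℝ := fun i => (s i : ℝ) ^ 2 / i * Pu ^ 2 / N with hg
  have hg0 : ∀ i, 0 ≤ g i := by
    intro i
    rw [hg]
    positivity
  have hgu : ∀ i ∈ I, g i ≤ A ^ 2 * Pu ^ 2 / (Pl * N) := by
    intro i hi
    have h1 := (hI i hi).2.1
    have h2 := (hs i hi).2
    have h3 : (s i : ℝ) ^ 2 ≤ A ^ 2 := pow_le_pow_left₀ (Nat.cast_nonneg _) h2 2
    have h4 : (s i : ℝ) ^ 2 / i ≤ A ^ 2 / Pl := div_le_div₀ (by positivity) h3 hPl h1
    calc g i = (s i : ℝ) ^ 2 / i * (Pu ^ 2 / N) := by rw [hg]; ring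
      _ ≤ A ^ 2 / Pl * (Pu ^ 2 / N) := mul_le_mul_of_nonneg_right h4 (by positivity)
      _ = A ^ 2 * Pu ^ 2 / (Pl * N) := by field_simp
  have hinj : Set.InjOn (fun i => ⌊g i⌋₊) (I : Set ℕ) := by
    intro i hi k hk hik
    by_contra hne
    have hi' : i ∈ I := hi
    have hk' : k ∈ I := hk
    have hip := (hI i hi').1
    have hkp := (hI k hk').1
    have hi0 : (0 : ℝ) < (i : ℝ) := by exact_mod_cast hip.pos
    have hk0 : (0 : ℝ) < (k : ℝ) := by exact_mod_cast hkp.pos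
    have h1 : |g i - g k| < 1 := by
      have hik' : ⌊g i⌋₊ = ⌊g k⌋₊ := hik
      have a1 := Nat.floor_le (hg0 i)
      have a2 := Nat.lt_floor_add_one (g i)
      have a3 := Nat.floor_le (hg0 k)
      have a4 := Nat.lt_floor_add_one (g k)
      rw [hik'] at a1 a2
      rw [abs_lt]
      constructor <;> linarith
    have h2 := hd i hi' k hk'
    have h3 : (s i : ℤ) ^ 2 * k - (s k : ℤ) ^ 2 * i ≠ 0 := by
      intro h4
      have h5 : (s i : ℤ) ^ 2 * k = (s k : ℤ) ^ 2 * i := by linarith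
      exact rkc_ne hip hkp hne (hs i hi').1 (hs k hk').1 (by exact_mod_cast h5)
    have h4 : (N : ℤ) ≤ |(s i : ℤ) ^ 2 * k - (s k : ℤ) ^ 2 * i| :=
      Int.le_of_dvd (abs_pos.mpr h3) ((dvd_abs _ _).mpr h2)
    have h5 : (N : ℝ) ≤ |(s i : ℝ) ^ 2 * k - (s k : ℝ) ^ 2 * i| := by exact_mod_cast h4
    have h6 : g i - g k = ((s i : ℝ) ^ 2 * k - (s k : ℝ) ^ 2 * i) * (Pu ^ 2 / (i * k * N)) := by
      rw [hg]
      simp only
      field_simp
    have h7 : (i : ℝ) * k ≤ Pu ^ 2 := by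
      have a1 := (hI i hi').2.2
      have a2 := (hI k hk').2.2
      rw [sq]
      exact mul_le_mul a1 a2 hk0.le (by linarith)
    have h8 : (1 : ℝ) / N ≤ Pu ^ 2 / (i * k * N) := by
      rw [div_le_div_iff₀ hNR (by positivity)]
      nlinarith
    have h9 : 1 ≤ |g i - g k| := by
      rw [h6, abs_mul, abs_of_nonneg (by positivity : (0 : ℝ) ≤ Pu ^ 2 / (i * k * N))]
      calc (1 : ℝ) = N * (1 / N) := by field_simp
        _ ≤ |(s i : ℝ) ^ 2 * k - (s k : ℝ) ^ 2 * i| * (Pu ^ 2 / (i * k * N)) :=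
            mul_le_mul h5 h8 (by positivity) (abs_nonneg _)
    linarith
  have hmaps : ∀ i ∈ I, ⌊g i⌋₊ ∈ Finset.range (⌊A ^ 2 * Pu ^ 2 / (Pl * N)⌋₊ + 1) := by
    intro i hi
    have := Nat.floor_le_floor (hgu i hi)
    exact Finset.mem_range.mpr (by omega)
  have hcard := Finset.card_le_card_of_injOn (fun i => ⌊g i⌋₊) hmaps hinj
  rw [Finset.card_range] at hcard
  have h10 : (I.card : ℝ) ≤ (⌊A ^ 2 * Pu ^ 2 / (Pl * N)⌋₊ : ℝ) + 1 := by exact_mod_cast hcard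
  have h11 : (⌊A ^ 2 * Pu ^ 2 / (Pl * N)⌋₊ : ℝ) ≤ A ^ 2 * Pu ^ 2 / (Pl * N) := Nat.floor_le (by positivity)
  linarith

/-- Row RkC2.  Pairwise proportional vectors of positive integers are multiples of one primitive vector: take `i0 ∈ S`, `ν := X i0 / gcd`; `X i` is proportional to `ν`, and `ν` primitive gives `X i = s i * ν`. -/
theorem rk_prop {ι : Type} (S : Finset ι) (a b c : ι → ℤ) (hpos : ∀ i ∈ S, 0 < a i ∧ 0 < b i ∧ 0 < c i)
    (hp : ∀ i ∈ S, ∀ k ∈ S, a i * b k = a k * b i ∧ a i * c k = a k * c i ∧ b i * c k = b k * c i) :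
    ∃ (ν1 ν2 ν3 : ℕ) (s : ι → ℕ), 1 ≤ ν1 ∧ 1 ≤ ν2 ∧ 1 ≤ ν3 ∧
      ∀ i ∈ S, 1 ≤ s i ∧ a i = (s i : ℤ) * ν1 ∧ b i = (s i : ℤ) * ν2 ∧ c i = (s i : ℤ) * ν3 := by
  rcases S.eq_empty_or_nonempty with rfl | ⟨i0, hi0⟩
  · exact ⟨1, 1, 1, fun _ => 1, le_refl _, le_refl _, le_refl _, by simp⟩
  obtain ⟨ha0, hb0, hc0⟩ := hpos i0 hi0
  set g : ℤ := (Int.gcd (a i0) (Int.gcd (b i0) (c i0)) : ℤ) with hgdef
  have hg1 : g ∣ a i0 := Int.gcd_dvd_left _ _
  have hgd : g ∣ (Int.gcd (b i0) (c i0) : ℤ) := Int.gcd_dvd_right _ _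
  have hg2 : g ∣ b i0 := hgd.trans (Int.gcd_dvd_left _ _)
  have hg3 : g ∣ c i0 := hgd.trans (Int.gcd_dvd_right _ _)
  have hgpos : 0 < g := by
    rcases hg1 with ⟨x, hx⟩
    have h1 : (0 : ℤ) ≤ g := by rw [hgdef]; exact Int.natCast_nonneg _
    rcases h1.lt_or_eq with h | h
    · exact h
    · rw [← h, zero_mul] at hx; omega
  obtain ⟨n1, hn1⟩ := hg1
  obtain ⟨n2, hn2⟩ := hg2
  obtain ⟨n3, hn3⟩ := hg3
  have hn1p : 0 < n1 := (mul_pos_iff_of_pos_left hgpos).mp (hn1 ▸ ha0)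
  have hn2p : 0 < n2 := (mul_pos_iff_of_pos_left hgpos).mp (hn2 ▸ hb0)
  have hn3p : 0 < n3 := (mul_pos_iff_of_pos_left hgpos).mp (hn3 ▸ hc0)
  obtain ⟨p, q, r, hbez⟩ : ∃ p q r : ℤ, n1 * p + n2 * q + n3 * r = 1 := by
    have h1 := Int.gcd_eq_gcd_ab (a i0) (Int.gcd (b i0) (c i0))
    have h2 := Int.gcd_eq_gcd_ab (b i0) (c i0)
    set P := Int.gcdA (a i0) (Int.gcd (b i0) (c i0))
    set Q := Int.gcdB (a i0) (Int.gcd (b i0) (c i0))
    set R := Int.gcdA (b i0) (c i0)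
    set T := Int.gcdB (b i0) (c i0)
    refine ⟨P, R * Q, T * Q, ?_⟩
    have h3 : g * (n1 * P + n2 * (R * Q) + n3 * (T * Q)) = g * 1 := by
      have h4 : g = a i0 * P + (b i0 * R + c i0 * T) * Q := by
        rw [← h2]; exact h1
      calc g * (n1 * P + n2 * (R * Q) + n3 * (T * Q))
          = (g * n1) * P + ((g * n2) * R + (g * n3) * T) * Q := by ring
        _ = a i0 * P + (b i0 * R + c i0 * T) * Q := by rw [← hn1, ← hn2, ← hn3]
        _ = g * 1 := by rw [mul_one, ← h4]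
    exact mul_left_cancel₀ hgpos.ne' h3
  refine ⟨n1.toNat, n2.toNat, n3.toNat, fun i => (a i * p + b i * q + c i * r).toNat, by omega, by omega, by omega, ?_⟩
  intro i hi
  obtain ⟨ha, hb, hc⟩ := hpos i hi
  obtain ⟨e1, e2, -⟩ := hp i hi i0 hi0
  have f1 : a i * n2 = n1 * b i := by
    have : g * (a i * n2) = g * (n1 * b i) := by
      calc g * (a i * n2) = a i * (g * n2) := by ring
        _ = a i * b i0 := by rw [← hn2]
        _ = a i0 * b i := e1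
        _ = g * (n1 * b i) := by rw [hn1]; ring
    exact mul_left_cancel₀ hgpos.ne' this
  have f2 : a i * n3 = n1 * c i := by
    have : g * (a i * n3) = g * (n1 * c i) := by
      calc g * (a i * n3) = a i * (g * n3) := by ring
        _ = a i * c i0 := by rw [← hn3]
        _ = a i0 * c i := e2
        _ = g * (n1 * c i) := by rw [hn1]; ring
    exact mul_left_cancel₀ hgpos.ne' this
  set σ : ℤ := a i * p + b i * q + c i * r with hσ
  have g1 : a i = σ * n1 := by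
    calc a i = a i * 1 := by ring
      _ = a i * (n1 * p + n2 * q + n3 * r) := by rw [hbez]
      _ = n1 * (a i * p) + (a i * n2) * q + (a i * n3) * r := by ring
      _ = n1 * (a i * p) + (n1 * b i) * q + (n1 * c i) * r := by rw [f1, f2]
      _ = σ * n1 := by rw [hσ]; ring
  have hσp : 0 < σ := by
    have h1 : 0 < σ * n1 := g1 ▸ ha
    exact (mul_pos_iff_of_pos_right hn1p).mp h1
  have g2 : b i = σ * n2 := by
    have : n1 * b i = n1 * (σ * n2) := by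
      calc n1 * b i = a i * n2 := f1.symm
        _ = σ * n1 * n2 := by rw [← g1]
        _ = n1 * (σ * n2) := by ring
    exact mul_left_cancel₀ hn1p.ne' this
  have g3 : c i = σ * n3 := by
    have : n1 * c i = n1 * (σ * n3) := by
      calc n1 * c i = a i * n3 := f2.symm
        _ = σ * n1 * n3 := by rw [← g1]
        _ = n1 * (σ * n3) := by ring
    exact mul_left_cancel₀ hn1p.ne' this
  refine ⟨?_, ?_, ?_, ?_⟩
  · show 1 ≤ σ.toNat
    omega
  · rw [Int.toNat_of_nonneg hσp.le, Int.toNat_of_nonneg hn1p.le]; exact g1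
  · rw [Int.toNat_of_nonneg hσp.le, Int.toNat_of_nonneg hn2p.le]; exact g2
  · rw [Int.toNat_of_nonneg hσp.le, Int.toNat_of_nonneg hn3p.le]; exact g3

private theorem rkc_dvd {u N : ℕ} (hN : 1 ≤ N) (h : N ∣ u * (u + 2)) :
    N / Nat.gcd u N ∣ u + 2 ∧ Nat.gcd (Nat.gcd u N) (N / Nat.gcd u N) ∣ 2 := by
  have hd : 0 < Nat.gcd u N := Nat.gcd_pos_of_pos_right _ (by omega)
  have hdu : Nat.gcd u N ∣ u := Nat.gcd_dvd_left _ _
  have hdN : Nat.gcd u N ∣ N := Nat.gcd_dvd_right _ _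
  have hco : Nat.Coprime (u / Nat.gcd u N) (N / Nat.gcd u N) := Nat.coprime_div_gcd_div_gcd hd
  have h1 : N / Nat.gcd u N ∣ (u / Nat.gcd u N) * (u + 2) := by
    obtain ⟨x, hx⟩ := h
    refine ⟨x, ?_⟩
    apply Nat.eq_of_mul_eq_mul_left hd
    rw [← mul_assoc, Nat.mul_div_cancel' hdu, ← mul_assoc, Nat.mul_div_cancel' hdN]
    exact hx
  have h2 : N / Nat.gcd u N ∣ u + 2 := hco.symm.dvd_of_dvd_mul_left h1
  refine ⟨h2, ?_⟩
  have h3 : Nat.gcd (Nat.gcd u N) (N / Nat.gcd u N) ∣ u := (Nat.gcd_dvd_left _ _).trans hdu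
  have h4 : Nat.gcd (Nat.gcd u N) (N / Nat.gcd u N) ∣ u + 2 := (Nat.gcd_dvd_right _ _).trans h2
  exact (Nat.dvd_add_right h3).mp h4

private theorem rkc_two {u v N : ℕ} (hN : 1 ≤ N) (hu : N ∣ u * (u + 2)) (hv : N ∣ v * (v + 2))
    (he : Nat.gcd u N = Nat.gcd v N) : (N : ℤ) ∣ 2 * ((u : ℤ) - v) := by
  obtain ⟨a1, a2⟩ := rkc_dvd hN hu
  obtain ⟨b1, -⟩ := rkc_dvd hN hv
  rw [← he] at b1
  set d := Nat.gcd u N with hd
  have hdu : (d : ℤ) ∣ (u : ℤ) - v := by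
    have h1 : (d : ℤ) ∣ (u : ℤ) := Int.natCast_dvd_natCast.mpr (Nat.gcd_dvd_left _ _)
    have h2 : (d : ℤ) ∣ (v : ℤ) := by rw [he]; exact Int.natCast_dvd_natCast.mpr (Nat.gcd_dvd_left _ _)
    exact dvd_sub h1 h2
  have hev : ((N / d : ℕ) : ℤ) ∣ (u : ℤ) - v := by
    have h1 : ((N / d : ℕ) : ℤ) ∣ ((u + 2 : ℕ) : ℤ) := Int.natCast_dvd_natCast.mpr a1
    have h2 : ((N / d : ℕ) : ℤ) ∣ ((v + 2 : ℕ) : ℤ) := Int.natCast_dvd_natCast.mpr b1
    have h3 := dvd_sub h1 h2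
    have h4 : ((u + 2 : ℕ) : ℤ) - ((v + 2 : ℕ) : ℤ) = (u : ℤ) - v := by push_cast; ring
    rwa [h4] at h3
  have hW1 : d ∣ ((u : ℤ) - v).natAbs := Int.natCast_dvd.mp hdu
  have hW2 : N / d ∣ ((u : ℤ) - v).natAbs := Int.natCast_dvd.mp hev
  have hl : Nat.lcm d (N / d) ∣ ((u : ℤ) - v).natAbs := Nat.lcm_dvd hW1 hW2
  have hNd : d * (N / d) = N := Nat.mul_div_cancel' (Nat.gcd_dvd_right _ _)
  have h5 : N ∣ 2 * ((u : ℤ) - v).natAbs := by
    calc N = Nat.gcd d (N / d) * Nat.lcm d (N / d) := by rw [Nat.gcd_mul_lcm, hNd]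
      _ ∣ 2 * ((u : ℤ) - v).natAbs := Nat.mul_dvd_mul a2 hl
  rw [Int.natCast_dvd, Int.natAbs_mul]
  exact h5

/-- Row RkC3.  At most `2 d(N)` square roots of one modulo `N`: the map `x ↦ gcd (x - 1, N)` has fibres of size at most two: if `gcd (x - 1, N) = gcd (y - 1, N) = d` then `N / d ∣ x + 1`, so
`x = y` modulo `d` and modulo `N / d`, and `gcd (d, N / d) ∣ 2`: so `N ∣ 2 (x - y)`. -/
theorem rk_roots (N : ℕ) (hN : 1 ≤ N) [NeZero N] :
    ((Finset.univ : Finset (ZMod N)).filter (fun x => x ^ 2 = 1)).card ≤ 2 * N.divisors.card := by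
  refine Finset.card_le_mul_card_image_of_maps_to (f := fun x : ZMod N => Nat.gcd (x - 1).val N) ?_ 2 ?_
  · intro x _
    exact Nat.mem_divisors.mpr ⟨Nat.gcd_dvd_right _ _, by omega⟩
  · intro b _
    rcases ((Finset.univ.filter (fun x : ZMod N => x ^ 2 = 1)).filter
      (fun x => Nat.gcd (x - 1).val N = b)).eq_empty_or_nonempty with h0 | ⟨x0, hx0⟩
    · rw [h0]; simp
    have hval : ∀ x : ZMod N, x ^ 2 = 1 → N ∣ (x - 1).val * ((x - 1).val + 2) := by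
      intro x hx
      rw [← ZMod.natCast_eq_zero_iff]
      push_cast
      rw [ZMod.natCast_zmod_val]
      linear_combination hx
    have hdiff : ∀ x ∈ (Finset.univ.filter (fun x : ZMod N => x ^ 2 = 1)).filter
        (fun x => Nat.gcd (x - 1).val N = b), 2 • (x - x0) = 0 := by
      intro x hx
      rw [Finset.mem_filter, Finset.mem_filter] at hx hx0
      have h1 := rkc_two hN (hval x hx.1.2) (hval x0 hx0.1.2) (hx.2.trans hx0.2.symm)
      have h2 : (((2 * (((x - 1).val : ℤ) - ((x0 - 1).val : ℤ)) : ℤ)) : ZMod N) = 0 :=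
        (ZMod.intCast_zmod_eq_zero_iff_dvd _ _).mpr h1
      push_cast at h2
      rw [ZMod.natCast_zmod_val, ZMod.natCast_zmod_val] at h2
      rw [nsmul_eq_mul]
      push_cast
      linear_combination h2
    have hK : (Finset.univ.filter (fun z : ZMod N => 2 • z = 0)).card ≤ 2 :=
      IsAddCyclic.card_nsmul_eq_zero_le (by norm_num)
    refine le_trans ?_ hK
    refine Finset.card_le_card_of_injOn (fun x => x - x0) ?_ ?_
    · intro x hx
      exact Finset.mem_coe.mpr (Finset.mem_filter.mpr ⟨Finset.mem_univ _, hdiff x hx⟩)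
    · intro x _ y _ hxy
      exact sub_left_injective hxy

end Hp

end Pool.Agent.Lib.MP_d8bd92_nt
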