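import Mathlib

set_option autoImplicit false

/-!
MP_d8bd92_nt, phase 2, rank method, file RkD: bad triples of columns.
-/

namespace Pool.Agent.Lib.MP_d8bd92_nt

namespace Hp

/-- a small linear relation between the square roots of `(j2/j1)^v` and `(j3/j1)^v` modulo `q` -/
def Bad1 (q v N1 : ℕ) (j : ℕ × ℕ × ℕ) : Prop :=
  ∃ n1 n2 n3 : ℤ, ¬ (n1 = 0 ∧ n2 = 0 ∧ n3 = 0) ∧ |n1| ≤ N1 ∧ |n2| ≤ N1 ∧ |n3| ≤ N1 ∧
    ∃ κ κ' : ZMod q, κ ^ 2 * (j.1 : ZMod q) ^ v = (j.2.1 : ZMod q) ^ v ∧ κ' ^ 2 * (j.1 : ZMod q) ^ v = (j.2.2 : ZMod q) ^ v ∧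
      (n1 : ZMod q) + (n2 : ZMod q) * κ + (n3 : ZMod q) * κ' = 0

/-- the ratios of the square roots are small fractions -/
def Bad2 (q v W : ℕ) (j : ℕ × ℕ × ℕ) : Prop :=
  ∃ ν1 ν2 ν3 : ℕ, ν1 ≤ W ∧ ν2 ≤ W ∧ ν3 ≤ W ∧ (ν1 : ZMod q) ≠ 0 ∧
    (ν1 : ZMod q) ^ 2 * (j.2.1 : ZMod q) ^ v = (ν2 : ZMod q) ^ 2 * (j.1 : ZMod q) ^ v ∧
    (ν1 : ZMod q) ^ 2 * (j.2.2 : ZMod q) ^ v = (ν3 : ZMod q) ^ 2 * (j.1 : ZMod q) ^ v

/-- Row RkD0.  At most `v (U / q + 1)` numbers `x ≤ U` with `x^v = z` modulo the prime `q` (at most `v` classes: roots of a polynomial over the field `ZMod q`; each class has at most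
`U / q + 1` elements in `[0, U]`). -/
theorem rk_class {q : ℕ} (hq : q.Prime) (v U : ℕ) (hv : 1 ≤ v) (z : ZMod q) :
    ((Finset.range (U + 1)).filter (fun x : ℕ => (x : ZMod q) ^ v = z)).card ≤ v * (U / q + 1) := by
  classical
  have := Fact.mk hq
  have h1 : ((Polynomial.nthRoots v z).toFinset).card ≤ v :=
    (Multiset.toFinset_card_le _).trans (Polynomial.card_nthRoots v z)
  have h2 : ((Finset.range (U + 1)).filter (fun x : ℕ => (x : ZMod q) ^ v = z)).card ≤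
      (((Polynomial.nthRoots v z).toFinset) ×ˢ (Finset.range (U / q + 1))).card := by
    refine Finset.card_le_card_of_injOn (fun x : ℕ => ((x : ZMod q), x / q)) ?_ ?_
    · intro x hx
      rw [Finset.mem_coe, Finset.mem_filter, Finset.mem_range] at hx
      rw [Finset.mem_coe, Finset.mem_product, Multiset.mem_toFinset, Finset.mem_range]
      refine ⟨(Polynomial.mem_nthRoots (by omega)).2 hx.2, ?_⟩
      exact Nat.lt_succ_of_le (Nat.div_le_div_right (by omega))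
    · intro x _ y _ hxy
      have h3 : (x : ZMod q) = (y : ZMod q) := congrArg Prod.fst hxy
      have h4 : x / q = y / q := congrArg Prod.snd hxy
      have h5 : x % q = y % q := (ZMod.natCast_eq_natCast_iff' x y q).1 h3
      rw [← Nat.div_add_mod x q, ← Nat.div_add_mod y q, h4, h5]
  rw [Finset.card_product, Finset.card_range] at h2
  exact h2.trans (Nat.mul_le_mul_right _ h1)

open scoped Classical in
/-- Row RkD1.  Given `j1` and `(ν1, ν2, ν3)` (`(W+1)^3` choices): `j2^v` and `j3^v` are determined modulo `q`, use rk_class. -/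
theorem rk_bad2 {q : ℕ} (hq : q.Prime) (v U W : ℕ) (hv : 1 ≤ v) (J : Finset ℕ) (hJ : ∀ j ∈ J, j ≤ U) :
    ((J ×ˢ J ×ˢ J).filter (fun j => Bad2 q v W j)).card ≤ J.card * (W + 1) ^ 3 * (v * (U / q + 1)) ^ 2 := by
  have := Fact.mk hq
  obtain ⟨C, hC⟩ : ∃ C : ZMod q → Finset ℕ,
      C = fun z => (Finset.range (U + 1)).filter (fun x : ℕ => (x : ZMod q) ^ v = z) := ⟨_, rfl⟩
  have hCc : ∀ z, (C z).card ≤ v * (U / q + 1) := fun z => by
    rw [hC]
    exact rk_class hq v U hv z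
  have hCm : ∀ z x, x ≤ U → (x : ZMod q) ^ v = z → x ∈ C z := fun z x h1 h2 => by
    rw [hC]
    exact Finset.mem_filter.2 ⟨Finset.mem_range.2 (by omega), h2⟩
  obtain ⟨I, hI⟩ : ∃ I : Finset ℕ, I = Finset.range (W + 1) := ⟨_, rfl⟩
  have hIc : I.card = W + 1 := by rw [hI, Finset.card_range]
  have hIm : ∀ x, x ≤ W → x ∈ I := fun x hx => by
    rw [hI]
    exact Finset.mem_range.2 (by omega)
  have h1 : (J ×ˢ J ×ˢ J).filter (fun j => Bad2 q v W j) ⊆ (J ×ˢ I ×ˢ I ×ˢ I).biUnion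
      (fun p => ({p.1} : Finset ℕ) ×ˢ
        (C ((p.2.2.1 : ZMod q) ^ 2 * (p.1 : ZMod q) ^ v / (p.2.1 : ZMod q) ^ 2)) ×ˢ
        (C ((p.2.2.2 : ZMod q) ^ 2 * (p.1 : ZMod q) ^ v / (p.2.1 : ZMod q) ^ 2))) := by
    rintro ⟨j1, j2, j3⟩ hj
    rw [Finset.mem_filter, Finset.mem_product, Finset.mem_product] at hj
    obtain ⟨⟨hj1, hj2, hj3⟩, ν1, ν2, ν3, hν1, hν2, hν3, h0, he2, he3⟩ := hj
    refine Finset.mem_biUnion.2 ⟨(j1, ν1, ν2, ν3), ?_, ?_⟩
    · exact Finset.mem_product.2 ⟨hj1, Finset.mem_product.2 ⟨hIm _ hν1,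
        Finset.mem_product.2 ⟨hIm _ hν2, hIm _ hν3⟩⟩⟩
    · refine Finset.mem_product.2 ⟨Finset.mem_singleton.2 rfl, Finset.mem_product.2 ⟨?_, ?_⟩⟩
      · refine hCm _ _ (hJ _ hj2) ?_
        rw [eq_div_iff (pow_ne_zero 2 h0), mul_comm]
        exact he2
      · refine hCm _ _ (hJ _ hj3) ?_
        rw [eq_div_iff (pow_ne_zero 2 h0), mul_comm]
        exact he3
  refine (Finset.card_le_card h1).trans
    ((Finset.card_biUnion_le_card_mul _ _ ((v * (U / q + 1)) ^ 2) ?_).trans ?_)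
  · intro p _
    rw [Finset.card_product, Finset.card_product, Finset.card_singleton, one_mul,
      pow_two (v * (U / q + 1))]
    exact Nat.mul_le_mul (hCc _) (hCc _)
  · refine Nat.mul_le_mul_right _ (le_of_eq ?_)
    rw [Finset.card_product, Finset.card_product, Finset.card_product, hIc]
    ring

private theorem rkd_zero {q N1 : ℕ} (hN1 : N1 < q) (n : ℤ) (hn : |n| ≤ N1)
    (h : (n : ZMod q) = 0) : n = 0 := by
  have h1 : (q : ℤ) ∣ n := (ZMod.intCast_zmod_eq_zero_iff_dvd n q).1 h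
  refine Int.eq_zero_of_abs_lt_dvd h1 ?_
  refine lt_of_le_of_lt hn ?_
  exact Int.ofNat_lt.2 hN1

open scoped Classical in
/-- Row RkD2.  `n3 ≠ 0` (a unit modulo `q`, as `|n3| ≤ N1 < q`): given `(j1, j2)`, `n` and `κ` (at most two values, `j1` is a unit modulo `q`): `κ'` is determined, so `j3^v` modulo `q`: at most
`(#J)^2 (2 N1 + 1)^3 2 v (U/q+1)` triples.  `n3 = 0`: then `n2 ≠ 0` (else `n1 = 0` in `ZMod q`, so `n1 = 0`), `κ = - n1 / n2`, `j2^v` is determined by `j1` and `n`: at most `(#J)^2 (2 N1 + 1)^3 v (U/q+1)` triples. -/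
theorem rk_bad1 {q : ℕ} (hq : q.Prime) (v U N1 : ℕ) (hv : 1 ≤ v) (hN1 : N1 < q) (J : Finset ℕ)
    (hJ : ∀ j ∈ J, j ≤ U ∧ (j : ZMod q) ≠ 0) :
    ((J ×ˢ J ×ˢ J).filter (fun j => Bad1 q v N1 j)).card ≤ 4 * J.card ^ 2 * (2 * N1 + 1) ^ 3 * (v * (U / q + 1)) := by
  have := Fact.mk hq
  obtain ⟨C, hC⟩ : ∃ C : ZMod q → Finset ℕ,
      C = fun z => (Finset.range (U + 1)).filter (fun x : ℕ => (x : ZMod q) ^ v = z) := ⟨_, rfl⟩
  have hCc : ∀ z, (C z).card ≤ v * (U / q + 1) := fun z => by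
    rw [hC]
    exact rk_class hq v U hv z
  have hCm : ∀ z x, x ≤ U → (x : ZMod q) ^ v = z → x ∈ C z := fun z x h1 h2 => by
    rw [hC]
    exact Finset.mem_filter.2 ⟨Finset.mem_range.2 (by omega), h2⟩
  obtain ⟨I, hI⟩ : ∃ I : Finset ℤ, I = Finset.Icc (-(N1 : ℤ)) N1 := ⟨_, rfl⟩
  have hIc : I.card = 2 * N1 + 1 := by
    rw [hI, Int.card_Icc]
    omega
  have hIm : ∀ x : ℤ, |x| ≤ N1 → x ∈ I := fun x hx => by
    rw [hI]
    exact Finset.mem_Icc.2 (abs_le.1 hx)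
  obtain ⟨R, hR⟩ : ∃ R : ℕ → ℕ → Finset (ZMod q),
      R = fun j1 j2 : ℕ => (Polynomial.nthRoots 2 ((j2 : ZMod q) ^ v / (j1 : ZMod q) ^ v)).toFinset :=
    ⟨_, rfl⟩
  have hRc : ∀ j1 j2, (R j1 j2).card ≤ 2 := fun j1 j2 => by
    rw [hR]
    exact (Multiset.toFinset_card_le _).trans (Polynomial.card_nthRoots 2 _)
  obtain ⟨S, hS⟩ : ∃ S : ℕ, S = v * (U / q + 1) := ⟨_, rfl⟩
  rw [← hS] at hCc ⊢
  obtain ⟨T1, hT1⟩ : ∃ T1 : Finset (ℕ × ℕ × ℕ), T1 = (J ×ˢ J ×ˢ I ×ˢ I ×ˢ I).biUnion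
      (fun p => (R p.1 p.2.1).biUnion (fun κ => ({p.1} : Finset ℕ) ×ˢ ({p.2.1} : Finset ℕ) ×ˢ
        (C ((-((p.2.2.1 : ZMod q) + (p.2.2.2.1 : ZMod q) * κ) / (p.2.2.2.2 : ZMod q)) ^ 2 *
          (p.1 : ZMod q) ^ v)))) := ⟨_, rfl⟩
  obtain ⟨T2, hT2⟩ : ∃ T2 : Finset (ℕ × ℕ × ℕ), T2 = (J ×ˢ J ×ˢ I ×ˢ I ×ˢ I).biUnion
      (fun p => ({p.1} : Finset ℕ) ×ˢ
        (C ((-(p.2.2.1 : ZMod q) / (p.2.2.2.1 : ZMod q)) ^ 2 * (p.1 : ZMod q) ^ v)) ×ˢ
        ({p.2.1} : Finset ℕ)) := ⟨_, rfl⟩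
  have hPc : (J ×ˢ J ×ˢ I ×ˢ I ×ˢ I).card = J.card ^ 2 * (2 * N1 + 1) ^ 3 := by
    rw [Finset.card_product, Finset.card_product, Finset.card_product, Finset.card_product, hIc]
    ring
  have hc1 : T1.card ≤ J.card ^ 2 * (2 * N1 + 1) ^ 3 * (2 * S) := by
    rw [hT1, ← hPc]
    refine Finset.card_biUnion_le_card_mul _ _ _ fun p _ => ?_
    refine (Finset.card_biUnion_le_card_mul _ _ S fun κ _ => ?_).trans
      (Nat.mul_le_mul_right _ (hRc _ _))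
    rw [Finset.card_product, Finset.card_product, Finset.card_singleton, Finset.card_singleton,
      one_mul, one_mul]
    exact hCc _
  have hc2 : T2.card ≤ J.card ^ 2 * (2 * N1 + 1) ^ 3 * S := by
    rw [hT2, ← hPc]
    refine Finset.card_biUnion_le_card_mul _ _ _ fun p _ => ?_
    rw [Finset.card_product, Finset.card_product, Finset.card_singleton, Finset.card_singleton,
      one_mul, mul_one]
    exact hCc _
  have hsub : (J ×ˢ J ×ˢ J).filter (fun j => Bad1 q v N1 j) ⊆ T1 ∪ T2 := by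
    rintro ⟨j1, j2, j3⟩ hj
    rw [Finset.mem_filter, Finset.mem_product, Finset.mem_product] at hj
    obtain ⟨⟨hj1, hj2, hj3⟩, n1, n2, n3, hne, hn1, hn2, hn3, κ, κ', hκ, hκ', he⟩ := hj
    simp only at hj1 hj2 hj3 hκ hκ' he
    by_cases h3 : n3 = 0
    · refine Finset.mem_union_right _ ?_
      have h2 : n2 ≠ 0 := by
        intro h2
        apply hne
        refine ⟨?_, h2, h3⟩
        refine rkd_zero hN1 n1 hn1 ?_
        rw [h2, h3] at he
        simpa using he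
      have h2' : (n2 : ZMod q) ≠ 0 := fun h => h2 (rkd_zero hN1 n2 hn2 h)
      have hk : κ = -(n1 : ZMod q) / (n2 : ZMod q) := by
        rw [eq_div_iff h2']
        rw [h3, Int.cast_zero, zero_mul, add_zero] at he
        linear_combination he
      rw [hT2]
      refine Finset.mem_biUnion.2 ⟨(j1, j3, n1, n2, n3), ?_, ?_⟩
      · exact Finset.mem_product.2 ⟨hj1, Finset.mem_product.2 ⟨hj3, Finset.mem_product.2
          ⟨hIm _ hn1, Finset.mem_product.2 ⟨hIm _ hn2, hIm _ hn3⟩⟩⟩⟩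
      · refine Finset.mem_product.2 ⟨Finset.mem_singleton.2 rfl, Finset.mem_product.2
          ⟨?_, Finset.mem_singleton.2 rfl⟩⟩
        refine hCm _ _ (hJ _ hj2).1 ?_
        change (j2 : ZMod q) ^ v = (-(n1 : ZMod q) / (n2 : ZMod q)) ^ 2 * (j1 : ZMod q) ^ v
        rw [← hk, hκ]
    · refine Finset.mem_union_left _ ?_
      have h3' : (n3 : ZMod q) ≠ 0 := fun h => h3 (rkd_zero hN1 n3 hn3 h)
      have hk : κ' = -((n1 : ZMod q) + (n2 : ZMod q) * κ) / (n3 : ZMod q) := by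
        rw [eq_div_iff h3']
        linear_combination he
      rw [hT1]
      refine Finset.mem_biUnion.2 ⟨(j1, j2, n1, n2, n3), ?_, ?_⟩
      · exact Finset.mem_product.2 ⟨hj1, Finset.mem_product.2 ⟨hj2, Finset.mem_product.2
          ⟨hIm _ hn1, Finset.mem_product.2 ⟨hIm _ hn2, hIm _ hn3⟩⟩⟩⟩
      · refine Finset.mem_biUnion.2 ⟨κ, ?_, ?_⟩
        · rw [hR]
          refine Multiset.mem_toFinset.2 ((Polynomial.mem_nthRoots two_pos).2 ?_)
          rw [eq_div_iff (pow_ne_zero v (hJ _ hj1).2)]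
          exact hκ
        · refine Finset.mem_product.2 ⟨Finset.mem_singleton.2 rfl, Finset.mem_product.2
            ⟨Finset.mem_singleton.2 rfl, ?_⟩⟩
          refine hCm _ _ (hJ _ hj3).1 ?_
          change (j3 : ZMod q) ^ v =
            (-((n1 : ZMod q) + (n2 : ZMod q) * κ) / (n3 : ZMod q)) ^ 2 * (j1 : ZMod q) ^ v
          rw [← hk, hκ']
  calc ((J ×ˢ J ×ˢ J).filter (fun j => Bad1 q v N1 j)).card ≤ (T1 ∪ T2).card :=
        Finset.card_le_card hsub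
    _ ≤ T1.card + T2.card := Finset.card_union_le _ _
    _ ≤ J.card ^ 2 * (2 * N1 + 1) ^ 3 * (2 * S) + J.card ^ 2 * (2 * N1 + 1) ^ 3 * S :=
        Nat.add_le_add hc1 hc2
    _ ≤ 4 * J.card ^ 2 * (2 * N1 + 1) ^ 3 * S := by
        have h : 4 * J.card ^ 2 * (2 * N1 + 1) ^ 3 * S =
            J.card ^ 2 * (2 * N1 + 1) ^ 3 * (2 * S) + J.card ^ 2 * (2 * N1 + 1) ^ 3 * S +
              J.card ^ 2 * (2 * N1 + 1) ^ 3 * S := by ring
        rw [h]
        exact Nat.le_add_right _ _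

end Hp

end Pool.Agent.Lib.MP_d8bd92_nt
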