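import Mathlib

set_option autoImplicit false

/-!
MP_d8bd92_nt, phase 2, rank method, file RkE: a good triple of columns.
-/

namespace Pool.Agent.Lib.MP_d8bd92_nt

namespace Hp

private theorem rke_pow (s : Finset ℕ) (f : ℕ → ℕ) :
    (∑ i ∈ s, f i) ^ 3 ≤ s.card ^ 2 * ∑ i ∈ s, f i ^ 3 :=
  pow_sum_le_card_mul_sum_pow (fun _ _ => Nat.zero_le _) 2

open scoped Classical in
/-- Row RkE.  Power mean: the sum over `(j1, j2, j3) ∈ J^3` of the number of common rows is `Σ_i deg(i)^3 ≥ #E^3 / #I^2`; the triples in `B` contribute at most `#B #I ≤ #E^3 / (2 #I^2)`; so some triple outside `B` has at least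
`#E^3 / (2 #I^2 #J^3)` common rows.  (`inner_le_nnorm_mul_nnorm` is not needed: `inner_mul_le_norm_mul_norm` or `Finset.inner_mul_le_norm_mul_norm`; simplest is `Real.pow_arith_mean_le_arith_mean_pow` or
`inv_mul_sum ...`; `inner` variants: any proof of `(Σ d_i)^3 ≤ #I^2 Σ d_i^3`.) -/
theorem rk_triple (I J : Finset ℕ) (E : Finset (ℕ × ℕ)) (hE : E ⊆ I ×ˢ J) (hne : E.Nonempty) (B : Finset (ℕ × ℕ × ℕ))
    (hB : 2 * B.card * I.card ^ 3 ≤ E.card ^ 3) :
    ∃ j1 ∈ J, ∃ j2 ∈ J, ∃ j3 ∈ J, (j1, j2, j3) ∉ B ∧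
      E.card ^ 3 ≤ 2 * I.card ^ 2 * J.card ^ 3 * (I.filter (fun i => (i, j1) ∈ E ∧ (i, j2) ∈ E ∧ (i, j3) ∈ E)).card := by
  by_contra hcon
  push Not at hcon
  set T : Finset (ℕ × ℕ × ℕ) := J ×ˢ (J ×ˢ J) with hT
  set c : ℕ × ℕ × ℕ → ℕ := fun t =>
    (I.filter (fun i => (i, t.1) ∈ E ∧ (i, t.2.1) ∈ E ∧ (i, t.2.2) ∈ E)).card with hc
  set dg : ℕ → ℕ := fun i => (J.filter (fun j => (i, j) ∈ E)).card with hdg
  have hEs : E.card = ∑ i ∈ I, dg i := by
    rw [Finset.card_eq_sum_card_fiberwise (f := Prod.fst) (t := I)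
      (fun x hx => (Finset.mem_product.1 (hE hx)).1)]
    refine Finset.sum_congr rfl fun i _ => ?_
    refine Finset.card_bij (fun x _ => x.2) ?_ ?_ ?_
    · rintro ⟨i', j⟩ hx
      rw [Finset.mem_filter] at hx ⊢
      obtain ⟨h1, h2⟩ := hx
      have h3 : i' = i := h2
      subst h3
      exact ⟨(Finset.mem_product.1 (hE h1)).2, h1⟩
    · rintro ⟨i1, j1⟩ h1 ⟨i2, j2⟩ h2 h3
      have e1 : i1 = i := (Finset.mem_filter.1 h1).2
      have e2 : i2 = i := (Finset.mem_filter.1 h2).2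
      have e3 : j1 = j2 := h3
      rw [e1, e2, e3]
    · intro j hj
      rw [Finset.mem_filter] at hj
      exact ⟨(i, j), Finset.mem_filter.2 ⟨hj.2, rfl⟩, rfl⟩
  have hcube : ∀ i, dg i ^ 3 = ∑ t ∈ T, if ((i, t.1) ∈ E ∧ (i, t.2.1) ∈ E ∧ (i, t.2.2) ∈ E) then 1 else 0 := by
    intro i
    rw [← Finset.card_filter]
    have h1 : T.filter (fun t => (i, t.1) ∈ E ∧ (i, t.2.1) ∈ E ∧ (i, t.2.2) ∈ E) =
        (J.filter (fun j => (i, j) ∈ E)) ×ˢ ((J.filter (fun j => (i, j) ∈ E)) ×ˢ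
          (J.filter (fun j => (i, j) ∈ E))) := by
      ext ⟨a, b, e⟩
      simp only [hT, Finset.mem_filter, Finset.mem_product]
      tauto
    rw [h1, Finset.card_product, Finset.card_product]
    ring
  have hsum : ∑ i ∈ I, dg i ^ 3 = ∑ t ∈ T, c t := by
    rw [Finset.sum_congr rfl fun i _ => hcube i, Finset.sum_comm]
    refine Finset.sum_congr rfl fun t _ => ?_
    rw [← Finset.card_filter]
  have hpow := rke_pow I dg
  rw [← hEs, hsum] at hpow
  have hEpos : 0 < E.card ^ 3 := pow_pos (Finset.card_pos.2 hne) 3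
  -- split
  have hsplit : ∑ t ∈ T, c t = ∑ t ∈ T.filter (fun t => t ∈ B), c t +
      ∑ t ∈ T.filter (fun t => t ∉ B), c t := (Finset.sum_filter_add_sum_filter_not T _ _).symm
  have hcI : ∀ t, c t ≤ I.card := fun t => Finset.card_filter_le _ _
  have hBs : ∑ t ∈ T.filter (fun t => t ∈ B), c t ≤ B.card * I.card := by
    calc ∑ t ∈ T.filter (fun t => t ∈ B), c t ≤ ∑ t ∈ T.filter (fun t => t ∈ B), I.card :=
          Finset.sum_le_sum fun t _ => hcI t
      _ = (T.filter (fun t => t ∈ B)).card * I.card := by rw [Finset.sum_const, smul_eq_mul]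
      _ ≤ B.card * I.card := by
          apply Nat.mul_le_mul_right
          apply Finset.card_le_card
          intro t ht
          exact (Finset.mem_filter.1 ht).2
  set S := ∑ t ∈ T.filter (fun t => t ∉ B), c t with hS
  have hS1 : E.card ^ 3 ≤ 2 * I.card ^ 2 * S := by
    rw [hsplit] at hpow
    have e1 : 2 * I.card ^ 2 * (∑ t ∈ T.filter (fun t => t ∈ B), c t) ≤ E.card ^ 3 := by
      calc 2 * I.card ^ 2 * (∑ t ∈ T.filter (fun t => t ∈ B), c t)
          ≤ 2 * I.card ^ 2 * (B.card * I.card) := Nat.mul_le_mul_left _ hBs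
        _ = 2 * B.card * I.card ^ 3 := by ring
        _ ≤ E.card ^ 3 := hB
    have e2 : I.card ^ 2 * ((∑ t ∈ T.filter (fun t => t ∈ B), c t) + S) =
        I.card ^ 2 * (∑ t ∈ T.filter (fun t => t ∈ B), c t) + I.card ^ 2 * S := by ring
    have e3 : 2 * I.card ^ 2 * (∑ t ∈ T.filter (fun t => t ∈ B), c t) =
        2 * (I.card ^ 2 * (∑ t ∈ T.filter (fun t => t ∈ B), c t)) := by ring
    have e4 : 2 * I.card ^ 2 * S = 2 * (I.card ^ 2 * S) := by ring
    omega
  have hTcard : T.card = J.card ^ 3 := by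
    rw [hT, Finset.card_product, Finset.card_product]; ring
  have hbad : ∀ t ∈ T.filter (fun t => t ∉ B), 2 * I.card ^ 2 * J.card ^ 3 * c t < E.card ^ 3 := by
    rintro ⟨a, b, e⟩ ht
    rw [Finset.mem_filter] at ht
    obtain ⟨ht1, ht2⟩ := ht
    simp only [hT, Finset.mem_product] at ht1
    exact hcon a ht1.1 b ht1.2.1 e ht1.2.2 ht2
  have hne2 : (T.filter (fun t => t ∉ B)).Nonempty := by
    by_contra h0
    rw [Finset.not_nonempty_iff_eq_empty] at h0
    rw [hS, h0, Finset.sum_empty, mul_zero] at hS1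
    omega
  have hlt : ∑ t ∈ T.filter (fun t => t ∉ B), 2 * I.card ^ 2 * J.card ^ 3 * c t <
      ∑ t ∈ T.filter (fun t => t ∉ B), E.card ^ 3 := Finset.sum_lt_sum_of_nonempty hne2 hbad
  rw [← Finset.mul_sum, Finset.sum_const, smul_eq_mul, ← hS] at hlt
  have hcle : (T.filter (fun t => t ∉ B)).card ≤ J.card ^ 3 := by
    rw [← hTcard]; exact Finset.card_filter_le _ _
  have e1 : (T.filter (fun t => t ∉ B)).card * E.card ^ 3 ≤ J.card ^ 3 * E.card ^ 3 :=
    Nat.mul_le_mul_right _ hcle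
  have e2 : J.card ^ 3 * E.card ^ 3 ≤ J.card ^ 3 * (2 * I.card ^ 2 * S) := Nat.mul_le_mul_left _ hS1
  have e3 : J.card ^ 3 * (2 * I.card ^ 2 * S) = 2 * I.card ^ 2 * J.card ^ 3 * S := by ring
  omega

end Hp

end Pool.Agent.Lib.MP_d8bd92_nt
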