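import Pool.Agent.Lib.MP_d8bd92_nt.Hp.RkA
import Pool.Agent.Lib.MP_d8bd92_nt.Hp.RkB
import Pool.Agent.Lib.MP_d8bd92_nt.Hp.RkC
import Pool.Agent.Lib.MP_d8bd92_nt.Hp.RkD
import Pool.Agent.Lib.MP_d8bd92_nt.Hp.RkE

set_option autoImplicit false

/-!
MP_d8bd92_nt, phase 2, rank method, file RkF: the core, fixed `q` and `N`.
-/

namespace Pool.Agent.Lib.MP_d8bd92_nt

namespace Hp

open Finset

private theorem rkf_root {N : ℕ} {b a b0 a0 : ZMod N} (hub : IsUnit b0) (hua : IsUnit a0) (hua' : IsUnit a)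
    (h : b ^ 2 * a0 ^ 2 = b0 ^ 2 * a ^ 2) : (b * a0 * (a * b0)⁻¹) ^ 2 = 1 := by
  have hu : IsUnit (a * b0) := hua'.mul hub
  have h1 : (a * b0) * (a * b0)⁻¹ = 1 := ZMod.mul_inv_of_unit _ hu
  calc (b * a0 * (a * b0)⁻¹) ^ 2 = (b ^ 2 * a0 ^ 2) * ((a * b0)⁻¹) ^ 2 := by ring
    _ = (b0 ^ 2 * a ^ 2) * ((a * b0)⁻¹) ^ 2 := by rw [h]
    _ = ((a * b0) * (a * b0)⁻¹) ^ 2 := by ring
    _ = 1 := by rw [h1, one_pow]

private theorem rkf_kappa {N : ℕ} {b a b0 a0 r : ZMod N} (hub : IsUnit b0) (hua : IsUnit a0) (hua' : IsUnit a)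
    (h : b * a0 * (a * b0)⁻¹ = r) : b = (r * b0 * a0⁻¹) * a := by
  have hu : IsUnit (a * b0) := hua'.mul hub
  have h1 : (a * b0) * (a * b0)⁻¹ = 1 := ZMod.mul_inv_of_unit _ hu
  have h2 : a0 * a0⁻¹ = 1 := ZMod.mul_inv_of_unit _ hua
  calc b = b * (a0 * a0⁻¹) * ((a * b0) * (a * b0)⁻¹) := by rw [h1, h2]; ring
    _ = (b * a0 * (a * b0)⁻¹) * b0 * a0⁻¹ * a := by ring
    _ = (r * b0 * a0⁻¹) * a := by rw [h]

/-- classes of the square roots -/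
theorem rk_signs (I : Finset ℕ) (N : ℕ) (hN : 1 ≤ N) (a b c : ℕ → ℤ)
    (ha : ∀ i ∈ I, IsCoprime (a i) (N : ℤ)) (hb : ∀ i ∈ I, IsCoprime (b i) (N : ℤ)) (hc : ∀ i ∈ I, IsCoprime (c i) (N : ℤ))
    (h1 : ∀ i ∈ I, ∀ k ∈ I, (N : ℤ) ∣ b i ^ 2 * a k ^ 2 - b k ^ 2 * a i ^ 2)
    (h2 : ∀ i ∈ I, ∀ k ∈ I, (N : ℤ) ∣ c i ^ 2 * a k ^ 2 - c k ^ 2 * a i ^ 2) :
    ∃ I' ⊆ I, I.card ≤ (2 * N.divisors.card) ^ 2 * I'.card ∧
      ∃ κ κ' : ℤ, (∀ i ∈ I', (N : ℤ) ∣ b i - κ * a i) ∧ (∀ i ∈ I', (N : ℤ) ∣ c i - κ' * a i) := by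
  classical
  haveI : NeZero N := ⟨by omega⟩
  rcases I.eq_empty_or_nonempty with rfl | ⟨i0, hi0⟩
  · exact ⟨∅, Finset.Subset.refl _, by simp, 0, 0, by simp, by simp⟩
  have unit : ∀ x : ℤ, IsCoprime x (N : ℤ) → IsUnit ((x : ℤ) : ZMod N) := by
    intro x hx
    rw [ZMod.coe_int_isUnit_iff_isCoprime]
    exact hx.symm
  have sqz : ∀ x y z w : ℤ, (N : ℤ) ∣ x ^ 2 * y ^ 2 - z ^ 2 * w ^ 2 →
      ((x : ZMod N)) ^ 2 * (y : ZMod N) ^ 2 = (z : ZMod N) ^ 2 * (w : ZMod N) ^ 2 := by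
    intro x y z w h
    have h3 := (ZMod.intCast_zmod_eq_zero_iff_dvd _ _).mpr h
    push_cast at h3
    exact sub_eq_zero.mp h3
  set R : Finset (ZMod N) := (Finset.univ : Finset (ZMod N)).filter (fun x => x ^ 2 = 1) with hR
  set φ : ℕ → ZMod N × ZMod N := fun i =>
    ((b i : ZMod N) * (a i0 : ZMod N) * ((a i : ZMod N) * (b i0 : ZMod N))⁻¹,
      (c i : ZMod N) * (a i0 : ZMod N) * ((a i : ZMod N) * (c i0 : ZMod N))⁻¹) with hφ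
  have hmem : ∀ i ∈ I, φ i ∈ R ×ˢ R := by
    intro i hi
    rw [Finset.mem_product]
    refine ⟨?_, ?_⟩
    · rw [hR, Finset.mem_filter]
      exact ⟨Finset.mem_univ _, rkf_root (unit _ (hb i0 hi0)) (unit _ (ha i0 hi0)) (unit _ (ha i hi)) (sqz _ _ _ _ (h1 i hi i0 hi0))⟩
    · rw [hR, Finset.mem_filter]
      exact ⟨Finset.mem_univ _, rkf_root (unit _ (hc i0 hi0)) (unit _ (ha i0 hi0)) (unit _ (ha i hi)) (sqz _ _ _ _ (h2 i hi i0 hi0))⟩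
  have hRcard : R.card ≤ 2 * N.divisors.card := rk_roots N hN
  have hex : ∃ r ∈ R ×ˢ R, I.card ≤ (2 * N.divisors.card) ^ 2 * (I.filter (fun i => φ i = r)).card := by
    by_contra hcon
    push Not at hcon
    have h5 : I.card = ∑ r ∈ R ×ˢ R, (I.filter (fun i => φ i = r)).card :=
      Finset.card_eq_sum_card_fiberwise hmem
    have hne : (R ×ˢ R).Nonempty := ⟨_, hmem i0 hi0⟩
    have h7 : (2 * N.divisors.card) ^ 2 * I.card < (2 * N.divisors.card) ^ 2 * I.card := by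
      calc (2 * N.divisors.card) ^ 2 * I.card
          = ∑ r ∈ R ×ˢ R, (2 * N.divisors.card) ^ 2 * (I.filter (fun i => φ i = r)).card := by
            rw [← Finset.mul_sum, ← h5]
        _ < ∑ r ∈ R ×ˢ R, I.card := Finset.sum_lt_sum_of_nonempty hne hcon
        _ = (R ×ˢ R).card * I.card := by rw [Finset.sum_const, smul_eq_mul]
        _ ≤ (2 * N.divisors.card) ^ 2 * I.card := by
            refine Nat.mul_le_mul_right _ ?_
            rw [Finset.card_product, pow_two]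
            exact Nat.mul_le_mul hRcard hRcard
    exact lt_irrefl _ h7
  obtain ⟨r, _, hr⟩ := hex
  refine ⟨I.filter (fun i => φ i = r), Finset.filter_subset _ _, hr, ?_⟩
  have lift : ∀ x : ZMod N, ∃ k : ℤ, ((k : ℤ) : ZMod N) = x := fun x => ZMod.intCast_surjective x
  obtain ⟨κ, hκ⟩ := lift (r.1 * (b i0 : ZMod N) * (a i0 : ZMod N)⁻¹)
  obtain ⟨κ', hκ'⟩ := lift (r.2 * (c i0 : ZMod N) * (a i0 : ZMod N)⁻¹)
  refine ⟨κ, κ', ?_, ?_⟩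
  · intro i hi
    rw [Finset.mem_filter] at hi
    have h8 := rkf_kappa (unit _ (hb i0 hi0)) (unit _ (ha i0 hi0)) (unit _ (ha i hi.1)) (congrArg Prod.fst hi.2)
    rw [← ZMod.intCast_zmod_eq_zero_iff_dvd]
    push_cast
    rw [hκ, ← h8, sub_self]
  · intro i hi
    rw [Finset.mem_filter] at hi
    have h8 := rkf_kappa (unit _ (hc i0 hi0)) (unit _ (ha i0 hi0)) (unit _ (ha i hi.1)) (congrArg Prod.snd hi.2)
    rw [← ZMod.intCast_zmod_eq_zero_iff_dvd]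
    push_cast
    rw [hκ', ← h8, sub_self]

end Hp

end Pool.Agent.Lib.MP_d8bd92_nt
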