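import Pool.Agent.Lib.MP_d8bd92_nt.Hp.RkF

set_option autoImplicit false

/-!
MP_d8bd92_nt, phase 2, rank method, file RkG: number of common rows of a good triple of columns.
-/

namespace Pool.Agent.Lib.MP_d8bd92_nt

namespace Hp

open Finset

/-- data of a column -/
structure RkCol (N : ℕ) (z : ℤ) (v j : ℕ) (Pu : ℝ) (I : Finset ℕ) (a : ℕ → ℕ) : Prop where
  pos : ∀ i ∈ I, 1 ≤ a i
  cop : ∀ i ∈ I, Nat.Coprime (a i) N
  sq : ∀ i ∈ I, (N : ℤ) ∣ (a i : ℤ) ^ 2 - z * i * (j : ℤ) ^ v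
  le : ∀ i ∈ I, (a i : ℝ) ^ 2 ≤ 3 * N * Pu

theorem RkCol.mono {N : ℕ} {z : ℤ} {v j : ℕ} {Pu : ℝ} {I I' : Finset ℕ} {a : ℕ → ℕ} (h : RkCol N z v j Pu I a) (hI : I' ⊆ I) :
    RkCol N z v j Pu I' a :=
  ⟨fun i hi => h.pos i (hI hi), fun i hi => h.cop i (hI hi), fun i hi => h.sq i (hI hi), fun i hi => h.le i (hI hi)⟩

private theorem rkg_cross {N : ℕ} {z : ℤ} {v j j' : ℕ} {Pu : ℝ} {I : Finset ℕ} {a b : ℕ → ℕ} (ha : RkCol N z v j Pu I a)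
    (hb : RkCol N z v j' Pu I b) {i k : ℕ} (hi : i ∈ I) (hk : k ∈ I) :
    (N : ℤ) ∣ (b i : ℤ) ^ 2 * (a k : ℤ) ^ 2 - (b k : ℤ) ^ 2 * (a i : ℤ) ^ 2 := by
  obtain ⟨x1, h1⟩ := hb.sq i hi
  obtain ⟨x2, h2⟩ := ha.sq k hk
  obtain ⟨x3, h3⟩ := hb.sq k hk
  obtain ⟨x4, h4⟩ := ha.sq i hi
  refine ⟨x1 * (a k : ℤ) ^ 2 + z * i * (j' : ℤ) ^ v * x2 - x3 * (a i : ℤ) ^ 2 - z * k * (j' : ℤ) ^ v * x4, ?_⟩
  linear_combination (a k : ℤ) ^ 2 * h1 + z * i * (j' : ℤ) ^ v * h2 - (a i : ℤ) ^ 2 * h3 - z * k * (j' : ℤ) ^ v * h4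

/-- casting to `ZMod q` -/
private theorem rkg_cast {q N : ℕ} (hqN : q ∣ N) {x : ℤ} (h : (N : ℤ) ∣ x) : ((x : ℤ) : ZMod q) = 0 := by
  rw [ZMod.intCast_zmod_eq_zero_iff_dvd]
  exact dvd_trans (by exact_mod_cast hqN) h

private theorem rkg_nz {q N : ℕ} (hq : q.Prime) (hqN : q ∣ N) {x : ℕ} (h : Nat.Coprime x N) : (x : ZMod q) ≠ 0 := by
  rw [Ne, ZMod.natCast_eq_zero_iff]
  intro hd
  exact hq.one_lt.ne' (Nat.dvd_one.mp (h ▸ Nat.dvd_gcd hd hqN))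

private theorem rkg_nzi {q N : ℕ} (hq : q.Prime) (hqN : q ∣ N) {x : ℤ} (h : IsCoprime x (N : ℤ)) : ((x : ℤ) : ZMod q) ≠ 0 := by
  rw [Ne, ZMod.intCast_zmod_eq_zero_iff_dvd]
  intro hd
  have h1 : (q : ℤ) ∣ (N : ℤ) := by exact_mod_cast hqN
  have h2 := h.isUnit_of_dvd' hd h1
  rw [Int.isUnit_iff] at h2
  have := hq.one_lt
  omega

/-- `κ ^ 2 j1^v = j2^v` modulo `q` -/
private theorem rkg_kap {q N : ℕ} (hq : q.Prime) (hqN : q ∣ N) {z : ℤ} (hz : IsCoprime z (N : ℤ)) {v j j' : ℕ} {Pu : ℝ}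
    {I : Finset ℕ} {a b : ℕ → ℕ} (ha : RkCol N z v j Pu I a) (hb : RkCol N z v j' Pu I b) {i : ℕ} (hi : i ∈ I)
    (hiN : Nat.Coprime i N) {κ : ℤ} (hκ : (N : ℤ) ∣ (b i : ℤ) - κ * (a i : ℤ)) :
    ((κ : ℤ) : ZMod q) ^ 2 * (j : ZMod q) ^ v = (j' : ZMod q) ^ v := by
  have := Fact.mk hq
  have h1 := rkg_cast hqN (ha.sq i hi)
  have h2 := rkg_cast hqN (hb.sq i hi)
  have h3 := rkg_cast hqN hκ
  push_cast at h1 h2 h3
  have hz0 := rkg_nzi hq hqN hz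
  have hi0 := rkg_nz hq hqN hiN
  have h4 : (z : ZMod q) * (i : ZMod q) ≠ 0 := mul_ne_zero hz0 hi0
  apply mul_left_cancel₀ h4
  have h5 : (b i : ZMod q) = (κ : ZMod q) * (a i : ZMod q) := sub_eq_zero.mp h3
  linear_combination (κ : ZMod q) ^ 2 * (-1) * h1 + h2 - (b i + (κ : ZMod q) * (a i : ZMod q)) * h5

private theorem rkg_inj {N : ℕ} {z : ℤ} (hz : IsCoprime z (N : ℤ)) {v j : ℕ} (hj : Nat.Coprime j N) {Pu : ℝ}
    {I : Finset ℕ} {a : ℕ → ℕ} (ha : RkCol N z v j Pu I a) (hI : ∀ i ∈ I, (i : ℝ) ≤ Pu) (hPuN : Pu < N) {i k : ℕ} (hi : i ∈ I) (hk : k ∈ I)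
    (h : a i = a k) : i = k := by
  obtain ⟨x1, h1⟩ := ha.sq i hi
  obtain ⟨x2, h2⟩ := ha.sq k hk
  rw [h] at h1
  have h3 : (N : ℤ) ∣ z * (j : ℤ) ^ v * ((i : ℤ) - k) := ⟨x2 - x1, by linear_combination h2 - h1⟩
  have h4 : IsCoprime (N : ℤ) (z * (j : ℤ) ^ v) := by
    refine IsCoprime.mul_right hz.symm ?_
    refine IsCoprime.pow_right ?_
    exact Nat.isCoprime_iff_coprime.mpr hj.symm
  have h5 : (N : ℤ) ∣ (i : ℤ) - k := h4.dvd_of_dvd_mul_left h3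
  have hiN : (i : ℤ) < N := by
    have : (i : ℝ) < (N : ℝ) := (hI i hi).trans_lt hPuN
    exact_mod_cast this
  have hkN : (k : ℤ) < N := by
    have : (k : ℝ) < (N : ℝ) := (hI k hk).trans_lt hPuN
    exact_mod_cast this
  have h6 : (i : ℤ) - k = 0 := Int.eq_zero_of_abs_lt_dvd h5 (by rw [abs_lt]; omega)
  omega

/-- rows of one cell -/
private theorem rkg_cell {q N v : ℕ} (hq : q.Prime) (hqN : q ∣ N) (hN : 0 < N) {z : ℤ} (hz : IsCoprime z (N : ℤ)) {j1 j2 j3 : ℕ}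
    (hj1 : Nat.Coprime j1 N) (I : Finset ℕ) (a b c : ℕ → ℕ) {Pl Pu : ℝ}
    (hPl : 1 ≤ Pl) (hPu0 : 1 ≤ Pu) (hPuN : Pu < N) (hI : ∀ i ∈ I, i.Prime ∧ Pl ≤ (i : ℝ) ∧ (i : ℝ) ≤ Pu ∧ Nat.Coprime i N)
    (ha : RkCol N z v j1 Pu I a) (hb : RkCol N z v j2 Pu I b) (hc : RkCol N z v j3 Pu I c)
    {κ κ' : ℤ} (hκ : ∀ i ∈ I, (N : ℤ) ∣ (b i : ℤ) - κ * (a i : ℤ)) (hκ' : ∀ i ∈ I, (N : ℤ) ∣ (c i : ℤ) - κ' * (a i : ℤ))
    {N1 W : ℕ} (hB1 : ¬ Bad1 q v N1 (j1, j2, j3)) (hB2 : ¬ Bad2 q v W (j1, j2, j3))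
    (hcell : (∀ i ∈ I, ∀ k ∈ I, (a i : ℤ) * b k = a k * b i ∧ (a i : ℤ) * c k = a k * c i ∧ (b i : ℤ) * c k = b k * c i) ∨
        ∃ n1 n2 n3 u1 u2 u3 : ℤ, u1 * n1 + u2 * n2 + u3 * n3 = 1 ∧ ∀ i ∈ I, n1 * a i + n2 * b i + n3 * c i = 0) :
    (I.card : ℝ) ≤ 48 * Pu / (N1 + 1) + (1 + 3 * Pu ^ 3 / ((W + 1) ^ 2 * Pl)) := by
  classical
  have := Fact.mk hq
  have hPl0 : 0 < Pl := by linarith
  have hNr : (0 : ℝ) < N := by exact_mod_cast hN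
  have hX : 0 ≤ 3 * Pu ^ 3 / ((W + 1) ^ 2 * Pl) := by positivity
  have hX' : 0 ≤ 48 * Pu / ((N1 : ℝ) + 1) := by positivity
  rcases I.eq_empty_or_nonempty with rfl | ⟨i0, hi0⟩
  · rw [Finset.card_empty, Nat.cast_zero]
    linarith
  -- proportional case
  have hprop : (∀ i ∈ I, ∀ k ∈ I, (a i : ℤ) * b k = a k * b i ∧ (a i : ℤ) * c k = a k * c i ∧ (b i : ℤ) * c k = b k * c i) →
      (I.card : ℝ) ≤ 1 + 3 * Pu ^ 3 / ((W + 1) ^ 2 * Pl) := by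
    intro hp
    obtain ⟨ν1, ν2, ν3, s, hν1, hν2, hν3, hs⟩ := rk_prop I (fun i => (a i : ℤ)) (fun i => (b i : ℤ)) (fun i => (c i : ℤ))
      (fun i hi => ⟨by exact_mod_cast ha.pos i hi, by exact_mod_cast hb.pos i hi, by exact_mod_cast hc.pos i hi⟩) hp
    have hsa : ∀ i ∈ I, a i = s i * ν1 := fun i hi => by exact_mod_cast (hs i hi).2.1
    have hsb : ∀ i ∈ I, b i = s i * ν2 := fun i hi => by exact_mod_cast (hs i hi).2.2.1
    have hsc : ∀ i ∈ I, c i = s i * ν3 := fun i hi => by exact_mod_cast (hs i hi).2.2.2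
    have hs1 : ∀ i ∈ I, 1 ≤ s i := fun i hi => (hs i hi).1
    -- not Bad2
    have hW : W + 1 ≤ ν1 ∨ W + 1 ≤ ν2 ∨ W + 1 ≤ ν3 := by
      by_contra hcon
      push Not at hcon
      apply hB2
      have e1 := rkg_cast hqN (ha.sq i0 hi0)
      have e2 := rkg_cast hqN (hb.sq i0 hi0)
      have e3 := rkg_cast hqN (hc.sq i0 hi0)
      push_cast at e1 e2 e3
      have hz0 := rkg_nzi hq hqN hz
      have hi00 := rkg_nz hq hqN (hI i0 hi0).2.2.2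
      have ha0 := rkg_nz hq hqN (ha.cop i0 hi0)
      rw [hsa i0 hi0] at e1 ha0
      rw [hsb i0 hi0] at e2
      rw [hsc i0 hi0] at e3
      push_cast at e1 e2 e3 ha0
      have hs0 : (s i0 : ZMod q) ≠ 0 := left_ne_zero_of_mul ha0
      have hn0 : (ν1 : ZMod q) ≠ 0 := right_ne_zero_of_mul ha0
      have hc0 : (s i0 : ZMod q) ^ 2 * ((z : ZMod q) * (i0 : ZMod q)) ≠ 0 :=
        mul_ne_zero (pow_ne_zero _ hs0) (mul_ne_zero hz0 hi00)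
      refine ⟨ν1, ν2, ν3, Nat.le_of_lt_succ hcon.1, Nat.le_of_lt_succ hcon.2.1, Nat.le_of_lt_succ hcon.2.2, hn0, ?_, ?_⟩
      · apply mul_left_cancel₀ hc0
        dsimp only
        linear_combination (s i0 : ZMod q) ^ 2 * ν2 ^ 2 * e1 - (s i0 : ZMod q) ^ 2 * ν1 ^ 2 * e2
      · apply mul_left_cancel₀ hc0
        dsimp only
        linear_combination (s i0 : ZMod q) ^ 2 * ν3 ^ 2 * e1 - (s i0 : ZMod q) ^ 2 * ν1 ^ 2 * e3
    -- bound for s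
    have hsA : ∀ i ∈ I, (s i : ℝ) ≤ √(3 * N * Pu) / (W + 1) := by
      intro i hi
      have hW0 : (0 : ℝ) < (W : ℝ) + 1 := by positivity
      rw [le_div_iff₀ hW0]
      apply Real.le_sqrt_of_sq_le
      rcases hW with h | h | h
      · refine le_trans ?_ (ha.le i hi)
        rw [hsa i hi]
        push_cast
        have : ((W : ℝ) + 1) ≤ ν1 := by exact_mod_cast h
        gcongr
      · refine le_trans ?_ (hb.le i hi)
        rw [hsb i hi]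
        push_cast
        have : ((W : ℝ) + 1) ≤ ν2 := by exact_mod_cast h
        gcongr
      · refine le_trans ?_ (hc.le i hi)
        rw [hsc i hi]
        push_cast
        have : ((W : ℝ) + 1) ≤ ν3 := by exact_mod_cast h
        gcongr
    have hsl := rk_slopes I N hN s (√(3 * N * Pu) / (W + 1)) Pl Pu (by linarith)
      (fun i hi => ⟨(hI i hi).1, (hI i hi).2.1, (hI i hi).2.2.1⟩) (fun i hi => ⟨hs1 i hi, hsA i hi⟩) (by
        intro i hi k hk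
        obtain ⟨x1, e1⟩ := ha.sq i hi
        obtain ⟨x2, e2⟩ := ha.sq k hk
        rw [hsa i hi] at e1
        rw [hsa k hk] at e2
        push_cast at e1 e2
        have hcopν : IsCoprime (N : ℤ) ((ν1 : ℤ) ^ 2) := by
          refine IsCoprime.pow_right ?_
          have h1 := ha.cop i hi
          rw [hsa i hi] at h1
          exact Nat.isCoprime_iff_coprime.mpr (Nat.Coprime.coprime_mul_left h1).symm
        have h4 : IsCoprime (N : ℤ) (z * (j1 : ℤ) ^ v) := by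
          refine IsCoprime.mul_right hz.symm ?_
          refine IsCoprime.pow_right ?_
          exact Nat.isCoprime_iff_coprime.mpr hj1.symm
        have h5 : (N : ℤ) ∣ ((ν1 : ℤ) ^ 2) * ((s i : ℤ) ^ 2 * k - (s k : ℤ) ^ 2 * i) := by
          refine ⟨x1 * k - x2 * i, ?_⟩
          linear_combination (k : ℤ) * e1 - (i : ℤ) * e2
        exact hcopν.dvd_of_dvd_mul_left h5)
    refine hsl.trans (le_of_eq ?_)
    rw [div_pow, Real.sq_sqrt (by positivity)]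
    field_simp
  rcases hcell with hp | ⟨n1, n2, n3, u1, u2, u3, hu, hpl⟩
  · have := hprop hp
    linarith
  · by_cases hsm : ((N1 : ℤ) + 1 ≤ |n1| ∨ (N1 : ℤ) + 1 ≤ |n2| ∨ (N1 : ℤ) + 1 ≤ |n3|)
    · -- planar lemma
      have hfl : ∀ x : ℕ, (x : ℝ) ^ 2 ≤ 3 * N * Pu → (x : ℤ) ≤ ⌊√(3 * N * Pu)⌋ := by
        intro x hx
        rw [Int.le_floor]
        push_cast
        exact Real.le_sqrt_of_sq_le hx
      rcases rk_planar I (N : ℤ) (by exact_mod_cast hN) ⌊√(3 * N * Pu)⌋ κ κ' (fun i => (a i : ℤ)) (fun i => (b i : ℤ))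
        (fun i => (c i : ℤ)) hκ hκ'
        (fun i hi => ⟨by exact_mod_cast ha.pos i hi, hfl _ (ha.le i hi), by exact_mod_cast hb.pos i hi, hfl _ (hb.le i hi),
          by exact_mod_cast hc.pos i hi, hfl _ (hc.le i hi)⟩)
        (fun i hi k hk h1 _ _ => rkg_inj hz hj1 ha (fun i hi => (hI i hi).2.2.1) hPuN hi hk (by exact_mod_cast h1))
        n1 n2 n3 u1 u2 u3 hu hpl ((N1 : ℤ) + 1) (by positivity) hsm with hp | hcount
      · have := hprop hp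
        linarith
      · have h1 : (I.card : ℝ) * (N * ((N1 : ℝ) + 1)) ≤ 16 * (⌊√(3 * N * Pu)⌋ : ℝ) ^ 2 := by exact_mod_cast hcount
        have h2 : (⌊√(3 * N * Pu)⌋ : ℝ) ^ 2 ≤ 3 * N * Pu := by
          have h3 : (⌊√(3 * N * Pu)⌋ : ℝ) ≤ √(3 * N * Pu) := Int.floor_le _
          have h4 : (0 : ℝ) ≤ (⌊√(3 * N * Pu)⌋ : ℝ) := by exact_mod_cast Int.floor_nonneg.mpr (Real.sqrt_nonneg _)
          calc (⌊√(3 * N * Pu)⌋ : ℝ) ^ 2 ≤ (√(3 * N * Pu)) ^ 2 := pow_le_pow_left₀ h4 h3 2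
            _ = 3 * N * Pu := Real.sq_sqrt (by positivity)
        have h5 : (I.card : ℝ) ≤ 48 * Pu / ((N1 : ℝ) + 1) := by
          rw [le_div_iff₀ (by positivity)]
          have h6 : (I.card : ℝ) * ((N1 : ℝ) + 1) * N ≤ 48 * Pu * N := by
            have h7 : (I.card : ℝ) * ((N1 : ℝ) + 1) * N = (I.card : ℝ) * (N * ((N1 : ℝ) + 1)) := by ring
            rw [h7]
            refine h1.trans ((mul_le_mul_of_nonneg_left h2 (by norm_num)).trans (le_of_eq (by ring)))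
          exact le_of_mul_le_mul_right h6 hNr
        linarith
    · -- Bad1
      exfalso
      push Not at hsm
      apply hB1
      refine ⟨n1, n2, n3, ?_, Int.lt_add_one_iff.mp hsm.1, Int.lt_add_one_iff.mp hsm.2.1, Int.lt_add_one_iff.mp hsm.2.2,
        (κ : ZMod q), (κ' : ZMod q), ?_, ?_, ?_⟩
      · rintro ⟨h1, h2, h3⟩
        rw [h1, h2, h3] at hu
        simp at hu
      · exact rkg_kap hq hqN hz ha hb hi0 (hI i0 hi0).2.2.2 (hκ i0 hi0)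
      · exact rkg_kap hq hqN hz ha hc hi0 (hI i0 hi0).2.2.2 (hκ' i0 hi0)
      · have e0 := congrArg (fun x : ℤ => ((x : ℤ) : ZMod q)) (hpl i0 hi0)
        push_cast at e0
        have e1 := rkg_cast hqN (hκ i0 hi0)
        have e2 := rkg_cast hqN (hκ' i0 hi0)
        push_cast at e1 e2
        have ha0 := rkg_nz hq hqN (ha.cop i0 hi0)
        apply mul_right_cancel₀ ha0
        rw [zero_mul]
        linear_combination e0 - (n2 : ZMod q) * e1 - (n3 : ZMod q) * e2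

private theorem rkg_s {q N : ℕ} (hq3 : q ^ 3 ∣ N) (hN : 0 < N) {Pl Pu H : ℝ} (hPl : 1 ≤ Pl) (hPq : Pl ≤ q) (hH : 1 ≤ H)
    (hPuH : Pu ≤ H * Pl) (hPu0 : 1 ≤ Pu) :
    ∃ s : ℝ, 0 < s ∧ s ≤ √(3 * N * Pu) ∧ 6 * √(3 * N * Pu) * s ^ 2 < (N : ℝ) ^ 2 ∧ (√(3 * N * Pu) / s) ^ 3 ≤ 1728 * H ^ 3 := by
  have hNr : (0 : ℝ) < N := by exact_mod_cast hN
  set G := √(3 * N * Pu) with hG
  have hG0 : 0 < G := Real.sqrt_pos.mpr (by positivity)
  have hG2 : G ^ 2 = 3 * N * Pu := Real.sq_sqrt (by positivity)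
  have hsG0 : 0 < √G := Real.sqrt_pos.mpr hG0
  have hsG2 : √G ^ 2 = G := Real.sq_sqrt hG0.le
  have hqN : (q : ℝ) ^ 3 ≤ N := by exact_mod_cast Nat.le_of_dvd hN hq3
  have hPu3 : Pu ^ 3 ≤ H ^ 3 * N := by
    calc Pu ^ 3 ≤ (H * Pl) ^ 3 := by gcongr
      _ ≤ (H * q) ^ 3 := by gcongr
      _ = H ^ 3 * (q : ℝ) ^ 3 := by ring
      _ ≤ H ^ 3 * N := by gcongr
  have h1 : Pu * G ≤ 3 * H ^ 2 * N := by
    apply le_of_sq_le_sq _ (by positivity)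
    calc (Pu * G) ^ 2 = 3 * N * Pu ^ 3 := by rw [mul_pow, hG2]; ring
      _ ≤ 3 * N * (H ^ 3 * N) := by gcongr
      _ ≤ (3 * H ^ 2 * N) ^ 2 := by
        have h7 : H ^ 3 ≤ 3 * H ^ 4 := by
          have h8 : 0 ≤ H ^ 3 := pow_nonneg (zero_le_one.trans hH) 3
          have h9 : H ^ 3 * 1 ≤ H ^ 3 * H := mul_le_mul_of_nonneg_left hH h8
          have h10 : H ^ 3 * H = H ^ 4 := by ring
          linarith
        have h11 := mul_le_mul_of_nonneg_left h7 (sq_nonneg (N : ℝ))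
        have h12 : 3 * N * (H ^ 3 * N) = 3 * ((N : ℝ) ^ 2 * H ^ 3) := by ring
        have h13 : (3 * H ^ 2 * N) ^ 2 = 3 * ((N : ℝ) ^ 2 * (3 * H ^ 4)) := by ring
        rw [h12, h13]
        exact mul_le_mul_of_nonneg_left h11 (by norm_num)
  have h2 : G * √G ≤ 3 * H * N := by
    apply le_of_sq_le_sq _ (by positivity)
    calc (G * √G) ^ 2 = G ^ 2 * (√G ^ 2) := by ring
      _ = 3 * N * (Pu * G) := by rw [hG2, hsG2]; ring
      _ ≤ 3 * N * (3 * H ^ 2 * N) := by gcongr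
      _ = (3 * H * N) ^ 2 := by ring
  refine ⟨min G (N / (4 * √G)), lt_min hG0 (by positivity), min_le_left _ _, ?_, ?_⟩
  · have h3 : min G (N / (4 * √G)) ^ 2 ≤ (N / (4 * √G)) ^ 2 := by
      have : 0 ≤ min G (N / (4 * √G)) := le_min hG0.le (by positivity)
      gcongr
      exact min_le_right _ _
    have h4 : (N / (4 * √G)) ^ 2 = (N : ℝ) ^ 2 / (16 * G) := by
      rw [div_pow, mul_pow, hsG2]
      norm_num
    calc 6 * G * min G (N / (4 * √G)) ^ 2 ≤ 6 * G * ((N : ℝ) ^ 2 / (16 * G)) := by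
          rw [← h4]
          gcongr
      _ = (6 / 16) * (N : ℝ) ^ 2 := by field_simp
      _ < (N : ℝ) ^ 2 := by
        have h5 := pow_pos hNr 2
        linarith
  · have h5 : G / min G (N / (4 * √G)) ≤ 12 * H := by
      rcases min_choice G (N / (4 * √G)) with h | h
      · rw [h, div_self hG0.ne']
        linarith
      · rw [h, div_div_eq_mul_div, div_le_iff₀ hNr]
        have h6 : G * (4 * √G) = 4 * (G * √G) := by ring
        rw [h6]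
        linarith
    have h6 : 0 ≤ G / min G (N / (4 * √G)) := by
      have : 0 ≤ min G (N / (4 * √G)) := le_min hG0.le (by positivity)
      positivity
    calc (G / min G (N / (4 * √G))) ^ 3 ≤ (12 * H) ^ 3 := by gcongr
      _ = 1728 * H ^ 3 := by ring

/-- number of common rows of a good triple of columns -/
theorem rk_rows {q N v : ℕ} (hq : q.Prime) (hq3 : q ^ 3 ∣ N) (hN : 0 < N) {z : ℤ} (hz : IsCoprime z (N : ℤ)) {j1 j2 j3 : ℕ}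
    (hj1 : Nat.Coprime j1 N) (I : Finset ℕ) (a b c : ℕ → ℕ) {Pl Pu H : ℝ} (hPl : 1 ≤ Pl) (hPq : Pl ≤ q) (hH : 1 ≤ H)
    (hPuH : Pu ≤ H * Pl) (hPu0 : 1 ≤ Pu) (hdH : 2 * (N.divisors.card : ℝ) ≤ H) (hPuN : Pu < N)
    (hI : ∀ i ∈ I, i.Prime ∧ Pl ≤ (i : ℝ) ∧ (i : ℝ) ≤ Pu ∧ Nat.Coprime i N)
    (ha : RkCol N z v j1 Pu I a) (hb : RkCol N z v j2 Pu I b) (hc : RkCol N z v j3 Pu I c)
    {N1 W : ℕ} (hB1 : ¬ Bad1 q v N1 (j1, j2, j3)) (hB2 : ¬ Bad2 q v W (j1, j2, j3)) :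
    (I.card : ℝ) ≤ 13824 * H ^ 5 * (48 * Pu / (N1 + 1) + (1 + 3 * Pu ^ 3 / ((W + 1) ^ 2 * Pl))) := by
  have hqN : q ∣ N := dvd_trans (dvd_pow_self q (by norm_num)) hq3
  obtain ⟨I1, hI1, hcard1, κ, κ', hκ, hκ'⟩ := rk_signs I N hN (fun i => (a i : ℤ)) (fun i => (b i : ℤ)) (fun i => (c i : ℤ))
    (fun i hi => Nat.isCoprime_iff_coprime.mpr (ha.cop i hi)) (fun i hi => Nat.isCoprime_iff_coprime.mpr (hb.cop i hi))
    (fun i hi => Nat.isCoprime_iff_coprime.mpr (hc.cop i hi))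
    (fun i hi k hk => rkg_cross ha hb hi hk) (fun i hi k hk => rkg_cross ha hc hi hk)
  obtain ⟨s, hs0, hsG, h6, hs3⟩ := rkg_s hq3 hN hPl hPq hH hPuH hPu0
  have box : ∀ x : ℕ → ℕ, ∀ j : ℕ, RkCol N z v j Pu I x → ∀ i ∈ I1, 0 < ((x i : ℕ) : ℤ) ∧ (((x i : ℕ) : ℤ) : ℝ) ≤ √(3 * N * Pu) := by
    intro x j hx i hi
    refine ⟨by exact_mod_cast hx.pos i (hI1 hi), ?_⟩
    push_cast
    exact Real.le_sqrt_of_sq_le (hx.le i (hI1 hi))
  obtain ⟨I2, hI2, hcard2, hcell⟩ := rk_cell I1 (N : ℤ) (by exact_mod_cast hN) (√(3 * N * Pu)) s κ κ' (fun i => (a i : ℤ))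
    (fun i => (b i : ℤ)) (fun i => (c i : ℤ)) hκ hκ'
    (fun i hi => ⟨(box a j1 ha i hi).1, (box a j1 ha i hi).2, (box b j2 hb i hi).1, (box b j2 hb i hi).2,
      (box c j3 hc i hi).1, (box c j3 hc i hi).2⟩) hs0 hsG (by exact_mod_cast h6)
  have hI2I : I2 ⊆ I := hI2.trans hI1
  have hfin := rkg_cell hq hqN hN hz hj1 I2 a b c hPl hPu0 hPuN (fun i hi => hI i (hI2I hi)) (ha.mono hI2I) (hb.mono hI2I)
    (hc.mono hI2I) (fun i hi => hκ i (hI2 hi)) (fun i hi => hκ' i (hI2 hi)) hB1 hB2 hcell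
  set X : ℝ := 48 * Pu / (N1 + 1) + (1 + 3 * Pu ^ 3 / ((W + 1) ^ 2 * Pl)) with hX
  have hX0 : 0 ≤ X := le_trans (Nat.cast_nonneg _) hfin
  have hc1 : (I.card : ℝ) ≤ H ^ 2 * I1.card := by
    have h1 : (I.card : ℝ) ≤ (2 * (N.divisors.card : ℝ)) ^ 2 * I1.card := by exact_mod_cast hcard1
    refine h1.trans ?_
    gcongr
  calc (I.card : ℝ) ≤ H ^ 2 * I1.card := hc1
    _ ≤ H ^ 2 * (8 * (√(3 * N * Pu) / s) ^ 3 * I2.card) := by gcongr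
    _ ≤ H ^ 2 * (8 * (1728 * H ^ 3) * X) := by gcongr
    _ = 13824 * H ^ 5 * X := by ring

end Hp

end Pool.Agent.Lib.MP_d8bd92_nt
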