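import Pool.Agent.Lib.MP_d8bd92_nt.Hp.RkG

set_option autoImplicit false

/-!
MP_d8bd92_nt, phase 2, rank method, file RkH: number of edges for fixed `q`, `N`.
-/

namespace Pool.Agent.Lib.MP_d8bd92_nt

namespace Hp

open Finset

/-- data of the edges for fixed `q`, `N`, `z` -/
structure RkEdge (q N : ℕ) (z : ℤ) (v : ℕ) (Pl Pu : ℝ) (E : Finset (ℕ × ℕ)) (g : ℕ × ℕ → ℕ) : Prop where
  hq : q.Prime
  hq3 : q ^ 3 ∣ N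
  hN : 0 < N
  hz : IsCoprime z (N : ℤ)
  hPl : 1 ≤ Pl
  hPq : Pl ≤ q
  p1 : ∀ e ∈ E, e.1.Prime
  lo1 : ∀ e ∈ E, Pl ≤ (e.1 : ℝ)
  up1 : ∀ e ∈ E, (e.1 : ℝ) ≤ Pu
  p2 : ∀ e ∈ E, e.2.Prime
  up2 : ∀ e ∈ E, (e.2 : ℝ) ≤ Pu
  c1 : ∀ e ∈ E, Nat.Coprime e.1 N
  c2 : ∀ e ∈ E, Nat.Coprime e.2 N
  gpos : ∀ e ∈ E, 1 ≤ g e
  gcop : ∀ e ∈ E, Nat.Coprime (g e) N
  gsq : ∀ e ∈ E, (N : ℤ) ∣ (g e : ℤ) ^ 2 - z * e.1 * (e.2 : ℤ) ^ v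
  gle : ∀ e ∈ E, (g e : ℝ) ^ 2 ≤ 3 * N * Pu

private theorem rkh_card {I : Finset ℕ} {Pu : ℝ} (h : ∀ i ∈ I, i.Prime ∧ (i : ℝ) ≤ Pu) (hPu : 0 ≤ Pu) : (I.card : ℝ) ≤ Pu := by
  have h1 : I ⊆ Finset.Icc 1 ⌊Pu⌋₊ := by
    intro i hi
    rw [Finset.mem_Icc]
    exact ⟨(h i hi).1.one_lt.le, Nat.le_floor (h i hi).2⟩
  have h2 := Finset.card_le_card h1
  rw [Nat.card_Icc] at h2
  have h3 : (I.card : ℝ) ≤ (⌊Pu⌋₊ : ℝ) := by exact_mod_cast (by omega : I.card ≤ ⌊Pu⌋₊)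
  exact h3.trans (Nat.floor_le hPu)

theorem rkh_b {b j n w u v H L : ℝ} (hj0 : 0 ≤ j) (hn0 : 0 ≤ n) (hw0 : 0 ≤ w) (hu0 : 0 ≤ u) (hv1 : 1 ≤ v) (hH : 1 ≤ H)
    (hL : 1 ≤ L) (h2 : b ≤ 4 * j ^ 2 * (2 * n + 1) ^ 3 * (v * (u + 1)) + j * (w + 1) ^ 3 * (v * (u + 1)) ^ 2)
    (hj : j ≤ L ^ 20) (hn : 2 * n + 1 ≤ 3 * L ^ 4) (hw : w + 1 ≤ 2 * L ^ 12) (hu : u + 1 ≤ 2 * H) :
    b ≤ 248 * v ^ 2 * H ^ 2 * L ^ 56 := by
  have hv0 : 0 ≤ v := zero_le_one.trans hv1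
  have hH0 : 0 ≤ H := zero_le_one.trans hH
  have hL0 : 0 ≤ L := zero_le_one.trans hL
  have a1 : j ^ 2 ≤ (L ^ 20) ^ 2 := pow_le_pow_left₀ hj0 hj 2
  have a2 : (2 * n + 1) ^ 3 ≤ (3 * L ^ 4) ^ 3 := pow_le_pow_left₀ (by linarith) hn 3
  have a3 : v * (u + 1) ≤ v * (2 * H) := mul_le_mul_of_nonneg_left hu hv0
  have a4 : (w + 1) ^ 3 ≤ (2 * L ^ 12) ^ 3 := pow_le_pow_left₀ (by linarith) hw 3
  have a30 : 0 ≤ v * (u + 1) := mul_nonneg hv0 (by linarith)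
  have a5 : (v * (u + 1)) ^ 2 ≤ (v * (2 * H)) ^ 2 := pow_le_pow_left₀ a30 a3 2
  have b1 : 4 * j ^ 2 * (2 * n + 1) ^ 3 * (v * (u + 1)) ≤ 4 * (L ^ 20) ^ 2 * (3 * L ^ 4) ^ 3 * (v * (2 * H)) :=
    mul_le_mul (mul_le_mul (mul_le_mul_of_nonneg_left a1 (by norm_num)) a2 (pow_nonneg (by linarith) 3)
      (mul_nonneg (by norm_num) (pow_nonneg (pow_nonneg hL0 20) 2))) a3 a30
      (mul_nonneg (mul_nonneg (by norm_num) (pow_nonneg (pow_nonneg hL0 20) 2))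
        (pow_nonneg (mul_nonneg (by norm_num) (pow_nonneg hL0 4)) 3))
  have b2 : j * (w + 1) ^ 3 * (v * (u + 1)) ^ 2 ≤ L ^ 20 * (2 * L ^ 12) ^ 3 * (v * (2 * H)) ^ 2 :=
    mul_le_mul (mul_le_mul hj a4 (pow_nonneg (by linarith) 3) (pow_nonneg hL0 20)) a5 (sq_nonneg _)
      (mul_nonneg (pow_nonneg hL0 20) (pow_nonneg (mul_nonneg (by norm_num) (pow_nonneg hL0 12)) 3))
  have e1 : v * H ≤ v ^ 2 * H ^ 2 := by
    rw [← mul_pow]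
    exact le_self_pow₀ (one_le_mul_of_one_le_of_one_le hv1 hH) (by norm_num)
  have e3 : L ^ 52 ≤ L ^ 56 := pow_le_pow_right₀ hL (by norm_num)
  have b3 : v * H * L ^ 52 ≤ v ^ 2 * H ^ 2 * L ^ 56 :=
    mul_le_mul e1 e3 (pow_nonneg hL0 52) (mul_nonneg (sq_nonneg v) (sq_nonneg H))
  have c1 : 4 * (L ^ 20) ^ 2 * (3 * L ^ 4) ^ 3 * (v * (2 * H)) + L ^ 20 * (2 * L ^ 12) ^ 3 * (v * (2 * H)) ^ 2 =
      216 * (v * H * L ^ 52) + 32 * (v ^ 2 * H ^ 2 * L ^ 56) := by ring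
  have c2 : 248 * v ^ 2 * H ^ 2 * L ^ 56 = 216 * (v ^ 2 * H ^ 2 * L ^ 56) + 32 * (v ^ 2 * H ^ 2 * L ^ 56) := by ring
  rw [c2]
  linarith only [h2, b1, b2, b3, c1]

theorem rkh_c {b i e v H L : ℝ} (hb0 : 0 ≤ b) (hi0 : 0 ≤ i) (hv : 1 ≤ v ^ 2) (hH : 1 ≤ H)
    (hL0 : 0 ≤ L) (hbig : 2000000 * v ^ 2 * H ^ 10 ≤ L) (hb : b ≤ 248 * v ^ 2 * H ^ 2 * L ^ 56)
    (hi : i ≤ L ^ 20) (he : L ^ 117 ≤ e ^ 3) : 2 * b * i ^ 3 ≤ e ^ 3 := by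
  have h2 : 496 * v ^ 2 * H ^ 2 ≤ L := by
    refine le_trans ?_ hbig
    have e1 : H ^ 2 ≤ H ^ 10 := pow_le_pow_right₀ hH (by norm_num)
    have e2 : v ^ 2 * H ^ 2 ≤ v ^ 2 * H ^ 10 := mul_le_mul_of_nonneg_left e1 (zero_le_one.trans hv)
    have e3 : 0 ≤ v ^ 2 * H ^ 10 := mul_nonneg (zero_le_one.trans hv) (pow_nonneg (zero_le_one.trans hH) 10)
    linarith only [e2, e3]
  have a1 : i ^ 3 ≤ (L ^ 20) ^ 3 := pow_le_pow_left₀ hi0 hi 3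
  have a2 : 2 * b ≤ 2 * (248 * v ^ 2 * H ^ 2 * L ^ 56) := mul_le_mul_of_nonneg_left hb (by norm_num)
  have a3 : 2 * b * i ^ 3 ≤ 2 * (248 * v ^ 2 * H ^ 2 * L ^ 56) * (L ^ 20) ^ 3 :=
    mul_le_mul a2 a1 (pow_nonneg hi0 3) (le_trans (mul_nonneg (by norm_num) hb0) a2)
  have a4 : 2 * (248 * v ^ 2 * H ^ 2 * L ^ 56) * (L ^ 20) ^ 3 = (496 * v ^ 2 * H ^ 2) * L ^ 116 := by ring
  have a5 : (496 * v ^ 2 * H ^ 2) * L ^ 116 ≤ L * L ^ 116 := mul_le_mul_of_nonneg_right h2 (pow_nonneg hL0 116)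
  have a6 : L * L ^ 116 = L ^ 117 := by ring
  linarith only [a3, a4, a5, a6, he]

theorem rkh_d {x n w H L Pl : ℝ} (hn0 : 0 ≤ n) (hw0 : 0 ≤ w) (hH : 1 ≤ H) (hL : 1 ≤ L) (hPl : 0 < Pl)
    (hn : L ^ 4 ≤ n + 1) (hw : L ^ 12 ≤ w + 1) (hP : L ^ 20 ≤ H * Pl)
    (hx : x ≤ 13824 * H ^ 5 * (48 * L ^ 20 / (n + 1) + (1 + 3 * (L ^ 20) ^ 3 / ((w + 1) ^ 2 * Pl)))) :
    x ≤ 718848 * H ^ 6 * L ^ 16 := by
  have hH0 : 0 ≤ H := zero_le_one.trans hH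
  have hL0 : 0 ≤ L := zero_le_one.trans hL
  have hL16 : 0 ≤ L ^ 16 := pow_nonneg hL0 16
  have e1 : 48 * L ^ 20 / (n + 1) ≤ 48 * L ^ 16 := by
    rw [div_le_iff₀ (by linarith only [hn0])]
    have := mul_le_mul_of_nonneg_left hn (mul_nonneg (by norm_num : (0 : ℝ) ≤ 48) hL16)
    refine le_trans (le_of_eq ?_) this
    ring
  have e2 : 3 * (L ^ 20) ^ 3 / ((w + 1) ^ 2 * Pl) ≤ 3 * H * L ^ 16 := by
    rw [div_le_iff₀ (mul_pos (pow_pos (by linarith only [hw0]) 2) hPl)]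
    have h1 : (L ^ 12) ^ 2 ≤ (w + 1) ^ 2 := pow_le_pow_left₀ (pow_nonneg hL0 12) hw 2
    have h2 := mul_le_mul (mul_le_mul_of_nonneg_left h1 (mul_nonneg (by norm_num : (0 : ℝ) ≤ 3) hL16)) hP
      (pow_nonneg hL0 20) (mul_nonneg (mul_nonneg (by norm_num) hL16) (sq_nonneg _))
    calc 3 * (L ^ 20) ^ 3 = 3 * L ^ 16 * (L ^ 12) ^ 2 * L ^ 20 := by ring
      _ ≤ 3 * L ^ 16 * (w + 1) ^ 2 * (H * Pl) := h2
      _ = 3 * H * L ^ 16 * ((w + 1) ^ 2 * Pl) := by ring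
  have e3 : 1 ≤ L ^ 16 := one_le_pow₀ hL
  have e4 : L ^ 16 ≤ H * L ^ 16 := le_mul_of_one_le_left hL16 hH
  have e5 : 48 * L ^ 20 / (n + 1) + (1 + 3 * (L ^ 20) ^ 3 / ((w + 1) ^ 2 * Pl)) ≤ 52 * (H * L ^ 16) := by
    linarith only [e1, e2, e3, e4]
  have e6 := mul_le_mul_of_nonneg_left e5 (mul_nonneg (by norm_num : (0 : ℝ) ≤ 13824) (pow_nonneg hH0 5))
  refine hx.trans (e6.trans (le_of_eq ?_))
  ring

theorem rkh_e {e i j x H L : ℝ} (hi0 : 0 ≤ i) (hj0 : 0 ≤ j) (hx0 : 0 ≤ x) (hH : 1 ≤ H) (hL : 1 ≤ L)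
    (hi : i ≤ L ^ 20) (hj : j ≤ L ^ 20) (he : L ^ 117 ≤ e ^ 3) (ht : e ^ 3 ≤ 2 * i ^ 2 * j ^ 3 * x)
    (hx : x ≤ 718848 * H ^ 6 * L ^ 16) (hb : 2000000 * H ^ 10 ≤ L) : False := by
  have hL0 : 0 < L := lt_of_lt_of_le one_pos hL
  have hL20 : 0 ≤ L ^ 20 := (pow_pos hL0 20).le
  have a1 : i ^ 2 ≤ (L ^ 20) ^ 2 := pow_le_pow_left₀ hi0 hi 2
  have a2 : j ^ 3 ≤ (L ^ 20) ^ 3 := pow_le_pow_left₀ hj0 hj 3
  have a3 : 2 * i ^ 2 * j ^ 3 * x ≤ 2 * (L ^ 20) ^ 2 * (L ^ 20) ^ 3 * (718848 * H ^ 6 * L ^ 16) :=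
    mul_le_mul (mul_le_mul (mul_le_mul_of_nonneg_left a1 (by norm_num)) a2 (pow_nonneg hj0 3)
      (mul_nonneg (by norm_num) (pow_nonneg hL20 2))) hx hx0
      (mul_nonneg (mul_nonneg (by norm_num) (pow_nonneg hL20 2)) (pow_nonneg hL20 3))
  have a4 : 2 * (L ^ 20) ^ 2 * (L ^ 20) ^ 3 * (718848 * H ^ 6 * L ^ 16) = (1437696 * H ^ 6) * L ^ 116 := by ring
  have a5 : L * L ^ 116 = L ^ 117 := by ring
  have a6 : L * L ^ 116 ≤ (1437696 * H ^ 6) * L ^ 116 := by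
    linarith only [a3, a4, a5, he, ht]
  have a7 : L ≤ 1437696 * H ^ 6 := le_of_mul_le_mul_right a6 (pow_pos hL0 116)
  have h610 : H ^ 6 ≤ H ^ 10 := pow_le_pow_right₀ hH (by norm_num)
  have h10 : 1 ≤ H ^ 10 := one_le_pow₀ hH
  linarith only [a7, h610, h10, hb]

/-- number of edges -/
theorem rk_core (v : ℕ) (hv : 1 ≤ v) {q N : ℕ} {z : ℤ} {Pl Pu : ℝ} {E : Finset (ℕ × ℕ)} {g : ℕ × ℕ → ℕ}
    (h : RkEdge q N z v Pl Pu E g) {H Λ : ℝ} (hH : 1 ≤ H) (hPuH : Pu ≤ H * Pl) (hdH : 2 * (N.divisors.card : ℝ) ≤ H)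
    (hΛ0 : 0 < Λ) (hΛ : Λ ^ 20 = Pu) (hbig : 2000000 * (v : ℝ) ^ 2 * H ^ 10 ≤ Λ) : (E.card : ℝ) ≤ Λ ^ 39 := by
  classical
  by_contra hcon
  push Not at hcon
  have hv1 : (1 : ℝ) ≤ v := by exact_mod_cast hv
  have hv2 : (1 : ℝ) ≤ (v : ℝ) ^ 2 := one_le_pow₀ hv1
  have hH10 : (1 : ℝ) ≤ H ^ 10 := one_le_pow₀ hH
  have hΛb : 2000000 * H ^ 10 ≤ Λ := by
    refine le_trans ?_ hbig
    have : H ^ 10 ≤ (v : ℝ) ^ 2 * H ^ 10 := le_mul_of_one_le_left (zero_le_one.trans hH10) hv2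
    linarith
  have hΛ1 : 1 ≤ Λ := by linarith
  have hHH : H ≤ H ^ 10 := le_self_pow₀ hH (by norm_num)
  have hΛH : H ≤ Λ := by linarith
  have hPu1 : 1 ≤ Pu := by rw [← hΛ]; exact one_le_pow₀ hΛ1
  have hH0 : 0 < H := by linarith
  have hqN : q ∣ N := dvd_trans (dvd_pow_self q (by norm_num)) h.hq3
  have hPlΛ : Λ ^ 19 ≤ Pl := by
    -- Pu ≤ H Pl ≤ Λ Pl
    have h1 : Λ ^ 19 * Λ ≤ Pl * Λ := by
      calc Λ ^ 19 * Λ = Λ ^ 20 := by ring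
        _ = Pu := hΛ
        _ ≤ H * Pl := hPuH
        _ ≤ Λ * Pl := by
          have := h.hPl
          gcongr
        _ = Pl * Λ := by ring
    exact le_of_mul_le_mul_right h1 hΛ0
  have hPuHPl : Λ ^ 20 ≤ H * Pl := by rw [hΛ]; exact hPuH
  have hq19 : Λ ^ 19 ≤ q := hPlΛ.trans h.hPq
  have hNΛ : Λ ^ 57 ≤ (N : ℝ) := by
    calc Λ ^ 57 = (Λ ^ 19) ^ 3 := by ring
      _ ≤ (q : ℝ) ^ 3 := by gcongr
      _ ≤ N := by exact_mod_cast Nat.le_of_dvd h.hN h.hq3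
  have hΛlt : 1 < Λ := by linarith
  have hPuN : Pu < N := by
    refine lt_of_lt_of_le ?_ hNΛ
    rw [← hΛ]
    exact pow_lt_pow_right₀ hΛlt (by norm_num)
  set I := E.image Prod.fst with hI
  set J := E.image Prod.snd with hJ
  have hIp : ∀ i ∈ I, i.Prime ∧ (i : ℝ) ≤ Pu := by
    intro i hi
    obtain ⟨e, he, rfl⟩ := Finset.mem_image.mp hi
    exact ⟨h.p1 e he, h.up1 e he⟩
  have hJp : ∀ j ∈ J, j.Prime ∧ (j : ℝ) ≤ Pu := by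
    intro j hj
    obtain ⟨e, he, rfl⟩ := Finset.mem_image.mp hj
    exact ⟨h.p2 e he, h.up2 e he⟩
  have hJc : ∀ j ∈ J, Nat.Coprime j N := by
    intro j hj
    obtain ⟨e, he, rfl⟩ := Finset.mem_image.mp hj
    exact h.c2 e he
  have hIc : (I.card : ℝ) ≤ Λ ^ 20 := by rw [hΛ]; exact rkh_card hIp (by linarith)
  have hJcd : (J.card : ℝ) ≤ Λ ^ 20 := by rw [hΛ]; exact rkh_card hJp (by linarith)
  have hEIJ : E ⊆ I ×ˢ J := by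
    intro e he
    rw [Finset.mem_product]
    exact ⟨Finset.mem_image_of_mem _ he, Finset.mem_image_of_mem _ he⟩
  have hEne : E.Nonempty := by
    rw [Finset.nonempty_iff_ne_empty]
    rintro rfl
    simp at hcon
    have : 0 < Λ ^ 39 := by positivity
    linarith
  set U := ⌊Pu⌋₊ with hU
  set N1 := ⌊Λ ^ 4⌋₊ with hN1
  set W := ⌊Λ ^ 12⌋₊ with hW
  have hN1le : (N1 : ℝ) ≤ Λ ^ 4 := Nat.floor_le (by positivity)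
  have hWle : (W : ℝ) ≤ Λ ^ 12 := Nat.floor_le (by positivity)
  have hN1ge : Λ ^ 4 ≤ (N1 : ℝ) + 1 := (Nat.lt_floor_add_one _).le
  have hWge : Λ ^ 12 ≤ (W : ℝ) + 1 := (Nat.lt_floor_add_one _).le
  have hN1q : N1 < q := by
    have h1 : (N1 : ℝ) < q := by
      refine lt_of_lt_of_le (lt_of_le_of_lt hN1le ?_) hq19
      exact pow_lt_pow_right₀ hΛlt (by norm_num)
    exact_mod_cast h1
  have hJU : ∀ j ∈ J, j ≤ U := fun j hj => Nat.le_floor (hJp j hj).2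
  have hJnz : ∀ j ∈ J, (j : ZMod q) ≠ 0 := by
    intro j hj
    rw [Ne, ZMod.natCast_eq_zero_iff]
    intro hd
    exact h.hq.one_lt.ne' (Nat.dvd_one.mp ((hJc j hj) ▸ Nat.dvd_gcd hd hqN))
  have hb1 := rk_bad1 h.hq v U N1 hv hN1q J (fun j hj => ⟨hJU j hj, hJnz j hj⟩)
  have hb2 := rk_bad2 h.hq v U W hv J hJU
  set B := (J ×ˢ J ×ˢ J).filter (fun j => Bad1 q v N1 j ∨ Bad2 q v W j) with hB
  have hBcard : (B.card : ℝ) ≤ 248 * (v : ℝ) ^ 2 * H ^ 2 * Λ ^ 56 := by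
    have h1 : B.card ≤ ((J ×ˢ J ×ˢ J).filter (fun j => Bad1 q v N1 j)).card +
        ((J ×ˢ J ×ˢ J).filter (fun j => Bad2 q v W j)).card := by
      rw [hB, Finset.filter_or]
      exact Finset.card_union_le _ _
    have h2 : (B.card : ℝ) ≤ 4 * (J.card : ℝ) ^ 2 * (2 * N1 + 1) ^ 3 * (v * ((U / q : ℕ) + 1)) +
        J.card * ((W : ℝ) + 1) ^ 3 * (v * ((U / q : ℕ) + 1)) ^ 2 := by
      have h3 := h1.trans (add_le_add hb1 hb2)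
      have h4 : (B.card : ℝ) ≤ ((4 * J.card ^ 2 * (2 * N1 + 1) ^ 3 * (v * (U / q + 1)) +
        J.card * (W + 1) ^ 3 * (v * (U / q + 1)) ^ 2 : ℕ) : ℝ) := by exact_mod_cast h3
      refine h4.trans (le_of_eq ?_)
      push_cast
      ring
    have hq0 : (0 : ℝ) < q := by exact_mod_cast h.hq.pos
    have hUq : (((U / q : ℕ) : ℝ) + 1) ≤ 2 * H := by
      have h5 : ((U / q : ℕ) : ℝ) ≤ (U : ℝ) / q := Nat.cast_div_le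
      have h6 : (U : ℝ) / q ≤ H := by
        rw [div_le_iff₀ hq0]
        calc (U : ℝ) ≤ Pu := Nat.floor_le (by linarith)
          _ ≤ H * Pl := hPuH
          _ ≤ H * q := by
            have := h.hPq
            gcongr
      linarith
    have h2N : 2 * (N1 : ℝ) + 1 ≤ 3 * Λ ^ 4 := by
      have : 1 ≤ Λ ^ 4 := one_le_pow₀ hΛ1
      linarith
    have h2W : (W : ℝ) + 1 ≤ 2 * Λ ^ 12 := by
      have : 1 ≤ Λ ^ 12 := one_le_pow₀ hΛ1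
      linarith
    exact rkh_b (Nat.cast_nonneg _) (Nat.cast_nonneg _) (Nat.cast_nonneg _) (Nat.cast_nonneg _) hv1 hH hΛ1 h2 hJcd h2N h2W hUq
  have hEcube : Λ ^ 117 ≤ (E.card : ℝ) ^ 3 := by
    calc Λ ^ 117 = (Λ ^ 39) ^ 3 := by ring
      _ ≤ (E.card : ℝ) ^ 3 := by gcongr
  have hBcond : 2 * B.card * I.card ^ 3 ≤ E.card ^ 3 := by
    have h1 : (2 * (B.card : ℝ) * (I.card : ℝ) ^ 3) ≤ (E.card : ℝ) ^ 3 :=
      rkh_c (Nat.cast_nonneg _) (Nat.cast_nonneg _) hv2 hH hΛ0.le hbig hBcard hIc hEcube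
    exact_mod_cast h1
  obtain ⟨j1, hj1, j2, hj2, j3, hj3, hnB, htr⟩ := rk_triple I J E hEIJ hEne B hBcond
  have hnB' : ¬ Bad1 q v N1 (j1, j2, j3) ∧ ¬ Bad2 q v W (j1, j2, j3) := by
    constructor
    · intro hb
      apply hnB
      rw [hB, Finset.mem_filter]
      exact ⟨Finset.mem_product.mpr ⟨hj1, Finset.mem_product.mpr ⟨hj2, hj3⟩⟩, Or.inl hb⟩
    · intro hb
      apply hnB
      rw [hB, Finset.mem_filter]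
      exact ⟨Finset.mem_product.mpr ⟨hj1, Finset.mem_product.mpr ⟨hj2, hj3⟩⟩, Or.inr hb⟩
  set I0 := I.filter (fun i => (i, j1) ∈ E ∧ (i, j2) ∈ E ∧ (i, j3) ∈ E) with hI0
  have hm : ∀ i ∈ I0, (i, j1) ∈ E ∧ (i, j2) ∈ E ∧ (i, j3) ∈ E := fun i hi => (Finset.mem_filter.mp hi).2
  have hrows := rk_rows h.hq h.hq3 h.hN h.hz (hJc j1 hj1) I0 (fun i => g (i, j1)) (fun i => g (i, j2)) (fun i => g (i, j3))
    h.hPl h.hPq hH hPuH hPu1 hdH hPuN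
    (fun i hi => ⟨h.p1 _ (hm i hi).1, h.lo1 _ (hm i hi).1, h.up1 _ (hm i hi).1, h.c1 _ (hm i hi).1⟩)
    ⟨fun i hi => h.gpos _ (hm i hi).1, fun i hi => h.gcop _ (hm i hi).1, fun i hi => h.gsq _ (hm i hi).1,
      fun i hi => h.gle _ (hm i hi).1⟩
    ⟨fun i hi => h.gpos _ (hm i hi).2.1, fun i hi => h.gcop _ (hm i hi).2.1, fun i hi => h.gsq _ (hm i hi).2.1,
      fun i hi => h.gle _ (hm i hi).2.1⟩
    ⟨fun i hi => h.gpos _ (hm i hi).2.2, fun i hi => h.gcop _ (hm i hi).2.2, fun i hi => h.gsq _ (hm i hi).2.2,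
      fun i hi => h.gle _ (hm i hi).2.2⟩ hnB'.1 hnB'.2
  have hPl0 : 0 < Pl := by linarith [h.hPl]
  have hup : (I0.card : ℝ) ≤ 718848 * H ^ 6 * Λ ^ 16 := by
    refine rkh_d (Nat.cast_nonneg _) (Nat.cast_nonneg _) hH hΛ1 hPl0 hN1ge hWge hPuHPl ?_
    rw [hΛ]
    exact hrows
  have h1 : (E.card : ℝ) ^ 3 ≤ 2 * (I.card : ℝ) ^ 2 * (J.card : ℝ) ^ 3 * (I0.card : ℝ) := by exact_mod_cast htr
  exact rkh_e (Nat.cast_nonneg _) (Nat.cast_nonneg _) (Nat.cast_nonneg _) hH hΛ1 hIc hJcd hEcube h1 hup hΛb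

end Hp

end Pool.Agent.Lib.MP_d8bd92_nt
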