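import Pool.Agent.Lib.MP_d8bd92_nt.Hp.RkH

set_option autoImplicit false

/-!
MP_d8bd92_nt, phase 2, rank method, file RkI: number of pairs for fixed `q` and fixed dust.
-/

namespace Pool.Agent.Lib.MP_d8bd92_nt

namespace Hp

open Finset

/-- data of the pairs for fixed `q` and fixed dust -/
structure RkFib (q w1 : ℕ) (z : ℤ) (v v' : ℕ) (Pl Pu : ℝ) (S : Finset (ℤ × ℤ)) (r p p' q' : ℤ × ℤ → ℕ) : Prop where
  nx : ∀ w ∈ S, w.1 ≠ 0
  cop : ∀ w ∈ S, IsCoprime w.1 w.2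
  sq : ∀ w ∈ S, (r w : ℤ) ^ 2 = w.1 + w.2
  x : ∀ w ∈ S, w.1.natAbs = w1 * p w * q ^ v
  y : ∀ w ∈ S, w.2 = z * p' w * (q' w : ℤ) ^ v'
  le : ∀ w ∈ S, w.2.natAbs ≤ w.1.natAbs
  pp : ∀ w ∈ S, (p w).Prime
  pu : ∀ w ∈ S, (p w : ℝ) ≤ Pu
  pp' : ∀ w ∈ S, (p' w).Prime
  pl' : ∀ w ∈ S, Pl ≤ (p' w : ℝ)
  pu' : ∀ w ∈ S, (p' w : ℝ) ≤ Pu
  qp' : ∀ w ∈ S, (q' w).Prime
  qu' : ∀ w ∈ S, (q' w : ℝ) ≤ Pu

private theorem rki_dvd {q w1 : ℕ} {z : ℤ} {v v' : ℕ} {Pl Pu : ℝ} {S : Finset (ℤ × ℤ)} {r p p' q' : ℤ × ℤ → ℕ}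
    (h : RkFib q w1 z v v' Pl Pu S r p p' q') {w : ℤ × ℤ} (hw : w ∈ S) : ((w1 * q ^ v : ℕ) : ℤ) ∣ w.1 := by
  rw [← Int.natAbs_dvd_natAbs, Int.natAbs_natCast, h.x w hw]
  exact ⟨p w, by ring⟩

private theorem rki_coprime {a b : ℤ} (h : IsCoprime a b) {n m : ℕ} (hn : (n : ℤ) ∣ a) (hm : (m : ℤ) ∣ b) : Nat.Coprime m n := by
  have h1 : IsCoprime (n : ℤ) (m : ℤ) := (h.of_isCoprime_of_dvd_left hn).of_isCoprime_of_dvd_right hm
  exact (Nat.isCoprime_iff_coprime.mp h1).symm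

/-- `r w` is positive and prime to `N` -/
private theorem rki_r {q w1 : ℕ} {z : ℤ} {v v' : ℕ} {Pl Pu : ℝ} {S : Finset (ℤ × ℤ)} {r p p' q' : ℤ × ℤ → ℕ}
    (h : RkFib q w1 z v v' Pl Pu S r p p' q') {w : ℤ × ℤ} (hw : w ∈ S) :
    1 ≤ r w ∧ Nat.Coprime (r w) (w1 * q ^ v) := by
  have hsq := h.sq w hw
  have hcop := h.cop w hw
  constructor
  · by_contra hcon
    have h0 : r w = 0 := by omega
    rw [h0] at hsq
    have h1 : w.2 = - w.1 := by
      have : (0 : ℤ) = w.1 + w.2 := by simpa using hsq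
      linarith
    rw [h1] at hcop
    have h2 : IsUnit w.1 := by
      have : IsCoprime w.1 w.1 := (IsCoprime.neg_right_iff _ _).mp hcop
      exact isCoprime_self.mp this
    have h3 : w.1.natAbs = 1 := Int.natAbs_of_isUnit h2
    rw [h.x w hw] at h3
    have h4 : p w = 1 := by
      have h5 : p w ∣ 1 := by rw [← h3]; exact ⟨w1 * q ^ v, by ring⟩
      exact Nat.dvd_one.mp h5
    exact (h.pp w hw).one_lt.ne' h4
  · have h1 : IsCoprime (w.1) ((r w : ℤ) ^ 2) := by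
      rw [hsq]
      obtain ⟨a, b, hab⟩ := hcop
      exact ⟨a - b, b, by linear_combination hab⟩
    have h2 : IsCoprime w.1 (r w : ℤ) := (IsCoprime.pow_right_iff (by norm_num)).mp h1
    exact rki_coprime h2 (rki_dvd h hw) (dvd_refl _)

private theorem rki_unit {N : ℕ} {x : ℕ} (h : Nat.Coprime x N) : IsUnit ((x : ℕ) : ZMod N) := (ZMod.isUnit_iff_coprime _ _).mpr h

/-- number of pairs for fixed `q` and dust -/
theorem rk_fiber {q w1 : ℕ} {z : ℤ} {v v' : ℕ} (hv : 3 ≤ v) (hv' : 1 ≤ v') (hq : q.Prime) {Pl Pu : ℝ} {S : Finset (ℤ × ℤ)}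
    {r p p' q' : ℤ × ℤ → ℕ} (h : RkFib q w1 z v v' Pl Pu S r p p' q') (hPl : 1 ≤ Pl) (hPq : Pl ≤ q) {H Λ : ℝ} (hH : 1 ≤ H)
    (hPuH : Pu ≤ H * Pl) (hdH : 2 * ((w1 * q ^ v).divisors.card : ℝ) ≤ H)
    (hΛ0 : 0 < Λ) (hΛ : Λ ^ 20 = Pu) (hbig : 2000000 * (v' : ℝ) ^ 2 * H ^ 10 ≤ Λ) : (S.card : ℝ) ≤ H * Λ ^ 39 := by
  classical
  rcases S.eq_empty_or_nonempty with rfl | ⟨w0, hw0⟩
  · simp
    positivity
  have hw1 : 0 < w1 := by
    have h1 := h.x w0 hw0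
    have h2 : 0 < w0.1.natAbs := Int.natAbs_pos.mpr (h.nx w0 hw0)
    rw [h1] at h2
    exact Nat.pos_of_ne_zero (fun h0 => by rw [h0] at h2; simp at h2)
  set N : ℕ := w1 * q ^ v with hNdef
  have hN : 0 < N := Nat.mul_pos hw1 (pow_pos hq.pos _)
  have hNr : (0 : ℝ) < N := by exact_mod_cast hN
  have hq3 : q ^ 3 ∣ N := dvd_mul_of_dvd_right (pow_dvd_pow q hv) w1
  have hPuN : 2 * Pu < N := by
    have hv1 : (1 : ℝ) ≤ (v' : ℝ) ^ 2 := one_le_pow₀ (by exact_mod_cast hv')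
    have hH10 : (1 : ℝ) ≤ H ^ 10 := one_le_pow₀ hH
    have hHH : H ≤ H ^ 10 := by
      calc H = H ^ 1 := by ring
        _ ≤ H ^ 10 := pow_le_pow_right₀ hH (by norm_num)
    have hΛb : 2000000 * H ^ 10 ≤ Λ := by
      refine le_trans ?_ hbig
      have : H ^ 10 * 1 ≤ H ^ 10 * (v' : ℝ) ^ 2 := by gcongr
      nlinarith
    have hΛH : H ≤ Λ := by nlinarith
    have hΛ2 : 2 ≤ Λ := by nlinarith
    have hPlΛ : Λ ^ 19 ≤ Pl := by
      have h1 : Λ ^ 19 * Λ ≤ Pl * Λ := by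
        calc Λ ^ 19 * Λ = Λ ^ 20 := by ring
          _ = Pu := hΛ
          _ ≤ H * Pl := hPuH
          _ ≤ Λ * Pl := by gcongr
          _ = Pl * Λ := by ring
      exact le_of_mul_le_mul_right h1 hΛ0
    have hq19 : Λ ^ 19 ≤ q := hPlΛ.trans hPq
    have hNΛ : Λ ^ 57 ≤ (N : ℝ) := by
      calc Λ ^ 57 = (Λ ^ 19) ^ 3 := by ring
        _ ≤ (q : ℝ) ^ 3 := by gcongr
        _ ≤ N := by exact_mod_cast Nat.le_of_dvd hN hq3
    rw [← hΛ]
    calc 2 * Λ ^ 20 ≤ Λ * Λ ^ 20 := by gcongr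
      _ = Λ ^ 21 := by ring
      _ < Λ ^ 57 := pow_lt_pow_right₀ (by linarith) (by norm_num)
      _ ≤ N := hNΛ
  have hPu1 : 1 ≤ Pu := by
    have h1 := (h.pp w0 hw0).one_lt.le
    have h2 : (1 : ℝ) ≤ (p w0 : ℝ) := by exact_mod_cast h1
    exact h2.trans (h.pu w0 hw0)
  -- size of r
  have hr2 : ∀ w ∈ S, (r w : ℝ) ^ 2 ≤ 2 * N * Pu := by
    intro w hw
    have h1 := h.sq w hw
    have h2 : ((r w : ℤ)) ^ 2 ≤ 2 * (w.1.natAbs : ℤ) := by
      rw [h1]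
      have h3 := h.le w hw
      omega
    have h4 : (r w) ^ 2 ≤ 2 * w.1.natAbs := by exact_mod_cast h2
    have h5 : ((r w : ℝ)) ^ 2 ≤ 2 * (w.1.natAbs : ℝ) := by exact_mod_cast h4
    refine h5.trans ?_
    rw [h.x w hw]
    have h6 := h.pu w hw
    have h7 : ((w1 * p w * q ^ v : ℕ) : ℝ) = (N : ℝ) * (p w : ℝ) := by
      rw [hNdef]; push_cast; ring
    rw [h7]
    calc 2 * ((N : ℝ) * (p w : ℝ)) ≤ 2 * ((N : ℝ) * Pu) := by gcongr
      _ = 2 * N * Pu := by ring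
  have hrN : ∀ w ∈ S, r w < N := by
    intro w hw
    have h1 : (r w : ℝ) ^ 2 < (N : ℝ) ^ 2 := by
      refine lt_of_le_of_lt (hr2 w hw) ?_
      nlinarith
    have h2 : (r w : ℝ) < N := lt_of_pow_lt_pow_left₀ 2 hNr.le h1
    exact_mod_cast h2
  set φ : ℤ × ℤ → ℕ × ℕ := fun w => (p' w, q' w) with hφ
  set E := S.image φ with hE
  have hyE : ∀ w ∈ S, ∀ w' ∈ S, φ w = φ w' → w.2 = w'.2 := by
    intro w hw w' hw' he
    rw [h.y w hw, h.y w' hw']
    rw [hφ] at he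
    simp only [Prod.mk.injEq] at he
    rw [he.1, he.2]
  -- choice
  have hch : ∀ e : ℕ × ℕ, ∃ w : ℤ × ℤ, e ∈ E → (w ∈ S ∧ φ w = e) := by
    intro e
    by_cases he : e ∈ E
    · obtain ⟨w, hw, hwe⟩ := Finset.mem_image.mp he
      exact ⟨w, fun _ => ⟨hw, hwe⟩⟩
    · exact ⟨w0, fun h => absurd h he⟩
  choose ω hω using hch
  have hω1 : ∀ e ∈ E, p' (ω e) = e.1 := fun e he => congrArg Prod.fst (hω e he).2
  have hω2 : ∀ e ∈ E, q' (ω e) = e.2 := fun e he => congrArg Prod.snd (hω e he).2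
  have hNx : ∀ w ∈ S, ((N : ℕ) : ℤ) ∣ w.1 := fun w hw => rki_dvd h hw
  have hedge : RkEdge q N z v' Pl Pu E (fun e => r (ω e)) :=
    { hq := hq
      hq3 := hq3
      hN := hN
      hz := by
        have h1 : z ∣ w0.2 := by rw [h.y w0 hw0]; exact ⟨p' w0 * (q' w0 : ℤ) ^ v', by ring⟩
        exact ((h.cop w0 hw0).symm.of_isCoprime_of_dvd_left h1).of_isCoprime_of_dvd_right (hNx w0 hw0)
      hPl := hPl
      hPq := hPq
      p1 := fun e he => by rw [← hω1 e he]; exact h.pp' _ (hω e he).1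
      lo1 := fun e he => by rw [← hω1 e he]; exact h.pl' _ (hω e he).1
      up1 := fun e he => by rw [← hω1 e he]; exact h.pu' _ (hω e he).1
      p2 := fun e he => by rw [← hω2 e he]; exact h.qp' _ (hω e he).1
      up2 := fun e he => by rw [← hω2 e he]; exact h.qu' _ (hω e he).1
      c1 := fun e he => by
        rw [← hω1 e he]
        refine rki_coprime (h.cop _ (hω e he).1) (hNx _ (hω e he).1) ?_
        rw [h.y _ (hω e he).1]
        exact ⟨z * (q' (ω e) : ℤ) ^ v', by ring⟩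
      c2 := fun e he => by
        rw [← hω2 e he]
        refine rki_coprime (h.cop _ (hω e he).1) (hNx _ (hω e he).1) ?_
        rw [h.y _ (hω e he).1]
        exact dvd_mul_of_dvd_right (dvd_pow_self _ (by omega)) _
      gpos := fun e he => (rki_r h (hω e he).1).1
      gcop := fun e he => (rki_r h (hω e he).1).2
      gsq := fun e he => by
        have h1 := h.sq _ (hω e he).1
        have h2 := h.y _ (hω e he).1
        rw [hω1 e he, hω2 e he] at h2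
        rw [h1, ← h2]
        have h3 := hNx _ (hω e he).1
        rw [add_sub_cancel_right]
        exact h3
      gle := fun e he => by
        refine (hr2 _ (hω e he).1).trans ?_
        have : (0 : ℝ) ≤ N * Pu := by positivity
        nlinarith }
  have hcore := rk_core v' hv' hedge hH hPuH hdH hΛ0 hΛ hbig
  -- fibres
  haveI : NeZero N := ⟨hN.ne'⟩
  have hfib : ∀ e ∈ E, ((S.filter (fun w => φ w = e)).card : ℝ) ≤ H := by
    intro e he
    have hwe := hω e he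
    set w' := ω e with hw'
    refine le_trans ?_ hdH
    have h1 : (S.filter (fun w => φ w = e)).card ≤ ((Finset.univ : Finset (ZMod N)).filter (fun x => x ^ 2 = 1)).card := by
      refine Finset.card_le_card_of_injOn (fun w => ((r w : ℕ) : ZMod N) * ((r w' : ℕ) : ZMod N)⁻¹) ?_ ?_
      · intro w hw
        rw [Finset.mem_coe, Finset.mem_filter] at hw
        rw [Finset.mem_coe, Finset.mem_filter]
        refine ⟨Finset.mem_univ _, ?_⟩
        have hy : w.2 = w'.2 := hyE w hw.1 w' hwe.1 (by rw [hw.2, hwe.2])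
        have hu := rki_unit (rki_r h hwe.1).2
        have h2 : ((r w : ℕ) : ZMod N) ^ 2 = ((r w' : ℕ) : ZMod N) ^ 2 := by
          have h3 : ((N : ℕ) : ℤ) ∣ (r w : ℤ) ^ 2 - (r w' : ℤ) ^ 2 := by
            rw [h.sq w hw.1, h.sq w' hwe.1, hy]
            obtain ⟨x1, hx1⟩ := hNx w hw.1
            obtain ⟨x2, hx2⟩ := hNx w' hwe.1
            exact ⟨x1 - x2, by rw [hx1, hx2]; ring⟩
          have h4 := (ZMod.intCast_zmod_eq_zero_iff_dvd _ _).mpr h3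
          push_cast at h4
          exact sub_eq_zero.mp h4
        have h5 : ((r w' : ℕ) : ZMod N) * ((r w' : ℕ) : ZMod N)⁻¹ = 1 := ZMod.mul_inv_of_unit _ hu
        calc (((r w : ℕ) : ZMod N) * ((r w' : ℕ) : ZMod N)⁻¹) ^ 2
            = ((r w : ℕ) : ZMod N) ^ 2 * (((r w' : ℕ) : ZMod N)⁻¹) ^ 2 := by ring
          _ = ((r w' : ℕ) : ZMod N) ^ 2 * (((r w' : ℕ) : ZMod N)⁻¹) ^ 2 := by rw [h2]
          _ = (((r w' : ℕ) : ZMod N) * ((r w' : ℕ) : ZMod N)⁻¹) ^ 2 := by ring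
          _ = 1 := by rw [h5, one_pow]
      · intro w hw u hu he2
        rw [Finset.mem_coe, Finset.mem_filter] at hw hu
        have hun := rki_unit (rki_r h hwe.1).2
        have h5 : ((r w' : ℕ) : ZMod N) * ((r w' : ℕ) : ZMod N)⁻¹ = 1 := ZMod.mul_inv_of_unit _ hun
        have h6 : ((r w : ℕ) : ZMod N) = ((r u : ℕ) : ZMod N) := by
          have h7 : ((r w : ℕ) : ZMod N) * ((r w' : ℕ) : ZMod N)⁻¹ = ((r u : ℕ) : ZMod N) * ((r w' : ℕ) : ZMod N)⁻¹ := he2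
          calc ((r w : ℕ) : ZMod N) = ((r w : ℕ) : ZMod N) * (((r w' : ℕ) : ZMod N) * ((r w' : ℕ) : ZMod N)⁻¹) := by
                rw [h5, mul_one]
            _ = (((r w : ℕ) : ZMod N) * ((r w' : ℕ) : ZMod N)⁻¹) * ((r w' : ℕ) : ZMod N) := by ring
            _ = (((r u : ℕ) : ZMod N) * ((r w' : ℕ) : ZMod N)⁻¹) * ((r w' : ℕ) : ZMod N) := by rw [h7]
            _ = ((r u : ℕ) : ZMod N) * (((r w' : ℕ) : ZMod N) * ((r w' : ℕ) : ZMod N)⁻¹) := by ring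
            _ = ((r u : ℕ) : ZMod N) := by rw [h5, mul_one]
        have h8 : r w = r u := by
          have h9 := (ZMod.natCast_eq_natCast_iff _ _ _).mp h6
          exact Nat.ModEq.eq_of_lt_of_lt h9 (hrN w hw.1) (hrN u hu.1)
        have hy : w.2 = u.2 := hyE w hw.1 u hu.1 (by rw [hw.2, hu.2])
        have hx : w.1 = u.1 := by
          have e1 := h.sq w hw.1
          have e2 := h.sq u hu.1
          rw [h8, e2, hy] at e1
          linarith
        exact Prod.ext hx hy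
    have h2 := rk_roots N hN
    exact_mod_cast h1.trans h2
  have hsum : S.card = ∑ e ∈ E, (S.filter (fun w => φ w = e)).card := Finset.card_eq_sum_card_image _ _
  calc (S.card : ℝ) = ∑ e ∈ E, ((S.filter (fun w => φ w = e)).card : ℝ) := by rw [hsum]; push_cast; rfl
    _ ≤ ∑ e ∈ E, H := Finset.sum_le_sum hfib
    _ = H * (E.card : ℝ) := by rw [Finset.sum_const, nsmul_eq_mul, mul_comm]
    _ ≤ H * Λ ^ 39 := by gcongr

end Hp

end Pool.Agent.Lib.MP_d8bd92_nt
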