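import Pool.Agent.Lib.MP_d8bd92_nt.Hp.RkI
import Pool.Agent.Lib.MP_d8bd92_nt.Hp.Preds
import Pool.Agent.Lib.MP_d8bd92_nt.Hp.AlJ

set_option autoImplicit false

/-!
MP_d8bd92_nt, phase 2, rank method, file RkJ: the theorem `few_rank`.
-/

namespace Pool.Agent.Lib.MP_d8bd92_nt

namespace Hp

open Finset Pool.Agent.Lib.Szpiro

theorem rkj_mul3 {a b c A B C : ℝ} (ha : a ≤ A) (hb : b ≤ B) (hc : c ≤ C) (hb0 : 0 ≤ b) (hc0 : 0 ≤ c)
    (hA0 : 0 ≤ A) : a * (b * (c * 2)) ≤ A * (B * (C * 2)) :=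
  mul_le_mul ha (mul_le_mul hb (mul_le_mul_of_nonneg_right hc zero_le_two) (mul_nonneg hc0 zero_le_two)
    (hb0.trans hb)) (mul_nonneg hb0 (mul_nonneg hc0 zero_le_two)) hA0

/-- a bound for large `Y` is enough -/
theorem rk_few_large (K ε0 Y0 C δ : ℝ) (hC : 0 < C) (hδ : 0 < δ) (Q : ℝ → ℤ × ℤ → Prop)
    (h : ∀ Y : ℝ, Y0 ≤ Y → 1 ≤ Y → ∀ P : Finset (ℤ × ℤ), (∀ w ∈ P, w ∈ PairSet K ε0 Y ∧ Q Y w) →
      (P.card : ℝ) ≤ C * Y ^ (3 / 4 - δ)) : Few K ε0 Q := by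
  classical
  set B : ℕ := ⌊(max 1 Y0) ^ (max K 0)⌋₊ with hB
  set C1 : ℝ := ((Finset.Icc (-(B : ℤ)) B ×ˢ Finset.Icc (-(B : ℤ)) B).card : ℝ) with hC1
  have hC10 : 0 ≤ C1 := Nat.cast_nonneg _
  refine ⟨C + C1, min δ (1 / 2), add_pos_of_pos_of_nonneg hC hC10, lt_min hδ one_half_pos, fun Y hY P hP => ?_⟩
  have hY0 : 0 < Y := one_pos.trans_le hY
  have h4 : Y ^ (3 / 4 - δ) ≤ Y ^ (3 / 4 - min δ (1 / 2)) :=
    Real.rpow_le_rpow_of_exponent_le hY (sub_le_sub_left (min_le_left _ _) _)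
  have h50 : (0 : ℝ) ≤ 3 / 4 - 1 / 2 := by norm_num
  have h5 : 1 ≤ Y ^ (3 / 4 - min δ (1 / 2 : ℝ)) :=
    Real.one_le_rpow hY (h50.trans (sub_le_sub_left (min_le_right _ _) _))
  by_cases hYY : Y0 ≤ Y
  · have h1 := h Y hYY hY P hP
    calc (P.card : ℝ) ≤ C * Y ^ (3 / 4 - δ) := h1
      _ ≤ C * Y ^ (3 / 4 - min δ (1 / 2)) := mul_le_mul_of_nonneg_left h4 hC.le
      _ ≤ (C + C1) * Y ^ (3 / 4 - min δ (1 / 2)) :=
        mul_le_mul_of_nonneg_right (le_add_of_nonneg_right hC10) (zero_le_one.trans h5)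
  · push Not at hYY
    have hsub : P ⊆ Finset.Icc (-(B : ℤ)) B ×ˢ Finset.Icc (-(B : ℤ)) B := by
      intro w hw
      obtain ⟨_, _, _, _, _, _, h1, h2⟩ := (hP w hw).1
      have h6 : Y ^ K ≤ (max 1 Y0) ^ (max K 0) := by
        calc Y ^ K ≤ Y ^ (max K 0) := Real.rpow_le_rpow_of_exponent_le hY (le_max_left _ _)
          _ ≤ (max 1 Y0) ^ (max K 0) := Real.rpow_le_rpow hY0.le
            (hYY.le.trans (le_max_right _ _)) (le_max_right _ _)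
      have h7 : w.1.natAbs ≤ B := Nat.le_floor (h1.trans h6)
      have h8 : w.2.natAbs ≤ B := Nat.le_floor (h2.trans h6)
      rw [Finset.mem_product, Finset.mem_Icc, Finset.mem_Icc]
      clear_value B
      clear h4 h5 h6 hP h1 h2
      refine ⟨⟨?_, ?_⟩, ⟨?_, ?_⟩⟩ <;> omega
    have h9 : (P.card : ℝ) ≤ C1 := by
      rw [hC1]
      exact_mod_cast Finset.card_le_card hsub
    calc (P.card : ℝ) ≤ C1 := h9
      _ ≤ (C + C1) * 1 := by rw [mul_one]; exact le_add_of_nonneg_left hC.le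
      _ ≤ (C + C1) * Y ^ (3 / 4 - min δ (1 / 2)) := mul_le_mul_of_nonneg_left h5 (add_nonneg hC.le hC10)

/-- the tie predicate with `j = 1` and first exponent `1` -/
private theorem rkj_tie {σ Y : ℝ} {l : Fin (2 * 1) → ℕ} (hl0 : l 0 = 1) {x : ℤ} (h : IsTie σ 1 l Y x) :
    ∃ w p q : ℕ, x.natAbs = w * p * q ^ (l 1) ∧ p.Prime ∧ q.Prime ∧ (rd w : ℝ) ≤ Y ^ σ ∧
      Y ^ (1 / 4 - σ) ≤ (p : ℝ) ∧ (p : ℝ) ≤ Y ^ (1 / 4 + σ) ∧ Y ^ (1 / 4 - σ) ≤ (q : ℝ) ∧ (q : ℝ) ≤ Y ^ (1 / 4 + σ) := by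
  obtain ⟨w, p, h1, h2, _, _, h5, h6⟩ := h
  refine ⟨w, p 0, p 1, ?_, h2 0, h2 1, h5, ?_, ?_, ?_, ?_⟩
  · rw [h1]
    have h7 : ∏ i, p i ^ l i = p 0 ^ l 0 * p 1 ^ l 1 := Fin.prod_univ_two (fun i => p i ^ l i)
    rw [h7, hl0]
    ring
  all_goals
    have h8 := h6 0
    have h9 := h6 1
    have e1 : (1 : ℝ) / (4 * ((1 : ℕ) : ℝ)) = 1 / 4 := by norm_num
    rw [e1] at h8 h9
    first | exact h8.1 | exact h8.2 | exact h9.1 | exact h9.2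

private theorem rkj_large (B c : ℝ) (hc : 0 < c) : ∃ Y0 : ℝ, 1 ≤ Y0 ∧ ∀ Y : ℝ, Y0 ≤ Y → B ≤ Y ^ c := by
  have h1 := (tendsto_rpow_atTop hc).eventually_ge_atTop B
  obtain ⟨Y0, hY0⟩ := Filter.eventually_atTop.mp h1
  exact ⟨max 1 Y0, le_max_left _ _, fun Y hY => hY0 Y ((le_max_right _ _).trans hY)⟩

private theorem rkj_card {I : Finset ℕ} {X : ℝ} (h : ∀ i ∈ I, 1 ≤ i ∧ (i : ℝ) ≤ X) (hX : 0 ≤ X) : (I.card : ℝ) ≤ X := by
  have h1 : I ⊆ Finset.Icc 1 ⌊X⌋₊ := by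
    intro i hi
    rw [Finset.mem_Icc]
    exact ⟨(h i hi).1, Nat.le_floor (h i hi).2⟩
  have h2 := Finset.card_le_card h1
  rw [Nat.card_Icc] at h2
  have h3 : (I.card : ℝ) ≤ (⌊X⌋₊ : ℝ) := by exact_mod_cast (by omega : I.card ≤ ⌊X⌋₊)
  exact h3.trans (Nat.floor_le hX)

/-- one half of the theorem: the first side is the larger one -/
theorem rk_half (K ε0 : ℝ) (hK : 2 ≤ K) (l m : Fin (2 * 1) → ℕ) (hl0 : l 0 = 1) (hl1 : 3 ≤ l 1) (hm0 : m 0 = 1)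
    (hm1 : 1 ≤ m 1) : Few K ε0 (fun Y w => IsTie (1 / 4000) 1 l Y w.1 ∧ IsTie (1 / 4000) 1 m Y w.2 ∧ w.2.natAbs ≤ w.1.natAbs) := by
  classical
  have hK0 : 0 < K := two_pos.trans_le hK
  obtain ⟨σ, hσ⟩ : ∃ σ : ℝ, σ = 1 / 4000 := ⟨_, rfl⟩
  rw [← hσ]
  have hσ0 : 0 < σ := by rw [hσ]; norm_num
  obtain ⟨ε, hε⟩ : ∃ ε : ℝ, ε = σ / K := ⟨_, rfl⟩
  have hε0 : 0 < ε := by rw [hε]; exact div_pos hσ0 hK0
  obtain ⟨C1, hC1, hrad⟩ := card_rad_le ε hε0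
  obtain ⟨C2, hC2, hdiv⟩ := card_divisors_le ε hε0
  obtain ⟨A, hA⟩ : ∃ A : ℝ, A = 2 * max C2 1 := ⟨_, rfl⟩
  have hA1 : 1 ≤ A := by
    rw [hA]
    exact one_le_mul_of_one_le_of_one_le one_le_two (le_max_right C2 1)
  have hA2 : 2 * C2 ≤ A := by
    rw [hA]
    exact mul_le_mul_of_nonneg_left (le_max_left C2 1) zero_le_two
  have hA0 : 0 < A := one_pos.trans_le hA1
  obtain ⟨Y0, hY0, hlarge⟩ := rkj_large (2000000 * ((m 1 : ℕ) : ℝ) ^ 2 * A ^ 10) ((1 / 4 + σ) / 20 - 20 * σ) (by rw [hσ]; norm_num)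
  refine rk_few_large K ε0 Y0 (2 * C1 ^ 2 * A) (1 / 100) (mul_pos (mul_pos two_pos (pow_pos hC1 2)) hA0)
    (by norm_num) _ ?_
  intro Y hY hY1 P hP
  have hYp : 0 < Y := one_pos.trans_le hY1
  have hKe : (Y ^ K) ^ ε = Y ^ σ := by
    rw [← Real.rpow_mul hYp.le]
    congr 1
    rw [hε]
    exact mul_div_cancel₀ σ hK0.ne'
  have hYK : 1 ≤ Y ^ K := Real.one_le_rpow hY1 hK0.le
  -- choices
  have hch1 : ∀ w : ℤ × ℤ, ∃ a p q : ℕ, w ∈ P → (w.1.natAbs = a * p * q ^ (l 1) ∧ p.Prime ∧ q.Prime ∧ (rd a : ℝ) ≤ Y ^ σ ∧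
      Y ^ (1 / 4 - σ) ≤ (p : ℝ) ∧ (p : ℝ) ≤ Y ^ (1 / 4 + σ) ∧ Y ^ (1 / 4 - σ) ≤ (q : ℝ) ∧ (q : ℝ) ≤ Y ^ (1 / 4 + σ)) := by
    intro w
    by_cases hw : w ∈ P
    · obtain ⟨a, p, q, hh⟩ := rkj_tie hl0 (hP w hw).2.1
      exact ⟨a, p, q, fun _ => hh⟩
    · exact ⟨0, 0, 0, fun h => absurd h hw⟩
  choose a p q hx using hch1
  have hch2 : ∀ w : ℤ × ℤ, ∃ a p q : ℕ, w ∈ P → (w.2.natAbs = a * p * q ^ (m 1) ∧ p.Prime ∧ q.Prime ∧ (rd a : ℝ) ≤ Y ^ σ ∧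
      Y ^ (1 / 4 - σ) ≤ (p : ℝ) ∧ (p : ℝ) ≤ Y ^ (1 / 4 + σ) ∧ Y ^ (1 / 4 - σ) ≤ (q : ℝ) ∧ (q : ℝ) ≤ Y ^ (1 / 4 + σ)) := by
    intro w
    by_cases hw : w ∈ P
    · obtain ⟨a, p, q, hh⟩ := rkj_tie hm0 (hP w hw).2.2.1
      exact ⟨a, p, q, fun _ => hh⟩
    · exact ⟨0, 0, 0, fun h => absurd h hw⟩
  choose a' p' q' hy using hch2
  have hch3 : ∀ w : ℤ × ℤ, ∃ r : ℕ, w ∈ P → ((r : ℤ) ^ 2 = w.1 + w.2) := by
    intro w
    by_cases hw : w ∈ P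
    · obtain ⟨g, hg⟩ := (hP w hw).1.2.2.2.1
      refine ⟨g.natAbs, fun _ => ?_⟩
      rw [Int.natCast_natAbs, sq_abs, hg]
    · exact ⟨0, fun h => absurd h hw⟩
  choose r hr using hch3
  have ha1 : ∀ w ∈ P, 1 ≤ a w := by
    intro w hw
    have h1 := (hx w hw).1
    have h2 : 0 < w.1.natAbs := Int.natAbs_pos.mpr (hP w hw).1.1
    rw [h1] at h2
    exact Nat.pos_of_ne_zero (fun h0 => by rw [h0] at h2; simp at h2)
  have ha1' : ∀ w ∈ P, 1 ≤ a' w := by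
    intro w hw
    have h1 := (hy w hw).1
    have h2 : 0 < w.2.natAbs := Int.natAbs_pos.mpr (hP w hw).1.2.1
    rw [h1] at h2
    exact Nat.pos_of_ne_zero (fun h0 => by rw [h0] at h2; simp at h2)
  set Pu : ℝ := Y ^ (1 / 4 + σ) with hPu
  set Pl : ℝ := Y ^ (1 / 4 - σ) with hPl
  set Λ : ℝ := Y ^ ((1 / 4 + σ) / 20) with hΛ
  set H : ℝ := A * Y ^ (2 * σ) with hH
  have hΛ0 : 0 < Λ := Real.rpow_pos_of_pos hYp _
  have hΛ20 : Λ ^ 20 = Pu := by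
    rw [hΛ, hPu, ← Real.rpow_natCast, ← Real.rpow_mul hYp.le]
    congr 1
    push_cast
    ring
  have hPl1 : 1 ≤ Pl := Real.one_le_rpow hY1 (by rw [hσ]; norm_num)
  have hPu0 : 0 ≤ Pu := Real.rpow_nonneg hYp.le _
  have hPl0 : 0 ≤ Pl := Real.rpow_nonneg hYp.le _
  have hY2σ : 1 ≤ Y ^ (2 * σ) := Real.one_le_rpow hY1 (mul_nonneg zero_le_two hσ0.le)
  have hH1 : 1 ≤ H := by
    rw [hH]
    exact one_le_mul_of_one_le_of_one_le hA1 hY2σ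
  have hH0 : 0 ≤ H := zero_le_one.trans hH1
  have hPuH : Pu ≤ H * Pl := by
    have h1 : Pu = Y ^ (2 * σ) * Pl := by
      rw [hPu, hPl, ← Real.rpow_add hYp]
      congr 1
      ring
    rw [h1, hH]
    exact mul_le_mul_of_nonneg_right (le_mul_of_one_le_left (zero_le_one.trans hY2σ) hA1) hPl0
  have hbig : 2000000 * ((m 1 : ℕ) : ℝ) ^ 2 * H ^ 10 ≤ Λ := by
    have h1 := hlarge Y hY
    have h2 : Λ = Y ^ ((1 / 4 + σ) / 20 - 20 * σ) * Y ^ (20 * σ) := by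
      rw [hΛ, ← Real.rpow_add hYp]
      congr 1
      ring
    have h3 : H ^ 10 = A ^ 10 * Y ^ (20 * σ) := by
      rw [hH, mul_pow]
      congr 1
      rw [← Real.rpow_natCast, ← Real.rpow_mul hYp.le]
      congr 1
      push_cast
      ring
    rw [h2, h3]
    calc 2000000 * ((m 1 : ℕ) : ℝ) ^ 2 * (A ^ 10 * Y ^ (20 * σ)) = (2000000 * ((m 1 : ℕ) : ℝ) ^ 2 * A ^ 10) * Y ^ (20 * σ) := by ring
      _ ≤ Y ^ ((1 / 4 + σ) / 20 - 20 * σ) * Y ^ (20 * σ) :=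
        mul_le_mul_of_nonneg_right h1 (Real.rpow_nonneg hYp.le _)
  -- signature
  set Φ : ℤ × ℤ → ℕ × ℕ × ℕ × Bool := fun w => (q w, a w, a' w, decide (0 < w.2)) with hΦ
  set Im := P.image Φ with hIm
  have hImcard : (Im.card : ℝ) ≤ 2 * C1 ^ 2 * Y ^ (1 / 4 + 5 * σ) := by
    have hsub : Im ⊆ (P.image q) ×ˢ (P.image a) ×ˢ (P.image a') ×ˢ (Finset.univ : Finset Bool) := by
      intro s hs
      obtain ⟨w, hw, rfl⟩ := Finset.mem_image.mp hs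
      exact Finset.mem_product.mpr ⟨Finset.mem_image_of_mem _ hw, Finset.mem_product.mpr ⟨Finset.mem_image_of_mem _ hw,
        Finset.mem_product.mpr ⟨Finset.mem_image_of_mem _ hw, Finset.mem_univ _⟩⟩⟩
    have h1 := Finset.card_le_card hsub
    rw [Finset.card_product, Finset.card_product, Finset.card_product, Finset.card_univ, Fintype.card_bool] at h1
    have hq1 : ((P.image q).card : ℝ) ≤ Pu := by
      refine rkj_card ?_ hPu0
      intro i hi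
      obtain ⟨w, hw, rfl⟩ := Finset.mem_image.mp hi
      have h2 := hx w hw
      exact ⟨h2.2.2.1.one_lt.le, h2.2.2.2.2.2.2.2⟩
    have hprime1 : ∀ p : ℕ, p.Prime → 1 ≤ p := fun p hp => hp.one_lt.le
    have ha2 : ((P.image a).card : ℝ) ≤ C1 * Y ^ σ * Y ^ σ := by
      have h3 := hrad (Y ^ K) (Y ^ σ) (P.image a) hYK (Real.one_le_rpow hY1 hσ0.le) (by
        intro n hn
        obtain ⟨w, hw, rfl⟩ := Finset.mem_image.mp hn
        refine ⟨ha1 w hw, ?_, (hx w hw).2.2.2.1⟩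
        have h4 : a w ≤ w.1.natAbs := by
          rw [(hx w hw).1]
          calc a w = a w * 1 * 1 := by ring
            _ ≤ a w * p w * q w ^ (l 1) := Nat.mul_le_mul (Nat.mul_le_mul_left _ (hprime1 _ (hx w hw).2.1))
                (Nat.one_le_pow _ _ (hprime1 _ (hx w hw).2.2.1))
        have h5 : (a w : ℝ) ≤ (w.1.natAbs : ℝ) := by exact_mod_cast h4
        exact h5.trans (hP w hw).1.2.2.2.2.2.2.1)
      rw [hKe] at h3
      exact h3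
    have ha3 : ((P.image a').card : ℝ) ≤ C1 * Y ^ σ * Y ^ σ := by
      have h3 := hrad (Y ^ K) (Y ^ σ) (P.image a') hYK (Real.one_le_rpow hY1 hσ0.le) (by
        intro n hn
        obtain ⟨w, hw, rfl⟩ := Finset.mem_image.mp hn
        refine ⟨ha1' w hw, ?_, (hy w hw).2.2.2.1⟩
        have h4 : a' w ≤ w.2.natAbs := by
          rw [(hy w hw).1]
          calc a' w = a' w * 1 * 1 := by ring
            _ ≤ a' w * p' w * q' w ^ (m 1) := Nat.mul_le_mul (Nat.mul_le_mul_left _ (hprime1 _ (hy w hw).2.1))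
                (Nat.one_le_pow _ _ (hprime1 _ (hy w hw).2.2.1))
        have h5 : (a' w : ℝ) ≤ (w.2.natAbs : ℝ) := by exact_mod_cast h4
        exact h5.trans (hP w hw).1.2.2.2.2.2.2.2)
      rw [hKe] at h3
      exact h3
    have h6 : (Im.card : ℝ) ≤ ((P.image q).card : ℝ) * (((P.image a).card : ℝ) * (((P.image a').card : ℝ) * 2)) := by
      exact_mod_cast h1
    calc (Im.card : ℝ) ≤ ((P.image q).card : ℝ) * (((P.image a).card : ℝ) * (((P.image a').card : ℝ) * 2)) := h6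
      _ ≤ Pu * ((C1 * Y ^ σ * Y ^ σ) * ((C1 * Y ^ σ * Y ^ σ) * 2)) :=
        rkj_mul3 hq1 ha2 ha3 (Nat.cast_nonneg _) (Nat.cast_nonneg _) hPu0
      _ = 2 * C1 ^ 2 * (Pu * (Y ^ σ * Y ^ σ * Y ^ σ * Y ^ σ)) := by ring
      _ = 2 * C1 ^ 2 * Y ^ (1 / 4 + 5 * σ) := by
        rw [hPu, ← Real.rpow_add hYp, ← Real.rpow_add hYp, ← Real.rpow_add hYp, ← Real.rpow_add hYp]
        congr 2
        ring
  have hfib : ∀ s ∈ Im, ((P.filter (fun w => Φ w = s)).card : ℝ) ≤ H * Λ ^ 39 := by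
    intro s hs
    obtain ⟨w0, hw0, rfl⟩ := Finset.mem_image.mp hs
    have hqa : ∀ w ∈ P.filter (fun w => Φ w = Φ w0), w ∈ P ∧ q w = q w0 ∧ a w = a w0 ∧ a' w = a' w0 ∧
        (decide (0 < w.2) = decide (0 < w0.2)) := by
      intro w hw
      rw [Finset.mem_filter] at hw
      have h1 := hw.2
      rw [hΦ] at h1
      simp only [Prod.mk.injEq] at h1
      exact ⟨hw.1, h1.1, h1.2.1, h1.2.2.1, h1.2.2.2⟩
    have hx0 := hx w0 hw0
    have hfibdata : RkFib (q w0) (a w0) (if 0 < w0.2 then (a' w0 : ℤ) else -(a' w0 : ℤ)) (l 1) (m 1) Pl Pu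
        (P.filter (fun w => Φ w = Φ w0)) r p p' q' :=
      { nx := fun w hw => (hP w (hqa w hw).1).1.1
        cop := fun w hw => (hP w (hqa w hw).1).1.2.2.1
        sq := fun w hw => hr w (hqa w hw).1
        x := fun w hw => by
          rw [← (hqa w hw).2.1, ← (hqa w hw).2.2.1]
          exact (hx w (hqa w hw).1).1
        y := fun w hw => by
          have h1 := hqa w hw
          have h2 := (hy w h1.1).1
          have h3 : (|w.2| : ℤ) = (a' w0 : ℤ) * p' w * (q' w : ℤ) ^ (m 1) := by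
            rw [← Int.natCast_natAbs, h2, h1.2.2.2.1]
            push_cast
            ring
          by_cases hpos : 0 < w0.2
          · have hpw : 0 < w.2 := by
              have h4 := h1.2.2.2.2
              simp only [hpos, decide_true, decide_eq_true_eq] at h4
              exact h4
            rw [if_pos hpos]
            rw [abs_of_pos hpw] at h3
            exact h3
          · have hpw : ¬ 0 < w.2 := by
              have h4 := h1.2.2.2.2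
              simp only [hpos, decide_false, decide_eq_false_iff_not] at h4
              exact h4
            rw [if_neg hpos]
            rw [abs_of_nonpos (not_lt.mp hpw)] at h3
            linear_combination (-1 : ℤ) * h3
        le := fun w hw => (hP w (hqa w hw).1).2.2.2
        pp := fun w hw => (hx w (hqa w hw).1).2.1
        pu := fun w hw => (hx w (hqa w hw).1).2.2.2.2.2.1
        pp' := fun w hw => (hy w (hqa w hw).1).2.1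
        pl' := fun w hw => (hy w (hqa w hw).1).2.2.2.2.1
        pu' := fun w hw => (hy w (hqa w hw).1).2.2.2.2.2.1
        qp' := fun w hw => (hy w (hqa w hw).1).2.2.1
        qu' := fun w hw => (hy w (hqa w hw).1).2.2.2.2.2.2.2 }
    refine rk_fiber hl1 hm1 hx0.2.2.1 hfibdata hPl1 hx0.2.2.2.2.2.2.1 hH1 hPuH ?_ hΛ0 hΛ20 hbig
    have hN1 : 1 ≤ a w0 * q w0 ^ (l 1) := Nat.mul_pos (ha1 w0 hw0) (pow_pos hx0.2.2.1.pos _)
    have hNle : ((a w0 * q w0 ^ (l 1) : ℕ) : ℝ) ≤ Y ^ K := by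
      have h4 : a w0 * q w0 ^ (l 1) ≤ w0.1.natAbs := by
        rw [hx0.1]
        calc a w0 * q w0 ^ (l 1) = a w0 * 1 * q w0 ^ (l 1) := by ring
          _ ≤ a w0 * p w0 * q w0 ^ (l 1) := Nat.mul_le_mul_right _ (Nat.mul_le_mul_left _ hx0.2.1.one_lt.le)
      have h5 : ((a w0 * q w0 ^ (l 1) : ℕ) : ℝ) ≤ (w0.1.natAbs : ℝ) := by exact_mod_cast h4
      exact h5.trans (hP w0 hw0).1.2.2.2.2.2.2.1
    have h6 := hdiv (Y ^ K) (a w0 * q w0 ^ (l 1)) hN1 hNle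
    rw [hKe] at h6
    have h7 : Y ^ σ ≤ Y ^ (2 * σ) :=
      Real.rpow_le_rpow_of_exponent_le hY1 (le_mul_of_one_le_left hσ0.le one_le_two)
    calc 2 * ((a w0 * q w0 ^ (l 1)).divisors.card : ℝ) ≤ 2 * (C2 * Y ^ σ) :=
          mul_le_mul_of_nonneg_left h6 zero_le_two
      _ = (2 * C2) * Y ^ σ := (mul_assoc _ _ _).symm
      _ ≤ A * Y ^ (2 * σ) := mul_le_mul hA2 h7 (Real.rpow_nonneg hYp.le _) hA0.le
  have hsum : P.card = ∑ s ∈ Im, (P.filter (fun w => Φ w = s)).card := Finset.card_eq_sum_card_image _ _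
  have hΛ39 : Λ ^ 39 = Y ^ (39 * (1 / 4 + σ) / 20) := by
    rw [hΛ, ← Real.rpow_natCast, ← Real.rpow_mul hYp.le]
    congr 1
    push_cast
    ring
  calc (P.card : ℝ) = ∑ s ∈ Im, ((P.filter (fun w => Φ w = s)).card : ℝ) := by rw [hsum]; push_cast; rfl
    _ ≤ ∑ s ∈ Im, H * Λ ^ 39 := Finset.sum_le_sum hfib
    _ = (Im.card : ℝ) * (H * Λ ^ 39) := by rw [Finset.sum_const, nsmul_eq_mul]
    _ ≤ (2 * C1 ^ 2 * Y ^ (1 / 4 + 5 * σ)) * (H * Λ ^ 39) :=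
        mul_le_mul_of_nonneg_right hImcard (mul_nonneg hH0 (pow_nonneg hΛ0.le 39))
    _ = 2 * C1 ^ 2 * A * (Y ^ (1 / 4 + 5 * σ) * Y ^ (2 * σ) * Y ^ (39 * (1 / 4 + σ) / 20)) := by
        rw [hH, hΛ39]
        ring
    _ = 2 * C1 ^ 2 * A * Y ^ (1 / 4 + 5 * σ + 2 * σ + 39 * (1 / 4 + σ) / 20) := by
        rw [← Real.rpow_add hYp, ← Real.rpow_add hYp]
    _ ≤ 2 * C1 ^ 2 * A * Y ^ (3 / 4 - 1 / 100 : ℝ) := by
        have h8 : Y ^ (1 / 4 + 5 * σ + 2 * σ + 39 * (1 / 4 + σ) / 20) ≤ Y ^ (3 / 4 - 1 / 100 : ℝ) :=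
          Real.rpow_le_rpow_of_exponent_le hY1 (by rw [hσ]; norm_num)
        exact mul_le_mul_of_nonneg_left h8 (mul_nonneg (mul_nonneg zero_le_two (sq_nonneg C1)) hA0.le)

private theorem rkj_square {g : ℤ} {x y : ℤ} (h : x + y = g ^ 2) : y + x = g ^ 2 := by rw [add_comm]; exact h

/-- `Few` and exchange of the sides -/
private theorem rkj_swap {K ε0 : ℝ} {Q : ℝ → ℤ × ℤ → Prop} (h : Few K ε0 Q) : Few K ε0 (fun Y w => Q Y (w.2, w.1)) := by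
  classical
  obtain ⟨C, δ, hC, hδ, hb⟩ := h
  refine ⟨C, δ, hC, hδ, fun Y hY P hP => ?_⟩
  have h1 := hb Y hY (P.image Prod.swap) (by
    intro w hw
    obtain ⟨u, hu, rfl⟩ := Finset.mem_image.mp hw
    obtain ⟨⟨e1, e2, e3, ⟨g, e4⟩, e5, e6, e7, e8⟩, e9⟩ := hP u hu
    refine ⟨⟨e2, e1, e3.symm, ⟨g, rkj_square e4⟩, ?_, ?_, e8, e7⟩, e9⟩
    · rw [mul_comm]; exact e5
    · rw [max_comm]; exact e6)
  rw [Finset.card_image_of_injective _ Prod.swap_injective] at h1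
  exact h1

/-- The rank method: both sides `p q^v dust`, exponents `(1, v)` and `(1, v')` with `v, v' ≥ 3`. -/
theorem few_rank (K ε0 : ℝ) (hK : 2 ≤ K) (l m : Fin (2 * 1) → ℕ) (hl0 : l 0 = 1) (hl1 : 3 ≤ l 1) (hm0 : m 0 = 1)
    (hm1 : 3 ≤ m 1) : ∃ σ : ℝ, 0 < σ ∧ Few K ε0 (fun Y w => IsTie σ 1 l Y w.1 ∧ IsTie σ 1 m Y w.2) := by
  classical
  refine ⟨1 / 4000, by norm_num, ?_⟩
  obtain ⟨C, δ, hC, hδ, hb⟩ := rk_half K ε0 hK l m hl0 hl1 hm0 (by omega)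
  obtain ⟨C', δ', hC', hδ', hb'⟩ := rkj_swap (rk_half K ε0 hK m l hm0 hm1 hl0 (by omega))
  refine ⟨C + C', min δ δ', add_pos hC hC', lt_min hδ hδ', fun Y hY P hP => ?_⟩
  have h1 := hb Y hY (P.filter (fun w => w.2.natAbs ≤ w.1.natAbs)) (fun w hw => by
    rw [Finset.mem_filter] at hw
    exact ⟨(hP w hw.1).1, (hP w hw.1).2.1, (hP w hw.1).2.2, hw.2⟩)
  have h2 := hb' Y hY (P.filter (fun w => ¬ w.2.natAbs ≤ w.1.natAbs)) (fun w hw => by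
    rw [Finset.mem_filter] at hw
    exact ⟨(hP w hw.1).1, (hP w hw.1).2.2, (hP w hw.1).2.1, by
      have := hw.2
      push Not at this
      exact this.le⟩)
  have h3 : P.card = (P.filter (fun w => w.2.natAbs ≤ w.1.natAbs)).card + (P.filter (fun w => ¬ w.2.natAbs ≤ w.1.natAbs)).card :=
    (Finset.card_filter_add_card_filter_not _).symm
  have h4 : Y ^ (3 / 4 - δ) ≤ Y ^ (3 / 4 - min δ δ') :=
    Real.rpow_le_rpow_of_exponent_le hY (sub_le_sub_left (min_le_left _ _) _)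
  have h5 : Y ^ (3 / 4 - δ') ≤ Y ^ (3 / 4 - min δ δ') :=
    Real.rpow_le_rpow_of_exponent_le hY (sub_le_sub_left (min_le_right _ _) _)
  rw [h3]
  push_cast
  calc _ ≤ C * Y ^ (3 / 4 - δ) + C' * Y ^ (3 / 4 - δ') := add_le_add h1 h2
    _ ≤ C * Y ^ (3 / 4 - min δ δ') + C' * Y ^ (3 / 4 - min δ δ') :=
        add_le_add (mul_le_mul_of_nonneg_left h4 hC.le) (mul_le_mul_of_nonneg_left h5 hC'.le)
    _ = _ := (add_mul _ _ _).symm

end Hp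

end Pool.Agent.Lib.MP_d8bd92_nt
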