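import Pool.Agent.Lib.MP_d8bd92_nt.Hp.Alpha
import Pool.Agent.Lib.MP_d8bd92_nt.Hp.LLDefs
import Pool.Agent.Lib.MP_d8bd92_nt.Hp.LM

set_option autoImplicit false

/-! Tool (S), first part: one fixed odd part `f ^ 2 D` of the second side; one label of the first side. -/

namespace Pool.Agent.Lib.MP_d8bd92_nt

namespace Hp

open Finset Pool.Agent.Lib.Szpiro

/-- pairs with `w.2 = (c f)^2 D` and `|w.1| = 2^e A t` -/
structure SFib (Z RA E G M : ℝ) (D : ℤ) (f : ℕ) (e A t c : ℤ × ℤ → ℕ) (S : Finset (ℤ × ℤ)) : Prop where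
  hZ : 1 ≤ Z
  hE : 1 ≤ E
  hM : 1 ≤ M
  hG : 1 ≤ G
  hD : Squarefree D
  hD1 : D ≠ 1
  hf : 1 ≤ f
  nz1 : ∀ w ∈ S, w.1 ≠ 0
  cop : ∀ w ∈ S, IsCoprime w.1 w.2
  sq : ∀ w ∈ S, ∃ g : ℤ, w.1 + w.2 = g ^ 2
  x_eq : ∀ w ∈ S, w.1.natAbs = 2 ^ e w * A w * t w
  y_eq : ∀ w ∈ S, w.2 = ((c w * f : ℕ) : ℤ) ^ 2 * D
  c1 : ∀ w ∈ S, 1 ≤ c w
  cG : ∀ w ∈ S, (c w : ℝ) ≤ G
  oA : ∀ w ∈ S, Odd (A w)
  ot : ∀ w ∈ S, Odd (t w)
  At : ∀ w ∈ S, Nat.Coprime (A w) (t w)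
  radA : ∀ w ∈ S, (rd (A w) : ℝ) ≤ RA
  t_lo : ∀ w ∈ S, E ≤ (t w : ℝ)
  t_hi : ∀ w ∈ S, (t w : ℝ) ≤ 2 * E
  zx : ∀ w ∈ S, (w.1.natAbs : ℝ) ≤ Z
  zy : ∀ w ∈ S, (w.2.natAbs : ℝ) ≤ Z
  mx : ∀ w ∈ S, M ≤ max (w.1.natAbs : ℝ) (w.2.natAbs : ℝ)

section sfib

variable {Z RA E G M : ℝ} {D : ℤ} {f : ℕ} {e A t c : ℤ × ℤ → ℕ} {S : Finset (ℤ × ℤ)}

theorem SFib.subset (h : SFib Z RA E G M D f e A t c S) {S' : Finset (ℤ × ℤ)} (hS : S' ⊆ S) :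
    SFib Z RA E G M D f e A t c S' where
  hZ := h.hZ
  hE := h.hE
  hM := h.hM
  hG := h.hG
  hD := h.hD
  hD1 := h.hD1
  hf := h.hf
  nz1 := fun w hw => h.nz1 w (hS hw)
  cop := fun w hw => h.cop w (hS hw)
  sq := fun w hw => h.sq w (hS hw)
  x_eq := fun w hw => h.x_eq w (hS hw)
  y_eq := fun w hw => h.y_eq w (hS hw)
  c1 := fun w hw => h.c1 w (hS hw)
  cG := fun w hw => h.cG w (hS hw)
  oA := fun w hw => h.oA w (hS hw)
  ot := fun w hw => h.ot w (hS hw)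
  At := fun w hw => h.At w (hS hw)
  radA := fun w hw => h.radA w (hS hw)
  t_lo := fun w hw => h.t_lo w (hS hw)
  t_hi := fun w hw => h.t_hi w (hS hw)
  zx := fun w hw => h.zx w (hS hw)
  zy := fun w hw => h.zy w (hS hw)
  mx := fun w hw => h.mx w (hS hw)

/-- the element of a pair -/
def zel (D : ℤ) (f : ℕ) (c : ℤ × ℤ → ℕ) (w : ℤ × ℤ) : ℤ√D := el D w ((c w * f : ℕ) : ℤ)

theorem SFib.norm (h : SFib Z RA E G M D f e A t c S) {w : ℤ × ℤ} (hw : w ∈ S) :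
    (zel D f c w).norm = w.1 := el_norm (h.sq w hw) (h.y_eq w hw)

theorem SFib.copz (h : SFib Z RA E G M D f e A t c S) {w : ℤ × ℤ} (hw : w ∈ S) :
    IsCoprime (zel D f c w).norm ((zel D f c w).im ^ 2 * D) := el_cop (h.sq w hw) (h.y_eq w hw) (h.cop w hw)

theorem SFib.D0 (h : SFib Z RA E G M D f e A t c S) : D ≠ 0 := h.hD.ne_zero

theorem SFib.copDf (h : SFib Z RA E G M D f e A t c S) {w : ℤ × ℤ} (hw : w ∈ S) :
    IsCoprime w.1 (D * f) := by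
  have h1 := h.cop w hw
  rw [h.y_eq w hw] at h1
  have h2 : IsCoprime w.1 D := IsCoprime.of_mul_right_right h1
  have h3 : IsCoprime w.1 (((c w * f : ℕ) : ℤ) ^ 2) := IsCoprime.of_mul_right_left h1
  have h4 : IsCoprime w.1 ((c w * f : ℕ) : ℤ) := (IsCoprime.pow_right_iff (by norm_num)).mp h3
  rw [Nat.cast_mul] at h4
  exact IsCoprime.mul_right h2 (IsCoprime.of_mul_right_right h4)

theorem SFib.t0 (h : SFib Z RA E G M D f e A t c S) {w : ℤ × ℤ} (hw : w ∈ S) : 1 ≤ t w := by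
  have := h.t_lo w hw
  have h2 := h.hE
  have : (1 : ℝ) ≤ t w := by linarith
  exact_mod_cast this

theorem SFib.A0 (h : SFib Z RA E G M D f e A t c S) {w : ℤ × ℤ} (hw : w ∈ S) : 1 ≤ A w := by
  rcases Nat.eq_zero_or_pos (A w) with h0 | h0
  · exfalso
    have := h.x_eq w hw
    rw [h0, mul_zero, zero_mul, Int.natAbs_eq_zero] at this
    exact h.nz1 w hw this
  · exact h0

theorem SFib.dvdt (h : SFib Z RA E G M D f e A t c S) {w : ℤ × ℤ} (hw : w ∈ S) :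
    ((t w : ℕ) : ℤ) ∣ (zel D f c w).norm := by
  rw [Int.natCast_dvd, h.norm hw, h.x_eq w hw]
  exact Dvd.intro_left _ rfl

theorem SFib.dvdA (h : SFib Z RA E G M D f e A t c S) {w : ℤ × ℤ} (hw : w ∈ S) :
    ((A w : ℕ) : ℤ) ∣ (zel D f c w).norm := by
  rw [Int.natCast_dvd, h.norm hw, h.x_eq w hw]
  exact ⟨2 ^ e w * t w, by ring⟩

theorem SFib.fac (h : SFib Z RA E G M D f e A t c S) {w : ℤ × ℤ} (hw : w ∈ S) :
    Ideal.span {zel D f c w} = lbl (2 ^ e w) (zel D f c w) * lbl (A w) (zel D f c w) * lbl (t w) (zel D f c w) := by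
  have h3 : (zel D f c w).norm.natAbs = 2 ^ e w * A w * 1 * t w ^ 1 := by
    rw [h.norm hw, h.x_eq w hw, mul_one, pow_one]
  have h4 := span_el (zel D f c w) (h.copz hw) h3 (h.oA w hw) odd_one (h.ot w hw) (Nat.coprime_one_right _)
    (h.At w hw) (Nat.coprime_one_left _)
  rw [h4, lbl_one, Ideal.mul_top, pow_one]

theorem SFib.yabs (h : SFib Z RA E G M D f e A t c S) {w : ℤ × ℤ} (hw : w ∈ S) :
    ((|D| * (zel D f c w).im ^ 2 : ℤ) : ℝ) = (w.2.natAbs : ℝ) := by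
  have h1 : (zel D f c w).im = ((c w * f : ℕ) : ℤ) := rfl
  rw [h1, Nat.cast_natAbs]
  congr 1
  rw [h.y_eq w hw, abs_mul, abs_of_nonneg (sq_nonneg (((c w * f : ℕ) : ℤ)))]
  ring

theorem SFib.size (h : SFib Z RA E G M D f e A t c S) {w : ℤ × ℤ} (hw : w ∈ S) :
    ((hh (zel D f c w) : ℤ) : ℝ) ≤ 3 * Z := by
  have h1 : ((hh (zel D f c w) : ℤ) : ℝ) = (((gg w) ^ 2 : ℤ) : ℝ) + (w.2.natAbs : ℝ) := by
    rw [← h.yabs hw, ← Int.cast_add]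
    rfl
  rw [h1, gg_sq (h.sq w hw)]
  have h2 : ((w.1 + w.2 : ℤ) : ℝ) ≤ (w.1.natAbs : ℝ) + (w.2.natAbs : ℝ) := by
    rw [Nat.cast_natAbs, Nat.cast_natAbs]
    push_cast
    exact add_le_add (le_abs_self _) (le_abs_self _)
  have h3 := h.zx w hw
  have h4 := h.zy w hw
  linarith

theorem SFib.fle (h : SFib Z RA E G M D f e A t c S) {w : ℤ × ℤ} (hw : w ∈ S) :
    (f : ℝ) ≤ Z ∧ ((|D| : ℤ) : ℝ) ≤ Z := by
  have h1 := h.zy w hw
  have h2 := h.yabs hw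
  have h3 : (zel D f c w).im = ((c w * f : ℕ) : ℤ) := rfl
  rw [h3] at h2
  rw [← h2] at h1
  have hD1 : (1 : ℤ) ≤ |D| := Int.one_le_abs h.D0
  have hf1 : (1 : ℤ) ≤ (f : ℤ) := by exact_mod_cast h.hf
  have hc1 : (1 : ℤ) ≤ (c w : ℤ) := by exact_mod_cast h.c1 w hw
  have h5 : (f : ℤ) ≤ ((c w * f : ℕ) : ℤ) := by
    push_cast; nlinarith
  have h6 : (1 : ℤ) ≤ ((c w * f : ℕ) : ℤ) := hf1.trans h5
  have h7 : ((c w * f : ℕ) : ℤ) ≤ |D| * ((c w * f : ℕ) : ℤ) ^ 2 := by nlinarith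
  have h8 : |D| ≤ |D| * ((c w * f : ℕ) : ℤ) ^ 2 := le_mul_of_one_le_right (by linarith) (one_le_pow₀ h6)
  constructor
  · have h9 : (f : ℤ) ≤ |D| * ((c w * f : ℕ) : ℤ) ^ 2 := h5.trans h7
    have h10 : ((f : ℤ) : ℝ) ≤ ((|D| * ((c w * f : ℕ) : ℤ) ^ 2 : ℤ) : ℝ) := by exact_mod_cast h9
    have h11 : ((f : ℤ) : ℝ) = (f : ℝ) := by norm_cast
    linarith
  · have h9 : ((|D| : ℤ) : ℝ) ≤ ((|D| * ((c w * f : ℕ) : ℤ) ^ 2 : ℤ) : ℝ) := by exact_mod_cast h8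
    linarith

theorem SFib.theta (h : SFib Z RA E G M D f e A t c S) (hS : S.Nonempty)
    (dy : ∀ w ∈ S, ∀ w' ∈ S, w.1.natAbs ≤ 2 * w'.1.natAbs ∧ w.2.natAbs ≤ 2 * w'.2.natAbs ∧ (0 < w.1 ↔ 0 < w'.1)) :
    ∃ θ : ℝ, 0 < θ ∧ θ ≤ 1 ∧ θ / ((f : ℝ) * √((|D| : ℤ) : ℝ)) ≤ 8 * (G / √M) ∧
      ∀ w ∈ S, ∀ w' ∈ S, BR 1000 θ (zel D f c w * star (zel D f c w')) := by
  have hD0R : (0 : ℝ) < ((|D| : ℤ) : ℝ) := by exact_mod_cast abs_pos.mpr h.D0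
  have hf0R : (0 : ℝ) < (f : ℝ) := by exact_mod_cast h.hf
  have him : ∀ w : ℤ × ℤ, (zel D f c w).im = ((c w * f : ℕ) : ℤ) := fun _ => rfl
  have hnz2 : ∀ w ∈ S, w.2 ≠ 0 := by
    intro w hw h0
    have h1 := h.y_eq w hw
    rw [h0] at h1
    have h2 : ((c w * f : ℕ) : ℤ) ≠ 0 := by
      have := h.c1 w hw
      have := h.hf
      positivity
    exact mul_ne_zero (pow_ne_zero _ h2) h.D0 h1.symm
  obtain ⟨θ, h0, h1, hθ⟩ := theta_exists S (fun w hw => ⟨h.nz1 w hw, hnz2 w hw⟩)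
    (fun w hw w' hw' => ⟨(dy w hw w' hw').1, (dy w hw w' hw').2.1⟩)
  refine ⟨θ, h0, h1, ?_, ?_⟩
  · obtain ⟨w, hw⟩ := hS
    have h2 := (hθ w hw).2
    have h3 := h.mx w hw
    have hM0 : 0 < M := by linarith [h.hM]
    have hG0 : 0 < G := by linarith [h.hG]
    have h4 : θ ^ 2 * M ≤ 64 * (w.2.natAbs : ℝ) := (mul_le_mul_of_nonneg_left h3 (by positivity)).trans h2
    set F : ℝ := (f : ℝ) * √((|D| : ℤ) : ℝ) with hF
    have hF0 : 0 < F := by positivity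
    have hFsq : F ^ 2 = (f : ℝ) ^ 2 * ((|D| : ℤ) : ℝ) := by
      rw [hF, mul_pow, Real.sq_sqrt hD0R.le]
    have h5 : (w.2.natAbs : ℝ) ≤ G ^ 2 * F ^ 2 := by
      rw [← h.yabs hw, him, hFsq]
      push_cast
      have h6 : (c w : ℝ) ^ 2 ≤ G ^ 2 := pow_le_pow_left₀ (by positivity) (h.cG w hw) 2
      have h7 : (|(D : ℝ)|) * ((c w : ℝ) * f) ^ 2 = (c w : ℝ) ^ 2 * ((f : ℝ) ^ 2 * |(D : ℝ)|) := by ring
      rw [h7]
      exact mul_le_mul_of_nonneg_right h6 (by positivity)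
    rw [div_le_iff₀ hF0]
    apply le_of_sq_le_sq _ (by positivity)
    have h8 : (8 * (G / √M) * F) ^ 2 = 64 * (G ^ 2 * F ^ 2) / M := by
      rw [mul_pow, mul_pow, div_pow, Real.sq_sqrt hM0.le]
      ring
    rw [h8, le_div_iff₀ hM0]
    linarith
  · intro w hw w' hw'
    have hx : ∀ v ∈ S, ((|(zel D f c v).norm| : ℤ) : ℝ) = (v.1.natAbs : ℝ) := by
      intro v hv
      rw [h.norm hv, Nat.cast_natAbs]
    have hdy := dy w hw w' hw'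
    have hdy' := dy w' hw' w hw
    have hpos : ∀ v ∈ S, (0 : ℤ) < (zel D f c v).im := by
      intro v hv
      rw [him]
      have := h.c1 v hv
      have := h.hf
      positivity
    have himle : ∀ v ∈ S, ∀ v' ∈ S, ((zel D f c v).im : ℝ) ≤ 2 * (zel D f c v').im := by
      intro v hv v' hv'
      have k1 : (v.2.natAbs : ℝ) ≤ 2 * (v'.2.natAbs : ℝ) := by exact_mod_cast (dy v hv v' hv').2.1
      rw [← h.yabs hv, ← h.yabs hv'] at k1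
      push_cast at k1
      have p1 : (0 : ℝ) < ((zel D f c v).im : ℝ) := by exact_mod_cast hpos v hv
      have p2 : (0 : ℝ) < ((zel D f c v').im : ℝ) := by exact_mod_cast hpos v' hv'
      have hDR : (0 : ℝ) < |(D : ℝ)| := by
        have := hD0R
        push_cast at this
        exact this
      apply le_of_sq_le_sq _ (by positivity)
      have k2 : |(D : ℝ)| * ((zel D f c v).im : ℝ) ^ 2 ≤ |(D : ℝ)| * (2 * ((zel D f c v').im : ℝ) ^ 2) := by linarith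
      have k3 := le_of_mul_le_mul_left k2 hDR
      nlinarith
    apply BR_pair h.D0 (gg_nonneg w) (gg_nonneg w') (hpos w hw) (hpos w' hw')
    · rw [hx w hw, hx w' hw']; exact_mod_cast hdy.1
    · rw [hx w hw, hx w' hw']; exact_mod_cast hdy'.1
    · rw [h.norm hw, h.norm hw']; exact hdy.2.2
    · rw [h.norm hw]; exact h.nz1 w hw
    · rw [h.norm hw']; exact h.nz1 w' hw'
    · exact himle w hw w' hw'
    · exact himle w' hw' w hw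
    · rfl
    · rw [h.yabs hw, hx w hw]
      exact (hθ w hw).1

end sfib

end Hp

end Pool.Agent.Lib.MP_d8bd92_nt
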