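import Pool.Agent.Lib.MP_d8bd92_nt.Hp.SA
import Pool.Agent.Lib.MP_d8bd92_nt.Hp.LD

set_option autoImplicit false

/-! Tool (S), second part: the lattice lemma for a colour class. -/

namespace Pool.Agent.Lib.MP_d8bd92_nt

namespace Hp

open Finset Pool.Agent.Lib.Szpiro

theorem SB_hh_mul {D : ℤ} (n : ℤ) (z : ℤ√D) : hh ((n : ℤ√D) * z) = n ^ 2 * hh z := by
  unfold hh
  simp only [Zsqrtd.re_mul, Zsqrtd.im_mul, Zsqrtd.re_intCast, Zsqrtd.im_intCast]
  ring

theorem SB_mul_star_norm {D : ℤ} (z : ℤ√D) : z * star z = (z.norm : ℤ√D) := by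
  ext
  · simp [Zsqrtd.norm_def]; ring
  · simp; ring

section sfib

variable {Z RA E G M : ℝ} {D : ℤ} {f : ℕ} {e A t c : ℤ × ℤ → ℕ} {S : Finset (ℤ × ℤ)}

theorem SFib.nsq (h : SFib Z RA E G M D f e A t c S) : ∀ n : ℤ, D ≠ n * n := by
  intro n hn
  have h1 : n ∣ 1 := by
    have h2 : n * n ∣ D := by rw [hn]
    have h3 := h.hD n h2
    exact h3.dvd
  rcases Int.isUnit_iff.mp (isUnit_of_dvd_one h1) with h2 | h2
  · rw [h2] at hn; exact h.hD1 (by rw [hn]; norm_num)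
  · rw [h2] at hn; exact h.hD1 (by rw [hn]; norm_num)

/-- elements with the same ideal -/
theorem SFib.same (h : SFib Z RA E G M D f e A t c S) {w0 : ℤ × ℤ} (hw0 : w0 ∈ S)
    (hI : ∀ w ∈ S, Ideal.span {zel D f c w} = Ideal.span {zel D f c w0})
    {C : ℝ} (hC : ∀ T : Finset (ℤ√D), (∀ η ∈ T, IsUnit η ∧ ((hh η : ℤ) : ℝ) ≤ 18 * Z ^ 2) →
      (T.card : ℝ) ≤ C) : (S.card : ℝ) ≤ C := by
  classical
  have hns := h.nsq
  have hn0 : (zel D f c w0).norm ≠ 0 := by rw [h.norm hw0]; exact h.nz1 w0 hw0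
  have hz0 : zel D f c w0 ≠ 0 := by
    intro h0
    rw [h0, Zsqrtd.norm_zero] at hn0
    exact hn0 rfl
  have hu : ∀ w : ℤ × ℤ, ∃ u : ℤ√D, w ∈ S → (IsUnit u ∧ zel D f c w = u * zel D f c w0) := by
    intro w
    by_cases hw : w ∈ S
    · have h1 : zel D f c w ∈ Ideal.span {zel D f c w0} := by
        rw [← hI w hw]; exact Ideal.mem_span_singleton_self _
      have h2 : zel D f c w0 ∈ Ideal.span {zel D f c w} := by
        rw [hI w hw]; exact Ideal.mem_span_singleton_self _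
      obtain ⟨u, hu⟩ := Ideal.mem_span_singleton'.mp h1
      obtain ⟨v, hv⟩ := Ideal.mem_span_singleton'.mp h2
      refine ⟨u, fun _ => ⟨?_, hu.symm⟩⟩
      have h3 : (1 - v * u) * zel D f c w0 = 0 := by
        have : v * (u * zel D f c w0) = zel D f c w0 := by rw [hu, hv]
        linear_combination -this
      have h4 : (1 - v * u).norm * (zel D f c w0).norm = 0 := by
        rw [← Zsqrtd.norm_mul, h3, Zsqrtd.norm_zero]
      have h5 : (1 - v * u).norm = 0 := by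
        rcases mul_eq_zero.mp h4 with h6 | h6
        · exact h6
        · exact absurd h6 hn0
      have h6 : 1 - v * u = 0 := (Zsqrtd.norm_eq_zero hns _).mp h5
      exact IsUnit.of_mul_eq_one v (by linear_combination -h6)
    · exact ⟨0, fun h' => absurd h' hw⟩
  choose u hu using hu
  have hinj : Set.InjOn u (S : Set (ℤ × ℤ)) := by
    intro w hw w' hw' huu
    have h1 : zel D f c w = zel D f c w' := by
      rw [(hu w hw).2, (hu w' hw').2, huu]
    have h2 : w.1 = w'.1 := by rw [← h.norm hw, ← h.norm hw', h1]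
    have h3 : w.2 = w'.2 := by
      rw [h.y_eq w hw, h.y_eq w' hw']
      have : (zel D f c w).im = (zel D f c w').im := by rw [h1]
      have h4 : ((c w * f : ℕ) : ℤ) = ((c w' * f : ℕ) : ℤ) := this
      rw [h4]
    exact Prod.ext h2 h3
  have h7 := hC (S.image u) (by
    intro η hη
    obtain ⟨w, hw, rfl⟩ := mem_image.mp hη
    refine ⟨(hu w hw).1, ?_⟩
    have h8 : ((zel D f c w0).norm : ℤ√D) * u w = star (zel D f c w0) * zel D f c w := by
      rw [← SB_mul_star_norm, (hu w hw).2]; ring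
    have h9 : (zel D f c w0).norm ^ 2 * hh (u w) = hh (star (zel D f c w0) * zel D f c w) := by
      rw [← h8, SB_hh_mul]
    have h10 : hh (u w) ≤ 2 * hh (zel D f c w0) * hh (zel D f c w) := by
      have k1 : hh (u w) ≤ (zel D f c w0).norm ^ 2 * hh (u w) := by
        have k2 : (1 : ℤ) ≤ (zel D f c w0).norm ^ 2 := by
          have : 0 < (zel D f c w0).norm ^ 2 := by positivity
          linarith
        exact le_mul_of_one_le_left (hh_nonneg _) k2
      have k3 := hh_mul (star (zel D f c w0)) (zel D f c w)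
      rw [hh_star] at k3
      linarith
    have s0 := h.size hw0
    have s1 := h.size hw
    have p0 : (0 : ℝ) ≤ ((hh (zel D f c w0) : ℤ) : ℝ) := by exact_mod_cast hh_nonneg _
    have p1 : (0 : ℝ) ≤ ((hh (zel D f c w) : ℤ) : ℝ) := by exact_mod_cast hh_nonneg _
    have h11 : ((hh (u w) : ℤ) : ℝ) ≤ 2 * ((hh (zel D f c w0) : ℤ) : ℝ) * ((hh (zel D f c w) : ℤ) : ℝ) := by
      exact_mod_cast h10
    have h12 : ((hh (zel D f c w0) : ℤ) : ℝ) * ((hh (zel D f c w) : ℤ) : ℝ) ≤ (3 * Z) * (3 * Z) :=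
      mul_le_mul s0 s1 p1 (by linarith [h.hZ])
    clear hC hu hinj hns hI h8 h9 h10 s0 s1 p0 p1
    linarith)
  rwa [card_image_of_injOn hinj] at h7

end sfib

/-- the lattice lemma for a colour class -/
theorem S_class (ε : ℝ) (hε : 0 < ε) : ∃ C : ℝ, 0 < C ∧ ∀ {Z RA E G M : ℝ} {D : ℤ} {f : ℕ}
    {e A t c : ℤ × ℤ → ℕ} {S : Finset (ℤ × ℤ)} (h : SFib Z RA E G M D f e A t c S) (q L : Ideal (ℤ√D)),
    (∀ w ∈ S, ∀ w' ∈ S, w.1.natAbs ≤ 2 * w'.1.natAbs ∧ w.2.natAbs ≤ 2 * w'.2.natAbs ∧ (0 < w.1 ↔ 0 < w'.1)) →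
    (∀ w ∈ S, lbl (2 ^ e w) (zel D f c w) = q) → (∀ w ∈ S, lbl (A w) (zel D f c w) = L) →
    (S.card : ℝ) ≤ C * Z ^ ε * (1 + E * G / √M) := by
  classical
  obtain ⟨C1, hC1, hll⟩ := ll_one (ε / 4) (by positivity) 1000 (by norm_num)
  obtain ⟨C2, hC2, hun⟩ := unit_count
  refine ⟨(C1 * 18 ^ (ε / 4) * 8) * (C2 * (1 + (Real.log 18 + 2 * (1 / (ε / 4))))), by positivity, ?_⟩
  intro Z RA E G M D f e A t c S h q L dy hq hL
  have hZ0 : 0 < Z := by linarith [h.hZ]
  have hG0 : 0 < G := by linarith [h.hG]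
  have hE0 : 0 < E := by linarith [h.hE]
  have hM0 : 0 < M := by linarith [h.hM]
  rcases S.eq_empty_or_nonempty with hS0 | hS
  · rw [hS0, card_empty, Nat.cast_zero]
    have : 0 < Real.log 18 := Real.log_pos (by norm_num)
    positivity
  obtain ⟨w0, hw0⟩ := hS
  have hS : S.Nonempty := ⟨w0, hw0⟩
  have hns := h.nsq
  obtain ⟨θ, hθ0, hθ1, hθ2, hBR⟩ := h.theta hS dy
  have hr0 : ∀ w : ℤ × ℤ, ∃ r : ℤ, w ∈ S → ((t w : ℤ) ∣ r ^ 2 - D ∧ lbl (t w) (zel D f c w) = idl D (t w) r) := by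
    intro w
    by_cases hw : w ∈ S
    · obtain ⟨r, hr1, _, hr3⟩ := lbl_eq_idl (zel D f c w) (h.t0 hw) (h.dvdt hw) (h.copz hw)
      exact ⟨r, fun _ => ⟨hr1, hr3⟩⟩
    · exact ⟨0, fun h' => absurd h' hw⟩
  choose r hr using hr0
  -- representatives of the ideals
  set φ : ℤ × ℤ → Ideal (ℤ√D) := fun w => idl D (t w) (r w) with hφ
  have hex : ∀ I ∈ S.image φ, ∃ w ∈ S, φ w = I := fun I hI => mem_image.mp hI
  -- number of ideals
  have hsizeZ : ∀ w ∈ S, ((hh (zel D f c w * star (zel D f c w0)) : ℤ) : ℝ) ≤ 18 * Z ^ 2 := by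
    intro w hw
    have k1 := hh_mul (zel D f c w) (star (zel D f c w0))
    rw [hh_star] at k1
    have s0 := h.size hw0
    have s1 := h.size hw
    have p1 : (0 : ℝ) ≤ ((hh (zel D f c w0) : ℤ) : ℝ) := by exact_mod_cast hh_nonneg _
    have h11 : ((hh (zel D f c w * star (zel D f c w0)) : ℤ) : ℝ) ≤
        2 * ((hh (zel D f c w) : ℤ) : ℝ) * ((hh (zel D f c w0) : ℤ) : ℝ) := by
      exact_mod_cast k1
    have h12 : ((hh (zel D f c w) : ℤ) : ℝ) * ((hh (zel D f c w0) : ℤ) : ℝ) ≤ (3 * Z) * (3 * Z) :=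
      mul_le_mul s1 s0 p1 (by linarith)
    clear hll hun hr hex hBR k1 s0 s1 p1
    linarith
  have hZ1 : 1 ≤ Z := h.hZ
  have hZsq : Z ≤ Z ^ 2 := by
    rw [pow_two]
    exact le_mul_of_one_le_right hZ0.le hZ1
  have hZZ : Z ≤ 18 * Z ^ 2 := by linarith
  have h1Z : 1 ≤ 18 * Z ^ 2 := hZ1.trans hZZ
  have hnum : ((S.image φ).card : ℝ) ≤ C1 * (18 * Z ^ 2) ^ (ε / 4) * (1 + θ * E / ((f : ℝ) * √((|D| : ℤ) : ℝ))) := by
    -- choose representatives
    have hrep : ∃ S' ⊆ S, (∀ w ∈ S', ∀ w' ∈ S', φ w = φ w' → w = w') ∧ S'.card = (S.image φ).card := by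
      have hg0 : ∀ I : Ideal (ℤ√D), ∃ w : ℤ × ℤ, I ∈ S.image φ → (w ∈ S ∧ φ w = I) := by
        intro I
        by_cases hI : I ∈ S.image φ
        · obtain ⟨w, hw, hwI⟩ := hex I hI
          exact ⟨w, fun _ => ⟨hw, hwI⟩⟩
        · exact ⟨w0, fun h' => absurd h' hI⟩
      choose g hg using hg0
      refine ⟨(S.image φ).image g, ?_, ?_, ?_⟩
      · intro w hw
        obtain ⟨I, hI, rfl⟩ := mem_image.mp hw
        exact (hg I hI).1
      · intro w hw w' hw' hww
        obtain ⟨I, hI, rfl⟩ := mem_image.mp hw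
        obtain ⟨I', hI', rfl⟩ := mem_image.mp hw'
        rw [(hg I hI).2, (hg I' hI').2] at hww
        rw [hww]
      · apply card_image_of_injOn
        intro I hI I' hI' hII
        have k1 := (hg I hI).2
        have k2 := (hg I' hI').2
        have k3 : φ (g I) = φ (g I') := congrArg φ hII
        rw [k1, k2] at k3
        exact k3
    obtain ⟨S', hS'1, hS'2, hS'3⟩ := hrep
    rw [← hS'3]
    apply hll (18 * Z ^ 2) D f E θ (ℤ × ℤ) S' (fun w => zel D f c w * star (zel D f c w0)) t (fun _ => 1) r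
      (q * L * Ideal.span {star (zel D f c w0)})
    exact {
      hX := h1Z
      hD := h.hD
      hD1 := h.hD1
      hDX := (h.fle hw0).2.trans hZZ
      hf := h.hf
      hfX := (h.fle hw0).1.trans hZZ
      hl := le_refl _
      hE := h.hE
      hEX := by
        have k1 := h.t_lo w0 hw0
        have k2 : (t w0 : ℝ) ≤ (w0.1.natAbs : ℝ) := by
          have k3 : t w0 ∣ w0.1.natAbs := by rw [h.x_eq w0 hw0]; exact Dvd.intro_left _ rfl
          exact_mod_cast Nat.le_of_dvd (Int.natAbs_pos.mpr (h.nz1 w0 hw0)) k3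
        linarith [h.zx w0 hw0]
      hθ := hθ0
      hθ1 := hθ1
      im_dvd := fun w hw => by
        have k1 : (zel D f c w).im = (f : ℤ) * (c w : ℤ) := by
          show ((c w * f : ℕ) : ℤ) = _
          push_cast; ring
        have k2 : (zel D f c w0).im = (f : ℤ) * (c w0 : ℤ) := by
          show ((c w0 * f : ℕ) : ℤ) = _
          push_cast; ring
        rw [Zsqrtd.im_mul, Zsqrtd.im_star, Zsqrtd.re_star, k1, k2]
        exact ⟨(zel D f c w).re * (-(c w0 : ℤ)) + c w * (zel D f c w0).re, by ring⟩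
      nz := fun w hw h0 => by
        have k1 : (zel D f c w).norm * (star (zel D f c w0)).norm = 0 := by
          rw [← Zsqrtd.norm_mul, h0, Zsqrtd.norm_zero]
        rw [Zsqrtd.norm_conj] at k1
        rcases mul_eq_zero.mp k1 with k2 | k2
        · rw [h.norm (hS'1 hw)] at k2; exact h.nz1 w (hS'1 hw) k2
        · rw [h.norm hw0] at k2; exact h.nz1 w0 hw0 k2
      cop := fun w hw => by
        rw [Zsqrtd.norm_mul, Zsqrtd.norm_conj, h.norm (hS'1 hw), h.norm hw0]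
        exact IsCoprime.mul_left (IsCoprime.of_mul_right_right (h.copDf (hS'1 hw)))
          (IsCoprime.of_mul_right_right (h.copDf hw0))
      s_pos := fun _ _ => le_refl _
      E_odd := fun w hw => h.ot w (hS'1 hw)
      E_cop := fun w hw => by
        have k3 : ((t w : ℕ) : ℤ) ∣ w.1 := by rw [← h.norm (hS'1 hw)]; exact h.dvdt (hS'1 hw)
        exact IsCoprime.of_isCoprime_of_dvd_left (h.copDf (hS'1 hw)) k3
      root := fun w hw => (hr w (hS'1 hw)).1
      E_lo := fun w hw => h.t_lo w (hS'1 hw)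
      E_hi := fun w hw => h.t_hi w (hS'1 hw)
      fac := fun w hw => by
        rw [← Ideal.span_singleton_mul_span_singleton, h.fac (hS'1 hw), hq w (hS'1 hw), hL w (hS'1 hw),
          (hr w (hS'1 hw)).2]
        simp only [Nat.cast_one, Ideal.span_singleton_one, pow_one, Ideal.top_mul]
        ring
      bal := fun w hw => (hBR w (hS'1 hw) w0 hw0).1
      size := fun w hw => hsizeZ w (hS'1 hw)
      real := fun w hw => (hBR w (hS'1 hw) w0 hw0).2
      inj := fun w hw w' hw' h' => hS'2 w hw w' hw' h' }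
  -- multiplicity
  have hlog : 0 < Real.log 18 := Real.log_pos (by norm_num)
  have hmult : ∀ I ∈ S.image φ, ((S.filter (fun w => φ w = I)).card : ℝ) ≤
      C2 * (1 + Real.log (18 * Z ^ 2)) := by
    intro I hI
    obtain ⟨w1, hw1, hI1⟩ := hex I hI
    have h1 := h.subset (filter_subset (fun w => φ w = I) S)
    have hw1' : w1 ∈ S.filter (fun w => φ w = I) := mem_filter.mpr ⟨hw1, hI1⟩
    refine h1.same hw1' ?_ (fun T hT => hun D hns (18 * Z ^ 2) h1Z T hT)
    intro w hw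
    rw [mem_filter] at hw
    rw [h.fac hw.1, h.fac hw1, hq w hw.1, hq w1 hw1, hL w hw.1, hL w1 hw1, (hr w hw.1).2, (hr w1 hw1).2]
    have : idl D (t w) (r w) = idl D (t w1) (r w1) := by
      have k := hw.2.trans hI1.symm
      exact k
    rw [this]
  have hcard : (S.card : ℝ) ≤ ((S.image φ).card : ℝ) * (C2 * (1 + Real.log (18 * Z ^ 2))) := by
    rw [card_eq_sum_card_image φ S]
    push_cast
    calc ∑ I ∈ S.image φ, ((S.filter (fun w => φ w = I)).card : ℝ)
        ≤ ∑ I ∈ S.image φ, C2 * (1 + Real.log (18 * Z ^ 2)) := sum_le_sum hmult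
      _ = _ := by rw [sum_const, nsmul_eq_mul]
  have hlogle : 1 + Real.log (18 * Z ^ 2) ≤ (1 + (Real.log 18 + 2 * (1 / (ε / 4)))) * Z ^ (ε / 4) := by
    have k1 : Real.log (18 * Z ^ 2) = Real.log 18 + 2 * Real.log Z := by
      rw [Real.log_mul (by norm_num) (by positivity), Real.log_pow]
      norm_num
    have k2 : Real.log Z ≤ Z ^ (ε / 4) / (ε / 4) := Real.log_le_rpow_div hZ0.le (by positivity)
    have k3 : 1 ≤ Z ^ (ε / 4) := Real.one_le_rpow h.hZ (by positivity)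
    rw [k1]
    have k4 : Z ^ (ε / 4) / (ε / 4) = (1 / (ε / 4)) * Z ^ (ε / 4) := by ring
    rw [k4] at k2
    have k5 : Real.log 18 ≤ Real.log 18 * Z ^ (ε / 4) := le_mul_of_one_le_right hlog.le k3
    have k6 : (1 + (Real.log 18 + 2 * (1 / (ε / 4)))) * Z ^ (ε / 4) =
        Z ^ (ε / 4) + Real.log 18 * Z ^ (ε / 4) + 2 * ((1 / (ε / 4)) * Z ^ (ε / 4)) := by ring
    rw [k6]
    linarith only [k2, k3, k5]
  have hp1 : (18 * Z ^ 2) ^ (ε / 4) = 18 ^ (ε / 4) * Z ^ (ε / 2) := by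
    rw [Real.mul_rpow (by norm_num) (by positivity), ← Real.rpow_natCast Z 2, ← Real.rpow_mul hZ0.le]
    congr 2
    push_cast
    ring
  have hth : 1 + θ * E / ((f : ℝ) * √((|D| : ℤ) : ℝ)) ≤ 8 * (1 + E * G / √M) := by
    have k1 : θ * E / ((f : ℝ) * √((|D| : ℤ) : ℝ)) = E * (θ / ((f : ℝ) * √((|D| : ℤ) : ℝ))) := by ring
    rw [k1]
    have k2 : E * (θ / ((f : ℝ) * √((|D| : ℤ) : ℝ))) ≤ E * (8 * (G / √M)) := mul_le_mul_of_nonneg_left hθ2 hE0.le
    have k3 : E * (8 * (G / √M)) = 8 * (E * G / √M) := by ring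
    linarith
  have hnn : 0 ≤ 1 + E * G / √M := by positivity
  calc (S.card : ℝ) ≤ ((S.image φ).card : ℝ) * (C2 * (1 + Real.log (18 * Z ^ 2))) := hcard
    _ ≤ (C1 * (18 * Z ^ 2) ^ (ε / 4) * (8 * (1 + E * G / √M))) *
        (C2 * ((1 + (Real.log 18 + 2 * (1 / (ε / 4)))) * Z ^ (ε / 4))) := by
      apply mul_le_mul
      · exact hnum.trans (mul_le_mul_of_nonneg_left hth (by positivity))
      · exact mul_le_mul_of_nonneg_left hlogle hC2.le
      · have : 0 ≤ Real.log (18 * Z ^ 2) := Real.log_nonneg h1Z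
        positivity
      · positivity
    _ ≤ _ := by
      rw [hp1]
      have k5 : Z ^ (ε / 2) * Z ^ (ε / 4) ≤ Z ^ ε := by
        rw [← Real.rpow_add hZ0]
        exact Real.rpow_le_rpow_of_exponent_le h.hZ (by linarith)
      have k6 : (C1 * (18 ^ (ε / 4) * Z ^ (ε / 2)) * (8 * (1 + E * G / √M))) *
          (C2 * ((1 + (Real.log 18 + 2 * (1 / (ε / 4)))) * Z ^ (ε / 4))) =
          ((C1 * 18 ^ (ε / 4) * 8) * (C2 * (1 + (Real.log 18 + 2 * (1 / (ε / 4))))) * (1 + E * G / √M)) *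
            (Z ^ (ε / 2) * Z ^ (ε / 4)) := by ring
      have k7 : (C1 * 18 ^ (ε / 4) * 8) * (C2 * (1 + (Real.log 18 + 2 * (1 / (ε / 4))))) * Z ^ ε * (1 + E * G / √M) =
          ((C1 * 18 ^ (ε / 4) * 8) * (C2 * (1 + (Real.log 18 + 2 * (1 / (ε / 4))))) * (1 + E * G / √M)) * Z ^ ε := by ring
      rw [k6, k7]
      exact mul_le_mul_of_nonneg_left k5 (by positivity)

end Hp

end Pool.Agent.Lib.MP_d8bd92_nt
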