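import Mathlib

/-! Small split primes, part a: the number of odd primes up to `Z` is at least `Z ^ (3/4)`. -/

set_option autoImplicit false

namespace Pool.Agent.Lib.MP_d8bd92_nt

namespace Hp

theorem SSPa_card (Z : ℕ) :
    Nat.primeCounting Z ≤ ((Finset.Icc 3 Z).filter Nat.Prime).card + 1 := by
  rw [← Nat.primesLE_card_eq_primeCounting]
  have h1 : Nat.primesLE Z ⊆ insert 2 ((Finset.Icc 3 Z).filter Nat.Prime) := by
    intro p hp
    rw [Nat.mem_primesLE] at hp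
    rw [Finset.mem_insert, Finset.mem_filter, Finset.mem_Icc]
    have h2 := hp.2.two_le
    rcases Nat.eq_or_lt_of_le h2 with h | h
    · exact Or.inl h.symm
    · exact Or.inr ⟨⟨h, hp.1⟩, hp.2⟩
  exact (Finset.card_le_card h1).trans (Finset.card_insert_le _ _)

/-- PROOF. `Chebyshev.psi_ge` (`n log 2 - log (n + 1) ≤ ψ n`) and `Chebyshev.psi_le_primeCounting_mul_log` (`ψ n ≤ π n * log n`) give
`π Z ≥ (Z log 2 - log (Z + 1)) / log Z ≥ Z ^ (3/4) + 2` for large `Z`; the primes in `Icc 3 Z` are all the primes `≤ Z` except `2`. -/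
theorem ssp_count : ∃ Z0 : ℕ, ∀ Z : ℕ, Z0 ≤ Z →
    (Z : ℝ) ^ (3 / 4 : ℝ) ≤ (((Finset.Icc 3 Z).filter Nat.Prime).card : ℝ) := by
  refine ⟨50 ^ 8, fun Z hZ => ?_⟩
  have hZ' : (50 : ℝ) ^ 8 ≤ Z := by exact_mod_cast hZ
  have hZ0 : (0 : ℝ) < Z := lt_of_lt_of_le (by positivity) hZ'
  obtain ⟨u, hu0, hu8⟩ : ∃ u : ℝ, 0 < u ∧ u ^ 8 = Z := by
    refine ⟨(Z : ℝ) ^ (1 / 8 : ℝ), Real.rpow_pos_of_pos hZ0 _, ?_⟩
    rw [← Real.rpow_natCast, ← Real.rpow_mul hZ0.le]
    norm_num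
  have hu : 50 ≤ u := by
    by_contra h
    push Not at h
    have : u ^ 8 < 50 ^ 8 := pow_lt_pow_left₀ h hu0.le (by norm_num)
    linarith
  have h34 : (Z : ℝ) ^ (3 / 4 : ℝ) = u ^ 6 := by
    rw [← hu8, ← Real.rpow_natCast u 8, ← Real.rpow_mul hu0.le, ← Real.rpow_natCast u 6]
    norm_num
  have hlogu : Real.log u ≤ u := (Real.log_le_sub_one_of_pos hu0).trans (by linarith)
  have hlogZ : Real.log Z ≤ 8 * u := by
    rw [← hu8, Real.log_pow]
    push_cast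
    linarith
  have hlogZ0 : 0 < Real.log Z := by
    rw [← hu8, Real.log_pow]
    have := Real.log_pos (by linarith : (1 : ℝ) < u)
    positivity
  have hlog1 : Real.log (Z + 1) ≤ 1 + 8 * u := by
    have h1 : Real.log (Z + 1) ≤ Real.log (2 * Z) :=
      Real.log_le_log (by linarith) (by nlinarith)
    rw [Real.log_mul (by norm_num) hZ0.ne'] at h1
    have := Real.log_two_lt_d9
    linarith
  have h1 := Chebyshev.psi_ge Z
  have h2 := Chebyshev.psi_le_primeCounting_mul_log Z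
  have h3 : ((Nat.primeCounting Z : ℕ) : ℝ) ≤
      (((Finset.Icc 3 Z).filter Nat.Prime).card : ℝ) + 1 := by
    exact_mod_cast SSPa_card Z
  set N : ℝ := (((Finset.Icc 3 Z).filter Nat.Prime).card : ℝ) with hN
  rw [h34]
  by_contra hlt
  push Not at hlt
  have h4 : (Z : ℝ) * Real.log 2 - Real.log (Z + 1) ≤ (u ^ 6 + 1) * (8 * u) := by
    have h5 : ((Nat.primeCounting Z : ℕ) : ℝ) * Real.log Z ≤ (u ^ 6 + 1) * Real.log Z :=
      mul_le_mul_of_nonneg_right (by linarith) hlogZ0.le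
    have h6 : (u ^ 6 + 1) * Real.log Z ≤ (u ^ 6 + 1) * (8 * u) :=
      mul_le_mul_of_nonneg_left hlogZ (by positivity)
    linarith
  have h7 := Real.log_two_gt_d9
  have h8 : (0.69 : ℝ) * u ^ 8 ≤ Z * Real.log 2 := by
    rw [← hu8]
    nlinarith [pow_pos hu0 8]
  have h9 : 34.5 * u ^ 7 ≤ 0.69 * u ^ 8 := by
    have : 0.69 * u ^ 8 = (0.69 * u) * u ^ 7 := by ring
    rw [this]
    exact mul_le_mul_of_nonneg_right (by linarith) (by positivity)
  have h10 : u ≤ u ^ 7 := by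
    have : 1 ≤ u ^ 6 := one_le_pow₀ (by linarith)
    nlinarith
  have h11 : (u ^ 6 + 1) * (8 * u) = 8 * u ^ 7 + 8 * u := by ring
  rw [h11] at h4
  nlinarith

end Hp

end Pool.Agent.Lib.MP_d8bd92_nt
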