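import Mathlib

/-! Small split primes, part b: incomplete sums of the product of two quadratic characters. -/

set_option autoImplicit false

namespace Pool.Agent.Lib.MP_d8bd92_nt

namespace Hp

/-- a sum over an interval as a sum over a range -/
theorem SSPb_Icc (f : ℤ → ℤ) (a b : ℤ) :
    ∑ x ∈ Finset.Icc a b, f x = ∑ i ∈ Finset.range (b + 1 - a).toNat, f (a + (i : ℤ)) := by
  refine Finset.sum_nbij' (fun x => (x - a).toNat) (fun i => a + (i : ℤ)) ?_ ?_ ?_ ?_ ?_
  · intro x hx
    rw [Finset.mem_Icc] at hx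
    rw [Finset.mem_range]
    omega
  · intro i hi
    rw [Finset.mem_range] at hi
    rw [Finset.mem_Icc]
    omega
  · intro x hx
    rw [Finset.mem_Icc] at hx
    show a + ((x - a).toNat : ℤ) = x
    omega
  · intro i hi
    show (a + (i : ℤ) - a).toNat = i
    omega
  · intro x hx
    rw [Finset.mem_Icc] at hx
    have : a + ((x - a).toNat : ℤ) = x := by omega
    show f x = f (a + ((x - a).toNat : ℤ))
    rw [this]

/-- the sum over `m` consecutive integers does not depend on the start -/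
theorem SSPb_shift {f : ℤ → ℤ} {m : ℕ} (hf : ∀ x, f (x + m) = f x) (a : ℤ) :
    ∑ i ∈ Finset.range m, f (a + 1 + (i : ℤ)) = ∑ i ∈ Finset.range m, f (a + (i : ℤ)) := by
  have h1 := Finset.sum_range_succ (fun i : ℕ => f (a + (i : ℤ))) m
  have h2 := Finset.sum_range_succ' (fun i : ℕ => f (a + (i : ℤ))) m
  have h3 : ∑ i ∈ Finset.range m, f (a + 1 + (i : ℤ)) =
      ∑ i ∈ Finset.range m, f (a + ((i + 1 : ℕ) : ℤ)) := by
    refine Finset.sum_congr rfl (fun i _ => ?_)
    congr 1
    push_cast
    ring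
  have h4 : f (a + ((0 : ℕ) : ℤ)) = f (a + (m : ℤ)) := by
    rw [hf a]
    simp
  rw [h3]
  linarith

/-- the sum over `m` consecutive integers vanishes -/
theorem SSPb_zero {f : ℤ → ℤ} {m : ℕ} (hf : ∀ x, f (x + m) = f x)
    (h0 : ∑ x ∈ Finset.Ico (0 : ℤ) m, f x = 0) (a : ℤ) :
    ∑ i ∈ Finset.range m, f (a + (i : ℤ)) = 0 := by
  have hb : ∑ i ∈ Finset.range m, f (0 + (i : ℤ)) = 0 := by
    have e : Finset.Ico (0 : ℤ) m = Finset.Icc (0 : ℤ) (m - 1) := by
      ext x
      rw [Finset.mem_Ico, Finset.mem_Icc]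
      omega
    rw [e, SSPb_Icc] at h0
    have e2 : ((m : ℤ) - 1 + 1 - 0).toNat = m := by omega
    rwa [e2] at h0
  induction a using Int.induction_on with
  | zero => exact hb
  | succ i ih => rw [SSPb_shift hf, ih]
  | pred i ih =>
    have h := SSPb_shift hf (-(i : ℤ) - 1)
    have e : -(i : ℤ) - 1 + 1 = -(i : ℤ) := by ring
    rw [e, ih] at h
    exact h.symm

/-- the bound for sums over ranges -/
theorem SSPb_range {f : ℤ → ℤ} {m : ℕ} (hm : 1 ≤ m) (hf : ∀ x, f (x + m) = f x) (h1 : ∀ x, |f x| ≤ 1)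
    (h0 : ∑ x ∈ Finset.Ico (0 : ℤ) m, f x = 0) (n : ℕ) :
    ∀ a : ℤ, |∑ i ∈ Finset.range n, f (a + (i : ℤ))| ≤ m := by
  induction n using Nat.strong_induction_on with
  | _ n ih =>
    intro a
    by_cases hn : n ≤ m
    · calc |∑ i ∈ Finset.range n, f (a + (i : ℤ))|
          ≤ ∑ i ∈ Finset.range n, |f (a + (i : ℤ))| := Finset.abs_sum_le_sum_abs _ _
        _ ≤ ∑ i ∈ Finset.range n, (1 : ℤ) := Finset.sum_le_sum (fun i _ => h1 _)
        _ = n := by simp
        _ ≤ m := by exact_mod_cast hn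
    · push Not at hn
      have e : ∑ i ∈ Finset.range n, f (a + (i : ℤ)) =
          ∑ i ∈ Finset.range (n - m), f (a + m + (i : ℤ)) := by
        have hnm : n = m + (n - m) := by omega
        rw [hnm, Finset.sum_range_add, SSPb_zero hf h0 a, zero_add]
        have : m + (n - m) - m = n - m := by omega
        rw [this]
        refine Finset.sum_congr rfl (fun i _ => ?_)
        congr 1
        push_cast
        ring
      rw [e]
      exact ih (n - m) (by omega) (a + m)

/-- the sum over a period as a sum over residue classes -/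
theorem SSPb_zmod {n : ℕ} [NeZero n] (g : ZMod n → ℤ) :
    ∑ x ∈ Finset.Ico (0 : ℤ) n, g (x : ZMod n) = ∑ z : ZMod n, g z := by
  refine Finset.sum_nbij' (fun x => (x : ZMod n)) (fun z => (z.val : ℤ)) ?_ ?_ ?_ ?_ ?_
  · intro x _
    exact Finset.mem_univ _
  · intro z _
    rw [Finset.mem_Ico]
    exact ⟨by positivity, by exact_mod_cast ZMod.val_lt z⟩
  · intro x hx
    rw [Finset.mem_Ico] at hx
    show (((x : ZMod n).val : ℕ) : ℤ) = x
    rw [ZMod.val_intCast]
    exact Int.emod_eq_of_lt hx.1 hx.2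
  · intro z _
    show (((z.val : ℕ) : ℤ) : ZMod n) = z
    rw [Int.cast_natCast, ZMod.natCast_zmod_val]
  · intro x _
    rfl

/-- A function on `ℤ` with period `m ≥ 1` and sum zero over a period, `|f| ≤ 1`: every sum over an interval is at most `m` in absolute value.
PROOF. Induction over the length of the interval in steps of `m`: sums over `m` consecutive integers vanish, what remains has fewer than
`m` terms. -/
theorem ssp_period {f : ℤ → ℤ} {m : ℕ} (hm : 1 ≤ m) (hf : ∀ x, f (x + m) = f x) (h1 : ∀ x, |f x| ≤ 1)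
    (h0 : ∑ x ∈ Finset.Ico (0 : ℤ) m, f x = 0) (a b : ℤ) :
    |∑ x ∈ Finset.Icc a b, f x| ≤ m := by
  rw [SSPb_Icc f a b]
  exact SSPb_range hm hf h1 h0 _ a

/-- PROOF. `ssp_period` with `m = r r'`. Sum over a period: `jacobiSym x r`, `jacobiSym x r'` depend on `x` mod `r`, mod `r'` only; by the Chinese
remainder theorem (`ZMod.chineseRemainder`) the sum over `0 ≤ x < r r'` is the product of the sums over `ZMod r` and `ZMod r'` of the
quadratic characters, which are zero (`quadraticChar_sum_zero`, `jacobiSym.legendreSym.to_jacobiSym`). -/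
theorem ssp_char {r r' : ℕ} (hr : r.Prime) (hr' : r'.Prime) (h3 : 3 ≤ r) (h3' : 3 ≤ r') (hne : r ≠ r')
    (N : ℕ) :
    |∑ D ∈ Finset.Icc (-(N : ℤ)) N, jacobiSym D r * jacobiSym D r'| ≤ (r : ℤ) * r' := by
  have hF : Fact r.Prime := ⟨hr⟩
  have hF' : Fact r'.Prime := ⟨hr'⟩
  have hcop : Nat.Coprime r r' := (Nat.coprime_primes hr hr').2 hne
  have hn0 : NeZero (r * r') := ⟨Nat.mul_ne_zero hr.ne_zero hr'.ne_zero⟩
  have key := ssp_period (f := fun D => jacobiSym D r * jacobiSym D r') (m := r * r')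
    (Nat.pos_of_ne_zero (Nat.mul_ne_zero hr.ne_zero hr'.ne_zero)) ?_ ?_ ?_ (-(N : ℤ)) N
  · push_cast at key
    exact key
  · intro x
    show jacobiSym (x + ((r * r' : ℕ) : ℤ)) r * jacobiSym (x + ((r * r' : ℕ) : ℤ)) r' =
      jacobiSym x r * jacobiSym x r'
    have e1 : jacobiSym (x + ((r * r' : ℕ) : ℤ)) r = jacobiSym x r := by
      apply jacobiSym.mod_left'
      push_cast
      rw [Int.add_mul_emod_self_left]
    have e2 : jacobiSym (x + ((r * r' : ℕ) : ℤ)) r' = jacobiSym x r' := by
      apply jacobiSym.mod_left'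
      push_cast
      rw [mul_comm (r : ℤ) r', Int.add_mul_emod_self_left]
    rw [e1, e2]
  · intro x
    show |jacobiSym x r * jacobiSym x r'| ≤ 1
    rcases jacobiSym.trichotomy x r with h | h | h <;>
      rcases jacobiSym.trichotomy x r' with h' | h' | h' <;> rw [h, h'] <;> norm_num
  · have e : ∀ x : ℤ, jacobiSym x r * jacobiSym x r' =
        (fun z : ZMod (r * r') => quadraticChar (ZMod r) (ZMod.chineseRemainder hcop z).1 *
          quadraticChar (ZMod r') (ZMod.chineseRemainder hcop z).2) (x : ZMod (r * r')) := by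
      intro x
      have h1 : ZMod.chineseRemainder hcop (x : ZMod (r * r')) = ((x : ZMod r), (x : ZMod r')) := by
        rw [map_intCast]
        rfl
      show jacobiSym x r * jacobiSym x r' =
        quadraticChar (ZMod r) (ZMod.chineseRemainder hcop (x : ZMod (r * r'))).1 *
          quadraticChar (ZMod r') (ZMod.chineseRemainder hcop (x : ZMod (r * r'))).2
      rw [h1, ← jacobiSym.legendreSym.to_jacobiSym, ← jacobiSym.legendreSym.to_jacobiSym]
      rfl
    have e2 : ∑ x ∈ Finset.Ico (0 : ℤ) ((r * r' : ℕ) : ℤ), jacobiSym x r * jacobiSym x r' =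
        ∑ z : ZMod (r * r'), quadraticChar (ZMod r) (ZMod.chineseRemainder hcop z).1 *
          quadraticChar (ZMod r') (ZMod.chineseRemainder hcop z).2 := by
      rw [← SSPb_zmod (fun z : ZMod (r * r') =>
        quadraticChar (ZMod r) (ZMod.chineseRemainder hcop z).1 *
          quadraticChar (ZMod r') (ZMod.chineseRemainder hcop z).2)]
      exact Finset.sum_congr rfl (fun x _ => e x)
    show ∑ x ∈ Finset.Ico (0 : ℤ) ((r * r' : ℕ) : ℤ), jacobiSym x r * jacobiSym x r' = 0
    rw [e2]
    have e3 : ∑ z : ZMod (r * r'), quadraticChar (ZMod r) (ZMod.chineseRemainder hcop z).1 *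
          quadraticChar (ZMod r') (ZMod.chineseRemainder hcop z).2 =
        ∑ w : ZMod r × ZMod r', quadraticChar (ZMod r) w.1 * quadraticChar (ZMod r') w.2 :=
      Fintype.sum_equiv (ZMod.chineseRemainder hcop).toEquiv _ _ (fun z => rfl)
    rw [e3, Fintype.sum_prod_type]
    have e4 : ∑ x : ZMod r, ∑ y : ZMod r', quadraticChar (ZMod r) (x, y).1 *
        quadraticChar (ZMod r') (x, y).2 =
        (∑ x : ZMod r, quadraticChar (ZMod r) x) * ∑ y : ZMod r', quadraticChar (ZMod r') y := by
      rw [Finset.sum_mul_sum]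
    rw [e4, quadraticChar_sum_zero, zero_mul]
    rw [ZMod.ringChar_zmod_n]
    omega

end Hp

end Pool.Agent.Lib.MP_d8bd92_nt
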