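import Pool.Agent.Lib.MP_d8bd92_nt.Hp.Extract
import Pool.Agent.Lib.MP_d8bd92_nt.Hp.Asm
import Pool.Agent.Lib.MP_d8bd92_nt.Hp.FPa
import Pool.Agent.Lib.MP_d8bd92_nt.TwRad

set_option autoImplicit false

/-!
MP_d8bd92_nt, phase 2: `few_S` from the counting statement `S_count` (boxes and the three cases).
-/

namespace Pool.Agent.Lib.MP_d8bd92_nt

namespace Hp

open Finset Pool.Agent.Lib.Szpiro

/-- the statement of `S_count` -/
def SCountStmt : Prop := ∀ (ε : ℝ), 0 < ε → ∃ C : ℝ, 0 < C ∧ ∀ (Z RA RF E G M : ℝ) (P : Finset (ℤ × ℤ))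
    (A t c : ℤ × ℤ → ℕ) (F : ℤ × ℤ → ℤ), 1 ≤ Z → 1 ≤ RA → 1 ≤ RF → 1 ≤ E → 1 ≤ G → 1 ≤ M →
    (∀ w ∈ P, w.1 ≠ 0 ∧ w.2 ≠ 0 ∧ IsCoprime w.1 w.2 ∧ (∃ g : ℤ, w.1 + w.2 = g ^ 2) ∧ ¬ IsSquare w.2 ∧
      (w.1.natAbs : ℝ) ≤ Z ∧ (w.2.natAbs : ℝ) ≤ Z ∧ M ≤ max (w.1.natAbs : ℝ) (w.2.natAbs : ℝ)) →
    (∀ w ∈ P, w.1.natAbs = A w * t w ∧ Nat.Coprime (A w) (t w) ∧ Squarefree (t w) ∧ Odd (t w) ∧
      (rd (A w) : ℝ) ≤ RA ∧ E ≤ (t w : ℝ) ∧ (t w : ℝ) ≤ 2 * E) →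
    (∀ w ∈ P, w.2 = (c w : ℤ) ^ 2 * F w ∧ (rd (F w).natAbs : ℝ) ≤ RF ∧ (c w : ℝ) ≤ G) →
    (P.card : ℝ) ≤ C * Z ^ ε * RA * RF * (1 + E * G / √M)

/-- the predicate of one application of `S_count` -/
def QB (d : ℝ) (Y : ℝ) (w : ℤ × ℤ) : Prop :=
  ∃ (a t c : ℕ) (F : ℤ), w.1.natAbs = a * t ∧ Nat.Coprime a t ∧ Squarefree t ∧ Odd t ∧
      w.2 = (c : ℤ) ^ 2 * F ∧ IsCoprime (c : ℤ) F ∧ Y ^ (1 / 4 + d) ≤ (t : ℝ) * rd c ∧
      (c : ℝ) * Y ^ (1 / 4 + d) ≤ (rd c : ℝ) * √(max (w.1.natAbs : ℝ) (w.2.natAbs : ℝ))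

/-- the box of a natural number -/
theorem log2_box (n : ℕ) (hn : 1 ≤ n) : ((2 : ℝ) ^ (Nat.log 2 n) ≤ n) ∧ (n : ℝ) ≤ 2 * 2 ^ (Nat.log 2 n) := by
  have h1 : 2 ^ (Nat.log 2 n) ≤ n := Nat.pow_log_le_self 2 (by omega)
  have h2 : n < 2 ^ (Nat.log 2 n + 1) := Nat.lt_pow_succ_log_self (by norm_num) n
  refine ⟨by exact_mod_cast h1, ?_⟩
  rw [pow_succ] at h2
  have h3 : (n : ℝ) < 2 ^ (Nat.log 2 n) * 2 := by exact_mod_cast h2
  linarith

/-- the estimate in one box -/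
theorem box_num (y Y ra t rF rc c m RA E RF G M : ℝ) (hy : 0 < y) (hra : 0 < ra) (ht : 0 < t) (hrF : 0 < rF)
    (hrc : 0 < rc) (_hc : 0 < c) (hm : 0 < m) (hM : 0 < M) (h1 : ra * t * (rF * rc) ≤ Y) (h2 : y ≤ t * rc)
    (h3 : c * y ≤ rc * √m) (_hRA0 : 0 ≤ RA) (hRA : RA ≤ 2 * ra) (hE0 : 0 ≤ E) (hE : E ≤ t) (hRF0 : 0 ≤ RF) (hRF : RF ≤ 2 * rF)
    (hG0 : 0 ≤ G) (hG : G ≤ 2 * c) (hmM : m ≤ 2 * M) : RA * RF * (1 + E * G / √M) ≤ 20 * (Y / y) := by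
  have hsm : 0 < √m := Real.sqrt_pos.mpr hm
  have hsM : 0 < √M := Real.sqrt_pos.mpr hM
  have h4 : √m ≤ 2 * √M := by
    rw [show (2 : ℝ) * √M = √(4 * M) by
      rw [Real.sqrt_mul (by norm_num), show (4 : ℝ) = 2 ^ 2 by norm_num, Real.sqrt_sq (by norm_num)]]
    apply Real.sqrt_le_sqrt
    linarith
  have h5 : ra * rF ≤ Y / y := by
    rw [le_div_iff₀ hy]
    calc ra * rF * y ≤ ra * rF * (t * rc) := by gcongr
      _ = ra * t * (rF * rc) := by ring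
      _ ≤ Y := h1
  have h6 : ra * rF * (t * c / √M) ≤ 2 * (Y / y) := by
    have h7 : c / √M ≤ 2 * (rc / y) := by
      rw [div_le_iff₀ hsM, mul_assoc, div_mul_eq_mul_div, ← mul_div_assoc, le_div_iff₀ hy]
      calc c * y ≤ rc * √m := h3
        _ ≤ rc * (2 * √M) := by gcongr
        _ = 2 * (rc * √M) := by ring
    calc ra * rF * (t * c / √M) = ra * rF * t * (c / √M) := by ring
      _ ≤ ra * rF * t * (2 * (rc / y)) := by gcongr
      _ = 2 * (ra * t * (rF * rc) / y) := by ring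
      _ ≤ 2 * (Y / y) := by gcongr
  calc RA * RF * (1 + E * G / √M) ≤ (2 * ra) * (2 * rF) * (1 + t * (2 * c) / √M) := by gcongr
    _ = 4 * (ra * rF) + 8 * (ra * rF * (t * c / √M)) := by ring
    _ ≤ 4 * (Y / y) + 8 * (2 * (Y / y)) := by gcongr
    _ = 20 * (Y / y) := by ring

/-- the number of boxes in one direction -/
theorem box_count (K σ : ℝ) (hK : 0 ≤ K) (hσ : 0 < σ) : ∃ C : ℝ, 0 < C ∧ ∀ Y : ℝ, 1 ≤ Y → ∀ n : ℕ, 1 ≤ n → (n : ℝ) ≤ Y ^ K →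
    Nat.log 2 n < Nat.log 2 ⌊Y ^ K⌋₊ + 1 ∧ ((Nat.log 2 ⌊Y ^ K⌋₊ + 1 : ℕ) : ℝ) ≤ C * Y ^ σ := by
  refine ⟨K / (σ * Real.log 2) + 1, by positivity, fun Y hY n hn hnY => ?_⟩
  have hY0 : 0 < Y := by linarith
  have hl2 : 0 < Real.log 2 := Real.log_pos (by norm_num)
  have h1 : n ≤ ⌊Y ^ K⌋₊ := Nat.le_floor hnY
  refine ⟨Nat.lt_succ_of_le (Nat.log_mono_right h1), ?_⟩
  have h2 : 1 ≤ ⌊Y ^ K⌋₊ := hn.trans h1
  have h3 : (2 : ℝ) ^ (Nat.log 2 ⌊Y ^ K⌋₊) ≤ Y ^ K :=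
    ((log2_box _ h2).1).trans (Nat.floor_le (by positivity))
  have h4 : (Nat.log 2 ⌊Y ^ K⌋₊ : ℝ) * Real.log 2 ≤ K * Real.log Y := by
    have h5 := Real.log_le_log (by positivity) h3
    rwa [Real.log_pow, Real.log_rpow hY0] at h5
  have h5 : Real.log Y ≤ Y ^ σ / σ := Real.log_le_rpow_div hY0.le hσ
  have h6 : (Nat.log 2 ⌊Y ^ K⌋₊ : ℝ) ≤ K / (σ * Real.log 2) * Y ^ σ := by
    rw [div_mul_eq_mul_div, le_div_iff₀ (by positivity)]
    calc (Nat.log 2 ⌊Y ^ K⌋₊ : ℝ) * (σ * Real.log 2) = σ * ((Nat.log 2 ⌊Y ^ K⌋₊ : ℝ) * Real.log 2) := by ring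
      _ ≤ σ * (K * Real.log Y) := by gcongr
      _ ≤ σ * (K * (Y ^ σ / σ)) := by gcongr
      _ = K * Y ^ σ := by field_simp
  have h7 : 1 ≤ Y ^ σ := Real.one_le_rpow hY hσ.le
  push_cast
  calc (Nat.log 2 ⌊Y ^ K⌋₊ : ℝ) + 1 ≤ K / (σ * Real.log 2) * Y ^ σ + 1 * Y ^ σ := by linarith
    _ = (K / (σ * Real.log 2) + 1) * Y ^ σ := by ring

open scoped Classical in
/-- the pairs to which `S_count` applies with gain `Y ^ d` are few -/
theorem few_QB (K ε0 d : ℝ) (hK : 2 ≤ K) (he0 : -(3 / 2) < ε0) (hd : 0 < d) (hS : SCountStmt) :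
    Few K ε0 (fun Y w => ¬ IsSquare w.2 ∧ QB d Y w) := by
  have hK0 : 0 < K := by linarith
  obtain ⟨C1, hC1, hcount⟩ := hS (d / (4 * K)) (by positivity)
  obtain ⟨C2, hC2, hbox⟩ := box_count K (d / 20) hK0.le (by positivity)
  refine ⟨20 * C1 * C2 ^ 5, d / 2, by positivity, by positivity, fun Y hY P hP => ?_⟩
  have hY0 : 0 < Y := by linarith
  choose! a t c F hq using fun w (hw : w ∈ P) => (hP w hw).2.2
  set L : ℕ := Nat.log 2 ⌊Y ^ K⌋₊ + 1 with hL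
  set mx : ℤ × ℤ → ℕ := fun w => max w.1.natAbs w.2.natAbs with hmx
  set key : ℤ × ℤ → (ℕ × ℕ) × (ℕ × ℕ) × ℕ := fun w => ((Nat.log 2 (rd (a w)), Nat.log 2 (t w)),
    (Nat.log 2 (rd (F w).natAbs), Nat.log 2 (c w)), Nat.log 2 (mx w)) with hkey
  -- facts for every pair
  have hfact : ∀ w ∈ P, 1 ≤ rd (a w) ∧ 1 ≤ t w ∧ 1 ≤ rd (F w).natAbs ∧ 1 ≤ c w ∧ 1 ≤ mx w ∧
      (rd (a w) : ℝ) ≤ Y ^ K ∧ (t w : ℝ) ≤ Y ^ K ∧ (rd (F w).natAbs : ℝ) ≤ Y ^ K ∧ (c w : ℝ) ≤ Y ^ K ∧ (mx w : ℝ) ≤ Y ^ K ∧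
      (rd (a w) : ℝ) * t w * ((rd (F w).natAbs : ℝ) * rd (c w)) ≤ Y := by
    intro w hw
    obtain ⟨⟨hx0, hy0, hcop, hg, hrad, hlow, hxK, hyK⟩, hns, _⟩ := hP w hw
    obtain ⟨e1, e2, e3, e4, e5, e6, e7, e8⟩ := hq w hw
    have ha0 : a w ≠ 0 := by
      intro h
      rw [h, zero_mul, Int.natAbs_eq_zero] at e1
      exact hx0 e1
    have ht0 : t w ≠ 0 := by
      intro h
      rw [h, mul_zero, Int.natAbs_eq_zero] at e1
      exact hx0 e1
    have hc0 : c w ≠ 0 := by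
      intro h
      rw [h] at e5
      apply hy0
      rw [e5]
      simp
    have hF0 : F w ≠ 0 := by
      intro h
      apply hy0
      rw [e5, h, mul_zero]
    have hF1 : (F w).natAbs ≠ 0 := Int.natAbs_ne_zero.mpr hF0
    have e5' : w.2.natAbs = c w ^ 2 * (F w).natAbs := by
      rw [e5, Int.natAbs_mul, Int.natAbs_pow, Int.natAbs_natCast]
    have hx1 : 1 ≤ w.1.natAbs := Nat.one_le_iff_ne_zero.mpr (Int.natAbs_ne_zero.mpr hx0)
    have b1 : rd (a w) ≤ w.1.natAbs := (rd_le ha0).trans (by rw [e1]; exact Nat.le_mul_of_pos_right _ (by omega))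
    have b2 : t w ≤ w.1.natAbs := by rw [e1]; exact Nat.le_mul_of_pos_left _ (by omega)
    have b3 : rd (F w).natAbs ≤ w.2.natAbs := (rd_le hF1).trans (by
      rw [e5']; exact Nat.le_mul_of_pos_left _ (by positivity))
    have b4 : c w ≤ w.2.natAbs := by
      rw [e5']
      calc c w ≤ c w ^ 2 := Nat.le_self_pow (by norm_num) _
        _ ≤ c w ^ 2 * (F w).natAbs := Nat.le_mul_of_pos_right _ (by omega)
    refine ⟨rd_pos _, by omega, rd_pos _, by omega, le_max_of_le_left hx1, ?_, ?_, ?_, ?_, ?_, ?_⟩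
    · exact le_trans (by exact_mod_cast b1) hxK
    · exact le_trans (by exact_mod_cast b2) hxK
    · exact le_trans (by exact_mod_cast b3) hyK
    · exact le_trans (by exact_mod_cast b4) hyK
    · simp only [hmx, Nat.cast_max]
      exact max_le hxK hyK
    · have c1 : rd w.1.natAbs = rd (a w) * t w := by
        rw [e1, rd_mul_coprime _ _ ha0 ht0 e2, rd_sq e3]
      have c2 : rd w.2.natAbs = rd (c w) * rd (F w).natAbs := by
        rw [e5', rd_mul_coprime _ _ (by positivity) hF1, rd_pow' (by norm_num)]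
        apply Nat.Coprime.pow_left
        have e6' := Int.isCoprime_iff_gcd_eq_one.mp e6
        simpa [Int.gcd, Nat.Coprime] using e6'
      rw [c1, c2] at hrad
      push_cast at hrad
      calc (rd (a w) : ℝ) * t w * ((rd (F w).natAbs : ℝ) * rd (c w))
          = (rd (a w) : ℝ) * t w * ((rd (c w) : ℝ) * rd (F w).natAbs) := by ring
        _ ≤ Y := hrad
  -- boxes
  have hmaps : ∀ w ∈ P, key w ∈ (range L ×ˢ range L) ×ˢ (range L ×ˢ range L) ×ˢ range L := by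
    intro w hw
    obtain ⟨f1, f2, f3, f4, f5, g1, g2, g3, g4, g5, _⟩ := hfact w hw
    simp only [hkey, mem_product, mem_range]
    exact ⟨⟨(hbox Y hY _ f1 g1).1, (hbox Y hY _ f2 g2).1⟩, ⟨(hbox Y hY _ f3 g3).1, (hbox Y hY _ f4 g4).1⟩,
      (hbox Y hY _ f5 g5).1⟩
  have hLle : (L : ℝ) ≤ C2 * Y ^ (d / 20) :=
    (hbox Y hY 1 le_rfl (by
      rw [Nat.cast_one]
      exact Real.one_le_rpow hY hK0.le)).2
  set B : ℝ := 20 * C1 * Y ^ (3 / 4 - 3 * d / 4) with hB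
  have hB0 : 0 ≤ B := by positivity
  have hfib : ∀ k ∈ (range L ×ˢ range L) ×ˢ (range L ×ˢ range L) ×ˢ range L, (P.filter (fun w => key w = k)).card ≤ ⌊B⌋₊ := by
    intro k _
    apply Nat.le_floor
    rcases (P.filter (fun w => key w = k)).eq_empty_or_nonempty with he | ⟨w0, hw0⟩
    · rw [he, card_empty, Nat.cast_zero]
      exact hB0
    · rw [mem_filter] at hw0
      obtain ⟨hw0, hk⟩ := hw0
      obtain ⟨⟨k1, k2⟩, ⟨k3, k4⟩, k5⟩ := k
      have hkk : ∀ w ∈ P.filter (fun w => key w = ((k1, k2), (k3, k4), k5)), w ∈ P ∧ Nat.log 2 (rd (a w)) = k1 ∧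
          Nat.log 2 (t w) = k2 ∧ Nat.log 2 (rd (F w).natAbs) = k3 ∧ Nat.log 2 (c w) = k4 ∧ Nat.log 2 (mx w) = k5 := by
        intro w hw
        rw [mem_filter] at hw
        simp only [hkey, Prod.mk.injEq] at hw
        tauto
      obtain ⟨_, m1, m2, m3, m4, m5⟩ := hkk w0 (by rw [mem_filter]; exact ⟨hw0, hk⟩)
      have hmain := hcount (Y ^ K) (2 * 2 ^ k1) (2 * 2 ^ k3) (2 ^ k2) (2 * 2 ^ k4) (2 ^ k5)
        (P.filter (fun w => key w = ((k1, k2), (k3, k4), k5))) a t c F (Real.one_le_rpow hY hK0.le)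
        (by linarith [one_le_pow₀ (M₀ := ℝ) (a := 2) (n := k1) (by norm_num)])
        (by linarith [one_le_pow₀ (M₀ := ℝ) (a := 2) (n := k3) (by norm_num)])
        (one_le_pow₀ (by norm_num))
        (by linarith [one_le_pow₀ (M₀ := ℝ) (a := 2) (n := k4) (by norm_num)])
        (one_le_pow₀ (by norm_num))
        (by
          intro w hw
          obtain ⟨hwP, n1, n2, n3, n4, n5⟩ := hkk w hw
          obtain ⟨⟨hx0, hy0, hcop, hg, hrad, hlow, hxK, hyK⟩, hns, _⟩ := hP w hwP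
          obtain ⟨f1, f2, f3, f4, f5, _⟩ := hfact w hwP
          refine ⟨hx0, hy0, hcop, hg, hns, hxK, hyK, ?_⟩
          have h1 := (log2_box (mx w) f5).1
          rw [n5] at h1
          simpa only [hmx, Nat.cast_max] using h1)
        (by
          intro w hw
          obtain ⟨hwP, n1, n2, n3, n4, n5⟩ := hkk w hw
          obtain ⟨e1, e2, e3, e4, e5, e6, e7, e8⟩ := hq w hwP
          obtain ⟨f1, f2, f3, f4, f5, _⟩ := hfact w hwP
          have h1 := log2_box (rd (a w)) f1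
          have h2 := log2_box (t w) f2
          rw [n1] at h1
          rw [n2] at h2
          exact ⟨e1, e2, e3, e4, h1.2, h2.1, h2.2⟩)
        (by
          intro w hw
          obtain ⟨hwP, n1, n2, n3, n4, n5⟩ := hkk w hw
          obtain ⟨e1, e2, e3, e4, e5, e6, e7, e8⟩ := hq w hwP
          obtain ⟨f1, f2, f3, f4, f5, _⟩ := hfact w hwP
          have h1 := log2_box (rd (F w).natAbs) f3
          have h2 := log2_box (c w) f4
          rw [n3] at h1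
          rw [n4] at h2
          exact ⟨e5, h1.2, h2.2⟩)
      obtain ⟨f1, f2, f3, f4, f5, _, _, _, _, _, hprod⟩ := hfact w0 hw0
      obtain ⟨e1, e2, e3, e4, e5, e6, e7, e8⟩ := hq w0 hw0
      have l1 := log2_box (rd (a w0)) f1
      have l2 := log2_box (t w0) f2
      have l3 := log2_box (rd (F w0).natAbs) f3
      have l4 := log2_box (c w0) f4
      have l5 := log2_box (mx w0) f5
      rw [m1] at l1
      rw [m2] at l2
      rw [m3] at l3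
      rw [m4] at l4
      rw [m5] at l5
      have hmm : (mx w0 : ℝ) = max (w0.1.natAbs : ℝ) (w0.2.natAbs : ℝ) := by simp only [hmx, Nat.cast_max]
      have hnum := box_num (Y ^ (1 / 4 + d)) Y (rd (a w0)) (t w0) (rd (F w0).natAbs) (rd (c w0)) (c w0) (mx w0)
        (2 * 2 ^ k1) (2 ^ k2) (2 * 2 ^ k3) (2 * 2 ^ k4) (2 ^ k5) (by positivity) (by exact_mod_cast f1) (by exact_mod_cast f2)
        (by exact_mod_cast f3) (by exact_mod_cast rd_pos _) (by exact_mod_cast f4) (by exact_mod_cast f5) (by positivity)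
        hprod e7 (by rw [hmm]; exact e8) (by positivity) (by linarith [l1.1]) (by positivity) l2.1 (by positivity)
        (by linarith [l3.1]) (by positivity) (by linarith [l4.1]) l5.2
      have hYd : Y / Y ^ (1 / 4 + d) = Y ^ (3 / 4 - d) := by
        rw [div_eq_iff (by positivity), ← Real.rpow_add hY0]
        norm_num
      have hYK : (Y ^ K) ^ (d / (4 * K)) = Y ^ (d / 4) := by
        rw [← Real.rpow_mul hY0.le]
        congr 1
        field_simp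
      calc ((P.filter (fun w => key w = ((k1, k2), (k3, k4), k5))).card : ℝ)
          ≤ C1 * (Y ^ K) ^ (d / (4 * K)) * (2 * 2 ^ k1) * (2 * 2 ^ k3) * (1 + 2 ^ k2 * (2 * 2 ^ k4) / √(2 ^ k5)) := hmain
        _ = C1 * Y ^ (d / 4) * ((2 * 2 ^ k1) * (2 * 2 ^ k3) * (1 + 2 ^ k2 * (2 * 2 ^ k4) / √(2 ^ k5))) := by rw [hYK]; ring
        _ ≤ C1 * Y ^ (d / 4) * (20 * (Y / Y ^ (1 / 4 + d))) := by gcongr
        _ = 20 * C1 * (Y ^ (d / 4) * Y ^ (3 / 4 - d)) := by rw [hYd]; ring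
        _ = B := by
          rw [hB, ← Real.rpow_add hY0]
          congr 2
          ring
  have hcard := card_le_mul_card_image_of_maps_to hmaps ⌊B⌋₊ hfib
  have hcard2 : (P.card : ℝ) ≤ (⌊B⌋₊ : ℝ) * (L : ℝ) ^ 5 := by
    rw [card_product, card_product, card_product, card_product, card_range] at hcard
    calc (P.card : ℝ) ≤ ((⌊B⌋₊ * (L * L * (L * L * L)) : ℕ) : ℝ) := by exact_mod_cast hcard
      _ = (⌊B⌋₊ : ℝ) * (L : ℝ) ^ 5 := by push_cast; ring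
  calc (P.card : ℝ) ≤ (⌊B⌋₊ : ℝ) * (L : ℝ) ^ 5 := hcard2
    _ ≤ B * (C2 * Y ^ (d / 20)) ^ 5 := by
      gcongr
      exact Nat.floor_le hB0
    _ = 20 * C1 * C2 ^ 5 * (Y ^ (3 / 4 - 3 * d / 4) * (Y ^ (d / 20)) ^ 5) := by rw [hB]; ring
    _ = 20 * C1 * C2 ^ 5 * Y ^ (3 / 4 - d / 2) := by
      rw [← Real.rpow_natCast (Y ^ (d / 20)) 5, ← Real.rpow_mul hY0.le, ← Real.rpow_add hY0]
      congr 2
      push_cast
      ring

/-- `few_S` from `S_count`, `few_small` and `few_square` -/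
theorem few_S_of (K ε0 η : ℝ) (hK : 2 ≤ K) (he0 : -(3 / 2) < ε0) (hη : 0 < η) (hS : SCountStmt)
    (hsmall : ∀ c : ℝ, 0 < c → Few K ε0 (fun Y w => (rd w.1.natAbs : ℝ) ≤ Y ^ (1 / 2 - c)))
    (hsq : Few K ε0 (fun _ w => IsSquare w.2)) : Few K ε0 (fun Y w =>
    ∃ (a t c : ℕ) (F : ℤ), w.1.natAbs = a * t ∧ Nat.Coprime a t ∧ Squarefree t ∧ Odd t ∧
      w.2 = (c : ℤ) ^ 2 * F ∧ IsCoprime (c : ℤ) F ∧ Y ^ (1 / 4 + η) ≤ (t : ℝ) * rd c) := by
  set d : ℝ := min η (ε0 + 3 / 2) / 16 with hd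
  have hd0 : 0 < d := by
    have : 0 < min η (ε0 + 3 / 2) := lt_min hη (by linarith)
    positivity
  have hdη : 16 * d ≤ η := by
    rw [hd]
    linarith [min_le_left η (ε0 + 3 / 2)]
  have hdε : 16 * d ≤ ε0 + 3 / 2 := by
    rw [hd]
    linarith [min_le_right η (ε0 + 3 / 2)]
  apply few_large' K ε0 _ _ 1 (few_or' K ε0 _ _ hsq (few_or' K ε0 _ _ (few_swap K ε0 _ (hsmall (2 * d) (by positivity)))
    (few_QB K ε0 d hK he0 hd0 hS)))
  rintro Y w hY hw ⟨a, t, c, F, e1, e2, e3, e4, e5, e6, e7⟩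
  have hY0 : 0 < Y := by linarith
  obtain ⟨hx0, hy0, hcop, hg, hrad, hlow, hxK, hyK⟩ := hw
  by_cases hns : IsSquare w.2
  · exact Or.inl hns
  right
  have hc0 : c ≠ 0 := by
    intro h
    rw [h] at e5
    apply hy0
    rw [e5]
    simp
  have hF0 : F ≠ 0 := by
    intro h
    apply hy0
    rw [e5, h, mul_zero]
  have hF1 : F.natAbs ≠ 0 := Int.natAbs_ne_zero.mpr hF0
  have ht0 : t ≠ 0 := by
    intro h
    rw [h, mul_zero, Int.natAbs_eq_zero] at e1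
    exact hx0 e1
  have hrc : (1 : ℝ) ≤ rd c := one_le_rd c
  have htr : (1 : ℝ) ≤ t := by exact_mod_cast Nat.one_le_iff_ne_zero.mpr ht0
  set mx : ℝ := max (w.1.natAbs : ℝ) (w.2.natAbs : ℝ) with hmx
  by_cases hA : (rd c : ℝ) ≤ Y ^ (4 * d)
  · -- case A
    right
    refine ⟨hns, a, t, 1, w.2, e1, e2, e3, e4, by push_cast; ring, by push_cast; exact isCoprime_one_left, ?_, ?_⟩
    · rw [rd_one, Nat.cast_one, mul_one]
      have h1 : Y ^ (1 / 4 + d) * Y ^ (4 * d) ≤ (t : ℝ) * Y ^ (4 * d) := by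
        calc Y ^ (1 / 4 + d) * Y ^ (4 * d) = Y ^ (1 / 4 + d + 4 * d) := by rw [← Real.rpow_add hY0]
          _ ≤ Y ^ (1 / 4 + η) := Real.rpow_le_rpow_of_exponent_le hY (by linarith)
          _ ≤ (t : ℝ) * rd c := e7
          _ ≤ (t : ℝ) * Y ^ (4 * d) := by gcongr
      exact le_of_mul_le_mul_right h1 (by positivity)
    · rw [rd_one, Nat.cast_one, one_mul, one_mul]
      apply Real.le_sqrt_of_sq_le
      calc (Y ^ (1 / 4 + d)) ^ 2 = Y ^ (2 * (1 / 4 + d)) := by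
            rw [← Real.rpow_natCast (Y ^ (1 / 4 + d)) 2, ← Real.rpow_mul hY0.le]
            congr 1
            push_cast
            ring
        _ ≤ Y ^ (2 + ε0) := Real.rpow_le_rpow_of_exponent_le hY (by linarith)
        _ ≤ mx := hlow
  · push Not at hA
    by_cases hB : (c : ℝ) * Y ^ (1 / 4 + d) ≤ (rd c : ℝ) * √mx
    · right
      refine ⟨hns, a, t, c, F, e1, e2, e3, e4, e5, e6, ?_, hB⟩
      exact (Real.rpow_le_rpow_of_exponent_le hY (by linarith)).trans e7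
    · left
      push Not at hB
      have hcr : (0 : ℝ) < c := by exact_mod_cast Nat.pos_of_ne_zero hc0
      have e5' : w.2.natAbs = c ^ 2 * F.natAbs := by
        rw [e5, Int.natAbs_mul, Int.natAbs_pow, Int.natAbs_natCast]
      have h1 : (c : ℝ) * √(F.natAbs : ℝ) ≤ √mx := by
        apply Real.le_sqrt_of_sq_le
        rw [mul_pow, Real.sq_sqrt (Nat.cast_nonneg _)]
        have h2 : ((w.2.natAbs : ℕ) : ℝ) = (c : ℝ) ^ 2 * (F.natAbs : ℝ) := by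
          rw [e5']
          push_cast
          ring
        rw [← h2]
        exact le_max_right _ _
      have h3 : (rd c : ℝ) * √(F.natAbs : ℝ) < Y ^ (1 / 4 + d) := by
        have h4 : (c : ℝ) * ((rd c : ℝ) * √(F.natAbs : ℝ)) < (c : ℝ) * Y ^ (1 / 4 + d) := by
          calc (c : ℝ) * ((rd c : ℝ) * √(F.natAbs : ℝ)) = (rd c : ℝ) * ((c : ℝ) * √(F.natAbs : ℝ)) := by ring
            _ ≤ (rd c : ℝ) * √mx := by gcongr
            _ < (c : ℝ) * Y ^ (1 / 4 + d) := hB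
        exact lt_of_mul_lt_mul_left h4 hcr.le
      have h5 : (rd c : ℝ) ^ 2 * (F.natAbs : ℝ) ≤ Y ^ (1 / 2 + 2 * d) := by
        have h6 : ((rd c : ℝ) * √(F.natAbs : ℝ)) ^ 2 ≤ (Y ^ (1 / 4 + d)) ^ 2 := by
          apply pow_le_pow_left₀ (by positivity) h3.le
        rw [mul_pow, Real.sq_sqrt (Nat.cast_nonneg _)] at h6
        calc (rd c : ℝ) ^ 2 * (F.natAbs : ℝ) ≤ (Y ^ (1 / 4 + d)) ^ 2 := h6
          _ = Y ^ (1 / 2 + 2 * d) := by
            rw [← Real.rpow_natCast (Y ^ (1 / 4 + d)) 2, ← Real.rpow_mul hY0.le]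
            congr 1
            push_cast
            ring
      show (rd w.2.natAbs : ℝ) ≤ Y ^ (1 / 2 - 2 * d)
      have h7 : (rd w.2.natAbs : ℝ) ≤ (rd c : ℝ) * (F.natAbs : ℝ) := by
        have h8 : rd w.2.natAbs ≤ rd c * F.natAbs := by
          rw [e5']
          calc rd (c ^ 2 * F.natAbs) ≤ rd (c ^ 2) * rd F.natAbs := rd_mul_le _ _ (by positivity) hF1
            _ = rd c * rd F.natAbs := by rw [rd_pow' (by norm_num)]
            _ ≤ rd c * F.natAbs := Nat.mul_le_mul_left _ (rd_le hF1)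
        exact_mod_cast h8
      have h9 : ((rd c : ℝ) * (F.natAbs : ℝ)) * Y ^ (4 * d) ≤ Y ^ (1 / 2 - 2 * d) * Y ^ (4 * d) := by
        calc ((rd c : ℝ) * (F.natAbs : ℝ)) * Y ^ (4 * d) ≤ ((rd c : ℝ) * (F.natAbs : ℝ)) * rd c := by gcongr
          _ = (rd c : ℝ) ^ 2 * (F.natAbs : ℝ) := by ring
          _ ≤ Y ^ (1 / 2 + 2 * d) := h5
          _ = Y ^ (1 / 2 - 2 * d) * Y ^ (4 * d) := by
            rw [← Real.rpow_add hY0]
            congr 1
            ring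
      exact h7.trans (le_of_mul_le_mul_right h9 (by positivity))

end Hp

end Pool.Agent.Lib.MP_d8bd92_nt
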