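import Pool.Agent.Lib.MP_d8bd92_nt.Hp.Bridge2
import Pool.Agent.Lib.MP_d8bd92_nt.Hp.BDefs

set_option autoImplicit false

/-!
Pairs with one small radical, tools.
-/

namespace Pool.Agent.Lib.MP_d8bd92_nt

namespace Hp

open Finset Pool.Agent.Lib.Szpiro

open scoped Classical in
/-- a large fibre -/
theorem pig {α β : Type} (S : Finset α) (g : α → β) (m : ℝ) (hS : S.Nonempty)
    (hm : ((S.image g).card : ℝ) ≤ m) : ∃ S' ⊆ S, S'.Nonempty ∧ (∀ a ∈ S', ∀ b ∈ S', g a = g b) ∧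
      (S.card : ℝ) ≤ m * S'.card := by
  obtain ⟨y, hy, hmax⟩ := Finset.exists_max_image (S.image g) (fun y => (S.filter (fun a => g a = y)).card)
    (hS.image g)
  refine ⟨S.filter (fun a => g a = y), Finset.filter_subset _ _, ?_, ?_, ?_⟩
  · obtain ⟨a, ha, hay⟩ := Finset.mem_image.1 hy
    exact ⟨a, Finset.mem_filter.2 ⟨ha, hay⟩⟩
  · intro a ha b hb
    rw [(Finset.mem_filter.1 ha).2, (Finset.mem_filter.1 hb).2]
  · have h := Finset.card_le_mul_card_image (s := S) (f := g) _ (fun a ha => hmax a ha)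
    have h' : (S.card : ℝ) ≤ ((S.filter (fun a => g a = y)).card : ℝ) * ((S.image g).card : ℝ) := by
      exact_mod_cast h
    refine h'.trans ?_
    rw [mul_comm]
    exact mul_le_mul_of_nonneg_right hm (Nat.cast_nonneg _)

open scoped Classical in
/-- image in an initial segment -/
theorem image_le {α : Type} (S : Finset α) (g : α → ℕ) (x : ℝ) (hS : S.Nonempty)
    (h : ∀ a ∈ S, ((g a + 1 : ℕ) : ℝ) ≤ x) : ((S.image g).card : ℝ) ≤ x := by
  obtain ⟨a, ha, hmax⟩ := Finset.exists_max_image S g hS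
  have h1 : S.image g ⊆ Finset.range (g a + 1) := by
    intro y hy
    obtain ⟨b, hb, rfl⟩ := Finset.mem_image.1 hy
    exact Finset.mem_range.2 (Nat.lt_succ_of_le (hmax b hb))
  have h2 := Finset.card_le_card h1
  rw [Finset.card_range] at h2
  exact le_trans (by exact_mod_cast h2) (h a ha)

/-- pairs with fixed second member, swapped members of `PairSet` -/
structure Col (K ε0 Y : ℝ) (D : ℤ) (f : ℕ) (S : Finset (ℤ × ℤ)) : Prop where
  hD : Squarefree D
  hD1 : D ≠ 1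
  hf : 1 ≤ f
  mem : ∀ w ∈ S, w.swap ∈ PairSet K ε0 Y
  eq : ∀ w ∈ S, w.2 = (f : ℤ) ^ 2 * D

theorem Col.sub {K ε0 Y : ℝ} {D : ℤ} {f : ℕ} {S S' : Finset (ℤ × ℤ)} (h : Col K ε0 Y D f S) (hS : S' ⊆ S) :
    Col K ε0 Y D f S' where
  hD := h.hD
  hD1 := h.hD1
  hf := h.hf
  mem := fun w hw => h.mem w (hS hw)
  eq := fun w hw => h.eq w (hS hw)

end Hp

end Pool.Agent.Lib.MP_d8bd92_nt
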