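import Pool.Agent.Lib.MP_d8bd92_nt.Hp.Sm0
import Pool.Agent.Lib.MP_d8bd92_nt.Hp.Sm1

set_option autoImplicit false

/-!
Pairs with one small radical, tools 2: passing to a class.
-/

namespace Pool.Agent.Lib.MP_d8bd92_nt

namespace Hp

open Finset Pool.Agent.Lib.Szpiro

private theorem Sm2_pig {α β : Type} (S : Finset α) (g : α → β) (T : Finset β) (m : ℝ) (hS : S.Nonempty)
    (hT : ∀ a ∈ S, g a ∈ T) (hm : (T.card : ℝ) ≤ m) :
    ∃ S' ⊆ S, S'.Nonempty ∧ (∀ a ∈ S', ∀ b ∈ S', g a = g b) ∧ (S.card : ℝ) ≤ m * S'.card := by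
  classical
  refine pig S g m hS (le_trans ?_ hm)
  have h : S.image g ⊆ T := by
    intro y hy
    obtain ⟨b, hb, rfl⟩ := Finset.mem_image.1 hy
    exact hT b hb
  exact_mod_cast Finset.card_le_card h

private theorem Sm2_log {a b : ℕ} (hb : b ≠ 0) (h : Nat.log 2 a = Nat.log 2 b) : a ≤ 2 * b := by
  have h6 := Nat.lt_pow_succ_log_self (b := 2) (by norm_num) a
  have h7 := Nat.pow_log_le_self 2 hb
  rw [h, Nat.succ_eq_add_one, pow_succ] at h6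
  omega

/-- passing to a class.  Proof: apply `pig` six times (S ⊇ S1 ⊇ ... ⊇ S6), with the functions
`Nat.log 2 |w.1|`, `decide (0 < w.1)` (two values), `e w`, `l w`, `Nat.log 2 (t w)`: each number-valued one satisfies `2 ^ (g w) ≤ |w.1| ≤ Y ^ K`, so by
`image_le` and `log_bound K (τ' )` its image has at most `C Y ^ τ'` elements (five functions: use `τ' = 4 τ / 5`... four of them are numbers: `log |w.1|`, `e`, `l`,
`log t`, so `τ' = τ`), and finally `w ↦ lbl (2 ^ e w) (el D w f)` on the set where `e w = e0` is constant: at most four values: if `e0 = 0` it is `⊤`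
(`lbl_one`); if `e0 ≥ 1` then `w.1` is even, so `D` is odd (`w.1` is prime to `w.2 = f ^ 2 D`), `lbl_eq_idl` gives the `r` (`2 ^ e0` divides the norm
`= w.1`, `el_norm`, `el_cop`) and `card_two` bounds the image by four.  `PCls`: `dy` from the constant `Nat.log 2 |w.1|` (`Nat.pow_log_le_self`,
`Nat.lt_pow_succ_log_self`), `E = 2 ^ (Nat.log 2 (t w))`.  `C = 8 * C1 ^ 4`. -/
theorem reduce (K ε0 τ : ℝ) (hK : 0 < K) (hτ : 0 < τ) : ∃ C : ℝ, 1 ≤ C ∧ ∀ (Y : ℝ) (D : ℤ) (f : ℕ)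
    (S : Finset (ℤ × ℤ)) (e l t : ℤ × ℤ → ℕ), 1 ≤ Y → Col K ε0 Y D f S → S.Nonempty →
    (∀ w ∈ S, 2 ^ e w ∣ w.1.natAbs ∧ 2 ^ l w ≤ w.1.natAbs ∧ 1 ≤ t w ∧ t w ≤ w.1.natAbs) →
    ∃ S' ⊆ S, S'.Nonempty ∧ (S.card : ℝ) ≤ C * Y ^ (4 * τ) * S'.card ∧ PCls (Y ^ K) D f S' ∧
      (∃ Q : Ideal (ℤ√D), ∀ w ∈ S', lbl (2 ^ e w) (el D w f) = Q) ∧ (∃ l0 : ℕ, ∀ w ∈ S', l w = l0) ∧
      (∃ E : ℝ, 1 ≤ E ∧ E ≤ Y ^ K ∧ ∀ w ∈ S', E ≤ (t w : ℝ) ∧ (t w : ℝ) ≤ 2 * E) := by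
  classical
  obtain ⟨C1, hC1, hlog⟩ := log_bound K τ hK hτ
  refine ⟨8 * C1 ^ 4, ?_, ?_⟩
  · have h := one_le_pow₀ hC1 (n := 4)
    linarith
  intro Y D f S e l t hY hcol hS hw
  have hY0 : 0 < Y := lt_of_lt_of_le one_pos hY
  have hYK : ∀ w ∈ S, (w.1.natAbs : ℝ) ≤ Y ^ K := fun w hw' => (hcol.mem w hw').2.2.2.2.2.2.2
  have hYK2 : ∀ w ∈ S, (w.2.natAbs : ℝ) ≤ Y ^ K := fun w hw' => (hcol.mem w hw').2.2.2.2.2.2.1
  have hn1 : ∀ w ∈ S, w.1 ≠ 0 := fun w hw' => (hcol.mem w hw').2.1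
  have hcop : ∀ w ∈ S, IsCoprime w.1 w.2 := fun w hw' => ((hcol.mem w hw').2.2.1).symm
  have hsq : ∀ w ∈ S, ∃ g : ℤ, w.1 + w.2 = g ^ 2 := by
    intro w hw'
    obtain ⟨g, hg⟩ := (hcol.mem w hw').2.2.2.1
    refine ⟨g, ?_⟩
    rw [← hg]
    exact add_comm _ _
  have him : ∀ g : ℤ × ℤ → ℕ, (∀ w ∈ S, 2 ^ (g w) ≤ w.1.natAbs) → ((S.image g).card : ℝ) ≤ C1 * Y ^ τ := by
    intro g hg
    refine image_le S g _ hS fun a ha => hlog Y hY (g a) ?_
    refine le_trans ?_ (hYK a ha)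
    exact_mod_cast hg a ha
  have hX0 : 0 ≤ C1 * Y ^ τ := mul_nonneg (by linarith) (Real.rpow_nonneg hY0.le _)
  have i1 := him (fun w => Nat.log 2 w.1.natAbs) fun w hw' => Nat.pow_log_le_self 2 (Int.natAbs_ne_zero.2 (hn1 w hw'))
  have i2 := him e fun w hw' =>
    Nat.le_of_dvd (Nat.pos_of_ne_zero (Int.natAbs_ne_zero.2 (hn1 w hw'))) (hw w hw').1
  have i3 := him l fun w hw' => (hw w hw').2.1
  have i4 := him (fun w => Nat.log 2 (t w)) fun w hw' =>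
    (Nat.pow_log_le_self 2 (by have := (hw w hw').2.2.1; omega)).trans (hw w hw').2.2.2
  obtain ⟨S1, hS1, hne1, hc1, hcard1⟩ := Sm2_pig S
    (fun w => (Nat.log 2 w.1.natAbs, e w, l w, Nat.log 2 (t w), decide (0 < w.1)))
    ((S.image fun w => Nat.log 2 w.1.natAbs) ×ˢ (S.image e) ×ˢ (S.image l) ×ˢ (S.image fun w => Nat.log 2 (t w)) ×ˢ
      (Finset.univ : Finset Bool)) ((C1 * Y ^ τ) * ((C1 * Y ^ τ) * ((C1 * Y ^ τ) * ((C1 * Y ^ τ) * 2)))) hS (by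
      intro w hw'
      simp only [Finset.mem_product, Finset.mem_univ, and_true]
      exact ⟨Finset.mem_image_of_mem _ hw', Finset.mem_image_of_mem _ hw', Finset.mem_image_of_mem _ hw',
        Finset.mem_image_of_mem _ hw'⟩) (by
      simp only [Finset.card_product, Finset.card_univ, Fintype.card_bool]
      push_cast
      gcongr)
  obtain ⟨w0, hw0⟩ := hne1
  have hcon : ∀ w ∈ S1, Nat.log 2 w.1.natAbs = Nat.log 2 w0.1.natAbs ∧ e w = e w0 ∧ l w = l w0 ∧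
      Nat.log 2 (t w) = Nat.log 2 (t w0) ∧ (0 < w.1 ↔ 0 < w0.1) := by
    intro w hw'
    have h := hc1 w hw' w0 hw0
    simpa only [Prod.mk.injEq, decide_eq_decide] using h
  have hdvd : ∀ w ∈ S1, ((2 ^ e w0 : ℕ) : ℤ) ∣ (el D w f).norm := by
    intro w hw'
    rw [el_norm (hsq w (hS1 hw')) (hcol.eq w (hS1 hw')), ← (hcon w hw').2.1]
    exact Int.natCast_dvd.2 (hw w (hS1 hw')).1
  have hT6 : ((S1.image fun w => lbl (2 ^ e w) (el D w f)).card : ℝ) ≤ 4 := by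
    have h : (S1.image fun w => lbl (2 ^ e w) (el D w f)).card ≤ 4 := by
      rcases Nat.eq_zero_or_pos (e w0) with h0 | h0
      · have h1 : (S1.image fun w => lbl (2 ^ e w) (el D w f)) ⊆ {⊤} := by
          intro y hy
          obtain ⟨b, hb, rfl⟩ := Finset.mem_image.1 hy
          rw [(hcon b hb).2.1, h0, pow_zero, lbl_one]
          exact Finset.mem_singleton_self _
        exact (Finset.card_le_card h1).trans (by simp)
      · have hDodd : Odd D := by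
          rw [← Int.not_even_iff_odd]
          intro hev
          have h2D : (2 : ℤ) ∣ D := hev.two_dvd
          have h2w2 : (2 : ℤ) ∣ w0.2 := by
            rw [hcol.eq w0 (hS1 hw0)]
            exact Dvd.dvd.mul_left h2D _
          have h2w1 : (2 : ℤ) ∣ w0.1 := by
            have h3 : (2 : ℕ) ∣ w0.1.natAbs :=
              (dvd_pow_self 2 (by omega)).trans (hw w0 (hS1 hw0)).1
            exact Int.natCast_dvd.2 h3
          have h4 := (hcop w0 (hS1 hw0)).isUnit_of_dvd' h2w1 h2w2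
          rw [Int.isUnit_iff] at h4
          omega
        refine card_two hDodd (e w0) _ fun I hI => ?_
        obtain ⟨b, hb, rfl⟩ := Finset.mem_image.1 hI
        obtain ⟨r, h1, _, h3⟩ := lbl_eq_idl (el D b f) (A := 2 ^ e w0) (Nat.one_le_two_pow) (hdvd b hb)
          (el_cop (hsq b (hS1 hb)) (hcol.eq b (hS1 hb)) (hcop b (hS1 hb)))
        refine ⟨r, h1, ?_⟩
        rw [(hcon b hb).2.1]
        exact h3
    exact_mod_cast h
  obtain ⟨S2, hS2, hne2, hc2, hcard2⟩ := Sm2_pig S1 (fun w => lbl (2 ^ e w) (el D w f))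
    (S1.image fun w => lbl (2 ^ e w) (el D w f)) 4 ⟨w0, hw0⟩
    (fun a ha => Finset.mem_image_of_mem (fun w => lbl (2 ^ e w) (el D w f)) ha) hT6
  have hsub : S2 ⊆ S := hS2.trans hS1
  obtain ⟨w1, hw1⟩ := hne2
  have ht1 := hw w1 (hsub hw1)
  refine ⟨S2, hsub, ⟨w1, hw1⟩, ?_, ?_, ⟨_, fun w hw' => hc2 w hw' w1 hw1⟩,
    ⟨l w0, fun w hw' => (hcon w (hS2 hw')).2.2.1⟩, ⟨((2 ^ Nat.log 2 (t w1) : ℕ) : ℝ), ?_, ?_, ?_⟩⟩
  · have h4 : (Y ^ τ) ^ 4 = Y ^ (4 * τ) := by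
      rw [← Real.rpow_natCast, ← Real.rpow_mul hY0.le]
      congr 1
      push_cast
      ring
    calc (S.card : ℝ) ≤ (C1 * Y ^ τ) * ((C1 * Y ^ τ) * ((C1 * Y ^ τ) * ((C1 * Y ^ τ) * 2))) * S1.card := hcard1
      _ ≤ (C1 * Y ^ τ) * ((C1 * Y ^ τ) * ((C1 * Y ^ τ) * ((C1 * Y ^ τ) * 2))) * (4 * S2.card) := by
        gcongr
      _ = 8 * C1 ^ 4 * (Y ^ τ) ^ 4 * S2.card := by ring
      _ = 8 * C1 ^ 4 * Y ^ (4 * τ) * S2.card := by rw [h4]
  · exact ⟨Real.one_le_rpow hY hK.le, hcol.hD, hcol.hD1, hcol.hf, fun w hw' => hcol.eq w (hsub hw'),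
      fun w hw' => hn1 w (hsub hw'), fun w hw' => hcop w (hsub hw'), fun w hw' => hsq w (hsub hw'),
      fun w hw' => hYK w (hsub hw'), fun w hw' => hYK2 w (hsub hw'),
      fun w hw' w' hw'' => Sm2_log (Int.natAbs_ne_zero.2 (hn1 w' (hsub hw'')))
        ((hcon w (hS2 hw')).1.trans (hcon w' (hS2 hw'')).1.symm),
      fun w hw' w' hw'' => (hcon w (hS2 hw')).2.2.2.2.trans (hcon w' (hS2 hw'')).2.2.2.2.symm⟩
  · exact_mod_cast Nat.one_le_two_pow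
  · refine le_trans ?_ (hYK w1 (hsub hw1))
    have h1 : 2 ^ Nat.log 2 (t w1) ≤ w1.1.natAbs :=
      (Nat.pow_log_le_self 2 (by have := ht1.2.2.1; omega)).trans ht1.2.2.2
    exact_mod_cast h1
  · intro w hw'
    have he : Nat.log 2 (t w) = Nat.log 2 (t w1) :=
      (hcon w (hS2 hw')).2.2.2.1.trans (hcon w1 (hS2 hw1)).2.2.2.1.symm
    have h1 : 2 ^ Nat.log 2 (t w) ≤ t w := Nat.pow_log_le_self 2 (by have := (hw w (hsub hw')).2.2.1; omega)
    have h2 := Nat.lt_pow_succ_log_self (b := 2) (by norm_num) (t w)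
    rw [Nat.succ_eq_add_one, pow_succ] at h2
    rw [he] at h1 h2
    constructor
    · exact_mod_cast h1
    · have h3 : t w ≤ 2 * 2 ^ Nat.log 2 (t w1) := by omega
      exact_mod_cast h3

end Hp

end Pool.Agent.Lib.MP_d8bd92_nt
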