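import Pool.Agent.Lib.MP_d8bd92_nt.Hp.Sm2
import Pool.Agent.Lib.MP_d8bd92_nt.Hp.Sm3

set_option autoImplicit false

/-!
Pairs with one small radical: the type `U1` at a fixed member.
-/

namespace Pool.Agent.Lib.MP_d8bd92_nt

namespace Hp

open Finset Pool.Agent.Lib.Szpiro

private theorem SmU1_fac {K ε0 κ Y : ℝ} (hκ1 : κ ≤ 1 / 100) (hY : 16 < Y)
    {w : ℤ × ℤ} (h1 : w.swap ∈ PairSet K ε0 Y) (h : U1 Y κ w.swap) :
    ∃ p i e a : ℕ, p.Prime ∧ 1 ≤ i ∧ Odd a ∧ Odd p ∧ w.1.natAbs = p ^ i * (2 ^ e * a) ∧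
      Nat.Coprime a p ∧ (p : ℝ) ≤ Y ^ (1 / 2 + κ) ∧ (rd a : ℝ) ≤ Y ^ (1 / 4 + κ) ∧
      (i : ℝ) ≤ 8 * K := by
  have hY1 : 1 < Y := by linarith
  have hY0 : 0 < Y := by linarith
  obtain ⟨_, _, p, i, u, hp, hi, hu, hpu, hw, _, hp1, hp2, _, hru⟩ := h
  obtain ⟨e, a, ha, hea⟩ := Nat.exists_eq_two_pow_mul_odd (show u ≠ 0 by omega)
  have hp4 : Y ^ (1 / 4 : ℝ) ≤ (p : ℝ) :=
    le_trans (Real.rpow_le_rpow_of_exponent_le hY1.le (by linarith)) hp1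
  have h2 : (2 : ℝ) < Y ^ (1 / 4 : ℝ) := by
    have h3 : (16 : ℝ) ^ (1 / 4 : ℝ) < Y ^ (1 / 4 : ℝ) :=
      Real.rpow_lt_rpow (by norm_num) hY (by norm_num)
    have h4 : (16 : ℝ) ^ (1 / 4 : ℝ) = 2 := by
      have h5 : (16 : ℝ) = 2 ^ (4 : ℝ) := by norm_num
      rw [h5, ← Real.rpow_mul (by norm_num)]
      norm_num
    linarith
  have hp3 : 2 < p := by
    have : (2 : ℝ) < (p : ℝ) := lt_of_lt_of_le h2 hp4
    exact_mod_cast this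
  have hodd : Odd p := hp.odd_of_ne_two (by omega)
  have hw' : w.1.natAbs = p ^ i * u := hw
  have hu0 : u ≠ 0 := by omega
  refine ⟨p, i, e, a, hp, hi, ha, hodd, by rw [hw', hea], ?_, hp2, ?_, ?_⟩
  · rw [hea] at hpu
    exact (Nat.Coprime.coprime_mul_left_right hpu).symm
  · refine le_trans ?_ hru
    have h3 : rd a ≤ rd u := rd_dvd_le hu0 ⟨2 ^ e, by rw [hea, mul_comm]⟩
    exact_mod_cast h3
  · have h3 : ((w.1.natAbs : ℕ) : ℝ) ≤ Y ^ K := h1.2.2.2.2.2.2.2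
    have h4 : (p : ℝ) ^ i ≤ Y ^ K := by
      refine le_trans ?_ h3
      rw [hw']
      push_cast
      have h5 : (1 : ℝ) ≤ (u : ℝ) := by exact_mod_cast hu
      exact le_mul_of_one_le_right (by positivity) h5
    have h5 : (Y ^ (1 / 4 : ℝ)) ^ i ≤ Y ^ K :=
      le_trans (pow_le_pow_left₀ (by positivity) hp4 i) h4
    rw [← Real.rpow_natCast, ← Real.rpow_mul hY0.le] at h5
    have h6 := (Real.rpow_le_rpow_left_iff hY1).1 h5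
    have h7 : (1 : ℝ) ≤ (i : ℝ) := by exact_mod_cast hi
    linarith

private theorem SmU1_pair {D : ℤ} {f : ℕ} {Z : ℝ} {S : Finset (ℤ × ℤ)} (h : PCls Z D f S)
    {w w' : ℤ × ℤ} (hw : w ∈ S) (hw' : w' ∈ S) (he : w.1.natAbs = w'.1.natAbs) : w = w' := by
  have h1 := h.sg w hw w' hw'
  have h2 := h.n1 w hw
  have h3 := h.n1 w' hw'
  have h4 : w.1 = w'.1 := by omega
  have h5 : w.2 = w'.2 := by rw [h.eq w hw, h.eq w' hw']
  exact Prod.ext h4 h5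

private theorem SmU1_lbl {D : ℤ} {f : ℕ} {Z : ℝ} {S : Finset (ℤ × ℤ)} (h : PCls Z D f S)
    {w w' : ℤ × ℤ} (hw : w ∈ S) (hw' : w' ∈ S) {A A' : ℕ} (hA : 1 ≤ A) (hA' : 1 ≤ A')
    (hd : A ∣ w.1.natAbs) (hd' : A' ∣ w'.1.natAbs)
    (he : lbl A (el D w f) = lbl A' (el D w' f)) : A = A' := by
  refine (lbl_inj (el D w f) (el D w' f) hA hA' ?_ ?_ ?_ ?_ he).1
  · rw [h.norm hw]
    exact Int.natCast_dvd.2 hd
  · rw [h.norm hw']
    exact Int.natCast_dvd.2 hd'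
  · exact el_cop (h.sq w hw) (h.eq w hw) (h.cop w hw)
  · exact el_cop (h.sq w' hw') (h.eq w' hw') (h.cop w' hw')

/-- type `U1` at a fixed member.  Proof: `τ = 1 / 1000`, `ε = τ / K` (so `(Y ^ K) ^ ε = Y ^ τ`).  `Y ≤ 1000`: `Col.small`.  `Y > 1000`, `S` nonempty:
for `w ∈ S` write `|w.1| = p ^ i * u`, `u = 2 ^ e * a`, `a` odd (`Nat.exists_eq_two_pow_mul_odd`), `p` odd as `p ≥ Y ^ (1/4) > 2`, `rd a ≤ Y ^ (1/4 + κ)`.
`reduce K ε0 τ` with `e`, `l = i`, `t = p` (`2 ^ i ≤ p ^ i`): class `S1`, loss `C Y ^ (4 τ)`.  `pig` with `w ↦ lbl (a w) (el D w f)`, `sm_label_count ε`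
(`X = Y ^ (1/4 + κ)`): class `S2`, loss `C Y ^ (τ + 1/4 + κ)`.  `PCls.cls` gives `θ`, `ElCls (3 Y ^ K) θ`, and with `M = Y ^ (2 + ε0)`:
`θ E / (f √|D|) ≤ 8 E / √M ≤ 8` as `E ≤ p ≤ Y ^ (1/2 + κ) ≤ Y ≤ √M`.  `ll_el ε ⌊l bound⌋` with `A = a`, `B = 1`, `t = p`, `l = i0` (the constant
value, `i0 ≤ L := ⌈8 K⌉₊` because `p ^ i ≤ Y ^ K`, `p ≥ Y ^ (1/8)`, `Y > 1`), `IB = ⊤` (`lbl_one`); the `p`-labels are injective: `lbl_inj` gives `p w = p w'` and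
`a w = a w'`, `e` is constant? (not needed to be constant: `reduce` gives only the label `Q` of `2 ^ e`; `lbl_inj` applied to it gives `2 ^ e w = 2 ^ e w'`), so
`|w.1| = |w'.1|`, same sign, `w = w'`.  So `#S2 ≤ C (3 Y ^ K) ^ ε √|D| 9` and `√|D| ≤ Y ^ ((1/4 + κ) / 2)` by `D_le_rd` and `ra`.
Total exponent `6 τ + (1/4 + κ) * 3 / 2 ≤ 1/2 - 2 κ` as `κ ≤ 1/100`. -/
theorem u1_col (K ε0 κ : ℝ) (hK : 2 ≤ K) (hε : -1 / 100 ≤ ε0) (hκ : 0 < κ) (hκ1 : κ ≤ 1 / 100) : ∃ C : ℝ, 1 ≤ C ∧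
    ∀ (Y : ℝ) (D : ℤ) (f : ℕ) (S : Finset (ℤ × ℤ)), 1 ≤ Y → Col K ε0 Y D f S → (∀ w ∈ S, U1 Y κ w.swap) →
      (S.card : ℝ) ≤ C * Y ^ (1 / 2 - 2 * κ) := by
  classical
  have hK0 : (0 : ℝ) < K := by linarith
  obtain ⟨ε, hεd⟩ : ∃ ε : ℝ, ε = (1 / 1000) / K := ⟨_, rfl⟩
  have hε1 : 0 < ε := by rw [hεd]; positivity
  have hKε : K * ε = 1 / 1000 := by rw [hεd]; field_simp
  obtain ⟨C1, hC1, H1⟩ := reduce K ε0 (1 / 1000) hK0 (by norm_num)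
  obtain ⟨C2, hC2, H2⟩ := sm_label_count ε hε1
  obtain ⟨C3, hC3, H3⟩ := ll_el ε hε1 ⌈8 * K⌉₊
  have hC1' : 0 < C1 := by linarith
  have hC2' : 0 < C2 := by linarith
  have h16 : (0 : ℝ) < 16 ^ K := by positivity
  have h3ε : (0 : ℝ) < 3 ^ ε := by positivity
  refine ⟨(2 * 16 ^ K + 1) + C1 * C2 * C3 * 3 ^ ε * 9, ?_, ?_⟩
  · have : 0 < C1 * C2 * C3 * 3 ^ ε * 9 := by positivity
    linarith
  intro Y D f S hY hcol hU
  have hY0 : 0 < Y := by linarith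
  have hC0 : 0 < C1 * C2 * C3 * 3 ^ ε * 9 := by positivity
  have hexp : 1 ≤ Y ^ (1 / 2 - 2 * κ) := Real.one_le_rpow hY (by linarith)
  rcases le_or_gt Y 16 with hs | hbig
  · have h := hcol.small hK0 hY hs
    refine h.trans ?_
    have h4 : 2 * (16 : ℝ) ^ K + 1 ≤ (2 * 16 ^ K + 1) + C1 * C2 * C3 * 3 ^ ε * 9 := by linarith
    refine h4.trans (le_mul_of_one_le_right (by linarith) hexp)
  have hY1 : 1 < Y := by linarith
  rcases S.eq_empty_or_nonempty with hS | hSne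
  · rw [hS, Finset.card_empty, Nat.cast_zero]
    positivity
  -- the factorisation
  have hch : ∀ w : ℤ × ℤ, ∃ p i e a : ℕ, w ∈ S → (p.Prime ∧ 1 ≤ i ∧ Odd a ∧ Odd p ∧
      w.1.natAbs = p ^ i * (2 ^ e * a) ∧ Nat.Coprime a p ∧ (p : ℝ) ≤ Y ^ (1 / 2 + κ) ∧
      (rd a : ℝ) ≤ Y ^ (1 / 4 + κ) ∧ (i : ℝ) ≤ 8 * K) := by
    intro w
    by_cases hw : w ∈ S
    · obtain ⟨p, i, e, a, h⟩ := SmU1_fac hκ1 hbig (hcol.mem w hw) (hU w hw)
      exact ⟨p, i, e, a, fun _ => h⟩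
    · exact ⟨0, 0, 0, 0, fun h => absurd h hw⟩
  choose p i e a hpa using hch
  obtain ⟨S1, hS1, hS1ne, hcard1, hP1, ⟨Q, hQ⟩, ⟨i0, hi0⟩, ⟨E, hE1, hEK, hE⟩⟩ :=
    H1 Y D f S e i p hY hcol hSne (by
      intro w hw
      obtain ⟨h1, h2, h3, h4, h5, h6, h7, h8, h9⟩ := hpa w hw
      have ha1 : 1 ≤ a w := h3.pos
      have h2e : 1 ≤ 2 ^ e w * a w := Nat.mul_pos (by positivity) ha1
      refine ⟨?_, ?_, h1.one_lt.le, ?_⟩
      · rw [h5]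
        exact Dvd.dvd.mul_left (Dvd.intro _ rfl) _
      · rw [h5]
        calc 2 ^ i w ≤ p w ^ i w := Nat.pow_le_pow_left h1.two_le _
          _ ≤ p w ^ i w * (2 ^ e w * a w) := Nat.le_mul_of_pos_right _ h2e
      · rw [h5]
        calc p w ≤ p w ^ i w := Nat.le_self_pow (by omega) _
          _ ≤ p w ^ i w * (2 ^ e w * a w) := Nat.le_mul_of_pos_right _ h2e)
  have hX : (1 : ℝ) ≤ Y ^ (1 / 4 + κ) := Real.one_le_rpow hY (by clear * - hκ; linarith)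
  have himg : (((S1.image (fun w => lbl (a w) (el D w f))).card : ℕ) : ℝ) ≤
      C2 * (Y ^ K) ^ ε * Y ^ (1 / 4 + κ) := by
    refine H2 (Y ^ K) (Y ^ (1 / 4 + κ)) D f S1 a hP1 hX ?_ _ ?_
    · intro w hw
      obtain ⟨h1, h2, h3, h4, h5, h6, h7, h8, h9⟩ := hpa w (hS1 hw)
      refine ⟨h3, ?_, h8⟩
      rw [h5]
      exact Dvd.dvd.mul_left (Dvd.intro_left _ rfl) _
    · intro I hI
      obtain ⟨w, hw, rfl⟩ := Finset.mem_image.1 hI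
      exact ⟨w, hw, rfl⟩
  obtain ⟨S2, hS2, hS2ne, hconst, hcard2⟩ := pig S1 (fun w => lbl (a w) (el D w f)) _ hS1ne himg
  have hP2 := hP1.sub hS2
  obtain ⟨θ, hcls, hM⟩ := hP2.cls hS2ne
  obtain ⟨w0, hw0⟩ := hS2ne
  have hS2S : S2 ⊆ S := hS2.trans hS1
  have hi1 : 1 ≤ i0 := by
    rw [← hi0 w0 (hS2 hw0)]
    exact (hpa w0 (hS2S hw0)).2.1
  have hiL : i0 ≤ ⌈8 * K⌉₊ := by
    rw [← hi0 w0 (hS2 hw0)]
    have h1 := (hpa w0 (hS2S hw0)).2.2.2.2.2.2.2.2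
    exact_mod_cast h1.trans (Nat.le_ceil _)
  have hYK : 1 ≤ Y ^ K := Real.one_le_rpow hY hK0.le
  have hfac : ElFac (3 * Y ^ K) E D i0 S2 (fun w => el D w f) e a (fun _ => 1) p Q := by
    refine ⟨hi1, hE1, by clear * - hYK hEK; linarith, ?_, ?_, ?_, ?_, ?_, ?_, ?_, ?_, ?_, ?_, ?_⟩
    · intro w hw
      obtain ⟨h1, h2, h3, h4, h5, h6, h7, h8, h9⟩ := hpa w (hS2S hw)
      simp only [hP2.norm hw]
      rw [h5, hi0 w (hS2 hw)]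
      ring
    · exact fun w hw => (hpa w (hS2S hw)).2.2.1
    · exact fun _ _ => odd_one
    · exact fun w hw => (hpa w (hS2S hw)).2.2.2.1
    · exact fun _ _ => Nat.coprime_one_right _
    · exact fun w hw => (hpa w (hS2S hw)).2.2.2.2.2.1
    · exact fun _ _ => Nat.coprime_one_left _
    · exact fun w hw => (hpa w (hS2S hw)).1.prime.squarefree
    · exact fun w hw => (hE w (hS2 hw)).1
    · exact fun w hw => (hE w (hS2 hw)).2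
    · exact fun w hw => hQ w (hS2 hw)
  have hll := H3 (3 * Y ^ K) E θ D f i0 (ℤ × ℤ) S2 (fun w => el D w f) e a (fun _ => 1) p Q
    (lbl (a w0) (el D w0 f)) ⊤ hiL hcls hfac (fun w hw => hconst w hw w0 hw0)
    (fun w _ => lbl_one _) (by
      intro w hw w' hw' hlab
      obtain ⟨h1, h2, h3, h4, h5, h6, h7, h8, h9⟩ := hpa w (hS2S hw)
      obtain ⟨g1, g2, g3, g4, g5, g6, g7, g8, g9⟩ := hpa w' (hS2S hw')
      have d1 : p w ∣ w.1.natAbs := by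
        rw [h5]
        exact Dvd.dvd.mul_right (dvd_pow_self _ (by omega)) _
      have d1' : p w' ∣ w'.1.natAbs := by
        rw [g5]
        exact Dvd.dvd.mul_right (dvd_pow_self _ (by omega)) _
      have d2 : a w ∣ w.1.natAbs := by
        rw [h5]
        exact Dvd.dvd.mul_left (Dvd.intro_left _ rfl) _
      have d2' : a w' ∣ w'.1.natAbs := by
        rw [g5]
        exact Dvd.dvd.mul_left (Dvd.intro_left _ rfl) _
      have d3 : 2 ^ e w ∣ w.1.natAbs := by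
        rw [h5]
        exact Dvd.dvd.mul_left (Dvd.intro _ rfl) _
      have d3' : 2 ^ e w' ∣ w'.1.natAbs := by
        rw [g5]
        exact Dvd.dvd.mul_left (Dvd.intro _ rfl) _
      have k1 := SmU1_lbl hP2 hw hw' h1.one_lt.le g1.one_lt.le d1 d1' hlab
      have k2 := SmU1_lbl hP2 hw hw' h3.pos g3.pos d2 d2' (hconst w hw w' hw')
      have k3 := SmU1_lbl hP2 hw hw' Nat.one_le_two_pow Nat.one_le_two_pow d3 d3'
        ((hQ w (hS2 hw)).trans (hQ w' (hS2 hw')).symm)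
      refine SmU1_pair hP2 hw hw' ?_
      rw [h5, g5, k1, k2, k3, hi0 w (hS2 hw), hi0 w' (hS2 hw')])
  -- numerical part
  have hf1 : (1 : ℝ) ≤ (f : ℝ) := by exact_mod_cast hcol.hf
  have hD1 : (1 : ℝ) ≤ ((|D| : ℤ) : ℝ) := by
    exact_mod_cast Int.one_le_abs hcol.hD.ne_zero
  have hsD : 1 ≤ √((|D| : ℤ) : ℝ) := by
    rw [Real.one_le_sqrt]
    exact hD1
  have hra : (rd w0.2.natAbs : ℝ) ≤ Y ^ (1 / 4 + κ) := (hU w0 (hS2S hw0)).2.1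
  have hDle : ((|D| : ℤ) : ℝ) ≤ Y ^ (1 / 4 + κ) :=
    (D_le_rd hcol.hD hcol.hf (hcol.eq w0 (hS2S hw0))).trans hra
  have hsD2 : √((|D| : ℤ) : ℝ) ≤ Y ^ ((1 / 4 + κ) / 2) := by
    rw [Real.sqrt_le_left (by positivity), ← Real.rpow_natCast, ← Real.rpow_mul hY0.le]
    refine hDle.trans (le_of_eq ?_)
    congr 1
    push_cast
    ring
  have hM1 : θ / ((f : ℝ) * √((|D| : ℤ) : ℝ)) ≤ 8 / √(Y ^ (2 + ε0)) := by
    refine hM (Y ^ (2 + ε0)) (by positivity) ?_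
    intro w hw
    have h1 := (hcol.mem w (hS2S hw)).2.2.2.2.2.1
    rw [max_comm]
    exact h1
  have hsM : Y ^ (9 / 10 : ℝ) ≤ √(Y ^ (2 + ε0)) := by
    rw [Real.le_sqrt' (by positivity), ← Real.rpow_natCast, ← Real.rpow_mul hY0.le]
    exact Real.rpow_le_rpow_of_exponent_le hY (by clear * - hε; push_cast; linarith)
  have hs0 : 0 < √(Y ^ (2 + ε0)) := lt_of_lt_of_le (by positivity) hsM
  have hE2 : E ≤ Y ^ (9 / 10 : ℝ) := by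
    refine (hE w0 (hS2 hw0)).1.trans ?_
    refine ((hpa w0 (hS2S hw0)).2.2.2.2.2.2.1).trans ?_
    exact Real.rpow_le_rpow_of_exponent_le hY (by clear * - hκ1; linarith)
  have hlast : 1 + θ * E / ((f : ℝ) * √((|D| : ℤ) : ℝ)) ≤ 9 := by
    have h1 : θ * E / ((f : ℝ) * √((|D| : ℤ) : ℝ)) = θ / ((f : ℝ) * √((|D| : ℤ) : ℝ)) * E := by
      ring
    have h2 : θ / ((f : ℝ) * √((|D| : ℤ) : ℝ)) * E ≤ 8 / √(Y ^ (2 + ε0)) * E :=
      mul_le_mul_of_nonneg_right hM1 (zero_le_one.trans hE1)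
    have h3 : 8 / √(Y ^ (2 + ε0)) * E ≤ 8 := by
      rw [div_mul_eq_mul_div, div_le_iff₀ hs0]
      exact mul_le_mul_of_nonneg_left (hE2.trans hsM) (by norm_num)
    rw [h1]
    have h4 := h2.trans h3
    clear * - h4
    linarith
  have hif : (if i0 = 1 then (1 : ℝ) else √((|D| : ℤ) : ℝ)) ≤ Y ^ ((1 / 4 + κ) / 2) := by
    split_ifs
    · exact hsD.trans hsD2
    · exact hsD2
  have hif0 : (0 : ℝ) ≤ (if i0 = 1 then (1 : ℝ) else √((|D| : ℤ) : ℝ)) := by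
    split_ifs
    · norm_num
    · positivity
  have hKe : (Y ^ K) ^ ε = Y ^ (1 / 1000 : ℝ) := by
    rw [← Real.rpow_mul hY0.le, hKε]
  have h3K : (3 * Y ^ K) ^ ε = 3 ^ ε * Y ^ (1 / 1000 : ℝ) := by
    rw [Real.mul_rpow (by norm_num) (by positivity), hKe]
  have hS2card : (S2.card : ℝ) ≤ C3 * (3 ^ ε * Y ^ (1 / 1000 : ℝ)) * Y ^ ((1 / 4 + κ) / 2) * 9 := by
    refine hll.trans ?_
    rw [h3K]
    have hθ0 := hcls.hθ
    refine mul_le_mul (mul_le_mul_of_nonneg_left hif (by positivity)) hlast ?_ (by positivity)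
    positivity
  rw [hKe] at hcard2
  have hfin : (S.card : ℝ) ≤ C1 * Y ^ (4 * (1 / 1000 : ℝ)) * ((C2 * Y ^ (1 / 1000 : ℝ) * Y ^ (1 / 4 + κ)) *
      (C3 * (3 ^ ε * Y ^ (1 / 1000 : ℝ)) * Y ^ ((1 / 4 + κ) / 2) * 9)) := by
    refine hcard1.trans (mul_le_mul_of_nonneg_left ?_ (by positivity))
    exact hcard2.trans (mul_le_mul_of_nonneg_left hS2card (by positivity))
  refine hfin.trans ?_
  have hYY : Y ^ (4 * (1 / 1000 : ℝ)) * Y ^ (1 / 1000 : ℝ) * Y ^ (1 / 4 + κ) * Y ^ (1 / 1000 : ℝ) *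
      Y ^ ((1 / 4 + κ) / 2) ≤ Y ^ (1 / 2 - 2 * κ) := by
    rw [← Real.rpow_add hY0, ← Real.rpow_add hY0, ← Real.rpow_add hY0, ← Real.rpow_add hY0]
    exact Real.rpow_le_rpow_of_exponent_le hY (by clear * - hκ1; linarith)
  have heq : C1 * Y ^ (4 * (1 / 1000 : ℝ)) * ((C2 * Y ^ (1 / 1000 : ℝ) * Y ^ (1 / 4 + κ)) *
      (C3 * (3 ^ ε * Y ^ (1 / 1000 : ℝ)) * Y ^ ((1 / 4 + κ) / 2) * 9)) =
      (C1 * C2 * C3 * 3 ^ ε * 9) * (Y ^ (4 * (1 / 1000 : ℝ)) * Y ^ (1 / 1000 : ℝ) * Y ^ (1 / 4 + κ) *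
        Y ^ (1 / 1000 : ℝ) * Y ^ ((1 / 4 + κ) / 2)) := by ring
  rw [heq]
  have h5 : (C1 * C2 * C3 * 3 ^ ε * 9) * (Y ^ (4 * (1 / 1000 : ℝ)) * Y ^ (1 / 1000 : ℝ) * Y ^ (1 / 4 + κ) *
        Y ^ (1 / 1000 : ℝ) * Y ^ ((1 / 4 + κ) / 2)) ≤ (C1 * C2 * C3 * 3 ^ ε * 9) * Y ^ (1 / 2 - 2 * κ) :=
    mul_le_mul_of_nonneg_left hYY hC0.le
  refine h5.trans (mul_le_mul_of_nonneg_right ?_ (zero_le_one.trans hexp))
  exact le_add_of_nonneg_left (add_nonneg (mul_nonneg zero_le_two h16.le) zero_le_one)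

end Hp

end Pool.Agent.Lib.MP_d8bd92_nt
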