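import Pool.Agent.Lib.MP_d8bd92_nt.Hp.Sm2
import Pool.Agent.Lib.MP_d8bd92_nt.Hp.Sm3

set_option autoImplicit false

/-!
Pairs with one small radical: the type `U1` at a fixed member, for all exponents above `1/2`.
-/

namespace Pool.Agent.Lib.MP_d8bd92_nt

namespace Hp

open Finset Pool.Agent.Lib.Szpiro

private theorem SmV1_fac {K ε0 κ Y : ℝ} (hκ1 : κ ≤ 1 / 100) (hY : 16 < Y)
    {w : ℤ × ℤ} (h1 : w.swap ∈ PairSet K ε0 Y) (h : U1 Y κ w.swap) :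
    ∃ p i e a : ℕ, p.Prime ∧ 1 ≤ i ∧ Odd a ∧ Odd p ∧ w.1.natAbs = p ^ i * (2 ^ e * a) ∧
      Nat.Coprime a p ∧ (p : ℝ) ≤ Y ^ (1 / 2 + κ) ∧ (rd a : ℝ) ≤ Y ^ (1 / 4 + κ) ∧
      (i : ℝ) ≤ 8 * K := by
  have hY1 : 1 < Y := by linarith only [hY]
  have hY0 : 0 < Y := zero_lt_one.trans hY1
  obtain ⟨_, _, p, i, u, hp, hi, hu, hpu, hw, _, hp1, hp2, _, hru⟩ := h
  obtain ⟨e, a, ha, hea⟩ := Nat.exists_eq_two_pow_mul_odd (show u ≠ 0 by omega)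
  have hp4 : Y ^ (1 / 4 : ℝ) ≤ (p : ℝ) :=
    le_trans (Real.rpow_le_rpow_of_exponent_le hY1.le (by linarith only [hκ1])) hp1
  have h2 : (2 : ℝ) < Y ^ (1 / 4 : ℝ) := by
    have h3 : (16 : ℝ) ^ (1 / 4 : ℝ) < Y ^ (1 / 4 : ℝ) :=
      Real.rpow_lt_rpow (by norm_num) hY (by norm_num)
    have h4 : (16 : ℝ) ^ (1 / 4 : ℝ) = 2 := by
      have h5 : (16 : ℝ) = 2 ^ (4 : ℝ) := by norm_num
      rw [h5, ← Real.rpow_mul (by norm_num)]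
      norm_num
    exact h4 ▸ h3
  have hp3 : 2 < p := by
    have : (2 : ℝ) < (p : ℝ) := lt_of_lt_of_le h2 hp4
    exact_mod_cast this
  have hodd : Odd p := hp.odd_of_ne_two (by omega)
  have hw' : w.1.natAbs = p ^ i * u := hw
  have hu0 : u ≠ 0 := by omega
  refine ⟨p, i, e, a, hp, hi, ha, hodd, by rw [hw', hea], ?_, hp2, ?_, ?_⟩
  · rw [hea] at hpu
    exact (Nat.Coprime.coprime_mul_left_right hpu).symm
  · refine le_trans ?_ hru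
    have h3 : rd a ≤ rd u := rd_dvd_le hu0 ⟨2 ^ e, by rw [hea, mul_comm]⟩
    exact_mod_cast h3
  · have h3 : ((w.1.natAbs : ℕ) : ℝ) ≤ Y ^ K := h1.2.2.2.2.2.2.2
    have h4 : (p : ℝ) ^ i ≤ Y ^ K := by
      refine le_trans ?_ h3
      rw [hw']
      push_cast
      have h5 : (1 : ℝ) ≤ (u : ℝ) := by exact_mod_cast hu
      exact le_mul_of_one_le_right (by positivity) h5
    have h5 : (Y ^ (1 / 4 : ℝ)) ^ i ≤ Y ^ K :=
      le_trans (pow_le_pow_left₀ (by positivity) hp4 i) h4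
    rw [← Real.rpow_natCast, ← Real.rpow_mul hY0.le] at h5
    have h6 := (Real.rpow_le_rpow_left_iff hY1).1 h5
    linarith only [h6, Nat.one_le_cast (α := ℝ).2 hi]

private theorem SmV1_pair {D : ℤ} {f : ℕ} {Z : ℝ} {S : Finset (ℤ × ℤ)} (h : PCls Z D f S)
    {w w' : ℤ × ℤ} (hw : w ∈ S) (hw' : w' ∈ S) (he : w.1.natAbs = w'.1.natAbs) : w = w' := by
  have h1 := h.sg w hw w' hw'
  have h2 := h.n1 w hw
  have h3 := h.n1 w' hw'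
  have h4 : w.1 = w'.1 := by omega
  have h5 : w.2 = w'.2 := by rw [h.eq w hw, h.eq w' hw']
  exact Prod.ext h4 h5

private theorem SmV1_lbl {D : ℤ} {f : ℕ} {Z : ℝ} {S : Finset (ℤ × ℤ)} (h : PCls Z D f S)
    {w w' : ℤ × ℤ} (hw : w ∈ S) (hw' : w' ∈ S) {A A' : ℕ} (hA : 1 ≤ A) (hA' : 1 ≤ A')
    (hd : A ∣ w.1.natAbs) (hd' : A' ∣ w'.1.natAbs)
    (he : lbl A (el D w f) = lbl A' (el D w' f)) : A = A' := by
  refine (lbl_inj (el D w f) (el D w' f) hA hA' ?_ ?_ ?_ ?_ he).1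
  · rw [h.norm hw]
    exact Int.natCast_dvd.2 hd
  · rw [h.norm hw']
    exact Int.natCast_dvd.2 hd'
  · exact el_cop (h.sq w hw) (h.eq w hw) (h.cop w hw)
  · exact el_cop (h.sq w' hw') (h.eq w' hw') (h.cop w' hw')

private theorem SmV1_n1 {Y κ τ ε0 q E : ℝ} (hY : 1 ≤ Y) (hτd : τ = κ / 10) (hκ : 0 < κ) (hκ1 : κ ≤ 1 / 100)
    (hκ2 : κ ≤ (3 / 2 + ε0) / 40) (hE0 : 0 ≤ E) (hEp : E ≤ Y ^ (1 / 2 + κ))
    (hM1 : q ≤ 8 / √(Y ^ (2 + ε0))) :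
    1 + q * E ≤ 9 * Y ^ (1 / 4 - 3 * κ - 6 * τ) := by
  have hY0 : 0 < Y := zero_lt_one.trans_le hY
  have hsM : √(Y ^ (2 + ε0)) = Y ^ (1 + ε0 / 2) := by
    rw [Real.sqrt_eq_rpow, ← Real.rpow_mul hY0.le]
    congr 1
    ring
  rw [hsM] at hM1
  have hs0 : 0 < Y ^ (1 + ε0 / 2) := Real.rpow_pos_of_pos hY0 _
  have h2 : q * E ≤ 8 / Y ^ (1 + ε0 / 2) * Y ^ (1 / 2 + κ) :=
    mul_le_mul hM1 hEp hE0 (div_nonneg (Nat.ofNat_nonneg 8) hs0.le)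
  have h3 : 8 / Y ^ (1 + ε0 / 2) * Y ^ (1 / 2 + κ) = 8 * Y ^ (κ - 1 / 2 - ε0 / 2) := by
    rw [div_mul_eq_mul_div, div_eq_iff hs0.ne', mul_assoc, ← Real.rpow_add hY0]
    congr 2
    ring
  have h4 : Y ^ (κ - 1 / 2 - ε0 / 2) ≤ Y ^ (1 / 4 - 3 * κ - 6 * τ) :=
    Real.rpow_le_rpow_of_exponent_le hY (by linarith only [hτd, hκ, hκ2])
  have h5 : 1 ≤ Y ^ (1 / 4 - 3 * κ - 6 * τ) := Real.one_le_rpow hY (by linarith only [hτd, hκ1])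
  linarith only [h2, h3, h4, h5]

private theorem SmV1_n2 {Y κ τ q E r : ℝ} (hY : 1 ≤ Y) (hτd : τ = κ / 10) (hκ1 : κ ≤ 1 / 100)
    (hE1 : 1 ≤ E) (hq : 0 ≤ q) (hsD2 : r ≤ Y ^ ((1 / 4 + κ) / 2)) (hM1 : q ≤ 8 / √(E ^ 2)) :
    r * (1 + q * E) ≤ 9 * Y ^ (1 / 4 - 3 * κ - 6 * τ) := by
  have hY0 : 0 < Y := zero_lt_one.trans_le hY
  have hE0 : 0 < E := zero_lt_one.trans_le hE1
  rw [Real.sqrt_sq hE0.le] at hM1
  have h2 : q * E ≤ 8 := (le_div_iff₀ hE0).1 hM1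
  have h3 : r * (1 + q * E) ≤ Y ^ ((1 / 4 + κ) / 2) * 9 :=
    mul_le_mul hsD2 (by linarith only [h2])
      (add_nonneg zero_le_one (mul_nonneg hq hE0.le)) (Real.rpow_nonneg hY0.le _)
  have h4 : Y ^ ((1 / 4 + κ) / 2) ≤ Y ^ (1 / 4 - 3 * κ - 6 * τ) :=
    Real.rpow_le_rpow_of_exponent_le hY (by linarith only [hτd, hκ1])
  linarith only [h3, h4]

private theorem SmV1_n3 {Y κ τ K ε C1 C2 C3 n n1 n2 lst : ℝ} (hY0 : 0 < Y) (hKε : K * ε = τ)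
    (hC1 : 0 < C1) (hC2 : 0 < C2) (hC3 : 0 < C3)
    (hcard1 : n ≤ C1 * Y ^ (4 * τ) * n1)
    (hcard2 : n1 ≤ C2 * (Y ^ K) ^ ε * Y ^ (1 / 4 + κ) * n2)
    (hll : n2 ≤ C3 * (3 * Y ^ K) ^ ε * lst)
    (hlast : lst ≤ 9 * Y ^ (1 / 4 - 3 * κ - 6 * τ)) :
    n ≤ (C1 * C2 * C3 * 3 ^ ε * 9) * Y ^ (1 / 2 - 2 * κ) := by
  have hKe : (Y ^ K) ^ ε = Y ^ τ := by
    rw [← Real.rpow_mul hY0.le, hKε]
  have h3K : (3 * Y ^ K) ^ ε = 3 ^ ε * Y ^ τ := by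
    rw [Real.mul_rpow (by norm_num) (Real.rpow_nonneg hY0.le _), hKe]
  have hS2card : n2 ≤ C3 * (3 ^ ε * Y ^ τ) * (9 * Y ^ (1 / 4 - 3 * κ - 6 * τ)) := by
    refine hll.trans ?_
    rw [h3K]
    exact mul_le_mul_of_nonneg_left hlast (by positivity)
  rw [hKe] at hcard2
  have hfin : n ≤ C1 * Y ^ (4 * τ) * ((C2 * Y ^ τ * Y ^ (1 / 4 + κ)) *
      (C3 * (3 ^ ε * Y ^ τ) * (9 * Y ^ (1 / 4 - 3 * κ - 6 * τ)))) := by
    refine hcard1.trans (mul_le_mul_of_nonneg_left ?_ (by positivity))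
    exact hcard2.trans (mul_le_mul_of_nonneg_left hS2card (by positivity))
  refine hfin.trans (le_of_eq ?_)
  have hYY : Y ^ (4 * τ) * Y ^ τ * Y ^ (1 / 4 + κ) * Y ^ τ * Y ^ (1 / 4 - 3 * κ - 6 * τ) = Y ^ (1 / 2 - 2 * κ) := by
    rw [← Real.rpow_add hY0, ← Real.rpow_add hY0, ← Real.rpow_add hY0, ← Real.rpow_add hY0]
    congr 1
    ring
  rw [← hYY]
  ring

/-- type `U1` at a fixed member, for maxima above `Y ^ (1/2 + s)`, `s = 3/2 + ε0`.  The same proof as `u1_col`, `τ = κ / 10`; the last factor of `ll_el` is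
`1 + θ E / (f √|D|)`: if the exponent `i0` of `p` is one use `M = Y ^ (2 + ε0)` (there is no factor `√|D|`), else `M = E ^ 2 ≤ p ^ 2 ≤ |w.1|`. -/
theorem v1_col (K ε0 κ : ℝ) (hK : 2 ≤ K) (hκ : 0 < κ) (hκ1 : κ ≤ 1 / 100) (hκ2 : κ ≤ (3 / 2 + ε0) / 40) : ∃ C : ℝ, 1 ≤ C ∧
    ∀ (Y : ℝ) (D : ℤ) (f : ℕ) (S : Finset (ℤ × ℤ)), 1 ≤ Y → Col K ε0 Y D f S → (∀ w ∈ S, U1 Y κ w.swap) →
      (S.card : ℝ) ≤ C * Y ^ (1 / 2 - 2 * κ) := by
  classical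
  have hK0 : (0 : ℝ) < K := lt_of_lt_of_le two_pos hK
  obtain ⟨τ, hτd⟩ : ∃ τ : ℝ, τ = κ / 10 := ⟨_, rfl⟩
  have hτ : 0 < τ := by rw [hτd]; positivity
  obtain ⟨ε, hεd⟩ : ∃ ε : ℝ, ε = τ / K := ⟨_, rfl⟩
  have hε1 : 0 < ε := by rw [hεd]; positivity
  have hKε : K * ε = τ := by rw [hεd]; field_simp
  obtain ⟨C1, hC1, H1⟩ := reduce K ε0 τ hK0 hτ
  obtain ⟨C2, hC2, H2⟩ := sm_label_count ε hε1
  obtain ⟨C3, hC3, H3⟩ := ll_el ε hε1 ⌈8 * K⌉₊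
  have hC1' : 0 < C1 := by linarith only [hC1]
  have hC2' : 0 < C2 := by linarith only [hC2]
  have hC3' : 0 < C3 := by linarith only [hC3]
  have h16 : (0 : ℝ) < 16 ^ K := by positivity
  have h3ε : (0 : ℝ) < 3 ^ ε := by positivity
  refine ⟨(2 * 16 ^ K + 1) + C1 * C2 * C3 * 3 ^ ε * 9, ?_, ?_⟩
  · have : 0 < C1 * C2 * C3 * 3 ^ ε * 9 := by positivity
    linarith only [this, h16]
  intro Y D f S hY hcol hU
  have hY0 : 0 < Y := zero_lt_one.trans_le hY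
  have hC0 : 0 < C1 * C2 * C3 * 3 ^ ε * 9 := by positivity
  have hexp : 1 ≤ Y ^ (1 / 2 - 2 * κ) := Real.one_le_rpow hY (by linarith only [hκ1])
  rcases le_or_gt Y 16 with hs | hbig
  · have h := hcol.small hK0 hY hs
    refine h.trans ?_
    have h4 : 2 * (16 : ℝ) ^ K + 1 ≤ (2 * 16 ^ K + 1) + C1 * C2 * C3 * 3 ^ ε * 9 :=
      le_add_of_nonneg_right hC0.le
    refine h4.trans (le_mul_of_one_le_right (by positivity) hexp)
  rcases S.eq_empty_or_nonempty with hS | hSne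
  · rw [hS, Finset.card_empty, Nat.cast_zero]
    positivity
  -- the factorisation
  have hch : ∀ w : ℤ × ℤ, ∃ p i e a : ℕ, w ∈ S → (p.Prime ∧ 1 ≤ i ∧ Odd a ∧ Odd p ∧
      w.1.natAbs = p ^ i * (2 ^ e * a) ∧ Nat.Coprime a p ∧ (p : ℝ) ≤ Y ^ (1 / 2 + κ) ∧
      (rd a : ℝ) ≤ Y ^ (1 / 4 + κ) ∧ (i : ℝ) ≤ 8 * K) := by
    intro w
    by_cases hw : w ∈ S
    · obtain ⟨p, i, e, a, h⟩ := SmV1_fac hκ1 hbig (hcol.mem w hw) (hU w hw)
      exact ⟨p, i, e, a, fun _ => h⟩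
    · exact ⟨0, 0, 0, 0, fun h => absurd h hw⟩
  choose p i e a hpa using hch
  obtain ⟨S1, hS1, hS1ne, hcard1, hP1, ⟨Q, hQ⟩, ⟨i0, hi0⟩, ⟨E, hE1, hEK, hE⟩⟩ :=
    H1 Y D f S e i p hY hcol hSne (by
      intro w hw
      obtain ⟨h1, h2, h3, h4, h5, h6, h7, h8, h9⟩ := hpa w hw
      have ha1 : 1 ≤ a w := h3.pos
      have h2e : 1 ≤ 2 ^ e w * a w := Nat.mul_pos (by positivity) ha1
      refine ⟨?_, ?_, h1.one_lt.le, ?_⟩
      · rw [h5]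
        exact Dvd.dvd.mul_left (Dvd.intro _ rfl) _
      · rw [h5]
        calc 2 ^ i w ≤ p w ^ i w := Nat.pow_le_pow_left h1.two_le _
          _ ≤ p w ^ i w * (2 ^ e w * a w) := Nat.le_mul_of_pos_right _ h2e
      · rw [h5]
        calc p w ≤ p w ^ i w := Nat.le_self_pow (by omega) _
          _ ≤ p w ^ i w * (2 ^ e w * a w) := Nat.le_mul_of_pos_right _ h2e)
  have hX : (1 : ℝ) ≤ Y ^ (1 / 4 + κ) := Real.one_le_rpow hY (by linarith only [hκ])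
  have himg : (((S1.image (fun w => lbl (a w) (el D w f))).card : ℕ) : ℝ) ≤
      C2 * (Y ^ K) ^ ε * Y ^ (1 / 4 + κ) := by
    refine H2 (Y ^ K) (Y ^ (1 / 4 + κ)) D f S1 a hP1 hX ?_ _ ?_
    · intro w hw
      obtain ⟨h1, h2, h3, h4, h5, h6, h7, h8, h9⟩ := hpa w (hS1 hw)
      refine ⟨h3, ?_, h8⟩
      rw [h5]
      exact Dvd.dvd.mul_left (Dvd.intro_left _ rfl) _
    · intro I hI
      obtain ⟨w, hw, rfl⟩ := Finset.mem_image.1 hI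
      exact ⟨w, hw, rfl⟩
  obtain ⟨S2, hS2, hS2ne, hconst, hcard2⟩ := pig S1 (fun w => lbl (a w) (el D w f)) _ hS1ne himg
  have hP2 := hP1.sub hS2
  obtain ⟨θ, hcls, hM⟩ := hP2.cls hS2ne
  obtain ⟨w0, hw0⟩ := hS2ne
  have hS2S : S2 ⊆ S := hS2.trans hS1
  have hi1 : 1 ≤ i0 := by
    rw [← hi0 w0 (hS2 hw0)]
    exact (hpa w0 (hS2S hw0)).2.1
  have hiL : i0 ≤ ⌈8 * K⌉₊ := by
    rw [← hi0 w0 (hS2 hw0)]
    have h1 := (hpa w0 (hS2S hw0)).2.2.2.2.2.2.2.2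
    exact_mod_cast h1.trans (Nat.le_ceil _)
  have hYK : 1 ≤ Y ^ K := Real.one_le_rpow hY hK0.le
  have hfac : ElFac (3 * Y ^ K) E D i0 S2 (fun w => el D w f) e a (fun _ => 1) p Q := by
    refine ⟨hi1, hE1, by linarith only [hEK, hYK], ?_, ?_, ?_, ?_, ?_, ?_, ?_, ?_, ?_, ?_, ?_⟩
    · intro w hw
      obtain ⟨h1, h2, h3, h4, h5, h6, h7, h8, h9⟩ := hpa w (hS2S hw)
      simp only [hP2.norm hw]
      rw [h5, hi0 w (hS2 hw)]
      ring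
    · exact fun w hw => (hpa w (hS2S hw)).2.2.1
    · exact fun _ _ => odd_one
    · exact fun w hw => (hpa w (hS2S hw)).2.2.2.1
    · exact fun _ _ => Nat.coprime_one_right _
    · exact fun w hw => (hpa w (hS2S hw)).2.2.2.2.2.1
    · exact fun _ _ => Nat.coprime_one_left _
    · exact fun w hw => (hpa w (hS2S hw)).1.prime.squarefree
    · exact fun w hw => (hE w (hS2 hw)).1
    · exact fun w hw => (hE w (hS2 hw)).2
    · exact fun w hw => hQ w (hS2 hw)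
  have hll := H3 (3 * Y ^ K) E θ D f i0 (ℤ × ℤ) S2 (fun w => el D w f) e a (fun _ => 1) p Q
    (lbl (a w0) (el D w0 f)) ⊤ hiL hcls hfac (fun w hw => hconst w hw w0 hw0)
    (fun w _ => lbl_one _) (by
      intro w hw w' hw' hlab
      obtain ⟨h1, h2, h3, h4, h5, h6, h7, h8, h9⟩ := hpa w (hS2S hw)
      obtain ⟨g1, g2, g3, g4, g5, g6, g7, g8, g9⟩ := hpa w' (hS2S hw')
      have d1 : p w ∣ w.1.natAbs := by
        rw [h5]
        exact Dvd.dvd.mul_right (dvd_pow_self _ (by omega)) _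
      have d1' : p w' ∣ w'.1.natAbs := by
        rw [g5]
        exact Dvd.dvd.mul_right (dvd_pow_self _ (by omega)) _
      have d2 : a w ∣ w.1.natAbs := by
        rw [h5]
        exact Dvd.dvd.mul_left (Dvd.intro_left _ rfl) _
      have d2' : a w' ∣ w'.1.natAbs := by
        rw [g5]
        exact Dvd.dvd.mul_left (Dvd.intro_left _ rfl) _
      have d3 : 2 ^ e w ∣ w.1.natAbs := by
        rw [h5]
        exact Dvd.dvd.mul_left (Dvd.intro _ rfl) _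
      have d3' : 2 ^ e w' ∣ w'.1.natAbs := by
        rw [g5]
        exact Dvd.dvd.mul_left (Dvd.intro _ rfl) _
      have k1 := SmV1_lbl hP2 hw hw' h1.one_lt.le g1.one_lt.le d1 d1' hlab
      have k2 := SmV1_lbl hP2 hw hw' h3.pos g3.pos d2 d2' (hconst w hw w' hw')
      have k3 := SmV1_lbl hP2 hw hw' Nat.one_le_two_pow Nat.one_le_two_pow d3 d3'
        ((hQ w (hS2 hw)).trans (hQ w' (hS2 hw')).symm)
      refine SmV1_pair hP2 hw hw' ?_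
      rw [h5, g5, k1, k2, k3, hi0 w (hS2 hw), hi0 w' (hS2 hw')])
  -- numerical part
  have hf1 : (1 : ℝ) ≤ (f : ℝ) := by exact_mod_cast hcol.hf
  have hD1 : (1 : ℝ) ≤ ((|D| : ℤ) : ℝ) := by
    exact_mod_cast Int.one_le_abs hcol.hD.ne_zero
  have hsD : 1 ≤ √((|D| : ℤ) : ℝ) := by
    rw [Real.one_le_sqrt]
    exact hD1
  have hra : (rd w0.2.natAbs : ℝ) ≤ Y ^ (1 / 4 + κ) := (hU w0 (hS2S hw0)).2.1
  have hDle : ((|D| : ℤ) : ℝ) ≤ Y ^ (1 / 4 + κ) :=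
    (D_le_rd hcol.hD hcol.hf (hcol.eq w0 (hS2S hw0))).trans hra
  have hsD2 : √((|D| : ℤ) : ℝ) ≤ Y ^ ((1 / 4 + κ) / 2) := by
    rw [Real.sqrt_le_left (by positivity), ← Real.rpow_natCast, ← Real.rpow_mul hY0.le]
    refine hDle.trans (le_of_eq ?_)
    congr 1
    push_cast
    ring
  have hθ0 := hcls.hθ
  have hEp : E ≤ Y ^ (1 / 2 + κ) :=
    (hE w0 (hS2 hw0)).1.trans ((hpa w0 (hS2S hw0)).2.2.2.2.2.2.1)
  have hmulE : θ * E / ((f : ℝ) * √((|D| : ℤ) : ℝ)) = θ / ((f : ℝ) * √((|D| : ℤ) : ℝ)) * E :=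
    mul_div_right_comm _ _ _
  have hq0 : 0 ≤ θ / ((f : ℝ) * √((|D| : ℤ) : ℝ)) := by positivity
  have hE0 : 0 ≤ E := zero_le_one.trans hE1
  have hlast : (if i0 = 1 then (1 : ℝ) else √((|D| : ℤ) : ℝ)) *
      (1 + θ * E / ((f : ℝ) * √((|D| : ℤ) : ℝ))) ≤ 9 * Y ^ (1 / 4 - 3 * κ - 6 * τ) := by
    rw [hmulE]
    by_cases hi01 : i0 = 1
    · rw [if_pos hi01, one_mul]
      refine SmV1_n1 hY hτd hκ hκ1 hκ2 hE0 hEp (hM (Y ^ (2 + ε0)) (Real.rpow_pos_of_pos hY0 _) ?_)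
      intro w hw
      have h1 := (hcol.mem w (hS2S hw)).2.2.2.2.2.1
      rw [max_comm]
      exact h1
    · rw [if_neg hi01]
      have hi2 : 2 ≤ i0 := by omega
      refine SmV1_n2 hY hτd hκ1 hE1 hq0 hsD2 (hM (E ^ 2) (pow_pos (zero_lt_one.trans_le hE1) 2) ?_)
      intro w hw
      refine le_trans ?_ (le_max_left _ _)
      obtain ⟨h1, h2, h3, h4, h5, h6, h7, h8, h9⟩ := hpa w (hS2S hw)
      have g1 : E ^ 2 ≤ (p w : ℝ) ^ 2 := pow_le_pow_left₀ hE0 (hE w (hS2 hw)).1 2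
      have g2 : p w ^ 2 ≤ w.1.natAbs := by
        have g3 : p w ^ 2 ≤ p w ^ i w := by
          refine Nat.pow_le_pow_right h1.pos ?_
          rw [hi0 w (hS2 hw)]
          exact hi2
        have g4 : 1 ≤ 2 ^ e w * a w := Nat.mul_pos (by positivity) h3.pos
        rw [h5]
        exact g3.trans (Nat.le_mul_of_pos_right _ g4)
      refine g1.trans ?_
      exact_mod_cast g2
  rw [mul_assoc] at hll
  refine (SmV1_n3 hY0 hKε hC1' hC2' hC3' hcard1 hcard2 hll hlast).trans ?_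
  exact mul_le_mul_of_nonneg_right (le_add_of_nonneg_left (by positivity)) (Real.rpow_nonneg hY0.le _)

end Hp

end Pool.Agent.Lib.MP_d8bd92_nt
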