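import Pool.Agent.Lib.MP_d8bd92_nt.Hp.Main
import Pool.Agent.Lib.MP_d8bd92_nt.Hp.Lad2B
import Pool.Agent.Lib.MP_d8bd92_nt.Hp.RkJ

set_option autoImplicit false

/-!
MP_d8bd92_nt, phase 2: pairs of ties, for every `ε0`.
-/

namespace Pool.Agent.Lib.MP_d8bd92_nt

namespace Hp

open Finset Pool.Agent.Lib.Szpiro

/-- `Q σ` has few pairs for some positive `σ` -/
def FewS (K ε0 : ℝ) (Q : ℝ → ℝ → ℤ × ℤ → Prop) : Prop := ∃ σ : ℝ, 0 < σ ∧ Few K ε0 (Q σ)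

theorem fewS_swap (K ε0 : ℝ) (j j' : ℕ) (l : Fin (2 * j) → ℕ) (l' : Fin (2 * j') → ℕ)
    (h : FewS K ε0 (fun σ Y w => IsTie σ j' l' Y w.1 ∧ IsTie σ j l Y w.2)) :
    FewS K ε0 (fun σ Y w => IsTie σ j l Y w.1 ∧ IsTie σ j' l' Y w.2) := by
  obtain ⟨σ, hσ, hF⟩ := h
  exact ⟨σ, hσ, few_mono' K _ _ _ (fun Y w hw => ⟨hw.2, hw.1⟩) (few_swap K _ _ hF)⟩

/-- if the pairs of `Q` are large, the bound for large pairs suffices -/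
theorem few_lift (K ε0 ε1 : ℝ) (Q : ℝ → ℤ × ℤ → Prop) (h : Few K ε1 Q)
    (h2 : ∀ (Y : ℝ) (w : ℤ × ℤ), 1 ≤ Y → w ∈ PairSet K ε0 Y → Q Y w →
      Y ^ (2 + ε1) ≤ max (w.1.natAbs : ℝ) (w.2.natAbs : ℝ)) : Few K ε0 Q := by
  obtain ⟨C, δ, hC, hδ, hb⟩ := h
  refine ⟨C, δ, hC, hδ, fun Y hY P hP => hb Y hY P (fun w hw => ?_)⟩
  obtain ⟨hw1, hw2⟩ := hP w hw
  obtain ⟨a1, a2, a3, a4, a5, a6, a7, a8⟩ := hw1
  exact ⟨⟨a1, a2, a3, a4, a5, h2 Y w hY ⟨a1, a2, a3, a4, a5, a6, a7, a8⟩ hw2, a7, a8⟩, hw2⟩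

theorem T2A_exp (s x μ σ σ0 : ℝ) (hμ : μ ≤ s / (2 * x)) (h : s * σ ≤ σ0) :
    μ / 2 - σ0 ≤ s / (4 * x) - s * σ := by
  have e : s / (4 * x) = s / (2 * x) / 2 := by ring
  rw [e]
  linarith

theorem T2A_quart (x : ℝ) : (1 / (2 * x)) / 2 = 1 / (4 * x) := by ring

theorem T2A_sum {n : ℕ} (l : Fin n → ℕ) : 0 ≤ ∑ i, (l i : ℝ) :=
  Finset.sum_nonneg (fun _ _ => Nat.cast_nonneg _)

theorem T2A_key (σ0 S t : ℝ) (hσ0 : 0 < σ0) (hS : 0 < S) (ht : t ≤ S) : t * (σ0 / S) ≤ σ0 := by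
  have h1 : t * (σ0 / S) ≤ S * (σ0 / S) := mul_le_mul_of_nonneg_right ht (div_pos hσ0 hS).le
  rwa [mul_div_cancel₀ σ0 hS.ne'] at h1

theorem T2A_pack (σ0 a b c : ℝ) (hσ0 : 0 < σ0) (ha : 0 ≤ a) (hb : 0 ≤ b) (hc : 0 ≤ c) :
    ∃ σ : ℝ, 0 < σ ∧ σ ≤ σ0 ∧ a * σ ≤ σ0 ∧ b * σ ≤ σ0 ∧ c * σ ≤ σ0 := by
  have hS : 0 < 1 + a + b + c := by linarith
  have h1 := T2A_key σ0 _ 1 hσ0 hS (by linarith)
  rw [one_mul] at h1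
  exact ⟨σ0 / (1 + a + b + c), div_pos hσ0 hS, h1, T2A_key σ0 _ a hσ0 hS (by linarith),
    T2A_key σ0 _ b hσ0 hS (by linarith), T2A_key σ0 _ c hσ0 hS (by linarith)⟩

theorem T2A_exp2 (σ σ0 x e f d : ℝ) (hσ : 0 ≤ σ) (hx : 0 ≤ x) (hef : e ≤ f) (hf : f ≤ 2 * x)
    (hd : f / (2 * x) ≤ d) (h : (2 * x + 1) * σ ≤ σ0) : σ + e * (1 / (4 * x) + σ) ≤ d / 2 + σ0 := by
  have h0 : 0 ≤ 1 / (4 * x) := div_nonneg zero_le_one (mul_nonneg zero_le_four hx)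
  have h1 : e * (1 / (4 * x) + σ) ≤ f * (1 / (4 * x) + σ) :=
    mul_le_mul_of_nonneg_right hef (add_nonneg h0 hσ)
  have h2 : f * (1 / (4 * x) + σ) = f / (2 * x) / 2 + f * σ := by ring
  have h3 : f * σ ≤ 2 * x * σ := mul_le_mul_of_nonneg_right hf hσ
  have h4 : (2 * x + 1) * σ = 2 * x * σ + σ := by ring
  linarith

/-- size of a pair of ties -/
theorem size_case2 (σ σ0 : ℝ) (hσ : 0 ≤ σ) (j j' : ℕ) (hj : 1 ≤ j) (hj' : 1 ≤ j')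
    (l : Fin (2 * j) → ℕ) (l' : Fin (2 * j') → ℕ) (μ Y : ℝ) (hY : 1 ≤ Y)
    (hμ : μ ≤ (∑ i, (l i : ℝ)) / (2 * j) ∨ μ ≤ (∑ i, (l' i : ℝ)) / (2 * j'))
    (h1 : (∑ i, (l i : ℝ)) * σ ≤ σ0) (h2 : (∑ i, (l' i : ℝ)) * σ ≤ σ0) (w : ℤ × ℤ) (hw1 : w.1 ≠ 0) (hw2 : w.2 ≠ 0)
    (hx : IsTie σ j l Y w.1) (hy : IsTie σ j' l' Y w.2) :
    Y ^ (μ / 2 - σ0) ≤ max (w.1.natAbs : ℝ) (w.2.natAbs : ℝ) := by
  rcases hμ with hμ | hμ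
  · exact le_trans (Real.rpow_le_rpow_of_exponent_le hY (T2A_exp _ _ _ _ _ hμ h1))
      ((tie_size' σ hσ j hj l Y hY w.1 hw1 hx).trans (le_max_left _ _))
  · exact le_trans (Real.rpow_le_rpow_of_exponent_le hY (T2A_exp _ _ _ _ _ hμ h2))
      ((tie_size' σ hσ j' hj' l' Y hY w.2 hw2 hy).trans (le_max_right _ _))

/-- the ladder with `t` of exponent one or two -/
theorem ladder_case2 (K ε0 : ℝ) (hK : 2 ≤ K) (hext : ExtStmt K ε0) (j j' : ℕ) (hj : 2 ≤ j) (hj' : 1 ≤ j')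
    (l : Fin (2 * j) → ℕ) (l' : Fin (2 * j') → ℕ) (hl1 : ∀ i, 1 ≤ l i) (i : Fin (2 * j)) (hi : l i ≤ 2) (μ : ℝ)
    (hμ : μ ≤ (∑ i, (l i : ℝ)) / (2 * j) ∨ μ ≤ (∑ i, (l' i : ℝ)) / (2 * j')) (h : ℕ) (hh1 : 1 ≤ h)
    (hcond : 0 < ((h : ℝ) + 2) / (2 * j) - 1 - max 0 (2 * (h : ℝ) / (2 * j) - μ / 2)) :
    FewS K ε0 (fun σ Y w => IsTie σ j l Y w.1 ∧ IsTie σ j' l' Y w.2) := by
  obtain ⟨σ0, hσ0, hF⟩ := few_ladder2_of K ε0 hK hext j hj l hl1 i hi μ h hh1 hcond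
  obtain ⟨σ, hσ, k1, k2, k3, _⟩ := T2A_pack σ0 _ _ 0 hσ0 (T2A_sum l) (T2A_sum l') le_rfl
  refine ⟨σ, hσ, few_large' K _ _ _ 1 hF ?_⟩
  intro Y w hY hw hq
  exact ⟨tie_mono' _ _ k1 j l Y hY _ hq.1, size_case2 σ σ0 hσ.le j j' (le_trans one_le_two hj) hj'
    l l' μ Y hY hμ k2 k3 w hw.1 hw.2.1 hq.1 hq.2⟩

/-- the fixed factor of a tie -/
theorem T2A_side (σ σ0 : ℝ) (hσ : 0 ≤ σ) (hσ0 : σ ≤ σ0) (j' : ℕ) (l' : Fin (2 * j') → ℕ)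
    (i' : Fin (2 * j')) (k : ℕ) (hlk : l' i' = 2 * k) (d : ℝ)
    (hd : ((univ.filter (fun i => Odd (l' i))).card : ℝ) / (2 * j') ≤ d)
    (hk2 : (2 * (j' : ℝ) + 1) * σ ≤ σ0) (Y : ℝ) (hY : 1 ≤ Y) (y : ℤ) (hw2 : y ≠ 0)
    (hy : IsTie σ j' l' Y y) :
    ∃ (c : ℕ) (y0 : ℤ), c.Prime ∧ y = (c : ℤ) ^ (2 * k) * y0 ∧ IsCoprime (c : ℤ) y0 ∧
        Y ^ ((1 / (2 * j' : ℝ)) / 2 - σ0) ≤ (c : ℝ) ∧ (c : ℝ) ≤ Y ^ ((1 / (2 * j' : ℝ)) / 2 + σ0) ∧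
        SfLe (Y ^ (d / 2 + σ0)) y0 := by
  classical
  obtain ⟨u, p, h1, h2, h3, h4, h5, h6⟩ := hy
  obtain ⟨B, hB⟩ : ∃ B : ℕ, B = u * ∏ i ∈ univ.erase i', p i ^ l' i := ⟨_, rfl⟩
  have hAB : y.natAbs = p i' ^ (2 * k) * B := by
    rw [h1, hB, ← Finset.mul_prod_erase univ (fun i => p i ^ l' i) (Finset.mem_univ i'), hlk,
      Nat.mul_left_comm]
  have hB0 : B ≠ 0 := by
    intro h0
    rw [h0, mul_zero] at hAB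
    exact hw2 (Int.natAbs_eq_zero.mp hAB)
  have hcop : Nat.Coprime (p i') B := by
    rw [hB]
    apply Nat.Coprime.mul_right (h4 i').symm
    apply Nat.Coprime.prod_right
    intro i hi
    apply Nat.Coprime.pow_right
    rw [Nat.coprime_primes (h2 i') (h2 i)]
    intro h0
    exact (Finset.mem_erase.mp hi).1 (h3 h0).symm
  have hsgn : (y.sign * (B : ℤ)).natAbs = B := by
    rw [Int.natAbs_mul, Int.natAbs_natCast, Int.natAbs_sign_of_ne_zero hw2, one_mul]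
  have hy0 : y.sign * (B : ℤ) ≠ 0 := by
    intro h0
    rw [h0] at hsgn
    exact hB0 hsgn.symm
  have hyy : y = ((p i' : ℕ) : ℤ) ^ (2 * k) * (y.sign * (B : ℤ)) := by
    have e1 : ((y.natAbs : ℕ) : ℤ) = ((p i' : ℕ) : ℤ) ^ (2 * k) * (B : ℤ) := by
      rw [hAB, Nat.cast_mul, Nat.cast_pow]
    rw [mul_left_comm, ← e1, Int.sign_mul_natAbs]
  refine ⟨p i', y.sign * B, h2 i', hyy, ?_, ?_, ?_, ?_⟩
  · rw [Int.isCoprime_iff_nat_coprime, hsgn]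
    exact hcop
  · rw [T2A_quart]
    exact le_trans (Real.rpow_le_rpow_of_exponent_le hY (sub_le_sub_left hσ0 _)) (h6 i').1
  · rw [T2A_quart]
    exact le_trans (h6 i').2 (Real.rpow_le_rpow_of_exponent_le hY (add_le_add_right hσ0 _))
  · apply sfLe_prod (univ.erase i') p l' (fun i _ => h2 i) u _ hy0 (hsgn.trans hB) Y σ (1 / (4 * (j' : ℝ)) + σ)
      (lt_of_lt_of_le one_pos hY) h5 (fun i _ => (h6 i).2)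
    apply Real.rpow_le_rpow_of_exponent_le hY
    have h7 : (((univ.erase i').filter (fun i => Odd (l' i))).card : ℝ) ≤ ((univ.filter (fun i => Odd (l' i))).card : ℝ) :=
      Nat.cast_le.2 (Finset.card_le_card (Finset.filter_subset_filter _ (Finset.erase_subset _ _)))
    have h8 : ((univ.filter (fun i => Odd (l' i))).card : ℝ) ≤ 2 * j' := by
      have := Finset.card_filter_le (univ : Finset (Fin (2 * j'))) (fun i => Odd (l' i))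
      rw [Finset.card_univ, Fintype.card_fin] at this
      exact_mod_cast this
    exact T2A_exp2 σ σ0 j' _ _ d hσ (Nat.cast_nonneg _) h7 h8 hd hk2

theorem T2A_inv (x : ℝ) (hx : 1 ≤ x) : 0 < 1 / (2 * x) ∧ 1 / (2 * x) ≤ 1 / 2 :=
  ⟨one_div_pos.2 (by linarith), one_div_le_one_div_of_le two_pos (by linarith)⟩

/-- partial fixing with an even exponent of the fixed side -/
theorem pf_case2 (K ε0 : ℝ) (hK : 2 ≤ K) (hext : ExtStmt K ε0) (j' : ℕ) (hj' : 1 ≤ j')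
    (l : Fin (2 * 1) → ℕ) (l' : Fin (2 * j') → ℕ) (hl1 : ∀ i, 1 ≤ l i) (i : Fin (2 * 1)) (i' : Fin (2 * j')) (k : ℕ)
    (hk : 1 ≤ k) (hlk : l' i' = 2 * k) (d μ : ℝ)
    (hd : ((univ.filter (fun i => Odd (l' i))).card : ℝ) / (2 * j') ≤ d)
    (hμ : μ ≤ (∑ i, (l i : ℝ)) / (2 * (1 : ℕ)) ∨ μ ≤ (∑ i, (l' i : ℝ)) / (2 * j'))
    (hcond : 0 < 1 / 2 + 1 / (2 * j' : ℝ) - (if l i = 1 then 0 else d / 2) - max 0 (1 - (μ - 2 * k * (1 / (2 * j' : ℝ))) / 2)) :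
    FewS K ε0 (fun σ Y w => IsTie σ 1 l Y w.1 ∧ IsTie σ j' l' Y w.2) := by
  have hj1' : (1 : ℝ) ≤ j' := Nat.one_le_cast.2 hj'
  have hd0 : 0 ≤ d := le_trans (div_nonneg (Nat.cast_nonneg _) (mul_nonneg zero_le_two (Nat.cast_nonneg _))) hd
  obtain ⟨i1, i2⟩ := T2A_inv _ hj1'
  obtain ⟨σ0, hσ0, hF⟩ := few_pf_of K ε0 hK hext l hl1 i k hk (1 / (2 * j' : ℝ)) d μ i1 i2 hd0 hcond
  obtain ⟨σ, hσ, k1, k2, k3, k4⟩ := T2A_pack σ0 _ _ (2 * (j' : ℝ) + 1) hσ0 (T2A_sum l) (T2A_sum l')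
    (add_nonneg (mul_nonneg zero_le_two (Nat.cast_nonneg _)) zero_le_one)
  refine ⟨σ, hσ, few_large' K _ _ _ 1 hF ?_⟩
  intro Y w hY hw hq
  exact ⟨tie_mono' _ _ k1 1 l Y hY _ hq.1,
    T2A_side σ σ0 hσ.le k1 j' l' i' k hlk d hd k4 Y hY w.2 hw.2.1 hq.2,
    size_case2 σ σ0 hσ.le 1 j' le_rfl hj' l l' μ Y hY hμ k2 k3 w hw.1 hw.2.1 hq.1 hq.2⟩

/-- very large ties: phase 1 -/
theorem big_case2 (K ε0 : ℝ) (hK : 2 ≤ K) (j j' : ℕ) (hj : 1 ≤ j) (hj' : 1 ≤ j')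
    (l : Fin (2 * j) → ℕ) (l' : Fin (2 * j') → ℕ)
    (hμ : 4 ≤ (∑ i, (l i : ℝ)) / (2 * j) ∨ 4 ≤ (∑ i, (l' i : ℝ)) / (2 * j')) :
    FewS K ε0 (fun σ Y w => IsTie σ j l Y w.1 ∧ IsTie σ j' l' Y w.2) := by
  obtain ⟨e, he, hF⟩ := main_pairs_neg K hK
  obtain ⟨σ, hσ, _, k2, k3, _⟩ := T2A_pack e _ _ 0 he (T2A_sum l) (T2A_sum l') le_rfl
  refine ⟨σ, hσ, few_lift K ε0 (-e) _ (few_mono' K _ _ _ (fun _ _ _ => trivial) hF) ?_⟩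
  intro Y w hY hw hq
  have h1 := size_case2 σ e hσ.le j j' hj hj' l l' 4 Y hY hμ k2 k3 w hw.1 hw.2.1 hq.1 hq.2
  have e1 : (4 : ℝ) / 2 - e = 2 + -e := by ring
  rwa [e1] at h1

end Hp

end Pool.Agent.Lib.MP_d8bd92_nt
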