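import Pool.Agent.Lib.MP_d8bd92_nt.Hp.T2A

set_option autoImplicit false

/-!
MP_d8bd92_nt, phase 2: all pairs of ties.
-/

namespace Pool.Agent.Lib.MP_d8bd92_nt

namespace Hp

open Finset Pool.Agent.Lib.Szpiro

theorem tt_sum (l : Fin (2 * 1) → ℕ) (i i0 : Fin (2 * 1)) (hne : i ≠ i0) : (∑ i, (l i : ℝ)) = l i + l i0 := by
  have e : ∑ i, (l i : ℝ) = l 0 + l 1 := Fin.sum_univ_two _
  rw [e]
  fin_cases i <;> fin_cases i0
  · exact absurd rfl hne
  · rfl
  · exact add_comm _ _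
  · exact absurd rfl hne

/-- fixed side with an even exponent, the other exponent is at least two -/
theorem tt_b (K ε0 : ℝ) (hK : 2 ≤ K) (hext : ExtStmt K ε0) (l l' : Fin (2 * 1) → ℕ) (hl1 : ∀ i, 1 ≤ l i)
    (i' i0 : Fin (2 * 1)) (hne : i' ≠ i0) (hev : Even (l' i')) (h1 : 1 ≤ l' i') (h2 : 2 ≤ l' i0) :
    FewS K ε0 (fun σ Y w => IsTie σ 1 l Y w.1 ∧ IsTie σ 1 l' Y w.2) := by
  obtain ⟨k, hk⟩ := hev
  have hc : ((univ.filter (fun i => Odd (l' i))).card) + 1 ≤ 2 * 1 :=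
    odd_card_lt l' i' (by rw [Nat.not_odd_iff_even]; exact ⟨k, hk⟩)
  have hd : ((univ.filter (fun i => Odd (l' i))).card : ℝ) / (2 * (1 : ℕ)) ≤ 1 / 2 := by
    have : ((univ.filter (fun i => Odd (l' i))).card : ℝ) + 1 ≤ 2 * 1 := by exact_mod_cast hc
    rw [div_le_iff₀ (by norm_num)]
    push_cast
    linarith
  have hsum := tt_sum l' i' i0 hne
  refine pf_case2 K ε0 hK hext 1 le_rfl l l' hl1 0 i' k (by omega) (by omega) _ _ hd (Or.inr le_rfl) ?_
  have h2' : (2 : ℝ) ≤ l' i0 := by exact_mod_cast h2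
  rw [hsum, hk]
  push_cast
  have h6 : max 0 (1 - (((k : ℝ) + k + l' i0) / (2 * 1) - 2 * k * (1 / (2 * 1))) / 2) ≤ 1 / 2 := by
    apply max_le (by norm_num)
    linarith
  split_ifs <;> linarith

/-- fixed side with an even exponent, varying side with an exponent one -/
theorem tt_a (K ε0 : ℝ) (hK : 2 ≤ K) (hext : ExtStmt K ε0) (l l' : Fin (2 * 1) → ℕ) (hl1 : ∀ i, 1 ≤ l i)
    (i : Fin (2 * 1)) (hi : l i = 1) (i' i0 : Fin (2 * 1)) (hne : i' ≠ i0) (hev : Even (l' i')) (h1 : 1 ≤ l' i')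
    (h1' : 1 ≤ l' i0) :
    FewS K ε0 (fun σ Y w => IsTie σ 1 l Y w.1 ∧ IsTie σ 1 l' Y w.2) := by
  obtain ⟨k, hk⟩ := hev
  have hd : ((univ.filter (fun i => Odd (l' i))).card : ℝ) / (2 * (1 : ℕ)) ≤ 1 := by
    rw [div_le_one (by norm_num)]
    exact_mod_cast odd_card_le l'
  have hsum := tt_sum l' i' i0 hne
  refine pf_case2 K ε0 hK hext 1 le_rfl l l' hl1 i i' k (by omega) (by omega) _ _ hd (Or.inr le_rfl) ?_
  have h2' : (1 : ℝ) ≤ l' i0 := by exact_mod_cast h1'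
  rw [hsum, hk, if_pos hi]
  push_cast
  have h6 : max 0 (1 - (((k : ℝ) + k + l' i0) / (2 * 1) - 2 * k * (1 / (2 * 1))) / 2) ≤ 3 / 4 := by
    apply max_le (by norm_num)
    linarith
  linarith

/-- the fixed side has an even exponent -/
theorem tt_even (K ε0 : ℝ) (hK : 2 ≤ K) (hext : ExtStmt K ε0) (hcr : CritStmt K ε0) (l l' : Fin (2 * 1) → ℕ)
    (hl : StrictMono l) (hl' : StrictMono l') (hl1 : ∀ i, 1 ≤ l i) (hl1' : ∀ i, 1 ≤ l' i) (i' : Fin (2 * 1)) (hev : Even (l' i')) :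
    FewS K ε0 (fun σ Y w => IsTie σ 1 l Y w.1 ∧ IsTie σ 1 l' Y w.2) := by
  have h01 : l 0 < l 1 := hl (by decide)
  have h01' : l' 0 < l' 1 := hl' (by decide)
  obtain ⟨i0, hne⟩ : ∃ i0 : Fin (2 * 1), i' ≠ i0 := by
    fin_cases i'
    · exact ⟨1, by decide⟩
    · exact ⟨0, by decide⟩
  by_cases h2 : 2 ≤ l' i0
  · exact tt_b K ε0 hK hext l l' hl1 i' i0 hne hev (hl1' _) h2
  by_cases h1 : ∃ i, l i = 1
  · obtain ⟨i, hi⟩ := h1
    exact tt_a K ε0 hK hext l l' hl1 i hi i' i0 hne hev (hl1' _) (hl1' _)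
  push Not at h1
  have hge : ∀ i, 2 ≤ l i := fun i => by
    have a1 := hl1 i
    have a2 := h1 i
    omega
  by_cases he : ∃ i, Even (l i)
  · obtain ⟨i1, hi1⟩ := he
    obtain ⟨i2, hne2⟩ : ∃ i2 : Fin (2 * 1), i1 ≠ i2 := by
      fin_cases i1
      · exact ⟨1, by decide⟩
      · exact ⟨0, by decide⟩
    exact fewS_swap K ε0 1 1 l l' (tt_b K ε0 hK hext l' l hl1' i1 i2 hne2 hi1 (hl1 _) (hge i2))
  · push Not at he
    have o0 := Nat.not_even_iff_odd.mp (he 0)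
    have o1 := Nat.not_even_iff_odd.mp (he 1)
    have g0 := hge 0
    have hl0' : l' 0 = 1 := by
      have h3 := hl1' i0
      have h4 : l' 0 ≤ l' i0 := hl'.monotone (Fin.zero_le _)
      have h5 := hl1' 0
      omega
    have hcop : Nat.Coprime (l' 0) (l' 1) := by rw [hl0']; exact Nat.coprime_one_left _
    have oo0 := o0
    have oo1 := o1
    rw [Nat.odd_iff] at oo0 oo1
    exact fewS_swap K ε0 1 1 l l' (few_beta_of K ε0 hK hext hcr l' l hl1' h01' hcop o0 o1 h01 (by omega))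

/-- two ties with two primes each -/
theorem few_TT (K ε0 : ℝ) (hK : 2 ≤ K) (hext : ExtStmt K ε0) (hcr : CritStmt K ε0) (l l' : Fin (2 * 1) → ℕ)
    (hl : StrictMono l) (hl' : StrictMono l') (hl1 : ∀ i, 1 ≤ l i) (hl1' : ∀ i, 1 ≤ l' i) :
    FewS K ε0 (fun σ Y w => IsTie σ 1 l Y w.1 ∧ IsTie σ 1 l' Y w.2) := by
  have h01 : l 0 < l 1 := hl (by decide)
  have h01' : l' 0 < l' 1 := hl' (by decide)
  by_cases e' : ∃ i, Even (l' i)
  · obtain ⟨i', hi'⟩ := e'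
    exact tt_even K ε0 hK hext hcr l l' hl hl' hl1 hl1' i' hi'
  by_cases e : ∃ i, Even (l i)
  · obtain ⟨i', hi'⟩ := e
    exact fewS_swap K ε0 1 1 l l' (tt_even K ε0 hK hext hcr l' l hl' hl hl1' hl1 i' hi')
  push Not at e e'
  have o0 := Nat.not_even_iff_odd.mp (e 0)
  have o1 := Nat.not_even_iff_odd.mp (e 1)
  have o0' := Nat.not_even_iff_odd.mp (e' 0)
  have o1' := Nat.not_even_iff_odd.mp (e' 1)
  have p0 := o0
  have p1 := o1
  have p0' := o0'
  have p1' := o1'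
  rw [Nat.odd_iff] at p0 p1 p0' p1'
  by_cases big : 8 ≤ l 0 + l 1
  · refine big_case2 K ε0 hK 1 1 le_rfl le_rfl l l' (Or.inl ?_)
    have e : ∑ i, (l i : ℝ) = l 0 + l 1 := Fin.sum_univ_two _
    rw [e]
    have : (8 : ℝ) ≤ l 0 + l 1 := by exact_mod_cast big
    push_cast
    linarith
  by_cases big' : 8 ≤ l' 0 + l' 1
  · refine big_case2 K ε0 hK 1 1 le_rfl le_rfl l l' (Or.inr ?_)
    have e : ∑ i, (l' i : ℝ) = l' 0 + l' 1 := Fin.sum_univ_two _
    rw [e]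
    have : (8 : ℝ) ≤ l' 0 + l' 1 := by exact_mod_cast big'
    push_cast
    linarith
  have hl0 : l 0 = 1 := by omega
  have hl0' : l' 0 = 1 := by omega
  exact few_rank K ε0 hK l l' hl0 (by omega) hl0' (by omega)

/-- a tie with four primes against a tie with two primes -/
theorem few_TT21 (K ε0 : ℝ) (hK : 2 ≤ K) (hext : ExtStmt K ε0) (l : Fin (2 * 1) → ℕ) (l' : Fin (2 * 2) → ℕ)
    (hl' : StrictMono l') (hl1 : ∀ i, 1 ≤ l i) (hl1' : ∀ i, 1 ≤ l' i) (hs : ∑ i, l' i < 16) :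
    FewS K ε0 (fun σ Y w => IsTie σ 1 l Y w.1 ∧ IsTie σ 2 l' Y w.2) := by
  have e4 : ∑ i, l' i = l' 0 + l' 1 + l' 2 + l' 3 := Fin.sum_univ_four _
  have a1 : l' 0 < l' 1 := hl' (by decide)
  have a2 : l' 1 < l' 2 := hl' (by decide)
  have a3 : l' 2 < l' 3 := hl' (by decide)
  have a0 := hl1' 0
  have hev : ∃ i, Even (l' i) := by
    by_contra h
    push Not at h
    have b0 := Nat.not_even_iff_odd.mp (h 0)
    have b1 := Nat.not_even_iff_odd.mp (h 1)
    have b2 := Nat.not_even_iff_odd.mp (h 2)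
    have b3 := Nat.not_even_iff_odd.mp (h 3)
    rw [Nat.odd_iff] at b0 b1 b2 b3
    omega
  obtain ⟨i', k, hk⟩ := hev
  have hk1 := hl1' i'
  have hc : ((univ.filter (fun i => Odd (l' i))).card) + 1 ≤ 2 * 2 :=
    odd_card_lt l' i' (by rw [Nat.not_odd_iff_even]; exact ⟨k, hk⟩)
  have hd : ((univ.filter (fun i => Odd (l' i))).card : ℝ) / (2 * (2 : ℕ)) ≤ 3 / 4 := by
    have : ((univ.filter (fun i => Odd (l' i))).card : ℝ) + 1 ≤ 2 * 2 := by exact_mod_cast hc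
    rw [div_le_iff₀ (by norm_num)]
    push_cast
    linarith
  refine pf_case2 K ε0 hK hext 2 (by norm_num) l l' hl1 0 i' k (by omega) (by omega) _ _ hd (Or.inr le_rfl) ?_
  have hge : l' i' + 6 ≤ ∑ i, l' i := by
    rw [e4]
    fin_cases i'
    · show l' 0 + 6 ≤ _
      omega
    · show l' 1 + 6 ≤ _
      omega
    · show l' 2 + 6 ≤ _
      omega
    · show l' 3 + 6 ≤ _
      omega
  have hgeR : (l' i' : ℝ) + 6 ≤ ∑ i, (l' i : ℝ) := by exact_mod_cast hge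
  rw [hk] at hgeR
  push_cast at hgeR ⊢
  have h6 : max 0 (1 - ((∑ i, (l' i : ℝ)) / (2 * 2) - 2 * k * (1 / (2 * 2))) / 2) ≤ 1 / 4 := by
    apply max_le (by norm_num)
    linarith
  split_ifs <;> linarith

/-- All pairs of ties, except `{1,2,3,4}` against `{1,2,3,4}` (hypothesis `hQ`). -/
theorem tie_all2_of (K ε0 : ℝ) (hK : 2 ≤ K) (hext : ExtStmt K ε0) (hcr : CritStmt K ε0)
    (hQ : ∀ l l' : Fin (2 * 2) → ℕ, (∀ i, l i = i.val + 1) → (∀ i, l' i = i.val + 1) →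
      FewS K ε0 (fun σ Y w => IsTie σ 2 l Y w.1 ∧ IsTie σ 2 l' Y w.2))
    (j j' : ℕ) (hj : 1 ≤ j) (hj' : 1 ≤ j') (l : Fin (2 * j) → ℕ) (l' : Fin (2 * j') → ℕ) (hl : StrictMono l)
    (hl' : StrictMono l') (hl1 : ∀ i, 1 ≤ l i) (hl1' : ∀ i, 1 ≤ l' i) :
    FewS K ε0 (fun σ Y w => IsTie σ j l Y w.1 ∧ IsTie σ j' l' Y w.2) := by
  have hj0 : (0 : ℝ) < j := by exact_mod_cast hj
  have hj0' : (0 : ℝ) < j' := by exact_mod_cast hj'
  by_cases big : 8 * j ≤ ∑ i, l i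
  · refine big_case2 K ε0 hK j j' hj hj' l l' (Or.inl ?_)
    rw [le_div_iff₀ (by positivity)]
    have : ((8 * j : ℕ) : ℝ) ≤ ((∑ i, l i : ℕ) : ℝ) := by exact_mod_cast big
    push_cast at this
    linarith
  by_cases big' : 8 * j' ≤ ∑ i, l' i
  · refine big_case2 K ε0 hK j j' hj hj' l l' (Or.inr ?_)
    rw [le_div_iff₀ (by positivity)]
    have : ((8 * j' : ℕ) : ℝ) ≤ ((∑ i, l' i : ℕ) : ℝ) := by exact_mod_cast big'
    push_cast at this
    linarith
  have bound : ∀ (m : ℕ) (v : Fin (2 * m) → ℕ), StrictMono v → (∀ i, 1 ≤ v i) → ¬ 8 * m ≤ ∑ i, v i → m ≤ 3 := by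
    intro m v hv hv1 hb
    by_contra hm
    push Not at hm
    have h1 := sum_ge v hv 1 hv1
    have h2 : 2 * m * (2 * m - 1) / 2 = m * (2 * m - 1) := by
      rw [mul_assoc, Nat.mul_div_cancel_left _ (by norm_num)]
    rw [h2] at h1
    have h3 : m * 7 ≤ m * (2 * m - 1) := Nat.mul_le_mul_left _ (by omega)
    omega
  have three : ∀ (m : ℕ) (v : Fin (2 * 3) → ℕ) (v' : Fin (2 * m) → ℕ), 1 ≤ m → StrictMono v → (∀ i, 1 ≤ v i) →
      ¬ 8 * 3 ≤ ∑ i, v i → FewS K ε0 (fun σ Y w => IsTie σ 3 v Y w.1 ∧ IsTie σ m v' Y w.2) := by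
    intro m v v' hm hv hv1 hb
    have h1 := sum_ge v hv 1 hv1
    have h0 : v 0 = 1 := by
      by_contra h
      have h2 : ∀ i, 2 ≤ v i := by
        intro i
        have a1 := hv1 0
        have a2 : v 0 ≤ v i := hv.monotone (Fin.zero_le _)
        omega
      have h3 := sum_ge v hv 2 h2
      omega
    refine ladder_case2 K ε0 hK hext 3 m (by norm_num) hm v v' hv1 0 (by omega) (7 / 2) (Or.inl ?_) 5 (by norm_num) ?_
    · have : ((21 : ℕ) : ℝ) ≤ ((∑ i, v i : ℕ) : ℝ) := by exact_mod_cast (by omega : 21 ≤ ∑ i, v i)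
      push_cast at this
      rw [le_div_iff₀ (by norm_num)]
      push_cast
      linarith
    · norm_num
  have b := bound j l hl hl1 big
  have b' := bound j' l' hl' hl1' big'
  by_cases h3 : j = 3
  · subst h3
    exact three j' l l' hj' hl hl1 big
  by_cases h3' : j' = 3
  · subst h3'
    exact fewS_swap K ε0 j 3 l l' (three j l' l hj hl' hl1' big')
  by_cases h1 : j = 1
  · subst h1
    by_cases h1' : j' = 1
    · subst h1'
      exact few_TT K ε0 hK hext hcr l l' hl hl' hl1 hl1'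
    · obtain rfl : j' = 2 := by omega
      exact few_TT21 K ε0 hK hext l l' hl' hl1 hl1' (by omega)
  obtain rfl : j = 2 := by omega
  by_cases h1' : j' = 1
  · subst h1'
    exact fewS_swap K ε0 2 1 l l' (few_TT21 K ε0 hK hext l' l hl hl1' hl1 (by omega))
  obtain rfl : j' = 2 := by omega
  have first : ∀ v : Fin (2 * 2) → ℕ, StrictMono v → (∀ i, 1 ≤ v i) → ¬ 8 * 2 ≤ ∑ i, v i → v 0 ≤ 2 := by
    intro v hv hv1 hb
    by_contra h
    push Not at h
    have h2 : ∀ i, 3 ≤ v i := by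
      intro i
      have a2 : v 0 ≤ v i := hv.monotone (Fin.zero_le _)
      omega
    have h3 := sum_ge v hv 3 h2
    omega
  have f := first l hl hl1 big
  have s := sum_ge l hl 1 hl1
  have s' := sum_ge l' hl' 1 hl1'
  have ten : ∀ v : Fin (2 * 2) → ℕ, StrictMono v → (∀ i, 1 ≤ v i) → ∑ i, v i ≤ 10 → ∀ i, v i = i.val + 1 := by
    intro v hv hv1 hs i
    have e4 : ∑ i, v i = v 0 + v 1 + v 2 + v 3 := Fin.sum_univ_four _
    have a1 : v 0 < v 1 := hv (by decide)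
    have a2 : v 1 < v 2 := hv (by decide)
    have a3 : v 2 < v 3 := hv (by decide)
    have a0 := hv1 0
    rw [e4] at hs
    fin_cases i
    · show v 0 = 1
      omega
    · show v 1 = 2
      omega
    · show v 2 = 3
      omega
    · show v 3 = 4
      omega
  by_cases g : 11 ≤ ∑ i, l i
  · refine ladder_case2 K ε0 hK hext 2 2 le_rfl (by norm_num) l l' hl1 0 f (11 / 4) (Or.inl ?_) 3 (by norm_num) ?_
    · have : ((11 : ℕ) : ℝ) ≤ ((∑ i, l i : ℕ) : ℝ) := by exact_mod_cast g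
      push_cast at this
      rw [le_div_iff₀ (by norm_num)]
      push_cast
      linarith
    · norm_num
  by_cases g' : 11 ≤ ∑ i, l' i
  · refine ladder_case2 K ε0 hK hext 2 2 le_rfl (by norm_num) l l' hl1 0 f (11 / 4) (Or.inr ?_) 3 (by norm_num) ?_
    · have : ((11 : ℕ) : ℝ) ≤ ((∑ i, l' i : ℕ) : ℝ) := by exact_mod_cast g'
      push_cast at this
      rw [le_div_iff₀ (by norm_num)]
      push_cast
      linarith
    · norm_num
  exact hQ l l' (ten l hl hl1 (by omega)) (ten l' hl' hl1' (by omega))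

end Hp

end Pool.Agent.Lib.MP_d8bd92_nt
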