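import Pool.Agent.Lib.MP_d8bd92_nt.Hp.Preds
import Pool.Agent.Lib.MP_d8bd92_nt.ThB
import Pool.Agent.Lib.MP_d8bd92_nt.CdA

set_option autoImplicit false

/-! Counting ties with two large primes by the dust and the other side. -/

namespace Pool.Agent.Lib.MP_d8bd92_nt

namespace Hp

open Finset Pool.Agent.Lib.Szpiro

/-- integers with small radical -/
theorem card_int_rd_le (σ : ℝ) (hσ : 0 < σ) : ∃ C : ℝ, 1 ≤ C ∧ ∀ (Z : ℕ) (r : ℝ) (T : Finset ℤ), 1 ≤ Z → 0 ≤ r →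
    (∀ y ∈ T, y ≠ 0 ∧ y.natAbs ≤ Z ∧ (rd y.natAbs : ℝ) ≤ r) → (T.card : ℝ) ≤ C * (Z : ℝ) ^ σ * r := by
  classical
  obtain ⟨C, hC1, hC⟩ := card_rd_le σ hσ
  refine ⟨2 * C, by linarith, fun Z r T hZ hr hT => ?_⟩
  have h1 : T.card ≤ 2 * (T.image Int.natAbs).card := by
    apply Finset.card_le_mul_card_image
    intro a ha
    have h2 : T.filter (fun y => Int.natAbs y = a) ⊆ {(a : ℤ), -(a : ℤ)} := by
      intro y hy
      rw [Finset.mem_filter] at hy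
      rw [Finset.mem_insert, Finset.mem_singleton]
      omega
    exact (Finset.card_le_card h2).trans Finset.card_le_two
  have h3 : T.image Int.natAbs ⊆ (Icc 1 Z).filter (fun n => (rd n : ℝ) ≤ r) := by
    intro n hn
    rw [Finset.mem_image] at hn
    obtain ⟨y, hy, rfl⟩ := hn
    obtain ⟨h4, h5, h6⟩ := hT y hy
    rw [Finset.mem_filter, Finset.mem_Icc]
    exact ⟨⟨Nat.one_le_iff_ne_zero.mpr (Int.natAbs_ne_zero.mpr h4), h5⟩, h6⟩
  have h7 := Finset.card_le_card h3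
  have h8 := hC Z r hZ hr
  calc (T.card : ℝ) ≤ 2 * ((T.image Int.natAbs).card : ℝ) := by exact_mod_cast h1
    _ ≤ 2 * (((Icc 1 Z).filter (fun n => (rd n : ℝ) ≤ r)).card : ℝ) := by gcongr
    _ ≤ 2 * (C * (Z : ℝ) ^ σ * r) := by gcongr
    _ = _ := by ring

theorem two_primes_le_rd (n p q : ℕ) (hn : n ≠ 0) (hp : p.Prime) (hq : q.Prime) (hpq : p ≠ q) (hpn : p ∣ n) (hqn : q ∣ n) :
    p * q ≤ rd n := by
  classical
  have h1 : ({p, q} : Finset ℕ) ⊆ n.primeFactors := by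
    intro x hx
    rw [Finset.mem_insert, Finset.mem_singleton] at hx
    rw [Nat.mem_primeFactors]
    rcases hx with rfl | rfl
    · exact ⟨hp, hpn, hn⟩
    · exact ⟨hq, hqn, hn⟩
  have h2 : ∏ x ∈ ({p, q} : Finset ℕ), x = p * q := Finset.prod_pair hpq
  rw [← h2]
  unfold rd
  exact Finset.prod_le_prod_of_subset_of_one_le' h1 fun x hx _ => (Nat.prime_of_mem_primeFactors hx).one_lt.le

theorem tie_count (K ε0 σ : ℝ) (hK : 2 ≤ K) (hσ : 0 < σ) (hσ1 : σ ≤ 1 / 100) (l : Fin (2 * 1) → ℕ) (hl : ∀ i, 1 ≤ l i)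
    (hN : ∃ C : ℝ, 0 < C ∧ ∀ Y : ℝ, 1 ≤ Y → ∀ (y : ℤ) (d : ℕ) (b : Bool) (T : Finset (ℤ × ℤ)),
      (∀ w ∈ T, w ∈ PairSet K ε0 Y ∧ w.2 = y ∧ decide (0 ≤ w.1) = b ∧ ∃ p : Fin (2 * 1) → ℕ,
        w.1.natAbs = d * ∏ i, p i ^ l i ∧ ∀ i, (p i : ℝ) ≤ Y ^ (1 / 4 + σ)) →
      (T.card : ℝ) ≤ C * Y ^ (1 / 20 : ℝ)) :
    Few K ε0 (fun Y w => IsTie σ 1 l Y w.1) := by
  classical
  have hK0 : 0 < K := by linarith
  obtain ⟨C1, hC1, h1⟩ := card_int_rd_le (1 / (100 * K)) (by positivity)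
  obtain ⟨C2, hC2, h2⟩ := card_rd_le (1 / (100 * K)) (by positivity)
  obtain ⟨C3, hC3, h3⟩ := hN
  refine ⟨C3 * (C1 * C2 * 2), 1 / 10, by positivity, by norm_num, fun Y hY P hP => ?_⟩
  have hY0 : 0 < Y := by linarith
  have hch : ∀ w ∈ P, ∃ d : ℕ, (rd d : ℝ) ≤ Y ^ σ ∧ d ≠ 0 ∧ d ≤ w.1.natAbs ∧ (∃ p : Fin (2 * 1) → ℕ,
        w.1.natAbs = d * ∏ i, p i ^ l i ∧ ∀ i, (p i : ℝ) ≤ Y ^ (1 / 4 + σ)) ∧ Y ^ (1 / 2 - 2 * σ) ≤ (rd w.1.natAbs : ℝ) := by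
    intro w hw
    obtain ⟨hw1, d, p, a1, a2, a3, a4, a5, a6⟩ := hP w hw
    have hx0 : w.1.natAbs ≠ 0 := Int.natAbs_ne_zero.mpr hw1.1
    have hd0 : d ≠ 0 := by
      rintro rfl
      rw [zero_mul] at a1
      exact hx0 a1
    have hdv : ∀ i, p i ∣ w.1.natAbs := by
      intro i
      rw [a1]
      apply Dvd.dvd.mul_left
      exact (dvd_pow_self (p i) (by have := hl i; omega)).trans (Finset.dvd_prod_of_mem (fun i => p i ^ l i) (Finset.mem_univ i))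
    have hne : p 0 ≠ p 1 := fun h => by
      have := a3 h
      exact absurd this (by decide)
    have h5 := two_primes_le_rd w.1.natAbs (p 0) (p 1) hx0 (a2 0) (a2 1) hne (hdv 0) (hdv 1)
    have e4 : (1 : ℝ) / (4 * ((1 : ℕ) : ℝ)) = 1 / 4 := by norm_num
    rw [e4] at a6
    refine ⟨d, a5, hd0, ?_, ⟨p, a1, fun i => (a6 i).2⟩, ?_⟩
    · exact Nat.le_of_dvd (Nat.pos_of_ne_zero hx0) ⟨_, a1⟩
    · calc Y ^ (1 / 2 - 2 * σ) = Y ^ (1 / 4 - σ) * Y ^ (1 / 4 - σ) := by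
            rw [← Real.rpow_add hY0]; congr 1; ring
        _ ≤ (p 0 : ℝ) * (p 1 : ℝ) := by
            gcongr
            · exact (a6 0).1
            · exact (a6 1).1
        _ ≤ _ := by exact_mod_cast h5
  choose! d hd using hch
  set φ : ℤ × ℤ → (ℤ × ℕ) × Bool := fun w => ((w.2, d w), decide (0 ≤ w.1)) with hφ
  set Z : ℕ := ⌊Y ^ K⌋₊ with hZ
  have hYK : 1 ≤ Y ^ K := Real.one_le_rpow hY hK0.le
  have hZ1 : 1 ≤ Z := Nat.le_floor (by simpa using hYK)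
  have hZr : (Z : ℝ) ^ (1 / (100 * K)) ≤ Y ^ (1 / 100 : ℝ) := by
    calc (Z : ℝ) ^ (1 / (100 * K)) ≤ (Y ^ K) ^ (1 / (100 * K)) :=
          Real.rpow_le_rpow (by positivity) (Nat.floor_le (by positivity)) (by positivity)
      _ = Y ^ (1 / 100 : ℝ) := by
          rw [← Real.rpow_mul hY0.le]
          congr 1
          field_simp
  -- the other sides
  have hy : ((P.image Prod.snd).card : ℝ) ≤ C1 * Y ^ (1 / 100 : ℝ) * Y ^ (1 / 2 + 2 * σ) := by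
    have h6 := h1 Z (Y ^ (1 / 2 + 2 * σ)) (P.image Prod.snd) hZ1 (by positivity) (by
      intro y hy
      rw [Finset.mem_image] at hy
      obtain ⟨w, hw, rfl⟩ := hy
      obtain ⟨a1, a2, _, _, a5, _, _, a8⟩ := (hP w hw).1
      refine ⟨a2, Nat.le_floor a8, ?_⟩
      have h7 := (hd w hw).2.2.2.2
      have h8 : (0 : ℝ) < Y ^ (1 / 2 - 2 * σ) := by positivity
      have h9 : Y ^ (1 / 2 - 2 * σ) * (rd w.2.natAbs : ℝ) ≤ Y :=
        le_trans (mul_le_mul_of_nonneg_right h7 (by positivity)) a5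
      have h10 : Y ^ (1 / 2 - 2 * σ) * Y ^ (1 / 2 + 2 * σ) = Y := by
        rw [← Real.rpow_add hY0]
        have : (1 / 2 - 2 * σ + (1 / 2 + 2 * σ) : ℝ) = 1 := by ring
        rw [this, Real.rpow_one]
      exact le_of_mul_le_mul_left (h9.trans_eq h10.symm) h8)
    refine h6.trans ?_
    gcongr
  -- the dust
  have hds : ((P.image d).card : ℝ) ≤ C2 * Y ^ (1 / 100 : ℝ) * Y ^ σ := by
    have h6 := h2 Z (Y ^ σ) hZ1 (by positivity)
    have h7 : P.image d ⊆ (Icc 1 Z).filter (fun n => (rd n : ℝ) ≤ Y ^ σ) := by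
      intro n hn
      rw [Finset.mem_image] at hn
      obtain ⟨w, hw, rfl⟩ := hn
      obtain ⟨a1, a2, _, _, a5, _, a7, _⟩ := (hP w hw).1
      obtain ⟨b1, b2, b3, _, _⟩ := hd w hw
      rw [Finset.mem_filter, Finset.mem_Icc]
      exact ⟨⟨Nat.one_le_iff_ne_zero.mpr b2, b3.trans (Nat.le_floor a7)⟩, b1⟩
    have h8 := Finset.card_le_card h7
    calc ((P.image d).card : ℝ) ≤ (((Icc 1 Z).filter (fun n => (rd n : ℝ) ≤ Y ^ σ)).card : ℝ) := by exact_mod_cast h8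
      _ ≤ _ := h6
      _ ≤ _ := by gcongr
  -- fibres
  have hfib : P.card ≤ ⌊C3 * Y ^ (1 / 20 : ℝ)⌋₊ * (P.image φ).card := by
    apply Finset.card_le_mul_card_image
    intro a ha
    apply Nat.le_floor
    apply h3 Y hY a.1.1 a.1.2 a.2
    intro w hw
    rw [Finset.mem_filter] at hw
    obtain ⟨hw1, hw2⟩ := hw
    have e1 : w.2 = a.1.1 := by rw [← hw2]
    have e2 : d w = a.1.2 := by rw [← hw2]
    have e3 : decide (0 ≤ w.1) = a.2 := by rw [← hw2]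
    refine ⟨(hP w hw1).1, e1, e3, ?_⟩
    rw [← e2]
    exact (hd w hw1).2.2.2.1
  have himg : (P.image φ).card ≤ (P.image Prod.snd).card * (P.image d).card * 2 := by
    have h6 : P.image φ ⊆ ((P.image Prod.snd) ×ˢ (P.image d)) ×ˢ (univ : Finset Bool) := by
      intro a ha
      rw [Finset.mem_image] at ha
      obtain ⟨w, hw, rfl⟩ := ha
      rw [Finset.mem_product, Finset.mem_product]
      exact ⟨⟨Finset.mem_image_of_mem _ hw, Finset.mem_image_of_mem _ hw⟩, Finset.mem_univ _⟩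
    have h7 := Finset.card_le_card h6
    rw [Finset.card_product, Finset.card_product] at h7
    simpa using h7
  calc (P.card : ℝ) ≤ (⌊C3 * Y ^ (1 / 20 : ℝ)⌋₊ : ℝ) * ((P.image φ).card : ℝ) := by exact_mod_cast hfib
    _ ≤ (C3 * Y ^ (1 / 20 : ℝ)) * (((P.image Prod.snd).card : ℝ) * ((P.image d).card : ℝ) * 2) := by
        gcongr
        · exact Nat.floor_le (by positivity)
        · exact_mod_cast himg
    _ ≤ (C3 * Y ^ (1 / 20 : ℝ)) * ((C1 * Y ^ (1 / 100 : ℝ) * Y ^ (1 / 2 + 2 * σ)) * (C2 * Y ^ (1 / 100 : ℝ) * Y ^ σ) * 2) := by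
        gcongr
    _ = C3 * (C1 * C2 * 2) * (Y ^ (1 / 20 : ℝ) * Y ^ (1 / 100 : ℝ) * Y ^ (1 / 2 + 2 * σ) * Y ^ (1 / 100 : ℝ) * Y ^ σ) := by ring
    _ = C3 * (C1 * C2 * 2) * Y ^ (1 / 20 + 1 / 100 + (1 / 2 + 2 * σ) + 1 / 100 + σ) := by
        rw [← Real.rpow_add hY0, ← Real.rpow_add hY0, ← Real.rpow_add hY0, ← Real.rpow_add hY0]
    _ ≤ C3 * (C1 * C2 * 2) * Y ^ (3 / 4 - 1 / 10 : ℝ) := by
        gcongr
        linarith

end Hp

end Pool.Agent.Lib.MP_d8bd92_nt
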