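import Pool.Agent.Lib.MP_d8bd92_nt.Hp.WDefs

set_option autoImplicit false

/-!
MP_d8bd92_nt, block WALK, file WB.
-/

namespace Pool.Agent.Lib.MP_d8bd92_nt

namespace Hp

open Finset

open scoped Classical in
private theorem wb_cand {ι α : Type} (S : Finset ι) (L : ι → α) (bad : ι → ι → Prop) (h : ℕ) (d : ℝ) (hd : 0 ≤ d)
    (deg : ∀ e ∈ S, d ≤ ((S.filter (fun e' => L e' = L e)).card : ℝ))
    (badL : ∀ e ∈ S, ∀ e1 ∈ S, ((S.filter (fun e' => L e' = L e ∧ bad e' e1)).card : ℝ) ≤ d / (2 * h))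
    (n : ℕ) (hn : n + 1 ≤ h) (w : Fin (n + 1) → ι) (hw : ∀ i, w i ∈ S) :
    d / 2 ≤ ((S.filter (fun e' => L e' = L (w (Fin.last n)) ∧ ∀ i, ¬ bad e' (w i))).card : ℝ) := by
  have hsub : S.filter (fun e' => L e' = L (w (Fin.last n))) ⊆
      S.filter (fun e' => L e' = L (w (Fin.last n)) ∧ ∀ i, ¬ bad e' (w i)) ∪
      (Finset.univ : Finset (Fin (n + 1))).biUnion
        (fun i => S.filter (fun e' => L e' = L (w (Fin.last n)) ∧ bad e' (w i))) := by
    intro e he
    rw [Finset.mem_filter] at he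
    by_cases hb : ∀ i, ¬ bad e (w i)
    · exact Finset.mem_union_left _ (Finset.mem_filter.mpr ⟨he.1, he.2, hb⟩)
    · push Not at hb
      obtain ⟨i, hi⟩ := hb
      exact Finset.mem_union_right _ (Finset.mem_biUnion.mpr ⟨i, Finset.mem_univ _, Finset.mem_filter.mpr ⟨he.1, he.2, hi⟩⟩)
  have h1 := (Finset.card_le_card hsub).trans (Finset.card_union_le _ _)
  have h2 := h1.trans (Nat.add_le_add_left Finset.card_biUnion_le _)
  have h3 : ((S.filter (fun e' => L e' = L (w (Fin.last n)))).card : ℝ) ≤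
      ((S.filter (fun e' => L e' = L (w (Fin.last n)) ∧ ∀ i, ¬ bad e' (w i))).card : ℝ) +
      ∑ i : Fin (n + 1), ((S.filter (fun e' => L e' = L (w (Fin.last n)) ∧ bad e' (w i))).card : ℝ) := by
    exact_mod_cast h2
  have h4 : ∑ i : Fin (n + 1), ((S.filter (fun e' => L e' = L (w (Fin.last n)) ∧ bad e' (w i))).card : ℝ)
      ≤ ∑ _i : Fin (n + 1), d / (2 * h) :=
    Finset.sum_le_sum (fun i _ => badL _ (hw _) _ (hw i))
  have h5 : ∑ _i : Fin (n + 1), d / (2 * (h : ℝ)) = ((n : ℝ) + 1) * (d / (2 * h)) := by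
    rw [Finset.sum_const, Finset.card_univ, Fintype.card_fin, nsmul_eq_mul]
    push_cast
    ring
  have hh0 : (0 : ℝ) < (h : ℝ) := by exact_mod_cast (by omega : 0 < h)
  have hnh : (n : ℝ) + 1 ≤ (h : ℝ) := by exact_mod_cast hn
  have h6 : ((n : ℝ) + 1) * (d / (2 * h)) ≤ d / 2 := by
    have h7 : (0 : ℝ) ≤ d / (2 * h) := by positivity
    calc ((n : ℝ) + 1) * (d / (2 * h)) ≤ (h : ℝ) * (d / (2 * h)) := mul_le_mul_of_nonneg_right hnh h7
      _ = d / 2 := by field_simp
  have h8 := deg _ (hw (Fin.last n))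
  linarith

open scoped Classical in
private theorem wb_card {ι : Type} {n : ℕ} (T : Finset (Fin (n + 1) → ι)) (cand : (Fin (n + 1) → ι) → Finset ι) (K : ℝ)
    (hK : ∀ w ∈ T, K ≤ ((cand w).card : ℝ)) :
    ∃ T' : Finset (Fin (n + 2) → ι), (∀ v ∈ T', ∃ w ∈ T, ∃ e ∈ cand w, v = Fin.snoc (α := fun _ => ι) w e) ∧
      (T.card : ℝ) * K ≤ (T'.card : ℝ) := by
  let f : (Σ _ : (Fin (n + 1) → ι), ι) → (Fin (n + 2) → ι) := fun p => Fin.snoc (α := fun _ => ι) p.1 p.2
  have hf : Function.Injective f := by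
    rintro ⟨w, e⟩ ⟨w', e'⟩ hh
    have h2 : (Fin.snoc (α := fun _ => ι) w e : Fin (n + 2) → ι) = Fin.snoc (α := fun _ => ι) w' e' := hh
    obtain ⟨h3, h4⟩ := Fin.snoc_injective2 (α := fun _ => ι) h2
    subst h3
    subst h4
    rfl
  refine ⟨(T.sigma cand).image f, ?_, ?_⟩
  · intro v hv
    rw [Finset.mem_image] at hv
    obtain ⟨⟨w, e⟩, hp, rfl⟩ := hv
    rw [Finset.mem_sigma] at hp
    exact ⟨w, hp.1, e, hp.2, rfl⟩
  · rw [Finset.card_image_of_injective _ hf, Finset.card_sigma]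
    push_cast
    calc (T.card : ℝ) * K = ∑ _w ∈ T, K := by rw [Finset.sum_const, nsmul_eq_mul]
      _ ≤ ∑ w ∈ T, ((cand w).card : ℝ) := Finset.sum_le_sum hK

private theorem wb_walk {ι α : Type} (S : Finset ι) (A B : ι → α) (v0 : α) (n : ℕ) (w : Fin (n + 1) → ι) (e : ι)
    (hw : IsWalk S A B v0 n w) (he : e ∈ S)
    (hl : if Even n then B (w (Fin.last n)) = B e else A (w (Fin.last n)) = A e) :
    IsWalk S A B v0 (n + 1) (Fin.snoc (α := fun _ => ι) w e) := by
  refine ⟨?_, ?_, ?_⟩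
  · intro i
    refine Fin.lastCases ?_ ?_ i
    · rw [Fin.snoc_last]; exact he
    · intro j; rw [Fin.snoc_castSucc]; exact hw.mem j
  · have h0 : (0 : Fin (n + 1 + 1)) = Fin.castSucc (0 : Fin (n + 1)) := rfl
    rw [h0, Fin.snoc_castSucc]
    exact hw.start
  · intro i
    refine Fin.lastCases ?_ ?_ i
    · rw [Fin.snoc_castSucc, Fin.succ_last, Fin.snoc_last, Fin.val_last]
      exact hl
    · intro j
      rw [Fin.snoc_castSucc, Fin.succ_castSucc, Fin.snoc_castSucc, Fin.val_castSucc]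
      exact hw.step j

private theorem wb_bad {ι : Type} (bad : ι → ι → Prop) (n : ℕ) (w : Fin (n + 1) → ι) (e : ι)
    (hw : ∀ i j : Fin (n + 1), i < j → ¬ bad (w j) (w i)) (he : ∀ i, ¬ bad e (w i)) :
    ∀ i j : Fin (n + 2), i < j →
      ¬ bad (Fin.snoc (α := fun _ => ι) w e j) (Fin.snoc (α := fun _ => ι) w e i) := by
  intro i j
  refine Fin.lastCases ?_ ?_ j
  · refine Fin.lastCases ?_ ?_ i
    · intro h; exact absurd h (lt_irrefl _)
    · intro i' _
      rw [Fin.snoc_castSucc, Fin.snoc_last]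
      exact he i'
  · intro j'
    refine Fin.lastCases ?_ ?_ i
    · intro h
      exact absurd h (not_lt.mpr (Fin.le_last _))
    · intro i' h
      rw [Fin.snoc_castSucc, Fin.snoc_castSucc]
      exact hw i' j' (Fin.castSucc_lt_castSucc_iff.mp h)

open scoped Classical in
/-- Row hpWB.  Greedy count of walks.  Induction on `n`.  `n = 0`: all `e ∈ S` with `A e = A e0` (at least `dA ≥ dA / 2`).
Step: a walk `w` with `n + 1` elements, last element `e`; if `n` is even the new element shares the `B`-label: at least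
`dB` candidates, at most `(n + 1) dB / (2 h) ≤ dB / 2` of them are bad for one of the `w i` (here `n + 2 ≤ h`); use `Fin.snoc`. -/
theorem greedy {ι α : Type} (S : Finset ι) (A B : ι → α) (bad : ι → ι → Prop) (h : ℕ) (dA dB : ℝ) (hdA : 0 ≤ dA)
    (hdB : 0 ≤ dB) (e0 : ι) (he0 : e0 ∈ S)
    (degA : ∀ e ∈ S, dA ≤ ((S.filter (fun e' => A e' = A e)).card : ℝ))
    (degB : ∀ e ∈ S, dB ≤ ((S.filter (fun e' => B e' = B e)).card : ℝ))
    (badA : ∀ e ∈ S, ∀ e1 ∈ S, ((S.filter (fun e' => A e' = A e ∧ bad e' e1)).card : ℝ) ≤ dA / (2 * h))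
    (badB : ∀ e ∈ S, ∀ e1 ∈ S, ((S.filter (fun e' => B e' = B e ∧ bad e' e1)).card : ℝ) ≤ dB / (2 * h))
    (n : ℕ) (hn : n + 1 ≤ h) :
    ∃ T : Finset (Fin (n + 1) → ι), (∀ w ∈ T, IsWalk S A B (A e0) n w ∧
      ∀ i j : Fin (n + 1), i < j → ¬ bad (w j) (w i)) ∧
      (dA / 2) ^ ((n + 2) / 2) * (dB / 2) ^ ((n + 1) / 2) ≤ (T.card : ℝ) := by
  induction n with
  | zero =>
    let f : ι → (Fin (0 + 1) → ι) := fun e _ => e
    have hf : Function.Injective f := fun e e' hh => congrFun hh 0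
    refine ⟨(S.filter (fun e' => A e' = A e0)).image f, ?_, ?_⟩
    · intro w hw
      rw [Finset.mem_image] at hw
      obtain ⟨e, he, rfl⟩ := hw
      rw [Finset.mem_filter] at he
      refine ⟨⟨fun _ => he.1, he.2, fun i => i.elim0⟩, ?_⟩
      intro i j hij
      have hi := i.isLt
      have hj := j.isLt
      have hij' : (i : ℕ) < (j : ℕ) := hij
      omega
    · rw [Finset.card_image_of_injective _ hf]
      have h1 := degA e0 he0
      norm_num
      linarith
  | succ n ih =>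
    obtain ⟨T, hT, hc⟩ := ih (by omega)
    by_cases hev : Even n
    · obtain ⟨T', hT', hc'⟩ := wb_card T
        (fun w => S.filter (fun e' => B e' = B (w (Fin.last n)) ∧ ∀ i, ¬ bad e' (w i))) (dB / 2)
        (fun w hw => wb_cand S B bad h dB hdB degB badB n (by omega) w (hT w hw).1.mem)
      refine ⟨T', ?_, ?_⟩
      · intro v hv
        obtain ⟨w, hw, e, he, rfl⟩ := hT' v hv
        rw [Finset.mem_filter] at he
        refine ⟨wb_walk S A B (A e0) n w e (hT w hw).1 he.1 ?_, wb_bad bad n w e (hT w hw).2 he.2.2⟩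
        rw [if_pos hev]
        exact he.2.1.symm
      · obtain ⟨k, hk⟩ := hev
        have e1 : (n + 1 + 2) / 2 = k + 1 := by omega
        have e2 : (n + 1 + 1) / 2 = k + 1 := by omega
        have e3 : (n + 2) / 2 = k + 1 := by omega
        have e4 : (n + 1) / 2 = k := by omega
        rw [e3, e4] at hc
        rw [e1, e2, pow_succ (dB / 2) k, ← mul_assoc]
        exact (mul_le_mul_of_nonneg_right hc (by linarith)).trans hc'
    · obtain ⟨T', hT', hc'⟩ := wb_card T
        (fun w => S.filter (fun e' => A e' = A (w (Fin.last n)) ∧ ∀ i, ¬ bad e' (w i))) (dA / 2)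
        (fun w hw => wb_cand S A bad h dA hdA degA badA n (by omega) w (hT w hw).1.mem)
      refine ⟨T', ?_, ?_⟩
      · intro v hv
        obtain ⟨w, hw, e, he, rfl⟩ := hT' v hv
        rw [Finset.mem_filter] at he
        refine ⟨wb_walk S A B (A e0) n w e (hT w hw).1 he.1 ?_, wb_bad bad n w e (hT w hw).2 he.2.2⟩
        rw [if_neg hev]
        exact he.2.1.symm
      · rw [Nat.not_even_iff_odd] at hev
        obtain ⟨k, hk⟩ := hev
        have e1 : (n + 1 + 2) / 2 = k + 1 + 1 := by omega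
        have e2 : (n + 1 + 1) / 2 = k + 1 := by omega
        have e3 : (n + 2) / 2 = k + 1 := by omega
        have e4 : (n + 1) / 2 = k + 1 := by omega
        rw [e3, e4] at hc
        rw [e1, e2, pow_succ (dA / 2) (k + 1)]
        have h9 := (mul_le_mul_of_nonneg_right hc (by linarith : 0 ≤ dA / 2)).trans hc'
        calc (dA / 2) ^ (k + 1) * (dA / 2) * (dB / 2) ^ (k + 1)
            = (dA / 2) ^ (k + 1) * (dB / 2) ^ (k + 1) * (dA / 2) := by ring
          _ ≤ _ := h9

end Hp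

end Pool.Agent.Lib.MP_d8bd92_nt
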