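import Pool.Agent.Lib.MP_d8bd92_nt.Hp.WDefs

set_option autoImplicit false

/-!
MP_d8bd92_nt, block WALK, file WC.
-/

namespace Pool.Agent.Lib.MP_d8bd92_nt

namespace Hp

open Finset

theorem wc_span_cje {D : ℤ} (i : ℕ) (z : ℤ√D) : Ideal.span {cje i z} = cji i (Ideal.span {z}) := by
  unfold cje cji
  split_ifs
  · rfl
  · rw [cj_span_singleton]

theorem wc_cji_mul {D : ℤ} (i : ℕ) (I J : Ideal (ℤ√D)) : cji i (I * J) = cji i I * cji i J := by
  unfold cji
  split_ifs
  · rfl
  · rw [cj_mul]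

theorem wc_cji_pow {D : ℤ} (i : ℕ) (I : Ideal (ℤ√D)) (l : ℕ) : cji i (I ^ l) = cji i I ^ l := by
  unfold cji
  split_ifs
  · rfl
  · rw [cj_pow]

theorem wc_cji_nat {D : ℤ} (i : ℕ) (a : ℕ) :
    cji i (Ideal.span {(a : ℤ√D)}) = Ideal.span {(a : ℤ√D)} := by
  unfold cji
  split_ifs
  · rfl
  · rw [cj_span_natCast]

/-- Row hpWC.  The ideal of the alternating product.  Induction on `n`.  `n = 0` is `fac`.  Step `n → n + 1`: if `n` is even the
end label of the old walk is `B (w n)` and the new element has `B (w (n+1)) = B (w n)`: `B * cj B = span {nB}` goes into `σ`,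
the new end label is `cj (A (w (n+1)))`; if `n` is odd: `cj (A (w n)) * A (w (n+1)) = span {nA}`. Use `cj_mul`, `cj_pow`,
`cj_span_natCast`, `Fin.prod_univ_castSucc`, and that conjugation is multiplicative (`star` on the elements). -/
theorem walk_product {ι : Type} {D : ℤ} {S : Finset ι} {Ω : ι → ℤ√D} {t s : ι → ℕ} {r : ι → ℤ} {q : Ideal (ℤ√D)}
    {A B : ι → Ideal (ℤ√D)} {nA nB : ι → ℕ} {l : ℕ}
    (s_pos : ∀ e ∈ S, 1 ≤ s e)
    (cA : ∀ e ∈ S, 1 ≤ nA e ∧ A e * cj (A e) = Ideal.span {(nA e : ℤ√D)})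
    (cB : ∀ e ∈ S, 1 ≤ nB e ∧ B e * cj (B e) = Ideal.span {(nB e : ℤ√D)})
    (fac : ∀ e ∈ S, Ideal.span {Ω e} = Ideal.span {(s e : ℤ√D)} * q * A e * B e * idl D (t e) (r e) ^ l)
    {v0 : Ideal (ℤ√D)} (n : ℕ) (w : Fin (n + 1) → ι) (hw : IsWalk S A B v0 n w) :
    ∃ σ : ℕ, 1 ≤ σ ∧ Ideal.span {∏ i : Fin (n + 1), cje (i : ℕ) (Ω (w i))} =
      Ideal.span {(σ : ℤ√D)} * ((∏ i : Fin (n + 1), cji (i : ℕ) q) * v0 *
        cji n (if Even n then B (w (Fin.last n)) else A (w (Fin.last n)))) *
        (∏ i : Fin (n + 1), cji (i : ℕ) (idl D (t (w i)) (r (w i)))) ^ l := by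
  induction n with
  | zero =>
    refine ⟨s (w 0), s_pos _ (hw.mem 0), ?_⟩
    have h1 := fac _ (hw.mem 0)
    have h2 := hw.start
    simp only [Nat.reduceAdd, Finset.univ_unique, Fin.default_eq_zero, Fin.isValue, Finset.prod_singleton,
      Fin.val_eq_zero]
    have hl : (Fin.last 0 : Fin (0 + 1)) = 0 := rfl
    have he : ∀ z : ℤ√D, cje 0 z = z := fun z => by simp [cje]
    have hi : ∀ z : Ideal (ℤ√D), cji 0 z = z := fun z => by simp [cji]
    rw [hl]
    simp only [he, hi, Even.zero, if_true]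
    rw [h1, h2]
    ring
  | succ n ih =>
    have hw' : IsWalk S A B v0 n (fun i : Fin (n + 1) => w i.castSucc) :=
      { mem := fun i => hw.mem _
        start := by
          have := hw.start
          simpa using this
        step := fun i => by
          have h := hw.step i.castSucc
          simpa using h }
    obtain ⟨σ, hσ, hE⟩ := ih _ hw'
    have hstep := hw.step (Fin.last n)
    set e : ι := w (Fin.last (n + 1)) with he
    have hmem : e ∈ S := hw.mem _
    have hlast : (Fin.last n).succ = Fin.last (n + 1) := Fin.succ_last n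
    rw [hlast, ← he] at hstep
    have h1 : (∏ i : Fin (n + 1 + 1), cje (i : ℕ) (Ω (w i))) =
        (∏ i : Fin (n + 1), cje (i : ℕ) (Ω (w i.castSucc))) * cje (n + 1) (Ω e) :=
      Fin.prod_univ_castSucc (fun i : Fin (n + 1 + 1) => cje (i : ℕ) (Ω (w i)))
    have h2 : (∏ i : Fin (n + 1 + 1), cji (i : ℕ) q) =
        (∏ i : Fin (n + 1), cji (i : ℕ) q) * cji (n + 1) q :=
      Fin.prod_univ_castSucc (fun i : Fin (n + 1 + 1) => cji (i : ℕ) q)
    have h3 : (∏ i : Fin (n + 1 + 1), cji (i : ℕ) (idl D (t (w i)) (r (w i)))) =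
        (∏ i : Fin (n + 1), cji (i : ℕ) (idl D (t (w i.castSucc)) (r (w i.castSucc)))) *
          cji (n + 1) (idl D (t e) (r e)) :=
      Fin.prod_univ_castSucc (fun i : Fin (n + 1 + 1) => cji (i : ℕ) (idl D (t (w i)) (r (w i))))
    rw [h1, h2, h3, ← Ideal.span_singleton_mul_span_singleton, hE, wc_span_cje, fac e hmem]
    simp only [wc_cji_mul, wc_cji_pow, wc_cji_nat]
    have hn1 := s_pos e hmem
    rcases Nat.even_or_odd n with hn | hn
    · have hn' : ¬ Even (n + 1) := by
        rw [Nat.even_add_one]; exact not_not.mpr hn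
      have hB := cB e hmem
      simp only [Fin.val_last, hn, if_true] at hstep
      refine ⟨σ * s e * nB e, Nat.mul_pos (Nat.mul_pos hσ hn1) hB.1, ?_⟩
      have hc : ∀ I : Ideal (ℤ√D), cji n I = I := fun I => by simp [cji, hn]
      have hc' : ∀ I : Ideal (ℤ√D), cji (n + 1) I = cj I := fun I => by simp only [cji, hn', if_false]
      have hsp : Ideal.span {((σ * s e * nB e : ℕ) : ℤ√D)} =
          Ideal.span {(σ : ℤ√D)} * Ideal.span {(s e : ℤ√D)} * (B e * cj (B e)) := by
        rw [hB.2, Ideal.span_singleton_mul_span_singleton, Ideal.span_singleton_mul_span_singleton]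
        push_cast; rfl
      rw [hsp]
      simp only [hn, hn', if_true, if_false, hc, hc']
      rw [hstep]
      ring
    · have hne : ¬ Even n := by rwa [Nat.not_even_iff_odd]
      have hn' : Even (n + 1) := by
        rw [Nat.even_add_one]; exact hne
      have hA := cA e hmem
      simp only [Fin.val_last, hne, if_false] at hstep
      refine ⟨σ * s e * nA e, Nat.mul_pos (Nat.mul_pos hσ hn1) hA.1, ?_⟩
      have hc : ∀ I : Ideal (ℤ√D), cji n I = cj I := fun I => by simp only [cji, hne, if_false]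
      have hc' : ∀ I : Ideal (ℤ√D), cji (n + 1) I = I := fun I => by simp only [cji, hn', if_true]
      have hsp : Ideal.span {((σ * s e * nA e : ℕ) : ℤ√D)} =
          Ideal.span {(σ : ℤ√D)} * Ideal.span {(s e : ℤ√D)} * (A e * cj (A e)) := by
        rw [hA.2, Ideal.span_singleton_mul_span_singleton, Ideal.span_singleton_mul_span_singleton]
        push_cast; rfl
      rw [hsp]
      simp only [hne, hn', if_true, if_false, hc, hc']
      rw [hstep]
      ring

end Hp

end Pool.Agent.Lib.MP_d8bd92_nt
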