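import Pool.Agent.Lib.MP_d8bd92_nt.Hp.LLDefs
import Pool.Agent.Lib.MP_d8bd92_nt.Hp.LLG

set_option autoImplicit false

/-!
MP_d8bd92_nt, block WALK, definitions.
-/

namespace Pool.Agent.Lib.MP_d8bd92_nt

namespace Hp

open Finset

/-- the ideal or its conjugate, according to parity -/
def cji {D : ℤ} (i : ℕ) (I : Ideal (ℤ√D)) : Ideal (ℤ√D) := if Even i then I else cj I

/-- the element or its conjugate, according to parity -/
def cje {D : ℤ} (i : ℕ) (z : ℤ√D) : ℤ√D := if Even i then z else star z

/-- Walks with `n + 1` elements, starting at the label `v0` (an `A`-label); the elements `i`, `i+1` share the `B`-label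
for even `i`, the `A`-label for odd `i`. -/
structure IsWalk {ι α : Type} (S : Finset ι) (A B : ι → α) (v0 : α) (n : ℕ) (w : Fin (n + 1) → ι) : Prop where
  mem : ∀ i, w i ∈ S
  start : A (w 0) = v0
  step : ∀ i : Fin n, if Even (i : ℕ) then B (w i.castSucc) = B (w i.succ) else A (w i.castSucc) = A (w i.succ)

end Hp

end Pool.Agent.Lib.MP_d8bd92_nt
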