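import Pool.Agent.Lib.MP_d8bd92_nt.Hp.WD
import Pool.Agent.Lib.MP_d8bd92_nt.Hp.LB1

set_option autoImplicit false

/-!
MP_d8bd92_nt, block WALK, file WE.
-/

namespace Pool.Agent.Lib.MP_d8bd92_nt

namespace Hp

open Finset

theorem we_int {g c : ℕ} (hd : 0 < Nat.gcd g c) {n : ℤ} (h : (g : ℤ) ∣ (c : ℤ) * n) :
    ((g / Nat.gcd g c : ℕ) : ℤ) ∣ n := by
  rw [Int.natCast_dvd] at h ⊢
  rw [Int.natAbs_mul, Int.natAbs_natCast] at h
  have h1 : g / Nat.gcd g c * Nat.gcd g c = g := Nat.div_mul_cancel (Nat.gcd_dvd_left g c)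
  have h2 : c / Nat.gcd g c * Nat.gcd g c = c := Nat.div_mul_cancel (Nat.gcd_dvd_right g c)
  have hcop : Nat.Coprime (g / Nat.gcd g c) (c / Nat.gcd g c) := Nat.coprime_div_gcd_div_gcd hd
  apply hcop.dvd_of_dvd_mul_left
  apply Nat.dvd_of_mul_dvd_mul_right hd
  rw [h1]
  calc g ∣ c * n.natAbs := h
    _ = c / Nat.gcd g c * n.natAbs * Nat.gcd g c := by
        rw [mul_right_comm, h2]

theorem we_dvd {D : ℤ} {g c : ℕ} (hd : 0 < Nat.gcd g c) {v : ℤ√D} (h : (g : ℤ√D) ∣ (c : ℤ√D) * v) :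
    ((g / Nat.gcd g c : ℕ) : ℤ√D) ∣ v := by
  have h' : ((g : ℤ) : ℤ√D) ∣ ((c : ℤ) : ℤ√D) * v := by
    rwa [Int.cast_natCast, Int.cast_natCast]
  rw [Zsqrtd.intCast_dvd] at h'
  have hre : (((c : ℤ) : ℤ√D) * v).re = (c : ℤ) * v.re := by simp
  have him : (((c : ℤ) : ℤ√D) * v).im = (c : ℤ) * v.im := by simp
  rw [hre, him] at h'
  have : (((g / Nat.gcd g c : ℕ) : ℤ) : ℤ√D) ∣ v := by
    rw [Zsqrtd.intCast_dvd]
    exact ⟨we_int hd h'.1, we_int hd h'.2⟩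
  rwa [Int.cast_natCast] at this

theorem we_mono {D : ℤ} {I : Ideal (ℤ√D)} {K K' : ℝ} (h : Cont I K) (hK : K ≤ K') : Cont I K' :=
  fun g hg => (h g hg).trans hK

/-- Row hpWE1.  Content of a product.  Let `g` divide `I * J`.  Let `c` be the largest integer dividing `I` (it exists as
`Cont I K`), `I = span {c} * I'`, `I'` invertible of norm `E'`, `E = c^2 E'`, `Cont I' 1` (e.g. from `struct` in LB1, or directly).
`g' := g / gcd(g, c)` divides `I' * J`.  Then `span {t} * I' = I' * J * cj J ≤ span {g'}` so `g' / gcd(g', t)` divides `I'`, hence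
is 1: `g' ∣ t`.  In the same way `span {E'} * J ≤ span {g'}` and `Cont J 1` give `g' ∣ E'`.  So `g' ≤ Z`, `g ≤ c g' ≤ K Z`. -/
theorem content_mul {D : ℤ} (hD : ∀ n : ℤ, D ≠ n * n) {I J : Ideal (ℤ√D)} {E t : ℕ} {K Z : ℝ} (hK0 : 0 ≤ K) (hI : HN I E)
    (hJ : HN J t) (hK : Cont I K) (hJ1 : Cont J 1) (hZ : ∀ g : ℕ, g ∣ t → g ∣ E → (g : ℝ) ≤ Z) : Cont (I * J) (K * Z) := by
  have hZ1 : (1 : ℝ) ≤ Z := by exact_mod_cast hZ 1 (one_dvd _) (one_dvd _)
  obtain ⟨c, E', b, hc, hE', hE, hb, hmem⟩ := struct hD hI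
  have hcK : (c : ℝ) ≤ K := by
    apply hK
    intro z hz
    obtain ⟨x, y, rfl, _⟩ := (hmem z).1 hz
    rw [Ideal.mem_span_singleton]
    refine ⟨⟨x, y⟩, ?_⟩
    ext <;> simp
  intro g hg
  rcases Nat.eq_zero_or_pos g with rfl | hgpos
  · push_cast
    positivity
  have hd : 0 < Nat.gcd g c := Nat.gcd_pos_of_pos_left _ hgpos
  set g' := g / Nat.gcd g c with hg'
  have hgg : g' * Nat.gcd g c = g := Nat.div_mul_cancel (Nat.gcd_dvd_left g c)
  have hg'pos : 0 < g' := by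
    rcases Nat.eq_zero_or_pos g' with h0 | h0
    · rw [h0, zero_mul] at hgg
      omega
    · exact h0
  have hdvd : ∀ (x y : ℤ), (E' : ℤ) ∣ x - b * y → ∀ w ∈ J, (g' : ℤ√D) ∣ (⟨x, y⟩ : ℤ√D) * w := by
    intro x y hxy w hw
    apply we_dvd hd
    rw [← mul_assoc]
    rw [← Ideal.mem_span_singleton]
    apply hg
    apply Ideal.mul_mem_mul _ hw
    rw [hmem]
    exact ⟨x, y, by ext <;> simp, hxy⟩
  -- g' divides E'
  have h1 : g' ∣ E' := by
    have hd2 : 0 < Nat.gcd g' E' := Nat.gcd_pos_of_pos_left _ hg'pos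
    have h2 : J ≤ Ideal.span {((g' / Nat.gcd g' E' : ℕ) : ℤ√D)} := by
      intro w hw
      rw [Ideal.mem_span_singleton]
      apply we_dvd hd2
      have h3 := hdvd E' 0 (by simp) w hw
      have h4 : (⟨(E' : ℤ), 0⟩ : ℤ√D) = (E' : ℤ√D) := by ext <;> simp
      rwa [h4] at h3
    have h3 := hJ1 _ h2
    have h4 : g' / Nat.gcd g' E' ≤ 1 := by exact_mod_cast h3
    have h5 : g' / Nat.gcd g' E' * Nat.gcd g' E' = g' := Nat.div_mul_cancel (Nat.gcd_dvd_left g' E')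
    have h6 : g' ∣ Nat.gcd g' E' := by
      interval_cases hq : g' / Nat.gcd g' E'
      · omega
      · rw [one_mul] at h5
        rw [h5]
    exact h6.trans (Nat.gcd_dvd_right _ _)
  -- g' divides t
  have h2 : g' ∣ t := by
    have h3 : Ideal.span {(⟨b, 1⟩ : ℤ√D)} * J ≤ Ideal.span {(g' : ℤ√D)} := by
      rw [Ideal.span_singleton_mul_le_iff]
      intro w hw
      rw [Ideal.mem_span_singleton]
      exact hdvd b 1 (by simp) w hw
    have h4 : (⟨b, 1⟩ : ℤ√D) * (t : ℤ√D) ∈ Ideal.span {(g' : ℤ√D)} := by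
      have h5 : (⟨b, 1⟩ : ℤ√D) * (t : ℤ√D) ∈ Ideal.span {(⟨b, 1⟩ : ℤ√D)} * (J * cj J) := by
        apply Ideal.mul_mem_mul (Ideal.mem_span_singleton_self _)
        rw [hJ.2]
        exact Ideal.mem_span_singleton_self _
      rw [← mul_assoc] at h5
      have h6 : Ideal.span {(⟨b, 1⟩ : ℤ√D)} * J * cj J ≤ Ideal.span {(⟨b, 1⟩ : ℤ√D)} * J := Ideal.mul_le_left
      exact h3 (h6 h5)
    rw [Ideal.mem_span_singleton] at h4
    have h6 : ((g' : ℤ) : ℤ√D) ∣ (⟨b, 1⟩ : ℤ√D) * (t : ℤ√D) := by rwa [Int.cast_natCast]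
    rw [Zsqrtd.intCast_dvd] at h6
    have h7 : ((⟨b, 1⟩ : ℤ√D) * (t : ℤ√D)).im = (t : ℤ) := by simp
    rw [h7] at h6
    exact_mod_cast h6.2
  have h3 : (g' : ℝ) ≤ Z := hZ g' h2 (h1.trans ⟨c ^ 2, by rw [hE]; ring⟩)
  have h4 : (Nat.gcd g c : ℝ) ≤ c := by
    exact_mod_cast Nat.le_of_dvd (by omega) (Nat.gcd_dvd_right g c)
  calc (g : ℝ) = (Nat.gcd g c : ℝ) * (g' : ℝ) := by
        rw [← Nat.cast_mul, mul_comm, hgg]
    _ ≤ K * Z := mul_le_mul (h4.trans hcK) h3 (by positivity) hK0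

theorem we_gcd_prod {ι : Type} (s : Finset ι) (k : ℕ) (f : ι → ℕ) :
    Nat.gcd k (∏ i ∈ s, f i) ∣ ∏ i ∈ s, Nat.gcd k (f i) := by
  classical
  induction s using Finset.induction_on with
  | empty => simp
  | insert a s ha ih =>
    rw [Finset.prod_insert ha, Finset.prod_insert ha]
    exact (Nat.gcd_mul_right_dvd_mul_gcd k (f a) _).trans (mul_dvd_mul_left _ ih)

/-- Row hpWE2 (uses E1, WD).  Norm and content of `t_0 cj(t_1) t_2 ...`.  Induction on `n`: the new factor has norm `t_(n+1)`,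
the old product has norm `∏_{i ≤ n} t_i`, and `gcd (t_(n+1), ∏ t_i) ≤ ∏ gcd (t_(n+1), t_i) ≤ Z^(n+1)`. -/
theorem walk_content {D : ℤ} (hD : ∀ n : ℤ, D ≠ n * n) (n : ℕ) (t : Fin (n + 1) → ℕ) (r : Fin (n + 1) → ℤ) (Z : ℝ) (hZ : 1 ≤ Z)
    (h1 : ∀ i, 1 ≤ t i) (hodd : ∀ i, Odd (t i)) (hcop : ∀ i, IsCoprime (t i : ℤ) D) (hr : ∀ i, (t i : ℤ) ∣ r i ^ 2 - D)
    (hg : ∀ i j : Fin (n + 1), i < j → (Nat.gcd (t j) (t i) : ℝ) ≤ Z) :
    HN (∏ i : Fin (n + 1), cji (i : ℕ) (idl D (t i) (r i))) (∏ i, t i) ∧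
      Cont (∏ i : Fin (n + 1), cji (i : ℕ) (idl D (t i) (r i))) (Z ^ ((n + 1) ^ 2)) := by
  have hf : ∀ i : Fin (n + 1), HN (cji (i : ℕ) (idl D (t i) (r i))) (t i) := fun i =>
    cji_HN (idl_HN (h1 i) (hodd i) (hcop i) (hr i)) _
  induction n with
  | zero =>
    rw [Fin.prod_univ_one, Fin.prod_univ_one]
    refine ⟨hf 0, we_mono (cji_cont (idl_cont _ _) _) ?_⟩
    simpa using hZ
  | succ n ih =>
    have hcast := ih (fun i => t i.castSucc) (fun i => r i.castSucc) (fun i => h1 _) (fun i => hodd _) (fun i => hcop _)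
      (fun i => hr _) (fun i j hij => hg _ _ (by simpa using hij))
      (fun i => by simpa using hf i.castSucc)
    rw [Fin.prod_univ_castSucc, Fin.prod_univ_castSucc (f := t)]
    simp only [Fin.val_castSucc]
    refine ⟨hcast.1.mul (hf _), ?_⟩
    have hJ1 : Cont (cji ((Fin.last (n + 1) : Fin (n + 2)) : ℕ) (idl D (t (Fin.last (n + 1))) (r (Fin.last (n + 1))))) 1 :=
      cji_cont (idl_cont _ _) _
    have hg2 : ∀ g : ℕ, g ∣ t (Fin.last (n + 1)) → g ∣ ∏ i : Fin (n + 1), t i.castSucc → (g : ℝ) ≤ Z ^ (n + 1) := by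
      intro g hg1 hg2
      have h2 : g ∣ ∏ i : Fin (n + 1), Nat.gcd (t (Fin.last (n + 1))) (t i.castSucc) :=
        (Nat.dvd_gcd hg1 hg2).trans (we_gcd_prod _ _ _)
      have hpos : 0 < ∏ i : Fin (n + 1), Nat.gcd (t (Fin.last (n + 1))) (t i.castSucc) :=
        Finset.prod_pos fun i _ => Nat.gcd_pos_of_pos_right _ (h1 _)
      calc (g : ℝ) ≤ ((∏ i : Fin (n + 1), Nat.gcd (t (Fin.last (n + 1))) (t i.castSucc) : ℕ) : ℝ) := by
            exact_mod_cast Nat.le_of_dvd hpos h2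
        _ = ∏ i : Fin (n + 1), (Nat.gcd (t (Fin.last (n + 1))) (t i.castSucc) : ℝ) := by push_cast; rfl
        _ ≤ ∏ i : Fin (n + 1), Z := Finset.prod_le_prod (fun _ _ => by positivity)
            (fun i _ => hg _ _ (Fin.castSucc_lt_last i))
        _ = Z ^ (n + 1) := by simp
    have h3 := content_mul hD (by positivity) hcast.1 (hf (Fin.last (n + 1))) hcast.2 hJ1 hg2
    refine we_mono h3 ?_
    rw [← pow_add]
    exact pow_le_pow_right₀ hZ (by nlinarith)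

end Hp

end Pool.Agent.Lib.MP_d8bd92_nt
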