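import Pool.Agent.Lib.MP_d8bd92_nt.Hp.WD
import Pool.Agent.Lib.MP_d8bd92_nt.CdA

set_option autoImplicit false

/-!
MP_d8bd92_nt, block WALK, file WF.
-/

namespace Pool.Agent.Lib.MP_d8bd92_nt

namespace Hp

open Finset

/-- Row hpWF1.  Roots modulo a squarefree number: at most `2^ω(t) = d(t)`.  Induction over the primes of `t` (CRT:
`r ↦ (r mod p, r mod t/p)` is injective on `[0,t)`), at most 2 roots modulo a prime. -/
theorem roots_card (D : ℤ) (t : ℕ) (ht : Squarefree t) (T : Finset ℤ)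
    (hT : ∀ r ∈ T, 0 ≤ r ∧ r < t ∧ (t : ℤ) ∣ r ^ 2 - D) : T.card ≤ t.divisors.card := by
  classical
  rcases T.eq_empty_or_nonempty with rfl | ⟨r0, hr0⟩
  · simp
  have ht0 : t ≠ 0 := ht.ne_zero
  -- the cofactor divides `r + r0`
  have key : ∀ r ∈ T, ∀ k : ℕ, t = Int.gcd (r - r0) t * k → (k : ℤ) ∣ r + r0 := by
    intro r hr k hk
    have hcop : Nat.Coprime (Int.gcd (r - r0) t) k := by
      have h := ht
      rw [hk] at h
      exact (Nat.squarefree_mul_iff.mp h).1
    have hkt : (k : ℤ) ∣ (t : ℤ) := by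
      rw [Int.natCast_dvd_natCast]
      exact ⟨Int.gcd (r - r0) t, by rw [mul_comm]; exact hk⟩
    have h1 : IsCoprime (k : ℤ) (r - r0) := by
      rw [Int.isCoprime_iff_gcd_eq_one]
      have h2 : Int.gcd (k : ℤ) (r - r0) ∣ k := by
        have := Int.gcd_dvd_left (a := (k : ℤ)) (b := r - r0)
        exact Int.natCast_dvd_natCast.mp this
      have h3 : Int.gcd (k : ℤ) (r - r0) ∣ Int.gcd (r - r0) t :=
        Int.dvd_gcd (Int.gcd_dvd_right ..) ((Int.gcd_dvd_left ..).trans hkt)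
      have h4 := Nat.dvd_gcd h3 h2
      rw [hcop] at h4
      exact Nat.dvd_one.mp h4
    refine h1.dvd_of_dvd_mul_left (hkt.trans ?_)
    have h5 := dvd_sub (hT r hr).2.2 (hT r0 hr0).2.2
    have h6 : (r - r0) * (r + r0) = r ^ 2 - D - (r0 ^ 2 - D) := by ring
    rw [h6]
    exact h5
  refine Finset.card_le_card_of_injOn (fun r => Int.gcd (r - r0) t) (fun r _ => ?_)
    (fun r hr r' hr' he => ?_)
  · rw [Finset.mem_coe, Nat.mem_divisors]
    refine ⟨?_, ht0⟩
    have := Int.gcd_dvd_right (a := r - r0) (b := (t : ℤ))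
    exact Int.natCast_dvd_natCast.mp this
  · simp only at he
    obtain ⟨k, hk⟩ : Int.gcd (r - r0) t ∣ t := by
      have := Int.gcd_dvd_right (a := r - r0) (b := (t : ℤ))
      exact Int.natCast_dvd_natCast.mp this
    have hcop : Nat.Coprime (Int.gcd (r - r0) t) k := by
      have h := ht
      rw [hk] at h
      exact (Nat.squarefree_mul_iff.mp h).1
    have h1 := key r hr k hk
    have h2 := key r' hr' k (by rw [← he]; exact hk)
    have h3 : (k : ℤ) ∣ r - r' := by
      have := dvd_sub h1 h2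
      have h4 : r + r0 - (r' + r0) = r - r' := by ring
      rwa [h4] at this
    have h5 : ((Int.gcd (r - r0) t : ℕ) : ℤ) ∣ r - r' := by
      have h6 : ((Int.gcd (r - r0) t : ℕ) : ℤ) ∣ r - r0 := Int.gcd_dvd_left ..
      have h7 : ((Int.gcd (r - r0) t : ℕ) : ℤ) ∣ r' - r0 := by
        rw [he]
        exact Int.gcd_dvd_left ..
      have := dvd_sub h6 h7
      have h8 : r - r0 - (r' - r0) = r - r' := by ring
      rwa [h8] at this
    have h9 : (t : ℤ) ∣ r - r' := by
      have h10 := (Nat.isCoprime_iff_coprime.mpr hcop).mul_dvd h5 h3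
      have h11 : ((Int.gcd (r - r0) t : ℕ) : ℤ) * (k : ℤ) = (t : ℤ) := by
        conv_rhs => rw [hk]
        rw [Nat.cast_mul]
      rwa [h11] at h10
    have hb := hT r hr
    have hb' := hT r' hr'
    have h12 := Int.eq_zero_of_abs_lt_dvd h9 (by rw [abs_lt]; omega)
    omega

theorem wf_idl_eq {D : ℤ} {t : ℕ} {r r' : ℤ} (h : (t : ℤ) ∣ r - r') : idl D t r = idl D t r' := by
  obtain ⟨k, hk⟩ := h
  have h1 : (⟨-r, 1⟩ : ℤ√D) = (⟨-r', 1⟩ : ℤ√D) + (t : ℤ√D) * ((-k : ℤ) : ℤ√D) := by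
    have h2 : ((t : ℕ) : ℤ√D) = ((t : ℤ) : ℤ√D) := by rw [Int.cast_natCast]
    rw [h2, ← Int.cast_mul]
    ext
    · simp only [Zsqrtd.re_add, Zsqrtd.re_intCast]
      linarith
    · simp only [Zsqrtd.im_add, Zsqrtd.im_intCast]
      ring
  unfold idl
  rw [h1]
  exact Ideal.span_pair_add_left_mul _ _ _

theorem wf_HN_prod {D : ℤ} {κ : Type} (s : Finset κ) (I : κ → Ideal (ℤ√D)) (t : κ → ℕ)
    (h : ∀ i ∈ s, HN (I i) (t i)) : HN (∏ i ∈ s, I i) (∏ i ∈ s, t i) := by
  classical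
  induction s using Finset.induction_on with
  | empty =>
    rw [Finset.prod_empty, Finset.prod_empty, Ideal.one_eq_top]
    exact HN_top
  | insert a s ha ih =>
    rw [Finset.prod_insert ha, Finset.prod_insert ha]
    exact (h a (Finset.mem_insert_self a s)).mul
      (ih fun i hi => h i (Finset.mem_insert_of_mem hi))

/-- Row hpWF2 (uses F1, `card_divisors_le_rpow`).  All `t_i` divide `∏ t_i = N` (`HN.unique`), `idl D t r = idl D t r'` if
`t ∣ r - r'`: at most `d(N)` values of `t_i` and `d(t_i) ≤ d(N)` values of the root. So at most `d(N)^(2(n+1))` tuples. -/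
theorem tuple_count (ε : ℝ) (hε : 0 < ε) (n : ℕ) : ∃ C : ℝ, 0 < C ∧ ∀ (D : ℤ) (N : ℕ) (𝔢 : Ideal (ℤ√D))
    (T : Finset (Fin (n + 1) → Ideal (ℤ√D))), HN 𝔢 N →
    (∀ J ∈ T, ∏ i : Fin (n + 1), cji (i : ℕ) (J i) = 𝔢 ∧ ∀ i, ∃ (t : ℕ) (r : ℤ), J i = idl D t r ∧ Squarefree t ∧ Odd t ∧
      IsCoprime (t : ℤ) D ∧ (t : ℤ) ∣ r ^ 2 - D) →
    (T.card : ℝ) ≤ C * (N : ℝ) ^ ε := by
  classical
  obtain ⟨C, hC1, hC⟩ := card_divisors_le_rpow (ε / (2 * (n + 1) : ℝ)) (by positivity)
  refine ⟨C ^ (2 * (n + 1)), by positivity, ?_⟩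
  intro D N 𝔢 T hN hT
  have hN0 : N ≠ 0 := by
    have := hN.1
    omega
  -- the set of the possible ideals
  let rt : ℕ → Finset ℤ := fun t => (Finset.Ico (0 : ℤ) t).filter fun r => (t : ℤ) ∣ r ^ 2 - D
  let 𝒮 : Finset (Ideal (ℤ√D)) :=
    (N.divisors.filter fun t => Squarefree t).biUnion fun t => (rt t).image fun r => idl D t r
  have hcard : 𝒮.card ≤ N.divisors.card * N.divisors.card := by
    refine (Finset.card_biUnion_le_card_mul _ _ N.divisors.card ?_).trans ?_
    · intro t ht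
      rw [Finset.mem_filter, Nat.mem_divisors] at ht
      refine Finset.card_image_le.trans ((roots_card D t ht.2 (rt t) ?_).trans ?_)
      · intro r hr
        rw [Finset.mem_filter, Finset.mem_Ico] at hr
        exact ⟨hr.1.1, hr.1.2, hr.2⟩
      · exact Finset.card_le_card (Nat.divisors_subset_of_dvd hN0 ht.1.1)
    · exact Nat.mul_le_mul_right _ (Finset.card_filter_le _ _)
  have hsub : T ⊆ Fintype.piFinset fun _ : Fin (n + 1) => 𝒮 := by
    intro J hJ
    obtain ⟨hprod, hJi⟩ := hT J hJ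
    choose t r h1 h2 h3 h4 h5 using hJi
    have hHN : ∀ i, HN (J i) (t i) := by
      intro i
      rw [h1 i]
      exact idl_HN (Nat.one_le_iff_ne_zero.mpr (h2 i).ne_zero) (h3 i) (h4 i) (h5 i)
    have hprodHN : HN (∏ i : Fin (n + 1), cji (i : ℕ) (J i)) (∏ i, t i) :=
      wf_HN_prod _ _ _ fun i _ => cji_HN (hHN i) _
    rw [hprod] at hprodHN
    have hN' : ∏ i, t i = N := hprodHN.unique hN
    rw [Fintype.mem_piFinset]
    intro i
    rw [Finset.mem_biUnion]
    refine ⟨t i, ?_, ?_⟩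
    · rw [Finset.mem_filter, Nat.mem_divisors]
      refine ⟨⟨?_, hN0⟩, h2 i⟩
      rw [← hN']
      exact Finset.dvd_prod_of_mem t (Finset.mem_univ i)
    · rw [Finset.mem_image]
      have ht0 : (0 : ℤ) < t i := by
        have := (h2 i).ne_zero
        omega
      refine ⟨r i % t i, ?_, ?_⟩
      · rw [Finset.mem_filter, Finset.mem_Ico]
        refine ⟨⟨Int.emod_nonneg _ (by omega), Int.emod_lt_of_pos _ ht0⟩, ?_⟩
        have h6 : (t i : ℤ) ∣ r i - r i % t i := Int.dvd_self_sub_emod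
        have h7 : (r i % t i) ^ 2 - D = (r i ^ 2 - D) - (r i - r i % t i) * (r i + r i % t i) := by
          ring
        rw [h7]
        exact dvd_sub (h5 i) (h6.mul_right _)
      · rw [h1 i]
        refine wf_idl_eq ?_
        rw [← dvd_neg, neg_sub]
        exact Int.dvd_self_sub_emod
  have hTc : T.card ≤ (N.divisors.card * N.divisors.card) ^ (n + 1) := by
    refine (Finset.card_le_card hsub).trans ?_
    rw [Fintype.card_piFinset, Finset.prod_const, Finset.card_univ, Fintype.card_fin]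
    exact Nat.pow_le_pow_left hcard _
  have hNr : (0 : ℝ) ≤ (N : ℝ) := Nat.cast_nonneg _
  calc (T.card : ℝ) ≤ (((N.divisors.card * N.divisors.card) ^ (n + 1) : ℕ) : ℝ) := by
        exact_mod_cast hTc
    _ = ((N.divisors.card : ℕ) : ℝ) ^ (2 * (n + 1)) := by
        push_cast
        rw [pow_mul, sq]
    _ ≤ (C * (N : ℝ) ^ (ε / (2 * (n + 1) : ℝ))) ^ (2 * (n + 1)) :=
        pow_le_pow_left₀ (Nat.cast_nonneg _) (hC N hN0) _
    _ = C ^ (2 * (n + 1)) * (N : ℝ) ^ ε := by
        rw [mul_pow, ← Real.rpow_mul_natCast hNr]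
        congr 2
        push_cast
        field_simp

end Hp

end Pool.Agent.Lib.MP_d8bd92_nt
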