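import Pool.Agent.Lib.MP_d8bd92_nt.Hp.WDefs
import Pool.Agent.Lib.MP_d8bd92_nt.Hp.LC0

set_option autoImplicit false

/-!
MP_d8bd92_nt, block WALK, file WG.
-/

namespace Pool.Agent.Lib.MP_d8bd92_nt

namespace Hp

open Finset

private theorem wg_step {D : ℤ} {θ C0 C1 : ℝ} (hθ : 0 < θ) (hC0 : 1 ≤ C0) (hC1 : 1 ≤ C1) (x y : ℤ√D)
    (hx : ((hh x : ℤ) : ℝ) ≤ C1 * ((|x.norm| : ℤ) : ℝ))
    (hxi : (((|D| * x.im ^ 2 : ℤ)) : ℝ) ≤ C1 * θ ^ 2 * ((|x.norm| : ℤ) : ℝ))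
    (hy : ((hh y : ℤ) : ℝ) ≤ C0 * ((|y.norm| : ℤ) : ℝ))
    (hyi : (((|D| * y.im ^ 2 : ℤ)) : ℝ) ≤ C0 * θ ^ 2 * ((|y.norm| : ℤ) : ℝ)) :
    ((hh (x * y) : ℤ) : ℝ) ≤ (4 * C1 * C0) * ((|(x * y).norm| : ℤ) : ℝ) ∧
    (((|D| * (x * y).im ^ 2 : ℤ)) : ℝ) ≤ (4 * C1 * C0) * θ ^ 2 * ((|(x * y).norm| : ℤ) : ℝ) := by
  have h1 := hh_mul_le x y
  have h2 := im_mul_sq_le x y
  have h3 : |(x * y).norm| = |x.norm| * |y.norm| := by rw [Zsqrtd.norm_mul, abs_mul]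
  have hx0 := hh_nonneg x
  have hy0 := hh_nonneg y
  have ha0 : 0 ≤ |D| * x.im ^ 2 := by positivity
  have hb0 : 0 ≤ |D| * y.im ^ 2 := by positivity
  have hnx0 : 0 ≤ |x.norm| := abs_nonneg _
  have hny0 : 0 ≤ |y.norm| := abs_nonneg _
  rw [h3]
  generalize hh (x * y) = c at *
  generalize |D| * (x * y).im ^ 2 = d at *
  generalize |D| * x.im ^ 2 = a at *
  generalize |D| * y.im ^ 2 = b at *
  generalize hh x = p at *
  generalize hh y = q at *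
  generalize |x.norm| = nx at *
  generalize |y.norm| = ny at *
  have h1' : (c : ℝ) ≤ 2 * p * q := by exact_mod_cast h1
  have h2' : (d : ℝ) ≤ 2 * (a * q + p * b) := by exact_mod_cast h2
  have p0 : (0 : ℝ) ≤ p := by exact_mod_cast hx0
  have q0 : (0 : ℝ) ≤ q := by exact_mod_cast hy0
  have a0 : (0 : ℝ) ≤ a := by exact_mod_cast ha0
  have b0 : (0 : ℝ) ≤ b := by exact_mod_cast hb0
  have nx0 : (0 : ℝ) ≤ nx := by exact_mod_cast hnx0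
  have ny0 : (0 : ℝ) ≤ ny := by exact_mod_cast hny0
  have hpq : (p : ℝ) * q ≤ (C1 * nx) * (C0 * ny) :=
    mul_le_mul hx hy q0 (by positivity)
  have haq : (a : ℝ) * q ≤ (C1 * θ ^ 2 * nx) * (C0 * ny) :=
    mul_le_mul hxi hy q0 (by positivity)
  have hpb : (p : ℝ) * b ≤ (C1 * nx) * (C0 * θ ^ 2 * ny) :=
    mul_le_mul hx hyi b0 (by positivity)
  have hnn : (0 : ℝ) ≤ C1 * C0 * (nx * ny) := by positivity
  rw [Int.cast_mul]
  constructor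
  · calc (c : ℝ) ≤ 2 * p * q := h1'
      _ = 2 * (p * q) := by ring
      _ ≤ 2 * ((C1 * nx) * (C0 * ny)) := by linarith
      _ = 2 * (C1 * C0 * (nx * ny)) := by ring
      _ ≤ 4 * (C1 * C0 * (nx * ny)) := by linarith
      _ = _ := by ring
  · calc (d : ℝ) ≤ 2 * (a * q + p * b) := h2'
      _ ≤ 2 * ((C1 * θ ^ 2 * nx) * (C0 * ny) + (C1 * nx) * (C0 * θ ^ 2 * ny)) := by linarith
      _ = _ := by ring

/-- Row hpWG.  Products of an even number of factors.  Induction on `m`: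
the product over `range (2 m)` times `u (2m) * star (u (2m+1))`; `hh (x y) ≤ 2 hh x hh y` and `im_mul_sq_le`. -/
theorem even_prod (m : ℕ) (hm : 1 ≤ m) (C0 : ℝ) (hC0 : 1 ≤ C0) : ∃ C1 : ℝ, 1 ≤ C1 ∧ ∀ (D : ℤ) (θ : ℝ) (u : ℕ → ℤ√D), 0 < θ →
    (∀ i j, ((hh (u i * star (u j)) : ℤ) : ℝ) ≤ C0 * ((|(u i * star (u j)).norm| : ℤ) : ℝ)) →
    (∀ i j, (((|D| * (u i * star (u j)).im ^ 2 : ℤ)) : ℝ) ≤ C0 * θ ^ 2 * ((|(u i * star (u j)).norm| : ℤ) : ℝ)) →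
    ((hh (∏ i ∈ range (2 * m), cje i (u i)) : ℤ) : ℝ) ≤ C1 * ((|(∏ i ∈ range (2 * m), cje i (u i)).norm| : ℤ) : ℝ) ∧
    (((|D| * (∏ i ∈ range (2 * m), cje i (u i)).im ^ 2 : ℤ)) : ℝ) ≤
      C1 * θ ^ 2 * ((|(∏ i ∈ range (2 * m), cje i (u i)).norm| : ℤ) : ℝ) := by
  clear hm
  induction m with
  | zero =>
    refine ⟨1, le_refl _, ?_⟩
    intro D θ u hθ _ _
    have h1 : ∏ i ∈ range (2 * 0), cje i (u i) = 1 := by simp
    rw [h1]
    constructor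
    · simp [hh]
    · simp
      positivity
  | succ m ih =>
    obtain ⟨C1, hC1, hC⟩ := ih
    refine ⟨4 * C1 * C0, by nlinarith, ?_⟩
    intro D θ u hθ hu1 hu2
    obtain ⟨h1, h2⟩ := hC D θ u hθ hu1 hu2
    have h3 : ∏ i ∈ range (2 * (m + 1)), cje i (u i) =
        (∏ i ∈ range (2 * m), cje i (u i)) * (u (2 * m) * star (u (2 * m + 1))) := by
      have h4 : 2 * (m + 1) = 2 * m + 1 + 1 := by ring
      rw [h4, Finset.prod_range_succ, Finset.prod_range_succ]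
      have h5 : cje (2 * m) (u (2 * m)) = u (2 * m) := by
        unfold cje
        rw [if_pos (even_two_mul m)]
      have h6 : cje (2 * m + 1) (u (2 * m + 1)) = star (u (2 * m + 1)) := by
        unfold cje
        rw [if_neg]
        rw [Nat.not_even_iff_odd]
        exact ⟨m, rfl⟩
      rw [h5, h6, mul_assoc]
    rw [h3]
    exact wg_step hθ hC0 hC1 _ _ h1 h2 (hu1 _ _) (hu2 _ _)

end Hp

end Pool.Agent.Lib.MP_d8bd92_nt
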