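import Pool.Agent.Lib.MP_d8bd92_nt.Hp.WDefs

set_option autoImplicit false

/-!
MP_d8bd92_nt, block WALK, file WH.
-/

namespace Pool.Agent.Lib.MP_d8bd92_nt

namespace Hp

open Finset

theorem wh_pow1 (x y : ℝ) (a b c d : ℕ) (h1 : c = a) (h2 : d = b + 1) :
    y * (x ^ a * y ^ b) = x ^ c * y ^ d := by
  subst h1 h2
  ring

theorem wh_pow2 (x y : ℝ) (a b c d : ℕ) (h1 : c = a + 1) (h2 : d = b) :
    x * (x ^ a * y ^ b) = x ^ c * y ^ d := by
  subst h1 h2
  ring

open scoped Classical in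
theorem wh_init {ι α β : Type} (S : Finset ι) (A B : ι → α) (J : ι → β) (v0 : α) (n : ℕ)
    (Jw : Fin (n + 2) → β) (w : Fin (n + 2) → ι)
    (hw : IsWalk S A B v0 (n + 1) w ∧ ∀ i, J (w i) = Jw i) :
    IsWalk S A B v0 n (Fin.init w) ∧ ∀ i, J ((Fin.init w : Fin (n + 1) → ι) i) = Jw i.castSucc := by
  obtain ⟨h1, h2⟩ := hw
  refine ⟨⟨fun i => h1.mem _, ?_, ?_⟩, fun i => h2 _⟩
  · have h3 := h1.start
    simpa [Fin.init] using h3
  · intro i
    have h3 := h1.step i.castSucc
    simp only [Fin.val_castSucc, Fin.succ_castSucc] at h3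
    exact h3

open scoped Classical in
theorem wh_fiber {ι α β : Type} (S : Finset ι) (C : ι → α) (J : ι → β) (μ : ℝ)
    (mul : ∀ e ∈ S, ((S.filter (fun e' => C e' = C e ∧ J e' = J e)).card : ℝ) ≤ μ)
    (n : ℕ) (T : Finset (Fin (n + 2) → ι)) (hS : ∀ w ∈ T, w (Fin.last (n + 1)) ∈ S) (hμ : 0 ≤ μ)
    (hC : ∀ w ∈ T, C (w (Fin.last n).castSucc) = C (w (Fin.last (n + 1))))
    (b : β) (hJ : ∀ w ∈ T, J (w (Fin.last (n + 1))) = b) :
    (T.card : ℝ) ≤ μ * ((T.image (fun w => (Fin.init w : Fin (n + 1) → ι))).card : ℝ) := by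
  have h1 : T.card ≤ ⌊μ⌋₊ * (T.image (fun w => (Fin.init w : Fin (n + 1) → ι))).card := by
    apply Finset.card_le_mul_card_image
    intro v hv
    obtain ⟨w, hw, rfl⟩ := Finset.mem_image.1 hv
    apply Nat.le_floor
    refine le_trans ?_ (mul _ (hS w hw))
    have h2 : (T.filter (fun x => (Fin.init x : Fin (n + 1) → ι) = Fin.init w)).card ≤
        (S.filter (fun e' => C e' = C (w (Fin.last (n + 1))) ∧ J e' = J (w (Fin.last (n + 1))))).card := by
      apply Finset.card_le_card_of_injOn (fun x => x (Fin.last (n + 1)))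
      · intro x hx
        rw [Finset.mem_coe, Finset.mem_filter] at hx
        rw [Finset.mem_coe, Finset.mem_filter]
        refine ⟨hS x hx.1, ?_, ?_⟩
        · rw [← hC x hx.1, ← hC w hw]
          have h3 := congrFun hx.2 (Fin.last n)
          simp only [Fin.init] at h3
          rw [h3]
        · rw [hJ x hx.1, hJ w hw]
      · intro x hx y hy hxy
        rw [Finset.mem_coe, Finset.mem_filter] at hx hy
        have h3 : (Fin.init x : Fin (n + 1) → ι) = Fin.init y := by rw [hx.2, hy.2]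
        rw [← Fin.snoc_init_self x, ← Fin.snoc_init_self y]
        have hxy' : x (Fin.last (n + 1)) = y (Fin.last (n + 1)) := hxy
        rw [h3, hxy']
    exact_mod_cast h2
  calc (T.card : ℝ) ≤ ((⌊μ⌋₊ * (T.image (fun w => (Fin.init w : Fin (n + 1) → ι))).card : ℕ) : ℝ) := by
        exact_mod_cast h1
    _ = (⌊μ⌋₊ : ℝ) * ((T.image (fun w => (Fin.init w : Fin (n + 1) → ι))).card : ℝ) := by push_cast; rfl
    _ ≤ _ := mul_le_mul_of_nonneg_right (Nat.floor_le hμ) (Nat.cast_nonneg _)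

open scoped Classical in
/-- Row hpWH.  Walks with a prescribed sequence of data `J`.  Induction on `n` (forget the last element): the first element
has `A = v0` and data `J 0`: at most `μA`; a new element has a prescribed `B`-label (`n` even) resp. `A`-label (`n` odd) and
prescribed data. -/
theorem mult_count {ι α β : Type} (S : Finset ι) (A B : ι → α) (J : ι → β) (μA μB : ℝ) (hμA : 0 ≤ μA) (hμB : 0 ≤ μB)
    (mulA : ∀ e ∈ S, ((S.filter (fun e' => A e' = A e ∧ J e' = J e)).card : ℝ) ≤ μA)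
    (mulB : ∀ e ∈ S, ((S.filter (fun e' => B e' = B e ∧ J e' = J e)).card : ℝ) ≤ μB)
    (v0 : α) (n : ℕ) (Jw : Fin (n + 1) → β) (T : Finset (Fin (n + 1) → ι))
    (hT : ∀ w ∈ T, IsWalk S A B v0 n w ∧ ∀ i, J (w i) = Jw i) :
    (T.card : ℝ) ≤ μA ^ ((n + 2) / 2) * μB ^ ((n + 1) / 2) := by
  induction n with
  | zero =>
    have e1 : (0 + 2) / 2 = 1 := rfl
    have e2 : (0 + 1) / 2 = 0 := rfl
    rw [e1, e2, pow_one, pow_zero, mul_one]
    rcases T.eq_empty_or_nonempty with rfl | ⟨w0, hw0⟩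
    · rw [Finset.card_empty, Nat.cast_zero]
      exact hμA
    · refine le_trans ?_ (mulA _ ((hT w0 hw0).1.mem 0))
      have h2 : T.card ≤ (S.filter (fun e' => A e' = A (w0 0) ∧ J e' = J (w0 0))).card := by
        apply Finset.card_le_card_of_injOn (fun x => x 0)
        · intro x hx
          rw [Finset.mem_coe] at hx
          rw [Finset.mem_coe, Finset.mem_filter]
          refine ⟨(hT x hx).1.mem 0, ?_, ?_⟩
          · rw [(hT x hx).1.start, (hT w0 hw0).1.start]
          · rw [(hT x hx).2, (hT w0 hw0).2]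
        · intro x hx y hy hxy
          funext i
          have hi : i = 0 := Fin.ext (by have := i.isLt; simp)
          rw [hi]
          exact hxy
      exact_mod_cast h2
  | succ n ih =>
    have h1 := ih (fun i => Jw i.castSucc) (T.image (fun w => (Fin.init w : Fin (n + 1) → ι))) (by
      intro v hv
      obtain ⟨w, hw, rfl⟩ := Finset.mem_image.1 hv
      exact wh_init S A B J v0 n Jw w (hT w hw))
    have hJ : ∀ w ∈ T, J (w (Fin.last (n + 1))) = Jw (Fin.last (n + 1)) := fun w hw => (hT w hw).2 _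
    have hS : ∀ w ∈ T, w (Fin.last (n + 1)) ∈ S := fun w hw => (hT w hw).1.mem _
    rcases Nat.even_or_odd n with hn | hn
    · have hC : ∀ w ∈ T, B (w (Fin.last n).castSucc) = B (w (Fin.last (n + 1))) := by
        intro w hw
        have h2 := (hT w hw).1.step (Fin.last n)
        rw [if_pos (by simpa using hn)] at h2
        rw [h2, Fin.succ_last]
      have h3 := wh_fiber S B J μB mulB n T hS hμB hC _ hJ
      obtain ⟨k, rfl⟩ := hn
      calc (T.card : ℝ) ≤ _ := h3
        _ ≤ μB * (μA ^ ((k + k + 2) / 2) * μB ^ ((k + k + 1) / 2)) := mul_le_mul_of_nonneg_left h1 hμB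
        _ = _ := wh_pow1 μA μB _ _ _ _ (by omega) (by omega)
    · have hC : ∀ w ∈ T, A (w (Fin.last n).castSucc) = A (w (Fin.last (n + 1))) := by
        intro w hw
        have h2 := (hT w hw).1.step (Fin.last n)
        rw [if_neg (by simpa using hn)] at h2
        rw [h2, Fin.succ_last]
      have h3 := wh_fiber S A J μA mulA n T hS hμA hC _ hJ
      obtain ⟨k, rfl⟩ := hn
      calc (T.card : ℝ) ≤ _ := h3
        _ ≤ μA * (μA ^ ((2 * k + 1 + 2) / 2) * μB ^ ((2 * k + 1 + 1) / 2)) := mul_le_mul_of_nonneg_left h1 hμA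
        _ = _ := wh_pow2 μA μB _ _ _ _ (by omega) (by omega)

end Hp

end Pool.Agent.Lib.MP_d8bd92_nt
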