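import Pool.Agent.Lib.MP_d8bd92_nt.Hp.LLDefs
import Pool.Agent.Lib.MP_d8bd92_nt.Hp.WB
import Pool.Agent.Lib.MP_d8bd92_nt.Hp.WC
import Pool.Agent.Lib.MP_d8bd92_nt.Hp.WE
import Pool.Agent.Lib.MP_d8bd92_nt.Hp.WF
import Pool.Agent.Lib.MP_d8bd92_nt.Hp.WG
import Pool.Agent.Lib.MP_d8bd92_nt.Hp.WH
import Pool.Agent.Lib.MP_d8bd92_nt.Hp.LK3
import Pool.Agent.Lib.MP_d8bd92_nt.Hp.LK4

set_option autoImplicit false

/-!
MP_d8bd92_nt, block WALK, file WI.
-/

namespace Pool.Agent.Lib.MP_d8bd92_nt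

namespace Hp

open Finset

/-- the ideal of a walk -/
def wi_e {ι : Type} {D : ℤ} (t : ι → ℕ) (r : ι → ℤ) {n : ℕ} (w : Fin (n + 1) → ι) : Ideal (ℤ√D) :=
  ∏ i : Fin (n + 1), cji (i : ℕ) (idl D (t (w i)) (r (w i)))

/-- counting by fibres -/
theorem wi_fiber {α β : Type} [DecidableEq β] (T : Finset α) (g : α → β) (M : ℝ)
    (hM : ∀ x ∈ T.image g, ((T.filter (fun w => g w = x)).card : ℝ) ≤ M) :
    (T.card : ℝ) ≤ ((T.image g).card : ℝ) * M := by
  have h := Finset.card_eq_sum_card_image g T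
  rw [h]
  push_cast
  calc _ ≤ ∑ _x ∈ T.image g, M := Finset.sum_le_sum hM
    _ = _ := by rw [Finset.sum_const, nsmul_eq_mul]

/-- representatives -/
theorem wi_rep {α β : Type} [DecidableEq α] [DecidableEq β] (T : Finset α) (g : α → β) :
    ∃ T' ⊆ T, T'.card = (T.image g).card ∧ ∀ c ∈ T', ∀ c' ∈ T', g c = g c' → c = c' := by
  have h : ∀ x ∈ T.image g, ∃ w ∈ T, g w = x := by
    intro x hx
    exact Finset.mem_image.mp hx
  by_cases hne : T.Nonempty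
  · obtain ⟨a0, ha0⟩ := hne
    have : Nonempty α := ⟨a0⟩
    choose! k hk1 hk2 using h
    refine ⟨(T.image g).image k, ?_, ?_, ?_⟩
    · intro a ha
      obtain ⟨x, hx, rfl⟩ := Finset.mem_image.mp ha
      exact hk1 x hx
    · apply Finset.card_image_of_injOn
      intro x hx y hy hxy
      have h1 := hk2 x (by simpa using hx)
      have h2 := hk2 y (by simpa using hy)
      rw [← h1, ← h2]
      exact congrArg g hxy
    · intro c hc c' hc' hcc
      obtain ⟨x, hx, rfl⟩ := Finset.mem_image.mp hc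
      obtain ⟨y, hy, rfl⟩ := Finset.mem_image.mp hc'
      rw [hk2 x hx, hk2 y hy] at hcc
      rw [hcc]
  · rw [Finset.not_nonempty_iff_eq_empty] at hne
    subst hne
    exact ⟨∅, by simp, by simp, by simp⟩

open scoped Classical in
/-- the walks with the same ideal -/
theorem wi_same {ε C2 : ℝ} (hC2 : 0 < C2) (hε : 0 ≤ ε) {n : ℕ}
    (hcount : ∀ (D : ℤ) (N : ℕ) (𝔢 : Ideal (ℤ√D))
      (T : Finset (Fin (n + 1) → Ideal (ℤ√D))), HN 𝔢 N →
      (∀ J ∈ T, ∏ i : Fin (n + 1), cji (i : ℕ) (J i) = 𝔢 ∧ ∀ i, ∃ (t : ℕ) (r : ℤ), J i = idl D t r ∧ Squarefree t ∧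
        Odd t ∧ IsCoprime (t : ℤ) D ∧ (t : ℤ) ∣ r ^ 2 - D) →
      (T.card : ℝ) ≤ C2 * (N : ℝ) ^ ε)
    {C0 X : ℝ} {D : ℤ} {f l : ℕ} {E θ dA dB Z μA μB : ℝ} {ι : Type} {S : Finset ι} {Ω : ι → ℤ√D}
    {t s : ι → ℕ} {r : ι → ℤ} {q : Ideal (ℤ√D)} {A B : ι → Ideal (ℤ√D)} {nA nB : ι → ℕ} {v0 : Ideal (ℤ√D)}
    (hW : WalkData C0 X D f l E θ (n + 1) dA dB Z μA μB S Ω t s r q A B nA nB)
    (T : Finset (Fin (n + 1) → ι))
    (hT : ∀ w ∈ T, IsWalk S A B v0 n w ∧ ∀ i j : Fin (n + 1), i < j → (Nat.gcd (t (w j)) (t (w i)) : ℝ) ≤ Z)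
    (x : Ideal (ℤ√D)) (hx : ∀ w ∈ T, wi_e t r w = x) :
    (T.card : ℝ) ≤ C2 * ((2 * X) ^ (n + 1)) ^ ε * (μA ^ ((n + 2) / 2) * μB ^ ((n + 1) / 2)) := by
  have hnn : 0 ≤ μA ^ ((n + 2) / 2) * μB ^ ((n + 1) / 2) := by
    have := hW.hμA
    have := hW.hμB
    positivity
  have hX := hW.hX
  by_cases hne : T.Nonempty
  swap
  · rw [Finset.not_nonempty_iff_eq_empty] at hne
    subst hne
    simp only [Finset.card_empty, Nat.cast_zero]
    positivity
  obtain ⟨w0, hw0⟩ := hne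
  -- the norm of x
  have hD := nsq_of_sqf hW.hD hW.hD1
  have h1t : ∀ e ∈ S, 1 ≤ t e := fun e he => Nat.one_le_iff_ne_zero.mpr (hW.t_sq e he).ne_zero
  have hcopD : ∀ e ∈ S, IsCoprime (t e : ℤ) D := fun e he => (IsCoprime.mul_right_iff.mp (hW.t_cop e he)).1
  have hwc := walk_content hD n (fun i => t (w0 i)) (fun i => r (w0 i)) Z hW.hZ
    (fun i => h1t _ ((hT w0 hw0).1.mem i)) (fun i => hW.t_odd _ ((hT w0 hw0).1.mem i))
    (fun i => hcopD _ ((hT w0 hw0).1.mem i)) (fun i => hW.root _ ((hT w0 hw0).1.mem i)) (hT w0 hw0).2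
  have hxN : HN x (∏ i, t (w0 i)) := by
    rw [← hx w0 hw0]
    exact hwc.1
  let g : (Fin (n + 1) → ι) → (Fin (n + 1) → Ideal (ℤ√D)) := fun w i => idl D (t (w i)) (r (w i))
  have hcard : ((T.image g).card : ℝ) ≤ C2 * ((∏ i, t (w0 i) : ℕ) : ℝ) ^ ε := by
    apply hcount D _ x _ hxN
    intro J hJ
    obtain ⟨w, hw, rfl⟩ := Finset.mem_image.mp hJ
    refine ⟨hx w hw, ?_⟩
    intro i
    have hi := (hT w hw).1.mem i
    exact ⟨t (w i), r (w i), rfl, hW.t_sq _ hi, hW.t_odd _ hi, hcopD _ hi, hW.root _ hi⟩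
  have hNX : ((∏ i, t (w0 i) : ℕ) : ℝ) ≤ (2 * X) ^ (n + 1) := by
    push_cast
    calc ∏ i : Fin (n + 1), (t (w0 i) : ℝ) ≤ ∏ _i : Fin (n + 1), (2 * X) := by
          apply Finset.prod_le_prod
          · intro i _
            positivity
          · intro i _
            have h1 := hW.t_hi _ ((hT w0 hw0).1.mem i)
            have h2 := hW.hEX
            linarith
      _ = _ := by simp
  have hpow : ((∏ i, t (w0 i) : ℕ) : ℝ) ^ ε ≤ ((2 * X) ^ (n + 1)) ^ ε :=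
    Real.rpow_le_rpow (by positivity) hNX hε
  have hfib : (T.card : ℝ) ≤ ((T.image g).card : ℝ) * (μA ^ ((n + 2) / 2) * μB ^ ((n + 1) / 2)) := by
    apply wi_fiber
    intro y hy
    apply mult_count S A B (fun e => idl D (t e) (r e)) μA μB (by linarith [hW.hμA]) (by linarith [hW.hμB])
      hW.mulA hW.mulB v0 n y
    intro w hw
    obtain ⟨hw1, hw2⟩ := Finset.mem_filter.mp hw
    refine ⟨(hT w hw1).1, ?_⟩
    intro i
    exact congrFun hw2 i
  calc (T.card : ℝ) ≤ ((T.image g).card : ℝ) * (μA ^ ((n + 2) / 2) * μB ^ ((n + 1) / 2)) := hfib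
    _ ≤ (C2 * ((∏ i, t (w0 i) : ℕ) : ℝ) ^ ε) * (μA ^ ((n + 2) / 2) * μB ^ ((n + 1) / 2)) :=
        mul_le_mul_of_nonneg_right hcard hnn
    _ ≤ _ := mul_le_mul_of_nonneg_right (mul_le_mul_of_nonneg_left hpow hC2.le) hnn

/-- the extended sequence of a walk -/
def wi_u {ι : Type} {D : ℤ} (Ω : ι → ℤ√D) (e0 : ι) {n : ℕ} (w : Fin (n + 1) → ι) (i : ℕ) : ℤ√D :=
  if h : i < n + 1 then Ω (w ⟨i, h⟩) else Ω e0

theorem wi_u_mem {ι : Type} {D : ℤ} {S : Finset ι} (Ω : ι → ℤ√D) {e0 : ι} (he0 : e0 ∈ S) {n : ℕ} {w : Fin (n + 1) → ι}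
    (hw : ∀ i, w i ∈ S) (i : ℕ) : ∃ e ∈ S, wi_u Ω e0 w i = Ω e := by
  unfold wi_u
  split_ifs with h
  · exact ⟨_, hw _, rfl⟩
  · exact ⟨_, he0, rfl⟩

theorem wi_prod {ι : Type} {D : ℤ} (Ω : ι → ℤ√D) (e0 : ι) {n : ℕ} (w : Fin (n + 1) → ι) :
    ∏ i ∈ range (2 * ((n + 2) / 2)), cje i (wi_u Ω e0 w i) =
      (∏ i : Fin (n + 1), cje (i : ℕ) (Ω (w i))) * (if Even n then star (Ω e0) else 1) := by
  have h1 : ∏ i ∈ range (n + 1), cje i (wi_u Ω e0 w i) = ∏ i : Fin (n + 1), cje (i : ℕ) (Ω (w i)) := by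
    rw [Finset.prod_range]
    apply Finset.prod_congr rfl
    intro i _
    unfold wi_u
    rw [dif_pos i.2]
  by_cases hn : Even n
  · have h2 : 2 * ((n + 2) / 2) = n + 1 + 1 := by
      obtain ⟨k, hk⟩ := hn
      omega
    rw [h2, Finset.prod_range_succ, h1, if_pos hn]
    congr 1
    unfold wi_u cje
    rw [dif_neg (by omega), if_neg]
    intro h
    rw [Nat.even_add_one] at h
    exact h hn
  · have h2 : 2 * ((n + 2) / 2) = n + 1 := by
      have := Nat.not_even_iff_odd.mp hn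
      obtain ⟨k, hk⟩ := this
      omega
    rw [h2, h1, if_neg hn, mul_one]

theorem wi_im_dvd {D f : ℤ} (u : ℕ → ℤ√D) (hu : ∀ i, f ∣ (u i).im) (N : ℕ) :
    f ∣ (∏ i ∈ range N, cje i (u i)).im := by
  induction N with
  | zero => simp
  | succ N ih =>
    rw [Finset.prod_range_succ]
    exact im_dvd_mul ih (cje_im_dvd _ (hu N))

theorem wi_norm {D : ℤ} (u : ℕ → ℤ√D) (N : ℕ) :
    (∏ i ∈ range N, cje i (u i)).norm = ∏ i ∈ range N, (u i).norm := by
  induction N with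
  | zero => simp
  | succ N ih =>
    rw [Finset.prod_range_succ, Finset.prod_range_succ, Zsqrtd.norm_mul, ih, cje_norm]

/-- the data of the lattice lemma -/
theorem wi_llg {n : ℕ} {C0 C1 : ℝ}
    (heven : ∀ (D : ℤ) (θ : ℝ) (u : ℕ → ℤ√D), 0 < θ →
      (∀ i j, ((hh (u i * star (u j)) : ℤ) : ℝ) ≤ C0 * ((|(u i * star (u j)).norm| : ℤ) : ℝ)) →
      (∀ i j, (((|D| * (u i * star (u j)).im ^ 2 : ℤ)) : ℝ) ≤ C0 * θ ^ 2 * ((|(u i * star (u j)).norm| : ℤ) : ℝ)) →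
      ((hh (∏ i ∈ range (2 * ((n + 2) / 2)), cje i (u i)) : ℤ) : ℝ) ≤
        C1 * ((|(∏ i ∈ range (2 * ((n + 2) / 2)), cje i (u i)).norm| : ℤ) : ℝ) ∧
      (((|D| * (∏ i ∈ range (2 * ((n + 2) / 2)), cje i (u i)).im ^ 2 : ℤ)) : ℝ) ≤
        C1 * θ ^ 2 * ((|(∏ i ∈ range (2 * ((n + 2) / 2)), cje i (u i)).norm| : ℤ) : ℝ))
    {X : ℝ} {D : ℤ} {f l : ℕ} {E θ dA dB Z μA μB : ℝ} {ι : Type} {S : Finset ι} {Ω : ι → ℤ√D}
    {t s : ι → ℕ} {r : ι → ℤ} {q : Ideal (ℤ√D)} {A B : ι → Ideal (ℤ√D)} {nA nB : ι → ℕ} {v0 vend : Ideal (ℤ√D)}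
    (hW : WalkData C0 X D f l E θ (n + 1) dA dB Z μA μB S Ω t s r q A B nA nB)
    (T : Finset (Fin (n + 1) → ι))
    (hT : ∀ w ∈ T, IsWalk S A B v0 n w ∧ (if Even n then B (w (Fin.last n)) else A (w (Fin.last n))) = vend ∧
      ∀ i j : Fin (n + 1), i < j → (Nat.gcd (t (w j)) (t (w i)) : ℝ) ≤ Z)
    (hinj : ∀ c ∈ T, ∀ c' ∈ T, (wi_e t r c : Ideal (ℤ√D)) = wi_e t r c' → c = c') :
    ∃ (Ω' : (Fin (n + 1) → ι) → ℤ√D) (s' : (Fin (n + 1) → ι) → ℕ) (W : Ideal (ℤ√D)),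
      LLG (max (2 ^ (n + 1)) C1) X (Z ^ ((n + 1) ^ 2)) D f l (E ^ (n + 1)) θ T Ω' (fun w => wi_e t r w)
        (fun w => ∏ i, t (w i)) s' W := by
  have hX := hW.hX
  have hD := nsq_of_sqf hW.hD hW.hD1
  have := isDomain_of hD
  have h1t : ∀ e ∈ S, 1 ≤ t e := fun e he => Nat.one_le_iff_ne_zero.mpr (hW.t_sq e he).ne_zero
  have hcopD : ∀ e ∈ S, IsCoprime (t e : ℤ) D := fun e he => (IsCoprime.mul_right_iff.mp (hW.t_cop e he)).1
  have hcopf : ∀ e ∈ S, IsCoprime (t e : ℤ) (f : ℤ) := fun e he => (IsCoprime.mul_right_iff.mp (hW.t_cop e he)).2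
  obtain ⟨e0, he0⟩ := hW.ne
  have hwc : ∀ w ∈ T, HN (wi_e t r w : Ideal (ℤ√D)) (∏ i, t (w i)) ∧
      Cont (wi_e t r w : Ideal (ℤ√D)) (Z ^ ((n + 1) ^ 2)) := by
    intro w hw
    exact walk_content hD n (fun i => t (w i)) (fun i => r (w i)) Z hW.hZ
      (fun i => h1t _ ((hT w hw).1.mem i)) (fun i => hW.t_odd _ ((hT w hw).1.mem i))
      (fun i => hcopD _ ((hT w hw).1.mem i)) (fun i => hW.root _ ((hT w hw).1.mem i)) (hT w hw).2.2
  have hσ : ∀ w ∈ T, ∃ σ : ℕ, 1 ≤ σ ∧ Ideal.span {∏ i : Fin (n + 1), cje (i : ℕ) (Ω (w i))} =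
      Ideal.span {(σ : ℤ√D)} * ((∏ i : Fin (n + 1), cji (i : ℕ) q) * v0 * cji n vend) * (wi_e t r w) ^ l := by
    intro w hw
    obtain ⟨h1, h2, h3⟩ := hT w hw
    obtain ⟨σ, hσ1, hσ2⟩ := walk_product hW.s_pos hW.cA hW.cB hW.fac n w h1
    refine ⟨σ, hσ1, ?_⟩
    rw [h2] at hσ2
    exact hσ2
  choose! σ hσ1 hσ2 using hσ
  have hmem : ∀ w ∈ T, ∀ i, ∃ e ∈ S, wi_u Ω e0 w i = Ω e := by
    intro w hw i
    exact wi_u_mem Ω he0 (hT w hw).1.mem i
  have hev : ∀ w ∈ T, _ := fun w hw => heven D θ (wi_u Ω e0 w) hW.hθ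
    (by
      intro i j
      obtain ⟨e, he, h1⟩ := hmem w hw i
      obtain ⟨e', he', h2⟩ := hmem w hw j
      rw [h1, h2]
      exact hW.bal e he e' he')
    (by
      intro i j
      obtain ⟨e, he, h1⟩ := hmem w hw i
      obtain ⟨e', he', h2⟩ := hmem w hw j
      rw [h1, h2]
      exact hW.real e he e' he')
  have habs : ∀ z : ℤ√D, (0 : ℝ) ≤ ((|z.norm| : ℤ) : ℝ) := fun z => by
    exact_mod_cast abs_nonneg z.norm
  refine ⟨fun w => ∏ i ∈ range (2 * ((n + 2) / 2)), cje i (wi_u Ω e0 w i), σ,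
    ((∏ i : Fin (n + 1), cji (i : ℕ) q) * v0 * cji n vend) * Ideal.span {(if Even n then star (Ω e0) else 1 : ℤ√D)}, ?_⟩
  exact {
    hX := hX
    hD := hD
    hDX := hW.hDX
    hf := hW.hf
    hfX := hW.hfX
    hl := hW.hl
    hE := one_le_pow₀ hW.hE
    hθ := hW.hθ
    hθ1 := hW.hθ1
    hK := one_le_pow₀ hW.hZ
    im_dvd := by
      intro w hw
      apply wi_im_dvd
      intro i
      obtain ⟨e, he, h1⟩ := hmem w hw i
      rw [h1]
      exact hW.im_dvd e he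
    nz := by
      intro w hw h0
      have h1 := congrArg Zsqrtd.norm h0
      rw [wi_norm, Zsqrtd.norm_zero, Finset.prod_eq_zero_iff] at h1
      obtain ⟨i, _, hi⟩ := h1
      obtain ⟨e, he, h2⟩ := hmem w hw i
      rw [h2] at hi
      exact hW.nz e he ((Zsqrtd.norm_eq_zero hD _).mp hi)
    cop := by
      intro w hw
      show IsCoprime (∏ i ∈ range (2 * ((n + 2) / 2)), cje i (wi_u Ω e0 w i)).norm (f : ℤ)
      rw [wi_norm]
      apply IsCoprime.prod_left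
      intro i _
      obtain ⟨e, he, h2⟩ := hmem w hw i
      rw [h2]
      exact hW.cop e he
    s_pos := hσ1
    hn := fun w hw => (hwc w hw).1
    E_cop := by
      intro w hw
      push_cast
      apply IsCoprime.prod_left
      intro i _
      exact hcopf _ ((hT w hw).1.mem i)
    E_lo := by
      intro w hw
      push_cast
      calc E ^ (n + 1) = ∏ _i : Fin (n + 1), E := by simp
        _ ≤ _ := by
          apply Finset.prod_le_prod
          · intro i _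
            linarith [hW.hE]
          · intro i _
            exact hW.t_lo _ ((hT w hw).1.mem i)
    E_hi := by
      intro w hw
      push_cast
      have hE0 : 0 ≤ E ^ (n + 1) := by
        have := hW.hE
        positivity
      calc ∏ i : Fin (n + 1), (t (w i) : ℝ) ≤ ∏ _i : Fin (n + 1), (2 * E) := by
            apply Finset.prod_le_prod
            · intro i _
              positivity
            · intro i _
              exact hW.t_hi _ ((hT w hw).1.mem i)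
        _ = 2 ^ (n + 1) * E ^ (n + 1) := by
            simp [mul_pow]
        _ ≤ _ := mul_le_mul_of_nonneg_right (le_max_left _ _) hE0
    cont := fun w hw => (hwc w hw).2
    fac := by
      intro w hw
      show Ideal.span {∏ i ∈ range (2 * ((n + 2) / 2)), cje i (wi_u Ω e0 w i)} = _
      rw [wi_prod, ← Ideal.span_singleton_mul_span_singleton, hσ2 w hw]
      ring
    bal := by
      intro w hw
      refine (hev w hw).1.trans ?_
      exact mul_le_mul_of_nonneg_right (le_max_right _ _) (habs _)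
    real := by
      intro w hw
      refine (hev w hw).2.trans ?_
      apply mul_le_mul_of_nonneg_right _ (habs _)
      exact mul_le_mul_of_nonneg_right (le_max_right _ _) (sq_nonneg _)
    inj := hinj }

open scoped Classical in
/-- Row hpWI (uses WC, WE, WF, WG, WH, LK3, LK4).  Walks with the same end label.  `h = n + 1`.
`𝔢_w := ∏ cji i (idl D (t (w i)) (r (w i)))`.  Let `T' ⊆ T` be a set of representatives of the different `𝔢_w`.  Apply
`ll_general` (or `ll_general_one` if `l = 1`) to `T'` with `Ω'_w := ∏ cje i (Ω (w i))` if `n` is odd, and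
`(∏ cje i (Ω (w i))) * star (Ω e0)` if `n` is even (an even number of factors: `even_prod`, `cje (n+1) = star`),
`W := (∏ cji i q) * v0 * cji n (end label)` (times `span {star (Ω e0)}` if `n` is even), `s := σ` of `walk_product`,
`En := ∏ t (w i) ∈ [E^h, 2^h E^h]`, `K := Z^(h^2)` (`walk_content`), the constants `C0' = max(2^h, C1)`, the same `X, D, f, l, θ`, and
`E^h` for `E` (`IsCoprime (En) f` from `t_cop`; norms: `cje_norm`).  For each `𝔢` at most `C N^ε` tuples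
`(idl D (t (w i)) (r (w i)))_i` (`tuple_count`, `N = ∏ t (w i) ≤ (2 X)^h`), for each tuple at most `μA^.. μB^..` walks (`mult_count`). -/
theorem walk_end (ε : ℝ) (hε : 0 < ε) (L n : ℕ) (C0 : ℝ) (hC0 : 1 ≤ C0) : ∃ C : ℝ, 0 < C ∧
    ∀ (X : ℝ) (D : ℤ) (f l : ℕ) (E θ : ℝ) (dA dB Z μA μB : ℝ) (ι : Type) (S : Finset ι) (Ω : ι → ℤ√D)
      (t s : ι → ℕ) (r : ι → ℤ) (q : Ideal (ℤ√D)) (A B : ι → Ideal (ℤ√D)) (nA nB : ι → ℕ) (v0 vend : Ideal (ℤ√D))
      (T : Finset (Fin (n + 1) → ι)), l ≤ L →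
      WalkData C0 X D f l E θ (n + 1) dA dB Z μA μB S Ω t s r q A B nA nB →
      (∀ w ∈ T, IsWalk S A B v0 n w ∧ (if Even n then B (w (Fin.last n)) else A (w (Fin.last n))) = vend ∧
        ∀ i j : Fin (n + 1), i < j → (Nat.gcd (t (w j)) (t (w i)) : ℝ) ≤ Z) →
      (T.card : ℝ) ≤ C * X ^ ε * Z ^ ((n + 1) ^ 2) * μA ^ ((n + 2) / 2) * μB ^ ((n + 1) / 2) *
        (if l = 1 then 1 else √((|D| : ℤ) : ℝ)) * (1 + θ * E ^ (n + 1) / ((f : ℝ) * √((|D| : ℤ) : ℝ))) := by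
  obtain ⟨C1, hC1, heven⟩ := even_prod ((n + 2) / 2) (by omega) C0 hC0
  have hC' : 1 ≤ max (2 ^ (n + 1)) C1 := hC1.trans (le_max_right _ _)
  have hn1 : (0 : ℝ) < (n + 1 : ℕ) := by positivity
  obtain ⟨C2, hC2, hcount⟩ := tuple_count (ε / 2 / (n + 1 : ℕ)) (by positivity) n
  obtain ⟨C3, hC3, hgen⟩ := ll_general (ε / 2) (by positivity) L _ hC'
  obtain ⟨C4, hC4, hone⟩ := ll_general_one _ hC'
  refine ⟨(C3 + C4) * (C2 * 2 ^ (ε / 2)), by positivity, ?_⟩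
  intro X D f l E θ dA dB Z μA μB ι S Ω t s r q A B nA nB v0 vend T hlL hW hT
  have hX := hW.hX
  have hX0 : 0 < X := by linarith
  have hD := nsq_of_sqf hW.hD hW.hD1
  obtain ⟨T', hT'sub, hT'card, hT'inj⟩ := wi_rep T (fun w => (wi_e t r w : Ideal (ℤ√D)))
  obtain ⟨Ω', s', W, hLL⟩ := wi_llg heven hW T' (fun w hw => hT w (hT'sub hw)) hT'inj
  have hθE : 0 ≤ 1 + θ * E ^ (n + 1) / ((f : ℝ) * √((|D| : ℤ) : ℝ)) := by
    have h1 := hW.hθ
    have h2 := hW.hE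
    positivity
  have hZ0 : 0 ≤ Z := by linarith [hW.hZ]
  have hXε : 1 ≤ X ^ (ε / 2) := Real.one_le_rpow hX (by positivity)
  -- the number of ideals
  have hcard1 : (T'.card : ℝ) ≤ (C3 + C4) * X ^ (ε / 2) * Z ^ ((n + 1) ^ 2) *
      (if l = 1 then 1 else √((|D| : ℤ) : ℝ)) * (1 + θ * E ^ (n + 1) / ((f : ℝ) * √((|D| : ℤ) : ℝ))) := by
    split_ifs with hl1
    · subst hl1
      have h1 := hone X _ D f _ θ _ T' Ω' _ _ s' W hLL
      refine h1.trans ?_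
      apply mul_le_mul_of_nonneg_right _ hθE
      rw [mul_one]
      apply mul_le_mul_of_nonneg_right _ (by positivity)
      nlinarith
    · have h1 := hgen X _ D f l _ θ _ T' Ω' _ _ s' W hlL hLL
      refine h1.trans ?_
      apply mul_le_mul_of_nonneg_right _ hθE
      apply mul_le_mul_of_nonneg_right _ (by positivity)
      apply mul_le_mul_of_nonneg_right _ (by positivity)
      apply mul_le_mul_of_nonneg_right _ (by positivity)
      linarith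
  -- the walks with a given ideal
  have hcard2 : (T.card : ℝ) ≤ ((T.image (fun w => (wi_e t r w : Ideal (ℤ√D)))).card : ℝ) *
      (C2 * ((2 * X) ^ (n + 1)) ^ (ε / 2 / (n + 1 : ℕ)) * (μA ^ ((n + 2) / 2) * μB ^ ((n + 1) / 2))) := by
    apply wi_fiber
    intro x hx
    apply wi_same hC2 (by positivity) hcount hW _ _ x
    · intro w hw
      exact (Finset.mem_filter.mp hw).2
    · exact v0
    · intro w hw
      have h1 := hT w (Finset.mem_filter.mp hw).1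
      exact ⟨h1.1, h1.2.2⟩
  have hpow : ((2 * X) ^ (n + 1)) ^ (ε / 2 / (n + 1 : ℕ)) = 2 ^ (ε / 2) * X ^ (ε / 2) := by
    rw [← Real.rpow_natCast, ← Real.rpow_mul (by positivity), mul_div_cancel₀ _ hn1.ne',
      Real.mul_rpow (by norm_num) hX0.le]
  have hXX : X ^ ε = X ^ (ε / 2) * X ^ (ε / 2) := by
    rw [← Real.rpow_add hX0]
    congr 1
    ring
  rw [hpow, ← hT'card] at hcard2
  have hμ : 0 ≤ C2 * (2 ^ (ε / 2) * X ^ (ε / 2)) * (μA ^ ((n + 2) / 2) * μB ^ ((n + 1) / 2)) := by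
    have h1 := hW.hμA
    have h2 := hW.hμB
    positivity
  refine hcard2.trans ((mul_le_mul_of_nonneg_right hcard1 hμ).trans (le_of_eq ?_))
  rw [hXX]
  ring

end Hp

end Pool.Agent.Lib.MP_d8bd92_nt
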